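import Mathlib

/-!
# Dense regime: definitions for the deterministic lemmas
-/

set_option autoImplicit false

namespace Pool.Agent.LongCyc.Dense

open Finset

section Surgery

variable {V : Type*}

/-- `k`-fold iteration of a partial map -/
def it (c : V → Option V) : ℕ → V → Option V
  | 0, x => some x
  | k + 1, x => (it c k x).bind c

/-- partial injectivity -/
def PInj (c : V → Option V) : Prop := ∀ x y v, c x = some v → c y = some v → x = y

/-- the run of `L` vertices `u, b u, …, b^{L-1} u` of the base map `b` is contained in `c` -/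
def Intact (b c : V → Option V) (L : ℕ) (u : V) : Prop :=
  ∀ k, k + 1 < L → ∃ y y', it b k u = some y ∧ b y = some y' ∧ c y = some y'

/-- every stretch of `Bd` consecutive vertices of `c` contains an intact good run of `L` vertices -/
def Stretch (b : V → Option V) (Good : V → Prop) (L : ℕ) (c : V → Option V) (Bd : ℕ) : Prop :=
  ∀ y, it c (Bd - 1) y ≠ none → ∃ j u, j + L ≤ Bd ∧ it c j y = some u ∧ Good u ∧ Intact b c L u

/-- A family of trails with `N` cut vertices each: `x` = start, `w` = cut vertices (index `a` = level `a+1`),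
`v` = the even vertices (`v 0 = x`, `v (a+1) = c (w a)`), `e` = end. -/
structure Trails (c : V → Option V) (TT : Type*) (N : ℕ) where
  x : TT → V
  w : TT → Fin N → V
  e : TT → V
  v : TT → Fin (N + 1) → V
  hv0 : ∀ T, v T 0 = x T
  hv : ∀ T (a : Fin N), c (w T a) = some (v T a.succ)
  hx : ∀ T y, c y ≠ some (x T)
  he : ∀ T, c (e T) = none
  winj : Function.Injective fun q : TT × Fin N => w q.1 q.2
  xinj : Function.Injective x
  einj : Function.Injective e

/-- `c'` is the result of the surgery along the trails -/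
structure Trails.IsNew {c : V → Option V} {TT : Type*} {N : ℕ} (S : Trails c TT N)
    (c' : V → Option V) : Prop where
  cut : ∀ T (a : Fin N), c' (S.w T a) = some (S.v T a.castSucc)
  fin : ∀ T, c' (S.e T) = some (S.v T (Fin.last N))
  other : ∀ y, (∀ T a, y ≠ S.w T a) → (∀ T, y ≠ S.e T) → c' y = c y

/-- the good run starting at `u` is contained in the graph `F'` -/
def RunIn (b : V → Option V) (Good : V → Prop) (L : ℕ) (F' : SimpleGraph V) (u : V) : Prop :=
  Good u ∧ ∀ k, k + 1 < L → ∃ y y', it b k u = some y ∧ b y = some y' ∧ F'.Adj y y'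

end Surgery

section Core

variable {PP : Type*} [Fintype PP] [DecidableEq PP]

/-- neighbourhood of a set in a graph -/
def nbr (G : SimpleGraph PP) [DecidableRel G.Adj] (S : Finset PP) : Finset PP :=
  univ.filter fun q => ∃ p ∈ S, G.Adj p q

/-- expansion of all sets of size between `s0` and `2/3` -/
def Expands (G : SimpleGraph PP) [DecidableRel G.Adj] (s0 η : ℝ) : Prop :=
  ∀ S : Finset PP, s0 ≤ S.card → 3 * S.card ≤ 2 * Fintype.card PP →
    η * S.card ≤ ((nbr G S \ S).card : ℝ)

/-- `W` is admissible (non-expanding relative to `U`) -/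
def Adm (G : SimpleGraph PP) [DecidableRel G.Adj] (η : ℝ) (U W : Finset PP) : Prop :=
  3 * W.card ≤ 2 * Fintype.card PP ∧ ((nbr G W \ (W ∪ U)).card : ℝ) ≤ η / 2 * W.card

/-- maximal admissible -/
def AdmMax (G : SimpleGraph PP) [DecidableRel G.Adj] (η : ℝ) (U W : Finset PP) : Prop :=
  Adm G η U W ∧ ∀ W', W ⊆ W' → Adm G η U W' → W' = W

end Core

section Link

variable {V : Type*} [Fintype V] [DecidableEq V]

/-- Data of the linking lemma: `F` = 2-matching (paths and cycles), `H` = a matching of fresh edges, `P p` = disjoint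
`F`-paths on `Vr` vertices. -/
structure LinkData (F H : SimpleGraph V) [DecidableRel F.Adj] [DecidableRel H.Adj] (PP : Type*)
    [Fintype PP] [DecidableEq PP] (Vr : ℕ) where
  P : PP → Fin Vr → V
  hF : ∀ v, (univ.filter fun u => F.Adj v u).card ≤ 2
  hH : ∀ v, (univ.filter fun u => H.Adj v u).card ≤ 1
  hFH : ∀ u v, F.Adj u v → ¬ H.Adj u v
  inj : Function.Injective fun q : PP × Fin Vr => P q.1 q.2
  adj : ∀ p (i : ℕ) (hi : i + 1 < Vr), F.Adj (P p ⟨i, by omega⟩) (P p ⟨i + 1, hi⟩)
  hVr : 2 ≤ Vr

/-- two pieces are joined by an edge of `H` -/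
def LinkData.pg {F H : SimpleGraph V} [DecidableRel F.Adj] [DecidableRel H.Adj] {PP : Type*}
    [Fintype PP] [DecidableEq PP] {Vr : ℕ} (D : LinkData F H PP Vr) : SimpleGraph PP where
  Adj p q := p ≠ q ∧ ∃ i j, H.Adj (D.P p i) (D.P q j)
  symm := ⟨by rintro p q ⟨h, i, j, hij⟩; exact ⟨h.symm, j, i, hij.symm⟩⟩
  loopless := ⟨fun _ h => h.1 rfl⟩

/-- number of vertices of degree at most one -/
def endCard (F : SimpleGraph V) [DecidableRel F.Adj] : ℕ :=
  (univ.filter fun v : V => (univ.filter fun u => F.Adj v u).card ≤ 1).card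

end Link

section Flip

variable {V : Type*}

/-- `x, y` are cyclically consecutive in the list `l` (in this order) -/
def CNext (l : List V) (x y : V) : Prop :=
  (∃ s t : List V, l = s ++ x :: y :: t) ∨ (∃ s : List V, l = y :: s ++ [x])

/-- cyclically consecutive, in any order -/
def CAdj (l : List V) (x y : V) : Prop := CNext l x y ∨ CNext l y x

/-- a cycle of the relation `A`, as a cyclic list of vertices -/
structure IsCyc (A : V → V → Prop) (l : List V) : Prop where
  nodup : l.Nodup
  len : 3 ≤ l.length
  adj : ∀ x y, CNext l x y → A x y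

end Flip

end Pool.Agent.LongCyc.Dense
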