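import Mathlib
import Pool.Agent.LongCyc.Dense.Defs

/-!
# Package LCD5 of MP_ebc051_pr: components of the linked graph without an intact good run
-/

set_option autoImplicit false

namespace Pool.Agent.LongCyc.Dense

open Finset

variable {V : Type*} [Fintype V] [DecidableEq V]

namespace BadMassAux

/-- the part of `c` inside the graph -/
noncomputable def res (c : V → Option V) (F' : SimpleGraph V) : V → Option V := by
  classical
  exact fun y => if ∃ y', c y = some y' ∧ F'.Adj y y' then c y else none

omit [Fintype V] [DecidableEq V] in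
theorem res_eq {c : V → Option V} {F' : SimpleGraph V} {y y' : V} :
    res c F' y = some y' ↔ c y = some y' ∧ F'.Adj y y' := by
  classical
  unfold res
  by_cases h : ∃ y', c y = some y' ∧ F'.Adj y y'
  · simp only [h, if_true]
    constructor
    · intro hy
      obtain ⟨z, hz, hz'⟩ := h
      rw [hz] at hy
      obtain rfl := Option.some.inj hy
      exact ⟨hz, hz'⟩
    · exact fun hy => hy.1
  · simp only [h, if_false]
    constructor
    · intro hy; cases hy
    · intro hy; exact absurd ⟨y', hy⟩ h

omit [Fintype V] [DecidableEq V] in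
theorem it_succ_some {c : V → Option V} {k : ℕ} {x z : V} (h : it c (k + 1) x = some z) :
    ∃ y, it c k x = some y ∧ c y = some z := by
  have h' : (it c k x).bind c = some z := h
  rw [Option.bind_eq_some_iff] at h'
  exact h'

omit [Fintype V] [DecidableEq V] in
theorem it_succ_of {c : V → Option V} {k : ℕ} {x y : V} (h : it c k x = some y) :
    it c (k + 1) x = c y := by
  show (it c k x).bind c = c y
  rw [h]; rfl

omit [Fintype V] [DecidableEq V] in
theorem it_none {c : V → Option V} {x : V} {i j : ℕ} (hij : i ≤ j) (h : it c i x = none) :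
    it c j x = none := by
  induction j, hij using Nat.le_induction with
  | base => exact h
  | succ n _ ih =>
    show (it c n x).bind c = none
    rw [ih]; rfl

omit [Fintype V] [DecidableEq V] in
theorem it_add (c : V → Option V) (i j : ℕ) (x y : V) (h : it c i x = some y) :
    it c (i + j) x = it c j y := by
  induction j with
  | zero => exact h
  | succ j ih =>
    show (it c (i + j) x).bind c = (it c j y).bind c
    rw [ih]

omit [Fintype V] [DecidableEq V] in
theorem it_res {c : V → Option V} {F' : SimpleGraph V} (k : ℕ) : ∀ {x z : V},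
    it (res c F') k x = some z → it c k x = some z := by
  induction k with
  | zero => intro x z h; exact h
  | succ k ih =>
    intro x z h
    obtain ⟨y, hy, hy'⟩ := it_succ_some h
    rw [it_succ_of (ih hy)]
    exact (res_eq.1 hy').1

omit [Fintype V] [DecidableEq V] in
theorem it_reach {c : V → Option V} {F' : SimpleGraph V} (k : ℕ) : ∀ {x z : V},
    it (res c F') k x = some z → F'.Reachable x z := by
  induction k with
  | zero => intro x z h; obtain rfl := Option.some.inj h; exact SimpleGraph.Reachable.refl _
  | succ k ih =>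
    intro x z h
    obtain ⟨y, hy, hy'⟩ := it_succ_some h
    exact (ih hy).trans (res_eq.1 hy').2.reachable

omit [Fintype V] [DecidableEq V] in
theorem it_inj {c : V → Option V} (hc : PInj c) (k : ℕ) : ∀ {x y z : V},
    it c k x = some z → it c k y = some z → x = y := by
  induction k with
  | zero => intro x y z h h'; exact Option.some.inj (h.trans h'.symm)
  | succ k ih =>
    intro x y z h h'
    obtain ⟨p, hp, hp'⟩ := it_succ_some h
    obtain ⟨q, hq, hq'⟩ := it_succ_some h'
    have := hc p q z hp' hq'
    subst this
    exact ih hp hq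

omit [Fintype V] [DecidableEq V] in
theorem exists_last {c : V → Option V} {x : V} (n : ℕ) (h : it c n x = none) :
    ∃ k z, k < n ∧ it c k x = some z ∧ c z = none := by
  induction n with
  | zero => cases h
  | succ n ih =>
    cases hn : it c n x with
    | none =>
      obtain ⟨k, z, hk, hz⟩ := ih hn
      exact ⟨k, z, by omega, hz⟩
    | some z =>
      refine ⟨n, z, by omega, hn, ?_⟩
      rw [← it_succ_of hn]; exact h

end BadMassAux

open BadMassAux

/-- `F'` is 2-regular outside `X`, its edges are edges of the 2-matching `c` (paths and cycles) or new edges; if every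
stretch of `Bd` vertices of `c` contains an intact good run, then all but `Bd * #(ordered new edges)` vertices outside `X` lie
in a component of `F'` containing a good run. -/
theorem bad_mass (c b : V → Option V) (hc : PInj c) (hc2 : ∀ x y, c x = some y → c y ≠ some x)
    (hcx : ∀ x, c x ≠ some x) (Good : V → Prop) (L Bd : ℕ) (hL : 2 ≤ L) (hBd : L ≤ Bd)
    (hst : Stretch b Good L c Bd) (F' : SimpleGraph V) [DecidableRel F'.Adj] (X : Finset V)
    (hX : ∀ v ∈ X, ∀ u, ¬ F'.Adj v u)
    (hreg : ∀ v, v ∉ X → (univ.filter fun u => F'.Adj v u).card = 2) (m : ℕ)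
    (hm : (univ.filter fun q : V × V => F'.Adj q.1 q.2 ∧ c q.1 ≠ some q.2 ∧ c q.2 ≠ some q.1).card ≤ m) :
    ∃ Bad : Finset V, Bad.card ≤ m * Bd ∧
      ∀ v, v ∉ X → v ∉ Bad → ∃ u, RunIn b Good L F' u ∧ F'.Reachable v u := by
  classical
  have hr : PInj (res c F') := fun x y v hx hy => hc x y v (res_eq.1 hx).1 (res_eq.1 hy).1
  set Z : Finset V := univ.filter fun z => z ∉ X ∧ res c F' z = none with hZ
  -- ends of the segments have a new edge
  have hend : ∀ z ∈ Z, ∃ p, F'.Adj z p ∧ c z ≠ some p ∧ c p ≠ some z := by
    intro z hz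
    have hz' := (Finset.mem_filter.1 hz).2
    by_contra hcon
    push Not at hcon
    have hall : ∀ u, F'.Adj z u → c u = some z := by
      intro u hu
      refine hcon u hu fun h => ?_
      have := res_eq.2 ⟨h, hu⟩
      rw [hz'.2] at this
      cases this
    have hle : (univ.filter fun u => F'.Adj z u).card ≤ 1 := by
      refine Finset.card_le_one.2 fun p hp q hq => ?_
      exact hc p q z (hall p (Finset.mem_filter.1 hp).2) (hall q (Finset.mem_filter.1 hq).2)
    have := hreg z hz'.1
    omega
  have hZm : Z.card ≤ m := by
    refine le_trans ?_ hm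
    choose! p hp using hend
    refine Finset.card_le_card_of_injOn (fun z => (z, p z)) ?_ ?_
    · intro z hz
      exact Finset.mem_coe.2 (Finset.mem_filter.2 ⟨Finset.mem_univ _, hp z (Finset.mem_coe.1 hz)⟩)
    · intro z _ z' _ h
      exact (Prod.mk.inj h).1
  refine ⟨univ.filter fun v => v ∉ X ∧ it (res c F') (Bd - 1) v = none, ?_, ?_⟩
  · have hsub : (univ.filter fun v => v ∉ X ∧ it (res c F') (Bd - 1) v = none)
        ⊆ (Z ×ˢ range Bd).biUnion fun q => univ.filter fun v => it (res c F') q.2 v = some q.1 := by
      intro v hv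
      have hv' := (Finset.mem_filter.1 hv).2
      obtain ⟨k, z, hk, hz, hz'⟩ := exists_last _ hv'.2
      have hzX : z ∉ X := by
        cases k with
        | zero => obtain rfl := Option.some.inj hz; exact hv'.1
        | succ k =>
          obtain ⟨y, _, hy⟩ := it_succ_some hz
          intro hzX
          exact hX z hzX y (res_eq.1 hy).2.symm
      refine Finset.mem_biUnion.2 ⟨(z, k), ?_, ?_⟩
      · exact Finset.mem_product.2 ⟨Finset.mem_filter.2 ⟨Finset.mem_univ _, hzX, hz'⟩,
          Finset.mem_range.2 (by show k < Bd; omega)⟩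
      · exact Finset.mem_filter.2 ⟨Finset.mem_univ _, hz⟩
    refine (Finset.card_le_card hsub).trans ?_
    refine Finset.card_biUnion_le.trans ?_
    calc ∑ q ∈ Z ×ˢ range Bd, (univ.filter fun v => it (res c F') q.2 v = some q.1).card
        ≤ ∑ q ∈ Z ×ˢ range Bd, 1 := by
          refine Finset.sum_le_sum fun q _ => Finset.card_le_one.2 fun x hx y hy => ?_
          exact it_inj hr q.2 (Finset.mem_filter.1 hx).2 (Finset.mem_filter.1 hy).2
      _ = Z.card * Bd := by simp
      _ ≤ m * Bd := Nat.mul_le_mul_right _ hZm
  · intro v hvX hv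
    have hne : it (res c F') (Bd - 1) v ≠ none := fun h =>
      hv (Finset.mem_filter.2 ⟨Finset.mem_univ _, hvX, h⟩)
    have hsome : ∀ i, i ≤ Bd - 1 → ∃ y, it (res c F') i v = some y := by
      intro i hi
      cases h : it (res c F') i v with
      | none => exact absurd (it_none hi h) hne
      | some y => exact ⟨y, rfl⟩
    obtain ⟨w, hw⟩ := hsome (Bd - 1) le_rfl
    obtain ⟨j, u, hj, hju, hGood, hInt⟩ := hst v (by rw [it_res _ hw]; simp)
    have hju' : it (res c F') j v = some u := by
      obtain ⟨y, hy⟩ := hsome j (by omega)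
      have := it_res _ hy
      rw [hju] at this
      rw [hy, ← this]
    have hrun : ∀ k, k + 1 ≤ L → ∃ y, it b k u = some y ∧ it (res c F') (j + k) v = some y := by
      intro k
      induction k with
      | zero => intro _; exact ⟨u, rfl, hju'⟩
      | succ k ih =>
        intro hk
        obtain ⟨y, hy, hy'⟩ := ih (by omega)
        obtain ⟨x, x', hx, hbx, hcx'⟩ := hInt k (by omega)
        rw [hy] at hx
        obtain rfl := Option.some.inj hx
        refine ⟨x', by rw [it_succ_of hy, hbx], ?_⟩
        obtain ⟨z, hz⟩ := hsome (j + (k + 1)) (by omega)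
        have hz2 : it c (j + k + 1) v = some z := it_res _ hz
        rw [it_succ_of (it_res _ hy'), hcx'] at hz2
        rw [hz, ← hz2]
    refine ⟨u, ⟨hGood, fun k hk => ?_⟩, it_reach _ hju'⟩
    obtain ⟨y, hy, hy'⟩ := hrun k (by omega)
    obtain ⟨x, x', hx, hbx, hcx'⟩ := hInt k hk
    rw [hy] at hx
    obtain rfl := Option.some.inj hx
    refine ⟨y, x', hy, hbx, ?_⟩
    obtain ⟨z, hz, hz'⟩ := hrun (k + 1) (by omega)
    have hz1 : it (res c F') (j + k + 1) v = some z := hz'
    rw [it_succ_of hy'] at hz1
    have := res_eq.1 hz1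
    rw [hcx'] at this
    obtain rfl := Option.some.inj this.1
    exact this.2

end Pool.Agent.LongCyc.Dense
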