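import Pool.Agent.LongCyc.Dense.Field

/-!
# Dense regime, R7: expected number of bad pairs of trails
-/

set_option autoImplicit false
set_option linter.unusedSectionVars false

namespace Pool.Agent.LongCyc.Dense

open Finset

section Lat

variable {κ μ : Type} [DecidableEq κ] [Fintype κ] [DecidableEq μ] [Fintype μ] {T : ℕ}
  {gp : μ → Fin T}

theorem zp_apply (z : Cube μ) (j : Fin T → μ) (k : ℕ) (q : μ) :
    zp gp z j k q = xor (z q) (decide ((gp q).val < k ∧ j (gp q) = q)) := rfl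

theorem zp_zp (z : Cube μ) (j : Fin T → μ) (k : ℕ) : zp gp (zp gp z j k) j k = z := by
  funext q
  rw [zp_apply, zp_apply, Bool.xor_assoc, Bool.xor_self, Bool.xor_false]

theorem zp_zero (z : Cube μ) (j : Fin T → μ) : zp gp z j 0 = z := by
  funext q
  simp [zp_apply]

theorem zp_succ {j : Fin T → μ} (hj : ∀ a, gp (j a) = a) (z : Cube μ) {k : ℕ} (hk : k < T) :
    zp gp z j (k + 1) = flip (j ⟨k, hk⟩) (zp gp z j k) := by
  funext q
  by_cases hq : q = j ⟨k, hk⟩
  · subst hq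
    rw [flip_same, zp_apply, zp_apply, hj]
    simp
  · rw [flip_of_ne hq, zp_apply, zp_apply]
    congr 1
    by_cases h : j (gp q) = q
    · have h2 : (gp q).val ≠ k := by
        intro h3
        have : gp q = ⟨k, hk⟩ := Fin.ext h3
        rw [this] at h
        exact hq h.symm
      simp only [h, and_true]
      congr 1
      exact propext ⟨fun h3 => by omega, fun h3 => by omega⟩
    · simp [h]

/-- two trails at the same places -/
theorem zp_key {z z' : Cube μ} {j j' : Fin T → μ} (hj : ∀ a, gp (j a) = a) {c d c1 d1 : ℕ}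
    (h : zp gp z j c = zp gp z' j' d) (h1 : zp gp z j c1 = zp gp z' j' d1) (i : Fin T)
    (hi : ¬ (i.val < c ↔ i.val < c1)) : ¬ (i.val < d ↔ i.val < d1) ∧ j i = j' i := by
  have e1 := congrFun h (j i)
  have e2 := congrFun h1 (j i)
  rw [zp_apply, zp_apply, hj] at e1 e2
  simp only [and_true] at e1 e2
  by_cases hji : j' i = j i
  · refine ⟨?_, hji.symm⟩
    simp only [hji, and_true] at e1 e2
    intro hd
    apply hi
    have h3 : decide (i.val < d) = decide (i.val < d1) := by rw [decide_eq_decide]; exact hd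
    rw [h3] at e1
    rw [← e2] at e1
    have h4 := Bool.xor_right_inj.1 e1
    rwa [decide_eq_decide] at h4
  · exfalso
    simp only [hji, and_false, decide_false, Bool.xor_false] at e1 e2
    rw [← e2] at e1
    apply hi
    have h4 := Bool.xor_right_inj.1 e1
    rwa [decide_eq_decide] at h4

/-- `P` follows the trail `(z, j)` through the intermediate fibres -/
def Pth (gp : μ → Fin T) (c : Cube μ → Cube κ → Option (Cube κ)) (z : Cube μ) (j : Fin T → μ)
    (P : ℕ → Cube κ) : Prop :=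
  ∀ k, k + 1 < T → c (zp gp z j (k + 1)) (P k) = some (P (k + 1))

variable {c : Cube μ → Cube κ → Option (Cube κ)} {z z' : Cube μ} {j j' : Fin T → μ}
  {P P' : ℕ → Cube κ}

theorem Pth.fwd (h : Pth gp c z j P) (h' : Pth gp c z' j' P') {k l : ℕ} (hkl : k ≤ l) (hl : l < T)
    (hz : ∀ i, k < i → i ≤ l → zp gp z j i = zp gp z' j' i) (hP : P k = P' k) : P l = P' l := by
  induction l, hkl using Nat.le_induction with
  | base => exact hP
  | succ l hkl ih =>
    have h1 := ih (by omega) (fun i h1 h2 => hz i h1 (by omega))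
    have h2 := h l hl
    have h3 := h' l hl
    rw [hz (l + 1) (by omega) le_rfl, h1, h3] at h2
    exact (Option.some.inj h2).symm

theorem Pth.bwd (hc : ∀ z, PInj (c z)) (h : Pth gp c z j P) (h' : Pth gp c z' j' P') {k l : ℕ}
    (hkl : k ≤ l) (hl : l < T) (hz : ∀ i, k < i → i ≤ l → zp gp z j i = zp gp z' j' i)
    (hP : P l = P' l) : P k = P' k := by
  induction l, hkl using Nat.le_induction with
  | base => exact hP
  | succ l hkl ih =>
    refine ih (by omega) (fun i h1 h2 => hz i h1 (by omega)) ?_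
    have h2 := h l hl
    have h3 := h' l hl
    rw [← hz (l + 1) (by omega) le_rfl, ← hP] at h3
    exact hc _ _ _ _ h2 h3

theorem Pth.parity (hflp : ∀ z y y', c z y = some y' → par y' = !par y)
    (hj : ∀ a, gp (j a) = a) (h : Pth gp c z j P) {ε : Bool} (h0 : par2 (P 0) z = ε) {k : ℕ}
    (hk : k < T) : par2 (P k) (zp gp z j k) = ε := by
  induction k with
  | zero => rw [zp_zero]; exact h0
  | succ k ih =>
    have h1 := ih (by omega)
    have h2 := hflp _ _ _ (h k hk)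
    rw [par2] at h1 ⊢
    rw [zp_succ hj z (by omega), par_flip, h2]
    rw [← h1]
    cases Pool.Agent.LongCyc.par (P k) <;> cases Pool.Agent.LongCyc.par (zp gp z j k) <;> rfl

/-- the rungs of a trail -/
def tRgs (gp : μ → Fin T) (z : Cube μ) (j : Fin T → μ) (P : ℕ → Cube κ) : Finset (Cube κ × CE μ) :=
  univ.image fun k : Fin T => (P k, (canE μ).e (zp gp z j k) (j k))

theorem dir_inj (hj : ∀ a, gp (j a) = a) : Function.Injective j := by
  intro a b h
  rw [← hj a, ← hj b, h]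

theorem card_rgs (hj : ∀ a, gp (j a) = a) : (tRgs gp z j P).card = T := by
  rw [tRgs, Finset.card_image_of_injective, Finset.card_univ, Fintype.card_fin]
  intro k l h
  have h2 := (Prod.mk.inj h).2
  exact dir_inj hj ((canE μ).inj _ _ _ _ h2).1

theorem bool_aux : ∀ x y ε : Bool, (x == y) = ε → (x == !y) = ε → False := by decide

theorem bool_aux' : ∀ x y ε : Bool, (x == y) = ε → (x == !y) = !ε := by decide

theorem common_rung (hj : ∀ a, gp (j a) = a) (hj' : ∀ a, gp (j' a) = a) {ε : Bool}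
    (hp : ∀ k, k < T → par2 (P k) (zp gp z j k) = ε)
    (hp' : ∀ k, k < T → par2 (P' k) (zp gp z' j' k) = ε) {e : Cube κ × CE μ}
    (h : e ∈ tRgs gp z j P) (h' : e ∈ tRgs gp z' j' P') :
    ∃ k : Fin T, e = (P k, (canE μ).e (zp gp z j k) (j k)) ∧ P k = P' k ∧
      zp gp z j k = zp gp z' j' k ∧ j k = j' k := by
  obtain ⟨k, _, rfl⟩ := Finset.mem_image.1 h
  obtain ⟨l, _, hl⟩ := Finset.mem_image.1 h'
  have h1 := (Prod.mk.inj hl).1
  have h2 := (Prod.mk.inj hl).2
  obtain ⟨h3, h4⟩ := (canE μ).inj _ _ _ _ h2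
  have hlk : l = k := by rw [← hj' l, ← hj k, h3]
  subst hlk
  refine ⟨l, rfl, h1.symm, ?_, h3.symm⟩
  rcases h4 with h4 | h4
  · exact h4.symm
  · exfalso
    have e1 := hp l l.isLt
    have e2 := hp' l l.isLt
    rw [h4, h1] at e2
    rw [par2] at e1 e2
    rw [par_flip] at e2
    exact bool_aux _ _ _ e1 e2

/-- number of pairs of direction vectors which agree on `S` -/
theorem card_agree (gp : μ → Fin T) (S : Finset (Fin T)) :
    (((univ : Finset ((Fin T → μ) × (Fin T → μ))).filter fun q => (∀ a, gp (q.1 a) = a) ∧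
      (∀ a, gp (q.2 a) = a) ∧ ∀ a ∈ S, q.1 a = q.2 a).card : ℝ) =
      ∏ a, if a ∈ S then (gsz gp a : ℝ) else (gsz gp a : ℝ) ^ 2 := by
  set F : Fin T → Finset (μ × μ) := fun a => univ.filter fun q => gp q.1 = a ∧ gp q.2 = a ∧
    (a ∈ S → q.1 = q.2) with hF
  have h1 : ((univ : Finset ((Fin T → μ) × (Fin T → μ))).filter fun q => (∀ a, gp (q.1 a) = a) ∧
      (∀ a, gp (q.2 a) = a) ∧ ∀ a ∈ S, q.1 a = q.2 a).card = (Fintype.piFinset F).card := by
    refine Finset.card_bij (fun q _ a => (q.1 a, q.2 a)) ?_ ?_ ?_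
    · intro q hq
      rw [Finset.mem_filter] at hq
      rw [Fintype.mem_piFinset]
      intro a
      simp only [hF, Finset.mem_filter, Finset.mem_univ, true_and]
      exact ⟨hq.2.1 a, hq.2.2.1 a, hq.2.2.2 a⟩
    · intro q _ q' _ h
      refine Prod.ext (funext fun a => ?_) (funext fun a => ?_)
      · exact (Prod.mk.inj (congrFun h a)).1
      · exact (Prod.mk.inj (congrFun h a)).2
    · intro f hf
      rw [Fintype.mem_piFinset] at hf
      refine ⟨(fun a => (f a).1, fun a => (f a).2), ?_, rfl⟩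
      rw [Finset.mem_filter]
      refine ⟨Finset.mem_univ _, fun a => ?_, fun a => ?_, fun a ha => ?_⟩
      · have := hf a
        simp only [hF, Finset.mem_filter, Finset.mem_univ, true_and] at this
        exact this.1
      · have := hf a
        simp only [hF, Finset.mem_filter, Finset.mem_univ, true_and] at this
        exact this.2.1
      · have := hf a
        simp only [hF, Finset.mem_filter, Finset.mem_univ, true_and] at this
        exact this.2.2 ha
  rw [h1, Fintype.card_piFinset]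
  push_cast
  refine Finset.prod_congr rfl fun a _ => ?_
  split_ifs with ha
  · have : F a = (univ.filter fun i => gp i = a).image fun i => (i, i) := by
      ext ⟨x, y⟩
      simp only [hF, Finset.mem_filter, Finset.mem_univ, true_and, Finset.mem_image, Prod.mk.injEq,
        ha, forall_const]
      constructor
      · rintro ⟨h1, _, h3⟩
        exact ⟨x, h1, rfl, h3⟩
      · rintro ⟨i, h1, rfl, rfl⟩
        exact ⟨h1, h1, rfl⟩
    rw [this, Finset.card_image_of_injective _ fun x y h => (Prod.mk.inj h).1, gsz]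
  · have : F a = (univ.filter fun i => gp i = a) ×ˢ (univ.filter fun i => gp i = a) := by
      ext ⟨x, y⟩
      simp only [hF, Finset.mem_filter, Finset.mem_univ, true_and, Finset.mem_product,
        ha, false_imp_iff, and_true]
    rw [this, Finset.card_product, gsz]
    push_cast
    ring

/-- forward synchronisation of the parity at the end -/
theorem Pth.parity_end (hflp : ∀ z y y', c z y = some y' → par y' = !par y)
    (hj : ∀ a, gp (j a) = a) (h : Pth gp c z j P) {ε : Bool} (h0 : par2 (P 0) z = ε)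
    (hT : 0 < T) : par2 (P (T - 1)) (zp gp z j T) = !ε := by
  have h1 := h.parity hflp hj h0 (k := T - 1) (by omega)
  have h2 := zp_succ hj z (k := T - 1) (by omega)
  rw [Nat.sub_add_cancel hT] at h2
  rw [h2, par2, par_flip]
  exact bool_aux' _ _ _ h1

/-- positions of the intermediate places between `k` and `a + 1` agree if the places `k` and `a + 1` agree -/
theorem zp_between (hj : ∀ a, gp (j a) = a) {a k i : ℕ}
    (h1 : zp gp z j (a + 1) = zp gp z' j' (a + 1)) (h : zp gp z j k = zp gp z' j' k)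
    (hi : (k ≤ i ∧ i ≤ a + 1) ∨ (a + 1 ≤ i ∧ i ≤ k)) : zp gp z j i = zp gp z' j' i := by
  have key := zp_key hj h h1
  funext q
  have e1 := congrFun h1 q
  rw [zp_apply, zp_apply] at e1 ⊢
  by_cases hq : ((gp q).val < i ↔ (gp q).val < a + 1)
  · have h3 : ∀ b : Prop, ((gp q).val < i ∧ b) = ((gp q).val < a + 1 ∧ b) := fun b => by rw [propext hq]
    simp only [h3]
    exact e1
  · have h4 : ¬ ((gp q).val < k ↔ (gp q).val < a + 1) := by
      rcases hi with ⟨h5, h6⟩ | ⟨h5, h6⟩ <;> omega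
    obtain ⟨_, h6⟩ := key (gp q) h4
    rw [h6] at e1
    have h7 : z q = z' q := Bool.xor_left_inj.1 e1
    rw [h6, h7]

end Lat

/-! ### the probability of one configuration of two trails -/

section prob

/-- induction over the special coordinates -/
theorem special_ind {Z X W : Type} [Fintype Z] [DecidableEq Z] [Fintype X]
    (ν : Z → FP X) (Sp : Finset Z) (Ev : (Z → X) → Prop)
    (Y : Z → (Z → X) → W) (Q : Z → X → W → Prop) {u : ℝ} (hu : 0 ≤ u)
    (dep : ∀ x x', (∀ z, z ∉ Sp → x z = x' z) → (Ev x ↔ Ev x') ∧ ∀ z ∈ Sp, Y z x = Y z x')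
    (hQ : ∀ z ∈ Sp, ∀ x, Ev x → (ν z).pr (fun ξ => Q z ξ (Y z x)) ≤ u) (A : Finset Z) :
    A ⊆ Sp → (FP.pi ν).pr (fun x => Ev x ∧ ∀ z ∈ A, Q z (x z) (Y z x)) ≤ u ^ A.card := by
  classical
  induction A using Finset.induction_on with
  | empty =>
    intro _
    simpa using FP.pr_le_one _ _
  | insert z A hz ih =>
    intro hA
    have hzS : z ∈ Sp := hA (Finset.mem_insert_self _ _)
    have hA' : A ⊆ Sp := fun a ha => hA (Finset.mem_insert_of_mem ha)
    have hupd : ∀ (x : Z → X) (a : X), (Ev (Function.update x z a) ↔ Ev x) ∧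
        ∀ z' ∈ Sp, Y z' (Function.update x z a) = Y z' x := by
      intro x a
      refine dep _ _ fun z' hz' => ?_
      rw [Function.update_of_ne (by rintro rfl; exact hz' hzS)]
    rw [FP.pr_eq, FP.E_pi_update ν z, Finset.card_insert_of_notMem hz, pow_succ]
    rw [FP.E_swap]
    refine le_trans (FP.E_mono _ (g := fun x => (if Ev x ∧ ∀ z ∈ A, Q z (x z) (Y z x) then 1 else 0)
      * u) fun x => ?_) ?_
    · by_cases h : Ev x ∧ ∀ z ∈ A, Q z (x z) (Y z x)
      · rw [if_pos h, one_mul]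
        refine le_trans ?_ (hQ z hzS x h.1)
        rw [FP.pr_eq]
        refine FP.E_mono _ fun a => ?_
        by_cases h2 : Q z a (Y z x)
        · rw [if_pos h2]
          split_ifs <;> norm_num
        · rw [if_neg h2, if_neg]
          intro h3
          have h4 := h3.2 z (Finset.mem_insert_self _ _)
          rw [Function.update_self, (hupd x a).2 z hzS] at h4
          exact h2 h4
      · rw [if_neg h, zero_mul]
        refine FP.E_le_of_le _ fun a => ?_
        rw [if_neg]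
        intro h3
        refine h ⟨(hupd x a).1.1 h3.1, fun z' hz' => ?_⟩
        have h4 := h3.2 z' (Finset.mem_insert_of_mem hz')
        rw [Function.update_of_ne (by rintro rfl; exact hz hz'), (hupd x a).2 z' (hA' hz')] at h4
        exact h4
    · rw [FP.E_mul_right, ← FP.pr_eq]
      exact mul_le_mul_of_nonneg_right (ih hA') hu

/-- the special coordinates -/
theorem special_bound' {Z A X W : Type} [Fintype Z] [DecidableEq Z] [Fintype A] [DecidableEq A] [Fintype X]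
    (ν : Z → FP X) {p : ℝ} {h0 : 0 ≤ p} {h1 : p ≤ 1} (Sp : Finset Z) (Ev : (Z → X) → Prop)
    (Rg : (Z → X) → Finset A) (Y : Z → (Z → X) → W) (Q : Z → X → W → Prop) (m : ℕ) {u : ℝ} (hu : 0 ≤ u)
    (dep : ∀ x x', (∀ z, z ∉ Sp → x z = x' z) → (Ev x ↔ Ev x') ∧ Rg x = Rg x' ∧ ∀ z ∈ Sp, Y z x = Y z x')
    (hcard : ∀ x, Ev x → m ≤ (Rg x).card)
    (hQ : ∀ z ∈ Sp, ∀ x, Ev x → (ν z).pr (fun ξ => Q z ξ (Y z x)) ≤ u) :
    ((FP.pi ν).prod (bern p h0 h1 A)).pr (fun s => Ev s.1 ∧ (∀ e ∈ Rg s.1, s.2 e = true) ∧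
      ∀ z ∈ Sp, Q z (s.1 z) (Y z s.1)) ≤ p ^ m * u ^ Sp.card := by
  classical
  rw [FP.pr_eq, FP.E_prod]
  have h2 := special_ind ν Sp Ev Y Q hu (fun x x' h => ⟨(dep x x' h).1, (dep x x' h).2.2⟩) hQ Sp
    (Finset.Subset.refl _)
  refine le_trans (FP.E_mono _ (g := fun x => p ^ m * (if Ev x ∧ ∀ z ∈ Sp, Q z (x z) (Y z x) then 1
    else 0)) fun x => ?_) ?_
  · by_cases h : Ev x ∧ ∀ z ∈ Sp, Q z (x z) (Y z x)
    · rw [if_pos h, mul_one]
      refine le_trans (le_of_eq ?_) (pow_le_pow_of_le_one h0 h1 (hcard x h.1))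
      rw [← bern_all (p := p) (h0 := h0) (h1 := h1) (Rg x)]
      refine FP.E_congr _ fun b => ?_
      by_cases hb : ∀ e ∈ Rg x, b e = true
      · rw [if_pos ⟨h.1, hb, h.2⟩, Finset.prod_eq_one]
        intro e he
        rw [if_pos (hb e he)]
      · rw [if_neg (fun h3 => hb h3.2.1)]
        push Not at hb
        obtain ⟨e, he, hb⟩ := hb
        rw [Finset.prod_eq_zero he]
        rw [if_neg hb]
    · rw [if_neg h, mul_zero]
      refine FP.E_le_of_le _ fun b => ?_
      rw [if_neg]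
      rintro ⟨h3, _, h4⟩
      exact h ⟨h3, h4⟩
  · rw [FP.E_mul_left, ← FP.pr_eq]
    exact mul_le_mul_of_nonneg_left h2 (pow_nonneg h0 _)

variable {κ μ : Type} [DecidableEq κ] [Fintype κ] [DecidableEq μ] [Fintype μ] {T : ℕ} {X : Type}
  [Fintype X] (gp : μ → Fin T) {ν : Cube μ → FP X} {cf : X → Cube κ → Option (Cube κ)}
  {Uf : X → Finset (Cube κ)} {act : Cube κ → X ≃ X} {ε : Bool} {u α : ℝ} {p : ℝ} {h0 : 0 ≤ p}
  {h1 : p ≤ 1}

theorem pos_congr {c c' : Cube μ → Cube κ → Option (Cube κ)} {z : Cube μ} {j : Fin T → μ}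
    {y : Cube κ} {k : ℕ} (h : ∀ i, 1 ≤ i → i ≤ k → c (zp gp z j i) = c' (zp gp z j i)) :
    pos gp c z j y k = pos gp c' z j y k := by
  induction k with
  | zero => rfl
  | succ k ih =>
    rw [pos, pos, ih (fun i h1 h2 => h i h1 (by omega)), h (k + 1) (by omega) le_rfl]

/-- total version of the positions -/
def ps (c : Cube μ → Cube κ → Option (Cube κ)) (z : Cube μ) (j : Fin T → μ) (y : Cube κ) (k : ℕ) :
    Cube κ := (pos gp c z j y k).getD y

theorem ps_zero (c : Cube μ → Cube κ → Option (Cube κ)) (z : Cube μ) (j : Fin T → μ) (y : Cube κ) :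
    ps gp c z j y 0 = y := rfl

/-- a trail gives a path -/
theorem pos_ps {c : Cube μ → Cube κ → Option (Cube κ)} {z : Cube μ} {j : Fin T → μ}
    {y : Cube κ} (h : ∀ k, k < T → ∃ u, pos gp c z j y k = some u) {k : ℕ} (hk : k < T) :
    pos gp c z j y k = some (ps gp c z j y k) := by
  obtain ⟨u, hu⟩ := h k hk
  rw [ps, hu]
  rfl

theorem pth_ps {c : Cube μ → Cube κ → Option (Cube κ)} {z : Cube μ} {j : Fin T → μ}
    {y : Cube κ} (h : ∀ k, k < T → ∃ u, pos gp c z j y k = some u) :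
    Pth gp c z j (ps gp c z j y) := by
  intro k hk
  have h1 := pos_ps gp h (k := k) (by omega)
  have h2 := pos_ps gp h (k := k + 1) (by omega)
  rw [pos, h1] at h2
  exact h2

/-- a path is determined by one position -/
theorem pth_unique {c : Cube μ → Cube κ → Option (Cube κ)} (hc : ∀ z, PInj (c z)) {z : Cube μ}
    {j : Fin T → μ} {y y' : Cube κ} (h : Pth gp c z j (ps gp c z j y))
    (h' : Pth gp c z j (ps gp c z j y')) {a : ℕ} (ha : a < T)
    (hy : ps gp c z j y a = ps gp c z j y' a) : y = y' :=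
  Pth.bwd hc h h' (Nat.zero_le a) ha (fun _ _ _ => rfl) hy

variable (cf ε) in
/-- the two starting points `τ.1`, `τ.2` are admissible -/
structure VV (a b kk : ℕ) (D : Cube κ → Prop) (zs : Cube μ) (w : Cube κ) (j j' : Fin T → μ)
    (x : Cube μ → X) (τ : Cube κ × Cube κ) : Prop where
  p1 : Pth gp (fun z => cf (x z)) (zp gp zs j (a + 1)) j
    (ps gp (fun z => cf (x z)) (zp gp zs j (a + 1)) j τ.1)
  p2 : Pth gp (fun z => cf (x z)) (zp gp zs j' (b + 1)) j'
    (ps gp (fun z => cf (x z)) (zp gp zs j' (b + 1)) j' τ.2)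
  q1 : par2 τ.1 (zp gp zs j (a + 1)) = ε
  q2 : par2 τ.2 (zp gp zs j' (b + 1)) = ε
  r1 : ps gp (fun z => cf (x z)) (zp gp zs j (a + 1)) j τ.1 a = w
  r2 : it (cf (x zs)) kk w = some (ps gp (fun z => cf (x z)) (zp gp zs j' (b + 1)) j' τ.2 b)
  r3 : D (ps gp (fun z => cf (x z)) (zp gp zs j' (b + 1)) j' τ.2 b)

theorem VV.unique (hinj : ∀ x, PInj (cf x)) {a b kk : ℕ} (ha : a < T) (hb : b < T)
    {D : Cube κ → Prop} {zs : Cube μ} {w : Cube κ} {j j' : Fin T → μ}
    {x : Cube μ → X} {τ τ' : Cube κ × Cube κ} (h : VV gp cf ε a b kk D zs w j j' x τ)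
    (h' : VV gp cf ε a b kk D zs w j j' x τ') : τ = τ' := by
  refine Prod.ext (pth_unique gp (fun z => hinj _) h.p1 h'.p1 ha (h.r1.trans h'.r1.symm))
    (pth_unique gp (fun z => hinj _) h.p2 h'.p2 hb ?_)
  have := h.r2.symm.trans h'.r2
  exact Option.some.inj this

/-- the special fibres -/
def SpF (a b : ℕ) (zs : Cube μ) (j j' : Fin T → μ) : Finset (Cube μ) :=
  {zp gp zs j (a + 1), zp gp (zp gp zs j (a + 1)) j T, zp gp zs j' (b + 1),
    zp gp (zp gp zs j' (b + 1)) j' T}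

theorem inter_notMem {a b : ℕ} (ha : a + 1 < T) (hb : b + 1 < T) (zs : Cube μ)
    {j j' : Fin T → μ} (hj : ∀ a, gp (j a) = a) (hj' : ∀ a, gp (j' a) = a) {i : ℕ} (hi : 1 ≤ i)
    (hiT : i < T) : zp gp (zp gp zs j (a + 1)) j i ∉ SpF gp a b zs j j' := by
  have hz1 : zp gp (zp gp zs j (a + 1)) j (a + 1) = zs := zp_zp _ _ _
  have hz2 : zp gp (zp gp zs j' (b + 1)) j' (b + 1) = zs := zp_zp _ _ _
  set z0 := zp gp zs j (a + 1) with hz0
  set z0' := zp gp zs j' (b + 1) with hz0'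
  have hT0 : 0 < T := by omega
  intro h
  rw [SpF] at h
  simp only [Finset.mem_insert, Finset.mem_singleton] at h
  rcases h with h | h | h | h
  · have h' : zp gp z0 j i = zp gp z0 j 0 := by rw [zp_zero]; exact h
    have := (zp_key hj h' (c1 := 0) (d1 := 0) rfl ⟨0, hT0⟩ (by simp; omega)).1
    simp at this
  · have := (zp_key hj h (c1 := 0) (d1 := 0) rfl ⟨0, hT0⟩ (by simp; omega)).1
    have h3 := (zp_key hj h (c1 := T) (d1 := T) rfl ⟨T - 1, by omega⟩ (by simp; omega)).1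
    simp at h3
  · have h' : zp gp z0 j i = zp gp z0' j' 0 := by rw [zp_zero]; exact h
    have h3 : zp gp z0 j (a + 1) = zp gp z0' j' (b + 1) := by rw [hz1, hz2]
    have := zp_key hj' h'.symm h3.symm ⟨0, hT0⟩ (by simp)
    simp at this
    omega
  · have h3 : zp gp z0 j (a + 1) = zp gp z0' j' (b + 1) := by rw [hz1, hz2]
    have := zp_key hj' h.symm h3.symm ⟨T - 1, by omega⟩ (by simp; omega)
    simp at this
    omega

theorem SpF_symm (a b : ℕ) (zs : Cube μ) (j j' : Fin T → μ) :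
    SpF gp a b zs j j' = SpF gp b a zs j' j := by
  ext z
  simp only [SpF, Finset.mem_insert, Finset.mem_singleton]
  tauto

theorem exists_par2 (i : μ) (ε : Bool) : ∃ (y : Cube κ) (z : Cube μ), par2 y z = ε := by
  by_cases h : par2 (fun _ : κ => false) (fun _ : μ => false) = ε
  · exact ⟨_, _, h⟩
  · refine ⟨fun _ => false, flip i fun _ => false, ?_⟩
    rw [par2, par_flip]
    rw [par2] at h
    revert h
    cases par (fun _ : κ => false) <;> cases par (fun _ : μ => false) <;> cases ε <;> simp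

theorem FldH.u_nonneg (hF : FldH ν cf Uf act ε u α) (i : μ) : 0 ≤ u := by
  obtain ⟨y, z, h⟩ := exists_par2 (κ := κ) i ε
  rw [← hF.starts y z h]
  exact FP.pr_nonneg _ _

theorem FldH.u_le_one (hF : FldH ν cf Uf act ε u α) (i : μ) : u ≤ 1 := by
  obtain ⟨y, z, h⟩ := exists_par2 (κ := κ) i ε
  rw [← hF.starts y z h]
  exact FP.pr_le_one _ _

theorem ps_congr {c c' : Cube μ → Cube κ → Option (Cube κ)} {z : Cube μ} {j : Fin T → μ}
    {y : Cube κ} {k : ℕ} (h : ∀ i, 1 ≤ i → i ≤ k → c (zp gp z j i) = c' (zp gp z j i)) :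
    ps gp c z j y k = ps gp c' z j y k := by
  rw [ps, ps, pos_congr gp h]

theorem pth_congr {c c' : Cube μ → Cube κ → Option (Cube κ)} {z : Cube μ} {j : Fin T → μ}
    {P P' : ℕ → Cube κ} (h : ∀ i, 1 ≤ i → i < T → c (zp gp z j i) = c' (zp gp z j i))
    (hP : ∀ k, k < T → P k = P' k) (hp : Pth gp c z j P) : Pth gp c' z j P' := by
  intro k hk
  rw [← h (k + 1) (by omega) hk, ← hP k (by omega), ← hP (k + 1) hk]
  exact hp k hk

theorem rgs_congr {z : Cube μ} {j : Fin T → μ} {P P' : ℕ → Cube κ}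
    (hP : ∀ k, k < T → P k = P' k) : tRgs gp z j P = tRgs gp z j P' := by
  rw [tRgs, tRgs]
  congr 1
  funext k
  rw [hP k k.isLt]

open Classical in
theorem pr_class (hF : FldH ν cf Uf act ε u α) {a b kk : ℕ} (ha : a + 1 < T) (hb : b + 1 < T)
    (D : Cube κ → Prop) (zs : Cube μ) (w : Cube κ) {j j' : Fin T → μ} (hj : ∀ a, gp (j a) = a)
    (hj' : ∀ a, gp (j' a) = a) (m : ℕ)
    (hm : ∀ (c : Cube μ → Cube κ → Option (Cube κ)) (P P' : ℕ → Cube κ), (∀ z, PInj (c z)) →
      Pth gp c (zp gp zs j (a + 1)) j P → Pth gp c (zp gp zs j' (b + 1)) j' P' →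
      (∀ k, k < T → par2 (P k) (zp gp (zp gp zs j (a + 1)) j k) = ε) →
      (∀ k, k < T → par2 (P' k) (zp gp (zp gp zs j' (b + 1)) j' k) = ε) →
      P a = w → D (P' b) →
      m ≤ (tRgs gp (zp gp zs j (a + 1)) j P ∪ tRgs gp (zp gp zs j' (b + 1)) j' P').card) :
    (lawR κ ν p h0 h1).pr (fun s => ∃ y y',
      IsTrail gp ε (fun z => cf (s.1 z)) (fun z => Uf (s.1 z)) (rgo s.2)
        (y, zp gp zs j (a + 1), j) ∧
      IsTrail gp ε (fun z => cf (s.1 z)) (fun z => Uf (s.1 z)) (rgo s.2)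
        (y', zp gp zs j' (b + 1), j') ∧
      pos gp (fun z => cf (s.1 z)) (zp gp zs j (a + 1)) j y a = some w ∧
      ∃ w', pos gp (fun z => cf (s.1 z)) (zp gp zs j' (b + 1)) j' y' b = some w' ∧
        it (cf (s.1 zs)) kk w = some w' ∧ D w') ≤ p ^ m * u ^ (SpF gp a b zs j j').card := by
  have hT0 : 0 < T := by omega
  have hu : 0 ≤ u := hF.u_nonneg (j ⟨0, hT0⟩)
  have hz1 : zp gp (zp gp zs j (a + 1)) j (a + 1) = zs := zp_zp _ _ _
  have hz2 : zp gp (zp gp zs j' (b + 1)) j' (b + 1) = zs := zp_zp _ _ _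
  have hn1 : ∀ i, 1 ≤ i → i < T → zp gp (zp gp zs j (a + 1)) j i ∉ SpF gp a b zs j j' :=
    fun i h1 h2 => inter_notMem gp ha hb zs hj hj' h1 h2
  have hn2 : ∀ i, 1 ≤ i → i < T → zp gp (zp gp zs j' (b + 1)) j' i ∉ SpF gp a b zs j j' := by
    intro i h1 h2
    rw [SpF_symm]
    exact inter_notMem gp hb ha zs hj' hj h1 h2
  set z0 := zp gp zs j (a + 1) with hz0
  set z0' := zp gp zs j' (b + 1) with hz0'
  set V : (Cube μ → X) → Cube κ × Cube κ → Prop := fun x τ => VV gp cf ε a b kk D zs w j j' x τ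
    with hV
  set ch : (Cube μ → X) → Cube κ × Cube κ := fun x => if h : ∃ τ, V x τ then h.choose
    else (fun _ => false, fun _ => false) with hch
  set P1 : (Cube μ → X) → ℕ → Cube κ := fun x => ps gp (fun z => cf (x z)) z0 j (ch x).1 with hP1
  set P2 : (Cube μ → X) → ℕ → Cube κ := fun x => ps gp (fun z => cf (x z)) z0' j' (ch x).2 with hP2
  have hchV : ∀ x, (∃ τ, V x τ) → V x (ch x) := by
    intro x hx
    rw [hch]
    simp only [dif_pos hx]
    exact hx.choose_spec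
  -- dependence
  have dep1 : ∀ x x' : Cube μ → X, (∀ z, z ∉ SpF gp a b zs j j' → x z = x' z) → ∀ y k, k < T →
      ps gp (fun z => cf (x z)) z0 j y k = ps gp (fun z => cf (x' z)) z0 j y k := by
    intro x x' hx y k hk
    refine ps_congr gp fun i hi1 hi2 => ?_
    rw [hx _ (hn1 i hi1 (by omega))]
  have dep2 : ∀ x x' : Cube μ → X, (∀ z, z ∉ SpF gp a b zs j j' → x z = x' z) → ∀ y k, k < T →
      ps gp (fun z => cf (x z)) z0' j' y k = ps gp (fun z => cf (x' z)) z0' j' y k := by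
    intro x x' hx y k hk
    refine ps_congr gp fun i hi1 hi2 => ?_
    rw [hx _ (hn2 i hi1 (by omega))]
  have hzs : zs ∉ SpF gp a b zs j j' := by
    have := hn1 (a + 1) (by omega) ha
    rwa [hz1] at this
  have depV1 : ∀ x x' : Cube μ → X, (∀ z, z ∉ SpF gp a b zs j j' → x z = x' z) → ∀ τ, V x τ → V x' τ := by
    intro x x' hx τ hτ
    have d1 := dep1 x x' hx τ.1
    have d2 := dep2 x x' hx τ.2
    refine ⟨?_, ?_, hτ.q1, hτ.q2, ?_, ?_, ?_⟩
    · exact pth_congr gp (fun i hi1 hi2 => by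
            rw [hx _ (hn1 i hi1 hi2)]) d1 hτ.p1
    · exact pth_congr gp (fun i hi1 hi2 => by
            rw [hx _ (hn2 i hi1 hi2)]) d2 hτ.p2
    · rw [← d1 a (by omega)]
      exact hτ.r1
    · rw [← d2 b (by omega), ← hx _ hzs]
      exact hτ.r2
    · rw [← d2 b (by omega)]
      exact hτ.r3
  have depV : ∀ x x' : Cube μ → X, (∀ z, z ∉ SpF gp a b zs j j' → x z = x' z) → V x = V x' := by
    intro x x' hx
    funext τ
    exact propext ⟨depV1 x x' hx τ, depV1 x' x (fun z hz => (hx z hz).symm) τ⟩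
  have depch : ∀ x x' : Cube μ → X, (∀ z, z ∉ SpF gp a b zs j j' → x z = x' z) → ch x = ch x' := by
    intro x x' hx
    simp only [hch]
    rw [depV x x' hx]
  have depP1 : ∀ x x' : Cube μ → X, (∀ z, z ∉ SpF gp a b zs j j' → x z = x' z) → ∀ k, k < T →
      P1 x k = P1 x' k := by
    intro x x' hx k hk
    simp only [hP1]
    rw [depch x x' hx]
    exact dep1 x x' hx _ k hk
  have depP2 : ∀ x x' : Cube μ → X, (∀ z, z ∉ SpF gp a b zs j j' → x z = x' z) → ∀ k, k < T →
      P2 x k = P2 x' k := by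
    intro x x' hx k hk
    simp only [hP2]
    rw [depch x x' hx]
    exact dep2 x x' hx _ k hk
  refine le_trans (FP.pr_mono _ fun s hs => ?_) (special_bound' ν (p := p) (h0 := h0) (h1 := h1)
    (SpF gp a b zs j j')
    (fun x => ∃ τ, V x τ) (fun x => tRgs gp z0 j (P1 x) ∪ tRgs gp z0' j' (P2 x))
    (fun _ x => (ch x, P1 x (T - 1), P2 x (T - 1)))
    (fun z ξ q => (z = z0 → isSt cf ξ q.1.1) ∧ (z = z0' → isSt cf ξ q.1.2) ∧
      (z = zp gp z0 j T → isEn cf ξ q.2.1) ∧ (z = zp gp z0' j' T → isEn cf ξ q.2.2)) m hu ?_ ?_ ?_)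
  · -- the event
    obtain ⟨y, y', ht, ht', hw, w', hw', hit, hD⟩ := hs
    have hex : ∀ k, k < T → ∃ u, pos gp (fun z => cf (s.1 z)) z0 j y k = some u := by
      intro k hk
      obtain ⟨u, hu, _⟩ := ht.rung ⟨k, hk⟩
      exact ⟨u, hu⟩
    have hex' : ∀ k, k < T → ∃ u, pos gp (fun z => cf (s.1 z)) z0' j' y' k = some u := by
      intro k hk
      obtain ⟨u, hu, _⟩ := ht'.rung ⟨k, hk⟩
      exact ⟨u, hu⟩
    have hVy : V s.1 (y, y') := by
      refine ⟨pth_ps gp hex, pth_ps gp hex', ht.par, ht'.par, ?_, ?_, ?_⟩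
      · have := pos_ps gp hex (k := a) (by omega)
        rw [hw] at this
        exact (Option.some.inj this).symm
      · have := pos_ps gp hex' (k := b) (by omega)
        rw [hw'] at this
        rw [hit, Option.some.inj this]
      · have := pos_ps gp hex' (k := b) (by omega)
        rw [hw'] at this
        rw [Option.some.inj this] at hD
        exact hD
    have hcy : ch s.1 = (y, y') :=
      VV.unique gp hF.inj (by omega) (by omega) (hchV s.1 ⟨_, hVy⟩) hVy
    refine ⟨⟨_, hVy⟩, ?_, ?_⟩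
    · intro e he
      rw [Finset.mem_union] at he
      rcases he with he | he
      · obtain ⟨k, _, rfl⟩ := Finset.mem_image.1 he
        obtain ⟨u, hu, ho⟩ := ht.rung k
        have h3 := pos_ps gp hex k.isLt
        rw [hu] at h3
        simp only [hP1, hcy]
        rw [← Option.some.inj h3]
        exact ho
      · obtain ⟨k, _, rfl⟩ := Finset.mem_image.1 he
        obtain ⟨u, hu, ho⟩ := ht'.rung k
        have h3 := pos_ps gp hex' k.isLt
        rw [hu] at h3
        simp only [hP2, hcy]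
        rw [← Option.some.inj h3]
        exact ho
    · intro z _
      simp only [hcy]
      refine ⟨?_, ?_, ?_, ?_⟩
      · rintro rfl
        exact ht.start
      · rintro rfl
        exact ht'.start
      · rintro rfl
        obtain ⟨u, hu, hc⟩ := ht.fin
        have h3 := pos_ps gp hex (k := T - 1) (by omega)
        rw [hu] at h3
        simp only [hP1, hcy]
        rw [← Option.some.inj h3]
        exact hc
      · rintro rfl
        obtain ⟨u, hu, hc⟩ := ht'.fin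
        have h3 := pos_ps gp hex' (k := T - 1) (by omega)
        rw [hu] at h3
        simp only [hP2, hcy]
        rw [← Option.some.inj h3]
        exact hc
  · intro x x' hx
    refine ⟨by rw [depV x x' hx], ?_, fun z _ => ?_⟩
    · rw [rgs_congr gp (depP1 x x' hx), rgs_congr gp (depP2 x x' hx)]
    · rw [depch x x' hx, depP1 x x' hx (T - 1) (by omega), depP2 x x' hx (T - 1) (by omega)]
  · intro x hx
    have hV := hchV x hx
    refine hm (fun z => cf (x z)) (P1 x) (P2 x) (fun z => hF.inj _) hV.p1 hV.p2 ?_ ?_ hV.r1 hV.r3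
    · intro k hk
      exact Pth.parity (fun z y y' h => hF.flp _ _ _ h) hj hV.p1 (by exact hV.q1) hk
    · intro k hk
      exact Pth.parity (fun z y y' h => hF.flp _ _ _ h) hj' hV.p2 (by exact hV.q2) hk
  · intro z hz x hx
    have hV := hchV x hx
    have hzz := hz
    rw [SpF] at hzz
    simp only [Finset.mem_insert, Finset.mem_singleton] at hzz
    rcases hzz with h | h | h | h
    · refine le_trans (FP.pr_mono _ (B := fun ξ => isSt cf ξ (ch x).1) fun ξ hξ => hξ.1 h) ?_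
      rw [h]
      exact (hF.starts _ _ hV.q1).le
    · refine le_trans (FP.pr_mono _ (B := fun ξ => isEn cf ξ (P1 x (T - 1))) fun ξ hξ =>
        hξ.2.2.1 h) ?_
      rw [h]
      exact (hF.ends _ _ (Pth.parity_end (fun z y y' h => hF.flp _ _ _ h) hj hV.p1
        (by exact hV.q1) hT0)).le
    · refine le_trans (FP.pr_mono _ (B := fun ξ => isSt cf ξ (ch x).2) fun ξ hξ => hξ.2.1 h) ?_
      rw [h]
      exact (hF.starts _ _ hV.q2).le
    · refine le_trans (FP.pr_mono _ (B := fun ξ => isEn cf ξ (P2 x (T - 1))) fun ξ hξ =>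
        hξ.2.2.2 h) ?_
      rw [h]
      exact (hF.ends _ _ (Pth.parity_end (fun z y y' h => hF.flp _ _ _ h) hj' hV.p2
        (by exact hV.q2) hT0)).le

end prob

/-! ### coincidences -/

section coin

variable {κ μ : Type} [DecidableEq κ] [Fintype κ] [DecidableEq μ] [Fintype μ] {T : ℕ}
  (gp : μ → Fin T) {j j' : Fin T → μ} {a b : ℕ} (zs : Cube μ)

theorem zback (a : ℕ) : zp gp (zp gp zs j (a + 1)) j (a + 1) = zs := zp_zp _ _ _

theorem z0_eq (hj : ∀ a, gp (j a) = a) (hj' : ∀ a, gp (j' a) = a) (ha : a + 1 < T)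
    (hb : b + 1 < T) (h : zp gp zs j (a + 1) = zp gp zs j' (b + 1)) :
    a = b ∧ ∀ i : Fin T, i.val ≤ a → j i = j' i := by
  have h1 : zp gp (zp gp zs j (a + 1)) j (a + 1) = zp gp (zp gp zs j' (b + 1)) j' (b + 1) := by
    rw [zback, zback]
  have h0 : zp gp (zp gp zs j (a + 1)) j 0 = zp gp (zp gp zs j' (b + 1)) j' 0 := by
    rw [zp_zero, zp_zero, h]
  have k1 := zp_key hj h0 h1
  have k2 := zp_key hj' h0.symm h1.symm
  refine ⟨?_, fun i hi => (k1 i (by omega)).2⟩
  have e1 := (k1 ⟨a, by omega⟩ (by simp)).1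
  have e2 := (k2 ⟨b, by omega⟩ (by simp)).1
  simp only [Nat.not_lt_zero, false_iff, not_not] at e1 e2
  omega

theorem zT_eq (hj : ∀ a, gp (j a) = a) (hj' : ∀ a, gp (j' a) = a) (ha : a + 1 < T)
    (hb : b + 1 < T) (h : zp gp (zp gp zs j (a + 1)) j T = zp gp (zp gp zs j' (b + 1)) j' T) :
    a = b ∧ ∀ i : Fin T, a < i.val → j i = j' i := by
  have h1 : zp gp (zp gp zs j (a + 1)) j (a + 1) = zp gp (zp gp zs j' (b + 1)) j' (b + 1) := by
    rw [zback, zback]
  have k1 := zp_key hj h h1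
  have k2 := zp_key hj' h.symm h1.symm
  refine ⟨?_, fun i hi => (k1 i (by have := i.isLt; omega)).2⟩
  have e1 := (k1 ⟨a + 1, ha⟩ (by simp; omega)).1
  have e2 := (k2 ⟨b + 1, hb⟩ (by simp; omega)).1
  simp only [] at e1 e2
  omega

theorem z0_ne_zT (hj : ∀ a, gp (j a) = a) (_hj' : ∀ a, gp (j' a) = a) (_ha : a + 1 < T)
    (hb : b + 1 < T) : zp gp zs j (a + 1) ≠ zp gp (zp gp zs j' (b + 1)) j' T := by
  intro h
  have h1 : zp gp (zp gp zs j (a + 1)) j (a + 1) = zp gp (zp gp zs j' (b + 1)) j' (b + 1) := by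
    rw [zback, zback]
  have h0 : zp gp (zp gp zs j (a + 1)) j 0 = zp gp (zp gp zs j' (b + 1)) j' T := by
    rw [zp_zero, h]
  have k1 := (zp_key hj h0 h1 ⟨0, by omega⟩ (by simp)).1
  simp at k1
  omega

theorem SpF_card4 (hj : ∀ a, gp (j a) = a) (hj' : ∀ a, gp (j' a) = a) (ha : a + 1 < T)
    (hb : b + 1 < T) (h1 : zp gp zs j (a + 1) ≠ zp gp zs j' (b + 1))
    (h2 : zp gp (zp gp zs j (a + 1)) j T ≠ zp gp (zp gp zs j' (b + 1)) j' T) :
    (SpF gp a b zs j j').card = 4 := by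
  have e1 := z0_ne_zT gp zs hj hj ha ha
  have e2 := z0_ne_zT gp zs hj' hj' hb hb
  have e3 := z0_ne_zT gp zs hj hj' ha hb
  have e4 := z0_ne_zT gp zs hj' hj hb ha
  rw [SpF, Finset.card_insert_of_notMem (by simp [e1, e3, h1]),
    Finset.card_insert_of_notMem (by simp [h2, e4.symm]),
    Finset.card_insert_of_notMem (by simp [e2]), Finset.card_singleton]

theorem SpF_card3 (hj : ∀ a, gp (j a) = a) (hj' : ∀ a, gp (j' a) = a) (ha : a + 1 < T)
    (hb : b + 1 < T) (h1 : zp gp zs j (a + 1) ≠ zp gp zs j' (b + 1) ∨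
      zp gp (zp gp zs j (a + 1)) j T ≠ zp gp (zp gp zs j' (b + 1)) j' T) :
    3 ≤ (SpF gp a b zs j j').card := by
  have e1 := z0_ne_zT gp zs hj hj ha ha
  have e2 := z0_ne_zT gp zs hj' hj' hb hb
  have e3 := z0_ne_zT gp zs hj hj' ha hb
  have e4 := z0_ne_zT gp zs hj' hj hb ha
  rcases h1 with h1 | h1
  · have : ({zp gp zs j (a + 1), zp gp (zp gp zs j (a + 1)) j T, zp gp zs j' (b + 1)} :
        Finset (Cube μ)) ⊆ SpF gp a b zs j j' := by
      intro z hz
      simp only [SpF, Finset.mem_insert, Finset.mem_singleton] at hz ⊢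
      tauto
    refine le_trans ?_ (Finset.card_le_card this)
    rw [Finset.card_insert_of_notMem (by simp [e1, h1]),
      Finset.card_insert_of_notMem (by simp [e4.symm]), Finset.card_singleton]
  · have : ({zp gp zs j (a + 1), zp gp (zp gp zs j (a + 1)) j T,
        zp gp (zp gp zs j' (b + 1)) j' T} : Finset (Cube μ)) ⊆ SpF gp a b zs j j' := by
      intro z hz
      simp only [SpF, Finset.mem_insert, Finset.mem_singleton] at hz ⊢
      tauto
    refine le_trans ?_ (Finset.card_le_card this)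
    rw [Finset.card_insert_of_notMem (by simp [e1, e3]),
      Finset.card_insert_of_notMem (by simp [h1]), Finset.card_singleton]

theorem SpF_card2 (hj : ∀ a, gp (j a) = a) (ha : a + 1 < T) :
    2 ≤ (SpF gp a b zs j j').card := by
  have e1 := z0_ne_zT gp zs hj hj ha ha
  have : ({zp gp zs j (a + 1), zp gp (zp gp zs j (a + 1)) j T} :
        Finset (Cube μ)) ⊆ SpF gp a b zs j j' := by
    intro z hz
    simp only [SpF, Finset.mem_insert, Finset.mem_singleton] at hz ⊢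
    tauto
  refine le_trans ?_ (Finset.card_le_card this)
  rw [Finset.card_insert_of_notMem (by simp [e1]), Finset.card_singleton]

variable {ε : Bool} {c : Cube μ → Cube κ → Option (Cube κ)} {P P' : ℕ → Cube κ}

/-- case A: different levels, no common rung -/
theorem rungsA (hj : ∀ a, gp (j a) = a) (hj' : ∀ a, gp (j' a) = a) (ha : a + 1 < T)
    (hb : b + 1 < T) (hab : a ≠ b)
    (hp : ∀ k, k < T → par2 (P k) (zp gp (zp gp zs j (a + 1)) j k) = ε)
    (hp' : ∀ k, k < T → par2 (P' k) (zp gp (zp gp zs j' (b + 1)) j' k) = ε) :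
    2 * T ≤ (tRgs gp (zp gp zs j (a + 1)) j P ∪ tRgs gp (zp gp zs j' (b + 1)) j' P').card := by
  rw [Finset.card_union_of_disjoint, card_rgs hj, card_rgs hj']
  · omega
  · rw [Finset.disjoint_left]
    intro e he he'
    obtain ⟨k, _, _, hz, _⟩ := common_rung hj hj' hp hp' he he'
    have h1 : zp gp (zp gp zs j (a + 1)) j (a + 1) = zp gp (zp gp zs j' (b + 1)) j' (b + 1) := by
      rw [zback, zback]
    have k1 := fun i h => (zp_key hj hz h1 i h).1
    have k2 := fun i h => (zp_key hj' hz.symm h1.symm i h).1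
    rcases Nat.lt_or_ge a b with h | h
    · have e1 := k1 ⟨a + 1, ha⟩
      have e2 := k2 ⟨a + 1, ha⟩
      simp only [] at e1 e2
      omega
    · have e1 := k1 ⟨b + 1, hb⟩
      have e2 := k2 ⟨b + 1, hb⟩
      simp only [] at e1 e2
      omega

/-- synchronisation at level `a` -/
theorem sync (hj : ∀ a, gp (j a) = a) (ha : a + 1 < T) (hc : ∀ z, PInj (c z))
    (h : Pth gp c (zp gp zs j (a + 1)) j P) (h' : Pth gp c (zp gp zs j' (a + 1)) j' P') {k : ℕ}
    (hk : k < T) (hz : zp gp (zp gp zs j (a + 1)) j k = zp gp (zp gp zs j' (a + 1)) j' k)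
    (hP : P k = P' k) : P a = P' a := by
  have h1 : zp gp (zp gp zs j (a + 1)) j (a + 1) = zp gp (zp gp zs j' (a + 1)) j' (a + 1) := by
    rw [zback, zback]
  rcases le_total k a with hka | hka
  · exact h.fwd h' hka (by omega) (fun i h2 h3 => zp_between hj h1 hz (Or.inl ⟨by omega, by omega⟩)) hP
  · refine h.bwd hc h' hka hk (fun i h2 h3 => zp_between hj h1 hz (Or.inr ⟨by omega, by omega⟩)) hP

/-- case B: same level, different positions: no common rung -/
theorem rungsB (hj : ∀ a, gp (j a) = a) (hj' : ∀ a, gp (j' a) = a) (ha : a + 1 < T)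
    (hc : ∀ z, PInj (c z))
    (h : Pth gp c (zp gp zs j (a + 1)) j P) (h' : Pth gp c (zp gp zs j' (a + 1)) j' P')
    (hne : P a ≠ P' a)
    (hp : ∀ k, k < T → par2 (P k) (zp gp (zp gp zs j (a + 1)) j k) = ε)
    (hp' : ∀ k, k < T → par2 (P' k) (zp gp (zp gp zs j' (a + 1)) j' k) = ε) :
    2 * T ≤ (tRgs gp (zp gp zs j (a + 1)) j P ∪ tRgs gp (zp gp zs j' (a + 1)) j' P').card := by
  rw [Finset.card_union_of_disjoint, card_rgs hj, card_rgs hj']
  · omega
  · rw [Finset.disjoint_left]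
    intro e he he'
    obtain ⟨k, _, hP, hz, _⟩ := common_rung hj hj' hp hp' he he'
    exact hne (sync gp zs hj ha hc h h' k.isLt hz hP)

/-- interval of groups -/
def Iv (T c1 c2 : ℕ) : Finset (Fin T) := univ.filter fun k : Fin T => c1 ≤ k.val ∧ k.val < c2

/-- case C: the common rungs are contained in an interval of agreement -/
theorem rungsC (hj : ∀ a, gp (j a) = a) (hj' : ∀ a, gp (j' a) = a) :
    ∃ c1 ∈ range (T + 1), ∃ c2 ∈ range (T + 1), (∀ i ∈ Iv T c1 c2, j i = j' i) ∧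
      ∀ P P' : ℕ → Cube κ, (∀ k, k < T → par2 (P k) (zp gp (zp gp zs j (a + 1)) j k) = ε) →
      (∀ k, k < T → par2 (P' k) (zp gp (zp gp zs j' (b + 1)) j' k) = ε) →
      2 * T - (Iv T c1 c2).card ≤
        (tRgs gp (zp gp zs j (a + 1)) j P ∪ tRgs gp (zp gp zs j' (b + 1)) j' P').card := by
  classical
  set S : Finset (Fin T) := univ.filter fun k => zp gp (zp gp zs j (a + 1)) j k =
    zp gp (zp gp zs j' (b + 1)) j' k ∧ j k = j' k with hS
  have hcard : ∀ P P' : ℕ → Cube κ, (∀ k, k < T → par2 (P k) (zp gp (zp gp zs j (a + 1)) j k) = ε) →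
      (∀ k, k < T → par2 (P' k) (zp gp (zp gp zs j' (b + 1)) j' k) = ε) →
      2 * T - S.card ≤
        (tRgs gp (zp gp zs j (a + 1)) j P ∪ tRgs gp (zp gp zs j' (b + 1)) j' P').card := by
    intro P P' hp hp'
    have h1 := Finset.card_union_add_card_inter (tRgs gp (zp gp zs j (a + 1)) j P)
      (tRgs gp (zp gp zs j' (b + 1)) j' P')
    rw [card_rgs hj, card_rgs hj'] at h1
    have h2 : (tRgs gp (zp gp zs j (a + 1)) j P ∩ tRgs gp (zp gp zs j' (b + 1)) j' P').card ≤
        S.card := by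
      have : tRgs gp (zp gp zs j (a + 1)) j P ∩ tRgs gp (zp gp zs j' (b + 1)) j' P' ⊆
          S.image fun k : Fin T => (P k, (canE μ).e (zp gp (zp gp zs j (a + 1)) j k) (j k)) := by
        intro e he
        rw [Finset.mem_inter] at he
        obtain ⟨k, he', _, h3, h4⟩ := common_rung hj hj' hp hp' he.1 he.2
        refine Finset.mem_image.2 ⟨k, ?_, he'.symm⟩
        rw [hS, Finset.mem_filter]
        exact ⟨Finset.mem_univ _, h3, h4⟩
      exact (Finset.card_le_card this).trans Finset.card_image_le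
    omega
  rcases S.eq_empty_or_nonempty with hSe | hSn
  · refine ⟨0, by simp, 0, by simp, by simp [Iv], ?_⟩
    intro P P' hp hp'
    have := hcard P P' hp hp'
    rw [hSe] at this
    simpa [Iv] using this
  · refine ⟨(S.min' hSn).val, ?_, (S.max' hSn).val + 1, ?_, ?_, ?_⟩
    · rw [Finset.mem_range]
      have := (S.min' hSn).isLt
      omega
    · rw [Finset.mem_range]
      have := (S.max' hSn).isLt
      omega
    · intro i hi
      simp only [Iv, Finset.mem_filter, Finset.mem_univ, true_and] at hi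
      have h1 := Finset.mem_filter.1 (Finset.min'_mem S hSn)
      have h2 := Finset.mem_filter.1 (Finset.max'_mem S hSn)
      by_cases h3 : i.val = (S.max' hSn).val
      · have h4 : i = S.max' hSn := Fin.ext h3
        rw [h4]
        exact h2.2.2
      · exact (zp_key hj h1.2.1 h2.2.1 i (by omega)).2
    · intro P P' hp hp'
      refine le_trans ?_ (hcard P P' hp hp')
      have : S ⊆ Iv T (S.min' hSn).val ((S.max' hSn).val + 1) := by
        intro i hi
        simp only [Iv, Finset.mem_filter, Finset.mem_univ, true_and]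
        have h1 := S.min'_le i hi
        have h2 := S.le_max' i hi
        exact ⟨h1, Nat.lt_succ_of_le h2⟩
      have := Finset.card_le_card this
      omega

end coin

/-! ### the probability of the event of one parameter -/

section ev

variable {κ μ : Type} [DecidableEq κ] [Fintype κ] [DecidableEq μ] [Fintype μ] {T : ℕ} {X : Type}
  [Fintype X] (gp : μ → Fin T) {ν : Cube μ → FP X} {cf : X → Cube κ → Option (Cube κ)}
  {Uf : X → Finset (Cube κ)} {act : Cube κ → X ≃ X} {ε : Bool} {u α : ℝ} {p : ℝ} {h0 : 0 ≤ p}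
  {h1 : p ≤ 1}

variable (ε cf Uf) in
/-- two trails which meet in the fibre `zs` -/
def EvR (a b kk : ℕ) (D : Cube κ → Prop) (zs : Cube μ) (w : Cube κ) (j j' : Fin T → μ)
    (s : Smp X κ μ) : Prop :=
  ∃ y y', IsTrail gp ε (fun z => cf (s.1 z)) (fun z => Uf (s.1 z)) (rgo s.2)
      (y, zp gp zs j (a + 1), j) ∧
    IsTrail gp ε (fun z => cf (s.1 z)) (fun z => Uf (s.1 z)) (rgo s.2)
      (y', zp gp zs j' (b + 1), j') ∧
    (y, zp gp zs j (a + 1)) ≠ (y', zp gp zs j' (b + 1)) ∧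
    tend gp (fun z => cf (s.1 z)) (y, zp gp zs j (a + 1), j) ≠
      tend gp (fun z => cf (s.1 z)) (y', zp gp zs j' (b + 1), j') ∧
    pos gp (fun z => cf (s.1 z)) (zp gp zs j (a + 1)) j y a = some w ∧
    ∃ w', pos gp (fun z => cf (s.1 z)) (zp gp zs j' (b + 1)) j' y' b = some w' ∧
      it (cf (s.1 zs)) kk w = some w' ∧ D w'

theorem pr_EvR (hF : FldH ν cf Uf act ε u α) {a b kk : ℕ} (ha : a + 1 < T) (hb : b + 1 < T)
    (D : Cube κ → Prop) (zs : Cube μ) (w : Cube κ) {j j' : Fin T → μ} (hj : ∀ a, gp (j a) = a)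
    (hj' : ∀ a, gp (j' a) = a) (m n : ℕ)
    (hm : ∀ (c : Cube μ → Cube κ → Option (Cube κ)) (P P' : ℕ → Cube κ), (∀ z, PInj (c z)) →
      Pth gp c (zp gp zs j (a + 1)) j P → Pth gp c (zp gp zs j' (b + 1)) j' P' →
      (∀ k, k < T → par2 (P k) (zp gp (zp gp zs j (a + 1)) j k) = ε) →
      (∀ k, k < T → par2 (P' k) (zp gp (zp gp zs j' (b + 1)) j' k) = ε) →
      P a = w → D (P' b) →
      m ≤ (tRgs gp (zp gp zs j (a + 1)) j P ∪ tRgs gp (zp gp zs j' (b + 1)) j' P').card)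
    (hn : n ≤ (SpF gp a b zs j j').card) :
    (lawR κ ν p h0 h1).pr (EvR gp cf Uf ε a b kk D zs w j j') ≤ p ^ m * u ^ n := by
  have hT0 : 0 < T := by omega
  have hu : 0 ≤ u := hF.u_nonneg (j ⟨0, hT0⟩)
  have hu1 : u ≤ 1 := hF.u_le_one (j ⟨0, hT0⟩)
  refine le_trans (FP.pr_mono _ fun s hs => ?_) ((pr_class (p := p) (h0 := h0) (h1 := h1) gp hF ha
    hb D zs w hj hj' m hm (kk := kk)).trans ?_)
  · obtain ⟨y, y', h1, h2, _, _, h5, h6⟩ := hs
    exact ⟨y, y', h1, h2, h5, h6⟩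
  · exact mul_le_mul_of_nonneg_left (pow_le_pow_of_le_one hu hu1 hn) (pow_nonneg h0 _)

theorem pr_false {Ω : Type*} [Fintype Ω] (P : FP Ω) {A : Ω → Prop} (h : ∀ ω, ¬ A ω) :
    P.pr A = 0 := by
  classical
  rw [FP.pr_eq]
  refine Eq.trans (P.E_congr fun ω => ?_) (P.E_const 0)
  rw [if_neg (h ω)]

/-- directions are forced -/
theorem EvR_dir {a b kk : ℕ} {D : Cube κ → Prop} {zs : Cube μ} {w : Cube κ} {j j' : Fin T → μ}
    {s : Smp X κ μ} (h : EvR gp cf Uf ε a b kk D zs w j j' s) :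
    (∀ a, gp (j a) = a) ∧ ∀ a, gp (j' a) = a := by
  obtain ⟨y, y', h1, h2, _⟩ := h
  exact ⟨h1.dir, h2.dir⟩

theorem pr_EvR_A (hF : FldH ν cf Uf act ε u α) {a b kk : ℕ} (ha : a + 1 < T) (hb : b + 1 < T)
    (hab : a ≠ b) (D : Cube κ → Prop) (zs : Cube μ) (w : Cube κ) {j j' : Fin T → μ}
    (hj : ∀ a, gp (j a) = a) (hj' : ∀ a, gp (j' a) = a) :
    (lawR κ ν p h0 h1).pr (EvR gp cf Uf ε a b kk D zs w j j') ≤ p ^ (2 * T) * u ^ 4 := by
  refine pr_EvR gp hF ha hb D zs w hj hj' (2 * T) 4 ?_ ?_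
  · intro c P P' _ _ _ hp hp' _ _
    exact rungsA gp zs hj hj' ha hb hab hp hp'
  · rw [SpF_card4 gp zs hj hj' ha hb (fun h => hab (z0_eq gp zs hj hj' ha hb h).1)
      (fun h => hab (zT_eq gp zs hj hj' ha hb h).1)]

/-- a trail as a path -/
theorem IsTrail.exs {c : Cube μ → Cube κ → Option (Cube κ)} {U : Cube μ → Finset (Cube κ)}
    {o : Cube κ → Cube μ → μ → Prop} {y : Cube κ} {z : Cube μ} {j : Fin T → μ}
    (h : IsTrail gp ε c U o (y, z, j)) : ∀ k, k < T → ∃ u, pos gp c z j y k = some u := by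
  intro k hk
  obtain ⟨u, hu, _⟩ := h.rung ⟨k, hk⟩
  exact ⟨u, hu⟩

theorem pr_EvR_C (hF : FldH ν cf Uf act ε u α) {a kk : ℕ} (ha : a + 1 < T)
    (zs : Cube μ) (w : Cube κ) {j j' : Fin T → μ}
    (hj : ∀ a, gp (j a) = a) (hj' : ∀ a, gp (j' a) = a) :
    (lawR κ ν p h0 h1).pr (EvR gp cf Uf ε a a kk (fun w' => w' = w) zs w j j') ≤
      ∑ c1 ∈ range (T + 1), ∑ c2 ∈ range (T + 1),
        if (∀ i ∈ Iv T c1 c2, j i = j' i) then p ^ (2 * T - (Iv T c1 c2).card) * u ^ 4 else 0 := by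
  have hT0 : 0 < T := by omega
  have hu : 0 ≤ u := hF.u_nonneg (j ⟨0, hT0⟩)
  have hnn : ∀ c1 c2 : ℕ, 0 ≤ (if (∀ i ∈ Iv T c1 c2, j i = j' i) then
      p ^ (2 * T - (Iv T c1 c2).card) * u ^ 4 else 0) := by
    intro c1 c2
    split_ifs
    · positivity
    · exact le_rfl
  have hback : zp gp (zp gp zs j (a + 1)) j (a + 1) = zp gp (zp gp zs j' (a + 1)) j' (a + 1) := by
    rw [zback, zback]
  by_cases hz0 : zp gp zs j (a + 1) = zp gp zs j' (a + 1)
  · rw [pr_false]
    · exact Finset.sum_nonneg fun c1 _ => Finset.sum_nonneg fun c2 _ => hnn c1 c2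
    · rintro s ⟨y, y', t1, t2, hne, _, hw, w', hw', _, rfl⟩
      have e1 := pth_ps gp (t1.exs gp)
      have e2 := pth_ps gp (t2.exs gp)
      have e3 := pos_ps gp (t1.exs gp) (k := a) (by omega)
      have e4 := pos_ps gp (t2.exs gp) (k := a) (by omega)
      rw [hw] at e3
      rw [hw'] at e4
      have h0' : zp gp (zp gp zs j (a + 1)) j 0 = zp gp (zp gp zs j' (a + 1)) j' 0 := by
        rw [zp_zero, zp_zero, hz0]
      have e5 := Pth.bwd (fun z => hF.inj _) e1 e2 (Nat.zero_le a) (by omega)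
        (fun i h2 h3 => zp_between hj hback h0' (Or.inl ⟨by omega, by omega⟩))
        ((Option.some.inj e3).symm.trans (Option.some.inj e4))
      exact hne (Prod.ext e5 hz0)
  by_cases hzT : zp gp (zp gp zs j (a + 1)) j T = zp gp (zp gp zs j' (a + 1)) j' T
  · rw [pr_false]
    · exact Finset.sum_nonneg fun c1 _ => Finset.sum_nonneg fun c2 _ => hnn c1 c2
    · rintro s ⟨y, y', t1, t2, _, hne, hw, w', hw', _, rfl⟩
      have e1 := pth_ps gp (t1.exs gp)
      have e2 := pth_ps gp (t2.exs gp)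
      have e3 := pos_ps gp (t1.exs gp) (k := a) (by omega)
      have e4 := pos_ps gp (t2.exs gp) (k := a) (by omega)
      rw [hw] at e3
      rw [hw'] at e4
      have e5 := Pth.fwd e1 e2 (k := a) (l := T - 1) (by omega) (by omega)
        (fun i h2 h3 => zp_between hj hback hzT (Or.inr ⟨by omega, by omega⟩))
        ((Option.some.inj e3).symm.trans (Option.some.inj e4))
      refine hne (Prod.ext ?_ hzT)
      have e6 := pos_ps gp (t1.exs gp) (k := T - 1) (by omega)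
      have e7 := pos_ps gp (t2.exs gp) (k := T - 1) (by omega)
      simp only [tend]
      rw [e6, e7, e5]
  obtain ⟨c1, hc1, c2, hc2, hag, hr⟩ := rungsC (κ := κ) (ε := ε) gp (a := a) (b := a) zs hj hj'
  refine le_trans (pr_EvR gp hF ha ha (fun w' => w' = w) zs w hj hj'
    (2 * T - (Iv T c1 c2).card) 4 ?_ ?_) ?_
  · intro c P P' _ _ _ hp hp' _ _
    exact hr P P' hp hp'
  · rw [SpF_card4 gp zs hj hj' ha ha hz0 hzT]
  · refine le_trans ?_ (Finset.single_le_sum (f := fun c1 => ∑ c2 ∈ range (T + 1),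
        if (∀ i ∈ Iv T c1 c2, j i = j' i) then p ^ (2 * T - (Iv T c1 c2).card) * u ^ 4 else 0)
      (fun c1 _ => Finset.sum_nonneg fun c2 _ => hnn c1 c2) hc1)
    refine le_trans ?_ (Finset.single_le_sum (f := fun c2 =>
        if (∀ i ∈ Iv T c1 c2, j i = j' i) then p ^ (2 * T - (Iv T c1 c2).card) * u ^ 4 else 0)
      (fun c2 _ => hnn c1 c2) hc2)
    rw [if_pos hag]

theorem pr_EvR_B (hF : FldH ν cf Uf act ε u α) {a kk : ℕ} (ha : a + 1 < T)
    (zs : Cube μ) (w : Cube κ) {j j' : Fin T → μ}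
    (hj : ∀ a, gp (j a) = a) (hj' : ∀ a, gp (j' a) = a) :
    (lawR κ ν p h0 h1).pr (EvR gp cf Uf ε a a kk (fun w' => w' ≠ w) zs w j j') ≤
      p ^ (2 * T) * u ^ 4 +
      (if (∀ i ∈ (univ : Finset (Fin T)).filter (fun i => i.val ≤ a), j i = j' i) then
        p ^ (2 * T) * u ^ 3 else 0) +
      (if (∀ i ∈ (univ : Finset (Fin T)).filter (fun i => a < i.val), j i = j' i) then
        p ^ (2 * T) * u ^ 3 else 0) +
      (if (∀ i ∈ (univ : Finset (Fin T)), j i = j' i) then p ^ (2 * T) * u ^ 2 else 0) := by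
  have hT0 : 0 < T := by omega
  have hu : 0 ≤ u := hF.u_nonneg (j ⟨0, hT0⟩)
  have key : ∀ n, n ≤ (SpF gp a a zs j j').card →
      (lawR κ ν p h0 h1).pr (EvR gp cf Uf ε a a kk (fun w' => w' ≠ w) zs w j j') ≤
        p ^ (2 * T) * u ^ n := by
    intro n hn
    refine pr_EvR gp hF ha ha (fun w' => w' ≠ w) zs w hj hj' (2 * T) n ?_ hn
    intro c P P' hc h h' hp hp' hw hne
    exact rungsB gp zs hj hj' ha hc h h' (by rw [hw]; exact hne.symm) hp hp'
  have n4 : 0 ≤ p ^ (2 * T) * u ^ 4 := by positivity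
  have n3 : 0 ≤ p ^ (2 * T) * u ^ 3 := by positivity
  have n2 : 0 ≤ p ^ (2 * T) * u ^ 2 := by positivity
  have m1 : 0 ≤ (if (∀ i ∈ (univ : Finset (Fin T)).filter (fun i => i.val ≤ a), j i = j' i) then
        p ^ (2 * T) * u ^ 3 else 0) := by split_ifs <;> [exact n3; exact le_rfl]
  have m2 : 0 ≤ (if (∀ i ∈ (univ : Finset (Fin T)).filter (fun i => a < i.val), j i = j' i) then
        p ^ (2 * T) * u ^ 3 else 0) := by split_ifs <;> [exact n3; exact le_rfl]
  have m3 : 0 ≤ (if (∀ i ∈ (univ : Finset (Fin T)), j i = j' i) then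
        p ^ (2 * T) * u ^ 2 else 0) := by split_ifs <;> [exact n2; exact le_rfl]
  by_cases hz0 : zp gp zs j (a + 1) = zp gp zs j' (a + 1)
  · have g0 := (z0_eq gp zs hj hj' ha ha hz0).2
    by_cases hzT : zp gp (zp gp zs j (a + 1)) j T = zp gp (zp gp zs j' (a + 1)) j' T
    · have gT := (zT_eq gp zs hj hj' ha ha hzT).2
      have := key 2 (SpF_card2 gp zs hj ha)
      have h3 : ∀ i ∈ (univ : Finset (Fin T)), j i = j' i := by
        intro i _
        rcases Nat.lt_or_ge a i.val with h | h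
        · exact gT i h
        · exact g0 i h
      rw [if_pos h3]
      linarith
    · have := key 3 (SpF_card3 gp zs hj hj' ha ha (Or.inr hzT))
      rw [if_pos (c := ∀ i ∈ (univ : Finset (Fin T)).filter (fun i => i.val ≤ a), j i = j' i)
        (fun i hi => g0 i (by simpa using hi))]
      linarith
  · by_cases hzT : zp gp (zp gp zs j (a + 1)) j T = zp gp (zp gp zs j' (a + 1)) j' T
    · have gT := (zT_eq gp zs hj hj' ha ha hzT).2
      have := key 3 (SpF_card3 gp zs hj hj' ha ha (Or.inl hz0))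
      rw [if_pos (c := ∀ i ∈ (univ : Finset (Fin T)).filter (fun i => a < i.val), j i = j' i)
        (fun i hi => gT i (by simpa using hi))]
      linarith
    · have := key 4 (SpF_card4 gp zs hj hj' ha ha hz0 hzT).ge
      linarith

end ev

/-! ### counting -/

section count

variable {κ μ : Type} [DecidableEq κ] [Fintype κ] [DecidableEq μ] [Fintype μ] {T : ℕ} {X : Type}
  [Fintype X] (gp : μ → Fin T) {ν : Cube μ → FP X} {cf : X → Cube κ → Option (Cube κ)}
  {Uf : X → Finset (Cube κ)} {act : Cube κ → X ≃ X} {ε : Bool} {u α : ℝ} {p : ℝ} {h0 : 0 ≤ p}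
  {h1 : p ≤ 1}

/-- parameters of a bad pair: levels and distance, fibre and position, directions -/
abbrev Th (κ μ : Type) (T L : ℕ) :=
  (Fin T × Fin T × Fin (L + 1)) × (Cube μ × Cube κ) × ((Fin T → μ) × (Fin T → μ))

variable (cf Uf ε) in
/-- the event of a parameter -/
def Ev3 {L : ℕ} (as : ℕ) (θ : Th κ μ T L) (s : Smp X κ μ) : Prop :=
  θ.1.1.val + 1 < T ∧ θ.1.2.1.val + 1 < T ∧
    ((θ.1.1 ≠ θ.1.2.1 ∧ EvR gp cf Uf ε θ.1.1 θ.1.2.1 θ.1.2.2 (fun _ => True) θ.2.1.1 θ.2.1.2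
        θ.2.2.1 θ.2.2.2 s) ∨
      ((θ.1.1 = θ.1.2.1 ∧ θ.1.2.2.val = 0) ∧ EvR gp cf Uf ε θ.1.1 θ.1.1 0
        (fun w' => w' = θ.2.1.2) θ.2.1.1 θ.2.1.2 θ.2.2.1 θ.2.2.2 s) ∨
      ((θ.1.1 = θ.1.2.1 ∧ θ.1.1.val = as) ∧ EvR gp cf Uf ε θ.1.1 θ.1.1 θ.1.2.2
        (fun w' => w' ≠ θ.2.1.2) θ.2.1.1 θ.2.1.2 θ.2.2.1 θ.2.2.2 s))

variable (cf Uf ε) in
/-- the parameter `θ` describes the bad pair `q` -/
structure Rl {L : ℕ} (as : ℕ) (s : Smp X κ μ) (q : TI κ μ T × TI κ μ T) (θ : Th κ μ T L) : Prop where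
  a1 : θ.1.1.val + 1 < T
  b1 : θ.1.2.1.val + 1 < T
  ja : q.1.2.2 = θ.2.2.1
  jb : q.2.2.2 = θ.2.2.2
  za : q.1.2.1 = zp gp θ.2.1.1 θ.2.2.1 (θ.1.1 + 1)
  zb : q.2.2.1 = zp gp θ.2.1.1 θ.2.2.2 (θ.1.2.1 + 1)
  ta : IsTrail gp ε (fun z => cf (s.1 z)) (fun z => Uf (s.1 z)) (rgo s.2) q.1
  tb : IsTrail gp ε (fun z => cf (s.1 z)) (fun z => Uf (s.1 z)) (rgo s.2) q.2
  nes : (q.1.1, q.1.2.1) ≠ (q.2.1, q.2.2.1)
  nee : tend gp (fun z => cf (s.1 z)) q.1 ≠ tend gp (fun z => cf (s.1 z)) q.2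
  pa : pos gp (fun z => cf (s.1 z)) q.1.2.1 q.1.2.2 q.1.1 θ.1.1 = some θ.2.1.2
  pb : ∃ w', pos gp (fun z => cf (s.1 z)) q.2.2.1 q.2.2.2 q.2.1 θ.1.2.1 = some w' ∧
    it (cf (s.1 θ.2.1.1)) θ.1.2.2 θ.2.1.2 = some w' ∧
    (θ.1.1 ≠ θ.1.2.1 ∨ ((θ.1.1 = θ.1.2.1 ∧ θ.1.2.2.val = 0) ∧ w' = θ.2.1.2) ∨
      ((θ.1.1 = θ.1.2.1 ∧ θ.1.1.val = as) ∧ w' ≠ θ.2.1.2))

theorem Rl.ev {L as : ℕ} {s : Smp X κ μ} {q : TI κ μ T × TI κ μ T} {θ : Th κ μ T L}
    (h : Rl gp cf Uf ε as s q θ) : Ev3 gp cf Uf ε as θ s := by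
  obtain ⟨⟨y, z, j⟩, ⟨y', z', j'⟩⟩ := q
  obtain ⟨⟨a, b, kk⟩, ⟨zs, w⟩, ⟨j1, j1'⟩⟩ := θ
  obtain ⟨a1, b1, ja, jb, za, zb, ta, tb, nes, nee, pa, w', pb, hit, hc⟩ := h
  simp only at a1 b1 ja jb za zb ta tb nes nee pa pb hit hc
  subst ja jb za zb
  refine ⟨a1, b1, ?_⟩
  rcases hc with hc | ⟨⟨hc1, hc2⟩, hc3⟩ | ⟨⟨hc1, hc2⟩, hc3⟩
  · exact Or.inl ⟨hc, y, y', ta, tb, nes, nee, pa, w', pb, hit, trivial⟩
  · refine Or.inr (Or.inl ⟨⟨hc1, hc2⟩, ?_⟩)
    subst hc1
    exact ⟨y, y', ta, tb, nes, nee, pa, w', pb, by rw [hc3]; rfl, hc3⟩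
  · refine Or.inr (Or.inr ⟨⟨hc1, hc2⟩, ?_⟩)
    subst hc1
    exact ⟨y, y', ta, tb, nes, nee, pa, w', pb, hit, hc3⟩

theorem Rl.inj (hinj : ∀ x, PInj (cf x)) {L as : ℕ} {s : Smp X κ μ}
    {q r : TI κ μ T × TI κ μ T} {θ : Th κ μ T L}
    (h : Rl gp cf Uf ε as s q θ) (h' : Rl gp cf Uf ε as s r θ) : q = r := by
  obtain ⟨⟨y, z, j⟩, ⟨y', z', j'⟩⟩ := q
  obtain ⟨⟨y2, z2, j2⟩, ⟨y2', z2', j2'⟩⟩ := r
  obtain ⟨⟨a, b, kk⟩, ⟨zs, w⟩, ⟨j1, j1'⟩⟩ := θ
  obtain ⟨a1, b1, ja, jb, za, zb, ta, tb, -, -, pa, w', pb, hit, -⟩ := h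
  obtain ⟨-, -, ja2, jb2, za2, zb2, ta2, tb2, -, -, pa2, w2', pb2, hit2, -⟩ := h'
  simp only at a1 b1 ja jb za zb ta tb pa pb hit ja2 jb2 za2 zb2 ta2 tb2 pa2 pb2 hit2
  subst ja jb za zb ja2 jb2 za2 zb2
  have hw : w' = w2' := Option.some.inj (hit.symm.trans hit2)
  subst hw
  have e1 := pos_ps gp (ta.exs gp) (k := a) a.isLt
  have e2 := pos_ps gp (ta2.exs gp) (k := a) a.isLt
  have e3 := pos_ps gp (tb.exs gp) (k := b) b.isLt
  have e4 := pos_ps gp (tb2.exs gp) (k := b) b.isLt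
  rw [pa] at e1
  rw [pa2] at e2
  rw [pb] at e3
  rw [pb2] at e4
  have hy := pth_unique gp (fun z => hinj _) (pth_ps gp (ta.exs gp)) (pth_ps gp (ta2.exs gp))
    a.isLt ((Option.some.inj e1).symm.trans (Option.some.inj e2))
  have hy' := pth_unique gp (fun z => hinj _) (pth_ps gp (tb.exs gp)) (pth_ps gp (tb2.exs gp))
    b.isLt ((Option.some.inj e3).symm.trans (Option.some.inj e4))
  rw [hy, hy']

theorem exists_Rl {L as : ℕ} {s : Smp X κ μ} {q : TI κ μ T × TI κ μ T}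
    (h : BadT gp ε cf Uf L as s q) : ∃ θ : Th κ μ T L, Rl gp cf Uf ε as s q θ := by
  obtain ⟨⟨y, z, j⟩, ⟨y', z', j'⟩⟩ := q
  obtain ⟨ta, tb, nes, nee, a, b, k, ha, hb, hk, hz, ⟨w, w', hw, hw', hit⟩, hc⟩ := h
  simp only at ta tb nes nee hz hw hw' hit
  have hza : z = zp gp (zp gp z j (a + 1)) j (a + 1) := (zp_zp _ _ _).symm
  have hzb : z' = zp gp (zp gp z j (a + 1)) j' (b + 1) := by rw [hz, zp_zp]
  by_cases hab : a = b
  · subst hab
    by_cases hww : w' = w
    · subst hww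
      exact ⟨((⟨a, by omega⟩, ⟨a, by omega⟩, ⟨0, by omega⟩), (zp gp z j (a + 1), w'), (j, j')),
        ha, hb, rfl, rfl, hza, hzb, ta, tb, nes, nee, hw, w', hw', rfl,
        Or.inr (Or.inl ⟨⟨rfl, rfl⟩, rfl⟩)⟩
    · have hk0 : k ≠ 0 := by
        rintro rfl
        rw [it] at hit
        exact hww (Option.some.inj hit).symm
      have has : a = as := by
        rcases hc with h | h | h
        · exact absurd h hk0
        · exact absurd rfl h
        · exact h
      exact ⟨((⟨a, by omega⟩, ⟨a, by omega⟩, ⟨k, by omega⟩), (zp gp z j (a + 1), w), (j, j')),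
        ha, hb, rfl, rfl, hza, hzb, ta, tb, nes, nee, hw, w', hw', hit,
        Or.inr (Or.inr ⟨⟨rfl, has⟩, hww⟩)⟩
  · exact ⟨((⟨a, by omega⟩, ⟨b, by omega⟩, ⟨k, by omega⟩), (zp gp z j (a + 1), w), (j, j')),
      ha, hb, rfl, rfl, hza, hzb, ta, tb, nes, nee, hw, w', hw', hit,
      Or.inl (fun h => hab (congrArg Fin.val h))⟩

open Classical in
theorem card_badT_le (hinj : ∀ x, PInj (cf x)) (L as : ℕ) (s : Smp X κ μ) :
    ((univ.filter fun q => BadT gp ε cf Uf L as s q).card : ℝ) ≤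
      ∑ θ : Th κ μ T L, if Ev3 gp cf Uf ε as θ s then (1 : ℝ) else 0 := by
  have hex : ∀ q : TI κ μ T × TI κ μ T, BadT gp ε cf Uf L as s q →
      ∃ θ : Th κ μ T L, Rl gp cf Uf ε as s q θ := fun q h => exists_Rl gp h
  by_cases hne : ∃ q, BadT gp ε cf Uf L as s q
  · obtain ⟨q0, hq0⟩ := hne
    obtain ⟨θ0, _⟩ := hex q0 hq0
    have : Nonempty (Th κ μ T L) := ⟨θ0⟩
    choose! f hf using hex
    have h1 : (univ.filter fun q => BadT gp ε cf Uf L as s q).card ≤
        (univ.filter fun θ : Th κ μ T L => Ev3 gp cf Uf ε as θ s).card := by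
      refine Finset.card_le_card_of_injOn f ?_ ?_
      · intro q hq
        have hq' := (Finset.mem_filter.1 hq).2
        exact Finset.mem_coe.2 (Finset.mem_filter.2 ⟨Finset.mem_univ _, (hf q hq').ev gp⟩)
      · intro q hq r hr h
        have hq' := (Finset.mem_filter.1 hq).2
        have hr' := (Finset.mem_filter.1 hr).2
        have e1 := hf q hq'
        rw [h] at e1
        exact Rl.inj gp hinj e1 (hf r hr')
    rw [← Finset.sum_filter, Finset.sum_const, nsmul_eq_mul, mul_one]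
    exact_mod_cast h1
  · have : (univ.filter fun q => BadT gp ε cf Uf L as s q) = ∅ := by
      rw [Finset.filter_eq_empty_iff]
      intro q _ h
      exact hne ⟨q, h⟩
    rw [this, Finset.card_empty, Nat.cast_zero]
    exact Finset.sum_nonneg fun θ _ => by split_ifs <;> norm_num

/-- indicator of the pairs of direction vectors that agree on `S` -/
noncomputable def Ag (S : Finset (Fin T)) (q : (Fin T → μ) × (Fin T → μ)) : ℝ := by
  classical
  exact if (∀ a, gp (q.1 a) = a) ∧ (∀ a, gp (q.2 a) = a) ∧ ∀ a ∈ S, q.1 a = q.2 a then 1 else 0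

theorem Ag_nonneg (S : Finset (Fin T)) (q : (Fin T → μ) × (Fin T → μ)) : 0 ≤ Ag gp S q := by
  unfold Ag
  split_ifs <;> norm_num

theorem sum_Ag (S : Finset (Fin T)) :
    ∑ q : (Fin T → μ) × (Fin T → μ), Ag gp S q =
      ∏ a, if a ∈ S then (gsz gp a : ℝ) else (gsz gp a : ℝ) ^ 2 := by
  classical
  rw [← card_agree]
  simp only [Ag]
  rw [← Finset.sum_filter, Finset.sum_const, nsmul_eq_mul, mul_one]

theorem Ag_eq_one {S : Finset (Fin T)} {j j' : Fin T → μ} (hj : ∀ a, gp (j a) = a)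
    (hj' : ∀ a, gp (j' a) = a) (h : ∀ a ∈ S, j a = j' a) : Ag gp S (j, j') = 1 := by
  unfold Ag
  rw [if_pos ⟨hj, hj', h⟩]

theorem prod_ag1 (S : Finset (Fin T)) (hg : ∀ a, 1 ≤ p * gsz gp a) (h0 : 0 ≤ p) :
    p ^ (2 * T - S.card) * (∏ a, if a ∈ S then (gsz gp a : ℝ) else (gsz gp a : ℝ) ^ 2) ≤
      (∏ a, p * gsz gp a) ^ 2 := by
  classical
  have hc : S.card ≤ T := by simpa using Finset.card_le_univ S
  have h2 : p ^ (2 * T - S.card) = ∏ a : Fin T, (if a ∈ S then p else p ^ 2) := by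
    rw [Finset.prod_ite, Finset.prod_const, Finset.prod_const, ← pow_mul, ← pow_add]
    congr 1
    have e1 : (univ.filter fun a => a ∈ S) = S := by ext a; simp
    have e2 : (univ.filter fun a => a ∉ S) = Sᶜ := by ext a; simp
    rw [e1, e2, Finset.card_compl, Fintype.card_fin]
    omega
  rw [h2, ← Finset.prod_mul_distrib, ← Finset.prod_pow]
  refine Finset.prod_le_prod (fun a _ => by split_ifs <;> positivity) fun a _ => ?_
  have := hg a
  split_ifs
  · nlinarith
  · nlinarith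

theorem prod_ag2 (S : Finset (Fin T)) :
    p ^ (2 * T) * (∏ a, if a ∈ S then (gsz gp a : ℝ) else (gsz gp a : ℝ) ^ 2) *
      ∏ a ∈ S, (gsz gp a : ℝ) = (∏ a, p * gsz gp a) ^ 2 := by
  classical
  have h2 : p ^ (2 * T) = ∏ a : Fin T, p ^ 2 := by
    rw [Finset.prod_const, ← pow_mul, Finset.card_univ, Fintype.card_fin]
  have h3 : ∏ a ∈ S, (gsz gp a : ℝ) = ∏ a : Fin T, (if a ∈ S then (gsz gp a : ℝ) else 1) := by
    rw [Finset.prod_ite, Finset.prod_const_one, mul_one]
    refine Finset.prod_congr ?_ fun _ _ => rfl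
    ext a; simp
  rw [h2, h3, ← Finset.prod_mul_distrib, ← Finset.prod_mul_distrib, ← Finset.prod_pow]
  refine Finset.prod_congr rfl fun a _ => ?_
  split_ifs <;> ring

/-- bound for one parameter -/
theorem pr_Ev3 (hF : FldH ν cf Uf act ε u α) (L as : ℕ) (θ : Th κ μ T L) :
    (lawR κ ν p h0 h1).pr (Ev3 gp cf Uf ε as θ) ≤
      (if θ.1.1 ≠ θ.1.2.1 then p ^ (2 * T) * u ^ 4 * Ag gp ∅ θ.2.2 else 0) +
      (if θ.1.1 = θ.1.2.1 ∧ θ.1.2.2.val = 0 then
        ∑ c1 ∈ range (T + 1), ∑ c2 ∈ range (T + 1),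
          p ^ (2 * T - (Iv T c1 c2).card) * u ^ 4 * Ag gp (Iv T c1 c2) θ.2.2 else 0) +
      (if θ.1.1 = θ.1.2.1 ∧ θ.1.1.val = as then
        p ^ (2 * T) * u ^ 4 * Ag gp ∅ θ.2.2 +
        p ^ (2 * T) * u ^ 3 * Ag gp (univ.filter (fun i : Fin T => i.val ≤ as)) θ.2.2 +
        p ^ (2 * T) * u ^ 3 * Ag gp (univ.filter (fun i : Fin T => as < i.val)) θ.2.2 +
        p ^ (2 * T) * u ^ 2 * Ag gp univ θ.2.2 else 0) := by
  classical
  obtain ⟨⟨a, b, kk⟩, ⟨zs, w⟩, ⟨j, j'⟩⟩ := θ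
  have hT0 : 0 < T := lt_of_le_of_lt (Nat.zero_le _) a.isLt
  have hu : 0 ≤ u := hF.u_nonneg (j ⟨0, hT0⟩)
  have hAg := fun S => Ag_nonneg gp S (j, j')
  have hI : ∀ (A : Prop) [Decidable A] (x : ℝ), 0 ≤ x → 0 ≤ if A then x else 0 := by
    intro A _ x hx
    split_ifs
    · exact hx
    · exact le_rfl
  have t1 : 0 ≤ (if a ≠ b then p ^ (2 * T) * u ^ 4 * Ag gp ∅ (j, j') else 0) :=
    hI _ _ (mul_nonneg (by positivity) (hAg _))
  have t2 : 0 ≤ (if a = b ∧ kk.val = 0 then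
        ∑ c1 ∈ range (T + 1), ∑ c2 ∈ range (T + 1),
          p ^ (2 * T - (Iv T c1 c2).card) * u ^ 4 * Ag gp (Iv T c1 c2) (j, j') else 0) :=
    hI _ _ (Finset.sum_nonneg fun _ _ => Finset.sum_nonneg fun _ _ =>
      mul_nonneg (by positivity) (hAg _))
  have t3 : 0 ≤ (if a = b ∧ a.val = as then
        p ^ (2 * T) * u ^ 4 * Ag gp ∅ (j, j') +
        p ^ (2 * T) * u ^ 3 * Ag gp (univ.filter (fun i : Fin T => i.val ≤ as)) (j, j') +
        p ^ (2 * T) * u ^ 3 * Ag gp (univ.filter (fun i : Fin T => as < i.val)) (j, j') +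
        p ^ (2 * T) * u ^ 2 * Ag gp univ (j, j') else 0) := by
    refine hI _ _ ?_
    have := mul_nonneg (show 0 ≤ p ^ (2 * T) * u ^ 4 by positivity) (hAg ∅)
    have := mul_nonneg (show 0 ≤ p ^ (2 * T) * u ^ 3 by positivity)
      (hAg (univ.filter (fun i : Fin T => i.val ≤ as)))
    have := mul_nonneg (show 0 ≤ p ^ (2 * T) * u ^ 3 by positivity)
      (hAg (univ.filter (fun i : Fin T => as < i.val)))
    have := mul_nonneg (show 0 ≤ p ^ (2 * T) * u ^ 2 by positivity) (hAg univ)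
    linarith
  by_cases hpos : ∀ s, ¬ Ev3 gp cf Uf ε as ((a, b, kk), (zs, w), (j, j')) s
  · rw [pr_false _ hpos]
    linarith
  push Not at hpos
  obtain ⟨s0, hs0⟩ := hpos
  have ha : a.val + 1 < T := hs0.1
  have hb : b.val + 1 < T := hs0.2.1
  have hd : (∀ a, gp (j a) = a) ∧ ∀ a, gp (j' a) = a := by
    rcases hs0.2.2 with h | h | h
    · exact EvR_dir gp h.2
    · exact EvR_dir gp h.2
    · exact EvR_dir gp h.2
  obtain ⟨hj, hj'⟩ := hd
  simp only
  by_cases hab : a = b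
  · subst hab
    have hle : (lawR κ ν p h0 h1).pr (Ev3 gp cf Uf ε as ((a, a, kk), (zs, w), (j, j'))) ≤
        (lawR κ ν p h0 h1).pr (fun s => (kk.val = 0 ∧ EvR gp cf Uf ε a a 0 (fun w' => w' = w) zs w j j' s) ∨
          (a.val = as ∧ EvR gp cf Uf ε a a kk (fun w' => w' ≠ w) zs w j j' s)) := by
      refine FP.pr_mono _ fun s hs => ?_
      rcases hs.2.2 with h | h | h
      · exact absurd rfl h.1
      · exact Or.inl ⟨h.1.2, h.2⟩
      · exact Or.inr ⟨h.1.2, h.2⟩
    refine hle.trans ((FP.pr_or _ _ _).trans ?_)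
    have b1 : (lawR κ ν p h0 h1).pr (fun s => kk.val = 0 ∧
        EvR gp cf Uf ε a a 0 (fun w' => w' = w) zs w j j' s) ≤ (if a = a ∧ kk.val = 0 then
        ∑ c1 ∈ range (T + 1), ∑ c2 ∈ range (T + 1),
          p ^ (2 * T - (Iv T c1 c2).card) * u ^ 4 * Ag gp (Iv T c1 c2) (j, j') else 0) := by
      by_cases hk : kk.val = 0
      · rw [if_pos ⟨rfl, hk⟩]
        refine le_trans (FP.pr_mono _ fun s hs => hs.2) ((pr_EvR_C gp hF ha zs w hj hj').trans ?_)
        refine Finset.sum_le_sum fun c1 _ => Finset.sum_le_sum fun c2 _ => ?_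
        split_ifs with h
        · rw [Ag_eq_one gp hj hj' h, mul_one]
        · exact mul_nonneg (by positivity) (hAg _)
      · rw [if_neg (fun h => hk h.2), pr_false _ (fun s h => hk h.1)]
    have b2 : (lawR κ ν p h0 h1).pr (fun s => a.val = as ∧
        EvR gp cf Uf ε a a kk (fun w' => w' ≠ w) zs w j j' s) ≤ (if a = a ∧ a.val = as then
        p ^ (2 * T) * u ^ 4 * Ag gp ∅ (j, j') +
        p ^ (2 * T) * u ^ 3 * Ag gp (univ.filter (fun i : Fin T => i.val ≤ as)) (j, j') +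
        p ^ (2 * T) * u ^ 3 * Ag gp (univ.filter (fun i : Fin T => as < i.val)) (j, j') +
        p ^ (2 * T) * u ^ 2 * Ag gp univ (j, j') else 0) := by
      by_cases hk : a.val = as
      · rw [if_pos ⟨rfl, hk⟩]
        refine le_trans (FP.pr_mono _ fun s hs => hs.2) ((pr_EvR_B gp hF ha zs w hj hj').trans ?_)
        rw [hk]
        refine add_le_add (add_le_add (add_le_add ?_ ?_) ?_) ?_
        · rw [Ag_eq_one gp hj hj' (by simp), mul_one]
        · split_ifs with h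
          · rw [Ag_eq_one gp hj hj' h, mul_one]
          · exact mul_nonneg (by positivity) (hAg _)
        · split_ifs with h
          · rw [Ag_eq_one gp hj hj' h, mul_one]
          · exact mul_nonneg (by positivity) (hAg _)
        · split_ifs with h
          · rw [Ag_eq_one gp hj hj' h, mul_one]
          · exact mul_nonneg (by positivity) (hAg _)
      · rw [if_neg (fun h => hk h.2), pr_false _ (fun s h => hk h.1)]
    linarith
  · have hle : (lawR κ ν p h0 h1).pr (Ev3 gp cf Uf ε as ((a, b, kk), (zs, w), (j, j'))) ≤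
        (lawR κ ν p h0 h1).pr (EvR gp cf Uf ε a b kk (fun _ => True) zs w j j') := by
      refine FP.pr_mono _ fun s hs => ?_
      rcases hs.2.2 with h | h | h
      · exact h.2
      · exact absurd h.1.1 hab
      · exact absurd h.1.1 hab
    have hA := pr_EvR_A (p := p) (h0 := h0) (h1 := h1) gp hF ha hb
      (fun h => hab (Fin.ext h)) (fun _ => True) zs w hj hj' (kk := kk)
    have h3 : (if a ≠ b then p ^ (2 * T) * u ^ 4 * Ag gp ∅ (j, j') else 0) = p ^ (2 * T) * u ^ 4 := by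
      rw [if_pos hab, Ag_eq_one gp hj hj' (by simp), mul_one]
    rw [h3]
    linarith

end count

theorem bad_num (T L x1 x2 x3 : ℝ) (hT : 3 ≤ T) (hL : 0 ≤ L) (hx1 : 0 ≤ x1) (hx2 : 0 ≤ x2)
    (hx3 : 0 ≤ x3) : T * T * (L + 1) * x1 + T * ((T + 1) ^ 2 * x1) + (L + 1) * (x1 + 2 * x2 + x3) ≤
      4 * (L + 1) * T ^ 3 * (x1 + x2 + x3) := by
  have g0 : 9 ≤ T * T := by nlinarith
  have g1 : T * T * 3 ≤ T * T * T := by nlinarith
  have g2 : T * 9 ≤ T * T * T := by nlinarith
  have g3 : 27 ≤ T * T * T := by nlinarith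
  have hL1 : 0 ≤ L + 1 := by linarith
  have c1 : T * T * (L + 1) + T * (T + 1) ^ 2 + (L + 1) ≤ 4 * (L + 1) * (T * T * T) := by
    have e1 : T * T * (L + 1) * 3 ≤ T * T * T * (L + 1) := by nlinarith
    have e2 : T * (T + 1) ^ 2 ≤ 2 * (T * T * T) := by nlinarith
    have e3 : 2 * (T * T * T) ≤ 2 * (T * T * T) * (L + 1) := by nlinarith
    have e4 : (L + 1) * 27 ≤ T * T * T * (L + 1) := by nlinarith
    nlinarith
  have c2 : 2 * (L + 1) ≤ 4 * (L + 1) * (T * T * T) := by nlinarith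
  have c3 : L + 1 ≤ 4 * (L + 1) * (T * T * T) := by nlinarith
  have f1 := mul_le_mul_of_nonneg_right c1 hx1
  have f2 := mul_le_mul_of_nonneg_right c2 hx2
  have f3 := mul_le_mul_of_nonneg_right c3 hx3
  have hT3 : T ^ 3 = T * T * T := by ring
  rw [hT3]
  linarith

section main

variable {κ μ : Type} [DecidableEq κ] [Fintype κ] [DecidableEq μ] [Fintype μ] {T : ℕ} {X : Type} [Fintype X]
  (gp : μ → Fin T) {ν : Cube μ → FP X} {cf : X → Cube κ → Option (Cube κ)} {Uf : X → Finset (Cube κ)}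
  {act : Cube κ → X ≃ X} {ε : Bool} {u α : ℝ} (p : ℝ) (h0 : 0 ≤ p) (h1 : p ≤ 1)

open Classical in
theorem E_bad (hF : FldH ν cf Uf act ε u α) {t : ℕ} (hT : T = 2 * t + 1) (ht : 1 ≤ t)
    (hg : ∀ a, 1 ≤ p * gsz gp a) (L : ℕ) {R : ℝ} (hR : 0 < R)
    (hR1 : R ≤ ∏ a ∈ univ.filter (fun a : Fin T => a.val < t), (gsz gp a : ℝ))
    (hR2 : R ≤ ∏ a ∈ univ.filter (fun a : Fin T => t < a.val), (gsz gp a : ℝ)) :
    (lawR κ ν p h0 h1).E (fun s => ((univ.filter fun q => BadT gp ε cf Uf L (t - 1) s q).card : ℝ)) ≤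
      2 ^ (Fintype.card κ + Fintype.card μ) * (4 * (L + 1) * T ^ 3) *
        (u ^ 4 * (∏ a, p * gsz gp a) ^ 2 + u ^ 3 * (∏ a, p * gsz gp a) ^ 2 / R +
          u ^ 2 * (∏ a, p * gsz gp a)) := by
  have hT0 : 0 < T := by omega
  have hμ : Nonempty μ := by
    have h := hg ⟨0, hT0⟩
    by_contra hne
    rw [not_nonempty_iff] at hne
    have : gsz gp ⟨0, hT0⟩ = 0 := by
      rw [gsz, Finset.card_eq_zero, Finset.filter_eq_empty_iff]
      intro i
      exact (hne.false i).elim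
    rw [this] at h
    norm_num at h
  obtain ⟨i0⟩ := hμ
  have hu : 0 ≤ u := hF.u_nonneg i0
  set Pg : ℝ := ∏ a, p * gsz gp a with hPg
  have hPg0 : 0 ≤ Pg := Finset.prod_nonneg fun a _ => by have := hg a; linarith
  set N : Finset (Fin T) → ℝ := fun S => ∏ a, if a ∈ S then (gsz gp a : ℝ) else (gsz gp a : ℝ) ^ 2
    with hN
  have hgpos : ∀ a, 0 < (gsz gp a : ℝ) := by
    intro a
    rcases (Nat.cast_nonneg (α := ℝ) (gsz gp a)).eq_or_lt with h | h
    · have := hg a
      rw [← h] at this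
      norm_num at this
    · exact h
  have hN0 : ∀ S, 0 ≤ N S := fun S => Finset.prod_nonneg fun a _ => by split_ifs <;> positivity
  have hN2 : ∀ S : Finset (Fin T), R ≤ ∏ a ∈ S, (gsz gp a : ℝ) → p ^ (2 * T) * N S ≤ Pg ^ 2 / R := by
    intro S hS
    rw [le_div_iff₀ hR, ← prod_ag2 gp S]
    exact mul_le_mul_of_nonneg_left hS (mul_nonneg (pow_nonneg h0 _) (hN0 S))
  -- products
  have n0 : p ^ (2 * T) * N ∅ = Pg ^ 2 := by
    have := prod_ag2 (p := p) gp ∅
    rw [Finset.prod_empty, mul_one] at this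
    exact this
  have n1 : p ^ (2 * T) * N (univ.filter (fun i : Fin T => i.val ≤ t - 1)) ≤ Pg ^ 2 / R := by
    refine hN2 _ (le_of_le_of_eq hR1 (Finset.prod_congr ?_ fun _ _ => rfl))
    ext i
    simp only [Finset.mem_filter, Finset.mem_univ, true_and]
    omega
  have n2 : p ^ (2 * T) * N (univ.filter (fun i : Fin T => t - 1 < i.val)) ≤ Pg ^ 2 / R := by
    refine hN2 _ (hR2.trans ?_)
    have h4 : ∏ a ∈ univ.filter (fun a : Fin T => t < a.val), gsz gp a ≤
        ∏ a ∈ univ.filter (fun i : Fin T => t - 1 < i.val), gsz gp a := by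
      refine Finset.prod_le_prod_of_subset_of_one_le' ?_ ?_
      · intro i hi
        simp only [Finset.mem_filter, Finset.mem_univ, true_and] at hi ⊢
        omega
      · intro i _ _
        have h2 := hgpos i
        exact_mod_cast h2
    exact_mod_cast h4
  have n3 : p ^ (2 * T) * N univ ≤ Pg := by
    have e1 : N univ = ∏ a, (gsz gp a : ℝ) := Finset.prod_congr rfl fun a _ => if_pos (Finset.mem_univ a)
    have e2 : Pg = p ^ T * ∏ a, (gsz gp a : ℝ) := by
      rw [hPg, Finset.prod_mul_distrib, Finset.prod_const, Finset.card_univ, Fintype.card_fin]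
    rw [e1, e2]
    refine mul_le_mul_of_nonneg_right ?_ (Finset.prod_nonneg fun a _ => (hgpos a).le)
    exact pow_le_pow_of_le_one h0 h1 (by omega)
  have n4 : ∀ S : Finset (Fin T), p ^ (2 * T - S.card) * N S ≤ Pg ^ 2 := fun S =>
    prod_ag1 gp S hg h0
  -- the sum over the direction vectors
  have s1 : ∀ c : ℝ, ∀ S, ∑ q : (Fin T → μ) × (Fin T → μ), c * Ag gp S q = c * N S := by
    intro c S
    rw [← Finset.mul_sum, sum_Ag]
  set B1 : ℝ := u ^ 4 * Pg ^ 2 with hB1
  set B2 : ℝ := (T + 1) ^ 2 * (u ^ 4 * Pg ^ 2) with hB2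
  set B3 : ℝ := u ^ 4 * Pg ^ 2 + 2 * (u ^ 3 * (Pg ^ 2 / R)) + u ^ 2 * Pg with hB3
  have hB10 : 0 ≤ B1 := by positivity
  have hB20 : 0 ≤ B2 := by positivity
  have hB30 : 0 ≤ B3 := by positivity
  have q1 : ∑ q : (Fin T → μ) × (Fin T → μ), p ^ (2 * T) * u ^ 4 * Ag gp ∅ q ≤ B1 := by
    rw [s1, hB1, ← n0]
    exact le_of_eq (by ring)
  have q2 : ∑ q : (Fin T → μ) × (Fin T → μ), ∑ c1 ∈ range (T + 1), ∑ c2 ∈ range (T + 1),
          p ^ (2 * T - (Iv T c1 c2).card) * u ^ 4 * Ag gp (Iv T c1 c2) q ≤ B2 := by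
    rw [Finset.sum_comm]
    have : ∀ c1 ∈ range (T + 1), ∑ q : (Fin T → μ) × (Fin T → μ), ∑ c2 ∈ range (T + 1),
          p ^ (2 * T - (Iv T c1 c2).card) * u ^ 4 * Ag gp (Iv T c1 c2) q ≤
          (T + 1) * (u ^ 4 * Pg ^ 2) := by
      intro c1 _
      rw [Finset.sum_comm]
      refine le_trans (Finset.sum_le_card_nsmul _ _ (u ^ 4 * Pg ^ 2) fun c2 _ => ?_) ?_
      · rw [s1]
        have := mul_le_mul_of_nonneg_left (n4 (Iv T c1 c2)) (pow_nonneg hu 4)
        calc _ = u ^ 4 * (p ^ (2 * T - (Iv T c1 c2).card) * N (Iv T c1 c2)) := by ring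
          _ ≤ _ := this
      · rw [Finset.card_range, nsmul_eq_mul]
        push_cast
        exact le_rfl
    refine le_trans (Finset.sum_le_card_nsmul _ _ _ this) ?_
    rw [Finset.card_range, nsmul_eq_mul, hB2]
    push_cast
    exact le_of_eq (by ring)
  have q3 : ∑ q : (Fin T → μ) × (Fin T → μ), (p ^ (2 * T) * u ^ 4 * Ag gp ∅ q +
        p ^ (2 * T) * u ^ 3 * Ag gp (univ.filter (fun i : Fin T => i.val ≤ t - 1)) q +
        p ^ (2 * T) * u ^ 3 * Ag gp (univ.filter (fun i : Fin T => t - 1 < i.val)) q +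
        p ^ (2 * T) * u ^ 2 * Ag gp univ q) ≤ B3 := by
    rw [Finset.sum_add_distrib, Finset.sum_add_distrib, Finset.sum_add_distrib, s1, s1, s1, s1]
    have e1 := mul_le_mul_of_nonneg_left n1 (pow_nonneg hu 3)
    have e2 := mul_le_mul_of_nonneg_left n2 (pow_nonneg hu 3)
    have e3 := mul_le_mul_of_nonneg_left n3 (pow_nonneg hu 2)
    have e0 : p ^ (2 * T) * u ^ 4 * N ∅ = u ^ 4 * Pg ^ 2 := by rw [← n0]; ring
    rw [e0, hB3]
    nlinarith
  -- expectation
  have hE : (lawR κ ν p h0 h1).E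
      (fun s => ((univ.filter fun q => BadT gp ε cf Uf L (t - 1) s q).card : ℝ)) ≤
      ∑ θ : Th κ μ T L, (lawR κ ν p h0 h1).pr (Ev3 gp cf Uf ε (t - 1) θ) := by
    refine le_trans (FP.E_mono _ fun s => card_badT_le gp hF.inj L (t - 1) s) ?_
    rw [FP.E_sum]
    refine Finset.sum_le_sum fun θ _ => ?_
    rw [FP.pr_eq]
  refine hE.trans (le_trans (Finset.sum_le_sum fun θ _ => pr_Ev3 gp hF L (t - 1) θ) ?_)
  rw [Fintype.sum_prod_type]
  have hin : ∀ x : Fin T × Fin T × Fin (L + 1), ∑ y : (Cube μ × Cube κ) × ((Fin T → μ) × (Fin T → μ)),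
      ((if x.1 ≠ x.2.1 then p ^ (2 * T) * u ^ 4 * Ag gp ∅ y.2 else 0) +
      (if x.1 = x.2.1 ∧ x.2.2.val = 0 then
        ∑ c1 ∈ range (T + 1), ∑ c2 ∈ range (T + 1),
          p ^ (2 * T - (Iv T c1 c2).card) * u ^ 4 * Ag gp (Iv T c1 c2) y.2 else 0) +
      (if x.1 = x.2.1 ∧ x.1.val = t - 1 then
        p ^ (2 * T) * u ^ 4 * Ag gp ∅ y.2 +
        p ^ (2 * T) * u ^ 3 * Ag gp (univ.filter (fun i : Fin T => i.val ≤ t - 1)) y.2 +
        p ^ (2 * T) * u ^ 3 * Ag gp (univ.filter (fun i : Fin T => t - 1 < i.val)) y.2 +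
        p ^ (2 * T) * u ^ 2 * Ag gp univ y.2 else 0)) ≤
      2 ^ (Fintype.card κ + Fintype.card μ) * ((if x.1 ≠ x.2.1 then B1 else 0) +
        (if x.1 = x.2.1 ∧ x.2.2.val = 0 then B2 else 0) +
        (if x.1 = x.2.1 ∧ x.1.val = t - 1 then B3 else 0)) := by
    intro x
    rw [Fintype.sum_prod_type]
    refine le_trans (Finset.sum_le_card_nsmul _ _ ((if x.1 ≠ x.2.1 then B1 else 0) +
        (if x.1 = x.2.1 ∧ x.2.2.val = 0 then B2 else 0) +
        (if x.1 = x.2.1 ∧ x.1.val = t - 1 then B3 else 0)) fun y _ => ?_) ?_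
    · simp only
      rw [Finset.sum_add_distrib, Finset.sum_add_distrib]
      refine add_le_add (add_le_add ?_ ?_) ?_
      · split_ifs
        · exact q1
        · simp
      · split_ifs
        · exact q2
        · simp
      · split_ifs
        · exact q3
        · simp
    · rw [nsmul_eq_mul, Finset.card_univ, Fintype.card_prod]
      refine le_of_eq ?_
      congr 1
      simp [Fintype.card_pi, pow_add, mul_comm]
  refine le_trans (Finset.sum_le_sum fun x _ => hin x) ?_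
  rw [← Finset.mul_sum, mul_assoc]
  refine mul_le_mul_of_nonneg_left ?_ (by positivity)
  rw [Finset.sum_add_distrib, Finset.sum_add_distrib]
  have w1 : ∑ x : Fin T × Fin T × Fin (L + 1), (if x.1 ≠ x.2.1 then B1 else 0) ≤
      T * T * (L + 1) * B1 := by
    refine le_trans (Finset.sum_le_card_nsmul _ _ B1 fun x _ => ?_) ?_
    · split_ifs
      · exact le_rfl
      · exact hB10
    · rw [nsmul_eq_mul, Finset.card_univ]
      simp only [Fintype.card_prod, Fintype.card_fin]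
      push_cast
      exact le_of_eq (by ring)
  have w2 : ∑ x : Fin T × Fin T × Fin (L + 1), (if x.1 = x.2.1 ∧ x.2.2.val = 0 then B2 else 0) ≤
      T * B2 := by
    rw [← Finset.sum_filter, Finset.sum_const, nsmul_eq_mul]
    refine mul_le_mul_of_nonneg_right ?_ hB20
    have : (univ.filter fun x : Fin T × Fin T × Fin (L + 1) => x.1 = x.2.1 ∧ x.2.2.val = 0).card ≤
        (univ : Finset (Fin T)).card := by
      refine Finset.card_le_card_of_injOn (fun x => x.1) (fun _ _ => Finset.mem_coe.2 (Finset.mem_univ _)) ?_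
      rintro ⟨a, b, k⟩ h ⟨a', b', k'⟩ h' heq
      simp only [Finset.coe_filter, Finset.mem_univ, true_and, Set.mem_ofPred_eq] at h h'
      obtain ⟨h1, h2⟩ := h
      obtain ⟨h3, h4⟩ := h'
      simp only at heq
      subst heq
      rw [← h1, ← h3, show k = k' from Fin.ext (h2.trans h4.symm)]
    rw [Finset.card_univ, Fintype.card_fin] at this
    exact_mod_cast this
  have w3 : ∑ x : Fin T × Fin T × Fin (L + 1), (if x.1 = x.2.1 ∧ x.1.val = t - 1 then B3 else 0) ≤
      (L + 1) * B3 := by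
    rw [← Finset.sum_filter, Finset.sum_const, nsmul_eq_mul]
    refine mul_le_mul_of_nonneg_right ?_ hB30
    have : (univ.filter fun x : Fin T × Fin T × Fin (L + 1) => x.1 = x.2.1 ∧ x.1.val = t - 1).card ≤
        (univ : Finset (Fin (L + 1))).card := by
      refine Finset.card_le_card_of_injOn (fun x => x.2.2) (fun _ _ => Finset.mem_coe.2 (Finset.mem_univ _)) ?_
      rintro ⟨a, b, k⟩ h ⟨a', b', k'⟩ h' heq
      simp only [Finset.coe_filter, Finset.mem_univ, true_and, Set.mem_ofPred_eq] at h h'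
      obtain ⟨h1, h2⟩ := h
      obtain ⟨h3, h4⟩ := h'
      simp only at heq
      subst heq
      have : a = a' := Fin.ext (h2.trans h4.symm)
      subst this
      rw [← h1, ← h3]
    rw [Finset.card_univ, Fintype.card_fin] at this
    exact_mod_cast this
  refine le_trans (add_le_add (add_le_add w1 w2) w3) ?_
  have hTr : (3 : ℝ) ≤ T := by
    have : 3 ≤ T := by omega
    exact_mod_cast this
  have h9 := bad_num T L (u ^ 4 * Pg ^ 2) (u ^ 3 * (Pg ^ 2 / R)) (u ^ 2 * Pg) hTr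
    (Nat.cast_nonneg L) (by positivity) (by positivity) (by positivity)
  rw [mul_div_assoc]
  exact h9

end main

end Pool.Agent.LongCyc.Dense
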