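import Pool.Agent.LongCyc.Dense.BaseDef

/-!
# Conjugation of the data of a base fibre by automorphisms of the cube
-/

set_option autoImplicit false

namespace Pool.Agent.LongCyc.Dense

open Finset

/-! ### Automorphisms -/

section aut

variable {β : Type} [DecidableEq β]

/-- automorphism of the cube: a bijection of the vertices that permutes the directions -/
@[ext]
structure CAut (β : Type) [DecidableEq β] where
  f : Cube β ≃ Cube β
  e : Equiv.Perm β
  hf : ∀ x i, f (flip i x) = flip (e i) (f x)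

/-- inverse -/
def CAut.symm (a : CAut β) : CAut β where
  f := a.f.symm
  e := a.e.symm
  hf x i := by
    rw [Equiv.symm_apply_eq, a.hf, Equiv.apply_symm_apply, Equiv.apply_symm_apply]

/-- composition -/
def CAut.trans (a b : CAut β) : CAut β where
  f := a.f.trans b.f
  e := a.e.trans b.e
  hf x i := by
    simp only [Equiv.trans_apply, a.hf, b.hf]

theorem CAut.symm_hf (a : CAut β) (x : Cube β) (i : β) :
    a.f.symm (flip i x) = flip (a.e.symm i) (a.f.symm x) := a.symm.hf x i

/-- action on the edges -/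
def CAut.E (a : CAut β) (q : CE β) : CE β := (canE β).e (a.f q.1.1) (a.e q.1.2)

theorem canE_self (q : CE β) : (canE β).e q.1.1 q.1.2 = q := by
  obtain ⟨⟨x, i⟩, h⟩ := q
  apply Subtype.ext
  show (Function.update x i false, i) = (x, i)
  simp only at h
  rw [← h, Function.update_eq_self]

theorem canE_dir (x : Cube β) (i : β) : ((canE β).e x i).1.2 = i := rfl

theorem canE_pt (x : Cube β) (i : β) : ((canE β).e x i).1.1 = x ∨ ((canE β).e x i).1.1 = flip i x := by
  show Function.update x i false = x ∨ Function.update x i false = flip i x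
  cases hx : x i with
  | false =>
    left
    rw [← hx, Function.update_eq_self]
  | true =>
    right
    unfold flip
    rw [hx]
    rfl

theorem CAut.E_can (a : CAut β) (x : Cube β) (i : β) :
    a.E ((canE β).e x i) = (canE β).e (a.f x) (a.e i) := by
  unfold CAut.E
  rw [canE_dir]
  rcases canE_pt x i with h | h
  · rw [h]
  · rw [h, a.hf, (canE β).symm]

@[simp] theorem CAut.symm_E_E (a : CAut β) (q : CE β) : a.symm.E (a.E q) = q := by
  rw [CAut.E.eq_1 a, CAut.E_can]
  show (canE β).e (a.f.symm (a.f q.1.1)) (a.e.symm (a.e q.1.2)) = q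
  rw [Equiv.symm_apply_apply, Equiv.symm_apply_apply, canE_self]

@[simp] theorem CAut.E_symm_E (a : CAut β) (q : CE β) : a.E (a.symm.E q) = q :=
  a.symm.symm_E_E q

theorem CAut.E_injective (a : CAut β) : Function.Injective a.E :=
  Function.LeftInverse.injective a.symm_E_E

theorem CAut.E_dir (a : CAut β) (q : CE β) : (a.E q).1.2 = a.e q.1.2 := rfl

/-- the two endpoints of the image -/
theorem CAut.E_pt (a : CAut β) (q : CE β) : (a.E q).1.1 = a.f q.1.1 ∨
    (a.E q).1.1 = flip (a.e q.1.2) (a.f q.1.1) := canE_pt _ _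

/-- every automorphism is a permutation of the coordinates, then a translation -/
theorem CAut.apply_eq [Fintype β] (a : CAut β) (x : Cube β) (i : β) :
    a.f x i = xor (x (a.e.symm i)) (a.f (fun _ => false) i) := by
  classical
  -- induction on the number of `true` coordinates
  have key : ∀ (S : Finset β) (x : Cube β), (∀ i, x i = true → i ∈ S) →
      ∀ i, a.f x i = xor (x (a.e.symm i)) (a.f (fun _ => false) i) := by
    intro S
    induction S using Finset.induction_on with
    | empty =>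
      intro x hx i
      have : x = fun _ => false := by
        funext j
        by_contra h
        have := hx j (by simpa using h)
        simp at this
      rw [this]
      simp
    | insert j S hj ih =>
      intro x hx i
      by_cases hxj : x j = true
      · have h1 := ih (flip j x) (fun k hk => by
          by_cases hkj : k = j
          · subst hkj
            rw [flip_same, hxj] at hk
            cases hk
          · rw [flip_of_ne hkj] at hk
            exact Finset.mem_of_mem_insert_of_ne (hx k hk) hkj) i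
        have h2 : x = flip j (flip j x) := by simp
        rw [h2, a.hf]
        by_cases hi : i = a.e j
        · subst hi
          rw [flip_same, h1, Equiv.symm_apply_apply]
          simp only [flip_same]
          cases x j <;> cases a.f (fun _ => false) (a.e j) <;> rfl
        · have h3 : a.e.symm i ≠ j := fun h => hi (by rw [← h]; simp)
          rw [flip_of_ne hi, h1, flip_of_ne h3, flip_of_ne h3, flip_of_ne h3]
      · exact ih x (fun k hk => by
          by_cases hkj : k = j
          · subst hkj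
            exact absurd hk hxj
          · exact Finset.mem_of_mem_insert_of_ne (hx k hk) hkj) i
  exact key Finset.univ x (fun _ _ => Finset.mem_univ _) i

/-- translation -/
def tra (τ : Cube β) : CAut β where
  f := Function.Involutive.toPerm (fun x => xr x τ) fun x => xr_xr x τ
  e := Equiv.refl β
  hf x i := by
    show xr (flip i x) τ = flip i (xr x τ)
    exact xr_flip x τ i

/-- permutation of the coordinates -/
def prm (s : Equiv.Perm β) : CAut β where
  f :=
    { toFun := fun x => x ∘ s.symm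
      invFun := fun x => x ∘ s
      left_inv := fun x => by
        funext i
        simp
      right_inv := fun x => by
        funext i
        simp }
  e := s
  hf x i := by
    funext j
    show flip i x (s.symm j) = flip (s i) (x ∘ s.symm) j
    by_cases h : j = s i
    · subst h
      simp
    · have h' : s.symm j ≠ i := fun h2 => h (by rw [← h2]; simp)
      rw [flip_of_ne h', flip_of_ne h]
      rfl

/-- permutation, then translation -/
def cj (t : Cube β) (s : Equiv.Perm β) : CAut β := (prm s).trans (tra t)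

theorem cj_f (t : Cube β) (s : Equiv.Perm β) (x : Cube β) : (cj t s).f x = xr (x ∘ s.symm) t := rfl

theorem cj_symm_f (t : Cube β) (s : Equiv.Perm β) (x : Cube β) :
    (cj t s).f.symm x = xr x t ∘ s := rfl

theorem cj_e (t : Cube β) (s : Equiv.Perm β) : (cj t s).e = s := by
  ext i
  rfl

theorem cj_symm_e (t : Cube β) (s : Equiv.Perm β) (i : β) : (cj t s).symm.e i = s.symm i := rfl

theorem cj_tra (t τ : Cube β) (s : Equiv.Perm β) : (cj t s).trans (tra τ) = cj (xr t τ) s := by
  apply CAut.ext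
  · ext x : 1
    show xr (xr (x ∘ s.symm) t) τ = xr (x ∘ s.symm) (xr t τ)
    funext i
    simp only [xr_apply]
    cases (x ∘ s.symm) i <;> cases t i <;> cases τ i <;> rfl
  · rfl

end aut

/-! ### Conjugation of the data -/

section mp

variable {β : Type} [DecidableEq β] [Fintype β] {nR : ℕ}

/-- conjugation of a partial map -/
def mpc (a : CAut β) (c : Cube β → Option (Cube β)) (y : Cube β) : Option (Cube β) :=
  (c (a.f.symm y)).map a.f

omit [Fintype β] in
theorem mpc_some {a : CAut β} {c : Cube β → Option (Cube β)} {y y' : Cube β} :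
    mpc a c y = some y' ↔ c (a.f.symm y) = some (a.f.symm y') := by
  unfold mpc
  rw [Option.map_eq_some_iff]
  constructor
  · rintro ⟨v, h1, h2⟩
    rw [h1, ← h2, Equiv.symm_apply_apply]
  · intro h
    exact ⟨_, h, Equiv.apply_symm_apply _ _⟩

omit [Fintype β] in
theorem mpc_none {a : CAut β} {c : Cube β → Option (Cube β)} {y : Cube β} :
    mpc a c y = none ↔ c (a.f.symm y) = none := by
  unfold mpc
  rw [Option.map_eq_none_iff]

omit [Fintype β] in
theorem it_mpc {a : CAut β} {c : Cube β → Option (Cube β)} {y : Cube β} {k : ℕ} :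
    it (mpc a c) k y = (it c k (a.f.symm y)).map a.f := by
  induction k with
  | zero => simp [it]
  | succ k ih =>
    rw [it, ih, it]
    cases h : it c k (a.f.symm y) with
    | none => simp
    | some v =>
      simp only [Option.map_some, Option.bind_some]
      unfold mpc
      rw [Equiv.symm_apply_apply]

omit [Fintype β] in
theorem it_mpc_some {a : CAut β} {c : Cube β → Option (Cube β)} {y y' : Cube β} {k : ℕ} :
    it (mpc a c) k y = some y' ↔ it c k (a.f.symm y) = some (a.f.symm y') := by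
  rw [it_mpc, Option.map_eq_some_iff]
  constructor
  · rintro ⟨v, h1, h2⟩
    rw [h1, ← h2, Equiv.symm_apply_apply]
  · intro h
    exact ⟨_, h, Equiv.apply_symm_apply _ _⟩

omit [Fintype β] in
theorem it_mpc_none {a : CAut β} {c : Cube β → Option (Cube β)} {y : Cube β} {k : ℕ} :
    it (mpc a c) k y = none ↔ it c k (a.f.symm y) = none := by
  rw [it_mpc, Option.map_eq_none_iff]

theorem mem_mpS {a : CAut β} {S : Finset (Cube β)} {y : Cube β} :
    y ∈ S.image a.f ↔ a.f.symm y ∈ S := by
  rw [Finset.mem_image]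
  constructor
  · rintro ⟨x, h1, h2⟩
    rw [← h2, Equiv.symm_apply_apply]
    exact h1
  · intro h
    exact ⟨_, h, Equiv.apply_symm_apply _ _⟩

/-- conjugation of the data -/
def BD.mp (D : BD β nR) (a : CAut β) : BD β nR where
  hb := fun q => D.hb (a.symm.E q)
  b := mpc a D.b
  c := mpc a D.c
  U := D.U.image a.f
  Gd := D.Gd.image a.f
  PS := D.PS.image a.f
  G := D.G.image a.f
  res := fun i => a.f (D.res i)

omit [Fintype β] in
theorem opn_mpE {h : CE β → Bool} {a : CAut β} {y y' : Cube β} :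
    opn (canE β) (fun q => h (a.symm.E q)) y y' ↔ opn (canE β) h (a.f.symm y) (a.f.symm y') := by
  unfold opn
  constructor
  · rintro ⟨i, h1, h2⟩
    refine ⟨a.e.symm i, ?_, ?_⟩
    · rw [h1, a.symm_hf]
    · have h3 : h (a.symm.E ((canE β).e y i)) = true := h2
      rw [a.symm.E_can] at h3
      exact h3
  · rintro ⟨i, h1, h2⟩
    refine ⟨a.e i, ?_, ?_⟩
    · rw [Equiv.symm_apply_eq, a.hf, Equiv.apply_symm_apply] at h1
      exact h1
    · show h (a.symm.E ((canE β).e y (a.e i))) = true
      rw [a.symm.E_can]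
      have : a.symm.e (a.e i) = i := Equiv.symm_apply_apply _ _
      rw [this]
      exact h2

omit [Fintype β] in
theorem Intact_mpc {a : CAut β} {b c : Cube β → Option (Cube β)} {L : ℕ} {u : Cube β} :
    Intact (mpc a b) (mpc a c) L u ↔ Intact b c L (a.f.symm u) := by
  unfold Intact
  refine forall₂_congr fun k _ => ?_
  constructor
  · rintro ⟨y, y', h1, h2, h3⟩
    exact ⟨a.f.symm y, a.f.symm y', it_mpc_some.1 h1, mpc_some.1 h2, mpc_some.1 h3⟩
  · rintro ⟨y, y', h1, h2, h3⟩
    refine ⟨a.f y, a.f y', it_mpc_some.2 ?_, mpc_some.2 ?_, mpc_some.2 ?_⟩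
    · rw [Equiv.symm_apply_apply]; exact h1
    · rw [Equiv.symm_apply_apply, Equiv.symm_apply_apply]; exact h2
    · rw [Equiv.symm_apply_apply, Equiv.symm_apply_apply]; exact h3

/-- the automorphism preserves the set of directions -/
def Pres (D0 : Finset β) (a : CAut β) : Prop := ∀ i, a.e i ∈ D0 ↔ i ∈ D0

omit [Fintype β] in
theorem Pres.mem' {D0 : Finset β} {a : CAut β} (h : Pres D0 a) {i : β} :
    a.e.symm i ∈ D0 ↔ i ∈ D0 := by
  rw [← h (a.e.symm i), Equiv.apply_symm_apply]

omit [Fintype β] in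
theorem Pres.symm {D0 : Finset β} {a : CAut β} (h : Pres D0 a) : Pres D0 a.symm := fun _ => h.mem'

omit [Fintype β] in
theorem pres_of_fix {D0 : Finset β} {a : CAut β} (h : ∀ i, i ∉ D0 → a.e i = i) : Pres D0 a := by
  intro i
  constructor
  · intro h1
    by_contra h2
    rw [h i h2] at h1
    exact h2 h1
  · intro h1
    by_contra h2
    have h3 := h _ h2
    have h4 := a.e.injective h3
    rw [h4] at h2
    exact h2 h1

theorem mem_runD0 {D0 : Finset β} {b : Cube β → Option (Cube β)} {L : ℕ} {u : Cube β} {e : CE β} :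
    e ∈ runD0 D0 b L u ↔ e.1.2 ∈ D0 ∧ ∃ k y, k + 1 < L ∧ it b k u = some y ∧
      b y = some (flip e.1.2 y) ∧ (canE β).e y e.1.2 = e := by
  classical
  unfold runD0
  simp only [Finset.mem_filter, Finset.mem_univ, true_and]

theorem mem_opt {D : BD β nR} {D0 : Finset β} {L : ℕ} {e : CE β} :
    e ∈ D.opt D0 L ↔ e.1.2 ∈ D0 ∧ (∀ i, e ∉ runD0 D0 D.b L (D.res i)) ∧
    ∃ y ∈ D.G, D.c y = some (flip e.1.2 y) ∧ D.b y = D.c y ∧ (canE β).e y e.1.2 = e := by
  classical
  unfold BD.opt
  simp only [Finset.mem_filter, Finset.mem_univ, true_and]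

theorem runD0_mp {D0 : Finset β} {a : CAut β} (ha : Pres D0 a) {b : Cube β → Option (Cube β)}
    {L : ℕ} {u : Cube β} {e : CE β} :
    e ∈ runD0 D0 (mpc a b) L u ↔ a.symm.E e ∈ runD0 D0 b L (a.f.symm u) := by
  rw [mem_runD0, mem_runD0, CAut.E_dir]
  constructor
  · rintro ⟨h1, k, y, h2, h3, h4, h5⟩
    refine ⟨ha.mem'.2 h1, k, a.f.symm y, h2, it_mpc_some.1 h3, ?_, ?_⟩
    · rw [mpc_some.1 h4, a.symm_hf]
      rfl
    · conv_rhs => rw [← h5]
      rw [a.symm.E_can]
      rfl
  · rintro ⟨h1, k, y, h2, h3, h4, h5⟩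
    refine ⟨ha.mem'.1 h1, k, a.f y, h2, it_mpc_some.2 ?_, mpc_some.2 ?_, ?_⟩
    · rw [Equiv.symm_apply_apply]; exact h3
    · rw [a.symm_hf, Equiv.symm_apply_apply]
      exact h4
    · have h6 := congrArg a.E h5
      rw [a.E_can, a.E_symm_E] at h6
      have h7 : a.e (a.symm.e e.1.2) = e.1.2 := Equiv.apply_symm_apply _ _
      rwa [h7] at h6

theorem runD0_mp_image {D0 : Finset β} {a : CAut β} (ha : Pres D0 a)
    {b : Cube β → Option (Cube β)} {L : ℕ} {u : Cube β} :
    runD0 D0 (mpc a b) L u = (runD0 D0 b L (a.f.symm u)).image a.E := by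
  ext e
  rw [runD0_mp ha, Finset.mem_image]
  constructor
  · intro h
    exact ⟨_, h, a.E_symm_E e⟩
  · rintro ⟨e', h, rfl⟩
    rwa [a.symm_E_E]

theorem opt_mp {D : BD β nR} {D0 : Finset β} {a : CAut β} (ha : Pres D0 a) {L : ℕ} {e : CE β} :
    e ∈ (D.mp a).opt D0 L ↔ a.symm.E e ∈ D.opt D0 L := by
  rw [mem_opt, mem_opt, CAut.E_dir]
  constructor
  · rintro ⟨h1, h2, y, h3, h4, h5, h6⟩
    refine ⟨ha.mem'.2 h1, fun i h => h2 i ?_, a.f.symm y, mem_mpS.1 h3, ?_, ?_, ?_⟩
    · show e ∈ runD0 D0 (mpc a D.b) L (a.f (D.res i))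
      rw [runD0_mp ha, Equiv.symm_apply_apply]
      exact h
    · rw [mpc_some.1 h4, a.symm_hf]
      rfl
    · have h7 : mpc a D.b y = some (flip e.1.2 y) := h5.trans h4
      rw [mpc_some.1 h7, mpc_some.1 h4]
    · conv_rhs => rw [← h6]
      rw [a.symm.E_can]
      rfl
  · rintro ⟨h1, h2, y, h3, h4, h5, h6⟩
    have h8 : mpc a D.c (a.f y) = some (flip e.1.2 (a.f y)) := mpc_some.2 (by
      rw [a.symm_hf, Equiv.symm_apply_apply]
      exact h4)
    refine ⟨ha.mem'.1 h1, fun i h => h2 i ?_, a.f y, mem_mpS.2 ?_, h8, ?_, ?_⟩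
    · have h9 : e ∈ runD0 D0 (mpc a D.b) L (a.f (D.res i)) := h
      rw [runD0_mp ha, Equiv.symm_apply_apply] at h9
      exact h9
    · rw [Equiv.symm_apply_apply]; exact h3
    · show mpc a D.b (a.f y) = mpc a D.c (a.f y)
      unfold mpc
      rw [Equiv.symm_apply_apply, h5]
    · have h6 := congrArg a.E h6
      rw [a.E_can, a.E_symm_E] at h6
      have h7 : a.e (a.symm.e e.1.2) = e.1.2 := Equiv.apply_symm_apply _ _
      rwa [h7] at h6

theorem inP_mp {D : BD β nR} {a : CAut β} {Vr : ℕ} {y : Cube β} :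
    (D.mp a).inP Vr y ↔ D.inP Vr (a.f.symm y) := by
  unfold BD.inP
  constructor
  · rintro ⟨x, h1, k, h2, h3⟩
    exact ⟨a.f.symm x, mem_mpS.1 h1, k, h2, it_mpc_some.1 h3⟩
  · rintro ⟨x, h1, k, h2, h3⟩
    refine ⟨a.f x, mem_mpS.2 ?_, k, h2, it_mpc_some.2 ?_⟩
    · rw [Equiv.symm_apply_apply]; exact h1
    · rw [Equiv.symm_apply_apply]; exact h3

end mp

/-! ### The deterministic properties are invariant -/

section val

variable {β : Type} [DecidableEq β] [Fintype β] {nR : ℕ}

theorem BD.Val.mp {D : BD β nR} {D0 : Finset β} {Adms : Finset (CE β) → Prop} {L Vr Bd : ℕ}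
    (h : D.Val D0 Adms L Vr Bd) {a : CAut β} (ha : Pres D0 a)
    (hA : ∀ A, Adms A → Adms (A.image a.E)) : (D.mp a).Val D0 Adms L Vr Bd where
  bInj x y v hx hy := a.f.symm.injective (h.bInj _ _ _ (mpc_some.1 hx) (mpc_some.1 hy))
  cInj x y v hx hy := a.f.symm.injective (h.cInj _ _ _ (mpc_some.1 hx) (mpc_some.1 hy))
  bOpen y y' hy := opn_mpE.2 (h.bOpen _ _ (mpc_some.1 hy))
  cOpen y y' hy := opn_mpE.2 (h.cOpen _ _ (mpc_some.1 hy))
  no2b y y' hy hy' := h.no2b _ _ (mpc_some.1 hy) (mpc_some.1 hy')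
  no2 y y' hy hy' := h.no2 _ _ (mpc_some.1 hy) (mpc_some.1 hy')
  mat y i hi i' hi' h1 h2 := by
    have key : ∀ j, (mpc a D.b y = some (flip j y) ∨ mpc a D.b (flip j y) = some y) →
        (D.b (a.f.symm y) = some (flip (a.e.symm j) (a.f.symm y)) ∨
          D.b (flip (a.e.symm j) (a.f.symm y)) = some (a.f.symm y)) := by
      intro j hj
      rcases hj with hj | hj
      · left
        rw [← a.symm_hf]
        exact mpc_some.1 hj
      · right
        rw [← a.symm_hf]
        exact mpc_some.1 hj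
    exact a.e.symm.injective (h.mat _ _ (ha.mem'.2 hi) _ (ha.mem'.2 hi') (key i h1) (key i' h2))
  gdef u hu hn := h.gdef _ (mem_mpS.1 hu) (it_mpc_none.1 hn)
  gopen u hu k h1 h2 h3 := h.gopen _ (mem_mpS.1 hu) k h1 h2 (it_mpc_some.1 h3)
  gadm u hu := by
    show Adms (runD0 D0 (mpc a D.b) L u)
    rw [runD0_mp_image ha]
    exact hA _ (h.gadm _ (mem_mpS.1 hu))
  str y hy := by
    obtain ⟨j, u, h1, h2, h3, h4⟩ := h.str (a.f.symm y) (fun hn => hy (it_mpc_none.2 hn))
    refine ⟨j, a.f u, h1, it_mpc_some.2 ?_, mem_mpS.2 ?_, Intact_mpc.2 ?_⟩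
    · rw [Equiv.symm_apply_apply]; exact h2
    · rw [Equiv.symm_apply_apply]; exact h3
    · rw [Equiv.symm_apply_apply]; exact h4
  uf w hw := by
    obtain ⟨u, h1, h2, h3, h4⟩ := h.uf _ (mem_mpS.1 hw)
    refine ⟨a.f u, mem_mpS.2 ?_, mpc_some.2 ?_, mpc_some.2 ?_, Intact_mpc.2 ?_⟩
    · rw [Equiv.symm_apply_apply]; exact h1
    · rw [Equiv.symm_apply_apply]; exact h2
    · rw [Equiv.symm_apply_apply]; exact h3
    · rw [Equiv.symm_apply_apply]; exact h4
  ub w hw := by
    obtain ⟨u, h1, h2, h3⟩ := h.ub _ (mem_mpS.1 hw)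
    refine ⟨a.f u, mem_mpS.2 ?_, it_mpc_some.2 ?_, Intact_mpc.2 ?_⟩
    · rw [Equiv.symm_apply_apply]; exact h1
    · rw [Equiv.symm_apply_apply]; exact h2
    · rw [Equiv.symm_apply_apply]; exact h3
  pint x hx k hk := by
    obtain ⟨y, y', h1, h2, h3⟩ := h.pint _ (mem_mpS.1 hx) k hk
    refine ⟨a.f y, a.f y', it_mpc_some.2 ?_, mpc_some.2 ?_, mpc_some.2 ?_⟩
    · rw [Equiv.symm_apply_apply]; exact h1
    · rw [Equiv.symm_apply_apply, Equiv.symm_apply_apply]; exact h2
    · rw [Equiv.symm_apply_apply, Equiv.symm_apply_apply]; exact h3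
  pU y hy := by
    have h1 := h.pU _ (inP_mp.1 hy)
    exact ⟨fun h2 => h1.1 (mem_mpS.1 h2), fun h2 => h1.2 (mem_mpS.1 h2)⟩
  pdis x hx x' hx' k hk k' hk' y h1 h2 := by
    have h3 := h.pdis _ (mem_mpS.1 hx) _ (mem_mpS.1 hx') k hk k' hk' _ (it_mpc_some.1 h1)
      (it_mpc_some.1 h2)
    exact ⟨a.f.symm.injective h3.1, h3.2⟩
  gU y hy h1 := h.gU _ (mem_mpS.1 hy) (mem_mpS.1 h1)
  gcyc y hy := by
    obtain ⟨y', h1, h2⟩ := h.gcyc _ (mem_mpS.1 hy)
    refine ⟨a.f y', mem_mpS.2 ?_, mpc_some.2 ?_⟩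
    · rw [Equiv.symm_apply_apply]; exact h1
    · rw [Equiv.symm_apply_apply]; exact h2
  gorb y hy y' hy' := by
    obtain ⟨k, hk⟩ := h.gorb _ (mem_mpS.1 hy) _ (mem_mpS.1 hy')
    exact ⟨k, it_mpc_some.2 hk⟩
  rgd hG i := by
    obtain ⟨y, hy⟩ := hG
    obtain ⟨h1, h2, h3⟩ := h.rgd ⟨_, mem_mpS.1 hy⟩ i
    have e : a.f.symm (a.f (D.res i)) = D.res i := Equiv.symm_apply_apply _ _
    refine ⟨mem_mpS.2 ?_, mem_mpS.2 ?_, Intact_mpc.2 ?_⟩
    · show a.f.symm (a.f (D.res i)) ∈ D.Gd
      rw [e]; exact h1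
    · show a.f.symm (a.f (D.res i)) ∈ D.G
      rw [e]; exact h2
    · show Intact D.b D.c L (a.f.symm (a.f (D.res i)))
      rw [e]; exact h3
  rdis hG i i' k k' y hk hk' h1 h2 := by
    obtain ⟨y0, hy0⟩ := hG
    have e : ∀ j, a.f.symm (a.f (D.res j)) = D.res j := fun j => Equiv.symm_apply_apply _ _
    have h3 := it_mpc_some.1 h1
    have h4 := it_mpc_some.1 h2
    refine h.rdis ⟨_, mem_mpS.1 hy0⟩ i i' k k' (a.f.symm y) hk hk' ?_ ?_
    · rw [← e i]; exact h3
    · rw [← e i']; exact h4

end val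

/-! ### Translations -/

section tr

variable {β : Type} [DecidableEq β] [Fintype β] {nR : ℕ}

theorem BD.tr_eq (D : BD β nR) (τ : Cube β) : D.tr τ = D.mp (tra τ) := rfl

theorem BD.mp_mp (D : BD β nR) (a b : CAut β) : (D.mp a).mp b = D.mp (a.trans b) := by
  have hE : ∀ q : CE β, a.symm.E (b.symm.E q) = (a.trans b).symm.E q := by
    intro q
    conv_lhs => rw [CAut.E.eq_1 b.symm, CAut.E_can]
    rfl
  have hc : ∀ c : Cube β → Option (Cube β), mpc b (mpc a c) = mpc (a.trans b) c := by
    intro c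
    funext y
    unfold mpc
    rw [Option.map_map]
    rfl
  have hS : ∀ S : Finset (Cube β), (S.image a.f).image b.f = S.image (a.trans b).f := by
    intro S
    rw [Finset.image_image]
    rfl
  show BD.mk _ _ _ _ _ _ _ _ = BD.mk _ _ _ _ _ _ _ _
  congr 1
  · funext q
    show D.hb (a.symm.E (b.symm.E q)) = _
    rw [hE]
  · exact hc _
  · exact hc _
  · exact hS _
  · exact hS _
  · exact hS _
  · exact hS _

end tr

end Pool.Agent.LongCyc.Dense
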