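import Pool.Agent.LongCyc.Dense.FBase

/-!
# The law of the base structure
-/

set_option autoImplicit false
set_option synthInstance.maxSize 2000

namespace Pool.Agent.LongCyc.Dense

open Finset

/-! ### Uniform automorphisms -/

section unif

variable {D : Type*} [DecidableEq D] [Fintype D]

theorem sum_perm (F : D → ℝ) (i : D) :
    (Fintype.card D : ℝ) * ∑ π : Equiv.Perm D, F (π.symm i) =
      (Fintype.card (Equiv.Perm D) : ℝ) * ∑ j, F j := by
  have h1 : ∀ i' : D, ∑ π : Equiv.Perm D, F (π.symm i') = ∑ π : Equiv.Perm D, F (π.symm i) := by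
    intro i'
    rw [← Equiv.sum_comp (Equiv.mulLeft (Equiv.swap i i'))]
    refine Finset.sum_congr rfl fun π _ => ?_
    have : (Equiv.mulLeft (Equiv.swap i i') π).symm i' = π.symm i := by
      rw [Equiv.coe_mulLeft, Equiv.symm_apply_eq, Equiv.Perm.mul_apply, Equiv.apply_symm_apply,
        Equiv.swap_apply_left]
    rw [this]
  calc (Fintype.card D : ℝ) * ∑ π : Equiv.Perm D, F (π.symm i)
      = ∑ i' : D, ∑ π : Equiv.Perm D, F (π.symm i') := by
        rw [Finset.sum_congr rfl fun i' _ => h1 i', Finset.sum_const, Finset.card_univ,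
          nsmul_eq_mul]
    _ = ∑ π : Equiv.Perm D, ∑ i' : D, F (π.symm i') := Finset.sum_comm
    _ = ∑ _π : Equiv.Perm D, ∑ j, F j := by
        refine Finset.sum_congr rfl fun π _ => ?_
        exact Equiv.sum_comp π.symm F
    _ = _ := by rw [Finset.sum_const, Finset.card_univ, nsmul_eq_mul]

theorem E_aut [Nonempty D] (f : Cube D → D → ℝ) (y : Cube D) (i : D) :
    (FP.unif (Au D)).E (fun a => f (acti a y) (a.2.symm i)) =
      (∑ u, ∑ j, f u j) / (2 ^ Fintype.card D * Fintype.card D) := by
  rw [FP.E_unif, Fintype.sum_prod_type, Finset.sum_comm]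
  have h1 : ∀ π : Equiv.Perm D, ∑ τ : Cube D, f (acti (τ, π) y) (π.symm i) =
      ∑ u, f u (π.symm i) := by
    intro π
    set e : Cube D ≃ Cube D :=
      { toFun := fun τ => acti (τ, π) y
        invFun := fun u => xr (u ∘ π.symm) y
        left_inv := fun τ => by
          funext j
          simp only [acti, Function.comp, xr, Equiv.apply_symm_apply]
          cases y j <;> cases τ j <;> rfl
        right_inv := fun u => by
          funext j
          simp only [acti, Function.comp, xr, Equiv.symm_apply_apply]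
          cases y (π j) <;> cases u j <;> rfl } with he
    exact Equiv.sum_comp e (fun u => f u (π.symm i))
  rw [Finset.sum_congr rfl fun π _ => h1 π, Finset.sum_comm]
  have hD : (Fintype.card D : ℝ) ≠ 0 := by exact_mod_cast Fintype.card_ne_zero
  have hP : (Fintype.card (Equiv.Perm D) : ℝ) ≠ 0 := by exact_mod_cast Fintype.card_ne_zero
  have h2 : ∀ u : Cube D, ∑ π : Equiv.Perm D, f u (π.symm i) =
      (Fintype.card (Equiv.Perm D) : ℝ) / Fintype.card D * ∑ j, f u j := by
    intro u
    have := sum_perm (fun j => f u j) i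
    field_simp
    linarith
  rw [Finset.sum_congr rfl fun u _ => h2 u, ← Finset.mul_sum]
  have h3 : (Fintype.card (Au D) : ℝ) = 2 ^ Fintype.card D * Fintype.card (Equiv.Perm D) := by
    rw [Fintype.card_prod]
    simp
  rw [h3]
  field_simp

end unif

/-! ### The law of one coset -/

section coset

variable {D : Type*} [DecidableEq D] [Fintype D] {p : ℝ} {h0 : 0 ≤ p} {h1 : p ≤ 1}

variable (D) in
/-- probability that a vertex is unmatched -/
noncomputable def eta (p : ℝ) (h0 : 0 ≤ p) (h1 : p ≤ 1) : ℝ :=
  Eun D p h0 h1 / 2 ^ Fintype.card D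

theorem eta_nonneg : 0 ≤ eta D p h0 h1 :=
  div_nonneg (FP.E_nonneg _ fun _ => Nat.cast_nonneg _) (by positivity)

theorem eta_le_one : eta D p h0 h1 ≤ 1 := by
  unfold eta Eun
  rw [div_le_one (by positivity)]
  refine FP.E_le_of_le _ fun ω => ?_
  have h := un_le_card (opn (canE D) ω)
  have h2 : Fintype.card (Cube D) = 2 ^ Fintype.card D := by simp
  rw [h2] at h
  exact_mod_cast h

open Classical in
theorem sum_fix (ω : CE D → Bool) :
    ∑ u : Cube D, (if mm ω u = u then (1 : ℝ) else 0) = un (opn (canE D) ω) := by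
  rw [Finset.sum_boole, ← (mm_spec ω).2]

open Classical in
theorem sum_flip (ω : CE D → Bool) :
    ∑ u : Cube D, ∑ j : D, (if mm ω u = flip j u then (1 : ℝ) else 0) =
      2 ^ Fintype.card D - un (opn (canE D) ω) := by
  have h1 : ∀ u : Cube D, ∑ j : D, (if mm ω u = flip j u then (1 : ℝ) else 0) =
      1 - if mm ω u = u then (1 : ℝ) else 0 := by
    intro u
    by_cases h : mm ω u = u
    · rw [if_pos h, Finset.sum_eq_zero]
      · norm_num
      · intro j _
        rw [if_neg]
        rw [h]
        exact (flip_ne j u).symm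
    · rw [if_neg h]
      rcases (mm_spec ω).1.2 u with h2 | ⟨i, hi, _⟩
      · exact absurd h2 h
      · rw [Finset.sum_eq_single i]
        · rw [if_pos hi, sub_zero]
        · intro j _ hj
          rw [if_neg]
          intro h3
          apply hj
          exact (flip_dir_injective u (hi.symm.trans h3)).symm
        · intro h3
          exact absurd (Finset.mem_univ i) h3
  rw [Finset.sum_congr rfl fun u _ => h1 u, Finset.sum_sub_distrib, sum_fix]
  congr 1
  simp

open Classical in
/-- (1a) -/
theorem sta_fix [Nonempty D] (y : Cube D) :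
    (staP D p h0 h1).E (fun s => if mcs s y = y then 1 else 0) = eta D p h0 h1 := by
  rw [staP, FP.E_prod, eta, Eun, ← FP.E_div]
  refine FP.E_congr _ fun ω => ?_
  obtain ⟨i⟩ := ‹Nonempty D›
  have h := E_aut (fun u _ => if mm ω u = u then (1 : ℝ) else 0) y i
  simp only [mcs_eq_iff]
  rw [h]
  simp only [Finset.sum_const, Finset.card_univ, nsmul_eq_mul]
  rw [← Finset.mul_sum, sum_fix]
  have hD : (Fintype.card D : ℝ) ≠ 0 := by
    have : 0 < Fintype.card D := Fintype.card_pos_iff.2 ⟨i⟩
    positivity
  field_simp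

open Classical in
/-- every direction is equally likely -/
theorem sta_flip (y : Cube D) (i : D) :
    (staP D p h0 h1).E (fun s => if mcs s y = flip i y then 1 else 0) =
      (1 - eta D p h0 h1) / Fintype.card D := by
  have : Nonempty D := ⟨i⟩
  have hD : (Fintype.card D : ℝ) ≠ 0 := by
    have : 0 < Fintype.card D := Fintype.card_pos_iff.2 ⟨i⟩
    positivity
  have e1 : (1 - eta D p h0 h1) / Fintype.card D =
      (bern p h0 h1 (CE D)).E fun ω => (2 ^ Fintype.card D - (un (opn (canE D) ω) : ℝ)) /
        (2 ^ Fintype.card D * Fintype.card D) := by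
    rw [FP.E_div, FP.E_sub, FP.E_const, eta, Eun]
    field_simp
  rw [e1, staP, FP.E_prod]
  refine FP.E_congr _ fun ω => ?_
  have h := E_aut (fun u j => if mm ω u = flip j u then (1 : ℝ) else 0) y i
  simp only [mcs_flip_iff]
  rw [h, sum_flip]

end coset

end Pool.Agent.LongCyc.Dense
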