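import Pool.Agent.LongCyc.Dense.BaseSub
import Pool.Agent.LongCyc.Dense.Conj
import Pool.Agent.LongCyc.Dense.FBaseProb

/-!
# Dense regime: automorphisms of the cube acting on the data of a base fibre
-/

set_option autoImplicit false

namespace Pool.Agent.LongCyc.Dense

open Finset

section am

variable {β : Type} [DecidableEq β]

theorem ami_am (π : Equiv.Perm β) (τ x : Cube β) : ami π τ (am π τ x) = x :=
  (cj τ π).f.symm_apply_apply x

theorem am_ami (π : Equiv.Perm β) (τ x : Cube β) : am π τ (ami π τ x) = x :=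
  (cj τ π).f.apply_symm_apply x

theorem am_flip (π : Equiv.Perm β) (τ : Cube β) (i : β) (x : Cube β) :
    am π τ (flip i x) = flip (π i) (am π τ x) := (cj τ π).hf x i

theorem ami_flip (π : Equiv.Perm β) (τ : Cube β) (i : β) (x : Cube β) :
    ami π τ (flip i x) = flip (π.symm i) (ami π τ x) := (cj τ π).symm_hf x i

theorem xr_am (π : Equiv.Perm β) (τ τ' x : Cube β) : xr (am π τ x) τ' = am π (xr τ τ') x := by
  have h := congrArg (fun a : CAut β => a.f x) (cj_tra τ τ' π)
  exact h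

theorem amE_amiE (π : Equiv.Perm β) (τ : Cube β) (e : CE β) : amE π τ (amiE π τ e) = e :=
  (cj τ π).E_symm_E e

theorem amiE_amE (π : Equiv.Perm β) (τ : Cube β) (e : CE β) : amiE π τ (amE π τ e) = e :=
  (cj τ π).symm_E_E e

theorem amE_can (π : Equiv.Perm β) (τ : Cube β) (x : Cube β) (i : β) :
    amE π τ ((canE β).e x i) = (canE β).e (am π τ x) (π i) := (cj τ π).E_can x i

theorem amiE_can (π : Equiv.Perm β) (τ : Cube β) (x : Cube β) (i : β) :
    amiE π τ ((canE β).e x i) = (canE β).e (ami π τ x) (π.symm i) := (cj τ π).symm.E_can x i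

/-- iteration commutes with the automorphism -/
theorem it_am (π : Equiv.Perm β) (τ : Cube β) (c : Cube β → Option (Cube β)) (k : ℕ) (y : Cube β) :
    it (fun y => (c (ami π τ y)).map (am π τ)) k y = (it c k (ami π τ y)).map (am π τ) :=
  it_mpc (a := cj τ π) (c := c) (y := y) (k := k)

variable [Fintype β] {nR : ℕ}

theorem BD.am_eq (D : BD β nR) (π : Equiv.Perm β) (τ : Cube β) : D.am π τ = D.mp (cj τ π) := rfl

/-- composition with a translation -/
theorem BD.am_tr (D : BD β nR) (π : Equiv.Perm β) (τ τ' : Cube β) :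
    (D.am π τ).tr τ' = D.am π (xr τ τ') := by
  rw [BD.am_eq, BD.am_eq, BD.tr_eq, BD.mp_mp, cj_tra]

omit [Fintype β] in
theorem pres_cj {D0 : Finset β} {π : Equiv.Perm β} (τ : Cube β) (hπ : ∀ i, π i ∈ D0 ↔ i ∈ D0) :
    ∀ i, (cj τ π).e i ∈ D0 ↔ i ∈ D0 := hπ

theorem runD0_am (D0 : Finset β) (b : Cube β → Option (Cube β)) (L : ℕ) (u : Cube β) (π : Equiv.Perm β)
    (τ : Cube β) (hπ : ∀ i, π i ∈ D0 ↔ i ∈ D0) :
    runD0 D0 (fun y => (b (ami π τ y)).map (am π τ)) L (am π τ u) = (runD0 D0 b L u).image (amE π τ) := by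
  have h := runD0_mp_image (pres_cj τ hπ) (b := b) (L := L) (u := am π τ u)
  have e : (cj τ π).f.symm (am π τ u) = u := ami_am π τ u
  rw [e] at h
  exact h

theorem BD.opt_am (D : BD β nR) (D0 : Finset β) (L : ℕ) (π : Equiv.Perm β)
    (τ : Cube β) (hπ : ∀ i, π i ∈ D0 ↔ i ∈ D0) :
    (D.am π τ).opt D0 L = (D.opt D0 L).image (amE π τ) := by
  ext e
  rw [BD.am_eq, opt_mp (pres_cj τ hπ), Finset.mem_image]
  constructor
  · intro h
    exact ⟨_, h, (cj τ π).E_symm_E e⟩
  · rintro ⟨e', h, rfl⟩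
    have : (cj τ π).symm.E (amE π τ e') = e' := (cj τ π).symm_E_E e'
    rwa [this]

theorem BD.inP_am (D : BD β nR) (Vr : ℕ) (π : Equiv.Perm β) (τ : Cube β) (y : Cube β) :
    (D.am π τ).inP Vr y ↔ D.inP Vr (ami π τ y) := by
  rw [BD.am_eq, inP_mp]
  rfl

/-- **the deterministic properties are invariant** -/
theorem BD.Val.am {D : BD β nR} {D0 : Finset β} {Adms : Finset (CE β) → Prop} {L Vr Bd : ℕ}
    (h : D.Val D0 Adms L Vr Bd) (π : Equiv.Perm β) (τ : Cube β) (hπ : ∀ i, π i ∈ D0 ↔ i ∈ D0)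
    (hA : ∀ A, Adms A → Adms (A.image (amE π τ))) : (D.am π τ).Val D0 Adms L Vr Bd :=
  h.mp (pres_cj τ hπ) hA

/-- the law of independent bits is invariant -/
theorem bern_am {p : ℝ} {h0 : 0 ≤ p} {h1 : p ≤ 1} (π : Equiv.Perm β) (τ : Cube β) (F : (CE β → Bool) → ℝ) :
    (bern p h0 h1 (CE β)).E (fun ω => F fun e => ω (amiE π τ e)) = (bern p h0 h1 (CE β)).E F := by
  set e : CE β ≃ CE β := ⟨amiE π τ, amE π τ, amE_amiE π τ, amiE_amE π τ⟩ with he
  exact (bern_equiv (p := p) (h0 := h0) (h1 := h1) e F).symm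

end am

section unif

variable {κ μ : Type} [DecidableEq κ] [Fintype κ] [DecidableEq μ] [Fintype μ]

/-- a permutation of `D0` as a permutation of all directions -/
noncomputable def pim (D0 : Finset κ) (σ : Equiv.Perm {i // i ∈ D0}) : Equiv.Perm (κ ⊕ μ) := by
  classical exact Equiv.sumCongr (Equiv.Perm.ofSubtype σ) (Equiv.refl μ)

omit [Fintype κ] [DecidableEq μ] [Fintype μ] in
theorem pim_symm_inl (D0 : Finset κ) (σ : Equiv.Perm {i // i ∈ D0}) (i : {i // i ∈ D0}) :
    (pim (μ := μ) D0 σ).symm (Sum.inl i.1) = Sum.inl (σ.symm i).1 := by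
  rw [Equiv.symm_apply_eq]
  unfold pim
  rw [Equiv.sumCongr_apply, Sum.map_inl]
  congr 1
  rw [Equiv.Perm.ofSubtype_apply_coe, Equiv.apply_symm_apply]

/-- every edge of the direction `i` is hit by two points -/
theorem sum_can {β : Type} [DecidableEq β] [Fintype β] (i : β) (f : CE β → ℝ) :
    ∑ u : Cube β, f ((canE β).e u i) = 2 * ∑ g ∈ univ.filter (fun g : CE β => g.1.2 = i), f g := by
  classical
  have h1 : ∀ u : Cube β, f ((canE β).e u i) =
      ∑ g ∈ univ.filter (fun g : CE β => g.1.2 = i), if (canE β).e u i = g then f g else 0 := by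
    intro u
    rw [Finset.sum_ite_eq, if_pos]
    exact Finset.mem_filter.2 ⟨Finset.mem_univ _, rfl⟩
  rw [Finset.sum_congr rfl fun u _ => h1 u, Finset.sum_comm, Finset.mul_sum]
  refine Finset.sum_congr rfl fun g hg => ?_
  have hgi : g.1.2 = i := (Finset.mem_filter.1 hg).2
  have h2 : (Finset.univ.filter fun u : Cube β => (canE β).e u i = g) = {g.1.1, flip i g.1.1} := by
    ext u
    simp only [Finset.mem_filter, Finset.mem_univ, true_and, Finset.mem_insert,
      Finset.mem_singleton]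
    constructor
    · intro h
      rcases canE_pt u i with h3 | h3
      · left
        rw [← h3, h]
      · right
        rw [h] at h3
        rw [h3, flip_flip]
    · rintro (h | h)
      · rw [h, ← hgi, canE_self]
      · rw [h, (canE β).symm, ← hgi, canE_self]
  rw [← Finset.sum_filter, h2, Finset.sum_pair (flip_ne i g.1.1).symm]
  ring

/-- a random automorphism moves a fixed `D0`-edge to a uniform `D0`-edge -/
theorem unif_amiE (D0 : Finset κ) (hD0 : D0.Nonempty) (e : CE (κ ⊕ μ))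
    (he : e.1.2 ∈ D0.image (Sum.inl : κ → κ ⊕ μ)) (f : CE (κ ⊕ μ) → ℝ) :
    ((FP.unif (Equiv.Perm {i // i ∈ D0})).E fun σ => (FP.unif (Cube (κ ⊕ μ))).E fun τ =>
        f (amiE (pim D0 σ) τ e)) * ((D0.card : ℝ) * 2 ^ (Fintype.card κ + Fintype.card μ)) =
      2 * ∑ g ∈ univ.filter (fun g : CE (κ ⊕ μ) => g.1.2 ∈ D0.image (Sum.inl : κ → κ ⊕ μ)), f g := by
  classical
  obtain ⟨i0, hi0, he0⟩ := Finset.mem_image.1 he
  set F : {i // i ∈ D0} → ℝ := fun j => ∑ u : Cube (κ ⊕ μ), f ((canE (κ ⊕ μ)).e u (Sum.inl j.1)) with hF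
  have h1 : ∀ σ : Equiv.Perm {i // i ∈ D0}, ∑ τ : Cube (κ ⊕ μ), f (amiE (pim D0 σ) τ e) =
      F (σ.symm ⟨i0, hi0⟩) := by
    intro σ
    set E : Cube (κ ⊕ μ) ≃ Cube (κ ⊕ μ) :=
      { toFun := fun τ => ami (pim D0 σ) τ e.1.1
        invFun := fun u => xr (u ∘ (pim D0 σ).symm) e.1.1
        left_inv := fun τ => by
          funext j
          simp only [ami, Function.comp, xr, Equiv.apply_symm_apply]
          cases e.1.1 j <;> cases τ j <;> rfl
        right_inv := fun u => by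
          funext j
          simp only [ami, Function.comp, xr, Equiv.symm_apply_apply]
          cases e.1.1 (pim D0 σ j) <;> cases u j <;> rfl } with hE
    refine (Finset.sum_congr rfl fun τ _ => ?_).trans (Equiv.sum_comp E fun u =>
      f ((canE (κ ⊕ μ)).e u (Sum.inl (σ.symm ⟨i0, hi0⟩).1)))
    congr 1
    show (canE _).e _ _ = (canE _).e _ _
    rw [← he0]
    have := pim_symm_inl (μ := μ) D0 σ ⟨i0, hi0⟩
    rw [this]
    rfl
  have hcard : (Fintype.card (Cube (κ ⊕ μ)) : ℝ) = 2 ^ (Fintype.card κ + Fintype.card μ) := by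
    rw [Fintype.card_fun, Fintype.card_bool, Fintype.card_sum]
    push_cast
    rfl
  have hS : (Fintype.card (Equiv.Perm {i // i ∈ D0}) : ℝ) ≠ 0 := by
    exact_mod_cast Fintype.card_ne_zero
  have h2 : ((FP.unif (Equiv.Perm {i // i ∈ D0})).E fun σ => (FP.unif (Cube (κ ⊕ μ))).E fun τ =>
        f (amiE (pim D0 σ) τ e)) * ((D0.card : ℝ) * 2 ^ (Fintype.card κ + Fintype.card μ)) =
      ((D0.card : ℝ) * ∑ σ : Equiv.Perm {i // i ∈ D0}, F (σ.symm ⟨i0, hi0⟩)) /
        Fintype.card (Equiv.Perm {i // i ∈ D0}) := by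
    have h3 : ∀ σ : Equiv.Perm {i // i ∈ D0}, ((FP.unif (Cube (κ ⊕ μ))).E fun τ =>
        f (amiE (pim D0 σ) τ e)) = F (σ.symm ⟨i0, hi0⟩) / 2 ^ (Fintype.card κ + Fintype.card μ) := by
      intro σ
      rw [FP.E_unif, h1, hcard]
    rw [FP.E_congr _ h3, FP.E_unif, ← Finset.sum_div]
    have h4 : (2 : ℝ) ^ (Fintype.card κ + Fintype.card μ) ≠ 0 := by positivity
    field_simp
  have h5 := sum_perm F ⟨i0, hi0⟩
  rw [Fintype.card_coe] at h5
  rw [h2, h5, mul_comm, mul_div_assoc, div_self hS, mul_one]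
  -- sum over the directions
  have h6 : ∀ j : {i // i ∈ D0}, F j = 2 * ∑ g ∈ univ.filter (fun g : CE (κ ⊕ μ) =>
      g.1.2 = Sum.inl j.1), f g := fun j => sum_can _ f
  rw [Finset.sum_congr rfl fun j _ => h6 j, ← Finset.mul_sum]
  congr 1
  rw [Finset.sum_coe_sort D0 (fun j => ∑ g ∈ univ.filter (fun g : CE (κ ⊕ μ) =>
      g.1.2 = Sum.inl j), f g)]
  rw [← Finset.sum_biUnion]
  · refine Finset.sum_congr ?_ fun _ _ => rfl
    ext g
    simp only [Finset.mem_biUnion, Finset.mem_filter, Finset.mem_univ, true_and, Finset.mem_image]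
    constructor
    · rintro ⟨j, hj, h⟩
      exact ⟨j, hj, h.symm⟩
    · rintro ⟨j, hj, h⟩
      exact ⟨j, hj, h.symm⟩
  · intro j _ j' _ hjj
    rw [Function.onFun, Finset.disjoint_left]
    intro g hg hg'
    apply hjj
    have h7 := (Finset.mem_filter.1 hg).2
    have h8 := (Finset.mem_filter.1 hg').2
    rw [h7] at h8
    exact Sum.inl_injective h8

end unif

end Pool.Agent.LongCyc.Dense
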