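import Pool.Agent.LongCyc.Dense.BaseSub
import Pool.Agent.LongCyc.Final1

/-!
# Dense regime: the edge states of a base fibre
-/

set_option autoImplicit false

namespace Pool.Agent.LongCyc.Dense

open Finset

/-- image of a product law under maps of the coordinates -/
theorem E_pi_map {I : Type*} [Fintype I] [DecidableEq I] {Ω Ω' : I → Type*} [∀ i, Fintype (Ω i)]
    [∀ i, Fintype (Ω' i)] (P : ∀ i, FP (Ω i)) (Q : ∀ i, FP (Ω' i)) (g : ∀ i, Ω i → Ω' i)
    (h : ∀ i (F : Ω' i → ℝ), (P i).E (fun ω => F (g i ω)) = (Q i).E F) (F : (∀ i, Ω' i) → ℝ) :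
    (FP.pi P).E (fun ω => F fun i => g i (ω i)) = (FP.pi Q).E F := by
  classical
  have hw : ∀ i (c : Ω' i), (Q i).w c = ∑ ω : Ω i, if g i ω = c then (P i).w ω else 0 := by
    intro i c
    have h1 := h i (fun c' => if c' = c then 1 else 0)
    rw [FP.E, FP.E] at h1
    simp only [mul_ite, mul_one, mul_zero] at h1
    rw [Finset.sum_ite_eq' Finset.univ c (fun ω => (Q i).w ω)] at h1
    simp only [Finset.mem_univ, if_true] at h1
    exact h1.symm
  have h2 : ∀ c : ∀ i, Ω' i, (FP.pi Q).w c = ∑ ω : ∀ i, Ω i,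
      if (fun i => g i (ω i)) = c then (FP.pi P).w ω else 0 := by
    intro c
    rw [FP.pi_w]
    simp only [hw]
    rw [Finset.prod_univ_sum, Fintype.piFinset_univ]
    refine Finset.sum_congr rfl fun q _ => ?_
    split_ifs with h
    · rw [FP.pi_w]
      refine Finset.prod_congr rfl fun i _ => ?_
      rw [if_pos (congrFun h i)]
    · have : ∃ i, g i (q i) ≠ c i := by
        by_contra hcon
        push Not at hcon
        exact h (funext hcon)
      obtain ⟨i, hi⟩ := this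
      exact Finset.prod_eq_zero (Finset.mem_univ i) (if_neg hi)
  rw [FP.E, FP.E]
  simp only [h2, Finset.sum_mul]
  rw [Finset.sum_comm]
  refine Finset.sum_congr rfl fun ω _ => ?_
  rw [Finset.sum_eq_single (fun i => g i (ω i))]
  · rw [if_pos rfl]
  · intro c _ hc
    rw [if_neg (Ne.symm hc), zero_mul]
  · intro hc
    exact absurd (Finset.mem_univ _) hc

theorem bern_glu {p : ℝ} {h0 : 0 ≤ p} {h1 : p ≤ 1} {X Z A W : Type} [Fintype X] [DecidableEq X]
    [Fintype Z] [DecidableEq Z] [Fintype A] [DecidableEq A] [Fintype W] [DecidableEq W]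
    (e : X ≃ (Z × A) ⊕ W) (F : (X → Bool) → ℝ) : (bern p h0 h1 X).E F =
      (FP.pi fun _ : Z => bern p h0 h1 A).E fun D => (bern p h0 h1 W).E fun f =>
        F (Sum.elim (fun q => D q.1 q.2) f ∘ e) := by
  rw [bern_equiv e F, bern_sum, bern_curry]

section hb

variable {κ μ : Type} [DecidableEq κ] [Fintype κ] [DecidableEq μ] [Fintype μ]

/-- states of the edges of the product cube from the states in the fibres and the states of the rungs -/
def gluB (D : Cube μ → CE κ → Bool) (f : Cube κ × CE μ → Bool) (e : CE (κ ⊕ μ)) : Bool :=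
  match e with
  | ⟨(x, Sum.inl i), h⟩ => D (x ∘ Sum.inr) ⟨(x ∘ Sum.inl, i), h⟩
  | ⟨(x, Sum.inr j), h⟩ => f (x ∘ Sum.inl, ⟨(x ∘ Sum.inr, j), h⟩)

theorem gluB_inl (D : Cube μ → CE κ → Bool) (f : Cube κ × CE μ → Bool) (x : Cube (κ ⊕ μ)) (i : κ) :
    gluB D f ((canE (κ ⊕ μ)).e x (Sum.inl i)) = D (x ∘ Sum.inr) ((canE κ).e (x ∘ Sum.inl) i) := by
  have h1 : Function.update x (Sum.inl i) false ∘ Sum.inr = x ∘ Sum.inr := by
    funext j
    simp
  have h2 : Function.update x (Sum.inl i) false ∘ Sum.inl = Function.update (x ∘ Sum.inl) i false := by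
    funext j
    by_cases h : j = i
    · subst h; simp
    · simp [h]
  show D (Function.update x (Sum.inl i) false ∘ Sum.inr)
    ⟨(Function.update x (Sum.inl i) false ∘ Sum.inl, i), _⟩ = _
  rw [h1]
  congr 1
  apply Subtype.ext
  simp only [canE, h2]

theorem gluB_inr (D : Cube μ → CE κ → Bool) (f : Cube κ × CE μ → Bool) (x : Cube (κ ⊕ μ)) (j : μ) :
    gluB D f ((canE (κ ⊕ μ)).e x (Sum.inr j)) = f (x ∘ Sum.inl, (canE μ).e (x ∘ Sum.inr) j) := by
  have h1 : Function.update x (Sum.inr j) false ∘ Sum.inl = x ∘ Sum.inl := by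
    funext i
    simp
  have h2 : Function.update x (Sum.inr j) false ∘ Sum.inr = Function.update (x ∘ Sum.inr) j false := by
    funext i
    by_cases h : i = j
    · subst h; simp
    · simp [h]
  show f (Function.update x (Sum.inr j) false ∘ Sum.inl,
    ⟨(Function.update x (Sum.inr j) false ∘ Sum.inr, j), _⟩) = _
  rw [h1]
  congr 2
  apply Subtype.ext
  simp only [canE, h2]

/-- the edges of the product cube: edges in the fibres and rungs -/
def ceSum (κ μ : Type) : CE (κ ⊕ μ) ≃ (Cube μ × CE κ) ⊕ (Cube κ × CE μ) where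
  toFun e := match e with
    | ⟨(x, Sum.inl i), h⟩ => Sum.inl (x ∘ Sum.inr, ⟨(x ∘ Sum.inl, i), h⟩)
    | ⟨(x, Sum.inr j), h⟩ => Sum.inr (x ∘ Sum.inl, ⟨(x ∘ Sum.inr, j), h⟩)
  invFun q := match q with
    | Sum.inl (z, ⟨(y, i), h⟩) => ⟨(Sum.elim y z, Sum.inl i), h⟩
    | Sum.inr (y, ⟨(z, j), h⟩) => ⟨(Sum.elim y z, Sum.inr j), h⟩
  left_inv := by
    rintro ⟨⟨x, i | j⟩, h⟩
    · apply Subtype.ext
      simp only [Prod.mk.injEq, and_true]
      exact Sum.elim_comp_inl_inr x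
    · apply Subtype.ext
      simp only [Prod.mk.injEq, and_true]
      exact Sum.elim_comp_inl_inr x
  right_inv := by
    rintro (⟨z, ⟨⟨y, i⟩, h⟩⟩ | ⟨y, ⟨⟨z, j⟩, h⟩⟩)
    · rfl
    · rfl

omit [DecidableEq κ] [Fintype κ] [DecidableEq μ] [Fintype μ] in
theorem gluB_eq (D : Cube μ → CE κ → Bool) (f : Cube κ × CE μ → Bool) :
    gluB D f = Sum.elim (fun q => D q.1 q.2) f ∘ ceSum κ μ := by
  funext e
  rcases e with ⟨⟨x, i | j⟩, h⟩
  · rfl
  · rfl

/-- the law of the glued states -/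
theorem E_gluB {p : ℝ} {h0 : 0 ≤ p} {h1 : p ≤ 1} (F : (CE (κ ⊕ μ) → Bool) → ℝ) :
    ((FP.pi fun _ : Cube μ => bern p h0 h1 (CE κ)).E fun D =>
      (bern p h0 h1 (Cube κ × CE μ)).E fun f => F (gluB D f)) = (bern p h0 h1 (CE (κ ⊕ μ))).E F := by
  rw [bern_glu (ceSum κ μ) F]
  refine FP.E_congr _ fun D => FP.E_congr _ fun f => ?_
  rw [gluB_eq]

/-- the law of the glued states when the states in the fibres are functions of the data of the fibres -/
theorem E_gluB' {p : ℝ} {h0 : 0 ≤ p} {h1 : p ≤ 1} {Ω : Type} [Fintype Ω] (P : FP Ω)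
    (hb : Ω → CE κ → Bool) (hlaw : ∀ F : (CE κ → Bool) → ℝ, P.E (fun ω => F (hb ω)) = (bern p h0 h1 (CE κ)).E F)
    (F : (CE (κ ⊕ μ) → Bool) → ℝ) :
    ((FP.pi fun _ : Cube μ => P).E fun D =>
      (bern p h0 h1 (Cube κ × CE μ)).E fun f => F (gluB (fun s => hb (D s)) f)) =
      (bern p h0 h1 (CE (κ ⊕ μ))).E F := by
  rw [← E_gluB (p := p) (h0 := h0) (h1 := h1) F]
  exact E_pi_map (fun _ : Cube μ => P) (fun _ : Cube μ => bern p h0 h1 (CE κ)) (fun _ => hb)
    (fun _ F => hlaw F)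
    (fun D => (bern p h0 h1 (Cube κ × CE μ)).E fun f => F (gluB D f))

end hb

end Pool.Agent.LongCyc.Dense
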