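import Pool.Agent.LongCyc.Dense.BaseProb
import Pool.Agent.LongCyc.Dense.BaseHb

/-!
# Dense regime: averages over the law of the subfibres
-/

set_option autoImplicit false
set_option linter.unusedSectionVars false

namespace Pool.Agent.LongCyc.Dense

open Finset BadMassAux BlockDec

/-! ### Counting -/

section cnt

variable {V : Type*} [Fintype V] [DecidableEq V] {f : V → Option V}

theorem card_it_end (hf : PInj f) (k : ℕ) (A : Finset V) :
    (univ.filter fun x => ∃ y ∈ A, it f k x = some y).card ≤ A.card := by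
  classical
  refine card_le_card_of_injOn (fun x => (it f k x).getD x) ?_ ?_
  · intro x hx
    simp only [coe_filter, mem_univ, true_and, Set.mem_ofPred_eq] at hx
    obtain ⟨y, hy, h⟩ := hx
    simp only [h, Option.getD_some]
    exact hy
  · intro x hx x' hx' h
    simp only [coe_filter, mem_univ, true_and, Set.mem_ofPred_eq] at hx hx'
    obtain ⟨y, hy, h1⟩ := hx
    obtain ⟨y', hy', h2⟩ := hx'
    simp only [h1, h2, Option.getD_some] at h
    subst h
    exact it_inj hf k h1 h2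

theorem card_it_none (hf : PInj f) (k : ℕ) :
    (univ.filter fun x => it f k x = none).card ≤ k * (endS f).card := by
  classical
  induction k with
  | zero =>
    rw [Nat.zero_mul, Nat.le_zero, card_eq_zero, filter_eq_empty_iff]
    intro x _ h
    rw [it_zero] at h
    cases h
  | succ k ih =>
    have h1 : (univ.filter fun x => it f (k + 1) x = none) ⊆
        (univ.filter fun x => it f k x = none) ∪ (univ.filter fun x => ∃ y ∈ endS f, it f k x = some y) := by
      intro x hx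
      rw [mem_filter] at hx
      rw [mem_union, mem_filter, mem_filter]
      cases h : it f k x with
      | none => exact Or.inl ⟨mem_univ _, rfl⟩
      | some y =>
        right
        refine ⟨mem_univ _, y, ?_, rfl⟩
        rw [mem_endS]
        rw [it_succ_of h] at hx
        exact hx.2
    refine (card_le_card h1).trans ((card_union_le _ _).trans ?_)
    have h2 := card_it_end hf k (endS f)
    rw [Nat.succ_mul]
    omega

theorem card_no_pre (hf : PInj f) (k : ℕ) :
    (univ.filter fun w => ¬ ∃ u, it f k u = some w).card ≤ k * (endS f).card := by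
  classical
  have h1 : (univ.filter fun x => it f k x ≠ none).card ≤ (univ.filter fun w => ∃ u, it f k u = some w).card := by
    refine card_le_card_of_injOn (fun x => (it f k x).getD x) ?_ ?_
    · intro x hx
      simp only [coe_filter, mem_univ, true_and, Set.mem_ofPred_eq] at hx ⊢
      obtain ⟨y, hy⟩ := Option.ne_none_iff_exists'.1 hx
      exact ⟨x, by rw [hy]; rfl⟩
    · intro x hx x' hx' h
      simp only [coe_filter, mem_univ, true_and, Set.mem_ofPred_eq] at hx hx'
      obtain ⟨y, h1⟩ := Option.ne_none_iff_exists'.1 hx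
      obtain ⟨y', h2⟩ := Option.ne_none_iff_exists'.1 hx'
      simp only [h1, h2, Option.getD_some] at h
      subst h
      exact it_inj hf k h1 h2
  have h2 := card_it_none hf k
  have h3 := card_filter_add_card_filter_not (s := (univ : Finset V)) (fun x => it f k x = none)
  have h4 := card_filter_add_card_filter_not (s := (univ : Finset V)) (fun w => ∃ u, it f k u = some w)
  simp only [ne_eq] at h1
  omega

end cnt

/-! ### Laws -/

theorem pr_prod_left {Ω Ω' : Type*} [Fintype Ω] [Fintype Ω'] (P : FP Ω) (Q : FP Ω') (A : Ω → Prop) :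
    (P.prod Q).pr (fun ω => A ω.1) = P.pr A := by
  classical
  rw [FP.pr_eq, FP.pr_eq, FP.E_prod]
  exact FP.E_congr _ fun a => FP.E_const Q (if A a then (1 : ℝ) else 0)

theorem pr_prod_right {Ω Ω' : Type*} [Fintype Ω] [Fintype Ω'] (P : FP Ω) (Q : FP Ω') (A : Ω' → Prop) :
    (P.prod Q).pr (fun ω => A ω.2) = Q.pr A := by
  classical
  rw [FP.pr_eq, FP.pr_eq, FP.E_prod]
  exact FP.E_const P (Q.E fun b => if A b then (1 : ℝ) else 0)

theorem E_prod_left {Ω Ω' : Type*} [Fintype Ω] [Fintype Ω'] (P : FP Ω) (Q : FP Ω') (f : Ω → ℝ) :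
    (P.prod Q).E (fun ω => f ω.1) = P.E f := by
  rw [FP.E_prod]
  exact FP.E_congr _ fun a => FP.E_const Q (f a)

section lawD

variable {κ μ : Type} [DecidableEq κ] [Fintype κ] [DecidableEq μ] [Fintype μ]
  {p1 : ℝ} {h0 : 0 ≤ p1} {h1 : p1 ≤ 1} {L K M1 : ℕ} {ε : ℝ} {S : SubLaw κ p1 h0 h1 L K M1 ε}
  (B : BlkSys S) {ρ : ℝ} {r0 : 0 ≤ ρ} {r1 : 3 * ρ ≤ 1}

theorem lawD_pr (s : Cube μ) (A : Fin 4 × S.Ω → Prop) :
    (lawD μ S ρ r0 r1).pr (fun D => A (D s)) = (subQ S ρ r0 r1).pr A := by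
  classical
  rw [FP.pr_eq, FP.pr_eq]
  exact FP.E_pi_single (fun _ : Cube μ => subQ S ρ r0 r1) s fun a => if A a then (1 : ℝ) else 0

theorem lawD_E (s : Cube μ) (f : Fin 4 × S.Ω → ℝ) :
    (lawD μ S ρ r0 r1).E (fun D => f (D s)) = (subQ S ρ r0 r1).E f :=
  FP.E_pi_single (fun _ : Cube μ => subQ S ρ r0 r1) s f

theorem lawD_sum (f : Fin 4 × S.Ω → ℝ) :
    (lawD μ S ρ r0 r1).E (fun D => ∑ s, f (D s)) = 2 ^ Fintype.card μ * (subQ S ρ r0 r1).E f := by
  rw [FP.E_sum]
  have h : ∀ s ∈ (univ : Finset (Cube μ)), (lawD μ S ρ r0 r1).E (fun D => f (D s)) = (subQ S ρ r0 r1).E f :=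
    fun s _ => lawD_E s f
  rw [Finset.sum_congr rfl h, Finset.sum_const, Finset.card_univ, nsmul_eq_mul]
  congr 1
  simp

theorem lawD_two {s s' : Cube μ} (hss : s ≠ s') (A A' : Fin 4 × S.Ω → Prop) :
    (lawD μ S ρ r0 r1).pr (fun D => A (D s) ∧ A' (D s')) = (subQ S ρ r0 r1).pr A * (subQ S ρ r0 r1).pr A' := by
  classical
  rw [FP.pr_eq, FP.pr_eq, FP.pr_eq]
  have h := FP.E_pi_pair (fun _ : Cube μ => subQ S ρ r0 r1) hss (fun a => if A a then (1 : ℝ) else 0)
    (fun a => if A' a then (1 : ℝ) else 0)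
  rw [← h]
  refine FP.E_congr _ fun D => ?_
  by_cases h1 : A (D s) <;> by_cases h2 : A' (D s') <;> simp [h1, h2]

/-- law of a label and an event of the data -/
theorem subQ_pr (i : Fin 4) (A : S.Ω → Prop) :
    (subQ S ρ r0 r1).pr (fun a => a.1 = i ∧ A a.2) = (if i = 0 then 1 - 3 * ρ else ρ) * S.P.pr A :=
  lbP_pr (r0 := r0) (r1 := r1) S.P i A

theorem subQ_E (i : Fin 4) (f : S.Ω → ℝ) :
    (subQ S ρ r0 r1).E (fun a => if a.1 = i then f a.2 else 0) = (if i = 0 then 1 - 3 * ρ else ρ) * S.P.E f := by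
  classical
  show ((lbP ρ r0 r1).prod S.P).E _ = _
  rw [FP.E_prod]
  have h : ∀ j : Fin 4, (S.P.E fun b => if j = i then f b else (0 : ℝ)) = if j = i then S.P.E f else 0 := by
    intro j
    by_cases hj : j = i
    · simp only [hj, if_true]
    · simp only [hj, if_false, FP.E_const]
  rw [FP.E_congr _ h]
  show ∑ j : Fin 4, (if j = 0 then 1 - 3 * ρ else ρ) * (if j = i then S.P.E f else 0) = _
  rw [Finset.sum_eq_single i]
  · simp
  · intro j _ hj
    simp [hj]
  · intro h2; exact absurd (Finset.mem_univ i) h2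

/-- law of the data without the label -/
theorem subQ_snd (A : S.Ω → Prop) : (subQ S ρ r0 r1).pr (fun a => A a.2) = S.P.pr A :=
  pr_prod_right _ _ _

theorem card_cubeN (β : Type) [DecidableEq β] [Fintype β] : (Fintype.card (Cube β) : ℝ) = 2 ^ Fintype.card β := by
  simp

theorem pow_dm (κ μ : Type) [Fintype κ] [Fintype μ] : (2 : ℝ) ^ dm κ μ = 2 ^ Fintype.card κ * 2 ^ Fintype.card μ := by
  rw [← pow_add, dm, Fintype.card_sum]

/-- a random set given fibrewise -/
theorem card_fib (T : Cube μ → Finset (Cube κ)) :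
    (univ.filter fun x : Cube (κ ⊕ μ) => x ∘ Sum.inl ∈ T (x ∘ Sum.inr)).card = ∑ s, (T s).card := by
  classical
  have h : (univ.filter fun x : Cube (κ ⊕ μ) => x ∘ Sum.inl ∈ T (x ∘ Sum.inr)).card =
      ((univ : Finset (Cube μ)).sigma T).card := by
    refine card_bij (fun x _ => ⟨x ∘ Sum.inr, x ∘ Sum.inl⟩) ?_ ?_ ?_
    · intro x hx
      rw [mem_filter] at hx
      rw [mem_sigma]
      exact ⟨mem_univ _, hx.2⟩
    · intro x _ x' _ h
      simp only [Sigma.mk.injEq] at h
      obtain ⟨h1, h2⟩ := h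
      rw [← jn_self x, ← jn_self x', eq_of_heq h2, h1]
    · rintro ⟨s, y⟩ hy
      rw [mem_sigma] at hy
      refine ⟨jn y s, ?_, ?_⟩
      · rw [mem_filter, jn_inl, jn_inr]
        exact ⟨mem_univ _, hy.2⟩
      · rw [jn_inl, jn_inr]
  rw [h, card_sigma]

/-! ### Ends -/

/-- the ends of the cleaned base map -/
theorem E_end (hL : 2 ≤ L) :
    (lawD μ S ρ r0 r1).E (fun D => ((endS (gcb D)).card : ℝ)) ≤ 2 ^ dm κ μ * ε := by
  classical
  rw [← card_cubeN]
  refine E_card_le _ _ fun x => ?_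
  refine le_trans (FP.pr_mono _ (B := fun D => x ∘ Sum.inl ∉ S.gd (D (x ∘ Sum.inr)).2) fun D hD => ?_) ?_
  · rw [mem_endS] at hD
    unfold gcb at hD
    rw [lft_none] at hD
    exact cs_none hL hD
  · have h2 := lawD_pr (S := S) (r0 := r0) (r1 := r1) (x ∘ Sum.inr)
      (fun a => x ∘ Sum.inl ∉ S.gd a.2)
    rw [h2]
    exact (subQ_snd (S := S) (r0 := r0) (r1 := r1) fun ω => x ∘ Sum.inl ∉ S.gd ω).trans_le (S.gpr _)

/-- the ends of the configuration -/
theorem card_end_gc {D : S.DD μ} {B : BlkSys S} {hb2 : CE (κ ⊕ μ) → Bool} {L2 L1 h : ℕ} (hL1 : 0 < L1)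
    (hMn : Fintype.card (MPt D B L1) * L1 ≤ 2 ^ dm κ μ) (g : Option (GData D B hb2 L2 L1 h)) :
    ((endS (gc g)).card : ℝ) ≤ (endS (gcb D)).card + 2 * (((dm κ μ : ℕ) : ℝ) ^ 9 + 2) / L1 * 2 ^ dm κ μ := by
  have hL1r : (0 : ℝ) < L1 := by exact_mod_cast hL1
  cases g with
  | none =>
    have e1 : (endS (gc (none : Option (GData D B hb2 L2 L1 h)))) = endS (gcb D) := by
      congr 1
      funext x
      unfold gc gls gconf
      simp only [Option.elim_none, List.not_mem_nil, if_false]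
      cases gcb D x <;> rfl
    rw [e1]
    have : 0 ≤ 2 * (((dm κ μ : ℕ) : ℝ) ^ 9 + 2) / L1 * 2 ^ dm κ μ := by positivity
    linarith
  | some g =>
    have e1 := card_gconf_end g.nodup g.len (gcb_pinj D) g.E (fun x y hxy => by
      rcases g.next x y hxy with (h | h) | h
      · exact Or.inl h
      · exact Or.inr (Or.inl h)
      · exact Or.inr (Or.inr h.2))
    have e2 : g.k ≤ Fintype.card (MPt D B L1) := by
      have := Fintype.card_le_of_injective _ g.P_inj
      rwa [Fintype.card_fin] at this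
    have e3 : (g.k : ℝ) * L1 ≤ 2 ^ dm κ μ := by
      have : g.k * L1 ≤ 2 ^ dm κ μ := (Nat.mul_le_mul_right _ e2).trans hMn
      exact_mod_cast this
    have e4 : (g.E.card : ℝ) ≤ g.k * (((dm κ μ : ℕ) : ℝ) ^ 9 + 2) := by exact_mod_cast g.hE
    have e5 : (g.k : ℝ) ≤ 2 ^ dm κ μ / L1 := by rwa [le_div_iff₀ hL1r]
    have e6 : ((endS (gc (some g))).card : ℝ) ≤ (endS (gcb D)).card + 2 * g.E.card := by exact_mod_cast e1
    refine e6.trans ?_
    have e7 : (g.k : ℝ) * (((dm κ μ : ℕ) : ℝ) ^ 9 + 2) ≤ 2 ^ dm κ μ / L1 * (((dm κ μ : ℕ) : ℝ) ^ 9 + 2) :=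
      mul_le_mul_of_nonneg_right e5 (by positivity)
    have e8 : 2 * (((dm κ μ : ℕ) : ℝ) ^ 9 + 2) / L1 * 2 ^ dm κ μ =
        2 * (2 ^ dm κ μ / L1 * (((dm κ μ : ℕ) : ℝ) ^ 9 + 2)) := by ring
    rw [e8]
    linarith

end lawD

end Pool.Agent.LongCyc.Dense
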