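import Pool.Agent.LongCyc.Dense.BaseAvg

/-!
# Dense regime: averages over the law of the subfibres, II (usable vertices, reservoirs, parallel edges)
-/

set_option autoImplicit false
set_option linter.unusedSectionVars false

namespace Pool.Agent.LongCyc.Dense

open Finset BadMassAux BlockDec

section avg

variable {κ μ : Type} [DecidableEq κ] [Fintype κ] [DecidableEq μ] [Fintype μ]
  {p1 : ℝ} {h0 : 0 ≤ p1} {h1 : p1 ≤ 1} {L K M1 : ℕ} {ε : ℝ} {S : SubLaw κ p1 h0 h1 L K M1 ε}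
  (B : BlkSys S) {ρ : ℝ} {r0 : 0 ≤ ρ} {r1 : 3 * ρ ≤ 1}

/-! ### Usable vertices -/

/-- usable vertices of one subfibre -/
noncomputable def useF (ω : S.Ω) : Finset (Cube κ) := by
  classical exact univ.filter fun w => (∃ u, it (S.cs ω) (L - 1) u = some w) ∧ it (S.cs ω) (L + 1) w ≠ none

theorem card_useF (ω : S.Ω) (hL : 2 ≤ L) :
    (2 : ℝ) ^ Fintype.card κ - 2 * L * (endS (S.cs ω)).card ≤ (useF ω).card := by
  classical
  have h2 := card_it_none (S.cs_pinj ω) (L + 1)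
  have h3 := card_no_pre (S.cs_pinj ω) (L - 1)
  have h4 : (univ : Finset (Cube κ)) ⊆ useF ω ∪ ((univ.filter fun x => it (S.cs ω) (L + 1) x = none) ∪
      (univ.filter fun w => ¬ ∃ u, it (S.cs ω) (L - 1) u = some w)) := by
    intro w _
    rw [mem_union, mem_union, mem_filter, mem_filter]
    unfold useF
    rw [mem_filter]
    by_cases h5 : ∃ u, it (S.cs ω) (L - 1) u = some w
    · by_cases h6 : it (S.cs ω) (L + 1) w = none
      · exact Or.inr (Or.inl ⟨mem_univ _, h6⟩)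
      · exact Or.inl ⟨mem_univ _, h5, h6⟩
    · exact Or.inr (Or.inr ⟨mem_univ _, h5⟩)
  have h5 := (card_le_card h4).trans (card_union_le _ _)
  have h6 := card_union_le (univ.filter fun x => it (S.cs ω) (L + 1) x = none)
    (univ.filter fun w => ¬ ∃ u, it (S.cs ω) (L - 1) u = some w)
  have h7 : (L + 1) * (endS (S.cs ω)).card + (L - 1) * (endS (S.cs ω)).card = 2 * L * (endS (S.cs ω)).card := by
    rw [← Nat.add_mul]
    congr 1
    omega
  have h8 : Fintype.card (Cube κ) ≤ (useF ω).card + 2 * L * (endS (S.cs ω)).card := by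
    rw [← Finset.card_univ]
    omega
  have h9 : (Fintype.card (Cube κ) : ℝ) ≤ (useF ω).card + 2 * L * (endS (S.cs ω)).card := by exact_mod_cast h8
  rw [card_cubeN] at h9
  linarith

/-- usable vertices -/
noncomputable def useS (D : S.DD μ) : Finset (Cube (κ ⊕ μ)) := by
  classical exact univ.filter fun w => (D (w ∘ Sum.inr)).1 = 3 ∧
    (∃ u, it (gcb D) (L - 1) u = some w) ∧ it (gcb D) (L + 1) w ≠ none

theorem card_useS (D : S.DD μ) : (useS D).card = ∑ s, if (D s).1 = 3 then (useF (D s).2).card else 0 := by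
  classical
  have h : useS D = univ.filter fun x : Cube (κ ⊕ μ) => x ∘ Sum.inl ∈
      (fun s => if (D s).1 = 3 then useF (D s).2 else ∅ : Cube μ → Finset (Cube κ)) (x ∘ Sum.inr) := by
    ext w
    unfold useS
    rw [mem_filter, mem_filter]
    simp only [mem_univ, true_and]
    by_cases h3 : (D (w ∘ Sum.inr)).1 = 3
    · simp only [h3, true_and, if_true]
      unfold useF
      rw [mem_filter]
      simp only [mem_univ, true_and]
      have e1 : (∃ u, it (gcb D) (L - 1) u = some w) ↔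
          ∃ u, it (S.cs (D (w ∘ Sum.inr)).2) (L - 1) u = some (w ∘ Sum.inl) := by
        constructor
        · rintro ⟨u, hu⟩
          unfold gcb at hu
          rw [it_lft_iff] at hu
          refine ⟨u ∘ Sum.inl, ?_⟩
          rw [hu.2]
          exact hu.1
        · rintro ⟨u, hu⟩
          refine ⟨jn u (w ∘ Sum.inr), ?_⟩
          unfold gcb
          rw [it_lft_iff, jn_inl, jn_inr]
          exact ⟨hu, rfl⟩
      have e2 : it (gcb D) (L + 1) w ≠ none ↔ it (S.cs (D (w ∘ Sum.inr)).2) (L + 1) (w ∘ Sum.inl) ≠ none := by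
        rw [not_iff_not]
        unfold gcb
        exact it_lft_none
      rw [e1, e2]
    · simp only [h3, false_and, if_false, notMem_empty]
  rw [h]
  refine (card_fib (fun s => if (D s).1 = 3 then useF (D s).2 else ∅ : Cube μ → Finset (Cube κ))).trans ?_
  refine sum_congr rfl fun s _ => ?_
  split_ifs <;> simp

theorem E_use (hL : 2 ≤ L) :
    ρ * (1 - 2 * L * ε) * 2 ^ dm κ μ ≤ (lawD μ S ρ r0 r1).E (fun D => ((useS D).card : ℝ)) := by
  classical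
  have h2 : ∀ D : Cube μ → Fin 4 × S.Ω, ∑ s, (if (D s).1 = 3 then
      ((2 : ℝ) ^ Fintype.card κ - 2 * L * (endS (S.cs (D s).2)).card) else 0) ≤ ((useS D).card : ℝ) := by
    intro D
    rw [card_useS]
    push_cast
    refine sum_le_sum fun s _ => ?_
    split_ifs
    · exact card_useF _ hL
    · exact le_rfl
  refine le_trans ?_ (FP.E_mono _ h2)
  rw [lawD_sum fun a => if a.1 = 3 then ((2 : ℝ) ^ Fintype.card κ - 2 * L * (endS (S.cs a.2)).card) else 0]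
  rw [subQ_E 3 fun ω => ((2 : ℝ) ^ Fintype.card κ - 2 * L * (endS (S.cs ω)).card), if_neg (by decide)]
  rw [FP.E_sub, FP.E_const, FP.E_mul_left]
  have h5 : S.P.E (fun ω => ((endS (S.cs ω)).card : ℝ)) ≤ 2 ^ Fintype.card κ * ε := by
    rw [← card_cubeN]
    refine E_card_le S.P _ fun x => le_trans (FP.pr_mono _ fun ω h => ?_) (S.gpr x)
    exact cs_none hL (mem_endS.1 h)
  rw [pow_dm]
  have h6 : 2 * (L : ℝ) * S.P.E (fun ω => ((endS (S.cs ω)).card : ℝ)) ≤ 2 * L * (2 ^ Fintype.card κ * ε) :=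
    mul_le_mul_of_nonneg_left h5 (by positivity)
  have h7 : ρ * (1 - 2 * L * ε) * (2 ^ Fintype.card κ * 2 ^ Fintype.card μ) =
      2 ^ Fintype.card μ * (ρ * (2 ^ Fintype.card κ - 2 * L * (2 ^ Fintype.card κ * ε))) := by ring
  rw [h7]
  refine mul_le_mul_of_nonneg_left (mul_le_mul_of_nonneg_left ?_ r0) (by positivity)
  linarith

/-! ### Reservoirs -/

/-- vertices of the reservoir pieces -/
noncomputable def rsS (Vr : ℕ) (D : S.DD μ) : Finset (Cube (κ ⊕ μ)) := by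
  classical exact univ.filter fun y => (D (y ∘ Sum.inr)).1 = 2 ∧ y ∘ Sum.inl ∈ cvr B (D (y ∘ Sum.inr)).2 Vr

theorem mem_rsS {Vr : ℕ} {D : S.DD μ} {y : Cube (κ ⊕ μ)} : y ∈ rsS B Vr D ↔
    (D (y ∘ Sum.inr)).1 = 2 ∧ y ∘ Sum.inl ∈ cvr B (D (y ∘ Sum.inr)).2 Vr := by
  classical
  unfold rsS
  simp only [mem_filter, mem_univ, true_and]

theorem rsS_inP {Vr nR L2 L1 h : ℕ} {D : S.DD μ} {hb hb2 : CE (κ ⊕ μ) → Bool}
    {g : Option (GData D B hb2 L2 L1 h)} {y : Cube (κ ⊕ μ)} (hy : y ∈ rsS B Vr D) :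
    (mkBD nR Vr hb g).inP Vr y := by
  rw [mem_rsS, mem_cvr] at hy
  obtain ⟨h2, x, hx, k, hk, hk2⟩ := hy
  refine ⟨jn x (y ∘ Sum.inr), ?_, k, hk, ?_⟩
  · rw [mk_mem_PS, jn_inr, jn_inl]
    exact ⟨h2, hx⟩
  · show it (gb D) k (jn x (y ∘ Sum.inr)) = some y
    unfold gb
    rw [it_lft_iff, jn_inl, jn_inr]
    exact ⟨it_cleanb k hk2, rfl⟩

theorem pr_rsS {δ : ℝ} {Vr : ℕ} (hcov : ∀ y, 1 - δ ≤ S.P.pr (fun ω => y ∈ cvr B ω Vr)) (y : Cube (κ ⊕ μ)) :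
    ρ * (1 - δ) ≤ (lawD μ S ρ r0 r1).pr (fun D => y ∈ rsS B Vr D) := by
  have h2 : (lawD μ S ρ r0 r1).pr (fun D => y ∈ rsS B Vr D) = (lawD μ S ρ r0 r1).pr (fun D =>
      (D (y ∘ Sum.inr)).1 = 2 ∧ y ∘ Sum.inl ∈ cvr B (D (y ∘ Sum.inr)).2 Vr) := by
    congr 1
    funext D
    exact propext (mem_rsS B)
  rw [h2]
  have h3 := lawD_pr (S := S) (r0 := r0) (r1 := r1) (y ∘ Sum.inr)
    (fun a => a.1 = 2 ∧ y ∘ Sum.inl ∈ cvr B a.2 Vr)
  rw [h3]
  have h4 := subQ_pr (S := S) (r0 := r0) (r1 := r1) 2 (fun ω => y ∘ Sum.inl ∈ cvr B ω Vr)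
  rw [h4, if_neg (by decide)]
  exact mul_le_mul_of_nonneg_left (hcov _) r0

theorem pr_rsS_two {δ : ℝ} {Vr : ℕ} (hδ0 : 0 ≤ δ) (hδ : δ ≤ 1 / 20) (hρ : ρ ≤ 1 / 20)
    (hcov : ∀ y, 1 - δ ≤ S.P.pr (fun ω => y ∈ cvr B ω Vr)) (y : Cube (κ ⊕ μ)) (k : κ ⊕ μ) :
    (ρ / 2) ^ 3 ≤ (lawD μ S ρ r0 r1).pr (fun D => y ∈ rsS B Vr D ∧ flip k y ∈ rsS B Vr D) := by
  have h2 : (lawD μ S ρ r0 r1).pr (fun D => y ∈ rsS B Vr D ∧ flip k y ∈ rsS B Vr D) =
      (lawD μ S ρ r0 r1).pr (fun D =>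
      ((D (y ∘ Sum.inr)).1 = 2 ∧ y ∘ Sum.inl ∈ cvr B (D (y ∘ Sum.inr)).2 Vr) ∧
      ((D (flip k y ∘ Sum.inr)).1 = 2 ∧ flip k y ∘ Sum.inl ∈ cvr B (D (flip k y ∘ Sum.inr)).2 Vr)) := by
    congr 1
    funext D
    exact propext (and_congr (mem_rsS B) (mem_rsS B))
  rw [h2]
  have e0 : (ρ / 2) ^ 3 ≤ ρ * (1 - 2 * δ) := by
    have h3 : (ρ / 2) ^ 3 = ρ * (ρ ^ 2 / 8) := by ring
    rw [h3]
    apply mul_le_mul_of_nonneg_left _ r0
    nlinarith
  rcases k with i | j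
  · rw [flip_inl_inr, flip_inl_inl]
    have h3 := lawD_pr (S := S) (r0 := r0) (r1 := r1) (y ∘ Sum.inr)
      (fun a => (a.1 = 2 ∧ y ∘ Sum.inl ∈ cvr B a.2 Vr) ∧ (a.1 = 2 ∧ flip i (y ∘ Sum.inl) ∈ cvr B a.2 Vr))
    rw [h3]
    have h4 := subQ_pr (S := S) (r0 := r0) (r1 := r1) 2
      (fun ω => y ∘ Sum.inl ∈ cvr B ω Vr ∧ flip i (y ∘ Sum.inl) ∈ cvr B ω Vr)
    rw [if_neg (by decide)] at h4
    have h5 := pr_and_ge S.P _ _ (hcov (y ∘ Sum.inl)) (hcov (flip i (y ∘ Sum.inl)))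
    have h6 : ρ * (1 - 2 * δ) ≤ (subQ S ρ r0 r1).pr (fun a => a.1 = 2 ∧
        (y ∘ Sum.inl ∈ cvr B a.2 Vr ∧ flip i (y ∘ Sum.inl) ∈ cvr B a.2 Vr)) := by
      rw [h4]
      exact mul_le_mul_of_nonneg_left (by linarith) r0
    refine e0.trans (h6.trans (FP.pr_mono _ fun a ha => ?_))
    exact ⟨⟨ha.1, ha.2.1⟩, ha.1, ha.2.2⟩
  · have hne : y ∘ Sum.inr ≠ flip (Sum.inr j) y ∘ Sum.inr := by
      rw [flip_inr_inr]
      exact (flip_ne j _).symm
    have h3 := lawD_two (S := S) (r0 := r0) (r1 := r1) hne (fun a => a.1 = 2 ∧ y ∘ Sum.inl ∈ cvr B a.2 Vr)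
      (fun a => a.1 = 2 ∧ flip (Sum.inr j) y ∘ Sum.inl ∈ cvr B a.2 Vr)
    rw [h3]
    have h4 : ∀ u : Cube κ, ρ * (1 - δ) ≤ (subQ S ρ r0 r1).pr (fun a => a.1 = 2 ∧ u ∈ cvr B a.2 Vr) := by
      intro u
      have h5 := subQ_pr (S := S) (r0 := r0) (r1 := r1) 2 (fun ω => u ∈ cvr B ω Vr)
      rw [h5, if_neg (by decide)]
      exact mul_le_mul_of_nonneg_left (hcov _) r0
    have h6 : 0 ≤ ρ * (1 - δ) := mul_nonneg r0 (by linarith)
    have h7 := mul_le_mul (h4 (y ∘ Sum.inl)) (h4 (flip (Sum.inr j) y ∘ Sum.inl)) h6 (h6.trans (h4 _))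
    refine le_trans ?_ h7
    have h8 : (ρ / 2) ^ 3 = ρ ^ 2 * (ρ / 8) := by ring
    have h9 : ρ * (1 - δ) * (ρ * (1 - δ)) = ρ ^ 2 * (1 - δ) ^ 2 := by ring
    rw [h8, h9]
    apply mul_le_mul_of_nonneg_left _ (sq_nonneg ρ)
    nlinarith

end avg

end Pool.Agent.LongCyc.Dense
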