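import Pool.Agent.LongCyc.Dense.BaseCon

/-!
# Dense regime: the data of a base fibre and their deterministic properties
-/

set_option autoImplicit false
set_option linter.unusedSectionVars false

namespace Pool.Agent.LongCyc.Dense

open Finset BadMassAux BlockDec

section con

variable {κ μ : Type} [DecidableEq κ] [Fintype κ] [DecidableEq μ] [Fintype μ]
  {p1 : ℝ} {h0 : 0 ≤ p1} {h1 : p1 ≤ 1} {L K M1 : ℕ} {ε : ℝ} {S : SubLaw κ p1 h0 h1 L K M1 ε}
  (D : S.DD μ) (B : BlkSys S)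

/-- dimension of the base fibre -/
abbrev dm (κ μ : Type) [Fintype κ] [Fintype μ] : ℕ := Fintype.card (κ ⊕ μ)

/-- the point number `j` of the main piece `P` -/
noncomputable abbrev mpv {l : ℕ} (P : MPt D B l) (j : Fin l) : Cube (κ ⊕ μ) := bpv D B l P.1.1 P.2 j

/-- a giant cycle of the base fibre -/
structure GData (hb2 : CE (κ ⊕ μ) → Bool) (L2 L1 h : ℕ) where
  k : ℕ
  P : Fin k → MPt D B L1
  l : List (Cube (κ ⊕ μ))
  hl : l ≠ []
  E : Finset (Cube (κ ⊕ μ) × Cube (κ ⊕ μ))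
  hk : Fintype.card (MPt D B L1) ≤ k + 4 * (Fintype.card (MPt D B L1) / dm κ μ + 1)
  P_inj : Function.Injective P
  nodup : l.Nodup
  len : 3 ≤ l.length
  hE : E.card ≤ k * (dm κ μ ^ 9 + 2)
  next : ∀ x y, CNext l x y → gG1 D x y ∨ (opn (canE (κ ⊕ μ)) hb2 x y ∧ (x, y) ∈ E)
  mem : ∀ x ∈ l, (D (x ∘ Sum.inr)).1 = 0 ∨ (D (x ∘ Sum.inr)).1 = 1
  inner : ∀ (i : Fin k) (j : ℕ) (_ : h ≤ j) (_ : j + 1 + h ≤ L1) (h1 : j + 1 < L1),
    CNext l (mpv D B (P i) ⟨j, by omega⟩) (mpv D B (P i) ⟨j + 1, h1⟩)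
  str : ∀ a, a < l.length → ∃ t ≤ 2 * (L1 + (dm κ μ ^ 9 + 1) * L2), ∃ i : Fin k,
    ∀ q (_ : h + q + h ≤ L1) (h1 : h + q < L1), cyc l hl (a + t + q) = mpv D B (P i) ⟨h + q, h1⟩

variable {D B} {hb2 : CE (κ ⊕ μ) → Bool} {L2 L1 h : ℕ}

/-- the list of the giant -/
def gls (g : Option (GData D B hb2 L2 L1 h)) : List (Cube (κ ⊕ μ)) := g.elim [] fun g => g.l

/-- the base configuration with the giant -/
noncomputable def gc (g : Option (GData D B hb2 L2 L1 h)) : Cube (κ ⊕ μ) → Option (Cube (κ ⊕ μ)) :=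
  gconf (gcb D) (gls g)

theorem gls_nodup (g : Option (GData D B hb2 L2 L1 h)) : (gls g).Nodup := by
  cases g with
  | none => exact List.nodup_nil
  | some g => exact g.nodup

theorem gls_mem {g : Option (GData D B hb2 L2 L1 h)} {x : Cube (κ ⊕ μ)} (hx : x ∈ gls g) :
    (D (x ∘ Sum.inr)).1 = 0 ∨ (D (x ∘ Sum.inr)).1 = 1 := by
  cases g with
  | none => simp [gls] at hx
  | some g => exact g.mem x hx

theorem gls_next {g : Option (GData D B hb2 L2 L1 h)} {x y : Cube (κ ⊕ μ)} (hx : CNext (gls g) x y) :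
    gG1 D x y ∨ opn (canE (κ ⊕ μ)) hb2 x y := by
  cases g with
  | none =>
    rcases hx with ⟨s, t, hst⟩ | ⟨s, hst⟩ <;> simp [gls] at hst
  | some g => exact (g.next x y hx).imp id fun h => h.1

theorem gls_next3 {g : Option (GData D B hb2 L2 L1 h)} {x y z : Cube (κ ⊕ μ)} (hx : CNext (gls g) x y)
    (hy : CNext (gls g) y z) : x ≠ z := by
  cases g with
  | none =>
    rcases hx with ⟨s, t, hst⟩ | ⟨s, hst⟩ <;> simp [gls] at hst
  | some g => exact cnext_ne g.nodup g.len hx hy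

theorem gc_iff {g : Option (GData D B hb2 L2 L1 h)} {x y : Cube (κ ⊕ μ)} :
    gc g x = some y ↔ CNext (gls g) x y ∨ (x ∉ gls g ∧ y ∉ gls g ∧ gcb D x = some y) :=
  gconf_iff (gls_nodup g)

theorem gc_pinj (g : Option (GData D B hb2 L2 L1 h)) : PInj (gc g) := gconf_pinj (gls_nodup g) (gcb_pinj D)

/-- in the subfibres with label `2` or `3` the configuration is the cleaned base map -/
theorem gc_res {g : Option (GData D B hb2 L2 L1 h)} {x y : Cube (κ ⊕ μ)}
    (hx : (D (x ∘ Sum.inr)).1 ≠ 0 ∧ (D (x ∘ Sum.inr)).1 ≠ 1) (hxy : gcb D x = some y) : gc g x = some y := by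
  rw [gc_iff]
  right
  refine ⟨fun h => ?_, fun h => ?_, hxy⟩
  · rcases gls_mem h with h | h
    · exact hx.1 h
    · exact hx.2 h
  · have := gls_mem h
    rw [gcb_inr D hxy] at this
    rcases this with h | h
    · exact hx.1 h
    · exact hx.2 h

theorem it_gcb_inr {k : ℕ} {x y : Cube (κ ⊕ μ)} (h : it (gcb D) k x = some y) :
    y ∘ Sum.inr = x ∘ Sum.inr := it_gb_inr D (it_gcb_gb D h)

variable (S) in
/-- admissible sets of the base fibre -/
def gAdm (μ : Type) [DecidableEq μ] [Fintype μ] (A : Finset (CE (κ ⊕ μ))) : Prop :=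
  ∃ (s : Cube μ) (A0 : Finset (CE κ)), S.Adm A0 ∧ A = A0.image (embE s)

open Classical in
/-- **data of the base fibre** -/
noncomputable def mkBD (nR : ℕ) (Vr : ℕ) (hb : CE (κ ⊕ μ) → Bool) (g : Option (GData D B hb2 L2 L1 h)) :
    BD (κ ⊕ μ) nR where
  hb := hb
  b := gb D
  c := gc g
  U := univ.filter fun w => (D (w ∘ Sum.inr)).1 = 3 ∧ (∃ u, it (gcb D) (L - 1) u = some w) ∧
    it (gcb D) (L + 1) w ≠ none
  Gd := univ.filter fun x => gG D x
  PS := univ.filter fun x => (D (x ∘ Sum.inr)).1 = 2 ∧ x ∘ Sum.inl ∈ B.st (D (x ∘ Sum.inr)).2 Vr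
  G := univ.filter fun x => x ∈ gls g
  res := fun i => g.elim (fun _ => false) fun g =>
    if hi : i.val < g.k ∧ h < L1 then mpv D B (g.P ⟨i.val, hi.1⟩) ⟨h, hi.2⟩ else fun _ => false

section val

variable (nR Vr : ℕ) (hb : CE (κ ⊕ μ) → Bool) (g : Option (GData D B hb2 L2 L1 h))

theorem gb_open (hS : ∀ (s : Cube μ) (e : CE κ), S.hb (D s).2 e = true → hb (embE s e) = true)
    {x y : Cube (κ ⊕ μ)} (hxy : gb D x = some y) : opn (canE (κ ⊕ μ)) hb x y := by
  unfold gb at hxy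
  rw [lft_iff] at hxy
  obtain ⟨h2, h3⟩ := hxy
  obtain ⟨i, hi, ho⟩ := S.bOpen _ _ _ h2
  refine ⟨Sum.inl i, ?_, ?_⟩
  · rw [← jn_self y, h3, hi, ← flip_jn, jn_self]
  · have := hS _ _ ho
    rw [embE_can, jn_self] at this
    exact this

/-- an intact good run from a stretch of the cleaned base map in a reservoir subfibre -/
theorem run_of_it (hL : 2 ≤ L) {u : Cube (κ ⊕ μ)} (hu : (D (u ∘ Sum.inr)).1 ≠ 0 ∧ (D (u ∘ Sum.inr)).1 ≠ 1)
    (h : it (gcb D) (L - 1) u ≠ none) : gG D u ∧ Intact (gb D) (gc g) L u := by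
  have h2 := stretch_of_sub (b := gb D) (c := gcb D) (Good := gG D) hL (y := u)
    (fun k z _ z' hz' => by rw [← gcb_eq]; exact hz') h
  refine ⟨h2.1, fun k hk => ?_⟩
  obtain ⟨y, y', hy, hy', hc⟩ := h2.2 k hk
  refine ⟨y, y', hy, hy', gc_res ?_ hc⟩
  rw [it_gb_inr D hy]
  exact hu

theorem mk_mem_U {w : Cube (κ ⊕ μ)} : w ∈ (mkBD nR Vr hb g).U ↔ (D (w ∘ Sum.inr)).1 = 3 ∧
    (∃ u, it (gcb D) (L - 1) u = some w) ∧ it (gcb D) (L + 1) w ≠ none := by
  classical
  unfold mkBD
  simp only [mem_filter, mem_univ, true_and]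

theorem mk_mem_Gd {x : Cube (κ ⊕ μ)} : x ∈ (mkBD nR Vr hb g).Gd ↔ gG D x := by
  classical
  unfold mkBD
  simp only [mem_filter, mem_univ, true_and]

theorem mk_mem_PS {x : Cube (κ ⊕ μ)} : x ∈ (mkBD nR Vr hb g).PS ↔
    (D (x ∘ Sum.inr)).1 = 2 ∧ x ∘ Sum.inl ∈ B.st (D (x ∘ Sum.inr)).2 Vr := by
  classical
  unfold mkBD
  simp only [mem_filter, mem_univ, true_and]

theorem mk_mem_G {x : Cube (κ ⊕ μ)} : x ∈ (mkBD nR Vr hb g).G ↔ x ∈ gls g := by
  classical
  unfold mkBD
  simp only [mem_filter, mem_univ, true_and]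

/-- iteration of the configuration along the inner part of a main piece of the giant -/
theorem it_gb_mpv {l : ℕ} (P : MPt D B l) (q : ℕ) : ∀ (k : ℕ) (h1 : q + k < l),
    it (gb D) k (mpv D B P ⟨q, by omega⟩) = some (mpv D B P ⟨q + k, h1⟩) := by
  intro k
  induction k with
  | zero => intro _; rfl
  | succ k ih =>
    intro h1
    rw [it_succ_of (ih (by omega))]
    exact (gcb_some D (bpv_next D B (q + k) h1)).2

theorem it_gls (g' : GData D B hb2 L2 L1 h) (i k : ℕ) :
    it (gc (some g')) k (cyc g'.l g'.hl i) = some (cyc g'.l g'.hl (i + k)) :=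
  it_gconf_in g'.nodup g'.hl (by have := g'.len; omega) i k

/-- **the data of the base fibre are valid** -/
theorem mkBD_val (hL : 2 ≤ L) (hS : ∀ (s : Cube μ) (e : CE κ), S.hb (D s).2 e = true → hb (embE s e) = true)
    (hb2le : ∀ e, hb2 e = true → hb e = true) (hL1 : L + 1 + 2 * h ≤ L1) (Bd : ℕ)
    (hBd : 2 * (L1 + (dm κ μ ^ 9 + 1) * L2) + L ≤ Bd) (hk : ∀ g', g = some g' → nR ≤ g'.k) :
    (mkBD nR Vr hb g).Val (S.D0.image Sum.inl) (gAdm S μ) L Vr Bd where
  bInj := gb_pinj D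
  cInj := gc_pinj g
  bOpen := fun y y' h => gb_open hb hS h
  cOpen := by
    intro x y hxy
    have hxy' : gc g x = some y := hxy
    rw [gc_iff] at hxy'
    show opn (canE (κ ⊕ μ)) hb x y
    rcases hxy' with h | ⟨-, -, h⟩
    · rcases gls_next h with (h | h) | h
      · exact gb_open hb hS (gcb_some D h).2
      · exact opn_symm (gb_open hb hS (gcb_some D h).2)
      · exact opn_mono hb2le h
    · exact gb_open hb hS (gcb_some D h).2
  no2b := by
    intro y y' h1 h2
    have h1' : gb D y = some y' := h1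
    have h2' : gb D y' = some y := h2
    unfold gb at h1' h2'
    rw [lft_iff] at h1' h2'
    rw [h1'.2] at h2'
    exact S.no2b _ _ _ h1'.1 h2'.1
  no2 := by
    intro y y' h1 h2
    have h1' : gc g y = some y' := h1
    have h2' : gc g y' = some y := h2
    rw [gc_iff] at h1' h2'
    rcases h1' with h | ⟨ha, hb', hc⟩
    · rcases h2' with h' | ⟨ha', hb'', hc'⟩
      · exact gls_next3 h h' rfl
      · exact ha' (cnext_mem h).2
    · rcases h2' with h' | ⟨ha', hb'', hc'⟩
      · exact ha (cnext_mem h').2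
      · have e1 := (gcb_some D hc).2
        have e2 := (gcb_some D hc').2
        unfold gb at e1 e2
        rw [lft_iff] at e1 e2
        rw [e1.2] at e2
        exact S.no2b _ _ _ e1.1 e2.1
  mat := by
    intro y i hi i' hi' h1 h2
    rw [mem_image] at hi hi'
    obtain ⟨i, hi, rfl⟩ := hi
    obtain ⟨i', hi', rfl⟩ := hi'
    have key : ∀ j : κ, ((mkBD nR Vr hb g).b y = some (flip (Sum.inl j) y) ∨
        (mkBD nR Vr hb g).b (flip (Sum.inl j) y) = some y) →
        (S.b (D (y ∘ Sum.inr)).2 (y ∘ Sum.inl) = some (flip j (y ∘ Sum.inl)) ∨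
          S.b (D (y ∘ Sum.inr)).2 (flip j (y ∘ Sum.inl)) = some (y ∘ Sum.inl)) := by
      intro j hj
      rcases hj with hj | hj
      · left
        have hj' : gb D y = some (flip (Sum.inl j) y) := hj
        unfold gb at hj'
        rw [lft_iff, flip_inl_inl] at hj'
        exact hj'.1
      · right
        have hj' : gb D (flip (Sum.inl j) y) = some y := hj
        unfold gb at hj'
        rw [lft_iff, flip_inl_inl, flip_inl_inr] at hj'
        exact hj'.1
    rw [S.mat _ _ i hi i' hi' (key i h1) (key i' h2)]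
  gdef := by
    intro u hu
    rw [mk_mem_Gd] at hu
    show it (gb D) (L - 1) u ≠ none
    unfold gb
    intro h2
    rw [it_lft_none] at h2
    exact S.gdef _ _ hu h2
  gopen := by
    intro u hu k hk1 hkL h2
    rw [mk_mem_Gd] at hu
    have h2' : it (gb D) k u = some u := h2
    unfold gb at h2'
    rw [it_lft_iff] at h2'
    exact S.gopen _ _ hu k hk1 hkL h2'.1
  gadm := by
    intro u hu
    rw [mk_mem_Gd] at hu
    refine ⟨u ∘ Sum.inr, _, S.gadm _ _ hu, ?_⟩
    exact runD0_lft S.D0 (fun s => S.b (D s).2) L u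
  str := by
    have e1 : (fun u => u ∈ (mkBD nR Vr hb g).Gd) = gG D := by
      funext u
      exact propext (mk_mem_Gd nR Vr hb g)
    rw [e1]
    show Stretch (gb D) (gG D) L (gc g) Bd
    unfold gc
    rw [gcb_eq]
    have hmono : ∀ B, Stretch (gb D) (gG D) L (gconf (cleanb (gb D) (gG D)) (gls g)) B → B ≤ Bd → 1 ≤ B →
        Stretch (gb D) (gG D) L (gconf (cleanb (gb D) (gG D)) (gls g)) Bd := by
      intro B hB hBB hB1 y hy
      obtain ⟨j, u, hj, h2, h3, h4⟩ := hB y (fun h => hy (it_none (by omega) h))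
      exact ⟨j, u, by omega, h2, h3, h4⟩
    cases hg : g with
    | none =>
      have e2 : gconf (cleanb (gb D) (gG D)) (gls (none : Option (GData D B hb2 L2 L1 h))) =
          cleanb (gb D) (gG D) := by
        funext x
        unfold gls gconf
        simp only [Option.elim_none, List.not_mem_nil, if_false]
        cases cleanb (gb D) (gG D) x <;> rfl
      subst hg
      rw [e2] at hmono ⊢
      exact hmono L (stretch_cleanb hL) (by omega) (by omega)
    | some g' =>
      subst hg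
      refine hmono (2 * (L1 + (dm κ μ ^ 9 + 1) * L2) + L) ?_ hBd (by omega)
      show Stretch (gb D) (gG D) L (gconf (cleanb (gb D) (gG D)) g'.l) _
      refine stretch_gconf hL g'.hl g'.nodup (by have := g'.len; omega) ?_
      intro a ha
      obtain ⟨t, ht, i, hi⟩ := g'.str a ha
      refine ⟨t, ht, fun q hq => ?_⟩
      rw [← gcb_eq, hi q (by omega) (by omega), Nat.add_assoc (a + t) q 1, hi (q + 1) (by omega) (by omega)]
      exact bpv_next D B (h + q) (by omega)
  uf := by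
    intro w hw
    rw [mk_mem_U] at hw
    obtain ⟨h3, -, h5⟩ := hw
    have h6 : it (gcb D) 1 w ≠ none := fun h => h5 (it_none (by omega) h)
    obtain ⟨u, hu⟩ := Option.ne_none_iff_exists'.1 h6
    have hu' : gcb D w = some u := by
      rw [it_succ_of (it_zero _ w)] at hu
      exact hu
    have h7 : it (gcb D) (L - 1) u ≠ none := by
      intro h
      apply h5
      have := it_add (gcb D) 1 (L - 1) w u hu
      rw [← this] at h
      exact it_none (by omega) h
    have h8 : (D (u ∘ Sum.inr)).1 ≠ 0 ∧ (D (u ∘ Sum.inr)).1 ≠ 1 := by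
      rw [gcb_inr D hu', h3]
      exact ⟨by decide, by decide⟩
    obtain ⟨h9, h10⟩ := run_of_it g hL h8 h7
    refine ⟨u, (mk_mem_Gd nR Vr hb g).2 h9, (gcb_some D hu').2, ?_, h10⟩
    exact gc_res (by rw [h3]; exact ⟨by decide, by decide⟩) hu'
  ub := by
    intro w hw
    rw [mk_mem_U] at hw
    obtain ⟨h3, ⟨u, hu⟩, -⟩ := hw
    have h8 : (D (u ∘ Sum.inr)).1 ≠ 0 ∧ (D (u ∘ Sum.inr)).1 ≠ 1 := by
      rw [← it_gcb_inr hu, h3]
      exact ⟨by decide, by decide⟩
    obtain ⟨h9, h10⟩ := run_of_it g hL h8 (by rw [hu]; simp)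
    exact ⟨u, (mk_mem_Gd nR Vr hb g).2 h9, it_gcb_gb D hu, h10⟩
  pint := by
    intro x hx k hk'
    rw [mk_mem_PS] at hx
    obtain ⟨hx2, hxs⟩ := hx
    set X : {y // y ∈ B.st (D (x ∘ Sum.inr)).2 Vr} := ⟨x ∘ Sum.inl, hxs⟩ with hX
    have e1 := B.pt_spec (D (x ∘ Sum.inr)).2 Vr X ⟨k, by omega⟩
    have e2 := bpv_next D B (l := Vr) (s := x ∘ Sum.inr) (y := X) k hk'
    have e3 : it (gcb D) k x = some (bpv D B Vr (x ∘ Sum.inr) X ⟨k, by omega⟩) := by
      unfold gcb
      rw [it_lft_iff]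
      unfold bpv
      rw [jn_inl, jn_inr]
      exact ⟨e1, rfl⟩
    refine ⟨_, _, it_gcb_gb D e3, (gcb_some D e2).2, ?_⟩
    refine gc_res ?_ e2
    rw [bpv_inr, hx2]
    exact ⟨by decide, by decide⟩
  pU := by
    intro y hy
    obtain ⟨x, hx, k, -, hk'⟩ := hy
    rw [mk_mem_PS] at hx
    have e1 : (D (y ∘ Sum.inr)).1 = 2 := by
      rw [it_gb_inr D hk']
      exact hx.1
    constructor
    · rw [mk_mem_U, e1]
      rintro ⟨h, -⟩
      exact absurd h (by decide)
    · rw [mk_mem_G]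
      intro h
      rcases gls_mem h with h | h <;> rw [e1] at h <;> exact absurd h (by decide)
  pdis := by
    intro x hx x' hx' k hk1 k' hk2 y h2 h3
    rw [mk_mem_PS] at hx hx'
    have h2' : it (gb D) k x = some y := h2
    have h3' : it (gb D) k' x' = some y := h3
    have e1 := it_gb_inr D h2'
    have e2 := it_gb_inr D h3'
    have e3 : x ∘ Sum.inr = x' ∘ Sum.inr := e1.symm.trans e2
    unfold gb at h2' h3'
    rw [it_lft_iff] at h2' h3'
    have hx1 := hx.2
    have hx1' := hx'.2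
    rw [← e3] at hx1'
    set X : {y // y ∈ B.st (D (x ∘ Sum.inr)).2 Vr} := ⟨x ∘ Sum.inl, hx1⟩ with hX
    set X' : {y // y ∈ B.st (D (x ∘ Sum.inr)).2 Vr} := ⟨x' ∘ Sum.inl, hx1'⟩ with hX'
    have f1 := it_cleanb k (B.pt_spec (D (x ∘ Sum.inr)).2 Vr X ⟨k, hk1⟩)
    have f2 := it_cleanb k' (B.pt_spec (D (x ∘ Sum.inr)).2 Vr X' ⟨k', hk2⟩)
    have g1 := h2'.1
    have g2 := h3'.1
    rw [← e3] at g2
    rw [g1] at f1
    rw [g2] at f2
    have f3 := B.pt_inj (D (x ∘ Sum.inr)).2 Vr (a₁ := (X, ⟨k, hk1⟩)) (a₂ := (X', ⟨k', hk2⟩))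
      ((Option.some.inj f1).symm.trans (Option.some.inj f2))
    rw [Prod.mk.injEq, Fin.mk.injEq] at f3
    refine ⟨?_, f3.2⟩
    rw [← jn_self x, ← jn_self x', ← e3]
    have := congrArg Subtype.val f3.1
    simp only [hX, hX'] at this
    rw [this]
  gU := by
    intro y hy
    rw [mk_mem_G] at hy
    rw [mk_mem_U]
    rintro ⟨h3, -⟩
    rcases gls_mem hy with h | h <;> rw [h3] at h <;> exact absurd h (by decide)
  gcyc := by
    intro y hy
    rw [mk_mem_G] at hy
    cases hg : g with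
    | none => subst hg; simp [gls] at hy
    | some g' =>
      subst hg
      obtain ⟨y', hy'⟩ := exists_cnext (l := g'.l) (by have := g'.len; omega) hy
      exact ⟨y', (mk_mem_G nR Vr hb (some g')).2 (cnext_mem hy').2, (gconf_in g'.nodup hy).2 hy'⟩
  gorb := by
    intro y hy y' hy'
    rw [mk_mem_G] at hy hy'
    cases hg : g with
    | none => subst hg; simp [gls] at hy
    | some g' =>
      subst hg
      obtain ⟨a, ha, rfl⟩ := exists_cyc g'.hl hy
      obtain ⟨a', ha', rfl⟩ := exists_cyc g'.hl hy'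
      refine ⟨a' + (g'.l.length - a), ?_⟩
      have := it_gls g' a (a' + (g'.l.length - a))
      have e1 : a + (a' + (g'.l.length - a)) = a' + g'.l.length := by omega
      rw [e1, cyc_add_length] at this
      exact this
  rgd := by
    intro hne i
    cases hg : g with
    | none =>
      subst hg
      obtain ⟨y, hy⟩ := hne
      rw [mk_mem_G] at hy
      simp [gls] at hy
    | some g' =>
      subst hg
      have hk' := hk g' rfl
      have hi : i.val < g'.k ∧ h < L1 := ⟨by have := i.2; omega, by omega⟩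
      have e1 : (mkBD nR Vr hb (some g')).res i = mpv D B (g'.P ⟨i.val, hi.1⟩) ⟨h, hi.2⟩ := by
        show (if hi : i.val < g'.k ∧ h < L1 then mpv D B (g'.P ⟨i.val, hi.1⟩) ⟨h, hi.2⟩ else fun _ => false) = _
        rw [dif_pos hi]
      rw [e1]
      refine ⟨?_, ?_, ?_⟩
      · rw [mk_mem_Gd]
        exact (gcb_some D (bpv_next D B h (by omega))).1
      · rw [mk_mem_G]
        exact (cnext_mem (g'.inner ⟨i.val, hi.1⟩ h le_rfl (by omega) (by omega))).1
      · intro k hk''
        refine ⟨_, _, it_gb_mpv _ h k (by omega), (gcb_some D (bpv_next D B (h + k) (by omega))).2, ?_⟩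
        have := g'.inner ⟨i.val, hi.1⟩ (h + k) (by omega) (by omega) (by omega)
        exact (gc_iff (g := some g')).2 (Or.inl this)
  rdis := by
    intro hne i i' k k' y hkL hk'L h2 h3
    cases hg : g with
    | none =>
      subst hg
      obtain ⟨y, hy⟩ := hne
      rw [mk_mem_G] at hy
      simp [gls] at hy
    | some g' =>
      subst hg
      have hk' := hk g' rfl
      have hres : ∀ i : Fin nR, ∃ hi : i.val < g'.k, (mkBD nR Vr hb (some g')).res i =
          mpv D B (g'.P ⟨i.val, hi⟩) ⟨h, by omega⟩ := by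
        intro i
        have hi : i.val < g'.k ∧ h < L1 := ⟨by have := i.2; omega, by omega⟩
        refine ⟨hi.1, ?_⟩
        show (if hi : i.val < g'.k ∧ h < L1 then mpv D B (g'.P ⟨i.val, hi.1⟩) ⟨h, hi.2⟩ else fun _ => false) = _
        rw [dif_pos hi]
      obtain ⟨hi, e1⟩ := hres i
      obtain ⟨hi', e2⟩ := hres i'
      rw [e1] at h2
      rw [e2] at h3
      have f1 := it_gb_mpv (D := D) (g'.P ⟨i.val, hi⟩) h k (by omega)
      have f2 := it_gb_mpv (D := D) (g'.P ⟨i'.val, hi'⟩) h k' (by omega)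
      have f3 : mpv D B (g'.P ⟨i.val, hi⟩) ⟨h + k, by omega⟩ = mpv D B (g'.P ⟨i'.val, hi'⟩) ⟨h + k', by omega⟩ := by
        have g1 : it (gb D) k (mpv D B (g'.P ⟨i.val, hi⟩) ⟨h, by omega⟩) = some y := h2
        have g2 : it (gb D) k' (mpv D B (g'.P ⟨i'.val, hi'⟩) ⟨h, by omega⟩) = some y := h3
        rw [f1] at g1
        rw [f2] at g2
        exact (Option.some.inj g1).trans (Option.some.inj g2).symm
      have f4 := (gBl D B 1 L1 1 (by norm_num) (by norm_num) (by omega)).mp_inj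
        (a₁ := (g'.P ⟨i.val, hi⟩, ⟨h + k, by omega⟩)) (a₂ := (g'.P ⟨i'.val, hi'⟩, ⟨h + k', by omega⟩)) f3
      rw [Prod.mk.injEq] at f4
      have f5 := g'.P_inj f4.1
      rw [Fin.mk.injEq] at f5
      exact Fin.ext f5

end val

end con

end Pool.Agent.LongCyc.Dense
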