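import Pool.Agent.LongCyc.Dense.BaseTl
import Pool.Agent.LongCyc.Dense.BaseVal

/-!
# Dense regime: blocks of a translated subfibre, covering probability
-/

set_option autoImplicit false
set_option linter.unusedSectionVars false

namespace Pool.Agent.LongCyc.Dense

open Finset BadMassAux BlockDec

section blk

variable {κ : Type} [DecidableEq κ] [Fintype κ] {p1 : ℝ} {h0 : 0 ≤ p1} {h1 : p1 ≤ 1} {L K M1 : ℕ} {ε : ℝ}
  (S : SubLaw κ p1 h0 h1 L K M1 ε)

theorem tl_cs (a : S.tl.Ω) : S.tl.cs a = mpc (tra a.2) (S.cs a.1) := by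
  funext y
  cases h : mpc (tra a.2) (S.cs a.1) y with
  | none =>
    rw [mpc_none] at h
    cases h2 : S.tl.cs a y with
    | none => rfl
    | some v =>
      exfalso
      unfold SubLaw.cs at h2
      rw [cleanb_iff] at h2
      have h3 : S.cs a.1 ((tra a.2).f.symm y) = some ((tra a.2).f.symm v) := by
        unfold SubLaw.cs
        rw [cleanb_iff]
        exact ⟨mem_mpS.1 h2.1, mpc_some.1 h2.2⟩
      rw [h] at h3
      cases h3
  | some v =>
    rw [mpc_some] at h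
    unfold SubLaw.cs at h ⊢
    rw [cleanb_iff] at h ⊢
    exact ⟨mem_mpS.2 h.1, mpc_some.2 h.2⟩

/-- the blocks of the translated subfibre -/
noncomputable def SubLaw.blk : BlkSys S.tl where
  st a l := (stS (S.cs_pinj a.1) l).image (tra a.2).f
  ok := by
    intro a l x hx k hk h
    rw [tl_cs, it_mpc_none] at h
    rw [mem_mpS] at hx
    have := bpt_spec (S.cs_pinj a.1) l ⟨(tra a.2).f.symm x, hx⟩ ⟨k, hk⟩
    simp only at this
    rw [h] at this
    cases this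
  dis := by
    intro a l x x' k k' y hx hx' hk hk' h h'
    rw [tl_cs, it_mpc_some] at h h'
    rw [mem_mpS] at hx hx'
    have e1 := bpt_spec (S.cs_pinj a.1) l ⟨(tra a.2).f.symm x, hx⟩ ⟨k, hk⟩
    have e2 := bpt_spec (S.cs_pinj a.1) l ⟨(tra a.2).f.symm x', hx'⟩ ⟨k', hk'⟩
    simp only at e1 e2
    rw [h] at e1
    rw [h'] at e2
    have e3 := bpt_inj (S.cs_pinj a.1) l
      (a₁ := (⟨(tra a.2).f.symm x, hx⟩, ⟨k, hk⟩)) (a₂ := (⟨(tra a.2).f.symm x', hx'⟩, ⟨k', hk'⟩))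
      ((Option.some.inj e1).symm.trans (Option.some.inj e2))
    rw [Prod.mk.injEq, Subtype.mk.injEq, Fin.mk.injEq] at e3
    exact ⟨(tra a.2).f.symm.injective e3.1, e3.2⟩

theorem mem_cvr {S' : SubLaw κ p1 h0 h1 L K M1 ε} {B : BlkSys S'} {ω : S'.Ω} {l : ℕ} {y : Cube κ} :
    y ∈ cvr B ω l ↔ ∃ x ∈ B.st ω l, ∃ k < l, it (S'.cs ω) k x = some y := by
  unfold cvr
  rw [mem_image]
  constructor
  · rintro ⟨⟨x, i⟩, -, rfl⟩
    exact ⟨x.1, x.2, i.val, i.2, B.pt_spec ω l x i⟩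
  · rintro ⟨x, hx, k, hk, h⟩
    refine ⟨(⟨x, hx⟩, ⟨k, hk⟩), mem_univ _, ?_⟩
    have := B.pt_spec ω l ⟨x, hx⟩ ⟨k, hk⟩
    simp only at this ⊢
    rw [h] at this
    exact (Option.some.inj this).symm

/-- the cover of the untranslated subfibre -/
noncomputable def cov0 (ω : S.Ω) (l : ℕ) : Finset (Cube κ) :=
  univ.image fun q : stS (S.cs_pinj ω) l × Fin l => bpt (S.cs_pinj ω) l q.1 q.2

theorem card_cov0 (ω : S.Ω) (l : ℕ) : (cov0 S ω l).card = (stS (S.cs_pinj ω) l).card * l := by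
  unfold cov0
  rw [card_image_of_injective _ (bpt_inj (S.cs_pinj ω) l), card_univ, Fintype.card_prod, Fintype.card_fin,
    Fintype.card_coe]

theorem mem_cvr_blk {a : S.tl.Ω} {l : ℕ} {y : Cube κ} :
    y ∈ cvr S.blk a l ↔ (tra a.2).f.symm y ∈ cov0 S a.1 l := by
  rw [mem_cvr]
  unfold cov0
  rw [mem_image]
  constructor
  · rintro ⟨x, hx, k, hk, h⟩
    rw [tl_cs, it_mpc_some] at h
    have hx' : (tra a.2).f.symm x ∈ stS (S.cs_pinj a.1) l := mem_mpS.1 hx
    refine ⟨(⟨_, hx'⟩, ⟨k, hk⟩), mem_univ _, ?_⟩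
    have := bpt_spec (S.cs_pinj a.1) l ⟨_, hx'⟩ ⟨k, hk⟩
    simp only at this ⊢
    rw [h] at this
    exact (Option.some.inj this).symm
  · rintro ⟨⟨x, i⟩, -, h⟩
    simp only at h
    refine ⟨(tra a.2).f x.1, mem_image_of_mem _ x.2, i.val, i.2, ?_⟩
    rw [tl_cs, it_mpc_some, Equiv.symm_apply_apply, bpt_spec, h]

/-- expected number of elements of a random set -/
theorem E_card_eq {Ω V : Type*} [Fintype Ω] [Fintype V] [DecidableEq V] (P : FP Ω) (A : Ω → Finset V) :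
    P.E (fun ω => ((A ω).card : ℝ)) = ∑ x, P.pr (fun ω => x ∈ A ω) := by
  classical
  have h : ∀ ω, ((A ω).card : ℝ) = ∑ x : V, if x ∈ A ω then (1 : ℝ) else 0 := by
    intro ω
    rw [← Finset.sum_filter, Finset.sum_const, nsmul_eq_mul, mul_one, Finset.filter_univ_mem]
  rw [FP.E_congr _ h, FP.E_sum]
  exact Finset.sum_congr rfl fun x _ => (P.pr_eq _).symm

theorem E_card_le {Ω V : Type*} [Fintype Ω] [Fintype V] [DecidableEq V] (P : FP Ω) (A : Ω → Finset V) {ε : ℝ}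
    (h : ∀ x, P.pr (fun ω => x ∈ A ω) ≤ ε) : P.E (fun ω => ((A ω).card : ℝ)) ≤ Fintype.card V * ε := by
  rw [E_card_eq]
  refine (Finset.sum_le_sum fun x _ => h x).trans ?_
  rw [Finset.sum_const, Finset.card_univ, nsmul_eq_mul]

theorem le_E_card {Ω V : Type*} [Fintype Ω] [Fintype V] [DecidableEq V] (P : FP Ω) (A : Ω → Finset V) {ε : ℝ}
    (h : ∀ x, ε ≤ P.pr (fun ω => x ∈ A ω)) : Fintype.card V * ε ≤ P.E (fun ω => ((A ω).card : ℝ)) := by
  rw [E_card_eq]
  refine le_trans ?_ (Finset.sum_le_sum fun x _ => h x)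
  rw [Finset.sum_const, Finset.card_univ, nsmul_eq_mul]

/-- where the cleaned map is not defined the start is not good -/
theorem cs_none {S' : SubLaw κ p1 h0 h1 L K M1 ε} (hL : 2 ≤ L) {ω : S'.Ω} {x : Cube κ}
    (h : S'.cs ω x = none) : x ∉ S'.gd ω := by
  intro hx
  have h2 := S'.gdef ω x hx
  have h3 : it (S'.b ω) 1 x ≠ none := fun h4 => h2 (it_none (by omega) h4)
  obtain ⟨y, hy⟩ := Option.ne_none_iff_exists'.1 h3
  rw [it_succ_of (it_zero _ x)] at hy
  have : S'.cs ω x = some y := by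
    unfold SubLaw.cs
    rw [cleanb_iff]
    exact ⟨hx, hy⟩
  rw [h] at this
  cases this

/-- **covering probability** -/
theorem pr_cvr (hL : 2 ≤ L) (hK : 0 < K) (l : ℕ) (hl : 0 < l) (y : Cube κ) :
    1 - l * (2 * ε + 1 / K) ≤ S.tl.P.pr (fun a => y ∈ cvr S.blk a l) := by
  classical
  have hKr : (0 : ℝ) < K := by exact_mod_cast hK
  have hlr : (0 : ℝ) < l := by exact_mod_cast hl
  have h2 : S.tl.P.pr (fun a => y ∈ cvr S.blk a l) =
      S.P.E (fun ω => ((cov0 S ω l).card : ℝ) / 2 ^ Fintype.card κ) := by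
    show (S.P.prod (FP.unif (Cube κ))).pr (fun a => y ∈ cvr S.blk a l) = _
    rw [FP.pr_eq, FP.E_prod]
    refine FP.E_congr _ fun ω => ?_
    rw [← unif_xr (cov0 S ω l) y]
    refine FP.E_congr _ fun t => ?_
    have : y ∈ cvr S.blk (ω, t) l ↔ ∃ a ∈ cov0 S ω l, xr a t = y := by
      rw [mem_cvr_blk, ← Finset.mem_image]
      exact (mem_mpS (a := tra t)).symm
    by_cases h3 : y ∈ cvr S.blk (ω, t) l
    · rw [if_pos h3, if_pos (this.1 h3)]
    · rw [if_neg h3, if_neg (fun h4 => h3 (this.2 h4))]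
  rw [h2]
  have hN : (Fintype.card (Cube κ) : ℝ) = 2 ^ Fintype.card κ := by simp
  set N : ℝ := 2 ^ Fintype.card κ with hNdef
  have hN0 : 0 < N := by positivity
  have h3 : ∀ ω, 1 - l * ((((endS (S.cs ω)).card : ℝ) + ((shortS (S.b ω) K).card : ℝ)) / N + 1 / K) ≤
      ((cov0 S ω l).card : ℝ) / N := by
    intro ω
    have h4 := card_blocks (S.cs_pinj ω) l hl K hK
    have h5 : (shortS (S.cs ω) K).card ≤ (shortS (S.b ω) K).card := by
      refine card_le_card fun x hx => ?_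
      rw [mem_shortS] at hx ⊢
      obtain ⟨k, hk1, hk2, hk3⟩ := hx
      exact ⟨k, hk1, hk2, it_cleanb k hk3⟩
    rw [← card_cov0] at h4
    have h6 : (Fintype.card (Cube κ) : ℝ) ≤ ((cov0 S ω l).card : ℝ) +
        (((endS (S.cs ω)).card : ℝ) + ((shortS (S.cs ω) K).card : ℝ) +
          ((Fintype.card (Cube κ) / K : ℕ) : ℝ)) * l := by exact_mod_cast h4
    rw [hN] at h6
    have h7 : ((Fintype.card (Cube κ) / K : ℕ) : ℝ) ≤ N / K := by
      rw [← hN]
      exact Nat.cast_div_le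
    have h8 : ((shortS (S.cs ω) K).card : ℝ) ≤ ((shortS (S.b ω) K).card : ℝ) := by exact_mod_cast h5
    rw [le_div_iff₀ hN0]
    have h9 : (((endS (S.cs ω)).card : ℝ) + ((shortS (S.cs ω) K).card : ℝ) +
          ((Fintype.card (Cube κ) / K : ℕ) : ℝ)) * l ≤
        (((endS (S.cs ω)).card : ℝ) + ((shortS (S.b ω) K).card : ℝ) + N / K) * l :=
      mul_le_mul_of_nonneg_right (by linarith) hlr.le
    have h10 : (1 - l * ((((endS (S.cs ω)).card : ℝ) + ((shortS (S.b ω) K).card : ℝ)) / N + 1 / K)) * N =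
        N - (((endS (S.cs ω)).card : ℝ) + ((shortS (S.b ω) K).card : ℝ) + N / K) * l := by
      field_simp
    rw [h10]
    linarith
  refine le_trans ?_ (FP.E_mono _ h3)
  have h4 : S.P.E (fun ω => 1 - l * ((((endS (S.cs ω)).card : ℝ) + ((shortS (S.b ω) K).card : ℝ)) / N + 1 / K)) =
      1 - l * ((S.P.E (fun ω => ((endS (S.cs ω)).card : ℝ)) +
        S.P.E (fun ω => ((shortS (S.b ω) K).card : ℝ))) / N + 1 / K) := by
    rw [FP.E_sub, FP.E_const, FP.E_mul_left, FP.E_add, FP.E_const, FP.E_div, FP.E_add]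
  rw [h4]
  have h5 : S.P.E (fun ω => ((endS (S.cs ω)).card : ℝ)) ≤ N * ε := by
    rw [← hN]
    refine E_card_le S.P _ fun x => le_trans (FP.pr_mono _ fun ω h => ?_) (S.gpr x)
    exact cs_none hL (mem_endS.1 h)
  have h6 : S.P.E (fun ω => ((shortS (S.b ω) K).card : ℝ)) ≤ N * ε := by
    rw [← hN]
    exact E_card_le S.P _ S.spr
  have h7 : (S.P.E (fun ω => ((endS (S.cs ω)).card : ℝ)) +
        S.P.E (fun ω => ((shortS (S.b ω) K).card : ℝ))) / N ≤ 2 * ε := by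
    rw [div_le_iff₀ hN0]
    linarith
  have := mul_le_mul_of_nonneg_left h7 hlr.le
  linarith

end blk

end Pool.Agent.LongCyc.Dense
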