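import Mathlib
import Pool.Agent.LongCyc.Dense.BadMass

/-!
# Dense regime: decomposition of a partial injection into paths with exactly `L` vertices
-/

set_option autoImplicit false
set_option linter.unusedSectionVars false

namespace Pool.Agent.LongCyc.Dense

open Finset BadMassAux

namespace BlockDec

variable {V : Type*}

theorem it_zero (c : V → Option V) (x : V) : it c 0 x = some x := rfl

theorem it_some_of_le {c : V → Option V} {x : V} {i j : ℕ} (hij : i ≤ j) {z : V} (h : it c j x = some z) :
    ∃ y, it c i x = some y ∧ it c (j - i) y = some z := by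
  cases hi : it c i x with
  | none => rw [it_none hij hi] at h; cases h
  | some y =>
    refine ⟨y, rfl, ?_⟩
    have := it_add c i (j - i) x y hi
    rw [Nat.add_sub_cancel' hij] at this
    rw [← this, h]

/-- if `c^k x = c^k' x'` with `k ≤ k'` then `x = c^(k'-k) x'` -/
theorem it_cancel {c : V → Option V} (hc : PInj c) {x x' z : V} {k k' : ℕ} (hk : k ≤ k')
    (h : it c k x = some z) (h' : it c k' x' = some z) : it c (k' - k) x' = some x := by
  obtain ⟨y, hy, hy'⟩ := it_some_of_le (Nat.sub_le k' k) h'
  have : k' - (k' - k) = k := by omega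
  rw [this] at hy'
  rw [hy, it_inj hc k hy' h]

/-- infinite orbits are periodic -/
theorem periodic [Fintype V] {c : V → Option V} (hc : PInj c) {x : V} (h : ∀ k, it c k x ≠ none) :
    ∃ p, 1 ≤ p ∧ it c p x = some x := by
  classical
  have h1 : ∀ k, ∃ y, it c k x = some y := fun k => Option.ne_none_iff_exists'.1 (h k)
  choose f hf using h1
  obtain ⟨a, b, hab, hfab⟩ := Finite.exists_ne_map_eq_of_infinite f
  wlog hlt : a < b generalizing a b
  · exact this b a (Ne.symm hab) hfab.symm (by omega)
  refine ⟨b - a, by omega, ?_⟩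
  have := it_cancel hc (le_of_lt hlt) (hf a) (by rw [hf b, hfab])
  exact this

/-- a multiple of the period -/
theorem it_mul {c : V → Option V} {x : V} {p : ℕ} (h : it c p x = some x) (k : ℕ) :
    it c (p * k) x = some x := by
  induction k with
  | zero => rfl
  | succ k ih => rw [Nat.mul_succ, it_add c (p * k) p x x ih, h]

/-- on a periodic orbit the reachability is symmetric -/
theorem back {c : V → Option V} {x z : V} {p k : ℕ} (hp : 1 ≤ p) (h : it c p x = some x)
    (hk : it c k x = some z) : ∃ j, it c j z = some x := by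
  refine ⟨p * k - k, ?_⟩
  have h1 : k ≤ p * k := Nat.le_mul_of_pos_left k (by omega)
  obtain ⟨y, hy, hy'⟩ := it_some_of_le h1 (it_mul h k)
  rw [hk] at hy
  obtain rfl := Option.some.inj hy
  exact hy'

section cut

variable [Fintype V] [DecidableEq V] (c : V → Option V)

/-- minimal point of a periodic orbit -/
def CMin (y : V) : Prop :=
  (∃ p, 1 ≤ p ∧ it c p y = some y) ∧ ∀ k z, it c k y = some z → Fintype.equivFin V y ≤ Fintype.equivFin V z

/-- the set of the last vertices of the components -/
noncomputable def cutS : Finset V := by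
  classical exact univ.filter fun y => c y = none ∨ CMin c y

theorem mem_cutS {y : V} : y ∈ cutS c ↔ c y = none ∨ CMin c y := by
  classical
  unfold cutS
  simp

variable {c}

theorem exists_cut (hc : PInj c) (x : V) : ∃ k y, it c k x = some y ∧ y ∈ cutS c := by
  classical
  by_cases h : ∀ k, it c k x ≠ none
  · obtain ⟨p, hp, hpx⟩ := periodic hc h
    have h1 : ∀ k, ∃ y, it c k x = some y := fun k => Option.ne_none_iff_exists'.1 (h k)
    choose f hf using h1
    set S : Finset V := univ.filter fun y => ∃ k, f k = y with hS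
    have hne : S.Nonempty := ⟨f 0, by rw [hS, mem_filter]; exact ⟨mem_univ _, 0, rfl⟩⟩
    obtain ⟨y, hy, hmin⟩ := exists_min_image S (fun y => Fintype.equivFin V y) hne
    rw [hS, mem_filter] at hy
    obtain ⟨-, k, rfl⟩ := hy
    refine ⟨k, f k, hf k, (mem_cutS c).2 (Or.inr ⟨?_, ?_⟩)⟩
    · obtain ⟨j, hj⟩ := back hp hpx (hf k)
      refine ⟨j + p + k, by omega, ?_⟩
      rw [it_add c (j + p) k (f k) x, hf k]
      rw [it_add c j p (f k) x hj, hpx]
    · intro j z hz
      refine hmin z ?_
      rw [hS, mem_filter]
      refine ⟨mem_univ _, k + j, ?_⟩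
      have h2 := it_add c k j x (f k) (hf k)
      rw [hz, hf] at h2
      exact Option.some.inj h2
  · push Not at h
    obtain ⟨n, hn⟩ := h
    obtain ⟨k, z, -, hk, hz⟩ := exists_last n hn
    exact ⟨k, z, hk, (mem_cutS c).2 (Or.inl hz)⟩

/-- number of steps to the next cut vertex -/
noncomputable def dst (hc : PInj c) (x : V) : ℕ := by
  classical exact Nat.find (exists_cut hc x)

/-- the next cut vertex -/
noncomputable def nct (hc : PInj c) (x : V) : V := by
  classical exact (Nat.find_spec (exists_cut hc x)).choose

theorem dst_spec (hc : PInj c) (x : V) : it c (dst hc x) x = some (nct hc x) ∧ nct hc x ∈ cutS c := by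
  classical
  exact (Nat.find_spec (exists_cut hc x)).choose_spec

theorem dst_min (hc : PInj c) {x y : V} {k : ℕ} (h : it c k x = some y) (hy : y ∈ cutS c) :
    dst hc x ≤ k := by
  classical
  exact Nat.find_le ⟨y, h, hy⟩

theorem dst_step (hc : PInj c) {x y : V} {k : ℕ} (hk : k ≤ dst hc x) (h : it c k x = some y) :
    dst hc y + k = dst hc x ∧ nct hc y = nct hc x := by
  obtain ⟨h1, h2⟩ := dst_spec hc x
  obtain ⟨h3, h4⟩ := dst_spec hc y
  obtain ⟨y', hy', hy''⟩ := it_some_of_le hk h1
  rw [h] at hy'
  obtain rfl := Option.some.inj hy'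
  have h5 : dst hc y ≤ dst hc x - k := dst_min hc hy'' h2
  have h6 : dst hc x ≤ k + dst hc y := by
    apply dst_min hc _ h4
    rw [it_add c k (dst hc y) x y h, h3]
  have h7 : dst hc y + k = dst hc x := by omega
  refine ⟨h7, ?_⟩
  have : dst hc x - k = dst hc y := by omega
  rw [this, h3] at hy''
  exact Option.some.inj hy''

/-- the points where `c` is not defined -/
noncomputable def endS (c : V → Option V) : Finset V := by
  classical exact univ.filter fun x => c x = none

theorem mem_endS {c : V → Option V} {x : V} : x ∈ endS c ↔ c x = none := by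
  classical
  unfold endS; simp

/-- the points on cycles of length less than `K` -/
noncomputable def shortS (c : V → Option V) (K : ℕ) : Finset V := by
  classical exact univ.filter fun x => ∃ k, 1 ≤ k ∧ k < K ∧ it c k x = some x

theorem mem_shortS {c : V → Option V} {K : ℕ} {x : V} :
    x ∈ shortS c K ↔ ∃ k, 1 ≤ k ∧ k < K ∧ it c k x = some x := by
  classical
  unfold shortS; simp

/-- number of minimal points of long cycles -/
theorem card_cutS (hc : PInj c) (K : ℕ) (hK : 0 < K) :
    (cutS c).card ≤ (endS c).card + (shortS c K).card + Fintype.card V / K := by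
  classical
  set A := endS c with hA
  set B := shortS c K with hB
  set M := univ.filter fun x : V => CMin c x ∧ x ∉ B with hM
  have h1 : cutS c ⊆ (A ∪ B) ∪ M := by
    intro y hy
    rw [mem_cutS] at hy
    simp only [mem_union]
    rcases hy with hy | hy
    · exact Or.inl (Or.inl (by rw [hA, mem_endS]; exact hy))
    · by_cases h : y ∈ B
      · exact Or.inl (Or.inr h)
      · exact Or.inr (by rw [hM, mem_filter]; exact ⟨mem_univ _, hy, h⟩)
  have h2 : M.card * K ≤ Fintype.card V := by
    have hf : ∀ q : {x // x ∈ M} × Fin K, ∃ z, it c q.2.val q.1.val = some z := by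
      rintro ⟨⟨y, hy⟩, k⟩
      rw [hM, mem_filter] at hy
      obtain ⟨-, ⟨⟨p, hp, hpy⟩, -⟩, -⟩ := hy
      have h3 : k.val ≤ p * k.val := Nat.le_mul_of_pos_left _ (by omega)
      obtain ⟨z, hz, -⟩ := it_some_of_le h3 (it_mul hpy k.val)
      exact ⟨z, hz⟩
    choose f hf using hf
    have key : ∀ (a b : {x // x ∈ M}) (k k' : Fin K), k.val ≤ k'.val → f (a, k) = f (b, k') → a = b ∧ k = k' := by
      rintro ⟨y, hy⟩ ⟨y', hy'⟩ k k' hkk h
      have g1 := hf (⟨y, hy⟩, k)
      have g2 := hf (⟨y', hy'⟩, k')
      rw [← h] at g2
      simp only at g1 g2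
      have g3 := it_cancel hc hkk g1 g2
      rw [hM, mem_filter] at hy hy'
      obtain ⟨-, ⟨⟨p, hp, hpy⟩, hmin⟩, hnb⟩ := hy
      obtain ⟨-, ⟨⟨p', hp', hpy'⟩, hmin'⟩, hnb'⟩ := hy'
      have g4 := hmin' _ _ g3
      obtain ⟨j, hj⟩ := back hp' hpy' g3
      have g5 := hmin _ _ hj
      have g6 : y = y' := (Fintype.equivFin V).injective (le_antisymm g5 g4)
      subst g6
      have g7 : k'.val - k.val = 0 := by
        by_contra hne
        apply hnb
        rw [hB, mem_shortS]
        exact ⟨k'.val - k.val, by omega, by have := k'.2; omega, g3⟩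
      exact ⟨rfl, Fin.ext (by omega)⟩
    have hinj : Function.Injective f := by
      rintro ⟨a, k⟩ ⟨b, k'⟩ h
      rcases le_total k.val k'.val with hk | hk
      · obtain ⟨e1, e2⟩ := key a b k k' hk h
        rw [e1, e2]
      · obtain ⟨e1, e2⟩ := key b a k' k hk h.symm
        rw [e1, e2]
    have := Fintype.card_le_of_injective f hinj
    simpa using this
  have h3 : M.card ≤ Fintype.card V / K := (Nat.le_div_iff_mul_le hK).2 h2
  have h4 := card_le_card h1
  have h5 := card_union_le (A ∪ B) M
  have h6 := card_union_le A B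
  omega

/-- the starts of the blocks -/
noncomputable def stS (hc : PInj c) (L : ℕ) : Finset V := univ.filter fun x => dst hc x % L + 1 = L

theorem mem_stS (hc : PInj c) (L : ℕ) {x : V} : x ∈ stS hc L ↔ dst hc x % L + 1 = L := by
  unfold stS; simp

/-- the points of the blocks -/
noncomputable def bpt (hc : PInj c) (L : ℕ) (x : stS hc L) (i : Fin L) : V := (it c i.val x.1).getD x.1

theorem bpt_spec (hc : PInj c) (L : ℕ) (x : stS hc L) (i : Fin L) :
    it c i.val x.1 = some (bpt hc L x i) := by
  obtain ⟨x, hx⟩ := x
  unfold bpt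
  rw [mem_stS] at hx
  have h1 : i.val ≤ dst hc x := by
    have := i.2
    have := Nat.mod_le (dst hc x) L
    omega
  obtain ⟨y, hy, -⟩ := it_some_of_le h1 (dst_spec hc x).1
  simp only
  rw [hy]; rfl

theorem dst_bpt (hc : PInj c) (L : ℕ) (x : stS hc L) (i : Fin L) :
    dst hc (bpt hc L x i) + i.val = dst hc x.1 := by
  have h := bpt_spec hc L x i
  refine (dst_step hc ?_ h).1
  have := (mem_stS hc L).1 x.2
  have := i.2
  have := Nat.mod_le (dst hc x.1) L
  omega

theorem bpt_inj (hc : PInj c) (L : ℕ) : Function.Injective fun q : stS hc L × Fin L => bpt hc L q.1 q.2 := by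
  rintro ⟨x, i⟩ ⟨x', i'⟩ h
  simp only at h
  have h1 := dst_bpt hc L x i
  have h2 := dst_bpt hc L x' i'
  have h3 := bpt_spec hc L x i
  have h4 := bpt_spec hc L x' i'
  rw [h] at h1 h3
  have hx := (mem_stS hc L).1 x.2
  have hx' := (mem_stS hc L).1 x'.2
  have hi := i.2
  have hi' := i'.2
  have h5 : i.val = i'.val := by
    have e1 : (dst hc (bpt hc L x' i') + i.val) % L + 1 = L := by rw [h1]; exact hx
    have e2 : (dst hc (bpt hc L x' i') + i'.val) % L + 1 = L := by rw [h2]; exact hx'
    have e3 : (dst hc (bpt hc L x' i') + i.val) ≡ (dst hc (bpt hc L x' i') + i'.val) [MOD L] := by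
      unfold Nat.ModEq; omega
    have e4 := Nat.ModEq.add_left_cancel' _ e3
    exact Nat.ModEq.eq_of_lt_of_lt e4 hi hi'
  have h6 : i = i' := Fin.ext h5
  subst h6
  have h7 := it_inj hc i.val h3 h4
  rw [Prod.mk.injEq]
  exact ⟨Subtype.ext h7, rfl⟩

/-- **decomposition into blocks**: all but few points are covered -/
theorem card_blocks (hc : PInj c) (L : ℕ) (hL : 0 < L) (K : ℕ) (hK : 0 < K) :
    Fintype.card V ≤ (stS hc L).card * L +
      ((endS c).card + (shortS c K).card + Fintype.card V / K) * L := by
  classical
  set U : Finset V := univ.filter fun z => ∀ x i, bpt hc L x i ≠ z with hU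
  have h1 : U.card ≤ (cutS c).card * L := by
    have h2 : U.card ≤ ((cutS c) ×ˢ (range L)).card := by
      refine card_le_card_of_injOn (fun z => (nct hc z, dst hc z % L)) ?_ ?_
      · intro z _
        simp only [coe_product, Set.mem_prod, mem_coe, mem_range]
        exact ⟨(dst_spec hc z).2, Nat.mod_lt _ hL⟩
      · have key : ∀ z z', z ∈ U → nct hc z = nct hc z' → dst hc z % L = dst hc z' % L →
            dst hc z ≤ dst hc z' → z = z' := by
          intro z z' hz h3 h4 h5
          have g1 := (dst_spec hc z).1
          have g2 := (dst_spec hc z').1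
          rw [← h3] at g2
          have g3 := it_cancel hc h5 g1 g2
          rcases Nat.eq_or_lt_of_le h5 with h6 | h6
          · rw [h6, Nat.sub_self] at g3
            exact (Option.some.inj g3).symm
          · exfalso
            -- the distance is at least `L`
            have h7 : L ≤ dst hc z' - dst hc z := by
              have h8 : dst hc z ≡ dst hc z' [MOD L] := h4
              have h9 := (Nat.modEq_iff_dvd' h5).1 h8
              exact Nat.le_of_dvd (by omega) h9
            set j := L - 1 - dst hc z % L with hj
            have hjL : j < L := by omega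
            have hjle : j ≤ dst hc z' - dst hc z := by omega
            obtain ⟨x, hx, hx'⟩ := it_some_of_le (Nat.sub_le (dst hc z' - dst hc z) j) g3
            have e1 : dst hc z' - dst hc z - (dst hc z' - dst hc z - j) = j := by omega
            rw [e1] at hx'
            have e2 := (dst_step hc (by omega : dst hc z' - dst hc z - j ≤ dst hc z') hx).1
            have e3 : dst hc x = dst hc z + j := by omega
            have e4 : x ∈ stS hc L := by
              rw [mem_stS, e3]
              have e5 := Nat.mod_lt (dst hc z) hL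
              have e6 : (dst hc z + j) % L = L - 1 := by
                have e7 : dst hc z + j = L * (dst hc z / L) + (dst hc z % L + j) := by
                  have := Nat.div_add_mod (dst hc z) L
                  omega
                rw [e7, Nat.mul_add_mod]
                rw [Nat.mod_eq_of_lt (by omega)]
                omega
              omega
            have e5 := bpt_spec hc L ⟨x, e4⟩ ⟨j, hjL⟩
            simp only at e5
            rw [hx'] at e5
            rw [hU, mem_filter] at hz
            exact hz.2 ⟨x, e4⟩ ⟨j, hjL⟩ (Option.some.inj e5).symm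
        intro z hz z' hz' h
        simp only [Prod.mk.injEq] at h
        rcases le_total (dst hc z) (dst hc z') with h5 | h5
        · exact key z z' hz h.1 h.2 h5
        · exact (key z' z hz' h.1.symm h.2.symm h5).symm
    rw [card_product, card_range] at h2
    exact h2
  have h2 : Fintype.card V ≤ (stS hc L).card * L + U.card := by
    have h3 : (univ : Finset V) ⊆ (univ.image fun q : stS hc L × Fin L => bpt hc L q.1 q.2) ∪ U := by
      intro z _
      rw [mem_union]
      by_cases h : ∀ x i, bpt hc L x i ≠ z
      · exact Or.inr (by rw [hU, mem_filter]; exact ⟨mem_univ _, h⟩)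
      · push Not at h
        obtain ⟨x, i, hxi⟩ := h
        exact Or.inl (mem_image.2 ⟨(x, i), mem_univ _, hxi⟩)
    have h4 := (card_le_card h3).trans (card_union_le _ _)
    have h5 : (univ.image fun q : stS hc L × Fin L => bpt hc L q.1 q.2).card = (stS hc L).card * L := by
      rw [card_image_of_injective _ (bpt_inj hc L), card_univ, Fintype.card_prod, Fintype.card_fin,
        Fintype.card_coe]
    rw [h5, card_univ] at h4
    exact h4
  have h3 : (cutS c).card * L ≤ ((endS c).card + (shortS c K).card + Fintype.card V / K) * L :=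
    Nat.mul_le_mul_right _ (card_cutS hc K hK)
  omega

theorem bpt_next (hc : PInj c) (L : ℕ) (x : stS hc L) (i : ℕ) (hi : i + 1 < L) :
    c (bpt hc L x ⟨i, by omega⟩) = some (bpt hc L x ⟨i + 1, hi⟩) := by
  have h1 := bpt_spec hc L x ⟨i, by omega⟩
  have h2 := bpt_spec hc L x ⟨i + 1, hi⟩
  simp only at h1 h2
  rw [← it_succ_of h1, h2]

end cut

end BlockDec

end Pool.Agent.LongCyc.Dense
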