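import Mathlib
import Pool.Agent.LongCyc.Dense.Defs

set_option autoImplicit false

namespace Pool.Agent.LongCyc.Dense

open Finset

variable {V : Type*}

theorem cnext_iff {l : List V} {x y : V} : CNext l x y ↔ ∃ r, l ~r (x :: y :: r) := by
  constructor
  · rintro (⟨s, t, rfl⟩ | ⟨s, rfl⟩)
    · exact ⟨t ++ s, by simpa using (List.isRotated_append (l := s) (l' := x :: y :: t))⟩
    · exact ⟨s, by simpa using (List.isRotated_append (l := y :: s) (l' := [x]))⟩
  · rintro ⟨r, h⟩
    obtain ⟨n, hn, he⟩ := List.isRotated_iff_mod.1 h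
    rw [List.rotate_eq_drop_append_take hn] at he
    set v := l.drop n with hv
    set u := l.take n with hu
    have hl : l = u ++ v := (List.take_append_drop n l).symm
    match v, he with
    | [], he =>
      left
      refine ⟨[], r, ?_⟩
      rw [hl]
      simpa using he
    | [a], he =>
      right
      simp only [List.cons_append, List.nil_append, List.cons.injEq] at he
      exact ⟨r, by rw [hl, he.1, he.2]⟩
    | a :: b :: v', he =>
      left
      simp only [List.cons_append, List.cons.injEq] at he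
      exact ⟨u, v', by rw [hl, he.1, he.2.1]⟩

theorem cnext_rot {l l' : List V} (h : l ~r l') {x y : V} : CNext l x y ↔ CNext l' x y := by
  rw [cnext_iff, cnext_iff]
  exact ⟨fun ⟨r, hr⟩ => ⟨r, h.symm.trans hr⟩, fun ⟨r, hr⟩ => ⟨r, h.trans hr⟩⟩

theorem cadj_rot {l l' : List V} (h : l ~r l') {x y : V} : CAdj l x y ↔ CAdj l' x y := by
  rw [CAdj, CAdj, cnext_rot h, cnext_rot h]

theorem cnext_rev_of {l : List V} {x y : V} (h : CNext l x y) : CNext l.reverse y x := by
  rw [cnext_iff] at h ⊢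
  obtain ⟨r, hr⟩ := h
  refine ⟨r.reverse, hr.reverse.trans ?_⟩
  have : (x :: y :: r).reverse = r.reverse ++ [y, x] := by simp
  rw [this]
  exact List.isRotated_append

theorem cnext_rev {l : List V} {x y : V} : CNext l.reverse x y ↔ CNext l y x :=
  ⟨fun h => by simpa using cnext_rev_of h, cnext_rev_of⟩

theorem cadj_rev {l : List V} {x y : V} : CAdj l.reverse x y ↔ CAdj l x y := by
  rw [CAdj, CAdj, cnext_rev, cnext_rev, or_comm]

theorem IsCyc.rot {A : V → V → Prop} {l l' : List V} (hc : IsCyc A l) (h : l ~r l') : IsCyc A l' :=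
  ⟨h.nodup_iff.1 hc.nodup, by rw [← h.perm.length_eq]; exact hc.len,
    fun x y hxy => hc.adj x y ((cnext_rot h).2 hxy)⟩

theorem IsCyc.rev {A : V → V → Prop} (hA : ∀ x y, A x y → A y x) {l : List V} (hc : IsCyc A l) :
    IsCyc A l.reverse :=
  ⟨List.nodup_reverse.2 hc.nodup, by rw [List.length_reverse]; exact hc.len,
    fun x y hxy => hA _ _ (hc.adj y x (cnext_rev.1 hxy))⟩

/-- normal form of a cyclic list with respect to an edge -/
theorem normal {A : V → V → Prop} (hA : ∀ x y, A x y → A y x) {l : List V} (hc : IsCyc A l)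
    {a b : V} (h : CAdj l a b) :
    ∃ s : List V, IsCyc A (a :: s ++ [b]) ∧ (∀ v, v ∈ a :: s ++ [b] ↔ v ∈ l) ∧
      (a :: s ++ [b]).length = l.length ∧ ∀ u v, CAdj l u v → CAdj (a :: s ++ [b]) u v := by
  have key : ∀ l : List V, IsCyc A l → CNext l b a →
      ∃ s : List V, IsCyc A (a :: s ++ [b]) ∧ (∀ v, v ∈ a :: s ++ [b] ↔ v ∈ l) ∧
      (a :: s ++ [b]).length = l.length ∧ ∀ u v, CAdj l u v → CAdj (a :: s ++ [b]) u v := by
    intro l hc h
    obtain ⟨r, hr⟩ := cnext_iff.1 h
    have h2 : l ~r (a :: r ++ [b]) := hr.trans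
      (by simpa using (List.isRotated_append (l := [b]) (l' := a :: r)))
    exact ⟨r, hc.rot h2, fun v => (h2.perm.mem_iff).symm, h2.perm.length_eq.symm,
      fun u v huv => (cadj_rot h2).1 huv⟩
  rcases h with h | h
  · obtain ⟨s, h1, h2, h3, h4⟩ := key l.reverse (hc.rev hA) (cnext_rev.2 h)
    exact ⟨s, h1, fun v => (h2 v).trans List.mem_reverse, h3.trans List.length_reverse,
      fun u v huv => h4 u v (cadj_rev.2 huv)⟩
  · exact key l hc h

theorem cnext_append {R1 R2 : List V} {a b : V} (h : CNext (R1 ++ R2) a b) :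
    (∃ s t, R1 = s ++ a :: b :: t) ∨ (∃ s t, R2 = s ++ a :: b :: t) ∨
      ((∃ s, R1 = s ++ [a]) ∧ ∃ t, R2 = b :: t) ∨ (∃ s, R1 ++ R2 = b :: s ++ [a]) := by
  rcases h with ⟨s, t, h⟩ | ⟨s, h⟩
  · rcases List.append_eq_append_iff.1 h with ⟨c, h1, h2⟩ | ⟨c, h1, h2⟩
    · exact Or.inr (Or.inl ⟨c, t, h2⟩)
    · match c, h1, h2 with
      | [], _, h2 => exact Or.inr (Or.inl ⟨[], t, by simpa using h2.symm⟩)
      | [d], h1, h2 =>
        simp only [List.cons_append, List.nil_append, List.cons.injEq] at h2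
        obtain ⟨rfl, h2⟩ := h2
        exact Or.inr (Or.inr (Or.inl ⟨⟨s, h1⟩, t, h2.symm⟩))
      | d :: e :: c, h1, h2 =>
        simp only [List.cons_append, List.cons.injEq] at h2
        obtain ⟨rfl, rfl, _⟩ := h2
        exact Or.inl ⟨s, c, h1⟩
  · exact Or.inr (Or.inr (Or.inr ⟨s, h⟩))

theorem last_inj {s t : List V} {a b : V} (h : s ++ [a] = t ++ [b]) : a = b := by
  have := congrArg List.getLast? h
  simpa using this

theorem cadj_append_left {R1 R2 : List V} {s : List V} {y y' : V} (hR : R1 = y' :: s ++ [y]) {a b : V}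
    (h : CAdj R1 a b) (h1 : ¬(a = y ∧ b = y')) (h2 : ¬(a = y' ∧ b = y)) : CAdj (R1 ++ R2) a b := by
  rcases h with (⟨s1, t1, h⟩ | ⟨s1, h⟩) | (⟨s1, t1, h⟩ | ⟨s1, h⟩)
  · exact Or.inl (Or.inl ⟨s1, t1 ++ R2, by rw [h]; simp⟩)
  · rw [hR] at h
    exact absurd ⟨(last_inj h).symm, (List.cons.inj h).1.symm⟩ h1
  · exact Or.inr (Or.inl ⟨s1, t1 ++ R2, by rw [h]; simp⟩)
  · rw [hR] at h
    exact absurd ⟨(List.cons.inj h).1.symm, (last_inj h).symm⟩ h2

theorem cadj_append_right {R1 R2 : List V} {s : List V} {x x' : V} (hR : R2 = x :: s ++ [x']) {a b : V}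
    (h : CAdj R2 a b) (h1 : ¬(a = x ∧ b = x')) (h2 : ¬(a = x' ∧ b = x)) : CAdj (R1 ++ R2) a b := by
  rcases h with (⟨s1, t1, h⟩ | ⟨s1, h⟩) | (⟨s1, t1, h⟩ | ⟨s1, h⟩)
  · exact Or.inl (Or.inl ⟨R1 ++ s1, t1, by rw [h]; simp⟩)
  · rw [hR] at h
    exact absurd ⟨(last_inj h).symm, (List.cons.inj h).1.symm⟩ h2
  · exact Or.inr (Or.inl ⟨R1 ++ s1, t1, by rw [h]; simp⟩)
  · rw [hR] at h
    exact absurd ⟨(List.cons.inj h).1.symm, (last_inj h).symm⟩ h1

/-- **flip**: the edge `x x'` of the cycle `l2` and the edge `y y'` of the cycle `l1` are replaced by `x y`, `x' y'` -/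
theorem merge_two {A : V → V → Prop} (hA : ∀ x y, A x y → A y x) {l1 l2 : List V}
    (h1 : IsCyc A l1) (h2 : IsCyc A l2) (hd : List.Disjoint l1 l2) {x x' y y' : V}
    (hy : CAdj l1 y y') (hx : CAdj l2 x x') (hxy : A x y) (hxy' : A x' y') :
    ∃ l : List V, IsCyc A l ∧ (∀ v, v ∈ l ↔ v ∈ l1 ∨ v ∈ l2) ∧ l.length = l1.length + l2.length ∧
      (∀ a b, CAdj l1 a b → ¬(a = y ∧ b = y') → ¬(a = y' ∧ b = y) → CAdj l a b) ∧
      (∀ a b, CAdj l2 a b → ¬(a = x ∧ b = x') → ¬(a = x' ∧ b = x) → CAdj l a b) := by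
  obtain ⟨s1, c1, m1, n1, a1⟩ := normal hA h1 (a := y') (b := y) (Or.symm hy)
  obtain ⟨s2, c2, m2, n2, a2⟩ := normal hA h2 hx
  generalize hR1 : y' :: s1 ++ [y] = R1 at c1 m1 n1 a1
  generalize hR2 : x :: s2 ++ [x'] = R2 at c2 m2 n2 a2
  refine ⟨R1 ++ R2, ⟨?_, ?_, ?_⟩, ?_, ?_, ?_, ?_⟩
  · refine List.Nodup.append c1.nodup c2.nodup fun v hv1 hv2 => hd ((m1 v).1 hv1) ((m2 v).1 hv2)
  · rw [List.length_append]
    have := c1.len
    omega
  · intro a b h
    rcases cnext_append h with ⟨s, t, h⟩ | ⟨s, t, h⟩ | ⟨⟨s, h3⟩, t, h4⟩ | ⟨s, h⟩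
    · exact c1.adj a b (Or.inl ⟨s, t, h⟩)
    · exact c2.adj a b (Or.inl ⟨s, t, h⟩)
    · rw [← hR1] at h3
      rw [← hR2] at h4
      rw [← last_inj h3, ← (List.cons.inj h4).1]
      exact hA _ _ hxy
    · rw [← hR1, ← hR2] at h
      have e1 : y' = b := (List.cons.inj h).1
      have e2 : x' = a := by
        have h' : (y' :: s1 ++ [y] ++ x :: s2) ++ [x'] = (b :: s) ++ [a] := by simpa using h
        exact last_inj h'
      rw [← e1, ← e2]
      exact hxy'
  · intro v
    rw [List.mem_append, m1, m2]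
  · rw [List.length_append, n1, n2]
  · intro a b h h3 h4
    exact cadj_append_left hR1.symm (a1 a b h) h3 h4
  · intro a b h h3 h4
    exact cadj_append_right hR2.symm (a2 a b h) h3 h4

/-- **merging along a tree**: `par i` is the parent of `i ≠ root`, `rk` strictly decreases towards the root; the flip of `i`
uses the edge `x i, x' i` of the cycle `L i` and the edge `y i, y' i` of the cycle `L (par i)`; all these edges are different. -/
theorem merge_tree {I : Type*} [Fintype I] {A : V → V → Prop} (hA : ∀ x y, A x y → A y x)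
    (L : I → List V) (hL : ∀ i, IsCyc A (L i)) (hdis : ∀ i j, i ≠ j → List.Disjoint (L i) (L j))
    (root : I) (par : I → I) (rk : I → ℕ) (hrk : ∀ i, i ≠ root → rk (par i) < rk i)
    (x x' y y' : I → V)
    (hx : ∀ i, i ≠ root → CAdj (L i) (x i) (x' i)) (hy : ∀ i, i ≠ root → CAdj (L (par i)) (y i) (y' i))
    (hxy : ∀ i, i ≠ root → A (x i) (y i) ∧ A (x' i) (y' i))
    (hyy : ∀ i j, i ≠ root → j ≠ root → i ≠ j → s(y i, y' i) ≠ s(y j, y' j))
    (hxy' : ∀ i j, i ≠ root → j ≠ root → s(x i, x' i) ≠ s(y j, y' j)) :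
    ∃ l : List V, IsCyc A l ∧ (∀ v, v ∈ l ↔ ∃ i, v ∈ L i) := by
  classical
  have key : ∀ n : ℕ, n < Fintype.card I → ∃ S : Finset I, S.card = n + 1 ∧ root ∈ S ∧
      (∀ i ∈ S, i ≠ root → par i ∈ S) ∧
      ∃ l : List V, IsCyc A l ∧ (∀ v, v ∈ l ↔ ∃ i ∈ S, v ∈ L i) ∧
        ∀ j, j ∉ S → par j ∈ S → CAdj l (y j) (y' j) := by
    intro n
    induction n with
    | zero =>
      intro _
      refine ⟨{root}, by simp, by simp, fun i hi hi' => absurd (mem_singleton.1 hi) hi',
        L root, hL root, fun v => by simp, fun j hj hpj => ?_⟩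
      have hj' : j ≠ root := fun e => hj (by simp [e])
      have := hy j hj'
      rwa [mem_singleton.1 hpj] at this
    | succ n ih =>
      intro hn
      obtain ⟨S, hScard, hroot, hpar, l, hl, hmem, hedge⟩ := ih (by omega)
      have hne : (univ \ S).Nonempty := by
        rw [← card_pos, card_sdiff_of_subset (subset_univ S), hScard, card_univ]
        omega
      obtain ⟨i, hi, hmin⟩ := exists_min_image (univ \ S) rk hne
      have hiS : i ∉ S := (mem_sdiff.1 hi).2
      have hir : i ≠ root := fun e => hiS (e ▸ hroot)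
      have hpi : par i ∈ S := by
        by_contra hp
        exact absurd (hmin (par i) (by simp [hp])) (not_le.2 (hrk i hir))
      have hd : List.Disjoint l (L i) := by
        intro v hv hv'
        obtain ⟨k, hk, hvk⟩ := (hmem v).1 hv
        exact hdis k i (fun e => hiS (e ▸ hk)) hvk hv'
      obtain ⟨l', hl', hmem', _, ha1, ha2⟩ := merge_two hA hl (hL i) hd (hedge i hiS hpi) (hx i hir)
        (hxy i hir).1 (hxy i hir).2
      refine ⟨insert i S, by rw [card_insert_of_notMem hiS, hScard], mem_insert_of_mem hroot, ?_,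
        l', hl', ?_, ?_⟩
      · intro j hj hjr
        rcases mem_insert.1 hj with rfl | hj
        · exact mem_insert_of_mem hpi
        · exact mem_insert_of_mem (hpar j hj hjr)
      · intro v
        rw [hmem', hmem]
        constructor
        · rintro (⟨k, hk, hv⟩ | hv)
          · exact ⟨k, mem_insert_of_mem hk, hv⟩
          · exact ⟨i, mem_insert_self _ _, hv⟩
        · rintro ⟨k, hk, hv⟩
          rcases mem_insert.1 hk with rfl | hk
          · exact Or.inr hv
          · exact Or.inl ⟨k, hk, hv⟩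
      · intro j hj hpj
        have hjS : j ∉ S := fun h => hj (mem_insert_of_mem h)
        have hji : j ≠ i := fun h => hj (h ▸ mem_insert_self _ _)
        have hjr : j ≠ root := fun h => hjS (h ▸ hroot)
        rcases mem_insert.1 hpj with hpj | hpj
        · have h1 := hy j hjr
          rw [hpj] at h1
          have hne := hxy' i j hir hjr
          exact ha2 _ _ h1 (fun h => hne (by rw [h.1, h.2])) (fun h => hne (by
            rw [h.1, h.2]; exact Sym2.eq_swap))
        · have hne := hyy i j hir hjr hji.symm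
          exact ha1 _ _ (hedge j hjS hpj) (fun h => hne (by rw [h.1, h.2])) (fun h => hne (by
            rw [h.1, h.2]; exact Sym2.eq_swap))
  have hpos : 0 < Fintype.card I := Fintype.card_pos_iff.2 ⟨root⟩
  obtain ⟨S, hS, _, _, l, hl, hmem, _⟩ := key (Fintype.card I - 1) (by omega)
  have hSu : S = univ := (card_eq_iff_eq_univ S).1 (by omega)
  refine ⟨l, hl, fun v => ?_⟩
  rw [hmem, hSu]
  simp

end Pool.Agent.LongCyc.Dense
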