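import Mathlib
import Pool.Agent.LongCyc.Giant
import Pool.Agent.LongCyc.Dense.Flip

/-!
# Dense regime: the giant cycle with more information on its structure
-/

set_option autoImplicit false
set_option linter.unusedSectionVars false

namespace Pool.Agent.LongCyc.Dense

open Finset

/-- cyclically consecutive in terms of positions -/
theorem cnext_pos {α : Type*} {l : List α} {x y : α} :
    CNext l x y ↔ 2 ≤ l.length ∧ ∃ i : ℕ, ∃ h : i < l.length, l[i] = x ∧
      l[(i + 1) % l.length]'(Nat.mod_lt _ (by omega)) = y := by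
  constructor
  · rintro (⟨s, t, rfl⟩ | ⟨s, rfl⟩)
    · refine ⟨by simp; omega, s.length, by simp, by simp, ?_⟩
      have h1 : (s.length + 1) % (s ++ x :: y :: t).length = s.length + 1 := by
        apply Nat.mod_eq_of_lt
        simp
      simp only [h1]
      rw [List.getElem_append_right (by omega)]
      simp
    · refine ⟨by simp, s.length + 1, by simp, ?_, ?_⟩
      · rw [List.getElem_append_right (by simp)]
        simp
      · have h1 : (s.length + 1 + 1) % (y :: s ++ [x]).length = 0 := by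
          simp
        simp only [h1]
        simp
  · rintro ⟨h2, i, h, rfl, rfl⟩
    by_cases hi : i + 1 < l.length
    · left
      refine ⟨l.take i, l.drop (i + 2), ?_⟩
      have e1 : (i + 1) % l.length = i + 1 := Nat.mod_eq_of_lt hi
      simp only [e1]
      conv_lhs => rw [← List.take_append_drop i l]
      rw [List.drop_eq_getElem_cons h, List.drop_eq_getElem_cons hi]
    · right
      have hi' : i + 1 = l.length := by omega
      have e1 : (i + 1) % l.length = 0 := by rw [hi', Nat.mod_self]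
      simp only [e1]
      match l, h2 with
      | a :: l', h2 =>
        simp only [List.length_cons] at hi' h h2
        have hi0 : i = l'.length := by omega
        subst hi0
        have hl' : l' ≠ [] := by
          rintro rfl; simp at h2
        refine ⟨l'.dropLast, ?_⟩
        simp only [List.getElem_cons_zero, List.cons_append, List.cons.injEq, true_and]
        have : (a :: l')[l'.length] = l'.getLast hl' := by
          rw [List.getLast_eq_getElem]
          rw [List.getElem_cons]
          rw [dif_neg (by omega)]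
        rw [this, List.dropLast_append_getLast]

/-- `l[i % length]` -/
def cyc {α : Type*} (l : List α) (hl : l ≠ []) (i : ℕ) : α :=
  l[i % l.length]'(Nat.mod_lt _ (List.length_pos_iff.2 hl))

theorem cyc_mem {α : Type*} {l : List α} (hl : l ≠ []) (i : ℕ) : cyc l hl i ∈ l := List.getElem_mem _

theorem exists_cyc {α : Type*} {l : List α} (hl : l ≠ []) {x : α} (hx : x ∈ l) :
    ∃ i, i < l.length ∧ cyc l hl i = x := by
  obtain ⟨i, hi, rfl⟩ := List.mem_iff_getElem.1 hx
  refine ⟨i, hi, ?_⟩
  unfold cyc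
  simp only [Nat.mod_eq_of_lt hi]

theorem cyc_add_length {α : Type*} {l : List α} (hl : l ≠ []) (i : ℕ) :
    cyc l hl (i + l.length) = cyc l hl i := by
  unfold cyc
  simp only [Nat.add_mod_right]

theorem cyc_next {α : Type*} {l : List α} (hl : l ≠ []) (h2 : 2 ≤ l.length) (i : ℕ) :
    CNext l (cyc l hl i) (cyc l hl (i + 1)) := by
  rw [cnext_pos]
  refine ⟨h2, i % l.length, Nat.mod_lt _ (by omega), rfl, ?_⟩
  unfold cyc
  simp only [Nat.mod_add_mod]

theorem cnext_iff_cyc {α : Type*} {l : List α} (hl : l ≠ []) {x y : α} :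
    CNext l x y ↔ 2 ≤ l.length ∧ ∃ i, i < l.length ∧ cyc l hl i = x ∧ cyc l hl (i + 1) = y := by
  constructor
  · intro h
    rw [cnext_pos] at h
    obtain ⟨h2, i, hi, h3, h4⟩ := h
    refine ⟨h2, i, hi, ?_, ?_⟩
    · unfold cyc
      simp only [Nat.mod_eq_of_lt hi]
      exact h3
    · unfold cyc
      exact h4
  · rintro ⟨h2, i, _, rfl, rfl⟩
    exact cyc_next hl h2 i

theorem cyc_inj {α : Type*} {l : List α} (hl : l ≠ []) (hnd : l.Nodup) {i j : ℕ}
    (h : cyc l hl i = cyc l hl j) : i % l.length = j % l.length := by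
  unfold cyc at h
  exact (List.Nodup.getElem_inj_iff hnd).1 h

variable {ι : Type*} [DecidableEq ι] [Fintype ι]

/-- the segment of a path between two indices -/
theorem seg_list {α : Type*} {L : ℕ} (f : Fin L → α) (hf : Function.Injective f) (R : α → α → Prop)
    (hR : ∀ (i : ℕ) (hi : i + 1 < L), R (f ⟨i, by omega⟩) (f ⟨i + 1, hi⟩)) (c e : ℕ) (hce : c ≤ e)
    (he : e < L) :
    ∃ (l : List α) (hl : l ≠ []), l.Nodup ∧ l.length = e - c + 1 ∧
      l.head hl = f ⟨c, by omega⟩ ∧ l.getLast hl = f ⟨e, he⟩ ∧ l.IsChain R ∧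
      (∀ x ∈ l, ∃ i : Fin L, c ≤ i.val ∧ i.val ≤ e ∧ x = f i) ∧
      ∀ q (hq : q < l.length) (hq' : c + q < L), l[q] = f ⟨c + q, hq'⟩ := by
  set g : Fin (e - c + 1) → α := fun q => f ⟨c + q.val, by have := q.2; omega⟩ with hg
  have hl : List.ofFn g ≠ [] := by simp
  refine ⟨List.ofFn g, hl, ?_, by simp, ?_, ?_, ?_, ?_, ?_⟩
  · rw [List.nodup_ofFn]
    intro a b hab
    have := hf hab
    simp only [Fin.mk.injEq] at this
    exact Fin.ext (by omega)
  · rw [List.head_ofFn]
    simp [hg]
  · rw [List.getLast_ofFn]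
    simp only [hg]
    congr 1
    apply Fin.ext
    simp only
    omega
  · rw [List.isChain_iff_getElem]
    intro i hi
    simp only [List.length_ofFn] at hi
    simp only [List.getElem_ofFn, hg]
    exact hR (c + i) (by omega)
  · intro x hx
    rw [List.mem_ofFn] at hx
    obtain ⟨q, rfl⟩ := hx
    exact ⟨⟨c + q.val, by have := q.2; omega⟩, by simp, by have := q.2; simp; omega, rfl⟩
  · intro q hq hq'
    rw [List.getElem_ofFn]

theorem split_pair {α : Type*} (u : List α) (i : ℕ) (hi : i + 1 < u.length) :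
    ∃ s t, u = s ++ u[i] :: u[i + 1] :: t := by
  refine ⟨u.take i, u.drop (i + 2), ?_⟩
  conv_lhs => rw [← List.take_append_drop i u]
  rw [List.drop_eq_getElem_cons (by omega), List.drop_eq_getElem_cons hi]

/-- position arithmetic in a flattened list -/
theorem flat_pos {α : Type*} (M : ℕ) : ∀ (LL : List (List α)), (∀ l ∈ LL, l.length ≤ M) →
    ∀ a, a < LL.flatten.length → ∃ t ≤ M, ∃ s1 s2 : List (List α), LL = s1 ++ s2 ∧
      a + t = s1.flatten.length := by
  intro LL
  induction LL with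
  | nil => intro _ a ha; simp at ha
  | cons l LL ih =>
    intro hM a ha
    rw [List.flatten_cons, List.length_append] at ha
    by_cases h : a < l.length
    · refine ⟨l.length - a, by have := hM l (by simp); omega, [l], LL, by simp, by simp; omega⟩
    · obtain ⟨t, ht, s1, s2, h1, h2⟩ := ih (fun l' hl' => hM l' (by simp [hl'])) (a - l.length) (by omega)
      refine ⟨t, ht, l :: s1, s2, by simp [h1], ?_⟩
      rw [List.flatten_cons, List.length_append]
      omega

/-- infix pairs are cyclically consecutive -/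
theorem cnext_of_infix {α : Type*} {l s t u : List α} {x y : α} (hu : u = s ++ x :: y :: t) (h : u <:+: l) :
    CNext l x y := by
  obtain ⟨a, b, rfl⟩ := h
  subst hu
  exact Or.inl ⟨a ++ s, t ++ b, by simp⟩

/-- cyclic sequence of lists, flattened -/
theorem asm_flat' {α : Type*} (R : α → α → Prop) (Q : α → α → Prop) (hQR : ∀ x y, Q x y → R x y)
    (k : ℕ) [NeZero k] (B : Fin k → List α)
    (hne : ∀ i, B i ≠ []) (hnd : ∀ i, (B i).Nodup) (hdj : ∀ i j, i ≠ j → List.Disjoint (B i) (B j))
    (hch : ∀ i, (B i).IsChain R) (hQ : ∀ i, Q ((B i).getLast (hne i)) ((B (i + 1)).head (hne (i + 1))))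
    (m M : ℕ) (hm : ∀ i, m ≤ (B i).length) (hM : ∀ i, (B i).length ≤ M) :
    ∃ (l : List α) (hl : l ≠ []), l.Nodup ∧ k * m ≤ l.length ∧ l.IsChain R ∧
      Q (l.getLast hl) (l.head hl) ∧ (∀ i, B i <:+: l) ∧ (∀ x ∈ l, ∃ i, x ∈ B i) ∧
      ∀ a, a < l.length → ∃ t ≤ M, ∃ i, ∀ q, (hq : q < (B i).length) → cyc l hl (a + t + q) = (B i)[q] := by
  obtain ⟨k, rfl⟩ := Nat.exists_eq_succ_of_ne_zero (NeZero.ne k)
  have hL : List.ofFn B ≠ [] := by simp
  have hmem : ∀ l ∈ List.ofFn B, ∃ i, l = B i := by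
    intro l hl
    rw [List.mem_ofFn] at hl
    obtain ⟨i, hi⟩ := hl
    exact ⟨i, hi.symm⟩
  have hnil : [] ∉ List.ofFn B := by
    intro h
    obtain ⟨i, hi⟩ := hmem _ h
    exact hne i hi.symm
  have hhead : (List.ofFn B).head hL = B 0 := by
    rw [List.head_ofFn]; rfl
  have hlast : (List.ofFn B).getLast hL = B (Fin.last k) := by
    rw [List.getLast_ofFn]; rfl
  have hflat : (List.ofFn B).flatten ≠ [] := by
    rw [List.flatten_ne_nil_iff]
    exact ⟨B 0, by rw [← hhead]; exact List.head_mem hL, hne 0⟩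
  refine ⟨(List.ofFn B).flatten, hflat, ?_, ?_, ?_, ?_, ?_, ?_, ?_⟩
  · rw [List.nodup_flatten]
    refine ⟨fun l hl => ?_, ?_⟩
    · obtain ⟨i, rfl⟩ := hmem l hl
      exact hnd i
    · rw [List.pairwise_ofFn]
      intro i j hij
      exact hdj i j (ne_of_lt hij)
  · have h1 : (List.ofFn B).flatten.length = ∑ i, (B i).length := by
      rw [List.length_flatten, List.map_ofFn, List.sum_ofFn]
      rfl
    rw [h1]
    calc (k + 1) * m = ∑ _i : Fin (k + 1), m := by simp
      _ ≤ _ := Finset.sum_le_sum fun i _ => hm i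
  · rw [List.isChain_flatten hnil]
    refine ⟨fun l hl => ?_, ?_⟩
    · obtain ⟨i, rfl⟩ := hmem l hl
      exact hch i
    · rw [List.isChain_iff_getElem]
      intro i hi x hx y hy
      simp only [List.length_ofFn] at hi
      rw [List.getElem_ofFn] at hx hy
      have e : (⟨i, by omega⟩ : Fin (k + 1)) + 1 = ⟨i + 1, hi⟩ := by
        apply Fin.ext
        rw [Fin.val_add_one_of_lt]
        simp only [Fin.lt_def, Fin.val_last]
        omega
      have h2 := hQ ⟨i, by omega⟩
      rw [List.getLast?_eq_getLast_of_ne_nil (hne _)] at hx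
      rw [List.head?_eq_some_head (hne _)] at hy
      simp only [Option.mem_def, Option.some.injEq] at hx hy
      subst hx; subst hy
      apply hQR
      simp only [e] at h2
      exact h2
  · have h1 : (List.ofFn B).flatten.getLast hflat = (B (Fin.last k)).getLast (hne _) := by
      rw [List.getLast_flatten_eq_getLast_getLast hflat (by rw [hlast]; exact hne _)]
      congr 1
    have h2 : (List.ofFn B).flatten.head hflat = (B 0).head (hne _) := by
      rw [List.head_flatten_eq_head_head hflat (by rw [hhead]; exact hne _)]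
      congr 1
    rw [h1, h2]
    have h3 := hQ (Fin.last k)
    have e : Fin.last k + 1 = 0 := Fin.last_add_one k
    simp only [e] at h3
    exact h3
  · intro i
    have h1 : B i ∈ List.ofFn B := by rw [List.mem_ofFn]; exact ⟨i, rfl⟩
    obtain ⟨s, t, h2⟩ := List.append_of_mem h1
    refine ⟨s.flatten, t.flatten, ?_⟩
    rw [h2]
    simp
  · intro x hx
    rw [List.mem_flatten] at hx
    obtain ⟨l, hl, hxl⟩ := hx
    obtain ⟨i, rfl⟩ := hmem l hl
    exact ⟨i, hxl⟩
  · intro a ha
    obtain ⟨t, ht, s1, s2, h1, h2⟩ := flat_pos M (List.ofFn B) (by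
      intro l hl
      obtain ⟨i, rfl⟩ := hmem l hl
      exact hM i) a ha
    refine ⟨t, ht, ?_⟩
    rcases s2 with _ | ⟨b, s2⟩
    · -- end of the list
      refine ⟨0, fun q hq => ?_⟩
      have h3 : a + t = (List.ofFn B).flatten.length := by rw [h2, h1]; simp
      rw [h3, Nat.add_comm, cyc_add_length]
      unfold cyc
      have h4 : (List.ofFn B).flatten = B 0 ++ (List.ofFn B).tail.flatten := by
        conv_lhs => rw [← List.cons_head_tail hL, List.flatten_cons, hhead]
      have h5 : q < (List.ofFn B).flatten.length := by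
        rw [h4, List.length_append]; omega
      simp only [Nat.mod_eq_of_lt h5]
      simp only [h4]
      rw [List.getElem_append_left hq]
    · obtain ⟨i, rfl⟩ := hmem b (by rw [h1]; simp)
      refine ⟨i, fun q hq => ?_⟩
      have h4 : (List.ofFn B).flatten = s1.flatten ++ (B i ++ s2.flatten) := by
        rw [h1]; simp
      have h5 : a + t + q < (List.ofFn B).flatten.length := by
        rw [h4, List.length_append, List.length_append]; omega
      unfold cyc
      simp only [Nat.mod_eq_of_lt h5]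
      simp only [h4]
      rw [List.getElem_append_right (by omega)]
      rw [List.getElem_append_left (by omega)]
      congr 1
      omega

theorem asm_conn_len {G1 : Cube ι → Cube ι → Prop} {RP MP : Type*} [DecidableEq RP]
    {L2 L1 h : ℕ} (S : Blocks G1 RP MP L2 L1 h) (W : List RP) (l : List (Cube ι)) (hl : l.Nodup)
    (hm : ∀ x ∈ l, ∃ r ∈ W, x ∈ S.rset r) : l.length ≤ W.length * L2 := by
  classical
  have h1 : l.toFinset ⊆ W.toFinset.biUnion S.rset := by
    intro x hx
    rw [List.mem_toFinset] at hx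
    obtain ⟨r, hr, hxr⟩ := hm x hx
    exact Finset.mem_biUnion.2 ⟨r, List.mem_toFinset.2 hr, hxr⟩
  have h2 := Finset.card_le_card h1
  rw [List.toFinset_card_of_nodup hl] at h2
  refine h2.trans ((Finset.card_biUnion_le).trans ?_)
  calc ∑ u ∈ W.toFinset, (S.rset u).card ≤ ∑ _u ∈ W.toFinset, L2 := by
        refine Finset.sum_le_sum fun r _ => ?_
        refine Finset.card_image_le.trans ?_
        simp
    _ = W.toFinset.card * L2 := by rw [Finset.sum_const, smul_eq_mul]
    _ ≤ W.length * L2 := Nat.mul_le_mul_right _ (List.toFinset_card_le W)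

/-- **assembly** of a cyclic sequence of main pieces and disjoint connectors, with the structure of the
resulting cycle -/
theorem assemble' {G1 G2 : Cube ι → Cube ι → Prop} (hG1 : ∀ x y, G1 x y → G1 y x) {RP MP : Type*} [DecidableEq RP]
    {L2 L1 h : ℕ} (S : Blocks G1 RP MP L2 L1 h) (k : ℕ) [NeZero k] (hk : 2 ≤ k) (P : Fin k → MP)
    (W : Fin k → List RP) (hPinj : Function.Injective P)
    (hconn : ∀ i, Connector S G2 (P i) (P (i + 1)) (W i))
    (hdisj : ∀ i j, i ≠ j → List.Disjoint (W i) (W j)) (g : ℕ) (hg : ∀ i, (W i).length ≤ g) :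
    ∃ (l : List (Cube ι)) (hl : l ≠ []), l.Nodup ∧ k * (L1 - 2 * h) ≤ l.length ∧ 3 ≤ l.length ∧
      (∀ x y, CNext l x y → G1 x y ∨ G2 x y) ∧
      (∀ x ∈ l, (∃ i j, x = S.mp (P i) j) ∨ ∃ r, x ∈ S.rset r) ∧
      (∀ (i : Fin k) (j : ℕ) (_ : h ≤ j) (_ : j + 1 + h ≤ L1) (h1 : j + 1 < L1),
        CNext l (S.mp (P i) ⟨j, by omega⟩) (S.mp (P i) ⟨j + 1, h1⟩)) ∧
      (∀ a, a < l.length → ∃ t ≤ 2 * (L1 + g * L2), ∃ i : Fin k, ∀ q (_ : h + q + h ≤ L1) (h1 : h + q < L1),
        cyc l hl (a + t + q) = S.mp (P i) ⟨h + q, h1⟩) := by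
  have hh := S.hh
  have hhL := S.hhL1
  have hW : ∀ i, W i ≠ [] := fun i => (hconn i).2.1
  -- the joining edges
  have hJ : ∀ i, ∃ (a : Fin L1) (v u : Cube ι) (b : Fin L1), L1 ≤ a.val + h ∧ v ∈ S.rset ((W i).head (hW i)) ∧
      G2 (S.mp (P i) a) v ∧ u ∈ S.rset ((W i).getLast (hW i)) ∧ b.val < h ∧ G2 u (S.mp (P (i + 1)) b) := by
    intro i
    obtain ⟨-, hW0, ⟨p, hp, v, hv, hpv⟩, -, ⟨u, hu, q, hq, huq⟩⟩ := hconn i
    simp only [Blocks.tport, Blocks.sport, Finset.mem_image, Finset.mem_filter, Finset.mem_univ,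
      true_and] at hp hq
    obtain ⟨a, ha, rfl⟩ := hp
    obtain ⟨b, hb, rfl⟩ := hq
    exact ⟨a, v, u, b, ha, hv, hpv, hu, hb, huq⟩
  choose a v u b ha hvm hav hum hb hub using hJ
  have hinj : ∀ p, Function.Injective (S.mp p) := fun p x y hxy => by
    have := S.mp_inj (a₁ := (p, x)) (a₂ := (p, y)) hxy
    exact (Prod.mk.inj this).2
  -- the blocks: main segment followed by the connector
  have hB : ∀ i, ∃ (l : List (Cube ι)) (hl : l ≠ []), l.Nodup ∧ L1 - 2 * h + 2 ≤ l.length ∧
      l.length ≤ L1 + g * L2 ∧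
      l.head hl = S.mp (P (i + 1)) (b i) ∧ l.getLast hl = u (i + 1) ∧
      l.IsChain (fun x y => G1 x y ∨ G2 x y) ∧
      (∀ x ∈ l, (∃ j, x = S.mp (P (i + 1)) j) ∨ ∃ r ∈ W (i + 1), x ∈ S.rset r) ∧
      ∀ q (_ : (b i).val + q ≤ (a (i + 1)).val) (h1 : q < l.length) (h2 : (b i).val + q < L1),
        l[q] = S.mp (P (i + 1)) ⟨(b i).val + q, h2⟩ := by
    intro i
    have hba : (b i).val ≤ (a (i + 1)).val := by
      have := ha (i + 1); have := hb i; omega
    obtain ⟨l1, hl1, c1, c2, c3, c4, c5, c6, c7⟩ := seg_list (S.mp (P (i + 1))) (hinj _) G1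
      (S.mp_adj _) (b i).val (a (i + 1)).val hba (a (i + 1)).2
    obtain ⟨l2, hl2, d1, d2, d3, d4, d5⟩ := asm_conn (G2 := G2) hG1 S (W (i + 1)) (hW _) (hconn _).1
      (hconn (i + 1)).2.2.2.1 (v (i + 1)) (hvm _) (u (i + 1)) (hum _)
    have e2 := asm_conn_len S (W (i + 1)) l2 d1 d5
    refine ⟨l1 ++ l2, by simp [hl1], ?_, ?_, ?_, ?_, ?_, ?_, ?_, ?_⟩
    · rw [List.nodup_append]
      refine ⟨c1, d1, ?_⟩
      intro x hx y hy hxy
      subst hxy
      obtain ⟨j, -, -, rfl⟩ := c6 x hx
      obtain ⟨r, -, hr⟩ := d5 _ hy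
      simp only [Blocks.rset, Finset.mem_image, Finset.mem_univ, true_and] at hr
      obtain ⟨q, hq⟩ := hr
      exact S.disj _ _ _ _ hq
    · rw [List.length_append, c2]
      have := ha (i + 1); have := hb i
      have : 0 < l2.length := List.length_pos_iff.2 hl2
      omega
    · rw [List.length_append, c2]
      have e1 := (a (i + 1)).2
      have e3 : (W (i + 1)).length * L2 ≤ g * L2 := Nat.mul_le_mul_right _ (hg _)
      omega
    · rw [List.head_append_of_ne_nil hl1, c3]
    · rw [List.getLast_append_of_ne_nil _ hl2]; exact d3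
    · rw [List.isChain_append]
      refine ⟨c5.imp fun x y => Or.inl, d4, ?_⟩
      intro x hx y hy
      rw [List.getLast?_eq_getLast_of_ne_nil hl1] at hx
      rw [List.head?_eq_some_head hl2] at hy
      simp only [Option.mem_def, Option.some.injEq] at hx hy
      subst hx; subst hy
      rw [c4, d2]
      refine Or.inr ?_
      exact hav (i + 1)
    · intro x hx
      rcases List.mem_append.1 hx with hx | hx
      · obtain ⟨j, -, -, hj⟩ := c6 x hx
        exact Or.inl ⟨j, hj⟩
      · exact Or.inr (d5 x hx)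
    · intro q hq h1 h2
      have h3 : q < l1.length := by rw [c2]; omega
      rw [List.getElem_append_left h3]
      exact c7 q h3 h2
  choose B hne hnd hlen hlen' hhead hlast hch hmem hpos using hB
  obtain ⟨l, hl, e1, e2, e3, e4, e5, e6, e7⟩ := asm_flat' (fun x y => G1 x y ∨ G2 x y) G2 (fun x y => Or.inr) k B
    hne hnd (by
      intro i j hij x hxi hxj
      have hij' : i + 1 ≠ j + 1 := fun h => hij (add_right_cancel h)
      rcases hmem i x hxi with ⟨p, hp⟩ | ⟨r, hr, hxr⟩
      · rcases hmem j x hxj with ⟨q, hq⟩ | ⟨r', hr', hxr'⟩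
        · rw [hp] at hq
          have := S.mp_inj (a₁ := (P (i + 1), p)) (a₂ := (P (j + 1), q)) hq
          exact hij' (hPinj (Prod.mk.inj this).1)
        · simp only [Blocks.rset, Finset.mem_image, Finset.mem_univ, true_and] at hxr'
          obtain ⟨q, hq⟩ := hxr'
          exact S.disj _ _ _ _ (hq.trans hp)
      · rcases hmem j x hxj with ⟨q, hq⟩ | ⟨r', hr', hxr'⟩
        · simp only [Blocks.rset, Finset.mem_image, Finset.mem_univ, true_and] at hxr
          obtain ⟨p, hp⟩ := hxr
          exact S.disj _ _ _ _ (hp.trans hq)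
        · simp only [Blocks.rset, Finset.mem_image, Finset.mem_univ, true_and] at hxr hxr'
          obtain ⟨p, hp⟩ := hxr
          obtain ⟨q, hq⟩ := hxr'
          have := S.rp_inj (a₁ := (r, p)) (a₂ := (r', q)) (hp.trans hq.symm)
          have hrr := (Prod.mk.inj this).1
          subst hrr
          exact hdisj _ _ hij' hr hr')
    hch (by
      intro i
      rw [hlast i, hhead (i + 1)]
      exact hub (i + 1)) (L1 - 2 * h + 2) (L1 + g * L2) hlen hlen'
  have hpred : ∀ i : Fin k, ∃ i', i' + 1 = i := fun i => ⟨i - 1, sub_add_cancel i 1⟩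
  have h3l : 3 ≤ l.length := by
    have : 2 * 2 ≤ k * (L1 - 2 * h + 2) := Nat.mul_le_mul hk (by omega)
    omega
  refine ⟨l, hl, e1, ?_, h3l, ?_, ?_, ?_, ?_⟩
  · exact (Nat.mul_le_mul_left k (by omega)).trans e2
  · intro x y hxy
    rcases hxy with ⟨s, t, hst⟩ | ⟨s, hs⟩
    · rw [hst, List.isChain_append] at e3
      exact (List.isChain_cons_cons.1 e3.2.1).1
    · refine Or.inr ?_
      have h1 : l.getLast hl = x := by
        simp only [hs]
        simp
      have h2 : l.head hl = y := by
        simp only [hs]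
        simp
      rw [h1, h2] at e4
      exact e4
  · intro x hx
    obtain ⟨i, hi⟩ := e6 x hx
    rcases hmem i x hi with ⟨j, hj⟩ | ⟨r, -, hr⟩
    · exact Or.inl ⟨_, j, hj⟩
    · exact Or.inr ⟨r, hr⟩
  · intro i j hj hj' h1
    obtain ⟨i, rfl⟩ := hpred i
    have f1 := hb i
    have f2 := ha (i + 1)
    have f3 := hlen i
    have hlen1 : (j + 1 - (b i).val) < (B i).length := by
      by_contra hcon
      -- the position `j + 1 - b` is inside the main segment
      have := hlast i
      have hp := hpos i ((B i).length - 1) (by omega) (by omega) (by omega)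
      rw [List.getLast_eq_getElem, hp] at this
      have h4 := hum (i + 1)
      rw [← this] at h4
      simp only [Blocks.rset, Finset.mem_image, Finset.mem_univ, true_and] at h4
      obtain ⟨q, hq⟩ := h4
      exact S.disj _ _ _ _ hq
    obtain ⟨s, t, hst⟩ := split_pair (B i) (j - (b i).val) (by omega)
    have g1 := hpos i (j - (b i).val) (by omega) (by omega) (by omega)
    have g2 := hpos i (j - (b i).val + 1) (by omega) (by omega) (by omega)
    refine cnext_of_infix (s := s) (t := t) ?_ (e5 i)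
    have g3 : (⟨(b i).val + (j - (b i).val), by omega⟩ : Fin L1) = ⟨j, by omega⟩ := Fin.ext (by simp only; omega)
    have g4 : (⟨(b i).val + (j - (b i).val + 1), by omega⟩ : Fin L1) = ⟨j + 1, h1⟩ := Fin.ext (by simp only; omega)
    rw [g3] at g1
    rw [g4] at g2
    rw [← g1, ← g2]
    exact hst
  · intro p hp
    obtain ⟨t, ht, i, hq⟩ := e7 p hp
    have f1 := hb i
    have f2 := ha (i + 1)
    refine ⟨t + (h - (b i).val), ?_, i + 1, ?_⟩
    · generalize g * L2 = X at ht ⊢
      omega
    · intro q hq1 h1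
      have hlen1 : (h + q - (b i).val) < (B i).length := by
        by_contra hcon
        have f3 := hlen i
        have := hlast i
        have hp := hpos i ((B i).length - 1) (by omega) (by omega) (by omega)
        rw [List.getLast_eq_getElem, hp] at this
        have h4 := hum (i + 1)
        rw [← this] at h4
        simp only [Blocks.rset, Finset.mem_image, Finset.mem_univ, true_and] at h4
        obtain ⟨q, hq⟩ := h4
        exact S.disj _ _ _ _ hq
      have g0 := hq (h + q - (b i).val) hlen1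
      have g1 := hpos i (h + q - (b i).val) (by omega) (by omega) (by omega)
      have g3 : (⟨(b i).val + (h + q - (b i).val), by omega⟩ : Fin L1) = ⟨h + q, by omega⟩ :=
        Fin.ext (by simp only; omega)
      rw [g3] at g1
      have g4 : p + (t + (h - (b i).val)) + q = p + t + (h + q - (b i).val) := by omega
      rw [g4, g0, g1]

/-- the relation `G2` restricted to a finite set of pairs -/
def rst (G2 : Cube ι → Cube ι → Prop) (E : Finset (Cube ι × Cube ι)) (x y : Cube ι) : Prop :=
  G2 x y ∧ (x, y) ∈ E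

theorem joined_rst {G2 : Cube ι → Cube ι → Prop} {A B : Finset (Cube ι)} (h : Joined G2 A B) :
    ∃ e : Cube ι × Cube ι, ∀ E : Finset (Cube ι × Cube ι), e ∈ E → Joined (rst G2 E) A B := by
  obtain ⟨u, hu, v, hv, huv⟩ := h
  exact ⟨(u, v), fun E hE => ⟨u, hu, v, hv, huv, hE⟩⟩

theorem chain_rst {G2 : Cube ι → Cube ι → Prop} {RP : Type*} (f : RP → Finset (Cube ι)) :
    ∀ W : List RP, W.IsChain (fun r r' => Joined G2 (f r) (f r')) →
    ∃ E : Finset (Cube ι × Cube ι), E.card ≤ W.length - 1 ∧ ∀ E', E ⊆ E' →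
      W.IsChain (fun r r' => Joined (rst G2 E') (f r) (f r')) := by
  classical
  intro W
  induction W with
  | nil => intro _; exact ⟨∅, by simp, fun _ _ => by simp⟩
  | cons r W ih =>
    intro h
    rcases W with _ | ⟨r', W⟩
    · exact ⟨∅, by simp, fun _ _ => by simp⟩
    · rw [List.isChain_cons_cons] at h
      obtain ⟨E, hE, hE'⟩ := ih h.2
      obtain ⟨e, he⟩ := joined_rst h.1
      refine ⟨insert e E, ?_, fun E' hEE => ?_⟩
      · refine (Finset.card_insert_le _ _).trans ?_
        simp only [List.length_cons] at hE ⊢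
        omega
      · rw [List.isChain_cons_cons]
        exact ⟨he E' (hEE (Finset.mem_insert_self _ _)),
          hE' E' ((Finset.subset_insert _ _).trans hEE)⟩

theorem connector_rst {G1 G2 : Cube ι → Cube ι → Prop} {RP MP : Type*} {L2 L1 h : ℕ}
    (S : Blocks G1 RP MP L2 L1 h) {P P' : MP} {W : List RP} (hc : Connector S G2 P P' W) :
    ∃ E : Finset (Cube ι × Cube ι), E.card ≤ W.length + 1 ∧ ∀ E', E ⊆ E' →
      Connector S (rst G2 E') P P' W := by
  classical
  obtain ⟨h1, hW, h2, h3, h4⟩ := hc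
  obtain ⟨e, he⟩ := joined_rst h2
  obtain ⟨e', he'⟩ := joined_rst h4
  obtain ⟨E, hE, hE'⟩ := chain_rst S.rset W h3
  have hW0 : 0 < W.length := List.length_pos_iff.2 hW
  refine ⟨insert e (insert e' E), ?_, fun E' hEE => ?_⟩
  · have g1 := Finset.card_insert_le e (insert e' E)
    have g2 := Finset.card_insert_le e' E
    omega
  · exact ⟨h1, hW, he E' (hEE (by simp)), hE' E' ((Finset.subset_insert _ _).trans
      ((Finset.subset_insert _ _).trans hEE)), he' E' (hEE (by simp))⟩

/-- **giant cycle**, deterministic theorem with structure: `k` main pieces `P i` are used, their inner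
parts are traversed in the forward direction; the edges of the cycle which are not `G1`-edges are
in the small set `E`; every long stretch of the cycle contains the inner part of a main piece. -/
theorem giant_det' {G1 G2 : Cube ι → Cube ι → Prop} (hG1 : ∀ x y, G1 x y → G1 y x)
    (hG2 : ∀ x y, G2 x y → G2 y x) {RP MP : Type*} [Fintype RP] [DecidableEq RP]
    [Fintype MP] [DecidableEq MP] (d n T L2 L1 h : ℕ) (hd : Fintype.card ι = d) (hn : n = 2 ^ d)
    (S : Blocks G1 RP MP L2 L1 h) (hL : (d ^ 9 + 1) * L2 * d ^ 9 ≤ L1)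
    (hd0 : 100 ≤ d) (hT : d ≤ T * T)
    (Zd : Finset ι) (hZd : d ≤ 2 * Zd.card) (Bad : Finset (Cube ι))
    (hBad : Bad.card * d ^ 8 ≤ n)
    (hgood : ∀ x, x ∉ Bad → GoodPt Zd T (Finset.univ.biUnion S.rset) x)
    (hsprinkle : ∀ X X' : Finset (RP ⊕ (MP ⊕ MP)), Disjoint X X' →
      n ≤ (mix (X.biUnion S.bset) (X'.biUnion S.bset)).card * d ^ 8 →
      ∃ b ∈ X, ∃ b' ∈ X', Joined G2 (S.bset b) (S.bset b'))
    (hN1 : n ≤ Fintype.card MP * h * d) (hMP : 8 ≤ Fintype.card MP) :
    ∃ (k : ℕ) (P : Fin k → MP) (l : List (Cube ι)) (hl : l ≠ []) (E : Finset (Cube ι × Cube ι)),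
      Fintype.card MP ≤ k + 4 * (Fintype.card MP / d + 1) ∧ Function.Injective P ∧ l.Nodup ∧
      3 ≤ l.length ∧ E.card ≤ k * (d ^ 9 + 2) ∧
      (∀ x y, CNext l x y → G1 x y ∨ (G2 x y ∧ (x, y) ∈ E)) ∧
      (∀ x ∈ l, (∃ i j, x = S.mp (P i) j) ∨ ∃ r, x ∈ S.rset r) ∧
      (∀ (i : Fin k) (j : ℕ) (_ : h ≤ j) (_ : j + 1 + h ≤ L1) (h1 : j + 1 < L1),
        CNext l (S.mp (P i) ⟨j, by omega⟩) (S.mp (P i) ⟨j + 1, h1⟩)) ∧
      (∀ a, a < l.length → ∃ t ≤ 2 * (L1 + (d ^ 9 + 1) * L2), ∃ i : Fin k,
        ∀ q (_ : h + q + h ≤ L1) (h1 : h + q < L1), cyc l hl (a + t + q) = S.mp (P i) ⟨h + q, h1⟩) := by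
  classical
  set N := Fintype.card MP with hN
  set k0 := N / d + 1 with hk0
  have hk0N : N ≤ k0 * d := by
    have := Nat.div_add_mod N d
    have h2 := Nat.mod_lt N (show 0 < d by omega)
    rw [hk0]
    nlinarith
  have h4k0 : 4 * k0 < N := by
    have h1 : N / d ≤ N / 100 := Nat.div_le_div_left hd0 (by norm_num)
    have h2 : N / 100 * 100 ≤ N := Nat.div_mul_le_self N 100
    omega
  have hNL : N * L1 ≤ n := by
    have h1 := Fintype.card_le_of_injective _ S.mp_inj
    rw [Fintype.card_prod, Fintype.card_fin] at h1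
    rw [hn, ← hd]
    simpa [Cube, hd] using h1
  obtain ⟨k, hk, P, W, h1, h2, h3, h4, h5⟩ := dfs_lemma
    (fun P P' W => Connector S G2 P P' W ∧ W.length ≤ d ^ 9 + 1) k0 (d ^ 9 + 1) (Nat.succ_pos _) h4k0
    (by
      intro D AA BB hD hAA hBB _
      obtain ⟨P, hP, P', hP', W, g1, g2, g3⟩ := connector_exists hG2 S d n T hd hn hd0 hT Zd hZd Bad hBad
        hgood hsprinkle hN1 D (by
          calc D.card * L2 * d ^ 9 ≤ (N * (d ^ 9 + 1)) * L2 * d ^ 9 := by gcongr
            _ = N * ((d ^ 9 + 1) * L2 * d ^ 9) := by ring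
            _ ≤ N * L1 := Nat.mul_le_mul_left _ hL
            _ ≤ n := hNL) AA BB
        (hk0N.trans (Nat.mul_le_mul_right _ hAA)) (hk0N.trans (Nat.mul_le_mul_right _ hBB))
      exact ⟨P, hP, P', hP', W, ⟨g1, g2⟩, g2, g3⟩)
  have hE := fun i => connector_rst S (h4 i).1
  choose E hE1 hE2 using hE
  have hsub : ∀ i, E i ⊆ Finset.univ.biUnion E := fun i => Finset.subset_biUnion_of_mem E (Finset.mem_univ i)
  obtain ⟨l, hl, e1, -, e3, e4, e5, e6, e7⟩ := assemble' (G2 := rst G2 (Finset.univ.biUnion E)) hG1 S k h2 P W h3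
    (fun i => hE2 i _ (hsub i)) h5 (d ^ 9 + 1) (fun i => (h4 i).2)
  refine ⟨k, P, l, hl, Finset.univ.biUnion E, h1, h3, e1, e3, ?_, e4, e5, e6, e7⟩
  refine Finset.card_biUnion_le.trans ?_
  calc ∑ i, (E i).card ≤ ∑ _i : Fin k, (d ^ 9 + 2) := by
        refine Finset.sum_le_sum fun i _ => (hE1 i).trans ?_
        have := (h4 i).2
        omega
    _ = k * (d ^ 9 + 2) := by simp

end Pool.Agent.LongCyc.Dense
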