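import Mathlib
import Pool.Agent.LongCyc.Dense.BlockDec
import Pool.Agent.LongCyc.Dense.GiantD

/-!
# Dense regime: the start configuration (giant cycle and the rest of the base configuration)
-/

set_option autoImplicit false
set_option linter.unusedSectionVars false

namespace Pool.Agent.LongCyc.Dense

open Finset BadMassAux BlockDec

section lst

variable {V : Type*}

theorem cnext_fun {l : List V} (hnd : l.Nodup) {x y y' : V} (h : CNext l x y) (h' : CNext l x y') :
    y = y' := by
  have hl : l ≠ [] := by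
    rintro rfl
    rcases h with ⟨s, t, h⟩ | ⟨s, h⟩ <;> simp at h
  rw [cnext_iff_cyc hl] at h h'
  obtain ⟨h2, i, hi, rfl, rfl⟩ := h
  obtain ⟨-, j, hj, h3, rfl⟩ := h'
  have h4 := cyc_inj hl hnd h3
  rw [Nat.mod_eq_of_lt hi, Nat.mod_eq_of_lt hj] at h4
  rw [h4]

theorem cnext_inj {l : List V} (hnd : l.Nodup) {x x' y : V} (h : CNext l x y) (h' : CNext l x' y) :
    x = x' := by
  have hl : l ≠ [] := by
    rintro rfl
    rcases h with ⟨s, t, h⟩ | ⟨s, h⟩ <;> simp at h
  rw [cnext_iff_cyc hl] at h h'
  obtain ⟨h2, i, hi, rfl, rfl⟩ := h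
  obtain ⟨-, j, hj, rfl, h3⟩ := h'
  have h4 := cyc_inj hl hnd h3
  have h5 : i ≡ j [MOD l.length] := by
    apply Nat.ModEq.add_right_cancel' 1
    exact h4.symm
  have h6 : i = j := Nat.ModEq.eq_of_lt_of_lt h5 hi hj
  rw [h6]

theorem cnext_mem {l : List V} {x y : V} (h : CNext l x y) : x ∈ l ∧ y ∈ l := by
  rcases h with ⟨s, t, rfl⟩ | ⟨s, rfl⟩ <;> simp

theorem exists_cnext {l : List V} (h2 : 2 ≤ l.length) {x : V} (hx : x ∈ l) : ∃ y, CNext l x y := by
  have hl : l ≠ [] := by rintro rfl; simp at hx
  obtain ⟨i, hi, rfl⟩ := exists_cyc hl hx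
  exact ⟨_, cyc_next hl h2 i⟩

theorem exists_cprev {l : List V} (h2 : 2 ≤ l.length) {x : V} (hx : x ∈ l) : ∃ y, CNext l y x := by
  have hl : l ≠ [] := by rintro rfl; simp at hx
  obtain ⟨i, hi, rfl⟩ := exists_cyc hl hx
  refine ⟨cyc l hl (i + (l.length - 1)), ?_⟩
  have := cyc_next hl h2 (i + (l.length - 1))
  have e : i + (l.length - 1) + 1 = i + l.length := by omega
  rw [e, cyc_add_length] at this
  exact this

/-- previous and next vertex are different on a cycle of length at least `3` -/
theorem cnext_ne {l : List V} (hnd : l.Nodup) (h3 : 3 ≤ l.length) {x y z : V} (h : CNext l x y)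
    (h' : CNext l y z) : x ≠ z := by
  have hl : l ≠ [] := by rintro rfl; simp at h3
  rw [cnext_iff_cyc hl] at h h'
  obtain ⟨-, i, hi, rfl, hy⟩ := h
  obtain ⟨-, j, hj, hy', rfl⟩ := h'
  intro h
  rw [← hy'] at hy
  have h4 := cyc_inj hl hnd hy
  have h5 := cyc_inj hl hnd h
  have h6 : i + 1 ≡ j [MOD l.length] := h4
  have h7 : i ≡ j + 1 [MOD l.length] := h5
  have h8 : i + 2 ≡ i [MOD l.length] := (h6.add_right 1).trans h7.symm
  have h9 : 2 ≡ 0 [MOD l.length] := by
    apply Nat.ModEq.add_left_cancel' i
    exact h8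
  have := Nat.ModEq.eq_of_lt_of_lt h9 (by omega) (by omega)
  omega

end lst

section conf

variable {V : Type*} (cb : V → Option V) (l : List V)

/-- the configuration: the cycle `l`, and the base configuration outside of `l` -/
noncomputable def gconf : V → Option V := by
  classical
  exact fun x => if x ∈ l then (if h : ∃ y, CNext l x y then some h.choose else none)
    else (cb x).bind fun y => if y ∈ l then none else some y

variable {cb l}

theorem gconf_in (hnd : l.Nodup) {x : V} (hx : x ∈ l) {y : V} : gconf cb l x = some y ↔ CNext l x y := by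
  classical
  unfold gconf
  rw [if_pos hx]
  constructor
  · intro h
    split_ifs at h with h1
    rw [← Option.some.inj h]
    exact h1.choose_spec
  · intro h
    rw [dif_pos ⟨y, h⟩]
    congr 1
    exact cnext_fun hnd (Exists.choose_spec (⟨y, h⟩ : ∃ y, CNext l x y)) h

theorem gconf_out {x : V} (hx : x ∉ l) {y : V} : gconf cb l x = some y ↔ cb x = some y ∧ y ∉ l := by
  classical
  unfold gconf
  rw [if_neg hx, Option.bind_eq_some_iff]
  constructor
  · rintro ⟨z, hz, h⟩
    split_ifs at h with h1
    obtain rfl := Option.some.inj h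
    exact ⟨hz, h1⟩
  · rintro ⟨h1, h2⟩
    exact ⟨y, h1, by rw [if_neg h2]⟩

theorem gconf_iff (hnd : l.Nodup) {x y : V} :
    gconf cb l x = some y ↔ CNext l x y ∨ (x ∉ l ∧ y ∉ l ∧ cb x = some y) := by
  by_cases hx : x ∈ l
  · rw [gconf_in hnd hx]
    exact ⟨Or.inl, fun h => h.resolve_right fun h2 => h2.1 hx⟩
  · rw [gconf_out hx]
    exact ⟨fun h => Or.inr ⟨hx, h.2, h.1⟩, fun h => h.elim (fun h2 => absurd (cnext_mem h2).1 hx)
      fun h2 => ⟨h2.2.2, h2.2.1⟩⟩

theorem gconf_pinj (hnd : l.Nodup) (hcb : PInj cb) : PInj (gconf cb l) := by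
  intro x x' y h h'
  rw [gconf_iff hnd] at h h'
  rcases h with h | ⟨h1, h2, h3⟩
  · rcases h' with h' | ⟨h1', h2', h3'⟩
    · exact cnext_inj hnd h h'
    · exact absurd (cnext_mem h).2 h2'
  · rcases h' with h' | ⟨h1', h2', h3'⟩
    · exact absurd (cnext_mem h').2 h2
    · exact hcb _ _ _ h3 h3'

theorem it_gconf_in (hnd : l.Nodup) (hl : l ≠ []) (h2 : 2 ≤ l.length) (i k : ℕ) :
    it (gconf cb l) k (cyc l hl i) = some (cyc l hl (i + k)) := by
  induction k with
  | zero => rfl
  | succ k ih =>
    rw [it_succ_of ih, ← Nat.add_assoc]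
    exact (gconf_in hnd (cyc_mem hl _)).2 (cyc_next hl h2 _)

theorem it_gconf_out {y : V} (hy : y ∉ l) (k : ℕ) : ∀ {z : V}, it (gconf cb l) k y = some z →
    it cb k y = some z ∧ z ∉ l := by
  induction k with
  | zero => intro z h; obtain rfl := Option.some.inj h; exact ⟨rfl, hy⟩
  | succ k ih =>
    intro z h
    obtain ⟨w, hw, hw'⟩ := it_succ_some h
    obtain ⟨h1, h2⟩ := ih hw
    rw [gconf_out h2] at hw'
    exact ⟨by rw [it_succ_of h1]; exact hw'.1, hw'.2⟩

variable [Fintype V] [DecidableEq V]

/-- number of new ends -/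
theorem card_gconf_end (hnd : l.Nodup) (h3 : 3 ≤ l.length) (hcb : PInj cb) (E : Finset (V × V))
    (hE : ∀ x y, CNext l x y → cb x = some y ∨ cb y = some x ∨ (x, y) ∈ E) :
    (endS (gconf cb l)).card ≤ (endS cb).card + 2 * E.card := by
  classical
  set N : Finset V := univ.filter fun x => x ∉ l ∧ ∃ y ∈ l, cb x = some y with hN
  have h1 : endS (gconf cb l) ⊆ endS cb ∪ N := by
    intro x hx
    rw [mem_endS] at hx
    rw [mem_union]
    by_cases hxl : x ∈ l
    · obtain ⟨y, hy⟩ := exists_cnext (by omega) hxl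
      rw [(gconf_in hnd hxl).2 hy] at hx
      cases hx
    · cases hc : cb x with
      | none => exact Or.inl (mem_endS.2 hc)
      | some y =>
        right
        rw [hN, mem_filter]
        refine ⟨mem_univ _, hxl, y, ?_, hc⟩
        by_contra hyl
        rw [(gconf_out hxl).2 ⟨hc, hyl⟩] at hx
        cases hx
  have h2 : N.card ≤ 2 * E.card := by
    have h4 : ∀ x ∈ N, ∃ e : (V × V) × Bool, e.1 ∈ E ∧
        cb x = some (if e.2 then e.1.1 else e.1.2) := by
      intro x hx
      rw [hN, mem_filter] at hx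
      obtain ⟨-, hxl, y, hyl, hxy⟩ := hx
      obtain ⟨w, hw⟩ := exists_cprev (l := l) (by omega) hyl
      obtain ⟨z, hz⟩ := exists_cnext (l := l) (by omega) hyl
      rcases hE w y hw with h | h | h
      · exact absurd (cnext_mem hw).1 (by rw [hcb _ _ _ h hxy]; exact hxl)
      · rcases hE y z hz with h' | h' | h'
        · exfalso
          rw [h] at h'
          exact cnext_ne hnd h3 hw hz (Option.some.inj h')
        · exact absurd (cnext_mem hz).2 (by rw [hcb _ _ _ h' hxy]; exact hxl)
        · exact ⟨((y, z), true), h', hxy⟩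
      · exact ⟨((w, y), false), h, hxy⟩
    have h5 : N.card ≤ (E ×ˢ (univ : Finset Bool)).card := by
      choose! f hf using h4
      refine card_le_card_of_injOn f ?_ ?_
      · intro x hx
        simp only [coe_product, Set.mem_prod, mem_coe, mem_univ, and_true]
        exact (hf x hx).1
      · intro x hx x' hx' h
        have e1 := (hf x hx).2
        have e2 := (hf x' hx').2
        rw [h] at e1
        exact hcb _ _ _ e1 e2
    rw [card_product, card_univ, Fintype.card_bool, Nat.mul_comm] at h5
    exact h5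
  exact (card_le_card h1).trans ((card_union_le _ _).trans (Nat.add_le_add_left h2 _))

end conf

section base

variable {V : Type*}

/-- the base map restricted to the good vertices -/
noncomputable def cleanb (b : V → Option V) (Good : V → Prop) : V → Option V := by
  classical exact fun x => if Good x then b x else none

theorem cleanb_iff {b : V → Option V} {Good : V → Prop} {x y : V} :
    cleanb b Good x = some y ↔ Good x ∧ b x = some y := by
  classical
  unfold cleanb
  split_ifs with h
  · exact ⟨fun h2 => ⟨h, h2⟩, fun h2 => h2.2⟩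
  · exact ⟨fun h2 => by simp at h2, fun h2 => absurd h2.1 h⟩

theorem cleanb_pinj {b : V → Option V} {Good : V → Prop} (hb : PInj b) : PInj (cleanb b Good) :=
  fun x y v hx hy => hb x y v (cleanb_iff.1 hx).2 (cleanb_iff.1 hy).2

theorem it_cleanb {b : V → Option V} {Good : V → Prop} (k : ℕ) : ∀ {x z : V},
    it (cleanb b Good) k x = some z → it b k x = some z := by
  induction k with
  | zero => intro x z h; exact h
  | succ k ih =>
    intro x z h
    obtain ⟨y, hy, hy'⟩ := it_succ_some h
    rw [it_succ_of (ih hy)]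
    exact (cleanb_iff.1 hy').2

/-- a stretch of `L` vertices of a configuration inside the cleaned base map is an intact good run -/
theorem stretch_of_sub {b c : V → Option V} {Good : V → Prop} {L : ℕ} (hL : 2 ≤ L) {y : V}
    (hsub : ∀ k z, it c k y = some z → ∀ z', c z = some z' → cleanb b Good z = some z')
    (h : it c (L - 1) y ≠ none) : Good y ∧ Intact b c L y := by
  have h1 : ∀ k, k ≤ L - 1 → ∃ z, it c k y = some z ∧ it b k y = some z := by
    intro k
    induction k with
    | zero => intro _; exact ⟨y, rfl, rfl⟩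
    | succ k ih =>
      intro hk
      obtain ⟨z, hz, hz'⟩ := ih (by omega)
      have h2 : it c (k + 1) y ≠ none := fun h3 => h (it_none hk h3)
      obtain ⟨w, hw⟩ := Option.ne_none_iff_exists'.1 h2
      refine ⟨w, hw, ?_⟩
      rw [it_succ_of hz]  at hw
      rw [it_succ_of hz']
      exact (cleanb_iff.1 (hsub k z hz w hw)).2
  constructor
  · obtain ⟨z, hz, -⟩ := h1 1 (by omega)
    rw [it_succ_of (it_zero c y)] at hz
    exact (cleanb_iff.1 (hsub 0 y rfl z hz)).1
  · intro k hk
    obtain ⟨z, hz, hz'⟩ := h1 k (by omega)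
    obtain ⟨w, hw, hw'⟩ := h1 (k + 1) (by omega)
    rw [it_succ_of hz] at hw
    rw [it_succ_of hz'] at hw'
    exact ⟨z, w, hz', hw', hw⟩

/-- **stretch property** of the configuration with a giant cycle -/
theorem stretch_gconf {b : V → Option V} {Good : V → Prop} {L t0 : ℕ} (hL : 2 ≤ L) {l : List V}
    (hl : l ≠ []) (hnd : l.Nodup) (h2 : 2 ≤ l.length)
    (hseg : ∀ a, a < l.length → ∃ t ≤ t0, ∀ q, q + 1 < L →
      cleanb b Good (cyc l hl (a + t + q)) = some (cyc l hl (a + t + q + 1))) :
    Stretch b Good L (gconf (cleanb b Good) l) (t0 + L) := by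
  intro y hy
  by_cases hyl : y ∈ l
  · obtain ⟨a, ha, rfl⟩ := exists_cyc hl hyl
    obtain ⟨t, ht, hq⟩ := hseg a ha
    refine ⟨t, cyc l hl (a + t), by omega, it_gconf_in hnd hl h2 a t, ?_, ?_⟩
    · exact (cleanb_iff.1 (hq 0 (by omega))).1
    · have h3 : ∀ k, k < L → it b k (cyc l hl (a + t)) = some (cyc l hl (a + t + k)) := by
        intro k
        induction k with
        | zero => intro _; rfl
        | succ k ih =>
          intro hk
          rw [it_succ_of (ih (by omega))]
          exact (cleanb_iff.1 (hq k (by omega))).2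
      intro k hk
      refine ⟨cyc l hl (a + t + k), cyc l hl (a + t + k + 1), h3 k (by omega),
        (cleanb_iff.1 (hq k hk)).2, ?_⟩
      exact (gconf_in hnd (cyc_mem hl _)).2 (cyc_next hl h2 _)
  · have h3 : it (gconf (cleanb b Good) l) (L - 1) y ≠ none := by
      intro h
      exact hy (it_none (by omega) h)
    have h4 := stretch_of_sub (b := b) (c := gconf (cleanb b Good) l) (Good := Good) hL (y := y) (by
      intro k z hz z' hz'
      obtain ⟨-, h5⟩ := it_gconf_out hyl k hz
      exact ((gconf_out h5).1 hz').1) h3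
    exact ⟨0, y, by omega, rfl, h4.1, h4.2⟩

/-- the stretch property without a giant cycle -/
theorem stretch_cleanb {b : V → Option V} {Good : V → Prop} {L : ℕ} (hL : 2 ≤ L) :
    Stretch b Good L (cleanb b Good) L := by
  intro y hy
  have h4 := stretch_of_sub (b := b) (c := cleanb b Good) (Good := Good) hL (y := y)
    (fun k z _ z' hz' => hz') hy
  exact ⟨0, y, by omega, rfl, h4.1, h4.2⟩

end base

end Pool.Agent.LongCyc.Dense
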