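import Pool.Agent.LongCyc.Dense.BaseSub
import Pool.Agent.LongCyc.Dense.GiantConf
import Pool.Agent.LongCyc.Stage2c

/-!
# Dense regime: construction of a base fibre from its subfibres
-/

set_option autoImplicit false
set_option linter.unusedSectionVars false

namespace Pool.Agent.LongCyc.Dense

open Finset BadMassAux BlockDec

attribute [instance] SubLaw.fin

/-! ### Fibrewise partial maps -/

section lift

variable {κ μ : Type} [DecidableEq κ] [Fintype κ] [DecidableEq μ] [Fintype μ]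

/-- the partial map of the product cube given by partial maps of the fibres -/
def lft (f : Cube μ → Cube κ → Option (Cube κ)) (x : Cube (κ ⊕ μ)) : Option (Cube (κ ⊕ μ)) :=
  (f (x ∘ Sum.inr) (x ∘ Sum.inl)).map fun y => jn y (x ∘ Sum.inr)

theorem lft_iff {f : Cube μ → Cube κ → Option (Cube κ)} {x x' : Cube (κ ⊕ μ)} :
    lft f x = some x' ↔ f (x ∘ Sum.inr) (x ∘ Sum.inl) = some (x' ∘ Sum.inl) ∧ x' ∘ Sum.inr = x ∘ Sum.inr := by
  unfold lft
  rw [Option.map_eq_some_iff]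
  constructor
  · rintro ⟨y, hy, rfl⟩
    rw [jn_inl, jn_inr]
    exact ⟨hy, rfl⟩
  · rintro ⟨h1, h2⟩
    exact ⟨_, h1, by rw [← h2, jn_self]⟩

theorem lft_none {f : Cube μ → Cube κ → Option (Cube κ)} {x : Cube (κ ⊕ μ)} :
    lft f x = none ↔ f (x ∘ Sum.inr) (x ∘ Sum.inl) = none := by
  unfold lft
  rw [Option.map_eq_none_iff]

theorem it_lft (f : Cube μ → Cube κ → Option (Cube κ)) (k : ℕ) (x : Cube (κ ⊕ μ)) :
    it (lft f) k x = (it (f (x ∘ Sum.inr)) k (x ∘ Sum.inl)).map fun y => jn y (x ∘ Sum.inr) := by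
  induction k with
  | zero =>
    show some x = some (jn (x ∘ Sum.inl) (x ∘ Sum.inr))
    rw [jn_self]
  | succ k ih =>
    show (it (lft f) k x).bind (lft f) = ((it (f (x ∘ Sum.inr)) k (x ∘ Sum.inl)).bind (f (x ∘ Sum.inr))).map _
    rw [ih]
    cases h : it (f (x ∘ Sum.inr)) k (x ∘ Sum.inl) with
    | none => rfl
    | some y =>
      show lft f (jn y (x ∘ Sum.inr)) = (f (x ∘ Sum.inr) y).map _
      unfold lft
      rw [jn_inl, jn_inr]

theorem it_lft_iff {f : Cube μ → Cube κ → Option (Cube κ)} {k : ℕ} {x x' : Cube (κ ⊕ μ)} :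
    it (lft f) k x = some x' ↔
      it (f (x ∘ Sum.inr)) k (x ∘ Sum.inl) = some (x' ∘ Sum.inl) ∧ x' ∘ Sum.inr = x ∘ Sum.inr := by
  rw [it_lft, Option.map_eq_some_iff]
  constructor
  · rintro ⟨y, hy, rfl⟩
    rw [jn_inl, jn_inr]
    exact ⟨hy, rfl⟩
  · rintro ⟨h1, h2⟩
    exact ⟨_, h1, by rw [← h2, jn_self]⟩

theorem it_lft_none {f : Cube μ → Cube κ → Option (Cube κ)} {k : ℕ} {x : Cube (κ ⊕ μ)} :
    it (lft f) k x = none ↔ it (f (x ∘ Sum.inr)) k (x ∘ Sum.inl) = none := by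
  rw [it_lft, Option.map_eq_none_iff]

theorem lft_pinj {f : Cube μ → Cube κ → Option (Cube κ)} (h : ∀ s, PInj (f s)) : PInj (lft f) := by
  intro x y v hx hy
  rw [lft_iff] at hx hy
  have h1 : x ∘ Sum.inr = y ∘ Sum.inr := hx.2.symm.trans hy.2
  have h2 : x ∘ Sum.inl = y ∘ Sum.inl := by
    refine h (x ∘ Sum.inr) _ _ _ hx.1 ?_
    rw [h1]
    exact hy.1
  rw [← jn_self x, ← jn_self y, h1, h2]

/-- the edges of a fibre as edges of the product cube -/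
def embE (s : Cube μ) (e : CE κ) : CE (κ ⊕ μ) := ⟨(jn e.1.1 s, Sum.inl e.1.2), e.2⟩

theorem embE_injective (s : Cube μ) : Function.Injective (embE s : CE κ → CE (κ ⊕ μ)) := by
  rintro ⟨⟨x, i⟩, hx⟩ ⟨⟨y, j⟩, hy⟩ h
  have h1 := congrArg Subtype.val h
  simp only [embE, Prod.mk.injEq, Sum.inl.injEq] at h1
  obtain ⟨h2, rfl⟩ := h1
  obtain ⟨rfl, -⟩ := jn_inj h2
  rfl

theorem embE_can (s : Cube μ) (y : Cube κ) (i : κ) :
    embE s ((canE κ).e y i) = (canE (κ ⊕ μ)).e (jn y s) (Sum.inl i) := by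
  apply Subtype.ext
  show (jn (Function.update y i false) s, Sum.inl i) = (Function.update (jn y s) (Sum.inl i) false, Sum.inl i)
  rw [Prod.mk.injEq]
  refine ⟨?_, rfl⟩
  funext j
  rcases j with j | j
  · by_cases h : j = i
    · subst h; simp [jn]
    · rw [Function.update_of_ne (by simpa using h)]
      simp [jn, h]
  · simp [jn]

theorem flip_jn (i : κ) (y : Cube κ) (s : Cube μ) : flip (Sum.inl i) (jn y s) = jn (flip i y) s := by
  rw [flip_inl, jn_inl, jn_inr]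

/-- the `D0`-edges of a run in a fibre -/
theorem runD0_lft (D0 : Finset κ) (f : Cube μ → Cube κ → Option (Cube κ)) (L : ℕ) (u : Cube (κ ⊕ μ)) :
    runD0 (D0.image Sum.inl) (lft f) L u =
      (runD0 D0 (f (u ∘ Sum.inr)) L (u ∘ Sum.inl)).image (embE (u ∘ Sum.inr)) := by
  classical
  ext e
  unfold runD0
  simp only [mem_filter, mem_univ, true_and, mem_image]
  constructor
  · rintro ⟨⟨i, hi, hie⟩, k, y, hk, h1, h2, h3⟩
    obtain ⟨⟨x, j⟩, hx⟩ := e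
    simp only at hie h2 h3
    subst hie
    rw [it_lft_iff] at h1
    rw [lft_iff, flip_inl_inl, flip_inl_inr, h1.2] at h2
    refine ⟨(canE κ).e (y ∘ Sum.inl) i, ⟨hi, k, y ∘ Sum.inl, hk, h1.1, h2.1, rfl⟩, ?_⟩
    rw [embE_can, ← h1.2, jn_self, h3]
  · rintro ⟨⟨⟨x, j⟩, hx⟩, ⟨hj, k, y, hk, h1, h2, h3⟩, rfl⟩
    refine ⟨⟨j, hj, rfl⟩, k, jn y (u ∘ Sum.inr), hk, ?_, ?_, ?_⟩
    · rw [it_lft_iff, jn_inl, jn_inr]
      exact ⟨h1, rfl⟩
    · show lft f (jn y (u ∘ Sum.inr)) = some (flip (Sum.inl j) (jn y (u ∘ Sum.inr)))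
      rw [lft_iff, flip_jn, jn_inl, jn_inr, jn_inr, jn_inl]
      exact ⟨h2, rfl⟩
    · simp only at h3
      show (canE (κ ⊕ μ)).e (jn y (u ∘ Sum.inr)) (Sum.inl j) = _
      rw [← embE_can, h3]

end lift

/-! ### The construction -/

section con

variable {κ μ : Type} [DecidableEq κ] [Fintype κ] [DecidableEq μ] [Fintype μ]
  {p1 : ℝ} {h0 : 0 ≤ p1} {h1 : p1 ≤ 1} {L K M1 : ℕ} {ε : ℝ} (S : SubLaw κ p1 h0 h1 L K M1 ε)

/-- the cleaned base map of a subfibre -/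
noncomputable def SubLaw.cs (ω : S.Ω) : Cube κ → Option (Cube κ) := cleanb (S.b ω) fun x => x ∈ S.gd ω

theorem SubLaw.cs_pinj (ω : S.Ω) : PInj (S.cs ω) := cleanb_pinj (S.bInj ω)

/-- data of all subfibres: label (0 = main, 1, 2, 3 = reservoirs) and data of the subfibre -/
abbrev SubLaw.DD (μ : Type) := Cube μ → Fin 4 × S.Ω

variable {S} (D : S.DD μ)

/-- base map -/
noncomputable def gb : Cube (κ ⊕ μ) → Option (Cube (κ ⊕ μ)) := lft fun s => S.b (D s).2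

/-- good start -/
def gG (x : Cube (κ ⊕ μ)) : Prop := x ∘ Sum.inl ∈ S.gd (D (x ∘ Sum.inr)).2

/-- cleaned base map -/
noncomputable def gcb : Cube (κ ⊕ μ) → Option (Cube (κ ⊕ μ)) := lft fun s => S.cs (D s).2

theorem gcb_eq : gcb D = cleanb (gb D) (gG D) := by
  funext x
  cases h : cleanb (gb D) (gG D) x with
  | none =>
    unfold gcb
    rw [lft_none]
    unfold SubLaw.cs
    cases h2 : cleanb (S.b (D (x ∘ Sum.inr)).2) (fun x_1 => x_1 ∈ S.gd (D (x ∘ Sum.inr)).2) (x ∘ Sum.inl) with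
    | none => rfl
    | some y =>
      rw [cleanb_iff] at h2
      have : cleanb (gb D) (gG D) x = some (jn y (x ∘ Sum.inr)) := by
        rw [cleanb_iff]
        refine ⟨h2.1, ?_⟩
        unfold gb
        rw [lft_iff, jn_inl, jn_inr]
        exact ⟨h2.2, rfl⟩
      rw [h] at this
      cases this
  | some x' =>
    rw [cleanb_iff] at h
    unfold gb at h
    unfold gcb
    rw [lft_iff] at h ⊢
    refine ⟨?_, h.2.2⟩
    unfold SubLaw.cs
    rw [cleanb_iff]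
    exact ⟨h.1, h.2.1⟩

theorem gb_pinj : PInj (gb D) := lft_pinj fun s => S.bInj (D s).2

theorem gcb_pinj : PInj (gcb D) := lft_pinj fun s => S.cs_pinj (D s).2

theorem gcb_some {x y : Cube (κ ⊕ μ)} (h : gcb D x = some y) : gG D x ∧ gb D x = some y := by
  rw [gcb_eq, cleanb_iff] at h
  exact h

theorem it_gcb_gb {k : ℕ} {x y : Cube (κ ⊕ μ)} (h : it (gcb D) k x = some y) : it (gb D) k x = some y := by
  rw [gcb_eq] at h
  exact it_cleanb k h

theorem gb_inr {x y : Cube (κ ⊕ μ)} (h : gb D x = some y) : y ∘ Sum.inr = x ∘ Sum.inr := by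
  unfold gb at h
  rw [lft_iff] at h
  exact h.2

theorem gcb_inr {x y : Cube (κ ⊕ μ)} (h : gcb D x = some y) : y ∘ Sum.inr = x ∘ Sum.inr := by
  unfold gcb at h
  rw [lft_iff] at h
  exact h.2

theorem it_gb_inr {k : ℕ} {x y : Cube (κ ⊕ μ)} (h : it (gb D) k x = some y) :
    y ∘ Sum.inr = x ∘ Sum.inr := by
  unfold gb at h
  rw [it_lft_iff] at h
  exact h.2

/-- a choice of disjoint blocks (paths with exactly `l` vertices) in every subfibre -/
structure BlkSys (S : SubLaw κ p1 h0 h1 L K M1 ε) where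
  st : S.Ω → ℕ → Finset (Cube κ)
  ok : ∀ ω l x, x ∈ st ω l → ∀ k < l, it (S.cs ω) k x ≠ none
  dis : ∀ ω l x x' k k' y, x ∈ st ω l → x' ∈ st ω l → k < l → k' < l → it (S.cs ω) k x = some y →
    it (S.cs ω) k' x' = some y → x = x' ∧ k = k'

/-- the points of the blocks -/
noncomputable def BlkSys.pt (B : BlkSys S) (ω : S.Ω) (l : ℕ) (x : {x // x ∈ B.st ω l}) (i : Fin l) : Cube κ :=
  (it (S.cs ω) i.val x.1).getD x.1

theorem BlkSys.pt_spec (B : BlkSys S) (ω : S.Ω) (l : ℕ) (x : {x // x ∈ B.st ω l}) (i : Fin l) :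
    it (S.cs ω) i.val x.1 = some (B.pt ω l x i) := by
  unfold BlkSys.pt
  obtain ⟨y, hy⟩ := Option.ne_none_iff_exists'.1 (B.ok ω l x.1 x.2 i.val i.2)
  rw [hy]; rfl

theorem BlkSys.pt_inj (B : BlkSys S) (ω : S.Ω) (l : ℕ) :
    Function.Injective fun q : {x // x ∈ B.st ω l} × Fin l => B.pt ω l q.1 q.2 := by
  rintro ⟨x, i⟩ ⟨x', i'⟩ h
  simp only at h
  have h2 := B.pt_spec ω l x i
  have h3 := B.pt_spec ω l x' i'
  rw [← h] at h3
  obtain ⟨h4, h5⟩ := B.dis ω l _ _ _ _ _ x.2 x'.2 i.2 i'.2 h2 h3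
  rw [Prod.mk.injEq]
  exact ⟨Subtype.ext h4, Fin.ext h5⟩

theorem BlkSys.pt_next (B : BlkSys S) (ω : S.Ω) (l : ℕ) (x : {x // x ∈ B.st ω l}) (i : ℕ) (hi : i + 1 < l) :
    S.cs ω (B.pt ω l x ⟨i, by omega⟩) = some (B.pt ω l x ⟨i + 1, hi⟩) := by
  have h1 := B.pt_spec ω l x ⟨i, by omega⟩
  have h2 := B.pt_spec ω l x ⟨i + 1, hi⟩
  simp only at h1 h2
  rw [← it_succ_of h1, h2]

variable (B : BlkSys S)

/-- reservoir pieces -/
abbrev RPt (l : ℕ) := Σ s : {s : Cube μ // (D s).1 = 1}, {x // x ∈ B.st (D s.1).2 l}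

/-- main pieces -/
abbrev MPt (l : ℕ) := Σ s : {s : Cube μ // (D s).1 = 0}, {x // x ∈ B.st (D s.1).2 l}

/-- the point number `i` of the block which starts in `y` in the subfibre `s` -/
noncomputable def bpv (l : ℕ) (s : Cube μ) (y : {x // x ∈ B.st (D s).2 l}) (i : Fin l) : Cube (κ ⊕ μ) :=
  jn (B.pt (D s).2 l y i) s

theorem bpv_inj {l : ℕ} {s s' : Cube μ} {y : {x // x ∈ B.st (D s).2 l}} {y' : {x // x ∈ B.st (D s').2 l}}
    {i i' : Fin l} (h : bpv D B l s y i = bpv D B l s' y' i') :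
    (⟨s, y⟩ : Σ s : Cube μ, {x // x ∈ B.st (D s).2 l}) = ⟨s', y'⟩ ∧ i = i' := by
  obtain ⟨h2, rfl⟩ := jn_inj h
  have h3 := B.pt_inj (D s).2 l (a₁ := (y, i)) (a₂ := (y', i')) h2
  rw [Prod.mk.injEq] at h3
  obtain ⟨rfl, h4⟩ := h3
  exact ⟨rfl, h4⟩

theorem bpv_inr {l : ℕ} {s : Cube μ} {y : {x // x ∈ B.st (D s).2 l}} {i : Fin l} :
    bpv D B l s y i ∘ Sum.inr = s := by
  rw [bpv, jn_inr]

theorem bpv_next {l : ℕ} {s : Cube μ} {y : {x // x ∈ B.st (D s).2 l}} (i : ℕ) (hi : i + 1 < l) :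
    gcb D (bpv D B l s y ⟨i, by omega⟩) = some (bpv D B l s y ⟨i + 1, hi⟩) := by
  unfold gcb bpv
  rw [lft_iff, jn_inl, jn_inr, jn_inl, jn_inr]
  exact ⟨B.pt_next (D s).2 l y i hi, rfl⟩

/-- the edges of the blocks -/
def gG1 (x y : Cube (κ ⊕ μ)) : Prop := gcb D x = some y ∨ gcb D y = some x

/-- the system of blocks -/
noncomputable def gBl (L2 L1 h : ℕ) (hL2 : 0 < L2) (hh : 0 < h) (hhL : 2 * h ≤ L1) :
    Blocks (gG1 D) (RPt D B L2) (MPt D B L1) L2 L1 h where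
  rp r i := bpv D B L2 r.1.1 r.2 i
  mp P i := bpv D B L1 P.1.1 P.2 i
  rp_inj := by
    rintro ⟨⟨⟨s, hs⟩, y⟩, i⟩ ⟨⟨⟨s', hs'⟩, y'⟩, i'⟩ h
    obtain ⟨h2, h3⟩ := bpv_inj D B h
    cases h2
    cases h3
    rfl
  mp_inj := by
    rintro ⟨⟨⟨s, hs⟩, y⟩, i⟩ ⟨⟨⟨s', hs'⟩, y'⟩, i'⟩ h
    obtain ⟨h2, h3⟩ := bpv_inj D B h
    cases h2
    cases h3
    rfl
  disj := by
    rintro ⟨⟨s, hs⟩, y⟩ i ⟨⟨s', hs'⟩, y'⟩ j h
    have h2 := congrArg (fun x : Cube (κ ⊕ μ) => x ∘ Sum.inr) h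
    simp only [bpv_inr] at h2
    subst h2
    rw [hs] at hs'
    cases hs'
  rp_adj := by
    rintro ⟨⟨s, hs⟩, y⟩ i hi
    exact Or.inl (bpv_next D B i hi)
  mp_adj := by
    rintro ⟨⟨s, hs⟩, y⟩ i hi
    exact Or.inl (bpv_next D B i hi)
  hL2 := hL2
  hh := hh
  hhL1 := hhL

/-- the vertices covered by the blocks of a subfibre -/
noncomputable def cvr (ω : S.Ω) (l : ℕ) : Finset (Cube κ) :=
  univ.image fun q : {x // x ∈ B.st ω l} × Fin l => B.pt ω l q.1 q.2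

/-- the reservoir part of a subfibre -/
noncomputable def Rsb (l : ℕ) (a : Fin 4 × S.Ω) : Finset (Cube κ) := if a.1 = 1 then cvr B a.2 l else ∅

theorem gBl_R (L2 L1 h : ℕ) (hL2 : 0 < L2) (hh : 0 < h) (hhL : 2 * h ≤ L1) :
    (Finset.univ : Finset (RPt D B L2)).biUnion (gBl D B L2 L1 h hL2 hh hhL).rset = Rall (Rsb B L2) D := by
  classical
  ext x
  rw [mem_Rall]
  simp only [mem_biUnion, mem_univ, true_and, Blocks.rset, mem_image]
  constructor
  · rintro ⟨⟨⟨s, hs⟩, y⟩, i, rfl⟩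
    show bpv D B L2 s y i ∘ Sum.inl ∈ Rsb B L2 (D (bpv D B L2 s y i ∘ Sum.inr))
    rw [bpv_inr, bpv, jn_inl]
    simp only [Rsb, hs, if_true, cvr, mem_image, mem_univ, true_and]
    exact ⟨(y, i), rfl⟩
  · intro hx
    by_cases hz : (D (x ∘ Sum.inr)).1 = 1
    · simp only [Rsb, hz, if_true, cvr, mem_image, mem_univ, true_and] at hx
      obtain ⟨⟨y, i⟩, hy⟩ := hx
      refine ⟨⟨⟨x ∘ Sum.inr, hz⟩, y⟩, i, ?_⟩
      show bpv D B L2 (x ∘ Sum.inr) y i = x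
      rw [bpv, hy, jn_self]
    · simp [Rsb, hz] at hx

theorem card_cvr (ω : S.Ω) (l : ℕ) : (cvr B ω l).card = (B.st ω l).card * l := by
  unfold cvr
  rw [card_image_of_injective _ (B.pt_inj ω l), card_univ, Fintype.card_prod, Fintype.card_fin,
    Fintype.card_coe]

/-- number of main blocks of a subfibre -/
noncomputable def nmb (l : ℕ) (a : Fin 4 × S.Ω) : ℕ := if a.1 = 0 then (B.st a.2 l).card else 0

theorem card_MPt (l : ℕ) : Fintype.card (MPt D B l) = ∑ s, nmb B l (D s) := by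
  classical
  rw [Fintype.card_sigma]
  simp only [Fintype.card_coe]
  have h1 : ∑ s ∈ univ.filter (fun s : Cube μ => (D s).1 = 0), (B.st (D s).2 l).card =
      ∑ x : {s : Cube μ // (D s).1 = 0}, (B.st (D x.1).2 l).card :=
    Finset.sum_subtype _ (fun s => by simp) _
  rw [← h1, sum_filter]
  rfl

end con

end Pool.Agent.LongCyc.Dense
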