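import Pool.Agent.LongCyc.Dense.Field

/-!
# Dense regime, sections 1, 2: interface of the base fibre

`β` = directions of the base fibre.  A base fibre carries: open edges `hb`, the Gray coded 2-factor `b` (`F_base`), the 2-matching
`c` (`F_0`: the giant and the rest of `F_base`), usable vertices `U`, first vertices `Gd` of good runs (of `L` vertices of `b`),
first vertices `PS` of the reservoir pieces (runs of `Vr` vertices), the vertex set `G` of the giant, first vertices `res` of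
the reserved runs of the giant.
-/

set_option autoImplicit false

namespace Pool.Agent.LongCyc.Dense

open Finset

section BD

variable {β : Type} [DecidableEq β] [Fintype β]

/-- data of a base fibre -/
structure BD (β : Type) [DecidableEq β] [Fintype β] (nR : ℕ) where
  hb : CE β → Bool
  b : Cube β → Option (Cube β)
  c : Cube β → Option (Cube β)
  U : Finset (Cube β)
  Gd : Finset (Cube β)
  PS : Finset (Cube β)
  G : Finset (Cube β)
  res : Fin nR → Cube β

variable {nR : ℕ}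

/-- translation of a partial map -/
def trc (c : Cube β → Option (Cube β)) (τ : Cube β) (y : Cube β) : Option (Cube β) :=
  (c (xr y τ)).map fun v => xr v τ

/-- translation of a set -/
def trS (S : Finset (Cube β)) (τ : Cube β) : Finset (Cube β) := S.image fun v => xr v τ

/-- translation of an edge -/
def trE (τ : Cube β) (e : CE β) : CE β := (canE β).e (xr e.1.1 τ) e.1.2

/-- translation of the data of a base fibre -/
def BD.tr (D : BD β nR) (τ : Cube β) : BD β nR where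
  hb := fun e => D.hb (trE τ e)
  b := trc D.b τ
  c := trc D.c τ
  U := trS D.U τ
  Gd := trS D.Gd τ
  PS := trS D.PS τ
  G := trS D.G τ
  res := fun i => xr (D.res i) τ

/-- the `D0`-edges of the run of `L` vertices from `u` -/
noncomputable def runD0 (D0 : Finset β) (b : Cube β → Option (Cube β)) (L : ℕ) (u : Cube β) : Finset (CE β) := by
  classical
  exact univ.filter fun e => e.1.2 ∈ D0 ∧ ∃ k y, k + 1 < L ∧ it b k u = some y ∧ b y = some (flip e.1.2 y) ∧
    (canE β).e y e.1.2 = e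

/-- the free (not reserved) `D0`-edges of the giant -/
noncomputable def BD.opt (D : BD β nR) (D0 : Finset β) (L : ℕ) : Finset (CE β) := by
  classical
  exact univ.filter fun e => e.1.2 ∈ D0 ∧ (∀ i, e ∉ runD0 D0 D.b L (D.res i)) ∧
    ∃ y ∈ D.G, D.c y = some (flip e.1.2 y) ∧ D.b y = D.c y ∧ (canE β).e y e.1.2 = e

/-- `y` is a vertex of a reservoir piece -/
def BD.inP (D : BD β nR) (Vr : ℕ) (y : Cube β) : Prop := ∃ x ∈ D.PS, ∃ k < Vr, it D.b k x = some y

/-- deterministic properties of the data of a base fibre -/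
structure BD.Val (D : BD β nR) (D0 : Finset β) (Adms : Finset (CE β) → Prop) (L Vr Bd : ℕ) : Prop where
  bInj : PInj D.b
  cInj : PInj D.c
  bOpen : ∀ y y', D.b y = some y' → opn (canE β) D.hb y y'
  cOpen : ∀ y y', D.c y = some y' → opn (canE β) D.hb y y'
  no2b : ∀ y y', D.b y = some y' → D.b y' ≠ some y
  no2 : ∀ y y', D.c y = some y' → D.c y' ≠ some y
  /-- the `D0`-edges of `b` form a matching -/
  mat : ∀ y, ∀ i ∈ D0, ∀ i' ∈ D0, (D.b y = some (flip i y) ∨ D.b (flip i y) = some y) →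
    (D.b y = some (flip i' y) ∨ D.b (flip i' y) = some y) → i = i'
  gdef : ∀ u ∈ D.Gd, it D.b (L - 1) u ≠ none
  gopen : ∀ u ∈ D.Gd, ∀ k, 1 ≤ k → k ≤ L → it D.b k u ≠ some u
  gadm : ∀ u ∈ D.Gd, Adms (runD0 D0 D.b L u)
  str : Stretch D.b (fun u => u ∈ D.Gd) L D.c Bd
  uf : ∀ w ∈ D.U, ∃ u ∈ D.Gd, D.b w = some u ∧ D.c w = some u ∧ Intact D.b D.c L u
  ub : ∀ w ∈ D.U, ∃ u ∈ D.Gd, it D.b (L - 1) u = some w ∧ Intact D.b D.c L u
  pint : ∀ x ∈ D.PS, ∀ k, k + 1 < Vr → ∃ y y', it D.b k x = some y ∧ D.b y = some y' ∧ D.c y = some y'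
  pU : ∀ y, D.inP Vr y → y ∉ D.U ∧ y ∉ D.G
  pdis : ∀ x ∈ D.PS, ∀ x' ∈ D.PS, ∀ k < Vr, ∀ k' < Vr, ∀ y, it D.b k x = some y → it D.b k' x' = some y →
    x = x' ∧ k = k'
  gU : ∀ y ∈ D.G, y ∉ D.U
  gcyc : ∀ y ∈ D.G, ∃ y' ∈ D.G, D.c y = some y'
  gorb : ∀ y ∈ D.G, ∀ y' ∈ D.G, ∃ k, it D.c k y = some y'
  rgd : D.G.Nonempty → ∀ i, D.res i ∈ D.Gd ∧ D.res i ∈ D.G ∧ Intact D.b D.c L (D.res i)
  rdis : D.G.Nonempty → ∀ i i' k k' y, k < L → k' < L → it D.b k (D.res i) = some y → it D.b k' (D.res i') = some y →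
    i = i'

/-- **base law**: numerical parameters `pb` (edge probability inside the base fibres), `u0` (density of the ends), `α` (density
of the usable vertices), `ρ` (density of the reservoir), `L` (run length), `Vr` (piece length), `Bd` (stretch constant), `M0`
(number of parallel edges), `nR` (number of reserved runs) -/
structure BaseLaw (β : Type) [DecidableEq β] [Fintype β] (nR : ℕ) (pb : ℝ) (h0 : 0 ≤ pb) (h1 : pb ≤ 1)
    (u0 α ρ : ℝ) (L Vr Bd M0 : ℕ) where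
  Ω : Type
  fin : Fintype Ω
  μ : FP Ω
  bd : Ω → BD β nR
  act : Cube β → Ω ≃ Ω
  act_w : ∀ τ ω, μ.w (act τ ω) = μ.w ω
  act_bd : ∀ τ ω, bd (act τ ω) = (bd ω).tr τ
  D0 : Finset β
  Adms : Finset (CE β) → Prop
  /-- the edges of an admissible set are pairwise disjoint `D0`-edges -/
  admD : ∀ A, Adms A → (∀ e ∈ A, e.1.2 ∈ D0) ∧ ∀ e ∈ A, ∀ e' ∈ A, e ≠ e' →
    e.1.1 ≠ e'.1.1 ∧ e.1.1 ≠ flip e'.1.2 e'.1.1 ∧ flip e.1.2 e.1.1 ≠ e'.1.1 ∧ flip e.1.2 e.1.1 ≠ flip e'.1.2 e'.1.1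
  val : ∀ ω, (bd ω).Val D0 Adms L Vr Bd
  hbLaw : ∀ F : (CE β → Bool) → ℝ, μ.E (fun ω => F (bd ω).hb) = (bern pb h0 h1 (CE β)).E F
  ends : ∀ y, μ.pr (fun ω => (bd ω).c y = none) ≤ u0
  use : ∀ y, α ≤ μ.pr (fun ω => y ∈ (bd ω).U)
  resv : ∀ y, ρ ≤ μ.pr (fun ω => (bd ω).inP Vr y)
  resv2 : ∀ y k, ρ ^ 3 ≤ μ.pr (fun ω => (bd ω).inP Vr y ∧ (bd ω).inP Vr (flip k y))
  giant : 1 - 1 / 500 ≤ μ.pr (fun ω => (bd ω).G.Nonempty)
  parl : ∀ A, Adms A → 1 - 1 / 500 ≤ μ.pr (fun ω => M0 ≤ (A ∩ (bd ω).opt D0 L).card)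

end BD

end Pool.Agent.LongCyc.Dense
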