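import Pool.Agent.LongCyc.Dense.SubMk

/-!
# Dense regime: the law of one subfibre, numerical form
-/

set_option autoImplicit false

namespace Pool.Agent.LongCyc.Dense

open Finset

/-- **the law of one subfibre**, numerical form -/
theorem exists_subLaw_num (eK eε : ℕ) (heK : 7 ≤ eK) : ∃ (r d0 : ℕ) (K0 : ℝ), 2 ≤ r ∧ 0 < K0 ∧
    ∀ (d : ℕ) (p : ℝ) (h0 : 0 ≤ p) (h1 : p ≤ 1), d0 ≤ d → K0 * Real.log d ≤ p * d →
      1 ≤ d / (10 * r) ∧ 10 * r * (d / (10 * r)) ≤ d ∧ d ≤ 20 * r * (d / (10 * r)) ∧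
      ∀ M1 : ℕ, 8 * (d / (10 * r)) * M1 ≤ d ^ 6 - 1 →
        ∃ S : SubLaw (Fin r × Fin (d / (10 * r))) p h0 h1 (d ^ 6 - 1) (d ^ eK) M1
          (1 / (d : ℝ) ^ eε), S.D0.card = d / (10 * r) := by
  set r : ℕ := 2 * eK + eε + 4 with hr
  refine ⟨r, 2 * (20 * r) ^ (r - 1) + 20 * r + 100 * (eε + 10) ^ 2, 8000 * r * (eK + eε + 6), by omega,
    by positivity, ?_⟩
  intro d p h0 h1 hd hK0
  set m := d / (10 * r) with hm
  have hr1 : 1 ≤ r := by omega
  have hd1 : 20 * r ≤ d := by omega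
  have hdm : 10 * r * m ≤ d := Nat.mul_div_le _ _
  have hm1 : 1 ≤ m := by
    rw [hm, Nat.le_div_iff_mul_le (by omega)]
    omega
  have hdm2 : d ≤ 20 * r * m := by
    have h2 : d < 10 * r * (m + 1) := by
      rw [hm]
      exact Nat.lt_mul_div_succ d (by omega)
    have h3 : 10 * r * 1 ≤ 10 * r * m := Nat.mul_le_mul_left _ hm1
    nlinarith
  refine ⟨hm1, hdm, hdm2, ?_⟩
  intro M1 hM1
  have hmR : (1 : ℝ) ≤ m := by exact_mod_cast hm1
  have hrR : (1 : ℝ) ≤ r := by exact_mod_cast hr1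
  have hdR : (100 : ℝ) ≤ d := by
    have : 100 ≤ d := by nlinarith
    exact_mod_cast this
  have hd0 : (0 : ℝ) < d := by linarith
  have hdmR : (d : ℝ) ≤ 20 * r * m := by exact_mod_cast hdm2
  have hlog1 : (1 : ℝ) ≤ Real.log d := by
    rw [Real.le_log_iff_exp_le hd0]
    have := Real.exp_one_lt_d9
    linarith
  have hcard : Fintype.card (Fin m) = m := Fintype.card_fin m
  -- the density of the unmatched vertices
  have hpm : 400 * ((eK + eε + 6 : ℕ) : ℝ) * Real.log d ≤ p * m := by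
    have h2 : 8000 * r * (eK + eε + 6 : ℝ) * Real.log d ≤ p * (20 * r * m) :=
      hK0.trans (mul_le_mul_of_nonneg_left hdmR h0)
    have h3 : (20 * r : ℝ) * (400 * ((eK + eε + 6 : ℕ) : ℝ) * Real.log d) ≤ (20 * r : ℝ) * (p * m) := by
      push_cast
      linarith
    exact le_of_mul_le_mul_left h3 (by linarith)
  have h2000 : 2000 ≤ p * (Fintype.card (Fin m) : ℝ) := by
    rw [hcard]
    refine le_trans ?_ hpm
    have h4 : (6 : ℝ) ≤ ((eK + eε + 6 : ℕ) : ℝ) := by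
      push_cast
      have : (0 : ℝ) ≤ eK := Nat.cast_nonneg _
      have : (0 : ℝ) ≤ eε := Nat.cast_nonneg _
      linarith
    nlinarith
  have heta := eta_le (D := Fin m) (h0 := h0) (h1 := h1) h2000
  rw [hcard] at heta
  have hexp : Real.exp (-(p * m) / 400) ≤ 1 / (d : ℝ) ^ (eK + eε + 6) := by
    have h5 : (d : ℝ) ^ (eK + eε + 6) = Real.exp ((eK + eε + 6 : ℕ) * Real.log d) := by
      rw [mul_comm, Real.exp_mul, Real.exp_log hd0, Real.rpow_natCast]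
    rw [h5, one_div, ← Real.exp_neg]
    apply Real.exp_le_exp.2
    linarith
  have heta0 : 0 ≤ eta (Fin m) p h0 h1 := eta_nonneg
  have hKeta : ((d ^ eK : ℕ) : ℝ) * eta (Fin m) p h0 h1 ≤ 1 / 2 * (1 / (d : ℝ) ^ eε) := by
    push_cast
    calc (d : ℝ) ^ eK * eta (Fin m) p h0 h1 ≤ (d : ℝ) ^ eK * (5 * (1 / (d : ℝ) ^ (eK + eε + 6))) := by
          apply mul_le_mul_of_nonneg_left _ (by positivity)
          linarith
      _ = (5 / (d : ℝ) ^ 6) * (1 / (d : ℝ) ^ eε) := by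
          rw [pow_add, pow_add]
          field_simp
      _ ≤ 1 / 2 * (1 / (d : ℝ) ^ eε) := by
          apply mul_le_mul_of_nonneg_right _ (by positivity)
          rw [div_le_iff₀ (by positivity)]
          have : (100 : ℝ) ^ 6 ≤ (d : ℝ) ^ 6 := pow_le_pow_left₀ (by norm_num) hdR 6
          linarith
  -- returns
  have hret : ((d ^ eK : ℕ) : ℝ) ^ 2 / (Fintype.card (Fin m) : ℝ) ^ (r - 1) ≤
      1 / 2 * (1 / (d : ℝ) ^ eε) := by
    rw [hcard, div_le_iff₀ (by positivity)]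
    push_cast
    have e1 : (d : ℝ) ^ (r - 1) ≤ (20 * r) ^ (r - 1) * (m : ℝ) ^ (r - 1) := by
      rw [← mul_pow]
      exact pow_le_pow_left₀ hd0.le hdmR _
    have e2 : r - 1 = 2 * eK + eε + 2 + 1 := by omega
    have e3 : 2 * (20 * (r : ℝ)) ^ (r - 1) ≤ d := by
      have : 2 * (20 * r) ^ (r - 1) ≤ d := by omega
      exact_mod_cast this
    have e4 : ((d : ℝ) ^ eK) ^ 2 * (d : ℝ) ^ eε * (d : ℝ) ^ 2 * d = (d : ℝ) ^ (r - 1) := by
      rw [e2, pow_add, pow_add, pow_add, ← pow_mul]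
      ring
    have hA : (0 : ℝ) < (20 * r) ^ (r - 1) := by positivity
    -- (d^eK)^2 * d^eε * 2 * (20r)^(r-1) ≤ (20r)^(r-1) m^(r-1)
    have e5 : ((d : ℝ) ^ eK) ^ 2 * (d : ℝ) ^ eε * (2 * (20 * (r : ℝ)) ^ (r - 1)) ≤
        (20 * r) ^ (r - 1) * (m : ℝ) ^ (r - 1) := by
      refine le_trans ?_ e1
      rw [← e4]
      have e6 : (1 : ℝ) ≤ (d : ℝ) ^ 2 := one_le_pow₀ (by linarith)
      calc ((d : ℝ) ^ eK) ^ 2 * (d : ℝ) ^ eε * (2 * (20 * (r : ℝ)) ^ (r - 1))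
          ≤ ((d : ℝ) ^ eK) ^ 2 * (d : ℝ) ^ eε * d := mul_le_mul_of_nonneg_left e3 (by positivity)
        _ = ((d : ℝ) ^ eK) ^ 2 * (d : ℝ) ^ eε * 1 * d := by ring
        _ ≤ ((d : ℝ) ^ eK) ^ 2 * (d : ℝ) ^ eε * (d : ℝ) ^ 2 * d := by gcongr
    have e7 : (20 * (r : ℝ)) ^ (r - 1) * (2 * (((d : ℝ) ^ eK) ^ 2 * (d : ℝ) ^ eε)) ≤
        (20 * (r : ℝ)) ^ (r - 1) * (m : ℝ) ^ (r - 1) := by linarith
    have e8 := le_of_mul_le_mul_left e7 hA
    have e9 : (0 : ℝ) < (d : ℝ) ^ eε := by positivity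
    rw [show (1 / 2 * (1 / (d : ℝ) ^ eε) * (m : ℝ) ^ (r - 1)) = ((m : ℝ) ^ (r - 1)) / (2 * (d : ℝ) ^ eε)
      by field_simp, le_div_iff₀ (by positivity)]
    linarith
  have hKK : ((d ^ eK : ℕ) : ℝ) * eta (Fin m) p h0 h1 + ((d ^ eK : ℕ) : ℝ) ^ 2 /
      (Fintype.card (Fin m) : ℝ) ^ (r - 1) ≤ 1 / (d : ℝ) ^ eε := by linarith
  have hne : Nonempty (Fin m) := ⟨⟨0, hm1⟩⟩
  have hfin : ∃ S : SubLaw (Fin r × Fin m) p h0 h1 (d ^ 6 - 1) (d ^ eK) M1
      (1 / (d : ℝ) ^ eε), S.D0.card = Fintype.card (Fin m) := by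
   refine exists_subLaw (by omega) h0 h1 _ _ M1 ?_ hKK ?_
   · -- `L + 5 ≤ K`
     refine le_trans ?_ hKK
     have h6 : d ^ 6 - 1 + 5 ≤ d ^ eK := by
       have hd100 : 100 ≤ d := by exact_mod_cast hdR
       have h7 : d ^ 7 ≤ d ^ eK := Nat.pow_le_pow_right (by omega) heK
       have h8 : 1 ≤ d ^ 6 := Nat.one_le_pow _ _ (by omega)
       have h9 : d ^ 7 = d ^ 6 * d := by ring
       have h10 : d ^ 6 * 100 ≤ d ^ 6 * d := Nat.mul_le_mul_left _ hd100
       have h11 : d ^ 6 - 1 + 5 ≤ d ^ 6 * 100 := by omega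
       exact h11.trans (h10.trans (h9.symm.le.trans h7))
     have h7 : ((d ^ 6 - 1 + 5 : ℕ) : ℝ) ≤ ((d ^ eK : ℕ) : ℝ) := by exact_mod_cast h6
     have h8 : (0 : ℝ) ≤ ((d ^ 6 - 1 + 5 : ℕ) : ℝ) := Nat.cast_nonneg _
     refine add_le_add (mul_le_mul_of_nonneg_right h7 heta0) ?_
     exact div_le_div_of_nonneg_right (pow_le_pow_left₀ h8 h7 2) (by positivity)
   · -- the lower tail
     rw [hcard]
     have g1 : eta (Fin m) p h0 h1 ≤ 1 / 100 := by
       have h7 : (1 : ℝ) / (d : ℝ) ^ (eK + eε + 6) ≤ 1 / d := by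
         apply one_div_le_one_div_of_le hd0
         calc (d : ℝ) = (d : ℝ) ^ 1 := (pow_one _).symm
           _ ≤ (d : ℝ) ^ (eK + eε + 6) := pow_le_pow_right₀ (by linarith) (by omega)
       have h8 : (d : ℝ) ^ 6 * eta (Fin m) p h0 h1 ≤ 5 := by
         calc (d : ℝ) ^ 6 * eta (Fin m) p h0 h1
             ≤ (d : ℝ) ^ (eK + eε + 6) * (5 * (1 / (d : ℝ) ^ (eK + eε + 6))) := by
               apply mul_le_mul _ _ heta0 (by positivity)
               · exact pow_le_pow_right₀ (by linarith) (by omega)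
               · linarith
           _ = 5 := by field_simp
       have h9 : (100 : ℝ) ^ 6 ≤ (d : ℝ) ^ 6 := pow_le_pow_left₀ (by norm_num) hdR 6
       nlinarith
     have g2 : Real.exp (-1) ≤ 37 / 100 := by
       rw [Real.exp_neg, inv_le_comm₀ (Real.exp_pos _) (by norm_num)]
       have := Real.exp_one_gt_d9
       linarith
     -- `((L - 1)/2 : ℕ) ≥ (d^6 - 4)/2`
     have g3 : ((d : ℝ) ^ 6 - 3) / 2 ≤ (((d ^ 6 - 1 - 1) / 2 : ℕ) : ℝ) := by
       have h7 : d ^ 6 ≤ 2 * ((d ^ 6 - 1 - 1) / 2) + 3 := by omega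
       have h8 : (d : ℝ) ^ 6 ≤ 2 * (((d ^ 6 - 1 - 1) / 2 : ℕ) : ℝ) + 3 := by exact_mod_cast h7
       linarith
     have g4 : (8 * m * M1 : ℝ) ≤ (d : ℝ) ^ 6 := by
       have h7 : 8 * m * M1 ≤ d ^ 6 := hM1.trans (Nat.sub_le _ _)
       exact_mod_cast h7
     have g5 : (M1 : ℝ) ≤ (d : ℝ) ^ 6 / (8 * m) := by
       rw [le_div_iff₀ (by positivity)]
       linarith
     have g6 : (d : ℝ) ^ 6 / (6 * m) ≤
         (1 - Real.exp (-1)) * ((1 - eta (Fin m) p h0 h1) / m) * (((d ^ 6 - 1 - 1) / 2 : ℕ) : ℝ) := by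
       have h7 : (63 / 100 : ℝ) ≤ 1 - Real.exp (-1) := by linarith
       have h8 : (99 / 100 / m : ℝ) ≤ (1 - eta (Fin m) p h0 h1) / m :=
         div_le_div_of_nonneg_right (by linarith) (by positivity)
       have h9 : (100 : ℝ) ^ 6 ≤ (d : ℝ) ^ 6 := pow_le_pow_left₀ (by norm_num) hdR 6
       calc (d : ℝ) ^ 6 / (6 * m) ≤ (63 / 100) * (99 / 100 / m) * (((d : ℝ) ^ 6 - 3) / 2) := by
             rw [div_le_iff₀ (by positivity)]
             have : (63 / 100 : ℝ) * (99 / 100 / m) * (((d : ℝ) ^ 6 - 3) / 2) * (6 * m) =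
               63 / 100 * (99 / 100) * 3 * ((d : ℝ) ^ 6 - 3) := by
               field_simp
               ring
             rw [this]
             linarith
         _ ≤ _ := by
             have h10 : (0 : ℝ) ≤ ((d : ℝ) ^ 6 - 3) / 2 := by linarith
             gcongr
             · exact mul_nonneg (by linarith) (div_nonneg (by linarith) (by linarith))
     have g7 : (M1 : ℝ) - (1 - Real.exp (-1)) * ((1 - eta (Fin m) p h0 h1) / m) *
         (((d ^ 6 - 1 - 1) / 2 : ℕ) : ℝ) ≤ -(d : ℝ) ^ 6 / (24 * m) := by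
       have : (d : ℝ) ^ 6 / (8 * m) - (d : ℝ) ^ 6 / (6 * m) = -(d : ℝ) ^ 6 / (24 * m) := by
         field_simp
         ring
       linarith
     have g8 : (eε : ℝ) * Real.log d ≤ (d : ℝ) ^ 6 / (24 * m) := by
       have h7 : Real.log d ≤ d := (Real.log_le_sub_one_of_pos hd0).trans (by linarith)
       have h8 : (eε : ℝ) ≤ d := by
         have : eε ≤ d := by nlinarith
         exact_mod_cast this
       have h9 : (m : ℝ) ≤ d := by
         have : m ≤ d := Nat.div_le_self _ _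
         exact_mod_cast this
       rw [le_div_iff₀ (by positivity)]
       have h10 : (eε : ℝ) * Real.log d ≤ d * d :=
         mul_le_mul h8 h7 (by linarith) hd0.le
       have h11 : (eε : ℝ) * Real.log d * (24 * m) ≤ (d * d) * (24 * d) := by
         apply mul_le_mul h10 (by linarith) (by positivity) (by positivity)
       refine h11.trans ?_
       have h12 : (24 : ℝ) ≤ (d : ℝ) ^ 3 := by
         have := pow_le_pow_left₀ (by norm_num) hdR 3
         linarith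
       calc (d : ℝ) * d * (24 * d) = 24 * (d : ℝ) ^ 3 := by ring
         _ ≤ (d : ℝ) ^ 3 * (d : ℝ) ^ 3 := mul_le_mul_of_nonneg_right h12 (by positivity)
         _ = (d : ℝ) ^ 6 := by ring
     have g9 : (1 : ℝ) / (d : ℝ) ^ eε = Real.exp (-(eε * Real.log d)) := by
       rw [Real.exp_neg, mul_comm, Real.exp_mul, Real.exp_log hd0, Real.rpow_natCast, one_div]
     rw [g9]
     apply Real.exp_le_exp.2
     have : -(d : ℝ) ^ 6 / (24 * m) = -((d : ℝ) ^ 6 / (24 * m)) := neg_div _ _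
     linarith
  rw [Fintype.card_fin] at hfin
  exact hfin

end Pool.Agent.LongCyc.Dense
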