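import Pool.Agent.LongCyc.Dense.BasePre
import Pool.Agent.LongCyc.Dense.SubNum

/-!
# Dense regime: existence of the base law (numerics)
-/

set_option autoImplicit false

namespace Pool.Agent.LongCyc.Dense

open Finset Filter Topology

/-- fewer parallel edges -/
theorem BaseLaw.mono {β : Type} [DecidableEq β] [Fintype β] {nR : ℕ} {pb : ℝ} {h0 : 0 ≤ pb} {h1 : pb ≤ 1}
    {u0 α ρ : ℝ} {L Vr Bd M0 M : ℕ} (B : BaseLaw β nR pb h0 h1 u0 α ρ L Vr Bd M) (h : M0 ≤ M) :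
    Nonempty (BaseLaw β nR pb h0 h1 u0 α ρ L Vr Bd M0) := by
  refine ⟨{ Ω := B.Ω
            fin := B.fin
            μ := B.μ
            bd := B.bd
            act := B.act
            act_w := B.act_w
            act_bd := B.act_bd
            D0 := B.D0
            Adms := B.Adms
            admD := B.admD
            val := B.val
            hbLaw := B.hbLaw
            ends := B.ends
            use := B.use
            resv := B.resv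
            resv2 := B.resv2
            giant := B.giant
            parl := ?_ }⟩
  intro A hA
  let fin : Fintype B.Ω := B.fin
  exact le_trans (B.parl A hA) (FP.pr_mono _ fun ω h2 => h.trans h2)

/-! ### Growth -/

theorem pow_le_exp_ev (k : ℕ) {b : ℝ} (hb : 0 < b) : ∃ d0 : ℕ, ∀ d : ℕ, d0 ≤ d →
    (d : ℝ) ^ k ≤ Real.exp (b * d) := by
  have h := Real.tendsto_pow_mul_exp_neg_atTop_nhds_zero k
  have hbk : (0 : ℝ) < b ^ k := by positivity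
  have h2 : ∀ᶠ x : ℝ in atTop, x ^ k * Real.exp (-x) < b ^ k := h.eventually (gt_mem_nhds hbk)
  have h3 : Tendsto (fun d : ℕ => b * (d : ℝ)) atTop atTop :=
    Tendsto.const_mul_atTop hb tendsto_natCast_atTop_atTop
  obtain ⟨d0, hd0⟩ := eventually_atTop.1 (h3.eventually h2)
  refine ⟨d0, fun d hd => ?_⟩
  have h4 := hd0 d hd
  rw [Real.exp_neg, ← div_eq_mul_inv, div_lt_iff₀ (Real.exp_pos _), mul_pow] at h4
  exact (lt_of_mul_lt_mul_left h4 hbk.le).le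

theorem pow_le_two_ev (k : ℕ) : ∃ d0 : ℕ, ∀ d : ℕ, d0 ≤ d → d ^ k ≤ 2 ^ (d / 10) := by
  obtain ⟨d0, hd0⟩ := pow_le_exp_ev (k + 1) (b := 1 / 20) (by norm_num)
  refine ⟨d0 + 2, fun d hd => ?_⟩
  have h1 := hd0 d (by omega)
  have h2 : (d : ℝ) ≤ 10 * ((d / 10 : ℕ) : ℝ) + 9 := by
    have : d ≤ 10 * (d / 10) + 9 := by omega
    exact_mod_cast this
  have h3 : Real.exp (1 / 20 * d) ≤ 2 * 2 ^ (d / 10) := by
    have h4 : (2 : ℝ) * 2 ^ (d / 10) = Real.exp (((d / 10 + 1 : ℕ) : ℝ) * Real.log 2) := by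
      rw [mul_comm (((d / 10 + 1 : ℕ) : ℝ)), Real.exp_mul, Real.exp_log (by norm_num), Real.rpow_natCast,
        pow_succ, mul_comm]
    rw [h4]
    apply Real.exp_le_exp.2
    have h5 := Real.log_two_gt_d9
    push_cast
    have h6 : (0 : ℝ) ≤ ((d / 10 : ℕ) : ℝ) := Nat.cast_nonneg _
    nlinarith
  have hd2 : (2 : ℝ) ≤ d := by
    have : 2 ≤ d := by omega
    exact_mod_cast this
  have h6 : (2 : ℝ) * d ^ k ≤ 2 * 2 ^ (d / 10) := by
    calc (2 : ℝ) * d ^ k ≤ d * d ^ k := mul_le_mul_of_nonneg_right hd2 (by positivity)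
      _ = d ^ (k + 1) := by ring
      _ ≤ _ := h1.trans h3
  have h7 : (d : ℝ) ^ k ≤ 2 ^ (d / 10) := by linarith
  exact_mod_cast h7

/-- the probability that there is no giant is small -/
theorem gBd_small : ∃ d0 : ℕ, ∀ (d dk dmu T : ℕ) (p2 : ℝ), d0 ≤ d → dmu = d / 10 → dk ≤ dmu →
    (T : ℝ) ≤ Real.sqrt d + 1 → 1 / (5 * (d : ℝ)) ≤ p2 →
    gBd dk dmu T (d ^ 10) (1 / 4000) p2 ≤ 1 / (d : ℝ) ^ 2 := by
  set c : ℝ := (1 - Real.exp (-1)) * (1 / 4000 / 2) ^ 3 with hc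
  have hc0 : 0 < c := by
    have : Real.exp (-1) < 1 := by
      rw [Real.exp_lt_one_iff]
      norm_num
    have h2 : 0 < 1 - Real.exp (-1) := by linarith
    positivity
  have hc1 : c ≤ 1 := by
    have h1 : 1 - Real.exp (-1) ≤ 1 := by
      have := Real.exp_pos (-1)
      linarith
    have h2 : (0 : ℝ) ≤ 1 - Real.exp (-1) := by
      have : Real.exp (-1) ≤ 1 := by
        rw [Real.exp_le_one_iff]
        norm_num
      linarith
    rw [hc]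
    calc (1 - Real.exp (-1)) * (1 / 4000 / 2) ^ 3 ≤ 1 * 1 := by
          apply mul_le_mul h1 (by norm_num) (by norm_num) (by norm_num)
      _ = 1 := by norm_num
  obtain ⟨d1, hd1⟩ := pow_le_exp_ev 16 (b := c / 40) (by positivity)
  obtain ⟨d2, hd2⟩ := pow_le_two_ev 10
  obtain ⟨d3, hd3⟩ := pow_le_exp_ev 3 (b := 1) (by norm_num)
  set C1 : ℝ := Real.exp (1 + 3 * c + 40 / c) with hC1
  obtain ⟨d4, hd4⟩ := exists_nat_ge C1
  refine ⟨d1 + d2 + d3 + d4 + 1000, ?_⟩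
  intro d dk dmu T p2 hd hdmu hdk hT hp2
  have hdR : (1000 : ℝ) ≤ d := by
    have : 1000 ≤ d := by omega
    exact_mod_cast this
  have hd0 : (0 : ℝ) < d := by linarith
  have hmd : (dmu : ℝ) ≤ d := by
    have : dmu ≤ d := by omega
    exact_mod_cast this
  have hkd : (dk : ℝ) ≤ d := by
    have : dk ≤ d := by omega
    exact_mod_cast this
  have hDd : 5 * ((dk + dmu : ℕ) : ℝ) ≤ d := by
    have : 5 * (dk + dmu) ≤ d := by omega
    exact_mod_cast this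
  have hDd' : ((dk + dmu : ℕ) : ℝ) ≤ d / 5 := by linarith
  have hmd2 : (d : ℝ) ≤ 10 * dmu + 9 := by
    have : d ≤ 10 * dmu + 9 := by omega
    exact_mod_cast this
  have hD0 : (0 : ℝ) ≤ ((dk + dmu : ℕ) : ℝ) := Nat.cast_nonneg _
  have hDpos : (0 : ℝ) < ((dk + dmu : ℕ) : ℝ) := by
    have : 0 < dk + dmu := by omega
    exact_mod_cast this
  have hdC : C1 ≤ d := by
    refine hd4.trans ?_
    have : d4 ≤ d := by omega
    exact_mod_cast this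
  have hpow2 : ((d : ℝ)) ^ 10 ≤ 2 ^ dmu := by
    have := hd2 d (by omega)
    rw [← hdmu] at this
    exact_mod_cast this
  have hsq : Real.sqrt d ≤ c / 40 * d + 40 / c := by
    have h1 := Real.sq_sqrt hd0.le
    have h2 : 0 ≤ Real.sqrt d := Real.sqrt_nonneg _
    set s := Real.sqrt d
    rw [← h1]
    have h3 : 0 ≤ (c / 40 * s - 1) ^ 2 * (40 / c) := by positivity
    have h4 : (c / 40 * s - 1) ^ 2 * (40 / c) = c / 40 * s ^ 2 - 2 * s + 40 / c := by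
      field_simp
      ring
    linarith
  -- first term
  have t1 : ((dmu : ℝ) ^ 2 + dk) * Real.exp (T - (1 - Real.exp (-1)) * (1 / 4000 / 2) ^ 3 * (dmu - 2)) *
      ((dk + dmu : ℕ) : ℝ) ^ 8 ≤ 1 / (4 * (d : ℝ) ^ 2) := by
    rw [← hc]
    have e1 : (dmu : ℝ) ^ 2 + dk ≤ (d : ℝ) ^ 3 := by
      have g1 : (dmu : ℝ) ^ 2 ≤ (d : ℝ) ^ 2 := pow_le_pow_left₀ (Nat.cast_nonneg _) hmd 2
      have g2 : (d : ℝ) ≤ (d : ℝ) ^ 2 := by nlinarith
      have g3 : (d : ℝ) ^ 3 = d * (d : ℝ) ^ 2 := by ring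
      have g4 : 2 * (d : ℝ) ^ 2 ≤ d * (d : ℝ) ^ 2 :=
        mul_le_mul_of_nonneg_right (by linarith) (by positivity)
      linarith
    have e2 : ((dk + dmu : ℕ) : ℝ) ^ 8 ≤ (d : ℝ) ^ 8 := pow_le_pow_left₀ hD0 (by linarith) 8
    have e3 : Real.exp (T - c * (dmu - 2)) ≤ C1 * Real.exp (-(c / 40 * d)) := by
      rw [hC1, ← Real.exp_add]
      apply Real.exp_le_exp.2
      have g1 : c * (d : ℝ) ≤ c * (10 * dmu + 9) := mul_le_mul_of_nonneg_left hmd2 hc0.le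
      have g2 : c * (dmu : ℝ) ≥ c * d / 10 - c := by linarith
      have g3 : 0 ≤ c * d := by positivity
      linarith
    have e4 : C1 * Real.exp (-(c / 40 * d)) ≤ 1 / (d : ℝ) ^ 15 := by
      have g1 := hd1 d (by omega)
      rw [Real.exp_neg, ← div_eq_mul_inv, div_le_div_iff₀ (Real.exp_pos _) (by positivity)]
      calc C1 * (d : ℝ) ^ 15 ≤ d * (d : ℝ) ^ 15 := mul_le_mul_of_nonneg_right hdC (by positivity)
        _ = (d : ℝ) ^ 16 := by ring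
        _ ≤ 1 * Real.exp (c / 40 * d) := by rw [one_mul]; exact g1
    calc ((dmu : ℝ) ^ 2 + dk) * Real.exp (T - c * (dmu - 2)) * ((dk + dmu : ℕ) : ℝ) ^ 8
        ≤ (d : ℝ) ^ 3 * (1 / (d : ℝ) ^ 15) * (d : ℝ) ^ 8 := by
          apply mul_le_mul _ e2 (by positivity) (by positivity)
          exact mul_le_mul e1 (e3.trans e4) (Real.exp_pos _).le (by positivity)
      _ = 1 / (d : ℝ) ^ 4 := by field_simp
      _ ≤ 1 / (4 * (d : ℝ) ^ 2) := by
          apply one_div_le_one_div_of_le (by positivity)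
          have g1 : (4 : ℝ) ≤ (d : ℝ) ^ 2 := by nlinarith
          calc 4 * (d : ℝ) ^ 2 ≤ (d : ℝ) ^ 2 * (d : ℝ) ^ 2 := mul_le_mul_of_nonneg_right g1 (by positivity)
            _ = (d : ℝ) ^ 4 := by ring
  -- second term
  have t2 : (64 : ℝ) / 2 ^ dmu ≤ 1 / (4 * (d : ℝ) ^ 2) := by
    rw [div_le_div_iff₀ (by positivity) (by positivity)]
    have g1 : (1000 : ℝ) ^ 8 ≤ (d : ℝ) ^ 8 := pow_le_pow_left₀ (by norm_num) hdR 8
    calc 64 * (4 * (d : ℝ) ^ 2) ≤ (d : ℝ) ^ 8 * (d : ℝ) ^ 2 := by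
          have : (0 : ℝ) ≤ (d : ℝ) ^ 2 := by positivity
          nlinarith
      _ = (d : ℝ) ^ 10 := by ring
      _ ≤ 1 * 2 ^ dmu := by rw [one_mul]; exact hpow2
  -- third term
  have t3 : Real.exp (6 * (2 ^ (dk + dmu) / ((d ^ 10 : ℕ) : ℝ)) -
      p2 * (2 ^ (dk + dmu) / ((dk + dmu : ℕ) : ℝ) ^ 8)) ≤ 1 / (4 * (d : ℝ) ^ 2) := by
    set W : ℝ := 2 ^ (dk + dmu) with hW
    have hW1 : (d : ℝ) ^ 10 ≤ W := hpow2.trans (pow_le_pow_right₀ (by norm_num) (by omega))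
    have hW0 : 0 < W := by positivity
    have e1 : W / (d : ℝ) ^ 8 ≤ W / ((dk + dmu : ℕ) : ℝ) ^ 8 / 390625 := by
      rw [div_div, div_le_div_iff₀ (by positivity) (by positivity)]
      apply mul_le_mul_of_nonneg_left _ hW0.le
      calc ((dk + dmu : ℕ) : ℝ) ^ 8 * 390625 ≤ (d / 5) ^ 8 * 390625 :=
            mul_le_mul_of_nonneg_right (pow_le_pow_left₀ hD0 hDd' 8) (by norm_num)
        _ = (d : ℝ) ^ 8 := by ring
    have e2 : 390625 * (W / (d : ℝ) ^ 8) ≤ W / ((dk + dmu : ℕ) : ℝ) ^ 8 := by linarith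
    have e3 : 1 / (5 * (d : ℝ)) * (390625 * (W / (d : ℝ) ^ 8)) ≤
        p2 * (W / ((dk + dmu : ℕ) : ℝ) ^ 8) := by
      apply mul_le_mul hp2 e2 (by positivity)
      exact le_trans (by positivity) hp2
    have e4 : 1 / (5 * (d : ℝ)) * (390625 * (W / (d : ℝ) ^ 8)) = 78125 * (W / (d : ℝ) ^ 9) := by
      field_simp
      norm_num
    have e5 : W / ((d ^ 10 : ℕ) : ℝ) ≤ W / (d : ℝ) ^ 9 := by
      push_cast
      apply div_le_div_of_nonneg_left hW0.le (by positivity)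
      exact pow_le_pow_right₀ (by linarith) (by norm_num)
    have e6 : (d : ℝ) ≤ W / (d : ℝ) ^ 9 := by
      rw [le_div_iff₀ (by positivity)]
      calc (d : ℝ) * (d : ℝ) ^ 9 = (d : ℝ) ^ 10 := by ring
        _ ≤ W := hW1
    have e7 : Real.exp (6 * (W / ((d ^ 10 : ℕ) : ℝ)) - p2 * (W / ((dk + dmu : ℕ) : ℝ) ^ 8)) ≤
        Real.exp (-(1 * d)) := by
      apply Real.exp_le_exp.2
      linarith
    refine e7.trans ?_
    rw [Real.exp_neg, ← one_div]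
    apply one_div_le_one_div_of_le (by positivity)
    refine le_trans ?_ (hd3 d (by omega))
    calc 4 * (d : ℝ) ^ 2 ≤ d * (d : ℝ) ^ 2 := mul_le_mul_of_nonneg_right (by linarith) (by positivity)
      _ = (d : ℝ) ^ 3 := by ring
  have t4 : 3 * (1 / (4 * (d : ℝ) ^ 2)) ≤ 1 / (d : ℝ) ^ 2 := by
    have : 3 * (1 / (4 * (d : ℝ) ^ 2)) = 3 / 4 * (1 / (d : ℝ) ^ 2) := by field_simp
    rw [this]
    have : (0 : ℝ) ≤ 1 / (d : ℝ) ^ 2 := by positivity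
    linarith
  unfold gBd
  linarith

/-- **existence of the base law** -/
theorem exists_base : ∃ (α ρ K : ℝ) (CB d0 : ℕ), 0 < α ∧ α ≤ 1 ∧ 0 < ρ ∧ ρ ≤ 1 ∧ ∀ (d : ℕ) (p : ℝ), d0 ≤ d →
    K * Real.log d ≤ p * d → p ≤ 1 / 10 → ∃ (β : Type) (_ : DecidableEq β) (_ : Fintype β)
      (h0 : 0 ≤ 2 * p / 5) (h1 : 2 * p / 5 ≤ 1), 5 * Fintype.card β ≤ d ∧ 1 ≤ Fintype.card β ∧
      ∀ nR ≤ d, ∃ Bd : ℕ, Bd ≤ d ^ CB ∧
      Nonempty (BaseLaw β nR (2 * p / 5) h0 h1 (1 / (d : ℝ) ^ 600) α ρ (d ^ 6 - 1) (d ^ 10) Bd (d ^ 4)) := by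
  obtain ⟨r, dS, K0, hr2, hK0, hS⟩ := exists_subLaw_num 630 640 (by norm_num)
  obtain ⟨dE, hE⟩ := pow_le_two_ev 640
  obtain ⟨dG, hG⟩ := gBd_small
  refine ⟨1 / 8000, 1 / 8000, 5 * K0 + 1, 622, dS + dE + dG + 10 ^ 8, by norm_num, by norm_num, by norm_num,
    by norm_num, ?_⟩
  intro d p hd hp hp10
  have hd8 : 10 ^ 8 ≤ d := by omega
  have hdR : (10 : ℝ) ^ 8 ≤ d := by exact_mod_cast hd8
  have hd0 : (0 : ℝ) < d := by linarith
  have hlog : (1 : ℝ) ≤ Real.log d := by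
    rw [Real.le_log_iff_exp_le hd0]
    have := Real.exp_one_lt_d9
    linarith
  have hpd : 1 ≤ p * d :=
    hlog.trans ((le_mul_of_one_le_left (by linarith) (by linarith)).trans hp)
  have hp0 : 0 < p := by
    by_contra h
    have := mul_nonpos_of_nonpos_of_nonneg (not_lt.1 h) hd0.le
    linarith
  have h0 : 0 ≤ 2 * p / 5 := by positivity
  have h1 : 2 * p / 5 ≤ 1 := by linarith
  have hp50 : 0 ≤ p / 5 := by positivity
  have hp51 : p / 5 ≤ 1 := by linarith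
  have hK' : K0 * Real.log d ≤ p / 5 * d := by
    have e1 : (5 * K0 + 1) * Real.log d = 5 * (K0 * Real.log d) + Real.log d := by ring
    have e2 : p / 5 * (d : ℝ) = p * d / 5 := by ring
    rw [e1] at hp
    rw [e2]
    linarith
  obtain ⟨hm1, hrm, hrm2, hSub⟩ := hS d (p / 5) hp50 hp51 (by omega) hK'
  set m := d / (10 * r) with hm
  set dk := r * m with hdk
  set dmu := d / 10 with hdmu
  set D := dk + dmu with hD
  have hkmu : dk ≤ dmu := by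
    rw [hdk, hdmu, Nat.le_div_iff_mul_le (by norm_num)]
    calc r * m * 10 = 10 * r * m := by ring
      _ ≤ d := hrm
  have hD5 : 5 * D ≤ d := by omega
  have hdD : d ≤ 11 * dmu := by omega
  have hmr : 20 * m ≤ d := by
    calc 20 * m = 10 * 2 * m := by ring
      _ ≤ 10 * r * m := Nat.mul_le_mul_right _ (Nat.mul_le_mul_left _ hr2)
      _ ≤ d := hrm
  refine ⟨(Fin r × Fin m) ⊕ Fin dmu, inferInstance, inferInstance, h0, h1, ?_, ?_, ?_⟩
  · rw [Fintype.card_sum, Fintype.card_prod, Fintype.card_fin, Fintype.card_fin, Fintype.card_fin]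
    exact hD5
  · rw [Fintype.card_sum, Fintype.card_prod, Fintype.card_fin, Fintype.card_fin, Fintype.card_fin]
    omega
  intro nR hnR
  -- the number of parallel edges
  set M1 := (d ^ 6 - 1) / (8 * m) with hM1
  have hM1a : 8 * m * M1 ≤ d ^ 6 - 1 := Nat.mul_div_le _ _
  have hM1b : d ^ 6 - 1 < 8 * m * (M1 + 1) := Nat.lt_mul_div_succ _ (by omega)
  obtain ⟨S, hSD⟩ := hSub M1 hM1a
  set M := M1 / 2 with hMdef
  have hd6 : 1 ≤ d ^ 6 := Nat.one_le_pow _ _ (by omega)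
  have hMm : d ^ 6 ≤ 16 * (m * M) + 16 * m + 1 := by
    have h2 : M1 ≤ 2 * M + 1 := by omega
    have h3 : 8 * m * (M1 + 1) ≤ 8 * m * (2 * M + 2) := Nat.mul_le_mul_left _ (by omega)
    have h4 : 8 * m * (2 * M + 2) = 16 * (m * M) + 16 * m := by ring
    omega
  have hM4 : d ^ 4 ≤ M := by
    by_contra hcon
    push Not at hcon
    have h2 : m * M ≤ m * d ^ 4 := Nat.mul_le_mul_left _ hcon.le
    have h3 : 20 * (m * d ^ 4) ≤ d * d ^ 4 := by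
      calc 20 * (m * d ^ 4) = 20 * m * d ^ 4 := by ring
        _ ≤ d * d ^ 4 := Nat.mul_le_mul_right _ hmr
    have h4 : d ^ 6 = d * (d * d ^ 4) := by ring
    have h5 : 3 * (d * d ^ 4) ≤ d * (d * d ^ 4) := Nat.mul_le_mul_right _ (by omega)
    have h6 : d ≤ d * d ^ 4 := Nat.le_mul_of_pos_right _ (by positivity)
    omega
  -- lengths
  set L1 := d ^ 620 with hL1
  set q := 2 * L1 / D with hq
  have hD100 : 100 ≤ D := by omega
  have hq1 : D * q ≤ 2 * L1 := Nat.mul_div_le _ _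
  have hq2 : 2 * L1 < D * (q + 1) := Nat.lt_mul_div_succ _ (by omega)
  have hq3 : 100 * q ≤ 2 * L1 := (Nat.mul_le_mul_right _ hD100).trans hq1
  have hLL8 : 8 * d ^ 6 ≤ L1 := by
    have h2 : d ^ 7 ≤ d ^ 620 := Nat.pow_le_pow_right (by omega) (by norm_num)
    have h3 : d ^ 7 = d * d ^ 6 := by ring
    have h4 : 8 * d ^ 6 ≤ d * d ^ 6 := Nat.mul_le_mul_right _ (by omega)
    omega
  have hd6' : 16 ≤ d ^ 6 := by
    calc 16 ≤ d := by omega
      _ = d ^ 1 := (pow_one d).symm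
      _ ≤ d ^ 6 := Nat.pow_le_pow_right (by omega) (by norm_num)
  have hDd : D ≤ d := by omega
  have hD9 : D ^ 9 + 1 ≤ d ^ 10 := by
    have h2 : D ^ 9 ≤ d ^ 9 := Nat.pow_le_pow_left hDd 9
    have h3 : d ^ 10 = d * d ^ 9 := by ring
    have h4 : 2 * d ^ 9 ≤ d * d ^ 9 := Nat.mul_le_mul_right _ (by omega)
    have h5 : 1 ≤ d ^ 9 := Nat.one_le_pow _ _ (by omega)
    omega
  have h2D : d ^ 640 ≤ 2 ^ D := (hE d (by omega)).trans (Nat.pow_le_pow_right (by norm_num) (by omega))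
  have hBd : 2 * (L1 + (D ^ 9 + 1) * d ^ 10) + (d ^ 6 - 1) ≤ d ^ 622 := by
    have h2 : (D ^ 9 + 1) * d ^ 10 ≤ d ^ 10 * d ^ 10 := Nat.mul_le_mul_right _ hD9
    have h3 : d ^ 10 * d ^ 10 = d ^ 20 := by ring
    have h4 : d ^ 20 ≤ d ^ 620 := Nat.pow_le_pow_right (by omega) (by norm_num)
    have h5 : d ^ 6 ≤ d ^ 620 := Nat.pow_le_pow_right (by omega) (by norm_num)
    have h6 : d ^ 622 = d ^ 2 * d ^ 620 := by rw [← pow_add]
    have h7 : 5 * d ^ 620 ≤ d ^ 2 * d ^ 620 := 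
      Nat.mul_le_mul_right _ ((by omega : 5 ≤ d).trans (Nat.le_self_pow (by norm_num) d))
    omega
  refine ⟨2 * (L1 + (D ^ 9 + 1) * d ^ 10) + (d ^ 6 - 1), hBd, ?_⟩
  -- the second layer
  have hden : 0 < 1 - p / 5 := by linarith
  set p2 : ℝ := (p / 5) / (1 - p / 5) with hp2
  have hp2a : p / 5 ≤ p2 := by
    rw [hp2, le_div_iff₀ hden]
    exact mul_le_of_le_one_right hp50 (by linarith)
  have q0 : 0 ≤ p2 := by positivity
  have q1 : p2 ≤ 1 := by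
    rw [hp2, div_le_one hden]
    linarith
  have hpb : 1 - 2 * p / 5 = (1 - p / 5) * (1 - p2) := by
    have e1 : (1 - p / 5) * p2 = p / 5 := by rw [hp2]; exact mul_div_cancel₀ _ hden.ne'
    have e2 : (1 - p / 5) * (1 - p2) = 1 - p / 5 - (1 - p / 5) * p2 := by ring
    rw [e2, e1]
    ring
  have hp2b : 1 / (5 * (d : ℝ)) ≤ p2 := by
    refine le_trans ?_ hp2a
    rw [div_le_div_iff₀ (by positivity) (by norm_num)]
    linarith
  -- real versions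
  have hDR : (d : ℝ) ≤ 11 * (D : ℝ) := by
    have : d ≤ 11 * D := by omega
    exact_mod_cast this
  have hD0 : (0 : ℝ) < D := by linarith
  have hL1R : ((L1 : ℕ) : ℝ) = (d : ℝ) ^ 620 := by rw [hL1]; push_cast; rfl
  have h2DR : (d : ℝ) ^ 640 ≤ 2 ^ D := by exact_mod_cast h2D
  have hdk1 : (1 : ℝ) ≤ d := by linarith
  have hTle : ((Nat.sqrt D + 1 : ℕ) : ℝ) ≤ Real.sqrt d + 1 := by
    push_cast
    have h2 : (Nat.sqrt D : ℝ) ≤ Real.sqrt D := Real.nat_sqrt_le_real_sqrt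
    have h3 : Real.sqrt (D : ℝ) ≤ Real.sqrt d := Real.sqrt_le_sqrt (by exact_mod_cast hDd)
    linarith
  have hg := hG d dk dmu (Nat.sqrt D + 1) p2 (by omega) hdmu hkmu hTle hp2b
  have hd2 : 1 / (d : ℝ) ^ 2 ≤ 1 / 500 := by
    apply one_div_le_one_div_of_le (by norm_num)
    exact (by linarith : (500 : ℝ) ≤ d).trans (le_self_pow₀ hdk1 (by norm_num))
  -- small quantities
  have hX : (L1 : ℝ) * (2 * (1 / (d : ℝ) ^ 640) + 1 / ((d ^ 630 : ℕ) : ℝ)) ≤ 2 / (d : ℝ) ^ 2 := by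
    rw [hL1R]
    push_cast
    have e1 : (d : ℝ) ^ 620 * (2 * (1 / (d : ℝ) ^ 640) + 1 / (d : ℝ) ^ 630) =
        2 * (1 / (d : ℝ) ^ 20) + 1 / (d : ℝ) ^ 10 := by
      have g1 : (d : ℝ) ^ 640 = (d : ℝ) ^ 620 * (d : ℝ) ^ 20 := by rw [← pow_add]
      have g2 : (d : ℝ) ^ 630 = (d : ℝ) ^ 620 * (d : ℝ) ^ 10 := by rw [← pow_add]
      rw [g1, g2]
      field_simp
    rw [e1]
    have e2 : 1 / (d : ℝ) ^ 20 ≤ 1 / (d : ℝ) ^ 10 :=
      one_div_le_one_div_of_le (by positivity) (pow_le_pow_right₀ hdk1 (by norm_num))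
    have e3 : 1 / (d : ℝ) ^ 10 ≤ 1 / 2 * (1 / (d : ℝ) ^ 2) := by
      have : (1 : ℝ) / 2 * (1 / (d : ℝ) ^ 2) = 1 / (2 * (d : ℝ) ^ 2) := by field_simp
      rw [this]
      apply one_div_le_one_div_of_le (by positivity)
      calc 2 * (d : ℝ) ^ 2 ≤ d * (d : ℝ) ^ 2 := mul_le_mul_of_nonneg_right (by linarith) (by positivity)
        _ = (d : ℝ) ^ 3 := by ring
        _ ≤ (d : ℝ) ^ 10 := pow_le_pow_right₀ hdk1 (by norm_num)
    have e4 : 2 / (d : ℝ) ^ 2 = 2 * (1 / (d : ℝ) ^ 2) := by ring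
    have e5 : (0 : ℝ) ≤ 1 / (d : ℝ) ^ 2 := by positivity
    rw [e4]
    linarith
  have hmdk : Fintype.card (Fin r × Fin m) = dk := by
    rw [Fintype.card_prod, Fintype.card_fin, Fintype.card_fin]
  have hmm : Fintype.card (Fin dmu) = dmu := Fintype.card_fin _
  -- the side conditions
  have hVL : d ^ 10 ≤ L1 := Nat.pow_le_pow_right (by omega) (by norm_num)
  have hL1' : d ^ 6 - 1 + 1 + 2 * (q + 1) ≤ L1 := by omega
  have hLL : ((dk + dmu) ^ 9 + 1) * d ^ 10 * (dk + dmu) ^ 9 ≤ L1 := by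
    have g1 : D ^ 9 ≤ d ^ 9 := Nat.pow_le_pow_left hDd 9
    calc (D ^ 9 + 1) * d ^ 10 * D ^ 9 ≤ d ^ 10 * d ^ 10 * d ^ 9 :=
          Nat.mul_le_mul (Nat.mul_le_mul_right _ hD9) g1
      _ = d ^ 29 := by ring
      _ ≤ d ^ 620 := Nat.pow_le_pow_right (by omega) (by norm_num)
  have hTT : dk + dmu ≤ (Nat.sqrt D + 1) * (Nat.sqrt D + 1) := (Nat.lt_succ_sqrt D).le
  have hh1 : 2 * L1 ≤ (q + 1) * (dk + dmu) := by
    rw [Nat.mul_comm (q + 1)]
    exact hq2.le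
  have hbig : 4 * (nR + 8) * L1 ≤ 2 ^ (dk + dmu) := by
    refine le_trans ?_ h2D
    have g1 : d ^ 640 = d ^ 20 * d ^ 620 := by rw [← pow_add]
    rw [g1]
    apply Nat.mul_le_mul_right
    calc 4 * (nR + 8) ≤ 5 * d := by omega
      _ ≤ d * d := Nat.mul_le_mul_right _ (by omega)
      _ = d ^ 2 := (sq d).symm
      _ ≤ d ^ 20 := Nat.pow_le_pow_right (by omega) (by norm_num)
  have hinv2 : 1 / (d : ℝ) ^ 2 ≤ 1 / (10 ^ 8 * d) := by
    apply one_div_le_one_div_of_le (by positivity)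
    rw [sq]
    exact mul_le_mul_of_nonneg_right hdR hd0.le
  have hinv2' : 1 / (10 ^ 8 * (d : ℝ)) = 1 / 10 ^ 8 * (1 / d) := by field_simp
  have hinv1 : 1 / (d : ℝ) ≤ 1 / 10 ^ 8 := one_div_le_one_div_of_le (by norm_num) hdR
  have hinv0 : 0 < 1 / (d : ℝ) := by positivity
  have hpowinv : ∀ a b : ℕ, a ≤ b → 1 / (d : ℝ) ^ b ≤ 1 / (d : ℝ) ^ a := fun a b hab =>
    one_div_le_one_div_of_le (by positivity) (pow_le_pow_right₀ hdk1 hab)
  have hcov : (L1 : ℝ) * (2 * (1 / (d : ℝ) ^ 640) + 1 / ((d ^ 630 : ℕ) : ℝ)) ≤ 1 / 20 := by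
    refine hX.trans ?_
    have : 2 / (d : ℝ) ^ 2 = 2 * (1 / (d : ℝ) ^ 2) := by ring
    rw [this]
    linarith
  have hends : 1 / (d : ℝ) ^ 640 + 2 * (((dk + dmu : ℕ) : ℝ) ^ 9 + 2) / L1 ≤ 1 / (d : ℝ) ^ 600 := by
    have g1 : ((dk + dmu : ℕ) : ℝ) ^ 9 + 2 ≤ (d : ℝ) ^ 10 := by
      have g2 : ((dk + dmu : ℕ) : ℝ) ^ 9 ≤ (d : ℝ) ^ 9 :=
        pow_le_pow_left₀ (Nat.cast_nonneg _) (by exact_mod_cast hDd) 9
      have g3 : (1 : ℝ) ≤ (d : ℝ) ^ 9 := one_le_pow₀ hdk1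
      have g4 : (d : ℝ) ^ 10 = d * (d : ℝ) ^ 9 := by ring
      have g5 : 3 * (d : ℝ) ^ 9 ≤ d * (d : ℝ) ^ 9 := mul_le_mul_of_nonneg_right (by linarith) (by positivity)
      linarith
    have g2 : 2 * (((dk + dmu : ℕ) : ℝ) ^ 9 + 2) / L1 ≤ 2 * (1 / (d : ℝ) ^ 610) := by
      rw [hL1R]
      have g3 : (d : ℝ) ^ 620 = (d : ℝ) ^ 10 * (d : ℝ) ^ 610 := by rw [← pow_add]
      rw [g3, div_le_iff₀ (by positivity)]
      have g4 : 2 * (1 / (d : ℝ) ^ 610) * ((d : ℝ) ^ 10 * (d : ℝ) ^ 610) = 2 * (d : ℝ) ^ 10 := by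
        have g5 : (d : ℝ) ^ 610 ≠ 0 := by positivity
        calc 2 * (1 / (d : ℝ) ^ 610) * ((d : ℝ) ^ 10 * (d : ℝ) ^ 610)
            = 2 * (d : ℝ) ^ 10 * ((1 / (d : ℝ) ^ 610) * (d : ℝ) ^ 610) := by ring
          _ = 2 * (d : ℝ) ^ 10 := by rw [one_div, inv_mul_cancel₀ g5, mul_one]
      rw [g4]
      linarith
    have g3 : 1 / (d : ℝ) ^ 640 ≤ 1 / (d : ℝ) ^ 610 := hpowinv _ _ (by norm_num)
    have g4 : 3 * (1 / (d : ℝ) ^ 610) ≤ 1 / (d : ℝ) ^ 600 := by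
      have g5 : (d : ℝ) ^ 610 = (d : ℝ) ^ 10 * (d : ℝ) ^ 600 := by rw [← pow_add]
      have g6 : 3 * (1 / (d : ℝ) ^ 610) = 3 / (d : ℝ) ^ 610 := by ring
      rw [g6, g5, div_le_div_iff₀ (by positivity) (by positivity), one_mul]
      apply mul_le_mul_of_nonneg_right _ (by positivity)
      have g7 : (d : ℝ) ^ 1 ≤ (d : ℝ) ^ 10 := pow_le_pow_right₀ hdk1 (by norm_num)
      linarith
    linarith
  have hLR : ((d ^ 6 - 1 : ℕ) : ℝ) ≤ (d : ℝ) ^ 6 := by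
    have : d ^ 6 - 1 ≤ d ^ 6 := Nat.sub_le _ _
    exact_mod_cast this
  have hα : (1 : ℝ) / 8000 ≤ 1 / 4000 * (1 - 2 * ((d ^ 6 - 1 : ℕ) : ℝ) * (1 / (d : ℝ) ^ 640)) := by
    have g1 : ((d ^ 6 - 1 : ℕ) : ℝ) * (1 / (d : ℝ) ^ 640) ≤ 1 / d := by
      calc ((d ^ 6 - 1 : ℕ) : ℝ) * (1 / (d : ℝ) ^ 640) ≤ (d : ℝ) ^ 6 * (1 / (d : ℝ) ^ 7) :=
            mul_le_mul hLR (hpowinv _ _ (by norm_num)) (by positivity) (by positivity)
        _ = 1 / d := by field_simp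
    linarith
  have hA : 3 * (1 / 4000 : ℝ) + 1 / (d : ℝ) ^ 640 ≤ 1 / 1000 := by
    have g1 : 1 / (d : ℝ) ^ 640 ≤ 1 / (d : ℝ) ^ 1 := hpowinv _ _ (by norm_num)
    rw [pow_one] at g1
    linarith
  have hMM : 2 * M ≤ M1 := by omega
  have hB : 2000 * ((d ^ 6 - 1 : ℕ) : ℝ) * ((L1 : ℝ) * (2 * (1 / (d : ℝ) ^ 640) + 1 / ((d ^ 630 : ℕ) : ℝ)) +
      4 / ((dk + dmu : ℕ) : ℝ) + 4 * L1 / 2 ^ (dk + dmu) + 2 * ((q + 1 : ℕ) : ℝ) / L1 +
      gBd dk dmu (Nat.sqrt D + 1) (d ^ 10) (1 / 4000) p2 + nR * ((d ^ 6 - 1 : ℕ) : ℝ) / 2 ^ (dk + dmu)) ≤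
      M * S.D0.card := by
    have g1 : 4 / ((dk + dmu : ℕ) : ℝ) ≤ 44 * (1 / d) := by
      have : 44 * (1 / (d : ℝ)) = 44 / d := by ring
      rw [this, div_le_div_iff₀ hD0 hd0]
      linarith
    have hW0 : (0 : ℝ) < 2 ^ (dk + dmu) := by positivity
    have g2 : 4 * (L1 : ℝ) / 2 ^ (dk + dmu) ≤ 4 * (1 / (d : ℝ) ^ 2) := by
      rw [div_le_iff₀ hW0, hL1R]
      calc 4 * (d : ℝ) ^ 620 = 4 * (1 / (d : ℝ) ^ 2) * (d : ℝ) ^ 622 := by
            have g3 : (d : ℝ) ^ 622 = (d : ℝ) ^ 2 * (d : ℝ) ^ 620 := by rw [← pow_add]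
            rw [g3]
            field_simp
        _ ≤ 4 * (1 / (d : ℝ) ^ 2) * 2 ^ (dk + dmu) := by
            apply mul_le_mul_of_nonneg_left _ (by positivity)
            exact (pow_le_pow_right₀ hdk1 (by norm_num)).trans h2DR
    have g3 : 2 * ((q + 1 : ℕ) : ℝ) / L1 ≤ 44 * (1 / d) + 2 * (1 / (d : ℝ) ^ 2) := by
      have hq1R : (D : ℝ) * q ≤ 2 * L1 := by exact_mod_cast hq1
      have hqR : (q : ℝ) ≤ 22 * (1 / d) * L1 := by
        have e1 : (d : ℝ) * q ≤ 22 * L1 := by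
          have e0 : (11 * (D : ℝ)) * q = 11 * (D * q) := by ring
          have e3 := mul_le_mul_of_nonneg_right hDR (Nat.cast_nonneg (α := ℝ) q)
          rw [e0] at e3
          linarith
        have e2 : 22 * (1 / (d : ℝ)) * L1 = 22 * L1 / d := by ring
        rw [e2, le_div_iff₀ hd0]
        linarith
      have hL1pos : (0 : ℝ) < L1 := by rw [hL1R]; positivity
      rw [div_le_iff₀ hL1pos]
      push_cast
      have e3 : 2 ≤ 2 * (1 / (d : ℝ) ^ 2) * L1 := by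
        have e4 : (d : ℝ) ^ 2 ≤ L1 := by
          rw [hL1R]
          exact pow_le_pow_right₀ hdk1 (by norm_num)
        have e5 : 2 * (1 / (d : ℝ) ^ 2) * L1 = 2 * L1 / (d : ℝ) ^ 2 := by ring
        rw [e5, le_div_iff₀ (by positivity)]
        linarith
      have e6 : (44 * (1 / (d : ℝ)) + 2 * (1 / (d : ℝ) ^ 2)) * L1 =
          2 * (22 * (1 / d) * L1) + 2 * (1 / (d : ℝ) ^ 2) * L1 := by ring
      rw [e6]
      linarith
    have g4 : (nR : ℝ) * ((d ^ 6 - 1 : ℕ) : ℝ) / 2 ^ (dk + dmu) ≤ 1 / (d : ℝ) ^ 2 := by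
      rw [div_le_iff₀ hW0]
      have hnRR : (nR : ℝ) ≤ d := by exact_mod_cast hnR
      calc (nR : ℝ) * ((d ^ 6 - 1 : ℕ) : ℝ) ≤ d * (d : ℝ) ^ 6 :=
            mul_le_mul hnRR hLR (Nat.cast_nonneg _) (by positivity)
        _ = 1 / (d : ℝ) ^ 2 * (d : ℝ) ^ 9 := by field_simp
        _ ≤ 1 / (d : ℝ) ^ 2 * 2 ^ (dk + dmu) := by
            apply mul_le_mul_of_nonneg_left _ (by positivity)
            exact (pow_le_pow_right₀ hdk1 (by norm_num)).trans h2DR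
    have g5 : 2 / (d : ℝ) ^ 2 = 2 * (1 / (d : ℝ) ^ 2) := by ring
    rw [g5] at hX
    have g6 : (L1 : ℝ) * (2 * (1 / (d : ℝ) ^ 640) + 1 / ((d ^ 630 : ℕ) : ℝ)) +
      4 / ((dk + dmu : ℕ) : ℝ) + 4 * L1 / 2 ^ (dk + dmu) + 2 * ((q + 1 : ℕ) : ℝ) / L1 +
      gBd dk dmu (Nat.sqrt D + 1) (d ^ 10) (1 / 4000) p2 + nR * ((d ^ 6 - 1 : ℕ) : ℝ) / 2 ^ (dk + dmu) ≤
      90 * (1 / d) := by
      linarith
    have g7 : 2000 * ((d ^ 6 - 1 : ℕ) : ℝ) * (90 * (1 / d)) ≤ 180000 * (d : ℝ) ^ 5 := by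
      calc 2000 * ((d ^ 6 - 1 : ℕ) : ℝ) * (90 * (1 / d)) ≤ 2000 * (d : ℝ) ^ 6 * (90 * (1 / d)) := by
            apply mul_le_mul_of_nonneg_right _ (by positivity)
            linarith
        _ = 180000 * (d : ℝ) ^ 5 := by
            field_simp
            norm_num
    have g8 : 180000 * d ^ 5 ≤ m * M := by
      have e1 : d ^ 6 = d * d ^ 5 := by ring
      have e2 : 10 ^ 8 * d ^ 5 ≤ d * d ^ 5 := Nat.mul_le_mul_right _ hd8
      have e3 : d ^ 1 ≤ d ^ 5 := Nat.pow_le_pow_right (by omega) (by norm_num)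
      rw [pow_one] at e3
      omega
    have g9 : 180000 * (d : ℝ) ^ 5 ≤ M * S.D0.card := by
      rw [hSD]
      have : (180000 * d ^ 5 : ℕ) ≤ M * m := by rw [Nat.mul_comm M m]; exact g8
      exact_mod_cast this
    refine le_trans ?_ (g7.trans g9)
    exact mul_le_mul_of_nonneg_left g6 (by positivity)
  have hpre := exists_preLaw S q0 q1 h0 h1 hpb dk dmu hmdk hmm nR (d ^ 10) (d ^ 10) L1 (q + 1)
    (Nat.sqrt D + 1) M (2 * (L1 + (D ^ 9 + 1) * d ^ 10) + (d ^ 6 - 1)) (rl := 1 / 4000)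
    (u0 := 1 / (d : ℝ) ^ 600) (α := 1 / 8000) (ρ := 1 / 8000) (by norm_num) (by norm_num) (by positivity)
    (by omega) (by positivity) (by positivity) (by omega) (by positivity)
    hVL hL1' le_rfl hLL hD100 hTT hkmu hh1 hbig hcov hends hα (by norm_num) (by norm_num) (hg.trans hd2)
    hA hMM hB
  obtain ⟨P⟩ := hpre
  obtain ⟨B⟩ := P.toBaseLaw
  exact B.mono hM4

end Pool.Agent.LongCyc.Dense
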