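import Pool.Agent.LongCyc.Dense.BaseAvg2

/-!
# Dense regime: parallel edges outside the giant
-/

set_option autoImplicit false
set_option linter.unusedSectionVars false

namespace Pool.Agent.LongCyc.Dense

open Finset BadMassAux BlockDec

/-- the run has at most `L` edges -/
theorem card_runD0 {β : Type} [DecidableEq β] [Fintype β] (D0 : Finset β) (b : Cube β → Option (Cube β)) (L : ℕ)
    (u : Cube β) : (runD0 D0 b L u).card ≤ L := by
  classical
  have h : ∀ e ∈ runD0 D0 b L u, ∃ k y, k + 1 < L ∧ it b k u = some y ∧ b y = some (flip e.1.2 y) ∧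
      (canE β).e y e.1.2 = e := by
    intro e he
    unfold runD0 at he
    rw [mem_filter] at he
    exact he.2.2
  choose! f hf using h
  have h2 : (runD0 D0 b L u).card ≤ (range L).card := by
    refine card_le_card_of_injOn f ?_ ?_
    · intro e he
      obtain ⟨y, h1, -⟩ := hf e he
      rw [coe_range, Set.mem_Iio]
      omega
    · intro e he e' he' hff
      obtain ⟨y, h1, h3, h4, h5⟩ := hf e he
      obtain ⟨y', h1', h3', h4', h5'⟩ := hf e' he'
      rw [hff, h3'] at h3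
      obtain rfl := Option.some.inj h3
      rw [h4'] at h4
      have h6 := flip_dir_injective _ (Option.some.inj h4)
      rw [← h5, ← h5', h6]
  rwa [card_range] at h2

section parl

variable {κ μ : Type} [DecidableEq κ] [Fintype κ] [DecidableEq μ] [Fintype μ]
  {p1 : ℝ} {h0 : 0 ≤ p1} {h1 : p1 ≤ 1} {L K M1 : ℕ} {ε : ℝ} {S : SubLaw κ p1 h0 h1 L K M1 ε}
  {B : BlkSys S} {hb2 : CE (κ ⊕ μ) → Bool} {L2 L1 h : ℕ}

/-- the `D0`-edges of `b` in the main subfibres -/
noncomputable def bMs (D : S.DD μ) : Finset (CE (κ ⊕ μ)) := by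
  classical exact univ.filter fun e => e.1.2 ∈ S.D0.image Sum.inl ∧ (D (e.1.1 ∘ Sum.inr)).1 = 0 ∧
    (gb D e.1.1 = some (flip e.1.2 e.1.1) ∨ gb D (flip e.1.2 e.1.1) = some e.1.1)

/-- vertices of the main subfibres where the giant is not parallel to `b` -/
noncomputable def badv (D : S.DD μ) (g : Option (GData D B hb2 L2 L1 h)) : Finset (Cube (κ ⊕ μ)) := by
  classical exact univ.filter fun y => (D (y ∘ Sum.inr)).1 = 0 ∧ ¬ (y ∈ gls g ∧ gc g y = gb D y)

theorem bMs_pt {D : S.DD μ} {e : CE (κ ⊕ μ)} (he : e ∈ bMs D) : ∃ y, (D (y ∘ Sum.inr)).1 = 0 ∧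
    gb D y = some (flip e.1.2 y) ∧ (canE (κ ⊕ μ)).e y e.1.2 = e := by
  classical
  unfold bMs at he
  rw [mem_filter] at he
  obtain ⟨-, hD, hl, h1 | h1⟩ := he
  · refine ⟨e.1.1, hl, h1, ?_⟩
    apply Subtype.ext
    show (Function.update e.1.1 e.1.2 false, e.1.2) = e.1
    refine Prod.ext ?_ rfl
    exact Function.update_eq_self_iff.2 e.2.symm
  · refine ⟨flip e.1.2 e.1.1, ?_, ?_, ?_⟩
    · rw [mem_image] at hD
      obtain ⟨i, -, hi⟩ := hD
      rw [← hi, flip_inl_inr]
      exact hl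
    · rw [flip_flip]
      exact h1
    · apply Subtype.ext
      show (Function.update (flip e.1.2 e.1.1) e.1.2 false, e.1.2) = e.1
      refine Prod.ext ?_ rfl
      simp only
      unfold flip
      rw [Function.update_idem]
      exact Function.update_eq_self_iff.2 e.2.symm

theorem card_bMs_opt {D : S.DD μ} {nR Vr : ℕ} {hb : CE (κ ⊕ μ) → Bool} (g : Option (GData D B hb2 L2 L1 h)) :
    (bMs D \ (mkBD nR Vr hb g).opt (S.D0.image Sum.inl) L).card ≤ (badv D g).card + nR * L := by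
  classical
  set R : Finset (CE (κ ⊕ μ)) := (univ : Finset (Fin nR)).biUnion fun i =>
    runD0 (S.D0.image Sum.inl) (gb D) L ((mkBD nR Vr hb g).res i) with hR
  have hRc : R.card ≤ nR * L := by
    refine card_biUnion_le.trans ?_
    refine (sum_le_sum fun i _ => card_runD0 _ _ L _).trans ?_
    rw [sum_const, card_univ, Fintype.card_fin, smul_eq_mul]
  have h2 : ((bMs D \ (mkBD nR Vr hb g).opt (S.D0.image Sum.inl) L) \ R).card ≤ (badv D g).card := by
    have h3 : ∀ e ∈ (bMs D \ (mkBD nR Vr hb g).opt (S.D0.image Sum.inl) L) \ R,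
        ∃ y, y ∈ badv D g ∧ gb D y = some (flip e.1.2 y) ∧ (canE (κ ⊕ μ)).e y e.1.2 = e := by
      intro e he
      rw [mem_sdiff, mem_sdiff] at he
      obtain ⟨⟨heb, heo⟩, heR⟩ := he
      obtain ⟨y, hy0, hy1, hy2⟩ := bMs_pt heb
      refine ⟨y, ?_, hy1, hy2⟩
      unfold badv
      rw [mem_filter]
      refine ⟨mem_univ _, hy0, ?_⟩
      rintro ⟨hg1, hg2⟩
      apply heo
      rw [mem_opt]
      refine ⟨?_, ?_, y, ?_, ?_, ?_, hy2⟩
      · unfold bMs at heb
        rw [mem_filter] at heb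
        exact heb.2.1
      · intro i hi
        apply heR
        rw [hR, mem_biUnion]
        exact ⟨i, mem_univ _, hi⟩
      · rw [mk_mem_G]
        exact hg1
      · show gc g y = some (flip e.1.2 y)
        rw [hg2, hy1]
      · exact hg2.symm
    choose! f hf using h3
    refine card_le_card_of_injOn f (fun e he => (hf e he).1) ?_
    intro e he e' he' hff
    have h5 := hf e he
    have h6 := hf e' he'
    rw [hff] at h5
    have h7 := flip_dir_injective _ (Option.some.inj (h5.2.1.symm.trans h6.2.1))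
    refine h5.2.2.symm.trans ?_
    rw [h7]
    exact h6.2.2
  have h4 : (bMs D \ (mkBD nR Vr hb g).opt (S.D0.image Sum.inl) L).card ≤
      ((bMs D \ (mkBD nR Vr hb g).opt (S.D0.image Sum.inl) L) \ R).card + R.card := by
    have h5 := card_le_card (subset_union_left : (bMs D \ (mkBD nR Vr hb g).opt (S.D0.image Sum.inl) L) ⊆
      (bMs D \ (mkBD nR Vr hb g).opt (S.D0.image Sum.inl) L) ∪ R)
    have h6 := card_union_le ((bMs D \ (mkBD nR Vr hb g).opt (S.D0.image Sum.inl) L) \ R) R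
    rw [sdiff_union_self_eq_union] at h6
    omega
  omega

/-- number of vertices of the main subfibres -/
theorem card_main (D : S.DD μ) : (univ.filter fun y : Cube (κ ⊕ μ) => (D (y ∘ Sum.inr)).1 = 0).card =
    ∑ s, if (D s).1 = 0 then 2 ^ Fintype.card κ else 0 := by
  classical
  have h : (univ.filter fun y : Cube (κ ⊕ μ) => (D (y ∘ Sum.inr)).1 = 0) =
      univ.filter fun x : Cube (κ ⊕ μ) => x ∘ Sum.inl ∈
      (fun s => if (D s).1 = 0 then univ else ∅ : Cube μ → Finset (Cube κ)) (x ∘ Sum.inr) := by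
    ext w
    rw [mem_filter, mem_filter]
    simp only [mem_univ, true_and]
    by_cases h3 : (D (w ∘ Sum.inr)).1 = 0 <;> simp [h3]
  rw [h]
  refine (card_fib (fun s => if (D s).1 = 0 then univ else ∅ : Cube μ → Finset (Cube κ))).trans ?_
  refine sum_congr rfl fun s _ => ?_
  split_ifs <;> simp

/-- the part of the main subfibres not covered by blocks -/
noncomputable def uncv (B : BlkSys S) (l : ℕ) (a : Fin 4 × S.Ω) : ℝ :=
  if a.1 = 0 then (2 : ℝ) ^ Fintype.card κ - (cvr B a.2 l).card else 0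

theorem uncv_nonneg (l : ℕ) (a : Fin 4 × S.Ω) : 0 ≤ uncv B l a := by
  unfold uncv
  have h := Finset.card_le_univ (cvr B a.2 l)
  have h2 : ((cvr B a.2 l).card : ℝ) ≤ Fintype.card (Cube κ) := by exact_mod_cast h
  rw [card_cubeN] at h2
  split_ifs
  · linarith
  · exact le_rfl

theorem card_badv {D : S.DD μ} (g : Option (GData D B hb2 L2 L1 h)) (hd : 0 < dm κ μ) (hh : 0 < h) (hhL : 2 * h < L1)
    (hMn : Fintype.card (MPt D B L1) * L1 ≤ 2 ^ dm κ μ) :
    ((badv D g).card : ℝ) ≤ ∑ s, uncv B L1 (D s) + 2 ^ dm κ μ * (4 / ((dm κ μ : ℕ) : ℝ) + 4 * L1 / 2 ^ dm κ μ +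
      2 * h / L1) + 2 ^ dm κ μ * (if g = none then 1 else 0) := by
  classical
  have hL1r : (0 : ℝ) < L1 := by
    have : 0 < L1 := by omega
    exact_mod_cast this
  have hdr : (0 : ℝ) < ((dm κ μ : ℕ) : ℝ) := by exact_mod_cast hd
  have hun : 0 ≤ ∑ s, uncv B L1 (D s) := sum_nonneg fun s _ => uncv_nonneg L1 (D s)
  have hpos : 0 ≤ (2 : ℝ) ^ dm κ μ * (4 / ((dm κ μ : ℕ) : ℝ) + 4 * L1 / 2 ^ dm κ μ + 2 * h / L1) := by positivity
  cases hg : g with
  | none =>
    rw [if_pos rfl, mul_one]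
    have h2 : ((badv D (none : Option (GData D B hb2 L2 L1 h))).card : ℝ) ≤ 2 ^ dm κ μ := by
      have h3 := Finset.card_le_univ (badv D (none : Option (GData D B hb2 L2 L1 h)))
      have h4 : Fintype.card (Cube (κ ⊕ μ)) = 2 ^ dm κ μ := by simp [dm]
      rw [h4] at h3
      exact_mod_cast h3
    linarith
  | some g' =>
    rw [if_neg (by simp), mul_zero, add_zero]
    set N1 := Fintype.card (MPt D B L1) with hN1
    -- the good points
    set Q : Fin g'.k × Fin (L1 - 2 * h) → Cube (κ ⊕ μ) := fun q =>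
      mpv D B (g'.P q.1) ⟨h + q.2.val, by have := q.2.2; omega⟩ with hQ
    have hQi : Function.Injective Q := by
      rintro ⟨i, j⟩ ⟨i', j'⟩ hq
      simp only [hQ] at hq
      have h2 := (gBl D B 1 L1 1 (by norm_num) (by norm_num) (by omega)).mp_inj
        (a₁ := (g'.P i, ⟨h + j.val, by have := j.2; omega⟩))
        (a₂ := (g'.P i', ⟨h + j'.val, by have := j'.2; omega⟩)) hq
      rw [Prod.mk.injEq, Fin.mk.injEq] at h2
      rw [Prod.mk.injEq]
      exact ⟨g'.P_inj h2.1, Fin.ext (by omega)⟩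
    have hQl : ∀ q, (D (Q q ∘ Sum.inr)).1 = 0 := by
      intro q
      simp only [hQ]
      rw [bpv_inr]
      exact (g'.P q.1).1.2
    have hQg : ∀ q, Q q ∈ gls (some g') ∧ gc (some g') (Q q) = gb D (Q q) := by
      rintro ⟨i, j⟩
      simp only [hQ]
      have hj := j.2
      have h2 := g'.inner i (h + j.val) (by omega) (by omega) (by omega)
      refine ⟨(cnext_mem h2).1, ?_⟩
      have h3 := (gc_iff (g := some g')).2 (Or.inl h2)
      have h4 := (gcb_some D (bpv_next D B (l := L1) (s := (g'.P i).1.1) (y := (g'.P i).2) (h + j.val)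
        (by omega))).2
      rw [h3]
      exact h4.symm
    have hdis : (badv D (some g')).card + (univ.image Q).card ≤
        (univ.filter fun y : Cube (κ ⊕ μ) => (D (y ∘ Sum.inr)).1 = 0).card := by
      rw [← card_union_of_disjoint]
      · refine card_le_card ?_
        intro y hy
        rw [mem_union] at hy
        rw [mem_filter]
        refine ⟨mem_univ _, ?_⟩
        rcases hy with hy | hy
        · unfold badv at hy
          rw [mem_filter] at hy
          exact hy.2.1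
        · obtain ⟨q, -, rfl⟩ := mem_image.1 hy
          exact hQl q
      · rw [disjoint_left]
        intro y hy hy'
        obtain ⟨q, -, rfl⟩ := mem_image.1 hy'
        unfold badv at hy
        rw [mem_filter] at hy
        exact hy.2.2 (hQg q)
    rw [card_image_of_injective _ hQi, card_univ, Fintype.card_prod, Fintype.card_fin, Fintype.card_fin,
      card_main] at hdis
    have hNL : (N1 : ℝ) * L1 = ∑ s, (if (D s).1 = 0 then ((cvr B (D s).2 L1).card : ℝ) else 0) := by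
      rw [hN1, card_MPt]
      push_cast
      rw [sum_mul]
      refine sum_congr rfl fun s _ => ?_
      unfold nmb
      split_ifs
      · rw [card_cvr]
        push_cast
        ring
      · simp
    have hmain : (∑ s, if (D s).1 = 0 then (2 : ℝ) ^ Fintype.card κ else 0) =
        ∑ s, uncv B L1 (D s) + N1 * L1 := by
      rw [hNL, ← sum_add_distrib]
      refine sum_congr rfl fun s _ => ?_
      unfold uncv
      split_ifs <;> ring
    have hdis' : ((badv D (some g')).card : ℝ) + g'.k * (L1 - 2 * h) ≤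
        ∑ s, if (D s).1 = 0 then (2 : ℝ) ^ Fintype.card κ else 0 := by
      have e1 : (((L1 - 2 * h : ℕ)) : ℝ) = L1 - 2 * h := by
        rw [Nat.cast_sub (by omega)]
        push_cast
        ring
      rw [← e1]
      exact_mod_cast hdis
    rw [hmain] at hdis'
    have hk1 : g'.k ≤ N1 := by
      have := Fintype.card_le_of_injective _ g'.P_inj
      rwa [Fintype.card_fin] at this
    have hk2 := g'.hk
    have hk3 : (N1 : ℝ) ≤ g'.k + 4 * (N1 / ((dm κ μ : ℕ) : ℝ) + 1) := by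
      have e1 : (((N1 / dm κ μ : ℕ)) : ℝ) ≤ N1 / ((dm κ μ : ℕ) : ℝ) := Nat.cast_div_le
      have e2 : (N1 : ℝ) ≤ g'.k + 4 * (((N1 / dm κ μ : ℕ) : ℝ) + 1) := by exact_mod_cast hk2
      linarith
    have hMr : (N1 : ℝ) * L1 ≤ 2 ^ dm κ μ := by exact_mod_cast hMn
    have hk1r : (g'.k : ℝ) ≤ N1 := by exact_mod_cast hk1
    -- final estimate
    have e1 : ((N1 : ℝ) - g'.k) * L1 ≤ 4 * (2 ^ dm κ μ / ((dm κ μ : ℕ) : ℝ)) + 4 * L1 := by
      have e2 : ((N1 : ℝ) - g'.k) * L1 ≤ 4 * (N1 / ((dm κ μ : ℕ) : ℝ) + 1) * L1 :=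
        mul_le_mul_of_nonneg_right (by linarith) hL1r.le
      have e3 : 4 * ((N1 : ℝ) / ((dm κ μ : ℕ) : ℝ) + 1) * L1 = 4 * ((N1 * L1) / ((dm κ μ : ℕ) : ℝ)) + 4 * L1 := by
        ring
      have e4 : (N1 : ℝ) * L1 / ((dm κ μ : ℕ) : ℝ) ≤ 2 ^ dm κ μ / ((dm κ μ : ℕ) : ℝ) :=
        div_le_div_of_nonneg_right hMr hdr.le
      linarith
    have e5 : 2 * (h : ℝ) * g'.k ≤ 2 * h * (2 ^ dm κ μ / L1) := by
      apply mul_le_mul_of_nonneg_left _ (by positivity)
      rw [le_div_iff₀ hL1r]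
      exact (mul_le_mul_of_nonneg_right hk1r hL1r.le).trans hMr
    have e6 : (2 : ℝ) ^ dm κ μ * (4 / ((dm κ μ : ℕ) : ℝ) + 4 * L1 / 2 ^ dm κ μ + 2 * h / L1) =
        4 * (2 ^ dm κ μ / ((dm κ μ : ℕ) : ℝ)) + 4 * L1 + 2 * h * (2 ^ dm κ μ / L1) := by
      have : (2 : ℝ) ^ dm κ μ ≠ 0 := by positivity
      field_simp
    rw [e6]
    linarith

theorem E_uncv {ρ : ℝ} {r0 : 0 ≤ ρ} {r1 : 3 * ρ ≤ 1} {δ : ℝ} {l : ℕ} (hδ : 0 ≤ δ)
    (hcov : ∀ y, 1 - δ ≤ S.P.pr (fun ω => y ∈ cvr B ω l)) :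
    (lawD μ S ρ r0 r1).E (fun D => ∑ s, uncv B l (D s)) ≤ 2 ^ dm κ μ * δ := by
  classical
  rw [lawD_sum]
  have h2 := subQ_E (S := S) (r0 := r0) (r1 := r1) 0 fun ω => (2 : ℝ) ^ Fintype.card κ - (cvr B ω l).card
  have h3 : (subQ S ρ r0 r1).E (uncv B l) = (1 - 3 * ρ) * (S.P.E fun ω => (2 : ℝ) ^ Fintype.card κ -
      (cvr B ω l).card) := by
    rw [if_pos rfl] at h2
    exact h2
  rw [h3, FP.E_sub, FP.E_const]
  have h4 := le_E_card S.P (fun ω => cvr B ω l) hcov
  rw [card_cubeN] at h4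
  have h5 : (2 : ℝ) ^ Fintype.card κ - S.P.E (fun ω => ((cvr B ω l).card : ℝ)) ≤ 2 ^ Fintype.card κ * δ := by
    linarith
  rw [pow_dm]
  have h6 : (1 - 3 * ρ) * ((2 : ℝ) ^ Fintype.card κ - S.P.E (fun ω => ((cvr B ω l).card : ℝ))) ≤
      2 ^ Fintype.card κ * δ := by
    have h7 : (0 : ℝ) ≤ 2 ^ Fintype.card κ * δ := by positivity
    calc (1 - 3 * ρ) * ((2 : ℝ) ^ Fintype.card κ - S.P.E (fun ω => ((cvr B ω l).card : ℝ)))
        ≤ (1 - 3 * ρ) * (2 ^ Fintype.card κ * δ) := mul_le_mul_of_nonneg_left h5 (by linarith)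
      _ ≤ 1 * (2 ^ Fintype.card κ * δ) := mul_le_mul_of_nonneg_right (by linarith) h7
      _ = _ := one_mul _
  calc (2 : ℝ) ^ Fintype.card μ * ((1 - 3 * ρ) * ((2 : ℝ) ^ Fintype.card κ -
      S.P.E (fun ω => ((cvr B ω l).card : ℝ)))) ≤ 2 ^ Fintype.card μ * (2 ^ Fintype.card κ * δ) :=
        mul_le_mul_of_nonneg_left h6 (by positivity)
    _ = _ := by ring

end parl

end Pool.Agent.LongCyc.Dense
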