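import Pool.Agent.LongCyc.Dense.BaseAm

/-!
# Dense regime: from averages to the base law (conjugation by a random automorphism)
-/

set_option autoImplicit false
set_option linter.unusedSectionVars false

namespace Pool.Agent.LongCyc.Dense

open Finset

/-- law of a base fibre before the conjugation by a random automorphism; the densities are averages -/
structure PreLaw (β : Type) [DecidableEq β] [Fintype β] (nR : ℕ) (pb : ℝ) (h0 : 0 ≤ pb) (h1 : pb ≤ 1)
    (u0 α ρ : ℝ) (L Vr Bd M0 : ℕ) where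
  Ω : Type
  fin : Fintype Ω
  μ : FP Ω
  bd : Ω → BD β nR
  D0 : Finset β
  D0ne : D0.Nonempty
  Adms : Finset (CE β) → Prop
  admD : ∀ A, Adms A → (∀ e ∈ A, e.1.2 ∈ D0) ∧ ∀ e ∈ A, ∀ e' ∈ A, e ≠ e' →
    e.1.1 ≠ e'.1.1 ∧ e.1.1 ≠ flip e'.1.2 e'.1.1 ∧ flip e.1.2 e.1.1 ≠ e'.1.1 ∧ flip e.1.2 e.1.1 ≠ flip e'.1.2 e'.1.1
  admA : ∀ A, Adms A → ∀ (π : Equiv.Perm β) (τ : Cube β), (∀ i, i ∉ D0 → π i = i) → Adms (A.image (amE π τ))
  aM : ℕ
  admL : ∀ A, Adms A → A.card ≤ aM
  val : ∀ ω, (bd ω).Val D0 Adms L Vr Bd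
  hbLaw : ∀ F : (CE β → Bool) → ℝ, μ.E (fun ω => F (bd ω).hb) = (bern pb h0 h1 (CE β)).E F
  /-- average number of vertices without successor -/
  nEnd : Ω → ℕ
  nEnd_spec : ∀ ω, ∀ S : Finset (Cube β), (∀ y ∈ S, (bd ω).c y = none) → S.card ≤ nEnd ω
  ends : μ.E (fun ω => (nEnd ω : ℝ)) ≤ u0 * 2 ^ Fintype.card β
  use : α * 2 ^ Fintype.card β ≤ μ.E (fun ω => ((bd ω).U.card : ℝ))
  /-- sets of vertices of reservoir pieces -/
  rs : Ω → Finset (Cube β)
  rs_spec : ∀ ω, ∀ y ∈ rs ω, (bd ω).inP Vr y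
  resv : ρ * 2 ^ Fintype.card β ≤ μ.E (fun ω => ((rs ω).card : ℝ))
  rs2 : β → Ω → Finset (Cube β)
  rs2_spec : ∀ k ω, ∀ y ∈ rs2 k ω, (bd ω).inP Vr y ∧ (bd ω).inP Vr (flip k y)
  resv2 : ∀ k, ρ ^ 3 * 2 ^ Fintype.card β ≤ μ.E (fun ω => ((rs2 k ω).card : ℝ))
  giant : 1 - 1 / 500 ≤ μ.pr (fun ω => (bd ω).G.Nonempty)
  /-- the `D0`-edges of `b` in the main subfibres -/
  bM : Ω → Finset (CE β)
  parlA : ∀ A, Adms A → μ.pr (fun ω => (A ∩ bM ω).card < 2 * M0) ≤ 1 / 1000
  parlB : 2000 * aM * μ.E (fun ω => ((bM ω \ (bd ω).opt D0 L).card : ℝ)) ≤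
    M0 * (D0.card * 2 ^ Fintype.card β)

section avg

variable {β : Type} [DecidableEq β] [Fintype β]

/-- a permutation of `D0` as a permutation of all directions -/
noncomputable def pmm (D0 : Finset β) (σ : Equiv.Perm {i // i ∈ D0}) : Equiv.Perm β :=
  Equiv.Perm.ofSubtype σ

theorem pmm_fix (D0 : Finset β) (σ : Equiv.Perm {i // i ∈ D0}) (i : β) (hi : i ∉ D0) :
    pmm D0 σ i = i := Equiv.Perm.ofSubtype_apply_of_not_mem σ hi

theorem pmm_symm (D0 : Finset β) (σ : Equiv.Perm {i // i ∈ D0}) (i : {i // i ∈ D0}) :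
    (pmm D0 σ).symm i.1 = (σ.symm i).1 := by
  rw [Equiv.symm_apply_eq]
  unfold pmm
  rw [Equiv.Perm.ofSubtype_apply_coe, Equiv.apply_symm_apply]

/-- the point moved by a uniform translation is uniform -/
theorem sum_ami (π : Equiv.Perm β) (y : Cube β) (f : Cube β → ℝ) :
    ∑ τ : Cube β, f (ami π τ y) = ∑ u, f u := by
  set E : Cube β ≃ Cube β :=
    { toFun := fun τ => ami π τ y
      invFun := fun u => xr (u ∘ π.symm) y
      left_inv := fun τ => by
        funext j
        simp only [ami, Function.comp, xr, Equiv.apply_symm_apply]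
        cases y j <;> cases τ j <;> rfl
      right_inv := fun u => by
        funext j
        simp only [ami, Function.comp, xr, Equiv.symm_apply_apply]
        cases y (π j) <;> cases u j <;> rfl } with hE
  exact Equiv.sum_comp E f

theorem card_cubeR : (Fintype.card (Cube β) : ℝ) = 2 ^ Fintype.card β := by
  rw [Fintype.card_fun, Fintype.card_bool]
  push_cast
  rfl

open Classical in
/-- average over the translations -/
theorem E_ami (π : Equiv.Perm β) (y : Cube β) (S : Cube β → Prop) :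
    (FP.unif (Cube β)).E (fun τ => if S (ami π τ y) then (1 : ℝ) else 0) =
      ((Finset.univ.filter S).card : ℝ) / 2 ^ Fintype.card β := by
  rw [FP.E_unif, sum_ami π y fun u => if S u then (1 : ℝ) else 0, Finset.sum_boole, card_cubeR]

/-- a random automorphism moves a fixed `D0`-edge to a uniform `D0`-edge -/
theorem unif_amiE' (D0 : Finset β) (e : CE β) (he : e.1.2 ∈ D0) (f : CE β → ℝ) :
    ((FP.unif (Equiv.Perm {i // i ∈ D0})).E fun σ => (FP.unif (Cube β)).E fun τ =>
        f (amiE (pmm D0 σ) τ e)) * ((D0.card : ℝ) * 2 ^ Fintype.card β) =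
      2 * ∑ g ∈ univ.filter (fun g : CE β => g.1.2 ∈ D0), f g := by
  classical
  set F : {i // i ∈ D0} → ℝ := fun j => ∑ u : Cube β, f ((canE β).e u j.1) with hF
  have h1 : ∀ σ : Equiv.Perm {i // i ∈ D0}, ∑ τ : Cube β, f (amiE (pmm D0 σ) τ e) =
      F (σ.symm ⟨e.1.2, he⟩) := by
    intro σ
    refine Eq.trans ?_ (sum_ami (pmm D0 σ) e.1.1 fun u => f ((canE β).e u (σ.symm ⟨e.1.2, he⟩).1))
    refine Finset.sum_congr rfl fun τ _ => ?_
    congr 1
    show (canE _).e _ _ = (canE _).e _ _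
    rw [pmm_symm D0 σ ⟨e.1.2, he⟩]
  have hS : (Fintype.card (Equiv.Perm {i // i ∈ D0}) : ℝ) ≠ 0 := by
    exact_mod_cast Fintype.card_ne_zero
  have h2 : ((FP.unif (Equiv.Perm {i // i ∈ D0})).E fun σ => (FP.unif (Cube β)).E fun τ =>
        f (amiE (pmm D0 σ) τ e)) * ((D0.card : ℝ) * 2 ^ Fintype.card β) =
      ((D0.card : ℝ) * ∑ σ : Equiv.Perm {i // i ∈ D0}, F (σ.symm ⟨e.1.2, he⟩)) /
        Fintype.card (Equiv.Perm {i // i ∈ D0}) := by
    have h3 : ∀ σ : Equiv.Perm {i // i ∈ D0}, ((FP.unif (Cube β)).E fun τ =>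
        f (amiE (pmm D0 σ) τ e)) = F (σ.symm ⟨e.1.2, he⟩) / 2 ^ Fintype.card β := by
      intro σ
      rw [FP.E_unif, h1, card_cubeR]
    rw [FP.E_congr _ h3, FP.E_unif, ← Finset.sum_div]
    have h4 : (2 : ℝ) ^ Fintype.card β ≠ 0 := by positivity
    field_simp
  have h5 := sum_perm F ⟨e.1.2, he⟩
  rw [Fintype.card_coe] at h5
  rw [h2, h5, mul_comm, mul_div_assoc, div_self hS, mul_one]
  have h6 : ∀ j : {i // i ∈ D0}, F j = 2 * ∑ g ∈ univ.filter (fun g : CE β =>
      g.1.2 = j.1), f g := fun j => sum_can _ f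
  rw [Finset.sum_congr rfl fun j _ => h6 j, ← Finset.mul_sum]
  congr 1
  rw [Finset.sum_coe_sort D0 (fun j => ∑ g ∈ univ.filter (fun g : CE β => g.1.2 = j), f g)]
  rw [← Finset.sum_biUnion]
  · refine Finset.sum_congr ?_ fun _ _ => rfl
    ext g
    simp only [Finset.mem_biUnion, Finset.mem_filter, Finset.mem_univ, true_and]
    constructor
    · rintro ⟨j, hj, h⟩
      rw [h]
      exact hj
    · intro h
      exact ⟨_, h, rfl⟩
  · intro j _ j' _ hjj
    rw [Function.onFun, Finset.disjoint_left]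
    intro g hg hg'
    apply hjj
    have h7 := (Finset.mem_filter.1 hg).2
    have h8 := (Finset.mem_filter.1 hg').2
    rw [← h7, h8]

theorem amiE_eq (π : Equiv.Perm β) (τ : Cube β) (e : CE β) : amiE π τ e = amE π.symm (τ ∘ π) e := by
  show (canE β).e (ami π τ e.1.1) (π.symm e.1.2) = (canE β).e (am π.symm (τ ∘ π) e.1.1) (π.symm e.1.2)
  congr 1

end avg

section main

variable {β : Type} [DecidableEq β] [Fintype β] {nR : ℕ} {pb : ℝ} {h0 : 0 ≤ pb} {h1 : pb ≤ 1}
  {u0 α ρ : ℝ} {L Vr Bd M0 : ℕ}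

/-- **conjugation by a random automorphism** -/
theorem PreLaw.toBaseLaw (P : PreLaw β nR pb h0 h1 u0 α ρ L Vr Bd M0) :
    Nonempty (BaseLaw β nR pb h0 h1 u0 α ρ L Vr Bd M0) := by
  classical
  let fin : Fintype P.Ω := P.fin
  have hn : (0 : ℝ) < 2 ^ Fintype.card β := by positivity
  set Q : FP (Cube β × Equiv.Perm {i // i ∈ P.D0}) := (FP.unif (Cube β)).prod (FP.unif _) with hQ
  set bd' : P.Ω × (Cube β × Equiv.Perm {i // i ∈ P.D0}) → BD β nR := fun ω =>
    (P.bd ω.1).am (pmm P.D0 ω.2.2) ω.2.1 with hbd'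
  have hpres : ∀ (σ : Equiv.Perm {i // i ∈ P.D0}) (i : β), pmm P.D0 σ i ∈ P.D0 ↔ i ∈ P.D0 := by
    intro σ
    exact pres_of_fix (a := cj (fun _ => false) (pmm P.D0 σ)) (D0 := P.D0) (pmm_fix P.D0 σ)
  -- expectation over the product
  have hE : ∀ f : P.Ω → Cube β → Equiv.Perm {i // i ∈ P.D0} → ℝ,
      (P.μ.prod Q).E (fun ω => f ω.1 ω.2.1 ω.2.2) = P.μ.E fun ω =>
        (FP.unif (Equiv.Perm {i // i ∈ P.D0})).E fun σ => (FP.unif (Cube β)).E fun τ => f ω τ σ := by
    intro f
    rw [FP.E_prod]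
    refine FP.E_congr _ fun ω => ?_
    rw [hQ, FP.E_prod, FP.E_swap]
  -- vertex events
  have hV : ∀ (S : P.Ω → Equiv.Perm {i // i ∈ P.D0} → Cube β → Prop) (y : Cube β),
      (P.μ.prod Q).pr (fun ω => S ω.1 ω.2.2 (ami (pmm P.D0 ω.2.2) ω.2.1 y)) = P.μ.E fun ω =>
        (FP.unif (Equiv.Perm {i // i ∈ P.D0})).E fun σ =>
          ((Finset.univ.filter (S ω σ)).card : ℝ) / 2 ^ Fintype.card β := by
    intro S y
    rw [FP.pr_eq, hE fun ω τ σ => if S ω σ (ami (pmm P.D0 σ) τ y) then (1 : ℝ) else 0]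
    refine FP.E_congr _ fun ω => FP.E_congr _ fun σ => ?_
    exact E_ami _ y (S ω σ)
  refine ⟨{
    Ω := P.Ω × (Cube β × Equiv.Perm {i // i ∈ P.D0})
    fin := inferInstance
    μ := P.μ.prod Q
    bd := bd'
    act := fun τ => Equiv.prodCongr (Equiv.refl _) (Equiv.prodCongr
      (Function.Involutive.toPerm (fun t => xr t τ) fun t => xr_xr t τ) (Equiv.refl _))
    act_w := fun τ ω => rfl
    act_bd := fun τ ω => (BD.am_tr _ _ _ _).symm
    D0 := P.D0
    Adms := P.Adms
    admD := P.admD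
    val := fun ω => (P.val ω.1).am _ _ (hpres _) fun A hA => P.admA A hA _ _ (pmm_fix _ _)
    hbLaw := ?_
    ends := ?_
    use := ?_
    resv := ?_
    resv2 := ?_
    giant := ?_
    parl := ?_ }⟩
  · intro F
    have h2 := hE fun ω τ σ => F (((P.bd ω).am (pmm P.D0 σ) τ).hb)
    refine Eq.trans h2 ?_
    have h3 : ∀ σ : Equiv.Perm {i // i ∈ P.D0}, ∀ τ : Cube β,
        P.μ.E (fun ω => F (((P.bd ω).am (pmm P.D0 σ) τ).hb)) = (bern pb h0 h1 (CE β)).E F := by
      intro σ τ
      have h4 := P.hbLaw fun h => F fun e => h (amiE (pmm P.D0 σ) τ e)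
      refine Eq.trans h4 ?_
      exact bern_am _ _ F
    rw [FP.E_swap]
    have h5 : ∀ σ : Equiv.Perm {i // i ∈ P.D0}, (P.μ.E fun ω => (FP.unif (Cube β)).E fun τ =>
        F (((P.bd ω).am (pmm P.D0 σ) τ).hb)) = (bern pb h0 h1 (CE β)).E F := by
      intro σ
      rw [FP.E_swap, FP.E_congr _ (h3 σ), FP.E_const]
    rw [FP.E_congr _ h5, FP.E_const]
  · intro y
    have h2 := hV (fun ω _ u => (P.bd ω).c u = none) y
    have h3 : (P.μ.prod Q).pr (fun ω => (bd' ω).c y = none) = (P.μ.prod Q).pr (fun ω =>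
        (P.bd ω.1).c (ami (pmm P.D0 ω.2.2) ω.2.1 y) = none) := by
      congr 1
      funext ω
      exact propext Option.map_eq_none_iff
    rw [h3, h2]
    simp only [FP.E_const]
    rw [FP.E_div, div_le_iff₀ hn]
    refine le_trans (FP.E_mono _ fun ω => ?_) P.ends
    rw [Nat.cast_le]
    exact P.nEnd_spec ω _ fun y hy => by
      simp only [Finset.mem_filter, Finset.mem_univ, true_and] at hy
      exact hy
  · intro y
    have h2 := hV (fun ω _ u => u ∈ (P.bd ω).U) y
    have h3 : (P.μ.prod Q).pr (fun ω => y ∈ (bd' ω).U) = (P.μ.prod Q).pr (fun ω =>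
        ami (pmm P.D0 ω.2.2) ω.2.1 y ∈ (P.bd ω.1).U) := by
      congr 1
      funext ω
      exact propext (mem_mpS (a := cj ω.2.1 (pmm P.D0 ω.2.2)))
    rw [h3, h2]
    simp only [FP.E_const]
    rw [FP.E_div, le_div_iff₀ hn]
    refine le_trans P.use (FP.E_mono _ fun ω => ?_)
    rw [Nat.cast_le]
    exact Finset.card_le_card fun y hy => by
      simp only [Finset.mem_filter, Finset.mem_univ, true_and]
      exact hy
  · intro y
    have h2 := hV (fun ω _ u => (P.bd ω).inP Vr u) y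
    have h3 : (P.μ.prod Q).pr (fun ω => (bd' ω).inP Vr y) = (P.μ.prod Q).pr (fun ω =>
        (P.bd ω.1).inP Vr (ami (pmm P.D0 ω.2.2) ω.2.1 y)) := by
      congr 1
      funext ω
      exact propext (BD.inP_am _ _ _ _ _)
    rw [h3, h2]
    simp only [FP.E_const]
    rw [FP.E_div, le_div_iff₀ hn]
    refine le_trans P.resv (FP.E_mono _ fun ω => ?_)
    rw [Nat.cast_le]
    exact Finset.card_le_card fun y hy => by
      simp only [Finset.mem_filter, Finset.mem_univ, true_and]
      exact P.rs_spec ω y hy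
  · intro y k
    have h2 := hV (fun ω σ u => (P.bd ω).inP Vr u ∧ (P.bd ω).inP Vr (flip ((pmm P.D0 σ).symm k) u)) y
    have h3 : (P.μ.prod Q).pr (fun ω => (bd' ω).inP Vr y ∧ (bd' ω).inP Vr (flip k y)) =
        (P.μ.prod Q).pr (fun ω => (P.bd ω.1).inP Vr (ami (pmm P.D0 ω.2.2) ω.2.1 y) ∧
          (P.bd ω.1).inP Vr (flip ((pmm P.D0 ω.2.2).symm k) (ami (pmm P.D0 ω.2.2) ω.2.1 y))) := by
      congr 1
      funext ω
      rw [← ami_flip]
      exact propext (and_congr (BD.inP_am _ _ _ _ _) (BD.inP_am _ _ _ _ _))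
    rw [h3, h2, FP.E_swap]
    refine FP.le_E_of_le _ fun σ => ?_
    rw [FP.E_div, le_div_iff₀ hn]
    refine le_trans (P.resv2 ((pmm P.D0 σ).symm k)) (FP.E_mono _ fun ω => ?_)
    rw [Nat.cast_le]
    exact Finset.card_le_card fun y hy => by
      simp only [Finset.mem_filter, Finset.mem_univ, true_and]
      exact P.rs2_spec _ ω y hy
  · have h2 := hE fun ω τ σ => if ((P.bd ω).am (pmm P.D0 σ) τ).G.Nonempty then (1 : ℝ) else 0
    rw [FP.pr_eq]
    refine le_trans P.giant (le_of_eq ?_)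
    refine Eq.trans ?_ h2.symm
    rw [FP.pr_eq]
    refine FP.E_congr _ fun ω => ?_
    have h3 : ∀ (σ : Equiv.Perm {i // i ∈ P.D0}) (τ : Cube β),
        (((P.bd ω).am (pmm P.D0 σ) τ).G.Nonempty ↔ (P.bd ω).G.Nonempty) := by
      intro σ τ
      show ((P.bd ω).G.image _).Nonempty ↔ _
      exact Finset.image_nonempty
    simp only [h3, FP.E_const]
  · intro A hA
    -- complement
    have hcompl : (P.μ.prod Q).pr (fun ω => ¬ M0 ≤ (A ∩ (bd' ω).opt P.D0 L).card) ≤ 1 / 500 := by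
      -- transport
      have htr : ∀ (ω : P.Ω) (τ : Cube β) (σ : Equiv.Perm {i // i ∈ P.D0}),
          (A ∩ ((P.bd ω).am (pmm P.D0 σ) τ).opt P.D0 L).card =
            ((A.image (amiE (pmm P.D0 σ) τ)) ∩ (P.bd ω).opt P.D0 L).card := by
        intro ω τ σ
        have hinj : Function.Injective (amiE (pmm P.D0 σ) τ) :=
          Function.LeftInverse.injective (amE_amiE (pmm P.D0 σ) τ)
        rw [← Finset.card_image_of_injective _ hinj, BD.opt_am _ _ _ _ _ (hpres σ)]
        congr 1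
        ext e
        simp only [Finset.mem_image, Finset.mem_inter]
        constructor
        · rintro ⟨u, ⟨hu1, v, hv, hvu⟩, rfl⟩
          refine ⟨⟨u, hu1, rfl⟩, ?_⟩
          rw [← hvu, amiE_amE]
          exact hv
        · rintro ⟨⟨u, hu, hue⟩, he⟩
          refine ⟨u, ⟨hu, e, he, ?_⟩, hue⟩
          rw [← hue, amE_amiE]
      have hadm : ∀ (τ : Cube β) (σ : Equiv.Perm {i // i ∈ P.D0}),
          P.Adms (A.image (amiE (pmm P.D0 σ) τ)) := by
        intro τ σ
        have h2 := P.admA A hA (pmm P.D0 σ).symm (τ ∘ pmm P.D0 σ) (fun i hi => by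
          rw [Equiv.symm_apply_eq]
          exact (pmm_fix P.D0 σ i hi).symm)
        have h3 : amE (pmm P.D0 σ).symm (τ ∘ pmm P.D0 σ) = amiE (pmm P.D0 σ) τ := by
          funext e
          exact (amiE_eq _ _ _).symm
        rwa [h3] at h2
      rw [FP.pr_eq]
      have h2 := hE fun ω τ σ => if ¬ M0 ≤ (A ∩ ((P.bd ω).am (pmm P.D0 σ) τ).opt P.D0 L).card
        then (1 : ℝ) else 0
      refine le_trans (le_of_eq h2) ?_
      rcases Nat.eq_zero_or_pos M0 with hM | hM
      · simp only [hM, Nat.zero_le, not_true, if_false, FP.E_const]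
        norm_num
      have hMR : (0 : ℝ) < M0 := by exact_mod_cast hM
      -- pointwise
      have h3 : ∀ (ω : P.Ω) (σ : Equiv.Perm {i // i ∈ P.D0}) (τ : Cube β),
          (if ¬ M0 ≤ (A ∩ ((P.bd ω).am (pmm P.D0 σ) τ).opt P.D0 L).card then (1 : ℝ) else 0) ≤
            (if ((A.image (amiE (pmm P.D0 σ) τ)) ∩ P.bM ω).card < 2 * M0 then (1 : ℝ) else 0) +
            (∑ e ∈ A, if amiE (pmm P.D0 σ) τ e ∈ P.bM ω \ (P.bd ω).opt P.D0 L then (1 : ℝ) else 0) / M0 := by
        intro ω σ τ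
        rw [htr]
        set A' := A.image (amiE (pmm P.D0 σ) τ) with hA'
        have h4 : ∑ e ∈ A, (if amiE (pmm P.D0 σ) τ e ∈ P.bM ω \ (P.bd ω).opt P.D0 L then (1 : ℝ)
            else 0) = ((A' ∩ (P.bM ω \ (P.bd ω).opt P.D0 L)).card : ℝ) := by
          rw [Finset.sum_boole, Nat.cast_inj]
          have hinj : Function.Injective (amiE (pmm P.D0 σ) τ) :=
            Function.LeftInverse.injective (amE_amiE (pmm P.D0 σ) τ)
          rw [← Finset.card_image_of_injective _ hinj]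
          congr 1
          ext e
          simp only [Finset.mem_image, Finset.mem_inter, Finset.mem_filter, hA']
          constructor
          · rintro ⟨u, ⟨hu1, hu2⟩, rfl⟩
            exact ⟨⟨u, hu1, rfl⟩, hu2⟩
          · rintro ⟨⟨u, hu, rfl⟩, he⟩
            exact ⟨u, ⟨hu, he⟩, rfl⟩
        rw [h4]
        have h5 : (0 : ℝ) ≤ ((A' ∩ (P.bM ω \ (P.bd ω).opt P.D0 L)).card : ℝ) / M0 := by positivity
        by_cases h6 : M0 ≤ (A' ∩ (P.bd ω).opt P.D0 L).card
        · rw [if_neg (not_not.2 h6)]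
          have : (0 : ℝ) ≤ if (A' ∩ P.bM ω).card < 2 * M0 then (1 : ℝ) else 0 := by
            split_ifs <;> norm_num
          linarith
        · rw [if_pos h6]
          by_cases h7 : (A' ∩ P.bM ω).card < 2 * M0
          · rw [if_pos h7]
            linarith
          · rw [if_neg h7, zero_add, le_div_iff₀ hMR, one_mul, Nat.cast_le]
            have h8 : A' ∩ P.bM ω ⊆ (A' ∩ (P.bd ω).opt P.D0 L) ∪
                (A' ∩ (P.bM ω \ (P.bd ω).opt P.D0 L)) := by
              intro e he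
              rw [Finset.mem_inter] at he
              simp only [Finset.mem_union, Finset.mem_inter, Finset.mem_sdiff]
              by_cases h9 : e ∈ (P.bd ω).opt P.D0 L
              · exact Or.inl ⟨he.1, h9⟩
              · exact Or.inr ⟨he.1, he.2, h9⟩
            have h9 := (Finset.card_le_card h8).trans (Finset.card_union_le _ _)
            omega
      refine le_trans (FP.E_mono _ fun ω => FP.E_mono _ fun σ => FP.E_mono _ fun τ => h3 ω σ τ) ?_
      simp only [FP.E_add]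
      have h10 : (P.μ.E fun ω => (FP.unif (Equiv.Perm {i // i ∈ P.D0})).E fun σ =>
          (FP.unif (Cube β)).E fun τ => if ((A.image (amiE (pmm P.D0 σ) τ)) ∩ P.bM ω).card < 2 * M0
            then (1 : ℝ) else 0) ≤ 1 / 1000 := by
        rw [FP.E_swap]
        refine FP.E_le_of_le _ fun σ => ?_
        rw [FP.E_swap]
        refine FP.E_le_of_le _ fun τ => ?_
        have := P.parlA _ (hadm τ σ)
        rw [FP.pr_eq] at this
        exact this
      have h11 : (P.μ.E fun ω => (FP.unif (Equiv.Perm {i // i ∈ P.D0})).E fun σ =>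
          (FP.unif (Cube β)).E fun τ => (∑ e ∈ A, if amiE (pmm P.D0 σ) τ e ∈
            P.bM ω \ (P.bd ω).opt P.D0 L then (1 : ℝ) else 0) / M0) ≤ 1 / 1000 := by
        have hD0 : (0 : ℝ) < P.D0.card := by exact_mod_cast P.D0ne.card_pos
        have h12 : ∀ ω : P.Ω, ((FP.unif (Equiv.Perm {i // i ∈ P.D0})).E fun σ =>
          (FP.unif (Cube β)).E fun τ => (∑ e ∈ A, if amiE (pmm P.D0 σ) τ e ∈
            P.bM ω \ (P.bd ω).opt P.D0 L then (1 : ℝ) else 0) / M0) ≤
            2 * P.aM * ((P.bM ω \ (P.bd ω).opt P.D0 L).card : ℝ) /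
              (M0 * (P.D0.card * 2 ^ Fintype.card β)) := by
          intro ω
          have h13 : ((FP.unif (Equiv.Perm {i // i ∈ P.D0})).E fun σ =>
            (FP.unif (Cube β)).E fun τ => (∑ e ∈ A, if amiE (pmm P.D0 σ) τ e ∈
              P.bM ω \ (P.bd ω).opt P.D0 L then (1 : ℝ) else 0) / M0) =
              (∑ e ∈ A, ((FP.unif (Equiv.Perm {i // i ∈ P.D0})).E fun σ =>
                (FP.unif (Cube β)).E fun τ => if amiE (pmm P.D0 σ) τ e ∈
                P.bM ω \ (P.bd ω).opt P.D0 L then (1 : ℝ) else 0)) / M0 := by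
            simp only [FP.E_div, FP.E_sum]
          rw [h13]
          have h14 : ∀ e ∈ A, ((FP.unif (Equiv.Perm {i // i ∈ P.D0})).E fun σ =>
                (FP.unif (Cube β)).E fun τ => if amiE (pmm P.D0 σ) τ e ∈
                P.bM ω \ (P.bd ω).opt P.D0 L then (1 : ℝ) else 0) ≤
                2 * ((P.bM ω \ (P.bd ω).opt P.D0 L).card : ℝ) / (P.D0.card * 2 ^ Fintype.card β) := by
            intro e he
            have h15 := unif_amiE' P.D0 e ((P.admD A hA).1 e he) fun g =>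
              if g ∈ P.bM ω \ (P.bd ω).opt P.D0 L then (1 : ℝ) else 0
            rw [le_div_iff₀ (by positivity), h15]
            refine mul_le_mul_of_nonneg_left ?_ (by norm_num)
            rw [Finset.sum_boole, Nat.cast_le]
            exact Finset.card_le_card fun g hg => (Finset.mem_filter.1 hg).2
          refine le_trans (div_le_div_of_nonneg_right (Finset.sum_le_sum h14) hMR.le) ?_
          rw [Finset.sum_const, nsmul_eq_mul]
          have h16 : (A.card : ℝ) ≤ P.aM := by exact_mod_cast P.admL A hA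
          have h17 : (0 : ℝ) ≤ 2 * ((P.bM ω \ (P.bd ω).opt P.D0 L).card : ℝ) /
              (P.D0.card * 2 ^ Fintype.card β) := by positivity
          calc (A.card : ℝ) * (2 * ((P.bM ω \ (P.bd ω).opt P.D0 L).card : ℝ) /
              (P.D0.card * 2 ^ Fintype.card β)) / M0 ≤ P.aM * (2 *
              ((P.bM ω \ (P.bd ω).opt P.D0 L).card : ℝ) / (P.D0.card * 2 ^ Fintype.card β)) / M0 :=
                div_le_div_of_nonneg_right (mul_le_mul_of_nonneg_right h16 h17) hMR.le
            _ = _ := by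
              field_simp
        refine le_trans (FP.E_mono _ h12) ?_
        rw [FP.E_div, FP.E_mul_left, div_le_iff₀ (by positivity)]
        have := P.parlB
        linarith
      linarith
    rw [FP.pr_compl] at hcompl
    linarith

end main

end Pool.Agent.LongCyc.Dense
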