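import Pool.Agent.LongCyc.Dense.BaseParl
import Pool.Agent.LongCyc.Dense.PreLaw

/-!
# Dense regime: the law of the base fibre (before the conjugation)
-/

set_option autoImplicit false
set_option linter.unusedSectionVars false
set_option synthInstance.maxSize 2000

namespace Pool.Agent.LongCyc.Dense

open Finset BadMassAux BlockDec

section adm

variable {κ μ : Type} [DecidableEq κ] [Fintype κ] [DecidableEq μ] [Fintype μ]
  {p1 : ℝ} {h0 : 0 ≤ p1} {h1 : p1 ≤ 1} {L K M1 : ℕ} {ε : ℝ} {S : SubLaw κ p1 h0 h1 L K M1 ε}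

theorem gAdm_card {A : Finset (CE (κ ⊕ μ))} (hA : gAdm S μ A) : A.card ≤ L := by
  classical
  obtain ⟨s, A0, hA0, rfl⟩ := hA
  exact card_image_le.trans (S.admL _ hA0)

theorem gAdm_disj {A : Finset (CE (κ ⊕ μ))} (hA : gAdm S μ A) :
    (∀ e ∈ A, e.1.2 ∈ S.D0.image Sum.inl) ∧ ∀ e ∈ A, ∀ e' ∈ A, e ≠ e' →
    e.1.1 ≠ e'.1.1 ∧ e.1.1 ≠ flip e'.1.2 e'.1.1 ∧ flip e.1.2 e.1.1 ≠ e'.1.1 ∧ flip e.1.2 e.1.1 ≠ flip e'.1.2 e'.1.1 := by
  classical
  obtain ⟨s, A0, hA0, rfl⟩ := hA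
  obtain ⟨h2, h3⟩ := S.admD _ hA0
  constructor
  · intro e he
    obtain ⟨e0, he0, rfl⟩ := mem_image.1 he
    exact mem_image_of_mem _ (h2 e0 he0)
  · intro e he e' he' hne
    obtain ⟨e0, he0, rfl⟩ := mem_image.1 he
    obtain ⟨e0', he0', rfl⟩ := mem_image.1 he'
    have hne0 : e0 ≠ e0' := fun h => hne (by rw [h])
    obtain ⟨a1, a2, a3, a4⟩ := h3 e0 he0 e0' he0' hne0
    have f1 : (embE s e0).1.1 = jn e0.1.1 s := rfl
    have f2 : (embE s e0').1.1 = jn e0'.1.1 s := rfl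
    have f3 : flip (embE s e0).1.2 (embE s e0).1.1 = jn (flip e0.1.2 e0.1.1) s := flip_jn _ _ _
    have f4 : flip (embE s e0').1.2 (embE s e0').1.1 = jn (flip e0'.1.2 e0'.1.1) s := flip_jn _ _ _
    rw [f3, f4, f1, f2]
    exact ⟨fun h => a1 (jn_inj h).1, fun h => a2 (jn_inj h).1, fun h => a3 (jn_inj h).1, fun h => a4 (jn_inj h).1⟩

/-- a permutation which fixes all directions outside `D0` acts on the first factor -/
theorem exists_perm_inl {D0 : Finset κ} {π : Equiv.Perm (κ ⊕ μ)} (hπ : ∀ i, i ∉ D0.image Sum.inl → π i = i) :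
    ∃ σ : Equiv.Perm κ, (∀ i, π (Sum.inl i) = Sum.inl (σ i)) ∧ (∀ j, π (Sum.inr j) = Sum.inr j) ∧
      ∀ i, i ∉ D0 → σ i = i := by
  classical
  have hr : ∀ j : μ, π (Sum.inr j) = Sum.inr j := fun j => hπ _ (by simp)
  have hl : ∀ i : κ, ∃ i' : κ, π (Sum.inl i) = Sum.inl i' := by
    intro i
    cases h : π (Sum.inl i) with
    | inl i' => exact ⟨i', rfl⟩
    | inr j =>
      exfalso
      have := π.injective (h.trans (hr j).symm)
      cases this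
  have hl' : ∀ i : κ, ∃ i' : κ, π.symm (Sum.inl i) = Sum.inl i' := by
    intro i
    cases h : π.symm (Sum.inl i) with
    | inl i' => exact ⟨i', rfl⟩
    | inr j =>
      exfalso
      rw [Equiv.symm_apply_eq, hr] at h
      cases h
  choose f hf using hl
  choose g hg using hl'
  refine ⟨⟨f, g, ?_, ?_⟩, hf, hr, ?_⟩
  · intro i
    have h2 := hg (f i)
    rw [← hf, Equiv.symm_apply_apply] at h2
    exact (Sum.inl.inj h2).symm
  · intro i
    have h2 := hf (g i)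
    rw [← hg, Equiv.apply_symm_apply] at h2
    exact (Sum.inl.inj h2).symm
  · intro i hi
    have h2 := hπ (Sum.inl i) (by simpa using hi)
    rw [hf] at h2
    exact Sum.inl.inj h2

theorem gAdm_am {A : Finset (CE (κ ⊕ μ))} (hA : gAdm S μ A) (π : Equiv.Perm (κ ⊕ μ)) (τ : Cube (κ ⊕ μ))
    (hπ : ∀ i, i ∉ S.D0.image Sum.inl → π i = i) : gAdm S μ (A.image (amE π τ)) := by
  classical
  obtain ⟨s, A0, hA0, rfl⟩ := hA
  obtain ⟨σ, hl, hr, hσ⟩ := exists_perm_inl hπ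
  refine ⟨xr s (τ ∘ Sum.inr), A0.image (amE σ (τ ∘ Sum.inl)), S.admA _ hA0 σ _ hσ, ?_⟩
  rw [image_image, image_image]
  congr 1
  funext e
  show amE π τ (embE s e) = embE (xr s (τ ∘ Sum.inr)) (amE σ (τ ∘ Sum.inl) e)
  unfold amE
  rw [embE_can]
  have e1 : (embE s e).1.2 = Sum.inl e.1.2 := rfl
  have e2 : (embE s e).1.1 = jn e.1.1 s := rfl
  rw [e1, e2, hl]
  congr 1
  funext j
  rcases j with i | j
  · show Bool.xor (jn e.1.1 s (π.symm (Sum.inl i))) (τ (Sum.inl i)) = Bool.xor (e.1.1 (σ.symm i)) (τ (Sum.inl i))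
    have h3 : π.symm (Sum.inl i) = Sum.inl (σ.symm i) := by
      rw [Equiv.symm_apply_eq, hl, Equiv.apply_symm_apply]
    rw [h3]
    rfl
  · show Bool.xor (jn e.1.1 s (π.symm (Sum.inr j))) (τ (Sum.inr j)) = Bool.xor (s j) (τ (Sum.inr j))
    have h3 : π.symm (Sum.inr j) = Sum.inr j := by
      rw [Equiv.symm_apply_eq, hr]
    rw [h3]
    rfl

end adm

section pre

variable {κ μ : Type} [DecidableEq κ] [Fintype κ] [DecidableEq μ] [Fintype μ]
  {p1 : ℝ} {h0 : 0 ≤ p1} {h1 : p1 ≤ 1} {L K M1 : ℕ} {ε : ℝ} (S : SubLaw κ p1 h0 h1 L K M1 ε)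

/-- sample space of a base fibre -/
abbrev OmT (μ : Type) : Type :=
  (Cube μ → Fin 4 × S.tl.Ω) × ((Cube κ × CE μ → Bool) × (CE (κ ⊕ μ) → Bool))

/-- edge states of a base fibre -/
noncomputable def hbT (ω : OmT S μ) (e : CE (κ ⊕ μ)) : Bool := gluB (fun s => S.tl.hb (ω.1 s).2) ω.2.1 e || ω.2.2 e

open Classical in
/-- the giant, if it exists -/
noncomputable def gT (nR L2 L1 h : ℕ) (ω : OmT S μ) : Option (GData ω.1 S.blk ω.2.2 L2 L1 h) :=
  if hg : ∃ g : GData ω.1 S.blk ω.2.2 L2 L1 h, nR ≤ g.k then some hg.choose else none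

theorem gT_k (nR L2 L1 h : ℕ) (ω : OmT S μ) (g : GData ω.1 S.blk ω.2.2 L2 L1 h)
    (hg : gT S nR L2 L1 h ω = some g) : nR ≤ g.k := by
  unfold gT at hg
  split_ifs at hg with h2
  obtain rfl := Option.some.inj hg
  exact h2.choose_spec

theorem gT_none (nR L2 L1 h : ℕ) (ω : OmT S μ) : gT S nR L2 L1 h ω = none ↔
    ¬ ∃ g : GData ω.1 S.blk ω.2.2 L2 L1 h, nR ≤ g.k := by
  unfold gT
  split_ifs with h2
  · simp [h2]
  · simp [h2]

/-- law of a base fibre -/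
noncomputable def lawT (μ : Type) [DecidableEq μ] [Fintype μ] (rl : ℝ) (r0 : 0 ≤ rl) (r1 : 3 * rl ≤ 1) (p2 : ℝ)
    (q0 : 0 ≤ p2) (q1 : p2 ≤ 1) : FP (OmT S μ) :=
  (lawD μ S.tl rl r0 r1).prod ((bern p1 h0 h1 (Cube κ × CE μ)).prod (bern p2 q0 q1 (CE (κ ⊕ μ))))

variable {S} {rl : ℝ} {r0 : 0 ≤ rl} {r1 : 3 * rl ≤ 1} {p2 : ℝ} {q0 : 0 ≤ p2} {q1 : p2 ≤ 1}

theorem lawT_hb {pb : ℝ} (b0 : 0 ≤ pb) (b1 : pb ≤ 1) (hpb : 1 - pb = (1 - p1) * (1 - p2))
    (F : (CE (κ ⊕ μ) → Bool) → ℝ) :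
    (lawT S μ rl r0 r1 p2 q0 q1).E (fun ω => F (hbT S ω)) = (bern pb b0 b1 (CE (κ ⊕ μ))).E F := by
  unfold lawT
  rw [FP.E_prod]
  have h2 : ∀ D : Cube μ → Fin 4 × S.tl.Ω,
      ((bern p1 h0 h1 (Cube κ × CE μ)).prod (bern p2 q0 q1 (CE (κ ⊕ μ)))).E (fun b => F (hbT S (D, b))) =
      (bern p1 h0 h1 (Cube κ × CE μ)).E fun f => (fun x : CE (κ ⊕ μ) → Bool =>
        (bern p2 q0 q1 (CE (κ ⊕ μ))).E fun g => F fun e => x e || g e) (gluB (fun s => S.tl.hb (D s).2) f) := by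
    intro D
    rw [FP.E_prod]
    rfl
  rw [FP.E_congr _ h2]
  have h3 := E_gluB' (p := p1) (h0 := h0) (h1 := h1) (κ := κ) (μ := μ) (subQ S.tl rl r0 r1)
    (fun a => S.tl.hb a.2) (fun F => by
      have h4 : (subQ S.tl rl r0 r1).E (fun a => F (S.tl.hb a.2)) = S.tl.P.E fun ω => F (S.tl.hb ω) := by
        show ((lbP rl r0 r1).prod S.tl.P).E _ = _
        rw [FP.E_prod]
        exact FP.E_const (lbP rl r0 r1) _
      rw [h4]
      exact S.tl.hbLaw F)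
    (fun x : CE (κ ⊕ μ) → Bool => (bern p2 q0 q1 (CE (κ ⊕ μ))).E fun g => F fun e => x e || g e)
  refine Eq.trans h3 ?_
  exact bern_or h0 h1 q0 q1 b0 b1 hpb F

/-- probability that there is no giant -/
theorem lawT_giant (nR L2 L1 h : ℕ) :
    (lawT S μ rl r0 r1 p2 q0 q1).pr (fun ω => gT S nR L2 L1 h ω = none) =
      ((lawD μ S.tl rl r0 r1).prod (bern p2 q0 q1 (CE (κ ⊕ μ)))).pr
        (fun ω => ¬ ∃ g : GData ω.1 S.blk ω.2 L2 L1 h, nR ≤ g.k) := by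
  classical
  unfold lawT
  rw [FP.pr_eq, FP.pr_eq, FP.E_prod, FP.E_prod]
  refine FP.E_congr _ fun D => ?_
  rw [FP.E_prod]
  have h2 : ∀ f : Cube κ × CE μ → Bool, ((bern p2 q0 q1 (CE (κ ⊕ μ))).E fun b =>
      if gT S nR L2 L1 h (D, (f, b)) = none then (1 : ℝ) else 0) = (bern p2 q0 q1 (CE (κ ⊕ μ))).E fun b =>
      if ¬ ∃ g : GData D S.blk b L2 L1 h, nR ≤ g.k then (1 : ℝ) else 0 := by
    intro f
    refine FP.E_congr _ fun b => ?_
    have h3 := gT_none S nR L2 L1 h (D, (f, b))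
    by_cases h4 : ∃ g : GData D S.blk b L2 L1 h, nR ≤ g.k
    · rw [if_neg (fun h5 => h3.1 h5 h4), if_neg (not_not.2 h4)]
    · rw [if_pos (h3.2 h4), if_pos h4]
  rw [FP.E_congr _ h2, FP.E_const]

/-- bound for the probability that there is no giant -/
noncomputable def gBd (dk dmu : ℕ) (T L2 : ℕ) (ρ p2 : ℝ) : ℝ :=
  ((dmu : ℝ) ^ 2 + dk) * Real.exp (T - (1 - Real.exp (-1)) * (ρ / 2) ^ 3 * (dmu - 2)) * ((dk + dmu : ℕ) : ℝ) ^ 8 +
      64 / 2 ^ dmu + Real.exp (6 * (2 ^ (dk + dmu) / L2) - p2 * (2 ^ (dk + dmu) / ((dk + dmu : ℕ) : ℝ) ^ 8))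

/-- **the law of the base fibre before the conjugation** -/
theorem exists_preLaw {κ μ : Type} [DecidableEq κ] [Fintype κ] [DecidableEq μ] [Fintype μ]
    {p1 : ℝ} {h0 : 0 ≤ p1} {h1 : p1 ≤ 1} {L K M1 : ℕ} {ε : ℝ} (S : SubLaw κ p1 h0 h1 L K M1 ε)
    {p2 pb : ℝ} (q0 : 0 ≤ p2) (q1 : p2 ≤ 1) (b0 : 0 ≤ pb) (b1 : pb ≤ 1) (hpb : 1 - pb = (1 - p1) * (1 - p2))
    (dk dmu : ℕ) (hdk : Fintype.card κ = dk) (hdmu : Fintype.card μ = dmu)
    (nR Vr L2 L1 h T M0 Bd : ℕ) {rl u0 α ρ : ℝ} (rl0 : 0 ≤ rl) (rl1 : rl ≤ 1 / 20) (hε : 0 ≤ ε)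
    (hL : 2 ≤ L) (hK : 0 < K) (hL2 : 0 < L2) (hh : 0 < h) (hVr : 0 < Vr) (hVL : Vr ≤ L1)
    (hL1 : L + 1 + 2 * h ≤ L1)
    (hBd : 2 * (L1 + ((dk + dmu) ^ 9 + 1) * L2) + L ≤ Bd)
    (hLL : ((dk + dmu) ^ 9 + 1) * L2 * (dk + dmu) ^ 9 ≤ L1) (hd0 : 100 ≤ dk + dmu) (hT : dk + dmu ≤ T * T)
    (hμ : dk ≤ dmu) (hh1 : 2 * L1 ≤ h * (dk + dmu)) (hbig : 4 * (nR + 8) * L1 ≤ 2 ^ (dk + dmu))
    (hcov : (L1 : ℝ) * (2 * ε + 1 / K) ≤ 1 / 20)
    (hends : ε + 2 * (((dk + dmu : ℕ) : ℝ) ^ 9 + 2) / L1 ≤ u0)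
    (hα : α ≤ rl * (1 - 2 * L * ε)) (hρ0 : 0 ≤ ρ) (hρ : ρ ≤ rl / 2)
    (hg : gBd dk dmu T L2 rl p2 ≤ 1 / 500)
    (hA : 3 * rl + ε ≤ 1 / 1000) (hM : 2 * M0 ≤ M1)
    (hB : 2000 * L * ((L1 : ℝ) * (2 * ε + 1 / K) + 4 / ((dk + dmu : ℕ) : ℝ) + 4 * L1 / 2 ^ (dk + dmu) + 2 * h / L1 +
      gBd dk dmu T L2 rl p2 + nR * L / 2 ^ (dk + dmu)) ≤ M0 * S.D0.card) :
    Nonempty (PreLaw (κ ⊕ μ) nR pb b0 b1 u0 α ρ L Vr Bd M0) := by
  classical
  have hdm : dm κ μ = dk + dmu := by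
    rw [dm, Fintype.card_sum, hdk, hdmu]
  have r1 : 3 * rl ≤ 1 := by linarith
  have hL1p : 0 < L1 := by omega
  have hL1r : (0 : ℝ) < L1 := by exact_mod_cast hL1p
  have hhL : 2 * h ≤ L1 := by omega
  have hd1 : 0 < dm κ μ := by omega
  set δ : ℝ := (L1 : ℝ) * (2 * ε + 1 / K) with hδ
  have hδ0 : 0 ≤ δ := by positivity
  have hLV : (Vr : ℝ) ≤ L1 := by exact_mod_cast hVL
  have hL2L1 : L2 ≤ L1 := by
    refine le_trans ?_ hLL
    have e3 : 1 ≤ (dk + dmu) ^ 9 := Nat.one_le_pow _ _ (by omega)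
    calc L2 = 1 * L2 * 1 := by ring
      _ ≤ ((dk + dmu) ^ 9 + 1) * L2 * (dk + dmu) ^ 9 := by gcongr; omega
  have hL2r : (L2 : ℝ) ≤ L1 := by exact_mod_cast hL2L1
  have hcovl : ∀ l : ℕ, 0 < l → (l : ℝ) ≤ L1 → ∀ y, 1 - δ ≤ S.tl.P.pr (fun a => y ∈ cvr S.blk a l) := by
    intro l hl hlL y
    refine le_trans ?_ (pr_cvr S hL hK l hl y)
    have h3 : (l : ℝ) * (2 * ε + 1 / K) ≤ δ := mul_le_mul_of_nonneg_right hlL (by positivity)
    linarith
  have hcov20 : ∀ l : ℕ, 0 < l → (l : ℝ) ≤ L1 → ∀ y, 1 - 1 / 20 ≤ S.tl.P.pr (fun a => y ∈ cvr S.blk a l) :=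
    fun l hl hlL y => le_trans (by linarith) (hcovl l hl hlL y)
  -- the giant
  have hgi : (lawT S μ rl rl0 r1 p2 q0 q1).pr (fun ω => gT S nR L2 L1 h ω = none) ≤ gBd dk dmu T L2 rl p2 := by
    rw [lawT_giant]
    have h2 := giant_pr (S := S.tl) (μ := μ) S.blk (r0 := rl0) (r1 := r1) nR (2 ^ dm κ μ) T L2 L1 h rfl hL2 hh hhL
      (by rw [hdm]; exact hLL) (by rw [hdm]; exact hd0) (by rw [hdm]; exact hT)
      (by rw [hdm, hdmu]; omega) (by rw [hdm]; exact hh1) (by rw [hdm]; exact hbig) q0 q1 rl1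
      (hcov20 L2 hL2 hL2r) (hcov20 L1 hL1p le_rfl)
    refine h2.trans (le_of_eq ?_)
    unfold gBd
    rw [hdmu, hdk, hdm]
    push_cast
    rfl
  have hblk : ∀ D : S.tl.DD μ, Fintype.card (MPt D S.blk L1) * L1 ≤ 2 ^ dm κ μ := fun D =>
    (card_blocks_le S.blk D L2 L1 h hL2 hh hhL).2
  set Q := lawT S μ rl rl0 r1 p2 q0 q1 with hQ
  have hEl : ∀ f : (Cube μ → Fin 4 × S.tl.Ω) → ℝ, Q.E (fun ω => f ω.1) = (lawD μ S.tl rl rl0 r1).E f :=
    fun f => E_prod_left _ _ f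
  have hPl : ∀ A : (Cube μ → Fin 4 × S.tl.Ω) → Prop, Q.pr (fun ω => A ω.1) = (lawD μ S.tl rl rl0 r1).pr A :=
    fun A => pr_prod_left _ _ A
  have hcard : Fintype.card (κ ⊕ μ) = dm κ μ := rfl
  refine ⟨{
    Ω := OmT S μ
    fin := inferInstance
    μ := Q
    bd := fun ω => mkBD nR Vr (hbT S ω) (gT S nR L2 L1 h ω)
    D0 := S.D0.image Sum.inl
    D0ne := S.D0ne.image _
    Adms := gAdm S.tl μ
    admD := fun A hA => gAdm_disj hA
    admA := fun A hA π τ hπ => gAdm_am hA π τ hπ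
    aM := L
    admL := fun A hA => gAdm_card hA
    val := ?_
    hbLaw := fun F => lawT_hb b0 b1 hpb F
    nEnd := fun ω => (endS (gc (gT S nR L2 L1 h ω))).card
    nEnd_spec := ?_
    ends := ?_
    use := ?_
    rs := fun ω => rsS S.blk Vr ω.1
    rs_spec := fun ω y hy => rsS_inP S.blk hy
    resv := ?_
    rs2 := fun k ω => (rsS S.blk Vr ω.1).filter fun y => flip k y ∈ rsS S.blk Vr ω.1
    rs2_spec := ?_
    resv2 := ?_
    giant := ?_
    bM := fun ω => bMs ω.1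
    parlA := ?_
    parlB := ?_ }⟩
  · -- val
    intro ω
    refine mkBD_val nR Vr (hbT S ω) (gT S nR L2 L1 h ω) hL ?_ ?_ hL1 Bd (by rw [hdm]; exact hBd)
      (gT_k S nR L2 L1 h ω)
    · intro s e he
      unfold hbT
      rw [Bool.or_eq_true]
      left
      have h2 := gluB_inl (fun s => S.tl.hb (ω.1 s).2) ω.2.1 (jn e.1.1 s) e.1.2
      have h3 : (canE (κ ⊕ μ)).e (jn e.1.1 s) (Sum.inl e.1.2) = embE s e := by
        rw [← embE_can]
        congr 1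
        apply Subtype.ext
        refine Prod.ext ?_ rfl
        exact Function.update_eq_self_iff.2 e.2.symm
      have h4 : (canE κ).e e.1.1 e.1.2 = e := by
        apply Subtype.ext
        refine Prod.ext ?_ rfl
        exact Function.update_eq_self_iff.2 e.2.symm
      rw [h3, jn_inl, jn_inr, h4] at h2
      rw [h2]
      exact he
    · intro e he
      unfold hbT
      rw [he, Bool.or_true]
  · intro ω T hT'
    refine card_le_card fun y hy => ?_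
    rw [mem_endS]
    exact hT' y hy
  · -- ends
    have h2 : ∀ ω : OmT S μ, (((endS (gc (gT S nR L2 L1 h ω))).card : ℕ) : ℝ) ≤
        (endS (gcb ω.1)).card + 2 * (((dm κ μ : ℕ) : ℝ) ^ 9 + 2) / L1 * 2 ^ dm κ μ :=
      fun ω => card_end_gc hL1p (hblk ω.1) _
    refine (FP.E_mono _ h2).trans ?_
    rw [FP.E_add, FP.E_const, hEl fun D => ((endS (gcb D)).card : ℝ)]
    have h3 := E_end (S := S.tl) (μ := μ) (r0 := rl0) (r1 := r1) hL
    rw [hcard, hdm] at *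
    have h4 : (0 : ℝ) < 2 ^ (dk + dmu) := by positivity
    have h5 := mul_le_mul_of_nonneg_right hends h4.le
    linarith
  · -- use
    have h2 : ∀ ω : OmT S μ, ((useS ω.1).card : ℝ) = ((mkBD nR Vr (hbT S ω) (gT S nR L2 L1 h ω)).U.card : ℝ) := by
      intro ω
      have h3 : useS ω.1 = (mkBD nR Vr (hbT S ω) (gT S nR L2 L1 h ω)).U := by
        ext w
        rw [mk_mem_U]
        unfold useS
        simp only [mem_filter, mem_univ, true_and]
      rw [h3]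
    rw [← FP.E_congr _ h2, hEl fun D => ((useS D).card : ℝ)]
    refine le_trans ?_ (E_use (S := S.tl) (μ := μ) (r0 := rl0) (r1 := r1) hL)
    exact mul_le_mul_of_nonneg_right hα (by positivity)
  · -- resv
    have h2 := le_E_card Q (fun ω => rsS S.blk Vr ω.1) (ε := ρ) (by
      intro y
      rw [hPl fun D => y ∈ rsS S.blk Vr D]
      refine le_trans ?_ (pr_rsS S.blk (hcov20 Vr hVr hLV) y)
      nlinarith)
    rw [card_cubeN] at h2
    linarith
  · intro k ω y hy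
    rw [mem_filter] at hy
    exact ⟨rsS_inP S.blk hy.1, rsS_inP S.blk hy.2⟩
  · -- resv2
    intro k
    have h2 := le_E_card Q (fun ω => (rsS S.blk Vr ω.1).filter fun y => flip k y ∈ rsS S.blk Vr ω.1)
      (ε := ρ ^ 3) (by
      intro y
      have h3 : Q.pr (fun ω => y ∈ (rsS S.blk Vr ω.1).filter fun y => flip k y ∈ rsS S.blk Vr ω.1) =
          Q.pr (fun ω => y ∈ rsS S.blk Vr ω.1 ∧ flip k y ∈ rsS S.blk Vr ω.1) := by
        congr 1
        funext ω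
        exact propext mem_filter
      rw [h3, hPl fun D => y ∈ rsS S.blk Vr D ∧ flip k y ∈ rsS S.blk Vr D]
      refine le_trans ?_ (pr_rsS_two S.blk (δ := 1 / 20) (by norm_num) le_rfl rl1 (hcov20 Vr hVr hLV) y k)
      exact pow_le_pow_left₀ hρ0 hρ 3)
    rw [card_cubeN] at h2
    linarith
  · -- giant
    have h2 : Q.pr (fun ω => (mkBD nR Vr (hbT S ω) (gT S nR L2 L1 h ω)).G.Nonempty) =
        Q.pr (fun ω => ¬ gT S nR L2 L1 h ω = none) := by
      congr 1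
      funext ω
      apply propext
      constructor
      · rintro ⟨y, hy⟩ hn
        rw [mk_mem_G, hn] at hy
        simp [gls] at hy
      · intro hn
        obtain ⟨g, hg'⟩ := Option.ne_none_iff_exists'.1 hn
        have h3 : 0 < g.l.length := by have := g.len; omega
        refine ⟨g.l[0], ?_⟩
        rw [mk_mem_G, hg']
        exact List.getElem_mem h3
    rw [h2, FP.pr_compl]
    linarith
  · -- parlA
    intro A hA'
    obtain ⟨s, A0, hA0, rfl⟩ := hA'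
    have h2 : Q.pr (fun ω => ((A0.image (embE s)) ∩ bMs ω.1).card < 2 * M0) ≤
        Q.pr (fun ω => ¬ (ω.1 s).1 = 0 ∨ (A0.filter fun e => S.tl.b (ω.1 s).2 e.1.1 = some (flip e.1.2 e.1.1) ∨
          S.tl.b (ω.1 s).2 (flip e.1.2 e.1.1) = some e.1.1).card < M1) := by
      refine FP.pr_mono _ fun ω hω => ?_
      by_cases h3 : (ω.1 s).1 = 0
      · right
        refine lt_of_le_of_lt ?_ (hω.trans_le hM)
        rw [← card_image_of_injective _ (embE_injective (κ := κ) s)]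
        refine card_le_card fun e he => ?_
        obtain ⟨e0, he0, rfl⟩ := mem_image.1 he
        rw [mem_filter] at he0
        rw [mem_inter]
        refine ⟨mem_image_of_mem _ he0.1, ?_⟩
        unfold bMs
        rw [mem_filter]
        have f1 : (embE s e0).1.1 = jn e0.1.1 s := rfl
        have f2 : (embE s e0).1.2 = Sum.inl e0.1.2 := rfl
        refine ⟨mem_univ _, mem_image_of_mem _ ((S.tl.admD _ hA0).1 e0 he0.1), ?_, ?_⟩
        · rw [f1, jn_inr]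
          exact h3
        · rw [f1, f2, flip_jn]
          unfold gb
          rw [lft_iff, lft_iff]
          simp only [jn_inl, jn_inr, and_true]
          exact he0.2
      · exact Or.inl h3
    refine h2.trans ?_
    rw [hPl fun D => ¬ (D s).1 = 0 ∨ (A0.filter fun e => S.tl.b (D s).2 e.1.1 = some (flip e.1.2 e.1.1) ∨
          S.tl.b (D s).2 (flip e.1.2 e.1.1) = some e.1.1).card < M1]
    refine (FP.pr_or _ _ _).trans ?_
    have h3 := lawD_pr (S := S.tl) (r0 := rl0) (r1 := r1) s (fun a => ¬ a.1 = 0)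
    have h4 := lawD_pr (S := S.tl) (r0 := rl0) (r1 := r1) s (fun a =>
      (A0.filter fun e => S.tl.b a.2 e.1.1 = some (flip e.1.2 e.1.1) ∨
          S.tl.b a.2 (flip e.1.2 e.1.1) = some e.1.1).card < M1)
    rw [h3, h4]
    have h5 := subQ_snd (S := S.tl) (r0 := rl0) (r1 := r1) (fun ω =>
      (A0.filter fun e => S.tl.b ω e.1.1 = some (flip e.1.2 e.1.1) ∨
          S.tl.b ω (flip e.1.2 e.1.1) = some e.1.1).card < M1)
    have h6 := S.tl.apr A0 hA0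
    have h7 : (subQ S.tl rl rl0 r1).pr (fun a => ¬ a.1 = 0) = 3 * rl := by
      rw [FP.pr_compl]
      have h8 := subQ_pr (S := S.tl) (r0 := rl0) (r1 := r1) 0 (fun _ => True)
      have h9 : (subQ S.tl rl rl0 r1).pr (fun a => a.1 = 0) = (subQ S.tl rl rl0 r1).pr (fun a => a.1 = 0 ∧ True) := by
        congr 1
        funext a
        simp
      rw [h9, h8, if_pos rfl]
      have h10 : S.tl.P.pr (fun _ => True) = 1 := by
        rw [FP.pr_eq]
        simp only [if_true]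
        exact FP.E_const _ _
      rw [h10]
      ring
    rw [h7]
    linarith [h5.trans_le h6]
  · -- parlB
    set D0' : Finset (κ ⊕ μ) := S.D0.image Sum.inl with hD0'
    have hD0c : (D0'.card : ℝ) = S.D0.card := by
      rw [hD0', card_image_of_injective _ Sum.inl_injective]
    have h2 : ∀ ω : OmT S μ, ((bMs ω.1 \ (mkBD nR Vr (hbT S ω) (gT S nR L2 L1 h ω)).opt D0' L).card : ℝ) ≤
        (∑ s, uncv S.blk L1 (ω.1 s) + 2 ^ dm κ μ * (4 / ((dm κ μ : ℕ) : ℝ) + 4 * L1 / 2 ^ dm κ μ +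
          2 * h / L1) + 2 ^ dm κ μ * (if gT S nR L2 L1 h ω = none then 1 else 0)) + nR * L := by
      intro ω
      have h3 := card_bMs_opt (nR := nR) (Vr := Vr) (hb := hbT S ω) (gT S nR L2 L1 h ω)
      have h4 := card_badv (gT S nR L2 L1 h ω) hd1 hh (by omega) (hblk ω.1)
      have h5 : ((bMs ω.1 \ (mkBD nR Vr (hbT S ω) (gT S nR L2 L1 h ω)).opt D0' L).card : ℝ) ≤
          (badv ω.1 (gT S nR L2 L1 h ω)).card + nR * L := by exact_mod_cast h3
      refine h5.trans (add_le_add_left ?_ _)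
      convert h4
    have h3 : Q.E (fun ω => ((bMs ω.1 \ (mkBD nR Vr (hbT S ω) (gT S nR L2 L1 h ω)).opt D0' L).card : ℝ)) ≤
        2 ^ dm κ μ * δ + 2 ^ dm κ μ * (4 / ((dm κ μ : ℕ) : ℝ) + 4 * L1 / 2 ^ dm κ μ + 2 * h / L1) +
          2 ^ dm κ μ * gBd dk dmu T L2 rl p2 + nR * L := by
      refine (FP.E_mono _ h2).trans ?_
      rw [FP.E_add, FP.E_add, FP.E_add, FP.E_const, FP.E_const, FP.E_mul_left, ← FP.pr_eq,
        hEl fun D => ∑ s, uncv S.blk L1 (D s)]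
      have h4 := E_uncv (S := S.tl) (μ := μ) (B := S.blk) (r0 := rl0) (r1 := r1) hδ0
        (hcovl L1 hL1p le_rfl)
      have h5 : (2 : ℝ) ^ dm κ μ * Q.pr (fun ω => gT S nR L2 L1 h ω = none) ≤
          2 ^ dm κ μ * gBd dk dmu T L2 rl p2 := mul_le_mul_of_nonneg_left hgi (by positivity)
      linarith
    have h4 : (0 : ℝ) ≤ 2000 * (L : ℝ) := by positivity
    have h5 := mul_le_mul_of_nonneg_left h3 h4
    refine h5.trans ?_
    rw [hD0c, hcard, hdm]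
    have h6 : (0 : ℝ) < 2 ^ (dk + dmu) := by positivity
    have h7 := mul_le_mul_of_nonneg_right hB h6.le
    have h8 : (M0 : ℝ) * S.D0.card * 2 ^ (dk + dmu) = M0 * (S.D0.card * 2 ^ (dk + dmu)) := by ring
    rw [← h8]
    refine le_trans (le_of_eq ?_) h7
    field_simp
    ring

end pre

end Pool.Agent.LongCyc.Dense
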