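import Pool.Agent.LongCyc.Dense.BaseBlk

/-!
# Dense regime: probability that a base fibre has a giant
-/

set_option autoImplicit false
set_option linter.unusedSectionVars false

namespace Pool.Agent.LongCyc.Dense

open Finset BadMassAux BlockDec

/-! ### Labels -/

/-- law of the label of a subfibre -/
noncomputable def lbP (ρ : ℝ) (r0 : 0 ≤ ρ) (r1 : 3 * ρ ≤ 1) : FP (Fin 4) where
  w i := if i = 0 then 1 - 3 * ρ else ρ
  nonneg i := by
    split_ifs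
    · linarith
    · exact r0
  sum_one := by
    rw [Fin.sum_univ_four]
    simp
    ring

theorem lbP_pr {ρ : ℝ} {r0 : 0 ≤ ρ} {r1 : 3 * ρ ≤ 1} {Ω : Type*} [Fintype Ω] (P : FP Ω) (i : Fin 4)
    (A : Ω → Prop) :
    ((lbP ρ r0 r1).prod P).pr (fun a => a.1 = i ∧ A a.2) = (if i = 0 then 1 - 3 * ρ else ρ) * P.pr A := by
  classical
  rw [FP.pr_eq, FP.E_prod]
  have h : ∀ j : Fin 4, (P.E fun b => if j = i ∧ A b then (1 : ℝ) else 0) = if j = i then P.pr A else 0 := by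
    intro j
    by_cases hj : j = i
    · rw [if_pos hj, FP.pr_eq]
      refine FP.E_congr _ fun b => ?_
      simp [hj]
    · rw [if_neg hj]
      rw [← FP.E_const P 0]
      refine FP.E_congr _ fun b => ?_
      simp [hj]
  rw [FP.E_congr _ h]
  show ∑ j : Fin 4, (if j = 0 then 1 - 3 * ρ else ρ) * (if j = i then P.pr A else 0) = _
  rw [Finset.sum_eq_single i]
  · simp
  · intro j _ hj
    simp [hj]
  · intro h2; exact absurd (Finset.mem_univ i) h2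

section prob

variable {κ μ : Type} [DecidableEq κ] [Fintype κ] [DecidableEq μ] [Fintype μ]
  {p1 : ℝ} {h0 : 0 ≤ p1} {h1 : p1 ≤ 1} {L K M1 : ℕ} {ε : ℝ} {S : SubLaw κ p1 h0 h1 L K M1 ε}
  (B : BlkSys S) {ρ : ℝ} {r0 : 0 ≤ ρ} {r1 : 3 * ρ ≤ 1}

/-- law of the data of a subfibre -/
noncomputable def subQ (S : SubLaw κ p1 h0 h1 L K M1 ε) (ρ : ℝ) (r0 : 0 ≤ ρ) (r1 : 3 * ρ ≤ 1) : FP (Fin 4 × S.Ω) :=
  (lbP ρ r0 r1).prod S.P

theorem pr_Rsb {δ : ℝ} {l : ℕ} (hcov : ∀ y, 1 - δ ≤ S.P.pr (fun ω => y ∈ cvr B ω l)) (y : Cube κ) :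
    ρ * (1 - δ) ≤ (subQ S ρ r0 r1).pr (fun a => y ∈ Rsb B l a) := by
  classical
  have h := lbP_pr (r0 := r0) (r1 := r1) S.P 1 (fun ω => y ∈ cvr B ω l)
  rw [if_neg (by decide)] at h
  refine le_trans (mul_le_mul_of_nonneg_left (hcov y) r0) ?_
  rw [← h]
  refine FP.pr_mono _ fun a ha => ?_
  unfold Rsb
  rw [if_pos ha.1]
  exact ha.2

theorem pr_and_ge {Ω : Type*} [Fintype Ω] (P : FP Ω) (A A' : Ω → Prop) {a a' : ℝ} (h : 1 - a ≤ P.pr A)
    (h' : 1 - a' ≤ P.pr A') : 1 - (a + a') ≤ P.pr (fun ω => A ω ∧ A' ω) := by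
  have h2 := P.pr_compl A
  have h3 := P.pr_compl A'
  have h4 := P.pr_or (fun ω => ¬ A ω) (fun ω => ¬ A' ω)
  have h5 := P.pr_compl (fun ω => A ω ∧ A' ω)
  have h6 : P.pr (fun ω => ¬ (A ω ∧ A' ω)) ≤ P.pr (fun ω => ¬ A ω ∨ ¬ A' ω) := by
    refine P.pr_mono fun ω hω => ?_
    by_contra hc
    push Not at hc
    exact hω hc
  linarith

theorem pr_Rsb_two {δ : ℝ} {l : ℕ} (hcov : ∀ y, 1 - δ ≤ S.P.pr (fun ω => y ∈ cvr B ω l)) (y y' : Cube κ) :
    ρ * (1 - 2 * δ) ≤ (subQ S ρ r0 r1).pr (fun a => y ∈ Rsb B l a ∧ y' ∈ Rsb B l a) := by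
  classical
  have h := lbP_pr (r0 := r0) (r1 := r1) S.P 1 (fun ω => y ∈ cvr B ω l ∧ y' ∈ cvr B ω l)
  rw [if_neg (by decide)] at h
  have h2 := pr_and_ge S.P _ _ (hcov y) (hcov y')
  have h3 : 1 - 2 * δ ≤ S.P.pr (fun ω => y ∈ cvr B ω l ∧ y' ∈ cvr B ω l) := by linarith
  refine le_trans (mul_le_mul_of_nonneg_left h3 r0) ?_
  rw [← h]
  refine FP.pr_mono _ fun a ha => ?_
  unfold Rsb
  rw [if_pos ha.1]
  exact ha.2

/-! ### Deterministic existence of the giant -/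

open Classical in
theorem gdata_of (D : S.DD μ) (hb2 : CE (κ ⊕ μ) → Bool) (nR n T L2 L1 h : ℕ) (hn : n = 2 ^ dm κ μ)
    (hL2 : 0 < L2) (hh : 0 < h) (hhL : 2 * h ≤ L1)
    (hL : (dm κ μ ^ 9 + 1) * L2 * dm κ μ ^ 9 ≤ L1) (hd0 : 100 ≤ dm κ μ) (hT : dm κ μ ≤ T * T)
    (hμ : dm κ μ ≤ 2 * Fintype.card μ)
    (hbad : (badSet (Rsb B L2) T D).card * dm κ μ ^ 8 ≤ n)
    (hspr : ∀ X X' : Finset (RPt D B L2 ⊕ (MPt D B L1 ⊕ MPt D B L1)), Disjoint X X' →
      n ≤ (mix (X.biUnion (gBl D B L2 L1 h hL2 hh hhL).bset) (X'.biUnion (gBl D B L2 L1 h hL2 hh hhL).bset)).card *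
        dm κ μ ^ 8 →
      ∃ b ∈ X, ∃ b' ∈ X', Joined (opn (canE (κ ⊕ μ)) hb2) ((gBl D B L2 L1 h hL2 hh hhL).bset b)
        ((gBl D B L2 L1 h hL2 hh hhL).bset b'))
    (hN1 : n ≤ Fintype.card (MPt D B L1) * h * dm κ μ) (hN8 : 8 ≤ Fintype.card (MPt D B L1))
    (hnR : nR + 4 * (Fintype.card (MPt D B L1) / dm κ μ + 1) ≤ Fintype.card (MPt D B L1)) :
    ∃ g : GData D B hb2 L2 L1 h, nR ≤ g.k := by
  obtain ⟨k, P, l, hl, E, c1, c2, c3, c4, c5, c6, c7, c8, c9⟩ := giant_det' (G1 := gG1 D)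
    (G2 := opn (canE (κ ⊕ μ)) hb2) (fun x y h => h.symm) (fun _ _ h => opn_symm h) (dm κ μ) n T L2 L1 h rfl hn
    (gBl D B L2 L1 h hL2 hh hhL) hL hd0 hT (Zdir κ μ) (by rw [card_Zdir]; exact hμ)
    (badSet (Rsb B L2) T D) hbad
    (by
      intro x hx
      have := not_mem_badSet (Rsb B L2) hx
      rw [gBl_R]
      exact this)
    (by convert hspr) hN1 hN8
  refine ⟨⟨k, P, l, hl, E, c1, c2, c3, c4, c5, c6, ?_, c8, c9⟩, by
    show nR ≤ k
    omega⟩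
  intro x hx
  rcases c7 x hx with ⟨i, j, rfl⟩ | ⟨r, hr⟩
  · left
    show (D (bpv D B L1 (P i).1.1 (P i).2 j ∘ Sum.inr)).1 = 0
    rw [bpv_inr]
    exact (P i).1.2
  · right
    rw [mem_rset] at hr
    obtain ⟨i, rfl⟩ := hr
    show (D (bpv D B L2 r.1.1 r.2 i ∘ Sum.inr)).1 = 1
    rw [bpv_inr]
    exact r.1.2

/-! ### Probability of the giant -/

/-- normalised number of vertices in main blocks of a subfibre -/
noncomputable def xmb (l : ℕ) (a : Fin 4 × S.Ω) : ℝ := (nmb B l a : ℝ) * l / 2 ^ Fintype.card κ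

theorem xmb_eq (l : ℕ) (a : Fin 4 × S.Ω) :
    xmb B l a = (if a.1 = 0 then ((cvr B a.2 l).card : ℝ) else 0) / 2 ^ Fintype.card κ := by
  unfold xmb nmb
  split_ifs
  · rw [card_cvr]
    push_cast
    ring
  · simp

theorem xmb_nonneg (l : ℕ) (a : Fin 4 × S.Ω) : 0 ≤ xmb B l a := by
  unfold xmb; positivity

theorem xmb_le_one (l : ℕ) (a : Fin 4 × S.Ω) : xmb B l a ≤ 1 := by
  rw [xmb_eq, div_le_one (by positivity)]
  have h : ((cvr B a.2 l).card : ℝ) ≤ 2 ^ Fintype.card κ := by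
    have := Finset.card_le_univ (cvr B a.2 l)
    have h2 : Fintype.card (Cube κ) = 2 ^ Fintype.card κ := by simp
    rw [h2] at this
    exact_mod_cast this
  split_ifs
  · exact h
  · positivity

theorem E_xmb {δ : ℝ} {l : ℕ} (hcov : ∀ y, 1 - δ ≤ S.P.pr (fun ω => y ∈ cvr B ω l)) :
    (1 - 3 * ρ) * (1 - δ) ≤ (subQ S ρ r0 r1).E (xmb B l) := by
  classical
  have h2 : ∀ a, xmb B l a = (((if a.1 = 0 then cvr B a.2 l else ∅ : Finset (Cube κ)).card : ℕ) : ℝ) /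
      2 ^ Fintype.card κ := by
    intro a
    rw [xmb_eq]
    split_ifs <;> simp
  rw [FP.E_congr _ h2, FP.E_div, le_div_iff₀ (by positivity)]
  have h3 := le_E_card (subQ S ρ r0 r1) (fun a => (if a.1 = 0 then cvr B a.2 l else ∅ : Finset (Cube κ)))
    (ε := (1 - 3 * ρ) * (1 - δ)) (by
      intro x
      have h := lbP_pr (r0 := r0) (r1 := r1) S.P 0 (fun ω => x ∈ cvr B ω l)
      rw [if_pos rfl] at h
      refine le_trans (mul_le_mul_of_nonneg_left (hcov x) (by linarith)) ?_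
      rw [← h]
      refine FP.pr_mono _ fun a ha => ?_
      rw [if_pos ha.1]
      exact ha.2)
  have h4 : (Fintype.card (Cube κ) : ℝ) = 2 ^ Fintype.card κ := by simp
  rw [h4] at h3
  linarith

theorem card_MPt_mul (D : S.DD μ) (l : ℕ) :
    (Fintype.card (MPt D B l) : ℝ) * l = 2 ^ Fintype.card κ * ∑ s, xmb B l (D s) := by
  rw [card_MPt, Finset.mul_sum]
  push_cast
  rw [Finset.sum_mul]
  refine Finset.sum_congr rfl fun s _ => ?_
  unfold xmb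
  field_simp

theorem card_blocks_le (D : S.DD μ) (L2 L1 h : ℕ) (hL2 : 0 < L2) (hh : 0 < h) (hhL : 2 * h ≤ L1) :
    Fintype.card (RPt D B L2) * L2 ≤ 2 ^ dm κ μ ∧ Fintype.card (MPt D B L1) * L1 ≤ 2 ^ dm κ μ := by
  have hc : Fintype.card (Cube (κ ⊕ μ)) = 2 ^ dm κ μ := by simp [dm]
  constructor
  · have e1 := Fintype.card_le_of_injective _ (gBl D B L2 L1 h hL2 hh hhL).rp_inj
    rw [Fintype.card_prod, Fintype.card_fin, hc] at e1
    exact e1
  · have e1 := Fintype.card_le_of_injective _ (gBl D B L2 L1 h hL2 hh hhL).mp_inj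
    rw [Fintype.card_prod, Fintype.card_fin, hc] at e1
    exact e1

/-- law of the subfibres of a base fibre -/
noncomputable def lawD (μ : Type) [DecidableEq μ] [Fintype μ] (S : SubLaw κ p1 h0 h1 L K M1 ε) (ρ : ℝ)
    (r0 : 0 ≤ ρ) (r1 : 3 * ρ ≤ 1) : FP (Cube μ → Fin 4 × S.Ω) := FP.pi fun _ => subQ S ρ r0 r1

/-- for good subfibres the giant exists with large probability -/
theorem giant_fixed (D : S.DD μ) (nR n T L2 L1 h : ℕ) (hn : n = 2 ^ dm κ μ)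
    (hL2 : 0 < L2) (hh : 0 < h) (hhL : 2 * h ≤ L1)
    (hL : (dm κ μ ^ 9 + 1) * L2 * dm κ μ ^ 9 ≤ L1) (hd0 : 100 ≤ dm κ μ) (hT : dm κ μ ≤ T * T)
    (hμ : dm κ μ ≤ 2 * Fintype.card μ)
    (hbad : (badSet (Rsb B L2) T D).card * dm κ μ ^ 8 ≤ n)
    (hmain : (1 / 2 : ℝ) * 2 ^ Fintype.card μ ≤ ∑ s, xmb B L1 (D s))
    (hh1 : 2 * L1 ≤ h * dm κ μ) (hbig : 4 * (nR + 8) * L1 ≤ n)
    {p2 : ℝ} (q0 : 0 ≤ p2) (q1 : p2 ≤ 1) :
    (bern p2 q0 q1 (CE (κ ⊕ μ))).pr (fun hb2 => ¬ ∃ g : GData D B hb2 L2 L1 h, nR ≤ g.k) ≤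
      Real.exp (6 * (n / L2) - p2 * (n / dm κ μ ^ 8)) := by
  classical
  have hd1 : 0 < dm κ μ := by omega
  have hL1 : 0 < L1 := by omega
  have hnr : (n : ℝ) = 2 ^ Fintype.card κ * 2 ^ Fintype.card μ := by
    rw [hn, ← pow_add, dm, Fintype.card_sum]; push_cast; rfl
  set N := Fintype.card (MPt D B L1) with hN
  have hNL : (N : ℝ) * L1 = 2 ^ Fintype.card κ * ∑ s, xmb B L1 (D s) := card_MPt_mul B D L1
  have hNL1 : (n : ℝ) ≤ 2 * (N * L1) := by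
    rw [hNL, hnr]
    have := mul_le_mul_of_nonneg_left hmain (show (0 : ℝ) ≤ 2 * 2 ^ Fintype.card κ by positivity)
    linarith
  have hNL1' : n ≤ 2 * (N * L1) := by exact_mod_cast hNL1
  obtain ⟨hRn, hMn⟩ := card_blocks_le B D L2 L1 h hL2 hh hhL
  rw [← hn] at hRn hMn
  have hN1 : n ≤ N * h * dm κ μ := by
    calc n ≤ 2 * (N * L1) := hNL1'
      _ = N * (2 * L1) := by ring
      _ ≤ N * (h * dm κ μ) := Nat.mul_le_mul_left _ hh1
      _ = N * h * dm κ μ := by ring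
  have hN2 : 2 * (nR + 8) ≤ N := by
    by_contra hcon
    push Not at hcon
    have h2 : 2 * (N * L1) < 2 * (2 * (nR + 8) * L1) := by
      have := Nat.mul_lt_mul_of_pos_right hcon hL1
      omega
    have h3 : 2 * (2 * (nR + 8) * L1) = 4 * (nR + 8) * L1 := by ring
    omega
  have hN8 : 8 ≤ N := by omega
  have hnR : nR + 4 * (N / dm κ μ + 1) ≤ N := by
    have h2 : N / dm κ μ ≤ N / 100 := Nat.div_le_div_left hd0 (by norm_num)
    have h3 : N / 100 * 100 ≤ N := Nat.div_mul_le_self N 100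
    omega
  have hsp := sprinkle_prob (p := p2) (h0 := q0) (h1 := q1) (canE (κ ⊕ μ)) (gBl D B L2 L1 h hL2 hh hhL).bset
    (bset_disj (gBl D B L2 L1 h hL2 hh hhL)) n (dm κ μ ^ 8) (by positivity)
  refine le_trans (FP.pr_mono _ fun ω hω => ?_) (hsp.trans ?_)
  · intro hspr
    apply hω
    refine gdata_of B D ω nR n T L2 L1 h hn hL2 hh hhL hL hd0 hT hμ hbad ?_ hN1 hN8 hnR
    convert hspr
  · have hB : (Fintype.card (RPt D B L2 ⊕ (MPt D B L1 ⊕ MPt D B L1)) : ℝ) ≤ 3 * (n / L2) := by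
      rw [Fintype.card_sum, Fintype.card_sum]
      have hL2r : (0 : ℝ) < L2 := by exact_mod_cast hL2
      have e1 : (Fintype.card (RPt D B L2) : ℝ) ≤ n / L2 := by
        rw [le_div_iff₀ hL2r]
        exact_mod_cast hRn
      have hLL : L2 ≤ L1 := by
        have e3 : 1 ≤ dm κ μ ^ 9 := Nat.one_le_pow _ _ hd1
        calc L2 = 1 * L2 * 1 := by ring
          _ ≤ (dm κ μ ^ 9 + 1) * L2 * dm κ μ ^ 9 := by gcongr; omega
          _ ≤ L1 := hL
      have e2 : (N : ℝ) ≤ n / L2 := by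
        rw [le_div_iff₀ hL2r]
        have : N * L2 ≤ n := le_trans (Nat.mul_le_mul_left _ hLL) hMn
        exact_mod_cast this
      push_cast
      linarith
    have h4 : (4 : ℝ) ≤ Real.exp 2 := by
      have := Real.add_one_le_exp (1 : ℝ)
      have e2 : Real.exp 2 = Real.exp 1 * Real.exp 1 := by rw [← Real.exp_add]; norm_num
      rw [e2]
      nlinarith
    have h5 : (4 : ℝ) ^ Fintype.card (RPt D B L2 ⊕ (MPt D B L1 ⊕ MPt D B L1)) ≤
        Real.exp (6 * (n / L2)) := by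
      calc (4 : ℝ) ^ Fintype.card (RPt D B L2 ⊕ (MPt D B L1 ⊕ MPt D B L1)) ≤
          (Real.exp 2) ^ Fintype.card (RPt D B L2 ⊕ (MPt D B L1 ⊕ MPt D B L1)) :=
            pow_le_pow_left₀ (by norm_num) h4 _
        _ = Real.exp (Fintype.card (RPt D B L2 ⊕ (MPt D B L1 ⊕ MPt D B L1)) * 2) := by
            rw [← Real.exp_nat_mul]
        _ ≤ _ := Real.exp_le_exp.mpr (by linarith)
    refine (mul_le_mul_of_nonneg_right h5 (Real.exp_pos _).le).trans ?_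
    rw [← Real.exp_add]
    apply Real.exp_le_exp.mpr
    push_cast
    linarith

/-- **probability of the giant** -/
theorem giant_pr (nR n T L2 L1 h : ℕ) (hn : n = 2 ^ dm κ μ)
    (hL2 : 0 < L2) (hh : 0 < h) (hhL : 2 * h ≤ L1)
    (hL : (dm κ μ ^ 9 + 1) * L2 * dm κ μ ^ 9 ≤ L1) (hd0 : 100 ≤ dm κ μ) (hT : dm κ μ ≤ T * T)
    (hμ : dm κ μ ≤ 2 * Fintype.card μ)
    (hh1 : 2 * L1 ≤ h * dm κ μ) (hbig : 4 * (nR + 8) * L1 ≤ n)
    {p2 : ℝ} (q0 : 0 ≤ p2) (q1 : p2 ≤ 1) (hρ : ρ ≤ 1 / 20)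
    (hcov2 : ∀ y, 1 - 1 / 20 ≤ S.P.pr (fun ω => y ∈ cvr B ω L2))
    (hcov1 : ∀ y, 1 - 1 / 20 ≤ S.P.pr (fun ω => y ∈ cvr B ω L1)) :
    ((lawD μ S ρ r0 r1).prod (bern p2 q0 q1 (CE (κ ⊕ μ)))).pr
        (fun ω => ¬ ∃ g : GData ω.1 B ω.2 L2 L1 h, nR ≤ g.k) ≤
      ((Fintype.card μ : ℝ) ^ 2 + Fintype.card κ) *
        Real.exp (T - (1 - Real.exp (-1)) * (ρ / 2) ^ 3 * (Fintype.card μ - 2)) * dm κ μ ^ 8 +
      64 / 2 ^ Fintype.card μ + Real.exp (6 * (n / L2) - p2 * (n / dm κ μ ^ 8)) := by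
  classical
  have hd1 : 0 < dm κ μ := by omega
  set P2 := bern p2 q0 q1 (CE (κ ⊕ μ)) with hP2
  set PD := lawD μ S ρ r0 r1 with hPD
  set ex := Real.exp (6 * (n / L2) - p2 * (n / dm κ μ ^ 8)) with hex
  set bad1 : (Cube μ → Fin 4 × S.Ω) → Prop := fun D => (1 / (dm κ μ : ℝ) ^ 8) *
    2 ^ (Fintype.card κ + Fintype.card μ) < ((badSet (Rsb B L2) T D).card : ℝ) with hbad1
  set bad2 : (Cube μ → Fin 4 × S.Ω) → Prop := fun D => ∑ s, xmb B L1 (D s) ≤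
    Fintype.card (Cube μ) * ((subQ S ρ r0 r1).E (xmb B L1) - 1 / 8) with hbad2
  have hE : 3 / 4 ≤ (subQ S ρ r0 r1).E (xmb B L1) := by
    have h2 := E_xmb B (r0 := r0) (r1 := r1) hcov1
    have h3 : (3 / 4 : ℝ) ≤ (1 - 3 * ρ) * (1 - 1 / 20) := by nlinarith
    linarith
  have hkey : ∀ D : Cube μ → Fin 4 × S.Ω, P2.pr (fun hb2 => ¬ ∃ g : GData D B hb2 L2 L1 h, nR ≤ g.k) ≤
      (if bad1 D then 1 else 0) + (if bad2 D then 1 else 0) + ex := by
    intro D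
    by_cases hb1 : bad1 D
    · rw [if_pos hb1]
      have := P2.pr_le_one (fun hb2 => ¬ ∃ g : GData D B hb2 L2 L1 h, nR ≤ g.k)
      have h3 : (0 : ℝ) ≤ if bad2 D then 1 else 0 := by split_ifs <;> norm_num
      have h4 := (Real.exp_pos (6 * (n / L2) - p2 * (n / dm κ μ ^ 8))).le
      linarith
    by_cases hb2 : bad2 D
    · rw [if_neg hb1, if_pos hb2]
      have := P2.pr_le_one (fun hb2 => ¬ ∃ g : GData D B hb2 L2 L1 h, nR ≤ g.k)
      have h4 := (Real.exp_pos (6 * (n / L2) - p2 * (n / dm κ μ ^ 8))).le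
      linarith
    rw [if_neg hb1, if_neg hb2, zero_add, zero_add]
    refine giant_fixed B D nR n T L2 L1 h hn hL2 hh hhL hL hd0 hT hμ ?_ ?_ hh1 hbig q0 q1
    · simp only [hbad1, not_lt] at hb1
      have h2 : ((badSet (Rsb B L2) T D).card : ℝ) * dm κ μ ^ 8 ≤ n := by
        have hdp : (0 : ℝ) < (dm κ μ : ℝ) ^ 8 := by positivity
        have h3 := mul_le_mul_of_nonneg_right hb1 hdp.le
        have h5 : (n : ℝ) = 2 ^ (Fintype.card κ + Fintype.card μ) := by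
          rw [hn, dm, Fintype.card_sum]
          push_cast
          rfl
        have h4 : (1 / (dm κ μ : ℝ) ^ 8) * 2 ^ (Fintype.card κ + Fintype.card μ) * (dm κ μ : ℝ) ^ 8 =
            (n : ℝ) := by
          rw [← h5]
          field_simp
        linarith
      exact_mod_cast h2
    · simp only [hbad2, not_le] at hb2
      have h3 : (Fintype.card (Cube μ) : ℝ) = 2 ^ Fintype.card μ := by simp
      rw [h3] at hb2
      have h4 : (0 : ℝ) < 2 ^ Fintype.card μ := by positivity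
      nlinarith
  have h1' : (PD.prod P2).pr (fun ω => ¬ ∃ g : GData ω.1 B ω.2 L2 L1 h, nR ≤ g.k) ≤
      PD.E (fun D => (if bad1 D then 1 else 0) + (if bad2 D then 1 else 0) + ex) := by
    rw [FP.pr_eq, FP.E_prod]
    refine FP.E_mono _ fun D => ?_
    have := hkey D
    rw [FP.pr_eq] at this
    exact this
  refine h1'.trans ?_
  rw [FP.E_add, FP.E_const, FP.E_add, ← FP.pr_eq, ← FP.pr_eq]
  have e1 : PD.pr bad1 ≤ ((Fintype.card μ : ℝ) ^ 2 + Fintype.card κ) *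
        Real.exp (T - (1 - Real.exp (-1)) * (ρ / 2) ^ 3 * (Fintype.card μ - 2)) * dm κ μ ^ 8 := by
    have h2 := bad_prob (μ := μ) (subQ S ρ r0 r1) (Rsb B L2) (q := ρ / 2) (by linarith) (by linarith)
      (fun y => le_trans (by nlinarith) (pr_Rsb B hcov2 y))
      (fun y k => le_trans (by
        have : (ρ / 2) ^ 3 ≤ ρ * (1 - 2 * (1 / 20)) := by
          have h3 : (ρ / 2) ^ 3 = ρ * (ρ ^ 2 / 8) := by ring
          rw [h3]
          apply mul_le_mul_of_nonneg_left _ r0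
          nlinarith
        exact this) (pr_Rsb_two B hcov2 y (flip k y))) T (s := 1 / (dm κ μ : ℝ) ^ 8) (by positivity)
    refine h2.trans (le_of_eq ?_)
    field_simp
  have e2 : PD.pr bad2 ≤ 64 / 2 ^ Fintype.card μ := by
    have h2 := conc_iid (I := Cube μ) (subQ S ρ r0 r1) (xmb B L1) (xmb_nonneg B L1) (xmb_le_one B L1)
      (ε := 1 / 8) (by norm_num)
    refine h2.trans (le_of_eq ?_)
    have h3 : (Fintype.card (Cube μ) : ℝ) = 2 ^ Fintype.card μ := by simp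
    rw [h3]
    field_simp
    norm_num
  linarith

end prob

end Pool.Agent.LongCyc.Dense
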