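import Pool.Agent.LongCyc.Dense.BaseDef
import Pool.Agent.LongCyc.Dense.BlockDec

/-!
# Dense regime: interface of one subfibre, automorphisms of the cube
-/

set_option autoImplicit false

namespace Pool.Agent.LongCyc.Dense

open Finset BlockDec

/-! ### Automorphisms -/

section am

variable {β : Type} [DecidableEq β]

/-- automorphism of the cube: permutation of the directions, then translation -/
def am (π : Equiv.Perm β) (τ : Cube β) (x : Cube β) : Cube β := xr (x ∘ π.symm) τ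

/-- inverse automorphism -/
def ami (π : Equiv.Perm β) (τ : Cube β) (x : Cube β) : Cube β := xr x τ ∘ π

/-- action on the edges -/
def amE (π : Equiv.Perm β) (τ : Cube β) (e : CE β) : CE β := (canE β).e (am π τ e.1.1) (π e.1.2)

/-- inverse action on the edges -/
def amiE (π : Equiv.Perm β) (τ : Cube β) (e : CE β) : CE β := (canE β).e (ami π τ e.1.1) (π.symm e.1.2)

variable [Fintype β] {nR : ℕ}

/-- transport of the data of a base fibre -/
def BD.am (D : BD β nR) (π : Equiv.Perm β) (τ : Cube β) : BD β nR where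
  hb := fun e => D.hb (amiE π τ e)
  b := fun y => (D.b (ami π τ y)).map (Dense.am π τ)
  c := fun y => (D.c (ami π τ y)).map (Dense.am π τ)
  U := D.U.image (Dense.am π τ)
  Gd := D.Gd.image (Dense.am π τ)
  PS := D.PS.image (Dense.am π τ)
  G := D.G.image (Dense.am π τ)
  res := fun i => Dense.am π τ (D.res i)

end am

/-! ### One subfibre -/

/-- **law of one subfibre**: `p1` = edge probability, `L` = run length, `K` = bound for short cycles, `M1` = number of parallel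
edges, `ε` = all error probabilities. `gd` = good starts. -/
structure SubLaw (κ : Type) [DecidableEq κ] [Fintype κ] (p1 : ℝ) (h0 : 0 ≤ p1) (h1 : p1 ≤ 1)
    (L K M1 : ℕ) (ε : ℝ) where
  Ω : Type
  fin : Fintype Ω
  P : FP Ω
  hb : Ω → CE κ → Bool
  b : Ω → Cube κ → Option (Cube κ)
  gd : Ω → Finset (Cube κ)
  D0 : Finset κ
  D0ne : D0.Nonempty
  Adm : Finset (CE κ) → Prop
  admL : ∀ A, Adm A → A.card ≤ L
  admD : ∀ A, Adm A → (∀ e ∈ A, e.1.2 ∈ D0) ∧ ∀ e ∈ A, ∀ e' ∈ A, e ≠ e' →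
    e.1.1 ≠ e'.1.1 ∧ e.1.1 ≠ flip e'.1.2 e'.1.1 ∧ flip e.1.2 e.1.1 ≠ e'.1.1 ∧ flip e.1.2 e.1.1 ≠ flip e'.1.2 e'.1.1
  /-- admissible sets are invariant under the permutations of `D0` and the translations -/
  admA : ∀ A, Adm A → ∀ (π : Equiv.Perm κ) (τ : Cube κ), (∀ i, i ∉ D0 → π i = i) → Adm (A.image (amE π τ))
  bInj : ∀ ω, PInj (b ω)
  bOpen : ∀ ω y y', b ω y = some y' → opn (canE κ) (hb ω) y y'
  no2b : ∀ ω y y', b ω y = some y' → b ω y' ≠ some y
  /-- the `D0`-edges of `b` form a matching -/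
  mat : ∀ ω y, ∀ i ∈ D0, ∀ i' ∈ D0, (b ω y = some (flip i y) ∨ b ω (flip i y) = some y) →
    (b ω y = some (flip i' y) ∨ b ω (flip i' y) = some y) → i = i'
  gdef : ∀ ω, ∀ u ∈ gd ω, it (b ω) (L - 1) u ≠ none
  gopen : ∀ ω, ∀ u ∈ gd ω, ∀ k, 1 ≤ k → k ≤ L → it (b ω) k u ≠ some u
  gadm : ∀ ω, ∀ u ∈ gd ω, Adm (runD0 D0 (b ω) L u)
  hbLaw : ∀ F : (CE κ → Bool) → ℝ, P.E (fun ω => F (hb ω)) = (bern p1 h0 h1 (CE κ)).E F
  gpr : ∀ x, P.pr (fun ω => x ∉ gd ω) ≤ ε
  spr : ∀ x, P.pr (fun ω => x ∈ shortS (b ω) K) ≤ ε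
  /-- every admissible set contains many edges of `b` -/
  apr : ∀ A, Adm A → P.pr (fun ω => (A.filter fun e => b ω e.1.1 = some (flip e.1.2 e.1.1) ∨
    b ω (flip e.1.2 e.1.1) = some e.1.1).card < M1) ≤ ε

end Pool.Agent.LongCyc.Dense
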