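import Pool.Agent.LongCyc.Dense.BaseAm
import Pool.Agent.LongCyc.Dense.BaseSub

/-!
# Dense regime: uniform translation of a subfibre
-/

set_option autoImplicit false
set_option linter.unusedSectionVars false

namespace Pool.Agent.LongCyc.Dense

open Finset BlockDec

attribute [instance] SubLaw.fin

section tl

variable {κ : Type} [DecidableEq κ] [Fintype κ] {p1 : ℝ} {h0 : 0 ≤ p1} {h1 : p1 ≤ 1} {L K M1 : ℕ} {ε : ℝ}

theorem pr_prod_le' {Ω Ω' : Type*} [Fintype Ω] [Fintype Ω'] (P : FP Ω) (Q : FP Ω')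
    (S : Ω × Ω' → Prop) {ε : ℝ} (h : ∀ b, P.pr (fun a => S (a, b)) ≤ ε) :
    (P.prod Q).pr S ≤ ε := by
  classical
  rw [FP.pr_eq, FP.E_prod, FP.E_swap]
  refine FP.E_le_of_le _ fun b => ?_
  have := h b
  rw [FP.pr_eq] at this
  exact this

theorem pres_tra (D0 : Finset κ) (t : Cube κ) : Pres D0 (tra t) := fun _ => Iff.rfl

theorem amE_one (t : Cube κ) : (amE (1 : Equiv.Perm κ) t) = (tra t).E := rfl

/-- **uniform translation** of the law of a subfibre -/
noncomputable def SubLaw.tl (S : SubLaw κ p1 h0 h1 L K M1 ε) : SubLaw κ p1 h0 h1 L K M1 ε where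
  Ω := S.Ω × Cube κ
  fin := inferInstance
  P := S.P.prod (FP.unif (Cube κ))
  hb := fun a e => S.hb a.1 ((tra a.2).symm.E e)
  b := fun a => mpc (tra a.2) (S.b a.1)
  gd := fun a => (S.gd a.1).image (tra a.2).f
  D0 := S.D0
  D0ne := S.D0ne
  Adm := S.Adm
  admL := S.admL
  admD := S.admD
  admA := S.admA
  bInj := by
    intro a x y v hx hy
    exact (tra a.2).f.symm.injective (S.bInj _ _ _ _ (mpc_some.1 hx) (mpc_some.1 hy))
  bOpen := fun a y y' hy => opn_mpE.2 (S.bOpen _ _ _ (mpc_some.1 hy))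
  no2b := fun a y y' hy hy' => S.no2b _ _ _ (mpc_some.1 hy) (mpc_some.1 hy')
  mat := by
    intro a y i hi i' hi' h1 h2
    have key : ∀ j, (mpc (tra a.2) (S.b a.1) y = some (flip j y) ∨
        mpc (tra a.2) (S.b a.1) (flip j y) = some y) →
        (S.b a.1 ((tra a.2).f.symm y) = some (flip j ((tra a.2).f.symm y)) ∨
          S.b a.1 (flip j ((tra a.2).f.symm y)) = some ((tra a.2).f.symm y)) := by
      intro j hj
      have e1 : (tra a.2).f.symm (flip j y) = flip j ((tra a.2).f.symm y) := (tra a.2).symm_hf y j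
      rcases hj with hj | hj
      · left
        rw [← e1]
        exact mpc_some.1 hj
      · right
        rw [← e1]
        exact mpc_some.1 hj
    exact S.mat _ _ i hi i' hi' (key i h1) (key i' h2)
  gdef := by
    intro a u hu h
    exact S.gdef _ _ (mem_mpS.1 hu) (it_mpc_none.1 h)
  gopen := by
    intro a u hu k hk hkL h
    exact S.gopen _ _ (mem_mpS.1 hu) k hk hkL (it_mpc_some.1 h)
  gadm := by
    intro a u hu
    rw [runD0_mp_image (pres_tra _ _)]
    exact S.admA _ (S.gadm _ _ (mem_mpS.1 hu)) 1 a.2 (fun _ _ => rfl)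
  hbLaw := by
    intro F
    rw [FP.E_prod, FP.E_swap]
    have h2 : ∀ t : Cube κ, (S.P.E fun ω => F fun e => S.hb ω ((tra t).symm.E e)) =
        (bern p1 h0 h1 (CE κ)).E F := by
      intro t
      rw [S.hbLaw (fun hb => F fun e => hb ((tra t).symm.E e))]
      exact bern_am (p := p1) (h0 := h0) (h1 := h1) (1 : Equiv.Perm κ) t F
    rw [FP.E_congr _ h2, FP.E_const]
  gpr := by
    intro x
    refine pr_prod_le' _ _ _ fun t => ?_
    refine le_trans (FP.pr_mono _ fun ω h => ?_) (S.gpr ((tra t).f.symm x))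
    exact fun h2 => h (mem_mpS.2 h2)
  spr := by
    intro x
    refine pr_prod_le' _ _ _ fun t => ?_
    refine le_trans (FP.pr_mono _ fun ω h => ?_) (S.spr ((tra t).f.symm x))
    rw [mem_shortS] at h ⊢
    obtain ⟨k, hk, hkK, h2⟩ := h
    exact ⟨k, hk, hkK, it_mpc_some.1 h2⟩
  apr := by
    intro A hA
    refine pr_prod_le' _ _ _ fun t => ?_
    have hA' : S.Adm (A.image (tra t).symm.E) := S.admA A hA 1 t (fun _ _ => rfl)
    refine le_trans (FP.pr_mono _ fun ω h => ?_) (S.apr _ hA')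
    refine lt_of_le_of_lt ?_ h
    rw [← Finset.card_image_of_injective _ (CAut.E_injective (tra t))]
    refine Finset.card_le_card ?_
    intro e he
    obtain ⟨e', he', rfl⟩ := mem_image.1 he
    rw [mem_filter] at he' ⊢
    obtain ⟨h3, h4⟩ := he'
    obtain ⟨e0, he0, rfl⟩ := mem_image.1 h3
    rw [CAut.E_symm_E]
    refine ⟨he0, ?_⟩
    have e2 : ((tra t).symm.E e0).1.2 = e0.1.2 := rfl
    have e3 : ∀ y : Cube κ, (tra t).f.symm (flip e0.1.2 y) = flip e0.1.2 ((tra t).f.symm y) :=
      fun y => (tra t).symm_hf y _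
    rw [e2] at h4
    have h5 : S.b ω ((tra t).f.symm e0.1.1) = some (flip e0.1.2 ((tra t).f.symm e0.1.1)) ∨
        S.b ω (flip e0.1.2 ((tra t).f.symm e0.1.1)) = some ((tra t).f.symm e0.1.1) := by
      rcases (tra t).symm.E_pt e0 with h6 | h6
      · have h6' : ((tra t).symm.E e0).1.1 = (tra t).f.symm e0.1.1 := h6
        rw [h6'] at h4
        exact h4
      · have h6' : ((tra t).symm.E e0).1.1 = flip e0.1.2 ((tra t).f.symm e0.1.1) := h6
        rw [h6', flip_flip] at h4
        exact h4.symm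
    rcases h5 with h5 | h5
    · left
      refine mpc_some.2 ?_
      rw [e3]
      exact h5
    · right
      refine mpc_some.2 ?_
      rw [e3]
      exact h5

end tl

end Pool.Agent.LongCyc.Dense
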