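import Mathlib
import Pool.Agent.LongCyc.Dense.Defs

set_option autoImplicit false

namespace Pool.Agent.LongCyc.Dense

open Finset

variable {PP : Type*} [Fintype PP] [DecidableEq PP]

variable (G : SimpleGraph PP) [DecidableRel G.Adj] {η s0 : ℝ}

theorem adm_empty (hη : 0 ≤ η) (U : Finset PP) : Adm G η U ∅ := by
  refine ⟨by simp, ?_⟩
  have : nbr G (∅ : Finset PP) = ∅ := by
    ext q
    simp [nbr]
  rw [this]
  simp

theorem adm_mono {U U' W : Finset PP} (h : Adm G η U W) (hU : U ⊆ U') : Adm G η U' W := by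
  refine ⟨h.1, le_trans ?_ h.2⟩
  exact_mod_cast card_le_card (sdiff_subset_sdiff (Subset.refl _) (union_subset_union_right hU))

theorem exists_admMax {U W : Finset PP} (h : Adm G η U W) : ∃ W', W ⊆ W' ∧ AdmMax G η U W' := by
  classical
  obtain ⟨W', hW', hmax⟩ := exists_max_image
    ((univ : Finset (Finset PP)).filter fun X => W ⊆ X ∧ Adm G η U X) card
    ⟨W, by simp [h]⟩
  rw [mem_filter] at hW'
  refine ⟨W', hW'.2.1, hW'.2.2, fun W'' h1 h2 => ?_⟩
  exact (eq_of_subset_of_card_le h1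
    (hmax W'' (by rw [mem_filter]; exact ⟨mem_univ _, hW'.2.1.trans h1, h2⟩))).symm

/-- size bound -/
theorem adm_card_le (hη : 0 < η) (hexp : Expands G s0 η) {U W : Finset PP} (h : Adm G η U W) :
    (W.card : ℝ) ≤ max s0 (2 / η * (U \ W).card) := by
  rcases le_total (W.card : ℝ) s0 with h0 | h0
  · exact le_max_of_le_left h0
  · apply le_max_of_le_right
    have h1 := hexp W h0 h.1
    have h2 : ((nbr G W \ W).card : ℝ) ≤ (nbr G W \ (W ∪ U)).card + (U \ W).card := by
      have : nbr G W \ W ⊆ (nbr G W \ (W ∪ U)) ∪ (U \ W) := by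
        intro q hq
        simp only [mem_sdiff, mem_union] at hq ⊢
        tauto
      exact_mod_cast (card_le_card this).trans (card_union_le _ _)
    have h3 := h.2
    rw [div_mul_eq_mul_div, le_div_iff₀ hη]
    linarith

/-- expansion outside a maximal admissible set -/
theorem admMax_expand (hη : 0 < η) {U W S : Finset PP} (h : AdmMax G η U W) (hS : S.Nonempty)
    (hSUW : ∀ p ∈ S, p ∉ U ∧ p ∉ W) (hcard : 3 * (S.card + W.card) ≤ 2 * Fintype.card PP) :
    η / 2 * S.card < ((nbr G S \ (S ∪ W ∪ U)).card : ℝ) := by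
  have _ := hη
  have hd : Disjoint S W := disjoint_left.2 fun p hp => (hSUW p hp).2
  have hcu : (S ∪ W).card = S.card + W.card := card_union_of_disjoint hd
  have hna : ¬ Adm G η U (S ∪ W) := by
    intro ha
    have := h.2 (S ∪ W) subset_union_right ha
    obtain ⟨p, hp⟩ := hS
    exact (hSUW p hp).2 (this ▸ mem_union_left _ hp)
  have h1 : η / 2 * (S ∪ W).card < ((nbr G (S ∪ W) \ (S ∪ W ∪ U)).card : ℝ) := by
    by_contra hc
    exact hna ⟨by rw [hcu]; exact hcard, not_lt.1 hc⟩
  have h2 : ((nbr G (S ∪ W) \ (S ∪ W ∪ U)).card : ℝ) ≤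
      (nbr G S \ (S ∪ W ∪ U)).card + (nbr G W \ (W ∪ U)).card := by
    have : nbr G (S ∪ W) \ (S ∪ W ∪ U) ⊆ (nbr G S \ (S ∪ W ∪ U)) ∪ (nbr G W \ (W ∪ U)) := by
      intro q hq
      simp only [mem_sdiff, mem_union, nbr, mem_filter, mem_univ, true_and] at hq ⊢
      obtain ⟨⟨p, hp | hp, hpq⟩, hq⟩ := hq
      · exact Or.inl ⟨⟨p, hp, hpq⟩, hq⟩
      · exact Or.inr ⟨⟨p, hp, hpq⟩, fun h => hq (by tauto)⟩
    exact_mod_cast (card_le_card this).trans (card_union_le _ _)
  have h3 := h.1.2
  rw [hcu, Nat.cast_add] at h1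
  linarith

/-- the graph outside `U` and `W` -/
def outG (U W : Finset PP) : SimpleGraph PP where
  Adj x y := G.Adj x y ∧ (x ∉ U ∧ x ∉ W) ∧ (y ∉ U ∧ y ∉ W)
  symm := ⟨fun _ _ h => ⟨h.1.symm, h.2.2, h.2.1⟩⟩
  loopless := ⟨fun _ h => h.1.ne rfl⟩

theorem outG_support {U W : Finset PP} {p q : PP} (w : (outG G U W).Walk p q)
    (hp : p ∉ U ∧ p ∉ W) : ∀ r ∈ w.support, r ∉ U ∧ r ∉ W := by
  induction w with
  | nil =>
    intro r hr
    rw [SimpleGraph.Walk.support_nil, List.mem_singleton] at hr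
    rwa [hr]
  | cons hadj w ih =>
    intro r hr
    rw [SimpleGraph.Walk.support_cons, List.mem_cons] at hr
    rcases hr with rfl | hr
    · exact hp
    · exact ih hadj.2.2 r hr

open Classical in
/-- balls -/
noncomputable def ball (U W : Finset PP) (p : PP) (k : ℕ) : Finset PP :=
  univ.filter fun r => ∃ w : (outG G U W).Walk p r, w.length ≤ k

theorem mem_ball {U W : Finset PP} {p r : PP} {k : ℕ} :
    r ∈ ball G U W p k ↔ ∃ w : (outG G U W).Walk p r, w.length ≤ k := by
  simp [ball]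

theorem ball_large (hη : 0 < η) {U W : Finset PP} (h : AdmMax G η U W)
    (hW : 100 * W.card ≤ Fintype.card PP) (p : PP) (hp : p ∉ U ∧ p ∉ W) (k : ℕ) :
    Fintype.card PP < 2 * (ball G U W p k).card ∨ (1 + η / 2) ^ k ≤ ((ball G U W p k).card : ℝ) := by
  have hcard : 0 < Fintype.card PP := Fintype.card_pos_iff.2 ⟨p⟩
  induction k with
  | zero =>
    right
    have : p ∈ ball G U W p 0 := (mem_ball G).2 ⟨SimpleGraph.Walk.nil, le_rfl⟩
    rw [pow_zero]
    exact_mod_cast card_pos.2 ⟨p, this⟩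
  | succ k ih =>
    set B := ball G U W p k with hB
    have hpB : p ∈ B := (mem_ball G).2 ⟨SimpleGraph.Walk.nil, Nat.zero_le _⟩
    have hBout : ∀ r ∈ B, r ∉ U ∧ r ∉ W := by
      intro r hr
      obtain ⟨w, _⟩ := (mem_ball G).1 hr
      exact outG_support G w hp r w.end_mem_support
    have hsub : B ∪ (nbr G B \ (B ∪ W ∪ U)) ⊆ ball G U W p (k + 1) := by
      intro r hr
      rw [mem_union] at hr
      rcases hr with hr | hr
      · obtain ⟨w, hw⟩ := (mem_ball G).1 hr
        exact (mem_ball G).2 ⟨w, hw.trans (Nat.le_succ k)⟩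
      · rw [mem_sdiff, nbr, mem_filter] at hr
        obtain ⟨⟨_, s, hs, hsr⟩, hr⟩ := hr
        simp only [mem_union, not_or] at hr
        obtain ⟨w, hw⟩ := (mem_ball G).1 hs
        have hadj : (outG G U W).Adj s r := ⟨hsr, hBout s hs, hr.2, hr.1.2⟩
        refine (mem_ball G).2 ⟨w.concat hadj, ?_⟩
        rw [SimpleGraph.Walk.length_concat]
        omega
    have hc1 : B.card + (nbr G B \ (B ∪ W ∪ U)).card ≤ (ball G U W p (k + 1)).card := by
      rw [← card_union_of_disjoint]
      · exact card_le_card hsub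
      · exact disjoint_left.2 fun r hr hr' => (mem_sdiff.1 hr').2
          (mem_union_left _ (mem_union_left _ hr))
    rcases ih with ih | ih
    · left
      omega
    · by_cases hsize : 3 * (B.card + W.card) ≤ 2 * Fintype.card PP
      · right
        have h2 := admMax_expand G hη h ⟨p, hpB⟩ hBout hsize
        have hc2 : (B.card : ℝ) + ((nbr G B \ (B ∪ W ∪ U)).card : ℝ) ≤
            ((ball G U W p (k + 1)).card : ℝ) := by exact_mod_cast hc1
        calc (1 + η / 2) ^ (k + 1) = (1 + η / 2) ^ k * (1 + η / 2) := pow_succ _ _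
          _ ≤ (B.card : ℝ) * (1 + η / 2) := by
            apply mul_le_mul_of_nonneg_right ih
            linarith
          _ ≤ _ := by linarith
      · left
        omega

/-- the rest is connected with small diameter -/
theorem admMax_path (hη : 0 < η) {U W : Finset PP} (h : AdmMax G η U W)
    (hW : 100 * W.card ≤ Fintype.card PP) (k0 : ℕ) (hk0 : (Fintype.card PP : ℝ) ≤ (1 + η / 2) ^ k0)
    (p q : PP) (hp : p ∉ U ∧ p ∉ W) (hq : q ∉ U ∧ q ∉ W) (hPP : 100 ≤ Fintype.card PP) :
    ∃ l : List PP, l.Nodup ∧ l.head? = some p ∧ l.getLast? = some q ∧ l.IsChain G.Adj ∧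
      (∀ r ∈ l, r ∉ U ∧ r ∉ W) ∧ l.length ≤ 2 * k0 + 2 := by
  have hlarge : ∀ r : PP, (r ∉ U ∧ r ∉ W) → Fintype.card PP < 2 * (ball G U W r k0).card := by
    intro r hr
    rcases ball_large G hη h hW r hr k0 with h1 | h1
    · exact h1
    · have : (Fintype.card PP : ℝ) ≤ ((ball G U W r k0).card : ℝ) := hk0.trans h1
      have : Fintype.card PP ≤ (ball G U W r k0).card := by exact_mod_cast this
      omega
  have hne : (ball G U W p k0 ∩ ball G U W q k0).Nonempty := by
    rw [← card_pos]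
    have h1 := card_union_add_card_inter (ball G U W p k0) (ball G U W q k0)
    have h2 := card_le_univ (ball G U W p k0 ∪ ball G U W q k0)
    have h3 := hlarge p hp
    have h4 := hlarge q hq
    omega
  obtain ⟨r, hr⟩ := hne
  rw [mem_inter, mem_ball, mem_ball] at hr
  obtain ⟨⟨w1, hw1⟩, w2, hw2⟩ := hr
  set w := (w1.append w2.reverse).bypass with hw
  have hwp : w.IsPath := SimpleGraph.Walk.bypass_isPath _
  have hwl : w.length ≤ 2 * k0 := by
    refine (SimpleGraph.Walk.length_bypass_le_length _).trans ?_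
    rw [SimpleGraph.Walk.length_append, SimpleGraph.Walk.length_reverse]
    omega
  refine ⟨w.support, hwp.support_nodup, ?_, ?_, ?_, outG_support G w hp, ?_⟩
  · rw [SimpleGraph.Walk.support_eq_cons]
    rfl
  · rw [List.getLast?_eq_some_getLast w.support_ne_nil, SimpleGraph.Walk.getLast_support]
  · exact w.isChain_adj_support.imp fun a b hab => hab.1
  · rw [SimpleGraph.Walk.length_support]
    omega

end Pool.Agent.LongCyc.Dense
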