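import Pool.Agent.LongCyc.Dense.Field

set_option autoImplicit false

namespace Pool.Agent.LongCyc.Dense

open Finset

section R0

variable {I J : Type} [Fintype I] [DecidableEq I] [Fintype J] [DecidableEq J] {Ω : I → Type} [∀ i, Fintype (Ω i)]
  {Ω' : J → Type} [∀ j, Fintype (Ω' j)] (P : ∀ i, FP (Ω i)) (Q : ∀ j, FP (Ω' j))

theorem E_mul_indep2 {S S' : Finset I} {R R' : Finset J} (hS : Disjoint S S') (hR : Disjoint R R')
    {f g : ((∀ i, Ω i) × (∀ j, Ω' j)) → ℝ}
    (hf : ∀ a b, (∀ i ∈ S, a.1 i = b.1 i) → (∀ j ∈ R, a.2 j = b.2 j) → f a = f b)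
    (hg : ∀ a b, (∀ i ∈ S', a.1 i = b.1 i) → (∀ j ∈ R', a.2 j = b.2 j) → g a = g b) :
    ((FP.pi P).prod (FP.pi Q)).E (fun ω => f ω * g ω) =
      ((FP.pi P).prod (FP.pi Q)).E f * ((FP.pi P).prod (FP.pi Q)).E g := by
  rw [FP.E_prod, FP.E_prod, FP.E_prod]
  have h1 : ∀ a, (FP.pi Q).E (fun b => f (a, b) * g (a, b)) =
      (FP.pi Q).E (fun b => f (a, b)) * (FP.pi Q).E (fun b => g (a, b)) := by
    intro a
    refine FP.E_mul_indep Q hR (f := fun b => f (a, b)) (g := fun b => g (a, b)) ?_ ?_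
    · intro b b' h
      exact hf _ _ (fun _ _ => rfl) h
    · intro b b' h
      exact hg _ _ (fun _ _ => rfl) h
  rw [FP.E_congr _ h1]
  refine FP.E_mul_indep P hS (f := fun a => (FP.pi Q).E (fun b => f (a, b)))
    (g := fun a => (FP.pi Q).E (fun b => g (a, b))) ?_ ?_
  · intro a a' h
    exact FP.E_congr _ fun b => hf _ _ h (fun _ _ => rfl)
  · intro a a' h
    exact FP.E_congr _ fun b => hg _ _ h (fun _ _ => rfl)

theorem E_prod_indep2 {K : Type} (A : Finset K) (S : K → Finset I) (R : K → Finset J)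
    (hS : (A : Set K).PairwiseDisjoint S) (hR : (A : Set K).PairwiseDisjoint R)
    (f : K → ((∀ i, Ω i) × (∀ j, Ω' j)) → ℝ)
    (hf : ∀ k ∈ A, ∀ a b, (∀ i ∈ S k, a.1 i = b.1 i) → (∀ j ∈ R k, a.2 j = b.2 j) → f k a = f k b) :
    ((FP.pi P).prod (FP.pi Q)).E (fun ω => ∏ k ∈ A, f k ω) =
      ∏ k ∈ A, ((FP.pi P).prod (FP.pi Q)).E (f k) := by
  classical
  induction A using Finset.induction_on with
  | empty => simp
  | insert a A ha ih =>
    rw [Finset.prod_insert ha]
    have hS' : (A : Set K).PairwiseDisjoint S := hS.subset (by simp)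
    have hR' : (A : Set K).PairwiseDisjoint R := hR.subset (by simp)
    rw [← ih hS' hR' (fun k hk => hf k (Finset.mem_insert_of_mem hk))]
    have hd : Disjoint (S a) (A.biUnion S) := by
      rw [Finset.disjoint_biUnion_right]
      intro k hk
      exact hS (by simp) (by simp [hk]) (by rintro rfl; exact ha hk)
    have hd' : Disjoint (R a) (A.biUnion R) := by
      rw [Finset.disjoint_biUnion_right]
      intro k hk
      exact hR (by simp) (by simp [hk]) (by rintro rfl; exact ha hk)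
    rw [← E_mul_indep2 P Q hd hd' (f := f a) (g := fun ω => ∏ k ∈ A, f k ω)
      (hf a (Finset.mem_insert_self _ _)) (fun ω ω' h h' => Finset.prod_congr rfl fun k hk =>
        hf k (Finset.mem_insert_of_mem hk) ω ω' (fun i hi => h i (Finset.mem_biUnion.2 ⟨k, hk, hi⟩))
          (fun j hj => h' j (Finset.mem_biUnion.2 ⟨k, hk, hj⟩)))]
    exact FP.E_congr _ fun ω => Finset.prod_insert ha

/-- one coordinate against functions not depending on it: freeze the coordinate `i` at its value -/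
theorem E_update2 (i : I) (f : Ω i → ((∀ i, Ω i) × (∀ j, Ω' j)) → ℝ)
    (hf : ∀ w a b, (∀ i', i' ≠ i → a.1 i' = b.1 i') → a.2 = b.2 → f w a = f w b) :
    ((FP.pi P).prod (FP.pi Q)).E (fun ω => f (ω.1 i) ω) =
      (P i).E fun w => ((FP.pi P).prod (FP.pi Q)).E (f w) := by
  rw [FP.E_prod, FP.E_pi_update P i]
  refine FP.E_congr _ fun w => ?_
  rw [FP.E_prod]
  refine FP.E_congr _ fun ω => FP.E_congr _ fun b => ?_
  have h1 : (Function.update ω i w, b).1 i = w := Function.update_self _ _ _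
  rw [h1]
  refine hf w _ _ (fun i' hi' => ?_) rfl
  exact Function.update_of_ne hi' _ _

end R0

end Pool.Agent.LongCyc.Dense
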