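import Pool.Agent.LongCyc.Dense.Field

/-!
# Dense regime, section 4: structure of the selected trees (package LCD-R1)
-/

set_option autoImplicit false
set_option linter.unusedSectionVars false

namespace Pool.Agent.LongCyc.Dense

open Finset

section R1

variable {κ μ : Type} [DecidableEq κ] [Fintype κ] [DecidableEq μ] [Fintype μ] {T : ℕ} (gp : μ → Fin T)
  (st : Cube μ → Cube κ → Option (Cube κ)) (o : Cube κ → Cube μ → μ → Prop) (r : Fin T → ℕ)

theorem mem_cos {l : List (Fin T)} {z z' : Cube μ} :
    z' ∈ cos gp l z ↔ ∀ q : μ, gp q ∉ l → z' q = z q := by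
  simp [cos]

theorem self_mem_cos (l : List (Fin T)) (z : Cube μ) : z ∈ cos gp l z :=
  (mem_cos gp).2 fun _ _ => rfl

theorem flip_mem_cos {a : Fin T} {l : List (Fin T)} {z z' : Cube μ} {i : μ} (hi : gp i = a)
    (h : z' ∈ cos gp l (flip i z)) : z' ∈ cos gp (a :: l) z := by
  rw [mem_cos] at h ⊢
  intro q hq
  rw [List.mem_cons, not_or] at hq
  rw [h q hq.2, flip_of_ne]
  rintro rfl
  exact hq.1 hi

theorem mem_alive {Lf : Cube κ → Cube μ → Finset (Cube κ × Cube μ)} {a : Fin T} {y : Cube κ} {z : Cube μ}
    {i : μ} : i ∈ alive gp st o Lf a y z ↔ gp i = a ∧ o y z i ∧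
      ∃ y', st (flip i z) y = some y' ∧ (Lf y' (flip i z)).Nonempty := by
  classical
  unfold alive
  rw [mem_filter]
  simp

theorem LT_nil (y : Cube κ) (z : Cube μ) : LT gp st o r [] y z = {(y, z)} := rfl

theorem mem_LT_cons {a : Fin T} {l : List (Fin T)} {y : Cube κ} {z : Cube μ} {q : Cube κ × Cube μ} :
    q ∈ LT gp st o r (a :: l) y z ↔ ∃ i ∈ pick (r a) (alive gp st o (LT gp st o r l) a y z),
      ∃ y1, st (flip i z) y = some y1 ∧ q ∈ LT gp st o r l y1 (flip i z) := by
  classical
  rw [LT, mem_biUnion]
  refine exists_congr fun i => and_congr_right fun _ => ?_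
  cases hst : st (flip i z) y with
  | none => simp
  | some y1 => simp

theorem LT_mem_cos {l : List (Fin T)} {y y' : Cube κ} {z z' : Cube μ}
    (h : (y', z') ∈ LT gp st o r l y z) : z' ∈ cos gp l z := by
  induction l generalizing y z with
  | nil =>
    rw [LT_nil, mem_singleton, Prod.mk.injEq] at h
    rw [h.2]
    exact self_mem_cos gp _ _
  | cons a l ih =>
    obtain ⟨i, hi, y1, -, h2⟩ := (mem_LT_cons gp st o r).1 h
    have hi' := (mem_alive gp st o).1 (pick_subset _ _ hi)
    exact flip_mem_cos gp hi'.1 (ih h2)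

theorem LT_par {ε : Bool} (hst : ∀ z y y', st z y = some y' → par y' = !par y) {l : List (Fin T)} {y y' : Cube κ}
    {z z' : Cube μ} (hyz : par2 y z = ε) (h : (y', z') ∈ LT gp st o r l y z) : par2 y' z' = ε := by
  induction l generalizing y z with
  | nil =>
    rw [LT_nil, mem_singleton, Prod.mk.injEq] at h
    rw [h.1, h.2, hyz]
  | cons a l ih =>
    obtain ⟨i, -, y1, h1, h2⟩ := (mem_LT_cons gp st o r).1 h
    refine ih ?_ h2
    rw [← hyz, par2, par2, hst _ _ _ h1, par_flip]
    cases par y <;> cases par z <;> rfl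

/-- different children have different subtrees -/
theorem child_unique {a : Fin T} {l : List (Fin T)} (hal : a ∉ l) {z z' : Cube μ} {i j : μ} (hi : gp i = a)
    (hzi : z' ∈ cos gp l (flip i z)) (hzj : z' ∈ cos gp l (flip j z)) : i = j := by
  by_contra hne
  rw [mem_cos] at hzi hzj
  have h1 := hzi i (by rwa [hi])
  have h2 := hzj i (by rwa [hi])
  rw [flip_same] at h1
  rw [flip_of_ne hne] at h2
  rw [h1] at h2
  cases hz : z i <;> simp [hz] at h2

/-- different leaves are in different fibres -/
theorem LT_fib {l : List (Fin T)} (hl : l.Nodup) {y y1 y2 : Cube κ} {z z' : Cube μ}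
    (h1 : (y1, z') ∈ LT gp st o r l y z) (h2 : (y2, z') ∈ LT gp st o r l y z) : y1 = y2 := by
  induction l generalizing y z with
  | nil =>
    rw [LT_nil, mem_singleton, Prod.mk.injEq] at h1 h2
    rw [h1.1, h2.1]
  | cons a l ih =>
    obtain ⟨hal, hl'⟩ := List.nodup_cons.1 hl
    obtain ⟨i, hi, x1, hx1, h1'⟩ := (mem_LT_cons gp st o r).1 h1
    obtain ⟨j, hj, x2, hx2, h2'⟩ := (mem_LT_cons gp st o r).1 h2
    have hij : i = j := child_unique gp hal ((mem_alive gp st o).1 (pick_subset _ _ hi)).1
      (LT_mem_cos gp st o r h1') (LT_mem_cos gp st o r h2')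
    subst hij
    rw [hx1, Option.some.injEq] at hx2
    subst hx2
    exact ih hl' h1' h2'

theorem LT_card {l : List (Fin T)} (hl : l.Nodup) (y : Cube κ) (z : Cube μ) :
    LT gp st o r l y z = ∅ ∨ (LT gp st o r l y z).card = (l.map r).prod := by
  classical
  induction l generalizing y z with
  | nil => right; simp [LT_nil]
  | cons a l ih =>
    obtain ⟨hal, hl'⟩ := List.nodup_cons.1 hl
    by_cases hc : r a ≤ (alive gp st o (LT gp st o r l) a y z).card
    · right
      rw [LT, card_biUnion]
      · rw [List.map_cons, List.prod_cons, ← pick_card hc, ← smul_eq_mul, ← sum_const, pick_card hc]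
        refine sum_congr rfl fun i hi => ?_
        obtain ⟨-, -, y1, hy1, hne⟩ := (mem_alive gp st o).1 (pick_subset _ _ hi)
        rw [hy1]
        change (LT gp st o r l y1 (flip i z)).card = _
        rcases ih hl' y1 (flip i z) with h | h
        · rw [h] at hne
          exact absurd hne not_nonempty_empty
        · exact h
      · intro i hi j hj hij
        rw [Function.onFun, disjoint_left]
        intro q hqi hqj
        refine hij (child_unique gp (z' := q.2) (z := z) hal ((mem_alive gp st o).1 (pick_subset _ _ hi)).1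
          ?_ ?_)
        · cases hst : st (flip i z) y with
          | none => rw [hst] at hqi; simp at hqi
          | some y1 => rw [hst] at hqi; exact LT_mem_cos gp st o r (y' := q.1) hqi
        · cases hst : st (flip j z) y with
          | none => rw [hst] at hqj; simp at hqj
          | some y1 => rw [hst] at hqj; exact LT_mem_cos gp st o r (y' := q.1) hqj
    · left
      rw [LT, pick_empty (by omega)]
      rfl

/-- the tree depends only on the fibres of the coset, except `z` itself, and on the rungs inside the coset -/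
theorem LT_congr {st st' : Cube μ → Cube κ → Option (Cube κ)} {o o' : Cube κ → Cube μ → μ → Prop}
    {l : List (Fin T)} (hl : l.Nodup) {y : Cube κ} {z : Cube μ}
    (hst : ∀ z' ∈ cos gp l z, z' ≠ z → st z' = st' z')
    (ho : ∀ y', ∀ z' ∈ cos gp l z, ∀ i, gp i ∈ l → (o y' z' i ↔ o' y' z' i)) :
    LT gp st o r l y z = LT gp st' o' r l y z := by
  classical
  induction l generalizing y z with
  | nil => rfl
  | cons a l ih =>
    obtain ⟨hal, hl'⟩ := List.nodup_cons.1 hl
    have key : ∀ i, gp i = a → st (flip i z) = st' (flip i z) ∧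
        ∀ y', LT gp st o r l y' (flip i z) = LT gp st' o' r l y' (flip i z) := by
      intro i hi
      refine ⟨hst _ (flip_mem_cos gp hi (self_mem_cos gp _ _)) (flip_ne i z), fun y' => ?_⟩
      refine ih hl' (fun z' hz' _ => hst z' (flip_mem_cos gp hi hz') ?_)
        (fun y'' z' hz' j hj => ho y'' z' (flip_mem_cos gp hi hz') j (List.mem_cons_of_mem _ hj))
      rintro rfl
      have h1 := (mem_cos gp).1 hz' i (by rwa [hi])
      rw [flip_same] at h1
      cases hz : z' i <;> simp [hz] at h1
    have halive : alive gp st o (LT gp st o r l) a y z = alive gp st' o' (LT gp st' o' r l) a y z := by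
      ext i
      rw [mem_alive, mem_alive]
      refine and_congr_right fun hi => ?_
      rw [ho y z (self_mem_cos gp _ _) i (by rw [hi]; exact List.mem_cons_self), (key i hi).1]
      simp only [(key i hi).2]
    ext q
    rw [mem_LT_cons, mem_LT_cons, halive]
    refine exists_congr fun i => and_congr_right fun hi => ?_
    have hi' := ((mem_alive gp st' o').1 (pick_subset _ _ hi)).1
    rw [(key i hi').1]
    simp only [(key i hi').2]

/-- equivariance -/
theorem LT_shift {st st' : Cube μ → Cube κ → Option (Cube κ)} {o o' : Cube κ → Cube μ → μ → Prop}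
    (η : Cube κ) (ζ : Cube μ) (hst : ∀ z y, st' (xr z ζ) (xr y η) = (st z y).map fun v => xr v η)
    (ho : ∀ y z i, o' (xr y η) (xr z ζ) i ↔ o y z i) (l : List (Fin T)) (y : Cube κ) (z : Cube μ) :
    LT gp st' o' r l (xr y η) (xr z ζ) =
      (LT gp st o r l y z).image fun q => (xr q.1 η, xr q.2 ζ) := by
  classical
  induction l generalizing y z with
  | nil => rw [LT_nil, LT_nil, image_singleton]
  | cons a l ih =>
    have hstep : ∀ i, st' (flip i (xr z ζ)) (xr y η) = (st (flip i z) y).map fun v => xr v η := by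
      intro i
      rw [← hst, xr_flip]
    have halive : alive gp st' o' (LT gp st' o' r l) a (xr y η) (xr z ζ) =
        alive gp st o (LT gp st o r l) a y z := by
      ext i
      rw [mem_alive, mem_alive, ho, hstep]
      refine and_congr_right fun _ => and_congr_right fun _ => ?_
      constructor
      · rintro ⟨y', h1, h2⟩
        obtain ⟨y1, hy1, rfl⟩ := Option.map_eq_some_iff.1 h1
        refine ⟨y1, hy1, ?_⟩
        rw [← xr_flip, ih, image_nonempty] at h2
        exact h2
      · rintro ⟨y1, hy1, h2⟩
        refine ⟨xr y1 η, by rw [hy1]; rfl, ?_⟩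
        rw [← xr_flip, ih, image_nonempty]
        exact h2
    ext q
    rw [mem_LT_cons, halive, mem_image]
    constructor
    · rintro ⟨i, hi, y', h1, h2⟩
      rw [hstep] at h1
      obtain ⟨y1, hy1, rfl⟩ := Option.map_eq_some_iff.1 h1
      rw [← xr_flip, ih, mem_image] at h2
      obtain ⟨q', hq', rfl⟩ := h2
      exact ⟨q', (mem_LT_cons gp st o r).2 ⟨i, hi, y1, hy1, hq'⟩, rfl⟩
    · rintro ⟨q', hq', rfl⟩
      obtain ⟨i, hi, y1, hy1, h2⟩ := (mem_LT_cons gp st o r).1 hq'
      refine ⟨i, hi, xr y1 η, by rw [hstep, hy1]; rfl, ?_⟩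
      rw [← xr_flip, ih, mem_image]
      exact ⟨q', h2, rfl⟩

end R1

end Pool.Agent.LongCyc.Dense
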