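import Pool.Agent.LongCyc.Dense.Field
import Pool.Agent.LongCyc.Dense.Indep2
import Pool.Agent.LongCyc.Dense.Tree

/-!
# Dense regime, package R2: probability that a selected tree is dead
-/

set_option autoImplicit false

namespace Pool.Agent.LongCyc.Dense

open Finset

section R2

variable {κ μ : Type} [DecidableEq κ] [Fintype κ] [DecidableEq μ] [Fintype μ] {T : ℕ} {X : Type} [Fintype X]
  (gp : μ → Fin T)

/-- the child `i` of `(y, z)` is alive -/
def dAl (s : X → Cube κ → Option (Cube κ)) (r : Fin T → ℕ) (l : List (Fin T)) (y : Cube κ) (z : Cube μ)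
    (i : μ) (S : Smp X κ μ) : Prop :=
  rgo S.2 y z i ∧ ∃ y', s (S.1 (flip i z)) y = some y' ∧
    (LT gp (fun z' => s (S.1 z')) (rgo S.2) r l y' (flip i z)).Nonempty

open Classical in
/-- a node with enough alive children is alive -/
theorem dead_card (s : X → Cube κ → Option (Cube κ)) (r : Fin T → ℕ) {a : Fin T} {l : List (Fin T)}
    (hra : 1 ≤ r a) (y : Cube κ) (z : Cube μ) (S : Smp X κ μ)
    (h : LT gp (fun z' => s (S.1 z')) (rgo S.2) r (a :: l) y z = ∅) :
    ((univ.filter fun i : μ => gp i = a).filter fun i => dAl gp s r l y z i S).card < r a := by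
  by_contra hc
  rw [not_lt] at hc
  have h1 : (univ.filter fun i : μ => gp i = a).filter (fun i => dAl gp s r l y z i S) =
      alive gp (fun z' => s (S.1 z')) (rgo S.2) (LT gp (fun z' => s (S.1 z')) (rgo S.2) r l) a y z := by
    ext i
    simp only [alive, dAl, Finset.mem_filter, Finset.mem_univ, true_and]
  rw [h1] at hc
  have h2 := pick_card hc
  have h3 : (pick (r a) (alive gp (fun z' => s (S.1 z')) (rgo S.2)
      (LT gp (fun z' => s (S.1 z')) (rgo S.2) r l) a y z)).Nonempty :=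
    Finset.card_pos.1 (by omega)
  obtain ⟨i, hi⟩ := h3
  have h4 := pick_subset _ _ hi
  simp only [alive, Finset.mem_filter, Finset.mem_univ, true_and] at h4
  obtain ⟨-, -, y', hy', q, hq⟩ := h4
  have h5 : q ∈ LT gp (fun z' => s (S.1 z')) (rgo S.2) r (a :: l) y z := by
    simp only [LT, Finset.mem_biUnion]
    refine ⟨i, hi, ?_⟩
    rw [hy']
    exact hq
  rw [h] at h5
  exact absurd h5 (Finset.notMem_empty _)

/-- rungs on which the child `i` depends -/
def dRg (l : List (Fin T)) (y : Cube κ) (z : Cube μ) (i : μ) : Finset (Cube κ × CE μ) :=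
  insert (y, (canE μ).e z i)
    (univ.filter fun q : Cube κ × CE μ => gp q.2.1.2 ∈ l ∧ q.2.1.1 ∈ cos gp l (flip i z))

theorem dead_mem_dRg {l : List (Fin T)} {y y' : Cube κ} {z z' : Cube μ} {i j : μ} (hj : gp j ∈ l)
    (hz : z' ∈ cos gp l (flip i z)) : (y', (canE μ).e z' j) ∈ dRg gp l y z i := by
  refine Finset.mem_insert_of_mem ?_
  simp only [Finset.mem_filter, Finset.mem_univ, true_and]
  refine ⟨hj, ?_⟩
  simp only [cos, Finset.mem_filter, Finset.mem_univ, true_and] at hz ⊢
  intro q hq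
  have hne : q ≠ j := by rintro rfl; exact hq hj
  rw [← hz q hq]
  show Function.update z' j false q = z' q
  rw [Function.update_of_ne hne]

theorem dead_self_mem_cos (l : List (Fin T)) (z : Cube μ) : z ∈ cos gp l z := by
  simp [cos]

/-- the tree of the child depends only on the coset of the child -/
theorem dead_LT_congr (s : X → Cube κ → Option (Cube κ)) (r : Fin T → ℕ) {l : List (Fin T)} (hl : l.Nodup)
    (y : Cube κ) (z : Cube μ) (i : μ) {S S' : Smp X κ μ}
    (h1 : ∀ z' ∈ cos gp l (flip i z), z' ≠ flip i z → S.1 z' = S'.1 z')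
    (h2 : ∀ q ∈ dRg gp l y z i, q ≠ (y, (canE μ).e z i) → S.2 q = S'.2 q) (hi : gp i ∉ l) (y' : Cube κ) :
    LT gp (fun z' => s (S.1 z')) (rgo S.2) r l y' (flip i z) =
      LT gp (fun z' => s (S'.1 z')) (rgo S'.2) r l y' (flip i z) := by
  refine LT_congr gp r hl (fun z' hz' hne => ?_) (fun w z' hz' j hj => ?_)
  · rw [h1 z' hz' hne]
  · have hne : ((w, (canE μ).e z' j) : Cube κ × CE μ) ≠ (y, (canE μ).e z i) := by
      intro he
      have h3 := congrArg (fun q : Cube κ × CE μ => q.2.1.2) he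
      have h4 : j = i := h3
      rw [h4] at hj
      exact hi hj
    simp only [rgo]
    rw [h2 _ (dead_mem_dRg gp hj hz') hne]

theorem dAl_congr (s : X → Cube κ → Option (Cube κ)) (r : Fin T → ℕ) {l : List (Fin T)} (hl : l.Nodup)
    (y : Cube κ) (z : Cube μ) (i : μ) (hi : gp i ∉ l) {S S' : Smp X κ μ}
    (h1 : ∀ z' ∈ cos gp l (flip i z), S.1 z' = S'.1 z')
    (h2 : ∀ q ∈ dRg gp l y z i, S.2 q = S'.2 q) :
    dAl gp s r l y z i S ↔ dAl gp s r l y z i S' := by
  have h3 : S.2 (y, (canE μ).e z i) = S'.2 (y, (canE μ).e z i) := h2 _ (Finset.mem_insert_self _ _)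
  have h4 : S.1 (flip i z) = S'.1 (flip i z) := h1 _ (dead_self_mem_cos gp l _)
  have h5 := dead_LT_congr gp s r hl y z i (S := S) (S' := S') (fun z' hz' _ => h1 z' hz')
    (fun q hq _ => h2 q hq) hi
  unfold dAl
  constructor
  · rintro ⟨ha, y', hy', hn⟩
    refine ⟨?_, y', ?_, ?_⟩
    · simp only [rgo] at ha ⊢
      rw [← h3]; exact ha
    · rw [← h4]; exact hy'
    · rw [← h5 y']
      exact hn
  · rintro ⟨ha, y', hy', hn⟩
    refine ⟨?_, y', ?_, ?_⟩
    · simp only [rgo] at ha ⊢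
      rw [h3]; exact ha
    · rw [h4]; exact hy'
    · rw [h5 y']
      exact hn

/-- indicator of an event in the exponent -/
theorem dead_exp {Ω : Type} [Fintype Ω] (P : FP Ω) (A : Ω → Prop) [DecidablePred A] :
    P.E (fun ω => Real.exp (-(if A ω then 1 else 0))) ≤ Real.exp (-(1 / 2 * P.pr A)) := by
  have h1 : ∀ ω, Real.exp (-(if A ω then 1 else 0)) =
      1 - (1 - Real.exp (-1)) * (if A ω then 1 else 0) := by
    intro ω
    split_ifs
    · ring
    · simp
  rw [P.E_congr h1, P.E_sub, P.E_const, P.E_mul_left, ← P.pr_eq A]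
  have h2 : Real.exp (-1) ≤ 1 / 2 := by
    rw [Real.exp_neg]
    have : (2 : ℝ) ≤ Real.exp 1 := by
      have := Real.add_one_le_exp (1 : ℝ)
      linarith
    rw [one_div]
    exact inv_anti₀ (by norm_num) this
  have h3 := P.pr_nonneg A
  have h4 := Real.add_one_le_exp (-(1 / 2 * P.pr A))
  nlinarith

/-- a child is alive with probability at least `p α (1 - δ)` -/
theorem dead_pr (ν : Cube μ → FP X) {p : ℝ} {h0 : 0 ≤ p} {h1 : p ≤ 1} (s : X → Cube κ → Option (Cube κ))
    (ε : Bool) {α : ℝ}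
    (hs : ∀ (y : Cube κ) (z : Cube μ), par2 y z = !ε → α ≤ (ν z).pr (fun x => s x y ≠ none))
    (hflp : ∀ x y y', s x y = some y' → par y' = !par y) (r : Fin T → ℕ) {l : List (Fin T)}
    (hl : l.Nodup) {δ : ℝ} (hδ : δ ≤ 1)
    (ih : ∀ (y : Cube κ) (z : Cube μ), par2 y z = ε → (lawR κ ν p h0 h1).pr
      (fun S => LT gp (fun z' => s (S.1 z')) (rgo S.2) r l y z = ∅) ≤ δ)
    (y : Cube κ) (z : Cube μ) (hyz : par2 y z = ε) (i : μ) (hi : gp i ∉ l) :
    p * (α * (1 - δ)) ≤ (lawR κ ν p h0 h1).pr (dAl gp s r l y z i) := by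
  classical
  set G : X → Smp X κ μ → ℝ := fun w S => if ∃ y', s w y = some y' ∧
    (LT gp (fun z' => s (S.1 z')) (rgo S.2) r l y' (flip i z)).Nonempty then 1 else 0 with hG
  have hind : ∀ S : Smp X κ μ, (if dAl gp s r l y z i S then (1 : ℝ) else 0) =
      (if S.2 (y, (canE μ).e z i) = true then 1 else 0) * G (S.1 (flip i z)) S := by
    intro S
    simp only [hG]
    by_cases ha : S.2 (y, (canE μ).e z i) = true
    · by_cases hc : ∃ y', s (S.1 (flip i z)) y = some y' ∧
        (LT gp (fun z' => s (S.1 z')) (rgo S.2) r l y' (flip i z)).Nonempty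
      · rw [if_pos (show dAl gp s r l y z i S from ⟨ha, hc⟩), if_pos ha, if_pos hc, one_mul]
      · rw [if_neg (show ¬ dAl gp s r l y z i S from fun h => hc h.2), if_neg hc, mul_zero]
    · rw [if_neg (show ¬ dAl gp s r l y z i S from fun h => ha h.1), if_neg ha, zero_mul]
  rw [FP.pr_eq, FP.E_congr _ hind]
  have hGc : ∀ w, ∀ a b : Smp X κ μ, (∀ i', i' ≠ flip i z → a.1 i' = b.1 i') →
      (∀ q, q ≠ (y, (canE μ).e z i) → a.2 q = b.2 q) → G w a = G w b := by
    intro w a b hab1 hab2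
    have h5 := dead_LT_congr gp s r hl y z i (S := a) (S' := b) (fun z' _ hne => hab1 z' hne)
      (fun q _ hne => hab2 q hne) hi
    simp only [hG]
    congr 1
    simp only [h5]
  have h2 : (lawR κ ν p h0 h1).E (fun S => (if S.2 (y, (canE μ).e z i) = true then 1 else 0) *
      G (S.1 (flip i z)) S) = (lawR κ ν p h0 h1).E (fun S => if S.2 (y, (canE μ).e z i) = true then 1 else 0) *
      (lawR κ ν p h0 h1).E (fun S => G (S.1 (flip i z)) S) := by
    refine E_mul_indep2 ν (fun _ : Cube κ × CE μ => ber p h0 h1) (S := ∅) (S' := univ)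
      (R := {(y, (canE μ).e z i)}) (R' := univ.erase (y, (canE μ).e z i)) (by simp)
      (by simp) (fun a b _ hb => ?_) (fun a b ha hb => ?_)
    · rw [hb _ (Finset.mem_singleton_self _)]
    · rw [ha _ (Finset.mem_univ _)]
      exact hGc _ a b (fun i' _ => ha i' (Finset.mem_univ _)) (fun q hq => hb q (by simp [hq]))
  have h3 : (lawR κ ν p h0 h1).E (fun S => if S.2 (y, (canE μ).e z i) = true then (1 : ℝ) else 0) = p := by
    rw [lawR, FP.E_prod]
    have : ∀ a : Cube μ → X, (bern p h0 h1 (Cube κ × CE μ)).E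
        (fun b => if (a, b).2 (y, (canE μ).e z i) = true then (1 : ℝ) else 0) = p := fun a =>
      bern_one (y, (canE μ).e z i)
    rw [FP.E_congr _ this, FP.E_const]
  have h4 : (lawR κ ν p h0 h1).E (fun S => G (S.1 (flip i z)) S) =
      (ν (flip i z)).E fun w => (lawR κ ν p h0 h1).E (G w) :=
    E_update2 ν (fun _ : Cube κ × CE μ => ber p h0 h1) (flip i z) G
      (fun w a b hab1 hab2 => hGc w a b hab1 (fun q _ => by rw [hab2]))
  rw [h2, h3, h4]
  refine mul_le_mul_of_nonneg_left ?_ h0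
  have hpar : par2 y (flip i z) = !ε := by
    rw [← hyz, par2, par2, par_flip]
    cases par y <;> cases par z <;> rfl
  have h5 : (ν (flip i z)).pr (fun x => s x y ≠ none) * (1 - δ) ≤
      (ν (flip i z)).E fun w => (lawR κ ν p h0 h1).E (G w) := by
    rw [FP.pr_eq, ← FP.E_mul_right]
    refine FP.E_mono _ fun w => ?_
    cases hw : s w y with
    | none =>
      simp only [ne_eq, not_true_eq_false, if_false, zero_mul]
      exact FP.E_nonneg _ fun S => by simp only [hG]; split_ifs <;> norm_num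
    | some y' =>
      have hp' : par2 y' (flip i z) = ε := by
        rw [← hyz, par2, par2, par_flip, hflp w y y' hw]
        cases par y <;> cases par z <;> rfl
      have h6 := ih y' (flip i z) hp'
      have h7 : (lawR κ ν p h0 h1).E (G w) = 1 - (lawR κ ν p h0 h1).pr
          (fun S => LT gp (fun z' => s (S.1 z')) (rgo S.2) r l y' (flip i z) = ∅) := by
        rw [← FP.pr_compl, FP.pr_eq]
        refine FP.E_congr _ fun S => ?_
        simp only [hG, hw]
        congr 1
        simp only [Option.some.injEq, exists_eq_left', Finset.nonempty_iff_ne_empty, ne_eq]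
      rw [h7]
      simp only [ne_eq, reduceCtorEq, not_false_eq_true, if_true, one_mul]
      linarith
  refine le_trans (mul_le_mul_of_nonneg_right (hs y (flip i z) hpar) (by linarith)) h5

/-- one level of the recursion -/
theorem LT_dead_step (ν : Cube μ → FP X) {p : ℝ} {h0 : 0 ≤ p} {h1 : p ≤ 1} (s : X → Cube κ → Option (Cube κ))
    (ε : Bool) {α : ℝ} (_hα : 0 ≤ α)
    (hs : ∀ (y : Cube κ) (z : Cube μ), par2 y z = !ε → α ≤ (ν z).pr (fun x => s x y ≠ none))
    (hflp : ∀ x y y', s x y = some y' → par y' = !par y) (r : Fin T → ℕ) {a : Fin T} {l : List (Fin T)}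
    (hal : (a :: l).Nodup) (hra : 1 ≤ r a) {δ : ℝ} (hδ : δ ≤ 1)
    (ih : ∀ (y : Cube κ) (z : Cube μ), par2 y z = ε → (lawR κ ν p h0 h1).pr
      (fun S => LT gp (fun z' => s (S.1 z')) (rgo S.2) r l y z = ∅) ≤ δ)
    (y : Cube κ) (z : Cube μ) (hyz : par2 y z = ε) :
    (lawR κ ν p h0 h1).pr (fun S => LT gp (fun z' => s (S.1 z')) (rgo S.2) r (a :: l) y z = ∅) ≤
      Real.exp (r a - 1 / 2 * (gsz gp a * p * α * (1 - δ))) := by
  classical
  rw [List.nodup_cons] at hal
  obtain ⟨hal1, hal2⟩ := hal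
  set P := lawR κ ν p h0 h1 with hP
  set J : Finset μ := univ.filter fun i : μ => gp i = a with hJ
  have hJl : ∀ i ∈ J, gp i ∉ l := by
    intro i hi
    rw [hJ, Finset.mem_filter] at hi
    rw [hi.2]; exact hal1
  have e1 : P.pr (fun S => LT gp (fun z' => s (S.1 z')) (rgo S.2) r (a :: l) y z = ∅) ≤
      P.pr (fun S => (∑ i ∈ J, if dAl gp s r l y z i S then (1 : ℝ) else 0) < (r a : ℝ)) := by
    refine P.pr_mono fun S hS => ?_
    have := dead_card gp s r hra y z S hS
    rw [Finset.sum_boole]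
    exact_mod_cast this
  refine e1.trans ((P.lower_tail _ _).trans ?_)
  have e2 : ∀ S, Real.exp (-(∑ i ∈ J, if dAl gp s r l y z i S then (1 : ℝ) else 0)) =
      ∏ i ∈ J, Real.exp (-(if dAl gp s r l y z i S then (1 : ℝ) else 0)) := by
    intro S
    rw [← Finset.sum_neg_distrib, Real.exp_sum]
  rw [P.E_congr e2]
  have e3 : P.E (fun S => ∏ i ∈ J, Real.exp (-(if dAl gp s r l y z i S then (1 : ℝ) else 0))) =
      ∏ i ∈ J, P.E (fun S => Real.exp (-(if dAl gp s r l y z i S then (1 : ℝ) else 0))) := by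
    refine E_prod_indep2 ν (fun _ : Cube κ × CE μ => ber p h0 h1) J (fun i => cos gp l (flip i z))
      (fun i => dRg gp l y z i) ?_ ?_ _ ?_
    · intro i hi j hj hij
      simp only [Function.onFun]
      rw [Finset.disjoint_left]
      intro z' h1 h2
      simp only [cos, Finset.mem_filter, Finset.mem_univ, true_and] at h1 h2
      have h3 := h1 i (hJl i hi)
      have h4 := h2 i (hJl i hi)
      rw [h3, flip_same, flip_of_ne hij] at h4
      cases hz : z i <;> rw [hz] at h4 <;> exact absurd h4 (by decide)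
    · intro i hi j hj hij
      simp only [Function.onFun]
      rw [Finset.disjoint_left]
      intro q h1 h2
      simp only [dRg, Finset.mem_insert, Finset.mem_filter, Finset.mem_univ, true_and] at h1 h2
      rcases h1 with h1 | h1 <;> rcases h2 with h2 | h2
      · rw [h1] at h2
        have h3 := congrArg (fun q : Cube κ × CE μ => q.2.1.2) h2
        exact hij h3
      · rw [h1] at h2
        exact hJl i hi h2.1
      · rw [h2] at h1
        exact hJl j hj h1.1
      · have h1 := h1.2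
        have h2 := h2.2
        simp only [cos, Finset.mem_filter, Finset.mem_univ, true_and] at h1 h2
        have h3 := h1 i (hJl i hi)
        have h4 := h2 i (hJl i hi)
        rw [h3, flip_same, flip_of_ne hij] at h4
        cases hz : z i <;> rw [hz] at h4 <;> exact absurd h4 (by decide)
    · intro i hi S S' hS1 hS2
      have := dAl_congr gp s r hal2 y z i (hJl i hi) (S := S) (S' := S') hS1 hS2
      simp only [this]
  rw [e3]
  have e4 : ∏ i ∈ J, P.E (fun S => Real.exp (-(if dAl gp s r l y z i S then (1 : ℝ) else 0))) ≤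
      ∏ _i ∈ J, Real.exp (-(1 / 2 * (p * (α * (1 - δ))))) := by
    refine Finset.prod_le_prod (fun i _ => P.E_nonneg fun S => (Real.exp_pos _).le) fun i hi => ?_
    refine (dead_exp P _).trans (Real.exp_le_exp.2 ?_)
    have := dead_pr gp ν (h0 := h0) (h1 := h1) s ε hs hflp r hal2 hδ ih y z hyz i (hJl i hi)
    rw [← hP] at this
    linarith
  rw [Finset.prod_const, ← Real.exp_nat_mul] at e4
  calc Real.exp (r a) * ∏ i ∈ J, P.E (fun S => Real.exp (-(if dAl gp s r l y z i S then (1 : ℝ) else 0)))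
      ≤ Real.exp (r a) * Real.exp (J.card * (-(1 / 2 * (p * (α * (1 - δ)))))) :=
        mul_le_mul_of_nonneg_left e4 (Real.exp_pos _).le
    _ = Real.exp (r a - 1 / 2 * (gsz gp a * p * α * (1 - δ))) := by
        rw [← Real.exp_add]
        congr 1
        simp only [gsz, ← hJ]
        ring

/-- below the root -/
theorem dead_half (ν : Cube μ → FP X) {p : ℝ} {h0 : 0 ≤ p} {h1 : p ≤ 1} (s : X → Cube κ → Option (Cube κ))
    (ε : Bool) {α : ℝ} (hα : 0 ≤ α)
    (hs : ∀ (y : Cube κ) (z : Cube μ), par2 y z = !ε → α ≤ (ν z).pr (fun x => s x y ≠ none))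
    (hflp : ∀ x y y', s x y = some y' → par y' = !par y) (r : Fin T → ℕ) (l : List (Fin T))
    (hnd : l.Nodup) (hl : ∀ b ∈ l, 1 ≤ r b ∧ 16 * (r b : ℝ) ≤ α * p * gsz gp b) :
    ∀ (y : Cube κ) (z : Cube μ), par2 y z = ε → (lawR κ ν p h0 h1).pr
      (fun S => LT gp (fun z' => s (S.1 z')) (rgo S.2) r l y z = ∅) ≤ 1 / 2 := by
  classical
  induction l with
  | nil =>
    intro y z _
    have : (lawR κ ν p h0 h1).pr
        (fun S => LT gp (fun z' => s (S.1 z')) (rgo S.2) r [] y z = ∅) = 0 := by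
      rw [FP.pr_eq]
      refine ((lawR κ ν p h0 h1).E_congr (g := fun _ => 0) fun S => ?_).trans (FP.E_const _ 0)
      rw [if_neg]
      simp [LT]
    rw [this]; norm_num
  | cons b l ih =>
    intro y z hyz
    have hb := hl b (by simp)
    have h2 := LT_dead_step gp ν (h0 := h0) (h1 := h1) s ε hα hs hflp r hnd hb.1 (by norm_num : (1 / 2 : ℝ) ≤ 1)
      (ih (List.nodup_cons.1 hnd).2 (fun c hc => hl c (by simp [hc]))) y z hyz
    refine h2.trans ?_
    have h3 : (1 : ℝ) ≤ r b := by exact_mod_cast hb.1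
    have h4 : (r b : ℝ) - 1 / 2 * (gsz gp b * p * α * (1 - 1 / 2)) ≤ -1 := by
      have := hb.2
      nlinarith
    refine (Real.exp_le_exp.2 h4).trans ?_
    rw [Real.exp_neg]
    have : (2 : ℝ) ≤ Real.exp 1 := by
      have := Real.add_one_le_exp (1 : ℝ)
      linarith
    rw [one_div]
    exact inv_anti₀ (by norm_num) this

/-- **probability that a selected tree is dead** -/
theorem LT_dead (ν : Cube μ → FP X) {p : ℝ} {h0 : 0 ≤ p} {h1 : p ≤ 1} (s : X → Cube κ → Option (Cube κ))
    (ε : Bool) {α : ℝ} (_hα : 0 ≤ α)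
    (hs : ∀ (y : Cube κ) (z : Cube μ), par2 y z = !ε → α ≤ (ν z).pr (fun x => s x y ≠ none))
    (hflp : ∀ x y y', s x y = some y' → par y' = !par y) (r : Fin T → ℕ) {a : Fin T} {l : List (Fin T)}
    (hal : (a :: l).Nodup) (hra : 1 ≤ r a) (hl : ∀ b ∈ l, 1 ≤ r b ∧ 16 * (r b : ℝ) ≤ α * p * gsz gp b)
    (hr : 16 * (r a : ℝ) ≤ α * p * gsz gp a) {u : ℝ} (hu : 0 < u) (hu1 : u ≤ 1)
    (hroot : 64 * Real.log (1 / u) ≤ α * p * gsz gp a)
    (y : Cube κ) (z : Cube μ) (hyz : par2 y z = ε) :
    (lawR κ ν p h0 h1).pr (fun S => LT gp (fun z' => s (S.1 z')) (rgo S.2) r (a :: l) y z = ∅) ≤ u ^ 2 := by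
  have h2 := LT_dead_step gp ν (h0 := h0) (h1 := h1) s ε _hα hs hflp r hal hra
    (by norm_num : (1 / 2 : ℝ) ≤ 1) (dead_half gp ν s ε _hα hs hflp r l (List.nodup_cons.1 hal).2 hl) y z hyz
  refine h2.trans ?_
  have h3 : Real.log (1 / u) = - Real.log u := by rw [one_div, Real.log_inv]
  rw [h3] at hroot
  have h4 : Real.log u ≤ 0 := Real.log_nonpos hu.le hu1
  have h5 : (r a : ℝ) - 1 / 2 * (gsz gp a * p * α * (1 - 1 / 2)) ≤ 2 * Real.log u := by
    nlinarith
  calc Real.exp ((r a : ℝ) - 1 / 2 * (gsz gp a * p * α * (1 - 1 / 2)))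
      ≤ Real.exp (2 * Real.log u) := Real.exp_le_exp.2 h5
    _ = u ^ 2 := by
        rw [two_mul, Real.exp_add, Real.exp_log hu, sq]

end R2

end Pool.Agent.LongCyc.Dense
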