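import Pool.Agent.LongCyc.Dense.E2Def
import Pool.Agent.LongCyc.Stage2a

/-!
# Dense regime, E1: no isolated selected edge in a large set of edges
-/

set_option autoImplicit false

namespace Pool.Agent.LongCyc.Dense

open Finset

section IsoMissE1

variable {ι : Type} [DecidableEq ι] [Fintype ι]

/-- closed neighbourhood of an edge -/
private def nbE (e : CE ι) : Finset (CE ι) := univ.filter fun f => ¬ Disjoint (ept e) (ept f)

private theorem mem_nbE {e f : CE ι} : f ∈ nbE e ↔ ¬ Disjoint (ept e) (ept f) := by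
  simp [nbE]

private theorem self_mem_nbE (e : CE ι) : e ∈ nbE e := by
  rw [mem_nbE, Finset.disjoint_self_iff_empty]
  intro h
  have : e.1.1 ∈ ept e := by simp [ept]
  rw [h] at this
  simp at this

private theorem nbE_comm {e f : CE ι} : f ∈ nbE e ↔ e ∈ nbE f := by
  rw [mem_nbE, mem_nbE, disjoint_comm]

private theorem card_nbE {d : ℕ} (hd : Fintype.card ι = d) (e : CE ι) : (nbE e).card ≤ 2 * d := by
  have h1 : nbE e ⊆ ((ept e) ×ˢ (univ : Finset ι)).image fun q => (canE ι).e q.1 q.2 := by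
    intro f hf
    rw [mem_nbE, Finset.not_disjoint_iff] at hf
    obtain ⟨z, hz, hzf⟩ := hf
    rw [Finset.mem_image]
    refine ⟨(z, f.1.2), by simp [hz], ?_⟩
    have h3 : (canE ι).e f.1.1 f.1.2 = f := by
      apply Subtype.ext
      exact Prod.ext (Function.update_eq_self_iff.2 f.2.symm) rfl
    simp only [ept, Finset.mem_insert, Finset.mem_singleton] at hzf
    rcases hzf with rfl | rfl
    · exact h3
    · rw [← h3]
      have := (canE ι).symm f.1.1 f.1.2
      rw [h3] at this ⊢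
      exact this
  have h2 : (ept e).card ≤ 2 := Finset.card_le_two
  calc (nbE e).card ≤ _ := Finset.card_le_card h1
    _ ≤ ((ept e) ×ˢ (univ : Finset ι)).card := Finset.card_image_le
    _ = (ept e).card * d := by rw [Finset.card_product, Finset.card_univ, hd]
    _ ≤ 2 * d := Nat.mul_le_mul_right _ h2

/-- greedy choice -/
private theorem exists_far {d : ℕ} (hd : Fintype.card ι = d) (M : Finset (CE ι)) :
    ∃ M' ⊆ M, (M' : Set (CE ι)).PairwiseDisjoint nbE ∧ M.card ≤ 4 * d ^ 2 * M'.card := by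
  classical
  obtain ⟨M', hM', hmax⟩ := Finset.exists_max_image
    (M.powerset.filter fun A : Finset (CE ι) => (A : Set (CE ι)).PairwiseDisjoint nbE) Finset.card
    ⟨∅, by simp⟩
  rw [Finset.mem_filter, Finset.mem_powerset] at hM'
  refine ⟨M', hM'.1, hM'.2, ?_⟩
  have h1 : M ⊆ M'.biUnion fun f => (nbE f).biUnion nbE := by
    intro e he
    by_contra hcon
    have h2 : ∀ f ∈ M', Disjoint (nbE e) (nbE f) := by
      intro f hf
      rw [Finset.disjoint_left]
      intro g hg hg'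
      apply hcon
      rw [Finset.mem_biUnion]
      refine ⟨f, hf, ?_⟩
      rw [Finset.mem_biUnion]
      exact ⟨g, hg', nbE_comm.1 hg⟩
    have h3 : e ∉ M' := by
      intro he'
      have := h2 e he'
      rw [Finset.disjoint_self_iff_empty] at this
      have h4 := self_mem_nbE e
      rw [this] at h4
      simp at h4
    have h4 := hmax (insert e M') (by
      rw [Finset.mem_filter, Finset.mem_powerset]
      refine ⟨Finset.insert_subset he hM'.1, ?_⟩
      rw [Finset.coe_insert]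
      apply Set.PairwiseDisjoint.insert hM'.2
      intro f hf _
      exact h2 f hf)
    rw [Finset.card_insert_of_notMem h3] at h4
    omega
  calc M.card ≤ _ := Finset.card_le_card h1
    _ ≤ ∑ f ∈ M', ((nbE f).biUnion nbE).card := Finset.card_biUnion_le
    _ ≤ ∑ f ∈ M', 4 * d ^ 2 := by
      refine Finset.sum_le_sum fun f _ => ?_
      calc ((nbE f).biUnion nbE).card ≤ ∑ g ∈ nbE f, (nbE g).card := Finset.card_biUnion_le
        _ ≤ ∑ g ∈ nbE f, 2 * d := Finset.sum_le_sum fun g _ => card_nbE hd g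
        _ = (nbE f).card * (2 * d) := by rw [Finset.sum_const, smul_eq_mul]
        _ ≤ (2 * d) * (2 * d) := Nat.mul_le_mul_right _ (card_nbE hd f)
        _ = 4 * d ^ 2 := by ring
    _ = 4 * d ^ 2 * M'.card := by rw [Finset.sum_const, smul_eq_mul, mul_comm]

open Classical in
private theorem isoE_eq (ω : CE ι → Bool) (e : CE ι) :
    (if isoE ω e then (1 : ℝ) else 0) =
      ∏ f ∈ nbE e, if ω f = decide (f = e) then (1 : ℝ) else 0 := by
  by_cases h : isoE ω e
  · rw [if_pos h, Finset.prod_eq_one]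
    intro f hf
    rw [mem_nbE] at hf
    by_cases hfe : f = e
    · subst hfe
      simp [h.1]
    · simp [hfe, h.2 f hfe hf]
  · rw [if_neg h]
    unfold isoE at h
    push Not at h
    symm
    by_cases he : ω e = true
    · obtain ⟨f, hfe, hf, hω⟩ := h he
      refine Finset.prod_eq_zero (mem_nbE.2 hf) ?_
      rw [if_neg]
      simpa [hfe] using hω
    · refine Finset.prod_eq_zero (self_mem_nbE e) ?_
      rw [if_neg]
      simpa using he

private theorem pr_isoE {d : ℕ} (hd : Fintype.card ι = d) (hd1 : 1 ≤ d)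
    (h0 : (0 : ℝ) ≤ 1 / (4 * d)) (h1 : (1 : ℝ) / (4 * d) ≤ 1) (e : CE ι) :
    1 / (8 * (d : ℝ)) ≤ (bern (1 / (4 * d)) h0 h1 (CE ι)).pr (fun ω => isoE ω e) := by
  classical
  have hd0 : (0 : ℝ) < d := by exact_mod_cast hd1
  rw [FP.pr_eq]
  rw [FP.E_congr _ (fun ω => isoE_eq ω e)]
  rw [bern, FP.E_prod_indep (fun _ : CE ι => ber (1 / (4 * (d : ℝ))) h0 h1) (nbE e) (fun f => {f})
    (fun a _ b _ hab => by simpa using hab) (fun f ω => if ω f = decide (f = e) then 1 else 0)
    (fun f _ ω ω' h => by rw [h f (by simp)])]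
  rw [Finset.prod_congr rfl fun f _ => FP.E_pi_single (fun _ : CE ι => ber (1 / (4 * (d : ℝ))) h0 h1) f
    (fun b => if b = decide (f = e) then 1 else 0)]
  rw [← Finset.mul_prod_erase _ _ (self_mem_nbE e)]
  have h2 : (ber (1 / (4 * (d : ℝ))) h0 h1).E (fun b => if b = decide (e = e) then 1 else 0) =
      1 / (4 * (d : ℝ)) := by
    simp [FP.E, ber]
  have h3 : ∏ f ∈ (nbE e).erase e, (ber (1 / (4 * (d : ℝ))) h0 h1).E
      (fun b => if b = decide (f = e) then 1 else 0) = (1 - 1 / (4 * (d : ℝ))) ^ ((nbE e).erase e).card := by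
    rw [Finset.prod_congr rfl (g := fun _ => 1 - 1 / (4 * (d : ℝ))), Finset.prod_const]
    intro f hf
    have hfe : f ≠ e := Finset.ne_of_mem_erase hf
    simp [FP.E, ber, hfe]
  rw [h2, h3]
  have h4 : ((nbE e).erase e).card ≤ 2 * d := (Finset.card_le_card (Finset.erase_subset _ _)).trans (card_nbE hd e)
  have h5 : (1 - 1 / (4 * (d : ℝ))) ^ (2 * d) ≤ (1 - 1 / (4 * (d : ℝ))) ^ ((nbE e).erase e).card :=
    pow_le_pow_of_le_one (by linarith) (by linarith) h4
  have h6 : 1 / 2 ≤ (1 - 1 / (4 * (d : ℝ))) ^ (2 * d) := by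
    have h7 := one_add_mul_le_pow (a := -(1 / (4 * (d : ℝ)))) (by linarith) (2 * d)
    have h8 : (1 : ℝ) + ((2 * d : ℕ) : ℝ) * -(1 / (4 * (d : ℝ))) = 1 / 2 := by
      push_cast
      field_simp
      ring
    rw [h8] at h7
    calc (1 : ℝ) / 2 ≤ _ := h7
      _ = _ := by ring
  calc 1 / (8 * (d : ℝ)) = 1 / (4 * (d : ℝ)) * (1 / 2) := by
        field_simp
        ring
    _ ≤ 1 / (4 * (d : ℝ)) * (1 - 1 / (4 * (d : ℝ))) ^ ((nbE e).erase e).card :=
        mul_le_mul_of_nonneg_left (h6.trans h5) h0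

/-- no isolated selected edge in a large set of edges: unlikely -/
theorem iso_miss {ι : Type} [DecidableEq ι] [Fintype ι] {d : ℕ} (hd : Fintype.card ι = d) (hd1 : 1 ≤ d)
    (h0 : (0 : ℝ) ≤ 1 / (4 * d)) (h1 : (1 : ℝ) / (4 * d) ≤ 1) (M : Finset (CE ι)) :
    (bern (1 / (4 * d)) h0 h1 (CE ι)).pr (fun ω => ∀ e ∈ M, ¬ isoE ω e) ≤
      Real.exp (-(M.card / (64 * (d : ℝ) ^ 3))) := by
  classical
  have hd0 : (0 : ℝ) < d := by exact_mod_cast hd1
  obtain ⟨M', hM', hdisj, hcard⟩ := exists_far hd M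
  have h2 : (bern (1 / (4 * d)) h0 h1 (CE ι)).pr (fun ω => ∀ e ∈ M, ¬ isoE ω e) ≤
      (bern (1 / (4 * d)) h0 h1 (CE ι)).pr (fun ω => ∀ e ∈ M', ¬ isoE ω e) :=
    FP.pr_mono _ fun ω h e he => h e (hM' he)
  have h3 : (bern (1 / (4 * d)) h0 h1 (CE ι)).pr (fun ω => ∀ e ∈ M', ¬ isoE ω e) =
      (bern (1 / (4 * d)) h0 h1 (CE ι)).E (fun ω => ∏ e ∈ M', if ¬ isoE ω e then 1 else 0) := by
    rw [FP.pr_eq]
    refine FP.E_congr _ fun ω => ?_
    split_ifs with h
    · exact (Finset.prod_eq_one fun z hz => if_pos (h z hz)).symm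
    · push Not at h
      obtain ⟨z, hz, hzy⟩ := h
      exact (Finset.prod_eq_zero hz (if_neg (not_not.2 hzy))).symm
  have h4 : (bern (1 / (4 * d)) h0 h1 (CE ι)).E (fun ω => ∏ e ∈ M', if ¬ isoE ω e then 1 else 0) =
      ∏ e ∈ M', (bern (1 / (4 * d)) h0 h1 (CE ι)).pr (fun ω => ¬ isoE ω e) := by
    rw [bern, FP.E_prod_indep (fun _ : CE ι => ber (1 / (4 * (d : ℝ))) h0 h1) M' nbE hdisj
      (fun e ω => if ¬ isoE ω e then 1 else 0) ?_]
    · refine Finset.prod_congr rfl fun e _ => ?_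
      rw [FP.pr_eq]
    · intro e _ ω ω' h
      have h5 : isoE ω e ↔ isoE ω' e := by
        unfold isoE
        rw [h e (self_mem_nbE e)]
        refine and_congr Iff.rfl (forall_congr' fun f => forall_congr' fun _ => forall_congr' fun hf => ?_)
        rw [h f (mem_nbE.2 hf)]
      simp only [h5]
  rw [h3, h4] at h2
  refine h2.trans ?_
  have h5 : ∏ e ∈ M', (bern (1 / (4 * d)) h0 h1 (CE ι)).pr (fun ω => ¬ isoE ω e) ≤
      ∏ e ∈ M', Real.exp (-(1 / (8 * (d : ℝ)))) := by
    refine Finset.prod_le_prod (fun e _ => FP.pr_nonneg _ _) fun e _ => ?_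
    rw [FP.pr_compl]
    have h6 := pr_isoE hd hd1 h0 h1 e
    have h7 := Real.add_one_le_exp (-(1 / (8 * (d : ℝ))))
    linarith
  refine h5.trans ?_
  rw [Finset.prod_const, ← Real.exp_nat_mul]
  apply Real.exp_le_exp.2
  have h6 : (M.card : ℝ) ≤ 4 * (d : ℝ) ^ 2 * M'.card := by exact_mod_cast hcard
  have h7 : (M.card : ℝ) / (64 * (d : ℝ) ^ 3) ≤ M'.card * (1 / (8 * (d : ℝ))) := by
    calc (M.card : ℝ) / (64 * (d : ℝ) ^ 3) ≤ (4 * (d : ℝ) ^ 2 * M'.card) / (64 * (d : ℝ) ^ 3) := by gcongr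
      _ = (M'.card * (1 / (8 * (d : ℝ)))) / 2 := by
        field_simp
        ring
      _ ≤ _ := by
        have : (0 : ℝ) ≤ M'.card * (1 / (8 * (d : ℝ))) := by positivity
        linarith
  linarith

end IsoMissE1

end Pool.Agent.LongCyc.Dense
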