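import Pool.Agent.LongCyc.Dense.E2Def
import Pool.Agent.LongCyc.Res

/-!
# Dense regime, E2: isoperimetry of the reservoir with constant factor
-/

set_option autoImplicit false

namespace Pool.Agent.LongCyc.Dense

open Finset

section E2

theorem res_expand {c1 : ℝ} (hc1 : 0 < c1) : ∃ c2 : ℝ, 0 < c2 ∧ c2 ≤ 1 ∧ ∀ (ι : Type) (_ : DecidableEq ι) (_ : Fintype ι)
    (d T : ℕ) (Zd : Finset ι) (R A A' D Bad : Finset (Cube ι)), Fintype.card ι = d → 1 ≤ d → c1 * d ≤ T →
    (∀ x, x ∈ R → x ∈ A ∨ x ∈ A' ∨ x ∈ D) → (∀ x, x ∉ Bad → GoodPt Zd T R x) →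
    3 * A.card ≤ 2 * R.card → (d : ℝ) * D.card ≤ c2 * A.card → (d : ℝ) * Bad.card ≤ c2 * A.card →
    c2 * A.card ≤ ((mix A A').card : ℝ) := by
  set c : ℝ := min c1 1 with hc
  have hc0 : 0 < c := lt_min hc1 one_pos
  have hcle : c ≤ 1 := min_le_right _ _
  have hcc1 : c ≤ c1 := min_le_left _ _
  have hc3 : c ^ 3 ≤ 1 := pow_le_one₀ hc0.le hcle
  refine ⟨c ^ 3 / 4000, by positivity, by linarith, ?_⟩
  intro ι _ _ d T Zd R A A' D Bad hd hd1 hT hR hgood hA hD hBad
  by_contra hcon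
  push Not at hcon
  set e : ℝ := ((mix A A').card : ℝ) with he
  set a : ℝ := (A.card : ℝ) with ha
  set c2 : ℝ := c ^ 3 / 4000 with hc2
  have hc20 : 0 < c2 := by positivity
  have hc2le : c2 ≤ 1 / 4000 := by rw [hc2]; linarith
  have he0 : 0 ≤ e := Nat.cast_nonneg _
  have hdr : (1 : ℝ) ≤ d := by exact_mod_cast hd1
  have hd0 : (0 : ℝ) < d := by linarith
  have ha0 : 0 < a := by
    by_contra h
    have h2 : a ≤ 0 := not_lt.1 h
    have h3 : c2 * a ≤ 0 := mul_nonpos_of_nonneg_of_nonpos hc20.le h2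
    linarith
  have hT' : c * d ≤ T := (mul_le_mul_of_nonneg_right hcc1 hd0.le).trans hT
  have hTr : (0 : ℝ) < T := lt_of_lt_of_le (by positivity) hT'
  have hT0 : 0 < T := by exact_mod_cast hTr
  -- `Zd` is not empty
  have hcube : ((Finset.univ : Finset (Cube ι)).card : ℝ) ≥ a := by
    rw [ha]
    exact_mod_cast Finset.card_le_univ A
  have hZn : Zd.Nonempty := by
    rw [Finset.nonempty_iff_ne_empty]
    intro hZ
    have hall : Bad = Finset.univ := by
      ext x
      simp only [Finset.mem_univ, iff_true]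
      by_contra hx
      have h1 := (hgood x hx).2
      have hne : Nonempty ι := Fintype.card_pos_iff.1 (by omega)
      obtain ⟨k⟩ := hne
      have h2 := h1 k
      rw [hZ, Finset.filter_empty, Finset.card_empty] at h2
      omega
    rw [hall] at hBad
    have h3 : (1 : ℝ) * a ≤ d * ((Finset.univ : Finset (Cube ι)).card : ℝ) :=
      mul_le_mul hdr hcube ha0.le hd0.le
    have h4 : c2 * a ≤ 1 / 4000 * a := mul_le_mul_of_nonneg_right hc2le ha0.le
    linarith
  have hδ1 : (Zd.card : ℝ) ≤ d := by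
    have : Zd.card ≤ Fintype.card ι := Finset.card_le_univ _
    rw [hd] at this
    exact_mod_cast this
  have hδ0 : (1 : ℝ) ≤ Zd.card := by exact_mod_cast hZn.card_pos
  set δ : ℝ := (Zd.card : ℝ) with hδ
  set S : ℝ := 16 * (4 * δ ^ 2 * e + 3 * δ ^ 3 * D.card) / (7 * (T : ℝ) ^ 2) with hSdef
  set X1 : ℝ := Bad.card + 8 * δ * D.card / T with hX1
  set Bd : ℝ := 2 * δ * e / T + 2 * Fintype.card ι * (X1 + 8 * S / T) with hBd
  have hmain := reservoir_iso Zd T hT0 R A A' D Bad hR hgood hZn S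
    (by rw [hSdef]; field_simp; rw [hδ, he]; ring) X1 hX1 Bd hBd
  have hd' : (Fintype.card ι : ℝ) = d := by exact_mod_cast hd
  set dD : ℝ := d * D.card with hdD
  set dB : ℝ := d * Bad.card with hdB
  have hDn : (0 : ℝ) ≤ D.card := Nat.cast_nonneg _
  have hBn : (0 : ℝ) ≤ Bad.card := Nat.cast_nonneg _
  have hdD0 : 0 ≤ dD := by positivity
  have hdB0 : 0 ≤ dB := by positivity
  have hδd : δ / T ≤ 1 / c := by
    rw [div_le_div_iff₀ hTr hc0]
    have := mul_le_mul_of_nonneg_right hδ1 hc0.le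
    linarith
  have hdT : (d : ℝ) / T ≤ 1 / c := by
    rw [div_le_div_iff₀ hTr hc0]
    linarith
  have hδT0 : 0 ≤ δ / T := by positivity
  -- the bound for `S`
  have hS1 : S ≤ (10 * e + 7 * dD) / c ^ 2 := by
    have h1 : (δ / T) ^ 2 ≤ (1 / c) ^ 2 := pow_le_pow_left₀ hδT0 hδd 2
    have h2 : S = (δ / T) ^ 2 * (64 * e + 48 * (δ * D.card)) / 7 := by
      rw [hSdef]; field_simp; ring
    have h3 : δ * D.card ≤ dD := mul_le_mul_of_nonneg_right hδ1 hDn
    rw [h2]
    have h4 : (δ / T) ^ 2 * (64 * e + 48 * (δ * D.card)) ≤ (1 / c) ^ 2 * (64 * e + 48 * dD) := by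
      apply mul_le_mul h1 (by linarith) (by positivity) (by positivity)
    have h5 : (1 / c) ^ 2 * (64 * e + 48 * dD) / 7 ≤ (10 * e + 7 * dD) / c ^ 2 := by
      have : (1 / c) ^ 2 * (64 * e + 48 * dD) / 7 = ((64 * e + 48 * dD) / 7) / c ^ 2 := by
        field_simp
      rw [this]
      apply div_le_div_of_nonneg_right _ (by positivity)
      linarith
    exact le_trans (div_le_div_of_nonneg_right h4 (by norm_num)) h5
  have hS0 : 0 ≤ S := by positivity
  have hX11 : X1 ≤ dB + 8 * dD / c := by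
    have h1 : 8 * δ * D.card / T = 8 * D.card * (δ / T) := by ring
    have h2 : 8 * D.card * (δ / T) ≤ 8 * D.card * (1 / c) :=
      mul_le_mul_of_nonneg_left hδd (by positivity)
    have h3 : 8 * D.card * (1 / c) ≤ 8 * dD / c := by
      rw [mul_one_div]
      apply div_le_div_of_nonneg_right _ hc0.le
      have : (D.card : ℝ) ≤ dD := by
        rw [hdD]
        exact le_mul_of_one_le_left hDn hdr
      linarith
    have h4 : (Bad.card : ℝ) ≤ dB := by
      rw [hdB]
      exact le_mul_of_one_le_left hBn hdr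
    rw [hX1, h1]
    linarith
  have hX10 : 0 ≤ X1 := by positivity
  have hdX1 : (d : ℝ) * X1 ≤ dB + 8 * dD / c := by
    have h1 : (d : ℝ) * X1 = dB + 8 * dD * (δ / T) := by rw [hX1, hdB, hdD]; ring
    have h2 : 8 * dD * (δ / T) ≤ 8 * dD * (1 / c) := mul_le_mul_of_nonneg_left hδd (by positivity)
    rw [h1]
    have h3 : 8 * dD * (1 / c) = 8 * dD / c := by ring
    linarith
  have hBd1 : Bd ≤ 2 * e / c + 2 * dB + 16 * dD / c + 16 * S / c := by
    have h1 : 2 * δ * e / T = 2 * e * (δ / T) := by ring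
    have h2 : 2 * e * (δ / T) ≤ 2 * e * (1 / c) := mul_le_mul_of_nonneg_left hδd (by positivity)
    have h3 : 2 * (d : ℝ) * (X1 + 8 * S / T) = 2 * (d * X1) + 16 * S * (d / T) := by ring
    have h4 : 16 * S * ((d : ℝ) / T) ≤ 16 * S * (1 / c) := mul_le_mul_of_nonneg_left hdT (by positivity)
    have h5 : 2 * e * (1 / c) = 2 * e / c := by ring
    have h6 : 16 * S * (1 / c) = 16 * S / c := by ring
    rw [hBd, hd', h1, h3]
    have h7 : 2 * (dB + 8 * dD / c) = 2 * dB + 16 * dD / c := by ring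
    linarith
  -- division by `δ`
  have hmin : min a (A'.card : ℝ) ≤ Bd + X1 + S := by
    have h1 : δ * min a (A'.card : ℝ) ≤ δ * (Bd + X1 + S) := by
      have : S ≤ δ * S := le_mul_of_one_le_left hS0 hδ0
      calc δ * min a (A'.card : ℝ) ≤ δ * Bd + δ * X1 + S := hmain
        _ ≤ δ * (Bd + X1 + S) := by linarith
    exact le_of_mul_le_mul_left h1 (by linarith)
  -- everything in terms of `1 / c ^ 3`
  have hc3' : 0 < c ^ 3 := by positivity
  have key : c ^ 3 * (Bd + X1 + S) ≤ 200 * e + 3 * dB + 200 * dD := by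
    have hcS : c ^ 2 * S ≤ 10 * e + 7 * dD := by
      have := mul_le_mul_of_nonneg_left hS1 (by positivity : (0 : ℝ) ≤ c ^ 2)
      rwa [mul_div_cancel₀ _ (by positivity)] at this
    have e1 : c ^ 3 * Bd ≤ c ^ 3 * (2 * e / c + 2 * dB + 16 * dD / c + 16 * S / c) :=
      mul_le_mul_of_nonneg_left hBd1 hc3'.le
    have e2 : c ^ 3 * (2 * e / c + 2 * dB + 16 * dD / c + 16 * S / c) =
        c ^ 2 * (2 * e) + c ^ 3 * (2 * dB) + c ^ 2 * (16 * dD) + 16 * (c ^ 2 * S) := by
      field_simp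
    have e3 : c ^ 3 * X1 ≤ c ^ 3 * (dB + 8 * dD / c) := mul_le_mul_of_nonneg_left hX11 hc3'.le
    have e4 : c ^ 3 * (dB + 8 * dD / c) = c ^ 3 * dB + c ^ 2 * (8 * dD) := by field_simp
    have e5 : c ^ 3 * S = c * (c ^ 2 * S) := by ring
    have hc2' : c ^ 2 ≤ 1 := pow_le_one₀ hc0.le hcle
    have e6 : c * (c ^ 2 * S) ≤ 1 * (c ^ 2 * S) := mul_le_mul_of_nonneg_right hcle (by positivity)
    have e7 : c ^ 2 * (2 * e) ≤ 1 * (2 * e) := mul_le_mul_of_nonneg_right hc2' (by positivity)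
    have e8 : c ^ 3 * (2 * dB) ≤ 1 * (2 * dB) := mul_le_mul_of_nonneg_right hc3 (by positivity)
    have e9 : c ^ 2 * (16 * dD) ≤ 1 * (16 * dD) := mul_le_mul_of_nonneg_right hc2' (by positivity)
    have e10 : c ^ 3 * dB ≤ 1 * dB := mul_le_mul_of_nonneg_right hc3 hdB0
    have e11 : c ^ 2 * (8 * dD) ≤ 1 * (8 * dD) := mul_le_mul_of_nonneg_right hc2' (by positivity)
    calc c ^ 3 * (Bd + X1 + S) = c ^ 3 * Bd + c ^ 3 * X1 + c ^ 3 * S := by ring
      _ ≤ 200 * e + 3 * dB + 200 * dD := by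
          rw [e5]
          linarith
  have hfin : c ^ 3 * min a (A'.card : ℝ) < c ^ 3 * (a / 4) := by
    have h1 : c ^ 3 * min a (A'.card : ℝ) ≤ 200 * e + 3 * dB + 200 * dD :=
      (mul_le_mul_of_nonneg_left hmin hc3'.le).trans key
    have h2 : 200 * e + 3 * dB + 200 * dD ≤ 403 * (c2 * a) := by linarith
    have h3 : 403 * (c2 * a) < c ^ 3 * (a / 4) := by
      rw [hc2]
      have : 0 < c ^ 3 * a := by positivity
      linarith
    linarith
  have hlt : min a (A'.card : ℝ) < a / 4 := lt_of_mul_lt_mul_left hfin hc3'.le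
  have hA' : (A'.card : ℝ) < a / 4 := by
    rcases min_lt_iff.1 hlt with h | h
    · linarith
    · exact h
  -- size of `R`
  have hRc : (R.card : ℝ) ≤ a + A'.card + D.card := by
    have h1 : R ⊆ A ∪ (A' ∪ D) := by
      intro x hx
      rw [Finset.mem_union, Finset.mem_union]
      exact hR x hx
    have h2 : R.card ≤ A.card + (A'.card + D.card) :=
      (Finset.card_le_card h1).trans ((Finset.card_union_le _ _).trans
        (Nat.add_le_add_left (Finset.card_union_le _ _) _))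
    have h3 : (R.card : ℝ) ≤ A.card + (A'.card + D.card) := by exact_mod_cast h2
    linarith
  have hAR : (3 : ℝ) * (A.card : ℝ) ≤ 2 * (R.card : ℝ) := by exact_mod_cast hA
  have hDle : (D.card : ℝ) ≤ c2 * a := by
    have : (D.card : ℝ) ≤ dD := by
      rw [hdD]
      exact le_mul_of_one_le_left hDn hdr
    linarith
  have hc2a : c2 * a ≤ 1 / 4000 * a := mul_le_mul_of_nonneg_right hc2le ha0.le
  linarith

end E2

end Pool.Agent.LongCyc.Dense
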