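import Mathlib
import Pool.Agent.LongCyc.Dense.IsoMiss
import Pool.Agent.LongCyc.Dense.ResExpand

/-!
# Expansion of the piece graph, short waiting time along paths (package LCD-E3)
-/

set_option autoImplicit false
set_option linter.unusedSectionVars false

namespace Pool.Agent.LongCyc.Dense

open Finset

section aux

variable {ι : Type} [DecidableEq ι] [Fintype ι]

theorem exw_mem_ept (x : Cube ι) (i : ι) (v : Cube ι) :
    v ∈ ept ((canE ι).e x i) ↔ v = x ∨ v = flip i x := by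
  have h : ept ((canE ι).e x i) = {Function.update x i false, flip i (Function.update x i false)} := rfl
  rw [h, Finset.mem_insert, Finset.mem_singleton]
  by_cases hx : x i = false
  · have h1 : Function.update x i false = x := by rw [← hx, Function.update_eq_self]
    rw [h1]
  · have h1 : Function.update x i false = flip i x := by
      have h2 : x i = true := by simpa using hx
      rw [flip, h2]; rfl
    rw [h1, flip_flip]
    tauto

theorem exw_hG_deg {F : SimpleGraph (Cube ι)} {ω : CE ι → Bool} {v u u' : Cube ι}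
    (h : (hG F ω).Adj v u) (h' : (hG F ω).Adj v u') : u = u' := by
  obtain ⟨i, rfl, h1, _⟩ := h
  obtain ⟨j, rfl, h2, _⟩ := h'
  by_contra hne
  have hij : i ≠ j := fun h => hne (by rw [h])
  have h3 : (canE ι).e v j ≠ (canE ι).e v i := fun h => hij ((canE ι).inj _ _ _ _ h).1.symm
  have h4 := h1.2 _ h3 (by
    rw [Finset.not_disjoint_iff]
    exact ⟨v, (exw_mem_ept _ _ _).2 (Or.inl rfl), (exw_mem_ept _ _ _).2 (Or.inl rfl)⟩)
  rw [h2.1] at h4
  cases h4

/-- three neighbours of a vertex of degree two are not different -/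
theorem exw_deg2 {V : Type*} [Fintype V] [DecidableEq V] {F : SimpleGraph V} [DecidableRel F.Adj]
    (hF : ∀ v, (univ.filter fun u => F.Adj v u).card ≤ 2) {v a b c : V} (ha : F.Adj v a) (hb : F.Adj v b)
    (hc : F.Adj v c) (hab : a ≠ b) (hac : a ≠ c) : b = c := by
  by_contra hbc
  have h1 : ({a, b, c} : Finset V) ⊆ univ.filter fun u => F.Adj v u := by
    intro x hx
    simp only [Finset.mem_insert, Finset.mem_singleton] at hx
    rw [Finset.mem_filter]
    refine ⟨Finset.mem_univ _, ?_⟩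
    rcases hx with rfl | rfl | rfl <;> assumption
  have h2 := (Finset.card_le_card h1).trans (hF v)
  rw [Finset.card_insert_of_notMem (by simp [hab, hac]), Finset.card_insert_of_notMem (by simp [hbc]),
    Finset.card_singleton] at h2
  omega

/-- a path is determined by its first two vertices -/
theorem exw_chain {V : Type*} {F : SimpleGraph V}
    (hF : ∀ v a b c, F.Adj v a → F.Adj v b → F.Adj v c → a ≠ b → a ≠ c → b = c) :
    ∀ (t t' : List V) (a b : V), (a :: b :: t).Nodup → (a :: b :: t').Nodup → (a :: b :: t).IsChain F.Adj →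
      (a :: b :: t').IsChain F.Adj → t.length = t'.length → t = t' := by
  intro t
  induction t with
  | nil =>
    intro t' a b _ _ _ _ h
    symm
    exact List.eq_nil_of_length_eq_zero (by simpa using h.symm)
  | cons c t ih =>
    intro t' a b h1 h2 h3 h4 h5
    cases t' with
    | nil => simp at h5
    | cons c' t' =>
      rw [List.isChain_cons_cons] at h3 h4
      have h6 := h3.2
      have h7 := h4.2
      rw [List.isChain_cons_cons] at h6 h7
      have h8 : c = c' := by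
        refine hF b a c c' h3.1.symm h6.1 h7.1 ?_ ?_
        · rintro rfl
          simp at h1
        · rintro rfl
          simp at h2
      subst h8
      rw [ih t' b c (List.nodup_cons.1 h1).2 (List.nodup_cons.1 h2).2 h3.2 h4.2 (by simpa using h5)]

/-- neighbouring directions -/
theorem exw_dirs {F : SimpleGraph (Cube ι)} [DecidableRel F.Adj]
    (hF : ∀ v, (univ.filter fun u => F.Adj v u).card ≤ 2) (v : Cube ι) :
    (univ.filter fun i : ι => F.Adj v (flip i v)).card ≤ 2 := by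
  refine le_trans ?_ (hF v)
  refine Finset.card_le_card_of_injOn (fun i => flip i v) ?_ ((flip_dir_injective v).injOn)
  intro i hi
  simpa using hi

/-- the labels of the directed edges of `S` -/
def exwLab (S : Finset (Cube ι × ι)) : Finset (CE ι) := S.image fun q => (canE ι).e q.1 q.2

theorem exw_lab_half (S : Finset (Cube ι × ι)) : S.card ≤ 2 * (exwLab S).card := by
  refine Finset.card_le_mul_card_image S 2 ?_
  intro b _
  by_cases hne : (S.filter fun q => (canE ι).e q.1 q.2 = b).Nonempty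
  · obtain ⟨q0, hq0⟩ := hne
    rw [Finset.mem_filter] at hq0
    have h1 : (S.filter fun q => (canE ι).e q.1 q.2 = b) ⊆ {q0, (flip q0.2 q0.1, q0.2)} := by
      intro q hq
      rw [Finset.mem_filter] at hq
      have h2 := (canE ι).inj q.1 q.2 q0.1 q0.2 (hq.2.trans hq0.2.symm)
      rw [Finset.mem_insert, Finset.mem_singleton]
      obtain ⟨x, i⟩ := q
      obtain ⟨y, j⟩ := q0
      obtain ⟨h3, h4⟩ := h2
      dsimp only at h3 h4 ⊢
      subst h3
      rcases h4 with rfl | rfl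
      · exact Or.inl rfl
      · exact Or.inr rfl
    exact (Finset.card_le_card h1).trans Finset.card_le_two
  · rw [Finset.not_nonempty_iff_eq_empty.1 hne]
    simp

theorem exw_lab_full (S : Finset (Cube ι × ι)) (hS : ∀ q ∈ S, ∀ q' ∈ S, q'.1 ≠ flip q.2 q.1) :
    (exwLab S).card = S.card := by
  refine Finset.card_image_of_injOn ?_
  rintro ⟨x, i⟩ hq ⟨y, j⟩ hq' h
  obtain ⟨h1, h2⟩ := (canE ι).inj x i y j h
  subst h1
  rcases h2 with rfl | rfl
  · rfl
  · exact absurd (show (flip i y, i).1 = flip (y, i).2 (y, i).1 from rfl) (hS _ hq' _ hq)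

end aux

section pieces

variable {ι : Type} [DecidableEq ι] [Fintype ι] {PP : Type} [Fintype PP] [DecidableEq PP] {Vr : ℕ}

/-- vertices of a set of pieces -/
def exwV (P : PP → Fin Vr → Cube ι) (U : Finset PP) : Finset (Cube ι) :=
  (U ×ˢ (univ : Finset (Fin Vr))).image fun q => P q.1 q.2

theorem exw_mem_V {P : PP → Fin Vr → Cube ι} {U : Finset PP} {x : Cube ι} :
    x ∈ exwV P U ↔ ∃ p ∈ U, ∃ i, P p i = x := by
  unfold exwV
  rw [Finset.mem_image]
  constructor
  · rintro ⟨q, h1, h2⟩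
    exact ⟨q.1, (Finset.mem_product.1 h1).1, q.2, h2⟩
  · rintro ⟨p, hp, i, hi⟩
    exact ⟨(p, i), Finset.mem_product.2 ⟨hp, Finset.mem_univ _⟩, hi⟩

theorem exw_card_V {P : PP → Fin Vr → Cube ι} (hP : Function.Injective fun q : PP × Fin Vr => P q.1 q.2)
    (U : Finset PP) : (exwV P U).card = U.card * Vr := by
  unfold exwV
  rw [Finset.card_image_of_injective _ hP, Finset.card_product, Finset.card_univ, Fintype.card_fin]

theorem exw_mem_pun {P : PP → Fin Vr → Cube ι} {x : Cube ι} : x ∈ pun P ↔ ∃ p i, P p i = x := by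
  unfold pun
  rw [Finset.mem_image]
  constructor
  · rintro ⟨q, _, h2⟩
    exact ⟨q.1, q.2, h2⟩
  · rintro ⟨p, i, hi⟩
    exact ⟨(p, i), Finset.mem_univ _, hi⟩

theorem exw_card_pun {P : PP → Fin Vr → Cube ι} (hP : Function.Injective fun q : PP × Fin Vr => P q.1 q.2) :
    (pun P).card = Fintype.card PP * Vr := by
  unfold pun
  rw [Finset.card_image_of_injective _ hP, Finset.card_univ, Fintype.card_prod, Fintype.card_fin]

/-- few `F`-edges leave a set of pieces -/
theorem exw_leave {F : SimpleGraph (Cube ι)} [DecidableRel F.Adj] {P : PP → Fin Vr → Cube ι}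
    (hF : ∀ v, (univ.filter fun u => F.Adj v u).card ≤ 2) (hP : Pcs F PP Vr P) (hVr : 2 ≤ Vr) (S S' : Finset PP)
    (hSS : Disjoint S S') :
    ((mix (exwV P S) (exwV P S')).filter fun q => F.Adj q.1 (flip q.2 q.1)).card ≤ 2 * S.card := by
  have hdis : ∀ x, x ∈ exwV P S → x ∉ exwV P S' := by
    intro x h1 h2
    obtain ⟨p, hp, i, hi⟩ := exw_mem_V.1 h1
    obtain ⟨p', hp', i', hi'⟩ := exw_mem_V.1 h2
    have h3 := hP.inj (show (fun q : PP × Fin Vr => P q.1 q.2) (p, i) = (fun q : PP × Fin Vr => P q.1 q.2) (p', i')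
      from hi.trans hi'.symm)
    have h4 : p = p' := congrArg Prod.fst h3
    subst h4
    exact Finset.disjoint_left.1 hSS hp hp'
  let T0 : PP → Finset (Cube ι × ι) := fun p => univ.filter fun q : Cube ι × ι =>
    q.1 = P p ⟨0, by omega⟩ ∧ F.Adj q.1 (flip q.2 q.1) ∧ flip q.2 q.1 ≠ P p ⟨1, by omega⟩
  let T1 : PP → Finset (Cube ι × ι) := fun p => univ.filter fun q : Cube ι × ι =>
    q.1 = P p ⟨Vr - 1, by omega⟩ ∧ F.Adj q.1 (flip q.2 q.1) ∧ flip q.2 q.1 ≠ P p ⟨Vr - 2, by omega⟩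
  have hadj : ∀ p, F.Adj (P p ⟨0, by omega⟩) (P p ⟨1, by omega⟩) := fun p => hP.adj p 0 (by omega)
  have hadj' : ∀ p, F.Adj (P p ⟨Vr - 1, by omega⟩) (P p ⟨Vr - 2, by omega⟩) := by
    intro p
    have h1 := hP.adj p (Vr - 2) (by omega)
    have h2 : (⟨Vr - 2 + 1, by omega⟩ : Fin Vr) = ⟨Vr - 1, by omega⟩ := Fin.ext (by simp only; omega)
    rw [h2] at h1
    exact h1.symm
  have hT : ∀ (x y : Cube ι), F.Adj x y → (univ.filter fun q : Cube ι × ι =>
      q.1 = x ∧ F.Adj q.1 (flip q.2 q.1) ∧ flip q.2 q.1 ≠ y).card ≤ 1 := by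
    intro x y hxy
    rw [Finset.card_le_one]
    rintro ⟨a, i⟩ ha ⟨b, j⟩ hb
    simp only [Finset.mem_filter, Finset.mem_univ, true_and] at ha hb
    obtain ⟨rfl, ha1, ha2⟩ := ha
    obtain ⟨rfl, hb1, hb2⟩ := hb
    have h1 := exw_deg2 hF hxy ha1 hb1 ha2.symm hb2.symm
    rw [flip_dir_injective _ h1]
  have hsub : ((mix (exwV P S) (exwV P S')).filter fun q => F.Adj q.1 (flip q.2 q.1)) ⊆
      S.biUnion fun p => T0 p ∪ T1 p := by
    rintro ⟨x, j⟩ hq
    rw [Finset.mem_filter] at hq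
    obtain ⟨hq1, hq2⟩ := hq
    unfold mix at hq1
    rw [Finset.mem_filter, Finset.mem_product] at hq1
    obtain ⟨⟨hq1, _⟩, hq3⟩ := hq1
    dsimp only at hq1 hq2 hq3
    obtain ⟨p, hp, i, rfl⟩ := exw_mem_V.1 hq1
    have hno : ∀ k : Fin Vr, flip j (P p i) ≠ P p k := by
      intro k hk
      exact hdis _ (exw_mem_V.2 ⟨p, hp, k, rfl⟩) (hk ▸ hq3)
    rw [Finset.mem_biUnion]
    refine ⟨p, hp, ?_⟩
    by_cases h0 : (i : ℕ) = 0
    · refine Finset.mem_union_left _ (Finset.mem_filter.2 ⟨Finset.mem_univ _, ?_, hq2, hno _⟩)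
      have : i = ⟨0, by omega⟩ := Fin.ext h0
      rw [this]
    · by_cases h1 : (i : ℕ) + 1 = Vr
      · refine Finset.mem_union_right _ (Finset.mem_filter.2 ⟨Finset.mem_univ _, ?_, hq2, hno _⟩)
        have : i = ⟨Vr - 1, by omega⟩ := Fin.ext (by simp only; omega)
        rw [this]
      · exfalso
        have hi := i.isLt
        have h2 := hP.adj p i (by omega)
        have h3 := hP.adj p (i - 1) (by omega)
        have h4 : (⟨(i : ℕ) - 1 + 1, by omega⟩ : Fin Vr) = i := Fin.ext (by simp only; omega)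
        rw [h4] at h3
        have h5 : (⟨(i : ℕ), by omega⟩ : Fin Vr) = i := Fin.ext rfl
        rw [h5] at h2
        refine (hno ⟨(i : ℕ) + 1, by omega⟩) (exw_deg2 hF h3.symm hq2 h2 (fun h => hno _ h.symm) ?_)
        intro h6
        have h7 := congrArg Prod.snd (hP.inj (show (fun q : PP × Fin Vr => P q.1 q.2)
          (p, (⟨(i : ℕ) - 1, by omega⟩ : Fin Vr)) = (fun q : PP × Fin Vr => P q.1 q.2)
          (p, (⟨(i : ℕ) + 1, by omega⟩ : Fin Vr)) from h6))
        have h8 := congrArg Fin.val h7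
        dsimp only at h8
        omega
  refine (Finset.card_le_card hsub).trans ?_
  rw [mul_comm]
  refine Finset.card_biUnion_le_card_mul _ _ 2 fun p _ => ?_
  refine (Finset.card_union_le _ _).trans ?_
  have h1 := hT _ _ (hadj p)
  have h2 := hT _ _ (hadj' p)
  have h3 : (T0 p).card ≤ 1 := h1
  have h4 : (T1 p).card ≤ 1 := h2
  omega

/-- the labels of the edges between two sets of pieces which are not edges of `F` -/
def exwM (F : SimpleGraph (Cube ι)) [DecidableRel F.Adj] (P : PP → Fin Vr → Cube ι) (S N : Finset PP) :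
    Finset (CE ι) :=
  exwLab ((mix (exwV P S) (exwV P (univ \ (S ∪ N)))).filter fun q => ¬ F.Adj q.1 (flip q.2 q.1))

theorem exw_card_M {F : SimpleGraph (Cube ι)} [DecidableRel F.Adj] {P : PP → Fin Vr → Cube ι}
    (hF : ∀ v, (univ.filter fun u => F.Adj v u).card ≤ 2) (hP : Pcs F PP Vr P) (hVr : 2 ≤ Vr) (S N : Finset PP) :
    (mix (exwV P S) (exwV P (univ \ (S ∪ N)))).card ≤ (exwM F P S N).card + 2 * S.card := by
  have hSS : Disjoint S (univ \ (S ∪ N)) := by
    rw [Finset.disjoint_left]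
    intro p hp hp'
    rw [Finset.mem_sdiff] at hp'
    exact hp'.2 (Finset.mem_union_left _ hp)
  have h1 := exw_leave hF hP hVr S (univ \ (S ∪ N)) hSS
  have h2 : (exwM F P S N).card = ((mix (exwV P S) (exwV P (univ \ (S ∪ N)))).filter
      fun q => ¬ F.Adj q.1 (flip q.2 q.1)).card := by
    refine exw_lab_full _ ?_
    rintro ⟨x, i⟩ hq ⟨y, j⟩ hq' h
    rw [Finset.mem_filter] at hq hq'
    obtain ⟨hq, _⟩ := hq
    obtain ⟨hq', _⟩ := hq'
    unfold mix at hq hq'
    rw [Finset.mem_filter, Finset.mem_product] at hq hq'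
    dsimp only at hq hq' h
    subst h
    obtain ⟨p, hp, k, hk⟩ := exw_mem_V.1 hq.2
    obtain ⟨p', hp', k', hk'⟩ := exw_mem_V.1 hq'.1.1
    have h3 := congrArg Prod.fst (hP.inj (show (fun q : PP × Fin Vr => P q.1 q.2) (p, k) =
      (fun q : PP × Fin Vr => P q.1 q.2) (p', k') from hk.trans hk'.symm))
    have h4 : p = p' := h3
    subst h4
    exact Finset.disjoint_left.1 hSS hp' hp
  have h3 := Finset.card_filter_add_card_filter_not (s := mix (exwV P S) (exwV P (univ \ (S ∪ N))))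
    (fun q => F.Adj q.1 (flip q.2 q.1))
  omega

/-- the fresh directed edges from the vertices of a list to the pieces -/
def exwL (F : SimpleGraph (Cube ι)) [DecidableRel F.Adj] (P : PP → Fin Vr → Cube ι) (l : List (Cube ι)) :
    Finset (Cube ι × ι) :=
  (l.toFinset ×ˢ univ).filter fun q => flip q.2 q.1 ∈ pun P ∧ ¬ F.Adj q.1 (flip q.2 q.1)

theorem exw_card_L {F : SimpleGraph (Cube ι)} [DecidableRel F.Adj] {P : PP → Fin Vr → Cube ι}
    (hF : ∀ v, (univ.filter fun u => F.Adj v u).card ≤ 2) {Zd : Finset ι} {T : ℕ} (hι : Nonempty ι)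
    {l : List (Cube ι)} (hl : l.Nodup) (hg : ∀ v ∈ l, GoodPt Zd T (pun P) v) :
    l.length * (T - 2) ≤ (exwL F P l).card := by
  have h1 : (exwL F P l).card = ∑ v ∈ l.toFinset, (univ.filter fun j : ι => flip j v ∈ pun P ∧
      ¬ F.Adj v (flip j v)).card := by
    unfold exwL
    rw [Finset.card_filter, Finset.sum_product]
    refine Finset.sum_congr rfl fun x _ => ?_
    rw [Finset.card_filter]
  rw [h1, ← List.toFinset_card_of_nodup hl, ← smul_eq_mul]
  refine Finset.card_nsmul_le_sum _ _ _ fun v hv => ?_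
  have h2 := hg v (List.mem_toFinset.1 hv)
  obtain ⟨k⟩ := hι
  have h3 := h2.2 k
  have h4 : (Zd.filter fun j => flip j v ∈ pun P ∧ flip k (flip j v) ∈ pun P) ⊆
      (univ.filter fun j : ι => flip j v ∈ pun P ∧ ¬ F.Adj v (flip j v)) ∪
        (univ.filter fun j : ι => F.Adj v (flip j v)) := by
    intro j hj
    rw [Finset.mem_filter] at hj
    by_cases h5 : F.Adj v (flip j v)
    · exact Finset.mem_union_right _ (Finset.mem_filter.2 ⟨Finset.mem_univ _, h5⟩)
    · exact Finset.mem_union_left _ (Finset.mem_filter.2 ⟨Finset.mem_univ _, hj.2.1, h5⟩)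
  have h5 := (Finset.card_le_card h4).trans (Finset.card_union_le _ _)
  have h6 := exw_dirs hF v
  omega

end pieces

section numerics

theorem exw_sum1 {PP : Type} [Fintype PP] [DecidableEq PP] {a : ℝ} (ha : 0 ≤ a) {d : ℕ}
    (hPP : (Fintype.card PP : ℝ) ≤ 2 ^ d) (had : a ≤ (1 / 4) ^ (d + 1)) :
    ∑ q : Finset PP × Finset PP, a * (a ^ q.1.card * a ^ q.2.card) ≤ (1 / 2) ^ (d + 1) := by
  have h1 : ∑ S : Finset PP, a ^ S.card = (1 + a) ^ Fintype.card PP := by
    have h := Fintype.sum_pow_mul_eq_add_pow PP a 1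
    rw [add_comm a 1] at h
    rw [← h]
    refine Finset.sum_congr rfl fun S _ => ?_
    rw [one_pow, mul_one]
  have h2 : ∑ q : Finset PP × Finset PP, a * (a ^ q.1.card * a ^ q.2.card) =
      a * ((1 + a) ^ Fintype.card PP * (1 + a) ^ Fintype.card PP) := by
    rw [← Finset.mul_sum, Fintype.sum_prod_type]
    dsimp only
    rw [← h1, Finset.sum_mul_sum]
  rw [h2]
  have h3 : (1 + a) ^ Fintype.card PP ≤ Real.exp (1 / 4) := by
    have h4 : (1 + a) ≤ Real.exp a := by
      have := Real.add_one_le_exp a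
      linarith
    have h5 : (1 + a) ^ Fintype.card PP ≤ Real.exp a ^ Fintype.card PP :=
      pow_le_pow_left₀ (by linarith) h4 _
    refine h5.trans ?_
    rw [← Real.exp_nat_mul]
    apply Real.exp_le_exp.2
    calc (Fintype.card PP : ℝ) * a ≤ 2 ^ d * (1 / 4) ^ (d + 1) :=
          mul_le_mul hPP had ha (by positivity)
      _ = (1 / 2) ^ d * (1 / 4) := by
          rw [pow_succ, ← mul_assoc, ← mul_pow]
          norm_num
      _ ≤ 1 * (1 / 4) := mul_le_mul_of_nonneg_right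
          (pow_le_one₀ (by norm_num) (by norm_num)) (by norm_num)
      _ = 1 / 4 := one_mul _
  have h4 : (1 + a) ^ Fintype.card PP * (1 + a) ^ Fintype.card PP ≤ 2 := by
    have h5 : (0 : ℝ) ≤ (1 + a) ^ Fintype.card PP := by positivity
    have h6 : Real.exp (1 / 4) * Real.exp (1 / 4) ≤ 2 := by
      rw [← Real.exp_add]
      have h7 : Real.exp (1 / 4 + 1 / 4) * Real.exp (1 / 4 + 1 / 4) = Real.exp 1 := by
        rw [← Real.exp_add]
        norm_num
      have h8 := Real.exp_one_lt_d9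
      have h9 := Real.exp_pos (1 / 4 + 1 / 4)
      nlinarith
    exact (mul_le_mul h3 h3 h5 (Real.exp_pos _).le).trans h6
  calc a * ((1 + a) ^ Fintype.card PP * (1 + a) ^ Fintype.card PP) ≤ a * 2 :=
        mul_le_mul_of_nonneg_left h4 ha
    _ ≤ (1 / 4) ^ (d + 1) * 2 := mul_le_mul_of_nonneg_right had (by norm_num)
    _ = (1 / 2) ^ (d + 1) * ((1 / 2) ^ (d + 1) * 2) := by
        rw [← mul_assoc, ← mul_pow]
        norm_num
    _ ≤ (1 / 2) ^ (d + 1) * 1 := by
        apply mul_le_mul_of_nonneg_left _ (by positivity)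
        rw [pow_succ, mul_assoc]
        norm_num
        exact pow_le_one₀ (by norm_num) (by norm_num)
    _ = (1 / 2) ^ (d + 1) := mul_one _

theorem exw_num1 {c : ℝ} {d : ℕ} (hd : 1 ≤ d) (h : 1536 ≤ c * d) :
    Real.exp (-(c * (d : ℝ) ^ 7 / 384)) ≤ (1 / 4) ^ (d + 1) := by
  have hd1 : (1 : ℝ) ≤ d := by exact_mod_cast hd
  have h1 : Real.exp (-2) ≤ 1 / 4 := by
    rw [Real.exp_neg, one_div]
    apply inv_anti₀ (by norm_num)
    have h2 : Real.exp 2 = Real.exp 1 * Real.exp 1 := by rw [← Real.exp_add]; norm_num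
    rw [h2]
    nlinarith [Real.exp_one_gt_d9]
  refine le_trans ?_ (pow_le_pow_left₀ (Real.exp_pos _).le h1 _)
  rw [← Real.exp_nat_mul]
  apply Real.exp_le_exp.2
  push_cast
  have h3 : (1 : ℝ) ≤ (d : ℝ) ^ 5 := one_le_pow₀ hd1
  have h4 : (d : ℝ) ≤ (d : ℝ) ^ 6 := by
    calc (d : ℝ) = d * 1 := (mul_one _).symm
      _ ≤ d * (d : ℝ) ^ 5 := mul_le_mul_of_nonneg_left h3 (by linarith)
      _ = (d : ℝ) ^ 6 := by ring
  have h5 : 1536 * (d : ℝ) ^ 6 ≤ c * (d : ℝ) ^ 7 := by
    calc 1536 * (d : ℝ) ^ 6 ≤ (c * d) * (d : ℝ) ^ 6 := mul_le_mul_of_nonneg_right h (by positivity)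
      _ = c * (d : ℝ) ^ 7 := by ring
  linarith

theorem exw_num2 {c : ℝ} {d : ℕ} (hd : 1 ≤ d) (h : 1024 ≤ c * d) :
    (4 : ℝ) ^ d * Real.exp (-(c * (d : ℝ) ^ 4 / 256)) ≤ (1 / 2) ^ (d + 1) := by
  have hd1 : (1 : ℝ) ≤ d := by exact_mod_cast hd
  have h1 : Real.exp (-1) ≤ 1 / 2 := by
    rw [Real.exp_neg, one_div]
    apply inv_anti₀ (by norm_num)
    linarith [Real.exp_one_gt_d9]
  have h2 : Real.exp (-(c * (d : ℝ) ^ 4 / 256)) ≤ (1 / 2) ^ (4 * d) := by
    refine le_trans ?_ (pow_le_pow_left₀ (Real.exp_pos _).le h1 _)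
    rw [← Real.exp_nat_mul]
    apply Real.exp_le_exp.2
    push_cast
    have h3 : (1 : ℝ) ≤ (d : ℝ) ^ 2 := one_le_pow₀ hd1
    have h4 : (d : ℝ) ≤ (d : ℝ) ^ 3 := by
      calc (d : ℝ) = d * 1 := (mul_one _).symm
        _ ≤ d * (d : ℝ) ^ 2 := mul_le_mul_of_nonneg_left h3 (by linarith)
        _ = (d : ℝ) ^ 3 := by ring
    have h5 : 1024 * (d : ℝ) ^ 3 ≤ c * (d : ℝ) ^ 4 := by
      calc 1024 * (d : ℝ) ^ 3 ≤ (c * d) * (d : ℝ) ^ 3 := mul_le_mul_of_nonneg_right h (by positivity)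
        _ = c * (d : ℝ) ^ 4 := by ring
    linarith
  calc (4 : ℝ) ^ d * Real.exp (-(c * (d : ℝ) ^ 4 / 256)) ≤ 4 ^ d * (1 / 2) ^ (4 * d) :=
        mul_le_mul_of_nonneg_left h2 (by positivity)
    _ = (1 / 4) ^ d := by
        rw [pow_mul, ← mul_pow]
        norm_num
    _ = (1 / 2) ^ (2 * d) := by
        rw [pow_mul]
        norm_num
    _ ≤ (1 / 2) ^ (d + 1) := pow_le_pow_of_le_one (by norm_num) (by norm_num) (by omega)

end numerics

open Classical in
theorem expand_whp {c1 : ℝ} (hc1 : 0 < c1) : ∃ c2 : ℝ, 0 < c2 ∧ c2 ≤ 1 ∧ ∃ d0 : ℕ, ∀ (ι : Type) (_ : DecidableEq ι)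
    (_ : Fintype ι) (d T : ℕ) (Zd : Finset ι) (Bad : Finset (Cube ι)) (F : SimpleGraph (Cube ι))
    (PP : Type) (_ : Fintype PP) (_ : DecidableEq PP) (P : PP → Fin (d ^ 10) → Cube ι) (s0 : ℝ)
    (h0 : (0 : ℝ) ≤ 1 / (4 * d)) (h1 : (1 : ℝ) / (4 * d) ≤ 1), Fintype.card ι = d → d0 ≤ d → c1 * d ≤ T →
    (∀ u v, F.Adj u v → ∃ i, v = flip i u) → (∀ v, (univ.filter fun u => F.Adj v u).card ≤ 2) →
    Pcs F PP (d ^ 10) P → (∀ x, x ∉ Bad → GoodPt Zd T (pun P) x) →
    1 ≤ s0 → (d : ℝ) * Bad.card ≤ c2 * (s0 * d ^ 10) →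
    (bern (1 / (4 * d)) h0 h1 (CE ι)).pr (fun ω => ¬ ∃ Dt : LinkData F (hG F ω) PP (d ^ 10), Dt.P = P ∧
      Expands Dt.pg s0 (c2 / d) ∧
      ∀ l : List (Cube ι), l.Nodup → l.IsChain F.Adj → l.length = d ^ 6 → (∀ v ∈ l, v ∉ Bad) →
        ∃ v ∈ l, ∃ p i, (hG F ω).Adj v (P p i)) ≤ (1 / 2) ^ d := by
  obtain ⟨c2, hc2, hc21, hexp⟩ := res_expand hc1
  refine ⟨c2, hc2, hc21, ⌈1536 / c2⌉₊ + ⌈1024 / c1⌉₊ + 2, ?_⟩
  intro ι _ _ d T Zd Bad F PP _ _ P s0 h0 h1 hd hdd hT hFf hF hP hgood hs0 hBad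
  have hd2 : 2 ≤ d := by omega
  have hd1 : 1 ≤ d := by omega
  have hdr : (1 : ℝ) ≤ d := by exact_mod_cast hd1
  have hdpos : (0 : ℝ) < d := by linarith
  have hcd2 : 1536 ≤ c2 * d := by
    have h2 := Nat.le_ceil (1536 / c2)
    have h3 : ((⌈1536 / c2⌉₊ : ℕ) : ℝ) ≤ d := by exact_mod_cast (by omega : ⌈1536 / c2⌉₊ ≤ d)
    have h4 := h2.trans h3
    rw [div_le_iff₀ hc2] at h4
    linarith
  have hcd1 : 1024 ≤ c1 * d := by
    have h2 := Nat.le_ceil (1024 / c1)
    have h3 : ((⌈1024 / c1⌉₊ : ℕ) : ℝ) ≤ d := by exact_mod_cast (by omega : ⌈1024 / c1⌉₊ ≤ d)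
    have h4 := h2.trans h3
    rw [div_le_iff₀ hc1] at h4
    linarith
  have hVr : 2 ≤ d ^ 10 := by
    calc 2 ≤ d := hd2
      _ = d ^ 1 := (pow_one d).symm
      _ ≤ d ^ 10 := Nat.pow_le_pow_right hd1 (by norm_num)
  have hι : Nonempty ι := by
    rw [← Fintype.card_pos_iff]
    omega
  have hPP : (Fintype.card PP : ℝ) ≤ 2 ^ d := by
    have h2 := exw_card_pun hP.inj
    have h3 : (pun P).card ≤ 2 ^ d := by
      refine (Finset.card_le_univ _).trans ?_
      rw [Fintype.card_fun, Fintype.card_bool, hd]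
    have h4 : Fintype.card PP ≤ Fintype.card PP * d ^ 10 := Nat.le_mul_of_pos_right _ (by omega)
    exact_mod_cast h4.trans (h2 ▸ h3)
  -- the two bad events
  let CondS : Finset PP × Finset PP → Prop := fun q => 1 ≤ q.1.card ∧ q.2.card ≤ q.1.card ∧
    c2 / 2 * (d : ℝ) ^ 10 * q.1.card ≤ (exwM F P q.1 q.2).card
  let GoodL : List (Cube ι) → Prop := fun l => l.Nodup ∧ l.IsChain F.Adj ∧ l.length = d ^ 6 ∧ ∀ v ∈ l, v ∉ Bad
  let EA : (CE ι → Bool) → Prop := fun ω => ∃ q ∈ (univ.filter fun q => CondS q),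
    ∀ e ∈ exwM F P q.1 q.2, ¬ isoE ω e
  let EB : (CE ι → Bool) → Prop := fun ω => ∃ q ∈ (univ : Finset (Cube ι × Cube ι)),
    ∃ t, GoodL (q.1 :: q.2 :: t) ∧ ∀ e ∈ exwLab (exwL F P (q.1 :: q.2 :: t)), ¬ isoE ω e
  have hA : (bern (1 / (4 * d)) h0 h1 (CE ι)).pr EA ≤ (1 / 2) ^ (d + 1) := by
    refine ((bern (1 / (4 * d)) h0 h1 (CE ι)).pr_exists _ _).trans ?_
    set a : ℝ := Real.exp (-(c2 * (d : ℝ) ^ 7 / 384)) with ha
    have ha0 : 0 ≤ a := (Real.exp_pos _).le
    refine le_trans ?_ (exw_sum1 ha0 hPP (exw_num1 hd1 hcd2))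
    refine (Finset.sum_le_sum fun q hq => ?_).trans
      (Finset.sum_le_sum_of_subset_of_nonneg (Finset.filter_subset (fun q => CondS q) univ)
        (fun q _ _ => by positivity))
    rw [Finset.mem_filter] at hq
    obtain ⟨_, hq1, hq2, hq3⟩ := hq
    refine (iso_miss hd hd1 h0 h1 _).trans ?_
    have h2 : a * (a ^ q.1.card * a ^ q.2.card) =
        Real.exp (-(c2 * (d : ℝ) ^ 7 / 384 * (1 + q.1.card + q.2.card))) := by
      rw [ha, ← Real.exp_nat_mul, ← Real.exp_nat_mul, ← Real.exp_add, ← Real.exp_add]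
      congr 1
      ring
    rw [h2]
    apply Real.exp_le_exp.2
    apply neg_le_neg
    rw [le_div_iff₀ (by positivity)]
    refine le_trans ?_ hq3
    have h3 : (1 + q.1.card + q.2.card : ℝ) ≤ 3 * q.1.card := by
      have h4 : (1 : ℝ) ≤ q.1.card := by exact_mod_cast hq1
      have h5 : (q.2.card : ℝ) ≤ q.1.card := by exact_mod_cast hq2
      linarith
    calc c2 * (d : ℝ) ^ 7 / 384 * (1 + q.1.card + q.2.card) * (64 * (d : ℝ) ^ 3)
        ≤ c2 * (d : ℝ) ^ 7 / 384 * (3 * q.1.card) * (64 * (d : ℝ) ^ 3) := by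
          apply mul_le_mul_of_nonneg_right _ (by positivity)
          exact mul_le_mul_of_nonneg_left h3 (by positivity)
      _ = c2 / 2 * (d : ℝ) ^ 10 * q.1.card := by ring
  have hB : (bern (1 / (4 * d)) h0 h1 (CE ι)).pr EB ≤ (1 / 2) ^ (d + 1) := by
    refine ((bern (1 / (4 * d)) h0 h1 (CE ι)).pr_exists _ _).trans ?_
    refine (Finset.sum_le_card_nsmul _ _ (Real.exp (-(c1 * (d : ℝ) ^ 4 / 256))) fun q _ => ?_).trans ?_
    · by_cases ht : ∃ t, GoodL (q.1 :: q.2 :: t)
      · obtain ⟨t, ht⟩ := ht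
        refine ((bern (1 / (4 * d)) h0 h1 (CE ι)).pr_mono (B := fun ω =>
          ∀ e ∈ exwLab (exwL F P (q.1 :: q.2 :: t)), ¬ isoE ω e) ?_).trans ?_
        · rintro ω ⟨t', ht', hω⟩
          have h2 : t' = t := by
            refine exw_chain (F := F) (fun v a b c ha hb hc hab hac => exw_deg2 hF ha hb hc hab hac)
              t' t q.1 q.2 ht'.1 ht.1 ht'.2.1 ht.2.1 ?_
            have h3 := ht'.2.2.1
            have h4 := ht.2.2.1
            simp only [List.length_cons] at h3 h4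
            omega
          rw [h2] at hω
          exact hω
        · refine (iso_miss hd hd1 h0 h1 _).trans ?_
          apply Real.exp_le_exp.2
          apply neg_le_neg
          rw [le_div_iff₀ (by positivity)]
          have h2 := exw_card_L (Zd := Zd) (T := T) hF (P := P) hι ht.1
            (fun v hv => hgood v (ht.2.2.2 v hv))
          rw [ht.2.2.1] at h2
          have h3 := exw_lab_half (exwL F P (q.1 :: q.2 :: t))
          have h4 : ((d ^ 6 * (T - 2) : ℕ) : ℝ) ≤ 2 * (exwLab (exwL F P (q.1 :: q.2 :: t))).card := by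
            exact_mod_cast h2.trans h3
          have h5 : (T : ℝ) - 2 ≤ ((T - 2 : ℕ) : ℝ) := by
            have : T ≤ (T - 2) + 2 := by omega
            have h6 : (T : ℝ) ≤ ((T - 2 : ℕ) : ℝ) + 2 := by exact_mod_cast this
            linarith
          have h6 : c1 * d / 2 ≤ ((T - 2 : ℕ) : ℝ) := by linarith
          push_cast at h4
          have h7 : (d : ℝ) ^ 6 * (c1 * d / 2) ≤ (d : ℝ) ^ 6 * ((T - 2 : ℕ) : ℝ) :=
            mul_le_mul_of_nonneg_left h6 (by positivity)
          have h8 : c1 * (d : ℝ) ^ 4 / 256 * (64 * (d : ℝ) ^ 3) = (d : ℝ) ^ 6 * (c1 * d / 2) / 2 := by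
            ring
          rw [h8]
          linarith
      · refine le_trans (le_of_eq ?_) (Real.exp_pos _).le
        rw [FP.pr_eq, FP.E_congr _ (g := fun _ => 0), FP.E_const]
        intro ω
        rw [if_neg]
        rintro ⟨t, h2, _⟩
        exact ht ⟨t, h2⟩
    · rw [Finset.card_univ, Fintype.card_prod, Fintype.card_fun, Fintype.card_bool, hd, nsmul_eq_mul]
      push_cast
      rw [← mul_pow]
      norm_num only
      exact exw_num2 hd1 hcd1
  have hfin : (bern (1 / (4 * d)) h0 h1 (CE ι)).pr (fun ω => EA ω ∨ EB ω) ≤ (1 / 2) ^ d := by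
    refine ((bern (1 / (4 * d)) h0 h1 (CE ι)).pr_or EA EB).trans ?_
    have h2 : ((1 : ℝ) / 2) ^ (d + 1) + (1 / 2) ^ (d + 1) = (1 / 2) ^ d := by
      rw [pow_succ]; ring
    linarith
  refine le_trans ((bern (1 / (4 * d)) h0 h1 (CE ι)).pr_mono fun ω hω => ?_) hfin
  by_contra hcon
  push Not at hcon
  obtain ⟨hnA, hnB⟩ := hcon
  apply hω
  refine ⟨⟨P, hF, ?_, ?_, hP.inj, hP.adj, hVr⟩, rfl, ?_, ?_⟩
  · intro v
    rw [Finset.card_le_one]
    intro a ha b hb
    exact exw_hG_deg (Finset.mem_filter.1 ha).2 (Finset.mem_filter.1 hb).2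
  · rintro u v huv ⟨i, _, _, h⟩
    exact h huv
  · -- expansion
    intro S hS1 hS2
    by_contra hlt
    push Not at hlt
    set pg := LinkData.pg (⟨P, hF, _, _, hP.inj, hP.adj, hVr⟩ : LinkData F (hG F ω) PP (d ^ 10)) with hpg
    set N := nbr pg S \ S with hN
    have hSc : (1 : ℝ) ≤ S.card := hs0.trans hS1
    have hN1 : (d : ℝ) * N.card ≤ c2 * S.card := by
      have h2 := mul_le_mul_of_nonneg_left hlt.le hdpos.le
      have h3 : (d : ℝ) * (c2 / d * S.card) = c2 * S.card := by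
        field_simp
      linarith
    have hN2 : (N.card : ℝ) ≤ S.card := by
      have h2 : (1 : ℝ) * N.card ≤ d * N.card := mul_le_mul_of_nonneg_right hdr (by positivity)
      have h3 : c2 * S.card ≤ 1 * S.card := mul_le_mul_of_nonneg_right hc21 (by positivity)
      linarith
    have hcV : ∀ U : Finset PP, ((exwV P U).card : ℝ) = U.card * (d : ℝ) ^ 10 := by
      intro U
      rw [exw_card_V hP.inj U]
      push_cast
      ring
    have h2 := hexp ι _ _ d T Zd (pun P) (exwV P S) (exwV P (univ \ (S ∪ N))) (exwV P N) Bad hd hd1 hT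
      (by
        intro x hx
        obtain ⟨p, i, hpi⟩ := exw_mem_pun.1 hx
        by_cases h2 : p ∈ S
        · exact Or.inl (exw_mem_V.2 ⟨p, h2, i, hpi⟩)
        · by_cases h3 : p ∈ N
          · exact Or.inr (Or.inr (exw_mem_V.2 ⟨p, h3, i, hpi⟩))
          · refine Or.inr (Or.inl (exw_mem_V.2 ⟨p, ?_, i, hpi⟩))
            rw [Finset.mem_sdiff, Finset.mem_union]
            exact ⟨Finset.mem_univ _, by tauto⟩)
      hgood
      (by
        rw [exw_card_V hP.inj, exw_card_pun hP.inj, ← mul_assoc, ← mul_assoc]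
        exact Nat.mul_le_mul_right _ hS2)
      (by
        rw [hcV, hcV, ← mul_assoc, ← mul_assoc]
        exact mul_le_mul_of_nonneg_right hN1 (by positivity))
      (by
        rw [hcV]
        refine hBad.trans ?_
        apply mul_le_mul_of_nonneg_left _ hc2.le
        exact mul_le_mul_of_nonneg_right hS1 (by positivity))
    have h3 := exw_card_M hF hP hVr S N
    have h4 : ((mix (exwV P S) (exwV P (univ \ (S ∪ N)))).card : ℝ) ≤ (exwM F P S N).card + 2 * S.card := by
      exact_mod_cast h3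
    rw [hcV] at h2
    apply hnA
    refine ⟨(S, N), Finset.mem_filter.2 ⟨Finset.mem_univ _, ?_, ?_, ?_⟩, ?_⟩
    · exact_mod_cast hSc
    · exact_mod_cast hN2
    · dsimp only
      have h5 : 2 ≤ c2 / 2 * (d : ℝ) ^ 10 := by
        have h6 : (d : ℝ) * 1 ≤ (d : ℝ) * (d : ℝ) ^ 9 :=
          mul_le_mul_of_nonneg_left (one_le_pow₀ hdr) hdpos.le
        have h7 : c2 * d ≤ c2 * (d : ℝ) ^ 10 := by
          apply mul_le_mul_of_nonneg_left _ hc2.le
          calc (d : ℝ) = d * 1 := (mul_one _).symm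
            _ ≤ (d : ℝ) * (d : ℝ) ^ 9 := h6
            _ = (d : ℝ) ^ 10 := by ring
        linarith
      have h6 : 2 * (S.card : ℝ) ≤ c2 / 2 * (d : ℝ) ^ 10 * S.card :=
        mul_le_mul_of_nonneg_right h5 (by positivity)
      have h7 : c2 * (S.card * (d : ℝ) ^ 10) = c2 / 2 * (d : ℝ) ^ 10 * S.card +
        c2 / 2 * (d : ℝ) ^ 10 * S.card := by ring
      linarith
    · dsimp only
      intro e he hiso
      unfold exwM exwLab at he
      rw [Finset.mem_image] at he
      obtain ⟨⟨x, i⟩, hx, rfl⟩ := he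
      rw [Finset.mem_filter] at hx
      obtain ⟨hx1, hx2⟩ := hx
      unfold mix at hx1
      rw [Finset.mem_filter, Finset.mem_product] at hx1
      obtain ⟨⟨hx1, _⟩, hx3⟩ := hx1
      dsimp only at hx1 hx2 hx3 hiso
      obtain ⟨p, hp, k, hk⟩ := exw_mem_V.1 hx1
      obtain ⟨p', hp', k', hk'⟩ := exw_mem_V.1 hx3
      rw [Finset.mem_sdiff, Finset.mem_union] at hp'
      apply hp'.2
      right
      rw [hN, Finset.mem_sdiff]
      refine ⟨?_, fun h => hp'.2 (Or.inl h)⟩
      unfold nbr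
      rw [Finset.mem_filter]
      refine ⟨Finset.mem_univ _, p, hp, ?_, k, k', ?_⟩
      · rintro rfl
        exact hp'.2 (Or.inl hp)
      · show (hG F ω).Adj (P p k) (P p' k')
        rw [hk, hk']
        exact ⟨i, rfl, hiso, hx2⟩
  · intro l hl1 hl2 hl3 hl4
    by_contra hno
    push Not at hno
    apply hnB
    have h2 : 2 ≤ l.length := by
      rw [hl3]
      calc 2 ≤ d := hd2
        _ = d ^ 1 := (pow_one d).symm
        _ ≤ d ^ 6 := Nat.pow_le_pow_right hd1 (by norm_num)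
    match l, h2 with
    | a :: b :: t, _ =>
      refine ⟨(a, b), Finset.mem_univ _, t, ⟨hl1, hl2, hl3, hl4⟩, ?_⟩
      intro e he hiso
      unfold exwLab exwL at he
      rw [Finset.mem_image] at he
      obtain ⟨⟨x, i⟩, hx, rfl⟩ := he
      rw [Finset.mem_filter, Finset.mem_product] at hx
      obtain ⟨⟨hx1, _⟩, hx2, hx3⟩ := hx
      dsimp only at hx1 hx2 hx3 hiso
      obtain ⟨p, k, hk⟩ := exw_mem_pun.1 hx2
      refine hno x (List.mem_toFinset.1 hx1) p k ?_
      rw [hk]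
      exact ⟨i, rfl, hiso, hx3⟩

end Pool.Agent.LongCyc.Dense
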