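import Pool.Agent.LongCyc.Dense.E2Def
import Pool.Agent.LongCyc.Final2

/-!
# Dense regime: the union of the layers is dominated by the percolation with parameter `p`
-/

set_option autoImplicit false

namespace Pool.Agent.LongCyc.Dense

open Finset

section E7

variable {β δ : Type} [DecidableEq β] [Fintype β] [DecidableEq δ] [Fintype δ]

instance decLab : DecidableEq ((Cube δ × CE β) ⊕ (Cube β × CE δ)) := instDecidableEqSum

/-- labels of the product cube -/
def lab0 (β δ : Type) [DecidableEq β] [DecidableEq δ] :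
    EdgeLab (β ⊕ δ) ((Cube δ × CE β) ⊕ (Cube β × CE δ)) :=
  sumLab (canE β) (canE δ) (fun _ _ => false)

omit [DecidableEq β] [Fintype β] [DecidableEq δ] [Fintype δ] in
theorem xr_false (x : Cube β) : xr x (fun _ => false) = x := by
  funext i
  simp

omit [Fintype β] [Fintype δ] in
theorem AO_sub (hbs : Cube δ → CE β → Bool) (rg r3 : Cube β × CE δ → Bool)
    (w2 : CE (β ⊕ δ) → Bool) (w : (Cube δ × CE β) ⊕ (Cube β × CE δ) → Bool)
    (hw : opn (canE (β ⊕ δ)) w2 = opn (lab0 β δ) w) (x y : Cube (β ⊕ δ)) (h : AO hbs rg r3 w2 x y) :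
    opn (lab0 β δ) (fun e => (Sum.elim (fun q : Cube δ × CE β => hbs q.1 q.2)
      (fun q : Cube β × CE δ => rg q || r3 q) e) || w e) x y := by
  rcases h with ⟨h1, i, h2, h3⟩ | ⟨i, h1, h2⟩ | h
  · refine ⟨Sum.inl i, ?_, ?_⟩
    · rw [flip_inl, ← h2, ← h1, jn_self]
    · have : (lab0 β δ).e x (Sum.inl i) = Sum.inl (x ∘ Sum.inr, (canE β).e (x ∘ Sum.inl) i) := by
        show Sum.inl (x ∘ Sum.inr, (canE β).e (xr (x ∘ Sum.inl) (fun _ => false)) i) = _
        rw [xr_false]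
      rw [this]
      simp only [Sum.elim_inl, h3, Bool.true_or]
  · refine ⟨Sum.inr i, h1, ?_⟩
    have : (lab0 β δ).e x (Sum.inr i) = Sum.inr (x ∘ Sum.inl, (canE δ).e (x ∘ Sum.inr) i) := rfl
    rw [this]
    rcases h2 with h2 | h2 <;> simp [h2]
  · rw [hw] at h
    exact opn_mono (fun e he => by simp [he]) h

theorem law_split {p : ℝ} (h0 : 0 ≤ p) (h1 : p ≤ 1) (f : ((Cube δ × CE β) ⊕ (Cube β × CE δ) → Bool) → ℝ) :
    (bern p h0 h1 ((Cube δ × CE β) ⊕ (Cube β × CE δ))).E f =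
      (FP.pi fun _ : Cube δ => bern p h0 h1 (CE β)).E fun hbs => (bern p h0 h1 (Cube β × CE δ)).E fun s =>
        f (Sum.elim (fun q : Cube δ × CE β => hbs q.1 q.2) s) := by
  rw [bern_sum, bern_curry]

/-- a cycle as a chain -/
theorem IsCyc.chain {V : Type*} {A : V → V → Prop} {l : List V} (h : IsCyc A l) : l.IsChain A := by
  rw [List.isChain_iff_getElem]
  intro i hi
  apply h.adj
  left
  refine ⟨l.take i, l.drop (i + 2), ?_⟩
  rw [List.getElem_cons_drop, List.getElem_cons_drop, List.take_append_drop]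

theorem IsCyc.close {V : Type*} {A : V → V → Prop} {l : List V} (h : IsCyc A l) (hl : l ≠ []) :
    A (l.getLast hl) (l.head hl) := by
  apply h.adj
  right
  rcases l with _ | ⟨a, l⟩
  · exact absurd rfl hl
  · have h2 : l ≠ [] := by
      rintro rfl
      have := h.len
      simp at this
    refine ⟨l.dropLast, ?_⟩
    rw [List.head_cons, List.getLast_cons h2, List.cons_append, List.dropLast_append_getLast h2]

open Classical in
theorem layers_law {d : ℕ} (hd : Fintype.card β + Fintype.card δ = d) {p q : ℝ} (h0 : 0 ≤ p) (h1 : p ≤ 1)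
    (hb0 : 0 ≤ 2 * p / 5) (hb1 : 2 * p / 5 ≤ 1) (h50 : 0 ≤ p / 5) (h51 : p / 5 ≤ 1) (hq0 : 0 ≤ q) (hq1 : q ≤ 1)
    (hq : q ≤ p / 5) (m : ℝ) :
    (FP.pi fun _ : Cube δ => bern (2 * p / 5) hb0 hb1 (CE β)).E (fun hbs =>
      (bern (p / 5) h50 h51 (Cube β × CE δ)).E fun rg => (bern q hq0 hq1 (CE (β ⊕ δ))).E fun w2 =>
        (bern (p / 5) h50 h51 (Cube β × CE δ)).E fun r3 =>
          if ∃ l : List (Cube (β ⊕ δ)), IsCyc (AO hbs rg r3 w2) l ∧ m ≤ l.length then (1 : ℝ) else 0) ≤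
      (bern p h0 h1 (CE (Fin d))).pr fun ω => LCyc ω m := by
  -- the functional
  set Φ : (Cube (β ⊕ δ) → Cube (β ⊕ δ) → Prop) → ℝ := fun G =>
    if ∃ l : List (Cube (β ⊕ δ)), IsCyc G l ∧ m ≤ l.length then (1 : ℝ) else 0 with hΦ
  have hΦm : ∀ G G' : Cube (β ⊕ δ) → Cube (β ⊕ δ) → Prop, (∀ x y, G x y → G' x y) → Φ G ≤ Φ G' := by
    intro G G' h
    simp only [hΦ]
    split_ifs with h1 h2
    · exact le_rfl
    · obtain ⟨l, hl, hm⟩ := h1
      exact absurd ⟨l, ⟨hl.nodup, hl.len, fun x y hxy => h _ _ (hl.adj x y hxy)⟩, hm⟩ h2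
    · norm_num
    · exact le_rfl
  set Ψ : ((Cube δ × CE β) ⊕ (Cube β × CE δ) → Bool) → ℝ := fun v => Φ (opn (lab0 β δ) v) with hΨ
  have hΨm : ∀ v v' : (Cube δ × CE β) ⊕ (Cube β × CE δ) → Bool, (∀ e, v e = true → v' e = true) → Ψ v ≤ Ψ v' :=
    fun v v' h => hΦm _ _ fun x y hxy => opn_mono h hxy
  -- step 1 : the layers as percolations on the labels `lab0`
  have s1 : (FP.pi fun _ : Cube δ => bern (2 * p / 5) hb0 hb1 (CE β)).E (fun hbs =>
      (bern (p / 5) h50 h51 (Cube β × CE δ)).E fun rg => (bern q hq0 hq1 (CE (β ⊕ δ))).E fun w2 =>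
        (bern (p / 5) h50 h51 (Cube β × CE δ)).E fun r3 => Φ (AO hbs rg r3 w2)) ≤
      (FP.pi fun _ : Cube δ => bern (2 * p / 5) hb0 hb1 (CE β)).E (fun hbs =>
      (bern (p / 5) h50 h51 (Cube β × CE δ)).E fun rg => 
        (bern (p / 5) h50 h51 (Cube β × CE δ)).E fun r3 =>
          (bern q hq0 hq1 ((Cube δ × CE β) ⊕ (Cube β × CE δ))).E fun w =>
          Ψ (fun e => (Sum.elim (fun q : Cube δ × CE β => hbs q.1 q.2)
            (fun q : Cube β × CE δ => rg q || r3 q) e) || w e)) := by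
    refine FP.E_mono _ fun hbs => FP.E_mono _ fun rg => ?_
    rw [FP.E_swap]
    refine FP.E_mono _ fun r3 => ?_
    -- a functional of the graph only
    set F : (Cube (β ⊕ δ) → Cube (β ⊕ δ) → Prop) → ℝ := fun G =>
      Φ (fun x y => (y ∘ Sum.inr = x ∘ Sum.inr ∧ opn (canE β) (hbs (x ∘ Sum.inr)) (x ∘ Sum.inl) (y ∘ Sum.inl)) ∨
        (∃ i : δ, y = flip (Sum.inr i) x ∧ (rg (x ∘ Sum.inl, (canE δ).e (x ∘ Sum.inr) i) = true ∨
          r3 (x ∘ Sum.inl, (canE δ).e (x ∘ Sum.inr) i) = true)) ∨ G x y) with hF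
    have e1 : (bern q hq0 hq1 (CE (β ⊕ δ))).E (fun w2 => Φ (AO hbs rg r3 w2)) =
        (bern q hq0 hq1 (CE (β ⊕ δ))).E (fun w2 => F (opn (canE (β ⊕ δ)) w2)) := rfl
    rw [e1, ← E_opn (lab0 β δ) F]
    refine FP.E_mono _ fun w => ?_
    refine hΦm _ _ fun x y h => ?_
    have h2 : AO hbs rg r3 (w ∘ (lab0 β δ).phi) x y := by
      rcases h with h | h | h
      · exact Or.inl h
      · exact Or.inr (Or.inl h)
      · refine Or.inr (Or.inr ?_)
        rw [← opn_can]
        exact h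
    exact AO_sub hbs rg r3 _ w (by rw [← opn_can]) x y h2
  -- step 2 : union of the two layers of rungs
  have s2 : ∀ hbs : Cube δ → CE β → Bool, (bern (p / 5) h50 h51 (Cube β × CE δ)).E (fun rg => 
        (bern (p / 5) h50 h51 (Cube β × CE δ)).E fun r3 =>
          (bern q hq0 hq1 ((Cube δ × CE β) ⊕ (Cube β × CE δ))).E fun w =>
          Ψ (fun e => (Sum.elim (fun q : Cube δ × CE β => hbs q.1 q.2)
            (fun q : Cube β × CE δ => rg q || r3 q) e) || w e)) ≤
      (bern (2 * p / 5) hb0 hb1 (Cube β × CE δ)).E (fun s =>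
        (bern q hq0 hq1 ((Cube δ × CE β) ⊕ (Cube β × CE δ))).E fun w =>
          Ψ (fun e => (Sum.elim (fun q : Cube δ × CE β => hbs q.1 q.2) s e) || w e)) := by
    intro hbs
    have hr0 : 0 ≤ 1 - (1 - p / 5) * (1 - p / 5) := by nlinarith
    have hr1 : 1 - (1 - p / 5) * (1 - p / 5) ≤ 1 := by nlinarith
    rw [bern_or h50 h51 h50 h51 hr0 hr1 (by ring) (fun s => 
      (bern q hq0 hq1 ((Cube δ × CE β) ⊕ (Cube β × CE δ))).E fun w =>
          Ψ (fun e => (Sum.elim (fun q : Cube δ × CE β => hbs q.1 q.2) s e) || w e))]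
    refine bern_mono (by nlinarith) fun ω ω' h => FP.E_mono _ fun w => hΨm _ _ fun e he => ?_
    rcases e with e | e
    · exact he
    · simp only [Sum.elim_inr, Bool.or_eq_true] at he ⊢
      rcases he with he | he
      · exact Or.inl (h _ he)
      · exact Or.inr he
  -- step 3 : all labels
  have s3 : (FP.pi fun _ : Cube δ => bern (2 * p / 5) hb0 hb1 (CE β)).E (fun hbs =>
      (bern (2 * p / 5) hb0 hb1 (Cube β × CE δ)).E (fun s =>
        (bern q hq0 hq1 ((Cube δ × CE β) ⊕ (Cube β × CE δ))).E fun w =>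
          Ψ (fun e => (Sum.elim (fun q : Cube δ × CE β => hbs q.1 q.2) s e) || w e))) ≤
      (bern p h0 h1 ((Cube δ × CE β) ⊕ (Cube β × CE δ))).E Ψ := by
    have hr0 : 0 ≤ 1 - (1 - 2 * p / 5) * (1 - q) := by nlinarith
    have hr1 : 1 - (1 - 2 * p / 5) * (1 - q) ≤ 1 := by nlinarith
    have h3 := bern_or (E := (Cube δ × CE β) ⊕ (Cube β × CE δ)) hb0 hb1 hq0 hq1 hr0 hr1 (by ring) Ψ
    have h4 := law_split hb0 hb1 (fun a : (Cube δ × CE β) ⊕ (Cube β × CE δ) → Bool =>
      (bern q hq0 hq1 ((Cube δ × CE β) ⊕ (Cube β × CE δ))).E fun b => Ψ fun e => a e || b e)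
    refine (le_of_eq (h4.symm.trans h3)).trans ?_
    exact bern_mono (by nlinarith) hΨm
  -- step 4 : relabelling
  have s4 : (bern p h0 h1 ((Cube δ × CE β) ⊕ (Cube β × CE δ))).E Ψ ≤
      (bern p h0 h1 (CE (Fin d))).pr fun ω => LCyc ω m := by
    have e : (β ⊕ δ) ≃ Fin d := Fintype.equivFinOfCardEq (by rw [Fintype.card_sum, hd])
    rw [hΨ, E_opn (lab0 β δ) Φ, ← E_opn ((canE (Fin d)).trans e) Φ, FP.pr_eq]
    refine FP.E_mono _ fun ω => ?_
    simp only [hΦ]
    split_ifs with h1 h2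
    · exact le_rfl
    · exfalso
      apply h2
      obtain ⟨l, hl, hm⟩ := h1
      have hinj : Function.Injective fun x : Cube (β ⊕ δ) => x ∘ e.symm :=
        e.symm.surjective.injective_comp_right
      have hlen : (l.map fun x : Cube (β ⊕ δ) => x ∘ e.symm).length = l.length := List.length_map _
      have hne : l ≠ [] := by
        rintro rfl
        have := hl.len
        simp at this
      have hne' : (l.map fun x : Cube (β ⊕ δ) => x ∘ e.symm) ≠ [] := by
        simpa using hne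
      refine ⟨l.map fun x => x ∘ e.symm, hne', hl.nodup.map hinj, by rw [hlen]; exact hl.len, ?_, ?_, by rw [hlen]; exact hm⟩
      · rw [List.isChain_map]
        exact hl.chain.imp fun a b hab => (opn_trans _ _ _ _ _).1 hab
      · rw [List.getLast_map, List.head_map]
        exact (opn_trans _ _ _ _ _).1 (hl.close hne)
    · norm_num
    · exact le_rfl
  exact s1.trans ((FP.E_mono _ s2).trans (s3.trans s4))

end E7

end Pool.Agent.LongCyc.Dense
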