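import Mathlib
import Pool.Agent.LongCyc.Dense.Defs

/-!
# Linking lemma: elementary operations on the current graph
-/

set_option autoImplicit false
set_option linter.unusedSectionVars false

namespace Pool.Agent.LongCyc.Dense

namespace Link

open Finset

section Ops

variable {V : Type*}

/-- degree of `v` in `A` -/
noncomputable def ldg (A : SimpleGraph V) (v : V) : ℕ := {u | A.Adj v u}.ncard

/-- add an edge -/
def addE (A : SimpleGraph V) (u w : V) (h : u ≠ w) : SimpleGraph V where
  Adj a b := A.Adj a b ∨ (a = u ∧ b = w) ∨ (a = w ∧ b = u)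
  symm := ⟨by
    rintro a b (h1 | ⟨rfl, rfl⟩ | ⟨rfl, rfl⟩)
    · exact Or.inl h1.symm
    · exact Or.inr (Or.inr ⟨rfl, rfl⟩)
    · exact Or.inr (Or.inl ⟨rfl, rfl⟩)⟩
  loopless := ⟨by
    rintro a (h1 | ⟨h1, h2⟩ | ⟨h1, h2⟩)
    · exact A.loopless.irrefl a h1
    · exact h (h1.symm.trans h2)
    · exact h (h2.symm.trans h1)⟩

/-- delete an edge -/
def delE (A : SimpleGraph V) (u w : V) : SimpleGraph V where
  Adj a b := A.Adj a b ∧ ¬ (a = u ∧ b = w) ∧ ¬ (a = w ∧ b = u)
  symm := ⟨by
    rintro a b ⟨h1, h2, h3⟩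
    exact ⟨h1.symm, fun h => h3 ⟨h.2, h.1⟩, fun h => h2 ⟨h.2, h.1⟩⟩⟩
  loopless := ⟨by
    rintro a ⟨h1, _⟩
    exact A.loopless.irrefl a h1⟩

theorem addE_adj (A : SimpleGraph V) (u w : V) (h : u ≠ w) (a b : V) :
    (addE A u w h).Adj a b ↔ A.Adj a b ∨ (a = u ∧ b = w) ∨ (a = w ∧ b = u) := Iff.rfl

theorem delE_adj (A : SimpleGraph V) (u w a b : V) :
    (delE A u w).Adj a b ↔ A.Adj a b ∧ ¬ (a = u ∧ b = w) ∧ ¬ (a = w ∧ b = u) := Iff.rfl

variable [Fintype V] [DecidableEq V]

theorem ldg_mono {A B : SimpleGraph V} {v : V} (h : ∀ u, A.Adj v u → B.Adj v u) :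
    ldg A v ≤ ldg B v :=
  Set.ncard_le_ncard (fun u hu => h u hu) (Set.toFinite _)

theorem ldg_congr {A B : SimpleGraph V} {v : V} (h : ∀ u, A.Adj v u ↔ B.Adj v u) :
    ldg A v = ldg B v := by
  unfold ldg
  congr 1
  ext u
  exact h u

theorem ldg_addE {A : SimpleGraph V} {u w : V} (h : u ≠ w) (hA : ¬ A.Adj u w) (v : V) :
    ldg (addE A u w h) v = ldg A v + (if v = u then 1 else 0) + (if v = w then 1 else 0) := by
  by_cases h1 : v = u
  · subst h1
    rw [if_pos rfl, if_neg h]
    unfold ldg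
    have e1 : {b | (addE A v w h).Adj v b} = insert w {b | A.Adj v b} := by
      apply Set.ext
      intro b
      constructor
      · rintro (h2 | ⟨_, h2⟩ | ⟨h2, _⟩)
        · exact Or.inr h2
        · exact Or.inl h2
        · exact absurd h2 h
      · rintro (h2 | h2)
        · exact Or.inr (Or.inl ⟨rfl, h2⟩)
        · exact Or.inl h2
    rw [e1, Set.ncard_insert_of_notMem (s := {b | A.Adj v b}) (a := w) hA (Set.toFinite _)]
  · by_cases h2 : v = w
    · subst h2
      rw [if_neg h1, if_pos rfl]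
      unfold ldg
      have e1 : {b | (addE A u v h).Adj v b} = insert u {b | A.Adj v b} := by
        apply Set.ext
        intro b
        constructor
        · rintro (h3 | ⟨h3, _⟩ | ⟨_, h3⟩)
          · exact Or.inr h3
          · exact absurd h3 h1
          · exact Or.inl h3
        · rintro (h3 | h3)
          · exact Or.inr (Or.inr ⟨rfl, h3⟩)
          · exact Or.inl h3
      rw [e1, Set.ncard_insert_of_notMem (s := {b | A.Adj v b}) (a := u)
        (fun h3 => hA (SimpleGraph.Adj.symm h3)) (Set.toFinite _)]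
    · rw [if_neg h1, if_neg h2]
      refine ldg_congr fun b => ?_
      rw [addE_adj]
      constructor
      · rintro (h3 | ⟨h3, _⟩ | ⟨h3, _⟩)
        · exact h3
        · exact absurd h3 h1
        · exact absurd h3 h2
      · exact Or.inl

theorem ldg_delE {A : SimpleGraph V} {u w : V} (hA : A.Adj u w) (v : V) :
    ldg (delE A u w) v + (if v = u then 1 else 0) + (if v = w then 1 else 0) = ldg A v := by
  have h : u ≠ w := hA.ne
  have h1 : ¬ (delE A u w).Adj u w := fun h1 => h1.2.1 ⟨rfl, rfl⟩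
  rw [← ldg_addE h h1]
  refine ldg_congr fun b => ?_
  rw [addE_adj, delE_adj]
  constructor
  · rintro (h2 | ⟨rfl, rfl⟩ | ⟨rfl, rfl⟩)
    · exact h2.1
    · exact hA
    · exact hA.symm
  · intro h2
    by_cases h3 : v = u ∧ b = w
    · exact Or.inr (Or.inl h3)
    · by_cases h4 : v = w ∧ b = u
      · exact Or.inr (Or.inr h4)
      · exact Or.inl ⟨h2, h3, h4⟩

/-- twice the number of deleted vertices plus the degree sum -/
noncomputable def lval (A : SimpleGraph V) (X : Finset V) : ℕ := 2 * X.card + ∑ v, ldg A v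

theorem lval_addE {A : SimpleGraph V} {u w : V} (h : u ≠ w) (hA : ¬ A.Adj u w) (X : Finset V) :
    lval (addE A u w h) X = lval A X + 2 := by
  unfold lval
  rw [Finset.sum_congr rfl (fun v _ => ldg_addE h hA v), Finset.sum_add_distrib,
    Finset.sum_add_distrib]
  simp
  ring

theorem lval_delE {A : SimpleGraph V} {u w : V} (hA : A.Adj u w) (X : Finset V) :
    lval (delE A u w) X + 2 = lval A X := by
  unfold lval
  rw [← Finset.sum_congr rfl (fun v _ => ldg_delE hA v), Finset.sum_add_distrib,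
    Finset.sum_add_distrib]
  simp
  ring

theorem lval_insert (A : SimpleGraph V) {X : Finset V} {v : V} (hv : v ∉ X) :
    lval A (insert v X) = lval A X + 2 := by
  unfold lval
  rw [Finset.card_insert_of_notMem hv]
  ring

theorem ldg_eq_zero_iff {A : SimpleGraph V} {v : V} : ldg A v = 0 ↔ ∀ u, ¬ A.Adj v u := by
  unfold ldg
  rw [Set.ncard_eq_zero (Set.toFinite _), Set.eq_empty_iff_forall_notMem]
  rfl

theorem eq_of_ldg_le_one {A : SimpleGraph V} {v a b : V} (h : ldg A v ≤ 1) (ha : A.Adj v a)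
    (hb : A.Adj v b) : a = b := by
  unfold ldg at h
  exact (Set.ncard_le_one (Set.toFinite _)).1 h a ha b hb

theorem ldg_eq_card (A : SimpleGraph V) [DecidableRel A.Adj] (v : V) :
    ldg A v = (univ.filter fun u => A.Adj v u).card := by
  unfold ldg
  rw [← Set.ncard_coe_finset]
  congr 1
  ext u
  simp

theorem ldg_eq_card_filter (A : SimpleGraph V) (v : V) [DecidablePred fun u => A.Adj v u] :
    ldg A v = (univ.filter fun u => A.Adj v u).card := by
  unfold ldg
  rw [← Set.ncard_coe_finset]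
  congr 1
  ext u
  simp

end Ops

end Link

end Pool.Agent.LongCyc.Dense
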