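import Mathlib
import Pool.Agent.LongCyc.Dense.LinkOps

/-!
# Linking lemma: invariants of the current graph
-/

set_option autoImplicit false
set_option linter.unusedSectionVars false

namespace Pool.Agent.LongCyc.Dense

namespace Link

open Finset

variable {V : Type*} [Fintype V] [DecidableEq V]
variable {F H : SimpleGraph V} [DecidableRel F.Adj] [DecidableRel H.Adj] {PP : Type*}
  [Fintype PP] [DecidableEq PP] {Vr : ℕ}

/-- reasons for a run of deleted vertices without piece partners to start at `e` -/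
def EBad (F : SimpleGraph V) (X Xa : Finset V) (K : Finset (V × V)) (e : V) : Prop :=
  ldg F e ≤ 1 ∨ (∃ u, (e, u) ∈ K) ∨ ∃ u, u ∈ X ∧ u ∉ Xa ∧ F.Adj e u

/-- no intact piece contains `u` -/
def Free (D : LinkData F H PP Vr) (U : Finset PP) (u : V) : Prop :=
  ∀ q, q ∉ U → ∀ i, u ≠ D.P q i

/-- invariants of the current graph `A`, the set `X` of deleted vertices, the set `Xa` of vertices
deleted although they have no partner in a piece, the set `K` of deleted edges, the set `U` of the
pieces which are not intact -/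
structure Core (D : LinkData F H PP Vr) (A : SimpleGraph V) (X Xa : Finset V)
    (K : Finset (V × V)) (U : Finset PP) : Prop where
  deg : ∀ v, ldg A v ≤ 2
  sub : ∀ u v, A.Adj u v → F.Adj u v ∨ H.Adj u v
  iso : ∀ v ∈ X, ∀ u, ¬ A.Adj v u
  miss : ∀ u v, F.Adj u v → ¬ A.Adj u v → u ∈ X ∨ v ∈ X ∨ (u, v) ∈ K
  pX : ∀ p, p ∉ U → ∀ i, D.P p i ∉ X
  padj : ∀ p, p ∉ U → ∀ (i : ℕ) (hi : i + 1 < Vr),
    A.Adj (D.P p ⟨i, by omega⟩) (D.P p ⟨i + 1, hi⟩)
  pH : ∀ p, p ∉ U → ∀ i u, A.Adj (D.P p i) u → F.Adj (D.P p i) u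
  cyc : ∀ C : Finset V, (∀ v ∈ C, ldg F v = 2) →
    (∀ v ∈ C, ∀ u, F.Adj v u → u ∈ C) → (∀ p i, D.P p i ∉ C) →
    ∀ v ∈ C, v ∉ X ∧ ∀ u, A.Adj v u ↔ F.Adj v u
  XaX : Xa ⊆ X
  conn : ∀ v ∈ Xa, ∃ e ∈ Xa, EBad F X Xa K e ∧
    Relation.ReflTransGen (fun a b => F.Adj a b ∧ b ∈ Xa) e v

theorem ldg_delE_le (A : SimpleGraph V) (u w z : V) : ldg (delE A u w) z ≤ ldg A z :=
  ldg_mono fun _ hb => ((delE_adj A u w z _).1 hb).1

theorem EBad.mono {X Xa X' : Finset V} {K K' : Finset (V × V)} {e : V} (h : EBad F X Xa K e)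
    (hX : X ⊆ X') (hK : K ⊆ K') : EBad F X' Xa K' e := by
  rcases h with h | ⟨u, hu⟩ | ⟨u, hu1, hu2, hu3⟩
  · exact Or.inl h
  · exact Or.inr (Or.inl ⟨u, hK hu⟩)
  · exact Or.inr (Or.inr ⟨u, hX hu1, hu2, hu3⟩)

theorem Free.mono {D : LinkData F H PP Vr} {U U' : Finset PP} {u : V} (h : Free D U u)
    (hU : U ⊆ U') : Free D U' u :=
  fun q hq i => h q (fun h1 => hq (hU h1)) i

theorem linkInj (D : LinkData F H PP Vr) {p q : PP} {i j : Fin Vr} (h : D.P p i = D.P q j) :
    p = q ∧ i = j := by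
  have h1 : (p, i) = (q, j) := D.inj h
  exact ⟨congrArg Prod.fst h1, congrArg Prod.snd h1⟩

theorem ldg_F_le (D : LinkData F H PP Vr) (v : V) : ldg F v ≤ 2 := by
  rw [ldg_eq_card]
  exact D.hF v

theorem H_unique (D : LinkData F H PP Vr) {v a b : V} (ha : H.Adj v a) (hb : H.Adj v b) : a = b :=
  by
  refine eq_of_ldg_le_one (A := H) (v := v) ?_ ha hb
  rw [ldg_eq_card]
  exact D.hH v

section Basic

variable {D : LinkData F H PP Vr} {A : SimpleGraph V} {X Xa : Finset V}
    {K : Finset (V × V)} {U : Finset PP}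

theorem Core.monoU (h : Core D A X Xa K U) {U' : Finset PP} (hU : U ⊆ U') :
    Core D A X Xa K U' where
  deg := h.deg
  sub := h.sub
  iso := h.iso
  miss := h.miss
  pX := fun p hp => h.pX p (fun h1 => hp (hU h1))
  padj := fun p hp => h.padj p (fun h1 => hp (hU h1))
  pH := fun p hp => h.pH p (fun h1 => hp (hU h1))
  cyc := h.cyc
  XaX := h.XaX
  conn := h.conn

/-- vertices of degree at most one do not lie on untouched cycles -/
theorem Core.not_mem_cyc (h : Core D A X Xa K U) {C : Finset V} (h1 : ∀ v ∈ C, ldg F v = 2)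
    (h2 : ∀ v ∈ C, ∀ u, F.Adj v u → u ∈ C) (h3 : ∀ p i, D.P p i ∉ C) {v : V} (hv : ldg A v ≤ 1) :
    v ∉ C := by
  intro hvC
  have h4 := (h.cyc C h1 h2 h3 v hvC).2
  have h5 : ldg A v = ldg F v := ldg_congr h4
  have h6 := h1 v hvC
  omega

theorem Core.del1 (h : Core D A X Xa K U) {v y : V} (hy : A.Adj v y)
    (hd : ldg A v ≤ 1) (hf : Free D U v) : Core D (delE A v y) (insert v X) Xa K U where
  deg := fun z => (ldg_delE_le _ _ _ z).trans (h.deg z)
  sub := fun a b hab => h.sub a b hab.1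
  iso := by
    intro z hz u hu
    rw [delE_adj] at hu
    rcases Finset.mem_insert.1 hz with rfl | hz
    · exact hu.2.1 ⟨rfl, eq_of_ldg_le_one hd hu.1 hy⟩
    · exact h.iso z hz u hu.1
  miss := by
    intro a b hab hn
    by_cases h1 : A.Adj a b
    · by_cases h2 : a = v
      · exact Or.inl (Finset.mem_insert.2 (Or.inl h2))
      · by_cases h3 : b = v
        · exact Or.inr (Or.inl (Finset.mem_insert.2 (Or.inl h3)))
        · exact absurd ⟨h1, fun h4 => h2 h4.1, fun h4 => h3 h4.2⟩ hn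
    · rcases h.miss a b hab h1 with h2 | h2 | h2
      · exact Or.inl (Finset.mem_insert_of_mem h2)
      · exact Or.inr (Or.inl (Finset.mem_insert_of_mem h2))
      · exact Or.inr (Or.inr h2)
  pX := by
    intro p hp i h1
    rcases Finset.mem_insert.1 h1 with h1 | h1
    · exact hf p hp i h1.symm
    · exact h.pX p hp i h1
  padj := by
    intro p hp i hi
    refine ⟨h.padj p hp i hi, fun h1 => hf p hp _ h1.1.symm, fun h1 => hf p hp _ h1.2.symm⟩
  pH := fun p hp i u hu => h.pH p hp i u hu.1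
  cyc := by
    intro C h1 h2 h3 z hz
    have hvC := h.not_mem_cyc h1 h2 h3 hd
    obtain ⟨h4, h5⟩ := h.cyc C h1 h2 h3 z hz
    have hzv : z ≠ v := fun h6 => hvC (h6 ▸ hz)
    refine ⟨?_, fun u => ?_⟩
    · rw [Finset.mem_insert]
      rintro (h6 | h6)
      · exact hzv h6
      · exact h4 h6
    · rw [delE_adj]
      constructor
      · intro h6
        exact (h5 u).1 h6.1
      · intro h6
        refine ⟨(h5 u).2 h6, fun h7 => hzv h7.1, fun h7 => ?_⟩
        have := h2 z hz u h6
        rw [h7.2] at this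
        exact hvC this
  XaX := h.XaX.trans (Finset.subset_insert _ _)
  conn := by
    intro w hw
    obtain ⟨e, he1, he2, he3⟩ := h.conn w hw
    exact ⟨e, he1, he2.mono (Finset.subset_insert _ _) (Finset.Subset.refl _), he3⟩

theorem Core.del0 (h : Core D A X Xa K U) {v : V} (hd : ldg A v = 0) (hf : Free D U v) :
    Core D A (insert v X) Xa K U where
  deg := h.deg
  sub := h.sub
  iso := by
    intro z hz u hu
    rcases Finset.mem_insert.1 hz with rfl | hz
    · exact ldg_eq_zero_iff.1 hd u hu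
    · exact h.iso z hz u hu
  miss := by
    intro a b hab hn
    rcases h.miss a b hab hn with h2 | h2 | h2
    · exact Or.inl (Finset.mem_insert_of_mem h2)
    · exact Or.inr (Or.inl (Finset.mem_insert_of_mem h2))
    · exact Or.inr (Or.inr h2)
  pX := by
    intro p hp i h1
    rcases Finset.mem_insert.1 h1 with h1 | h1
    · exact hf p hp i h1.symm
    · exact h.pX p hp i h1
  padj := h.padj
  pH := h.pH
  cyc := by
    intro C h1 h2 h3 z hz
    have hvC := h.not_mem_cyc (v := v) h1 h2 h3 (by omega)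
    obtain ⟨h4, h5⟩ := h.cyc C h1 h2 h3 z hz
    have hzv : z ≠ v := fun h6 => hvC (h6 ▸ hz)
    refine ⟨?_, h5⟩
    rw [Finset.mem_insert]
    rintro (h6 | h6)
    · exact hzv h6
    · exact h4 h6
  XaX := h.XaX.trans (Finset.subset_insert _ _)
  conn := by
    intro w hw
    obtain ⟨e, he1, he2, he3⟩ := h.conn w hw
    exact ⟨e, he1, he2.mono (Finset.subset_insert _ _) (Finset.Subset.refl _), he3⟩

/-- delete a vertex of degree one which has no partner in a piece -/
theorem Core.delA (h : Core D A X Xa K U) {v y : V} (hv : v ∉ X) (hy : A.Adj v y)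
    (hd : ldg A v ≤ 1) (hf : Free D U v) :
    Core D (delE A v y) (insert v X) (insert v Xa) K U := by
  have h0 := h.del1 hy hd hf
  refine { h0 with
    XaX := Finset.insert_subset_insert _ h.XaX
    conn := ?_ }
  have hvXa : v ∉ Xa := fun h1 => hv (h.XaX h1)
  have hmon : ∀ e, EBad F X Xa K e → EBad F (insert v X) (insert v Xa) K e := by
    rintro e (h1 | h1 | ⟨u, hu1, hu2, hu3⟩)
    · exact Or.inl h1
    · exact Or.inr (Or.inl h1)
    · refine Or.inr (Or.inr ⟨u, Finset.mem_insert_of_mem hu1, ?_, hu3⟩)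
      rw [Finset.mem_insert]
      rintro (h2 | h2)
      · exact hv (h2 ▸ hu1)
      · exact hu2 h2
  have hmonR : ∀ a b, Relation.ReflTransGen (fun a b => F.Adj a b ∧ b ∈ Xa) a b →
      Relation.ReflTransGen (fun a b => F.Adj a b ∧ b ∈ insert v Xa) a b := by
    intro a b hab
    induction hab with
    | refl => exact Relation.ReflTransGen.refl
    | tail _ h2 ih => exact ih.tail ⟨h2.1, Finset.mem_insert_of_mem h2.2⟩
  intro w hw
  rcases Finset.mem_insert.1 hw with rfl | hw
  · by_cases hF1 : ldg F w ≤ 1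
    · exact ⟨w, hw, Or.inl hF1, Relation.ReflTransGen.refl⟩
    · have h1 : ∃ u, F.Adj w u ∧ ¬ A.Adj w u := by
        by_contra hcon
        push Not at hcon
        have := ldg_mono (A := F) (B := A) (v := w) hcon
        omega
      obtain ⟨u, hu1, hu2⟩ := h1
      rcases h.miss w u hu1 hu2 with h2 | h2 | h2
      · exact absurd h2 hv
      · by_cases h3 : u ∈ Xa
        · obtain ⟨e, he1, he2, he3⟩ := h.conn u h3
          refine ⟨e, Finset.mem_insert_of_mem he1, hmon e he2, ?_⟩
          exact (hmonR _ _ he3).tail ⟨hu1.symm, Finset.mem_insert_self _ _⟩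
        · refine ⟨w, hw, Or.inr (Or.inr ⟨u, Finset.mem_insert_of_mem h2, ?_, hu1⟩),
            Relation.ReflTransGen.refl⟩
          rw [Finset.mem_insert]
          rintro (h4 | h4)
          · exact hu1.ne h4.symm
          · exact h3 h4
      · exact ⟨w, hw, Or.inr (Or.inl ⟨u, h2⟩), Relation.ReflTransGen.refl⟩
  · obtain ⟨e, he1, he2, he3⟩ := h.conn w hw
    exact ⟨e, Finset.mem_insert_of_mem he1, hmon e he2, hmonR _ _ he3⟩

/-- cut an edge of a piece which is not intact -/
theorem Core.cut (h : Core D A X Xa K U) {p : PP} (hp : p ∈ U) (i j : Fin Vr) :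
    Core D (delE A (D.P p i) (D.P p j)) X Xa
      (K ∪ {(D.P p i, D.P p j), (D.P p j, D.P p i)}) U where
  deg := fun z => (ldg_delE_le _ _ _ z).trans (h.deg z)
  sub := fun a b hab => h.sub a b hab.1
  iso := fun v hv u hu => h.iso v hv u hu.1
  miss := by
    intro a b hab hn
    by_cases h1 : A.Adj a b
    · rw [delE_adj] at hn
      by_cases h2 : a = D.P p i ∧ b = D.P p j
      · refine Or.inr (Or.inr ?_)
        simp [h2]
      · by_cases h3 : a = D.P p j ∧ b = D.P p i
        · refine Or.inr (Or.inr ?_)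
          simp [h3]
        · exact absurd ⟨h1, h2, h3⟩ hn
    · rcases h.miss a b hab h1 with h2 | h2 | h2
      · exact Or.inl h2
      · exact Or.inr (Or.inl h2)
      · exact Or.inr (Or.inr (Finset.mem_union_left _ h2))
  pX := h.pX
  padj := by
    intro q hq k hk
    refine ⟨h.padj q hq k hk, fun h1 => ?_, fun h1 => ?_⟩
    · exact hq ((linkInj D h1.1).1 ▸ hp)
    · exact hq ((linkInj D h1.1).1 ▸ hp)
  pH := fun p hp i u hu => h.pH p hp i u hu.1
  cyc := by
    intro C h1 h2 h3 z hz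
    obtain ⟨h4, h5⟩ := h.cyc C h1 h2 h3 z hz
    refine ⟨h4, fun u => ?_⟩
    rw [delE_adj, h5 u]
    constructor
    · exact fun h6 => h6.1
    · intro h6
      refine ⟨h6, fun h7 => ?_, fun h7 => ?_⟩
      · exact h3 p i (h7.1 ▸ hz)
      · exact h3 p j (h7.1 ▸ hz)
  XaX := h.XaX
  conn := by
    intro w hw
    obtain ⟨e, he1, he2, he3⟩ := h.conn w hw
    exact ⟨e, he1, he2.mono (Finset.Subset.refl _) Finset.subset_union_left, he3⟩

/-- add an edge between two vertices of degree at most one -/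
theorem Core.join (h : Core D A X Xa K U) {u w : V} (hne : u ≠ w) (hu : u ∉ X) (hw : w ∉ X)
    (hdu : ldg A u ≤ 1) (hdw : ldg A w ≤ 1) (hH : H.Adj u w) (hA : ¬ A.Adj u w)
    (hfu : Free D U u) (hfw : Free D U w) : Core D (addE A u w hne) X Xa K U where
  deg := by
    intro z
    rw [ldg_addE hne hA]
    by_cases h1 : z = u
    · subst h1
      rw [if_pos rfl, if_neg hne]
      omega
    · by_cases h2 : z = w
      · subst h2
        rw [if_pos rfl, if_neg h1]
        omega
      · rw [if_neg h1, if_neg h2]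
        exact h.deg z
  sub := by
    rintro a b (h1 | ⟨rfl, rfl⟩ | ⟨rfl, rfl⟩)
    · exact h.sub a b h1
    · exact Or.inr hH
    · exact Or.inr hH.symm
  iso := by
    rintro z hz b (h1 | ⟨rfl, rfl⟩ | ⟨rfl, rfl⟩)
    · exact h.iso z hz b h1
    · exact hu hz
    · exact hw hz
  miss := fun a b hab hn => h.miss a b hab fun h1 => hn (Or.inl h1)
  pX := h.pX
  padj := fun q hq k hk => Or.inl (h.padj q hq k hk)
  pH := by
    rintro q hq i z (h1 | ⟨h1, _⟩ | ⟨h1, _⟩)
    · exact h.pH q hq i z h1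
    · exact absurd h1.symm (hfu q hq i)
    · exact absurd h1.symm (hfw q hq i)
  cyc := by
    intro C h1 h2 h3 z hz
    obtain ⟨h4, h5⟩ := h.cyc C h1 h2 h3 z hz
    have hzu : z ≠ u := fun h6 => h.not_mem_cyc h1 h2 h3 hdu (h6 ▸ hz)
    have hzw : z ≠ w := fun h6 => h.not_mem_cyc h1 h2 h3 hdw (h6 ▸ hz)
    refine ⟨h4, fun b => ?_⟩
    rw [addE_adj, h5 b]
    constructor
    · rintro (h6 | h6 | h6)
      · exact h6
      · exact absurd h6.1 hzu
      · exact absurd h6.1 hzw
    · exact Or.inl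
  XaX := h.XaX
  conn := h.conn

end Basic

end Link

end Pool.Agent.LongCyc.Dense
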