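import Mathlib
import Pool.Agent.LongCyc.Dense.LinkCore

/-!
# Linking lemma: counting the deleted vertices without partner in a piece
-/

set_option autoImplicit false
set_option linter.unusedSectionVars false

namespace Pool.Agent.LongCyc.Dense

namespace Link

open Finset

variable {V : Type*} [Fintype V] [DecidableEq V]

/-- `v` is the last vertex of a chain of `n` different vertices starting with `y` -/
def RC (F : SimpleGraph V) (n : ℕ) (y v : V) : Prop :=
  ∃ l : List V, l.Nodup ∧ l.IsChain F.Adj ∧ l.head? = some y ∧ l.getLast? = some v ∧ l.length = n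

theorem chain_unique {F : SimpleGraph V} (hF : ∀ v, ldg F v ≤ 2) :
    ∀ (l1 l2 : List V) (y z : V), (y :: z :: l1).Nodup → (y :: z :: l2).Nodup →
      (y :: z :: l1).IsChain F.Adj → (y :: z :: l2).IsChain F.Adj → l1.length = l2.length →
      l1 = l2 := by
  intro l1
  induction l1 with
  | nil =>
    intro l2 y z _ _ _ _ h
    exact (List.length_eq_zero_iff.1 h.symm).symm
  | cons w1 l1 ih =>
    intro l2 y z h1 h2 h3 h4 h5
    cases l2 with
    | nil => simp at h5
    | cons w2 l2 =>
      have c3 := List.isChain_cons_cons.1 h3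
      have c4 := List.isChain_cons_cons.1 h4
      have d3 := List.isChain_cons_cons.1 c3.2
      have d4 := List.isChain_cons_cons.1 c4.2
      have n1 := List.nodup_cons.1 h1
      have n2 := List.nodup_cons.1 h2
      have e1 : y ≠ w1 := fun h => n1.1 (by rw [h]; simp)
      have e2 : y ≠ w2 := fun h => n2.1 (by rw [h]; simp)
      have hw : w1 = w2 := by
        by_contra hne
        have hsub : (({y, w1, w2} : Finset V) : Set V) ⊆ {u | F.Adj z u} := by
          intro b hb
          simp only [Finset.coe_insert, Finset.coe_singleton, Set.mem_insert_iff,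
            Set.mem_singleton_iff] at hb
          rcases hb with rfl | rfl | rfl
          · exact c3.1.symm
          · exact d3.1
          · exact d4.1
        have h6 := Set.ncard_le_ncard hsub (Set.toFinite _)
        rw [Set.ncard_coe_finset, Finset.card_eq_three.2 ⟨y, w1, w2, e1, e2, hne, rfl⟩] at h6
        have h7 := hF z
        unfold ldg at h7
        omega
      subst hw
      rw [ih l2 z w1 n1.2 n2.2 c3.2 c4.2 (by simpa using h5)]

theorem card_RC {F : SimpleGraph V} (hF : ∀ v, ldg F v ≤ 2) (n : ℕ) (y : V) :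
    {v | RC F n y v}.ncard ≤ 2 := by
  by_cases hn : n ≤ 1
  · refine (Set.ncard_le_ncard (t := {y}) ?_ (Set.toFinite _)).trans (by simp)
    rintro v ⟨l, _, _, h3, h4, h5⟩
    cases l with
    | nil => simp at h3
    | cons a l =>
      cases l with
      | nil =>
        simp only [List.head?_cons, Option.some.injEq, List.getLast?_singleton] at h3 h4
        exact h4.symm.trans h3
      | cons b l =>
        simp only [List.length_cons] at h5
        omega
  · -- choose the second vertex
    have h0 : ∀ v ∈ {v | RC F n y v}, ∃ z, F.Adj y z ∧ ∃ l, (y :: z :: l).Nodup ∧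
        (y :: z :: l).IsChain F.Adj ∧ (y :: z :: l).getLast? = some v ∧ l.length + 2 = n := by
      rintro v ⟨l, h1, h2, h3, h4, h5⟩
      match l, h1, h2, h3, h4, h5 with
      | [], _, _, h3, _, _ => simp at h3
      | [a], _, _, _, _, h5 =>
        simp only [List.length_cons, List.length_nil] at h5
        omega
      | a :: z :: l, h1, h2, h3, h4, h5 =>
        simp only [List.head?_cons, Option.some.injEq] at h3
        subst h3
        exact ⟨z, (List.isChain_cons_cons.1 h2).1, l, h1, h2, h4, by simpa using h5⟩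
    choose! f hf1 hf2 using h0
    refine (Set.ncard_le_ncard_of_injOn f (t := {u | F.Adj y u}) (fun v hv => hf1 v hv) ?_
      (Set.toFinite _)).trans (hF y)
    intro v hv w hw hvw
    obtain ⟨l1, a1, a2, a3, a4⟩ := hf2 v hv
    obtain ⟨l2, b1, b2, b3, b4⟩ := hf2 w hw
    rw [← hvw] at b1 b2 b3
    have h6 := chain_unique hF l1 l2 y (f v) a1 b1 a2 b2 (by omega)
    subst h6
    rw [a3] at b3
    exact Option.some.inj b3

theorem exists_chain {F : SimpleGraph V} {S : Finset V} {e v : V} (he : e ∈ S)
    (h : Relation.ReflTransGen (fun a b => F.Adj a b ∧ b ∈ S) e v) :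
    ∃ l : List V, l.Nodup ∧ l.IsChain F.Adj ∧ l.head? = some v ∧ l.getLast? = some e ∧
      ∀ w ∈ l, w ∈ S := by
  let G : SimpleGraph V :=
    { Adj := fun a b => F.Adj a b ∧ a ∈ S ∧ b ∈ S
      symm := ⟨fun a b hab => ⟨hab.1.symm, hab.2.2, hab.2.1⟩⟩
      loopless := ⟨fun a ha => F.loopless.irrefl a ha.1⟩ }
  have h1 : v ∈ S ∧ G.Reachable v e := by
    induction h with
    | refl => exact ⟨he, SimpleGraph.Reachable.refl _⟩
    | tail _ h2 ih =>
      refine ⟨h2.2, ?_⟩
      have h3 : G.Adj _ _ := ⟨h2.1.symm, h2.2, ih.1⟩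
      exact h3.reachable.trans ih.2
  obtain ⟨hv, hr⟩ := h1
  obtain ⟨w, hw⟩ := hr.exists_isPath
  have hch : w.support.IsChain G.Adj := w.isChain_adj_support
  refine ⟨w.support, hw.support_nodup, hch.imp fun a b hab => hab.1, ?_, ?_, ?_⟩
  · rw [← w.cons_tail_support]
    rfl
  · rw [List.getLast?_eq_getLast_of_ne_nil w.support_ne_nil, w.getLast_support]
  · intro b hb
    have : ∀ {x y : V} (w : G.Walk x y), x ∈ S → ∀ b ∈ w.support, b ∈ S := by
      intro x y w
      induction w with
      | nil =>
        intro hx b hb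
        rw [SimpleGraph.Walk.support_nil, List.mem_singleton] at hb
        exact hb ▸ hx
      | cons hadj w ih =>
        intro hx b hb
        rw [SimpleGraph.Walk.support_cons, List.mem_cons] at hb
        rcases hb with hb | hb
        · exact hb ▸ hx
        · exact ih hadj.2.2 b hb
    exact this w hv b hb

theorem RC_of_initSeg {F : SimpleGraph V} {l : List V} (h1 : l.Nodup) (h2 : l.IsChain F.Adj) {v y : V}
    (h3 : l.head? = some v) (hy : y ∈ l) : ∃ n, 1 ≤ n ∧ n ≤ l.length ∧ RC F n y v := by
  obtain ⟨s, t, rfl⟩ := List.append_of_mem hy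
  refine ⟨s.length + 1, by omega, by simp, (s ++ [y]).reverse, ?_, ?_, ?_, ?_, by simp⟩
  · rw [List.nodup_reverse]
    refine h1.sublist ?_
    simp
  · rw [List.isChain_reverse]
    have h4 : (s ++ [y]).IsChain F.Adj := by
      have h5 : ((s ++ [y]) ++ t).IsChain F.Adj := by simpa using h2
      exact (List.isChain_append.1 h5).1
    exact h4.imp fun a b hab => hab.symm
  · simp
  · rw [List.getLast?_reverse]
    cases s with
    | nil =>
      simpa using h3
    | cons a s => simpa using h3

/-- counting lemma -/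
theorem card_block {F : SimpleGraph V} (hF : ∀ v, ldg F v ≤ 2) {S T Xb : Finset V} {h : ℕ}
    (hh : 1 ≤ h)
    (hconn : ∀ v ∈ S, ∃ e ∈ S, e ∈ T ∧ Relation.ReflTransGen (fun a b => F.Adj a b ∧ b ∈ S) e v)
    (hch : ∀ l : List V, l.Nodup → l.IsChain F.Adj → l.length = h → (∀ v ∈ l, v ∈ S) →
      ∃ v ∈ l, v ∈ Xb) :
    S.card ≤ 2 * h * (T.card + Xb.card) := by
  have h1 : ∀ v ∈ S, ∃ y ∈ T ∪ Xb, ∃ n ∈ Finset.Icc 1 h, RC F n y v := by
    intro v hv
    obtain ⟨e, he, heT, hr⟩ := hconn v hv
    obtain ⟨l, l1, l2, l3, l4, l5⟩ := exists_chain he hr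
    by_cases hl : l.length ≤ h
    · obtain ⟨n, n1, n2, n3⟩ := RC_of_initSeg l1 l2 l3 (y := e) (List.mem_of_getLast? l4)
      exact ⟨e, Finset.mem_union_left _ heT, n, Finset.mem_Icc.2 ⟨n1, n2.trans hl⟩, n3⟩
    · have t1 : (l.take h).Nodup := l1.sublist (List.take_sublist _ _)
      have t2 : (l.take h).IsChain F.Adj := l2.take h
      have t3 : (l.take h).head? = some v := by
        rw [List.head?_take, if_neg (by omega), l3]
      have t4 : (l.take h).length = h := by
        rw [List.length_take]
        omega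
      obtain ⟨y, hy1, hy2⟩ := hch (l.take h) t1 t2 t4 (fun w hw => l5 w (List.mem_of_mem_take hw))
      obtain ⟨n, n1, n2, n3⟩ := RC_of_initSeg t1 t2 t3 hy1
      exact ⟨y, Finset.mem_union_right _ hy2, n, Finset.mem_Icc.2 ⟨n1, n2.trans t4.le⟩, n3⟩
  classical
  have h2 : S ⊆ (T ∪ Xb).biUnion fun y => (Finset.Icc 1 h).biUnion fun n =>
      Finset.univ.filter fun v => RC F n y v := by
    intro v hv
    obtain ⟨y, hy, n, hn, hr⟩ := h1 v hv
    exact Finset.mem_biUnion.2 ⟨y, hy, Finset.mem_biUnion.2 ⟨n, hn,
      Finset.mem_filter.2 ⟨Finset.mem_univ _, hr⟩⟩⟩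
  refine (Finset.card_le_card h2).trans ?_
  have h3 : ∀ y ∈ T ∪ Xb, ((Finset.Icc 1 h).biUnion fun n =>
      Finset.univ.filter fun v => RC F n y v).card ≤ 2 * h := by
    intro y _
    refine (Finset.card_biUnion_le_card_mul _ _ 2 ?_).trans ?_
    · intro n _
      have := card_RC hF n y
      rw [show {v | RC F n y v} = ((Finset.univ.filter fun v => RC F n y v : Finset V) : Set V) by
        ext; simp, Set.ncard_coe_finset] at this
      exact this
    · rw [Nat.card_Icc]
      omega
  refine (Finset.card_biUnion_le_card_mul _ _ _ h3).trans ?_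
  have h4 := Finset.card_union_le T Xb
  calc (T ∪ Xb).card * (2 * h) ≤ (T.card + Xb.card) * (2 * h) := Nat.mul_le_mul_right _ h4
    _ = 2 * h * (T.card + Xb.card) := by ring

end Link

end Pool.Agent.LongCyc.Dense
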