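import Mathlib
import Pool.Agent.LongCyc.Dense.LinkCore

/-!
# Linking lemma: moving an end through pieces
-/

set_option autoImplicit false
set_option linter.unusedSectionVars false

namespace Pool.Agent.LongCyc.Dense

namespace Link

open Finset

variable {V : Type*} [Fintype V] [DecidableEq V]
variable {F H : SimpleGraph V} [DecidableRel F.Adj] [DecidableRel H.Adj] {PP : Type*}
  [Fintype PP] [DecidableEq PP] {Vr : ℕ}

/-- number of ordered new edges -/
noncomputable def hc (F A : SimpleGraph V) : ℕ :=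
  {q : V × V | A.Adj q.1 q.2 ∧ ¬ F.Adj q.1 q.2}.ncard

theorem hc_mono {A B : SimpleGraph V} (h : ∀ a b, A.Adj a b → B.Adj a b) : hc F A ≤ hc F B :=
  Set.ncard_le_ncard (fun _ hq => ⟨h _ _ hq.1, hq.2⟩) (Set.toFinite _)

theorem hc_addE {A : SimpleGraph V} {u w : V} (h : u ≠ w) : hc F (addE A u w h) ≤ hc F A + 2 := by
  have h1 : {q : V × V | (addE A u w h).Adj q.1 q.2 ∧ ¬ F.Adj q.1 q.2} ⊆
      {q : V × V | A.Adj q.1 q.2 ∧ ¬ F.Adj q.1 q.2} ∪ {(u, w), (w, u)} := by
    rintro ⟨a, b⟩ ⟨h1 | ⟨h1, h2⟩ | ⟨h1, h2⟩, h3⟩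
    · exact Or.inl ⟨h1, h3⟩
    · refine Or.inr (Or.inl ?_)
      exact Prod.ext h1 h2
    · refine Or.inr (Or.inr ?_)
      exact Prod.ext h1 h2
  refine (Set.ncard_le_ncard h1 (Set.toFinite _)).trans ?_
  refine (Set.ncard_union_le _ _).trans ?_
  refine Nat.add_le_add_left ?_ _
  refine (Set.ncard_insert_le _ _).trans ?_
  rw [Set.ncard_singleton]

/-- cost of a step -/
structure Cost (F : SimpleGraph V) (Vr n m : ℕ) (A : SimpleGraph V) (X : Finset V)
    (K : Finset (V × V)) (A' : SimpleGraph V) (X' : Finset V) (K' : Finset (V × V)) : Prop where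
  XX : X ⊆ X'
  cX : X'.card ≤ X.card + Vr * n
  cK : K'.card ≤ K.card + 2 * n
  cH : hc F A' ≤ hc F A + 2 * m

theorem Cost.refl (A : SimpleGraph V) (X : Finset V) (K : Finset (V × V)) :
    Cost F Vr 0 0 A X K A X K :=
  ⟨Finset.Subset.refl _, by simp, by simp, by simp⟩

theorem Cost.trans {n m n' m' : ℕ} {A A' A'' : SimpleGraph V} {X X' X'' : Finset V}
    {K K' K'' : Finset (V × V)} (h : Cost F Vr n m A X K A' X' K')
    (h' : Cost F Vr n' m' A' X' K' A'' X'' K'') :
    Cost F Vr (n + n') (m + m') A X K A'' X'' K'' := by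
  refine ⟨h.XX.trans h'.XX, ?_, ?_, ?_⟩
  · have h1 := h.cX
    have h2 := h'.cX
    rw [Nat.mul_add]
    omega
  · have h1 := h.cK
    have h2 := h'.cK
    omega
  · have h1 := h.cH
    have h2 := h'.cH
    omega

theorem Cost.le {n m n' m' : ℕ} {A A' : SimpleGraph V} {X X' : Finset V}
    {K K' : Finset (V × V)} (h : Cost F Vr n m A X K A' X' K') (hn : n ≤ n') (hm : m ≤ m') :
    Cost F Vr n' m' A X K A' X' K' := by
  refine ⟨h.XX, ?_, ?_, ?_⟩
  · exact h.cX.trans (Nat.add_le_add_left (Nat.mul_le_mul_left _ hn) _)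
  · have := h.cK
    omega
  · have := h.cH
    omega

section Trim

variable {D : LinkData F H PP Vr} {Xa : Finset V} {U : Finset PP}

theorem trim : ∀ (m : ℕ) (f : ℕ → V) (A : SimpleGraph V) (X : Finset V) (K : Finset (V × V)),
    Core D A X Xa K U → (∀ k, k < m → A.Adj (f k) (f (k + 1))) →
    (∀ a b, a ≤ m → b ≤ m → f a = f b → a = b) → (∀ k, k ≤ m → f k ∉ X) →
    (∀ k, k ≤ m → Free D U (f k)) → ldg A (f 0) ≤ 1 →
    ∃ A' X', Core D A' X' Xa K U ∧ lval A' X' = lval A X ∧ f m ∉ X' ∧ ldg A' (f m) ≤ 1 ∧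
      (1 ≤ m → ldg A' (f m) + 1 ≤ ldg A (f m)) ∧ (∀ a b, A'.Adj a b → A.Adj a b) ∧ X ⊆ X' ∧
      (∀ z ∈ X', z ∈ X ∨ ∃ k, k < m ∧ z = f k) := by
  intro m
  induction m with
  | zero =>
    intro f A X K h _ _ hX _ hd
    exact ⟨A, X, h, rfl, hX 0 le_rfl, hd, fun h1 => absurd h1 (by omega), fun _ _ h => h,
      Finset.Subset.refl _, fun z hz => Or.inl hz⟩
  | succ m ih =>
    intro f A X K h hadj hinj hX hfree hd
    have ha0 : A.Adj (f 0) (f 1) := hadj 0 (by omega)
    have h1 := h.del1 ha0 hd (hfree 0 (by omega))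
    have hne : ∀ k, k ≤ m → f (k + 1) ≠ f 0 := fun k hk h2 => by
      have := hinj (k + 1) 0 (by omega) (by omega) h2
      omega
    have hd1 : ldg (delE A (f 0) (f 1)) (f 1) + 1 = ldg A (f 1) := by
      have := ldg_delE ha0 (f 1)
      rw [if_neg (hne 0 (by omega)), if_pos rfl] at this
      omega
    have hd2 := h.deg (f 1)
    obtain ⟨A', X', hc, hv, hm1, hm2, hm3, hm4, hm5, hm6⟩ := ih (fun k => f (k + 1))
      (delE A (f 0) (f 1)) (insert (f 0) X) K h1
      (fun k hk => ⟨hadj (k + 1) (by omega), fun h2 => hne k (by omega) h2.1,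
        fun h2 => hne (k + 1) (by omega) h2.2⟩)
      (fun a b ha hb hab => by
        have := hinj (a + 1) (b + 1) (by omega) (by omega) hab
        omega)
      (fun k hk h2 => by
        rcases Finset.mem_insert.1 h2 with h2 | h2
        · exact hne k hk h2
        · exact hX (k + 1) (by omega) h2)
      (fun k hk => hfree (k + 1) (by omega)) (by
        show ldg (delE A (f 0) (f 1)) (f 1) ≤ 1
        omega)
    refine ⟨A', X', hc, ?_, hm1, hm2, ?_, fun a b hab => (hm4 a b hab).1,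
      (Finset.subset_insert _ _).trans hm5, ?_⟩
    · rw [hv, lval_insert _ (hX 0 (by omega)), lval_delE ha0]
    · intro _
      by_cases hm : 1 ≤ m
      · exact (hm3 hm).trans (ldg_delE_le _ _ _ _)
      · have hm0 : m = 0 := by omega
        subst hm0
        have h5 : ldg A' (f 1) ≤ ldg (delE A (f 0) (f 1)) (f 1) := ldg_mono fun u hu => hm4 _ _ hu
        show ldg A' (f (0 + 1)) + 1 ≤ ldg A (f (0 + 1))
        rw [zero_add]
        omega
    · intro z hz
      rcases hm6 z hz with h2 | ⟨k, hk, h2⟩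
      · rcases Finset.mem_insert.1 h2 with h2 | h2
        · exact Or.inr ⟨0, by omega, h2⟩
        · exact Or.inl h2
      · exact Or.inr ⟨k + 1, by omega, h2⟩

theorem seg {i j : Fin Vr} (hij : i ≠ j) : ∃ (m : ℕ) (g : ℕ → Fin Vr), 1 ≤ m ∧ g 0 = i ∧ g m = j ∧
    (∀ k, k < m → (g k).val + 1 = (g (k + 1)).val ∨ (g (k + 1)).val + 1 = (g k).val) ∧
    (∀ a b, a ≤ m → b ≤ m → g a = g b → a = b) := by
  have hi := i.2
  have hj := j.2
  have hne : i.val ≠ j.val := fun h => hij (Fin.ext h)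
  rcases lt_or_ge i.val j.val with h | h
  · refine ⟨j.val - i.val, fun k => ⟨min (i.val + k) (Vr - 1), by omega⟩, by omega, ?_, ?_, ?_, ?_⟩
    · apply Fin.ext
      show min (i.val + 0) (Vr - 1) = i.val
      omega
    · apply Fin.ext
      show min (i.val + (j.val - i.val)) (Vr - 1) = j.val
      omega
    · intro k hk
      left
      show min (i.val + k) (Vr - 1) + 1 = min (i.val + (k + 1)) (Vr - 1)
      omega
    · intro a b ha hb hab
      have : min (i.val + a) (Vr - 1) = min (i.val + b) (Vr - 1) := congrArg Fin.val hab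
      omega
  · refine ⟨i.val - j.val, fun k => ⟨i.val - k, by omega⟩, by omega, ?_, ?_, ?_, ?_⟩
    · apply Fin.ext
      show i.val - 0 = i.val
      omega
    · apply Fin.ext
      show i.val - (i.val - j.val) = j.val
      omega
    · intro k hk
      right
      show i.val - (k + 1) + 1 = i.val - k
      omega
    · intro a b ha hb hab
      have : i.val - a = i.val - b := congrArg Fin.val hab
      omega

variable {A : SimpleGraph V} {X : Finset V} {K : Finset (V × V)}

theorem piece_adj (h : Core D A X Xa K U) {p : PP} (hp : p ∉ U) {a b : Fin Vr}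
    (hab : a.val + 1 = b.val ∨ b.val + 1 = a.val) : A.Adj (D.P p a) (D.P p b) := by
  rcases hab with hab | hab
  · have := h.padj p hp a.val (by have := b.2; omega)
    have e : (⟨a.val + 1, by have := b.2; omega⟩ : Fin Vr) = b := Fin.ext hab
    rw [e] at this
    exact this
  · have := h.padj p hp b.val (by have := a.2; omega)
    have e : (⟨b.val + 1, by have := a.2; omega⟩ : Fin Vr) = a := Fin.ext hab
    rw [e] at this
    exact this.symm

theorem free_insert (D : LinkData F H PP Vr) (U : Finset PP) (p : PP) (i : Fin Vr) :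
    Free D (insert p U) (D.P p i) := by
  intro q hq j h
  exact hq (Finset.mem_insert.2 (Or.inl (linkInj D h).1.symm))

theorem card_piece_le {X X' : Finset V} (D : LinkData F H PP Vr) (p : PP)
    (h : ∀ z ∈ X', z ∈ X ∨ ∃ k, z = D.P p k) : X'.card ≤ X.card + Vr * 1 := by
  have h1 : X' ⊆ X ∪ Finset.univ.image (fun k => D.P p k) := by
    intro z hz
    rcases h z hz with h1 | ⟨k, h1⟩
    · exact Finset.mem_union_left _ h1
    · exact Finset.mem_union_right _ (Finset.mem_image.2 ⟨k, Finset.mem_univ _, h1.symm⟩)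
  refine (Finset.card_le_card h1).trans ((Finset.card_union_le _ _).trans ?_)
  refine Nat.add_le_add_left ?_ _
  refine Finset.card_image_le.trans ?_
  simp

/-- trimming inside a piece from an end to the vertex `a` -/
theorem trimP (h : Core D A X Xa K U) {p : PP} (hp : p ∉ U) (e a : Fin Vr)
    (hd : ldg A (D.P p e) ≤ 1) :
    ∃ A' X', Core D A' X' Xa K (insert p U) ∧ Cost F Vr 1 0 A X K A' X' K ∧
      lval A' X' = lval A X ∧ D.P p a ∉ X' ∧ ldg A' (D.P p a) ≤ 1 ∧
      (e ≠ a → ldg A' (D.P p a) + 1 ≤ ldg A (D.P p a)) ∧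
      (∀ x y, A'.Adj x y → A.Adj x y) ∧ (∀ z ∈ X', z ∈ X ∨ ∃ k, z = D.P p k) := by
  by_cases hea : e = a
  · subst hea
    exact ⟨A, X, h.monoU (Finset.subset_insert _ _), (Cost.refl A X K).le (by omega) le_rfl, rfl,
      h.pX p hp e, hd, fun h1 => absurd rfl h1, fun _ _ h => h, fun z hz => Or.inl hz⟩
  · obtain ⟨m, g, hm, g0, gm, gadj, ginj⟩ := seg hea
    obtain ⟨A', X', h1, h2, h3, h4, h5, h6, h7, h8⟩ := trim (U := insert p U) m
      (fun k => D.P p (g k)) A X K (h.monoU (Finset.subset_insert _ _))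
      (fun k hk => piece_adj h hp (gadj k hk))
      (fun a b ha hb hab => ginj a b ha hb (linkInj D hab).2)
      (fun k _ => h.pX p hp _) (fun k _ => free_insert D U p _) (by
        show ldg A (D.P p (g 0)) ≤ 1
        rw [g0]
        exact hd)
    have h8' : ∀ z ∈ X', z ∈ X ∨ ∃ k, z = D.P p k := by
      intro z hz
      rcases h8 z hz with h9 | ⟨k, _, h9⟩
      · exact Or.inl h9
      · exact Or.inr ⟨_, h9⟩
    simp only [gm] at h3 h4 h5
    refine ⟨A', X', h1, ⟨h7, card_piece_le D p h8', by omega, ?_⟩, h2, h3, h4,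
      fun _ => h5 hm, h6, h8'⟩
    exact (hc_mono h6).trans (by omega)

/-- the end `u` is moved through the piece `p` to its vertex `j` -/
theorem move (h : Core D A X Xa K U) {p : PP} (hp : p ∉ U) {u : V} (huX : u ∉ X)
    (hu : ldg A u ≤ 1) (hf : Free D U u) {i j : Fin Vr} (hij : i ≠ j)
    (hH : H.Adj u (D.P p i)) :
    ∃ A' X' K', Core D A' X' Xa K' (insert p U) ∧ Cost F Vr 1 1 A X K A' X' K' ∧
      lval A' X' = lval A X ∧ D.P p j ∉ X' ∧ ldg A' (D.P p j) ≤ 1 ∧
      ∀ z, z ≠ u → (∀ k, z ≠ D.P p k) → (z ∉ X → z ∉ X') ∧ ∀ y, A'.Adj z y → A.Adj z y := by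
  obtain ⟨m, g, hm, g0, gm, gadj, ginj⟩ := seg hij
  obtain ⟨m, rfl⟩ : ∃ m', m = m' + 1 := ⟨m - 1, by omega⟩
  have hpU : p ∈ insert p U := Finset.mem_insert_self _ _
  have hadj01 : A.Adj (D.P p (g 0)) (D.P p (g 1)) := piece_adj h hp (gadj 0 (by omega))
  have h1 := (h.monoU (Finset.subset_insert p U)).cut hpU (g 0) (g 1)
  have hu0 : u ≠ D.P p (g 0) := hf p hp _
  have hfu' : Free D (insert p U) u := hf.mono (Finset.subset_insert _ _)
  have hnA : ¬ (delE A (D.P p (g 0)) (D.P p (g 1))).Adj u (D.P p (g 0)) := by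
    intro h2
    have h3 := h.pH p hp (g 0) u h2.1.symm
    refine D.hFH _ _ h3 ?_
    rw [g0]
    exact hH.symm
  have hd0 : ldg (delE A (D.P p (g 0)) (D.P p (g 1))) (D.P p (g 0)) ≤ 1 := by
    have h2 := ldg_delE hadj01 (D.P p (g 0))
    rw [if_pos rfl, if_neg hadj01.ne] at h2
    have h3 := h.deg (D.P p (g 0))
    omega
  have h2 := h1.join hu0 huX (h.pX p hp _) ((ldg_delE_le _ _ _ _).trans hu) hd0
    (by rw [g0]; exact hH) hnA hfu' (free_insert D U p _)
  have hne : ∀ k, k ≤ m → D.P p (g (k + 1)) ≠ D.P p (g 0) := by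
    intro k hk h3
    have := ginj (k + 1) 0 (by omega) (by omega) (linkInj D h3).2
    omega
  have hd1 : ldg (addE (delE A (D.P p (g 0)) (D.P p (g 1))) u (D.P p (g 0)) hu0)
      (D.P p (g 1)) ≤ 1 := by
    rw [ldg_addE hu0 hnA, if_neg (fun h3 => hf p hp (g 1) h3.symm), if_neg (hne 0 (by omega))]
    have h4 := ldg_delE hadj01 (D.P p (g 1))
    rw [if_neg (hne 0 (by omega)), if_pos rfl] at h4
    have h3 := h.deg (D.P p (g 1))
    omega
  obtain ⟨A', X', k1, k2, k3, k4, -, k6, k7, k8⟩ := trim (U := insert p U) m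
    (fun k => D.P p (g (k + 1)))
    (addE (delE A (D.P p (g 0)) (D.P p (g 1))) u (D.P p (g 0)) hu0) X _ h2
    (fun k hk => Or.inl ⟨piece_adj h hp (gadj (k + 1) (by omega)),
      fun h3 => hne k (by omega) h3.1, fun h3 => hne (k + 1) (by omega) h3.2⟩)
    (fun a b ha hb hab => by
      have := ginj (a + 1) (b + 1) (by omega) (by omega) (linkInj D hab).2
      omega)
    (fun k _ => h.pX p hp _) (fun k _ => free_insert D U p _) hd1
  simp only [gm] at k3 k4
  have k8' : ∀ z ∈ X', z ∈ X ∨ ∃ k, z = D.P p k := by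
    intro z hz
    rcases k8 z hz with h9 | ⟨k, _, h9⟩
    · exact Or.inl h9
    · exact Or.inr ⟨_, h9⟩
  refine ⟨A', X', _, k1, ⟨k7, card_piece_le D p k8', ?_, ?_⟩, ?_, k3, k4, ?_⟩
  · refine (Finset.card_union_le _ _).trans (Nat.add_le_add_left ?_ _)
    exact Finset.card_le_two
  · refine (hc_mono k6).trans ((hc_addE hu0).trans (Nat.add_le_add ?_ le_rfl))
    exact hc_mono fun a b hab => hab.1
  · rw [k2, lval_addE hu0 hnA, lval_delE hadj01]
  · intro z hzu hzp
    refine ⟨fun hz hz' => ?_, fun y hy => ?_⟩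
    · rcases k8' z hz' with h9 | ⟨k, h9⟩
      · exact hz h9
      · exact hzp k h9
    · rcases k6 z y hy with h9 | ⟨h9, _⟩ | ⟨h9, _⟩
      · exact h9.1
      · exact absurd h9 hzu
      · exact absurd h9 (hzp _)

end Trim

end Link

end Pool.Agent.LongCyc.Dense
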