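import Mathlib
import Pool.Agent.LongCyc.Dense.LinkMove

/-!
# Linking lemma: connecting two ends
-/

set_option autoImplicit false
set_option linter.unusedSectionVars false

namespace Pool.Agent.LongCyc.Dense

namespace Link

open Finset

variable {V : Type*} [Fintype V] [DecidableEq V]
variable {F H : SimpleGraph V} [DecidableRel F.Adj] [DecidableRel H.Adj] {PP : Type*}
  [Fintype PP] [DecidableEq PP] {Vr : ℕ}

section

variable {D : LinkData F H PP Vr} {Xa : Finset V} {U : Finset PP}
variable {A : SimpleGraph V} {X : Finset V} {K : Finset (V × V)}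

/-- an edge of `H` at an intact piece is not yet in `A` -/
theorem not_adj_of_H (h : Core D A X Xa K U) {p : PP} (hp : p ∉ U) {u : V} {i : Fin Vr}
    (hH : H.Adj u (D.P p i)) : ¬ A.Adj u (D.P p i) := by
  intro h2
  exact D.hFH _ _ (h.pH p hp i u h2.symm) hH.symm

/-- last step, the target is an end with a partner in `p` -/
theorem finB1 (h : Core D A X Xa K U) {p : PP} (hp : p ∉ U) {u v : V} (huX : u ∉ X)
    (hu : ldg A u ≤ 1) (hf : Free D U u) {i j : Fin Vr} (hH : H.Adj u (D.P p i)) (hvX : v ∉ X)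
    (hv : ldg A v ≤ 1) (hfv : Free D U v) (hHv : H.Adj v (D.P p j)) (huv : u ≠ v) :
    ∃ A' X' K', Core D A' X' Xa K' (insert p U) ∧ Cost F Vr 1 2 A X K A' X' K' ∧
      lval A' X' = lval A X + 2 := by
  have hij : i ≠ j := by
    rintro rfl
    exact huv (H_unique D hH.symm hHv.symm)
  obtain ⟨A1, X1, K1, h1, h2, h3, h4, h5, h6⟩ := move h hp huX hu hf hij hH
  obtain ⟨h7, h8⟩ := h6 v huv.symm (hfv p hp)
  have hne : D.P p j ≠ v := fun h9 => hfv p hp j h9.symm
  have hnA : ¬ A1.Adj (D.P p j) v := by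
    intro h9
    exact not_adj_of_H h hp hHv (h8 _ h9.symm)
  refine ⟨addE A1 (D.P p j) v hne, X1, K1, h1.join hne h4 (h7 hvX) h5
    ((ldg_mono h8).trans hv) hHv.symm hnA (free_insert D U p j)
    (hfv.mono (Finset.subset_insert _ _)), ⟨h2.XX, h2.cX, h2.cK, ?_⟩, ?_⟩
  · have h9 := hc_addE (F := F) (A := A1) hne
    have h10 := h2.cH
    omega
  · rw [lval_addE hne hnA, h3]

/-- last step, the target is an end in the piece `p` -/
theorem finB2 (h : Core D A X Xa K U) {p : PP} (hp : p ∉ U) {u : V} (huX : u ∉ X)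
    (hu : ldg A u ≤ 1) (hf : Free D U u) {i e : Fin Vr} (hH : H.Adj u (D.P p i))
    (hv : ldg A (D.P p e) ≤ 1) :
    ∃ A' X' K', Core D A' X' Xa K' (insert p U) ∧ Cost F Vr 1 2 A X K A' X' K' ∧
      lval A' X' = lval A X + 2 := by
  obtain ⟨A1, X1, h1, h2, h3, h4, h5, -, h7, h8⟩ := trimP h hp e i hv
  have hne : u ≠ D.P p i := hf p hp i
  have hnA : ¬ A1.Adj u (D.P p i) := fun h9 => not_adj_of_H h hp hH (h7 _ _ h9)
  have huX1 : u ∉ X1 := by
    intro h9
    rcases h8 u h9 with h10 | ⟨k, h10⟩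
    · exact huX h10
    · exact hf p hp k h10
  refine ⟨addE A1 u (D.P p i) hne, X1, K, h1.join hne huX1 h4
    ((ldg_mono fun y hy => h7 _ _ hy).trans hu) h5 hH hnA
    (hf.mono (Finset.subset_insert _ _)) (free_insert D U p i), ⟨h2.XX, h2.cX, h2.cK, ?_⟩, ?_⟩
  · have h9 := hc_addE (F := F) (A := A1) hne
    have h10 := h2.cH
    omega
  · rw [lval_addE hne hnA, h3]

/-- a whole piece is deleted -/
theorem finB3 (h : Core D A X Xa K U) {p : PP} (hp : p ∉ U) {e e' : Fin Vr} (hee : e ≠ e')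
    (hv : ldg A (D.P p e) ≤ 1) (hv' : ldg A (D.P p e') ≤ 1) :
    ∃ A' X' K', Core D A' X' Xa K' (insert p U) ∧ Cost F Vr 1 2 A X K A' X' K' ∧
      lval A' X' = lval A X + 2 := by
  obtain ⟨A1, X1, h1, h2, h3, h4, -, h6, h7, h8⟩ := trimP h hp e e' hv
  have h9 : ldg A1 (D.P p e') = 0 := by
    have := h6 hee
    omega
  have h8' : ∀ z ∈ insert (D.P p e') X1, z ∈ X ∨ ∃ k, z = D.P p k := by
    intro z hz
    rcases Finset.mem_insert.1 hz with h10 | h10
    · exact Or.inr ⟨_, h10⟩
    · exact h8 z h10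
  refine ⟨A1, insert (D.P p e') X1, K, h1.del0 h9 (free_insert D U p e'),
    ⟨h2.XX.trans (Finset.subset_insert _ _), card_piece_le D p h8', h2.cK, ?_⟩, ?_⟩
  · have := h2.cH
    omega
  · rw [lval_insert _ h4, h3]

variable [DecidableRel D.pg.Adj]

/-- the end `u` is moved along a path of pieces -/
theorem path_move : ∀ (l : List PP) (q : PP) (A : SimpleGraph V) (X : Finset V)
    (K : Finset (V × V)) (U : Finset PP) (u : V) (i : Fin Vr), Core D A X Xa K U → u ∉ X →
    ldg A u ≤ 1 → Free D U u → H.Adj u (D.P q i) → (q :: l).Nodup → (∀ r ∈ q :: l, r ∉ U) →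
    (q :: l).IsChain D.pg.Adj →
    ∃ A' X' K' U' u' i', Core D A' X' Xa K' U' ∧ (q :: l).getLast (by simp) ∉ U' ∧
      (∀ r ∈ U', r ∈ U ∨ r ∈ q :: l) ∧ U ⊆ U' ∧ U'.card ≤ U.card + l.length ∧ u' ∉ X' ∧
      ldg A' u' ≤ 1 ∧ Free D U' u' ∧ H.Adj u' (D.P ((q :: l).getLast (by simp)) i') ∧
      lval A' X' = lval A X ∧ Cost F Vr l.length l.length A X K A' X' K' ∧
      (∀ z, z ≠ u → (∀ r ∈ q :: l, r ≠ (q :: l).getLast (by simp) → ∀ k, z ≠ D.P r k) →
        (z ∉ X → z ∉ X') ∧ (∀ y, A'.Adj z y → A.Adj z y) ∧ u' ≠ z) := by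
  intro l
  induction l with
  | nil =>
    intro q A X K U u i h huX hu hf hH hnd hU hch
    refine ⟨A, X, K, U, u, i, h, ?_, fun r hr => Or.inl hr, Finset.Subset.refl _, by simp, huX, hu,
      hf, ?_, rfl, Cost.refl _ _ _, fun z hz _ => ⟨fun h => h, fun _ h => h, hz.symm⟩⟩
    · exact hU q (by simp)
    · exact hH
  | cons r l ih =>
    intro q A X K U u i h huX hu hf hH hnd hU hch
    have hqU : q ∉ U := hU q (by simp)
    have hrU : r ∉ U := hU r (by simp)
    have hch' := List.isChain_cons_cons.1 hch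
    obtain ⟨hqr, a, b, hab⟩ := hch'.1
    have hia : i ≠ a := by
      rintro rfl
      exact hf r hrU b (H_unique D hH.symm hab)
    obtain ⟨A1, X1, K1, h1, h2, h3, h4, h5, h6⟩ := move h hqU huX hu hf hia hH
    have hnd' := List.nodup_cons.1 hnd
    obtain ⟨A', X', K', U', u', i', k1, k2, k3, k4, k5, k6, k7, k8, k9, k10, k11, k12⟩ :=
      ih r A1 X1 K1 (insert q U) (D.P q a) b h1 h4 h5 (free_insert D U q a) hab hnd'.2
        (by
          intro s hs hs'
          rcases Finset.mem_insert.1 hs' with hs' | hs'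
          · exact hnd'.1 (hs' ▸ hs)
          · exact hU s (List.mem_cons_of_mem _ hs) hs')
        hch'.2
    have hlast : (q :: r :: l).getLast (by simp) = (r :: l).getLast (by simp) :=
      List.getLast_cons (by simp)
    refine ⟨A', X', K', U', u', i', k1, ?_, ?_, (Finset.subset_insert _ _).trans k4, ?_, k6, k7, k8,
      ?_, k10.trans h3, ?_, ?_⟩
    · rw [hlast]
      exact k2
    · intro s hs
      rcases k3 s hs with hs' | hs'
      · rcases Finset.mem_insert.1 hs' with hs' | hs'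
        · exact Or.inr (hs' ▸ List.mem_cons_self)
        · exact Or.inl hs'
      · exact Or.inr (List.mem_cons_of_mem _ hs')
    · have := Finset.card_insert_le q U
      simp only [List.length_cons]
      omega
    · rw [hlast]
      exact k9
    · have := h2.trans k11
      refine this.le ?_ ?_ <;> simp only [List.length_cons] <;> omega
    · intro z hz hz'
      have hzq : ∀ k, z ≠ D.P q k := by
        refine hz' q (by simp) ?_
        intro h7
        apply hnd'.1
        rw [h7, hlast]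
        exact List.getLast_mem _
      obtain ⟨h7, h8⟩ := h6 z hz hzq
      obtain ⟨h9, h10, h11⟩ := k12 z (hzq a) (by
        intro s hs hs'
        refine hz' s (List.mem_cons_of_mem _ hs) ?_
        rw [hlast]
        exact hs')
      exact ⟨fun h => h9 (h7 h), fun y hy => h8 y (h10 y hy), h11⟩

end

end Link

end Pool.Agent.LongCyc.Dense
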