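import Mathlib
import Pool.Agent.LongCyc.Dense.LinkPath

/-!
# Linking lemma: the connecting step
-/

set_option autoImplicit false
set_option linter.unusedSectionVars false

namespace Pool.Agent.LongCyc.Dense

namespace Link

open Finset

variable {V : Type*} [Fintype V] [DecidableEq V]
variable {F H : SimpleGraph V} [DecidableRel F.Adj] [DecidableRel H.Adj] {PP : Type*}
  [Fintype PP] [DecidableEq PP] {Vr : ℕ}

/-- `v` or its partner lies in an intact piece -/
def Ready (D : LinkData F H PP Vr) (U : Finset PP) (v : V) : Prop :=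
  (∃ p i, p ∉ U ∧ v = D.P p i) ∨ ∃ p i, p ∉ U ∧ H.Adj v (D.P p i)

theorem Ready.cases {D : LinkData F H PP Vr} {U : Finset PP} {v : V} (h : Ready D U v) :
    (∃ p i, p ∉ U ∧ v = D.P p i) ∨ (Free D U v ∧ ∃ p i, p ∉ U ∧ H.Adj v (D.P p i)) := by
  by_cases hf : Free D U v
  · rcases h with ⟨p, i, hp, h⟩ | h
    · exact absurd h (hf p hp i)
    · exact Or.inr ⟨hf, h⟩
  · unfold Free at hf
    push Not at hf
    obtain ⟨q, hq, i, h1⟩ := hf
    exact Or.inl ⟨q, i, hq, h1⟩

variable {D : LinkData F H PP Vr} {Xa : Finset V} {U : Finset PP}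
variable {A : SimpleGraph V} {X : Finset V} {K : Finset (V × V)}
variable [DecidableRel D.pg.Adj]

/-- paths of intact pieces between intact pieces -/
def Paths (D : LinkData F H PP Vr) [DecidableRel D.pg.Adj] (U : Finset PP) (N : ℕ) : Prop :=
  ∀ p q, p ∉ U → q ∉ U → ∃ l : List PP, l.Nodup ∧ l.head? = some p ∧ l.getLast? = some q ∧
    l.IsChain D.pg.Adj ∧ (∀ r ∈ l, r ∉ U) ∧ l.length ≤ N

/-- connecting, `v` has a partner in an intact piece -/
theorem connectII (h : Core D A X Xa K U) {N : ℕ} (hpath : Paths D U N) {v v' : V}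
    (hne : v ≠ v') (hv : v ∉ X) (hv' : v' ∉ X) (hd : ldg A v ≤ 1) (hd' : ldg A v' ≤ 1)
    (hf : Free D U v) {p : PP} {i : Fin Vr} (hp : p ∉ U) (hH : H.Adj v (D.P p i))
    (hr' : Ready D U v') :
    ∃ A' X' K' U', Core D A' X' Xa K' U' ∧ Cost F Vr N (N + 1) A X K A' X' K' ∧
      lval A' X' = lval A X + 2 ∧ U ⊆ U' ∧ U'.card ≤ U.card + N := by
  -- the port of `v'`
  obtain ⟨p', hp', hport⟩ : ∃ p', p' ∉ U ∧ ((∃ e, v' = D.P p' e) ∨
      (Free D U v' ∧ ∃ j, H.Adj v' (D.P p' j))) := by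
    rcases hr'.cases with ⟨q, e, hq, h1⟩ | ⟨h1, q, j, hq, h2⟩
    · exact ⟨q, hq, Or.inl ⟨e, h1⟩⟩
    · exact ⟨q, hq, Or.inr ⟨h1, j, h2⟩⟩
  obtain ⟨l, hl1, hl2, hl3, hl4, hl5, hl6⟩ := hpath p p' hp hp'
  obtain ⟨l, rfl⟩ : ∃ l', l = p :: l' := by
    cases l with
    | nil => simp at hl2
    | cons a l =>
      simp only [List.head?_cons, Option.some.injEq] at hl2
      exact ⟨l, by rw [hl2]⟩
  have hlast : (p :: l).getLast (by simp) = p' := by
    rw [List.getLast?_eq_getLast_of_ne_nil (by simp)] at hl3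
    exact Option.some.inj hl3
  obtain ⟨A1, X1, K1, U1, u, i', k1, k2, k3, k4, k5, k6, k7, k8, k9, k10, k11, k12⟩ :=
    path_move l p A X K U v i h hv hd hf hH hl1 hl5 hl4
  rw [hlast] at k2 k9
  obtain ⟨m1, m2, m3⟩ := k12 v' hne.symm (by
    intro r hr hrl k hk
    rw [hlast] at hrl
    rcases hport with ⟨e, he⟩ | ⟨hf', _⟩
    · exact hrl (linkInj D (hk.symm.trans he)).1
    · exact hf' r (hl5 r hr) k hk)
  have hfin : ∃ A' X' K', Core D A' X' Xa K' (insert p' U1) ∧ Cost F Vr 1 2 A1 X1 K1 A' X' K' ∧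
      lval A' X' = lval A1 X1 + 2 := by
    rcases hport with ⟨e, he⟩ | ⟨hf', j, hj⟩
    · refine finB2 (e := e) k1 k2 k6 k7 k8 k9 ?_
      rw [← he]
      exact (ldg_mono m2).trans hd'
    · exact finB1 k1 k2 k6 k7 k8 k9 (m1 hv') ((ldg_mono m2).trans hd') (hf'.mono k4) hj m3
  obtain ⟨A', X', K', n1, n2, n3⟩ := hfin
  simp only [List.length_cons] at hl6
  refine ⟨A', X', K', insert p' U1, n1, (k11.trans n2).le (by omega) (by omega), ?_,
    k4.trans (Finset.subset_insert _ _), ?_⟩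
  · rw [n3, k10]
  · have := Finset.card_insert_le p' U1
    omega

/-- connecting, both ends lie in intact pieces -/
theorem connectI (h : Core D A X Xa K U) {N : ℕ} (hpath : Paths D U N) {p p' : PP} {e e' : Fin Vr}
    (hne : D.P p e ≠ D.P p' e')
    (hd : ldg A (D.P p e) ≤ 1) (hd' : ldg A (D.P p' e') ≤ 1) (hp : p ∉ U) (hp' : p' ∉ U) :
    ∃ A' X' K' U', Core D A' X' Xa K' U' ∧ Cost F Vr N (N + 1) A X K A' X' K' ∧
      lval A' X' = lval A X + 2 ∧ U ⊆ U' ∧ U'.card ≤ U.card + N := by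
  obtain ⟨l, hl1, hl2, hl3, hl4, hl5, hl6⟩ := hpath p p' hp hp'
  obtain ⟨l, rfl⟩ : ∃ l', l = p :: l' := by
    cases l with
    | nil => simp at hl2
    | cons a l =>
      simp only [List.head?_cons, Option.some.injEq] at hl2
      exact ⟨l, by rw [hl2]⟩
  simp only [List.length_cons] at hl6
  by_cases hpp : p = p'
  · subst hpp
    have hee : e ≠ e' := fun h1 => hne (by rw [h1])
    obtain ⟨A', X', K', n1, n2, n3⟩ := finB3 h hp hee hd hd'
    refine ⟨A', X', K', insert p U, n1, n2.le (by omega) (by omega), n3,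
      Finset.subset_insert _ _, ?_⟩
    have := Finset.card_insert_le p U
    omega
  · have hlast : (p :: l).getLast (by simp) = p' := by
      rw [List.getLast?_eq_getLast_of_ne_nil (by simp)] at hl3
      exact Option.some.inj hl3
    cases l with
    | nil => exact absurd hlast hpp
    | cons r l =>
      have hch := List.isChain_cons_cons.1 hl4
      obtain ⟨hpr, a, b, hab⟩ := hch.1
      have hnd := List.nodup_cons.1 hl1
      obtain ⟨A0, X0, t1, t2, t3, t4, t5, -, t7, t8⟩ := trimP h hp e a hd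
      have hlast' : (r :: l).getLast (by simp) = p' := by
        rw [← hlast]
        exact (List.getLast_cons (by simp)).symm
      obtain ⟨A1, X1, K1, U1, u, i', k1, k2, k3, k4, k5, k6, k7, k8, k9, k10, k11, k12⟩ :=
        path_move l r A0 X0 K (insert p U) (D.P p a) b t1 t4 t5 (free_insert D U p a) hab hnd.2
          (by
            intro s hs hs'
            rcases Finset.mem_insert.1 hs' with hs' | hs'
            · exact hnd.1 (hs' ▸ hs)
            · exact hl5 s (List.mem_cons_of_mem _ hs) hs')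
          hch.2
      rw [hlast'] at k2 k9
      obtain ⟨m1, m2, m3⟩ := k12 (D.P p' e') (fun h1 => hpp (linkInj D h1).1.symm) (by
        intro s hs hsl k hk
        rw [hlast'] at hsl
        exact hsl (linkInj D hk).1.symm)
      have hd1 : ldg A1 (D.P p' e') ≤ 1 :=
        (ldg_mono fun y hy => t7 _ _ (m2 y hy)).trans hd'
      obtain ⟨A', X', K', n1, n2, n3⟩ := finB2 k1 k2 k6 k7 k8 k9 hd1
      simp only [List.length_cons] at hl6
      refine ⟨A', X', K', insert p' U1, n1, ((t2.trans k11).trans n2).le (by omega) (by omega), ?_,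
        ((Finset.subset_insert _ _).trans k4).trans (Finset.subset_insert _ _), ?_⟩
      · rw [n3, k10, t3]
      · have h1 := Finset.card_insert_le p' U1
        have h2 := Finset.card_insert_le p U
        omega

/-- the connecting step -/
theorem connect (h : Core D A X Xa K U) {N : ℕ} (hpath : Paths D U N) {v v' : V}
    (hne : v ≠ v') (hv : v ∉ X) (hv' : v' ∉ X) (hd : ldg A v ≤ 1) (hd' : ldg A v' ≤ 1)
    (hr : Ready D U v) (hr' : Ready D U v') :
    ∃ A' X' K' U', Core D A' X' Xa K' U' ∧ Cost F Vr N (N + 1) A X K A' X' K' ∧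
      lval A' X' = lval A X + 2 ∧ U ⊆ U' ∧ U'.card ≤ U.card + N := by
  rcases hr.cases with ⟨p, e, hp, rfl⟩ | ⟨hf, p, i, hp, hH⟩
  · rcases hr'.cases with ⟨p', e', hp', rfl⟩ | ⟨hf', p', i, hp', hH'⟩
    · exact connectI h hpath hne hd hd' hp hp'
    · exact connectII h hpath hne.symm hv' hv hd' hd hf' hp' hH' hr
  · exact connectII h hpath hne hv hv' hd hd' hf hp hH hr'

end Link

end Pool.Agent.LongCyc.Dense
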