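import Mathlib
import Pool.Agent.LongCyc.Dense.LinkConnect
import Pool.Agent.LongCyc.Dense.Core

/-!
# Linking lemma: the process
-/

set_option autoImplicit false
set_option linter.unusedSectionVars false

namespace Pool.Agent.LongCyc.Dense

namespace Link

open Finset

variable {V : Type*} [Fintype V] [DecidableEq V]
variable {F H : SimpleGraph V} [DecidableRel F.Adj] [DecidableRel H.Adj] {PP : Type*}
  [Fintype PP] [DecidableEq PP] {Vr : ℕ}

/-- invariants of the process; `t` = number of connecting steps and deletions of isolated vertices,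
`δ` = half of the number of missing degrees -/
structure Inv (D : LinkData F H PP Vr) [DecidableRel D.pg.Adj] (η : ℝ) (N M t δ : ℕ)
    (A : SimpleGraph V) (X Xa : Finset V) (K : Finset (V × V)) (U W : Finset PP)
    (Xc : Finset V) : Prop where
  core : Core D A X Xa K U
  WU : W ⊆ U
  adm : AdmMax D.pg η U W
  cU : (U \ W).card ≤ t * N
  cls : ∀ v ∈ X, v ∉ Xa → v ∈ Xc ∨ ∃ p i, p ∈ U ∧ H.Adj v (D.P p i)
  alpha : ∀ v ∈ Xa, ∀ p i, ¬ H.Adj v (D.P p i)
  cXc : Xc.card ≤ t * (Vr * N)
  cK : K.card ≤ 2 * (t * N)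
  cH : hc F A ≤ 2 * (t * (N + 1))
  val : lval A X + 2 * δ = 2 * Fintype.card V
  tM : t + δ ≤ M

section

variable {D : LinkData F H PP Vr} [DecidableRel D.pg.Adj] {η : ℝ} {N M t δ : ℕ}
    {A : SimpleGraph V} {X Xa : Finset V} {K : Finset (V × V)} {U W : Finset PP}
    {Xc : Finset V}

/-- sum of the degrees over the remaining vertices -/
theorem lval_eq (h : Core D A X Xa K U) :
    lval A X = 2 * X.card + ∑ v ∈ univ \ X, ldg A v := by
  unfold lval
  rw [← Finset.sum_sdiff (Finset.subset_univ X)]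
  have h1 : ∑ v ∈ X, ldg A v = 0 :=
    Finset.sum_eq_zero fun v hv => ldg_eq_zero_iff.2 (h.iso v hv)
  omega

theorem card_sdiff_univ (X : Finset V) : (univ \ X).card + X.card = Fintype.card V := by
  rw [Finset.card_sdiff_of_subset (Finset.subset_univ X), Finset.card_univ]
  have := Finset.card_le_univ X
  omega

/-- if something is missing there is an end -/
theorem exists_end (h : Inv D η N M t δ A X Xa K U W Xc) (hδ : 0 < δ) :
    ∃ v, v ∉ X ∧ ldg A v ≤ 1 := by
  by_contra hcon
  push Not at hcon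
  have h1 := lval_eq h.core
  have h2 := card_sdiff_univ X
  have h3 : ∑ v ∈ univ \ X, ldg A v = ∑ v ∈ univ \ X, 2 := by
    refine Finset.sum_congr rfl fun v hv => ?_
    have h4 := hcon v (Finset.mem_sdiff.1 hv).2
    have h5 := h.core.deg v
    omega
  rw [Finset.sum_const, smul_eq_mul] at h3
  have h4 := h.val
  omega

/-- there is never exactly one end of degree one -/
theorem exists_second_end (h : Inv D η N M t δ A X Xa K U W Xc) {v : V} (hv : v ∉ X)
    (hd : ldg A v = 1) : ∃ v', v' ≠ v ∧ v' ∉ X ∧ ldg A v' ≤ 1 := by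
  by_contra hcon
  push Not at hcon
  have h1 := lval_eq h.core
  have h2 := card_sdiff_univ X
  have hvm : v ∈ univ \ X := Finset.mem_sdiff.2 ⟨Finset.mem_univ _, hv⟩
  have h3 : ∑ w ∈ (univ \ X).erase v, ldg A w = ∑ w ∈ (univ \ X).erase v, 2 := by
    refine Finset.sum_congr rfl fun w hw => ?_
    have hw' := Finset.mem_erase.1 hw
    have h4 := hcon w hw'.1 (Finset.mem_sdiff.1 hw'.2).2
    have h5 := h.core.deg w
    omega
  rw [Finset.sum_const, smul_eq_mul, Finset.card_erase_of_mem hvm] at h3
  rw [← Finset.add_sum_erase _ _ hvm, hd, h3] at h1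
  have h4 := h.val
  have h5 : 0 < (univ \ X).card := Finset.card_pos.2 ⟨v, hvm⟩
  omega

/-- the numerical hypotheses of the linking lemma -/
structure Hyp (D : LinkData F H PP Vr) [DecidableRel D.pg.Adj] (s0 η : ℝ) (M k0 : ℕ) : Prop where
  hη : 0 < η
  hs0 : 0 ≤ s0
  hexp : Expands D.pg s0 η
  hk0 : (Fintype.card PP : ℝ) ≤ (1 + η / 2) ^ k0
  hsmall : 100 * max s0 (2 / η * (M * (2 * k0 + 2))) ≤ Fintype.card PP
  hPP : 100 ≤ Fintype.card PP

theorem Inv.card_W_le {s0 : ℝ} {k0 : ℕ} (hy : Hyp D s0 η M k0)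
    (h : Inv D η (2 * k0 + 2) M t δ A X Xa K U W Xc) :
    (W.card : ℝ) ≤ max s0 (2 / η * (M * (2 * k0 + 2))) := by
  refine (adm_card_le D.pg hy.hη hy.hexp h.adm.1).trans (max_le_max le_rfl ?_)
  have hη := hy.hη
  have h1 : (U \ W).card ≤ M * (2 * k0 + 2) :=
    h.cU.trans (Nat.mul_le_mul_right _ (by have := h.tM; omega))
  have h2 : ((U \ W).card : ℝ) ≤ M * (2 * k0 + 2) := by exact_mod_cast h1
  exact mul_le_mul_of_nonneg_left h2 (by positivity)

theorem Inv.paths {s0 : ℝ} {k0 : ℕ} (hy : Hyp D s0 η M k0)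
    (h : Inv D η (2 * k0 + 2) M t δ A X Xa K U W Xc) : Paths D U (2 * k0 + 2) := by
  intro p q hp hq
  have h1 := h.card_W_le hy
  have h2 : 100 * W.card ≤ Fintype.card PP := by
    have := hy.hsmall
    have h3 : (100 : ℝ) * W.card ≤ Fintype.card PP := by linarith
    exact_mod_cast h3
  obtain ⟨l, l1, l2, l3, l4, l5, l6⟩ := admMax_path D.pg hy.hη h.adm h2 k0 hy.hk0 p q
    ⟨hp, fun h3 => hp (h.WU h3)⟩ ⟨hq, fun h3 => hq (h.WU h3)⟩ hy.hPP
  exact ⟨l, l1, l2, l3, l4, fun r hr => (l5 r hr).1, l6⟩

/-- an isolated vertex is not in an intact piece -/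
theorem free_of_isolated (h : Core D A X Xa K U) {v : V} (hv : ldg A v = 0) : Free D U v := by
  rintro q hq i rfl
  have hVr := D.hVr
  have hi := i.2
  by_cases h1 : i.val + 1 < Vr
  · exact ldg_eq_zero_iff.1 hv _ (piece_adj h hq (b := ⟨i.val + 1, h1⟩) (Or.inl rfl))
  · exact ldg_eq_zero_iff.1 hv _ (piece_adj h hq (b := ⟨i.val - 1, by omega⟩)
      (Or.inr (by show i.val - 1 + 1 = i.val; omega)))

theorem adm_union {G : SimpleGraph PP} [DecidableRel G.Adj] {U W : Finset PP}
    (h : AdmMax G η U W) : AdmMax G η (U ∪ W) W := by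
  have e : ∀ W', W ⊆ W' → W' ∪ (U ∪ W) = W' ∪ U := by
    intro W' hW'
    rw [Finset.union_comm U W, ← Finset.union_assoc, Finset.union_eq_left.2 hW']
  refine ⟨⟨h.1.1, ?_⟩, ?_⟩
  · rw [e W (Finset.Subset.refl _)]
    exact h.1.2
  · intro W' hW' h1
    refine h.2 W' hW' ⟨h1.1, ?_⟩
    have := h1.2
    rw [e W' hW'] at this
    exact this

/-- one step of the process -/
theorem step (hN : 1 ≤ N) (hpath : Paths D U N)
    (h : Inv D η N M t δ A X Xa K U W Xc) (hδ : 0 < δ) :
    ∃ t' δ' A' X' Xa' K' U' W' Xc', Inv D η N M t' δ' A' X' Xa' K' U' W' Xc' ∧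
      (δ' < δ ∨ (δ' = δ ∧ X.card < X'.card)) := by
  have hVr := D.hVr
  by_cases hc0 : ∃ v, v ∉ X ∧ ldg A v = 0
  · -- delete an isolated vertex
    obtain ⟨v, hv, hd⟩ := hc0
    have hval := h.val
    have htM := h.tM
    refine ⟨t + 1, δ - 1, A, insert v X, Xa, K, U, W, insert v Xc,
      ⟨h.core.del0 hd (free_of_isolated h.core hd), h.WU, h.adm, h.cU.trans
        (Nat.mul_le_mul_right _ (by omega)), ?_, h.alpha, ?_, ?_, ?_, ?_, by omega⟩,
      Or.inl (by omega)⟩
    · intro w hw hwa
      rcases Finset.mem_insert.1 hw with hw | hw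
      · exact Or.inl (Finset.mem_insert.2 (Or.inl hw))
      · rcases h.cls w hw hwa with h1 | h1
        · exact Or.inl (Finset.mem_insert_of_mem h1)
        · exact Or.inr h1
    · have h1 := Finset.card_insert_le v Xc
      have h2 := h.cXc
      have h3 : 1 ≤ Vr * N := Nat.one_le_iff_ne_zero.2 (by positivity)
      rw [Nat.add_mul]
      omega
    · have h2 := h.cK
      rw [Nat.add_mul]
      omega
    · have h2 := h.cH
      rw [Nat.add_mul]
      omega
    · rw [lval_insert _ hv]
      omega
  · push Not at hc0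
    by_cases hc1 : ∃ v, v ∉ X ∧ ldg A v ≤ 1 ∧ ¬ Ready D U v
    · -- delete an end which is not ready
      obtain ⟨v, hv, hd, hr⟩ := hc1
      have hf : Free D U v := fun q hq i h1 => hr (Or.inl ⟨q, i, hq, h1⟩)
      have hd0 := hc0 v hv
      obtain ⟨y, hvy⟩ : ∃ y, A.Adj v y := by
        by_contra hcon
        push Not at hcon
        exact hd0 (ldg_eq_zero_iff.2 hcon)
      have hval : lval (delE A v y) (insert v X) + 2 * δ = 2 * Fintype.card V := by
        have h1 := lval_delE hvy X
        have h2 := h.val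
        rw [lval_insert _ hv]
        omega
      have hcH : hc F (delE A v y) ≤ 2 * (t * (N + 1)) :=
        (hc_mono (A := delE A v y) (B := A) fun a b hab => hab.1).trans h.cH
      have hcard : X.card < (insert v X).card := by
        rw [Finset.card_insert_of_notMem hv]
        omega
      by_cases hal : ∀ p i, ¬ H.Adj v (D.P p i)
      · refine ⟨t, δ, delE A v y, insert v X, insert v Xa, K, U, W, Xc,
          ⟨h.core.delA hv hvy hd hf, h.WU, h.adm, h.cU, ?_, ?_, h.cXc, h.cK, hcH, hval, h.tM⟩,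
          Or.inr ⟨rfl, hcard⟩⟩
        · intro w hw hwa
          rw [Finset.mem_insert, not_or] at hwa
          rcases Finset.mem_insert.1 hw with hw | hw
          · exact absurd hw hwa.1
          · exact h.cls w hw hwa.2
        · intro w hw
          rcases Finset.mem_insert.1 hw with hw | hw
          · rw [hw]
            exact hal
          · exact h.alpha w hw
      · push Not at hal
        obtain ⟨p, i, hpi⟩ := hal
        have hp : p ∈ U := by
          by_contra hp
          exact hr (Or.inr ⟨p, i, hp, hpi⟩)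
        refine ⟨t, δ, delE A v y, insert v X, Xa, K, U, W, Xc,
          ⟨h.core.del1 hvy hd hf, h.WU, h.adm, h.cU, ?_, h.alpha, h.cXc, h.cK, hcH, hval, h.tM⟩,
          Or.inr ⟨rfl, hcard⟩⟩
        intro w hw hwa
        rcases Finset.mem_insert.1 hw with hw | hw
        · rw [hw]
          exact Or.inr ⟨p, i, hp, hpi⟩
        · exact h.cls w hw hwa
    · -- connect
      push Not at hc1
      obtain ⟨v, hv, hd⟩ := exists_end h hδ
      have hd1 : ldg A v = 1 := by
        have := hc0 v hv
        omega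
      obtain ⟨v', hne, hv', hd'⟩ := exists_second_end h hv hd1
      obtain ⟨A', X', K', U', k1, k2, k3, k4, k5⟩ := connect h.core hpath hne.symm hv hv' hd
        hd' (hc1 v hv hd) (hc1 v' hv' hd')
      obtain ⟨W', hWW', hW'⟩ := exists_admMax D.pg (adm_mono D.pg h.adm.1 k4)
      have hval := h.val
      have htM := h.tM
      refine ⟨t + 1, δ - 1, A', X', Xa, K', U' ∪ W', W', Xc ∪ (X' \ X),
        ⟨k1.monoU Finset.subset_union_left, Finset.subset_union_right, adm_union hW', ?_, ?_,
          h.alpha, ?_, ?_, ?_, ?_, by omega⟩, Or.inl (by omega)⟩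
      · have h1 : (U' ∪ W') \ W' ⊆ U' \ W := by
          intro p hp
          rw [Finset.mem_sdiff, Finset.mem_union] at hp
          rw [Finset.mem_sdiff]
          exact ⟨hp.1.resolve_right hp.2, fun h2 => hp.2 (hWW' h2)⟩
        refine (Finset.card_le_card h1).trans ?_
        rw [Finset.card_sdiff_of_subset (h.WU.trans k4)]
        have h2 := h.cU
        rw [Finset.card_sdiff_of_subset h.WU] at h2
        have h3 := Finset.card_le_card h.WU
        rw [Nat.add_mul]
        omega
      · intro w hw hwa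
        by_cases hwX : w ∈ X
        · rcases h.cls w hwX hwa with h1 | ⟨p, i, hp, hi⟩
          · exact Or.inl (Finset.mem_union_left _ h1)
          · exact Or.inr ⟨p, i, Finset.mem_union_left _ (k4 hp), hi⟩
        · exact Or.inl (Finset.mem_union_right _ (Finset.mem_sdiff.2 ⟨hw, hwX⟩))
      · refine (Finset.card_union_le _ _).trans ?_
        rw [Finset.card_sdiff_of_subset k2.XX]
        have h1 := h.cXc
        have h2 := k2.cX
        rw [Nat.add_mul]
        omega
      · have h1 := h.cK
        have h2 := k2.cK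
        rw [Nat.add_mul]
        omega
      · have h1 := h.cH
        have h2 := k2.cH
        rw [Nat.add_mul]
        omega
      · rw [k3]
        omega

/-- the process -/
theorem loop {s0 : ℝ} {k0 : ℕ} (hy : Hyp D s0 η M k0) : ∀ (n t δ : ℕ) (A : SimpleGraph V)
    (X Xa : Finset V) (K : Finset (V × V)) (U W : Finset PP) (Xc : Finset V),
    Inv D η (2 * k0 + 2) M t δ A X Xa K U W Xc →
    δ * (Fintype.card V + 1) + (Fintype.card V - X.card) ≤ n →
    ∃ t' A' X' Xa' K' U' W' Xc', Inv D η (2 * k0 + 2) M t' 0 A' X' Xa' K' U' W' Xc' := by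
  intro n
  induction n with
  | zero =>
    intro t δ A X Xa K U W Xc h hn
    by_cases hδ : 0 < δ
    · have : 1 ≤ δ * (Fintype.card V + 1) := Nat.one_le_iff_ne_zero.2 (by positivity)
      omega
    · obtain rfl : δ = 0 := by omega
      exact ⟨_, _, _, _, _, _, _, _, h⟩
  | succ n ih =>
    intro t δ A X Xa K U W Xc h hn
    by_cases hδ : 0 < δ
    · obtain ⟨t', δ', A', X', Xa', K', U', W', Xc', h1, h2⟩ := step (by omega) (h.paths hy) h hδ
      refine ih t' δ' A' X' Xa' K' U' W' Xc' h1 ?_
      have h3 := Finset.card_le_univ X'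
      rcases h2 with h2 | ⟨rfl, h2⟩
      · have h4 : (δ' + 1) * (Fintype.card V + 1) ≤ δ * (Fintype.card V + 1) :=
          Nat.mul_le_mul_right _ h2
        rw [Nat.add_mul] at h4
        omega
      · omega
    · obtain rfl : δ = 0 := by omega
      exact ⟨_, _, _, _, _, _, _, _, h⟩

/-- the start of the process -/
theorem start (D : LinkData F H PP Vr) [DecidableRel D.pg.Adj] (hη : 0 < η) (N : ℕ)
    (hM : endCard F ≤ M) :
    ∃ δ W, Inv D η N M 0 δ F ∅ ∅ ∅ W W ∅ := by
  obtain ⟨W, -, hW⟩ := exists_admMax D.pg (adm_empty D.pg hη.le (∅ : Finset PP))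
  have hsum : ∑ v, ldg F v = 2 * F.edgeFinset.card := by
    rw [← SimpleGraph.sum_degrees_eq_twice_card_edges]
    refine Finset.sum_congr rfl fun v _ => ?_
    rw [ldg_eq_card, ← SimpleGraph.card_neighborFinset_eq_degree,
      SimpleGraph.neighborFinset_eq_filter]
  have hle : ∑ v, ldg F v ≤ ∑ v : V, 2 := Finset.sum_le_sum fun v _ => ldg_F_le D v
  have hle2 : ∑ v : V, 2 ≤ ∑ v, (ldg F v + if ldg F v ≤ 1 then 2 else 0) := by
    refine Finset.sum_le_sum fun v _ => ?_
    split_ifs <;> omega
  rw [Finset.sum_add_distrib, ← Finset.sum_filter, Finset.sum_const, smul_eq_mul] at hle2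
  rw [Finset.sum_const, smul_eq_mul, Finset.card_univ] at hle hle2
  have hend : (univ.filter fun v => ldg F v ≤ 1).card = endCard F := by
    unfold endCard
    congr 1
    ext v
    simp only [Finset.mem_filter, Finset.mem_univ, true_and, ldg_eq_card]
  rw [hend] at hle2
  refine ⟨Fintype.card V - F.edgeFinset.card, W, ⟨?_, Finset.Subset.refl _, ?_, by simp,
    by simp, by simp, by simp, by simp, ?_, ?_, by omega⟩⟩
  · exact
      { deg := ldg_F_le D
        sub := fun u v h => Or.inl h
        iso := by simp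
        miss := fun u v h1 h2 => absurd h1 h2
        pX := by simp
        padj := fun p _ i hi => D.adj p i hi
        pH := fun p _ i u h => h
        cyc := fun C _ _ _ v _ => ⟨by simp, fun u => Iff.rfl⟩
        XaX := Finset.Subset.refl _
        conn := by simp }
  · have := adm_union hW
    rwa [Finset.empty_union] at this
  · unfold hc
    rw [show {q : V × V | F.Adj q.1 q.2 ∧ ¬ F.Adj q.1 q.2} = ∅ by
      ext q
      simp]
    simp
  · unfold lval
    rw [hsum, Finset.card_empty]
    omega

end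

end Link

end Pool.Agent.LongCyc.Dense
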