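import Mathlib
import Pool.Agent.LongCyc.Dense.Defs
import Pool.Agent.LongCyc.Dense.LinkLoop
import Pool.Agent.LongCyc.Dense.LinkCount

/-!
# The linking lemma
-/

set_option autoImplicit false

namespace Pool.Agent.LongCyc.Dense

open Finset

variable {V : Type*} [Fintype V] [DecidableEq V]
variable {F H : SimpleGraph V} [DecidableRel F.Adj] [DecidableRel H.Adj] {PP : Type*}
  [Fintype PP] [DecidableEq PP] {Vr : ℕ}

namespace Link

/-- number of vertices with a partner in the pieces of `U` -/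
theorem card_partner_le (D : LinkData F H PP Vr) (U : Finset PP) (S : Finset V)
    (hS : ∀ v ∈ S, ∃ p i, p ∈ U ∧ H.Adj v (D.P p i)) : S.card ≤ Vr * U.card := by
  have h1 : S ⊆ (U ×ˢ (Finset.univ : Finset (Fin Vr))).biUnion fun q =>
      univ.filter fun u => H.Adj (D.P q.1 q.2) u := by
    intro v hv
    obtain ⟨p, i, hp, hi⟩ := hS v hv
    exact Finset.mem_biUnion.2 ⟨(p, i), Finset.mem_product.2 ⟨hp, Finset.mem_univ _⟩,
      Finset.mem_filter.2 ⟨Finset.mem_univ _, hi.symm⟩⟩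
  refine (Finset.card_le_card h1).trans
    ((Finset.card_biUnion_le_card_mul _ _ 1 fun q _ => D.hH _).trans ?_)
  rw [Finset.card_product, Finset.card_univ, Fintype.card_fin, mul_one, mul_comm]

theorem card_EBad_le (D : LinkData F H PP Vr) {X Xa : Finset V} {K : Finset (V × V)}
    {M : ℕ} (hM : endCard F ≤ M) (T : Finset V) (hT : ∀ e ∈ T, EBad F X Xa K e) :
    T.card ≤ M + K.card + 2 * (X \ Xa).card := by
  have h1 : T ⊆ (univ.filter fun v : V => (univ.filter fun u => F.Adj v u).card ≤ 1) ∪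
      K.image Prod.fst ∪ (X \ Xa).biUnion fun u => univ.filter fun v => F.Adj u v := by
    intro e he
    rcases hT e he with h2 | ⟨u, hu⟩ | ⟨u, hu1, hu2, hu3⟩
    · rw [ldg_eq_card] at h2
      exact Finset.mem_union_left _ (Finset.mem_union_left _
        (Finset.mem_filter.2 ⟨Finset.mem_univ _, h2⟩))
    · exact Finset.mem_union_left _ (Finset.mem_union_right _
        (Finset.mem_image.2 ⟨(e, u), hu, rfl⟩))
    · exact Finset.mem_union_right _ (Finset.mem_biUnion.2 ⟨u, Finset.mem_sdiff.2 ⟨hu1, hu2⟩,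
        Finset.mem_filter.2 ⟨Finset.mem_univ _, hu3.symm⟩⟩)
  refine (Finset.card_le_card h1).trans ((Finset.card_union_le _ _).trans
    (Nat.add_le_add ((Finset.card_union_le _ _).trans (Nat.add_le_add hM
      Finset.card_image_le)) ?_))
  refine (Finset.card_biUnion_le_card_mul _ _ 2 fun u _ => D.hF u).trans ?_
  omega

end Link

open Link in
/-- **Linking lemma** -/
theorem linking (D : LinkData F H PP Vr) [DecidableRel D.pg.Adj] {s0 η : ℝ} (hη : 0 < η) (hs0 : 0 ≤ s0)
    (hexp : Expands D.pg s0 η) (h : ℕ) (hh : 1 ≤ h) (Xb : Finset V)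
    (hstretch : ∀ l : List V, l.Nodup → l.IsChain F.Adj → l.length = h → (∀ v ∈ l, v ∉ Xb) →
      ∃ v ∈ l, ∃ p i, H.Adj v (D.P p i))
    (M : ℕ) (hM : endCard F ≤ M) (k0 : ℕ) (hk0 : (Fintype.card PP : ℝ) ≤ (1 + η / 2) ^ k0)
    (hsmall : 100 * max s0 (2 / η * (M * (2 * k0 + 2))) ≤ Fintype.card PP) (hPP : 100 ≤ Fintype.card PP) :
    ∃ (X : Finset V) (F' : SimpleGraph V) (_ : DecidableRel F'.Adj),
      (∀ u v, F'.Adj u v → F.Adj u v ∨ H.Adj u v) ∧
      (∀ v ∈ X, ∀ u, ¬ F'.Adj v u) ∧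
      (∀ v, v ∉ X → (univ.filter fun u => F'.Adj v u).card = 2) ∧
      ((univ.filter fun q : V × V => F'.Adj q.1 q.2 ∧ ¬ F.Adj q.1 q.2).card ≤ 2 * M * (2 * k0 + 4)) ∧
      ((X.card : ℝ) ≤ 20 * h * (Vr * (M * (2 * k0 + 4) + max s0 (2 / η * (M * (2 * k0 + 2)))) + Xb.card)) ∧
      -- cycles of `F` without piece vertices are untouched
      (∀ C : Finset V, (∀ v ∈ C, (univ.filter fun u => F.Adj v u).card = 2) → (∀ v ∈ C, ∀ u, F.Adj v u → u ∈ C) →
        (∀ p i, D.P p i ∉ C) → ∀ v ∈ C, v ∉ X ∧ ∀ u, F'.Adj v u ↔ F.Adj v u) := by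
  have hy : Hyp D s0 η M k0 := ⟨hη, hs0, hexp, hk0, hsmall, hPP⟩
  obtain ⟨δ, W0, hi⟩ := start (M := M) D hη (2 * k0 + 2) hM
  obtain ⟨t, A, X, Xa, K, U, W, Xc, hinv⟩ := loop hy _ _ _ _ _ _ _ _ _ _ hi le_rfl
  refine ⟨X, A, Classical.decRel _, hinv.core.sub, hinv.core.iso, ?_, ?_, ?_, ?_⟩
  · intro v hv
    rw [← ldg_eq_card_filter]
    have h1 := lval_eq hinv.core
    have h2 := card_sdiff_univ X
    have h3 := hinv.val
    have h4 : ∑ v ∈ univ \ X, ldg A v = ∑ v ∈ univ \ X, 2 := by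
      rw [Finset.sum_const, smul_eq_mul]
      omega
    rw [Finset.sum_eq_sum_iff_of_le fun v _ => hinv.core.deg v] at h4
    exact h4 v (Finset.mem_sdiff.2 ⟨Finset.mem_univ _, hv⟩)
  · have h1 := hinv.cH
    have h2 : t ≤ M := by
      have := hinv.tM
      omega
    have h3 : ∀ (_ : DecidablePred fun q : V × V => A.Adj q.1 q.2 ∧ ¬ F.Adj q.1 q.2),
        (univ.filter fun q : V × V => A.Adj q.1 q.2 ∧ ¬ F.Adj q.1 q.2).card = hc F A := by
      intro _
      unfold hc
      rw [← Set.ncard_coe_finset]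
      congr 1
      ext q
      simp
    rw [h3]
    refine h1.trans ?_
    have h4 : t * (2 * k0 + 2 + 1) ≤ M * (2 * k0 + 4) := Nat.mul_le_mul h2 (by omega)
    rw [mul_assoc]
    exact Nat.mul_le_mul_left _ h4
  · -- counting
    have hVr := D.hVr
    have h2 : t ≤ M := by
      have := hinv.tM
      omega
    have hW := hinv.card_W_le hy
    set B := max s0 (2 / η * (M * (2 * k0 + 2))) with hB
    have hB0 : 0 ≤ B := le_max_of_le_left hs0
    have hU : U.card ≤ M * (2 * k0 + 2) + W.card := by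
      have h3 := hinv.cU
      rw [Finset.card_sdiff_of_subset hinv.WU] at h3
      have h4 : t * (2 * k0 + 2) ≤ M * (2 * k0 + 2) := Nat.mul_le_mul_right _ h2
      omega
    have hq : (X \ Xa).card ≤ M * (Vr * (2 * k0 + 2)) + Vr * U.card := by
      have h3 : X \ Xa ⊆ Xc ∪ (X \ Xa).filter (fun v => v ∉ Xc) := by
        intro v hv
        by_cases h4 : v ∈ Xc
        · exact Finset.mem_union_left _ h4
        · exact Finset.mem_union_right _ (Finset.mem_filter.2 ⟨hv, h4⟩)
      refine (Finset.card_le_card h3).trans ((Finset.card_union_le _ _).trans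
        (Nat.add_le_add (hinv.cXc.trans (Nat.mul_le_mul_right _ h2)) ?_))
      refine card_partner_le D U _ fun v hv => ?_
      rw [Finset.mem_filter, Finset.mem_sdiff] at hv
      exact (hinv.cls v hv.1.1 hv.1.2).resolve_left hv.2
    have hXa : Xa.card ≤ 2 * h * ((M + K.card + 2 * (X \ Xa).card) + Xb.card) := by
      classical
      refine (card_block (ldg_F_le D) (T := univ.filter fun e => EBad F X Xa K e) hh ?_ ?_).trans
        (Nat.mul_le_mul_left _ (Nat.add_le_add_right (card_EBad_le D hM _ ?_) _))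
      · intro v hv
        obtain ⟨e, he1, he2, he3⟩ := hinv.core.conn v hv
        exact ⟨e, he1, Finset.mem_filter.2 ⟨Finset.mem_univ _, he2⟩, he3⟩
      · intro l l1 l2 l3 l4
        by_contra hcon
        push Not at hcon
        obtain ⟨v, hv, p, i, hpi⟩ := hstretch l l1 l2 l3 hcon
        exact hinv.alpha v (l4 v hv) p i hpi
      · intro e he
        exact (Finset.mem_filter.1 he).2
    have hK : K.card ≤ 2 * (M * (2 * k0 + 2)) :=
      hinv.cK.trans (Nat.mul_le_mul_left _ (Nat.mul_le_mul_right _ h2))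
    have hX : X.card = Xa.card + (X \ Xa).card := by
      rw [Finset.card_sdiff_of_subset hinv.core.XaX]
      have := Finset.card_le_card hinv.core.XaX
      omega
    -- real numbers
    have r1 : (U.card : ℝ) ≤ M * (2 * k0 + 2) + B := by
      have : (U.card : ℝ) ≤ M * (2 * k0 + 2) + W.card := by exact_mod_cast hU
      linarith
    have r2 : ((X \ Xa).card : ℝ) ≤ M * (Vr * (2 * k0 + 2)) + Vr * U.card := by exact_mod_cast hq
    have r3 : (Xa.card : ℝ) ≤ 2 * h * ((M + K.card + 2 * (X \ Xa).card) + Xb.card) := by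
      exact_mod_cast hXa
    have r4 : (K.card : ℝ) ≤ 2 * (M * (2 * k0 + 2)) := by exact_mod_cast hK
    have r5 : (X.card : ℝ) = Xa.card + (X \ Xa).card := by exact_mod_cast hX
    have hh' : (1 : ℝ) ≤ h := by exact_mod_cast hh
    have hVr' : (2 : ℝ) ≤ Vr := by exact_mod_cast hVr
    have hM0 : (0 : ℝ) ≤ M := Nat.cast_nonneg _
    have hk00 : (0 : ℝ) ≤ k0 := Nat.cast_nonneg _
    have hxb0 : (0 : ℝ) ≤ Xb.card := Nat.cast_nonneg _
    have hq0 : (0 : ℝ) ≤ (X \ Xa).card := Nat.cast_nonneg _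
    set q : ℝ := ((X \ Xa).card : ℝ) with hqdef
    set N : ℝ := 2 * k0 + 2 with hN
    have hN0 : 0 ≤ N := by positivity
    have s1 : q ≤ Vr * (2 * (M * N) + B) := by
      have : (Vr : ℝ) * U.card ≤ Vr * (M * N + B) := mul_le_mul_of_nonneg_left r1 (by positivity)
      calc q ≤ M * (Vr * N) + Vr * U.card := r2
        _ ≤ M * (Vr * N) + Vr * (M * N + B) := by linarith
        _ = Vr * (2 * (M * N) + B) := by ring
    have s2 : (Xa.card : ℝ) ≤ 2 * h * ((M + 2 * (M * N) + 2 * q) + Xb.card) := by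
      refine r3.trans (mul_le_mul_of_nonneg_left ?_ (by positivity))
      linarith
    have s3 : q ≤ h * q := by nlinarith
    have s4 : (X.card : ℝ) ≤ h * (5 * q + 2 * (M + 2 * (M * N)) + 2 * Xb.card) := by
      rw [r5]
      nlinarith
    refine s4.trans ?_
    have s5 : 5 * q + 2 * (M + 2 * (M * N)) + 2 * Xb.card ≤
        20 * (Vr * (M * (N + 2) + B) + Xb.card) := by
      have hMN : 0 ≤ (M : ℝ) * N := by positivity
      have s6 : 2 * (M : ℝ) ≤ Vr * M := mul_le_mul_of_nonneg_right hVr' hM0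
      have s7 : 2 * ((M : ℝ) * N) ≤ Vr * (M * N) := mul_le_mul_of_nonneg_right hVr' hMN
      have s8 : 0 ≤ (Vr : ℝ) * (M * N) := by positivity
      have s9 : 0 ≤ (Vr : ℝ) * B := by positivity
      have s10 : 0 ≤ (Vr : ℝ) * M := by positivity
      have e1 : (Vr : ℝ) * (2 * (M * N) + B) = 2 * (Vr * (M * N)) + Vr * B := by ring
      have e2 : 20 * ((Vr : ℝ) * (M * (N + 2) + B) + Xb.card) =
          20 * (Vr * (M * N)) + 40 * (Vr * M) + 20 * (Vr * B) + 20 * Xb.card := by ring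
      rw [e2]
      rw [e1] at s1
      linarith
    calc (h : ℝ) * (5 * q + 2 * (M + 2 * (M * N)) + 2 * Xb.card)
        ≤ h * (20 * (Vr * (M * (N + 2) + B) + Xb.card)) :=
          mul_le_mul_of_nonneg_left s5 (by positivity)
      _ = 20 * h * (Vr * (M * (2 * k0 + 4) + B) + Xb.card) := by rw [hN]; ring
  · intro C h1 h2 h3 v hv
    exact hinv.core.cyc C (fun v hv => by rw [ldg_eq_card]; exact h1 v hv) h2 h3 v hv

end Pool.Agent.LongCyc.Dense
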