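import Mathlib
import Pool.Agent.LongCyc.Dense.Defs
import Pool.Agent.LongCyc.Dense.GiantD

/-!
# Dense regime: components of degree two vertices are cycles; choice of different options
-/

set_option autoImplicit false

namespace Pool.Agent.LongCyc.Dense

open Finset

/-- two different neighbours of a vertex of degree two are all its neighbours -/
private theorem twoReg_nb {V : Type} [Fintype V] [DecidableEq V] (F : SimpleGraph V)
    [DecidableRel F.Adj] {w a b u : V} (h : (univ.filter fun u => F.Adj w u).card = 2)
    (ha : F.Adj w a) (hb : F.Adj w b) (hab : a ≠ b) (hu : F.Adj w u) : u = a ∨ u = b := by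
  have h1 : ({a, b} : Finset V) = univ.filter fun u => F.Adj w u := by
    apply Finset.eq_of_subset_of_card_le
    · intro x hx
      rw [mem_insert, mem_singleton] at hx
      rw [mem_filter]
      rcases hx with rfl | rfl
      · exact ⟨mem_univ _, ha⟩
      · exact ⟨mem_univ _, hb⟩
    · rw [h, Finset.card_pair hab]
  have h2 : u ∈ ({a, b} : Finset V) := by
    rw [h1, mem_filter]
    exact ⟨mem_univ _, hu⟩
  simpa using h2

/-- a component of degree two vertices is a cycle -/
theorem two_regular_cycle {V : Type} [Fintype V] [DecidableEq V] (F : SimpleGraph V)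
    [DecidableRel F.Adj] (v : V)
    (hdeg : ∀ w, F.Reachable v w → (univ.filter fun u => F.Adj w u).card = 2) :
    ∃ l : List V, IsCyc F.Adj l ∧ (∀ w, w ∈ l ↔ F.Reachable v w) ∧
      ∀ a b, a ∈ l → F.Adj a b → CAdj l a b := by
  -- a longest path in the component
  let S : Set ℕ := {k | ∃ l : List V, (l.Nodup ∧ l.IsChain F.Adj ∧ l ≠ [] ∧
    ∀ w ∈ l, F.Reachable v w) ∧ l.length = k}
  have hS1 : S.Nonempty := ⟨1, [v], ⟨by simp, by simp, by simp, by simp⟩, rfl⟩
  have hS2 : BddAbove S := ⟨Fintype.card V, by
    rintro k ⟨l, ⟨hnd, -⟩, rfl⟩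
    exact hnd.length_le_card⟩
  obtain ⟨l, ⟨hnd, hch, hne, hre⟩, hlen⟩ := Nat.sSup_mem hS1 hS2
  have hmax : ∀ l' : List V, l'.Nodup → l'.IsChain F.Adj → l' ≠ [] →
      (∀ w ∈ l', F.Reachable v w) → l'.length ≤ l.length := by
    intro l' h1 h2 h3 h4
    rw [hlen]
    exact le_csSup hS2 ⟨l', ⟨h1, h2, h3, h4⟩, rfl⟩
  have hpos : 0 < l.length := List.length_pos_iff.2 hne
  have hadj : ∀ (i : ℕ) (hi : i + 1 < l.length), F.Adj (l[i]'(by omega)) l[i + 1] := by
    intro i hi
    exact (List.isChain_iff_getElem.1 hch) i hi
  have hinj : ∀ (i j : ℕ) (hi : i < l.length) (hj : j < l.length), l[i] = l[j] → i = j := by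
    intro i j hi hj h
    exact (List.Nodup.getElem_inj_iff hnd).1 h
  have hdg : ∀ (i : ℕ) (hi : i < l.length), (univ.filter fun u => F.Adj l[i] u).card = 2 :=
    fun i hi => hdeg _ (hre _ (List.getElem_mem hi))
  -- the neighbours of the first vertex are in the list
  have hhead : ∀ u, F.Adj (l[0]) u → u ∈ l := by
    intro u hu
    by_contra hul
    have h1 : (u :: l).length ≤ l.length := by
      apply hmax
      · exact List.nodup_cons.2 ⟨hul, hnd⟩
      · rw [List.isChain_cons]
        refine ⟨?_, hch⟩
        intro y hy
        rw [List.head?_eq_getElem?, List.getElem?_eq_getElem hpos] at hy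
        have : l[0] = y := by simpa using hy
        rw [← this]
        exact hu.symm
      · simp
      · intro w hw
        rcases List.mem_cons.1 hw with rfl | hw
        · exact (hre _ (List.getElem_mem hpos)).trans hu.reachable
        · exact hre w hw
    simp at h1
  -- the two neighbours of the first vertex
  obtain ⟨a, b, hab, hfil⟩ := Finset.card_eq_two.1 (hdg 0 hpos)
  have ha : F.Adj l[0] a := by
    have : a ∈ univ.filter fun u => F.Adj l[0] u := by rw [hfil]; simp
    exact (mem_filter.1 this).2
  have hb : F.Adj l[0] b := by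
    have : b ∈ univ.filter fun u => F.Adj l[0] u := by rw [hfil]; simp
    exact (mem_filter.1 this).2
  obtain ⟨ia, hia, rfl⟩ := List.mem_iff_getElem.1 (hhead a ha)
  obtain ⟨ib, hib, rfl⟩ := List.mem_iff_getElem.1 (hhead b hb)
  -- a neighbour of the first vertex is the second one or the last one
  have hpl : ∀ (j : ℕ) (hj : j < l.length), F.Adj l[0] l[j] → j = 1 ∨ j + 1 = l.length := by
    intro j hj h
    by_contra hcon
    push Not at hcon
    have hj0 : j ≠ 0 := by
      rintro rfl
      exact F.loopless.irrefl _ h
    have h1 : F.Adj l[j] (l[j - 1]'(by omega)) := by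
      have := hadj (j - 1) (by omega)
      have e : j - 1 + 1 = j := by omega
      simp only [e] at this
      exact this.symm
    have h2 : F.Adj l[j] (l[j + 1]'(by omega)) := hadj j (by omega)
    have h3 := twoReg_nb F (hdg j hj) h1 h2 (by
      intro h
      have := hinj _ _ _ _ h
      omega) h.symm
    rcases h3 with h3 | h3
    · have := hinj _ _ _ _ h3
      omega
    · have := hinj _ _ _ _ h3
      omega
  have hne2 : ia ≠ ib := by
    rintro rfl
    exact hab rfl
  have hl3 : 3 ≤ l.length ∧ F.Adj l[0] (l[l.length - 1]'(by omega)) := by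
    rcases hpl ia hia ha with h1 | h1
    · rcases hpl ib hib hb with h2 | h2
      · omega
      · have e : l.length - 1 = ib := by omega
        have hib0 : ib ≠ 0 := by
          rintro rfl
          exact F.loopless.irrefl _ hb
        refine ⟨by omega, ?_⟩
        simp only [e]
        exact hb
    · have e : l.length - 1 = ia := by omega
      have hia0 : ia ≠ 0 := by
        rintro rfl
        exact F.loopless.irrefl _ ha
      rcases hpl ib hib hb with h2 | h2
      · refine ⟨by omega, ?_⟩
        simp only [e]
        exact ha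
      · omega
  obtain ⟨hl3, hclose⟩ := hl3
  -- the edges of the cyclic list
  have hnext : ∀ x y, CNext l x y → F.Adj x y := by
    intro x y h
    rw [cnext_pos] at h
    obtain ⟨_, i, hi, rfl, rfl⟩ := h
    by_cases h1 : i + 1 < l.length
    · have e : (i + 1) % l.length = i + 1 := Nat.mod_eq_of_lt h1
      simp only [e]
      exact hadj i h1
    · have e1 : i = l.length - 1 := by omega
      have e : (i + 1) % l.length = 0 := by
        rw [show i + 1 = l.length by omega, Nat.mod_self]
      simp only [e]
      simp only [e1]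
      exact hclose.symm
  have hcadj : ∀ a b, a ∈ l → F.Adj a b → CAdj l a b := by
    intro a b hal hab
    obtain ⟨i, hi, rfl⟩ := List.mem_iff_getElem.1 hal
    -- successor
    have h1 : CNext l l[i] (l[(i + 1) % l.length]'(Nat.mod_lt _ (by omega))) := by
      rw [cnext_pos]
      exact ⟨by omega, i, hi, rfl, rfl⟩
    -- predecessor
    have h2 : CNext l (l[(i + (l.length - 1)) % l.length]'(Nat.mod_lt _ (by omega))) l[i] := by
      rw [cnext_pos]
      refine ⟨by omega, _, Nat.mod_lt _ (by omega), rfl, ?_⟩
      have e : ((i + (l.length - 1)) % l.length + 1) % l.length = i := by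
        rw [Nat.mod_add_mod, show i + (l.length - 1) + 1 = i + l.length by omega,
          Nat.add_mod_right, Nat.mod_eq_of_lt hi]
      simp only [e]
    have h3 : l[(i + 1) % l.length]'(Nat.mod_lt _ (by omega)) ≠
        l[(i + (l.length - 1)) % l.length]'(Nat.mod_lt _ (by omega)) := by
      intro h
      have h4 := hinj _ _ _ _ h
      by_cases hi0 : i = 0
      · subst hi0
        rw [Nat.mod_eq_of_lt (by omega : 0 + 1 < l.length),
          Nat.mod_eq_of_lt (by omega : 0 + (l.length - 1) < l.length)] at h4
        omega
      · have e1 : (i + (l.length - 1)) % l.length = i - 1 := by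
          rw [show i + (l.length - 1) = (i - 1) + l.length by omega, Nat.add_mod_right,
            Nat.mod_eq_of_lt (by omega)]
        rw [e1] at h4
        by_cases hil : i + 1 < l.length
        · rw [Nat.mod_eq_of_lt hil] at h4
          omega
        · rw [show i + 1 = l.length by omega, Nat.mod_self] at h4
          omega
    rcases twoReg_nb F (hdg i hi) (hnext _ _ h1) (hnext _ _ h2).symm h3 hab with rfl | rfl
    · exact Or.inl h1
    · exact Or.inr h2
  have hcl : ∀ a b, a ∈ l → F.Adj a b → b ∈ l := by
    intro a b hal hab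
    rcases hcadj a b hal hab with h | h
    · rw [cnext_pos] at h
      obtain ⟨_, i, hi, _, rfl⟩ := h
      exact List.getElem_mem _
    · rw [cnext_pos] at h
      obtain ⟨_, i, hi, rfl, _⟩ := h
      exact List.getElem_mem _
  refine ⟨l, ⟨hnd, hl3, hnext⟩, ?_, hcadj⟩
  intro w
  refine ⟨hre w, fun hw => ?_⟩
  have h1 : F.Reachable l[0] w := (hre _ (List.getElem_mem hpos)).symm.trans hw
  rw [SimpleGraph.reachable_iff_reflTransGen] at h1
  induction h1 with
  | refl => exact List.getElem_mem hpos
  | @tail x y h2 h3 ih =>
    exact hcl x y (ih (by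
      have h4 : F.Reachable l[0] x := (SimpleGraph.reachable_iff_reflTransGen _ _).2 h2
      exact (hre _ (List.getElem_mem hpos)).trans h4)) h3

/-- choice of different options -/
theorem hall_opt {I E : Type} [Fintype I] [DecidableEq E] (O : I → Finset E) (k : ℕ) (hk : 0 < k)
    (h1 : ∀ i, k ≤ (O i).card) (h2 : ∀ e, (Set.ncard {i | e ∈ O i}) ≤ k) :
    ∃ f : I → E, Function.Injective f ∧ ∀ i, f i ∈ O i := by
  classical
  rw [← Finset.all_card_le_biUnion_card_iff_exists_injective]
  intro s
  have h3 : s.card * k ≤ (s.biUnion O).card * k := by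
    refine Finset.card_mul_le_card_mul (fun i e => e ∈ O i) ?_ ?_
    · intro i hi
      refine (h1 i).trans (Finset.card_le_card ?_)
      intro e he
      rw [Finset.mem_bipartiteAbove]
      exact ⟨Finset.mem_biUnion.2 ⟨i, hi, he⟩, he⟩
    · intro e _
      refine le_trans ?_ (h2 e)
      rw [← Set.ncard_coe_finset]
      refine Set.ncard_le_ncard ?_ (Set.toFinite _)
      intro i hi
      have := Finset.mem_bipartiteBelow _ |>.1 (Finset.mem_coe.1 hi)
      exact this.2
  exact Nat.le_of_mul_le_mul_right h3 hk

end Pool.Agent.LongCyc.Dense
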