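import Pool.Agent.LongCyc.Dense.E2Def
import Pool.Agent.LongCyc.Dense.Flip
import Pool.Agent.LongCyc.Dense.TwoReg

/-!
# Dense regime, section 7: merging of all cycles through the giants
-/

set_option autoImplicit false
set_option linter.unusedSectionVars false

namespace Pool.Agent.LongCyc.Dense

open Finset

section MergeAll

variable {β : Type} [DecidableEq β] [Fintype β]

omit [Fintype β] in
theorem mg_can_self (e : CE β) : (canE β).e e.1.1 e.1.2 = e := by
  obtain ⟨⟨x, i⟩, h⟩ := e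
  apply Subtype.ext
  show (Function.update x i false, i) = (x, i)
  rw [Prod.mk.injEq]
  refine ⟨?_, rfl⟩
  have h' : x i = false := h
  rw [← h', Function.update_eq_self]

omit [Fintype β] in
theorem mg_can_pair {e : CE β} {y : Cube β} (h : (canE β).e y e.1.2 = e) :
    y = e.1.1 ∨ y = flip e.1.2 e.1.1 := by
  have h2 : (canE β).e y e.1.2 = (canE β).e e.1.1 e.1.2 := by rw [h, mg_can_self]
  exact ((canE β).inj _ _ _ _ h2).2

variable {δ : Type} [DecidableEq δ] [Fintype δ]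

omit [Fintype β] [DecidableEq δ] [Fintype δ] in
theorem mg_sym2 {e e' : CE β} {z z' : Cube δ}
    (h : s(jn e.1.1 z, jn (flip e.1.2 e.1.1) z) = s(jn e'.1.1 z', jn (flip e'.1.2 e'.1.1) z')) :
    z = z' ∧ e = e' := by
  rw [Sym2.eq_iff] at h
  rcases h with ⟨h1, h2⟩ | ⟨h1, h2⟩
  · obtain ⟨a1, a2⟩ := jn_inj h1
    obtain ⟨b1, -⟩ := jn_inj h2
    refine ⟨a2, ?_⟩
    rw [a1] at b1
    have b2 := flip_dir_injective _ b1
    exact Subtype.ext (Prod.ext a1 b2)
  · obtain ⟨a1, a2⟩ := jn_inj h1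
    obtain ⟨b1, -⟩ := jn_inj h2
    exfalso
    have c1 : flip e'.1.2 e.1.1 = e'.1.1 := by rw [a1, flip_flip]
    have c2 : e.1.2 = e'.1.2 := flip_dir_injective e.1.1 (b1.trans c1.symm)
    have c3 : e.1.1 e.1.2 = false := e.2
    have c4 : e'.1.1 e'.1.2 = false := e'.2
    rw [← b1, c2, flip_same, ← c2, c3] at c4
    cases c4

omit [DecidableEq β] [Fintype β] [DecidableEq δ] [Fintype δ] in
theorem mg_it_lift (f : Cube δ → Cube β → Option (Cube β)) (y : Cube β) (z : Cube δ) (k : ℕ) :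
    it (liftP f) k (jn y z) = (it (f z) k y).map fun a => jn a z := by
  induction k with
  | zero => rfl
  | succ k ih =>
    show (it (liftP f) k (jn y z)).bind (liftP f) = ((it (f z) k y).bind (f z)).map fun a => jn a z
    rw [ih]
    cases h : it (f z) k y with
    | none => rfl
    | some a => rfl

variable {nR : ℕ}

/-- edges of a run -/
theorem mg_run_adj {D : Cube δ → BD β nR} {L : ℕ} {F' : SimpleGraph (Cube (β ⊕ δ))} {y : Cube β} {z : Cube δ}
    (h : RunIn (liftP fun z => (D z).b) (fun x => lGd D x) L F' (jn y z)) {k : ℕ} (hk : k + 1 < L) :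
    ∃ a a', it (D z).b k y = some a ∧ (D z).b a = some a' ∧ F'.Adj (jn a z) (jn a' z) := by
  obtain ⟨x, x', h1, h2, h3⟩ := h.2 k hk
  rw [mg_it_lift] at h1
  cases ha : it (D z).b k y with
  | none => rw [ha] at h1; cases h1
  | some a =>
    rw [ha] at h1
    have hx : x = jn a z := by
      simpa using h1.symm
    subst hx
    cases hb : (D z).b a with
    | none =>
      have : liftP (fun z => (D z).b) (jn a z) = none := by
        show ((D z).b a).map _ = none
        rw [hb]; rfl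
      rw [this] at h2; cases h2
    | some a' =>
      have : liftP (fun z => (D z).b) (jn a z) = some (jn a' z) := by
        show ((D z).b a).map _ = _
        rw [hb]; rfl
      rw [this] at h2
      have hx' : x' = jn a' z := by simpa using h2.symm
      subst hx'
      exact ⟨a, a', rfl, hb, h3⟩

theorem mg_run_reach {D : Cube δ → BD β nR} {L : ℕ} {F' : SimpleGraph (Cube (β ⊕ δ))} {y : Cube β} {z : Cube δ}
    (h : RunIn (liftP fun z => (D z).b) (fun x => lGd D x) L F' (jn y z)) (k : ℕ) : k < L → ∀ a,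
      it (D z).b k y = some a → F'.Reachable (jn y z) (jn a z) := by
  induction k with
  | zero =>
    intro _ a ha
    have : a = y := by simpa [it] using ha.symm
    rw [this]
  | succ k ih =>
    intro hk a ha
    obtain ⟨c, c', h1, h2, h3⟩ := mg_run_adj h (k := k) (by omega)
    have h4 : it (D z).b (k + 1) y = some c' := by
      show (it (D z).b k y).bind (D z).b = _
      rw [h1]
      exact h2
    rw [h4] at ha
    have : c' = a := by simpa using ha
    subst this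
    exact (ih (by omega) c h1).trans h3.reachable

/-- a `D0`-edge of a run -/
theorem mg_run_edge {D : Cube δ → BD β nR} {L : ℕ} {F' : SimpleGraph (Cube (β ⊕ δ))} {y : Cube β} {z : Cube δ}
    {D0 : Finset β}
    (h : RunIn (liftP fun z => (D z).b) (fun x => lGd D x) L F' (jn y z)) {e : CE β}
    (he : e ∈ runD0 D0 (D z).b L y) :
    F'.Adj (jn e.1.1 z) (jn (flip e.1.2 e.1.1) z) ∧ F'.Reachable (jn y z) (jn e.1.1 z) := by
  classical
  rw [runD0, mem_filter] at he
  obtain ⟨-, -, k, a, hk, h1, h2, h3⟩ := he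
  obtain ⟨c, c', g1, g2, g3⟩ := mg_run_adj h hk
  rw [h1] at g1
  have hc : a = c := by simpa using g1
  subst hc
  rw [h2] at g2
  have hc' : flip e.1.2 a = c' := by simpa using g2
  subst hc'
  have hr := mg_run_reach h k (by omega) a h1
  rcases mg_can_pair h3 with h4 | h4
  · rw [← h4]
    exact ⟨g3, hr⟩
  · have h5 : flip e.1.2 a = e.1.1 := by rw [h4, flip_flip]
    rw [h5] at g3
    rw [← h4]
    exact ⟨g3.symm, hr.trans g3.reachable⟩

/-- disjoint reserved runs -/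
theorem mg_rdis {D : BD β nR} {D0 : Finset β} {Adms : Finset (CE β) → Prop} {L Vr Bd : ℕ}
    (hD : D.Val D0 Adms L Vr Bd) (hG : D.G.Nonempty) {i i' : Fin nR} {e : CE β}
    (h : e ∈ runD0 D0 D.b L (D.res i)) (h' : e ∈ runD0 D0 D.b L (D.res i')) : i = i' := by
  classical
  rw [runD0, mem_filter] at h h'
  obtain ⟨-, -, k, a, hk, h1, h2, h3⟩ := h
  obtain ⟨-, -, k', a', hk', h1', h2', h3'⟩ := h'
  have key : a = a' ∨ a = flip e.1.2 a' := by
    rcases mg_can_pair h3 with h4 | h4 <;> rcases mg_can_pair h3' with h5 | h5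
    · exact Or.inl (h4.trans h5.symm)
    · right; rw [h4, h5, flip_flip]
    · right; rw [h4, h5]
    · exact Or.inl (h4.trans h5.symm)
  rcases key with h4 | h4
  · subst h4
    exact hD.rdis hG i i' k k' a (by omega) (by omega) h1 h1'
  · have h6 : it D.b (k' + 1) (D.res i') = some a := by
      show (it D.b k' (D.res i')).bind D.b = _
      rw [h1', h4]
      exact h2'
    exact hD.rdis hG i i' k (k' + 1) a (by omega) (by omega) h1 h6

section Giant

variable {D : Cube δ → BD β nR} {D0 : Finset β} {Adms : Finset (CE β) → Prop} {L Vr Bd0 : ℕ}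
  {F' : SimpleGraph (Cube (β ⊕ δ))}

/-- component of a giant -/
theorem mg_comp (hD : ∀ z, (D z).Val D0 Adms L Vr Bd0)
    (hG : ∀ z, ∀ y ∈ (D z).G, ∀ u, F'.Adj (jn y z) u ↔
      ∃ y', u = jn y' z ∧ y' ∈ (D z).G ∧ ((D z).c y = some y' ∨ (D z).c y' = some y))
    {z : Cube δ} {y : Cube β} (hy : y ∈ (D z).G) (w : Cube (β ⊕ δ)) :
    F'.Reachable (jn y z) w ↔ ∃ y' ∈ (D z).G, w = jn y' z := by
  constructor
  · rintro ⟨p⟩
    suffices H : ∀ (a b : Cube (β ⊕ δ)), F'.Walk a b → (∃ y' ∈ (D z).G, a = jn y' z) →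
        ∃ y' ∈ (D z).G, b = jn y' z from H _ _ p ⟨y, hy, rfl⟩
    intro a b p
    induction p with
    | nil => exact fun h => h
    | cons h p ih =>
      rintro ⟨y', hy', rfl⟩
      obtain ⟨y'', h1, h2, -⟩ := (hG z y' hy' _).1 h
      exact ih ⟨y'', h2, h1⟩
  · rintro ⟨y', hy', rfl⟩
    obtain ⟨k, hk⟩ := (hD z).gorb y hy y' hy'
    have H : ∀ k, ∀ y', it (D z).c k y = some y' → y' ∈ (D z).G ∧ F'.Reachable (jn y z) (jn y' z) := by
      intro k
      induction k with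
      | zero =>
        intro y' h
        have : y' = y := by simpa [it] using h.symm
        rw [this]
        exact ⟨hy, SimpleGraph.Reachable.refl _⟩
      | succ k ih =>
        intro y' h
        have h : (it (D z).c k y).bind (D z).c = some y' := h
        cases ha : it (D z).c k y with
        | none => rw [ha] at h; cases h
        | some a =>
          rw [ha] at h
          have h' : (D z).c a = some y' := h
          obtain ⟨h1, h2⟩ := ih a ha
          obtain ⟨b, hb, hb'⟩ := (hD z).gcyc a h1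
          have hby : b = y' := by
            rw [h'] at hb'
            exact (Option.some.inj hb').symm
          subst hby
          exact ⟨hb, h2.trans ((hG z a h1 _).2 ⟨b, rfl, hb, Or.inl h'⟩).reachable⟩
    exact (H k y' hk).2

/-- the reserved runs are runs of `F'` -/
theorem mg_res_run (hD : ∀ z, (D z).Val D0 Adms L Vr Bd0)
    (hG : ∀ z, ∀ y ∈ (D z).G, ∀ u, F'.Adj (jn y z) u ↔
      ∃ y', u = jn y' z ∧ y' ∈ (D z).G ∧ ((D z).c y = some y' ∨ (D z).c y' = some y))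
    {z : Cube δ} (hz : (D z).G.Nonempty) (i : Fin nR) :
    RunIn (liftP fun z => (D z).b) (fun x => lGd D x) L F' (jn ((D z).res i) z) := by
  obtain ⟨h1, h2, h3⟩ := (hD z).rgd hz i
  refine ⟨h1, ?_⟩
  have H : ∀ k, k + 1 < L → ∀ a, it (D z).b k ((D z).res i) = some a → a ∈ (D z).G := by
    intro k
    induction k with
    | zero =>
      intro _ a ha
      have : a = (D z).res i := by simpa [it] using ha.symm
      rw [this]
      exact h2
    | succ k ih =>
      intro hk a ha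
      obtain ⟨c, c', g1, g2, g3⟩ := h3 k (by omega)
      have h4 : it (D z).b (k + 1) ((D z).res i) = some c' := by
        show (it (D z).b k _).bind (D z).b = _
        rw [g1]
        exact g2
      rw [h4] at ha
      have : c' = a := by simpa using ha
      subst this
      have h5 := ih (by omega) c g1
      obtain ⟨b, hb, hb'⟩ := (hD z).gcyc c h5
      rw [g3] at hb'
      rw [Option.some.inj hb']
      exact hb
  intro k hk
  obtain ⟨c, c', g1, g2, g3⟩ := h3 k hk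
  refine ⟨jn c z, jn c' z, ?_, ?_, ?_⟩
  · rw [mg_it_lift, g1]; rfl
  · show ((D z).b c).map _ = _
    rw [g2]; rfl
  · have h5 := H k hk c g1
    obtain ⟨b, hb, hb'⟩ := (hD z).gcyc c h5
    rw [g3] at hb'
    have hbc : c' = b := Option.some.inj hb'
    exact (hG z c h5 _).2 ⟨c', rfl, by rw [hbc]; exact hb, Or.inl g3⟩

/-- options are edges of the giant -/
theorem mg_opt_edge (hD : ∀ z, (D z).Val D0 Adms L Vr Bd0)
    (hG : ∀ z, ∀ y ∈ (D z).G, ∀ u, F'.Adj (jn y z) u ↔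
      ∃ y', u = jn y' z ∧ y' ∈ (D z).G ∧ ((D z).c y = some y' ∨ (D z).c y' = some y))
    {z : Cube δ} {e : CE β} (he : e ∈ (D z).opt D0 L) :
    e.1.1 ∈ (D z).G ∧ F'.Adj (jn e.1.1 z) (jn (flip e.1.2 e.1.1) z) := by
  classical
  rw [BD.opt, mem_filter] at he
  obtain ⟨-, -, -, y, hy, h1, -, h3⟩ := he
  obtain ⟨y', hy', h2⟩ := (hD z).gcyc y hy
  rw [h1] at h2
  have h4 : flip e.1.2 y = y' := Option.some.inj h2
  rw [← h4] at hy'
  have h5 : F'.Adj (jn y z) (jn (flip e.1.2 y) z) := (hG z y hy _).2 ⟨_, rfl, hy', Or.inl h1⟩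
  rcases mg_can_pair h3 with h6 | h6
  · rw [← h6]
    exact ⟨hy, h5⟩
  · have h7 : flip e.1.2 y = e.1.1 := by rw [h6, flip_flip]
    rw [h7] at h5 hy'
    rw [← h6]
    exact ⟨hy', h5.symm⟩

theorem mg_opt_res {D : BD β nR} {e : CE β} (he : e ∈ D.opt D0 L) (i : Fin nR) :
    e ∉ runD0 D0 D.b L (D.res i) := by
  classical
  rw [BD.opt, mem_filter] at he
  exact he.2.2.1 i

theorem mg_opt_ne {D : BD β nR} {e : CE β} (he : e ∈ D.opt D0 L) : D.G.Nonempty := by
  classical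
  rw [BD.opt, mem_filter] at he
  obtain ⟨-, -, -, y, hy, -⟩ := he
  exact ⟨y, hy⟩

end Giant


section Main

variable {D0 : Finset β} {L : ℕ} {D : Cube (Fin nR) → BD β nR} {r3 : Cube β × CE (Fin nR) → Bool}

/-- distance to the root among the giants -/
theorem mg_dist (hM : MEv D0 L D r3) {z0 : Cube (Fin nR)} (hz0 : (D z0).G.Nonempty) :
    ∃ rk : Cube (Fin nR) → ℕ, ∀ z, (D z).G.Nonempty → z ≠ z0 → ∃ i, (D (flip i z)).G.Nonempty ∧
      rk (flip i z) < rk z ∧ (Rich D0 L D r3 z ((D z).res i) i ∨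
        Rich D0 L D r3 (flip i z) ((D (flip i z)).res i) i) := by
  classical
  set Gr := SimpleGraph.fromRel (GAdj D0 L D r3) with hGr
  refine ⟨fun z => Gr.dist z z0, fun z hz hne => ?_⟩
  have hr : Gr.Reachable z z0 := by
    have h := hM.con z z0 hz hz0
    induction h with
    | refl => exact SimpleGraph.Reachable.refl _
    | @tail b c _ hbc ih =>
      by_cases hb : z = b
      · subst hb
        obtain ⟨h1, h2, i, hi, h3⟩ := hbc
        refine SimpleGraph.Adj.reachable ?_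
        rw [hGr, SimpleGraph.fromRel_adj]
        exact ⟨by rw [hi]; exact (flip_ne i z).symm, Or.inl ⟨h1, h2, i, hi, h3⟩⟩
      · have h1 := ih hbc.1 hb
        refine h1.trans (SimpleGraph.Adj.reachable ?_)
        rw [hGr, SimpleGraph.fromRel_adj]
        obtain ⟨_, _, i, hi, _⟩ := id hbc
        exact ⟨by rw [hi]; exact (flip_ne i b).symm, Or.inl hbc⟩
  obtain ⟨p, hp⟩ := hr.exists_walk_length_eq_dist
  cases p with
  | nil => exact absurd rfl hne
  | @cons _ v _ h p =>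
    have h1 : Gr.dist v z0 < Gr.dist z z0 := by
      rw [← hp, SimpleGraph.Walk.length_cons]
      exact Nat.lt_succ_of_le (SimpleGraph.dist_le p)
    rw [hGr, SimpleGraph.fromRel_adj] at h
    obtain ⟨_, h | h⟩ := h
    · obtain ⟨_, g2, i, hi, h3⟩ := h
      subst hi
      exact ⟨i, g2, h1, h3⟩
    · obtain ⟨g2, _, i, hi, h3⟩ := h
      have hv : v = flip i z := by rw [hi, flip_flip]
      subst hv
      exact ⟨i, g2, h1, h3.symm⟩

theorem mg_rich_ne (hnR : 1 ≤ nR) {z : Cube (Fin nR)} {u : Cube β} {i : Fin nR} (h : Rich D0 L D r3 z u i) :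
    ∃ e, e ∈ opts D0 L D r3 z u i := by
  have h1 : 0 < (opts D0 L D r3 z u i).card := by
    have : 4 * nR ≤ (opts D0 L D r3 z u i).card := h
    omega
  exact card_pos.1 h1

theorem mg_opts {z : Cube (Fin nR)} {u : Cube β} {i : Fin nR} {e : CE β} (h : e ∈ opts D0 L D r3 z u i) :
    e ∈ runD0 D0 (D z).b L u ∧ e ∈ (D (flip i z)).opt D0 L ∧ flipOpen r3 z i e := by
  classical
  rw [opts, mem_filter, mem_inter] at h
  exact ⟨h.1.1, h.1.2, h.2⟩

theorem mg_L {z : Cube (Fin nR)} {u : Cube β} {e : CE β} (h : e ∈ runD0 D0 (D z).b L u) : 1 < L := by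
  classical
  rw [runD0, mem_filter] at h
  obtain ⟨-, -, k, a, hk, -⟩ := h
  omega

open Classical in
/-- **merging** -/
theorem merge_all {D0 : Finset β} {Adms : Finset (CE β) → Prop} {L Vr Bd0 : ℕ} (hnR : 1 ≤ nR)
    (D : Cube (Fin nR) → BD β nR) (hD : ∀ z, (D z).Val D0 Adms L Vr Bd0) (r3 : Cube β × CE (Fin nR) → Bool)
    (hM : MEv D0 L D r3) (F' : SimpleGraph (Cube (β ⊕ Fin nR))) (X Bad : Finset (Cube (β ⊕ Fin nR)))
    (hX : ∀ v ∈ X, ∀ u, ¬ F'.Adj v u) (hreg : ∀ v, v ∉ X → (univ.filter fun u => F'.Adj v u).card = 2)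
    (hG : ∀ z, ∀ y ∈ (D z).G, ∀ u, F'.Adj (jn y z) u ↔
      ∃ y', u = jn y' z ∧ y' ∈ (D z).G ∧ ((D z).c y = some y' ∨ (D z).c y' = some y))
    (hgood : ∀ v, v ∉ X → v ∉ Bad → ∃ u, RunIn (liftP fun z => (D z).b) (fun x => lGd D x) L F' u ∧ F'.Reachable v u) :
    ∃ l : List (Cube (β ⊕ Fin nR)), IsCyc (fun x y => F'.Adj x y ∨ ∃ i, y = flip (Sum.inr i) x ∧
        r3 (x ∘ Sum.inl, (canE (Fin nR)).e (x ∘ Sum.inr) i) = true) l ∧
      ∀ v, v ∉ X → v ∉ Bad → v ∈ l := by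
  classical
  set A : Cube (β ⊕ Fin nR) → Cube (β ⊕ Fin nR) → Prop := fun x y => F'.Adj x y ∨ ∃ i, y = flip (Sum.inr i) x ∧
        r3 (x ∘ Sum.inl, (canE (Fin nR)).e (x ∘ Sum.inr) i) = true with hAdef
  have hA : ∀ x y, A x y → A y x := by
    rintro x y (h | ⟨i, rfl, h⟩)
    · exact Or.inl h.symm
    · refine Or.inr ⟨i, by rw [flip_flip], ?_⟩
      rw [flip_inr, jn_inl, jn_inr, (canE (Fin nR)).symm]
      exact h
  obtain ⟨z0, hz0⟩ := hM.ex
  obtain ⟨rk, hrk⟩ := mg_dist hM hz0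
  set N := (univ.sup rk) + 1 with hN
  have hrkN : ∀ z, rk z < N := fun z => Nat.lt_succ_of_le (Finset.le_sup (mem_univ z))
  -- cycles
  have hcyc : ∀ v, (∃ u, F'.Adj v u) → ∃ l, IsCyc F'.Adj l ∧ (∀ w, w ∈ l ↔ F'.Reachable v w) ∧
      ∀ a b, a ∈ l → F'.Adj a b → CAdj l a b := by
    intro v hv
    refine two_regular_cycle F' v fun w hw => ?_
    have h1 : w ∉ X := by
      intro hwX
      by_cases hvw : v = w
      · subst hvw
        obtain ⟨u, hu⟩ := hv
        exact hX v hwX u hu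
      · obtain ⟨p⟩ := hw.symm
        cases p with
        | nil => exact hvw rfl
        | cons h p => exact hX _ hwX _ h
    exact hreg w h1
  set J1 := {z : Cube (Fin nR) // (D z).G.Nonempty} with hJ1
  set J2 := {C : F'.ConnectedComponent // (∃ u, RunIn (liftP fun z => (D z).b) (fun x => lGd D x) L F' u ∧
    F'.connectedComponentMk u = C) ∧ ∀ z, ∀ y ∈ (D z).G, F'.connectedComponentMk (jn y z) ≠ C} with hJ2
  set bv : J1 ⊕ J2 → Cube (β ⊕ Fin nR) := Sum.elim (fun z => jn z.2.choose z.1) (fun C => C.2.1.choose) with hbvdef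
  have hrunL : ∀ u : Cube (β ⊕ Fin nR), lGd D u → 1 < L := by
    intro u hu
    obtain ⟨i, hi⟩ := hM.run _ _ hu
    obtain ⟨e, he⟩ := mg_rich_ne hnR hi
    exact mg_L (mg_opts he).1
  have hbv : ∀ i, ∃ u, F'.Adj (bv i) u := by
    rintro (z | C)
    · have h1 := z.2.choose_spec
      obtain ⟨y', hy', h2⟩ := (hD z.1).gcyc _ h1
      exact ⟨jn y' z.1, (hG z.1 _ h1 _).2 ⟨y', rfl, hy', Or.inl h2⟩⟩
    · have h1 := C.2.1.choose_spec.1
      have h2 := hrunL _ h1.1
      obtain ⟨y, y', h3, -, h4⟩ := h1.2 0 (by omega)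
      have h5 : C.2.1.choose = y := by simpa [it] using h3
      refine ⟨y', ?_⟩
      show F'.Adj C.2.1.choose y'
      rw [h5]
      exact h4
  choose Lc hc1 hc2 hc3 using fun i => hcyc (bv i) (hbv i)
  have hm1 : ∀ z : J1, ∀ y ∈ (D z.1).G, jn y z.1 ∈ Lc (Sum.inl z) := fun z y hy =>
    (hc2 _ _).2 ((mg_comp hD hG z.2.choose_spec _).2 ⟨y, hy, rfl⟩)
  have hm2 : ∀ C : J2, ∀ v, F'.connectedComponentMk v = C.1 → v ∈ Lc (Sum.inr C) := fun C v hv =>
    (hc2 _ _).2 (SimpleGraph.ConnectedComponent.exact (C.2.1.choose_spec.2.trans hv.symm))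
  have hdis : ∀ i j, i ≠ j → List.Disjoint (Lc i) (Lc j) := by
    intro i j hij v hvi hvj
    rw [hc2] at hvi hvj
    have h : F'.Reachable (bv i) (bv j) := hvi.trans hvj.symm
    apply hij
    rcases i with z | C <;> rcases j with z' | C'
    · obtain ⟨y', _, h1⟩ := (mg_comp hD hG z.2.choose_spec _).1 h
      exact congrArg Sum.inl (Subtype.ext (jn_inj h1).2.symm)
    · exact absurd ((SimpleGraph.ConnectedComponent.sound h).trans C'.2.1.choose_spec.2)
        (C'.2.2 z.1 _ z.2.choose_spec)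
    · exact absurd ((SimpleGraph.ConnectedComponent.sound h.symm).trans C.2.1.choose_spec.2)
        (C.2.2 z'.1 _ z'.2.choose_spec)
    · exact congrArg Sum.inr (Subtype.ext (C.2.1.choose_spec.2.symm.trans
        ((SimpleGraph.ConnectedComponent.sound h).trans C'.2.1.choose_spec.2)))
  set root : J1 ⊕ J2 := Sum.inl ⟨z0, hz0⟩ with hroot
  set rk' : J1 ⊕ J2 → ℕ := Sum.elim (fun z => rk z.1) (fun _ => N) with hrk'
  -- demands
  have hdem : ∀ i : J1 ⊕ J2, ∃ (z' : J1) (dir : Fin nR) (cz sz : Cube (Fin nR)) (su : Cube β), i ≠ root →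
      rk' (Sum.inl z') < rk' i ∧ z'.1 = flip dir cz ∧ Rich D0 L D r3 sz su dir ∧
      ((∃ C : J2, i = Sum.inr C ∧ sz = cz ∧ RunIn (liftP fun z => (D z).b) (fun x => lGd D x) L F' (jn su sz) ∧
          F'.connectedComponentMk (jn su sz) = C.1) ∨
        (∃ z : J1, i = Sum.inl z ∧ cz = z.1 ∧ su = (D sz).res dir ∧ (sz = cz ∨ sz = flip dir cz) ∧
          (D sz).G.Nonempty)) := by
    rintro (z | C)
    · by_cases hz : z.1 = z0
      · refine ⟨z, ⟨0, hnR⟩, z0, z0, fun _ => false, fun h => absurd ?_ h⟩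
        exact congrArg Sum.inl (Subtype.ext hz)
      · obtain ⟨i, h1, h2, h3⟩ := hrk z.1 z.2 hz
        rcases h3 with h3 | h3
        · exact ⟨⟨_, h1⟩, i, z.1, z.1, _, fun _ => ⟨h2, rfl, h3, Or.inr ⟨z, rfl, rfl, rfl, Or.inl rfl, z.2⟩⟩⟩
        · exact ⟨⟨_, h1⟩, i, z.1, flip i z.1, _, fun _ => ⟨h2, rfl, h3, Or.inr ⟨z, rfl, rfl, rfl, Or.inr rfl, h1⟩⟩⟩
    · obtain ⟨⟨u, h1, h2⟩, h3⟩ := id C.2
      obtain ⟨i, hi⟩ := hM.run _ _ h1.1
      obtain ⟨e, he⟩ := mg_rich_ne hnR hi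
      have h4 := mg_opt_ne (mg_opts he).2.1
      refine ⟨⟨_, h4⟩, i, u ∘ Sum.inr, u ∘ Sum.inr, u ∘ Sum.inl, fun _ => ⟨hrkN _, rfl, hi, Or.inl ⟨C, rfl, rfl, ?_, ?_⟩⟩⟩
      · rw [jn_self]; exact h1
      · rw [jn_self]; exact h2
  choose z' dir cz sz su hd using hdem
  have hinj1 : ∀ i j, i ≠ root → j ≠ root → (∃ z : J1, i = Sum.inl z ∧ cz i = z.1) →
      (∃ z : J1, j = Sum.inl z ∧ cz j = z.1) → dir i = dir j →
      (cz i = cz j ∨ cz i = flip (dir i) (cz j)) → i = j := by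
    rintro i j hi hj ⟨z, hz, hz1⟩ ⟨w, hw, hw1⟩ hdd hc
    rcases hc with hc | hc
    · rw [hz, hw]
      exact congrArg Sum.inl (Subtype.ext (by rw [← hz1, ← hw1, hc]))
    · exfalso
      have e1 : z' j = z := Subtype.ext (by rw [(hd j hj).2.1, ← hdd, ← hc, hz1])
      have e2 : z' i = w := Subtype.ext (by rw [(hd i hi).2.1, hc, flip_flip, hw1])
      have r1 := (hd i hi).1
      have r2 := (hd j hj).1
      rw [e2, ← hw] at r1
      rw [e1, ← hz] at r2
      omega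
  have hrun : ∀ i, i ≠ root → RunIn (liftP fun z => (D z).b) (fun x => lGd D x) L F' (jn (su i) (sz i)) := by
    intro i hi
    rcases (hd i hi).2.2.2 with ⟨C, -, -, h, -⟩ | ⟨z, -, -, h1, -, h2⟩
    · exact h
    · rw [h1]
      exact mg_res_run hD hG h2 _
  set O : {i : J1 ⊕ J2 // i ≠ root} → Finset (Cube (Fin nR) × CE β) := fun i =>
    (opts D0 L D r3 (sz i.1) (su i.1) (dir i.1)).image fun e => (flip (dir i.1) (sz i.1), e) with hO
  have : Fintype (J1 ⊕ J2) := Fintype.ofFinite _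
  have : Fintype {i : J1 ⊕ J2 // i ≠ root} := Fintype.ofFinite _
  obtain ⟨f, hf, hfO⟩ := hall_opt O (2 * nR) (by omega) (by
    intro i
    rw [hO]
    simp only
    rw [card_image_of_injective _ (fun a b h => (Prod.mk.inj h).2)]
    have : 4 * nR ≤ (opts D0 L D r3 (sz i.1) (su i.1) (dir i.1)).card := (hd i.1 i.2).2.2.1
    omega) (by
    intro t
    have hinj : Set.InjOn (fun i : {i : J1 ⊕ J2 // i ≠ root} => (dir i.1, i.1.isLeft)) {i | t ∈ O i} := by
      rintro i hi j hj hij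
      rw [Prod.mk.injEq] at hij
      obtain ⟨hdd, hll⟩ := hij
      rw [Set.mem_ofPred_eq, hO, mem_image] at hi hj
      obtain ⟨e, he, het⟩ := hi
      obtain ⟨e', he', het'⟩ := hj
      rw [← het'] at het
      obtain ⟨g1, g2⟩ := Prod.mk.inj het
      subst g2
      rw [hdd] at g1
      have g3 : sz i.1 = sz j.1 := flip_injective _ g1
      apply Subtype.ext
      rcases (hd i.1 i.2).2.2.2 with ⟨C, h1, h2, h3, h4⟩ | ⟨z, h1, h2, h3, h4, h5⟩ <;>
      rcases (hd j.1 j.2).2.2.2 with ⟨C', h1', h2', h3', h4'⟩ | ⟨w, h1', h2', h3', h4', h5'⟩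
      · have k1 := (mg_run_edge h3 (mg_opts he).1).2
        have k2 := (mg_run_edge h3' (mg_opts he').1).2
        rw [h1, h1']
        refine congrArg Sum.inr (Subtype.ext ?_)
        rw [← h4, ← h4', SimpleGraph.ConnectedComponent.sound k1, SimpleGraph.ConnectedComponent.sound k2, g3]
      · rw [h1, h1'] at hll
        simp at hll
      · rw [h1, h1'] at hll
        simp at hll
      · refine hinj1 i.1 j.1 i.2 j.2 ⟨z, h1, h2⟩ ⟨w, h1', h2'⟩ hdd ?_
        rw [g3] at h4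
        rw [hdd] at h4 ⊢
        rcases h4 with h4 | h4 <;> rcases h4' with h4' | h4'
        · exact Or.inl (h4.symm.trans h4')
        · exact Or.inr (h4.symm.trans h4')
        · right
          rw [← h4', h4, flip_flip]
        · left
          exact flip_injective _ (h4.symm.trans h4')
    rw [← Set.InjOn.ncard_image hinj]
    refine (Set.ncard_le_ncard (Set.subset_univ _) Set.finite_univ).trans ?_
    rw [Set.ncard_univ, Nat.card_eq_fintype_card]
    simp [mul_comm])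
  have hfe : ∀ i : {i : J1 ⊕ J2 // i ≠ root}, ∃ e, e ∈ opts D0 L D r3 (sz i.1) (su i.1) (dir i.1) ∧
      (flip (dir i.1) (sz i.1), e) = f i := fun i => mem_image.1 (hfO i)
  choose e he hfe using hfe
  have hxx : ∀ i : J1 ⊕ J2, ∃ x x' y y' : Cube (β ⊕ Fin nR), ∀ h : i ≠ root,
      x = jn (e ⟨i, h⟩).1.1 (cz i) ∧ x' = jn (flip (e ⟨i, h⟩).1.2 (e ⟨i, h⟩).1.1) (cz i) ∧
      y = jn (e ⟨i, h⟩).1.1 (flip (dir i) (cz i)) ∧
      y' = jn (flip (e ⟨i, h⟩).1.2 (e ⟨i, h⟩).1.1) (flip (dir i) (cz i)) := by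
    intro i
    by_cases h : i ≠ root
    · exact ⟨jn (e ⟨i, h⟩).1.1 (cz i), jn (flip (e ⟨i, h⟩).1.2 (e ⟨i, h⟩).1.1) (cz i),
        jn (e ⟨i, h⟩).1.1 (flip (dir i) (cz i)),
        jn (flip (e ⟨i, h⟩).1.2 (e ⟨i, h⟩).1.1) (flip (dir i) (cz i)), fun _ => ⟨rfl, rfl, rfl, rfl⟩⟩
    · exact ⟨bv i, bv i, bv i, bv i, fun h' => absurd h' h⟩
  choose x x' y y' hx using hxx
  have hsrc : ∀ i (h : i ≠ root), _ := fun i h => mg_run_edge (hrun i h) (mg_opts (he ⟨i, h⟩)).1
  have htgt : ∀ i (h : i ≠ root), _ := fun i h => mg_opt_edge hD hG (mg_opts (he ⟨i, h⟩)).2.1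
  have hsrcG : ∀ i (h : i ≠ root), su i = (D (sz i)).res (dir i) → (D (sz i)).G.Nonempty →
      (e ⟨i, h⟩).1.1 ∈ (D (sz i)).G := by
    intro i h h1 h2
    have h3 := (hsrc i h).2
    rw [h1] at h3
    obtain ⟨a, ha, ha'⟩ := (mg_comp hD hG ((hD _).rgd h2 (dir i)).2.1 _).1 h3
    rw [(jn_inj ha').1]
    exact ha
  -- edges of the parents
  have hP : ∀ i (h : i ≠ root), (e ⟨i, h⟩).1.1 ∈ (D (flip (dir i) (cz i))).G ∧
      F'.Adj (jn (e ⟨i, h⟩).1.1 (flip (dir i) (cz i)))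
        (jn (flip (e ⟨i, h⟩).1.2 (e ⟨i, h⟩).1.1) (flip (dir i) (cz i))) := by
    intro i h
    rcases (hd i h).2.2.2 with ⟨C, h1, h2, h3, h4⟩ | ⟨z, h1, h2, h3, h4, h5⟩
    · rw [← h2]
      exact htgt i h
    · rcases h4 with h4 | h4
      · rw [← h4]
        exact htgt i h
      · rw [← h4]
        exact ⟨hsrcG i h h3 h5, (hsrc i h).1⟩
  have hC : ∀ i (h : i ≠ root), jn (e ⟨i, h⟩).1.1 (cz i) ∈ Lc i ∧
      F'.Adj (jn (e ⟨i, h⟩).1.1 (cz i)) (jn (flip (e ⟨i, h⟩).1.2 (e ⟨i, h⟩).1.1) (cz i)) := by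
    intro i h
    rcases (hd i h).2.2.2 with ⟨C, h1, h2, h3, h4⟩ | ⟨z, h1, h2, h3, h4, h5⟩
    · have k := hsrc i h
      rw [h2] at k h4
      refine ⟨?_, k.1⟩
      have k2 := hm2 C _ ((SimpleGraph.ConnectedComponent.sound k.2).symm.trans h4)
      rw [← h1] at k2
      exact k2
    · have k : (e ⟨i, h⟩).1.1 ∈ (D (cz i)).G ∧
          F'.Adj (jn (e ⟨i, h⟩).1.1 (cz i)) (jn (flip (e ⟨i, h⟩).1.2 (e ⟨i, h⟩).1.1) (cz i)) := by
        rcases h4 with h4 | h4
        · rw [← h4]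
          exact ⟨hsrcG i h h3 h5, (hsrc i h).1⟩
        · have k := htgt i h
          dsimp only at k
          rw [h4, flip_flip] at k
          exact k
      refine ⟨?_, k.2⟩
      have k2 := k.1
      rw [h2] at k2
      have k3 := hm1 z _ k2
      rw [← h2, ← h1] at k3
      exact k3
  -- classification
  have hPc : ∀ i (h : i ≠ root),
      (f ⟨i, h⟩ = (flip (dir i) (cz i), e ⟨i, h⟩) ∧ e ⟨i, h⟩ ∈ (D (flip (dir i) (cz i))).opt D0 L) ∨
      ((∃ z : J1, i = Sum.inl z ∧ cz i = z.1) ∧ (D (flip (dir i) (cz i))).G.Nonempty ∧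
        e ⟨i, h⟩ ∈ runD0 D0 (D (flip (dir i) (cz i))).b L ((D (flip (dir i) (cz i))).res (dir i))) := by
    intro i h
    have k1 := mg_opts (he ⟨i, h⟩)
    have k2 := hfe ⟨i, h⟩
    dsimp only at k1 k2
    rcases (hd i h).2.2.2 with ⟨C, h1, h2, h3, h4⟩ | ⟨z, h1, h2, h3, h4, h5⟩
    · rw [h2] at k1 k2
      exact Or.inl ⟨k2.symm, k1.2.1⟩
    · rcases h4 with h4 | h4
      · rw [h4] at k1 k2
        exact Or.inl ⟨k2.symm, k1.2.1⟩
      · right
        rw [h3] at k1
        rw [h4] at k1 h5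
        exact ⟨⟨z, h1, h2⟩, h5, k1.1⟩
  have hCc : ∀ i (h : i ≠ root), (∃ C : J2, F'.connectedComponentMk (jn (e ⟨i, h⟩).1.1 (cz i)) = C.1) ∨
      ((∃ z : J1, i = Sum.inl z ∧ cz i = z.1) ∧
        ((f ⟨i, h⟩ = (cz i, e ⟨i, h⟩) ∧ e ⟨i, h⟩ ∈ (D (cz i)).opt D0 L) ∨
        ((D (cz i)).G.Nonempty ∧ e ⟨i, h⟩ ∈ runD0 D0 (D (cz i)).b L ((D (cz i)).res (dir i))))) := by
    intro i h
    have k1 := mg_opts (he ⟨i, h⟩)
    have k2 := hfe ⟨i, h⟩
    dsimp only at k1 k2
    rcases (hd i h).2.2.2 with ⟨C, h1, h2, h3, h4⟩ | ⟨z, h1, h2, h3, h4, h5⟩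
    · left
      have k := hsrc i h
      rw [h2] at k h4
      exact ⟨C, (SimpleGraph.ConnectedComponent.sound k.2).symm.trans h4⟩
    · refine Or.inr ⟨⟨z, h1, h2⟩, ?_⟩
      rcases h4 with h4 | h4
      · right
        rw [h3] at k1
        rw [h4] at k1 h5
        exact ⟨h5, k1.1⟩
      · left
        rw [h4, flip_flip] at k1 k2
        exact ⟨k2.symm, k1.2.1⟩
  have hlab : ∀ i, i ≠ root → (canE (Fin nR)).e (cz i) (dir i) = (canE (Fin nR)).e (sz i) (dir i) := by
    intro i h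
    rcases (hd i h).2.2.2 with ⟨C, h1, h2, h3, h4⟩ | ⟨z, h1, h2, h3, h4, h5⟩
    · rw [h2]
    · rcases h4 with h4 | h4
      · rw [h4]
      · rw [h4, (canE (Fin nR)).symm]
  obtain ⟨l, hl, hlm⟩ := merge_tree (I := J1 ⊕ J2) (A := A) hA Lc
    (fun i => ⟨(hc1 i).nodup, (hc1 i).len, fun a b hab => Or.inl ((hc1 i).adj a b hab)⟩) hdis root
    (fun i => Sum.inl (z' i)) rk' (fun i h => (hd i h).1) x x' y y'
    (by
      intro i h
      obtain ⟨h1, h2, -, -⟩ := hx i h
      rw [h1, h2]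
      exact hc3 i _ _ (hC i h).1 (hC i h).2)
    (by
      intro i h
      obtain ⟨-, -, h1, h2⟩ := hx i h
      rw [h1, h2]
      refine hc3 (Sum.inl (z' i)) _ _ ?_ (hP i h).2
      have k := (hP i h).1
      rw [← (hd i h).2.1] at k ⊢
      exact hm1 _ _ k)
    (by
      intro i h
      obtain ⟨h1, h2, h3, h4⟩ := hx i h
      rw [h1, h2, h3, h4]
      obtain ⟨k1, k2⟩ := (mg_opts (he ⟨i, h⟩)).2.2
      dsimp only at k1 k2
      rw [← hlab i h] at k1 k2
      refine ⟨Or.inr ⟨dir i, ?_, ?_⟩, Or.inr ⟨dir i, ?_, ?_⟩⟩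
      · rw [flip_inr, jn_inl, jn_inr]
      · rw [jn_inl, jn_inr]; exact k1
      · rw [flip_inr, jn_inl, jn_inr]
      · rw [jn_inl, jn_inr]; exact k2)
    (by
      intro i j hi hj hij h
      obtain ⟨-, -, h1, h2⟩ := hx i hi
      obtain ⟨-, -, h3, h4⟩ := hx j hj
      rw [h1, h2, h3, h4] at h
      obtain ⟨g1, g2⟩ := mg_sym2 h
      rcases hPc i hi with ⟨a1, a2⟩ | ⟨a1, a2, a3⟩ <;> rcases hPc j hj with ⟨b1, b2⟩ | ⟨b1, b2, b3⟩
      · have : f ⟨i, hi⟩ = f ⟨j, hj⟩ := by rw [a1, b1, g1, g2]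
        exact hij (congrArg Subtype.val (hf this))
      · rw [g1, g2] at a2
        exact mg_opt_res a2 _ b3
      · rw [← g1, ← g2] at b2
        exact mg_opt_res b2 _ a3
      · rw [← g1, ← g2] at b3
        have hdd := mg_rdis (hD _) a2 a3 b3
        refine hij (hinj1 i j hi hj a1 b1 hdd (Or.inl ?_))
        rw [hdd] at g1
        exact flip_injective _ g1)
    (by
      intro i j hi hj h
      obtain ⟨h1, h2, -, -⟩ := hx i hi
      obtain ⟨-, -, h3, h4⟩ := hx j hj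
      rw [h1, h2, h3, h4] at h
      obtain ⟨g1, g2⟩ := mg_sym2 h
      have hne : i = j → False := by
        intro hij
        subst hij
        exact flip_ne _ _ g1.symm
      rcases hCc i hi with ⟨C, a1⟩ | ⟨a1, ⟨a2, a3⟩ | ⟨a2, a3⟩⟩
      · have k := (hP j hj).1
        rw [← g1, ← g2] at k
        exact C.2.2 _ _ k a1
      · rcases hPc j hj with ⟨b1, b2⟩ | ⟨b1, b2, b3⟩
        · have : f ⟨i, hi⟩ = f ⟨j, hj⟩ := by rw [a2, b1, g1, g2]
          exact hne (congrArg Subtype.val (hf this))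
        · rw [← g1, ← g2] at b3
          exact mg_opt_res a3 _ b3
      · rcases hPc j hj with ⟨b1, b2⟩ | ⟨b1, b2, b3⟩
        · rw [← g1, ← g2] at b2
          exact mg_opt_res b2 _ a3
        · rw [← g1, ← g2] at b3
          have hdd := mg_rdis (hD _) a2 a3 b3
          refine hne (hinj1 i j hi hj a1 b1 hdd (Or.inr ?_))
          rw [hdd]
          exact g1)
  refine ⟨l, hl, fun v hv1 hv2 => ?_⟩
  rw [hlm]
  obtain ⟨u, hu, hvu⟩ := hgood v hv1 hv2
  by_cases hg : ∃ z, ∃ y ∈ (D z).G, F'.connectedComponentMk (jn y z) = F'.connectedComponentMk u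
  · obtain ⟨z, a, ha, hau⟩ := hg
    refine ⟨Sum.inl ⟨z, ⟨a, ha⟩⟩, (hc2 _ _).2 ?_⟩
    have k1 := (hc2 _ _).1 (hm1 ⟨z, ⟨a, ha⟩⟩ a ha)
    exact (k1.trans (SimpleGraph.ConnectedComponent.exact hau)).trans hvu.symm
  · push Not at hg
    exact ⟨Sum.inr ⟨F'.connectedComponentMk u, ⟨u, hu, rfl⟩, hg⟩, hm2 _ v (SimpleGraph.ConnectedComponent.sound hvu)⟩

end Main

end MergeAll

end Pool.Agent.LongCyc.Dense
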