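import Pool.Agent.LongCyc.Dense.E2Def
import Pool.Agent.LongCyc.GoodProb

/-!
# Dense regime, section 7: one admissible set against an independent base fibre
-/

set_option autoImplicit false

namespace Pool.Agent.LongCyc.Dense

open Finset

section E5

variable {β : Type} [DecidableEq β] [Fintype β] {nR : ℕ} {pb : ℝ} {hb0 : 0 ≤ pb} {hb1 : pb ≤ 1}
  {u0 α0 ρ : ℝ} {L Vr Bd0 M0 : ℕ}

private theorem exp_small {x : ℝ} (h : x ≤ -60) : Real.exp x ≤ 1 / 2000 := by
  have h1 : Real.exp x ≤ Real.exp (-60) := Real.exp_le_exp.2 h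
  refine h1.trans ?_
  have h2 : (21 : ℝ) ≤ Real.exp 20 := by
    have := Real.add_one_le_exp (20 : ℝ)
    linarith
  have h3 : Real.exp (60 : ℝ) = Real.exp 20 ^ 3 := by
    rw [← Real.exp_nat_mul]
    norm_num
  have h4 : (2000 : ℝ) ≤ Real.exp 60 := by
    rw [h3]
    calc (2000 : ℝ) ≤ 21 ^ 3 := by norm_num
      _ ≤ Real.exp 20 ^ 3 := pow_le_pow_left₀ (by norm_num) h2 3
  rw [Real.exp_neg, ← one_div]
  exact one_div_le_one_div_of_le (by norm_num) h4

open Classical in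
/-- open flips among a set of disjoint edges -/
theorem flip_tail {p3 : ℝ} (h0 : 0 ≤ p3) (h1 : p3 ≤ 1) (hnR : 10 ≤ nR) (hM : 16 * (nR : ℝ) ≤ M0 * p3 ^ 2)
    (K : Finset (CE β)) (hK : ∀ e ∈ K, ∀ e' ∈ K, e ≠ e' →
      e.1.1 ≠ e'.1.1 ∧ e.1.1 ≠ flip e'.1.2 e'.1.1 ∧ flip e.1.2 e.1.1 ≠ e'.1.1 ∧
        flip e.1.2 e.1.1 ≠ flip e'.1.2 e'.1.1) (hc : M0 ≤ K.card) (z : Cube (Fin nR)) (i : Fin nR) :
    (bern p3 h0 h1 (Cube β × CE (Fin nR))).pr (fun r => (K.filter fun e => flipOpen r z i e).card < 4 * nR) ≤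
      1 / 2000 := by
  have hq : ∀ e ∈ K, p3 ^ 2 ≤ (FP.pi fun _ : Cube β × CE (Fin nR) => ber p3 h0 h1).pr
      (fun r => flipOpen r z i e) := by
    intro e _
    have hne : ((e.1.1, (canE (Fin nR)).e z i) : Cube β × CE (Fin nR)) ≠
        (flip e.1.2 e.1.1, (canE (Fin nR)).e z i) := by
      intro h
      rw [Prod.mk.injEq] at h
      exact flip_ne e.1.2 e.1.1 h.1.symm
    have h2 := bern_two (p := p3) (h0 := h0) (h1 := h1) ((e.1.1, (canE (Fin nR)).e z i) : Cube β × CE (Fin nR))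
      (flip e.1.2 e.1.1, (canE (Fin nR)).e z i)
    rw [if_neg hne] at h2
    rw [← h2, FP.pr_eq]
    refine le_of_eq (FP.E_congr _ fun r => ?_)
    unfold flipOpen
    by_cases ha : r (e.1.1, (canE (Fin nR)).e z i) = true <;>
      by_cases hb : r (flip e.1.2 e.1.1, (canE (Fin nR)).e z i) = true <;> simp [ha, hb]
  have h := tail_indep (fun _ : Cube β × CE (Fin nR) => ber p3 h0 h1) K
    (fun e => {(e.1.1, (canE (Fin nR)).e z i), (flip e.1.2 e.1.1, (canE (Fin nR)).e z i)})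
    (by
      intro e he e' he' hee
      obtain ⟨a1, a2, a3, a4⟩ := hK e he e' he' hee
      rw [Function.onFun, Finset.disjoint_left]
      intro w hw hw'
      simp only [Finset.mem_insert, Finset.mem_singleton] at hw hw'
      rcases hw with hw | hw <;> rcases hw' with hw' | hw' <;> rw [hw, Prod.mk.injEq] at hw'
      · exact a1 hw'.1
      · exact a2 hw'.1
      · exact a3 hw'.1
      · exact a4 hw'.1)
    (fun e r => flipOpen r z i e)
    (by
      intro e _ r r' hr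
      unfold flipOpen
      rw [hr _ (by simp), hr _ (by simp)])
    (sq_nonneg p3) hq (4 * nR)
  refine le_trans ?_ (h.trans (exp_small ?_))
  · exact le_of_eq rfl
  · have he : Real.exp (-1) < 0.3678794412 := Real.exp_neg_one_lt_d9
    have hn : (10 : ℝ) ≤ nR := by exact_mod_cast hnR
    have hcc : (M0 : ℝ) ≤ K.card := by exact_mod_cast hc
    have h3 : 16 * (nR : ℝ) ≤ K.card * p3 ^ 2 :=
      hM.trans (mul_le_mul_of_nonneg_right hcc (sq_nonneg _))
    have h4 : 0.63 * (16 * (nR : ℝ)) ≤ (1 - Real.exp (-1)) * (K.card * p3 ^ 2) := by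
      apply mul_le_mul _ h3 (by positivity) (by linarith)
      linarith
    push_cast
    nlinarith

open Classical in
/-- one admissible set against an independent base fibre -/
theorem rich_one (B : BaseLaw β nR pb hb0 hb1 u0 α0 ρ L Vr Bd0 M0) {p3 : ℝ} (h0 : 0 ≤ p3) (h1 : p3 ≤ 1)
    (hnR : 10 ≤ nR) (hM : 16 * (nR : ℝ) ≤ M0 * p3 ^ 2) (A : Finset (CE β)) (hA : B.Adms A)
    (z : Cube (Fin nR)) (i : Fin nR) :
    (B.μ.prod (bern p3 h0 h1 (Cube β × CE (Fin nR)))).pr (fun s =>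
      ((A ∩ (B.bd s.1).opt B.D0 L).filter fun e => flipOpen s.2 z i e).card < 4 * nR) ≤ 1 / 400 := by
  letI := B.fin
  rw [FP.pr_eq, FP.E_prod]
  have hp := B.parl A hA
  have h2 : B.μ.pr (fun ω => ¬ (M0 ≤ (A ∩ (B.bd ω).opt B.D0 L).card)) ≤ 1 / 500 := by
    rw [FP.pr_compl]
    linarith
  have h3 : ∀ ω, (bern p3 h0 h1 (Cube β × CE (Fin nR))).E (fun b =>
      if ((A ∩ (B.bd (ω, b).1).opt B.D0 L).filter fun e => flipOpen (ω, b).2 z i e).card < 4 * nR
        then (1 : ℝ) else 0) ≤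
      (if ¬ (M0 ≤ (A ∩ (B.bd ω).opt B.D0 L).card) then 1 else 0) + 1 / 2000 := by
    intro ω
    have h4 := (bern p3 h0 h1 (Cube β × CE (Fin nR))).pr_eq (fun b =>
      ((A ∩ (B.bd ω).opt B.D0 L).filter fun e => flipOpen b z i e).card < 4 * nR)
    dsimp only
    rw [← h4]
    by_cases hc : M0 ≤ (A ∩ (B.bd ω).opt B.D0 L).card
    · rw [if_neg (not_not.2 hc), zero_add]
      exact flip_tail h0 h1 hnR hM _ (fun e he e' he' =>
        (B.admD A hA).2 e (Finset.mem_inter.1 he).1 e' (Finset.mem_inter.1 he').1) hc z i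
    · rw [if_pos hc]
      have := FP.pr_le_one (bern p3 h0 h1 (Cube β × CE (Fin nR))) (fun b =>
        ((A ∩ (B.bd ω).opt B.D0 L).filter fun e => flipOpen b z i e).card < 4 * nR)
      linarith
  refine (B.μ.E_mono h3).trans ?_
  rw [FP.E_add, FP.E_const]
  rw [FP.pr_eq] at h2
  linarith

end E5

end Pool.Agent.LongCyc.Dense
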