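import Pool.Agent.LongCyc.Dense.E2Def
import Pool.Agent.LongCyc.Dense.Rich

/-!
# Dense regime, section 7: the merging event has large probability (package E5b)
-/

set_option autoImplicit false

namespace Pool.Agent.LongCyc.Dense

open Finset

section Resample

variable {I : Type} [Fintype I] [DecidableEq I] {Ω : Type} [Fintype Ω]

/-- exchange the coordinates outside `S` of two points -/
def swS (S : Finset I) : Equiv.Perm ((I → Ω) × (I → Ω)) :=
  Function.Involutive.toPerm (fun q => (S.piecewise q.1 q.2, S.piecewise q.2 q.1)) (by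
    rintro ⟨a, b⟩
    refine Prod.ext ?_ ?_
    · funext i
      by_cases h : i ∈ S <;> simp [h]
    · funext i
      by_cases h : i ∈ S <;> simp [h])

theorem swS_w (μ : FP Ω) (S : Finset I) (q : (I → Ω) × (I → Ω)) :
    (FP.pi fun _ : I => μ).w (swS S q).1 * (FP.pi fun _ : I => μ).w (swS S q).2 =
      (FP.pi fun _ : I => μ).w q.1 * (FP.pi fun _ : I => μ).w q.2 := by
  simp only [FP.pi_w, ← Finset.prod_mul_distrib]
  refine Finset.prod_congr rfl fun i _ => ?_
  by_cases h : i ∈ S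
  · simp [swS, Function.Involutive.toPerm, h]
  · simp [swS, Function.Involutive.toPerm, h, mul_comm]

/-- resampling the coordinates in `S` -/
theorem E_resample (μ : FP Ω) (S : Finset I) (f : (I → Ω) → ℝ) :
    (FP.pi fun _ : I => μ).E f = (FP.pi fun _ : I => μ).E fun a =>
      (FP.pi fun _ : I => μ).E fun b => f (S.piecewise a b) := by
  have h1 : ((FP.pi fun _ : I => μ).E fun a => (FP.pi fun _ : I => μ).E fun b => f (S.piecewise a b)) =
      ∑ q : (I → Ω) × (I → Ω), ((FP.pi fun _ : I => μ).w q.1 * (FP.pi fun _ : I => μ).w q.2) *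
        f (swS S q).1 := by
    rw [FP.E, Fintype.sum_prod_type]
    refine Finset.sum_congr rfl fun a _ => ?_
    rw [FP.E, Finset.mul_sum]
    refine Finset.sum_congr rfl fun b _ => ?_
    have : (swS S (a, b)).1 = S.piecewise a b := rfl
    rw [this]
    ring
  rw [h1]
  have h2 : ∑ q : (I → Ω) × (I → Ω), ((FP.pi fun _ : I => μ).w q.1 * (FP.pi fun _ : I => μ).w q.2) *
        f (swS S q).1 = ∑ q : (I → Ω) × (I → Ω),
        ((FP.pi fun _ : I => μ).w (swS S q).1 * (FP.pi fun _ : I => μ).w (swS S q).2) * f (swS S q).1 :=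
    Finset.sum_congr rfl fun q _ => by rw [swS_w]
  rw [h2, Equiv.sum_comp (swS S) (fun q : (I → Ω) × (I → Ω) =>
    ((FP.pi fun _ : I => μ).w q.1 * (FP.pi fun _ : I => μ).w q.2) * f q.1), Fintype.sum_prod_type, FP.E]
  refine Finset.sum_congr rfl fun a _ => ?_
  rw [show ∑ b, ((FP.pi fun _ : I => μ).w (a, b).1 * (FP.pi fun _ : I => μ).w (a, b).2) * f (a, b).1 =
    ((FP.pi fun _ : I => μ).w a * f a) * ∑ b, (FP.pi fun _ : I => μ).w b from by
      rw [Finset.mul_sum]
      exact Finset.sum_congr rfl fun b _ => by ring, (FP.pi fun _ : I => μ).sum_one, mul_one]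

end Resample

section Cond

variable {Z Ω X E κ : Type} [Fintype Z] [DecidableEq Z] [Fintype Ω] [Fintype X] [DecidableEq X]
  [Fintype E] [DecidableEq E]

/-- conditionally independent events -/
theorem cond_inter (μ : FP Ω) {p : ℝ} (h0 : 0 ≤ p) (h1 : p ≤ 1) (S0 : Finset Z) (K : Finset κ)
    (S : κ → Finset Z) (T : κ → Finset E) (hS : (K : Set κ).PairwiseDisjoint S)
    (hT : (K : Set κ).PairwiseDisjoint T) (A : κ → (Z → Ω) → (X × E → Bool) → Prop)
    (hA : ∀ k ∈ K, ∀ a a' r r', (∀ z ∈ S0, a z = a' z) → (∀ z ∈ S k, a z = a' z) →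
      (∀ x, ∀ e ∈ T k, r (x, e) = r' (x, e)) → (A k a r → A k a' r')) (c : ℝ)
    (hc : ∀ k ∈ K, ∀ a0 : Z → Ω, ((FP.pi fun _ : Z => μ).prod (bern p h0 h1 (X × E))).pr
      (fun s => A k (S0.piecewise a0 s.1) s.2) ≤ c) :
    ((FP.pi fun _ : Z => μ).prod (bern p h0 h1 (X × E))).pr (fun s => ∀ k ∈ K, A k s.1 s.2) ≤
      c ^ K.card := by
  classical
  have hA' : ∀ k ∈ K, ∀ a a' r r', (∀ z ∈ S0, a z = a' z) → (∀ z ∈ S k, a z = a' z) →
      (∀ x, ∀ e ∈ T k, r (x, e) = r' (x, e)) →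
      (if A k a r then (1 : ℝ) else 0) = if A k a' r' then (1 : ℝ) else 0 := by
    intro k hk a a' r r' e1 e2 e3
    by_cases h : A k a r
    · rw [if_pos h, if_pos (hA k hk a a' r r' e1 e2 e3 h)]
    · rw [if_neg h, if_neg fun h' => h (hA k hk a' a r' r (fun z hz => (e1 z hz).symm)
        (fun z hz => (e2 z hz).symm) (fun x e he => (e3 x e he).symm) h')]
  rw [FP.pr_eq, FP.E_prod]
  have e1 : ∀ a : Z → Ω, (bern p h0 h1 (X × E)).E (fun r => if ∀ k ∈ K, A k a r then (1 : ℝ) else 0) =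
      ∏ k ∈ K, (bern p h0 h1 (X × E)).E fun r => if A k a r then (1 : ℝ) else 0 := by
    intro a
    have e2 : ∀ r, (if ∀ k ∈ K, A k a r then (1 : ℝ) else 0) =
        ∏ k ∈ K, if A k a r then (1 : ℝ) else 0 := by
      intro r
      rw [Finset.prod_ite_zero]
      simp
    rw [FP.E_congr _ e2, bern]
    refine FP.E_prod_indep _ K (fun k => univ ×ˢ T k) ?_ _ ?_
    · intro k hk k' hk' hkk
      refine Finset.disjoint_product.mpr (Or.inr (hT hk hk' hkk))
    · intro k hk r r' hr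
      exact hA' k hk a a r r' (fun _ _ => rfl) (fun _ _ => rfl)
        fun x e he => hr (x, e) (Finset.mem_product.mpr ⟨Finset.mem_univ _, he⟩)
  have e3 : ((FP.pi fun _ : Z => μ).E fun a => (bern p h0 h1 (X × E)).E fun r =>
      if ∀ k ∈ K, A k a r then (1 : ℝ) else 0) = (FP.pi fun _ : Z => μ).E fun a =>
      ∏ k ∈ K, (bern p h0 h1 (X × E)).E fun r => if A k a r then (1 : ℝ) else 0 := FP.E_congr _ e1
  refine le_trans (le_of_eq e3) ?_
  rw [E_resample μ S0]
  refine FP.E_le_of_le _ fun a0 => ?_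
  have e4 := FP.E_prod_indep (fun _ : Z => μ) K S hS (fun k b => (bern p h0 h1 (X × E)).E fun r =>
      if A k (S0.piecewise a0 b) r then (1 : ℝ) else 0) (fun k hk b b' hb => by
        refine FP.E_congr _ fun r => ?_
        refine hA' k hk _ _ r r (fun z hz => ?_) (fun z hz => ?_) fun _ _ _ => rfl
        · rw [Finset.piecewise_eq_of_mem _ _ _ hz, Finset.piecewise_eq_of_mem _ _ _ hz]
        · by_cases h : z ∈ S0
          · rw [Finset.piecewise_eq_of_mem _ _ _ h, Finset.piecewise_eq_of_mem _ _ _ h]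
          · rw [Finset.piecewise_eq_of_notMem _ _ _ h, Finset.piecewise_eq_of_notMem _ _ _ h]
            exact hb z hz)
  rw [e4]
  have e5 : ∀ k ∈ K, ((FP.pi fun _ : Z => μ).E fun b => (bern p h0 h1 (X × E)).E fun r =>
      if A k (S0.piecewise a0 b) r then (1 : ℝ) else 0) ≤ c := by
    intro k hk
    have := hc k hk a0
    rw [FP.pr_eq, FP.E_prod] at this
    exact this
  refine (Finset.prod_le_prod (fun k _ => FP.E_nonneg _ fun b => FP.E_nonneg _ fun r => ?_) e5).trans ?_
  · split_ifs <;> norm_num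
  · rw [Finset.prod_const]

end Cond

section Rich

variable {β : Type} [DecidableEq β] [Fintype β] {nR : ℕ} {pb : ℝ} {hb0 : 0 ≤ pb} {hb1 : pb ≤ 1}
  {u0 α0 ρ : ℝ} {L Vr Bd0 M0 : ℕ}

/-- `Rich` depends on two fibres and on the edges between them -/
theorem Rich.congr {D0 : Finset β} {D D' : Cube (Fin nR) → BD β nR} {r3 r3' : Cube β × CE (Fin nR) → Bool}
    {z : Cube (Fin nR)} {u : Cube β} {i : Fin nR} (e1 : D z = D' z) (e2 : D (flip i z) = D' (flip i z))
    (e3 : ∀ x, r3 (x, (canE (Fin nR)).e z i) = r3' (x, (canE (Fin nR)).e z i))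
    (h : Rich D0 L D r3 z u i) : Rich D0 L D' r3' z u i := by
  unfold Rich at h ⊢
  unfold opts flipOpen at h ⊢
  rw [e1, e2] at h
  refine h.trans (le_of_eq ?_)
  congr 1
  ext e
  simp only [Finset.mem_filter, e3]

/-- conditional version of `rich_one` -/
theorem rich_cond (B : BaseLaw β nR pb hb0 hb1 u0 α0 ρ L Vr Bd0 M0) {p3 : ℝ} (h0 : 0 ≤ p3) (h1 : p3 ≤ 1)
    (hnR : 10 ≤ nR) (hM : 16 * (nR : ℝ) ≤ M0 * p3 ^ 2) (S0 : Finset (Cube (Fin nR)))
    (a0 : Cube (Fin nR) → B.Ω) (z : Cube (Fin nR)) (i : Fin nR) (hz : flip i z ∉ S0)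
    (sel : B.Ω → Cube β) (C : B.Ω → Prop) (hsel : ∀ ω, C ω → sel ω ∈ (B.bd ω).Gd) :
    ((FP.pi fun _ : Cube (Fin nR) => B.μ).prod (bern p3 h0 h1 (Cube β × CE (Fin nR)))).pr
      (fun s => C (S0.piecewise a0 s.1 z) ∧
        ¬ Rich B.D0 L (fun w => B.bd (S0.piecewise a0 s.1 w)) s.2 z (sel (S0.piecewise a0 s.1 z)) i) ≤
      1 / 400 := by
  classical
  obtain ⟨G, hG⟩ : ∃ G : B.Ω → B.Ω → ℝ, G = fun ω ω' =>
      (bern p3 h0 h1 (Cube β × CE (Fin nR))).E fun r => if C ω ∧
        ((runD0 B.D0 (B.bd ω).b L (sel ω) ∩ (B.bd ω').opt B.D0 L).filter fun e =>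
          flipOpen r z i e).card < 4 * nR then (1 : ℝ) else 0 := ⟨_, rfl⟩
  have e1 : ∀ a : Cube (Fin nR) → B.Ω, ((bern p3 h0 h1 (Cube β × CE (Fin nR))).E fun r =>
      if C (S0.piecewise a0 a z) ∧ ¬ Rich B.D0 L (fun w => B.bd (S0.piecewise a0 a w)) r z
        (sel (S0.piecewise a0 a z)) i then (1 : ℝ) else 0) =
      G (S0.piecewise a0 a z) (a (flip i z)) := by
    intro a
    rw [hG]
    refine FP.E_congr _ fun r => ?_
    have e2 : S0.piecewise a0 a (flip i z) = a (flip i z) := Finset.piecewise_eq_of_notMem _ _ _ hz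
    have e3 : (¬ Rich B.D0 L (fun w => B.bd (S0.piecewise a0 a w)) r z
        (sel (S0.piecewise a0 a z)) i) ↔ ((runD0 B.D0 (B.bd (S0.piecewise a0 a z)).b L
          (sel (S0.piecewise a0 a z)) ∩ (B.bd (a (flip i z))).opt B.D0 L).filter fun e =>
          flipOpen r z i e).card < 4 * nR := by
      unfold Rich opts
      simp only [e2, not_le]
    simp only [e3]
  rw [FP.pr_eq, FP.E_prod]
  have e4 : ((FP.pi fun _ : Cube (Fin nR) => B.μ).E fun a =>
      (bern p3 h0 h1 (Cube β × CE (Fin nR))).E fun r =>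
      if C (S0.piecewise a0 a z) ∧ ¬ Rich B.D0 L (fun w => B.bd (S0.piecewise a0 a w)) r z
        (sel (S0.piecewise a0 a z)) i then (1 : ℝ) else 0) =
      (FP.pi fun _ : Cube (Fin nR) => B.μ).E fun a => G (S0.piecewise a0 a z) (a (flip i z)) :=
    FP.E_congr _ e1
  refine le_trans (le_of_eq e4) ?_
  rw [FP.E_pi_update (fun _ : Cube (Fin nR) => B.μ) (flip i z)]
  have e5 : ∀ (a : Cube (Fin nR) → B.Ω) (b : B.Ω),
      S0.piecewise a0 (Function.update a (flip i z) b) z = S0.piecewise a0 a z := by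
    intro a b
    by_cases h : z ∈ S0
    · rw [Finset.piecewise_eq_of_mem _ _ _ h, Finset.piecewise_eq_of_mem _ _ _ h]
    · rw [Finset.piecewise_eq_of_notMem _ _ _ h, Finset.piecewise_eq_of_notMem _ _ _ h,
        Function.update_of_ne (flip_ne i z).symm]
  have e6 : ∀ (a : Cube (Fin nR) → B.Ω) (b : B.Ω),
      Function.update a (flip i z) b (flip i z) = b := fun a b => Function.update_self ..
  simp only [e5, e6]
  rw [FP.E_swap]
  refine FP.E_le_of_le _ fun a => ?_
  by_cases hC : C (S0.piecewise a0 a z)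
  · have h2 := rich_one B h0 h1 hnR hM (runD0 B.D0 (B.bd (S0.piecewise a0 a z)).b L
      (sel (S0.piecewise a0 a z))) ((B.val _).gadm _ (hsel _ hC)) z i
    rw [FP.pr_eq, FP.E_prod] at h2
    refine le_trans (le_of_eq ?_) h2
    refine FP.E_congr _ fun b => ?_
    rw [hG]
    refine FP.E_congr _ fun r => ?_
    simp only [hC, true_and]
  · have h3 : ∀ b, G (S0.piecewise a0 a z) b = 0 := by
      intro b
      rw [hG]
      simp only [hC, false_and, if_false]
      exact FP.E_const _ _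
    simp only [h3, FP.E_const]
    norm_num

/-- law of the giants in a fibre outside `S0` -/
theorem giant_cond (B : BaseLaw β nR pb hb0 hb1 u0 α0 ρ L Vr Bd0 M0) {p3 : ℝ} (h0 : 0 ≤ p3) (h1 : p3 ≤ 1)
    (S0 : Finset (Cube (Fin nR))) (a0 : Cube (Fin nR) → B.Ω) (z : Cube (Fin nR)) (hz : z ∉ S0) :
    ((FP.pi fun _ : Cube (Fin nR) => B.μ).prod (bern p3 h0 h1 (Cube β × CE (Fin nR)))).pr
      (fun s => ¬ (B.bd (S0.piecewise a0 s.1 z)).G.Nonempty) ≤ 1 / 500 := by
  classical
  rw [FP.pr_eq, FP.E_prod]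
  simp only [Finset.piecewise_eq_of_notMem _ _ _ hz, FP.E_const]
  rw [FP.E_pi_single (fun _ : Cube (Fin nR) => B.μ) z
    (fun ω => if ¬ (B.bd ω).G.Nonempty then (1 : ℝ) else 0), ← FP.pr_eq, FP.pr_compl]
  have := B.giant
  linarith

theorem run_bound (B : BaseLaw β nR pb hb0 hb1 u0 α0 ρ L Vr Bd0 M0) {p3 : ℝ} (h0 : 0 ≤ p3) (h1 : p3 ≤ 1)
    (hnR : 10 ≤ nR) (hM : 16 * (nR : ℝ) ≤ M0 * p3 ^ 2) (z : Cube (Fin nR)) (u : Cube β) :
    ((FP.pi fun _ : Cube (Fin nR) => B.μ).prod (bern p3 h0 h1 (Cube β × CE (Fin nR)))).pr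
      (fun s => ∀ i ∈ (univ : Finset (Fin nR)), u ∈ (B.bd (s.1 z)).Gd ∧
        ¬ Rich B.D0 L (fun w => B.bd (s.1 w)) s.2 z u i) ≤ (1 / 400) ^ nR := by
  have h := cond_inter B.μ h0 h1 {z} (univ : Finset (Fin nR)) (fun i => {flip i z})
    (fun i => {(canE (Fin nR)).e z i}) ?_ ?_
    (fun i a r => u ∈ (B.bd (a z)).Gd ∧ ¬ Rich B.D0 L (fun w => B.bd (a w)) r z u i) ?_ (1 / 400) ?_
  · rwa [Finset.card_univ, Fintype.card_fin] at h
  · intro i _ j _ hij
    simp only [Finset.disjoint_singleton, Function.onFun]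
    exact fun h => hij (flip_dir_injective z h)
  · intro i _ j _ hij
    simp only [Finset.disjoint_singleton, Function.onFun]
    exact fun h => hij ((canE (Fin nR)).inj _ _ _ _ h).1
  · intro i _ a a' r r' e1 e2 e3 hh
    have f1 : a z = a' z := e1 z (by simp)
    have f2 : a (flip i z) = a' (flip i z) := e2 _ (by simp)
    refine ⟨by rw [← f1]; exact hh.1, fun h => hh.2 ?_⟩
    refine Rich.congr (by simp only [f1]) (by simp only [f2]) (fun x => ?_) h
    exact (e3 x _ (by simp)).symm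
  · intro i _ a0
    have := rich_cond B h0 h1 hnR hM {z} a0 z i (by simpa using flip_ne i z) (fun _ => u)
      (fun ω => u ∈ (B.bd ω).Gd) (fun ω h => h)
    exact this

theorem ex_bound (B : BaseLaw β nR pb hb0 hb1 u0 α0 ρ L Vr Bd0 M0) {p3 : ℝ} (h0 : 0 ≤ p3) (h1 : p3 ≤ 1) :
    ((FP.pi fun _ : Cube (Fin nR) => B.μ).prod (bern p3 h0 h1 (Cube β × CE (Fin nR)))).pr
      (fun s => ∀ z ∈ (univ : Finset (Cube (Fin nR))), ¬ (B.bd (s.1 z)).G.Nonempty) ≤
        (1 / 500) ^ (2 ^ nR) := by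
  have h := cond_inter B.μ h0 h1 ∅ (univ : Finset (Cube (Fin nR))) (fun z => {z})
    (fun _ => (∅ : Finset (CE (Fin nR)))) ?_ ?_
    (fun z a (_ : Cube β × CE (Fin nR) → Bool) => ¬ (B.bd (a z)).G.Nonempty) ?_ (1 / 500) ?_
  · have hc : (univ : Finset (Cube (Fin nR))).card = 2 ^ nR := by
      rw [Finset.card_univ]; simp
    rwa [hc] at h
  · intro i _ j _ hij
    simpa [Function.onFun] using hij
  · intro i _ j _ hij
    simp [Function.onFun]
  · intro z _ a a' r r' _ e2 _ hh
    rw [← e2 z (by simp)]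
    exact hh
  · intro z _ a0
    exact giant_cond B h0 h1 ∅ a0 z (by simp)

/-- two giants at distance two -/
theorem conA_bound (B : BaseLaw β nR pb hb0 hb1 u0 α0 ρ L Vr Bd0 M0) {p3 : ℝ} (h0 : 0 ≤ p3) (h1 : p3 ≤ 1)
    (hnR : 10 ≤ nR) (hM : 16 * (nR : ℝ) ≤ M0 * p3 ^ 2) (z : Cube (Fin nR)) (a b : Fin nR) (hab : a ≠ b) :
    ((FP.pi fun _ : Cube (Fin nR) => B.μ).prod (bern p3 h0 h1 (Cube β × CE (Fin nR)))).pr
      (fun s => ∀ c ∈ ((univ : Finset (Fin nR)).erase a).erase b,
        ((B.bd (s.1 (flip a z))).G.Nonempty ∧ (B.bd (s.1 (flip b z))).G.Nonempty) ∧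
        ¬ ((B.bd (s.1 (flip c z))).G.Nonempty ∧
          Rich B.D0 L (fun w => B.bd (s.1 w)) s.2 (flip a z) ((B.bd (s.1 (flip a z))).res c) c ∧
          Rich B.D0 L (fun w => B.bd (s.1 w)) s.2 (flip b z) ((B.bd (s.1 (flip b z))).res c) c ∧
          Rich B.D0 L (fun w => B.bd (s.1 w)) s.2 (flip c z) ((B.bd (s.1 (flip c z))).res a) a ∧
          Rich B.D0 L (fun w => B.bd (s.1 w)) s.2 (flip c z) ((B.bd (s.1 (flip c z))).res b) b)) ≤
        (1 / 50) ^ (nR - 2) := by
  have hres : ∀ (j : Fin nR) (ω : B.Ω), (B.bd ω).G.Nonempty → (B.bd ω).res j ∈ (B.bd ω).Gd :=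
    fun j ω h => ((B.val ω).rgd h j).1
  have h := cond_inter B.μ h0 h1 {flip a z, flip b z} (((univ : Finset (Fin nR)).erase a).erase b)
    (fun c => {flip c z, flip c (flip a z), flip c (flip b z)})
    (fun c => {(canE (Fin nR)).e (flip a z) c, (canE (Fin nR)).e (flip b z) c,
      (canE (Fin nR)).e (flip c z) a, (canE (Fin nR)).e (flip c z) b}) ?_ ?_
    (fun c s r => ((B.bd (s (flip a z))).G.Nonempty ∧ (B.bd (s (flip b z))).G.Nonempty) ∧
        ¬ ((B.bd (s (flip c z))).G.Nonempty ∧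
          Rich B.D0 L (fun w => B.bd (s w)) r (flip a z) ((B.bd (s (flip a z))).res c) c ∧
          Rich B.D0 L (fun w => B.bd (s w)) r (flip b z) ((B.bd (s (flip b z))).res c) c ∧
          Rich B.D0 L (fun w => B.bd (s w)) r (flip c z) ((B.bd (s (flip c z))).res a) a ∧
          Rich B.D0 L (fun w => B.bd (s w)) r (flip c z) ((B.bd (s (flip c z))).res b) b))
    ?_ (1 / 50) ?_
  · have hc : (((univ : Finset (Fin nR)).erase a).erase b).card = nR - 2 := by
      rw [Finset.card_erase_of_mem (by simp [hab.symm]), Finset.card_erase_of_mem (by simp),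
        Finset.card_univ, Fintype.card_fin]
      omega
    rwa [hc] at h
  · intro c hc c' hc' hcc
    simp only [Finset.coe_erase, Set.mem_sdiff, Set.mem_singleton_iff, Finset.coe_univ] at hc hc'
    rw [Function.onFun, Finset.disjoint_left]
    intro w hw hw'
    simp only [Finset.mem_insert, Finset.mem_singleton] at hw hw'
    have hca : c ≠ a := hc.1.2
    have hcb : c ≠ b := hc.2
    have ew : w c = !z c := by
      rcases hw with rfl | rfl | rfl <;> simp [hca, hcb]
    have ew' : w c = z c := by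
      rcases hw' with rfl | rfl | rfl <;> simp [hca, hcb, hcc]
    rw [ew] at ew'
    simp at ew'
  · intro c hc c' hc' hcc
    simp only [Finset.coe_erase, Set.mem_sdiff, Set.mem_singleton_iff, Finset.coe_univ] at hc hc'
    rw [Function.onFun, Finset.disjoint_left]
    intro e he he'
    simp only [Finset.mem_insert, Finset.mem_singleton] at he he'
    have hca : c ≠ a := hc.1.2
    have hcb : c ≠ b := hc.2
    have hca' : c' ≠ a := hc'.1.2
    have hcb' : c' ≠ b := hc'.2
    have key : ∀ j : Fin nR, c ≠ j → c' ≠ j →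
        (canE (Fin nR)).e (flip c z) j ≠ (canE (Fin nR)).e (flip c' z) j := by
      intro j h1 h2 h
      rcases ((canE (Fin nR)).inj _ _ _ _ h).2 with h3 | h3
      · have := congrFun h3 c
        simp [hcc] at this
      · have := congrFun h3 c
        simp [hcc, h1] at this
    rcases he with rfl | rfl | rfl | rfl <;> rcases he' with he' | he' | he' | he'
    all_goals first
      | exact hcc ((canE (Fin nR)).inj _ _ _ _ he').1
      | exact hca ((canE (Fin nR)).inj _ _ _ _ he').1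
      | exact hcb ((canE (Fin nR)).inj _ _ _ _ he').1
      | exact hca' ((canE (Fin nR)).inj _ _ _ _ he').1.symm
      | exact hcb' ((canE (Fin nR)).inj _ _ _ _ he').1.symm
      | exact hab ((canE (Fin nR)).inj _ _ _ _ he').1
      | exact hab ((canE (Fin nR)).inj _ _ _ _ he').1.symm
      | exact key _ hca hca' he'
      | exact key _ hcb hcb' he'
  · intro c _ s s' r r' e1 e2 e3 hh
    have fa : s (flip a z) = s' (flip a z) := e1 _ (by simp)
    have fb : s (flip b z) = s' (flip b z) := e1 _ (by simp)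
    have fc : s (flip c z) = s' (flip c z) := e2 _ (by simp)
    have fca : s (flip c (flip a z)) = s' (flip c (flip a z)) := e2 _ (by simp)
    have fcb : s (flip c (flip b z)) = s' (flip c (flip b z)) := e2 _ (by simp)
    refine ⟨by rw [← fa, ← fb]; exact hh.1, fun h => hh.2 ?_⟩
    rw [fa, fb, fc]
    refine ⟨h.1, ?_, ?_, ?_, ?_⟩
    · refine Rich.congr (by simp only [fa]) (by simp only [fca]) (fun x => ?_) h.2.1
      exact (e3 x _ (by simp)).symm
    · refine Rich.congr (by simp only [fb]) (by simp only [fcb]) (fun x => ?_) h.2.2.1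
      exact (e3 x _ (by simp)).symm
    · refine Rich.congr (by simp only [fc]) ?_ (fun x => ?_) h.2.2.2.1
      · rw [flip_comm a c z]; simp only [fca]
      · exact (e3 x _ (by simp)).symm
    · refine Rich.congr (by simp only [fc]) ?_ (fun x => ?_) h.2.2.2.2
      · rw [flip_comm b c z]; simp only [fcb]
      · exact (e3 x _ (by simp)).symm
  · intro c hc a0
    simp only [Finset.mem_erase, Finset.mem_univ, and_true] at hc
    have hca : c ≠ a := hc.2
    have hcb : c ≠ b := hc.1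
    have m1 : flip c z ∉ ({flip a z, flip b z} : Finset (Cube (Fin nR))) := by
      simp only [Finset.mem_insert, Finset.mem_singleton, not_or]
      exact ⟨fun h => hca (flip_dir_injective z h), fun h => hcb (flip_dir_injective z h)⟩
    have m2 : flip c (flip a z) ∉ ({flip a z, flip b z} : Finset (Cube (Fin nR))) := by
      simp only [Finset.mem_insert, Finset.mem_singleton, not_or]
      refine ⟨flip_ne _ _, fun h => ?_⟩
      have := congrFun h c
      simp [hca, hcb] at this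
    have m3 : flip c (flip b z) ∉ ({flip a z, flip b z} : Finset (Cube (Fin nR))) := by
      simp only [Finset.mem_insert, Finset.mem_singleton, not_or]
      refine ⟨fun h => ?_, flip_ne _ _⟩
      have := congrFun h c
      simp [hca, hcb] at this
    have g1 := rich_cond B h0 h1 hnR hM {flip a z, flip b z} a0 (flip a z) c m2
      (fun ω => (B.bd ω).res c) (fun ω => (B.bd ω).G.Nonempty) (hres c)
    have g2 := rich_cond B h0 h1 hnR hM {flip a z, flip b z} a0 (flip b z) c m3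
      (fun ω => (B.bd ω).res c) (fun ω => (B.bd ω).G.Nonempty) (hres c)
    have g3 := rich_cond B h0 h1 hnR hM {flip a z, flip b z} a0 (flip c z) a
      (by rw [flip_comm]; exact m2) (fun ω => (B.bd ω).res a) (fun ω => (B.bd ω).G.Nonempty) (hres a)
    have g4 := rich_cond B h0 h1 hnR hM {flip a z, flip b z} a0 (flip c z) b
      (by rw [flip_comm]; exact m3) (fun ω => (B.bd ω).res b) (fun ω => (B.bd ω).G.Nonempty) (hres b)
    have g5 := giant_cond B h0 h1 {flip a z, flip b z} a0 (flip c z) m1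
    refine le_trans (FP.pr_mono _ (B := fun s => ((((B.bd (({flip a z, flip b z} : Finset _).piecewise a0 s.1
        (flip a z))).G.Nonempty ∧ ¬ Rich B.D0 L (fun w => B.bd (({flip a z, flip b z} : Finset _).piecewise
          a0 s.1 w)) s.2 (flip a z) ((B.bd (({flip a z, flip b z} : Finset _).piecewise a0 s.1
            (flip a z))).res c) c) ∨
        ((B.bd (({flip a z, flip b z} : Finset _).piecewise a0 s.1
        (flip b z))).G.Nonempty ∧ ¬ Rich B.D0 L (fun w => B.bd (({flip a z, flip b z} : Finset _).piecewise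
          a0 s.1 w)) s.2 (flip b z) ((B.bd (({flip a z, flip b z} : Finset _).piecewise a0 s.1
            (flip b z))).res c) c)) ∨
        (((B.bd (({flip a z, flip b z} : Finset _).piecewise a0 s.1
        (flip c z))).G.Nonempty ∧ ¬ Rich B.D0 L (fun w => B.bd (({flip a z, flip b z} : Finset _).piecewise
          a0 s.1 w)) s.2 (flip c z) ((B.bd (({flip a z, flip b z} : Finset _).piecewise a0 s.1
            (flip c z))).res a) a) ∨
        ((B.bd (({flip a z, flip b z} : Finset _).piecewise a0 s.1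
        (flip c z))).G.Nonempty ∧ ¬ Rich B.D0 L (fun w => B.bd (({flip a z, flip b z} : Finset _).piecewise
          a0 s.1 w)) s.2 (flip c z) ((B.bd (({flip a z, flip b z} : Finset _).piecewise a0 s.1
            (flip c z))).res b) b))) ∨
        ¬ (B.bd (({flip a z, flip b z} : Finset _).piecewise a0 s.1 (flip c z))).G.Nonempty)
        fun s hs => ?_) ?_
    · obtain ⟨⟨k1, k2⟩, k3⟩ := hs
      by_contra hcon
      rw [not_or, not_or, not_or, not_or] at hcon
      obtain ⟨⟨⟨n1, n2⟩, n3, n4⟩, n5⟩ := hcon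
      rw [not_not] at n5
      refine k3 ⟨n5, ?_, ?_, ?_, ?_⟩
      · exact not_not.mp fun h => n1 ⟨k1, h⟩
      · exact not_not.mp fun h => n2 ⟨k2, h⟩
      · exact not_not.mp fun h => n3 ⟨n5, h⟩
      · exact not_not.mp fun h => n4 ⟨n5, h⟩
    · refine (FP.pr_or _ _ _).trans ?_
      refine (add_le_add ((FP.pr_or _ _ _).trans (add_le_add ((FP.pr_or _ _ _).trans
        (add_le_add g1 g2)) ((FP.pr_or _ _ _).trans (add_le_add g3 g4)))) g5).trans ?_
      norm_num

/-- giants at neighbours of `z` and of `flip k z` -/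
theorem conB_bound (B : BaseLaw β nR pb hb0 hb1 u0 α0 ρ L Vr Bd0 M0) {p3 : ℝ} (h0 : 0 ≤ p3) (h1 : p3 ≤ 1)
    (hnR : 10 ≤ nR) (hM : 16 * (nR : ℝ) ≤ M0 * p3 ^ 2) (z : Cube (Fin nR)) (k : Fin nR) :
    ((FP.pi fun _ : Cube (Fin nR) => B.μ).prod (bern p3 h0 h1 (Cube β × CE (Fin nR)))).pr
      (fun s => ∀ l ∈ (univ : Finset (Fin nR)).erase k,
        ¬ ((B.bd (s.1 (flip l z))).G.Nonempty ∧
          Rich B.D0 L (fun w => B.bd (s.1 w)) s.2 (flip l z) ((B.bd (s.1 (flip l z))).res k) k)) ≤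
        (1 / 50) ^ (nR - 1) := by
  have hres : ∀ (j : Fin nR) (ω : B.Ω), (B.bd ω).G.Nonempty → (B.bd ω).res j ∈ (B.bd ω).Gd :=
    fun j ω h => ((B.val ω).rgd h j).1
  have h := cond_inter B.μ h0 h1 ∅ ((univ : Finset (Fin nR)).erase k)
    (fun l => {flip l z, flip k (flip l z)})
    (fun l => {(canE (Fin nR)).e (flip l z) k}) ?_ ?_
    (fun l s r => ¬ ((B.bd (s (flip l z))).G.Nonempty ∧
          Rich B.D0 L (fun w => B.bd (s w)) r (flip l z) ((B.bd (s (flip l z))).res k) k))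
    ?_ (1 / 50) ?_
  · have hc : ((univ : Finset (Fin nR)).erase k).card = nR - 1 := by
      rw [Finset.card_erase_of_mem (by simp), Finset.card_univ, Fintype.card_fin]
    rwa [hc] at h
  · intro c hc c' hc' hcc
    simp only [Finset.coe_erase, Set.mem_sdiff, Set.mem_singleton_iff, Finset.coe_univ] at hc hc'
    rw [Function.onFun, Finset.disjoint_left]
    intro w hw hw'
    simp only [Finset.mem_insert, Finset.mem_singleton] at hw hw'
    have hca : c ≠ k := hc.2
    have ew : w c = !z c := by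
      rcases hw with rfl | rfl <;> simp [hca]
    have ew' : w c = z c := by
      rcases hw' with rfl | rfl <;> simp [hca, hcc]
    rw [ew] at ew'
    simp at ew'
  · intro c hc c' hc' hcc
    simp only [Finset.coe_erase, Set.mem_sdiff, Set.mem_singleton_iff, Finset.coe_univ] at hc hc'
    rw [Function.onFun, Finset.disjoint_singleton]
    intro h
    rcases ((canE (Fin nR)).inj _ _ _ _ h).2 with h3 | h3
    · have := congrFun h3 c
      simp [hcc] at this
    · have := congrFun h3 c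
      simp [hcc, hc.2] at this
  · intro l _ s s' r r' _ e2 e3 hh h
    have fa : s (flip l z) = s' (flip l z) := e2 _ (by simp)
    have fb : s (flip k (flip l z)) = s' (flip k (flip l z)) := e2 _ (by simp)
    refine hh ?_
    rw [fa]
    refine ⟨h.1, Rich.congr (by simp only [fa]) (by simp only [fb]) (fun x => ?_) h.2⟩
    exact (e3 x _ (by simp)).symm
  · intro l hl a0
    have g1 := rich_cond B h0 h1 hnR hM ∅ a0 (flip l z) k (by simp)
      (fun ω => (B.bd ω).res k) (fun ω => (B.bd ω).G.Nonempty) (hres k)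
    have g5 := giant_cond B h0 h1 ∅ a0 (flip l z) (by simp)
    refine le_trans (FP.pr_mono _ (B := fun s => ((B.bd ((∅ : Finset _).piecewise a0 s.1
        (flip l z))).G.Nonempty ∧ ¬ Rich B.D0 L (fun w => B.bd ((∅ : Finset _).piecewise
          a0 s.1 w)) s.2 (flip l z) ((B.bd ((∅ : Finset _).piecewise a0 s.1
            (flip l z))).res k) k) ∨
        ¬ (B.bd ((∅ : Finset _).piecewise a0 s.1 (flip l z))).G.Nonempty)
        fun s hs => ?_) ?_
    · by_contra hcon
      rw [not_or] at hcon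
      obtain ⟨n1, n5⟩ := hcon
      rw [not_not] at n5
      exact hs ⟨n5, not_not.mp fun h => n1 ⟨n5, h⟩⟩
    · refine (FP.pr_or _ _ _).trans ((add_le_add g1 g5).trans ?_)
      norm_num

/-- induction over the cube -/
theorem cube_induct {ι : Type} [DecidableEq ι] [Fintype ι] {P : Cube ι → Prop} {z : Cube ι} (hz : P z)
    (h : ∀ x i, P x → P (flip i x)) (y : Cube ι) : P y := by
  have key : ∀ S : Finset ι, P (S.piecewise y z) := by
    intro S
    induction S using Finset.induction_on with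
    | empty => simpa using hz
    | insert i S hi ih =>
      by_cases hyz : y i = z i
      · have : (insert i S).piecewise y z = S.piecewise y z := by
          funext j
          by_cases hj : j = i
          · subst hj
            simp [hi, hyz]
          · by_cases hjS : j ∈ S
            · simp [hjS]
            · simp [hjS, hj]
        rw [this]
        exact ih
      · have : (insert i S).piecewise y z = flip i (S.piecewise y z) := by
          funext j
          by_cases hj : j = i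
          · subst hj
            rw [flip_same]
            simp only [Finset.mem_insert_self, Finset.piecewise_eq_of_mem,
              Finset.piecewise_eq_of_notMem _ _ _ hi]
            cases hy : y j <;> cases hz' : z j <;> simp_all
          · rw [flip_of_ne hj]
            by_cases hjS : j ∈ S
            · simp [hjS]
            · simp [hjS, hj]
        rw [this]
        exact h _ _ ih
  have := key univ
  simpa using this

theorem GAdj.symm' {D0 : Finset β} {D : Cube (Fin nR) → BD β nR} {r3 : Cube β × CE (Fin nR) → Bool}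
    {z z' : Cube (Fin nR)} (h : GAdj D0 L D r3 z z') : GAdj D0 L D r3 z' z := by
  obtain ⟨h1, h2, i, rfl, h3⟩ := h
  exact ⟨h2, h1, i, by simp, h3.symm⟩

/-- the deterministic part -/
theorem con_of {D0 : Finset β} {D : Cube (Fin nR) → BD β nR} {r3 : Cube β × CE (Fin nR) → Bool}
    (hnR : 0 < nR)
    (HA : ∀ z a b, a ≠ b → (D (flip a z)).G.Nonempty → (D (flip b z)).G.Nonempty →
      Relation.ReflTransGen (GAdj D0 L D r3) (flip a z) (flip b z))
    (HB : ∀ z k, ∃ l, GAdj D0 L D r3 (flip l z) (flip l (flip k z))) (z z' : Cube (Fin nR))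
    (hz : (D z).G.Nonempty) (hz' : (D z').G.Nonempty) :
    Relation.ReflTransGen (GAdj D0 L D r3) z z' := by
  have HA' : ∀ z a b, (D (flip a z)).G.Nonempty → (D (flip b z)).G.Nonempty →
      Relation.ReflTransGen (GAdj D0 L D r3) (flip a z) (flip b z) := by
    intro z a b ha hb
    by_cases hab : a = b
    · subst hab; exact Relation.ReflTransGen.refl
    · exact HA z a b hab ha hb
  have i0 : Fin nR := ⟨0, hnR⟩
  have main : ∀ y : Cube (Fin nR), ∀ b, (D (flip b y)).G.Nonempty →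
      Relation.ReflTransGen (GAdj D0 L D r3) z (flip b y) := by
    refine cube_induct (z := flip i0 z) ?_ ?_
    · intro b hb
      have := HA' (flip i0 z) i0 b (by simpa using hz) hb
      simpa using this
    · intro x k ih b hb
      obtain ⟨l, hl⟩ := HB x k
      have h1 := ih l hl.1
      have h2 := HA' (flip k x) l b hl.2.1 hb
      exact (h1.tail hl).trans h2
  have := main (flip i0 z') i0 (by simpa using hz')
  simpa using this

/-- a rich direction leads to a giant -/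
theorem Rich.giant {D0 : Finset β} {D : Cube (Fin nR) → BD β nR} {r3 : Cube β × CE (Fin nR) → Bool}
    {z : Cube (Fin nR)} {u : Cube β} {i : Fin nR} (hnR : 0 < nR) (h : Rich D0 L D r3 z u i) :
    (D (flip i z)).G.Nonempty := by
  classical
  unfold Rich at h
  have h1 : 0 < (opts D0 L D r3 z u i).card := by omega
  obtain ⟨e, he⟩ := Finset.card_pos.mp h1
  unfold opts at he
  rw [Finset.mem_filter, Finset.mem_inter] at he
  have h2 := he.1.2
  unfold BD.opt at h2
  rw [Finset.mem_filter] at h2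
  obtain ⟨y, hy, _⟩ := h2.2.2.2
  exact ⟨y, hy⟩

/-- numerical part -/
theorem mev_num {n b : ℕ} (hn : 10 ≤ n) (hb : 4 * b ≤ n) :
    (2 ^ n * 2 ^ b : ℝ) * (1 / 400) ^ n + (1 / 500) ^ (2 ^ n) + (2 ^ n * (n * n) : ℝ) * (1 / 50) ^ (n - 2) +
      (2 ^ n * n : ℝ) * (1 / 50) ^ (n - 1) ≤ (1 / 2) ^ n := by
  have e1 : (2 ^ n * 2 ^ b : ℝ) * (1 / 400) ^ n ≤ (1 / 100) ^ n := by
    have : (2 : ℝ) ^ b ≤ 2 ^ n := pow_le_pow_right₀ (by norm_num) (by omega)
    calc (2 ^ n * 2 ^ b : ℝ) * (1 / 400) ^ n ≤ (2 ^ n * 2 ^ n : ℝ) * (1 / 400) ^ n := by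
          gcongr
      _ = (1 / 100) ^ n := by rw [← mul_pow, ← mul_pow]; norm_num
  have e2 : ((1 : ℝ) / 500) ^ (2 ^ n) ≤ (1 / 500) ^ n :=
    pow_le_pow_of_le_one (by norm_num) (by norm_num) Nat.lt_two_pow_self.le
  have hn2 : (n : ℝ) ≤ 2 ^ n := by exact_mod_cast Nat.lt_two_pow_self.le
  have e3 : (2 ^ n * (n * n) : ℝ) * (1 / 50) ^ (n - 2) ≤ 2500 * (8 / 50) ^ n := by
    have h1 : ((1 : ℝ) / 50) ^ (n - 2) = 2500 * (1 / 50) ^ n := by
      have h2 : n = (n - 2) + 2 := by omega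
      conv_rhs => rw [h2, pow_add]
      norm_num
      ring
    rw [h1]
    calc (2 ^ n * (n * n) : ℝ) * (2500 * (1 / 50) ^ n) ≤ (2 ^ n * (2 ^ n * 2 ^ n) : ℝ) * (2500 * (1 / 50) ^ n) := by
          gcongr
      _ = 2500 * ((2 * (2 * 2) * (1 / 50)) ^ n) := by rw [mul_pow, mul_pow, mul_pow]; ring
      _ = 2500 * (8 / 50) ^ n := by norm_num
  have e4 : (2 ^ n * n : ℝ) * (1 / 50) ^ (n - 1) ≤ 50 * (4 / 50) ^ n := by
    have h1 : ((1 : ℝ) / 50) ^ (n - 1) = 50 * (1 / 50) ^ n := by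
      have h2 : n = (n - 1) + 1 := by omega
      conv_rhs => rw [h2, pow_add]
      norm_num
      ring
    rw [h1]
    calc (2 ^ n * n : ℝ) * (50 * (1 / 50) ^ n) ≤ (2 ^ n * 2 ^ n : ℝ) * (50 * (1 / 50) ^ n) := by
          gcongr
      _ = 50 * ((2 * 2 * (1 / 50)) ^ n) := by rw [mul_pow, mul_pow]; ring
      _ = 50 * (4 / 50) ^ n := by norm_num
  have e5 : ∀ x : ℝ, 0 ≤ x → x ≤ 8 / 25 → x ^ n ≤ (8 / 25) ^ 9 * x := by
    intro x hx0 hx
    have h2 : n = (n - 1) + 1 := by omega
    rw [h2, pow_succ]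
    refine mul_le_mul_of_nonneg_right ?_ hx0
    calc x ^ (n - 1) ≤ (8 / 25) ^ (n - 1) := pow_le_pow_left₀ hx0 hx _
      _ ≤ (8 / 25) ^ 9 := pow_le_pow_of_le_one (by norm_num) (by norm_num) (by omega)
  have f : ∀ y : ℝ, y ^ n = (2 * y) ^ n * (1 / 2) ^ n := by
    intro y
    rw [← mul_pow]
    congr 1
    ring
  have g1 := e5 (2 * (1 / 100)) (by norm_num) (by norm_num)
  have g2 := e5 (2 * (1 / 500)) (by norm_num) (by norm_num)
  have g3 := e5 (2 * (8 / 50)) (by norm_num) (by norm_num)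
  have g4 := e5 (2 * (4 / 50)) (by norm_num) (by norm_num)
  have hh : (0 : ℝ) < (1 / 2) ^ n := by positivity
  rw [f (1 / 100)] at e1
  rw [f (1 / 500)] at e2
  rw [f (8 / 50)] at e3
  rw [f (4 / 50)] at e4
  have k1 := mul_le_mul_of_nonneg_right g1 hh.le
  have k2 := mul_le_mul_of_nonneg_right g2 hh.le
  have k3 := mul_le_mul_of_nonneg_right g3 hh.le
  have k4 := mul_le_mul_of_nonneg_right g4 hh.le
  have k5 : ((8 / 25 : ℝ) ^ 9 * (2 * (1 / 100)) + (8 / 25) ^ 9 * (2 * (1 / 500)) +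
      2500 * ((8 / 25) ^ 9 * (2 * (8 / 50))) + 50 * ((8 / 25) ^ 9 * (2 * (4 / 50)))) ≤ 1 := by norm_num
  nlinarith

/-- the merging event has large probability -/
theorem mev_whp : ∃ n0 : ℕ, ∀ (β : Type) (_ : DecidableEq β) (_ : Fintype β) (nR L Vr Bd0 M0 : ℕ)
    (pb u0 α0 ρ p3 : ℝ) (hb0 : 0 ≤ pb) (hb1 : pb ≤ 1) (h0 : 0 ≤ p3) (h1 : p3 ≤ 1)
    (B : BaseLaw β nR pb hb0 hb1 u0 α0 ρ L Vr Bd0 M0), n0 ≤ nR → 4 * Fintype.card β ≤ nR →
    16 * (nR : ℝ) ≤ M0 * p3 ^ 2 →
    ((FP.pi fun _ : Cube (Fin nR) => B.μ).prod (bern p3 h0 h1 (Cube β × CE (Fin nR)))).pr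
      (fun s => ¬ MEv B.D0 L (fun z => B.bd (s.1 z)) s.2) ≤ (1 / 2) ^ nR := by
  refine ⟨10, ?_⟩
  intro β _ _ nR L Vr Bd0 M0 pb u0 α0 ρ p3 hb0 hb1 h0 h1 B hnR hβ hM
  classical
  set P := (FP.pi fun _ : Cube (Fin nR) => B.μ).prod (bern p3 h0 h1 (Cube β × CE (Fin nR))) with hP
  obtain ⟨ER, hER⟩ : ∃ ER : Cube (Fin nR) × Cube β → (Cube (Fin nR) → B.Ω) × (Cube β × CE (Fin nR) → Bool) →
      Prop, ER = fun q s => ∀ i ∈ (univ : Finset (Fin nR)), q.2 ∈ (B.bd (s.1 q.1)).Gd ∧
        ¬ Rich B.D0 L (fun w => B.bd (s.1 w)) s.2 q.1 q.2 i := ⟨_, rfl⟩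
  obtain ⟨EX, hEX⟩ : ∃ EX : (Cube (Fin nR) → B.Ω) × (Cube β × CE (Fin nR) → Bool) →
      Prop, EX = fun s => ∀ z ∈ (univ : Finset (Cube (Fin nR))), ¬ (B.bd (s.1 z)).G.Nonempty := ⟨_, rfl⟩
  obtain ⟨EA, hEA⟩ : ∃ EA : Cube (Fin nR) × Fin nR × Fin nR → (Cube (Fin nR) → B.Ω) ×
      (Cube β × CE (Fin nR) → Bool) → Prop, EA = fun q s => q.2.1 ≠ q.2.2 ∧
      ∀ c ∈ ((univ : Finset (Fin nR)).erase q.2.1).erase q.2.2,
        ((B.bd (s.1 (flip q.2.1 q.1))).G.Nonempty ∧ (B.bd (s.1 (flip q.2.2 q.1))).G.Nonempty) ∧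
        ¬ ((B.bd (s.1 (flip c q.1))).G.Nonempty ∧
          Rich B.D0 L (fun w => B.bd (s.1 w)) s.2 (flip q.2.1 q.1) ((B.bd (s.1 (flip q.2.1 q.1))).res c) c ∧
          Rich B.D0 L (fun w => B.bd (s.1 w)) s.2 (flip q.2.2 q.1) ((B.bd (s.1 (flip q.2.2 q.1))).res c) c ∧
          Rich B.D0 L (fun w => B.bd (s.1 w)) s.2 (flip c q.1) ((B.bd (s.1 (flip c q.1))).res q.2.1) q.2.1 ∧
          Rich B.D0 L (fun w => B.bd (s.1 w)) s.2 (flip c q.1) ((B.bd (s.1 (flip c q.1))).res q.2.2) q.2.2) :=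
      ⟨_, rfl⟩
  obtain ⟨EB, hEB⟩ : ∃ EB : Cube (Fin nR) × Fin nR → (Cube (Fin nR) → B.Ω) ×
      (Cube β × CE (Fin nR) → Bool) → Prop, EB = fun q s => ∀ l ∈ (univ : Finset (Fin nR)).erase q.2,
        ¬ ((B.bd (s.1 (flip l q.1))).G.Nonempty ∧
          Rich B.D0 L (fun w => B.bd (s.1 w)) s.2 (flip l q.1) ((B.bd (s.1 (flip l q.1))).res q.2) q.2) :=
      ⟨_, rfl⟩
  have hpos : 0 < nR := by omega
  have hsub : ∀ s, ¬ MEv B.D0 L (fun z => B.bd (s.1 z)) s.2 →
      ((((∃ q ∈ (univ : Finset (Cube (Fin nR) × Cube β)), ER q s) ∨ EX s) ∨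
        (∃ q ∈ (univ : Finset (Cube (Fin nR) × Fin nR × Fin nR)), EA q s)) ∨
        (∃ q ∈ (univ : Finset (Cube (Fin nR) × Fin nR)), EB q s)) := by
    intro s hs
    by_contra hcon
    rw [not_or, not_or, not_or] at hcon
    obtain ⟨⟨⟨n1, n2⟩, n3⟩, n4⟩ := hcon
    apply hs
    refine ⟨?_, ?_, ?_⟩
    · intro z u hu
      by_contra h
      push Not at h
      refine n1 ⟨(z, u), Finset.mem_univ _, ?_⟩
      rw [hER]
      exact fun i _ => ⟨hu, h i⟩
    · by_contra h
      push Not at h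
      refine n2 ?_
      rw [hEX]
      intro z _
      rw [Finset.not_nonempty_iff_eq_empty]
      exact h z
    · refine con_of hpos ?_ ?_
      · intro z a b hab ha hb
        by_contra hno
        refine n3 ⟨(z, a, b), Finset.mem_univ _, ?_⟩
        rw [hEA]
        refine ⟨hab, fun c _ => ⟨⟨ha, hb⟩, fun hh => hno ?_⟩⟩
        obtain ⟨g0, r1, r2, r3, r4⟩ := hh
        simp only at g0 r1 r2 r3 r4
        have ga := Rich.giant hpos r1
        have gb := Rich.giant hpos r2
        refine Relation.ReflTransGen.trans (b := flip c (flip a z)) (Relation.ReflTransGen.single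
          ⟨ha, ga, c, rfl, Or.inl r1⟩) ?_
        refine Relation.ReflTransGen.trans (b := flip c z) (Relation.ReflTransGen.single
          ⟨ga, g0, a, by rw [flip_comm a c, flip_flip], Or.inr r3⟩) ?_
        refine Relation.ReflTransGen.trans (b := flip c (flip b z)) (Relation.ReflTransGen.single
          ⟨g0, gb, b, flip_comm _ _ _, Or.inl r4⟩) ?_
        exact Relation.ReflTransGen.single ⟨gb, hb, c, by rw [flip_flip], Or.inr r2⟩
      · intro z k
        by_contra hno
        push Not at hno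
        refine n4 ⟨(z, k), Finset.mem_univ _, ?_⟩
        rw [hEB]
        intro l _ hh
        simp only at hh
        have g := Rich.giant hpos hh.2
        refine hno l ⟨hh.1, ?_, k, flip_comm _ _ _, Or.inl hh.2⟩
        rw [flip_comm l k z]
        exact g
  have b1 : P.pr (fun s => ∃ q ∈ (univ : Finset (Cube (Fin nR) × Cube β)), ER q s) ≤
      (2 ^ nR * 2 ^ Fintype.card β : ℝ) * (1 / 400) ^ nR := by
    refine (FP.pr_exists _ _ _).trans ?_
    refine (Finset.sum_le_sum fun q _ => ?_).trans (le_of_eq (?_ : ∑ _q ∈ (univ : Finset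
      (Cube (Fin nR) × Cube β)), ((1 : ℝ) / 400) ^ nR = _))
    · rw [hER]
      exact run_bound B h0 h1 hnR hM q.1 q.2
    · rw [Finset.sum_const, Finset.card_univ, Fintype.card_prod, nsmul_eq_mul]
      simp
  have b2 : P.pr EX ≤ (1 / 500) ^ (2 ^ nR) := by
    rw [hEX]
    exact ex_bound B h0 h1
  have b3 : P.pr (fun s => ∃ q ∈ (univ : Finset (Cube (Fin nR) × Fin nR × Fin nR)), EA q s) ≤
      (2 ^ nR * (nR * nR) : ℝ) * (1 / 50) ^ (nR - 2) := by
    refine (FP.pr_exists _ _ _).trans ?_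
    refine (Finset.sum_le_sum fun q _ => ?_).trans (le_of_eq (?_ : ∑ _q ∈ (univ : Finset
      (Cube (Fin nR) × Fin nR × Fin nR)), ((1 : ℝ) / 50) ^ (nR - 2) = _))
    · rw [hEA]
      by_cases hq : q.2.1 = q.2.2
      · have h2 : P.pr (fun _ => False) = 0 := by
          rw [FP.pr_eq]; simp [FP.E]
        refine le_trans (FP.pr_mono _ (B := fun _ => False) fun s hs => hs.1 hq) ?_
        rw [h2]
        positivity
      · refine le_trans (FP.pr_mono _ fun s hs => hs.2) (conA_bound B h0 h1 hnR hM q.1 q.2.1 q.2.2 hq)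
    · rw [Finset.sum_const, Finset.card_univ, Fintype.card_prod, Fintype.card_prod, nsmul_eq_mul]
      simp
  have b4 : P.pr (fun s => ∃ q ∈ (univ : Finset (Cube (Fin nR) × Fin nR)), EB q s) ≤
      (2 ^ nR * nR : ℝ) * (1 / 50) ^ (nR - 1) := by
    refine (FP.pr_exists _ _ _).trans ?_
    refine (Finset.sum_le_sum fun q _ => ?_).trans (le_of_eq (?_ : ∑ _q ∈ (univ : Finset
      (Cube (Fin nR) × Fin nR)), ((1 : ℝ) / 50) ^ (nR - 1) = _))
    · rw [hEB]
      exact conB_bound B h0 h1 hnR hM q.1 q.2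
    · rw [Finset.sum_const, Finset.card_univ, Fintype.card_prod, nsmul_eq_mul]
      simp
  refine (FP.pr_mono _ hsub).trans ((FP.pr_or _ _ _).trans ?_)
  refine (add_le_add ((FP.pr_or _ _ _).trans (add_le_add ((FP.pr_or _ _ _).trans (add_le_add b1 b2)) b3))
    b4).trans ?_
  exact mev_num hnR hβ

end Rich

end Pool.Agent.LongCyc.Dense
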