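import Pool.Agent.LongCyc.Dense.PcsSys
import Pool.Agent.LongCyc.Dense.MergeAll
import Pool.Agent.LongCyc.Dense.Link
import Pool.Agent.LongCyc.Dense.BadMass
import Pool.Agent.LongCyc.Dense.ExpandWhp
import Pool.Agent.LongCyc.Dense.Mev
import Pool.Agent.LongCyc.Dense.Layers
import Pool.Agent.LongCyc.Stage2a
import Pool.Agent.LongCyc.Final2

/-!
# Dense regime: deterministic part of the final assembly
-/

set_option autoImplicit false

namespace Pool.Agent.LongCyc.Dense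

open Finset

theorem IsCyc.mono {V : Type} {A A' : V → V → Prop} {l : List V} (h : IsCyc A l) (hA : ∀ x y, A x y → A' x y) :
    IsCyc A' l where
  nodup := h.nodup
  len := h.len
  adj x y hxy := hA x y (h.adj x y hxy)

section det

variable {β : Type} [DecidableEq β] [Fintype β] {nR : ℕ}

/-- in a valid configuration a step changes the point -/
theorem SysV.ne {δ : Type} [DecidableEq δ] [Fintype δ] {D : Cube δ → BD β nR} {D0 : Finset β}
    {Adms : Finset (CE β) → Prop} {L Vr Bd0 Bd : ℕ} (hD : ∀ z, (D z).Val D0 Adms L Vr Bd0)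
    {rg : Cube β × CE δ → Bool} {c : Cube (β ⊕ δ) → Option (Cube (β ⊕ δ))} {U : Finset (Cube (β ⊕ δ))}
    (hv : SysV L D rg c U Bd) {x x' : Cube (β ⊕ δ)} (h : c x = some x') : ∃ i, x' = flip i x := by
  rcases hv.edge x x' h with ⟨h1, h2⟩ | ⟨i, h1, _⟩
  · obtain ⟨i, hi, _⟩ := (hD _).cOpen _ _ h2
    refine ⟨Sum.inl i, ?_⟩
    rw [flip_inl, ← hi, ← h1, jn_self]
  · exact ⟨Sum.inr i, h1⟩

/-- the edges of a valid configuration are open -/
theorem SysV.isOpn {δ : Type} [DecidableEq δ] [Fintype δ] {D : Cube δ → BD β nR} {D0 : Finset β}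
    {Adms : Finset (CE β) → Prop} {L Vr Bd0 Bd : ℕ} (hD : ∀ z, (D z).Val D0 Adms L Vr Bd0)
    {rg : Cube β × CE δ → Bool} {c : Cube (β ⊕ δ) → Option (Cube (β ⊕ δ))} {U : Finset (Cube (β ⊕ δ))}
    (hv : SysV L D rg c U Bd) (r3 : Cube β × CE δ → Bool) (w2 : CE (β ⊕ δ) → Bool) {x x' : Cube (β ⊕ δ)}
    (h : c x = some x') :
    AO (fun z => (D z).hb) rg r3 w2 x x' ∧ AO (fun z => (D z).hb) rg r3 w2 x' x := by
  rcases hv.edge x x' h with ⟨h1, h2⟩ | ⟨i, rfl, h2⟩
  · have h3 := (hD _).cOpen _ _ h2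
    refine ⟨Or.inl ⟨h1, h3⟩, Or.inl ⟨h1.symm, ?_⟩⟩
    rw [h1]
    exact opn_symm h3
  · refine ⟨Or.inr (Or.inl ⟨i, rfl, Or.inl h2⟩), Or.inr (Or.inl ⟨i, by simp, Or.inl ?_⟩)⟩
    have e1 : flip (Sum.inr i) x ∘ Sum.inl = x ∘ Sum.inl := by rw [flip_inr, jn_inl]
    have e2 : flip (Sum.inr i) x ∘ Sum.inr = flip i (x ∘ Sum.inr) := by rw [flip_inr, jn_inr]
    rw [e1, e2, (canE δ).symm]
    exact h2

open Classical in
/-- **deterministic assembly** -/
theorem dense_det {D0 : Finset β} {Adms : Finset (CE β) → Prop} {L Vr Bd0 Bd : ℕ} (hnR : 1 ≤ nR) (hL : 2 ≤ L)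
    (hBd : L ≤ Bd) (hVr : 2 ≤ Vr)
    (D : Cube (Fin nR) → BD β nR) (hD : ∀ z, (D z).Val D0 Adms L Vr Bd0) (rg r3 : Cube β × CE (Fin nR) → Bool)
    (w2 : CE (β ⊕ Fin nR) → Bool) (c : Cube (β ⊕ Fin nR) → Option (Cube (β ⊕ Fin nR)))
    (U : Finset (Cube (β ⊕ Fin nR))) (hv : SysV L D rg c U Bd) (hM : MEv D0 L D r3)
    (Dt : LinkData (cG c) (hG (cG c) w2) (PI D) Vr) (hDt : Dt.P = pcv D Vr) {s0 η : ℝ} (hη : 0 < η) (hs0 : 0 ≤ s0)
    (hexp : Expands Dt.pg s0 η) (h : ℕ) (hh : 1 ≤ h) (Xb : Finset (Cube (β ⊕ Fin nR)))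
    (hstretch : ∀ l : List (Cube (β ⊕ Fin nR)), l.Nodup → l.IsChain (cG c).Adj → l.length = h → (∀ v ∈ l, v ∉ Xb) →
      ∃ v ∈ l, ∃ p i, (hG (cG c) w2).Adj v (pcv D Vr p i))
    (σ : ℕ) (hσ : (univ.filter fun x => ∀ w, c w ≠ some x).card ≤ σ) (k0 : ℕ)
    (hk0 : (Fintype.card (PI D) : ℝ) ≤ (1 + η / 2) ^ k0)
    (hsmall : 100 * max s0 (2 / η * ((2 * σ : ℕ) * (2 * k0 + 2))) ≤ Fintype.card (PI D))
    (hPP : 100 ≤ Fintype.card (PI D)) :
    ∃ l : List (Cube (β ⊕ Fin nR)), IsCyc (AO (fun z => (D z).hb) rg r3 w2) l ∧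
      (2 : ℝ) ^ (Fintype.card β + nR) -
        20 * h * (Vr * ((2 * σ : ℕ) * (2 * k0 + 4) + max s0 (2 / η * ((2 * σ : ℕ) * (2 * k0 + 2)))) + Xb.card) -
        (2 * (2 * σ) * (2 * k0 + 4) * Bd : ℕ) ≤ l.length := by
  have hne : ∀ x, c x ≠ some x := by
    intro x hx
    obtain ⟨i, hi⟩ := hv.ne hD hx
    exact flip_ne i x hi.symm
  have hends : endCard (cG c) ≤ 2 * σ := (cG_ends c hv.inj hv.no2 hne).trans (by omega)
  obtain ⟨X, F', hdec, hF1, hF2, hF3, hF4, hF5, hF6⟩ := linking Dt hη hs0 hexp h hh Xb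
    (by rw [hDt]; exact hstretch) (2 * σ) hends k0 hk0 hsmall hPP
  -- the giants are untouched
  have hgi : ∀ z, ∀ y ∈ (D z).G, ∀ u, F'.Adj (jn y z) u ↔
      ∃ y', u = jn y' z ∧ y' ∈ (D z).G ∧ ((D z).c y = some y' ∨ (D z).c y' = some y) := by
    intro z y hy u
    set C : Finset (Cube (β ⊕ Fin nR)) := (D z).G.image fun y => jn y z with hC
    have h1 := hF6 C ?_ ?_ ?_ (jn y z) (Finset.mem_image.2 ⟨y, hy, rfl⟩)
    · rw [(h1.2 u), giant_adj hD hv z y hy u]
    · intro v hv'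
      obtain ⟨y0, hy0, rfl⟩ := Finset.mem_image.1 hv'
      obtain ⟨y1, hy1, h2⟩ := (hD z).gcyc y0 hy0
      -- the predecessor
      have hpre : ∃ y2 ∈ (D z).G, (D z).c y2 = some y0 := by
        have hinj : ∀ a ∈ (D z).G, ∀ b ∈ (D z).G, (D z).c a = (D z).c b → a = b := by
          intro a ha b _ hab
          obtain ⟨a', _, ha'⟩ := (hD z).gcyc a ha
          exact (hD z).cInj a b a' ha' (by rw [← hab, ha'])
        have hsurj := Finset.surj_on_of_inj_on_of_card_le (s := (D z).G) (t := (D z).G)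
          (fun a ha => ((hD z).gcyc a ha).choose) (fun a ha => ((hD z).gcyc a ha).choose_spec.1)
          (fun a b ha hb hab => by
            apply hinj a ha b hb
            rw [((hD z).gcyc a ha).choose_spec.2, ((hD z).gcyc b hb).choose_spec.2, hab]) le_rfl y0 hy0
        obtain ⟨a, ha, hab⟩ := hsurj
        exact ⟨a, ha, by rw [((hD z).gcyc a ha).choose_spec.2, ← hab]⟩
      obtain ⟨y2, hy2, h3⟩ := hpre
      have h12 : y1 ≠ y2 := by
        rintro rfl
        exact (hD z).no2 _ _ h2 h3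
      have : (univ.filter fun u => (cG c).Adj (jn y0 z) u) = {jn y1 z, jn y2 z} := by
        ext u
        simp only [Finset.mem_filter, Finset.mem_univ, true_and, Finset.mem_insert, Finset.mem_singleton]
        rw [giant_adj hD hv z y0 hy0 u]
        constructor
        · rintro ⟨y', rfl, _, h4 | h4⟩
          · left
            rw [h2] at h4
            rw [Option.some.inj h4]
          · right
            rw [(hD z).cInj _ _ _ h4 h3]
        · rintro (rfl | rfl)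
          · exact ⟨y1, rfl, hy1, Or.inl h2⟩
          · exact ⟨y2, rfl, hy2, Or.inr h3⟩
      rw [this, Finset.card_pair]
      intro h4
      exact h12 (jn_inj h4).1
    · intro v hv' u hu
      obtain ⟨y0, hy0, rfl⟩ := Finset.mem_image.1 hv'
      obtain ⟨y', rfl, h4, _⟩ := (giant_adj hD hv z y0 hy0 u).1 hu
      exact Finset.mem_image.2 ⟨y', h4, rfl⟩
    · intro p i hp
      rw [hDt] at hp
      obtain ⟨y0, hy0, h4⟩ := Finset.mem_image.1 hp
      have h5 : pcv D Vr p i ∈ pun (pcv D Vr) := Finset.mem_image.2 ⟨(p, i), Finset.mem_univ _, rfl⟩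
      rw [pun_sys hD, ← h4, jn_inl, jn_inr] at h5
      exact ((hD z).pU _ h5).2 hy0
  -- components without a good run are small
  have hm : (univ.filter fun q : Cube (β ⊕ Fin nR) × Cube (β ⊕ Fin nR) =>
      F'.Adj q.1 q.2 ∧ c q.1 ≠ some q.2 ∧ c q.2 ≠ some q.1).card ≤ 2 * (2 * σ) * (2 * k0 + 4) := by
    refine (Finset.card_le_card ?_).trans hF4
    intro q hq
    simp only [Finset.mem_filter, Finset.mem_univ, true_and] at hq ⊢
    refine ⟨hq.1, ?_⟩
    rintro ⟨_, h5 | h5⟩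
    · exact hq.2.1 h5
    · exact hq.2.2 h5
  obtain ⟨Bad, hBad1, hBad2⟩ := bad_mass c (liftP fun z => (D z).b) hv.inj hv.no2 hne (lGd D) L Bd hL hBd
    hv.str F' X hF2 (by intro v hv'; convert hF3 v hv') _ (by convert hm)
  obtain ⟨l, hl1, hl2⟩ := merge_all hnR D hD r3 hM F' X Bad hF2 (by intro v hv'; convert hF3 v hv') hgi hBad2
  refine ⟨l, hl1.mono ?_, ?_⟩
  · rintro x y (hxy | ⟨i, rfl, hxy⟩)
    · rcases hF1 x y hxy with h5 | h5
      · rcases h5.2 with h6 | h6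
        · exact (hv.isOpn hD r3 w2 h6).1
        · exact (hv.isOpn hD r3 w2 h6).2
      · obtain ⟨i, rfl, h6, _⟩ := h5
        exact Or.inr (Or.inr ⟨i, rfl, h6.1⟩)
    · exact Or.inr (Or.inl ⟨i, rfl, Or.inr hxy⟩)
  · have h5 : (univ \ (X ∪ Bad)).card ≤ l.length := by
      rw [← List.toFinset_card_of_nodup hl1.nodup]
      refine Finset.card_le_card ?_
      intro v hv'
      simp only [Finset.mem_sdiff, Finset.mem_univ, true_and, Finset.mem_union, not_or] at hv'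
      rw [List.mem_toFinset]
      exact hl2 v hv'.1 hv'.2
    have h6 : Fintype.card (Cube (β ⊕ Fin nR)) ≤ (univ \ (X ∪ Bad)).card + (X ∪ Bad).card := by
      rw [Finset.card_sdiff_add_card_eq_card (Finset.subset_univ _), Finset.card_univ]
    have h7 := Finset.card_union_le X Bad
    have h8 : Fintype.card (Cube (β ⊕ Fin nR)) = 2 ^ (Fintype.card β + nR) := by simp
    have h9 : ((2 : ℝ) ^ (Fintype.card β + nR)) ≤ l.length + X.card + Bad.card := by
      rw [h8] at h6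
      have : 2 ^ (Fintype.card β + nR) ≤ l.length + X.card + Bad.card := by omega
      exact_mod_cast this
    have h10 : (Bad.card : ℝ) ≤ ((2 * (2 * σ) * (2 * k0 + 4) * Bd : ℕ) : ℝ) := by exact_mod_cast hBad1
    linarith [hF5]

end det

end Pool.Agent.LongCyc.Dense
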