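import Pool.Agent.LongCyc.Dense.SysDef

/-!
# Dense regime, section 5: law of the joined environment
-/

set_option autoImplicit false

namespace Pool.Agent.LongCyc.Dense

open Finset

section general

variable {I J A C : Type} [Fintype I] [DecidableEq I] [Fintype J] [DecidableEq J] [Fintype A] [Fintype C]

/-- a family of independent pairs -/
theorem E_pi_prod (P : I → FP A) (Q : I → FP C) (f : (I → A × C) → ℝ) :
    (FP.pi fun i => (P i).prod (Q i)).E f =
      (FP.pi P).E fun a => (FP.pi Q).E fun c => f fun i => (a i, c i) := by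
  rw [← FP.E_prod (FP.pi P) (FP.pi Q) (fun q => f fun i => (q.1 i, q.2 i))]
  set e : ((I → A) × (I → C)) ≃ (I → A × C) :=
    { toFun := fun q i => (q.1 i, q.2 i)
      invFun := fun g => (fun i => (g i).1, fun i => (g i).2)
      left_inv := fun q => rfl
      right_inv := fun g => rfl } with he
  rw [FP.E, ← Equiv.sum_comp e, FP.E]
  refine Finset.sum_congr rfl fun q _ => ?_
  have h1 : (FP.pi fun i => (P i).prod (Q i)).w (e q) = ((FP.pi P).prod (FP.pi Q)).w q := by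
    rw [FP.pi_w]
    show ∏ i, (P i).w (q.1 i) * (Q i).w (q.2 i) = (FP.pi P).w q.1 * (FP.pi Q).w q.2
    rw [Finset.prod_mul_distrib, FP.pi_w, FP.pi_w]
  rw [h1]
  rfl

/-- transport of the law of a random variable to families of independent copies -/
theorem E_pi_law (P : FP A) (Q : FP C) (X : A → C) (h : ∀ F : C → ℝ, P.E (fun ω => F (X ω)) = Q.E F)
    (G : (I → C) → ℝ) : (FP.pi fun _ : I => P).E (fun ω => G fun i => X (ω i)) = (FP.pi fun _ : I => Q).E G := by
  classical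
  have hQ : ∀ c, Q.w c = ∑ ω, P.w ω * if X ω = c then 1 else 0 := by
    intro c
    have := h fun c' => if c' = c then 1 else 0
    rw [FP.E, FP.E] at this
    rw [this]
    simp
  have h1 : ∀ g : I → C, (FP.pi fun _ : I => Q).w g =
      ∑ ω : I → A, (FP.pi fun _ : I => P).w ω * if (fun i => X (ω i)) = g then 1 else 0 := by
    intro g
    rw [FP.pi_w, Finset.prod_congr rfl fun i _ => hQ (g i)]
    have h2 := Finset.prod_univ_sum (fun _ : I => (Finset.univ : Finset A))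
      (fun i a => P.w a * if X a = g i then 1 else 0)
    rw [Fintype.piFinset_univ] at h2
    rw [h2]
    refine Finset.sum_congr rfl fun ω _ => ?_
    rw [Finset.prod_mul_distrib, FP.pi_w]
    congr 1
    by_cases h3 : (fun i => X (ω i)) = g
    · rw [if_pos h3]
      refine Finset.prod_eq_one fun i _ => ?_
      rw [if_pos (congrFun h3 i)]
    · rw [if_neg h3]
      have h4 : ∃ i, X (ω i) ≠ g i := by
        by_contra h5
        push Not at h5
        exact h3 (funext h5)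
      obtain ⟨i, hi⟩ := h4
      exact Finset.prod_eq_zero (Finset.mem_univ i) (if_neg hi)
  have hR : (FP.pi fun _ : I => Q).E G = ∑ ω : I → A, ∑ g : I → C,
      ((FP.pi fun _ : I => P).w ω * if (fun i => X (ω i)) = g then 1 else 0) * G g := by
    rw [FP.E, Finset.sum_comm]
    refine Finset.sum_congr rfl fun g _ => ?_
    rw [h1 g, Finset.sum_mul]
  rw [hR, FP.E]
  refine Finset.sum_congr rfl fun ω _ => ?_
  rw [Finset.sum_eq_single (fun i => X (ω i))]
  · rw [if_pos rfl, mul_one]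
  · intro g _ hg
    rw [if_neg (Ne.symm hg)]
    ring
  · intro h2
    exact absurd (Finset.mem_univ _) h2

/-- reindexing with a measure preserving action in the coordinates -/
theorem E_pi_reindex (P : FP A) (σ : J ≃ I) (a : J → A ≃ A) (ha : ∀ j x, P.w (a j x) = P.w x)
    (F : (J → A) → ℝ) : (FP.pi fun _ : I => P).E (fun f => F fun j => a j (f (σ j))) =
      (FP.pi fun _ : J => P).E F := by
  set e : (I → A) ≃ (J → A) :=
    { toFun := fun f j => a j (f (σ j))
      invFun := fun g i => (a (σ.symm i)).symm (g (σ.symm i))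
      left_inv := fun f => by
        funext i
        simp
      right_inv := fun g => by
        funext j
        simp } with he
  rw [FP.E, FP.E, ← Equiv.sum_comp e]
  refine Finset.sum_congr rfl fun f _ => ?_
  have h1 : (FP.pi fun _ : J => P).w (e f) = (FP.pi fun _ : I => P).w f := by
    rw [FP.pi_w, FP.pi_w]
    rw [← Equiv.prod_comp σ]
    exact Finset.prod_congr rfl fun j _ => ha j (f (σ j))
  rw [h1]
  rfl

theorem E_pi_curry (P : FP A) (F : (I → J → A) → ℝ) :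
    (FP.pi fun _ : I => FP.pi fun _ : J => P).E F =
      (FP.pi fun _ : I × J => P).E fun g => F fun i j => g (i, j) := by
  rw [FP.E, FP.E, ← Equiv.sum_comp (Equiv.curry I J A)]
  refine Finset.sum_congr rfl fun f _ => ?_
  have h1 : (FP.pi fun _ : I => FP.pi fun _ : J => P).w (Equiv.curry I J A f) =
      (FP.pi fun _ : I × J => P).w f := by
    rw [FP.pi_w, FP.pi_w, Fintype.prod_prod_type]
    rfl
  rw [h1]
  rfl

end general

section S1

variable {β : Type} [DecidableEq β] [Fintype β] {nR : ℕ} {pb : ℝ} {hb0 : 0 ≤ pb} {hb1 : pb ≤ 1}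
  {u0 α0 ρ : ℝ} {L Vr Bd0 M0 : ℕ} {B : BaseLaw β nR pb hb0 hb1 u0 α0 ρ L Vr Bd0 M0}
  {δ μ : Type} [DecidableEq δ] [Fintype δ] [DecidableEq μ] [Fintype μ] {p1 : ℝ} {h0 : 0 ≤ p1} {h1 : p1 ≤ 1}

/-- position of the base fibre of the joined system -/
def posB (τ : Cube μ → Cube (β ⊕ δ)) : Cube (δ ⊕ μ) ≃ Cube μ × Cube δ where
  toFun q := (q ∘ Sum.inr, xr (q ∘ Sum.inl) (τ (q ∘ Sum.inr) ∘ Sum.inr))
  invFun r := jn (xr r.2 (τ r.1 ∘ Sum.inr)) r.1
  left_inv q := by
    show jn (xr (xr (q ∘ Sum.inl) (τ (q ∘ Sum.inr) ∘ Sum.inr)) (τ (q ∘ Sum.inr) ∘ Sum.inr)) (q ∘ Sum.inr) = q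
    rw [xr_xr, jn_self]
  right_inv r := by
    show (r.1, xr (xr r.2 (τ r.1 ∘ Sum.inr)) (τ r.1 ∘ Sum.inr)) = r
    rw [xr_xr]

/-- position of the rungs of the joined system -/
def posR (τ : Cube μ → Cube (β ⊕ δ)) (e : Cube β × CE (δ ⊕ μ)) :
    (Cube μ × (Cube β × CE δ)) ⊕ (Cube (β ⊕ δ) × CE μ) :=
  match e.2.1.2 with
  | Sum.inl i => Sum.inl (e.2.1.1 ∘ Sum.inr, (xr e.1 (τ (e.2.1.1 ∘ Sum.inr) ∘ Sum.inl),
      (canE δ).e (xr (e.2.1.1 ∘ Sum.inl) (τ (e.2.1.1 ∘ Sum.inr) ∘ Sum.inr)) i))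
  | Sum.inr m => Sum.inr (jn e.1 (e.2.1.1 ∘ Sum.inl), (canE μ).e (e.2.1.1 ∘ Sum.inr) m)

theorem canE_inj_false {ι : Type} [DecidableEq ι] {x y t : Cube ι} {i j : ι} (hx : x i = false) (hy : y j = false)
    (h : (canE ι).e (xr x t) i = (canE ι).e (xr y t) j) : i = j ∧ x = y := by
  obtain ⟨h1, h2⟩ := (canE ι).inj _ _ _ _ h
  subst h1
  refine ⟨rfl, ?_⟩
  rcases h2 with h2 | h2
  · exact xr_injective t h2
  · exfalso
    have h3 := congrFun h2 i
    simp [hx, hy] at h3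

omit [DecidableEq β] [Fintype β] [Fintype δ] [Fintype μ] in
theorem posR_injective (τ : Cube μ → Cube (β ⊕ δ)) : Function.Injective (posR τ) := by
  rintro ⟨y, ⟨⟨x, i⟩, hx⟩⟩ ⟨y', ⟨⟨x', i'⟩, hx'⟩⟩ h
  rcases i with i | i <;> rcases i' with i' | i'
  · simp only [posR, Sum.inl.injEq, Prod.mk.injEq] at h
    obtain ⟨h1, h2, h3⟩ := h
    rw [h1] at h2 h3
    have h4 : y = y' := xr_injective _ h2
    obtain ⟨h5, h6⟩ := canE_inj_false (x := x ∘ Sum.inl) (y := x' ∘ Sum.inl) hx hx' h3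
    subst h5
    have h7 : x = x' := by rw [← jn_self x, ← jn_self x', h6, h1]
    subst h4
    subst h7
    rfl
  · simp [posR] at h
  · simp [posR] at h
  · simp only [posR, Sum.inr.injEq, Prod.mk.injEq] at h
    obtain ⟨h2, h3⟩ := h
    obtain ⟨h4, h5⟩ := jn_inj h2
    have h3' : (canE μ).e (xr (x ∘ Sum.inr) (fun _ => false)) i =
        (canE μ).e (xr (x' ∘ Sum.inr) (fun _ => false)) i' := by
      have h8 : ∀ z : Cube μ, xr z (fun _ => false) = z := fun z => by
        funext k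
        simp
      rw [h8, h8]
      exact h3
    obtain ⟨h6, h7⟩ := canE_inj_false (x := x ∘ Sum.inr) (y := x' ∘ Sum.inr) hx hx' h3'
    subst h6
    have h9 : x = x' := by rw [← jn_self x, ← jn_self x', h5, h7]
    subst h4
    subst h9
    rfl

set_option synthInstance.maxSize 1000 in
theorem joinEnv_law [Nonempty (β ⊕ δ)] {Ω : Type} [Fintype Ω] (P : FP Ω)
    (env : Ω → (Cube δ → B.Ω) × (Cube β × CE δ → Bool))
    (law : ∀ F : ((Cube δ → B.Ω) × (Cube β × CE δ → Bool)) → ℝ, P.E (fun ω => F (env ω)) = (envL B δ p1 h0 h1).E F)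
    (F : ((Cube (δ ⊕ μ) → B.Ω) × (Cube β × CE (δ ⊕ μ) → Bool)) → ℝ) :
    (lawR (β ⊕ δ) (fun z : Cube μ => nuS P z) p1 h0 h1).E (fun s => F (joinEnv (μ := μ) env s)) =
      (envL B (δ ⊕ μ) p1 h0 h1).E F := by
  rw [lawR, FP.E_prod]
  have hnu : (fun z : Cube μ => nuS (κ := β ⊕ δ) P z) = fun z : Cube μ => P.prod (parL (β ⊕ δ) (par z)) := rfl
  rw [hnu, E_pi_prod (fun _ : Cube μ => P) (fun z : Cube μ => parL (β ⊕ δ) (par z)), FP.E_swap]
  have hkey : ∀ τ : Cube μ → Cube (β ⊕ δ),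
      ((FP.pi fun _ : Cube μ => P).E fun a => (bern p1 h0 h1 (Cube (β ⊕ δ) × CE μ)).E fun fr =>
        F (joinEnv (μ := μ) env (fun z => (a z, τ z), fr))) = (envL B (δ ⊕ μ) p1 h0 h1).E F := by
    intro τ
    -- deterministic map
    let Jm : (Cube μ → (Cube δ → B.Ω) × (Cube β × CE δ → Bool)) → (Cube (β ⊕ δ) × CE μ → Bool) →
        (Cube (δ ⊕ μ) → B.Ω) × (Cube β × CE (δ ⊕ μ) → Bool) := fun g fr =>
      (fun q => B.act (τ (q ∘ Sum.inr) ∘ Sum.inl) ((fun r : Cube μ × Cube δ => (g r.1).1 r.2) (posB τ q)),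
        (Sum.elim (fun r : Cube μ × (Cube β × CE δ) => (g r.1).2 r.2) fr) ∘ posR τ)
    have hJ : ∀ (a : Cube μ → Ω) (fr : Cube (β ⊕ δ) × CE μ → Bool),
        joinEnv (μ := μ) env (fun z => (a z, τ z), fr) = Jm (fun z => env (a z)) fr := by
      intro a fr
      refine Prod.ext rfl ?_
      funext e
      obtain ⟨y, ⟨⟨x, i⟩, hx⟩⟩ := e
      rcases i with i | i <;> rfl
    refine Eq.trans (FP.E_congr _ fun a => FP.E_congr _ fun fr => by rw [hJ])
      ((E_pi_law (I := Cube μ) P (envL B δ p1 h0 h1) env law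
        (fun g => (bern p1 h0 h1 (Cube (β ⊕ δ) × CE μ)).E fun fr => F (Jm g fr))).trans ?_)
    refine (E_pi_prod (fun _ : Cube μ => FP.pi fun _ : Cube δ => B.μ)
      (fun _ : Cube μ => bern p1 h0 h1 (Cube β × CE δ)) _).trans ?_
    refine Eq.trans ?_ (FP.E_prod (FP.pi fun _ : Cube (δ ⊕ μ) => B.μ)
      (bern p1 h0 h1 (Cube β × CE (δ ⊕ μ))) F).symm
    rw [E_pi_curry B.μ, ← E_pi_reindex B.μ (posB τ)
        (fun q => B.act (τ (q ∘ Sum.inr) ∘ Sum.inl)) (fun q x => B.act_w _ _)]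
    refine FP.E_congr _ fun bb => ?_
    rw [← bern_comap (posR τ) (posR_injective τ), bern_sum, bern_curry]
  calc _ = (FP.pi fun z : Cube μ => parL (β ⊕ δ) (par z)).E fun _ => (envL B (δ ⊕ μ) p1 h0 h1).E F :=
        FP.E_congr _ fun τ => hkey τ
    _ = _ := FP.E_const _ _

end S1

end Pool.Agent.LongCyc.Dense
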