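import Pool.Agent.LongCyc.Dense.SysDef

/-!
# Dense regime, section 5: cube bookkeeping

The three-fold product `Cube (β ⊕ (δ ⊕ μ))`, parities of translations, counting over a parity class.
-/

set_option autoImplicit false

namespace Pool.Agent.LongCyc.Dense

open Finset

section S0

variable {β δ μ : Type} [DecidableEq β] [Fintype β] [DecidableEq δ] [Fintype δ] [DecidableEq μ] [Fintype μ]

omit [DecidableEq β] [Fintype β] [DecidableEq δ] [Fintype δ] [DecidableEq μ] [Fintype μ] in
theorem pr3_jn3 (x : Cube (β ⊕ δ)) (z : Cube μ) : pr3 (jn3 x z) = x := by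
  funext j
  rcases j with j | j <;> rfl

omit [DecidableEq β] [Fintype β] [DecidableEq δ] [Fintype δ] [DecidableEq μ] [Fintype μ] in
theorem ps3_jn3 (x : Cube (β ⊕ δ)) (z : Cube μ) : ps3 (jn3 x z) = z := rfl

omit [DecidableEq β] [Fintype β] [DecidableEq δ] [Fintype δ] [DecidableEq μ] [Fintype μ] in
theorem jn3_self (x : Cube (β ⊕ (δ ⊕ μ))) : jn3 (pr3 x) (ps3 x) = x := by
  funext j
  rcases j with j | j | j <;> rfl

omit [DecidableEq β] in
theorem par_iff_sum (x : Cube β) : par x = true ↔ Even (∑ i, (x i).toNat) := by
  unfold par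
  rw [Finset.card_filter, decide_eq_true_iff]
  have h : (∑ i, if x i = true then 1 else 0) = ∑ i, (x i).toNat := by
    refine Finset.sum_congr rfl fun i _ => ?_
    cases x i <;> rfl
  rw [h]

omit [DecidableEq β] [DecidableEq δ] [DecidableEq μ] in
theorem par_jn3 (x : Cube (β ⊕ δ)) (z : Cube μ) : par (jn3 x z) = par2 x z := by
  unfold par2
  rw [Bool.eq_iff_iff, beq_iff_eq, Bool.eq_iff_iff (a := par x), par_iff_sum, par_iff_sum, par_iff_sum,
    Fintype.sum_sum_type, Fintype.sum_sum_type, Fintype.sum_sum_type]
  simp only [jn3, Sum.elim_inl, Sum.elim_inr, Function.comp_apply]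
  rw [← add_assoc, Nat.even_add]

omit [DecidableEq β] in
theorem par_xr (x t : Cube β) : par (xr x t) = (par x == par t) := by
  rw [Bool.eq_iff_iff, beq_iff_eq, Bool.eq_iff_iff (a := par x), par_iff_sum, par_iff_sum, par_iff_sum]
  have h : (∑ i, (xr x t i).toNat) + 2 * (∑ i, (x i && t i).toNat) =
      (∑ i, (x i).toNat) + ∑ i, (t i).toNat := by
    rw [Finset.mul_sum, ← Finset.sum_add_distrib, ← Finset.sum_add_distrib]
    refine Finset.sum_congr rfl fun i _ => ?_
    rw [xr_apply]
    cases x i <;> cases t i <;> rfl
  rw [← Nat.even_add, ← h, Nat.even_add]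
  simp

omit [Fintype β] [Fintype δ] [Fintype μ] in
theorem flip_jn3 (x : Cube (β ⊕ δ)) (z : Cube μ) (i : μ) :
    flip (Sum.inr (Sum.inr i)) (jn3 x z) = jn3 x (flip i z) := by
  funext j
  rcases j with j | j | j
  · simp [jn3]
  · simp [jn3]
  · by_cases h : j = i
    · subst h; simp [jn3]
    · simp [jn3, h]

/-- a translation-invariant count: `f` is counted on the class of total parity `ε` -/
theorem parL_count [Nonempty β] (A : Finset (Cube β)) (y : Cube β) (b : Bool) :
    (parL β b).E (fun τ => if xr y τ ∈ A then 1 else 0) =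
      ((A.filter fun v => par v = (par y == b)).card : ℝ) / (2 ^ Fintype.card β / 2) := by
  unfold FP.E
  simp only [parL]
  have h1 : ∀ τ : Cube β, (if par τ = b then (2 : ℝ) / 2 ^ Fintype.card β else 0) * (if xr y τ ∈ A then 1 else 0) =
      if par τ = b ∧ xr y τ ∈ A then (2 : ℝ) / 2 ^ Fintype.card β else 0 := by
    intro τ
    by_cases h1 : par τ = b <;> by_cases h2 : xr y τ ∈ A <;> simp [h1, h2]
  rw [Finset.sum_congr rfl fun τ _ => h1 τ, ← Finset.sum_filter, Finset.sum_const, nsmul_eq_mul]
  have h2 : (univ.filter fun τ : Cube β => par τ = b ∧ xr y τ ∈ A).card =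
      (A.filter fun v => par v = (par y == b)).card := by
    refine Finset.card_bij (fun τ _ => xr y τ) ?_ ?_ ?_
    · intro τ hτ
      rw [Finset.mem_filter] at hτ ⊢
      refine ⟨hτ.2.2, ?_⟩
      rw [par_xr, hτ.2.1]
    · intro τ _ τ' _ h
      have h' : xr τ y = xr τ' y := by rw [xr_comm, h, xr_comm]
      exact xr_injective y h'
    · intro v hv
      rw [Finset.mem_filter] at hv
      refine ⟨xr y v, ?_, ?_⟩
      · rw [Finset.mem_filter]
        refine ⟨Finset.mem_univ _, ?_, ?_⟩
        · rw [par_xr, hv.2]
          cases par y <;> cases b <;> rfl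
        · have : xr y (xr y v) = v := by
            rw [xr_comm y v, xr_comm y (xr v y), xr_xr]
          rw [this]
          exact hv.1
      · rw [xr_comm y v, xr_comm y (xr v y), xr_xr]
  rw [h2]
  have h3 : (2 : ℝ) ^ Fintype.card β ≠ 0 := by positivity
  field_simp

/-- both parity classes have the same number of elements -/
theorem card_par_class [Nonempty β] (ε : Bool) :
    (univ.filter fun x : Cube β => par x = ε).card = (univ.filter fun x : Cube β => par x = !ε).card := by
  obtain ⟨i⟩ := ‹Nonempty β›
  refine Finset.card_bij (fun x _ => flip i x) ?_ ?_ ?_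
  · intro x hx
    rw [Finset.mem_filter] at hx ⊢
    exact ⟨Finset.mem_univ _, by rw [par_flip, hx.2]⟩
  · intro x _ y _ h
    exact flip_injective i h
  · intro y hy
    rw [Finset.mem_filter] at hy
    refine ⟨flip i y, ?_, flip_flip i y⟩
    rw [Finset.mem_filter]
    exact ⟨Finset.mem_univ _, by rw [par_flip, hy.2, Bool.not_not]⟩

/-- a partial injection that changes the parity: as many starts of parity `ε` as ends of parity `!ε` -/
theorem card_starts_ends [Nonempty β] (c : Cube β → Option (Cube β)) (hc : PInj c)
    (hp : ∀ y y', c y = some y' → par y' = !par y) (ε : Bool) [DecidablePred fun x => ∀ w, c w ≠ some x]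
    [DecidablePred fun x => c x = none] :
    (univ.filter fun x => par x = ε ∧ ∀ w, c w ≠ some x).card = (univ.filter fun x => par x = !ε ∧ c x = none).card := by
  have h0 := card_par_class (β := β) ε
  have h1 : (univ.filter fun x => par x = ε ∧ ∀ w, c w ≠ some x).card +
      (univ.filter fun x => par x = ε ∧ ¬ ∀ w, c w ≠ some x).card =
      (univ.filter fun x : Cube β => par x = ε).card := by
    rw [← Finset.filter_filter, ← Finset.filter_filter]
    exact Finset.card_filter_add_card_filter_not _
  have h2 : (univ.filter fun x => par x = !ε ∧ c x = none).card +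
      (univ.filter fun x => par x = !ε ∧ ¬ c x = none).card =
      (univ.filter fun x : Cube β => par x = !ε).card := by
    rw [← Finset.filter_filter, ← Finset.filter_filter]
    exact Finset.card_filter_add_card_filter_not _
  have h3 : (univ.filter fun x => par x = !ε ∧ ¬ c x = none).card =
      (univ.filter fun x => par x = ε ∧ ¬ ∀ w, c w ≠ some x).card := by
    refine Finset.card_bij (fun x hx => (c x).get (Option.isSome_iff_ne_none.2 (Finset.mem_filter.1 hx).2.2)) ?_ ?_ ?_
    · intro x hx
      have hx' := (Finset.mem_filter.1 hx).2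
      have hs : c x = some ((c x).get (Option.isSome_iff_ne_none.2 hx'.2)) := (Option.some_get _).symm
      rw [Finset.mem_filter]
      refine ⟨Finset.mem_univ _, ?_, ?_⟩
      · rw [hp _ _ hs, hx'.1, Bool.not_not]
      · intro h
        exact h x hs
    · intro x hx y hy h
      have hx' := (Finset.mem_filter.1 hx).2
      have hy' := (Finset.mem_filter.1 hy).2
      have hs : c x = some ((c x).get (Option.isSome_iff_ne_none.2 hx'.2)) := (Option.some_get _).symm
      have ht : c y = some ((c y).get (Option.isSome_iff_ne_none.2 hy'.2)) := (Option.some_get _).symm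
      rw [← h] at ht
      exact hc _ _ _ hs ht
    · intro y hy
      have hy' := (Finset.mem_filter.1 hy).2
      obtain ⟨h1, h2⟩ := hy'
      push Not at h2
      obtain ⟨w, hw⟩ := h2
      refine ⟨w, ?_, ?_⟩
      · rw [Finset.mem_filter]
        refine ⟨Finset.mem_univ _, ?_, ?_⟩
        · have := hp _ _ hw
          rw [h1] at this
          rw [this, Bool.not_not]
        · rw [hw]; simp
      · simp [hw]
  omega

end S0

end Pool.Agent.LongCyc.Dense
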