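import Pool.Agent.LongCyc.Dense.SysDef

/-!
# Section 5, S2a and S2c: translation of a valid configuration, join without surgery
-/

set_option autoImplicit false

namespace Pool.Agent.LongCyc.Dense

open Finset

/-! ### Transport along maps -/

section Transport

variable {A B : Type*}

private theorem joinAux_it {c : A → Option A} {c' : B → Option B} {f : A → B}
    (h : ∀ x, c' (f x) = (c x).map f) (k : ℕ) (x : A) : it c' k (f x) = (it c k x).map f := by
  induction k with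
  | zero => rfl
  | succ k ih =>
    show (it c' k (f x)).bind c' = ((it c k x).bind c).map f
    rw [ih]
    cases hx : it c k x with
    | none => rfl
    | some y => simpa using h y

private theorem joinAux_intact {b c : A → Option A} {b' c' : B → Option B} {f : A → B}
    (hb : ∀ x, b' (f x) = (b x).map f) (hc : ∀ x, c' (f x) = (c x).map f) {L : ℕ} {u : A}
    (h : Intact b c L u) : Intact b' c' L (f u) := by
  intro k hk
  obtain ⟨y, y', h1, h2, h3⟩ := h k hk
  refine ⟨f y, f y', ?_, ?_, ?_⟩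
  · rw [joinAux_it hb, h1]; rfl
  · rw [hb, h2]; rfl
  · rw [hc, h3]; rfl

private theorem joinAux_stretch {I : Type*} {b c : I → A → Option A} {b' c' : B → Option B} {f : I → A → B}
    (hf : ∀ y : B, ∃ i x, y = f i x)
    (hb : ∀ i x, b' (f i x) = (b i x).map (f i)) (hc : ∀ i x, c' (f i x) = (c i x).map (f i))
    {G : I → A → Prop} {G' : B → Prop} (hG : ∀ i x, G i x → G' (f i x)) {L Bd : ℕ}
    (h : ∀ i, Stretch (b i) (G i) L (c i) Bd) : Stretch b' G' L c' Bd := by
  intro y hy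
  obtain ⟨i, x, rfl⟩ := hf y
  rw [joinAux_it (hc i)] at hy
  have hx : it (c i) (Bd - 1) x ≠ none := by
    intro h0
    rw [h0] at hy
    exact hy rfl
  obtain ⟨j, u, h1, h2, h3, h4⟩ := h i x hx
  refine ⟨j, f i u, h1, ?_, hG i u h3, joinAux_intact (hb i) (hc i) h4⟩
  rw [joinAux_it (hc i), h2]; rfl

private theorem joinAux_some {I : Type*} {c : I → A → Option A} {c' : B → Option B} {f : I → A → B}
    (hf : ∀ y : B, ∃ i x, y = f i x) (hc : ∀ i x, c' (f i x) = (c i x).map (f i)) {y y' : B}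
    (h : c' y = some y') : ∃ i x x', y = f i x ∧ y' = f i x' ∧ c i x = some x' := by
  obtain ⟨i, x, rfl⟩ := hf y
  rw [hc] at h
  obtain ⟨x', h1, h2⟩ := Option.map_eq_some_iff.1 h
  exact ⟨i, x, x', rfl, h2.symm, h1⟩

private theorem joinAux_inj {I : Type*} {c : I → A → Option A} {c' : B → Option B} {f : I → A → B}
    (hf : ∀ y : B, ∃ i x, y = f i x) (hi : ∀ i j x y, f i x = f j y → i = j ∧ x = y)
    (hc : ∀ i x, c' (f i x) = (c i x).map (f i)) (h : ∀ i, PInj (c i)) : PInj c' := by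
  intro x y v hx hy
  obtain ⟨i, x0, v0, rfl, rfl, h1⟩ := joinAux_some hf hc hx
  obtain ⟨j, y0, v1, rfl, h2, h3⟩ := joinAux_some hf hc hy
  obtain ⟨rfl, rfl⟩ := hi _ _ _ _ h2
  rw [h i x0 y0 v0 h1 h3]

private theorem joinAux_no2 {I : Type*} {c : I → A → Option A} {c' : B → Option B} {f : I → A → B}
    (hf : ∀ y : B, ∃ i x, y = f i x) (hi : ∀ i j x y, f i x = f j y → i = j ∧ x = y)
    (hc : ∀ i x, c' (f i x) = (c i x).map (f i)) (h : ∀ i x x', c i x = some x' → c i x' ≠ some x) (x x' : B)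
    (hx : c' x = some x') : c' x' ≠ some x := by
  intro hx'
  obtain ⟨i, x0, v0, rfl, rfl, h1⟩ := joinAux_some hf hc hx
  obtain ⟨j, y0, v1, h2, h3, h4⟩ := joinAux_some hf hc hx'
  obtain ⟨rfl, rfl⟩ := hi _ _ _ _ h2
  obtain ⟨_, rfl⟩ := hi _ _ _ _ h3
  exact h i x0 v0 h1 h4

end Transport

section cubes

variable {β δ μ : Type} [DecidableEq β] [Fintype β] [DecidableEq δ] [Fintype δ] [DecidableEq μ] [Fintype μ] {nR : ℕ}

omit [DecidableEq β] [Fintype β] [DecidableEq δ] [Fintype δ] in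
private theorem joinAux_xr_jn (y : Cube β) (z : Cube δ) (τ : Cube (β ⊕ δ)) :
    xr (jn y z) τ = jn (xr y (τ ∘ Sum.inl)) (xr z (τ ∘ Sum.inr)) := by
  funext j
  rcases j with j | j <;> rfl

omit [DecidableEq β] [Fintype β] in
private theorem joinAux_trc (c : Cube β → Option (Cube β)) (τ x : Cube β) :
    trc c τ (xr x τ) = (c x).map fun v => xr v τ := by
  rw [trc, xr_xr]

private theorem joinAux_trS {S : Finset (Cube β)} {τ x : Cube β} : xr x τ ∈ trS S τ ↔ x ∈ S := by
  unfold trS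
  rw [Finset.mem_image]
  constructor
  · rintro ⟨v, hv, h⟩
    rwa [← xr_injective τ h]
  · intro h
    exact ⟨x, h, rfl⟩

private theorem joinAux_lift (D : Cube δ → BD β nR) (τ x : Cube (β ⊕ δ)) :
    liftP (fun z => ((D (xr z (τ ∘ Sum.inr))).tr (τ ∘ Sum.inl)).b) (xr x τ) =
      (liftP (fun z => (D z).b) x).map fun v => xr v τ := by
  have e1 : xr x τ ∘ Sum.inr = xr (x ∘ Sum.inr) (τ ∘ Sum.inr) := rfl
  have e2 : xr x τ ∘ Sum.inl = xr (x ∘ Sum.inl) (τ ∘ Sum.inl) := rfl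
  simp only [liftP, BD.tr, e1, e2, xr_xr, joinAux_trc, Option.map_map]
  congr 1
  funext y
  simp only [Function.comp, joinAux_xr_jn]

omit [Fintype δ] in
private theorem joinAux_canE (v τ : Cube δ) (i : δ) :
    (canE δ).e (xr ((canE δ).e v i).1.1 τ) i = (canE δ).e (xr v τ) i := by
  apply Subtype.ext
  show (Function.update (xr (Function.update v i false) τ) i false, i) = (Function.update (xr v τ) i false, i)
  rw [Prod.mk.injEq]
  refine ⟨?_, rfl⟩
  funext k
  by_cases hk : k = i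
  · subst hk; simp
  · simp [hk]

/-- S2a: translation of a valid configuration -/
theorem SysV.trans {L : ℕ} {D : Cube δ → BD β nR} {rg : Cube β × CE δ → Bool}
    {c : Cube (β ⊕ δ) → Option (Cube (β ⊕ δ))} {U : Finset (Cube (β ⊕ δ))} {Bd : ℕ} (h : SysV L D rg c U Bd)
    (τ : Cube (β ⊕ δ)) :
    SysV L (fun z => (D (xr z (τ ∘ Sum.inr))).tr (τ ∘ Sum.inl))
      (fun e => rg (xr e.1 (τ ∘ Sum.inl), (canE δ).e (xr e.2.1.1 (τ ∘ Sum.inr)) e.2.1.2)) (trc c τ) (trS U τ) Bd := by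
  have hf : ∀ y : Cube (β ⊕ δ), ∃ (_ : Unit) (x : Cube (β ⊕ δ)), y = xr x τ :=
    fun y => ⟨(), xr y τ, by rw [xr_xr]⟩
  have hi : ∀ (i j : Unit) (x y : Cube (β ⊕ δ)), xr x τ = xr y τ → i = j ∧ x = y :=
    fun _ _ _ _ h => ⟨rfl, xr_injective τ h⟩
  have hc : ∀ (_ : Unit) (x : Cube (β ⊕ δ)), trc c τ (xr x τ) = (c x).map fun v => xr v τ :=
    fun _ x => joinAux_trc c τ x
  have hb : ∀ (_ : Unit) (x : Cube (β ⊕ δ)),
      liftP (fun z => ((D (xr z (τ ∘ Sum.inr))).tr (τ ∘ Sum.inl)).b) (xr x τ) =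
        (liftP (fun z => (D z).b) x).map fun v => xr v τ := fun _ x => joinAux_lift D τ x
  have hG : ∀ x : Cube (β ⊕ δ), lGd D x → lGd (fun z => (D (xr z (τ ∘ Sum.inr))).tr (τ ∘ Sum.inl)) (xr x τ) := by
    intro x hx
    have e1 : xr x τ ∘ Sum.inr = xr (x ∘ Sum.inr) (τ ∘ Sum.inr) := rfl
    have e2 : xr x τ ∘ Sum.inl = xr (x ∘ Sum.inl) (τ ∘ Sum.inl) := rfl
    simp only [lGd, BD.tr, e1, e2, xr_xr, joinAux_trS]
    exact hx
  have hU : ∀ x ∈ trS U τ, ∃ w ∈ U, x = xr w τ := by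
    intro x hx
    obtain ⟨w, hw, h1⟩ := Finset.mem_image.1 hx
    exact ⟨w, hw, h1.symm⟩
  refine ⟨?_, ?_, ?_, ?_, ?_, ?_, ?_, ?_⟩
  · exact joinAux_inj (I := Unit) (c := fun _ => c) hf hi hc fun _ => h.inj
  · exact joinAux_no2 (I := Unit) (c := fun _ => c) hf hi hc fun _ => h.no2
  · intro x x' hx
    obtain ⟨_, w, w', rfl, rfl, h1⟩ := joinAux_some (I := Unit) (c := fun _ => c) hf hc hx
    rcases h.edge w w' h1 with ⟨h2, h3⟩ | ⟨i, h2, h3⟩
    · left
      have e1 : xr w τ ∘ Sum.inr = xr (w ∘ Sum.inr) (τ ∘ Sum.inr) := rfl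
      have e2 : xr w τ ∘ Sum.inl = xr (w ∘ Sum.inl) (τ ∘ Sum.inl) := rfl
      have e3 : xr w' τ ∘ Sum.inr = xr (w' ∘ Sum.inr) (τ ∘ Sum.inr) := rfl
      have e4 : xr w' τ ∘ Sum.inl = xr (w' ∘ Sum.inl) (τ ∘ Sum.inl) := rfl
      refine ⟨by rw [e1, e3, h2], ?_⟩
      simp only [BD.tr, e1, e2, e4, xr_xr, joinAux_trc, h3]
      rfl
    · right
      refine ⟨i, by rw [h2, xr_flip], ?_⟩
      show rg (xr (xr w τ ∘ Sum.inl) (τ ∘ Sum.inl),
        (canE δ).e (xr ((canE δ).e (xr w τ ∘ Sum.inr) i).1.1 (τ ∘ Sum.inr)) i) = true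
      have e1 : xr w τ ∘ Sum.inr = xr (w ∘ Sum.inr) (τ ∘ Sum.inr) := rfl
      have e2 : xr w τ ∘ Sum.inl = xr (w ∘ Sum.inl) (τ ∘ Sum.inl) := rfl
      rw [joinAux_canE, e1, e2, xr_xr, xr_xr]
      exact h3
  · intro z y y' h1 h2
    obtain ⟨v, h3, h4⟩ := Option.map_eq_some_iff.1 h1
    have h5 : xr y (τ ∘ Sum.inl) ∉ (D (xr z (τ ∘ Sum.inr))).U := by
      intro h6
      apply h2
      have h7 := (joinAux_trS (τ := τ ∘ Sum.inl)).2 h6
      rw [xr_xr] at h7
      exact h7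
    have h6 := h.keep _ _ _ h3 h5
    show (c (xr (jn y z) τ)).map _ = _
    rw [joinAux_xr_jn, h6]
    show some (xr (jn v (xr z (τ ∘ Sum.inr))) τ) = _
    rw [joinAux_xr_jn, xr_xr]
    rw [h4]
  · intro x hx
    obtain ⟨w, hw, rfl⟩ := hU x hx
    have e1 : xr w τ ∘ Sum.inr = xr (w ∘ Sum.inr) (τ ∘ Sum.inr) := rfl
    have e2 : xr w τ ∘ Sum.inl = xr (w ∘ Sum.inl) (τ ∘ Sum.inl) := rfl
    simp only [BD.tr, e1, e2, xr_xr, joinAux_trS]
    exact h.useb w hw
  · intro x hx
    obtain ⟨w, hw, rfl⟩ := hU x hx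
    obtain ⟨u, h1, h2, h3, h4⟩ := h.usef w hw
    refine ⟨xr u τ, ?_, ?_, hG u h3, joinAux_intact (f := fun v => xr v τ) (hb ()) (hc ()) h4⟩
    · rw [hb (), h1]; rfl
    · rw [hc (), h2]; rfl
  · intro x hx
    obtain ⟨w, hw, rfl⟩ := hU x hx
    obtain ⟨u, h1, h2, h3⟩ := h.useB w hw
    refine ⟨xr u τ, hG u h1, ?_, joinAux_intact (f := fun v => xr v τ) (hb ()) (hc ()) h3⟩
    rw [joinAux_it (f := fun v => xr v τ) (hb ()), h2]; rfl
  · exact joinAux_stretch (I := Unit) (b := fun _ => liftP fun z => (D z).b) (c := fun _ => c)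
      (f := fun _ x => xr x τ) (G := fun _ => lGd D) hf hb hc (fun _ => hG) fun _ => h.str

omit [DecidableEq β] [Fintype β] [DecidableEq δ] [Fintype δ] [DecidableEq μ] [Fintype μ] in
private theorem joinAux_jn3_self (x : Cube (β ⊕ (δ ⊕ μ))) : jn3 (pr3 x) (ps3 x) = x := by
  funext j
  rcases j with j | j | j <;> rfl

omit [DecidableEq β] [Fintype β] [DecidableEq δ] [Fintype δ] [DecidableEq μ] [Fintype μ] in
private theorem joinAux_pr3 (x : Cube (β ⊕ δ)) (z : Cube μ) : pr3 (jn3 x z) = x := by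
  funext j
  rcases j with j | j <;> rfl

omit [DecidableEq β] [Fintype β] [DecidableEq δ] [Fintype δ] [DecidableEq μ] [Fintype μ] in
private theorem joinAux_ps3 (x : Cube (β ⊕ δ)) (z : Cube μ) : ps3 (jn3 x z) = z := rfl

/-- S2c: join without surgery -/
theorem join_only {L Bd : ℕ} (D : Cube μ → Cube δ → BD β nR) (rg : Cube μ → Cube β × CE δ → Bool)
    (fr : Cube (β ⊕ δ) × CE μ → Bool) (c : Cube μ → Cube (β ⊕ δ) → Option (Cube (β ⊕ δ)))
    (U : Cube μ → Finset (Cube (β ⊕ δ))) (hv : ∀ z, SysV L (D z) (rg z) (c z) (U z) Bd) :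
    SysV L (jD D) (jrg rg fr) (fun x => (c (ps3 x) (pr3 x)).map fun v => jn3 v (ps3 x))
      (univ.filter fun x => pr3 x ∈ U (ps3 x)) Bd := by
  have hf : ∀ y : Cube (β ⊕ (δ ⊕ μ)), ∃ (z : Cube μ) (x : Cube (β ⊕ δ)), y = jn3 x z :=
    fun y => ⟨ps3 y, pr3 y, (joinAux_jn3_self y).symm⟩
  have hi : ∀ (i j : Cube μ) (x y : Cube (β ⊕ δ)), jn3 x i = jn3 y j → i = j ∧ x = y := by
    intro i j x y h
    have h1 := congrArg ps3 h
    have h2 := congrArg pr3 h
    rw [joinAux_ps3, joinAux_ps3] at h1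
    rw [joinAux_pr3, joinAux_pr3] at h2
    exact ⟨h1, h2⟩
  have hc : ∀ (z : Cube μ) (x : Cube (β ⊕ δ)),
      (fun x : Cube (β ⊕ (δ ⊕ μ)) => (c (ps3 x) (pr3 x)).map fun v => jn3 v (ps3 x)) (jn3 x z) =
        (c z x).map fun v => jn3 v z := by
    intro z x
    simp only [joinAux_pr3, joinAux_ps3]
  have hb : ∀ (z : Cube μ) (x : Cube (β ⊕ δ)),
      liftP (fun q => (jD D q).b) (jn3 x z) = (liftP (fun q => (D z q).b) x).map fun v => jn3 v z := by
    intro z x
    show ((D z (x ∘ Sum.inr)).b (x ∘ Sum.inl)).map _ = (((D z (x ∘ Sum.inr)).b (x ∘ Sum.inl)).map _).map _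
    rw [Option.map_map]
    rfl
  have hG : ∀ (z : Cube μ) (x : Cube (β ⊕ δ)), lGd (D z) x → lGd (jD D) (jn3 x z) := fun z x h => h
  refine ⟨?_, ?_, ?_, ?_, ?_, ?_, ?_, ?_⟩
  · exact joinAux_inj (f := fun z x => jn3 x z) hf hi hc fun z => (hv z).inj
  · exact joinAux_no2 (f := fun z x => jn3 x z) hf hi hc fun z => (hv z).no2
  · intro x x' hx
    obtain ⟨z, w, w', rfl, rfl, h1⟩ := joinAux_some (c := c)
      (c' := fun x : Cube (β ⊕ (δ ⊕ μ)) => (c (ps3 x) (pr3 x)).map fun v => jn3 v (ps3 x))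
      (f := fun z x => jn3 x z) hf hc hx
    rcases (hv z).edge w w' h1 with ⟨h2, h3⟩ | ⟨i, h2, h3⟩
    · left
      refine ⟨?_, h3⟩
      show Sum.elim (w' ∘ Sum.inr) z = Sum.elim (w ∘ Sum.inr) z
      rw [h2]
    · right
      refine ⟨Sum.inl i, ?_, ?_⟩
      · rw [h2]
        funext k
        rcases k with k | k | k
        · show flip (Sum.inr i) w (Sum.inl k) = flip (Sum.inr (Sum.inl i)) (jn3 w z) (Sum.inl k)
          rw [flip_of_ne (by simp), flip_of_ne (by simp)]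
          rfl
        · show flip (Sum.inr i) w (Sum.inr k) = flip (Sum.inr (Sum.inl i)) (jn3 w z) (Sum.inr (Sum.inl k))
          by_cases hk : k = i
          · subst hk
            rw [flip_same, flip_same]
            rfl
          · rw [flip_of_ne (by simpa using hk), flip_of_ne (by simpa using hk)]
            rfl
        · show z k = flip (Sum.inr (Sum.inl i)) (jn3 w z) (Sum.inr (Sum.inr k))
          rw [flip_of_ne (by simp)]
          rfl
      · show rg ((Function.update (Sum.elim (w ∘ Sum.inr) z) (Sum.inl i) false) ∘ Sum.inr)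
          (w ∘ Sum.inl, (canE δ).e ((Function.update (Sum.elim (w ∘ Sum.inr) z) (Sum.inl i) false) ∘ Sum.inl) i) = true
        have e1 : (Function.update (Sum.elim (w ∘ Sum.inr) z) (Sum.inl i) false) ∘ Sum.inr = z := by
          funext k
          show Function.update (Sum.elim (w ∘ Sum.inr) z) (Sum.inl i) false (Sum.inr k) = z k
          rw [Function.update_of_ne (by exact Sum.inr_ne_inl)]
          rfl
        have e2 : (Function.update (Sum.elim (w ∘ Sum.inr) z) (Sum.inl i) false) ∘ Sum.inl =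
            Function.update (w ∘ Sum.inr) i false := by
          funext k
          show Function.update (Sum.elim (w ∘ Sum.inr) z) (Sum.inl i) false (Sum.inl k) =
            Function.update (w ∘ Sum.inr) i false k
          by_cases hk : k = i
          · subst hk
            rw [Function.update_self, Function.update_self]
          · rw [Function.update_of_ne (by exact fun h => hk (Sum.inl_injective h)), Function.update_of_ne hk]
            rfl
        have e3 : (canE δ).e (Function.update (w ∘ Sum.inr) i false) i = (canE δ).e (w ∘ Sum.inr) i := by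
          apply Subtype.ext
          show (Function.update (Function.update (w ∘ Sum.inr) i false) i false, i) =
            (Function.update (w ∘ Sum.inr) i false, i)
          rw [Function.update_idem]
        rw [e1, e2, e3]
        exact h3
  · intro q y y' h1 h2
    have h3 := (hv (q ∘ Sum.inr)).keep (q ∘ Sum.inl) y y' h1 h2
    show (c (q ∘ Sum.inr) (jn y (q ∘ Sum.inl))).map _ = _
    rw [h3]
    show some (jn3 (jn y' (q ∘ Sum.inl)) (q ∘ Sum.inr)) = _
    congr 1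
    funext k
    rcases k with k | k | k <;> rfl
  · intro x hx
    exact (hv (ps3 x)).useb (pr3 x) (Finset.mem_filter.1 hx).2
  · intro x hx
    obtain ⟨u, h1, h2, h3, h4⟩ := (hv (ps3 x)).usef (pr3 x) (Finset.mem_filter.1 hx).2
    have hx3 := joinAux_jn3_self x
    refine ⟨jn3 u (ps3 x), ?_, ?_, hG _ _ h3, joinAux_intact (f := fun v => jn3 v (ps3 x)) (hb _) (hc _) h4⟩
    · conv_lhs => rw [← hx3]
      rw [hb, h1]; rfl
    · show (c (ps3 x) (pr3 x)).map _ = _
      rw [h2]; rfl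
  · intro x hx
    obtain ⟨u, h1, h2, h3⟩ := (hv (ps3 x)).useB (pr3 x) (Finset.mem_filter.1 hx).2
    have hx3 := joinAux_jn3_self x
    refine ⟨jn3 u (ps3 x), hG _ _ h1, ?_, joinAux_intact (f := fun v => jn3 v (ps3 x)) (hb _) (hc _) h3⟩
    rw [joinAux_it (f := fun v => jn3 v (ps3 x)) (hb _), h2]
    show some (jn3 (pr3 x) (ps3 x)) = some x
    rw [hx3]
  · exact joinAux_stretch (b := fun z => liftP fun q => (D z q).b) (c := c) (f := fun z x => jn3 x z)
      (G := fun z => lGd (D z)) hf hb hc hG fun z => (hv z).str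

end cubes

end Pool.Agent.LongCyc.Dense
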