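import Mathlib
import Pool.Agent.LongCyc.Dense.Defs

/-!
# Surgery along trails (deterministic part): the stretch property survives
-/

set_option autoImplicit false

namespace Pool.Agent.LongCyc.Dense

open Finset

section SurgeryAux

variable {V : Type*}

private theorem it_succ (c : V → Option V) (k : ℕ) (x : V) : it c (k + 1) x = (it c k x).bind c := rfl

private theorem it_add (c : V → Option V) (m n : ℕ) (x : V) :
    it c (m + n) x = (it c m x).bind (it c n) := by
  induction n with
  | zero => 
    cases h : it c m x <;> simp [it, h]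
  | succ n ih =>
    rw [← add_assoc, it_succ, ih]
    cases h : it c m x <;> simp [it]

private theorem it_add_some (c : V → Option V) {m : ℕ} (n : ℕ) {x z : V} (h : it c m x = some z) :
    it c (m + n) x = it c n z := by
  rw [it_add, h]; rfl

private theorem it_one (c : V → Option V) (x : V) : it c 1 x = c x := rfl

private theorem it_ne_none_of_le (c : V → Option V) {m n : ℕ} {x : V} (hmn : m ≤ n)
    (h : it c n x ≠ none) : ∃ z, it c m x = some z := by
  obtain ⟨d, rfl⟩ := Nat.exists_eq_add_of_le hmn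
  cases hm : it c m x with
  | none => exact absurd (by rw [it_add, hm]; rfl) h
  | some z => exact ⟨z, rfl⟩

private theorem it_inj {c : V → Option V} (hc : PInj c) (k : ℕ) {x y v : V} (h1 : it c k x = some v)
    (h2 : it c k y = some v) : x = y := by
  induction k generalizing v with
  | zero =>
    simp only [it, Option.some.injEq] at h1 h2
    rw [h1, h2]
  | succ k ih =>
    rw [it_succ] at h1 h2
    cases hx : it c k x with
    | none => rw [hx] at h1; simp at h1
    | some a =>
      cases hy : it c k y with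
      | none => rw [hy] at h2; simp at h2
      | some a' =>
        rw [hx] at h1; rw [hy] at h2
        simp only [Option.bind_some] at h1 h2
        have := hc a a' v h1 h2
        subst this
        exact ih hx hy

/-- the run is at the same place for `b` and `c` -/
private theorem it_intact {b c : V → Option V} {L : ℕ} {u : V} (h : Intact b c L u) (k : ℕ) (hk : k < L) :
    it c k u = it b k u := by
  induction k with
  | zero => rfl
  | succ k ih =>
    obtain ⟨y, y', h1, h2, h3⟩ := h k hk
    rw [it_succ, it_succ, ih (by omega), h1]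
    simp [h2, h3]

private theorem it_eq_of_unmod {c c' : V → Option V} {y : V} (i : ℕ)
    (h : ∀ j < i, ∀ z, it c' j y = some z → c' z = c z) (j : ℕ) (hj : j ≤ i) : it c j y = it c' j y := by
  induction j with
  | zero => rfl
  | succ j ih =>
    rw [it_succ, it_succ, ih (by omega)]
    cases hz : it c' j y with
    | none => rfl
    | some z => simp [h j (by omega) z hz]

private theorem intact_of_unmod {b c c' : V → Option V} {L : ℕ} {u : V} (h : Intact b c L u)
    (hu : ∀ k, k + 1 < L → ∀ z, it c k u = some z → c' z = c z) : Intact b c' L u := by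
  intro k hk
  obtain ⟨y, y', h1, h2, h3⟩ := h k hk
  refine ⟨y, y', h1, h2, ?_⟩
  rw [hu k hk y (by rw [it_intact h k (by omega), h1]), h3]

/-- a good intact run among the next `M` vertices -/
private def RunW (b : V → Option V) (Good : V → Prop) (L : ℕ) (c : V → Option V) (M : ℕ) (y : V) : Prop :=
  ∃ j u, j + L ≤ M ∧ it c j y = some u ∧ Good u ∧ Intact b c L u

private theorem RunW.mono {b c : V → Option V} {Good : V → Prop} {L M M' : ℕ} {y : V}
    (h : RunW b Good L c M y) (hM : M ≤ M') : RunW b Good L c M' y := by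
  obtain ⟨j, u, h1, h2⟩ := h
  exact ⟨j, u, h1.trans hM, h2⟩

private theorem RunW.shift {b c : V → Option V} {Good : V → Prop} {L M i : ℕ} {y z : V}
    (hz : it c i y = some z) (h : RunW b Good L c M z) : RunW b Good L c (i + M) y := by
  obtain ⟨j, u, h1, h2, h3, h4⟩ := h
  exact ⟨i + j, u, by omega, by rw [it_add_some c j hz, h2], h3, h4⟩

/-- first index with a property, or none -/
private theorem first_idx (P : ℕ → Prop) (n : ℕ) :
    (∀ i < n, ¬ P i) ∨ ∃ i < n, P i ∧ ∀ j < i, ¬ P j := by
  classical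
  by_cases h : ∃ i, i < n ∧ P i
  · right
    have h' : ∃ i, P i := ⟨_, h.choose_spec.2⟩
    refine ⟨Nat.find h', lt_of_le_of_lt (Nat.find_min' h' h.choose_spec.2) h.choose_spec.1, Nat.find_spec h', ?_⟩
    intro j hj
    exact Nat.find_min h' hj
  · left
    intro i hi hP
    exact h ⟨i, hi, hP⟩

end SurgeryAux

namespace Trails

variable {V : Type*} {c : V → Option V} {TT : Type*} {N : ℕ}

private theorem w_ne_e (S : Trails c TT N) (T : TT) (a : Fin N) (T' : TT) : S.w T a ≠ S.e T' := by
  intro h
  have h1 := S.hv T a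
  rw [h, S.he T'] at h1
  exact absurd h1 (by simp)

private theorem vinj (S : Trails c TT N) (hc : PInj c) {T T' : TT} {k k' : Fin (N + 1)}
    (h : S.v T k = S.v T' k') : T = T' ∧ k = k' := by
  refine Fin.cases (motive := fun k => S.v T k = S.v T' k' → T = T' ∧ k = k') ?_ ?_ k h
  · intro h
    refine Fin.cases (motive := fun k' => S.v T 0 = S.v T' k' → T = T' ∧ (0 : Fin (N + 1)) = k') ?_ ?_ k' h
    · intro h
      rw [S.hv0, S.hv0] at h
      exact ⟨S.xinj h, rfl⟩
    · intro a h
      rw [S.hv0] at h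
      exact absurd (by rw [S.hv T' a, h]) (S.hx T (S.w T' a))
  · intro a h
    refine Fin.cases (motive := fun k' => S.v T a.succ = S.v T' k' → T = T' ∧ a.succ = k') ?_ ?_ k' h
    · intro h
      rw [S.hv0] at h
      exact absurd (by rw [S.hv T a, h]) (S.hx T' (S.w T a))
    · intro a' h
      have h1 : S.w T a = S.w T' a' := hc _ _ (S.v T a.succ) (S.hv T a) (by rw [S.hv T' a', h])
      have h2 := S.winj (a₁ := (T, a)) (a₂ := (T', a')) h1
      simp only [Prod.mk.injEq] at h2
      exact ⟨h2.1, by rw [h2.2]⟩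

theorem exists_new (S : Trails c TT N) : ∃ c', S.IsNew c' := by
  classical
  refine ⟨fun y => if h : ∃ q : TT × Fin N, S.w q.1 q.2 = y then some (S.v h.choose.1 h.choose.2.castSucc)
    else if h : ∃ T, S.e T = y then some (S.v h.choose (Fin.last N)) else c y, ?_, ?_, ?_⟩
  · intro T a
    have h : ∃ q : TT × Fin N, S.w q.1 q.2 = S.w T a := ⟨(T, a), rfl⟩
    have h2 : h.choose = (T, a) := S.winj h.choose_spec
    rw [dif_pos h, h2]
  · intro T
    have h : ¬ ∃ q : TT × Fin N, S.w q.1 q.2 = S.e T := by
      rintro ⟨q, hq⟩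
      exact S.w_ne_e _ _ _ hq
    have h' : ∃ T', S.e T' = S.e T := ⟨T, rfl⟩
    have h2 : h'.choose = T := S.einj h'.choose_spec
    rw [dif_neg h, dif_pos h', h2]
  · intro y h1 h2
    have h : ¬ ∃ q : TT × Fin N, S.w q.1 q.2 = y := by
      rintro ⟨q, hq⟩
      exact h1 _ _ hq.symm
    have h' : ¬ ∃ T', S.e T' = y := by
      rintro ⟨T, hT⟩
      exact h2 T hT.symm
    rw [dif_neg h, dif_neg h']

private theorem cases3 (S : Trails c TT N) (y : V) :
    (∃ T a, y = S.w T a) ∨ (∃ T, y = S.e T) ∨ ((∀ T a, y ≠ S.w T a) ∧ (∀ T, y ≠ S.e T)) := by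
  by_cases h1 : ∃ T a, y = S.w T a
  · exact Or.inl h1
  · by_cases h2 : ∃ T, y = S.e T
    · exact Or.inr (Or.inl h2)
    · refine Or.inr (Or.inr ⟨?_, ?_⟩)
      · intro T a h
        exact h1 ⟨T, a, h⟩
      · intro T h
        exact h2 ⟨T, h⟩

/-- an unmodified vertex is not mapped to a vertex `v T k` -/
private theorem other_ne_v (S : Trails c TT N) (hc : PInj c) {y : V} (h1 : ∀ T a, y ≠ S.w T a) (T : TT)
    (k : Fin (N + 1)) : c y ≠ some (S.v T k) := by
  refine Fin.cases (motive := fun k => c y ≠ some (S.v T k)) ?_ ?_ k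
  · rw [S.hv0]
    exact S.hx T y
  · intro a h
    exact h1 T a (hc _ _ _ h (S.hv T a))

theorem new_pinj (S : Trails c TT N) (hc : PInj c) {c' : V → Option V} (h : S.IsNew c') : PInj c' := by
  intro y z u hy hz
  rcases S.cases3 y with ⟨T, a, rfl⟩ | ⟨T, rfl⟩ | ⟨h1, h2⟩
  · rw [h.cut] at hy
    rcases S.cases3 z with ⟨T', a', rfl⟩ | ⟨T', rfl⟩ | ⟨h1', h2'⟩
    · rw [h.cut] at hz
      have h3 := S.vinj hc (Option.some.inj (hy.trans hz.symm))
      rw [h3.1, Fin.castSucc_injective _ h3.2]
    · rw [h.fin] at hz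
      have h3 := S.vinj hc (Option.some.inj (hy.trans hz.symm))
      exact absurd h3.2 (Fin.castSucc_lt_last a).ne
    · rw [h.other z h1' h2', ← hy] at hz
      exact absurd hz (S.other_ne_v hc h1' _ _)
  · rw [h.fin] at hy
    rcases S.cases3 z with ⟨T', a', rfl⟩ | ⟨T', rfl⟩ | ⟨h1', h2'⟩
    · rw [h.cut] at hz
      have h3 := S.vinj hc (Option.some.inj (hz.trans hy.symm))
      exact absurd h3.2 (Fin.castSucc_lt_last a').ne
    · rw [h.fin] at hz
      have h3 := S.vinj hc (Option.some.inj (hy.trans hz.symm))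
      rw [h3.1]
    · rw [h.other z h1' h2', ← hy] at hz
      exact absurd hz (S.other_ne_v hc h1' _ _)
  · rw [h.other y h1 h2] at hy
    rcases S.cases3 z with ⟨T', a', rfl⟩ | ⟨T', rfl⟩ | ⟨h1', h2'⟩
    · rw [h.cut] at hz
      rw [← hz] at hy
      exact absurd hy (S.other_ne_v hc h1 _ _)
    · rw [h.fin] at hz
      rw [← hz] at hy
      exact absurd hy (S.other_ne_v hc h1 _ _)
    · rw [h.other z h1' h2'] at hz
      exact hc _ _ _ hy hz

theorem new_none (S : Trails c TT N) {c' : V → Option V} (h : S.IsNew c') (y : V) :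
    c' y = none ↔ c y = none ∧ ∀ T, y ≠ S.e T := by
  rcases S.cases3 y with ⟨T, a, rfl⟩ | ⟨T, rfl⟩ | ⟨h1, h2⟩
  · rw [h.cut, S.hv]
    simp
  · rw [h.fin]
    constructor
    · intro h3
      exact absurd h3 (by simp)
    · rintro ⟨_, h3⟩
      exact absurd rfl (h3 T)
  · rw [h.other y h1 h2]
    exact ⟨fun h3 => ⟨h3, h2⟩, fun h3 => h3.1⟩

private theorem v_pre (S : Trails c TT N) {c' : V → Option V} (h : S.IsNew c') (T : TT) (k : Fin (N + 1)) :
    ∃ y, c' y = some (S.v T k) := by
  refine Fin.lastCases (motive := fun k => ∃ y, c' y = some (S.v T k)) ?_ ?_ k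
  · exact ⟨_, h.fin T⟩
  · intro a
    exact ⟨_, h.cut T a⟩

theorem new_start (S : Trails c TT N) (hc : PInj c) {c' : V → Option V} (h : S.IsNew c') (u : V) :
    (∀ y, c' y ≠ some u) ↔ (∀ y, c y ≠ some u) ∧ ∀ T, u ≠ S.x T := by
  constructor
  · intro h0
    refine ⟨?_, ?_⟩
    · intro y hy
      rcases S.cases3 y with ⟨T, a, rfl⟩ | ⟨T, rfl⟩ | ⟨h1, h2⟩
      · rw [S.hv] at hy
        obtain ⟨z, hz⟩ := S.v_pre h T a.succ
        exact h0 z (hz.trans hy)
      · rw [S.he] at hy
        exact absurd hy (by simp)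
      · exact h0 y (by rw [h.other y h1 h2, hy])
    · intro T hT
      obtain ⟨z, hz⟩ := S.v_pre h T 0
      exact h0 z (by rw [hz, S.hv0, hT])
  · rintro ⟨h1, h2⟩ y hy
    have key : ∀ T k, u ≠ S.v T k := by
      intro T k
      refine Fin.cases (motive := fun k => u ≠ S.v T k) ?_ ?_ k
      · rw [S.hv0]
        exact h2 T
      · intro a ha
        exact h1 _ (by rw [S.hv T a, ha])
    rcases S.cases3 y with ⟨T, a, rfl⟩ | ⟨T, rfl⟩ | ⟨h1', h2'⟩
    · rw [h.cut] at hy
      exact key _ _ (Option.some.inj hy).symm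
    · rw [h.fin] at hy
      exact key _ _ (Option.some.inj hy).symm
    · rw [h.other y h1' h2'] at hy
      exact h1 y hy

/-- modified vertex -/
private def Mk (S : Trails c TT N) (y : V) : Prop := (∃ T a, y = S.w T a) ∨ (∃ T, y = S.e T)

private theorem unmod (S : Trails c TT N) {c' : V → Option V} (h : S.IsNew c') {y : V} (hy : ¬ S.Mk y) :
    c' y = c y := by
  refine h.other y ?_ ?_
  · intro T a h1
    exact hy (Or.inl ⟨T, a, h1⟩)
  · intro T h1
    exact hy (Or.inr ⟨T, h1⟩)

/-- the first modified vertex among the first `n` vertices -/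
private theorem first_mk (S : Trails c TT N) {c' : V → Option V} (h : S.IsNew c') (y : V) (n : ℕ) :
    (∀ i < n, ∀ z, it c' i y = some z → c' z = c z) ∨
    ∃ i < n, ∃ z, it c' i y = some z ∧ it c i y = some z ∧ S.Mk z ∧ 
      ∀ j < i, ∀ z, it c' j y = some z → c' z = c z := by
  rcases first_idx (fun i => ∃ z, it c' i y = some z ∧ S.Mk z) n with h1 | ⟨i, hi, ⟨z, hz, hm⟩, hj⟩
  · left
    intro i hi z hz
    refine S.unmod h ?_
    intro hm
    exact h1 i hi ⟨z, hz, hm⟩
  · right
    have hun : ∀ j < i, ∀ z, it c' j y = some z → c' z = c z := by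
      intro j hj' z' hz'
      refine S.unmod h ?_
      intro hm'
      exact hj j hj' ⟨z', hz', hm'⟩
    exact ⟨i, hi, z, hz, by rw [it_eq_of_unmod i hun i le_rfl, hz], hm, hun⟩

section Stretch

variable (S : Trails c TT N) {c' : V → Option V} (h : S.IsNew c')
    (b : V → Option V) (Good : V → Prop) (L : ℕ)

include h in
private theorem seg_any (hL : 2 ≤ L) (Bd : ℕ) (hBd : L ≤ Bd) (hst : Stretch b Good L c Bd) (y : V)
    (hy : it c' (Bd - 1) y ≠ none) :
    RunW b Good L c' Bd y ∨ ∃ i, i + 1 < Bd ∧ ∃ z, it c' i y = some z ∧ it c i y = some z ∧ S.Mk z ∧ 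
      ∀ j < i, ∀ z, it c' j y = some z → c' z = c z := by
  rcases S.first_mk h y (Bd - 1) with h1 | ⟨i, hi, h2⟩
  · left
    have he := it_eq_of_unmod (Bd - 1) h1
    obtain ⟨j, u, hj, hu, hg, hI⟩ := hst y (by rw [he (Bd - 1) le_rfl]; exact hy)
    have hu' : it c' j y = some u := by rw [← he j (by omega), hu]
    refine ⟨j, u, hj, hu', hg, ?_⟩
    refine intact_of_unmod hI ?_
    intro k hk z hz
    have h3 : it c (j + k) y = some z := by rw [it_add_some c k hu, hz]
    rw [he (j + k) (by omega)] at h3
    exact h1 (j + k) (by omega) z h3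
  · right
    exact ⟨i, by omega, h2⟩

include h in
private theorem seg_succ (hL : 2 ≤ L)
    (hfwd : ∀ T (a : Fin N), Good (S.v T a.succ) ∧ Intact b c L (S.v T a.succ))
    (astar : Fin N)
    (hlev : ∀ T (a : Fin N) T' (a' : Fin N) r, 1 ≤ r → r ≤ L → it c r (S.w T a) = some (S.w T' a') → a = a' ∧ a ≠ astar)
    (T : TT) (a : Fin N) :
    RunW b Good L c' L (S.v T a.succ) ∨ (a ≠ astar ∧ ∃ i, i + 1 < L ∧ ∃ T', it c' (i + 1) (S.v T a.succ) = some (S.v T' a.castSucc)) := by
  rcases S.first_mk h (S.v T a.succ) (L - 1) with h1 | ⟨i, hi, z, hz', hz, hm, hun⟩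
  · left
    have he := it_eq_of_unmod (L - 1) h1
    refine ⟨0, S.v T a.succ, by omega, rfl, (hfwd T a).1, ?_⟩
    refine intact_of_unmod (hfwd T a).2 ?_
    intro k hk z hz
    rw [he k (by omega)] at hz
    exact h1 k (by omega) z hz
  · right
    have hw : it c (1 + i) (S.w T a) = some z := by
      rw [it_add_some c i (m := 1) (z := S.v T a.succ) (by rw [it_one]; exact S.hv T a), hz]
    obtain ⟨y, y', h1, h2, h3⟩ := (hfwd T a).2 i (by omega)
    have hyz : y = z := by
      rw [← it_intact (hfwd T a).2 i (by omega), hz] at h1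
      exact (Option.some.inj h1).symm
    subst hyz
    rcases hm with ⟨T', a', rfl⟩ | ⟨T', rfl⟩
    · obtain ⟨h4, h5⟩ := hlev T a T' a' (1 + i) (by omega) (by omega) hw
      subst h4
      refine ⟨h5, i, by omega, T', ?_⟩
      rw [it_succ, hz']
      exact h.cut T' a
    · rw [S.he] at h3
      exact absurd h3 (by simp)

include h in
private theorem seg_zero (hc : PInj c) (hL : 2 ≤ L)
    (hbwd : ∀ T (a : Fin N), ∃ u, Good u ∧ Intact b c L u ∧ it b (L - 1) u = some (S.w T a))
    (Bd : ℕ) (hBd : L ≤ Bd) (hst : Stretch b Good L c Bd) (T : TT)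
    (hy : it c' (Bd - 1) (S.v T 0) ≠ none) :
    RunW b Good L c' Bd (S.v T 0) ∨ ∃ i, i + 1 < Bd ∧ ∃ T', it c' (i + 1) (S.v T 0) = some (S.v T' (Fin.last N)) := by
  rcases S.seg_any h b Good L hL Bd hBd hst _ hy with h1 | ⟨i, hi, z, hz', hz, hm, hun⟩
  · exact Or.inl h1
  · rcases hm with ⟨T', a', rfl⟩ | ⟨T', rfl⟩
    · left
      obtain ⟨u, hg, hI, hu⟩ := hbwd T' a'
      have huc : it c (L - 1) u = some (S.w T' a') := by rw [it_intact hI (L - 1) (by omega), hu]
      rw [S.hv0] at hz
      by_cases hiL : L - 1 ≤ i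
      · obtain ⟨j, hj⟩ := Nat.exists_eq_add_of_le' hiL
        subst hj
        obtain ⟨u', hu'⟩ := it_ne_none_of_le c (m := j) (n := j + (L - 1)) (x := S.x T) (by omega) (by rw [hz]; simp)
        have h2 : it c (L - 1) u' = some (S.w T' a') := by
          rw [← it_add_some c (L - 1) hu', hz]
        have h3 : u' = u := it_inj hc _ h2 huc
        subst h3
        have he := it_eq_of_unmod (j + (L - 1)) hun
        refine ⟨j, u', by omega, ?_, hg, ?_⟩
        · rw [← he j (by omega), S.hv0, hu']
        · refine intact_of_unmod hI ?_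
          intro k hk z hz3
          have h4 : it c (j + k) (S.x T) = some z := by rw [it_add_some c k hu', hz3]
          rw [← S.hv0, he (j + k) (by omega)] at h4
          exact hun (j + k) (by omega) z h4
      · exfalso
        obtain ⟨j, hj⟩ := Nat.exists_eq_add_of_lt (not_le.mp hiL)
        have hj' : L - 1 = (j + 1) + i := by omega
        rw [hj'] at huc
        obtain ⟨u', hu'⟩ := it_ne_none_of_le c (m := j + 1) (n := (j + 1) + i) (x := u) (by omega) (by rw [huc]; simp)
        have h2 : it c i u' = some (S.w T' a') := by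
          rw [← it_add_some c i hu', huc]
        have h3 : u' = S.x T := it_inj hc _ h2 hz
        subst h3
        rw [it_succ] at hu'
        cases h4 : it c j u with
        | none => rw [h4] at hu'; simp at hu'
        | some q =>
          rw [h4] at hu'
          exact S.hx T q hu'
    · right
      refine ⟨i, hi, T', ?_⟩
      rw [it_succ, hz']
      exact h.fin T'

end Stretch

/-- **Surgery lemma**: with usable cut vertices and the level condition the stretch property survives -/
theorem stretch_new (S : Trails c TT N) (hc : PInj c) {c' : V → Option V} (h : S.IsNew c')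
    (b : V → Option V) (Good : V → Prop) (L : ℕ) (hL : 2 ≤ L)
    (hfwd : ∀ T (a : Fin N), Good (S.v T a.succ) ∧ Intact b c L (S.v T a.succ))
    (hbwd : ∀ T (a : Fin N), ∃ u, Good u ∧ Intact b c L u ∧ it b (L - 1) u = some (S.w T a))
    (astar : Fin N)
    (hlev : ∀ T (a : Fin N) T' (a' : Fin N) r, 1 ≤ r → r ≤ L → it c r (S.w T a) = some (S.w T' a') → a = a' ∧ a ≠ astar)
    (Bd : ℕ) (hBd : L ≤ Bd) (hst : Stretch b Good L c Bd) :
    Stretch b Good L c' (3 * Bd + N * L) := by
  -- states above `astar`
  have hi : ∀ d : ℕ, ∀ T (k : Fin (N + 1)), (k : ℕ) = (astar : ℕ) + 1 + d →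
      it c' ((d + 1) * L - 1) (S.v T k) ≠ none → RunW b Good L c' ((d + 1) * L) (S.v T k) := by
    intro d
    induction d with
    | zero =>
      intro T k hk hn
      have hk' : k = astar.succ := by
        apply Fin.ext
        simp [hk]
      subst hk'
      rcases S.seg_succ h b Good L hL hfwd astar hlev T astar with h1 | ⟨h1, _⟩
      · exact h1.mono (by omega)
      · exact absurd rfl h1
    | succ d ih =>
      intro T k hk hn
      have hkN : (k : ℕ) < N + 1 := k.2
      let a : Fin N := ⟨(k : ℕ) - 1, by omega⟩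
      have hk' : k = a.succ := by
        apply Fin.ext
        simp [a]
        omega
      rw [hk'] at hn ⊢
      rcases S.seg_succ h b Good L hL hfwd astar hlev T a with h1 | ⟨_, i, hi, T', hT'⟩
      · refine h1.mono ?_
        nlinarith
      · have e1 : (d + 1 + 1) * L = (d + 1) * L + L := by ring
        have h2 : it c' ((d + 1) * L - 1) (S.v T' a.castSucc) ≠ none := by
          obtain ⟨z, hz⟩ := it_ne_none_of_le c' (m := (i + 1) + ((d + 1) * L - 1)) (n := (d + 1 + 1) * L - 1) (x := S.v T a.succ)
            (by have : 1 * 1 ≤ (d + 1) * L := Nat.mul_le_mul (by omega) (by omega)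
                omega) hn
          rw [it_add_some c' _ hT'] at hz
          rw [hz]; simp
        have h3 := ih T' a.castSucc (by simp [a]; omega) h2
        exact (h3.shift hT').mono (by omega)
  -- states at most `astar`
  have lo : ∀ d : ℕ, ∀ T (k : Fin (N + 1)), (k : ℕ) = d → d ≤ (astar : ℕ) →
      it c' (d * L + Bd + (N - astar) * L - 1) (S.v T k) ≠ none →
      RunW b Good L c' (d * L + Bd + (N - astar) * L) (S.v T k) := by
    intro d
    induction d with
    | zero =>
      intro T k hk hd hn
      have hk' : k = 0 := by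
        apply Fin.ext
        simp [hk]
      subst hk'
      have hn' : it c' (Bd - 1) (S.v T 0) ≠ none := by
        obtain ⟨z, hz⟩ := it_ne_none_of_le c' (m := Bd - 1) (n := 0 * L + Bd + (N - astar) * L - 1) (x := S.v T 0)
          (by omega) hn
        rw [hz]; simp
      rcases S.seg_zero h b Good L hc hL hbwd Bd hBd hst T hn' with h1 | ⟨i, hi', T', hT'⟩
      · exact h1.mono (by omega)
      · have haN : (astar : ℕ) < N := astar.2
        have e1 : N - (astar : ℕ) = (N - astar - 1) + 1 := by omega
        have hp : 1 * 1 ≤ (N - (astar : ℕ)) * L := Nat.mul_le_mul (by omega) (by omega)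
        have h2 : it c' ((N - astar) * L - 1) (S.v T' (Fin.last N)) ≠ none := by
          obtain ⟨z, hz⟩ := it_ne_none_of_le c' (m := (i + 1) + ((N - astar) * L - 1)) (n := 0 * L + Bd + (N - astar) * L - 1) (x := S.v T 0)
            (by omega) hn
          rw [it_add_some c' _ hT'] at hz
          rw [hz]; simp
        rw [e1] at h2
        have h3 := hi (N - astar - 1) T' (Fin.last N) (by simp; omega) h2
        rw [← e1] at h3
        exact (h3.shift hT').mono (by omega)
    | succ d ih =>
      intro T k hk hd hn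
      have hkN : (k : ℕ) < N + 1 := k.2
      let a : Fin N := ⟨(k : ℕ) - 1, by omega⟩
      have hk' : k = a.succ := by
        apply Fin.ext
        simp [a]
        omega
      rw [hk'] at hn ⊢
      have e1 : (d + 1) * L = d * L + L := by ring
      rcases S.seg_succ h b Good L hL hfwd astar hlev T a with h1 | ⟨_, i, hi, T', hT'⟩
      · exact h1.mono (by omega)
      · have h2 : it c' (d * L + Bd + (N - astar) * L - 1) (S.v T' a.castSucc) ≠ none := by
          obtain ⟨z, hz⟩ := it_ne_none_of_le c' (m := (i + 1) + (d * L + Bd + (N - astar) * L - 1))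
            (n := (d + 1) * L + Bd + (N - astar) * L - 1) (x := S.v T a.succ)
            (by omega) hn
          rw [it_add_some c' _ hT'] at hz
          rw [hz]; simp
        have h3 := ih T' a.castSucc (by simp [a]; omega) (by omega) h2
        exact (h3.shift hT').mono (by omega)
  -- any state
  have anyst : ∀ T (k : Fin (N + 1)), it c' (Bd + N * L - 1) (S.v T k) ≠ none →
      RunW b Good L c' (Bd + N * L) (S.v T k) := by
    intro T k hn
    have haN : (astar : ℕ) < N := astar.2
    have hkN : (k : ℕ) < N + 1 := k.2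
    by_cases hk : (k : ℕ) ≤ astar
    · have e : (k : ℕ) * L + Bd + (N - astar) * L ≤ Bd + N * L := by
        have : ((k : ℕ) + (N - astar)) * L ≤ N * L := Nat.mul_le_mul_right _ (by omega)
        rw [add_mul] at this
        omega
      refine (lo k T k rfl hk ?_).mono e
      obtain ⟨z, hz⟩ := it_ne_none_of_le c' (m := (k : ℕ) * L + Bd + (N - astar) * L - 1) (n := Bd + N * L - 1) (x := S.v T k)
        (by omega) hn
      rw [hz]; simp
    · have e : ((k : ℕ) - astar - 1 + 1) * L ≤ Bd + N * L := by
        have : ((k : ℕ) - astar - 1 + 1) * L ≤ N * L := Nat.mul_le_mul_right _ (by omega)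
        omega
      refine (hi ((k : ℕ) - astar - 1) T k (by omega) ?_).mono e
      obtain ⟨z, hz⟩ := it_ne_none_of_le c' (m := ((k : ℕ) - astar - 1 + 1) * L - 1) (n := Bd + N * L - 1) (x := S.v T k)
        (by omega) hn
      rw [hz]; simp
  -- conclusion
  intro y hy
  have hy' : it c' (Bd - 1) y ≠ none := by
    obtain ⟨z, hz⟩ := it_ne_none_of_le c' (m := Bd - 1) (n := 3 * Bd + N * L - 1) (x := y) (by omega) hy
    rw [hz]; simp
  rcases S.seg_any h b Good L hL Bd hBd hst y hy' with h1 | ⟨i, hi', z, hz', hz, hm, hun⟩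
  · exact h1.mono (by omega)
  · have : ∃ T k, it c' (i + 1) y = some (S.v T k) := by
      rcases hm with ⟨T', a', rfl⟩ | ⟨T', rfl⟩
      · exact ⟨T', a'.castSucc, by rw [it_succ, hz']; exact h.cut T' a'⟩
      · exact ⟨T', Fin.last N, by rw [it_succ, hz']; exact h.fin T'⟩
    obtain ⟨T, k, hk⟩ := this
    have h2 : it c' (Bd + N * L - 1) (S.v T k) ≠ none := by
      obtain ⟨z, hz⟩ := it_ne_none_of_le c' (m := (i + 1) + (Bd + N * L - 1)) (n := 3 * Bd + N * L - 1) (x := y)
        (by omega) hy
      rw [it_add_some c' _ hk] at hz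
      rw [hz]; simp
    exact ((anyst T k h2).shift hk).mono (by omega)

end Trails

end Pool.Agent.LongCyc.Dense
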