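import Pool.Agent.LongCyc.Dense.SysDef
import Pool.Agent.LongCyc.Dense.Surgery
import Pool.Agent.LongCyc.Dense.Jn3
import Pool.Agent.LongCyc.Dense.Join

/-!
# Dense regime, section 5: join and surgery (package LCD-S2b)
-/

set_option autoImplicit false

namespace Pool.Agent.LongCyc.Dense

open Finset

section JSaux

variable {V : Type*}

private theorem js_it_succ (c : V → Option V) (k : ℕ) (x : V) : it c (k + 1) x = (it c k x).bind c := rfl

private theorem js_it_add (c : V → Option V) (m n : ℕ) (x : V) :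
    it c (m + n) x = (it c m x).bind (it c n) := by
  induction n with
  | zero =>
    cases it c m x <;> simp [it]
  | succ n ih =>
    rw [← add_assoc, js_it_succ, ih]
    cases h : it c m x <;> simp [it]

private theorem js_it_add_some (c : V → Option V) {m : ℕ} (n : ℕ) {x z : V} (h : it c m x = some z) :
    it c (m + n) x = it c n z := by
  rw [js_it_add, h]; rfl

private theorem js_it_some_le (c : V → Option V) {m n : ℕ} {x y : V} (hmn : m ≤ n)
    (h : it c n x = some y) : ∃ z, it c m x = some z ∧ it c (n - m) z = some y := by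
  obtain ⟨d, rfl⟩ := Nat.exists_eq_add_of_le hmn
  cases hm : it c m x with
  | none => rw [js_it_add, hm] at h; simp at h
  | some z =>
    refine ⟨z, rfl, ?_⟩
    rw [Nat.add_sub_cancel_left, ← js_it_add_some c d hm, h]

private theorem js_it_inj {c : V → Option V} (hc : PInj c) (k : ℕ) {x y v : V} (h1 : it c k x = some v)
    (h2 : it c k y = some v) : x = y := by
  induction k generalizing v with
  | zero =>
    simp only [it, Option.some.injEq] at h1 h2
    rw [h1, h2]
  | succ k ih =>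
    rw [js_it_succ] at h1 h2
    cases hx : it c k x with
    | none => rw [hx] at h1; simp at h1
    | some a =>
      cases hy : it c k y with
      | none => rw [hy] at h2; simp at h2
      | some a' =>
        rw [hx] at h1; rw [hy] at h2
        simp only [Option.bind_some] at h1 h2
        have := hc a a' v h1 h2
        subst this
        exact ih hx hy

/-- the run is at the same place for `b` and `c` -/
private theorem js_it_intact {b c : V → Option V} {L : ℕ} {u : V} (h : Intact b c L u) (k : ℕ) (hk : k < L) :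
    it c k u = it b k u := by
  induction k with
  | zero => rfl
  | succ k ih =>
    obtain ⟨y, y', h1, h2, h3⟩ := h k hk
    rw [js_it_succ, js_it_succ, ih (by omega), h1]
    simp [h2, h3]

/-- iteration of a lifted map -/
private theorem js_it_lift {W : Type*} (f : W → Option W) (g : V → Option V) (φ : W → V)
    (h : ∀ w, g (φ w) = (f w).map φ) (k : ℕ) (w : W) : it g k (φ w) = (it f k w).map φ := by
  induction k with
  | zero => rfl
  | succ k ih =>
    rw [js_it_succ, js_it_succ, ih]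
    cases it f k w with
    | none => rfl
    | some a => simp [h]

end JSaux

section JSzp

variable {μ : Type} [DecidableEq μ] {T : ℕ}

private theorem js_zp_zero (gp : μ → Fin T) (z : Cube μ) (j : Fin T → μ) : zp gp z j 0 = z := by
  funext q
  simp [zp]

private theorem js_zp_succ (gp : μ → Fin T) (z : Cube μ) (j : Fin T → μ) (hj : ∀ a, gp (j a) = a) (k : Fin T) :
    zp gp z j (k + 1) = flip (j k) (zp gp z j k) := by
  funext q
  by_cases hq : q = j k
  · subst hq
    simp [zp, hj]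
  · rw [flip_of_ne hq]
    simp only [zp]
    congr 1
    apply decide_eq_decide.2
    constructor
    · rintro ⟨h1, h2⟩
      refine ⟨?_, h2⟩
      rcases Nat.lt_succ_iff_lt_or_eq.1 h1 with h3 | h3
      · exact h3
      · exact absurd (by rw [← h2, Fin.ext h3]) hq
    · rintro ⟨h1, h2⟩
      exact ⟨by omega, h2⟩

private theorem js_zp_inj (gp : μ → Fin T) (z : Cube μ) (j : Fin T → μ) (hj : ∀ a, gp (j a) = a) {a b : ℕ}
    (ha : a ≤ T) (hb : b ≤ T) (h : zp gp z j a = zp gp z j b) : a = b := by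
  have key : ∀ a b : ℕ, a < b → b ≤ T → zp gp z j a ≠ zp gp z j b := by
    intro a b hab hb h
    have h1 := congrFun h (j ⟨a, by omega⟩)
    simp [zp, hj, hab] at h1
  rcases lt_trichotomy a b with h1 | h1 | h1
  · exact absurd h (key a b h1 hb)
  · exact h1
  · exact absurd h.symm (key b a h1 ha)

end JSzp

section S2

variable {β δ μ : Type} [DecidableEq β] [Fintype β] [DecidableEq δ] [Fintype δ] [DecidableEq μ] [Fintype μ] {nR : ℕ}

/-- a valid configuration changes the parity -/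
private theorem js_par {L Bd Vr Bd0 : ℕ} {D0 : Finset β} {Adms : Finset (CE β) → Prop} {D : Cube δ → BD β nR}
    (hD : ∀ q, (D q).Val D0 Adms L Vr Bd0) {rg : Cube β × CE δ → Bool}
    {c : Cube (β ⊕ δ) → Option (Cube (β ⊕ δ))} {U : Finset (Cube (β ⊕ δ))} (h : SysV L D rg c U Bd)
    {x x' : Cube (β ⊕ δ)} (hx : c x = some x') : par x' = !par x := by
  rcases h.edge x x' hx with ⟨h1, h2⟩ | ⟨i, h1, -⟩
  · obtain ⟨i, h3, -⟩ := (hD _).cOpen _ _ h2
    have h4 : x' = flip (Sum.inl i) x := by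
      rw [flip_inl, ← h3, ← h1, jn_self]
    rw [h4, par_flip]
  · rw [h1, par_flip]

omit [Fintype β] [Fintype δ] [Fintype μ] in
private theorem js_jrg (rg : Cube μ → Cube β × CE δ → Bool) (fr : Cube (β ⊕ δ) × CE μ → Bool)
    (p : Cube (β ⊕ δ)) (z : Cube μ) (m : μ) :
    jrg rg fr ((jn3 p z) ∘ Sum.inl, (canE (δ ⊕ μ)).e ((jn3 p z) ∘ Sum.inr) (Sum.inr m)) =
      fr (p, (canE μ).e z m) := by
  have h1 : jrg rg fr ((jn3 p z) ∘ Sum.inl, (canE (δ ⊕ μ)).e ((jn3 p z) ∘ Sum.inr) (Sum.inr m)) =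
      fr (jn ((jn3 p z) ∘ Sum.inl) ((Function.update ((jn3 p z) ∘ Sum.inr) (Sum.inr m) false) ∘ Sum.inl),
        (canE μ).e ((Function.update ((jn3 p z) ∘ Sum.inr) (Sum.inr m) false) ∘ Sum.inr) m) := rfl
  rw [h1]
  have h2 : jn ((jn3 p z) ∘ Sum.inl) ((Function.update ((jn3 p z) ∘ Sum.inr) (Sum.inr m) false) ∘ Sum.inl) = p := by
    funext i
    rcases i with i | i
    · rfl
    · show Function.update ((jn3 p z) ∘ Sum.inr) (Sum.inr m) false (Sum.inl i) = p (Sum.inr i)
      rw [Function.update_of_ne (by simp)]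
      rfl
  have h3 : (canE μ).e ((Function.update ((jn3 p z) ∘ Sum.inr) (Sum.inr m) false) ∘ Sum.inr) m =
      (canE μ).e z m := by
    apply Subtype.ext
    refine Prod.ext ?_ rfl
    funext i
    show Function.update ((Function.update ((jn3 p z) ∘ Sum.inr) (Sum.inr m) false) ∘ Sum.inr) m false i =
      Function.update z m false i
    by_cases h : i = m
    · subst h
      rw [Function.update_self, Function.update_self]
    · rw [Function.update_of_ne h, Function.update_of_ne h]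
      show Function.update ((jn3 p z) ∘ Sum.inr) (Sum.inr m) false (Sum.inr i) = z i
      rw [Function.update_of_ne (by simp [h])]
      rfl
  rw [h2, h3]

/-- the surgery on the joined configuration -/
theorem join_surgery {T t L Bd : ℕ} (hT : T = 2 * t + 1) (ht : 1 ≤ t) (hL : 2 ≤ L) (hBd : L ≤ Bd)
    (gp : μ → Fin T) (D0 : Finset β) (Adms : Finset (CE β) → Prop) (Vr Bd0 : ℕ)
    (D : Cube μ → Cube δ → BD β nR) (hD : ∀ z q, (D z q).Val D0 Adms L Vr Bd0)
    (rg : Cube μ → Cube β × CE δ → Bool) (fr : Cube (β ⊕ δ) × CE μ → Bool)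
    (c : Cube μ → Cube (β ⊕ δ) → Option (Cube (β ⊕ δ))) (U : Cube μ → Finset (Cube (β ⊕ δ)))
    (hv : ∀ z, SysV L (D z) (rg z) (c z) (U z) Bd) (ε : Bool) (TT : Finset (TI (β ⊕ δ) μ T))
    (hTT : ∀ q ∈ TT, IsTrail gp ε c U (rgo fr) q)
    (hpair : ∀ q ∈ TT, ∀ q' ∈ TT, q ≠ q' → (q.1, q.2.1) ≠ (q'.1, q'.2.1) ∧ tend gp c q ≠ tend gp c q' ∧
      ¬ BadPair gp c L (t - 1) q q') :
    ∃ (c' : Cube (β ⊕ (δ ⊕ μ)) → Option (Cube (β ⊕ (δ ⊕ μ)))) (U' : Finset (Cube (β ⊕ (δ ⊕ μ)))),
      SysV L (jD D) (jrg rg fr) c' U' (3 * Bd + (T - 1) * L) ∧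
      (∀ x, (∀ w, c' w ≠ some x) ↔
        (∀ w, c (ps3 x) w ≠ some (pr3 x)) ∧ ∀ q ∈ TT, (q.1, q.2.1) ≠ (pr3 x, ps3 x)) ∧
      (∀ x ∈ U', pr3 x ∈ U (ps3 x)) ∧
      (univ.filter fun x : Cube (β ⊕ (δ ⊕ μ)) => pr3 x ∈ U (ps3 x) ∧ x ∉ U').card ≤ (2 * L + 1) * (T - 1) * TT.card := by
  classical
  subst hT
  have hJ := join_only D rg fr c U hv
  set cJ : Cube (β ⊕ (δ ⊕ μ)) → Option (Cube (β ⊕ (δ ⊕ μ))) :=
    fun x => (c (ps3 x) (pr3 x)).map fun v => jn3 v (ps3 x) with hcJ
  set UJ : Finset (Cube (β ⊕ (δ ⊕ μ))) := univ.filter fun x => pr3 x ∈ U (ps3 x) with hUJ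
  have hmUJ : ∀ x, x ∈ UJ ↔ pr3 x ∈ U (ps3 x) := fun x => by simp [hUJ]
  have hcjn : ∀ (z : Cube μ) (u : Cube (β ⊕ δ)), cJ (jn3 u z) = (c z u).map fun v => jn3 v z := by
    intro z u
    simp only [hcJ, pr3_jn3, ps3_jn3]
  have hjinj : ∀ {u u' : Cube (β ⊕ δ)} {z z' : Cube μ}, jn3 u z = jn3 u' z' → u = u' ∧ z = z' := by
    intro u u' z z' h
    refine ⟨?_, ?_⟩
    · rw [← pr3_jn3 u z, h, pr3_jn3]
    · rw [← ps3_jn3 u z, h, ps3_jn3]
  -- positions
  set Z : TT → ℕ → Cube μ := fun q k => zp gp q.1.2.1 q.1.2.2 k with hZ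
  set P : TT → ℕ → Cube (β ⊕ δ) := fun q k => (pos gp c q.1.2.1 q.1.2.2 q.1.1 k).getD q.1.1 with hPd
  have hP : ∀ (q : TT) (k : ℕ), k < 2 * t + 1 → pos gp c q.1.2.1 q.1.2.2 q.1.1 k = some (P q k) := by
    intro q k hk
    obtain ⟨u, hu, -⟩ := (hTT q.1 q.2).rung ⟨k, hk⟩
    simp only [hPd]
    simp only at hu
    rw [hu]
    rfl
  have hZ0 : ∀ q : TT, Z q 0 = q.1.2.1 := fun q => js_zp_zero _ _ _
  have hP0 : ∀ q : TT, P q 0 = q.1.1 := fun q => rfl
  have hZs : ∀ (q : TT) (k : Fin (2 * t + 1)), Z q (k + 1) = flip (q.1.2.2 k) (Z q k) :=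
    fun q k => js_zp_succ gp _ _ (hTT q.1 q.2).dir k
  have hZi : ∀ (q : TT) {a b : ℕ}, a ≤ 2 * t + 1 → b ≤ 2 * t + 1 → Z q a = Z q b → a = b :=
    fun q a b ha hb h => js_zp_inj gp _ _ (hTT q.1 q.2).dir ha hb h
  have hPs : ∀ (q : TT) (k : ℕ), k + 1 < 2 * t + 1 → c (Z q (k + 1)) (P q k) = some (P q (k + 1)) := by
    intro q k hk
    have h1 := hP q (k + 1) hk
    have h2 : pos gp c q.1.2.1 q.1.2.2 q.1.1 (k + 1) =
      (pos gp c q.1.2.1 q.1.2.2 q.1.1 k).bind (c (zp gp q.1.2.1 q.1.2.2 (k + 1))) := rfl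
    rw [h2, hP q k (by omega)] at h1
    exact h1
  have hPU : ∀ (q : TT) (k : ℕ), k + 1 < 2 * t + 1 → P q k ∈ U (Z q (k + 1)) := by
    intro q k hk
    obtain ⟨u, h1, h2⟩ := (hTT q.1 q.2).use k hk
    rw [hP q k (by omega)] at h1
    rw [Option.some.inj h1]
    exact h2
  have hrung : ∀ (q : TT) (k : Fin (2 * t + 1)), fr (P q k, (canE μ).e (Z q k) (q.1.2.2 k)) = true := by
    intro q k
    obtain ⟨u, h1, h2⟩ := (hTT q.1 q.2).rung k
    rw [hP q k k.2] at h1
    rw [Option.some.inj h1]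
    exact h2
  have hfin : ∀ q : TT, c (Z q (2 * t + 1)) (P q (2 * t)) = none := by
    intro q
    obtain ⟨u, h1, h2⟩ := (hTT q.1 q.2).fin
    have h3 : pos gp c q.1.2.1 q.1.2.2 q.1.1 (2 * t) = some u := h1
    rw [hP q (2 * t) (by omega)] at h3
    rw [Option.some.inj h3]
    exact h2
  have hcw : ∀ (q : TT) (k : ℕ), k + 1 < 2 * t + 1 →
      cJ (jn3 (P q k) (Z q (k + 1))) = some (jn3 (P q (k + 1)) (Z q (k + 1))) := by
    intro q k hk
    rw [hcjn, hPs q k hk]
    rfl
  have hsj : ∀ x : Cube (β ⊕ (δ ⊕ μ)), jn3 (pr3 x) (ps3 x) = x := jn3_self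
  have hcy : ∀ y x : Cube (β ⊕ (δ ⊕ μ)), cJ y = some x → ps3 y = ps3 x ∧ c (ps3 x) (pr3 y) = some (pr3 x) := by
    intro y x h
    rw [← hsj y, hcjn] at h
    cases h1 : c (ps3 y) (pr3 y) with
    | none => rw [h1] at h; simp at h
    | some v =>
      rw [h1] at h
      have h2 : jn3 v (ps3 y) = x := Option.some.inj h
      have h3 : ps3 y = ps3 x := by rw [← h2, ps3_jn3]
      refine ⟨h3, ?_⟩
      rw [← h3, h1, ← h2, pr3_jn3]
  have hinjJ : PInj cJ := hJ.inj
  -- the trails
  have hx0 : ∀ (q : TT) (y : Cube (β ⊕ (δ ⊕ μ))), cJ y ≠ some (jn3 q.1.1 q.1.2.1) := by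
    intro q y hy
    obtain ⟨-, h2⟩ := hcy _ _ hy
    rw [ps3_jn3, pr3_jn3] at h2
    exact (hTT q.1 q.2).start _ h2
  have hne : ∀ q q' : TT, q ≠ q' → q.1 ≠ q'.1 := fun q q' h h' => h (Subtype.ext h')
  have hlevD : ∀ (q q' : TT) (a b r : ℕ), q ≠ q' → a + 1 < 2 * t + 1 → b + 1 < 2 * t + 1 → r ≤ L →
      Z q (a + 1) = Z q' (b + 1) → it (c (Z q (a + 1))) r (P q a) = some (P q' b) →
      r ≠ 0 ∧ a = b ∧ a ≠ t - 1 := by
    intro q q' a b r hqq ha hb hr hz hit
    have h1 := (hpair q.1 q.2 q'.1 q'.2 (hne q q' hqq)).2.2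
    by_contra hcon
    apply h1
    refine ⟨a, b, r, ha, hb, hr, hz, ⟨P q a, P q' b, hP q a (by omega), hP q' b (by omega), hit⟩, ?_⟩
    by_contra h2
    apply hcon
    refine ⟨fun h => h2 (Or.inl h), ?_, fun h => h2 (Or.inr (Or.inr h))⟩
    by_contra h3
    exact h2 (Or.inr (Or.inl h3))
  have hwinj : ∀ (q q' : TT) (a b : Fin (2 * t + 1 - 1)),
      jn3 (P q a) (Z q (a + 1)) = jn3 (P q' b) (Z q' (b + 1)) → q = q' ∧ a = b := by
    intro q q' a b h
    have ha := a.2
    have hb := b.2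
    obtain ⟨h1, h2⟩ := hjinj h
    by_cases hqq : q = q'
    · subst hqq
      refine ⟨rfl, ?_⟩
      have := hZi q (by omega) (by omega) h2
      exact Fin.ext (by omega)
    · exact absurd rfl (hlevD q q' a b 0 hqq (by omega) (by omega) (by omega) h2 (by rw [h1]; rfl)).1
  let S : Trails cJ TT (2 * t + 1 - 1) :=
    { x := fun q => jn3 q.1.1 q.1.2.1
      w := fun q a => jn3 (P q a) (Z q (a + 1))
      e := fun q => jn3 (P q (2 * t)) (Z q (2 * t + 1))
      v := fun q k => jn3 (P q k) (Z q k)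
      hv0 := fun q => by
        show jn3 (P q 0) (Z q 0) = _
        rw [hZ0, hP0]
      hv := fun q a => by
        have ha := a.2
        exact hcw q a (by omega)
      hx := hx0
      he := fun q => by
        rw [hcjn, hfin q]
        rfl
      winj := by
        rintro ⟨q, a⟩ ⟨q', b⟩ h
        obtain ⟨h1, h2⟩ := hwinj q q' a b h
        rw [h1, h2]
      xinj := by
        intro q q' h
        by_contra hqq
        obtain ⟨h1, h2⟩ := hjinj h
        exact (hpair q.1 q.2 q'.1 q'.2 (hne q q' hqq)).1 (by rw [h1, h2])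
      einj := by
        intro q q' h
        by_contra hqq
        obtain ⟨h1, h2⟩ := hjinj h
        apply (hpair q.1 q.2 q'.1 q'.2 (hne q q' hqq)).2.1
        have h3 := hP q (2 * t) (by omega)
        have h4 := hP q' (2 * t) (by omega)
        show (pos gp c q.1.2.1 q.1.2.2 q.1.1 (2 * t), Z q (2 * t + 1)) =
          (pos gp c q'.1.2.1 q'.1.2.2 q'.1.1 (2 * t), Z q' (2 * t + 1))
        rw [h3, h4, h1, h2] }
  obtain ⟨c', hc'⟩ := S.exists_new
  have hwcut : ∀ (q : TT) (a : ℕ), a + 1 < 2 * t + 1 →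
      c' (jn3 (P q a) (Z q (a + 1))) = some (jn3 (P q a) (Z q a)) := by
    intro q a ha
    exact hc'.cut q (⟨a, by omega⟩ : Fin (2 * t + 1 - 1))
  have hefin : ∀ q : TT, c' (jn3 (P q (2 * t)) (Z q (2 * t + 1))) = some (jn3 (P q (2 * t)) (Z q (2 * t))) := by
    intro q
    have := hc'.fin q
    simpa [S] using this
  -- all new edges
  have hnew : ∀ x x' : Cube (β ⊕ (δ ⊕ μ)), c' x = some x' → cJ x = some x' ∨
      ∃ (q : TT) (k : Fin (2 * t + 1)), x = jn3 (P q k) (Z q (k + 1)) ∧ x' = jn3 (P q k) (Z q k) := by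
    intro x x' hx
    by_cases h1 : ∃ (q : TT) (k : Fin (2 * t + 1)), x = jn3 (P q k) (Z q (k + 1))
    · obtain ⟨q, k, rfl⟩ := h1
      right
      refine ⟨q, k, rfl, ?_⟩
      by_cases hk : (k : ℕ) + 1 < 2 * t + 1
      · rw [hwcut q k hk] at hx
        exact (Option.some.inj hx).symm
      · have hk' : (k : ℕ) = 2 * t := by have := k.2; omega
        rw [hk', hefin q] at hx
        rw [hk']
        exact (Option.some.inj hx).symm
    · left
      rw [← hc'.other x ?_ ?_, hx]
      · intro q a h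
        have ha := a.2
        exact h1 ⟨q, ⟨a, by omega⟩, h⟩
      · intro q h
        exact h1 ⟨q, ⟨2 * t, by omega⟩, h⟩
  -- parities
  have hparc : ∀ (z : Cube μ) (x x' : Cube (β ⊕ δ)), c z x = some x' → par x' = !par x :=
    fun z x x' h => js_par (hD z) (hv z) h
  have hparS : ∀ (q : TT) (k : ℕ), k < 2 * t + 1 → par2 (P q k) (Z q k) = ε := by
    intro q k
    induction k with
    | zero =>
      intro _
      rw [hP0, hZ0]
      exact (hTT q.1 q.2).par
    | succ k ih =>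
      intro hk
      rw [← ih (by omega)]
      have h1 := hparc _ _ _ (hPs q k hk)
      have h2 := hZs q ⟨k, by omega⟩
      simp only at h2
      unfold par2
      rw [h1, h2, par_flip]
      cases par (P q k) <;> cases par (Z q k) <;> rfl
  have hparV : ∀ (q : TT) (k : ℕ), k < 2 * t + 1 → par (jn3 (P q k) (Z q k)) = ε := by
    intro q k hk
    rw [par_jn3, hparS q k hk]
  have hparW : ∀ (q : TT) (k : ℕ), k < 2 * t + 1 → par (jn3 (P q k) (Z q (k + 1))) = !ε := by
    intro q k hk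
    have h2 := hZs q ⟨k, hk⟩
    simp only at h2
    rw [par_jn3, ← hparS q k hk, h2]
    unfold par2
    rw [par_flip]
    cases par (P q k) <;> cases par (Z q k) <;> rfl
  -- iteration of `cJ`
  have hitc : ∀ (r : ℕ) (u : Cube (β ⊕ δ)) (z : Cube μ), it cJ r (jn3 u z) = (it (c z) r u).map fun v => jn3 v z :=
    fun r u z => js_it_lift (c z) cJ (fun v => jn3 v z) (fun w => hcjn z w) r u
  have hitb : ∀ (r : ℕ) (y : Cube β) (z : Cube (δ ⊕ μ)), it (liftP fun q => (jD D q).b) r (jn y z) =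
      (it (jD D z).b r y).map fun v => jn v z :=
    fun r y z => js_it_lift (jD D z).b (liftP fun q => (jD D q).b) (fun v => jn v z) (fun w => rfl) r y
  set b : Cube (β ⊕ (δ ⊕ μ)) → Option (Cube (β ⊕ (δ ⊕ μ))) := liftP fun q => (jD D q).b with hb
  have hwU : ∀ (q : TT) (a : ℕ), a + 1 < 2 * t + 1 → jn3 (P q a) (Z q (a + 1)) ∈ UJ := by
    intro q a ha
    rw [hmUJ, pr3_jn3, ps3_jn3]
    exact hPU q a ha
  -- no short cycles through usable vertices
  have hncyc : ∀ x ∈ UJ, ∀ r, 1 ≤ r → r ≤ L → it cJ r x ≠ some x := by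
    intro x hx r hr1 hr hit
    obtain ⟨u, h1, h2, h3, h4⟩ := hJ.usef x hx
    obtain ⟨r, rfl⟩ := Nat.exists_eq_add_of_le' hr1
    have h5 : it cJ r u = some x := by
      rw [← js_it_add_some cJ (m := 1) r (x := x) (by simpa [it] using h2), add_comm]
      exact hit
    rw [js_it_intact h4 r (by omega)] at h5
    have h6 : it b (r + 1) u = some u := by
      rw [js_it_succ, h5]
      exact h1
    rw [← jn_self u, hitb] at h6
    cases h7 : it (jD D (u ∘ Sum.inr)).b (r + 1) (u ∘ Sum.inl) with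
    | none => rw [h7] at h6; simp at h6
    | some v =>
      rw [h7] at h6
      have h8 := (jn_inj (Option.some.inj h6)).1
      exact (hD _ _).gopen (u ∘ Sum.inl) h3 (r + 1) hr1 hr (h7.trans (by rw [h8]))
  have hlev : ∀ (q : TT) (a : Fin (2 * t + 1 - 1)) (q' : TT) (a' : Fin (2 * t + 1 - 1)) (r : ℕ), 1 ≤ r → r ≤ L →
      it cJ r (S.w q a) = some (S.w q' a') → a = a' ∧ a ≠ (⟨t - 1, by omega⟩ : Fin (2 * t + 1 - 1)) := by
    intro q a q' a' r hr1 hr hit
    have ha := a.2
    have ha' := a'.2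
    have hit' : it cJ r (jn3 (P q a) (Z q (a + 1))) = some (jn3 (P q' a') (Z q' (a' + 1))) := hit
    have hit2 := hit'
    rw [hitc] at hit'
    cases h1 : it (c (Z q (a + 1))) r (P q a) with
    | none => rw [h1] at hit'; simp at hit'
    | some u =>
      rw [h1] at hit'
      obtain ⟨h2, h3⟩ := hjinj (Option.some.inj hit')
      by_cases hqq : q = q'
      · subst hqq
        have h4 := hZi q (by omega) (by omega) h3
        have h5 : a = a' := Fin.ext (by omega)
        subst h5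
        exact absurd hit2 (hncyc _ (hwU q a (by omega)) r hr1 hr)
      · rw [h2] at h1
        obtain ⟨-, h5, h6⟩ := hlevD q q' a a' r hqq (by omega) (by omega) hr h3 h1
        refine ⟨Fin.ext h5, fun h7 => h6 ?_⟩
        rw [h7]
  have hstr := S.stretch_new hinjJ hc' b (lGd (jD D)) L hL (fun q a => by
      have ha := a.2
      obtain ⟨u, h1, h2, h3, h4⟩ := hJ.usef _ (hwU q a (by omega))
      have h5 : u = S.v q a.succ := Option.some.inj (h2.symm.trans (S.hv q a))
      rw [← h5]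
      exact ⟨h3, h4⟩) (fun q a => by
      have ha := a.2
      obtain ⟨u, h1, h2, h3⟩ := hJ.useB _ (hwU q a (by omega))
      exact ⟨u, h1, h3, h2⟩) (⟨t - 1, by omega⟩ : Fin (2 * t + 1 - 1)) hlev Bd hBd hJ.str
  -- a modified vertex is a cut vertex or an end of `cJ`
  have hoth : ∀ x : Cube (β ⊕ (δ ⊕ μ)), (∀ (q : TT) (a : Fin (2 * t + 1 - 1)), x ≠ S.w q a) → cJ x ≠ none →
      c' x = cJ x := by
    intro x h1 h2
    refine hc'.other x h1 ?_
    rintro q rfl
    exact h2 (S.he q)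
  -- the usable vertices
  set X : Finset (Cube (β ⊕ (δ ⊕ μ))) := univ.filter fun x => ∃ (q : TT) (a : Fin (2 * t + 1 - 1)),
    ∃ r ≤ L, it cJ r (S.w q a) = some x ∨ it cJ r x = some (S.w q a) with hX
  have hmX : ∀ x, x ∉ X → ∀ (q : TT) (a : Fin (2 * t + 1 - 1)) (r : ℕ), r ≤ L →
      it cJ r (S.w q a) ≠ some x ∧ it cJ r x ≠ some (S.w q a) := by
    intro x hx q a r hr
    refine ⟨fun h => hx ?_, fun h => hx ?_⟩
    · exact mem_filter.2 ⟨mem_univ _, q, a, r, hr, Or.inl h⟩
    · exact mem_filter.2 ⟨mem_univ _, q, a, r, hr, Or.inr h⟩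
  refine ⟨c', UJ \ X, ⟨S.new_pinj hinjJ hc', ?_, ?_, ?_, ?_, ?_, ?_, hstr⟩, ?_, ?_, ?_⟩
  · -- no 2-cycles
    intro x x' h1 h2
    rcases hnew x x' h1 with h3 | ⟨q, k, rfl, rfl⟩
    · rcases hnew x' x h2 with h4 | ⟨q, k, rfl, rfl⟩
      · exact hJ.no2 x x' h3 h4
      · have h5 := (hcy _ _ h3).1
        rw [ps3_jn3, ps3_jn3] at h5
        have := hZi q (by have := k.2; omega) (by have := k.2; omega) h5
        omega
    · rcases hnew _ _ h2 with h4 | ⟨q', k', h5, h6⟩
      · have h5 := (hcy _ _ h4).1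
        rw [ps3_jn3, ps3_jn3] at h5
        have := hZi q (by have := k.2; omega) (by have := k.2; omega) h5
        omega
      · have h7 := hparV q k k.2
        have h8 := hparW q' k' k'.2
        rw [← h5, h7] at h8
        cases ε <;> simp at h8
  · -- edges
    intro x x' h1
    rcases hnew x x' h1 with h3 | ⟨q, k, rfl, rfl⟩
    · exact hJ.edge x x' h3
    · right
      refine ⟨Sum.inr (q.1.2.2 k), ?_, ?_⟩
      · rw [flip_jn3, hZs q k, flip_flip]
      · have h2 : jrg rg fr ((jn3 (P q k) (Z q (k + 1))) ∘ Sum.inl,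
            (canE (δ ⊕ μ)).e ((jn3 (P q k) (Z q (k + 1))) ∘ Sum.inr) (Sum.inr (q.1.2.2 k))) =
            fr (P q k, (canE μ).e (Z q (k + 1)) (q.1.2.2 k)) := js_jrg rg fr _ _ _
        rw [h2, hZs q k, (canE μ).symm]
        exact hrung q k
  · -- the edges outside the usable vertices are kept
    intro z y y' h1 h2
    have h3 := hJ.keep z y y' h1 h2
    rw [hoth _ ?_ (by rw [h3]; simp), h3]
    intro q a h
    have ha := a.2
    apply h2
    have h4 := hJ.useb _ (hwU q a (by omega))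
    have h5 : jn y z = jn3 (P q a) (Z q (a + 1)) := h
    rw [← h5] at h4
    exact h4
  · -- base usable
    intro x hx
    exact hJ.useb x (mem_sdiff.1 hx).1
  · -- forward runs
    intro x hx
    obtain ⟨hx1, hx2⟩ := mem_sdiff.1 hx
    obtain ⟨u, h1, h2, h3, h4⟩ := hJ.usef x hx1
    refine ⟨u, h1, ?_, h3, ?_⟩
    · rw [hoth x (fun q a h => (hmX x hx2 q a 0 (by omega)).2 (by rw [h]; rfl)) (by rw [h2]; simp), h2]
    · intro k hk
      obtain ⟨y, y', h5, h6, h7⟩ := h4 k hk
      refine ⟨y, y', h5, h6, ?_⟩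
      rw [hoth y ?_ (by rw [h7]; simp), h7]
      intro q a h
      apply (hmX x hx2 q a (1 + k) (by omega)).2
      rw [js_it_add_some cJ (m := 1) k (x := x) (z := u) (by simpa [it] using h2), js_it_intact h4 k (by omega),
        h5, h]
  · -- backward runs
    intro x hx
    obtain ⟨hx1, hx2⟩ := mem_sdiff.1 hx
    obtain ⟨u, h1, h2, h3⟩ := hJ.useB x hx1
    refine ⟨u, h1, h2, ?_⟩
    intro k hk
    obtain ⟨y, y', h5, h6, h7⟩ := h3 k hk
    refine ⟨y, y', h5, h6, ?_⟩
    rw [hoth y ?_ (by rw [h7]; simp), h7]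
    intro q a h
    apply (hmX x hx2 q a (L - 1 - k) (by omega)).1
    have h8 : it cJ (L - 1) u = some x := by rw [js_it_intact h3 (L - 1) (by omega)]; exact h2
    have h9 : it cJ k u = some y := by rw [js_it_intact h3 k (by omega)]; exact h5
    obtain ⟨z, h10, h11⟩ := js_it_some_le cJ (m := k) (by omega) h8
    rw [h9] at h10
    rw [← h, Option.some.inj h10]
    exact h11
  · -- starts
    intro x
    rw [S.new_start hinjJ hc' x]
    constructor
    · rintro ⟨h1, h2⟩
      refine ⟨fun w hw => ?_, fun q hq h => ?_⟩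
      · apply h1 (jn3 w (ps3 x))
        rw [hcjn, hw, Option.map_some, hsj]
      · apply h2 ⟨q, hq⟩
        show x = jn3 q.1 q.2.1
        rw [Prod.mk.injEq] at h
        rw [h.1, h.2, hsj]
    · rintro ⟨h1, h2⟩
      refine ⟨fun y hy => h1 _ (hcy y x hy).2, fun q h => ?_⟩
      have h' : x = jn3 q.1.1 q.1.2.1 := h
      apply h2 q.1 q.2
      rw [h', pr3_jn3, ps3_jn3]
  · intro x hx
    exact (hmUJ x).1 (mem_sdiff.1 hx).1
  · -- the loss
    let Φ : TT × Fin (2 * t + 1 - 1) × Fin (2 * L + 1) → Option (Cube (β ⊕ (δ ⊕ μ))) := fun i =>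
      if (i.2.2 : ℕ) ≤ L then it cJ i.2.2 (S.w i.1 i.2.1)
      else if h : ∃ x, it cJ (i.2.2 - L) x = some (S.w i.1 i.2.1) then some h.choose else none
    have hsub : (univ.filter fun x : Cube (β ⊕ (δ ⊕ μ)) => pr3 x ∈ U (ps3 x) ∧ x ∉ UJ \ X).image some ⊆
        univ.image Φ := by
      intro o ho
      obtain ⟨x, hx, rfl⟩ := mem_image.1 ho
      obtain ⟨-, hx1, hx2⟩ := mem_filter.1 hx
      have hxX : x ∈ X := by
        by_contra h
        exact hx2 (mem_sdiff.2 ⟨(hmUJ x).2 hx1, h⟩)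
      obtain ⟨-, q, a, r, hr, h⟩ := mem_filter.1 hxX
      rcases h with h | h
      · refine mem_image.2 ⟨(q, a, ⟨r, by omega⟩), mem_univ _, ?_⟩
        simp only [Φ]
        rw [if_pos hr, h]
      · by_cases hr0 : r = 0
        · subst hr0
          refine mem_image.2 ⟨(q, a, ⟨0, by omega⟩), mem_univ _, ?_⟩
          simp only [Φ]
          rw [if_pos (Nat.zero_le L)]
          have : x = S.w q a := Option.some.inj h
          rw [this]
          rfl
        · refine mem_image.2 ⟨(q, a, ⟨L + r, by omega⟩), mem_univ _, ?_⟩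
          simp only [Φ]
          have hex : ∃ x, it cJ (L + r - L) x = some (S.w q a) := ⟨x, by rw [Nat.add_sub_cancel_left]; exact h⟩
          rw [if_neg (by omega), dif_pos hex]
          have h1 := hex.choose_spec
          congr 1
          exact js_it_inj hinjJ _ h1 (by rw [Nat.add_sub_cancel_left]; exact h)
    have h1 := card_le_card hsub
    rw [card_image_of_injective _ (Option.some_injective _)] at h1
    refine h1.trans (card_image_le.trans ?_)
    rw [card_univ]
    simp only [Fintype.card_prod, Fintype.card_fin, Fintype.card_coe]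
    apply le_of_eq
    ring

end S2

end Pool.Agent.LongCyc.Dense
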