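import Pool.Agent.LongCyc.Dense.RoundB
import Pool.Agent.LongCyc.Dense.BadPairs

/-!
# Dense regime, section 4 (R9): the round lemma
-/

set_option autoImplicit false
set_option linter.unusedSectionVars false

namespace Pool.Agent.LongCyc.Dense

open Finset

/-! ### Numerical estimates -/

section num

theorem num_q {v R K D q : ℝ} (hv : 0 < v) (hv1 : v ≤ 1 / 100) (hR : 1 ≤ v ^ 90 * R)
    (hK : 16 ≤ K) (hD : D = 1 / v ^ 20) (hq : q = D / (R ^ 2 * v ^ 100 * K)) : 0 ≤ q ∧ q ≤ 1 := by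
  have hR0 : 0 < R := by
    by_contra h
    push Not at h
    have : v ^ 90 * R ≤ 0 := mul_nonpos_of_nonneg_of_nonpos (by positivity) h
    linarith
  have hK0 : 0 < K := by linarith
  have hvle : v ≤ 1 := by linarith
  have hD0 : 0 < D := by rw [hD]; positivity
  refine ⟨by rw [hq]; positivity, ?_⟩
  rw [hq, div_le_one (by positivity), hD, div_le_iff₀ (by positivity)]
  have h1 : (1 : ℝ) ≤ (v ^ 90 * R) ^ 2 := one_le_pow₀ hR
  have h2 : (v ^ 90 * R) ^ 2 ≤ v ^ 120 * R ^ 2 := by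
    calc (v ^ 90 * R) ^ 2 = v ^ 180 * R ^ 2 := by ring
      _ ≤ v ^ 120 * R ^ 2 :=
        mul_le_mul_of_nonneg_right (pow_le_pow_of_le_one hv.le hvle (by norm_num)) (by positivity)
  have h3 : 1 * 1 ≤ (v ^ 120 * R ^ 2) * K :=
    mul_le_mul (h1.trans h2) (by linarith) zero_le_one (by positivity)
  calc (1 : ℝ) = 1 * 1 := (one_mul 1).symm
    _ ≤ (v ^ 120 * R ^ 2) * K := h3
    _ = R ^ 2 * v ^ 100 * K * v ^ 20 := by ring

theorem num_bad {v R K D q Λ N L T : ℝ} (hv : 0 < v) (hv1 : v ≤ 1 / 100) (hR : 1 ≤ v ^ 90 * R)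
    (hΛ0 : 0 ≤ Λ) (hΛ : v * Λ ≤ R)
    (hK : 16 ≤ K) (hD : D = 1 / v ^ 20) (hq : q = D / (R ^ 2 * v ^ 100 * K)) (hN : 0 ≤ N)
    (hL0 : 0 ≤ L) (hL : (L + 1) * v ≤ 1) (hT0 : 0 ≤ T) (hT : T * v ≤ 1) :
    q ^ 2 * (2 * N * (4 * (L + 1) * T ^ 3) * ((v ^ 100) ^ 4 * (Λ * K * Λ) ^ 2 +
      (v ^ 100) ^ 3 * (Λ * K * Λ) ^ 2 / R + (v ^ 100) ^ 2 * (Λ * K * Λ))) ≤ N * v ^ 134 := by
  have hR0 : 0 < R := by
    by_contra h
    push Not at h
    have : v ^ 90 * R ≤ 0 := mul_nonpos_of_nonneg_of_nonpos (by positivity) h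
    linarith
  have hK0 : 0 < K := by linarith
  have hvle : v ≤ 1 := by linarith
  have hD0 : 0 < D := by rw [hD]; positivity
  have hD2 : D ^ 2 * v ^ 40 = 1 := by
    rw [hD]
    field_simp
  -- the three terms, multiplied by q ^ 2
  set x : ℝ := v * Λ / R with hx
  have hx0 : 0 ≤ x := by positivity
  have hx1 : x ≤ 1 := by rw [hx, div_le_one hR0]; exact hΛ
  set y : ℝ := 1 / R with hy
  have hy0 : 0 < y := by positivity
  have hy1 : y ≤ v ^ 90 := by
    rw [hy, div_le_iff₀ hR0]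
    exact hR
  have e1 : q ^ 2 * ((v ^ 100) ^ 4 * (Λ * K * Λ) ^ 2) * v ^ 4 = D ^ 2 * v ^ 200 * x ^ 4 := by
    rw [hq, hx]
    field_simp
  have e2 : q ^ 2 * ((v ^ 100) ^ 3 * (Λ * K * Λ) ^ 2 / R) * v ^ 4 = D ^ 2 * v ^ 100 * x ^ 4 * y := by
    rw [hq, hx, hy]
    field_simp
  have e3 : q ^ 2 * ((v ^ 100) ^ 2 * (Λ * K * Λ)) * v ^ 2 * K = D ^ 2 * x ^ 2 * y ^ 2 := by
    rw [hq, hx, hy]
    field_simp
  have hx4 : x ^ 4 ≤ 1 := pow_le_one₀ hx0 hx1
  have hx2 : x ^ 2 ≤ 1 := pow_le_one₀ hx0 hx1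
  have f1 : v ^ 44 * (q ^ 2 * ((v ^ 100) ^ 4 * (Λ * K * Λ) ^ 2)) ≤ v ^ 200 := by
    calc v ^ 44 * (q ^ 2 * ((v ^ 100) ^ 4 * (Λ * K * Λ) ^ 2))
        = v ^ 40 * (q ^ 2 * ((v ^ 100) ^ 4 * (Λ * K * Λ) ^ 2) * v ^ 4) := by ring
      _ = (D ^ 2 * v ^ 40) * (v ^ 200 * x ^ 4) := by rw [e1]; ring
      _ = v ^ 200 * x ^ 4 := by rw [hD2, one_mul]
      _ ≤ v ^ 200 := mul_le_of_le_one_right (by positivity) hx4
  have f2 : v ^ 44 * (q ^ 2 * ((v ^ 100) ^ 3 * (Λ * K * Λ) ^ 2 / R)) ≤ v ^ 190 := by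
    calc v ^ 44 * (q ^ 2 * ((v ^ 100) ^ 3 * (Λ * K * Λ) ^ 2 / R))
        = v ^ 40 * (q ^ 2 * ((v ^ 100) ^ 3 * (Λ * K * Λ) ^ 2 / R) * v ^ 4) := by ring
      _ = (D ^ 2 * v ^ 40) * (v ^ 100 * x ^ 4 * y) := by rw [e2]; ring
      _ = (v ^ 100 * x ^ 4) * y := by rw [hD2, one_mul]
      _ ≤ v ^ 100 * v ^ 90 := mul_le_mul (mul_le_of_le_one_right (by positivity) hx4) hy1 hy0.le
          (by positivity)
      _ = v ^ 190 := by ring
  have f3 : v ^ 44 * (q ^ 2 * ((v ^ 100) ^ 2 * (Λ * K * Λ))) ≤ v ^ 182 / 16 := by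
    have h1 : v ^ 44 * (q ^ 2 * ((v ^ 100) ^ 2 * (Λ * K * Λ))) * K ≤ v ^ 182 := by
      calc v ^ 44 * (q ^ 2 * ((v ^ 100) ^ 2 * (Λ * K * Λ))) * K
          = v ^ 42 * (q ^ 2 * ((v ^ 100) ^ 2 * (Λ * K * Λ)) * v ^ 2 * K) := by ring
        _ = (D ^ 2 * v ^ 40) * (v ^ 2 * (x ^ 2 * y ^ 2)) := by rw [e3]; ring
        _ = v ^ 2 * (x ^ 2 * y ^ 2) := by rw [hD2, one_mul]
        _ ≤ v ^ 2 * (1 * (v ^ 90) ^ 2) := by
            refine mul_le_mul_of_nonneg_left ?_ (by positivity)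
            exact mul_le_mul hx2 (pow_le_pow_left₀ hy0.le hy1 2) (by positivity) zero_le_one
        _ = v ^ 182 := by ring
    have h2 : 0 ≤ v ^ 44 * (q ^ 2 * ((v ^ 100) ^ 2 * (Λ * K * Λ))) := by positivity
    have h3 : v ^ 44 * (q ^ 2 * ((v ^ 100) ^ 2 * (Λ * K * Λ))) * 16 ≤
        v ^ 44 * (q ^ 2 * ((v ^ 100) ^ 2 * (Λ * K * Λ))) * K := mul_le_mul_of_nonneg_left hK h2
    linarith
  set S : ℝ := (v ^ 100) ^ 4 * (Λ * K * Λ) ^ 2 +
      (v ^ 100) ^ 3 * (Λ * K * Λ) ^ 2 / R + (v ^ 100) ^ 2 * (Λ * K * Λ) with hS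
  have f4 : v ^ 44 * (q ^ 2 * S) ≤ v ^ 182 / 8 := by
    have h1 : v ^ 200 ≤ v ^ 182 * (1 / 100) := by
      calc v ^ 200 = v ^ 182 * v ^ 18 := by ring
        _ ≤ v ^ 182 * (1 / 100) := by
          refine mul_le_mul_of_nonneg_left ?_ (by positivity)
          calc v ^ 18 ≤ v ^ 1 := pow_le_pow_of_le_one hv.le hvle (by norm_num)
            _ = v := pow_one v
            _ ≤ 1 / 100 := hv1
    have h2 : v ^ 190 ≤ v ^ 182 * (1 / 100) := by
      calc v ^ 190 = v ^ 182 * v ^ 8 := by ring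
        _ ≤ v ^ 182 * (1 / 100) := by
          refine mul_le_mul_of_nonneg_left ?_ (by positivity)
          calc v ^ 8 ≤ v ^ 1 := pow_le_pow_of_le_one hv.le hvle (by norm_num)
            _ = v := pow_one v
            _ ≤ 1 / 100 := hv1
    have h3 : v ^ 44 * (q ^ 2 * S) = v ^ 44 * (q ^ 2 * ((v ^ 100) ^ 4 * (Λ * K * Λ) ^ 2)) +
        v ^ 44 * (q ^ 2 * ((v ^ 100) ^ 3 * (Λ * K * Λ) ^ 2 / R)) +
        v ^ 44 * (q ^ 2 * ((v ^ 100) ^ 2 * (Λ * K * Λ))) := by rw [hS]; ring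
    rw [h3]
    have h4 : 0 < v ^ 182 := by positivity
    linarith
  have hqS : 0 ≤ q ^ 2 * S := by positivity
  have hT3 : (T * v) ^ 3 ≤ 1 := pow_le_one₀ (by positivity) hT
  have hLT : (L + 1) * v * (T * v) ^ 3 ≤ 1 := by
    calc (L + 1) * v * (T * v) ^ 3 ≤ 1 * 1 := mul_le_mul hL hT3 (by positivity) zero_le_one
      _ = 1 := one_mul 1
  have h5 : v ^ 48 * (q ^ 2 * (2 * N * (4 * (L + 1) * T ^ 3) * S)) ≤ v ^ 48 * (N * v ^ 134) := by
    calc v ^ 48 * (q ^ 2 * (2 * N * (4 * (L + 1) * T ^ 3) * S))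
        = 8 * N * ((L + 1) * v * (T * v) ^ 3) * (v ^ 44 * (q ^ 2 * S)) := by ring
      _ ≤ 8 * N * 1 * (v ^ 182 / 8) := by
          refine mul_le_mul ?_ f4 (by positivity) (by positivity)
          exact mul_le_mul_of_nonneg_left hLT (by positivity)
      _ = v ^ 48 * (N * v ^ 134) := by ring
  exact le_of_mul_le_mul_left h5 (by positivity)

theorem num_final {v N e : ℝ} (hv : 0 < v) (hv1 : v ≤ 1 / 100) (hN : 0 ≤ N)
    (h : N * ((1 / v ^ 20) * v ^ 100 * (1 - 2 * v ^ 200)) -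
        2 / ((v ^ 5) ^ 2 * (1 / v ^ 20)) * (N * (3 * v ^ 139 + (1 / v ^ 20) * v ^ 100) +
          N * (3 * v ^ 139 + (1 / v ^ 20) * v ^ 100)) - N * v ^ 134 ≤
      (1 + v ^ 5) * (1 / v ^ 20) * e) : N * v ^ 100 - e ≤ N * v ^ 104 := by
  have hvle : v ≤ 1 := by linarith
  have e1 : (1 / v ^ 20) * v ^ 100 = v ^ 80 := by
    field_simp
  have e2 : 2 / ((v ^ 5) ^ 2 * (1 / v ^ 20)) = 2 * v ^ 10 := by
    field_simp
  rw [e1, e2] at h
  have h2 : v ^ 20 * (N * (v ^ 80 * (1 - 2 * v ^ 200)) -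
        2 * v ^ 10 * (N * (3 * v ^ 139 + v ^ 80) + N * (3 * v ^ 139 + v ^ 80)) - N * v ^ 134) ≤
      v ^ 20 * ((1 + v ^ 5) * (1 / v ^ 20) * e) := mul_le_mul_of_nonneg_left h (by positivity)
  have e3 : v ^ 20 * ((1 + v ^ 5) * (1 / v ^ 20) * e) = (1 + v ^ 5) * e := by
    field_simp
  rw [e3] at h2
  -- (1 + v^5) e ≥ N (v^100 - 2 v^300 - 12 v^169 - 4 v^110 - v^154)
  have h3 : N * v ^ 100 - N * (2 * v ^ 300 + 12 * v ^ 169 + 4 * v ^ 110 + v ^ 154) ≤
      (1 + v ^ 5) * e := by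
    refine le_trans (le_of_eq ?_) h2
    ring
  have hp : ∀ k : ℕ, 1 ≤ k → v ^ k ≤ 1 / 100 := by
    intro k hk
    calc v ^ k ≤ v ^ 1 := pow_le_pow_of_le_one hv.le hvle hk
      _ = v := pow_one v
      _ ≤ 1 / 100 := hv1
  have h4 : 2 * v ^ 300 + 12 * v ^ 169 + 4 * v ^ 110 + v ^ 154 ≤ 5 * v ^ 110 := by
    have g1 := hp 190 (by norm_num)
    have g2 := hp 59 (by norm_num)
    have g3 := hp 44 (by norm_num)
    have g4 : 0 < v ^ 110 := by positivity
    calc 2 * v ^ 300 + 12 * v ^ 169 + 4 * v ^ 110 + v ^ 154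
        = v ^ 110 * (2 * v ^ 190 + 12 * v ^ 59 + 4 + v ^ 44) := by ring
      _ ≤ v ^ 110 * 5 := mul_le_mul_of_nonneg_left (by linarith) g4.le
      _ = 5 * v ^ 110 := by ring
  have h5 : N * v ^ 100 - N * (5 * v ^ 110) ≤ (1 + v ^ 5) * e := by
    have := mul_le_mul_of_nonneg_left h4 hN
    linarith
  -- suppose the conclusion fails
  by_contra hcon
  push Not at hcon
  have h6 : e < N * v ^ 100 - N * v ^ 104 := by linarith
  have h7 : (1 + v ^ 5) * e < (1 + v ^ 5) * (N * v ^ 100 - N * v ^ 104) :=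
    mul_lt_mul_of_pos_left h6 (by positivity)
  have h8 : (1 + v ^ 5) * (N * v ^ 100 - N * v ^ 104) ≤ N * v ^ 100 - N * (5 * v ^ 110) := by
    have g1 : v ^ 104 * (5 * v ^ 6 + v) ≤ v ^ 104 * 1 := by
      refine mul_le_mul_of_nonneg_left ?_ (by positivity)
      have := hp 6 (by norm_num)
      linarith
    have g2 : N * (v ^ 104 * (5 * v ^ 6 + v)) ≤ N * (v ^ 104 * 1) := mul_le_mul_of_nonneg_left g1 hN
    have g3 : 0 ≤ N * v ^ 109 := mul_nonneg hN (pow_nonneg hv.le 109)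
    have g4 : N * (v ^ 104 * (5 * v ^ 6 + v)) = 5 * (N * v ^ 110) + N * v ^ 105 := by ring
    have g5 : (1 + v ^ 5) * (N * v ^ 100 - N * v ^ 104) =
        N * v ^ 100 - N * v ^ 104 + N * v ^ 105 - N * v ^ 109 := by ring
    rw [g4] at g2
    rw [g5]
    linarith
  linarith

end num

section R9

variable {κ μ : Type} [DecidableEq κ] [Fintype κ] [DecidableEq μ] [Fintype μ] {T : ℕ} {X : Type} [Fintype X]
  (gp : μ → Fin T) {ν : Cube μ → FP X} {cf : X → Cube κ → Option (Cube κ)} {Uf : X → Finset (Cube κ)}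
  {act : Cube κ → X ≃ X} {ε : Bool} {α : ℝ} (p : ℝ) (h0 : 0 ≤ p) (h1 : p ≤ 1)

/-- forward trees are rarely dead -/
theorem dead_F {v : ℝ} (hv : 0 < v) (hv1 : v ≤ 1) (hα : 0 < α) (hF : FldH ν cf Uf act ε (v ^ 100) α)
    (r : Fin T → ℕ) {l : List (Fin T)} (hl : l.Nodup) (hr1 : ∀ a, 1 ≤ r a)
    (h16 : ∀ a, 16 * (r a : ℝ) ≤ α * p * gsz gp a) {a : Fin T} {l' : List (Fin T)} (hla : l = a :: l')
    (hroot : 64 * Real.log (1 / v ^ 100) ≤ α * p * gsz gp a) (y : Cube κ) (z : Cube μ)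
    (hyz : par2 y z = ε) :
    (lawR κ ν p h0 h1).pr (fun s => LF gp cf Uf r l s y z = ∅) ≤ (v ^ 100) ^ 2 := by
  subst hla
  refine LT_dead gp ν (h0 := h0) (h1 := h1) (stF cf Uf) ε hα.le ?_ ?_ r hl (hr1 a)
    (fun b _ => ⟨hr1 b, h16 b⟩) (h16 a) (by positivity) (pow_le_one₀ hv.le hv1) hroot y z hyz
  · intro y z h
    refine (hF.useF y z h).trans (FP.pr_mono _ fun x hx => ?_)
    obtain ⟨y', hy'⟩ := hF.dom x y hx
    rw [Option.ne_none_iff_exists']
    exact ⟨y', stF_eq_some_iff.2 ⟨hx, hy'⟩⟩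
  · intro x y y' h
    exact hF.flp _ _ _ (stF_eq_some_iff.1 h).2

/-- backward trees are rarely dead -/
theorem dead_B {v : ℝ} (hv : 0 < v) (hv1 : v ≤ 1) (hα : 0 < α) (hF : FldH ν cf Uf act ε (v ^ 100) α)
    (r : Fin T → ℕ) {l : List (Fin T)} (hl : l.Nodup) (hr1 : ∀ a, 1 ≤ r a)
    (h16 : ∀ a, 16 * (r a : ℝ) ≤ α * p * gsz gp a) {a : Fin T} {l' : List (Fin T)} (hla : l = a :: l')
    (hroot : 64 * Real.log (1 / v ^ 100) ≤ α * p * gsz gp a) (y : Cube κ) (z : Cube μ)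
    (hyz : par2 y z = !ε) :
    (lawR κ ν p h0 h1).pr (fun s => LB gp cf Uf r l s y z = ∅) ≤ (v ^ 100) ^ 2 := by
  subst hla
  refine LT_dead gp ν (h0 := h0) (h1 := h1) (stB cf Uf) (!ε) hα.le ?_ ?_ r hl (hr1 a)
    (fun b _ => ⟨hr1 b, h16 b⟩) (h16 a) (by positivity) (pow_le_one₀ hv.le hv1) hroot y z hyz
  · intro y z h
    rw [Bool.not_not] at h
    refine (hF.useB y z h).trans (FP.pr_mono _ fun x hx => ?_)
    obtain ⟨w, hw⟩ := hx
    rw [Option.ne_none_iff_exists']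
    exact ⟨w, (stB_eq_some_iff (hF.inj x)).2 hw⟩
  · intro x y y' h
    have := hF.flp _ _ _ ((stB_eq_some_iff (hF.inj x)).1 h).2
    rw [this, Bool.not_not]

open Classical in
/-- **ROUND LEMMA** -/
theorem round_trails {t L : ℕ} {r : Fin T → ℕ} {v : ℝ} (hP : RPar gp t L r p v α) (hα : 0 < α) (hα1 : α ≤ 1)
    (hF : FldH ν cf Uf act ε (v ^ 100) α) :
    ∃ TT : Smp X κ μ → Finset (TI κ μ T),
      (∀ s, ∀ q ∈ TT s, IsTrail gp ε (fun z => cf (s.1 z)) (fun z => Uf (s.1 z)) (rgo s.2) q) ∧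
      (∀ s, ∀ q ∈ TT s, ∀ q' ∈ TT s, q ≠ q' → (q.1, q.2.1) ≠ (q'.1, q'.2.1) ∧
        tend gp (fun z => cf (s.1 z)) q ≠ tend gp (fun z => cf (s.1 z)) q' ∧
        ¬ BadPair gp (fun z => cf (s.1 z)) L (t - 1) q q') ∧
      (lawR κ ν p h0 h1).E (fun s => ((univ.filter fun x : Cube κ × Cube μ =>
          par2 x.1 x.2 = ε ∧ isSt cf (s.1 x.2) x.1).card : ℝ) - (TT s).card) ≤
        2 ^ (Fintype.card κ + Fintype.card μ) / 2 * v ^ 104 := by
  obtain ⟨hT, ht, hv, hv1, hL, hTv, hr1, h16, hroot, symr, hR, hχ⟩ := hP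
  have hvle : v ≤ 1 := by linarith
  set m : Fin T := ⟨t, by omega⟩ with hm
  set lF := (List.finRange T).take t with hlF
  set lB := (List.finRange T).reverse.take t with hlB
  have hnd : (lF ++ m :: lB).Nodup := nodup_lists hT rfl
  have hnd2 : (lB ++ m :: lF).Nodup := by
    have hp : List.Perm (lF ++ m :: lB) (lB ++ m :: lF) :=
      List.perm_middle.trans ((List.perm_append_comm.cons m).trans List.perm_middle.symm)
    exact hp.nodup_iff.1 hnd
  have hndF : lF.Nodup := (List.nodup_append.1 hnd).1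
  have hndB : lB.Nodup := (List.nodup_append.1 hnd2).1
  -- the groups
  have hpg : ∀ a, 16 ≤ p * gsz gp a := by
    intro a
    have g1 := h16 a
    have g2 : (1 : ℝ) ≤ r a := by exact_mod_cast hr1 a
    have g3 : 0 ≤ p * gsz gp a := mul_nonneg h0 (Nat.cast_nonneg _)
    nlinarith
  have hne : Nonempty μ := by
    have g1 := hpg m
    by_contra h
    rw [not_nonempty_iff] at h
    have : gsz gp m = 0 := by
      unfold gsz
      rw [Finset.card_eq_zero, Finset.filter_eq_empty_iff]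
      intro i
      exact (h.false i).elim
    rw [this] at g1
    simp at g1
    linarith
  set R : ℝ := ∏ a ∈ univ.filter (fun a : Fin T => a.val < t), (r a : ℝ) with hRd
  set Λ : ℝ := ∏ a ∈ univ.filter (fun a : Fin T => a.val < t), (p * gsz gp a) with hΛd
  have hΛ0 : 0 ≤ Λ := Finset.prod_nonneg fun a _ => by linarith [hpg a]
  have hRF : (((lF.map r).prod : ℕ) : ℝ) = R := by
    rw [hlF, prod_take, hRd]
    push_cast
    rfl
  have hRB : (((lB.map r).prod : ℕ) : ℝ) = R := by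
    rw [hlB, prod_revtake hT r fun a b h => (symr a b h).1, hRd]
    push_cast
    rfl
  have hΛF : (lF.map fun a => p * gsz gp a).prod = Λ := by rw [hlF, prod_take]
  have hΛB : (lB.map fun a => p * gsz gp a).prod = Λ := by
    rw [hlB, prod_revtake hT (fun a => p * (gsz gp a : ℝ)) fun a b h => by rw [(symr a b h).2]]
  -- the roots of the trees
  obtain ⟨aF, lF', hF1, hF2⟩ : ∃ (a : Fin T) (l' : List (Fin T)), lF = a :: l' ∧ a.val = 0 := by
    cases hl : lF with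
    | nil =>
      have : lF.length = t := by
        rw [hlF, List.length_take, List.length_finRange]
        omega
      rw [hl] at this
      simp at this
      omega
    | cons a l' =>
      refine ⟨a, l', rfl, ?_⟩
      have g1 : lF[0]? = some a := by rw [hl]; rfl
      rw [hlF, List.getElem?_take_of_lt (by omega), List.getElem?_eq_getElem
        (by rw [List.length_finRange]; omega), List.getElem_finRange, Option.some.injEq] at g1
      rw [← g1]
      rfl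
  obtain ⟨aB, lB', hB1, hB2⟩ : ∃ (a : Fin T) (l' : List (Fin T)), lB = a :: l' ∧ a.val = T - 1 := by
    cases hl : lB with
    | nil =>
      have : lB.length = t := by
        rw [hlB, List.length_take, List.length_reverse, List.length_finRange]
        omega
      rw [hl] at this
      simp at this
      omega
    | cons a l' =>
      refine ⟨a, l', rfl, ?_⟩
      have g1 : lB[0]? = some a := by rw [hl]; rfl
      rw [hlB, List.getElem?_take_of_lt (by omega), List.getElem?_reverse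
        (by rw [List.length_finRange]; omega), List.getElem?_eq_getElem
        (by rw [List.length_finRange]; omega), List.getElem_finRange, Option.some.injEq] at g1
      rw [← g1]
      simp
  -- dead trees
  have hdF : ∀ (y : Cube κ) (z : Cube μ), par2 y z = ε →
      (lawR κ ν p h0 h1).pr (fun s => LF gp cf Uf r lF s y z = ∅) ≤ (v ^ 100) ^ 2 :=
    fun y z h => dead_F gp p h0 h1 hv hvle hα hF r hndF hr1 h16 hF1 (hroot aF (Or.inl hF2)) y z h
  have hdB : ∀ (y : Cube κ) (z : Cube μ), par2 y z = !ε →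
      (lawR κ ν p h0 h1).pr (fun s => LB gp cf Uf r lB s y z = ∅) ≤ (v ^ 100) ^ 2 :=
    fun y z h => dead_B gp p h0 h1 hv hvle hα hF r hndB hr1 h16 hB1 (hroot aB (Or.inr hB2)) y z h
  set cf' : X → Cube κ → Option (Cube κ) := fun x => pinv (cf x) with hcf'
  set Uf' : X → Finset (Cube κ) := fun x => imU (cf x) (Uf x) with hUf'
  have hF' : FldH ν cf' Uf' act (!ε) (v ^ 100) α := hF.rev
  have hdF' : ∀ (y : Cube κ) (z : Cube μ), par2 y z = !ε →
      (lawR κ ν p h0 h1).pr (fun s => LF gp cf' Uf' r lB s y z = ∅) ≤ (v ^ 100) ^ 2 := by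
    intro y z h
    have e1 : ∀ s : Smp X κ μ, LF gp cf' Uf' r lB s y z = LB gp cf Uf r lB s y z := by
      intro s
      unfold LF LB
      rw [hcf', hUf', rev_stF hF.inj]
    simp only [e1]
    exact hdB y z h
  have hdB' : ∀ (y : Cube κ) (z : Cube μ), par2 y z = !(!ε) →
      (lawR κ ν p h0 h1).pr (fun s => LB gp cf' Uf' r lF s y z = ∅) ≤ (v ^ 100) ^ 2 := by
    intro y z h
    rw [Bool.not_not] at h
    have e1 : ∀ s : Smp X κ μ, LB gp cf' Uf' r lF s y z = LF gp cf Uf r lF s y z := by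
      intro s
      unfold LF LB
      rw [hcf', hUf', rev_stB hF.inj hF.dom]
    simp only [e1]
    exact hdF y z h
  set K : ℝ := p * gsz gp m with hK
  set D : ℝ := 1 / v ^ 20 with hD
  set q : ℝ := D / (R ^ 2 * v ^ 100 * K) with hq
  have hK16 : 16 ≤ K := hpg m
  obtain ⟨hq0, hq1⟩ := num_q hv hv1 hR hK16 hD hq
  have hD1 : 1 ≤ D := by
    rw [hD, le_div_iff₀ (by positivity), one_mul]
    exact pow_le_one₀ hv.le hvle
  have sideF := one_side gp p h0 h1 hv hv1 hF r hnd hRF hRB hR (by rw [hΛB]; exact hχ)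
    (fun a _ => by linarith [hpg a]) hK16 hne hdF hdB hD hq
  have sideB := one_side gp p h0 h1 hv hv1 hF' r hnd2 hRB hRF hR (by rw [hΛF]; exact hχ)
    (fun a _ => by linarith [hpg a]) hK16 hne hdF' hdB' hD hq
  -- deterministic selection
  have hθ0 : (0 : ℝ) < v ^ 5 := by positivity
  have hθ1 : v ^ 5 ≤ 1 := pow_le_one₀ hv.le hvle
  have hdet := fun s : Smp X κ μ => round_det (ε := ε) gp hT (m := m) rfl hF.inj hF.dom hF.flp r L
    hq0 hq1 hD1 hθ0 hθ1 s
  choose TT hTT1 hTT2 hTT3 using hdet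
  refine ⟨TT, hTT1, hTT2, ?_⟩
  -- expectations
  set N : ℝ := 2 ^ (Fintype.card κ + Fintype.card μ) / 2 with hN
  have hN0 : 0 ≤ N := by positivity
  have hcard : ∀ ε' : Bool, ((PE κ μ ε').card : ℝ) = N := fun ε' => card_PE hne ε'
  -- starts
  have hst : (lawR κ ν p h0 h1).E (fun s => ((univ.filter fun x : Cube κ × Cube μ =>
      par2 x.1 x.2 = ε ∧ isSt cf (s.1 x.2) x.1).card : ℝ)) = N * v ^ 100 := by
    have e1 : ∀ s : Smp X κ μ, ((univ.filter fun x : Cube κ × Cube μ =>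
        par2 x.1 x.2 = ε ∧ isSt cf (s.1 x.2) x.1).card : ℝ) =
        ∑ x ∈ PE κ μ ε, if isSt cf (s.1 x.2) x.1 then 1 else 0 := by
      intro s
      rw [Finset.sum_boole]
      congr 2
      ext x
      simp [mem_PE]
    rw [FP.E_congr _ e1, FP.E_sum]
    have e2 : ∀ x ∈ PE κ μ ε, (lawR κ ν p h0 h1).E
        (fun s => if isSt cf (s.1 x.2) x.1 then (1 : ℝ) else 0) = v ^ 100 := by
      intro x hx
      rw [← hF.starts x.1 x.2 (mem_PE.1 hx), FP.pr_eq]
      exact E_fib x.2 fun w => if isSt cf w x.1 then (1 : ℝ) else 0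
    rw [Finset.sum_congr rfl e2, Finset.sum_const, nsmul_eq_mul, hcard]
  rw [FP.E_sub, hst]
  refine num_final hv hv1 hN0 ?_
  rw [← hD]
  have hmain : (lawR κ ν p h0 h1).E (fun s =>
      q * (∑ x ∈ PE κ μ ε, (nsel gp cf Uf r lF m lB s x.1 x.2 : ℝ)) -
        2 / ((v ^ 5) ^ 2 * D) * (∑ x ∈ PE κ μ ε, ((q * (nsel gp cf Uf r lF m lB s x.1 x.2 : ℝ) -
              D * (if AliveSt gp cf Uf r lF s x.1 x.2 then 1 else 0)) ^ 2 +
            q * (nsel gp cf Uf r lF m lB s x.1 x.2 : ℝ)) +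
          ∑ y ∈ PE κ μ (!ε), ((q * (nsel gp cf' Uf' r lB m lF s y.1 y.2 : ℝ) -
              D * (if AliveSt gp cf' Uf' r lB s y.1 y.2 then 1 else 0)) ^ 2 +
            q * (nsel gp cf' Uf' r lB m lF s y.1 y.2 : ℝ))) -
        q ^ 2 * ((univ.filter fun w => BadT gp ε cf Uf L (t - 1) s w).card : ℝ)) ≤
      (lawR κ ν p h0 h1).E (fun s => (1 + v ^ 5) * D * ((TT s).card : ℝ)) := FP.E_mono _ hTT3
  rw [FP.E_mul_left] at hmain
  refine le_trans ?_ hmain
  rw [FP.E_sub, FP.E_sub, FP.E_mul_left, FP.E_mul_left, FP.E_mul_left, FP.E_add, FP.E_sum, FP.E_sum,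
    FP.E_sum]
  -- the three parts
  have p1 : N * (D * v ^ 100 * (1 - 2 * v ^ 200)) ≤ q * ∑ x ∈ PE κ μ ε,
      (lawR κ ν p h0 h1).E (fun s => (nsel gp cf Uf r lF m lB s x.1 x.2 : ℝ)) := by
    rw [Finset.mul_sum, ← hcard ε, ← nsmul_eq_mul]
    exact Finset.card_nsmul_le_sum _ _ _ fun x hx => (sideF x.1 x.2 (mem_PE.1 hx)).1
  have p2 : ∑ x ∈ PE κ μ ε, (lawR κ ν p h0 h1).E (fun s =>
      (q * (nsel gp cf Uf r lF m lB s x.1 x.2 : ℝ) -
        D * (if AliveSt gp cf Uf r lF s x.1 x.2 then 1 else 0)) ^ 2 +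
      q * (nsel gp cf Uf r lF m lB s x.1 x.2 : ℝ)) ≤ N * (3 * v ^ 139 + D * v ^ 100) := by
    rw [← hcard ε, ← nsmul_eq_mul]
    refine Finset.sum_le_card_nsmul _ _ _ fun x hx => ?_
    obtain ⟨-, g2, g3⟩ := sideF x.1 x.2 (mem_PE.1 hx)
    rw [FP.E_add, FP.E_mul_left]
    exact add_le_add g3 g2
  have p3 : ∑ y ∈ PE κ μ (!ε), (lawR κ ν p h0 h1).E (fun s =>
      (q * (nsel gp cf' Uf' r lB m lF s y.1 y.2 : ℝ) -
        D * (if AliveSt gp cf' Uf' r lB s y.1 y.2 then 1 else 0)) ^ 2 +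
      q * (nsel gp cf' Uf' r lB m lF s y.1 y.2 : ℝ)) ≤ N * (3 * v ^ 139 + D * v ^ 100) := by
    rw [← hcard (!ε), ← nsmul_eq_mul]
    refine Finset.sum_le_card_nsmul _ _ _ fun x hx => ?_
    obtain ⟨-, g2, g3⟩ := sideB x.1 x.2 (mem_PE.1 hx)
    rw [FP.E_add, FP.E_mul_left]
    exact add_le_add g3 g2
  have p4 : q ^ 2 * (lawR κ ν p h0 h1).E
      (fun s => ((univ.filter fun w => BadT gp ε cf Uf L (t - 1) s w).card : ℝ)) ≤ N * v ^ 134 := by
    have hgr : ∀ a, (r a : ℝ) ≤ gsz gp a := by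
      intro a
      have g1 := h16 a
      have g2 : (0 : ℝ) ≤ r a := Nat.cast_nonneg _
      have g3 : (0 : ℝ) ≤ gsz gp a := Nat.cast_nonneg _
      have g4 : α * p * gsz gp a ≤ 1 * gsz gp a := by
        refine mul_le_mul_of_nonneg_right ?_ g3
        nlinarith
      linarith
    have hR1 : R ≤ ∏ a ∈ univ.filter (fun a : Fin T => a.val < t), (gsz gp a : ℝ) :=
      Finset.prod_le_prod (fun a _ => Nat.cast_nonneg _) fun a _ => hgr a
    have hprod : ∀ f : Fin T → ℝ, (∀ a b : Fin T, a.val + b.val = 2 * t → f a = f b) →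
        ∏ a ∈ univ.filter (fun a : Fin T => t < a.val), f a =
          ∏ a ∈ univ.filter (fun a : Fin T => a.val < t), f a := by
      intro f hf
      refine Finset.prod_bij' (fun a _ => (⟨2 * t - a.val, by omega⟩ : Fin T))
        (fun a _ => (⟨2 * t - a.val, by omega⟩ : Fin T)) ?_ ?_ ?_ ?_ ?_
      · intro a ha
        simp only [Finset.mem_filter, Finset.mem_univ, true_and] at ha ⊢
        omega
      · intro a ha
        simp only [Finset.mem_filter, Finset.mem_univ, true_and] at ha ⊢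
        omega
      · intro a _
        apply Fin.ext
        show 2 * t - (2 * t - a.val) = a.val
        have := a.isLt
        omega
      · intro a _
        apply Fin.ext
        show 2 * t - (2 * t - a.val) = a.val
        have := a.isLt
        omega
      · intro a _
        refine hf _ _ ?_
        show a.val + (2 * t - a.val) = 2 * t
        have := a.isLt
        omega
    have hR2 : R ≤ ∏ a ∈ univ.filter (fun a : Fin T => t < a.val), (gsz gp a : ℝ) := by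
      rw [hprod _ fun a b h => by rw [(symr a b h).2]]
      exact hR1
    have hR0 : 0 < R := by
      by_contra h
      push Not at h
      have : v ^ 90 * R ≤ 0 := mul_nonpos_of_nonneg_of_nonpos (by positivity) h
      linarith
    have hb := E_bad gp p h0 h1 hF hT ht (fun a => by linarith [hpg a]) L hR0 hR1 hR2
    have hall : ∏ a, p * (gsz gp a : ℝ) = Λ * K * Λ := by
      have g1 : ∏ a, p * (gsz gp a : ℝ) =
          (∏ a ∈ univ.filter (fun a : Fin T => a.val < t), (p * gsz gp a : ℝ)) *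
          ∏ a ∈ univ.filter (fun a : Fin T => ¬ a.val < t), (p * gsz gp a : ℝ) :=
        (Finset.prod_filter_mul_prod_filter_not _ _ _).symm
      have g2 : univ.filter (fun a : Fin T => ¬ a.val < t) =
          insert m (univ.filter (fun a : Fin T => t < a.val)) := by
        ext a
        simp only [Finset.mem_filter, Finset.mem_univ, true_and, Finset.mem_insert]
        constructor
        · intro h
          by_cases h2 : a = m
          · exact Or.inl h2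
          · right
            have : a.val ≠ t := fun h3 => h2 (Fin.ext h3)
            omega
        · rintro (rfl | h)
          · show ¬ t < t
            omega
          · omega
      rw [g1, g2, Finset.prod_insert (by simp [hm]),
        hprod (fun a => p * (gsz gp a : ℝ)) fun a b h => by rw [(symr a b h).2]]
      ring
    rw [hall] at hb
    have hb' := mul_le_mul_of_nonneg_left hb (sq_nonneg q)
    refine hb'.trans ?_
    have hN2 : (2 : ℝ) ^ (Fintype.card κ + Fintype.card μ) = 2 * N := by rw [hN]; ring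
    rw [hN2]
    exact num_bad hv hv1 hR hΛ0 hχ hK16 hD hq hN0 (Nat.cast_nonneg _) hL (Nat.cast_nonneg _) hTv
  have hc0 : 0 ≤ 2 / ((v ^ 5) ^ 2 * D) := by positivity
  have p5 := mul_le_mul_of_nonneg_left (add_le_add p2 p3) hc0
  linarith

end R9

end Pool.Agent.LongCyc.Dense
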