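import Pool.Agent.LongCyc.Dense.Jn3

/-!
# Dense regime, section 5: the fibre field of a system
-/

set_option autoImplicit false

namespace Pool.Agent.LongCyc.Dense

open Finset

section trans

variable {κ : Type} [DecidableEq κ] [Fintype κ]

omit [DecidableEq κ] [Fintype κ] in
theorem sf_xr3 (y η τ : Cube κ) : xr (xr y η) (xr τ η) = xr y τ := by
  funext i
  simp only [xr_apply]
  cases y i <;> cases η i <;> cases τ i <;> rfl

omit [DecidableEq κ] [Fintype κ] in
theorem sf_xr_right (v τ η : Cube κ) : xr v (xr τ η) = xr (xr v τ) η := by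
  funext i
  simp only [xr_apply]
  cases v i <;> cases η i <;> cases τ i <;> rfl

omit [DecidableEq κ] [Fintype κ] in
theorem sf_trc_some (c : Cube κ → Option (Cube κ)) (τ y y' : Cube κ) :
    trc c τ y = some y' ↔ c (xr y τ) = some (xr y' τ) := by
  unfold trc
  rw [Option.map_eq_some_iff]
  constructor
  · rintro ⟨a, ha, rfl⟩
    rw [ha, xr_xr]
  · intro h
    exact ⟨_, h, by simp⟩

omit [DecidableEq κ] [Fintype κ] in
theorem sf_trc_none (c : Cube κ → Option (Cube κ)) (τ y : Cube κ) :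
    trc c τ y = none ↔ c (xr y τ) = none := by
  unfold trc
  rw [Option.map_eq_none_iff]

omit [DecidableEq κ] [Fintype κ] in
theorem sf_trc_start (c : Cube κ → Option (Cube κ)) (τ y : Cube κ) :
    (∀ w, trc c τ w ≠ some y) ↔ ∀ w, c w ≠ some (xr y τ) := by
  constructor
  · intro h w hw
    refine h (xr w τ) ?_
    rw [sf_trc_some, xr_xr]
    exact hw
  · intro h w hw
    rw [sf_trc_some] at hw
    exact h _ hw

theorem sf_mem_trS (S : Finset (Cube κ)) (τ y : Cube κ) :
    y ∈ trS S τ ↔ xr y τ ∈ S := by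
  unfold trS
  rw [Finset.mem_image]
  constructor
  · rintro ⟨a, ha, rfl⟩
    simpa using ha
  · intro h
    exact ⟨_, h, by simp⟩

omit [DecidableEq κ] [Fintype κ] in
theorem sf_trc_pinj {c : Cube κ → Option (Cube κ)} (hc : PInj c) (τ : Cube κ) : PInj (trc c τ) := by
  intro x y v hx hy
  rw [sf_trc_some] at hx hy
  exact xr_injective τ (hc _ _ _ hx hy)

end trans

section S3

variable {β : Type} [DecidableEq β] [Fintype β] {nR : ℕ} {pb : ℝ} {hb0 : 0 ≤ pb} {hb1 : pb ≤ 1}
  {u0 α0 ρ : ℝ} {L Vr Bd0 M0 : ℕ} {B : BaseLaw β nR pb hb0 hb1 u0 α0 ρ L Vr Bd0 M0}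
  {δ μ : Type} [DecidableEq δ] [Fintype δ] [DecidableEq μ] [Fintype μ] {p1 : ℝ} {h0 : 0 ≤ p1} {h1 : p1 ≤ 1} {Bd : ℕ}

/-- a step of a system is a flip -/
theorem sf_flip (S : Sys B δ p1 h0 h1 Bd) (ω : S.Ω) (x x' : Cube (β ⊕ δ)) (h : S.c ω x = some x') :
    ∃ i, x' = flip i x := by
  rcases (S.val ω).edge x x' h with ⟨h1, h2⟩ | ⟨i, h1, -⟩
  · obtain ⟨i, hi, -⟩ := (B.val _).cOpen _ _ h2
    refine ⟨Sum.inl i, ?_⟩
    rw [flip_inl, ← jn_self x', h1, hi]
  · exact ⟨_, h1⟩

theorem sf_par (S : Sys B δ p1 h0 h1 Bd) (ω : S.Ω) (x x' : Cube (β ⊕ δ)) (h : S.c ω x = some x') :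
    par x' = !par x := by
  obtain ⟨i, rfl⟩ := sf_flip S ω x x' h
  exact par_flip _ _

/-- probability of a translation invariant event -/
theorem sf_nuS_pr [Nonempty (β ⊕ δ)] (S : Sys B δ p1 h0 h1 Bd) (ε : Bool) (y : Cube (β ⊕ δ)) (z : Cube μ)
    (hyz : par2 y z = ε) (A : S.Ω → Finset (Cube (β ⊕ δ))) (Q : S.Ω × Cube (β ⊕ δ) → Prop)
    (hQ : ∀ ω τ, Q (ω, τ) ↔ xr y τ ∈ A ω) :
    (nuS (μ := μ) S.P z).pr Q =
      S.P.E (fun ω => (((A ω).filter fun v => par v = ε).card : ℝ)) /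
        (2 ^ (Fintype.card β + Fintype.card δ) / 2) := by
  classical
  rw [FP.pr_eq, nuS, FP.E_prod, ← FP.E_div]
  refine FP.E_congr _ fun ω => ?_
  have h2 := parL_count (A ω) y (par z)
  have h3 : (par y == par z) = ε := hyz
  rw [h3, Fintype.card_sum] at h2
  rw [← h2]
  refine FP.E_congr _ fun τ => ?_
  simp only [hQ ω τ]

/-- density of the starts in the fibres, any parity -/
theorem sys_st_pr [Nonempty (β ⊕ δ)] (S : Sys B δ p1 h0 h1 Bd) (ε : Bool) (y : Cube (β ⊕ δ)) (z : Cube μ)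
    (hyz : par2 y z = ε) :
    (nuS (μ := μ) S.P z).pr (fun q => ∀ w, trc (S.c q.1) q.2 w ≠ some y) =
      S.st ε / (2 ^ (Fintype.card β + Fintype.card δ) / 2) := by
  classical
  rw [sf_nuS_pr S ε y z hyz (fun ω => univ.filter fun x => ∀ w, S.c ω w ≠ some x) _ (fun ω τ => by
    rw [Finset.mem_filter]
    simp only [Finset.mem_univ, true_and]
    exact sf_trc_start _ _ _)]
  congr 1
  unfold Sys.st
  refine FP.E_congr _ fun ω => ?_
  congr 2
  ext x
  simp only [Finset.mem_filter, Finset.mem_univ, true_and]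
  exact and_comm

theorem sys_us_pr [Nonempty (β ⊕ δ)] (S : Sys B δ p1 h0 h1 Bd) (ε : Bool) (y : Cube (β ⊕ δ)) (z : Cube μ)
    (hyz : par2 y z = ε) :
    (nuS (μ := μ) S.P z).pr (fun q => y ∈ trS (S.U q.1) q.2) =
      S.us ε / (2 ^ (Fintype.card β + Fintype.card δ) / 2) := by
  classical
  rw [sf_nuS_pr S ε y z hyz (fun ω => S.U ω) _ (fun ω τ => sf_mem_trS _ _ _)]
  congr 1
  unfold Sys.us
  refine FP.E_congr _ fun ω => ?_
  congr 2
  ext x
  simp only [Finset.mem_filter, Finset.mem_univ, true_and]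
  exact and_comm

theorem sys_fld [Nonempty (β ⊕ δ)] (hL : 2 ≤ L) (S : Sys B δ p1 h0 h1 Bd) (ε : Bool) {u α : ℝ}
    (hu : S.st ε = u * (2 ^ (Fintype.card β + Fintype.card δ) / 2))
    (hα : ∀ ε', α * (2 ^ (Fintype.card β + Fintype.card δ) / 2) ≤ S.us ε') :
    FldH (fun z : Cube μ => nuS S.P z) (fun q : S.Ω × Cube (β ⊕ δ) => trc (S.c q.1) q.2)
      (fun q => trS (S.U q.1) q.2) (fun η => actS η) ε u α := by
  classical
  have hN : (0 : ℝ) < 2 ^ (Fintype.card β + Fintype.card δ) / 2 := by positivity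
  refine
    { inj := fun x => sf_trc_pinj (S.val x.1).inj x.2
      flp := ?_
      dom := ?_
      starts := ?_
      ends := ?_
      useF := ?_
      useB := ?_
      act_c := ?_
      act_U := ?_
      act_w := ?_ }
  · intro x y y' h
    rw [sf_trc_some] at h
    obtain ⟨i, hi⟩ := sf_flip S x.1 _ _ h
    have h2 : y' = flip i y := by
      have h3 := congrArg (fun v => xr v x.2) hi
      simpa [← xr_flip] using h3
    rw [h2, par_flip]
  · intro x y h
    rw [sf_mem_trS] at h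
    obtain ⟨v, -, hv, -, -⟩ := (S.val x.1).usef _ h
    exact ⟨xr v x.2, by rw [sf_trc_some, xr_xr]; exact hv⟩
  · intro y z hyz
    have h := sys_st_pr (μ := μ) S ε y z hyz
    rw [hu, mul_div_assoc, div_self hN.ne', mul_one] at h
    exact h
  · intro y z hyz
    rw [sf_nuS_pr S (!ε) y z hyz (fun ω => univ.filter fun x => S.c ω x = none) _ (fun ω τ => by
      rw [Finset.mem_filter]
      simp only [Finset.mem_univ, true_and]
      exact sf_trc_none _ _ _)]
    have h2 : S.P.E (fun ω => ((((univ.filter fun x => S.c ω x = none)).filter fun v => par v = !ε).card : ℝ)) =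
        S.st ε := by
      unfold Sys.st
      refine FP.E_congr _ fun ω => ?_
      rw [card_starts_ends (S.c ω) (S.val ω).inj (sf_par S ω) ε]
      congr 2
      ext x
      simp only [Finset.mem_filter, Finset.mem_univ, true_and]
      exact and_comm
    rw [h2, hu, mul_div_assoc, div_self hN.ne', mul_one]
  · intro y z hyz
    have h := sys_us_pr (μ := μ) S (!ε) y z hyz
    rw [h, le_div_iff₀ hN]
    exact hα _
  · intro y z hyz
    rw [sf_nuS_pr S ε y z hyz (fun ω => univ.filter fun x => ∃ w ∈ S.U ω, S.c ω w = some x) _ (fun ω τ => by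
      rw [Finset.mem_filter]
      simp only [Finset.mem_univ, true_and]
      constructor
      · rintro ⟨w, hw, hc⟩
        rw [sf_mem_trS] at hw
        rw [sf_trc_some] at hc
        exact ⟨_, hw, hc⟩
      · rintro ⟨w, hw, hc⟩
        refine ⟨xr w τ, ?_, ?_⟩
        · rw [sf_mem_trS, xr_xr]
          exact hw
        · rw [sf_trc_some, xr_xr]
          exact hc)]
    rw [le_div_iff₀ hN]
    refine le_trans (hα (!ε)) ?_
    unfold Sys.us
    refine FP.E_mono _ fun ω => ?_
    norm_cast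
    have hf : ∀ x ∈ univ.filter fun x : Cube (β ⊕ δ) => par x = !ε ∧ x ∈ S.U ω, ∃ v, S.c ω x = some v := by
      intro x hx
      rw [Finset.mem_filter] at hx
      obtain ⟨v, -, hv, -, -⟩ := (S.val ω).usef _ hx.2.2
      exact ⟨v, hv⟩
    refine Finset.card_le_card_of_injOn (fun x => (S.c ω x).getD x) ?_ ?_
    · intro x hx
      rw [Finset.mem_coe] at hx
      obtain ⟨v, hv⟩ := hf x hx
      rw [Finset.mem_filter] at hx
      have he : (S.c ω x).getD x = v := by rw [hv, Option.getD_some]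
      rw [Finset.mem_coe, Finset.mem_filter, Finset.mem_filter]
      show (_ ∧ ∃ w ∈ S.U ω, S.c ω w = some ((S.c ω x).getD x)) ∧ par ((S.c ω x).getD x) = ε
      rw [he]
      refine ⟨⟨Finset.mem_univ _, x, hx.2.2, hv⟩, ?_⟩
      rw [sf_par S ω x v hv, hx.2.1, Bool.not_not]
    · intro x hx x' hx' he
      rw [Finset.mem_coe] at hx hx'
      obtain ⟨v, hv⟩ := hf x hx
      obtain ⟨v', hv'⟩ := hf x' hx'
      simp only [hv, hv', Option.getD_some] at he
      subst he
      exact (S.val ω).inj _ _ _ hv hv'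
  · intro η x y
    show trc (S.c x.1) (xr x.2 η) (xr y η) = (trc (S.c x.1) x.2 y).map fun v => xr v η
    unfold trc
    rw [sf_xr3, Option.map_map]
    congr 1
    funext v
    exact sf_xr_right _ _ _
  · intro η x y
    show xr y η ∈ trS (S.U x.1) (xr x.2 η) ↔ y ∈ trS (S.U x.1) x.2
    rw [sf_mem_trS, sf_mem_trS, sf_xr3]
  · intro η ζ z x hηζ
    show S.P.w x.1 * (parL (β ⊕ δ) (par (xr z ζ))).w (xr x.2 η) = S.P.w x.1 * (parL (β ⊕ δ) (par z)).w x.2
    congr 1
    show (if par (xr x.2 η) = par (xr z ζ) then (2 : ℝ) / 2 ^ Fintype.card (β ⊕ δ) else 0) =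
      if par x.2 = par z then (2 : ℝ) / 2 ^ Fintype.card (β ⊕ δ) else 0
    rw [par_xr, par_xr, ← hηζ]
    cases par x.2 <;> cases par η <;> cases par z <;> simp

end S3

end Pool.Agent.LongCyc.Dense
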