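import Pool.Agent.LongCyc.Dense.Jn3
import Pool.Agent.LongCyc.Dense.JoinLaw
import Pool.Agent.LongCyc.Dense.JoinSurg
import Pool.Agent.LongCyc.Dense.SysFld
import Pool.Agent.LongCyc.Dense.Round

/-!
# Dense regime, section 5: one step of the iteration (package LCD-S4)
-/

set_option autoImplicit false

namespace Pool.Agent.LongCyc.Dense

open Finset

section StepAux

theorem step_card_par {κ : Type} [DecidableEq κ] [Fintype κ] [Nonempty κ] (b : Bool) :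
    ((univ.filter fun x : Cube κ => par x = b).card : ℝ) = 2 ^ Fintype.card κ / 2 := by
  have h := (parL κ b).sum_one
  change ∑ τ : Cube κ, (if par τ = b then (2 : ℝ) / 2 ^ Fintype.card κ else 0) = 1 at h
  rw [← sum_filter, sum_const, nsmul_eq_mul] at h
  have h2 : (0 : ℝ) < 2 ^ Fintype.card κ := by positivity
  field_simp at h
  linarith

theorem step_canE_xr {δ : Type} [DecidableEq δ] (x τ : Cube δ) (i : δ) :
    (canE δ).e (xr x τ) i = (canE δ).e (xr (Function.update x i false) τ) i := by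
  apply Subtype.ext
  change (Function.update (xr x τ) i false, i) =
    (Function.update (xr (Function.update x i false) τ) i false, i)
  congr 1
  funext j
  by_cases hj : j = i
  · subst hj; simp
  · simp [hj]

theorem step_E_fst {κ μ X : Type} [DecidableEq κ] [Fintype κ] [DecidableEq μ] [Fintype μ] [Fintype X]
    (ν : Cube μ → FP X) (p : ℝ) (h0 : 0 ≤ p) (h1 : p ≤ 1) (z : Cube μ) (f : X → ℝ) :
    (lawR κ ν p h0 h1).E (fun s => f (s.1 z)) = (ν z).E f := by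
  rw [lawR, FP.E_prod]
  simp only [FP.E_const]
  exact FP.E_pi_single ν z f

variable {β δ μ X : Type} [DecidableEq β] [Fintype β] [DecidableEq δ] [Fintype δ] [DecidableEq μ] [Fintype μ]
  [Fintype X]

open Classical in
theorem step_E_count [Nonempty (β ⊕ δ)] (ν : Cube μ → FP X) (p : ℝ) (h0 : 0 ≤ p) (h1 : p ≤ 1)
    (Q : X → Cube (β ⊕ δ) → Prop) (ε : Bool) (a : ℝ)
    (hQ : ∀ y z, par2 y z = ε → (ν z).pr (fun q => Q q y) = a) :
    (lawR (β ⊕ δ) ν p h0 h1).E (fun s => ((univ.filter fun x : Cube (β ⊕ (δ ⊕ μ)) =>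
      par x = ε ∧ Q (s.1 (ps3 x)) (pr3 x)).card : ℝ)) =
      (2 ^ Fintype.card (β ⊕ (δ ⊕ μ)) / 2) * a := by
  have hne : Nonempty (β ⊕ (δ ⊕ μ)) := by
    obtain ⟨i⟩ := ‹Nonempty (β ⊕ δ)›
    rcases i with i | i
    · exact ⟨Sum.inl i⟩
    · exact ⟨Sum.inr (Sum.inl i)⟩
  have h2 : ∀ s : Smp X (β ⊕ δ) μ, ((univ.filter fun x : Cube (β ⊕ (δ ⊕ μ)) =>
      par x = ε ∧ Q (s.1 (ps3 x)) (pr3 x)).card : ℝ) =
      ∑ x ∈ univ.filter (fun x : Cube (β ⊕ (δ ⊕ μ)) => par x = ε),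
        (if Q (s.1 (ps3 x)) (pr3 x) then (1 : ℝ) else 0) := by
    intro s
    rw [← filter_filter, card_filter]
    push_cast
    rfl
  rw [FP.E_congr _ h2, FP.E_sum]
  have h3 : ∀ x ∈ univ.filter (fun x : Cube (β ⊕ (δ ⊕ μ)) => par x = ε),
      (lawR (β ⊕ δ) ν p h0 h1).E (fun s => if Q (s.1 (ps3 x)) (pr3 x) then (1 : ℝ) else 0) = a := by
    intro x hx
    rw [step_E_fst ν p h0 h1 (ps3 x) (fun q => if Q q (pr3 x) then (1 : ℝ) else 0), ← FP.pr_eq]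
    refine hQ _ _ ?_
    rw [← par_jn3, jn3_self]
    exact (mem_filter.1 hx).2
  rw [sum_congr rfl h3, sum_const, nsmul_eq_mul, step_card_par]

end StepAux

section S4

variable {β : Type} [DecidableEq β] [Fintype β] {nR : ℕ} {pb : ℝ} {hb0 : 0 ≤ pb} {hb1 : pb ≤ 1}
  {u0 α0 ρ : ℝ} {L Vr Bd0 M0 : ℕ} {B : BaseLaw β nR pb hb0 hb1 u0 α0 ρ L Vr Bd0 M0}
  {δ μ : Type} [DecidableEq δ] [Fintype δ] [DecidableEq μ] [Fintype μ] {p1 : ℝ} {h0 : 0 ≤ p1} {h1 : p1 ≤ 1} {Bd : ℕ}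

/-- the surgery applied to a sample point of the round -/
theorem step_conf (hL : 2 ≤ L) (hBd : L ≤ Bd) (S : Sys B δ p1 h0 h1 Bd) (ε : Bool) {T t : ℕ} (hT : T = 2 * t + 1)
    (ht : 1 ≤ t) (gp : μ → Fin T) (s : Smp (S.Ω × Cube (β ⊕ δ)) (β ⊕ δ) μ) (TT : Finset (TI (β ⊕ δ) μ T))
    (hTT : ∀ q ∈ TT, IsTrail gp ε (fun z => trc (S.c (s.1 z).1) (s.1 z).2) (fun z => trS (S.U (s.1 z).1) (s.1 z).2)
      (rgo s.2) q)
    (hpair : ∀ q ∈ TT, ∀ q' ∈ TT, q ≠ q' → (q.1, q.2.1) ≠ (q'.1, q'.2.1) ∧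
      tend gp (fun z => trc (S.c (s.1 z).1) (s.1 z).2) q ≠ tend gp (fun z => trc (S.c (s.1 z).1) (s.1 z).2) q' ∧
      ¬ BadPair gp (fun z => trc (S.c (s.1 z).1) (s.1 z).2) L (t - 1) q q') :
    ∃ (c' : Cube (β ⊕ (δ ⊕ μ)) → Option (Cube (β ⊕ (δ ⊕ μ)))) (U' : Finset (Cube (β ⊕ (δ ⊕ μ)))),
      SysV L (fun z => B.bd ((joinEnv S.env s).1 z)) (joinEnv S.env s).2 c' U' (3 * Bd + (T - 1) * L) ∧
      (∀ x, (∀ w, c' w ≠ some x) ↔
        (∀ w, trc (S.c (s.1 (ps3 x)).1) (s.1 (ps3 x)).2 w ≠ some (pr3 x)) ∧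
          ∀ q ∈ TT, (q.1, q.2.1) ≠ (pr3 x, ps3 x)) ∧
      (∀ x ∈ U', pr3 x ∈ trS (S.U (s.1 (ps3 x)).1) (s.1 (ps3 x)).2) ∧
      (univ.filter fun x : Cube (β ⊕ (δ ⊕ μ)) => pr3 x ∈ trS (S.U (s.1 (ps3 x)).1) (s.1 (ps3 x)).2 ∧
        x ∉ U').card ≤ (2 * L + 1) * (T - 1) * TT.card := by
  obtain ⟨c', U', h1, h2, h3, h4⟩ := join_surgery hT ht hL hBd gp B.D0 B.Adms Vr Bd0
    (fun z q => (B.bd ((S.env (s.1 z).1).1 (xr q ((s.1 z).2 ∘ Sum.inr)))).tr ((s.1 z).2 ∘ Sum.inl))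
    (fun z q => by rw [← B.act_bd]; exact B.val _)
    (fun z e => (S.env (s.1 z).1).2 (xr e.1 ((s.1 z).2 ∘ Sum.inl),
      (canE δ).e (xr e.2.1.1 ((s.1 z).2 ∘ Sum.inr)) e.2.1.2)) s.2
    (fun z => trc (S.c (s.1 z).1) (s.1 z).2) (fun z => trS (S.U (s.1 z).1) (s.1 z).2)
    (fun z => (S.val (s.1 z).1).trans (s.1 z).2) ε TT hTT hpair
  refine ⟨c', U', ?_, h2, h3, h4⟩
  convert h1 using 1
  · funext q
    exact B.act_bd _ _
  · funext e
    obtain ⟨y, ⟨⟨x, i⟩, hx⟩⟩ := e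
    cases i with
    | inl i =>
      change (S.env (s.1 (x ∘ Sum.inr)).1).2 (xr y ((s.1 (x ∘ Sum.inr)).2 ∘ Sum.inl),
        (canE δ).e (xr (x ∘ Sum.inl) ((s.1 (x ∘ Sum.inr)).2 ∘ Sum.inr)) i) =
        (S.env (s.1 (x ∘ Sum.inr)).1).2 (xr y ((s.1 (x ∘ Sum.inr)).2 ∘ Sum.inl),
          (canE δ).e (xr (Function.update (x ∘ Sum.inl) i false) ((s.1 (x ∘ Sum.inr)).2 ∘ Sum.inr)) i)
      rw [step_canE_xr]
    | inr m => rfl

open Classical in
/-- starts of the new configuration of the parity `ε` -/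
theorem step_card_eps (ε : Bool) {T : ℕ} {gp : μ → Fin T} {c : Cube μ → Cube (β ⊕ δ) → Option (Cube (β ⊕ δ))}
    {U : Cube μ → Finset (Cube (β ⊕ δ))} {o : Cube (β ⊕ δ) → Cube μ → μ → Prop} (TT : Finset (TI (β ⊕ δ) μ T))
    (hTT : ∀ q ∈ TT, IsTrail gp ε c U o q)
    (hpair : ∀ q ∈ TT, ∀ q' ∈ TT, q ≠ q' → (q.1, q.2.1) ≠ (q'.1, q'.2.1))
    (c' : Cube (β ⊕ (δ ⊕ μ)) → Option (Cube (β ⊕ (δ ⊕ μ))))
    (hc' : ∀ x, (∀ w, c' w ≠ some x) ↔ (∀ w, c (ps3 x) w ≠ some (pr3 x)) ∧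
      ∀ q ∈ TT, (q.1, q.2.1) ≠ (pr3 x, ps3 x)) :
    (univ.filter fun x : Cube (β ⊕ (δ ⊕ μ)) => par x = ε ∧ ∀ w, c' w ≠ some x).card + TT.card =
      (univ.filter fun x : Cube (β ⊕ (δ ⊕ μ)) => par x = ε ∧ ∀ w, c (ps3 x) w ≠ some (pr3 x)).card := by
  have hinj : Set.InjOn (fun q : TI (β ⊕ δ) μ T => jn3 q.1 q.2.1) (TT : Set (TI (β ⊕ δ) μ T)) := by
    intro q hq q' hq' heq
    by_contra hne
    refine hpair q hq q' hq' hne ?_
    have h1 := congrArg pr3 heq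
    have h2 := congrArg ps3 heq
    simp only [pr3_jn3, ps3_jn3] at h1 h2
    rw [h1, h2]
  rw [← card_image_of_injOn hinj, ← card_union_of_disjoint]
  · congr 1
    ext x
    rw [mem_union, mem_filter, mem_filter, mem_image]
    constructor
    · rintro (⟨-, h1, h2⟩ | ⟨q, hq, rfl⟩)
      · exact ⟨mem_univ _, h1, ((hc' x).1 h2).1⟩
      · refine ⟨mem_univ _, ?_, ?_⟩
        · rw [par_jn3]
          exact (hTT q hq).par
        · rw [pr3_jn3, ps3_jn3]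
          exact (hTT q hq).start
    · rintro ⟨-, h1, h2⟩
      by_cases h3 : ∀ q ∈ TT, (q.1, q.2.1) ≠ (pr3 x, ps3 x)
      · exact Or.inl ⟨mem_univ _, h1, (hc' x).2 ⟨h2, h3⟩⟩
      · push Not at h3
        obtain ⟨q, hq, h4⟩ := h3
        rw [Prod.mk.injEq] at h4
        exact Or.inr ⟨q, hq, by rw [h4.1, h4.2, jn3_self]⟩
  · rw [disjoint_left]
    intro x hx hx'
    obtain ⟨q, hq, rfl⟩ := mem_image.1 hx'
    have h1 := ((hc' _).1 (mem_filter.1 hx).2.2).2 q hq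
    rw [pr3_jn3, ps3_jn3] at h1
    exact h1 rfl

open Classical in
theorem step_card_other (ε ε' : Bool) (hε : ε' ≠ ε) {T : ℕ} {gp : μ → Fin T}
    {c : Cube μ → Cube (β ⊕ δ) → Option (Cube (β ⊕ δ))}
    {U : Cube μ → Finset (Cube (β ⊕ δ))} {o : Cube (β ⊕ δ) → Cube μ → μ → Prop} (TT : Finset (TI (β ⊕ δ) μ T))
    (hTT : ∀ q ∈ TT, IsTrail gp ε c U o q)
    (c' : Cube (β ⊕ (δ ⊕ μ)) → Option (Cube (β ⊕ (δ ⊕ μ))))
    (hc' : ∀ x, (∀ w, c' w ≠ some x) ↔ (∀ w, c (ps3 x) w ≠ some (pr3 x)) ∧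
      ∀ q ∈ TT, (q.1, q.2.1) ≠ (pr3 x, ps3 x)) :
    (univ.filter fun x : Cube (β ⊕ (δ ⊕ μ)) => par x = ε' ∧ ∀ w, c' w ≠ some x) =
      (univ.filter fun x : Cube (β ⊕ (δ ⊕ μ)) => par x = ε' ∧ ∀ w, c (ps3 x) w ≠ some (pr3 x)) := by
  refine filter_congr fun x _ => and_congr_right fun hx => ?_
  rw [hc']
  refine and_iff_left fun q hq h => hε ?_
  rw [Prod.mk.injEq] at h
  rw [← hx, ← (hTT q hq).par, h.1, h.2, ← par_jn3, jn3_self]

open Classical in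
theorem step_card_pair (ε : Bool) (c : Cube μ → Cube (β ⊕ δ) → Option (Cube (β ⊕ δ))) :
    (univ.filter fun x : Cube (β ⊕ δ) × Cube μ => par2 x.1 x.2 = ε ∧ ∀ w, c x.2 w ≠ some x.1).card =
      (univ.filter fun x : Cube (β ⊕ (δ ⊕ μ)) => par x = ε ∧ ∀ w, c (ps3 x) w ≠ some (pr3 x)).card := by
  refine card_nbij' (fun x => jn3 x.1 x.2) (fun x => (pr3 x, ps3 x)) ?_ ?_ ?_ ?_
  · intro x hx
    have h := (mem_filter.1 hx).2
    refine mem_filter.2 ⟨mem_univ _, ?_, ?_⟩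
    · rw [par_jn3]; exact h.1
    · rw [pr3_jn3, ps3_jn3]; exact h.2
  · intro x hx
    have h := (mem_filter.1 hx).2
    refine mem_filter.2 ⟨mem_univ _, ?_, h.2⟩
    rw [← par_jn3, jn3_self]; exact h.1
  · intro x _
    simp only [pr3_jn3, ps3_jn3]
  · intro x _
    exact jn3_self x

theorem sys_step [Nonempty (β ⊕ δ)] (hL : 2 ≤ L) (hBd : L ≤ Bd) {u : Bool → ℝ} {α : ℝ} (hα : 0 < α) (hα1 : α ≤ 1)
    (hS : HasSys B δ p1 h0 h1 Bd u α) (ε : Bool) {v : ℝ} (hv : u ε = v ^ 100) {T t : ℕ} (gp : μ → Fin T)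
    (r : Fin T → ℕ) (hP : RPar gp t L r p1 v α) :
    ∃ u' : ℝ, 0 ≤ u' ∧ u' ≤ v ^ 104 ∧ HasSys B (δ ⊕ μ) p1 h0 h1 (3 * Bd + (T - 1) * L)
      (Function.update u ε u') (α - (2 * L + 1) * T * v ^ 100) := by
  classical
  obtain ⟨S, hst, hus⟩ := hS
  have hK0 : (0 : ℝ) < 2 ^ (Fintype.card β + Fintype.card δ) / 2 := by positivity
  have hF := sys_fld (μ := μ) hL S ε (u := v ^ 100) (α := α) (by rw [hst, hv]) hus
  obtain ⟨TT, hTT, hpair, hE⟩ := round_trails gp p1 h0 h1 hP hα hα1 hF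
  choose c' U' hval hst' hU' hcard using fun s => step_conf hL hBd S ε hP.hT hP.ht gp s (TT s) (hTT s) (hpair s)
  let S' : Sys B (δ ⊕ μ) p1 h0 h1 (3 * Bd + (T - 1) * L) :=
    { Ω := Smp (S.Ω × Cube (β ⊕ δ)) (β ⊕ δ) μ
      fin := inferInstance
      P := lawR (β ⊕ δ) (fun z : Cube μ => nuS S.P z) p1 h0 h1
      env := joinEnv S.env
      law := joinEnv_law S.P S.env S.law
      c := c'
      U := U'
      val := hval }
  set K : ℝ := 2 ^ (Fintype.card β + Fintype.card (δ ⊕ μ)) / 2 with hK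
  have hK1 : (2 : ℝ) ^ Fintype.card (β ⊕ (δ ⊕ μ)) / 2 = K := by rw [Fintype.card_sum]
  have hKpos : 0 < K := by positivity
  let P' : FP (Smp (S.Ω × Cube (β ⊕ δ)) (β ⊕ δ) μ) :=
    lawR (β ⊕ δ) (fun z : Cube μ => nuS S.P z) p1 h0 h1
  -- starts in the fibres
  set N : Bool → Smp (S.Ω × Cube (β ⊕ δ)) (β ⊕ δ) μ → ℝ := fun ε' s =>
    ((univ.filter fun x : Cube (β ⊕ (δ ⊕ μ)) => par x = ε' ∧
      ∀ w, trc (S.c (s.1 (ps3 x)).1) (s.1 (ps3 x)).2 w ≠ some (pr3 x)).card : ℝ) with hN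
  have hEN : ∀ ε', P'.E (N ε') = u ε' * K := by
    intro ε'
    have h := step_E_count (β := β) (δ := δ) (fun z : Cube μ => nuS S.P z) p1 h0 h1
      (fun q y => ∀ w, trc (S.c q.1) q.2 w ≠ some y) ε' (u ε') (fun y z hyz => by
        rw [sys_st_pr S ε' y z hyz, hst]; field_simp)
    rw [hK1, mul_comm K] at h
    rw [← h]
    refine FP.E_congr _ fun s => ?_
    simp only [hN]
    congr!
  have hsum : ∀ s, ((univ.filter fun x : Cube (β ⊕ (δ ⊕ μ)) => par x = ε ∧ ∀ w, c' s w ≠ some x).card : ℝ) +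
      (TT s).card = N ε s := by
    intro s
    have h := step_card_eps ε (TT s) (hTT s) (fun q hq q' hq' hne => (hpair s q hq q' hq' hne).1) (c' s) (hst' s)
    simp only [hN]
    rw [← Nat.cast_add]
    exact congrArg Nat.cast (by convert h using 2)
  have hTTN : ∀ s, ((TT s).card : ℝ) ≤ N ε s := by
    intro s
    rw [← hsum s]
    have : (0 : ℝ) ≤ ((univ.filter fun x : Cube (β ⊕ (δ ⊕ μ)) => par x = ε ∧ ∀ w, c' s w ≠ some x).card : ℝ) :=
      Nat.cast_nonneg _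
    linarith
  have hst1 : ∀ ε', ε' ≠ ε → S'.st ε' = u ε' * K := by
    intro ε' hne
    rw [← hEN ε']
    refine FP.E_congr _ fun s => ?_
    simp only [hN]
    have h := step_card_other ε ε' hne (TT s) (hTT s) (c' s) (hst' s)
    exact congrArg Nat.cast (congrArg Finset.card (by convert h using 2))
  have hst2 : S'.st ε = P'.E (fun s => N ε s - (TT s).card) := by
    refine FP.E_congr _ fun s => ?_
    rw [← hsum s, add_sub_cancel_right]
  have hst3 : S'.st ε ≤ v ^ 104 * K := by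
    rw [hst2]
    have e1 : P'.E (fun s => N ε s - (TT s).card) = P'.E (fun s => ((univ.filter
        fun x : Cube (β ⊕ δ) × Cube μ => par2 x.1 x.2 = ε ∧
          isSt (fun q : S.Ω × Cube (β ⊕ δ) => trc (S.c q.1) q.2) (s.1 x.2) x.1).card : ℝ) - (TT s).card) := by
      refine FP.E_congr _ fun s => ?_
      congr 1
      simp only [hN]
      have h := step_card_pair (β := β) (δ := δ) ε (fun z => trc (S.c (s.1 z).1) (s.1 z).2)
      refine congrArg Nat.cast ?_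
      convert h.symm using 2
      ext x
      simp only [mem_filter, isSt]
    have e2 : (2 : ℝ) ^ (Fintype.card (β ⊕ δ) + Fintype.card μ) / 2 = K := by
      rw [hK, Fintype.card_sum, Fintype.card_sum, add_assoc]
    rw [e1, mul_comm, ← e2]
    exact hE
  have hst0 : 0 ≤ S'.st ε := FP.E_nonneg _ fun s => Nat.cast_nonneg _
  -- usable vertices
  have hus1 : ∀ ε', (α - (2 * L + 1) * T * v ^ 100) * K ≤ S'.us ε' := by
    intro ε'
    set M : Smp (S.Ω × Cube (β ⊕ δ)) (β ⊕ δ) μ → ℝ := fun s =>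
      ((univ.filter fun x : Cube (β ⊕ (δ ⊕ μ)) => par x = ε' ∧
        pr3 x ∈ trS (S.U (s.1 (ps3 x)).1) (s.1 (ps3 x)).2).card : ℝ) with hM
    have hEM : α * K ≤ P'.E M := by
      have h := step_E_count (β := β) (δ := δ) (fun z : Cube μ => nuS S.P z) p1 h0 h1
        (fun q y => y ∈ trS (S.U q.1) q.2) ε' (S.us ε' / (2 ^ (Fintype.card β + Fintype.card δ) / 2))
        (fun y z hyz => sys_us_pr S ε' y z hyz)
      rw [hK1] at h
      have h2 : P'.E M = K * (S.us ε' / (2 ^ (Fintype.card β + Fintype.card δ) / 2)) := by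
        rw [← h]
        refine FP.E_congr _ fun s => ?_
        simp only [hM]
        congr!
      rw [h2, mul_comm]
      refine mul_le_mul_of_nonneg_left ?_ hKpos.le
      rw [le_div_iff₀ hK0]
      exact hus ε'
    have hpt : ∀ s, M s - ((2 * L + 1) * T * (TT s).card : ℝ) ≤
        ((univ.filter fun x : Cube (β ⊕ (δ ⊕ μ)) => par x = ε' ∧ x ∈ U' s).card : ℝ) := by
      intro s
      have h3 : (univ.filter fun x : Cube (β ⊕ (δ ⊕ μ)) => par x = ε' ∧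
          pr3 x ∈ trS (S.U (s.1 (ps3 x)).1) (s.1 (ps3 x)).2).card ≤
          (univ.filter fun x : Cube (β ⊕ (δ ⊕ μ)) => par x = ε' ∧ x ∈ U' s).card +
          (univ.filter fun x : Cube (β ⊕ (δ ⊕ μ)) => pr3 x ∈ trS (S.U (s.1 (ps3 x)).1) (s.1 (ps3 x)).2 ∧
            x ∉ U' s).card := by
        refine le_trans (card_le_card ?_) (card_union_le _ _)
        intro x hx
        obtain ⟨-, hx1, hx2⟩ := mem_filter.1 hx
        rw [mem_union]
        by_cases hxU : x ∈ U' s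
        · exact Or.inl (mem_filter.2 ⟨mem_univ _, hx1, hxU⟩)
        · exact Or.inr (mem_filter.2 ⟨mem_univ _, hx2, hxU⟩)
      have h4 : (univ.filter fun x : Cube (β ⊕ (δ ⊕ μ)) => pr3 x ∈ trS (S.U (s.1 (ps3 x)).1) (s.1 (ps3 x)).2 ∧
            x ∉ U' s).card ≤ (2 * L + 1) * T * (TT s).card := by
        refine le_trans (by convert hcard s using 2) ?_
        exact Nat.mul_le_mul_right _ (Nat.mul_le_mul_left _ (Nat.sub_le _ _))
      have h5 := h3.trans (Nat.add_le_add_left h4 _)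
      have h6 : M s ≤ ((univ.filter fun x : Cube (β ⊕ (δ ⊕ μ)) => par x = ε' ∧ x ∈ U' s).card : ℝ) +
          (2 * L + 1) * T * (TT s).card := by
        simp only [hM]
        exact_mod_cast h5
      linarith
    have hETT : P'.E (fun s => ((TT s).card : ℝ)) ≤ v ^ 100 * K := by
      rw [← hv, ← hEN ε]
      exact FP.E_mono _ hTTN
    have h7 : P'.E (fun s => M s - ((2 * L + 1) * T * (TT s).card : ℝ)) ≤ S'.us ε' := by
      refine (FP.E_mono _ hpt).trans (le_of_eq ?_)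
      refine FP.E_congr _ fun s => ?_
      exact congrArg Nat.cast (congrArg Finset.card (by congr!))
    refine le_trans ?_ h7
    rw [FP.E_sub, FP.E_mul_left]
    have h8 : (0 : ℝ) ≤ (2 * L + 1) * T := by positivity
    have h9 := mul_le_mul_of_nonneg_left hETT h8
    calc (α - (2 * L + 1) * T * v ^ 100) * K = α * K - (2 * L + 1) * T * (v ^ 100 * K) := by ring
      _ ≤ _ := by linarith
  refine ⟨S'.st ε / K, div_nonneg hst0 hKpos.le, ?_, S', fun ε' => ?_, fun ε' => hus1 ε'⟩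
  · rw [div_le_iff₀ hKpos]
    exact hst3
  · by_cases hne : ε' = ε
    · subst hne
      rw [Function.update_self]
      exact (div_mul_cancel₀ _ hKpos.ne').symm
    · rw [Function.update_of_ne hne]
      exact hst1 ε' hne

end S4

end Pool.Agent.LongCyc.Dense
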