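import Pool.Agent.LongCyc.Dense.SysTriv0
import Pool.Agent.LongCyc.Dense.Join
import Pool.Agent.LongCyc.Dense.JoinLaw
import Pool.Agent.LongCyc.Dense.SysFld

/-!
# Dense regime: extension of a system by fresh directions without surgery
-/

set_option autoImplicit false
set_option linter.unusedSectionVars false

namespace Pool.Agent.LongCyc.Dense

open Finset

/-! ### Extension by fresh directions -/

section extend

variable {β δ μ : Type} [DecidableEq β] [Fintype β] [DecidableEq δ] [Fintype δ] [DecidableEq μ] [Fintype μ]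

theorem st5_canE_xr (z τ : Cube δ) (i : δ) :
    (canE δ).e (xr ((canE δ).e z i).1.1 τ) i = (canE δ).e (xr z τ) i := by
  apply Subtype.ext
  show (Function.update (xr (Function.update z i false) τ) i false, i) = (Function.update (xr z τ) i false, i)
  congr 1
  funext j
  by_cases h : j = i
  · subst h; simp
  · simp [h]

theorem st5_lawR_pr {X κ μ : Type} [Fintype X] [DecidableEq κ] [Fintype κ] [DecidableEq μ] [Fintype μ] (ν : Cube μ → FP X)
    {p1 : ℝ} {h0 : 0 ≤ p1} {h1 : p1 ≤ 1} (z : Cube μ) (A : X → Prop) :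
    (lawR κ ν p1 h0 h1).pr (fun s => A (s.1 z)) = (ν z).pr A := by
  classical
  rw [FP.pr_eq, lawR, FP.E_prod]
  have h2 : ∀ a : Cube μ → X, (bern p1 h0 h1 (Cube κ × CE μ)).E (fun b => if A ((a, b).1 z) then (1 : ℝ) else 0) =
      if A (a z) then 1 else 0 := by
    intro a
    by_cases h : A (a z) <;> simp [h]
  rw [FP.E_congr _ h2, FP.pr_eq]
  exact FP.E_pi_single ν z (fun ω => if A ω then 1 else 0)

variable {nR : ℕ} {pb : ℝ} {hb0 : 0 ≤ pb} {hb1 : pb ≤ 1}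
  {u0 α0 ρ : ℝ} {L Vr Bd0 M0 : ℕ} {B : BaseLaw β nR pb hb0 hb1 u0 α0 ρ L Vr Bd0 M0}
  {p1 : ℝ} {h0 : 0 ≤ p1} {h1 : p1 ≤ 1} {Bd : ℕ}

/-- the join of independent translated copies, without surgery -/
noncomputable def st5_sysJoin [Nonempty (β ⊕ δ)] (S : Sys B δ p1 h0 h1 Bd) (μ : Type) [DecidableEq μ] [Fintype μ] :
    Sys B (δ ⊕ μ) p1 h0 h1 Bd where
  Ω := Smp (S.Ω × Cube (β ⊕ δ)) (β ⊕ δ) μ
  fin := inferInstance
  P := lawR (β ⊕ δ) (fun z : Cube μ => nuS S.P z) p1 h0 h1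
  env := joinEnv (μ := μ) S.env
  law := joinEnv_law S.P S.env S.law
  c s x := (trc (S.c (s.1 (ps3 x)).1) (s.1 (ps3 x)).2 (pr3 x)).map fun v => jn3 v (ps3 x)
  U s := univ.filter fun x => pr3 x ∈ trS (S.U (s.1 (ps3 x)).1) (s.1 (ps3 x)).2
  val s := by
    have h := join_only (fun z q => (B.bd ((S.env (s.1 z).1).1 (xr q ((s.1 z).2 ∘ Sum.inr)))).tr ((s.1 z).2 ∘ Sum.inl))
      (fun z e => (S.env (s.1 z).1).2 (xr e.1 ((s.1 z).2 ∘ Sum.inl),
        (canE δ).e (xr e.2.1.1 ((s.1 z).2 ∘ Sum.inr)) e.2.1.2)) s.2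
      (fun z => trc (S.c (s.1 z).1) (s.1 z).2) (fun z => trS (S.U (s.1 z).1) (s.1 z).2)
      (fun z => (S.val (s.1 z).1).trans (s.1 z).2)
    convert h using 1
    · funext q
      show B.bd (B.act _ _) = _
      rw [B.act_bd]
      rfl
    · funext e
      obtain ⟨y, ⟨⟨q, i⟩, hq⟩⟩ := e
      rcases i with i | m
      · show (S.env (s.1 (q ∘ Sum.inr)).1).2 (xr y ((s.1 (q ∘ Sum.inr)).2 ∘ Sum.inl),
          (canE δ).e (xr (q ∘ Sum.inl) ((s.1 (q ∘ Sum.inr)).2 ∘ Sum.inr)) i) =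
          (S.env (s.1 (q ∘ Sum.inr)).1).2 (xr y ((s.1 (q ∘ Sum.inr)).2 ∘ Sum.inl),
          (canE δ).e (xr ((canE δ).e (q ∘ Sum.inl) i).1.1 ((s.1 (q ∘ Sum.inr)).2 ∘ Sum.inr)) i)
        rw [st5_canE_xr]
      · rfl

theorem st5_sysJoin_start [Nonempty (β ⊕ δ)] (S : Sys B δ p1 h0 h1 Bd) (s : Smp (S.Ω × Cube (β ⊕ δ)) (β ⊕ δ) μ)
    (x : Cube (β ⊕ (δ ⊕ μ))) :
    (∀ w, (st5_sysJoin S μ).c s w ≠ some x) ↔ ∀ w, trc (S.c (s.1 (ps3 x)).1) (s.1 (ps3 x)).2 w ≠ some (pr3 x) := by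
  constructor
  · intro h w hw
    apply h (jn3 w (ps3 x))
    show (trc (S.c (s.1 (ps3 (jn3 w (ps3 x)))).1) (s.1 (ps3 (jn3 w (ps3 x)))).2 (pr3 (jn3 w (ps3 x)))).map
      (fun v => jn3 v (ps3 (jn3 w (ps3 x)))) = some x
    rw [ps3_jn3, pr3_jn3, hw]
    show some (jn3 (pr3 x) (ps3 x)) = some x
    rw [jn3_self]
  · intro h w hw
    have hw' : (trc (S.c (s.1 (ps3 w)).1) (s.1 (ps3 w)).2 (pr3 w)).map (fun v => jn3 v (ps3 w)) = some x := hw
    rw [Option.map_eq_some_iff] at hw'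
    obtain ⟨v, hv, hvx⟩ := hw'
    apply h (pr3 w)
    rw [← hvx, ps3_jn3, pr3_jn3]
    exact hv

theorem HasSys.extend [Nonempty (β ⊕ δ)] {u : Bool → ℝ} {α : ℝ} (hS : HasSys B δ p1 h0 h1 Bd u α) :
    HasSys B (δ ⊕ μ) p1 h0 h1 Bd u α := by
  classical
  obtain ⟨S, hst, hus⟩ := hS
  have : Nonempty (β ⊕ (δ ⊕ μ)) := by
    obtain ⟨j⟩ := ‹Nonempty (β ⊕ δ)›
    rcases j with j | j
    · exact ⟨Sum.inl j⟩
    · exact ⟨Sum.inr (Sum.inl j)⟩
  have hN0 : (0 : ℝ) < 2 ^ (Fintype.card β + Fintype.card δ) / 2 := by positivity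
  have hpar : ∀ x : Cube (β ⊕ (δ ⊕ μ)), par2 (pr3 x) (ps3 x) = par x := by
    intro x
    rw [← par_jn3, jn3_self]
  refine ⟨st5_sysJoin S μ, fun ε => ?_, fun ε => ?_⟩
  · unfold Sys.st
    have e1 := st5_E_card_par (st5_sysJoin S μ).P ε (fun s (x : Cube (β ⊕ (δ ⊕ μ))) => ∀ w, (st5_sysJoin S μ).c s w ≠ some x)
    refine Eq.trans ?_ (e1.trans ?_)
    · refine FP.E_congr _ fun s => ?_
      congr
    have h4 : ∀ x ∈ univ.filter (fun x : Cube (β ⊕ (δ ⊕ μ)) => par x = ε),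
        (st5_sysJoin S μ).P.pr (fun s => ∀ w, (st5_sysJoin S μ).c s w ≠ some x) = u ε := by
      intro x hx
      have hx' : par x = ε := by simpa using hx
      have e2 : (fun s : (st5_sysJoin S μ).Ω => ∀ w, (st5_sysJoin S μ).c s w ≠ some x) =
          fun s => ∀ w, trc (S.c (s.1 (ps3 x)).1) (s.1 (ps3 x)).2 w ≠ some (pr3 x) := by
        funext s
        exact propext (st5_sysJoin_start S s x)
      rw [e2]
      have e3 := st5_lawR_pr (κ := β ⊕ δ) (fun z : Cube μ => nuS S.P z) (p1 := p1) (h0 := h0) (h1 := h1) (ps3 x)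
        (fun q : S.Ω × Cube (β ⊕ δ) => ∀ w, trc (S.c q.1) q.2 w ≠ some (pr3 x))
      refine e3.trans ?_
      rw [sys_st_pr S ε (pr3 x) (ps3 x) ((hpar x).trans hx'), hst ε]
      field_simp
    rw [Finset.sum_congr rfl h4, Finset.sum_const, nsmul_eq_mul, st5_card_par, Fintype.card_sum]
    ring
  · unfold Sys.us
    have e1 := st5_E_card_par (st5_sysJoin S μ).P ε (fun s (x : Cube (β ⊕ (δ ⊕ μ))) => x ∈ (st5_sysJoin S μ).U s)
    refine le_of_le_of_eq ?_ (e1.symm.trans ?_)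
    swap
    · refine FP.E_congr _ fun s => ?_
      congr
    have h4 : ∀ x ∈ univ.filter (fun x : Cube (β ⊕ (δ ⊕ μ)) => par x = ε),
        α ≤ (st5_sysJoin S μ).P.pr (fun s => x ∈ (st5_sysJoin S μ).U s) := by
      intro x hx
      have hx' : par x = ε := by simpa using hx
      have e2 : (fun s : (st5_sysJoin S μ).Ω => x ∈ (st5_sysJoin S μ).U s) =
          fun s => pr3 x ∈ trS (S.U (s.1 (ps3 x)).1) (s.1 (ps3 x)).2 := by
        funext s
        show (x ∈ univ.filter fun x => pr3 x ∈ trS (S.U (s.1 (ps3 x)).1) (s.1 (ps3 x)).2) = _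
        rw [Finset.mem_filter]
        simp
      rw [e2]
      have e3 := st5_lawR_pr (κ := β ⊕ δ) (fun z : Cube μ => nuS S.P z) (p1 := p1) (h0 := h0) (h1 := h1) (ps3 x)
        (fun q : S.Ω × Cube (β ⊕ δ) => pr3 x ∈ trS (S.U q.1) q.2)
      refine le_of_le_of_eq ?_ e3.symm
      rw [sys_us_pr S ε (pr3 x) (ps3 x) ((hpar x).trans hx'), le_div_iff₀ hN0]
      exact hus ε
    refine (le_of_eq ?_).trans (Finset.sum_le_sum h4)
    rw [Finset.sum_const, nsmul_eq_mul, st5_card_par]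
    simp only [Fintype.card_sum]
    ring

end extend

end Pool.Agent.LongCyc.Dense
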