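import Pool.Agent.LongCyc.Dense.SysIterAbs
import Pool.Agent.LongCyc.Dense.SysStep
import Pool.Agent.LongCyc.Dense.SysTriv

/-!
# Dense regime, section 5: the iteration
-/

set_option autoImplicit false

namespace Pool.Agent.LongCyc.Dense

open Finset

theorem exists_final_sys {α : ℝ} (hα : 0 < α) (hα1 : α ≤ 1) :
    ∃ (c : ℝ) (d0 : ℕ), 0 < c ∧ ∀ (β : Type) (_ : DecidableEq β) (_ : Fintype β) (d n nR Vr Bd0 M0 : ℕ) (p ρ : ℝ)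
      (hb0 : 0 ≤ 2 * p / 5) (hb1 : 2 * p / 5 ≤ 1) (h0 : 0 ≤ p / 5) (h1 : p / 5 ≤ 1), Fintype.card β = n →
      d0 ≤ d → 0 < p → p ≤ 1 / 10 → 5 * n ≤ d → 1 ≤ n →
      ∀ B : BaseLaw β nR (2 * p / 5) hb0 hb1 (1 / (d : ℝ) ^ 600) α ρ (d ^ 6 - 1) Vr Bd0 M0,
      ∃ u : Bool → ℝ, (∀ ε, 0 ≤ u ε ∧ u ε ≤ Real.exp (-c * (p * d))) ∧
        HasSys B (Fin (d - n)) (p / 5) h0 h1 (d ^ 100 * (Bd0 + 1)) u (α / 2) := by
  obtain ⟨c, d0, hc, hmain⟩ := sysIter_abs hα hα1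
  refine ⟨c, max d0 2, hc, ?_⟩
  intro β i1 i2 d n nR Vr Bd0 M0 p ρ hb0 hb1 h0 h1 hcard hd hp hp1 hn hn1 B
  have : Nonempty β := Fintype.card_pos_iff.1 (by omega)
  have hd2 : 2 ≤ d := (le_max_right _ _).trans hd
  have hL : 2 ≤ d ^ 6 - 1 := by
    have : 2 ^ 6 ≤ d ^ 6 := Nat.pow_le_pow_left hd2 6
    omega
  refine hmain d n Bd0 p ((le_max_left _ _).trans hd) hp hp1 hn
    (fun k Bd u a => HasSys B (Fin k) (p / 5) h0 h1 Bd u a) (hasSys_zero B _ _ _) ?_ ?_ ?_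
  · intro k Bd Bd' u a a' h hB ha
    exact h.mono hB ha
  · intro k m Bd u a h
    exact (h.extend (μ := Fin m)).equiv finSumFinEquiv
  · intro k Bd u a hBd ha ha1 h ε v hv m T t gp r hR
    obtain ⟨u', hu0, hu1, hs⟩ := sys_step hL hBd ha ha1 h ε hv gp r hR
    exact ⟨u', hu0, hu1, hs.equiv finSumFinEquiv⟩

end Pool.Agent.LongCyc.Dense
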