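import Pool.Agent.LongCyc.Dense.DenseParts
import Pool.Agent.LongCyc.Dense.SysIter
import Pool.Agent.LongCyc.Dense.BaseEx

/-!
# Dense regime: final assembly
-/

set_option autoImplicit false
set_option synthInstance.maxSize 1000

namespace Pool.Agent.LongCyc.Dense

open Finset

/-- the dense core -/
def DenseCore : Prop := ∃ (c K : ℝ) (d0 : ℕ), 0 < c ∧ ∀ (d : ℕ) (p : ℝ) (h0 : 0 ≤ p) (h1 : p ≤ 1), d0 ≤ d →
  K * Real.log d ≤ p * d → p ≤ 1 / 10 →
  1 - 1 / (d : ℝ) ≤ (bern p h0 h1 (CE (Fin d))).pr fun ω => LCyc ω ((1 - Real.exp (-c * (p * d))) * 2 ^ d)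

set_option maxHeartbeats 4000000 in
theorem denseCore : DenseCore := by
  classical
  obtain ⟨α, ρ, K1, CB, d1, hα, hα1, hρ, hρ1, hbase⟩ := exists_base
  obtain ⟨c, d2, hc, hsys⟩ := exists_final_sys hα hα1
  set R3 : ℝ := ρ ^ 3 with hR3
  have hR3p : 0 < R3 := by positivity
  have hR31 : R3 ≤ 1 := pow_le_one₀ hρ.le hρ1
  obtain ⟨c2, hc2, hc21, d3, hexp⟩ := expand_whp (c1 := R3 / 10) (by positivity)
  obtain ⟨n0, hmev⟩ := mev_whp
  obtain ⟨dA, hA⟩ := ev_poly 64 3 (a := 18 * R3 / 100) (by positivity)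
  obtain ⟨dB, hB⟩ := ev_poly 160 16 (a := R3 / 20) (by positivity)
  obtain ⟨dC, hC⟩ := ev_poly 160 16 (a := 1 / 2) (by norm_num)
  obtain ⟨dD, hD⟩ := ev_poly (4000 / R3) 10 (a := R3 / 10) (by positivity)
  obtain ⟨dE, hE⟩ := ev_poly (4000 / R3) 10 (a := 1 / 2) (by norm_num)
  obtain ⟨dF, hF⟩ := exists_nat_gt (10 / R3 + 1 / c2 ^ 2 + 6400)
  set K : ℝ := max (max K1 20) (4 * (110 + CB) / c) with hK
  set c' : ℝ := min (c / 4) (min (R3 / 2) 1) with hc'
  have hc'p : 0 < c' := by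
    rw [hc']
    exact lt_min (by positivity) (lt_min (by positivity) one_pos)
  have hc'1 : c' ≤ c / 4 := min_le_left _ _
  have hc'2 : c' ≤ R3 / 2 := (min_le_right _ _).trans (min_le_left _ _)
  have hc'3 : c' ≤ 1 := (min_le_right _ _).trans (min_le_right _ _)
  refine ⟨c', K, d1 + d2 + d3 + 2 * n0 + dA + dB + dC + dD + dE + dF, hc'p, ?_⟩
  intro d p h0 h1 hd hKd hp
  have hdF : (10 / R3 + 1 / c2 ^ 2 + 6400 : ℝ) < d := by
    refine hF.trans_le ?_
    exact_mod_cast (by omega : dF ≤ d)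
  have hq1 : 0 < 10 / R3 := by positivity
  have hq2 : 0 < 1 / c2 ^ 2 := by positivity
  have hd6400 : (6400 : ℝ) ≤ d := by linarith
  have hdN : 6400 ≤ d := by exact_mod_cast hd6400
  have hd0 : (0 : ℝ) < d := by linarith
  have hdR : 10 ≤ R3 * d := by
    have : 10 / R3 ≤ d := by linarith
    rwa [div_le_iff₀ hR3p, mul_comm] at this
  have hdc : 1 ≤ c2 ^ 2 * d := by
    have : 1 / c2 ^ 2 ≤ d := by linarith
    rwa [div_le_iff₀ (by positivity), mul_comm] at this
  have hlog : 1 ≤ Real.log d := by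
    rw [Real.le_log_iff_exp_le hd0]
    have := Real.exp_one_lt_d9
    linarith
  have hK1 : K1 * Real.log d ≤ p * d := by
    refine le_trans ?_ hKd
    exact mul_le_mul_of_nonneg_right ((le_max_left _ _).trans (le_max_left _ _)) (by linarith)
  have hK3 : 20 ≤ p * d := by
    refine le_trans ?_ hKd
    have h2 : (20 : ℝ) ≤ K := (le_max_right _ _).trans (le_max_left _ _)
    calc (20 : ℝ) = 20 * 1 := by norm_num
      _ ≤ K * Real.log d := mul_le_mul h2 hlog (by norm_num) (by linarith)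
  have hK2 : 4 * (110 + CB) / c * Real.log d ≤ p * d := by
    refine le_trans ?_ hKd
    exact mul_le_mul_of_nonneg_right (le_max_right _ _) (by linarith)
  set lam : ℝ := p * d with hlam
  have hcl : (110 + CB) * Real.log d ≤ c * lam / 4 := by
    have h2 : c / 4 * (4 * (110 + CB) / c * Real.log d) ≤ c / 4 * lam :=
      mul_le_mul_of_nonneg_left hK2 (by positivity)
    have h3 : c / 4 * (4 * (110 + (CB : ℝ)) / c * Real.log d) = (110 + CB) * Real.log d := by
      field_simp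
    rw [h3] at h2
    linarith
  have hlam0 : 0 < lam := by
    have h5 : 0 < c * lam / 4 := by
      refine lt_of_lt_of_le ?_ hcl
      positivity
    by_contra hcon
    push Not at hcon
    have := mul_nonpos_of_nonneg_of_nonpos hc.le hcon
    linarith
  have hp0 : 0 < p := by
    by_contra hcon
    push Not at hcon
    have : p * d ≤ 0 := mul_nonpos_of_nonpos_of_nonneg hcon hd0.le
    linarith
  -- the base law and the system
  obtain ⟨β, i1, i2, hb0, hb1, h5n, h1n, hlaw⟩ := hbase d p (by omega) hK1 hp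
  set n : ℕ := Fintype.card β with hn
  set nR : ℕ := d - n with hnR
  have hnd : n + nR = d := by omega
  have h4n : 4 * n ≤ nR := by omega
  have h45 : 4 * d ≤ 5 * nR := by omega
  obtain ⟨Bd0, hBd0, ⟨B⟩⟩ := hlaw nR (by omega)
  have h50 : 0 ≤ p / 5 := by positivity
  have h51 : p / 5 ≤ 1 := by linarith
  obtain ⟨u, hu, S, hSst, _⟩ := hsys β i1 i2 d n nR (d ^ 10) Bd0 (d ^ 4) p ρ hb0 hb1 h50 h51 rfl (by omega) hp0 hp
    h5n h1n B
  -- numbers
  set N : ℝ := 2 ^ d with hN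
  have hN0 : 0 < N := by positivity
  set X : ℝ := Real.exp (-(c * lam / 4)) with hX
  have hX0 : 0 < X := Real.exp_pos _
  have hX2 : X ^ 2 = Real.exp (-(c * lam / 2)) := by
    rw [hX, ← Real.exp_nat_mul]
    congr 1
    push_cast
    ring
  have hXd : X * (d : ℝ) ^ (110 + CB) ≤ 1 := by
    have h6 : (d : ℝ) ^ (110 + CB) = Real.exp ((110 + CB) * Real.log d) := by
      rw [mul_comm, Real.exp_mul, Real.exp_log hd0]
      rw [← Real.rpow_natCast]
      congr 1
      push_cast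
      ring
    rw [h6, hX, ← Real.exp_add, Real.exp_le_one_iff]
    linarith
  set s : ℝ := Real.exp (-(R3 / 10 * d)) with hs
  have hs0' : 0 < s := Real.exp_pos _
  have hNexp : Real.exp (6 / 10 * d) ≤ N := by
    have h6 : N = Real.exp (Real.log 2 * d) := by
      rw [hN, Real.exp_mul, Real.exp_log (by norm_num), Real.rpow_natCast]
    rw [h6]
    apply Real.exp_le_exp.2
    have := Real.log_two_gt_d9
    exact mul_le_mul_of_nonneg_right (by linarith) hd0.le
  have hNexp2 : Real.exp (1 / 2 * d) ≤ N := le_trans (Real.exp_le_exp.2 (by linarith)) hNexp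
  set σ : ℕ := ⌊N * X ^ 2⌋₊ with hσ
  have hσ1 : (σ : ℝ) ≤ N * X ^ 2 := Nat.floor_le (by positivity)
  set T : ℕ := ⌊R3 * nR / 4⌋₊ with hT
  have hnRr : (4 : ℝ) * d ≤ 5 * nR := by exact_mod_cast h45
  have hnRd : (nR : ℝ) ≤ d := by exact_mod_cast (by omega : nR ≤ d)
  have hT1 : (T : ℝ) ≤ R3 * nR / 4 := Nat.floor_le (by positivity)
  have hT2 : R3 / 10 * d ≤ T := by
    have h6 : R3 * nR / 4 < T + 1 := Nat.lt_floor_add_one _
    have h7 : R3 * (4 / 5 * d) ≤ R3 * nR := mul_le_mul_of_nonneg_left (by linarith) hR3p.le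
    have h8 : R3 * (4 / 5 * d) = 4 / 5 * (R3 * d) := by ring
    have h9 : R3 / 10 * d = 1 / 10 * (R3 * d) := by ring
    rw [h8] at h7
    rw [h9]
    linarith
  have h4d : (4 : ℝ) * d ≤ 2 ^ nR := by
    have h6 : ∀ k : ℕ, 5 ≤ k → 5 * k ≤ 2 ^ k := by
      intro k hk
      induction k, hk using Nat.le_induction with
      | base => norm_num
      | succ k hk ih => rw [pow_succ]; omega
    have h7 : 4 * d ≤ 2 ^ nR := h45.trans (h6 nR (by omega))
    exact_mod_cast h7
  have h4N : (4 : ℝ) * d ≤ N := by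
    refine h4d.trans ?_
    rw [hN]
    exact pow_le_pow_right₀ (by norm_num) (by omega)
  -- e^{-c lam / 2} is small
  have hX2d : X ^ 2 * (4 * d) ≤ 1 := by
    have h6 : X ≤ 1 := by
      rw [hX, Real.exp_le_one_iff]
      have := mul_pos hc hlam0
      linarith
    have h7 : (4 : ℝ) * d ≤ (d : ℝ) ^ (110 + CB) := by
      calc (4 : ℝ) * d ≤ d * d := mul_le_mul_of_nonneg_right (by linarith) hd0.le
        _ = (d : ℝ) ^ 2 := by ring
        _ ≤ (d : ℝ) ^ (110 + CB) := pow_le_pow_right₀ (by linarith) (by omega)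
    calc X ^ 2 * (4 * d) = X * (X * (4 * d)) := by ring
      _ ≤ 1 * (X * (d : ℝ) ^ (110 + CB)) := by
          apply mul_le_mul h6 _ (by positivity) (by norm_num)
          exact mul_le_mul_of_nonneg_left h7 hX0.le
      _ ≤ 1 := by linarith
  have hX2d20 : (d : ℝ) ^ 20 * X ^ 2 ≤ 1 := by
    have h7 : (d : ℝ) ^ 10 ≤ (d : ℝ) ^ (110 + CB) := pow_le_pow_right₀ (by linarith) (by omega)
    have h8 : (d : ℝ) ^ 10 * X ≤ 1 := by
      calc (d : ℝ) ^ 10 * X ≤ (d : ℝ) ^ (110 + CB) * X := mul_le_mul_of_nonneg_right h7 hX0.le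
        _ ≤ 1 := by linarith
    calc (d : ℝ) ^ 20 * X ^ 2 = ((d : ℝ) ^ 10 * X) ^ 2 := by ring
      _ ≤ 1 ^ 2 := pow_le_pow_left₀ (by positivity) h8 2
      _ = 1 := by norm_num
  have hq0 : (0 : ℝ) ≤ 1 / (4 * d) := by positivity
  have hq1' : (1 : ℝ) / (4 * d) ≤ 1 := by
    rw [div_le_one (by positivity)]
    linarith
  have hqp : (1 : ℝ) / (4 * d) ≤ p / 5 := by
    rw [div_le_div_iff₀ (by positivity) (by norm_num)]
    linarith
  have hcard : Fintype.card β + Fintype.card (Fin nR) = d := by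
    rw [Fintype.card_fin]
    exact hnd
  have hcard' : Fintype.card (β ⊕ Fin nR) = d := by
    rw [Fintype.card_sum, Fintype.card_fin]
    exact hnd
  have hsmallexp : s * N ≤ N / 2 := by
    have h6 := hD d (by omega)
    have h7 : (2 : ℝ) ≤ Real.exp (R3 / 10 * d) := by
      refine le_trans ?_ h6
      have h8 : (1 : ℝ) ≤ (d : ℝ) ^ 10 := one_le_pow₀ (by linarith)
      have h9 : (2 : ℝ) ≤ 4000 / R3 := by
        rw [le_div_iff₀ hR3p]
        linarith
      calc (2 : ℝ) = 2 * 1 := by norm_num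
        _ ≤ 4000 / R3 * (d : ℝ) ^ 10 := mul_le_mul h9 h8 (by norm_num) (by positivity)
    have h8 : s ≤ 1 / 2 := by
      rw [hs, Real.exp_neg, inv_le_comm₀ (Real.exp_pos _) (by norm_num)]
      simpa using h7
    calc s * N ≤ 1 / 2 * N := mul_le_mul_of_nonneg_right h8 hN0.le
      _ = N / 2 := by ring
  refine le_trans ?_ (layers_law (β := β) (δ := Fin nR) hcard h0 h1 hb0 hb1 h50 h51 hq0 hq1' hqp
    ((1 - Real.exp (-c' * (p * d))) * 2 ^ d))
  have key := dense_prob S (q := 1 / (4 * d)) (p3 := p / 5) hq0 hq1' h50 h51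
    ((1 - Real.exp (-c' * (p * d))) * 2 ^ d)
    (fun ω => (univ.filter fun x => ∀ w, S.c ω w ≠ some x).card ≤ σ)
    (fun b => ((badSet (Rsv B) T b).card : ℝ) ≤ s * N)
    (fun b r3 => MEv B.D0 (d ^ 6 - 1) (fun z => B.bd (b z)) r3)
    (fun ω w2 => ∃ Dt : LinkData (cG (S.c ω)) (hG (cG (S.c ω)) w2) (PI (fun z => B.bd ((S.env ω).1 z))) (d ^ 10),
      Dt.P = pcv (fun z => B.bd ((S.env ω).1 z)) (d ^ 10) ∧ Expands Dt.pg (1 + s * N) (c2 / d) ∧
      ∀ l : List (Cube (β ⊕ Fin nR)), l.Nodup → l.IsChain (cG (S.c ω)).Adj → l.length = d ^ 6 →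
        (∀ v ∈ l, v ∉ badSet (Rsv B) T (S.env ω).1) →
        ∃ v ∈ l, ∃ p i, (hG (cG (S.c ω)) w2).Adj v (pcv (fun z => B.bd ((S.env ω).1 z)) (d ^ 10) p i))
    ?_ (e1 := 1 / (4 * d)) (e2 := 1 / (4 * d)) (e3 := 1 / (4 * d)) (e4 := 1 / (4 * d)) (by positivity) ?_ ?_ ?_ ?_
  · refine le_trans (le_of_eq ?_) key
    field_simp
    ring
  · -- deterministic part
    intro ω w2 r3 hE1 hE2 hE3 hE4
    obtain ⟨Dt, hDt, hE4a, hE4b⟩ := hE4
    have hCBd : ((d ^ 100 * (Bd0 + 1) : ℕ) : ℝ) ≤ 2 * (d : ℝ) ^ (100 + CB) := by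
      have h6 : Bd0 + 1 ≤ 2 * d ^ CB := by
        have : 1 ≤ d ^ CB := Nat.one_le_pow _ _ (by omega)
        omega
      have h7 : d ^ 100 * (Bd0 + 1) ≤ 2 * d ^ (100 + CB) := by
        calc d ^ 100 * (Bd0 + 1) ≤ d ^ 100 * (2 * d ^ CB) := Nat.mul_le_mul_left _ h6
          _ = 2 * d ^ (100 + CB) := by rw [pow_add]; ring
      exact_mod_cast h7
    refine fin_det (β := β) (nR := nR) (Bd := d ^ 100 * (Bd0 + 1)) (CB1 := 2 * (d : ℝ) ^ (100 + CB))
      (W := (d : ℝ) ^ (105 + CB)) (X := X) (s := s) (c1 := R3 / 10) (c2 := c2) (T := T)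
      (Z := Real.exp (-c' * (p * d))) hnd (by omega) ?_ ?_ hdN (fun z => B.bd ((S.env ω).1 z))
      (fun z => B.val _) (S.env ω).2 r3 w2 (S.c ω) (S.U ω) (S.val ω) hE3 hX0 hs0' (by positivity) hc2 hc21 hdc ?_ hT2
      (badSet (Rsv B) T (S.env ω).1) hE2 (by rw [← hN]; exact hsmallexp) (Zdir β (Fin nR)) ?_ Dt hDt hE4a hE4b hE1 hCBd
      ?_ ?_ hX2d20 ?_ ?_ ?_ ?_ ?_
    · have : 2 ≤ d := by omega
      have h6 : d ≤ d ^ 6 := Nat.le_self_pow (by norm_num) d
      omega
    · have h6 : d ^ 6 ≤ d ^ 100 := Nat.pow_le_pow_right (by omega) (by norm_num)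
      have h7 : d ^ 100 ≤ d ^ 100 * (Bd0 + 1) := Nat.le_mul_of_pos_right _ (by omega)
      omega
    · linarith
    · intro x hx
      rw [pun_eq_Rall]
      exact not_mem_badSet (Rsv B) hx
    · -- W
      have e1 : (d : ℝ) ^ 21 ≤ (d : ℝ) ^ (104 + CB) := pow_le_pow_right₀ (by linarith) (by omega)
      have e2 : 40 * (d : ℝ) ^ 3 * (2 * (d : ℝ) ^ (100 + CB)) ≤ (d : ℝ) ^ (104 + CB) := by
        calc 40 * (d : ℝ) ^ 3 * (2 * (d : ℝ) ^ (100 + CB)) = 80 * (d : ℝ) ^ (103 + CB) := by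
              rw [show 103 + CB = 3 + (100 + CB) by omega, pow_add (d : ℝ) 3]
              ring
          _ ≤ d * (d : ℝ) ^ (103 + CB) := mul_le_mul_of_nonneg_right (by linarith) (by positivity)
          _ = (d : ℝ) ^ (104 + CB) := by rw [show 104 + CB = 103 + CB + 1 by omega, pow_succ]; ring
      calc (d : ℝ) ^ 21 + 40 * (d : ℝ) ^ 3 * (2 * (d : ℝ) ^ (100 + CB)) ≤ 2 * (d : ℝ) ^ (104 + CB) := by linarith
        _ ≤ d * (d : ℝ) ^ (104 + CB) := mul_le_mul_of_nonneg_right (by linarith) (by positivity)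
        _ = (d : ℝ) ^ (105 + CB) := by rw [show 105 + CB = 104 + CB + 1 by omega, pow_succ]; ring
    · -- W X
      have e1 : (d : ℝ) ^ (105 + CB) * 4 ≤ (d : ℝ) ^ (110 + CB) := by
        calc (d : ℝ) ^ (105 + CB) * 4 ≤ (d : ℝ) ^ (105 + CB) * d := mul_le_mul_of_nonneg_left (by linarith) (by positivity)
          _ = (d : ℝ) ^ (106 + CB) := by rw [show 106 + CB = 105 + CB + 1 by omega, pow_succ]
          _ ≤ (d : ℝ) ^ (110 + CB) := pow_le_pow_right₀ (by linarith) (by omega)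
      have e2 : (d : ℝ) ^ (105 + CB) * X * 4 ≤ 1 := by
        calc (d : ℝ) ^ (105 + CB) * X * 4 = ((d : ℝ) ^ (105 + CB) * 4) * X := by ring
          _ ≤ (d : ℝ) ^ (110 + CB) * X := mul_le_mul_of_nonneg_right e1 hX0.le
          _ ≤ 1 := by linarith
      linarith
    · -- X ≤ Z
      rw [hX]
      apply Real.exp_le_exp.2
      have : c' * lam ≤ c / 4 * lam := mul_le_mul_of_nonneg_right hc'1 hlam0.le
      rw [hlam] at this ⊢
      linarith
    · -- Z1
      have h6 := hC d (by omega)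
      refine h6.trans ?_
      have h7 : Real.exp (6 / 10 * d) * Real.exp (-(1 / 10 * d)) ≤ 2 ^ d * Real.exp (-c' * (p * d)) := by
        apply mul_le_mul hNexp _ (Real.exp_pos _).le (by positivity)
        apply Real.exp_le_exp.2
        have h8 : c' * (p * d) ≤ 1 * (1 / 10 * d) := by
          apply mul_le_mul hc'3 _ (by positivity) (by norm_num)
          exact mul_le_mul_of_nonneg_right hp hd0.le
        linarith
      refine le_trans (le_of_eq ?_) h7
      rw [← Real.exp_add]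
      congr 1
      ring
    · -- Z2
      have h6 := hB d (by omega)
      have h7 : 160 * (d : ℝ) ^ 16 * s ≤ Real.exp (R3 / 20 * d) * s := mul_le_mul_of_nonneg_right h6 hs0'.le
      refine h7.trans ?_
      rw [hs, ← Real.exp_add]
      apply Real.exp_le_exp.2
      have h8 : c' * (p * d) ≤ R3 / 2 * (1 / 10 * d) := by
        apply mul_le_mul hc'2 _ (by positivity) (by positivity)
        exact mul_le_mul_of_nonneg_right hp hd0.le
      linarith
    · -- ha1
      have h6 := (hE d (by omega)).trans hNexp2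
      have h7 : 4000 / R3 * (d : ℝ) ^ 10 * (R3 / 10) ≤ N * (R3 / 10) := mul_le_mul_of_nonneg_right h6 (by positivity)
      have h8 : 4000 / R3 * (d : ℝ) ^ 10 * (R3 / 10) = 400 * (d : ℝ) ^ 10 := by field_simp; ring
      rw [h8] at h7
      linarith
    · -- ha2
      have h6 := hD d (by omega)
      have h7 : 4000 / R3 * (d : ℝ) ^ 10 * (R3 / 10) * s ≤ Real.exp (R3 / 10 * d) * (R3 / 10) * s :=
        mul_le_mul_of_nonneg_right (mul_le_mul_of_nonneg_right h6 (by positivity)) hs0'.le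
      have h8 : 4000 / R3 * (d : ℝ) ^ 10 * (R3 / 10) = 400 * (d : ℝ) ^ 10 := by field_simp; ring
      have h9 : Real.exp (R3 / 10 * d) * (R3 / 10) * s = R3 / 10 := by
        rw [hs, mul_comm (Real.exp (R3 / 10 * d)), mul_assoc, ← Real.exp_add]
        simp
      rw [h8, h9] at h7
      exact h7
  · -- number of starts
    refine fin_starts S (by positivity) ?_
    rw [hSst, hSst, hcard]
    have h6 : u true ≤ X ^ 4 ∧ u false ≤ X ^ 4 := by
      have h7 : X ^ 4 = Real.exp (-c * (p * d)) := by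
        rw [hX, ← Real.exp_nat_mul]
        congr 1
        push_cast
        rw [hlam]
        ring
      rw [h7]
      exact ⟨(hu true).2, (hu false).2⟩
    have h8 : 1 / (4 * (d : ℝ)) ≥ X ^ 2 := by
      rw [ge_iff_le, le_div_iff₀ (by positivity)]
      exact hX2d
    calc u true * (2 ^ d / 2) + u false * (2 ^ d / 2) ≤ X ^ 4 * (2 ^ d / 2) + X ^ 4 * (2 ^ d / 2) := by
          have : (0 : ℝ) ≤ 2 ^ d / 2 := by positivity
          exact add_le_add (mul_le_mul_of_nonneg_right h6.1 this) (mul_le_mul_of_nonneg_right h6.2 this)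
      _ = X ^ 2 * (N * X ^ 2) := by rw [hN]; ring
      _ ≤ 1 / (4 * d) * (N * X ^ 2) := mul_le_mul_of_nonneg_right h8 (by positivity)
  · -- bad points
    exact fin_bad B hρ.le hρ1 (by omega) hnd h45 hT1 (hA d (by omega))
  · -- merging event
    refine (hmev β i1 i2 nR (d ^ 6 - 1) (d ^ 10) Bd0 (d ^ 4) (2 * p / 5) (1 / (d : ℝ) ^ 600) α ρ (p / 5) hb0 hb1 h50 h51
      B (by omega) h4n ?_).trans ?_
    · push_cast
      have h6 : (400 : ℝ) ≤ (p * d) ^ 2 := by
        calc (400 : ℝ) = 20 ^ 2 := by norm_num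
          _ ≤ (p * d) ^ 2 := pow_le_pow_left₀ (by norm_num) hK3 2
      have h7 : (d : ℝ) ^ 4 * (p / 5) ^ 2 = (d : ℝ) ^ 2 * (p * d) ^ 2 / 25 := by ring
      rw [h7]
      have h8 : (nR : ℝ) ≤ (d : ℝ) ^ 2 := hnRd.trans (le_self_pow₀ (by linarith) (by norm_num))
      have h9 : (d : ℝ) ^ 2 * 400 ≤ (d : ℝ) ^ 2 * (p * d) ^ 2 := mul_le_mul_of_nonneg_left h6 (by positivity)
      linarith
    · rw [one_div_pow]
      exact one_div_le_one_div_of_le (by positivity) h4d
  · -- expansion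
    intro ω hω
    refine (hexp (β ⊕ Fin nR) _ _ d T (Zdir β (Fin nR)) (badSet (Rsv B) T (S.env ω).1) (cG (S.c ω))
      (PI (fun z => B.bd ((S.env ω).1 z))) _ _ (pcv (fun z => B.bd ((S.env ω).1 z)) (d ^ 10)) (1 + s * N) hq0 hq1'
      hcard' (by omega) hT2 ?_ ?_ ?_ ?_ ?_ ?_).trans ?_
    · rintro u' v' ⟨_, h6 | h6⟩
      · exact (S.val ω).ne (fun z => B.val _) h6
      · obtain ⟨i, hi⟩ := (S.val ω).ne (fun z => B.val _) h6
        exact ⟨i, by rw [hi]; simp⟩
    · intro v'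
      have := cG_deg (S.c ω) (S.val ω).inj v'
      convert this
    · exact pcs_sys ((by omega : 2 ≤ d).trans (Nat.le_self_pow (by norm_num) d)) (fun z => B.val _) (S.val ω)
    · intro x hx
      rw [pun_eq_Rall]
      exact not_mem_badSet (Rsv B) hx
    · have : 0 ≤ s * N := by positivity
      linarith
    · have h6 : (1 : ℝ) ≤ c2 * (d : ℝ) ^ 9 := by
        have h7 : c2 ^ 2 * d ≤ c2 * (d : ℝ) ^ 9 := by
          have h8 : c2 ^ 2 ≤ c2 := pow_le_of_le_one hc2.le hc21 (by norm_num)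
          have h9 : (d : ℝ) ≤ (d : ℝ) ^ 9 := le_self_pow₀ (by linarith) (by norm_num)
          exact mul_le_mul h8 h9 hd0.le hc2.le
        linarith
      calc (d : ℝ) * ((badSet (Rsv B) T (S.env ω).1).card : ℝ) ≤ d * (s * N) := mul_le_mul_of_nonneg_left hω hd0.le
        _ ≤ d * (1 + s * N) * (c2 * (d : ℝ) ^ 9) := by
            have h7 : 0 ≤ d * (1 + s * N) := by positivity
            have h8 : d * (s * N) ≤ d * (1 + s * N) := mul_le_mul_of_nonneg_left (by linarith) hd0.le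
            exact h8.trans (le_mul_of_one_le_right h7 h6)
        _ = c2 * ((1 + s * N) * (d : ℝ) ^ 10) := by ring
    · rw [one_div_pow]
      exact one_div_le_one_div_of_le (by positivity) h4N

end Pool.Agent.LongCyc.Dense
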