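import Mathlib

/-!
# Dense regime: elementary asymptotics for the final assembly
-/

set_option autoImplicit false

namespace Pool.Agent.LongCyc.Dense

open Filter

/-- polynomials are eventually below exponentials -/
theorem ev_poly (C : ℝ) (k : ℕ) {a : ℝ} (ha : 0 < a) : ∃ d0 : ℕ, ∀ d : ℕ, d0 ≤ d →
    C * (d : ℝ) ^ k ≤ Real.exp (a * d) := by
  have h1 : Tendsto (fun x : ℝ => x ^ k * Real.exp (-x)) atTop (nhds 0) :=
    Real.tendsto_pow_mul_exp_neg_atTop_nhds_zero k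
  have h2 : Tendsto (fun d : ℕ => a * (d : ℝ)) atTop atTop :=
    Tendsto.const_mul_atTop ha tendsto_natCast_atTop_atTop
  have h3 := (h1.comp h2).const_mul (|C| / a ^ k)
  rw [mul_zero] at h3
  have h4 := h3.eventually (gt_mem_nhds (show (0 : ℝ) < 1 by norm_num))
  obtain ⟨d0, hd0⟩ := eventually_atTop.1 h4
  refine ⟨d0, fun d hd => ?_⟩
  have h5 := hd0 d hd
  simp only [Function.comp] at h5
  have h6 : |C| / a ^ k * ((a * d) ^ k * Real.exp (-(a * d))) = |C| * (d : ℝ) ^ k * Real.exp (-(a * d)) := by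
    rw [mul_pow]
    field_simp
  rw [h6] at h5
  have h7 : |C| * (d : ℝ) ^ k < Real.exp (a * d) := by
    have h8 : |C| * (d : ℝ) ^ k * Real.exp (-(a * d)) * Real.exp (a * d) < 1 * Real.exp (a * d) :=
      mul_lt_mul_of_pos_right h5 (Real.exp_pos _)
    rw [mul_assoc, ← Real.exp_add, neg_add_cancel, Real.exp_zero, mul_one, one_mul] at h8
    exact h8
  refine le_trans ?_ h7.le
  exact mul_le_mul_of_nonneg_right (le_abs_self C) (by positivity)

end Pool.Agent.LongCyc.Dense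

namespace Pool.Agent.LongCyc.Dense

/-- the error terms of the deterministic assembly -/
theorem num_err {d N X s c2 σ k0 s0 Xb Bd W CB1 : ℝ} (hd : 1040 ≤ d) (hN : 0 < N) (hX : 0 < X) (hs : 0 < s)
    (hc2 : 0 < c2) (hc21 : c2 ≤ 1) (hdc : 1 ≤ c2 ^ 2 * d) (hσ0 : 0 ≤ σ) (hσ : σ ≤ N * X ^ 2) (hk00 : 0 ≤ k0)
    (hk0 : k0 * c2 ≤ 3 * d ^ 2) (hs0 : s0 = 1 + s * N) (hXb : Xb ≤ s * N) (hBd0 : 0 ≤ Bd) (hBd : Bd ≤ CB1)
    (hCB : d ^ 21 + 40 * d ^ 3 * CB1 ≤ W) (hWX : W * X ≤ 1 / 4) {Z : ℝ} (hZX : X ≤ Z)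
    (hZ1 : 160 * d ^ 16 ≤ N * Z) (hZ2 : 160 * d ^ 16 * s ≤ Z) :
    20 * d ^ 6 * (d ^ 10 * (2 * σ * (2 * k0 + 4) + max s0 (2 / (c2 / d) * (2 * σ * (2 * k0 + 2)))) + Xb) +
      2 * (2 * σ) * (2 * k0 + 4) * Bd ≤ N * Z := by
  have hd0 : 0 < d := by linarith
  have hNX : 0 ≤ N * X ^ 2 := by positivity
  -- k0 ≤ 3 d^3
  have hinv : 1 / c2 ≤ d := by
    rw [div_le_iff₀ hc2]
    nlinarith
  have hk1 : k0 ≤ 3 * d ^ 3 := by
    have h1 : k0 ≤ 3 * d ^ 2 * (1 / c2) := by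
      rw [mul_one_div, le_div_iff₀ hc2]
      exact hk0
    have h2 : 3 * d ^ 2 * (1 / c2) ≤ 3 * d ^ 2 * d := mul_le_mul_of_nonneg_left hinv (by positivity)
    calc k0 ≤ _ := h1
      _ ≤ _ := h2
      _ = 3 * d ^ 3 := by ring
  have hk2 : 2 * k0 + 4 ≤ 10 * d ^ 3 := by
    have : (1 : ℝ) ≤ d ^ 3 := one_le_pow₀ (by linarith)
    linarith
  have hA : 2 * σ * (2 * k0 + 4) ≤ 20 * d ^ 3 * (N * X ^ 2) := by
    calc 2 * σ * (2 * k0 + 4) ≤ 2 * (N * X ^ 2) * (10 * d ^ 3) :=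
          mul_le_mul (by linarith) hk2 (by linarith) (by positivity)
      _ = _ := by ring
  -- (2 d / c2) (2 σ) (2 k0 + 2)
  have hB : 2 / (c2 / d) * (2 * σ * (2 * k0 + 2)) ≤ 32 * d ^ 4 * (N * X ^ 2) := by
    have h1 : 2 / (c2 / d) = 2 * d * (1 / c2) := by field_simp
    have h2 : (1 / c2) * (2 * k0 + 2) ≤ 8 * d ^ 3 := by
      -- (1/c2) k0 ≤ 3 d^2 / c2^2 ≤ 3 d^3
      have h3 : (1 / c2) * k0 ≤ 3 * d ^ 3 := by
        have h4 : (1 / c2) * k0 * c2 ^ 2 ≤ 3 * d ^ 2 := by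
          have : (1 / c2) * k0 * c2 ^ 2 = k0 * c2 := by field_simp
          rw [this]; exact hk0
        have h5 : (1 / c2) * k0 ≤ (1 / c2) * k0 * (c2 ^ 2 * d) :=
          le_mul_of_one_le_right (by positivity) hdc
        calc (1 / c2) * k0 ≤ (1 / c2) * k0 * (c2 ^ 2 * d) := h5
          _ = ((1 / c2) * k0 * c2 ^ 2) * d := by ring
          _ ≤ (3 * d ^ 2) * d := mul_le_mul_of_nonneg_right h4 hd0.le
          _ = 3 * d ^ 3 := by ring
      have h6 : (1 / c2) * 2 ≤ 2 * d ^ 3 := by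
        have : d ≤ d ^ 3 := le_self_pow₀ (by linarith) (by norm_num)
        nlinarith
      calc (1 / c2) * (2 * k0 + 2) = 2 * ((1 / c2) * k0) + (1 / c2) * 2 := by ring
        _ ≤ 2 * (3 * d ^ 3) + 2 * d ^ 3 := by linarith
        _ = 8 * d ^ 3 := by ring
    rw [h1]
    calc 2 * d * (1 / c2) * (2 * σ * (2 * k0 + 2)) = (4 * d * σ) * ((1 / c2) * (2 * k0 + 2)) := by ring
      _ ≤ (4 * d * (N * X ^ 2)) * (8 * d ^ 3) := by
          apply mul_le_mul _ h2 (by positivity) (by positivity)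
          exact mul_le_mul_of_nonneg_left hσ (by positivity)
      _ = _ := by ring
  have hmax : max s0 (2 / (c2 / d) * (2 * σ * (2 * k0 + 2))) ≤ s0 + 32 * d ^ 4 * (N * X ^ 2) := by
    apply max_le
    · have : 0 ≤ 32 * d ^ 4 * (N * X ^ 2) := by positivity
      linarith
    · have : 0 ≤ s0 := by rw [hs0]; positivity
      linarith
  have h7 : 20 * d ^ 6 * (d ^ 10 * (2 * σ * (2 * k0 + 4) + max s0 (2 / (c2 / d) * (2 * σ * (2 * k0 + 2)))) + Xb) ≤
      20 * d ^ 6 * (d ^ 10 * (20 * d ^ 3 * (N * X ^ 2) + (s0 + 32 * d ^ 4 * (N * X ^ 2))) + s * N) := by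
    apply mul_le_mul_of_nonneg_left _ (by positivity)
    have : d ^ 10 * (2 * σ * (2 * k0 + 4) + max s0 (2 / (c2 / d) * (2 * σ * (2 * k0 + 2)))) ≤
        d ^ 10 * (20 * d ^ 3 * (N * X ^ 2) + (s0 + 32 * d ^ 4 * (N * X ^ 2))) :=
      mul_le_mul_of_nonneg_left (by linarith) (by positivity)
    linarith
  have h8 : 2 * (2 * σ) * (2 * k0 + 4) * Bd ≤ 40 * d ^ 3 * (N * X ^ 2) * CB1 := by
    calc 2 * (2 * σ) * (2 * k0 + 4) * Bd = 2 * (2 * σ * (2 * k0 + 4)) * Bd := by ring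
      _ ≤ 2 * (20 * d ^ 3 * (N * X ^ 2)) * CB1 := by
          apply mul_le_mul _ hBd hBd0 (by positivity)
          linarith
      _ = _ := by ring
  have h9 : 20 * d ^ 6 * (d ^ 10 * (20 * d ^ 3 * (N * X ^ 2) + (s0 + 32 * d ^ 4 * (N * X ^ 2))) + s * N) ≤
      d ^ 21 * (N * X ^ 2) + 40 * d ^ 16 * (1 + s * N) := by
    rw [hs0]
    have e1 : d ^ 19 ≤ d ^ 20 := pow_le_pow_right₀ (by linarith) (by norm_num)
    have e2 : 1040 * d ^ 20 ≤ d ^ 21 := by
      calc 1040 * d ^ 20 ≤ d * d ^ 20 := mul_le_mul_of_nonneg_right hd (by positivity)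
        _ = d ^ 21 := by ring
    have e3 : 20 * d ^ 6 * (s * N) ≤ 20 * d ^ 16 * (1 + s * N) := by
      have h10 : d ^ 6 ≤ d ^ 16 := pow_le_pow_right₀ (by linarith) (by norm_num)
      have h11 : 0 ≤ s * N := by positivity
      calc 20 * d ^ 6 * (s * N) ≤ 20 * d ^ 16 * (s * N) := by
            apply mul_le_mul_of_nonneg_right _ h11; linarith
        _ ≤ 20 * d ^ 16 * (1 + s * N) := by
            apply mul_le_mul_of_nonneg_left _ (by positivity); linarith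
    have e4 : (400 * d ^ 19 + 640 * d ^ 20) * (N * X ^ 2) ≤ d ^ 21 * (N * X ^ 2) := by
      apply mul_le_mul_of_nonneg_right _ hNX
      linarith
    calc 20 * d ^ 6 * (d ^ 10 * (20 * d ^ 3 * (N * X ^ 2) + (1 + s * N + 32 * d ^ 4 * (N * X ^ 2))) + s * N)
        = (400 * d ^ 19 + 640 * d ^ 20) * (N * X ^ 2) + 20 * d ^ 16 * (1 + s * N) + 20 * d ^ 6 * (s * N) := by ring
      _ ≤ d ^ 21 * (N * X ^ 2) + 20 * d ^ 16 * (1 + s * N) + 20 * d ^ 16 * (1 + s * N) := by linarith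
      _ = _ := by ring
  have h10 : d ^ 21 * (N * X ^ 2) + 40 * d ^ 3 * (N * X ^ 2) * CB1 ≤ N * Z / 4 := by
    have h11 : (d ^ 21 + 40 * d ^ 3 * CB1) * (N * X ^ 2) ≤ W * (N * X ^ 2) :=
      mul_le_mul_of_nonneg_right hCB hNX
    calc d ^ 21 * (N * X ^ 2) + 40 * d ^ 3 * (N * X ^ 2) * CB1 = (d ^ 21 + 40 * d ^ 3 * CB1) * (N * X ^ 2) := by ring
      _ ≤ W * (N * X ^ 2) := h11
      _ = (W * X) * (N * X) := by ring
      _ ≤ (1 / 4) * (N * X) := mul_le_mul_of_nonneg_right hWX (by positivity)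
      _ ≤ (1 / 4) * (N * Z) := by
          apply mul_le_mul_of_nonneg_left _ (by norm_num)
          exact mul_le_mul_of_nonneg_left hZX hN.le
      _ = N * Z / 4 := by ring
  have h12 : 40 * d ^ 16 * (1 + s * N) ≤ N * Z / 2 := by
    have h13 : 40 * d ^ 16 ≤ N * Z / 4 := by linarith
    have h14 : 40 * d ^ 16 * (s * N) ≤ N * Z / 4 := by
      calc 40 * d ^ 16 * (s * N) = (160 * d ^ 16 * s) * N / 4 := by ring
        _ ≤ Z * N / 4 := by
            apply div_le_div_of_nonneg_right _ (by norm_num)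
            exact mul_le_mul_of_nonneg_right hZ2 hN.le
        _ = N * Z / 4 := by ring
    linarith
  have hNZ : 0 ≤ N * Z := by
    have : 0 < Z := lt_of_lt_of_le hX hZX
    positivity
  linarith

/-- the connectors are few compared with the pieces -/
theorem num_small {d N X s c1 c2 σ k0 s0 PP : ℝ} (hd : 6400 ≤ d) (hN : 0 < N) (hX : 0 < X)
    (hc1 : 0 < c1) (hc2 : 0 < c2) (hc21 : c2 ≤ 1) (hdc : 1 ≤ c2 ^ 2 * d) (hdc1 : 1 ≤ c1 * d) (hσ0 : 0 ≤ σ)
    (hσ : σ ≤ N * X ^ 2) (hk00 : 0 ≤ k0) (hk0 : k0 * c2 ≤ 3 * d ^ 2) (hs0 : s0 = 1 + s * N)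
    (hPP : c1 * N ≤ 2 * d ^ 10 * PP) (hX2 : d ^ 20 * X ^ 2 ≤ 1) (h1 : 400 * d ^ 10 ≤ c1 * N)
    (h2 : 400 * d ^ 10 * s ≤ c1) :
    100 * max s0 (2 / (c2 / d) * (2 * σ * (2 * k0 + 2))) ≤ PP := by
  have hd0 : 0 < d := by linarith
  have hNX : 0 ≤ N * X ^ 2 := by positivity
  have hd10 : 0 < d ^ 10 := by positivity
  rw [mul_max_of_nonneg _ _ (by norm_num)]
  apply max_le
  · have h3 : 2 * d ^ 10 * (100 * s0) ≤ 2 * d ^ 10 * PP := by
      refine le_trans ?_ hPP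
      rw [hs0]
      have : 2 * d ^ 10 * (100 * (1 + s * N)) = (400 * d ^ 10) / 2 + (400 * d ^ 10 * s) * N / 2 := by ring
      rw [this]
      have h4 : (400 * d ^ 10 * s) * N ≤ c1 * N := mul_le_mul_of_nonneg_right h2 hN.le
      linarith
    exact le_of_mul_le_mul_left h3 (by positivity)
  · have hinv : 1 / c2 ≤ d := by
      rw [div_le_iff₀ hc2]
      nlinarith
    have hB : 2 / (c2 / d) * (2 * σ * (2 * k0 + 2)) ≤ 32 * d ^ 4 * (N * X ^ 2) := by
      have h1 : 2 / (c2 / d) = 2 * d * (1 / c2) := by field_simp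
      have h2 : (1 / c2) * (2 * k0 + 2) ≤ 8 * d ^ 3 := by
        have h3 : (1 / c2) * k0 ≤ 3 * d ^ 3 := by
          have h4 : (1 / c2) * k0 * c2 ^ 2 ≤ 3 * d ^ 2 := by
            have : (1 / c2) * k0 * c2 ^ 2 = k0 * c2 := by field_simp
            rw [this]; exact hk0
          have h5 : (1 / c2) * k0 ≤ (1 / c2) * k0 * (c2 ^ 2 * d) :=
            le_mul_of_one_le_right (by positivity) hdc
          calc (1 / c2) * k0 ≤ (1 / c2) * k0 * (c2 ^ 2 * d) := h5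
            _ = ((1 / c2) * k0 * c2 ^ 2) * d := by ring
            _ ≤ (3 * d ^ 2) * d := mul_le_mul_of_nonneg_right h4 hd0.le
            _ = 3 * d ^ 3 := by ring
        have h6 : (1 / c2) * 2 ≤ 2 * d ^ 3 := by
          have : d ≤ d ^ 3 := le_self_pow₀ (by linarith) (by norm_num)
          nlinarith
        calc (1 / c2) * (2 * k0 + 2) = 2 * ((1 / c2) * k0) + (1 / c2) * 2 := by ring
          _ ≤ 2 * (3 * d ^ 3) + 2 * d ^ 3 := by linarith
          _ = 8 * d ^ 3 := by ring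
      rw [h1]
      calc 2 * d * (1 / c2) * (2 * σ * (2 * k0 + 2)) = (4 * d * σ) * ((1 / c2) * (2 * k0 + 2)) := by ring
        _ ≤ (4 * d * (N * X ^ 2)) * (8 * d ^ 3) := by
            apply mul_le_mul _ h2 (by positivity) (by positivity)
            exact mul_le_mul_of_nonneg_left hσ (by positivity)
        _ = _ := by ring
    have h3 : 2 * d ^ 10 * (100 * (2 / (c2 / d) * (2 * σ * (2 * k0 + 2)))) ≤ 2 * d ^ 10 * PP := by
      refine le_trans ?_ hPP
      calc 2 * d ^ 10 * (100 * (2 / (c2 / d) * (2 * σ * (2 * k0 + 2))))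
          ≤ 2 * d ^ 10 * (100 * (32 * d ^ 4 * (N * X ^ 2))) := by
            apply mul_le_mul_of_nonneg_left _ (by positivity)
            linarith
        _ = 6400 * d ^ 14 * (N * X ^ 2) := by ring
        _ ≤ d * d ^ 14 * (N * X ^ 2) := by
            apply mul_le_mul_of_nonneg_right _ hNX
            exact mul_le_mul_of_nonneg_right hd (by positivity)
        _ = (d ^ 15 * X ^ 2) * N := by ring
        _ ≤ c1 * N := by
            apply mul_le_mul_of_nonneg_right _ hN.le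
            -- d^15 X^2 ≤ d^{-5} ≤ c1
            have h4 : d ^ 15 * X ^ 2 * d ≤ c1 * d := by
              refine le_trans ?_ hdc1
              refine le_trans ?_ hX2
              calc d ^ 15 * X ^ 2 * d = d ^ 16 * X ^ 2 := by ring
                _ ≤ d ^ 20 * X ^ 2 := by
                    apply mul_le_mul_of_nonneg_right _ (by positivity)
                    exact pow_le_pow_right₀ (by linarith) (by norm_num)
            exact le_of_mul_le_mul_right h4 hd0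
    exact le_of_mul_le_mul_left h3 (by positivity)

end Pool.Agent.LongCyc.Dense
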