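import Pool.Agent.LongCyc.Dense.DenseProb
import Pool.Agent.LongCyc.Dense.DenseNum

/-!
# Dense regime: the five parts of the final assembly
-/

set_option autoImplicit false
set_option synthInstance.maxSize 1000

namespace Pool.Agent.LongCyc.Dense

open Finset

/-- size of the reservoir -/
theorem reservoir_card {ι : Type} [DecidableEq ι] [Fintype ι] (Zd : Finset ι) (T : ℕ) (R Bad : Finset (Cube ι))
    [Nonempty ι] (hgood : ∀ x, x ∉ Bad → GoodPt Zd T R x) :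
    T * (2 ^ Fintype.card ι - Bad.card) ≤ Fintype.card ι * R.card := by
  obtain ⟨i0⟩ := ‹Nonempty ι›
  have h1 : ∀ x, x ∉ Bad → T ≤ nb Zd R x := by
    intro x hx
    refine ((hgood x hx).2 i0).trans (Finset.card_le_card ?_)
    intro j hj
    simp only [Finset.mem_filter] at hj ⊢
    exact ⟨hj.1, hj.2.1⟩
  have h2 : ∑ x ∈ univ \ Bad, T ≤ ∑ x, nb Zd R x :=
    (Finset.sum_le_sum fun x hx => h1 x (by simpa using hx)).trans
      (Finset.sum_le_sum_of_subset (Finset.subset_univ _))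
  rw [sum_nb, Finset.sum_const, smul_eq_mul, Finset.card_sdiff_of_subset (Finset.subset_univ _),
    Finset.card_univ] at h2
  have h3 : Fintype.card (Cube ι) = 2 ^ Fintype.card ι := by simp
  rw [h3, mul_comm] at h2
  exact h2.trans (Nat.mul_le_mul_right _ (Finset.card_le_univ _))

section parts

variable {β : Type} [DecidableEq β] [Fintype β] {nR : ℕ} {pb : ℝ} {hb0 : 0 ≤ pb} {hb1 : pb ≤ 1}
  {u0 α0 ρ : ℝ} {L Vr Bd0 M0 : ℕ} {B : BaseLaw β nR pb hb0 hb1 u0 α0 ρ L Vr Bd0 M0}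
  {δ : Type} [DecidableEq δ] [Fintype δ] {p1 : ℝ} {h0 : 0 ≤ p1} {h1 : p1 ≤ 1} {Bd : ℕ}

open Classical in
/-- number of starts -/
theorem fin_starts (S : Sys B δ p1 h0 h1 Bd) {NX e : ℝ} (hNX : 0 < NX) (he : S.st true + S.st false ≤ e * NX) :
    S.P.pr (fun ω => ¬ (univ.filter fun x => ∀ w, S.c ω w ≠ some x).card ≤ ⌊NX⌋₊) ≤ e := by
  have h2 := S.P.markov (f := fun ω => ((univ.filter fun x => ∀ w, S.c ω w ≠ some x).card : ℝ))
    (fun ω => Nat.cast_nonneg _) hNX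
  rw [sys_starts] at h2
  refine (FP.pr_mono _ fun ω h => ?_).trans (h2.trans ?_)
  · push Not at h
    exact ((Nat.floor_lt hNX.le).1 h).le
  · rw [div_le_iff₀ hNX]
    exact he

/-- number of bad points -/
theorem fin_bad (B : BaseLaw β nR pb hb0 hb1 u0 α0 ρ L Vr Bd0 M0) (hρ : 0 ≤ ρ) (hρ1 : ρ ≤ 1) {d : ℕ} (hd : 1 ≤ d)
    (hn : Fintype.card β + nR = d) (hnR : 4 * d ≤ 5 * nR) {T : ℕ} (hT : (T : ℝ) ≤ ρ ^ 3 * nR / 4)
    (hA : 64 * (d : ℝ) ^ 3 ≤ Real.exp (18 * ρ ^ 3 / 100 * d)) :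
    (FP.pi fun _ : Cube (Fin nR) => B.μ).pr (fun b =>
      ¬ ((badSet (Rsv B) T b).card : ℝ) ≤ Real.exp (-(ρ ^ 3 / 10 * d)) * 2 ^ d) ≤ 1 / (4 * d) := by
  have hs : 0 < Real.exp (-(ρ ^ 3 / 10 * d)) := Real.exp_pos _
  have h2 := bad_prob (κ := β) (μ := Fin nR) B.μ (Rsv B) hρ hρ1
    (fun y => (B.resv y).trans (FP.pr_mono _ fun w hw => mem_Rsv.2 hw))
    (fun y k => (B.resv2 y k).trans (FP.pr_mono _ fun w hw => ⟨mem_Rsv.2 hw.1, mem_Rsv.2 hw.2⟩)) T hs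
  rw [Fintype.card_fin, hn] at h2
  refine (FP.pr_mono _ fun b hb => ?_).trans (h2.trans ?_)
  · push Not at hb
    exact hb
  · have hR0 : 0 ≤ ρ ^ 3 := by positivity
    have hR1 : ρ ^ 3 ≤ 1 := pow_le_one₀ hρ hρ1
    have hd0 : (0 : ℝ) < d := by exact_mod_cast hd
    have hnRr : (4 : ℝ) * d ≤ 5 * nR := by exact_mod_cast hnR
    have hnRd : (nR : ℝ) ≤ d := by exact_mod_cast (by omega : nR ≤ d)
    have hcβ : (Fintype.card β : ℝ) ≤ d := by exact_mod_cast (by omega : Fintype.card β ≤ d)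
    have hk : (6 : ℝ) / 10 ≤ 1 - Real.exp (-1) := by
      have h3 : Real.exp (-1) ≤ 4 / 10 := by
        rw [Real.exp_neg, inv_le_comm₀ (Real.exp_pos _) (by norm_num)]
        have := Real.exp_one_gt_d9
        linarith
      linarith
    have hk1 : 1 - Real.exp (-1) ≤ 1 := by
      have := Real.exp_pos (-1)
      linarith
    have h4 : (T : ℝ) - (1 - Real.exp (-1)) * ρ ^ 3 * (nR - 2) ≤ 2 - 28 / 100 * ρ ^ 3 * d := by
      have h5 : (6 : ℝ) / 10 * (ρ ^ 3 * nR) ≤ (1 - Real.exp (-1)) * (ρ ^ 3 * nR) :=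
        mul_le_mul_of_nonneg_right hk (by positivity)
      have h6 : (1 - Real.exp (-1)) * ρ ^ 3 ≤ 1 := mul_le_one₀ hk1 hR0 hR1
      have h7 : ρ ^ 3 * (4 * d) ≤ ρ ^ 3 * (5 * nR) := mul_le_mul_of_nonneg_left hnRr hR0
      nlinarith
    have h5 : Real.exp (T - (1 - Real.exp (-1)) * ρ ^ 3 * (nR - 2)) ≤
        8 * Real.exp (-(28 / 100 * ρ ^ 3 * d)) := by
      calc _ ≤ Real.exp (2 - 28 / 100 * ρ ^ 3 * d) := Real.exp_le_exp.2 h4
        _ = Real.exp 2 * Real.exp (-(28 / 100 * ρ ^ 3 * d)) := by rw [← Real.exp_add]; ring_nf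
        _ ≤ 8 * Real.exp (-(28 / 100 * ρ ^ 3 * d)) := by
            apply mul_le_mul_of_nonneg_right _ (Real.exp_pos _).le
            have h6 : Real.exp 2 = Real.exp 1 ^ 2 := by
              rw [← Real.exp_nat_mul]; norm_num
            have h7 := Real.exp_one_lt_d9
            rw [h6]
            nlinarith [Real.exp_pos 1]
    have h6 : ((nR : ℝ) ^ 2 + Fintype.card β) ≤ 2 * d ^ 2 := by
      have h7 : (nR : ℝ) ^ 2 ≤ d ^ 2 := pow_le_pow_left₀ (by positivity) hnRd 2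
      have h8 : (d : ℝ) ≤ d ^ 2 := by
        have : (1 : ℝ) ≤ d := by exact_mod_cast hd
        nlinarith
      linarith
    rw [div_le_iff₀ hs]
    have h7 : 64 * (d : ℝ) ^ 3 * Real.exp (-(28 / 100 * ρ ^ 3 * d)) ≤ Real.exp (-(ρ ^ 3 / 10 * d)) := by
      calc 64 * (d : ℝ) ^ 3 * Real.exp (-(28 / 100 * ρ ^ 3 * d)) ≤
          Real.exp (18 * ρ ^ 3 / 100 * d) * Real.exp (-(28 / 100 * ρ ^ 3 * d)) :=
            mul_le_mul_of_nonneg_right hA (Real.exp_pos _).le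
        _ = Real.exp (-(ρ ^ 3 / 10 * d)) := by rw [← Real.exp_add]; ring_nf
    calc ((nR : ℝ) ^ 2 + Fintype.card β) * Real.exp (T - (1 - Real.exp (-1)) * ρ ^ 3 * (nR - 2))
        ≤ (2 * d ^ 2) * (8 * Real.exp (-(28 / 100 * ρ ^ 3 * d))) :=
          mul_le_mul h6 h5 (Real.exp_pos _).le (by positivity)
      _ = 1 / (4 * d) * (64 * (d : ℝ) ^ 3 * Real.exp (-(28 / 100 * ρ ^ 3 * d))) := by
          field_simp
          ring
      _ ≤ 1 / (4 * d) * Real.exp (-(ρ ^ 3 / 10 * d)) := mul_le_mul_of_nonneg_left h7 (by positivity)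

/-- number of the pieces -/
theorem fin_pieces {D : Cube δ → BD β nR} {D0 : Finset β} {Adms : Finset (CE β) → Prop} {d : ℕ}
    (hd : Fintype.card β + Fintype.card δ = d) (hd2 : 2 ≤ d)
    (hD : ∀ z, (D z).Val D0 Adms L (d ^ 10) Bd0) {rg : Cube β × CE δ → Bool}
    {c : Cube (β ⊕ δ) → Option (Cube (β ⊕ δ))} {U : Finset (Cube (β ⊕ δ))} (hv : SysV L D rg c U Bd)
    {T : ℕ} {c1 : ℝ} (hc1 : 0 < c1) (hT : c1 * d ≤ T) (Bad : Finset (Cube (β ⊕ δ))) (hBad : (Bad.card : ℝ) ≤ 2 ^ d / 2)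
    (Zd : Finset (β ⊕ δ)) (hgood : ∀ x, x ∉ Bad → GoodPt Zd T (pun (pcv D (d ^ 10))) x) :
    c1 * 2 ^ d ≤ 2 * (d : ℝ) ^ 10 * Fintype.card (PI D) ∧ (Fintype.card (PI D) : ℝ) ≤ 2 ^ d := by
  have hcard : Fintype.card (β ⊕ δ) = d := by rw [Fintype.card_sum, hd]
  have hne : Nonempty (β ⊕ δ) := by
    rw [← Fintype.card_pos_iff]
    omega
  have h10 : 2 ≤ d ^ 10 := hd2.trans (Nat.le_self_pow (by norm_num) d)
  have hP := pcs_sys h10 hD hv
  have h2 : (pun (pcv D (d ^ 10))).card = Fintype.card (PI D) * d ^ 10 := by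
    rw [pun, Finset.card_image_of_injective _ hP.inj, Finset.card_univ, Fintype.card_prod, Fintype.card_fin]
  have hd0 : (0 : ℝ) < d := by exact_mod_cast (by omega : 0 < d)
  constructor
  · have h3 := reservoir_card Zd T (pun (pcv D (d ^ 10))) Bad hgood
    rw [hcard, h2] at h3
    have hBad' : Bad.card ≤ 2 ^ d := by
      have := Finset.card_le_univ Bad
      rwa [show Fintype.card (Cube (β ⊕ δ)) = 2 ^ d by rw [Fintype.card_fun, Fintype.card_bool, hcard]] at this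
    have h4 : (T : ℝ) * (2 ^ d - Bad.card) ≤ d * (Fintype.card (PI D) * (d : ℝ) ^ 10) := by
      have h5 : ((T * (2 ^ d - Bad.card) : ℕ) : ℝ) ≤ ((d * (Fintype.card (PI D) * d ^ 10) : ℕ) : ℝ) := by
        exact_mod_cast h3
      rw [Nat.cast_mul, Nat.cast_sub hBad'] at h5
      push_cast at h5
      exact h5
    have h5 : c1 * d * (2 ^ d / 2) ≤ T * (2 ^ d - Bad.card) :=
      mul_le_mul hT (by linarith) (by positivity) (Nat.cast_nonneg _)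
    have h6 : d * (c1 * 2 ^ d) ≤ d * (2 * (d : ℝ) ^ 10 * Fintype.card (PI D)) := by linarith
    exact le_of_mul_le_mul_left h6 hd0
  · have h3 : (pun (pcv D (d ^ 10))).card ≤ 2 ^ d := by
      have := Finset.card_le_univ (pun (pcv D (d ^ 10)))
      rwa [show Fintype.card (Cube (β ⊕ δ)) = 2 ^ d by rw [Fintype.card_fun, Fintype.card_bool, hcard]] at this
    rw [h2] at h3
    have h4 : Fintype.card (PI D) ≤ 2 ^ d := (Nat.le_mul_of_pos_right _ (by omega)).trans h3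
    exact_mod_cast h4

end parts

section det2

variable {β : Type} [DecidableEq β] [Fintype β] {nR : ℕ}

open Classical in
/-- deterministic part with numbers -/
theorem fin_det {D0 : Finset β} {Adms : Finset (CE β) → Prop} {L Bd0 Bd d : ℕ} (hnd : Fintype.card β + nR = d)
    (hnR : 1 ≤ nR) (hL : 2 ≤ L) (hBd : L ≤ Bd) (hd : 6400 ≤ d)
    (D : Cube (Fin nR) → BD β nR) (hD : ∀ z, (D z).Val D0 Adms L (d ^ 10) Bd0)
    (rg r3 : Cube β × CE (Fin nR) → Bool)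
    (w2 : CE (β ⊕ Fin nR) → Bool) (c : Cube (β ⊕ Fin nR) → Option (Cube (β ⊕ Fin nR)))
    (U : Finset (Cube (β ⊕ Fin nR))) (hv : SysV L D rg c U Bd) (hM : MEv D0 L D r3)
    {X s c1 c2 Z CB1 W : ℝ} (hX : 0 < X) (hs : 0 < s) (hc1 : 0 < c1) (hc2 : 0 < c2) (hc21 : c2 ≤ 1)
    (hdc : 1 ≤ c2 ^ 2 * d) (hdc1 : 1 ≤ c1 * d)
    {T : ℕ} (hT : c1 * d ≤ T) (Xb : Finset (Cube (β ⊕ Fin nR))) (hXb : (Xb.card : ℝ) ≤ s * 2 ^ d)
    (hs2 : s * 2 ^ d ≤ 2 ^ d / 2)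
    (Zd : Finset (β ⊕ Fin nR)) (hgood : ∀ x, x ∉ Xb → GoodPt Zd T (pun (pcv D (d ^ 10))) x)
    (Dt : LinkData (cG c) (hG (cG c) w2) (PI D) (d ^ 10)) (hDt : Dt.P = pcv D (d ^ 10))
    (hexp : Expands Dt.pg (1 + s * 2 ^ d) (c2 / d))
    (hstretch : ∀ l : List (Cube (β ⊕ Fin nR)), l.Nodup → l.IsChain (cG c).Adj → l.length = d ^ 6 →
      (∀ v ∈ l, v ∉ Xb) → ∃ v ∈ l, ∃ p i, (hG (cG c) w2).Adj v (pcv D (d ^ 10) p i))
    (hσ : (univ.filter fun x => ∀ w, c w ≠ some x).card ≤ ⌊2 ^ d * X ^ 2⌋₊)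
    (hBdC : (Bd : ℝ) ≤ CB1) (hW : (d : ℝ) ^ 21 + 40 * (d : ℝ) ^ 3 * CB1 ≤ W) (hWX : W * X ≤ 1 / 4)
    (hX2 : (d : ℝ) ^ 20 * X ^ 2 ≤ 1) (hZX : X ≤ Z) (hZ1 : 160 * (d : ℝ) ^ 16 ≤ 2 ^ d * Z)
    (hZ2 : 160 * (d : ℝ) ^ 16 * s ≤ Z)
    (ha1 : 400 * (d : ℝ) ^ 10 ≤ c1 * 2 ^ d) (ha2 : 400 * (d : ℝ) ^ 10 * s ≤ c1) :
    GE ((1 - Z) * 2 ^ d) (fun z => (D z).hb) rg w2 r3 := by
  have hd64 : (6400 : ℝ) ≤ d := by exact_mod_cast hd
  have hd0 : (0 : ℝ) < d := by linarith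
  set N : ℝ := 2 ^ d with hN
  have hN0 : 0 < N := by positivity
  set σ : ℕ := ⌊N * X ^ 2⌋₊ with hσd
  have hσ1 : (σ : ℝ) ≤ N * X ^ 2 := Nat.floor_le (by positivity)
  set k0 : ℕ := ⌈2 * (d : ℝ) / c2⌉₊ * d with hk0
  have hk0c : (k0 : ℝ) * c2 ≤ 3 * (d : ℝ) ^ 2 := by
    have h2 : (⌈2 * (d : ℝ) / c2⌉₊ : ℝ) < 2 * d / c2 + 1 := Nat.ceil_lt_add_one (by positivity)
    have h3 : (⌈2 * (d : ℝ) / c2⌉₊ : ℝ) * c2 ≤ 2 * d + c2 := by
      have := mul_le_mul_of_nonneg_right h2.le hc2.le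
      rwa [add_mul, div_mul_cancel₀ _ hc2.ne', one_mul] at this
    rw [hk0]
    push_cast
    calc (⌈2 * (d : ℝ) / c2⌉₊ : ℝ) * d * c2 = ((⌈2 * (d : ℝ) / c2⌉₊ : ℝ) * c2) * d := by ring
      _ ≤ (2 * d + c2) * d := mul_le_mul_of_nonneg_right h3 hd0.le
      _ ≤ 3 * (d : ℝ) ^ 2 := by nlinarith
  obtain ⟨hP1, hP2⟩ := fin_pieces (β := β) (δ := Fin nR) (by rw [Fintype.card_fin]; exact hnd) (by omega) hD hv hc1 hT Xb
    (hXb.trans hs2) Zd hgood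
  have hk1 : (Fintype.card (PI D) : ℝ) ≤ (1 + c2 / d / 2) ^ k0 := by
    refine hP2.trans ?_
    rw [hk0, pow_mul]
    apply pow_le_pow_left₀ (by norm_num)
    have h2 := one_add_mul_le_pow (a := c2 / d / 2) (by
      have : 0 ≤ c2 / d / 2 := by positivity
      linarith) ⌈2 * (d : ℝ) / c2⌉₊
    refine le_trans ?_ h2
    have h3 : 2 * (d : ℝ) / c2 ≤ ⌈2 * (d : ℝ) / c2⌉₊ := Nat.le_ceil _
    have h4 : 2 * (d : ℝ) / c2 * (c2 / d / 2) ≤ ⌈2 * (d : ℝ) / c2⌉₊ * (c2 / d / 2) :=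
      mul_le_mul_of_nonneg_right h3 (by positivity)
    have h5 : 2 * (d : ℝ) / c2 * (c2 / d / 2) = 1 := by field_simp
    linarith
  have hsm := num_small (k0 := (k0 : ℝ)) (σ := (σ : ℝ)) (s0 := 1 + s * N) (PP := (Fintype.card (PI D) : ℝ)) hd64 hN0 hX hc1
    hc2 hc21 hdc hdc1 (Nat.cast_nonneg _) hσ1 (Nat.cast_nonneg _) hk0c rfl hP1 hX2 ha1 ha2
  have h100 : 100 ≤ Fintype.card (PI D) := by
    have h2 : (100 : ℝ) * (1 + s * N) ≤ Fintype.card (PI D) := by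
      refine le_trans ?_ hsm
      exact mul_le_mul_of_nonneg_left (le_max_left _ _) (by norm_num)
    have h3 : 0 ≤ s * N := by positivity
    have h4 : (100 : ℝ) ≤ Fintype.card (PI D) := by linarith
    exact_mod_cast h4
  obtain ⟨l, hl1, hl2⟩ := dense_det hnR hL hBd (Vr := d ^ 10)
    ((by omega : 2 ≤ d).trans (Nat.le_self_pow (by norm_num) d)) D hD rg r3 w2 c U hv hM Dt hDt
    (s0 := 1 + s * N) (η := c2 / d) (by positivity) (by positivity) hexp (d ^ 6) (Nat.one_le_pow _ _ (by omega)) Xb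
    hstretch σ hσ k0 hk1 (by push_cast; push_cast at hsm; linarith) h100
  refine ⟨l, hl1, ?_⟩
  have herr := num_err (d := (d : ℝ)) (N := N) (X := X) (s := s) (c2 := c2) (σ := (σ : ℝ)) (k0 := (k0 : ℝ))
    (s0 := 1 + s * N) (Xb := (Xb.card : ℝ)) (Bd := (Bd : ℝ)) (W := W) (CB1 := CB1) (by linarith) hN0 hX hs hc2 hc21 hdc
    (Nat.cast_nonneg _) hσ1 (Nat.cast_nonneg _) hk0c rfl hXb (Nat.cast_nonneg _) hBdC hW hWX hZX hZ1 hZ2
  rw [hnd] at hl2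
  push_cast at hl2
  have e1 : (1 - Z) * N = N - N * Z := by ring
  rw [e1]
  refine le_trans ?_ hl2
  have e2 : (2 : ℝ) ^ d = N := hN.symm
  rw [e2]
  linarith

end det2

end Pool.Agent.LongCyc.Dense
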