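import Pool.Agent.LongCyc.Dense.DenseDet
import Pool.Agent.LongCyc.Dense.JoinLaw

/-!
# Dense regime: probabilistic part of the final assembly
-/

set_option autoImplicit false
set_option synthInstance.maxSize 1000

namespace Pool.Agent.LongCyc.Dense

open Finset

section prob

variable {β : Type} [DecidableEq β] [Fintype β] {nR : ℕ} {pb : ℝ} {hb0 : 0 ≤ pb} {hb1 : pb ≤ 1}
  {u0 α0 ρ : ℝ} {L Vr Bd0 M0 : ℕ} {B : BaseLaw β nR pb hb0 hb1 u0 α0 ρ L Vr Bd0 M0}
  {δ : Type} [DecidableEq δ] [Fintype δ] {p1 : ℝ} {h0 : 0 ≤ p1} {h1 : p1 ≤ 1} {Bd : ℕ}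

/-- there is a long cycle in the union of the layers -/
def GE (m : ℝ) (hbs : Cube δ → CE β → Bool) (rg : Cube β × CE δ → Bool) (w2 : CE (β ⊕ δ) → Bool)
    (r3 : Cube β × CE δ → Bool) : Prop :=
  ∃ l : List (Cube (β ⊕ δ)), IsCyc (AO hbs rg r3 w2) l ∧ m ≤ l.length

/-- functions of the environment -/
theorem sys_E (S : Sys B δ p1 h0 h1 Bd) (F : (Cube δ → B.Ω) → (Cube β × CE δ → Bool) → ℝ) :
    S.P.E (fun ω => F (S.env ω).1 (S.env ω).2) =
      (FP.pi fun _ : Cube δ => B.μ).E fun b => (bern p1 h0 h1 (Cube β × CE δ)).E fun r => F b r := by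
  rw [S.law fun e => F e.1 e.2, envL, FP.E_prod]

/-- the law of the layers -/
theorem sys_layers (S : Sys B δ p1 h0 h1 Bd) (G : (Cube δ → CE β → Bool) → (Cube β × CE δ → Bool) → ℝ) :
    S.P.E (fun ω => G (fun z => (B.bd ((S.env ω).1 z)).hb) (S.env ω).2) =
      (FP.pi fun _ : Cube δ => bern pb hb0 hb1 (CE β)).E fun hbs => (bern p1 h0 h1 (Cube β × CE δ)).E fun r =>
        G hbs r := by
  rw [sys_E S fun b r => G (fun z => (B.bd (b z)).hb) r]
  exact E_pi_law B.μ (bern pb hb0 hb1 (CE β)) (fun w => (B.bd w).hb) (fun F => B.hbLaw F)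
    (fun hbs => (bern p1 h0 h1 (Cube β × CE δ)).E fun r => G hbs r)

open Classical in
/-- expected number of starts -/
theorem sys_starts (S : Sys B δ p1 h0 h1 Bd) :
    S.P.E (fun ω => ((univ.filter fun x : Cube (β ⊕ δ) => ∀ w, S.c ω w ≠ some x).card : ℝ)) =
      S.st true + S.st false := by
  unfold Sys.st
  rw [← FP.E_add]
  refine FP.E_congr _ fun ω => ?_
  have h : (univ.filter fun x : Cube (β ⊕ δ) => ∀ w, S.c ω w ≠ some x) =
      (univ.filter fun x : Cube (β ⊕ δ) => par x = true ∧ ∀ w, S.c ω w ≠ some x) ∪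
      (univ.filter fun x : Cube (β ⊕ δ) => par x = false ∧ ∀ w, S.c ω w ≠ some x) := by
    ext x
    simp only [Finset.mem_filter, Finset.mem_univ, true_and, Finset.mem_union]
    cases par x <;> simp
  rw [h, Finset.card_union_of_disjoint]
  · push_cast
    rfl
  · rw [Finset.disjoint_left]
    intro x hx hx'
    simp only [Finset.mem_filter, Finset.mem_univ, true_and] at hx hx'
    rw [hx.1] at hx'
    simp at hx'

/-- covered vertices of a base fibre -/
noncomputable def Rsv (B : BaseLaw β nR pb hb0 hb1 u0 α0 ρ L Vr Bd0 M0) (w : B.Ω) : Finset (Cube β) := by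
  classical exact univ.filter fun y => (B.bd w).inP Vr y

theorem mem_Rsv {w : B.Ω} {y : Cube β} : y ∈ Rsv B w ↔ (B.bd w).inP Vr y := by
  classical
  unfold Rsv
  simp

theorem pun_eq_Rall (b : Cube δ → B.Ω) : pun (pcv (fun z => B.bd (b z)) Vr) = Rall (Rsv B) b := by
  ext x
  rw [pun_sys (fun z => B.val (b z)), mem_Rall, mem_Rsv]

open Classical in
/-- union bound -/
theorem dense_prob (S : Sys B δ p1 h0 h1 Bd) {q p3 : ℝ} (hq0 : 0 ≤ q) (hq1 : q ≤ 1) (h30 : 0 ≤ p3) (h31 : p3 ≤ 1)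
    (m : ℝ) (E1 : S.Ω → Prop) (E2 : (Cube δ → B.Ω) → Prop)
    (E3 : (Cube δ → B.Ω) → (Cube β × CE δ → Bool) → Prop) (E4 : S.Ω → (CE (β ⊕ δ) → Bool) → Prop)
    (hdet : ∀ ω w2 r3, E1 ω → E2 (S.env ω).1 → E3 (S.env ω).1 r3 → E4 ω w2 →
      GE m (fun z => (B.bd ((S.env ω).1 z)).hb) (S.env ω).2 w2 r3)
    {e1 e2 e3 e4 : ℝ} (he4 : 0 ≤ e4) (hE1 : S.P.pr (fun ω => ¬ E1 ω) ≤ e1)
    (hE2 : (FP.pi fun _ : Cube δ => B.μ).pr (fun b => ¬ E2 b) ≤ e2)
    (hE3 : ((FP.pi fun _ : Cube δ => B.μ).prod (bern p3 h30 h31 (Cube β × CE δ))).pr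
      (fun s => ¬ E3 s.1 s.2) ≤ e3)
    (hE4 : ∀ ω, E2 (S.env ω).1 → (bern q hq0 hq1 (CE (β ⊕ δ))).pr (fun w2 => ¬ E4 ω w2) ≤ e4) :
    1 - (e1 + e2 + e3 + e4) ≤
      (FP.pi fun _ : Cube δ => bern pb hb0 hb1 (CE β)).E (fun hbs =>
        (bern p1 h0 h1 (Cube β × CE δ)).E fun rg => (bern q hq0 hq1 (CE (β ⊕ δ))).E fun w2 =>
          (bern p3 h30 h31 (Cube β × CE δ)).E fun r3 => if GE m hbs rg w2 r3 then (1 : ℝ) else 0) := by
  rw [← sys_layers S fun hbs rg => (bern q hq0 hq1 (CE (β ⊕ δ))).E fun w2 =>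
          (bern p3 h30 h31 (Cube β × CE δ)).E fun r3 => if GE m hbs rg w2 r3 then (1 : ℝ) else 0]
  have hE2' : S.P.E (fun ω => if ¬ E2 (S.env ω).1 then (1 : ℝ) else 0) ≤ e2 := by
    rw [sys_E S fun b _ => if ¬ E2 b then (1 : ℝ) else 0]
    simp only [FP.E_const]
    rw [FP.pr_eq] at hE2
    exact hE2
  have hE3' : S.P.E (fun ω => (bern p3 h30 h31 (Cube β × CE δ)).E fun r3 =>
      if ¬ E3 (S.env ω).1 r3 then (1 : ℝ) else 0) ≤ e3 := by
    rw [sys_E S fun b _ => (bern p3 h30 h31 (Cube β × CE δ)).E fun r3 => if ¬ E3 b r3 then (1 : ℝ) else 0]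
    simp only [FP.E_const]
    rw [FP.pr_eq, FP.E_prod] at hE3
    exact hE3
  rw [FP.pr_eq] at hE1
  have key : ∀ ω, 1 - ((if ¬ E1 ω then (1 : ℝ) else 0) + (if ¬ E2 (S.env ω).1 then (1 : ℝ) else 0) +
      ((bern p3 h30 h31 (Cube β × CE δ)).E fun r3 => if ¬ E3 (S.env ω).1 r3 then (1 : ℝ) else 0) + e4) ≤
      (bern q hq0 hq1 (CE (β ⊕ δ))).E fun w2 => (bern p3 h30 h31 (Cube β × CE δ)).E fun r3 =>
        if GE m (fun z => (B.bd ((S.env ω).1 z)).hb) (S.env ω).2 w2 r3 then (1 : ℝ) else 0 := by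
    intro ω
    have h3nn : 0 ≤ (bern p3 h30 h31 (Cube β × CE δ)).E fun r3 => if ¬ E3 (S.env ω).1 r3 then (1 : ℝ) else 0 :=
      FP.E_nonneg _ fun r3 => by split_ifs <;> norm_num
    have hnn : 0 ≤ (bern q hq0 hq1 (CE (β ⊕ δ))).E fun w2 => (bern p3 h30 h31 (Cube β × CE δ)).E fun r3 =>
        if GE m (fun z => (B.bd ((S.env ω).1 z)).hb) (S.env ω).2 w2 r3 then (1 : ℝ) else 0 :=
      FP.E_nonneg _ fun w2 => FP.E_nonneg _ fun r3 => by split_ifs <;> norm_num
    by_cases hω1 : E1 ω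
    · by_cases hω2 : E2 (S.env ω).1
      · have h4 := hE4 ω hω2
        rw [FP.pr_eq] at h4
        have h5 : ∀ w2, (1 : ℝ) - ((if ¬ E4 ω w2 then (1 : ℝ) else 0) +
            (bern p3 h30 h31 (Cube β × CE δ)).E fun r3 => if ¬ E3 (S.env ω).1 r3 then (1 : ℝ) else 0) ≤
            (bern p3 h30 h31 (Cube β × CE δ)).E fun r3 =>
              if GE m (fun z => (B.bd ((S.env ω).1 z)).hb) (S.env ω).2 w2 r3 then (1 : ℝ) else 0 := by
          intro w2
          rw [show (1 : ℝ) - ((if ¬ E4 ω w2 then (1 : ℝ) else 0) +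
            (bern p3 h30 h31 (Cube β × CE δ)).E fun r3 => if ¬ E3 (S.env ω).1 r3 then (1 : ℝ) else 0) =
            (1 - (if ¬ E4 ω w2 then (1 : ℝ) else 0)) -
              (bern p3 h30 h31 (Cube β × CE δ)).E fun r3 => if ¬ E3 (S.env ω).1 r3 then (1 : ℝ) else 0 by ring]
          rw [← FP.E_const (bern p3 h30 h31 (Cube β × CE δ)) (1 - (if ¬ E4 ω w2 then (1 : ℝ) else 0)), ← FP.E_sub]
          refine FP.E_mono _ fun r3 => ?_
          by_cases h6 : E4 ω w2
          · by_cases h7 : E3 (S.env ω).1 r3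
            · rw [if_pos (hdet ω w2 r3 hω1 hω2 h7 h6)]
              simp [h6, h7]
            · simp only [h6, h7, not_true_eq_false, not_false_eq_true, if_true, if_false]
              split_ifs <;> norm_num
          · simp only [h6, not_false_eq_true, if_true]
            split_ifs <;> norm_num
        refine le_trans ?_ (FP.E_mono _ h5)
        rw [FP.E_sub, FP.E_const, FP.E_add, FP.E_const]
        simp only [hω1, hω2, not_true_eq_false, if_false]
        linarith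
      · refine le_trans ?_ hnn
        simp only [hω1, hω2, not_true_eq_false, not_false_eq_true, if_true, if_false]
        linarith
    · refine le_trans ?_ hnn
      simp only [hω1, not_false_eq_true, if_true]
      have : 0 ≤ (if ¬ E2 (S.env ω).1 then (1 : ℝ) else 0) := by split_ifs <;> norm_num
      linarith
  refine le_trans ?_ (FP.E_mono _ key)
  rw [FP.E_sub, FP.E_const, FP.E_add, FP.E_add, FP.E_add, FP.E_const]
  linarith

end prob

end Pool.Agent.LongCyc.Dense
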