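import Pool.Agent.LongCyc.Dense.SysDef
import Pool.Agent.LongCyc.Blocks

/-!
# Dense regime, sections 6, 7: definitions (isolated selected edges, piece graph, rich runs)
-/

set_option autoImplicit false

namespace Pool.Agent.LongCyc.Dense

open Finset

section Iso

variable {ι : Type} [DecidableEq ι] [Fintype ι]

/-- the two endpoints of an edge -/
def ept (e : CE ι) : Finset (Cube ι) := {e.1.1, flip e.1.2 e.1.1}

/-- `e` is selected and no other edge with a common endpoint is selected -/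
def isoE (ω : CE ι → Bool) (e : CE ι) : Prop :=
  ω e = true ∧ ∀ f, f ≠ e → ¬ Disjoint (ept e) (ept f) → ω f = false

/-- matching of the isolated selected edges which are not edges of `F` -/
def hG (F : SimpleGraph (Cube ι)) (ω : CE ι → Bool) : SimpleGraph (Cube ι) where
  Adj u v := ∃ i, v = flip i u ∧ isoE ω ((canE ι).e u i) ∧ ¬ F.Adj u v
  symm := ⟨by
    rintro u v ⟨i, rfl, h1, h2⟩
    exact ⟨i, by simp, by rw [(canE ι).symm]; exact h1, fun h => h2 h.symm⟩⟩
  loopless := ⟨fun u ⟨i, h, _⟩ => flip_ne i u h.symm⟩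

/-- the undirected graph of a partial map -/
def cG {V : Type} (c : V → Option V) : SimpleGraph V where
  Adj u v := u ≠ v ∧ (c u = some v ∨ c v = some u)
  symm := ⟨fun _ _ h => ⟨h.1.symm, h.2.symm⟩⟩
  loopless := ⟨fun _ h => h.1 rfl⟩

/-- disjoint pieces, paths of `F` -/
structure Pcs (F : SimpleGraph (Cube ι)) (PP : Type) (Vr : ℕ) (P : PP → Fin Vr → Cube ι) : Prop where
  inj : Function.Injective fun q : PP × Fin Vr => P q.1 q.2
  adj : ∀ p (i : ℕ) (hi : i + 1 < Vr), F.Adj (P p ⟨i, by omega⟩) (P p ⟨i + 1, hi⟩)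

/-- union of the pieces -/
def pun {PP : Type} [Fintype PP] {Vr : ℕ} (P : PP → Fin Vr → Cube ι) : Finset (Cube ι) :=
  univ.image fun q : PP × Fin Vr => P q.1 q.2

end Iso

section Rich

variable {β : Type} [DecidableEq β] [Fintype β] {nR : ℕ}

/-- the parallel edges of `e` in the direction `i` from the fibre `z` are open flips -/
def flipOpen (r3 : Cube β × CE (Fin nR) → Bool) (z : Cube (Fin nR)) (i : Fin nR) (e : CE β) : Prop :=
  r3 (e.1.1, (canE (Fin nR)).e z i) = true ∧ r3 (flip e.1.2 e.1.1, (canE (Fin nR)).e z i) = true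

/-- the options for a flip of the run of `L` vertices from `u` in the fibre `z` with the giant in the fibre `z + e_i` -/
noncomputable def opts (D0 : Finset β) (L : ℕ) (D : Cube (Fin nR) → BD β nR) (r3 : Cube β × CE (Fin nR) → Bool)
    (z : Cube (Fin nR)) (u : Cube β) (i : Fin nR) : Finset (CE β) := by
  classical
  exact (runD0 D0 (D z).b L u ∩ (D (flip i z)).opt D0 L).filter fun e => flipOpen r3 z i e

/-- at least `4 nR` open flips -/
def Rich (D0 : Finset β) (L : ℕ) (D : Cube (Fin nR) → BD β nR) (r3 : Cube β × CE (Fin nR) → Bool)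
    (z : Cube (Fin nR)) (u : Cube β) (i : Fin nR) : Prop := 4 * nR ≤ (opts D0 L D r3 z u i).card

/-- adjacency of giants -/
def GAdj (D0 : Finset β) (L : ℕ) (D : Cube (Fin nR) → BD β nR) (r3 : Cube β × CE (Fin nR) → Bool)
    (z z' : Cube (Fin nR)) : Prop :=
  (D z).G.Nonempty ∧ (D z').G.Nonempty ∧ ∃ i, z' = flip i z ∧
    (Rich D0 L D r3 z ((D z).res i) i ∨ Rich D0 L D r3 z' ((D z').res i) i)

/-- every good run has a rich direction; the giants are connected -/
structure MEv (D0 : Finset β) (L : ℕ) (D : Cube (Fin nR) → BD β nR) (r3 : Cube β × CE (Fin nR) → Bool) : Prop where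
  run : ∀ z, ∀ u ∈ (D z).Gd, ∃ i, Rich D0 L D r3 z u i
  ex : ∃ z, (D z).G.Nonempty
  con : ∀ z z', (D z).G.Nonempty → (D z').G.Nonempty → Relation.ReflTransGen (GAdj D0 L D r3) z z'

end Rich

section Pieces

variable {β δ : Type} [DecidableEq β] [Fintype β] [DecidableEq δ] [Fintype δ] {nR : ℕ}

/-- index type of the pieces -/
abbrev PI (D : Cube δ → BD β nR) := {q : Cube β × Cube δ // q.1 ∈ (D q.2).PS}

/-- vertices of the pieces -/
noncomputable def pcv (D : Cube δ → BD β nR) (Vr : ℕ) (q : PI D) (k : Fin Vr) : Cube (β ⊕ δ) :=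
  jn ((it (D q.1.2).b k q.1.1).getD q.1.1) q.1.2

/-- open in one of the layers -/
def AO (hbs : Cube δ → CE β → Bool) (rg r3 : Cube β × CE δ → Bool) (w2 : CE (β ⊕ δ) → Bool)
    (x y : Cube (β ⊕ δ)) : Prop :=
  (y ∘ Sum.inr = x ∘ Sum.inr ∧ opn (canE β) (hbs (x ∘ Sum.inr)) (x ∘ Sum.inl) (y ∘ Sum.inl)) ∨
  (∃ i : δ, y = flip (Sum.inr i) x ∧ (rg (x ∘ Sum.inl, (canE δ).e (x ∘ Sum.inr) i) = true ∨
    r3 (x ∘ Sum.inl, (canE δ).e (x ∘ Sum.inr) i) = true)) ∨
  opn (canE (β ⊕ δ)) w2 x y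

end Pieces

end Pool.Agent.LongCyc.Dense
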