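import Pool.Agent.LongCyc.Match

/-!
# The reflected Gray cycle of the cube `Fin r → Bool`

`gcode r n` is the `n`-th vertex, `gidx s` the index of the class `s`, `gdir s` the direction of the
step from `s` to its successor `gnext s = flip (gdir s) s`.
-/

set_option autoImplicit false

namespace Pool.Agent.LongCyc.Dense

open Finset

/-- reflected Gray code -/
def gcode : (r : ℕ) → ℕ → Cube (Fin r)
  | 0, _ => fun i => i.elim0
  | r + 1, n =>
    if n < 2 ^ r then Fin.snoc (α := fun _ => Bool) (gcode r n) false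
    else Fin.snoc (α := fun _ => Bool) (gcode r (2 ^ (r + 1) - 1 - n)) true

theorem snoc_inj {r : ℕ} {a b : Cube (Fin r)} {x y : Bool}
    (h : (Fin.snoc (α := fun _ => Bool) a x : Fin (r + 1) → Bool) = Fin.snoc (α := fun _ => Bool) b y) :
    a = b ∧ x = y := by
  constructor
  · funext i
    have := congrFun h (Fin.castSucc i)
    simpa using this
  · have := congrFun h (Fin.last r)
    simpa using this

theorem snoc_flip {r : ℕ} (g : Fin r) (a : Cube (Fin r)) (x : Bool) :
    (Fin.snoc (α := fun _ => Bool) (flip g a) x : Fin (r + 1) → Bool) =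
      flip (Fin.castSucc g) (Fin.snoc (α := fun _ => Bool) a x : Fin (r + 1) → Bool) := by
  funext j
  refine Fin.lastCases ?_ (fun i => ?_) j
  · rw [Fin.snoc_last, flip_of_ne (Fin.castSucc_lt_last g).ne', Fin.snoc_last]
  · by_cases h : i = g
    · subst h
      simp
    · rw [Fin.snoc_castSucc, flip_of_ne h,
        flip_of_ne (fun h' => h (Fin.castSucc_injective _ h')), Fin.snoc_castSucc]

theorem snoc_flip_last {r : ℕ} (a : Cube (Fin r)) (x : Bool) :
    (Fin.snoc (α := fun _ => Bool) a (!x) : Fin (r + 1) → Bool) =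
      flip (Fin.last r) (Fin.snoc (α := fun _ => Bool) a x : Fin (r + 1) → Bool) := by
  funext j
  refine Fin.lastCases ?_ (fun i => ?_) j
  · simp
  · rw [Fin.snoc_castSucc, flip_of_ne (Fin.castSucc_lt_last i).ne, Fin.snoc_castSucc]

theorem gcode_inj (r : ℕ) : ∀ m n : ℕ, m < 2 ^ r → n < 2 ^ r → gcode r m = gcode r n → m = n := by
  induction r with
  | zero =>
    intro m n hm hn _
    simp at hm hn
    omega
  | succ r ih =>
    intro m n hm hn h
    have h2 : 2 ^ (r + 1) = 2 ^ r + 2 ^ r := by ring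
    unfold gcode at h
    split_ifs at h with h3 h4 h4
    · exact ih _ _ h3 h4 (snoc_inj h).1
    · exact absurd (snoc_inj h).2 (by simp)
    · exact absurd (snoc_inj h).2 (by simp)
    · have := ih _ _ (by omega) (by omega) (snoc_inj h).1
      omega

theorem gcode_step (r : ℕ) : ∀ n : ℕ, n + 1 < 2 ^ r → ∃ g, gcode r (n + 1) = flip g (gcode r n) := by
  induction r with
  | zero =>
    intro n hn
    simp at hn
  | succ r ih =>
    intro n hn
    have h2 : 2 ^ (r + 1) = 2 ^ r + 2 ^ r := by ring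
    unfold gcode
    by_cases h3 : n + 1 < 2 ^ r
    · rw [if_pos h3, if_pos (by omega)]
      obtain ⟨g, hg⟩ := ih n h3
      exact ⟨Fin.castSucc g, by rw [hg, snoc_flip]⟩
    · rw [if_neg h3]
      by_cases h4 : n < 2 ^ r
      · rw [if_pos h4]
        have h5 : 2 ^ (r + 1) - 1 - (n + 1) = n := by omega
        rw [h5]
        exact ⟨Fin.last r, snoc_flip_last (gcode r n) false⟩
      · rw [if_neg h4]
        obtain ⟨g, hg⟩ := ih (2 ^ (r + 1) - 1 - (n + 1)) (by omega)
        have h5 : 2 ^ (r + 1) - 1 - (n + 1) + 1 = 2 ^ (r + 1) - 1 - n := by omega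
        rw [h5] at hg
        refine ⟨Fin.castSucc g, ?_⟩
        rw [hg, ← snoc_flip, flip_flip]

theorem gcode_zero (r : ℕ) : gcode r 0 = fun _ => false := by
  induction r with
  | zero => funext i; exact i.elim0
  | succ r ih =>
    unfold gcode
    rw [if_pos (by positivity), ih]
    funext j
    refine Fin.lastCases ?_ (fun i => ?_) j <;> simp

theorem gcode_last (r : ℕ) : gcode (r + 1) 0 = flip (Fin.last r) (gcode (r + 1) (2 ^ (r + 1) - 1)) := by
  have h2 : 2 ^ (r + 1) = 2 ^ r + 2 ^ r := by ring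
  have h3 : 0 < 2 ^ r := by positivity
  unfold gcode
  rw [if_pos h3, if_neg (by omega)]
  have h5 : 2 ^ (r + 1) - 1 - (2 ^ (r + 1) - 1) = 0 := by omega
  rw [h5, ← snoc_flip_last]
  rfl

/-- even steps flip the coordinate `0` -/
theorem gcode_even (r : ℕ) : ∀ n : ℕ, 2 * n + 1 < 2 ^ (r + 1) →
    gcode (r + 1) (2 * n + 1) = flip 0 (gcode (r + 1) (2 * n)) := by
  induction r with
  | zero =>
    intro n hn
    have : n = 0 := by omega
    subst this
    have h1 : gcode 1 (2 * 0 + 1) = Fin.snoc (α := fun _ => Bool) (gcode 0 0) true := by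
      show (if 2 * 0 + 1 < 2 ^ 0 then Fin.snoc (α := fun _ => Bool) (gcode 0 (2 * 0 + 1)) false
        else Fin.snoc (α := fun _ => Bool) (gcode 0 (2 ^ (0 + 1) - 1 - (2 * 0 + 1))) true) = _
      rw [if_neg (by norm_num)]
      rfl
    have h2 : gcode 1 (2 * 0) = Fin.snoc (α := fun _ => Bool) (gcode 0 0) false := by
      show (if 2 * 0 < 2 ^ 0 then Fin.snoc (α := fun _ => Bool) (gcode 0 (2 * 0)) false
        else Fin.snoc (α := fun _ => Bool) (gcode 0 (2 ^ (0 + 1) - 1 - 2 * 0)) true) = _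
      rw [if_pos (by norm_num)]
    show gcode 1 (2 * 0 + 1) = flip 0 (gcode 1 (2 * 0))
    rw [h1, h2]
    exact snoc_flip_last (gcode 0 0) false
  | succ r ih =>
    intro n hn
    have h2 : 2 ^ (r + 1 + 1) = 2 ^ (r + 1) + 2 ^ (r + 1) := by ring
    have h2' : 2 ^ (r + 1) = 2 * 2 ^ r := by ring
    unfold gcode
    by_cases h3 : 2 * n + 1 < 2 ^ (r + 1)
    · rw [if_pos h3, if_pos (by omega), ih n h3, snoc_flip]
      rfl
    · rw [if_neg h3, if_neg (by omega)]
      set k := 2 ^ (r + 1) - 1 - n with hk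
      have e1 : 2 ^ (r + 1 + 1) - 1 - (2 * n + 1) = 2 * k := by omega
      have e2 : 2 ^ (r + 1 + 1) - 1 - 2 * n = 2 * k + 1 := by omega
      rw [e1, e2, ih k (by omega)]
      have e3 : (0 : Fin (r + 1 + 1)) = Fin.castSucc (0 : Fin (r + 1)) := rfl
      rw [e3, ← snoc_flip, flip_flip]

/-! ### The cycle -/

variable {r : ℕ}

theorem gcode_surj (s : Cube (Fin r)) : ∃ n < 2 ^ r, gcode r n = s := by
  have hinj : Function.Injective fun n : Fin (2 ^ r) => gcode r n.val := by
    intro m n h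
    exact Fin.ext (gcode_inj r _ _ m.isLt n.isLt h)
  have hcard : Fintype.card (Fin (2 ^ r)) = Fintype.card (Cube (Fin r)) := by simp
  have hbij := (Fintype.bijective_iff_injective_and_card _).2 ⟨hinj, hcard⟩
  obtain ⟨n, hn⟩ := hbij.2 s
  exact ⟨n.val, n.isLt, hn⟩

/-- index of a class -/
noncomputable def gidx (s : Cube (Fin r)) : ℕ := (gcode_surj s).choose

theorem gidx_lt (s : Cube (Fin r)) : gidx s < 2 ^ r := (gcode_surj s).choose_spec.1

@[simp] theorem gcode_gidx (s : Cube (Fin r)) : gcode r (gidx s) = s :=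
  (gcode_surj s).choose_spec.2

theorem gidx_gcode {n : ℕ} (hn : n < 2 ^ r) : gidx (gcode r n) = n :=
  gcode_inj r _ _ (gidx_lt _) hn (gcode_gidx _)

/-- the class at time `n` of the cyclic sequence -/
def gcl (r n : ℕ) : Cube (Fin r) := gcode r (n % 2 ^ r)

theorem gcl_step {r : ℕ} (hr : 0 < r) (n : ℕ) : ∃ g, gcl r (n + 1) = flip g (gcl r n) := by
  unfold gcl
  have hp : 0 < 2 ^ r := by positivity
  have hlt := Nat.mod_lt n hp
  by_cases h : n % 2 ^ r + 1 < 2 ^ r
  · have : (n + 1) % 2 ^ r = n % 2 ^ r + 1 := by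
      rw [Nat.add_mod]
      rcases Nat.lt_or_ge 1 (2 ^ r) with h1 | h1
      · rw [Nat.mod_eq_of_lt h1, Nat.mod_eq_of_lt h]
      · omega
    rw [this]
    exact gcode_step r _ h
  · have h1 : n % 2 ^ r = 2 ^ r - 1 := by omega
    have h2 : (n + 1) % 2 ^ r = 0 := by
      have h3 : n + 1 = 2 ^ r * (n / 2 ^ r + 1) := by
        have := Nat.div_add_mod n (2 ^ r)
        rw [Nat.mul_add, mul_one]
        omega
      rw [h3, Nat.mul_mod_right]
    rw [h1, h2]
    obtain ⟨r', rfl⟩ : ∃ r', r = r' + 1 := ⟨r - 1, by omega⟩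
    exact ⟨_, gcode_last r'⟩

/-- direction of the step at time `n` -/
noncomputable def gd {r : ℕ} (hr : 0 < r) (n : ℕ) : Fin r := (gcl_step hr n).choose

theorem gcl_succ {r : ℕ} (hr : 0 < r) (n : ℕ) : gcl r (n + 1) = flip (gd hr n) (gcl r n) :=
  (gcl_step hr n).choose_spec

theorem gcl_eq_iff (r m n : ℕ) : gcl r m = gcl r n ↔ m % 2 ^ r = n % 2 ^ r := by
  constructor
  · intro h
    exact gcode_inj r _ _ (Nat.mod_lt _ (by positivity)) (Nat.mod_lt _ (by positivity)) h
  · intro h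
    unfold gcl
    rw [h]

theorem gd_congr {r : ℕ} (hr : 0 < r) {m n : ℕ} (h : m % 2 ^ r = n % 2 ^ r) :
    gd hr m = gd hr n := by
  have h1 := gcl_succ hr m
  have h2 := gcl_succ hr n
  have h3 : gcl r m = gcl r n := (gcl_eq_iff r m n).2 h
  have h4 : gcl r (m + 1) = gcl r (n + 1) := (gcl_eq_iff r _ _).2 (by
    rw [Nat.add_mod, h, ← Nat.add_mod])
  rw [h4, h2, h3] at h1
  exact (flip_dir_injective _ h1).symm

/-- (G4) even steps have direction `0` -/
theorem gd_even {r : ℕ} (hr : 0 < r) (n : ℕ) (hn : Even n) : gd hr n = ⟨0, hr⟩ := by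
  obtain ⟨r', rfl⟩ : ∃ r', r = r' + 1 := ⟨r - 1, by omega⟩
  have hp : 2 ^ (r' + 1) = 2 * 2 ^ r' := by ring
  have hp0 : 0 < 2 ^ r' := by positivity
  have hmod : Even (n % 2 ^ (r' + 1)) := by
    rw [Nat.even_iff] at hn ⊢
    rw [hp, Nat.mod_mul_right_mod]
    exact hn
  obtain ⟨k, hk⟩ := hmod
  have hlt := Nat.mod_lt n (show 0 < 2 ^ (r' + 1) by positivity)
  have h1 := gcl_succ hr n
  have h2 : gcl (r' + 1) (n + 1) = flip 0 (gcl (r' + 1) n) := by
    unfold gcl
    have h3 : (n + 1) % 2 ^ (r' + 1) = 2 * k + 1 := by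
      rw [Nat.add_mod, hk, Nat.mod_eq_of_lt (show 1 < 2 ^ (r' + 1) by omega),
        Nat.mod_eq_of_lt (by omega)]
      omega
    rw [h3, hk, ← two_mul]
    exact gcode_even r' k (by omega)
  rw [h2] at h1
  exact (flip_dir_injective _ h1).symm

/-- odd steps do not have direction `0` -/
theorem gd_odd {r : ℕ} (hr : 2 ≤ r) (n : ℕ) (hn : ¬ Even n) :
    gd (by omega : 0 < r) n ≠ ⟨0, by omega⟩ := by
  intro h
  obtain ⟨m, rfl⟩ : ∃ m, n = m + 1 := ⟨n - 1, by
    rcases Nat.eq_zero_or_pos n with h0 | h0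
    · exact absurd (by rw [h0]; exact ⟨0, rfl⟩) hn
    · omega⟩
  have hm : Even m := by
    rcases Nat.even_or_odd m with h1 | h1
    · exact h1
    · exact absurd h1.add_one hn
  have h1 := gcl_succ (by omega : 0 < r) (m + 1)
  have h2 := gcl_succ (by omega : 0 < r) m
  rw [gd_even _ m hm] at h2
  rw [h, h2, flip_flip] at h1
  have h3 := (gcl_eq_iff r _ _).1 h1
  have h4 : 4 ≤ 2 ^ r := by
    calc 4 = 2 ^ 2 := by norm_num
      _ ≤ 2 ^ r := Nat.pow_le_pow_right (by norm_num) hr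
  have h5 : (m + 1 + 1) % 2 ^ r = (m % 2 ^ r + 2) % 2 ^ r := by
    rw [Nat.add_assoc, Nat.add_mod, Nat.mod_eq_of_lt (show 1 + 1 < 2 ^ r by omega)]
  rw [h5] at h3
  have h6 := Nat.mod_lt m (show 0 < 2 ^ r by positivity)
  rcases Nat.lt_or_ge (m % 2 ^ r + 2) (2 ^ r) with h7 | h7
  · rw [Nat.mod_eq_of_lt h7] at h3
    omega
  · rw [Nat.mod_eq_sub_mod h7, Nat.mod_eq_of_lt (by omega)] at h3
    omega

/-- (G5) a class is determined by its direction and the other coordinates -/
theorem gcl_determined {r : ℕ} (hr : 2 ≤ r) {m n : ℕ} {g : Fin r}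
    (hm : gd (by omega : 0 < r) m = g) (hn : gd (by omega : 0 < r) n = g)
    (h : ∀ g', g' ≠ g → gcl r m g' = gcl r n g') : m % 2 ^ r = n % 2 ^ r := by
  rw [← gcl_eq_iff]
  by_contra hne
  have h1 : gcl r n = flip g (gcl r m) := by
    funext g'
    by_cases hg : g' = g
    · subst hg
      rw [flip_same]
      have h2 : gcl r m g' ≠ gcl r n g' := by
        intro h3
        apply hne
        funext g''
        by_cases hg' : g'' = g'
        · rw [hg', h3]
        · exact h g'' hg'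
      cases h4 : gcl r m g' <;> cases h5 : gcl r n g' <;> simp_all
    · rw [flip_of_ne hg, h g' hg]
  have h2 := gcl_succ (by omega : 0 < r) m
  have h3 := gcl_succ (by omega : 0 < r) n
  rw [hm, ← h1] at h2
  rw [hn, h1, flip_flip] at h3
  have h4 := (gcl_eq_iff r _ _).1 h2
  have h5 := (gcl_eq_iff r _ _).1 h3
  have h6 : 4 ≤ 2 ^ r := by
    calc 4 = 2 ^ 2 := by norm_num
      _ ≤ 2 ^ r := Nat.pow_le_pow_right (by norm_num) hr
  -- `n ≡ m + 1`, `m ≡ n + 1`
  have h7 : (m + 2) % 2 ^ r = m % 2 ^ r := by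
    rw [← h5, show m + 2 = m + 1 + 1 by rfl, Nat.add_mod (m + 1) 1, h4, ← Nat.add_mod]
  have h8 : (m + 2) % 2 ^ r = (m % 2 ^ r + 2) % 2 ^ r := by
    rw [Nat.add_mod, Nat.mod_eq_of_lt (show 2 < 2 ^ r by omega)]
  rw [h8] at h7
  have h9 := Nat.mod_lt m (show 0 < 2 ^ r by positivity)
  rcases Nat.lt_or_ge (m % 2 ^ r + 2) (2 ^ r) with h10 | h10
  · rw [Nat.mod_eq_of_lt h10] at h7
    omega
  · rw [Nat.mod_eq_sub_mod h10, Nat.mod_eq_of_lt (by omega)] at h7
    omega

/-- (G6) every period uses all directions -/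
theorem gd_all {r : ℕ} (hr : 0 < r) {m n : ℕ} (hmn : m < n) (h : m % 2 ^ r = n % 2 ^ r)
    (g : Fin r) : ∃ t, m ≤ t ∧ t < n ∧ gd hr t = g := by
  by_contra hno
  push Not at hno
  have hp : 0 < 2 ^ r := by positivity
  have hper : m + 2 ^ r ≤ n := by
    have h1 := Nat.div_add_mod m (2 ^ r)
    have h2 := Nat.div_add_mod n (2 ^ r)
    have h3 : m / 2 ^ r < n / 2 ^ r := by
      by_contra h4
      have h5 : 2 ^ r * (n / 2 ^ r) ≤ 2 ^ r * (m / 2 ^ r) := Nat.mul_le_mul_left _ (not_lt.1 h4)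
      omega
    have h4 : 2 ^ r * (m / 2 ^ r + 1) ≤ 2 ^ r * (n / 2 ^ r) := Nat.mul_le_mul_left _ h3
    rw [Nat.mul_add, mul_one] at h4
    omega
  -- the coordinate `g` does not change
  have hconst : ∀ k, m + k ≤ n → gcl r (m + k) g = gcl r m g := by
    intro k
    induction k with
    | zero => intro _; rfl
    | succ k ih =>
      intro hk
      rw [← Nat.add_assoc, gcl_succ hr, flip_of_ne (Ne.symm (hno (m + k) (by omega) (by omega))),
        ih (by omega)]
  -- but all classes occur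
  obtain ⟨j, hj, hj2⟩ := gcode_surj (flip g (gcl r m))
  -- time `t` with `t ≡ j`, `m ≤ t < m + 2 ^ r`
  obtain ⟨k, hk, hk2⟩ : ∃ k, k < 2 ^ r ∧ (m + k) % 2 ^ r = j := by
    have hm := Nat.mod_lt m hp
    rcases Nat.lt_or_ge j (m % 2 ^ r) with h1 | h1
    · refine ⟨j + 2 ^ r - m % 2 ^ r, by omega, ?_⟩
      have h2 := Nat.div_add_mod m (2 ^ r)
      have h3 : m + (j + 2 ^ r - m % 2 ^ r) = j + 2 ^ r * (m / 2 ^ r + 1) := by
        rw [Nat.mul_add, mul_one]
        omega
      rw [h3, Nat.add_mul_mod_self_left, Nat.mod_eq_of_lt hj]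
    · refine ⟨j - m % 2 ^ r, by omega, ?_⟩
      have h2 := Nat.div_add_mod m (2 ^ r)
      have h3 : m + (j - m % 2 ^ r) = j + 2 ^ r * (m / 2 ^ r) := by omega
      rw [h3, Nat.add_mul_mod_self_left, Nat.mod_eq_of_lt hj]
  have h5 := hconst k (by omega)
  have h6 : gcl r (m + k) = flip g (gcl r m) := by
    unfold gcl at hj2 ⊢
    rw [hk2, hj2]
  rw [h6, flip_same] at h5
  cases h7 : gcl r m g <;> simp [h7] at h5

/-- parity of the index and parity of the class -/
theorem par_gcl {r : ℕ} (hr : 0 < r) (n : ℕ) : par (gcl r n) = decide (Even n) := by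
  induction n with
  | zero =>
    unfold gcl
    rw [Nat.zero_mod, gcode_zero]
    simp [par]
  | succ n ih =>
    rw [gcl_succ hr, par_flip, ih, ← decide_not]
    exact decide_eq_decide.2 Nat.even_add_one.symm

end Pool.Agent.LongCyc.Dense
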