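import Pool.Agent.LongCyc.Base
import Pool.Agent.LongCyc.Double
import Pool.Agent.LongCyc.Dense.Gray
import Pool.Agent.LongCyc.Dense.Defs

/-!
# The base structure (Gray coded 2-factor)

The directions are `Fin r × D`: `r` groups of the same size. The class (syndrome) of a vertex is the
vector of the parities of its `r` components; in the class with time `n` (on the Gray cycle) the
group `gd hr n` is used. For every coset of the span of a group there is a maximal matching of the
percolated coset, conjugated by an independent uniform automorphism.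
-/

set_option autoImplicit false
set_option synthInstance.maxSize 2000

namespace Pool.Agent.LongCyc.Dense

open Finset

section comps

variable {r : ℕ} {D : Type*}

/-- the component in the group `g` -/
def cmp (g : Fin r) (x : Cube (Fin r × D)) : Cube D := fun i => x (g, i)

/-- replace the component in the group `g` -/
def put (g : Fin r) (x : Cube (Fin r × D)) (y : Cube D) : Cube (Fin r × D) :=
  fun q => if q.1 = g then y q.2 else x q

/-- representative of the coset of the group `g` -/
def zer (g : Fin r) (x : Cube (Fin r × D)) : Cube (Fin r × D) := put g x fun _ => false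

@[simp] theorem cmp_put (g : Fin r) (x : Cube (Fin r × D)) (y : Cube D) : cmp g (put g x y) = y := by
  funext i
  simp [cmp, put]

theorem cmp_put_ne {g g' : Fin r} (h : g' ≠ g) (x : Cube (Fin r × D)) (y : Cube D) :
    cmp g' (put g x y) = cmp g' x := by
  funext i
  simp [cmp, put, h]

@[simp] theorem put_cmp (g : Fin r) (x : Cube (Fin r × D)) : put g x (cmp g x) = x := by
  funext q
  obtain ⟨h, i⟩ := q
  by_cases hg : h = g
  · subst hg
    simp [cmp, put]
  · simp [put, hg]

@[simp] theorem put_put (g : Fin r) (x : Cube (Fin r × D)) (y y' : Cube D) :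
    put g (put g x y) y' = put g x y' := by
  funext q
  by_cases hg : q.1 = g <;> simp [put, hg]

@[simp] theorem zer_put (g : Fin r) (x : Cube (Fin r × D)) (y : Cube D) :
    zer g (put g x y) = zer g x := by
  simp [zer]

theorem put_zer (g : Fin r) (x : Cube (Fin r × D)) (y : Cube D) :
    put g (zer g x) y = put g x y := by
  simp [zer]

theorem eq_of_zer_cmp {g : Fin r} {x x' : Cube (Fin r × D)} (h1 : zer g x = zer g x')
    (h2 : cmp g x = cmp g x') : x = x' := by
  rw [← put_cmp g x, ← put_cmp g x', ← put_zer, h1, h2, put_zer]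

theorem cmp_of_zer {g g' : Fin r} (hg : g' ≠ g) {x x' : Cube (Fin r × D)}
    (h : zer g x = zer g x') : cmp g' x = cmp g' x' := by
  have := congrArg (cmp g') h
  rwa [zer, zer, cmp_put_ne hg, cmp_put_ne hg] at this

variable [DecidableEq D]

theorem flip_eq_put (g : Fin r) (i : D) (x : Cube (Fin r × D)) :
    flip (g, i) x = put g x (flip i (cmp g x)) := by
  funext q
  obtain ⟨h, j⟩ := q
  by_cases hg : h = g
  · subst hg
    by_cases hj : j = i
    · subst hj
      simp [put, cmp]
    · rw [flip_of_ne (by simp [hj])]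
      simp [put, cmp, hj]
  · rw [flip_of_ne (by simp [hg])]
    simp [put, hg]

@[simp] theorem zer_flip (g : Fin r) (i : D) (x : Cube (Fin r × D)) :
    zer g (flip (g, i) x) = zer g x := by
  rw [flip_eq_put, zer_put]

@[simp] theorem cmp_flip (g : Fin r) (i : D) (x : Cube (Fin r × D)) :
    cmp g (flip (g, i) x) = flip i (cmp g x) := by
  rw [flip_eq_put, cmp_put]

theorem cmp_flip_ne {g g' : Fin r} (h : g' ≠ g) (i : D) (x : Cube (Fin r × D)) :
    cmp g' (flip (g, i) x) = cmp g' x := by
  rw [flip_eq_put, cmp_put_ne h]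

variable [Fintype D]

/-- the class (syndrome) -/
def syn (x : Cube (Fin r × D)) : Cube (Fin r) := fun g => !par (cmp g x)

theorem syn_flip (g : Fin r) (i : D) (x : Cube (Fin r × D)) :
    syn (flip (g, i) x) = flip g (syn x) := by
  funext h
  by_cases hg : h = g
  · subst hg
    rw [flip_same, syn, cmp_flip, par_flip, syn]
  · rw [flip_of_ne hg, syn, cmp_flip_ne hg, syn]

/-- the time of a vertex on the Gray cycle -/
noncomputable def tm (x : Cube (Fin r × D)) : ℕ := gidx (syn x)

omit [DecidableEq D] in
theorem tm_lt (x : Cube (Fin r × D)) : tm x < 2 ^ r := gidx_lt _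

omit [DecidableEq D] in
theorem gcl_tm (x : Cube (Fin r × D)) : gcl r (tm x) = syn x := by
  rw [gcl, Nat.mod_eq_of_lt (tm_lt x), tm, gcode_gidx]

/-- the group used at a vertex -/
noncomputable def gg (hr : 0 < r) (x : Cube (Fin r × D)) : Fin r := gd hr (tm x)

theorem tm_flip (hr : 0 < r) (i : D) (x : Cube (Fin r × D)) :
    tm (flip (gg hr x, i) x) = (tm x + 1) % 2 ^ r := by
  have h1 : gcl r (tm (flip (gg hr x, i) x)) = gcl r (tm x + 1) := by
    rw [gcl_tm, syn_flip, gcl_succ hr, gcl_tm]
    rfl
  have h2 := (gcl_eq_iff r _ _).1 h1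
  rwa [Nat.mod_eq_of_lt (tm_lt _)] at h2

end comps

/-! ### Automorphisms of a coset -/

section aut

variable {D : Type*}

/-- automorphisms: permutation of the coordinates, then translation -/
abbrev Au (D : Type*) := Cube D × Equiv.Perm D

/-- action -/
def act (a : Au D) (y : Cube D) : Cube D := xr (y ∘ a.2.symm) a.1

/-- inverse action -/
def acti (a : Au D) (y : Cube D) : Cube D := xr y a.1 ∘ a.2

@[simp] theorem act_acti (a : Au D) (y : Cube D) : act a (acti a y) = y := by
  funext i
  simp [act, acti]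

@[simp] theorem acti_act (a : Au D) (y : Cube D) : acti a (act a y) = y := by
  funext i
  simp [act, acti]

theorem acti_injective (a : Au D) : Function.Injective (acti a) :=
  Function.LeftInverse.injective (act_acti a)

theorem act_injective (a : Au D) : Function.Injective (act a) :=
  Function.LeftInverse.injective (acti_act a)

theorem act_flip [DecidableEq D] (a : Au D) (i : D) (y : Cube D) :
    act a (flip i y) = flip (a.2 i) (act a y) := by
  funext j
  by_cases h : j = a.2 i
  · subst h
    simp [act]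
  · have h' : a.2.symm j ≠ i := fun h2 => h (by rw [← h2]; simp)
    simp [act, h, h']

theorem acti_flip [DecidableEq D] (a : Au D) (i : D) (y : Cube D) :
    acti a (flip i y) = flip (a.2.symm i) (acti a y) := by
  apply act_injective a
  rw [act_acti, act_flip, act_acti, Equiv.apply_symm_apply]

end aut

/-! ### The matching of a coset -/

section coset

variable {D : Type*} [DecidableEq D] [Fintype D]

/-- state of a coset: percolation and automorphism -/
abbrev Sta (D : Type*) := (CE D → Bool) × Au D

/-- law of the state of a coset -/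
noncomputable def staP (D : Type*) [DecidableEq D] [Fintype D] (p : ℝ) (h0 : 0 ≤ p) (h1 : p ≤ 1) :
    FP (Sta D) := (bern p h0 h1 (CE D)).prod (FP.unif (Au D))

/-- a largest matching of the percolated cube -/
noncomputable def mm (ω : CE D → Bool) : Cube D → Cube D := (un_spec (opn (canE D) ω)).choose

open Classical in
theorem mm_spec (ω : CE D → Bool) : IsMat (opn (canE D) ω) (mm ω) ∧
    (Finset.univ.filter fun x => mm ω x = x).card = un (opn (canE D) ω) := by
  have h := (un_spec (opn (canE D) ω)).choose_spec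
  refine ⟨h.1, ?_⟩
  rw [← h.2]
  unfold mm
  congr

/-- the conjugated matching -/
noncomputable def mcs (s : Sta D) (y : Cube D) : Cube D := act s.2 (mm s.1 (acti s.2 y))

theorem mcs_invol (s : Sta D) (y : Cube D) : mcs s (mcs s y) = y := by
  unfold mcs
  rw [acti_act, (mm_spec s.1).1.1, act_acti]

theorem mcs_eq_iff (s : Sta D) (y : Cube D) : mcs s y = y ↔ mm s.1 (acti s.2 y) = acti s.2 y := by
  unfold mcs
  constructor
  · intro h
    have := congrArg (acti s.2) h
    rwa [acti_act] at this
  · intro h
    rw [h, act_acti]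

theorem mcs_flip_iff (s : Sta D) (y : Cube D) (i : D) :
    mcs s y = flip i y ↔ mm s.1 (acti s.2 y) = flip (s.2.2.symm i) (acti s.2 y) := by
  unfold mcs
  constructor
  · intro h
    have := congrArg (acti s.2) h
    rwa [acti_act, acti_flip] at this
  · intro h
    rw [h, act_flip, act_acti, Equiv.apply_symm_apply]

theorem mcs_edge (s : Sta D) (y : Cube D) : mcs s y = y ∨ ∃ i, mcs s y = flip i y ∧
    s.1 ((canE D).e (acti s.2 y) (s.2.2.symm i)) = true := by
  rcases (mm_spec s.1).1.2 (acti s.2 y) with h | ⟨i, h1, h2⟩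
  · left
    rw [mcs_eq_iff]
    exact h
  · right
    refine ⟨s.2.2 i, ?_, ?_⟩
    · rw [mcs_flip_iff, h1, Equiv.symm_apply_apply]
    · rw [Equiv.symm_apply_apply]
      exact h2

end coset

/-! ### The base map -/

section base

variable {r : ℕ} {D : Type*} [DecidableEq D] [Fintype D]

/-- states of all cosets -/
abbrev Gst (r : ℕ) (D : Type*) := Fin r × Cube (Fin r × D) → Sta D

/-- law of the states -/
noncomputable def gstP (r : ℕ) (D : Type*) [DecidableEq D] [Fintype D] (p : ℝ) (h0 : 0 ≤ p)
    (h1 : p ≤ 1) : FP (Gst r D) := FP.pi fun _ => staP D p h0 h1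

/-- the key (coset) used at a vertex -/
noncomputable def key (hr : 0 < r) (x : Cube (Fin r × D)) : Fin r × Cube (Fin r × D) :=
  (gg hr x, zer (gg hr x) x)

/-- the successor map of the base structure -/
noncomputable def bmap (hr : 0 < r) (φ : Gst r D) (x : Cube (Fin r × D)) :
    Option (Cube (Fin r × D)) :=
  if mcs (φ (key hr x)) (cmp (gg hr x) x) = cmp (gg hr x) x then none
  else some (put (gg hr x) x (mcs (φ (key hr x)) (cmp (gg hr x) x)))

/-- labels of the edges, in terms of the cosets -/
def grLab (A : Fin r × Cube (Fin r × D) → Au D) :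
    EdgeLab (Fin r × D) ((Fin r × Cube (Fin r × D)) × CE D) where
  e x q := ((q.1, zer q.1 x), (canE D).e (acti (A (q.1, zer q.1 x)) (cmp q.1 x))
    ((A (q.1, zer q.1 x)).2.symm q.2))
  symm x q := by
    obtain ⟨g, i⟩ := q
    simp only [zer_flip, cmp_flip, acti_flip, (canE D).symm]
  inj x q y q' h := by
    obtain ⟨g, i⟩ := q
    obtain ⟨g', i'⟩ := q'
    simp only [Prod.mk.injEq] at h
    obtain ⟨⟨h1, h2⟩, h3⟩ := h
    subst h1
    rw [← h2] at h3
    obtain ⟨h4, h5⟩ := (canE D).inj _ _ _ _ h3
    have h6 : i = i' := (Equiv.injective _) h4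
    subst h6
    refine ⟨rfl, ?_⟩
    rcases h5 with h5 | h5
    · left
      exact eq_of_zer_cmp h2 (acti_injective _ h5)
    · right
      rw [← acti_flip] at h5
      have h6 := acti_injective _ h5
      refine eq_of_zer_cmp (g := g) ?_ ?_
      · rw [zer_flip, h2]
      · rw [cmp_flip, h6]

/-- the open edges of the subfibre -/
def opnY (φ : Gst r D) : Cube (Fin r × D) → Cube (Fin r × D) → Prop :=
  opn (grLab fun k => (φ k).2) fun e => (φ e.1).1 e.2

/-- the law of the open edges -/
theorem E_opnY {p : ℝ} {h0 : 0 ≤ p} {h1 : p ≤ 1}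
    (F : (Cube (Fin r × D) → Cube (Fin r × D) → Prop) → ℝ) :
    (gstP r D p h0 h1).E (fun φ => F (opnY φ)) =
      (bern p h0 h1 (CE (Fin r × D))).E (fun ω => F (opn (canE (Fin r × D)) ω)) := by
  unfold gstP staP
  rw [pi_prod, FP.E_swap]
  have h : ∀ A : Fin r × Cube (Fin r × D) → Au D,
      ((FP.pi fun _ : Fin r × Cube (Fin r × D) => bern p h0 h1 (CE D)).E fun ω =>
        F (opnY fun k => (ω k, A k))) =
      (bern p h0 h1 (CE (Fin r × D))).E (fun ω => F (opn (canE (Fin r × D)) ω)) := by
    intro A
    rw [← E_opn (grLab A) F, bern_curry]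
    rfl
  rw [FP.E_congr _ h, FP.E_const]

theorem bmap_some {hr : 0 < r} {φ : Gst r D} {x x' : Cube (Fin r × D)}
    (h : bmap hr φ x = some x') : ∃ i, x' = flip (gg hr x, i) x ∧
      mcs (φ (key hr x)) (cmp (gg hr x) x) = flip i (cmp (gg hr x) x) ∧ opnY φ x x' := by
  unfold bmap at h
  split_ifs at h with h1
  have h2 := Option.some.inj h
  rcases mcs_edge (φ (key hr x)) (cmp (gg hr x) x) with h3 | ⟨i, h3, h4⟩
  · exact absurd h3 h1
  · refine ⟨i, ?_, h3, ?_⟩
    · rw [← h2, h3, flip_eq_put]
    · refine ⟨(gg hr x, i), ?_, h4⟩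
      rw [← h2, h3, flip_eq_put]

theorem bmap_eq_none {hr : 0 < r} {φ : Gst r D} {x : Cube (Fin r × D)} :
    bmap hr φ x = none ↔ mcs (φ (key hr x)) (cmp (gg hr x) x) = cmp (gg hr x) x := by
  unfold bmap
  split_ifs with h <;> simp [h]

theorem bmap_eq_flip {hr : 0 < r} {φ : Gst r D} {x : Cube (Fin r × D)} {i : D} :
    bmap hr φ x = some (flip (gg hr x, i) x) ↔
      mcs (φ (key hr x)) (cmp (gg hr x) x) = flip i (cmp (gg hr x) x) := by
  constructor
  · intro h
    obtain ⟨j, h1, h2, _⟩ := bmap_some h
    have h3 : (gg hr x, i) = (gg hr x, j) := flip_dir_injective x h1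
    rw [Prod.mk.injEq] at h3
    rw [h2, h3.2]
  · intro h
    unfold bmap
    rw [if_neg, h, flip_eq_put]
    rw [h]
    exact flip_ne _ _

theorem bmap_par {hr : 0 < r} {φ : Gst r D} {x x' : Cube (Fin r × D)}
    (h : bmap hr φ x = some x') : par x' = !par x := by
  obtain ⟨i, h1, _⟩ := bmap_some h
  rw [h1, par_flip]

theorem bmap_tm {hr : 0 < r} {φ : Gst r D} {x x' : Cube (Fin r × D)}
    (h : bmap hr φ x = some x') : tm x' = (tm x + 1) % 2 ^ r := by
  obtain ⟨i, h1, _⟩ := bmap_some h
  rw [h1, tm_flip]

/-- the map is injective -/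
theorem bmap_pinj (hr : 2 ≤ r) (φ : Gst r D) : PInj (bmap (by omega) φ) := by
  intro x y v hx hy
  have hr0 : 0 < r := by omega
  -- same time
  have h1 := bmap_tm hx
  have h2 := bmap_tm hy
  have h3 : tm x = tm y := by
    have h4 := tm_lt x
    have h5 := tm_lt y
    rw [h1] at h2
    rcases Nat.lt_or_ge (tm x + 1) (2 ^ r) with h6 | h6
    · rw [Nat.mod_eq_of_lt h6] at h2
      rcases Nat.lt_or_ge (tm y + 1) (2 ^ r) with h7 | h7
      · rw [Nat.mod_eq_of_lt h7] at h2
        omega
      · have h8 : tm y + 1 = 2 ^ r := by omega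
        rw [h8, Nat.mod_self] at h2
        omega
    · have h8 : tm x + 1 = 2 ^ r := by omega
      rw [h8, Nat.mod_self] at h2
      rcases Nat.lt_or_ge (tm y + 1) (2 ^ r) with h7 | h7
      · rw [Nat.mod_eq_of_lt h7] at h2
        omega
      · omega
  have hg : gg hr0 x = gg hr0 y := by unfold gg; rw [h3]
  obtain ⟨i, hx1, hx2, _⟩ := bmap_some hx
  obtain ⟨j, hy1, hy2, _⟩ := bmap_some hy
  -- the same coset
  have hz : zer (gg hr0 x) x = zer (gg hr0 x) y := by
    have e1 : zer (gg hr0 x) v = zer (gg hr0 x) x := by rw [hx1, zer_flip]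
    have e2 : zer (gg hr0 x) v = zer (gg hr0 x) y := by rw [hg, hy1, zer_flip]
    rw [← e1, e2]
  have hk : key hr0 x = key hr0 y := by
    unfold key
    rw [← hg, hz]
  have hc : mcs (φ (key hr0 x)) (cmp (gg hr0 x) x) = mcs (φ (key hr0 x)) (cmp (gg hr0 x) y) := by
    have e1 : cmp (gg hr0 x) v = mcs (φ (key hr0 x)) (cmp (gg hr0 x) x) := by
      rw [hx2, hx1, cmp_flip]
    have e2 : cmp (gg hr0 x) v = mcs (φ (key hr0 x)) (cmp (gg hr0 x) y) := by
      rw [hk, hg, hy2, hy1, cmp_flip]
    rw [← e1, e2]
  have h5 : cmp (gg hr0 x) x = cmp (gg hr0 x) y := by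
    rw [← mcs_invol (φ (key hr0 x)) (cmp (gg hr0 x) x), hc, mcs_invol]
  exact eq_of_zer_cmp hz h5

/-- the whole matching of every coset of the group `0` belongs to the base structure -/
theorem bmap_zero {hr : 2 ≤ r} {φ : Gst r D} {x : Cube (Fin r × D)} {i : D}
    (h : mcs (φ (⟨0, by omega⟩, zer ⟨0, by omega⟩ x)) (cmp ⟨0, by omega⟩ x) =
      flip i (cmp ⟨0, by omega⟩ x)) :
    bmap (by omega) φ x = some (flip (⟨0, by omega⟩, i) x) ∨
      bmap (by omega) φ (flip (⟨0, by omega⟩, i) x) = some x := by
  have hr0 : 0 < r := by omega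
  have hstep : ∀ u : Cube (Fin r × D), Even (tm u) → gg hr0 u = ⟨0, hr0⟩ := fun u hu =>
    gd_even hr0 _ hu
  by_cases he : Even (tm x)
  · left
    have hg := hstep x he
    have := (bmap_eq_flip (hr := hr0) (φ := φ) (x := x) (i := i)).2 (by
      unfold key
      rw [hg]
      exact h)
    rw [hg] at this
    exact this
  · right
    set x' := flip ((⟨0, hr0⟩ : Fin r), i) x with hx'
    have he' : Even (tm x') := by
      have h1 : par (gcl r (tm x')) = !par (gcl r (tm x)) := by
        rw [gcl_tm, gcl_tm, hx', syn_flip, par_flip]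
      rw [par_gcl hr0, par_gcl hr0] at h1
      by_contra hne
      rw [decide_eq_false hne, decide_eq_false he] at h1
      cases h1
    have hg := hstep x' he'
    have h2 : mcs (φ (key hr0 x')) (cmp (gg hr0 x') x') = flip i (cmp (gg hr0 x') x') := by
      unfold key
      rw [hg, hx', zer_flip, cmp_flip, flip_flip, ← h, mcs_invol]
    have h3 := (bmap_eq_flip (hr := hr0) (φ := φ) (x := x') (i := i)).2 h2
    rw [hg] at h3
    rw [h3, hx', flip_flip]

end base

end Pool.Agent.LongCyc.Dense
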