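import Pool.Agent.LongCyc.Dense.FBaseRun

/-!
# Edges in the group 0; the bound on the density of the unmatched vertices
-/

set_option autoImplicit false
set_option synthInstance.maxSize 2000

namespace Pool.Agent.LongCyc.Dense

open Finset

section tail

open Classical in
/-- lower tail for independent events -/
theorem pi_lower {I ι A : Type*} [Fintype I] [DecidableEq I] [Fintype A] (P : FP A) (J : Finset ι)
    (k : ι → I) (hk : Set.InjOn k J) (S : ι → A → Prop) (q : ℝ) (hq : ∀ j ∈ J, q ≤ P.pr (S j))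
    (T : ℝ) : (FP.pi fun _ : I => P).pr (fun φ => ((J.filter fun j => S j (φ (k j))).card : ℝ) < T) ≤
      Real.exp (T - (1 - Real.exp (-1)) * q * J.card) := by
  have h1 : ∀ φ : I → A, Real.exp (-((J.filter fun j => S j (φ (k j))).card : ℝ)) =
      ∏ j ∈ J, (if S j (φ (k j)) then Real.exp (-1) else 1) := by
    intro φ
    rw [Finset.prod_ite, Finset.prod_const, Finset.prod_const_one, mul_one, ← Real.exp_nat_mul]
    congr 1
    ring
  have h2 : (FP.pi fun _ : I => P).E (fun φ => ∏ j ∈ J, (if S j (φ (k j)) then Real.exp (-1) else 1)) =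
      ∏ j ∈ J, (1 - (1 - Real.exp (-1)) * P.pr (S j)) := by
    rw [FP.E_prod_indep (fun _ : I => P) J (fun j => {k j}) ?_
      (fun j φ => if S j (φ (k j)) then Real.exp (-1) else 1) ?_]
    · refine Finset.prod_congr rfl fun j _ => ?_
      rw [FP.E_pi_single (fun _ : I => P) (k j) (fun a => if S j a then Real.exp (-1) else 1), FP.pr_eq,
        ← FP.E_mul_left]
      have h3 : P.E (fun a => if S j a then Real.exp (-1) else 1) =
          P.E (fun a => 1 - (1 - Real.exp (-1)) * (if S j a then 1 else 0)) := by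
        refine FP.E_congr _ fun a => ?_
        split_ifs <;> ring
      rw [h3, FP.E_sub, FP.E_const]
    · intro i hi j hj hij
      simp only [Finset.disjoint_singleton]
      intro h
      exact hij (hk hi hj h)
    · intro j _ φ φ' h
      rw [h _ (Finset.mem_singleton_self _)]
  refine le_trans (FP.lower_tail _ _ T) ?_
  rw [FP.E_congr _ h1, h2]
  have he : Real.exp (-1) ≤ 1 := by
    rw [Real.exp_le_one_iff]
    norm_num
  have h4 : ∏ j ∈ J, (1 - (1 - Real.exp (-1)) * P.pr (S j)) ≤
      ∏ _j ∈ J, Real.exp (-((1 - Real.exp (-1)) * q)) := by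
    refine Finset.prod_le_prod ?_ ?_
    · intro j hj
      have h5 := P.pr_le_one (S j)
      have h6 := P.pr_nonneg (S j)
      have h7 := Real.exp_pos (-1)
      nlinarith
    · intro j hj
      have h5 := hq j hj
      have h6 := Real.add_one_le_exp (-((1 - Real.exp (-1)) * q))
      have h7 : (1 - Real.exp (-1)) * q ≤ (1 - Real.exp (-1)) * P.pr (S j) :=
        mul_le_mul_of_nonneg_left h5 (by linarith)
      linarith
  refine le_trans (mul_le_mul_of_nonneg_left h4 (Real.exp_pos _).le) ?_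
  rw [Finset.prod_const, ← Real.exp_nat_mul, ← Real.exp_add]
  apply le_of_eq
  congr 1
  ring

end tail

section d0

variable {r : ℕ} {D : Type*} [DecidableEq D] [Fintype D] {p : ℝ} {h0 : 0 ≤ p} {h1 : p ≤ 1}

/-- the edge `x, x + (0, i)` belongs to the base structure -/
def bE (hr : 0 < r) (φ : Gst r D) (x : Cube (Fin r × D)) (i : D) : Prop :=
  bmap hr φ x = some (flip (⟨0, hr⟩, i) x) ∨ bmap hr φ (flip (⟨0, hr⟩, i) x) = some x

theorem bE_of_mcs {hr : 2 ≤ r} {φ : Gst r D} {x : Cube (Fin r × D)} {i : D}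
    (h : mcs (φ (⟨0, by omega⟩, zer ⟨0, by omega⟩ x)) (cmp ⟨0, by omega⟩ x) =
      flip i (cmp ⟨0, by omega⟩ x)) : bE (by omega) φ x i := bmap_zero (hr := hr) h

open Classical in
/-- **(1c)** edges of the group `0` in different cosets -/
theorem pr_bE_lower {hr : 2 ≤ r} {ι : Type*} (J : Finset ι) (xx : ι → Cube (Fin r × D)) (ii : ι → D)
    (hJ : Set.InjOn (fun j => zer ⟨0, by omega⟩ (xx j)) J) (T : ℝ) :
    (gstP r D p h0 h1).pr (fun φ => ((J.filter fun j => bE (by omega) φ (xx j) (ii j)).card : ℝ) < T) ≤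
      Real.exp (T - (1 - Real.exp (-1)) * ((1 - eta D p h0 h1) / Fintype.card D) * J.card) := by
  have hr0 : 0 < r := by omega
  have h := pi_lower (staP D p h0 h1) J
    (fun j => ((⟨0, hr0⟩ : Fin r), zer ⟨0, hr0⟩ (xx j))) (fun i hi j hj hij => hJ hi hj (by
      rw [Prod.mk.injEq] at hij
      exact hij.2)) (fun j s => mcs s (cmp ⟨0, hr0⟩ (xx j)) = flip (ii j) (cmp ⟨0, hr0⟩ (xx j)))
    ((1 - eta D p h0 h1) / Fintype.card D) (fun j _ => by
      rw [FP.pr_eq, sta_flip]) T
  refine le_trans (FP.pr_mono _ fun φ h2 => ?_) h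
  refine lt_of_le_of_lt ?_ h2
  rw [Nat.cast_le]
  refine Finset.card_le_card fun j hj => ?_
  simp only [Finset.mem_filter] at hj ⊢
  exact ⟨hj.1, bE_of_mcs (hr := hr) hj.2⟩

end d0

section small

variable {D : Type*} [DecidableEq D] [Fintype D] {p : ℝ} {h0 : 0 ≤ p} {h1 : p ≤ 1}

/-- bound on the density of the unmatched vertices -/
theorem eta_le (h : 2000 ≤ p * Fintype.card D) :
    eta D p h0 h1 ≤ 5 * Real.exp (-(p * Fintype.card D) / 400) := by
  set n := Fintype.card D with hn
  set lam := p * n with hlam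
  set x : ℝ := 2 ^ n * Real.exp (-lam / 400) with hx
  set m := ⌈x⌉₊ with hm
  have hn0 : (0 : ℝ) ≤ n := Nat.cast_nonneg n
  have hlamn : lam ≤ n := by
    rw [hlam]
    nlinarith
  have hn1 : (2000 : ℝ) ≤ n := h.trans hlamn
  -- `x` is large
  have hlog2 : (1 / 2 : ℝ) ≤ Real.log 2 := by
    have := Real.log_two_gt_d9
    linarith
  have h2n : (2 : ℝ) ^ n = Real.exp (n * Real.log 2) := by
    rw [mul_comm, Real.exp_mul, Real.exp_log (by norm_num), Real.rpow_natCast]
  have hx1 : Real.exp (n / 4) ≤ x := by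
    rw [hx, h2n, ← Real.exp_add]
    apply Real.exp_le_exp.2
    nlinarith
  have hx2 : (n : ℝ) / 4 + 1 ≤ x := (Real.add_one_le_exp _).trans hx1
  have hx3 : (1 : ℝ) ≤ x := by linarith
  have hm0 : 0 < m := by
    rw [hm, Nat.ceil_pos]
    linarith
  have hm1 : x ≤ m := Nat.le_ceil x
  have hm2 : (m : ℝ) ≤ 2 * x := by
    have := Nat.ceil_lt_add_one (by linarith : (0 : ℝ) ≤ x)
    linarith
  have he5 : Real.exp (-lam / 400) ≤ 1 / 72 := by
    have h5 : Real.exp (-lam / 400) ≤ Real.exp (-5) := by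
      apply Real.exp_le_exp.2
      linarith
    have h6 : (72 : ℝ) ≤ Real.exp 5 := by
      have h7 := Real.exp_one_gt_d9
      have h8 : Real.exp 5 = Real.exp 1 ^ 5 := by
        rw [← Real.exp_nat_mul]
        norm_num
      rw [h8]
      calc (72 : ℝ) ≤ 2.7 ^ 5 := by norm_num
        _ ≤ Real.exp 1 ^ 5 := pow_le_pow_left₀ (by norm_num) (by linarith) 5
    rw [Real.exp_neg] at h5
    refine h5.trans ?_
    rw [← one_div]
    exact one_div_le_one_div_of_le (by norm_num) h6
  have h36 : 36 * m ≤ 2 ^ n := by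
    have : (36 * m : ℝ) ≤ 2 ^ n := by
      have h2p : (0 : ℝ) < 2 ^ n := by positivity
      calc (36 * m : ℝ) ≤ 72 * x := by linarith
        _ = 2 ^ n * (72 * Real.exp (-lam / 400)) := by rw [hx]; ring
        _ ≤ 2 ^ n * 1 := mul_le_mul_of_nonneg_left (by linarith) h2p.le
        _ = 2 ^ n := mul_one _
    exact_mod_cast this
  have hmR : (0 : ℝ) < m := by exact_mod_cast hm0
  have hlog : 400 * Real.log (2 ^ n / m) ≤ p * n := by
    have h8 : Real.log (2 ^ n / m) ≤ lam / 400 := by
      rw [Real.log_le_iff_le_exp (by positivity), div_le_iff₀ hmR]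
      calc (2 : ℝ) ^ n = Real.exp (lam / 400) * x := by
            rw [hx, mul_comm, mul_assoc, ← Real.exp_add]
            ring_nf
            simp
        _ ≤ Real.exp (lam / 400) * m := mul_le_mul_of_nonneg_left hm1 (Real.exp_pos _).le
    linarith
  have hE := Eun_le (ι := D) h0 h1 hm0 h36 (by linarith) hlog
  rw [← hn] at hE
  unfold eta
  rw [← hn, div_le_iff₀ (by positivity)]
  refine hE.trans ?_
  have h2p : (0 : ℝ) < 2 ^ n := by positivity
  -- the second term
  have h9 : (25 * (2 ^ n * n) * Real.exp (-(p * n * m / 4)) : ℝ) ≤ Real.exp (-lam / 400) := by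
    have e1 : Real.exp (-(p * n * m / 4)) ≤ Real.exp (-(500 + 125 * n)) := by
      apply Real.exp_le_exp.2
      have e2 : (2000 : ℝ) * (n / 4 + 1) ≤ p * n * m := by
        calc (2000 : ℝ) * (n / 4 + 1) ≤ lam * (n / 4 + 1) :=
              mul_le_mul_of_nonneg_right h (by positivity)
          _ ≤ lam * m := mul_le_mul_of_nonneg_left (by linarith) (by linarith)
      linarith
    have e3 : (2 : ℝ) ^ n ≤ Real.exp n := by
      rw [h2n]
      apply Real.exp_le_exp.2
      have := Real.log_two_lt_d9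
      nlinarith
    have e4 : (n : ℝ) ≤ Real.exp n := by
      have := Real.add_one_le_exp (n : ℝ)
      linarith
    have e5 : (25 : ℝ) ≤ Real.exp 25 := by
      have := Real.add_one_le_exp (25 : ℝ)
      linarith
    calc (25 * (2 ^ n * n) * Real.exp (-(p * n * m / 4)) : ℝ)
        ≤ Real.exp 25 * (Real.exp n * Real.exp n) * Real.exp (-(500 + 125 * n)) := by gcongr
      _ = Real.exp (25 + (n + n) + (-(500 + 125 * n))) := by
          rw [Real.exp_add, Real.exp_add, Real.exp_add]
      _ ≤ Real.exp (-lam / 400) := by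
          apply Real.exp_le_exp.2
          linarith
  calc 2 * (m : ℝ) + 2 ^ n * (25 * (2 ^ n * n) * Real.exp (-(p * n * m / 4)))
      ≤ 4 * x + 2 ^ n * Real.exp (-lam / 400) := by
        have := mul_le_mul_of_nonneg_left h9 h2p.le
        linarith
    _ = 5 * Real.exp (-lam / 400) * 2 ^ n := by rw [hx]; ring

end small

end Pool.Agent.LongCyc.Dense
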