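import Pool.Agent.LongCyc.Dense.FBaseProb

/-!
# Runs of the base structure

`Good n φ x`: the forward run of `n` steps from `x` is defined and the keys (cosets) used at its `n`
first vertices are pairwise different.
-/

set_option autoImplicit false
set_option synthInstance.maxSize 2000

namespace Pool.Agent.LongCyc.Dense

open Finset

section walk

variable {r : ℕ} {D : Type*} [DecidableEq D] [Fintype D]

/-- the walk with the directions `w` -/
noncomputable def wpos (hr : 0 < r) (x : Cube (Fin r × D)) (w : ℕ → D) : ℕ → Cube (Fin r × D)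
  | 0 => x
  | t + 1 => flip (gg hr (wpos hr x w t), w t) (wpos hr x w t)

theorem tm_wpos (hr : 0 < r) (x : Cube (Fin r × D)) (w : ℕ → D) (t : ℕ) :
    tm (wpos hr x w t) = (tm x + t) % 2 ^ r := by
  induction t with
  | zero =>
    rw [Nat.add_zero, Nat.mod_eq_of_lt (tm_lt x)]
    rfl
  | succ t ih =>
    rw [wpos, tm_flip, ih, Nat.mod_add_mod, Nat.add_assoc]

theorem gg_wpos (hr : 0 < r) (x : Cube (Fin r × D)) (w : ℕ → D) (t : ℕ) :
    gg hr (wpos hr x w t) = gd hr (tm x + t) := by
  unfold gg
  rw [tm_wpos]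
  exact gd_congr hr (Nat.mod_mod _ _)

theorem wpos_congr (hr : 0 < r) (x : Cube (Fin r × D)) {w w' : ℕ → D} (t : ℕ)
    (h : ∀ s < t, w s = w' s) : wpos hr x w t = wpos hr x w' t := by
  induction t with
  | zero => rfl
  | succ t ih =>
    rw [wpos, wpos, ih fun s hs => h s (by omega), h t (by omega)]

/-- the components on the walk -/
theorem wpos_val (hr : 0 < r) (x : Cube (Fin r × D)) (w : ℕ → D) (t : ℕ) (g : Fin r) (j : D) :
    wpos hr x w t (g, j) = xor (x (g, j))
      (decide (Odd ((Finset.range t).filter fun s => gd hr (tm x + s) = g ∧ w s = j).card)) := by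
  induction t with
  | zero => simp [wpos]
  | succ t ih =>
    rw [wpos, gg_wpos, Finset.range_add_one, Finset.filter_insert]
    by_cases h : gd hr (tm x + t) = g ∧ w t = j
    · obtain ⟨h1, h2⟩ := h
      rw [h1, h2, flip_same, ih, if_pos ⟨rfl, rfl⟩, Finset.card_insert_of_notMem (by simp)]
      set m := ((Finset.range t).filter fun s => gd hr (tm x + s) = g ∧ w s = j).card
      by_cases hm : Odd m
      · have : ¬ Odd (m + 1) := by rw [Nat.not_odd_iff_even]; exact hm.add_one
        rw [decide_eq_true hm, decide_eq_false this]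
        cases x (g, j) <;> rfl
      · have : Odd (m + 1) := by rw [Nat.not_odd_iff_even] at hm; exact hm.add_one
        rw [decide_eq_false hm, decide_eq_true this]
        cases x (g, j) <;> rfl
    · rw [if_neg h, flip_of_ne, ih]
      intro h2
      apply h
      rw [Prod.mk.injEq] at h2
      exact ⟨h2.1.symm, h2.2.symm⟩

/-- the key of the walk at time `t` -/
noncomputable def wkey (hr : 0 < r) (x : Cube (Fin r × D)) (w : ℕ → D) (t : ℕ) :
    Fin r × Cube (Fin r × D) := key hr (wpos hr x w t)

/-- the walk `w` is followed for `t` steps -/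
def Fol (hr : 0 < r) (φ : Gst r D) (x : Cube (Fin r × D)) (w : ℕ → D) (t : ℕ) : Prop :=
  ∀ s < t, bmap hr φ (wpos hr x w s) = some (wpos hr x w (s + 1))

/-- the keys at the times below `t` are different -/
def Fresh (hr : 0 < r) (x : Cube (Fin r × D)) (w : ℕ → D) (t : ℕ) : Prop :=
  ∀ s s', s < s' → s' < t → wkey hr x w s ≠ wkey hr x w s'

/-- the forward run of `n` steps is defined, with different keys -/
def Good (hr : 0 < r) (n : ℕ) (φ : Gst r D) (x : Cube (Fin r × D)) : Prop :=
  ∃ w : ℕ → D, Fol hr φ x w n ∧ Fresh hr x w n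

theorem Fol.it {hr : 0 < r} {φ : Gst r D} {x : Cube (Fin r × D)} {w : ℕ → D} {n : ℕ}
    (h : Fol hr φ x w n) {k : ℕ} (hk : k ≤ n) : it (bmap hr φ) k x = some (wpos hr x w k) := by
  induction k with
  | zero => rfl
  | succ k ih =>
    rw [Dense.it, ih (by omega), Option.bind_some, h k (by omega)]

theorem good_zero [Nonempty D] (hr : 0 < r) (φ : Gst r D) (x : Cube (Fin r × D)) : Good hr 0 φ x :=
  ⟨fun _ => Classical.arbitrary D, fun s hs => absurd hs (by omega), fun s s' _ hs => absurd hs (by omega)⟩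

/-- a minimal failure -/
theorem not_good_cases [Nonempty D] {hr : 0 < r} {φ : Gst r D} {x : Cube (Fin r × D)} {n : ℕ}
    (h : ¬ Good hr n φ x) : ∃ t < n, ∃ w : ℕ → D, Fol hr φ x w t ∧ Fresh hr x w t ∧
      ((Fresh hr x w (t + 1) ∧ bmap hr φ (wpos hr x w t) = none) ∨
        ∃ i < t, wkey hr x w i = wkey hr x w t) := by
  induction n with
  | zero => exact absurd (good_zero hr φ x) h
  | succ n ih =>
    by_cases hn : Good hr n φ x
    · obtain ⟨w, h1, h2⟩ := hn
      refine ⟨n, by omega, w, h1, h2, ?_⟩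
      by_cases h3 : ∃ i < n, wkey hr x w i = wkey hr x w n
      · exact Or.inr h3
      · left
        push Not at h3
        have h4 : Fresh hr x w (n + 1) := by
          intro s s' hs hs'
          rcases Nat.lt_or_ge s' n with h5 | h5
          · exact h2 s s' hs h5
          · have : s' = n := by omega
            subst this
            exact h3 s hs
        refine ⟨h4, ?_⟩
        by_contra hne
        obtain ⟨y, hy⟩ := Option.ne_none_iff_exists'.1 hne
        obtain ⟨i, hi, _⟩ := bmap_some hy
        apply h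
        refine ⟨fun s => if s < n then w s else i, ?_, ?_⟩
        · intro s hs
          have e1 : ∀ s ≤ n, wpos hr x (fun s => if s < n then w s else i) s = wpos hr x w s :=
            fun s hs => wpos_congr hr x s fun s' hs' => if_pos (by omega)
          rcases Nat.lt_or_ge s n with h5 | h5
          · rw [e1 s (by omega), e1 (s + 1) (by omega), h1 s h5]
          · have : s = n := by omega
            subst this
            rw [wpos, e1 s le_rfl, hy, hi]
            simp
        · intro s s' hs hs'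
          have e1 : ∀ s ≤ n, wpos hr x (fun s => if s < n then w s else i) s = wpos hr x w s :=
            fun s hs => wpos_congr hr x s fun s' hs' => if_pos (by omega)
          unfold wkey
          rw [e1 s (by omega), e1 s' (by omega)]
          exact h4 s s' hs hs'
    · obtain ⟨t, ht, h1⟩ := ih hn
      exact ⟨t, by omega, h1⟩

end walk

/-! ### Probabilities of paths -/

section prob

variable {r : ℕ} {D : Type*} [DecidableEq D] [Fintype D] {p : ℝ} {h0 : 0 ≤ p} {h1 : p ≤ 1}

theorem Fol_iff {hr : 0 < r} {φ : Gst r D} {x : Cube (Fin r × D)} {w : ℕ → D} {t : ℕ} :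
    Fol hr φ x w t ↔ ∀ s ∈ Finset.range t, mcs (φ (wkey hr x w s))
      (cmp (gg hr (wpos hr x w s)) (wpos hr x w s)) =
        flip (w s) (cmp (gg hr (wpos hr x w s)) (wpos hr x w s)) := by
  unfold Fol
  simp only [Finset.mem_range]
  refine forall₂_congr fun s _ => ?_
  rw [wpos, bmap_eq_flip]
  rfl

open Classical in
theorem pr_fol {hr : 0 < r} {x : Cube (Fin r × D)} {w : ℕ → D} {t : ℕ} (hf : Fresh hr x w t) :
    (gstP r D p h0 h1).pr (fun φ => Fol hr φ x w t) = ((1 - eta D p h0 h1) / Fintype.card D) ^ t := by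
  have e1 : (gstP r D p h0 h1).pr (fun φ => Fol hr φ x w t) = (gstP r D p h0 h1).E fun φ =>
      ∏ s ∈ Finset.range t, if mcs (φ (wkey hr x w s))
      (cmp (gg hr (wpos hr x w s)) (wpos hr x w s)) =
        flip (w s) (cmp (gg hr (wpos hr x w s)) (wpos hr x w s)) then (1 : ℝ) else 0 := by
    rw [FP.pr_eq]
    refine FP.E_congr _ fun φ => ?_
    rw [Finset.prod_ite_zero]
    simp only [Fol_iff, Finset.prod_const_one]
  rw [e1, gstP, FP.E_prod_indep (fun _ => staP D p h0 h1) (Finset.range t) (fun s => {wkey hr x w s})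
    ?_ (fun s φ => if mcs (φ (wkey hr x w s))
      (cmp (gg hr (wpos hr x w s)) (wpos hr x w s)) =
        flip (w s) (cmp (gg hr (wpos hr x w s)) (wpos hr x w s)) then (1 : ℝ) else 0) ?_]
  · have e2 : ∀ s ∈ Finset.range t, ((FP.pi fun _ : Fin r × Cube (Fin r × D) => staP D p h0 h1).E fun φ =>
        if mcs (φ (wkey hr x w s))
      (cmp (gg hr (wpos hr x w s)) (wpos hr x w s)) =
        flip (w s) (cmp (gg hr (wpos hr x w s)) (wpos hr x w s)) then (1 : ℝ) else 0) =
        (1 - eta D p h0 h1) / Fintype.card D := by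
      intro s _
      rw [FP.E_pi_single (fun _ : Fin r × Cube (Fin r × D) => staP D p h0 h1) (wkey hr x w s)
        (fun a => if mcs a (cmp (gg hr (wpos hr x w s)) (wpos hr x w s)) =
          flip (w s) (cmp (gg hr (wpos hr x w s)) (wpos hr x w s)) then (1 : ℝ) else 0)]
      exact sta_flip _ _
    rw [Finset.prod_congr rfl e2, Finset.prod_const, Finset.card_range]
  · intro s hs s' hs' hne
    simp only [Finset.coe_range, Set.mem_Iio] at hs hs'
    simp only [Finset.disjoint_singleton]
    rcases Nat.lt_or_gt_of_ne hne with h | h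
    · exact hf s s' h hs'
    · exact (hf s' s h hs).symm
  · intro s _ φ φ' h
    rw [h _ (Finset.mem_singleton_self _)]

open Classical in
theorem pr_fol_none [Nonempty D] {hr : 0 < r} {x : Cube (Fin r × D)} {w : ℕ → D} {t : ℕ}
    (hf : Fresh hr x w (t + 1)) :
    (gstP r D p h0 h1).pr (fun φ => Fol hr φ x w t ∧ bmap hr φ (wpos hr x w t) = none) =
      ((1 - eta D p h0 h1) / Fintype.card D) ^ t * eta D p h0 h1 := by
  have hf' : Fresh hr x w t := fun s s' h h' => hf s s' h (by omega)
  have e1 : (gstP r D p h0 h1).pr (fun φ => Fol hr φ x w t ∧ bmap hr φ (wpos hr x w t) = none) =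
      (gstP r D p h0 h1).E fun φ => (if Fol hr φ x w t then 1 else 0) *
        (if bmap hr φ (wpos hr x w t) = none then 1 else 0) := by
    rw [FP.pr_eq]
    refine FP.E_congr _ fun φ => ?_
    by_cases h2 : Fol hr φ x w t <;> by_cases h3 : bmap hr φ (wpos hr x w t) = none <;> simp [h2, h3]
  rw [e1, gstP, FP.E_mul_indep (fun _ => staP D p h0 h1)
    (S := (Finset.range t).image (wkey hr x w)) (T := {wkey hr x w t})]
  · congr 1
    · rw [← FP.pr_eq]
      exact pr_fol hf'
    · simp only [bmap_eq_none]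
      have := FP.E_pi_single (fun _ : Fin r × Cube (Fin r × D) => staP D p h0 h1) (wkey hr x w t)
        (fun a => if mcs a (cmp (gg hr (wpos hr x w t)) (wpos hr x w t)) =
          cmp (gg hr (wpos hr x w t)) (wpos hr x w t) then (1 : ℝ) else 0)
      refine Eq.trans this ?_
      exact sta_fix _
  · rw [Finset.disjoint_singleton_right]
    intro h
    obtain ⟨s, hs, h2⟩ := Finset.mem_image.1 h
    exact hf s t (Finset.mem_range.1 hs) (by omega) h2
  · intro φ φ' h
    have : Fol hr φ x w t ↔ Fol hr φ' x w t := by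
      rw [Fol_iff, Fol_iff]
      refine forall₂_congr fun s hs => ?_
      rw [h _ (Finset.mem_image_of_mem _ hs)]
    simp only [this]
  · intro φ φ' h
    have : bmap hr φ (wpos hr x w t) = none ↔ bmap hr φ' (wpos hr x w t) = none := by
      rw [bmap_eq_none, bmap_eq_none, show key hr (wpos hr x w t) = wkey hr x w t from rfl,
        h _ (Finset.mem_singleton_self _)]
    simp only [this]

end prob

/-! ### Counting words with a repeated key -/

section count

variable {r : ℕ} {D : Type*} [DecidableEq D] [Fintype D]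

/-- extension of a finite word -/
noncomputable def exw [Nonempty D] {t : ℕ} (w : Fin t → D) (s : ℕ) : D :=
  if h : s < t then w ⟨s, h⟩ else Classical.arbitrary D

omit [DecidableEq D] [Fintype D] in
theorem exw_lt [Nonempty D] {t : ℕ} (w : Fin t → D) {s : ℕ} (h : s < t) : exw w s = w ⟨s, h⟩ := by
  rw [exw, dif_pos h]

/-- repeated key: the same class -/
theorem wkey_mod {hr : 2 ≤ r} {x : Cube (Fin r × D)} {w : ℕ → D} {i t : ℕ}
    (h : wkey (by omega) x w i = wkey (by omega) x w t) :
    (tm x + i) % 2 ^ r = (tm x + t) % 2 ^ r := by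
  have hr0 : 0 < r := by omega
  unfold wkey key at h
  rw [Prod.mk.injEq] at h
  obtain ⟨h1, h2⟩ := h
  rw [← h1] at h2
  have h3 := gg_wpos hr0 x w i
  have h4 := gg_wpos hr0 x w t
  have h5 : ∀ n, gcl r (tm x + n) = syn (wpos hr0 x w n) := by
    intro n
    rw [← gcl_tm, tm_wpos]
    exact (gcl_eq_iff r _ _).2 (Nat.mod_mod _ _).symm
  refine gcl_determined hr (g := gg hr0 (wpos hr0 x w i)) h3.symm (h4.symm.trans h1.symm) ?_
  intro g' hg'
  rw [h5, h5, syn, syn, cmp_of_zer hg' h2]

/-- the other components are equal -/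
theorem wkey_cmp {hr : 0 < r} {x : Cube (Fin r × D)} {w : ℕ → D} {i t : ℕ}
    (h : wkey hr x w i = wkey hr x w t) {g' : Fin r} (hg' : g' ≠ gd hr (tm x + i)) (j : D) :
    wpos hr x w i (g', j) = wpos hr x w t (g', j) := by
  unfold wkey key at h
  rw [Prod.mk.injEq] at h
  obtain ⟨h1, h2⟩ := h
  rw [← h1] at h2
  have h3 := gg_wpos hr x w i
  rw [← h3] at hg'
  exact congrFun (cmp_of_zer hg' h2) j

/-- two words with the same repeated key that agree at all but one of the uses of the group `g'` -/
theorem wkey_det {hr : 0 < r} {x : Cube (Fin r × D)} {w w' : ℕ → D} {i t : ℕ} (hit : i < t)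
    (h : wkey hr x w i = wkey hr x w t) (h' : wkey hr x w' i = wkey hr x w' t) {g' : Fin r}
    (hg' : g' ≠ gd hr (tm x + i)) {s0 : ℕ} (hs0 : i ≤ s0) (hs0' : s0 < t)
    (hs : gd hr (tm x + s0) = g')
    (hagree : ∀ s < t, s ≠ s0 → gd hr (tm x + s) = g' → w s = w' s) : w s0 = w' s0 := by
  by_contra hne
  -- count the uses of `j = w s0`
  set j := w s0 with hj
  have key1 : ∀ v : ℕ → D, wkey hr x v i = wkey hr x v t →
      decide (Odd ((Finset.range i).filter fun s => gd hr (tm x + s) = g' ∧ v s = j).card) =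
      decide (Odd ((Finset.range t).filter fun s => gd hr (tm x + s) = g' ∧ v s = j).card) := by
    intro v hv
    have h1 := wkey_cmp hv hg' j
    rw [wpos_val, wpos_val] at h1
    revert h1
    cases x (g', j) <;> simp
  have e1 : (Finset.range i).filter (fun s => gd hr (tm x + s) = g' ∧ w s = j) =
      (Finset.range i).filter fun s => gd hr (tm x + s) = g' ∧ w' s = j := by
    refine Finset.filter_congr fun s hs1 => ?_
    rw [Finset.mem_range] at hs1
    constructor
    · rintro ⟨a, b⟩
      exact ⟨a, by rw [← hagree s (by omega) (by omega) a]; exact b⟩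
    · rintro ⟨a, b⟩
      exact ⟨a, by rw [hagree s (by omega) (by omega) a]; exact b⟩
  have e2 : (Finset.range t).filter (fun s => gd hr (tm x + s) = g' ∧ w s = j) =
      insert s0 ((Finset.range t).filter fun s => gd hr (tm x + s) = g' ∧ w' s = j) := by
    ext s
    simp only [Finset.mem_filter, Finset.mem_range, Finset.mem_insert]
    constructor
    · rintro ⟨a, b, c⟩
      by_cases hss : s = s0
      · exact Or.inl hss
      · right
        exact ⟨a, b, by rw [← hagree s a hss b]; exact c⟩
    · rintro (a | ⟨a, b, c⟩)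
      · rw [a]
        exact ⟨hs0', hs, rfl⟩
      · by_cases hss : s = s0
        · rw [hss]
          exact ⟨hs0', hs, rfl⟩
        · exact ⟨a, b, by rw [hagree s a hss b]; exact c⟩
  have e3 : s0 ∉ (Finset.range t).filter fun s => gd hr (tm x + s) = g' ∧ w' s = j := by
    simp only [Finset.mem_filter, Finset.mem_range, not_and]
    intro _ _ h2
    exact hne h2.symm
  have k1 := key1 w h
  have k2 := key1 w' h'
  rw [e1, e2, Finset.card_insert_of_notMem e3, k2] at k1
  set m := ((Finset.range t).filter fun s => gd hr (tm x + s) = g' ∧ w' s = j).card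
  by_cases hm : Odd m
  · have : ¬ Odd (m + 1) := by rw [Nat.not_odd_iff_even]; exact hm.add_one
    rw [decide_eq_true hm, decide_eq_false this] at k1
    cases k1
  · have : Odd (m + 1) := by rw [Nat.not_odd_iff_even] at hm; exact hm.add_one
    rw [decide_eq_false hm, decide_eq_true this] at k1
    cases k1

open Classical in
theorem card_words [Nonempty D] {hr : 2 ≤ r} (x : Cube (Fin r × D)) {i t : ℕ} (hit : i < t) :
    (Finset.univ.filter fun w : Fin t → D => wkey (by omega) x (exw w) i =
      wkey (by omega) x (exw w) t).card * Fintype.card D ^ (r - 1) ≤ Fintype.card D ^ t := by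
  have hr0 : 0 < r := by omega
  set W := Finset.univ.filter fun w : Fin t → D => wkey hr0 x (exw w) i = wkey hr0 x (exw w) t with hW
  rcases W.eq_empty_or_nonempty with he | ⟨w0, hw0⟩
  · rw [he]
    simp
  have hmod := wkey_mod (hr := hr) (Finset.mem_filter.1 hw0).2
  set g := gd hr0 (tm x + i) with hg
  -- a use of every other group
  have huse : ∀ g' : {g' : Fin r // g' ≠ g}, ∃ s : Fin t, i ≤ s.val ∧ gd hr0 (tm x + s.val) = g'.val := by
    intro g'
    obtain ⟨u, hu1, hu2, hu3⟩ := gd_all hr0 (by omega : tm x + i < tm x + t) hmod g'.val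
    refine ⟨⟨u - tm x, by omega⟩, ?_, ?_⟩
    · simp only
      omega
    · simp only
      rw [show tm x + (u - tm x) = u by omega]
      exact hu3
  choose sp hsp1 hsp2 using huse
  have hinj : Function.Injective sp := by
    intro a b hab
    apply Subtype.ext
    rw [← hsp2 a, ← hsp2 b, hab]
  -- the injection
  have hcard : Fintype.card ({w // w ∈ W} × ({g' : Fin r // g' ≠ g} → D)) ≤ Fintype.card (Fin t → D) := by
    refine Fintype.card_le_of_injective
      (fun q => Function.extend sp q.2 q.1.val) ?_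
    rintro ⟨⟨w, hw⟩, v⟩ ⟨⟨w', hw'⟩, v'⟩ h
    simp only at h
    have hv : v = v' := by
      funext a
      have := congrFun h (sp a)
      rwa [hinj.extend_apply, hinj.extend_apply] at this
    have hww : ∀ s : Fin t, (¬ ∃ a, sp a = s) → w s = w' s := by
      intro s hs
      have := congrFun h s
      rwa [Function.extend_apply' _ _ _ hs, Function.extend_apply' _ _ _ hs] at this
    have : w = w' := by
      funext s
      by_cases hs : ∃ a, sp a = s
      · obtain ⟨a, rfl⟩ := hs
        have h1 := (Finset.mem_filter.1 hw).2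
        have h2 := (Finset.mem_filter.1 hw').2
        have := wkey_det hit h1 h2 (g' := a.val) a.property (hsp1 a) (sp a).isLt (hsp2 a) (by
          intro s hst hs0 hgs
          rw [exw_lt _ hst, exw_lt _ hst]
          apply hww
          rintro ⟨b, hb⟩
          apply hs0
          have hb2 := hsp2 b
          rw [hb] at hb2
          simp only at hb2
          have hab : a = b := Subtype.ext (by rw [← hb2, hgs])
          rw [hab, hb])
        rwa [exw_lt _ (sp a).isLt, exw_lt _ (sp a).isLt] at this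
      · exact hww s hs
    subst this
    subst hv
    rfl
  rw [Fintype.card_prod, Fintype.card_coe, Fintype.card_fun, Fintype.card_fun, Fintype.card_fin] at hcard
  have h3 : Fintype.card {g' : Fin r // g' ≠ g} = r - 1 := by
    rw [Fintype.card_subtype_compl, Fintype.card_fin, Fintype.card_subtype_eq]
  rwa [h3] at hcard

end count

/-! ### The probability of a bad run -/

section bad

variable {r : ℕ} {D : Type*} [DecidableEq D] [Fintype D] {p : ℝ} {h0 : 0 ≤ p} {h1 : p ≤ 1}

theorem one_sub_eta_pow_le (t : ℕ) : ((1 - eta D p h0 h1) / Fintype.card D) ^ t ≤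
    (1 / (Fintype.card D : ℝ)) ^ t := by
  have h2 : 0 ≤ 1 - eta D p h0 h1 := sub_nonneg.2 eta_le_one
  have h3 : 0 ≤ eta D p h0 h1 := eta_nonneg
  refine pow_le_pow_left₀ (by positivity) ?_ t
  exact div_le_div_of_nonneg_right (by linarith) (by positivity)

open Classical in
/-- the first failure is an unmatched vertex -/
theorem pr_none_le [Nonempty D] {hr : 0 < r} (x : Cube (Fin r × D)) (t : ℕ) :
    (gstP r D p h0 h1).pr (fun φ => ∃ w : Fin t → D, Fol hr φ x (exw w) t ∧
      Fresh hr x (exw w) (t + 1) ∧ bmap hr φ (wpos hr x (exw w) t) = none) ≤ eta D p h0 h1 := by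
  have hD : (0 : ℝ) < Fintype.card D := by exact_mod_cast Fintype.card_pos
  have h2 : ∀ w : Fin t → D, (gstP r D p h0 h1).pr (fun φ => Fol hr φ x (exw w) t ∧
      Fresh hr x (exw w) (t + 1) ∧ bmap hr φ (wpos hr x (exw w) t) = none) ≤
      (1 / (Fintype.card D : ℝ)) ^ t * eta D p h0 h1 := by
    intro w
    by_cases hf : Fresh hr x (exw w) (t + 1)
    · refine le_trans (FP.pr_mono (B := fun φ => Fol hr φ x (exw w) t ∧
        bmap hr φ (wpos hr x (exw w) t) = none) _ fun φ h => ⟨h.1, h.2.2⟩) ?_
      rw [pr_fol_none hf]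
      exact mul_le_mul_of_nonneg_right (one_sub_eta_pow_le t) eta_nonneg
    · refine le_trans (le_of_eq ?_) (mul_nonneg (by positivity) eta_nonneg)
      rw [FP.pr_eq]
      rw [FP.E_congr (g := fun _ => 0) _ fun φ => if_neg fun h => hf h.2.1, FP.E_const]
  have h3 := FP.pr_exists (gstP r D p h0 h1) (Finset.univ : Finset (Fin t → D)) fun w φ =>
    Fol hr φ x (exw w) t ∧ Fresh hr x (exw w) (t + 1) ∧ bmap hr φ (wpos hr x (exw w) t) = none
  refine le_trans (le_trans (FP.pr_mono _ ?_) h3) (le_trans (Finset.sum_le_sum fun w _ => h2 w) ?_)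
  · rintro φ ⟨w, hw⟩
    exact ⟨w, Finset.mem_univ _, hw⟩
  · rw [Finset.sum_const, Finset.card_univ, nsmul_eq_mul, Fintype.card_fun, Fintype.card_fin]
    push_cast
    rw [← mul_assoc, ← mul_pow, mul_one_div_cancel hD.ne', one_pow, one_mul]

open Classical in
/-- the first failure is a repeated key -/
theorem pr_rep_le [Nonempty D] {hr : 2 ≤ r} (x : Cube (Fin r × D)) {i t : ℕ} (hit : i < t) :
    (gstP r D p h0 h1).pr (fun φ => ∃ w : Fin t → D, Fol (by omega) φ x (exw w) t ∧
      Fresh (by omega) x (exw w) t ∧ wkey (by omega) x (exw w) i = wkey (by omega) x (exw w) t) ≤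
      1 / (Fintype.card D : ℝ) ^ (r - 1) := by
  have hr0 : 0 < r := by omega
  have hD : (0 : ℝ) < Fintype.card D := by exact_mod_cast Fintype.card_pos
  have h3 := FP.pr_exists (gstP r D p h0 h1) (Finset.univ.filter fun w : Fin t → D =>
    wkey hr0 x (exw w) i = wkey hr0 x (exw w) t) fun w φ =>
    Fol hr0 φ x (exw w) t ∧ Fresh hr0 x (exw w) t
  have h2 : ∀ w : Fin t → D, (gstP r D p h0 h1).pr (fun φ => Fol hr0 φ x (exw w) t ∧
      Fresh hr0 x (exw w) t) ≤ (1 / (Fintype.card D : ℝ)) ^ t := by
    intro w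
    by_cases hf : Fresh hr0 x (exw w) t
    · refine le_trans (FP.pr_mono _ fun φ h => h.1) ?_
      rw [pr_fol hf]
      exact one_sub_eta_pow_le t
    · refine le_trans (le_of_eq ?_) (by positivity)
      rw [FP.pr_eq]
      rw [FP.E_congr (g := fun _ => 0) _ fun φ => if_neg fun h => hf h.2, FP.E_const]
  refine le_trans (le_trans (FP.pr_mono _ ?_) h3) (le_trans (Finset.sum_le_sum fun w _ => h2 w) ?_)
  · rintro φ ⟨w, hw1, hw2, hw3⟩
    exact ⟨w, Finset.mem_filter.2 ⟨Finset.mem_univ _, hw3⟩, hw1, hw2⟩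
  · rw [Finset.sum_const, nsmul_eq_mul]
    have h4 := card_words (hr := hr) x hit
    have h5 : ((Finset.univ.filter fun w : Fin t → D => wkey hr0 x (exw w) i =
      wkey hr0 x (exw w) t).card : ℝ) * (Fintype.card D : ℝ) ^ (r - 1) ≤ (Fintype.card D : ℝ) ^ t := by
      exact_mod_cast h4
    rw [le_div_iff₀ (by positivity)]
    calc _ = (((Finset.univ.filter fun w : Fin t → D => wkey hr0 x (exw w) i =
      wkey hr0 x (exw w) t).card : ℝ) * (Fintype.card D : ℝ) ^ (r - 1)) *
        (1 / (Fintype.card D : ℝ)) ^ t := by ring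
      _ ≤ (Fintype.card D : ℝ) ^ t * (1 / (Fintype.card D : ℝ)) ^ t :=
        mul_le_mul_of_nonneg_right h5 (by positivity)
      _ = 1 := by rw [← mul_pow, mul_one_div_cancel hD.ne', one_pow]

theorem fol_congr {hr : 0 < r} {φ : Gst r D} {x : Cube (Fin r × D)} {w w' : ℕ → D} {t : ℕ}
    (h : ∀ s < t, w s = w' s) : Fol hr φ x w t ↔ Fol hr φ x w' t := by
  unfold Fol
  refine forall₂_congr fun s hs => ?_
  rw [wpos_congr hr x s fun s' hs' => h s' (by omega),
    wpos_congr hr x (s + 1) fun s' hs' => h s' (by omega)]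

/-- **(1b)** probability that the forward run of `n` steps is not good -/
theorem pr_not_good [Nonempty D] (hr : 2 ≤ r) (n : ℕ) (x : Cube (Fin r × D)) :
    (gstP r D p h0 h1).pr (fun φ => ¬ Good (by omega) n φ x) ≤
      n * eta D p h0 h1 + n ^ 2 / (Fintype.card D : ℝ) ^ (r - 1) := by
  classical
  have hr0 : 0 < r := by omega
  have hD : (0 : ℝ) < Fintype.card D := by exact_mod_cast Fintype.card_pos
  -- the failures
  set A : ℕ → Gst r D → Prop := fun t φ => (∃ w : Fin t → D, Fol hr0 φ x (exw w) t ∧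
      Fresh hr0 x (exw w) (t + 1) ∧ bmap hr0 φ (wpos hr0 x (exw w) t) = none) ∨
      ∃ i ∈ Finset.range t, ∃ w : Fin t → D, Fol hr0 φ x (exw w) t ∧
      Fresh hr0 x (exw w) t ∧ wkey hr0 x (exw w) i = wkey hr0 x (exw w) t with hA
  have h1' : ∀ φ, ¬ Good hr0 n φ x → ∃ t ∈ Finset.range n, A t φ := by
    intro φ h
    obtain ⟨t, ht, w, h2, h3, h4⟩ := not_good_cases h
    refine ⟨t, Finset.mem_range.2 ht, ?_⟩
    set w' : Fin t → D := fun s => w s.val with hw'
    have e0 : ∀ s < t, w s = exw w' s := fun s hs => by rw [exw_lt _ hs]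
    have e1 : ∀ s ≤ t, wpos hr0 x w s = wpos hr0 x (exw w') s := fun s hs =>
      wpos_congr hr0 x s fun s' hs' => e0 s' (by omega)
    have e2 : ∀ s ≤ t, wkey hr0 x w s = wkey hr0 x (exw w') s := fun s hs => by
      unfold wkey
      rw [e1 s hs]
    rcases h4 with ⟨h5, h6⟩ | ⟨i, hi, h5⟩
    · left
      refine ⟨w', (fol_congr e0).1 h2, ?_, ?_⟩
      · intro s s' hs hs'
        rw [← e2 s (by omega), ← e2 s' (by omega)]
        exact h5 s s' hs hs'
      · rw [← e1 t le_rfl]
        exact h6
    · right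
      refine ⟨i, Finset.mem_range.2 hi, w', (fol_congr e0).1 h2, ?_, ?_⟩
      · intro s s' hs hs'
        rw [← e2 s (by omega), ← e2 s' (by omega)]
        exact h3 s s' hs hs'
      · rw [← e2 i (by omega), ← e2 t le_rfl]
        exact h5
  have h2 : ∀ t ∈ Finset.range n, (gstP r D p h0 h1).pr (A t) ≤
      eta D p h0 h1 + n / (Fintype.card D : ℝ) ^ (r - 1) := by
    intro t ht
    rw [Finset.mem_range] at ht
    refine le_trans (FP.pr_or _ _ _) (add_le_add (pr_none_le x t) ?_)
    refine le_trans (FP.pr_exists _ _ _) ?_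
    refine le_trans (Finset.sum_le_sum (g := fun _ => 1 / (Fintype.card D : ℝ) ^ (r - 1))
      fun i hi => pr_rep_le (hr := hr) x (Finset.mem_range.1 hi)) ?_
    rw [Finset.sum_const, Finset.card_range, nsmul_eq_mul, mul_one_div]
    exact div_le_div_of_nonneg_right (by exact_mod_cast ht.le) (by positivity)
  refine le_trans (FP.pr_mono _ h1') (le_trans (FP.pr_exists _ _ _) (le_trans (Finset.sum_le_sum h2) ?_))
  rw [Finset.sum_const, Finset.card_range, nsmul_eq_mul]
  apply le_of_eq
  ring

end bad

/-! ### Deterministic consequences -/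

section det

variable {r : ℕ} {D : Type*} [DecidableEq D] [Fintype D]

theorem Good.mono {hr : 0 < r} {φ : Gst r D} {x : Cube (Fin r × D)} {m n : ℕ} (hmn : m ≤ n)
    (h : Good hr n φ x) : Good hr m φ x := by
  obtain ⟨w, h1, h2⟩ := h
  exact ⟨w, fun s hs => h1 s (by omega), fun s s' h3 h4 => h2 s s' h3 (by omega)⟩

/-- a later start -/
theorem Good.shift {hr : 0 < r} {φ : Gst r D} {x y : Cube (Fin r × D)} {m n : ℕ}
    (h : Good hr (m + n) φ x) (hy : it (bmap hr φ) m x = some y) : Good hr n φ y := by
  obtain ⟨w, h1, h2⟩ := h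
  have h3 := Fol.it h1 (k := m) (by omega)
  rw [h3] at hy
  have hy' := Option.some.inj hy
  have h4 : ∀ k, wpos hr y (fun s => w (m + s)) k = wpos hr x w (m + k) := by
    intro k
    induction k with
    | zero => exact hy'.symm
    | succ k ih => rw [wpos, ih, ← Nat.add_assoc, wpos]
  refine ⟨fun s => w (m + s), ?_, ?_⟩
  · intro s hs
    rw [h4, h4, ← Nat.add_assoc]
    exact h1 (m + s) (by omega)
  · intro s s' hs hs'
    unfold wkey
    rw [h4, h4]
    exact h2 (m + s) (m + s') (by omega) (by omega)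

theorem Good.it_ne_none {hr : 0 < r} {φ : Gst r D} {x : Cube (Fin r × D)} {n k : ℕ}
    (h : Good hr n φ x) (hk : k ≤ n) : it (bmap hr φ) k x ≠ none := by
  obtain ⟨w, h1, h2⟩ := h
  rw [Fol.it h1 hk]
  exact Option.some_ne_none _

/-- a good run has different vertices, and different keys -/
theorem Good.key_ne {hr : 0 < r} {φ : Gst r D} {x y y' : Cube (Fin r × D)} {n k k' : ℕ}
    (h : Good hr n φ x) (hk : k < k') (hk' : k' < n) (hy : it (bmap hr φ) k x = some y)
    (hy' : it (bmap hr φ) k' x = some y') : key hr y ≠ key hr y' := by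
  obtain ⟨w, h1, h2⟩ := h
  rw [Fol.it h1 (by omega)] at hy hy'
  rw [← Option.some.inj hy, ← Option.some.inj hy']
  exact h2 k k' hk hk'

theorem Good.no_return {hr : 0 < r} {φ : Gst r D} {x : Cube (Fin r × D)} {n k : ℕ}
    (h : Good hr n φ x) (hk : 1 ≤ k) (hk' : k < n) : it (bmap hr φ) k x ≠ some x := by
  intro h2
  exact h.key_ne (k := 0) (k' := k) (by omega) hk' rfl h2 rfl

/-- no 2-cycles -/
theorem bmap_no2 (hr : 2 ≤ r) (φ : Gst r D) {x y : Cube (Fin r × D)}
    (h : bmap (by omega) φ x = some y) : bmap (by omega) φ y ≠ some x := by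
  intro h2
  have h3 := bmap_tm h
  have h4 := bmap_tm h2
  have h5 := tm_lt x
  have h6 := tm_lt y
  have h7 : 4 ≤ 2 ^ r := by
    calc 4 = 2 ^ 2 := by norm_num
      _ ≤ 2 ^ r := Nat.pow_le_pow_right (by norm_num) hr
  rcases Nat.lt_or_ge (tm x + 1) (2 ^ r) with h8 | h8
  · rw [Nat.mod_eq_of_lt h8] at h3
    rw [h3] at h4
    rcases Nat.lt_or_ge (tm x + 1 + 1) (2 ^ r) with h9 | h9
    · rw [Nat.mod_eq_of_lt h9] at h4
      omega
    · have : tm x + 1 + 1 = 2 ^ r := by omega
      rw [this, Nat.mod_self] at h4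
      omega
  · have : tm x + 1 = 2 ^ r := by omega
    rw [this, Nat.mod_self] at h3
    rw [h3, Nat.mod_eq_of_lt (by omega)] at h4
    omega

omit [DecidableEq D] in
/-- at least every second step is in the group 0 -/
theorem gg_zero_of_even {hr : 0 < r} {x : Cube (Fin r × D)} (h : Even (tm x)) :
    gg hr x = ⟨0, hr⟩ := gd_even hr _ h

omit [DecidableEq D] in
theorem gg_zero_iff {hr : 2 ≤ r} {x : Cube (Fin r × D)} :
    gg (by omega) x = ⟨0, by omega⟩ ↔ Even (tm x) := by
  constructor
  · intro h
    by_contra hne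
    exact gd_odd hr _ hne h
  · intro h
    exact gd_even (by omega) _ h

end det

end Pool.Agent.LongCyc.Dense
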