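import Pool.Agent.LongCyc.Perc
import Pool.Agent.LongCyc.Dense.Defs

/-!
# Dense regime, section 4: random fibre fields, selected trees, trails (definitions)

`κ` = old directions, `μ` = fresh directions, divided into `T` groups by `gp : μ → Fin T`.
A point of the big cube is a pair `(y, z)`, `y : Cube κ`, `z : Cube μ`; the fibre over `z` carries a random configuration
(a partial injection `cf x` and a set `Uf x` of usable vertices, `x : X` random), the fresh edges (rungs)
`(y; z, z + e_i)` are open independently with probability `p`.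
-/

set_option autoImplicit false

namespace Pool.Agent.LongCyc.Dense

open Finset

section Lattice

variable {κ μ : Type} [DecidableEq κ] [Fintype κ] [DecidableEq μ] [Fintype μ] {T : ℕ}

/-- total parity: `true` = even -/
def par2 (y : Cube κ) (z : Cube μ) : Bool := par y == par z

/-- the first `k` groups of `z` are flipped in the direction `j a` -/
def zp (gp : μ → Fin T) (z : Cube μ) (j : Fin T → μ) (k : ℕ) : Cube μ :=
  fun q => xor (z q) (decide ((gp q).val < k ∧ j (gp q) = q))

/-- position of the trail after `k` steps: `y_0 = y`, `y_{k+1} = c_{z_{k+1}}(y_k)` -/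
def pos (gp : μ → Fin T) (c : Cube μ → Cube κ → Option (Cube κ)) (z : Cube μ) (j : Fin T → μ)
    (y : Cube κ) : ℕ → Option (Cube κ)
  | 0 => some y
  | k + 1 => (pos gp c z j y k).bind (c (zp gp z j (k + 1)))

/-- index of a potential trail: start `(y, z)` and directions `j` -/
abbrev TI (κ μ : Type) (T : ℕ) := Cube κ × Cube μ × (Fin T → μ)

/-- **trail** from `(y, z)` along `j`: `T` rungs, `T - 1` cut vertices `(y_k, z_{k+1})`, `k + 1 < T`; `ε` = the total parity
of the starts -/
structure IsTrail (gp : μ → Fin T) (ε : Bool) (c : Cube μ → Cube κ → Option (Cube κ))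
    (U : Cube μ → Finset (Cube κ)) (o : Cube κ → Cube μ → μ → Prop) (q : TI κ μ T) : Prop where
  dir : ∀ a, gp (q.2.2 a) = a
  par : par2 q.1 q.2.1 = ε
  start : ∀ w, c q.2.1 w ≠ some q.1
  rung : ∀ k : Fin T, ∃ u, pos gp c q.2.1 q.2.2 q.1 k = some u ∧ o u (zp gp q.2.1 q.2.2 k) (q.2.2 k)
  use : ∀ k : ℕ, k + 1 < T → ∃ u, pos gp c q.2.1 q.2.2 q.1 k = some u ∧ u ∈ U (zp gp q.2.1 q.2.2 (k + 1))
  fin : ∃ u, pos gp c q.2.1 q.2.2 q.1 (T - 1) = some u ∧ c (zp gp q.2.1 q.2.2 T) u = none

/-- **bad pair** of trails: cut vertices `w_a` of `q`, `w_b` of `q'` in the same fibre with `c^k w_a = w_b`, `k ≤ L`, and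
(`k = 0` or `a ≠ b` or `a = as`) -/
def BadPair (gp : μ → Fin T) (c : Cube μ → Cube κ → Option (Cube κ)) (L as : ℕ) (q q' : TI κ μ T) : Prop :=
  ∃ a b k : ℕ, a + 1 < T ∧ b + 1 < T ∧ k ≤ L ∧ zp gp q.2.1 q.2.2 (a + 1) = zp gp q'.2.1 q'.2.2 (b + 1) ∧
    (∃ u u', pos gp c q.2.1 q.2.2 q.1 a = some u ∧ pos gp c q'.2.1 q'.2.2 q'.1 b = some u' ∧
      it (c (zp gp q.2.1 q.2.2 (a + 1))) k u = some u') ∧ (k = 0 ∨ a ≠ b ∨ a = as)

/-- the coset `z + span (groups in l)` -/
def cos (gp : μ → Fin T) (l : List (Fin T)) (z : Cube μ) : Finset (Cube μ) :=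
  univ.filter fun z' => ∀ q : μ, gp q ∉ l → z' q = z q

/-- a fixed choice of `r` elements -/
noncomputable def pick {A : Type} (r : ℕ) (J : Finset A) : Finset A := by
  classical exact if h : r ≤ J.card then (Finset.exists_subset_card_eq h).choose else ∅

theorem pick_subset {A : Type} (r : ℕ) (J : Finset A) : pick r J ⊆ J := by
  classical
  unfold pick
  split_ifs with h
  · exact (Finset.exists_subset_card_eq h).choose_spec.1
  · exact Finset.empty_subset _

theorem pick_card {A : Type} {r : ℕ} {J : Finset A} (h : r ≤ J.card) : (pick r J).card = r := by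
  classical
  unfold pick
  rw [dif_pos h]
  exact (Finset.exists_subset_card_eq h).choose_spec.2

theorem pick_empty {A : Type} {r : ℕ} {J : Finset A} (h : J.card < r) : pick r J = ∅ := by
  classical
  unfold pick
  rw [dif_neg (by omega)]

/-- the alive children of `(y, z)` in the group `a`: the rung is open, the step `st` in the next fibre is possible, and the
tree `Lf` below is not empty -/
noncomputable def alive (gp : μ → Fin T) (st : Cube μ → Cube κ → Option (Cube κ))
    (o : Cube κ → Cube μ → μ → Prop) (Lf : Cube κ → Cube μ → Finset (Cube κ × Cube μ)) (a : Fin T)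
    (y : Cube κ) (z : Cube μ) : Finset μ := by
  classical
  exact univ.filter fun i => gp i = a ∧ o y z i ∧
    ∃ y', st (flip i z) y = some y' ∧ (Lf y' (flip i z)).Nonempty

/-- **selected tree**: leaves reached from `(y, z)` through the groups in the list; every node takes a fixed choice of
`r a` alive children; empty if dead. `st z'` = the step in the fibre `z'`. -/
noncomputable def LT (gp : μ → Fin T) (st : Cube μ → Cube κ → Option (Cube κ))
    (o : Cube κ → Cube μ → μ → Prop) (r : Fin T → ℕ) :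
    List (Fin T) → Cube κ → Cube μ → Finset (Cube κ × Cube μ)
  | [], y, z => {(y, z)}
  | a :: l, y, z => by
      classical
      exact (pick (r a) (alive gp st o (LT gp st o r l) a y z)).biUnion fun i =>
        (st (flip i z) y).elim ∅ fun y' => LT gp st o r l y' (flip i z)

end Lattice

section Field

variable {κ μ : Type} [DecidableEq κ] [Fintype κ] [DecidableEq μ] [Fintype μ] {T : ℕ} {X : Type} [Fintype X]

/-- sample space of a round: fibre data, rung bits -/
abbrev Smp (X κ μ : Type) [DecidableEq μ] := (Cube μ → X) × (Cube κ × CE μ → Bool)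

/-- law of a round: independent fibres, independent rungs -/
noncomputable def lawR (κ : Type) [DecidableEq κ] [Fintype κ] (ν : Cube μ → FP X) (p : ℝ) (h0 : 0 ≤ p)
    (h1 : p ≤ 1) : FP (Smp X κ μ) := (FP.pi ν).prod (bern p h0 h1 (Cube κ × CE μ))

/-- the rung `(y; z, z + e_i)` is open -/
def rgo (b : Cube κ × CE μ → Bool) (y : Cube κ) (z : Cube μ) (i : μ) : Prop :=
  b (y, (canE μ).e z i) = true

/-- forward step through a usable vertex -/
noncomputable def stF (cf : X → Cube κ → Option (Cube κ)) (Uf : X → Finset (Cube κ)) (x : X) (y : Cube κ) :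
    Option (Cube κ) := if y ∈ Uf x then cf x y else none

/-- backward step through a usable vertex -/
noncomputable def stB (cf : X → Cube κ → Option (Cube κ)) (Uf : X → Finset (Cube κ)) (x : X) (y : Cube κ) :
    Option (Cube κ) := by
  classical exact if h : ∃ w, w ∈ Uf x ∧ cf x w = some y then some h.choose else none

/-- start = not in the range -/
def isSt (cf : X → Cube κ → Option (Cube κ)) (x : X) (y : Cube κ) : Prop := ∀ w, cf x w ≠ some y

/-- end = not in the domain -/
def isEn (cf : X → Cube κ → Option (Cube κ)) (x : X) (y : Cube κ) : Prop := cf x y = none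

/-- inverse partial map -/
noncomputable def pinv (c : Cube κ → Option (Cube κ)) (y : Cube κ) : Option (Cube κ) := by
  classical exact if h : ∃ w, c w = some y then some h.choose else none

/-- image of the usable vertices -/
noncomputable def imU (c : Cube κ → Option (Cube κ)) (U : Finset (Cube κ)) : Finset (Cube κ) := by
  classical exact univ.filter fun v => ∃ w ∈ U, c w = some v

/-- hypotheses on a random fibre field; `ε` = total parity of the starts that are treated, `u` = density of the starts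
(and of the ends), `α` = lower bound for the density of the usable vertices -/
structure FldH (ν : Cube μ → FP X) (cf : X → Cube κ → Option (Cube κ)) (Uf : X → Finset (Cube κ))
    (act : Cube κ → X ≃ X) (ε : Bool) (u α : ℝ) : Prop where
  inj : ∀ x, PInj (cf x)
  flp : ∀ x y y', cf x y = some y' → par y' = !par y
  dom : ∀ x y, y ∈ Uf x → ∃ y', cf x y = some y'
  starts : ∀ (y : Cube κ) (z : Cube μ), par2 y z = ε → (ν z).pr (fun x => isSt cf x y) = u
  ends : ∀ (y : Cube κ) (z : Cube μ), par2 y z = !ε → (ν z).pr (fun x => isEn cf x y) = u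
  useF : ∀ (y : Cube κ) (z : Cube μ), par2 y z = !ε → α ≤ (ν z).pr (fun x => y ∈ Uf x)
  useB : ∀ (y : Cube κ) (z : Cube μ), par2 y z = ε → α ≤ (ν z).pr (fun x => ∃ w ∈ Uf x, cf x w = some y)
  act_c : ∀ η x y, cf (act η x) (xr y η) = (cf x y).map fun v => xr v η
  act_U : ∀ η x y, xr y η ∈ Uf (act η x) ↔ y ∈ Uf x
  act_w : ∀ (η : Cube κ) (ζ z : Cube μ) (x : X), par η = par ζ → (ν (xr z ζ)).w (act η x) = (ν z).w x

/-- leaves of the forward tree -/
noncomputable def LF (gp : μ → Fin T) (cf : X → Cube κ → Option (Cube κ)) (Uf : X → Finset (Cube κ))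
    (r : Fin T → ℕ) (l : List (Fin T)) (s : Smp X κ μ) (y : Cube κ) (z : Cube μ) :
    Finset (Cube κ × Cube μ) := LT gp (fun z' => stF cf Uf (s.1 z')) (rgo s.2) r l y z

/-- leaves of the backward tree -/
noncomputable def LB (gp : μ → Fin T) (cf : X → Cube κ → Option (Cube κ)) (Uf : X → Finset (Cube κ))
    (r : Fin T → ℕ) (l : List (Fin T)) (s : Smp X κ μ) (y : Cube κ) (z : Cube μ) :
    Finset (Cube κ × Cube μ) := LT gp (fun z' => stB cf Uf (s.1 z')) (rgo s.2) r l y z

/-- number of the ends whose backward tree has the leaf `(y, z)` -/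
noncomputable def Nm (gp : μ → Fin T) (cf : X → Cube κ → Option (Cube κ)) (Uf : X → Finset (Cube κ))
    (r : Fin T → ℕ) (l : List (Fin T)) (s : Smp X κ μ) (y : Cube κ) (z : Cube μ) : ℕ := by
  classical
  exact (univ.filter fun e : Cube κ × Cube μ => isEn cf (s.1 e.2) e.1 ∧
    (y, z) ∈ LB gp cf Uf r l s e.1 e.2).card

/-- number of the selected trails from `(y, z)`: forward tree through the groups in `lF`, middle group `m`, backward trees
of the ends through the groups in `lB` -/
noncomputable def nsel (gp : μ → Fin T) (cf : X → Cube κ → Option (Cube κ)) (Uf : X → Finset (Cube κ))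
    (r : Fin T → ℕ) (lF : List (Fin T)) (m : Fin T) (lB : List (Fin T)) (s : Smp X κ μ) (y : Cube κ)
    (z : Cube μ) : ℕ := by
  classical
  exact if isSt cf (s.1 z) y then
    ∑ q ∈ LF gp cf Uf r lF s y z, ∑ i : μ,
      if gp i = m ∧ rgo s.2 q.1 q.2 i then Nm gp cf Uf r lB s q.1 (flip i q.2) else 0
    else 0

/-- a start with a nonempty forward tree -/
def AliveSt (gp : μ → Fin T) (cf : X → Cube κ → Option (Cube κ)) (Uf : X → Finset (Cube κ)) (r : Fin T → ℕ)
    (lF : List (Fin T)) (s : Smp X κ μ) (y : Cube κ) (z : Cube μ) : Prop :=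
  isSt cf (s.1 z) y ∧ (LF gp cf Uf r lF s y z).Nonempty

/-- tuple `(start, forward leaf, middle direction, end)` -/
abbrev Tup (κ μ : Type) := (Cube κ × Cube μ) × (Cube κ × Cube μ) × μ × (Cube κ × Cube μ)

/-- **selected tuple** -/
def Sel (gp : μ → Fin T) (ε : Bool) (cf : X → Cube κ → Option (Cube κ)) (Uf : X → Finset (Cube κ)) (r : Fin T → ℕ)
    (lF : List (Fin T)) (m : Fin T) (lB : List (Fin T)) (s : Smp X κ μ) (q : Tup κ μ) : Prop :=
  par2 q.1.1 q.1.2 = ε ∧ isSt cf (s.1 q.1.2) q.1.1 ∧ q.2.1 ∈ LF gp cf Uf r lF s q.1.1 q.1.2 ∧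
    gp q.2.2.1 = m ∧ rgo s.2 q.2.1.1 q.2.1.2 q.2.2.1 ∧ isEn cf (s.1 q.2.2.2.2) q.2.2.2.1 ∧
    (q.2.1.1, flip q.2.2.1 q.2.1.2) ∈ LB gp cf Uf r lB s q.2.2.2.1 q.2.2.2.2

/-- size of a group -/
def gsz {μ : Type} [Fintype μ] {T : ℕ} (gp : μ → Fin T) (a : Fin T) : ℕ := (univ.filter fun i => gp i = a).card

/-- endpoint of a trail -/
def tend (gp : μ → Fin T) (c : Cube μ → Cube κ → Option (Cube κ)) (q : TI κ μ T) : Option (Cube κ) × Cube μ :=
  (pos gp c q.2.1 q.2.2 q.1 (T - 1), zp gp q.2.1 q.2.2 T)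

/-- ordered pairs of trails with different starts and different ends which are bad -/
def BadT (gp : μ → Fin T) (ε : Bool) (cf : X → Cube κ → Option (Cube κ)) (Uf : X → Finset (Cube κ)) (L as : ℕ)
    (s : Smp X κ μ) (q : TI κ μ T × TI κ μ T) : Prop :=
  IsTrail gp ε (fun z => cf (s.1 z)) (fun z => Uf (s.1 z)) (rgo s.2) q.1 ∧
  IsTrail gp ε (fun z => cf (s.1 z)) (fun z => Uf (s.1 z)) (rgo s.2) q.2 ∧
  (q.1.1, q.1.2.1) ≠ (q.2.1, q.2.2.1) ∧
  tend gp (fun z => cf (s.1 z)) q.1 ≠ tend gp (fun z => cf (s.1 z)) q.2 ∧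
  BadPair gp (fun z => cf (s.1 z)) L as q.1 q.2

/-- parameters of a round; `u = v ^ 100` is the density of the starts -/
structure RPar (gp : μ → Fin T) (t L : ℕ) (r : Fin T → ℕ) (p v α : ℝ) : Prop where
  hT : T = 2 * t + 1
  ht : 1 ≤ t
  hv : 0 < v
  hv1 : v ≤ 1 / 100
  hL : (L + 1 : ℝ) * v ≤ 1
  hTv : (T : ℝ) * v ≤ 1
  hr : ∀ a, 1 ≤ r a
  h16 : ∀ a, 16 * (r a : ℝ) ≤ α * p * gsz gp a
  hroot : ∀ a : Fin T, (a.val = 0 ∨ a.val = T - 1) → 64 * Real.log (1 / v ^ 100) ≤ α * p * gsz gp a
  symr : ∀ a b : Fin T, a.val + b.val = 2 * t → r a = r b ∧ gsz gp a = gsz gp b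
  hR : 1 ≤ v ^ 90 * ∏ a ∈ univ.filter (fun a : Fin T => a.val < t), (r a : ℝ)
  hχ : v * ∏ a ∈ univ.filter (fun a : Fin T => a.val < t), (p * gsz gp a) ≤
    ∏ a ∈ univ.filter (fun a : Fin T => a.val < t), (r a : ℝ)

end Field

end Pool.Agent.LongCyc.Dense
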