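import Pool.Agent.LongCyc.Dense.Supp

/-!
# Dense regime, section 4 (R3): invariance and the mean of the number of ends with a given leaf
-/

set_option autoImplicit false
set_option linter.unusedSectionVars false

namespace Pool.Agent.LongCyc.Dense

open Finset

section NmMean

variable {κ μ : Type} [DecidableEq κ] [Fintype κ] [DecidableEq μ] [Fintype μ] {T : ℕ} {X : Type}

theorem canE_xr (z ζ : Cube μ) (i : μ) :
    (canE μ).e (xr (Function.update z i false) ζ) i = (canE μ).e (xr z ζ) i := by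
  cases hz : z i with
  | false => rw [← hz, Function.update_eq_self]
  | true =>
    have h1 : Function.update z i false = flip i z := by rw [flip, hz]; rfl
    rw [h1, xr_flip, (canE μ).symm]

/-- translation of the edge labels -/
def shE (ζ : Cube μ) (e : CE μ) : CE μ := (canE μ).e (xr e.1.1 ζ) e.1.2

theorem shE_can (ζ z : Cube μ) (i : μ) : shE ζ ((canE μ).e z i) = (canE μ).e (xr z ζ) i :=
  canE_xr z ζ i

theorem shE_shE (ζ : Cube μ) (e : CE μ) : shE ζ (shE ζ e) = e := by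
  rw [show shE ζ e = (canE μ).e (xr e.1.1 ζ) e.1.2 from rfl, shE_can, xr_xr]
  obtain ⟨⟨x, i⟩, hx⟩ := e
  apply Subtype.ext
  show (Function.update x i false, i) = (x, i)
  dsimp only at hx
  rw [← hx, Function.update_eq_self]

/-- translation -/
def xrE {ι : Type} (ζ : Cube ι) : Cube ι ≃ Cube ι where
  toFun z := xr z ζ
  invFun z := xr z ζ
  left_inv z := xr_xr z ζ
  right_inv z := xr_xr z ζ

/-- translation of the rung labels -/
def shR (η : Cube κ) (ζ : Cube μ) : Cube κ × CE μ ≃ Cube κ × CE μ where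
  toFun e := (xr e.1 η, shE ζ e.2)
  invFun e := (xr e.1 η, shE ζ e.2)
  left_inv e := by simp only [xr_xr, shE_shE]
  right_inv e := by simp only [xr_xr, shE_shE]

/-- translation of a sample -/
def shS (act : Cube κ → X ≃ X) (η : Cube κ) (ζ : Cube μ) : Smp X κ μ ≃ Smp X κ μ where
  toFun s := (fun z => act η (s.1 (xr z ζ)), fun e => s.2 (shR η ζ e))
  invFun s := (fun z => (act η).symm (s.1 (xr z ζ)), fun e => s.2 ((shR η ζ).symm e))
  left_inv s := by
    refine Prod.ext ?_ ?_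
    · funext z
      show (act η).symm (act η (s.1 (xr (xr z ζ) ζ))) = s.1 z
      rw [xr_xr, Equiv.symm_apply_apply]
    · funext e
      show s.2 (shR η ζ ((shR η ζ).symm e)) = s.2 e
      rw [Equiv.apply_symm_apply]
  right_inv s := by
    refine Prod.ext ?_ ?_
    · funext z
      show act η ((act η).symm (s.1 (xr (xr z ζ) ζ))) = s.1 z
      rw [xr_xr, Equiv.apply_symm_apply]
    · funext e
      show s.2 ((shR η ζ).symm (shR η ζ e)) = s.2 e
      rw [Equiv.symm_apply_apply]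

theorem rgo_shS (act : Cube κ → X ≃ X) (η : Cube κ) (ζ : Cube μ) (s : Smp X κ μ) (y : Cube κ)
    (z : Cube μ) (i : μ) : rgo (shS act η ζ s).2 (xr y η) (xr z ζ) i ↔ rgo s.2 y z i := by
  unfold rgo
  show s.2 (xr (xr y η) η, shE ζ ((canE μ).e (xr z ζ) i)) = true ↔ _
  rw [xr_xr, shE_can, xr_xr]

variable [Fintype X] {ν : Cube μ → FP X} {p : ℝ} {h0 : 0 ≤ p} {h1 : p ≤ 1}
  {cf : X → Cube κ → Option (Cube κ)} {Uf : X → Finset (Cube κ)} {act : Cube κ → X ≃ X} {ε : Bool}
  {u α : ℝ}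

theorem E_shS (hF : FldH ν cf Uf act ε u α) {η : Cube κ} {ζ : Cube μ} (hp : par η = par ζ)
    (F : Smp X κ μ → ℝ) :
    (lawR κ ν p h0 h1).E (fun s => F (shS act η ζ s)) = (lawR κ ν p h0 h1).E F := by
  unfold FP.E
  rw [← Equiv.sum_comp (shS act η ζ) fun s => (lawR κ ν p h0 h1).w s * F s]
  refine Finset.sum_congr rfl fun s _ => ?_
  congr 1
  show (FP.pi ν).w s.1 * (bern p h0 h1 (Cube κ × CE μ)).w s.2 =
    (FP.pi ν).w (shS act η ζ s).1 * (bern p h0 h1 (Cube κ × CE μ)).w (shS act η ζ s).2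
  congr 1
  · rw [FP.pi_w, FP.pi_w]
    have h2 : ∀ z, (ν z).w ((shS act η ζ s).1 z) = (ν (xr z ζ)).w (s.1 (xr z ζ)) := by
      intro z
      have := hF.act_w η ζ (xr z ζ) (s.1 (xr z ζ)) hp
      rw [xr_xr] at this
      exact this
    rw [Finset.prod_congr rfl fun z _ => h2 z]
    exact (Equiv.prod_comp (xrE ζ) fun z => (ν z).w (s.1 z)).symm
  · rw [bern_w, bern_w]
    exact (Equiv.prod_comp (shR η ζ) fun e => if s.2 e then p else 1 - p).symm

theorem stB_eq_some (hinj : ∀ x, PInj (cf x)) {x : X} {y w : Cube κ} :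
    stB cf Uf x y = some w ↔ w ∈ Uf x ∧ cf x w = some y := by
  classical
  unfold stB
  constructor
  · intro h
    split_ifs at h with h'
    rw [Option.some.injEq] at h
    rw [← h]
    exact h'.choose_spec
  · intro h
    have h' : ∃ w, w ∈ Uf x ∧ cf x w = some y := ⟨w, h⟩
    rw [dif_pos h', Option.some.injEq]
    exact hinj x _ _ y h'.choose_spec.2 h.2

theorem stB_act (hF : FldH ν cf Uf act ε u α) (η : Cube κ) (x : X) (y : Cube κ) :
    stB cf Uf (act η x) (xr y η) = (stB cf Uf x y).map fun v => xr v η := by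
  ext v
  rw [Option.map_eq_some_iff, stB_eq_some hF.inj]
  constructor
  · rintro ⟨h1, h2⟩
    refine ⟨xr v η, ?_, xr_xr v η⟩
    rw [stB_eq_some hF.inj]
    constructor
    · rw [← hF.act_U η x, xr_xr]
      exact h1
    · have h3 := hF.act_c η x (xr v η)
      rw [xr_xr, h2] at h3
      cases hc : cf x (xr v η) with
      | none => rw [hc] at h3; cases h3
      | some w =>
        rw [hc, Option.map_some, Option.some.injEq] at h3
        rw [xr_injective η h3]
  · rintro ⟨w, h1, rfl⟩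
    rw [stB_eq_some hF.inj] at h1
    refine ⟨(hF.act_U η x w).2 h1.1, ?_⟩
    rw [hF.act_c, h1.2, Option.map_some]

theorem isEn_act (hF : FldH ν cf Uf act ε u α) (η : Cube κ) (x : X) (y : Cube κ) :
    isEn cf (act η x) (xr y η) ↔ isEn cf x y := by
  unfold isEn
  rw [hF.act_c, Option.map_eq_none_iff]

theorem LB_shS (gp : μ → Fin T) (hF : FldH ν cf Uf act ε u α) (r : Fin T → ℕ) (l : List (Fin T))
    (η : Cube κ) (ζ : Cube μ) (s : Smp X κ μ) (y : Cube κ) (z : Cube μ) :
    LB gp cf Uf r l (shS act η ζ s) (xr y η) (xr z ζ) =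
      (LB gp cf Uf r l s y z).image fun q => (xr q.1 η, xr q.2 ζ) := by
  unfold LB
  refine LT_shift gp r η ζ (fun z y => ?_) (fun y z i => rgo_shS act η ζ s y z i) l y z
  show stB cf Uf (act η (s.1 (xr (xr z ζ) ζ))) (xr y η) = _
  rw [xr_xr]
  exact stB_act hF η (s.1 z) y

theorem Nm_shS (gp : μ → Fin T) (hF : FldH ν cf Uf act ε u α) (r : Fin T → ℕ) (l : List (Fin T))
    (η : Cube κ) (ζ : Cube μ) (s : Smp X κ μ) (y : Cube κ) (z : Cube μ) :
    Nm gp cf Uf r l (shS act η ζ s) (xr y η) (xr z ζ) = Nm gp cf Uf r l s y z := by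
  classical
  unfold Nm
  symm
  have hinj : Function.Injective fun q : Cube κ × Cube μ => (xr q.1 η, xr q.2 ζ) := by
    rintro ⟨a, b⟩ ⟨a', b'⟩ h
    rw [Prod.mk.injEq] at h
    exact Prod.ext (xr_injective η h.1) (xr_injective ζ h.2)
  rw [← Finset.card_image_of_injective _ hinj]
  congr 1
  ext e
  simp only [Finset.mem_image, Finset.mem_filter, Finset.mem_univ, true_and]
  have hen : ∀ a : Cube κ × Cube μ, isEn cf ((shS act η ζ s).1 (xr a.2 ζ)) (xr a.1 η) ↔
      isEn cf (s.1 a.2) a.1 := by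
    intro a
    show isEn cf (act η (s.1 (xr (xr a.2 ζ) ζ))) (xr a.1 η) ↔ _
    rw [xr_xr]
    exact isEn_act hF η _ _
  have hmem : ∀ a : Cube κ × Cube μ, (xr y η, xr z ζ) ∈ LB gp cf Uf r l (shS act η ζ s)
      (xr a.1 η) (xr a.2 ζ) ↔ (y, z) ∈ LB gp cf Uf r l s a.1 a.2 := by
    intro a
    rw [LB_shS gp hF, Finset.mem_image]
    constructor
    · rintro ⟨b, hb, hb'⟩
      have := hinj (a₁ := b) (a₂ := (y, z)) hb'
      rwa [this] at hb
    · intro h
      exact ⟨_, h, rfl⟩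
  constructor
  · rintro ⟨a, ⟨h1, h2⟩, rfl⟩
    exact ⟨(hen a).2 h1, (hmem a).2 h2⟩
  · rintro ⟨h1, h2⟩
    refine ⟨(xr e.1 η, xr e.2 ζ), ⟨?_, ?_⟩, by simp⟩
    · rw [← hen]
      simpa using h1
    · rw [← hmem]
      simpa using h2

/-- all points of one total parity are translates of each other -/
theorem exists_shift {y y' : Cube κ} {z z' : Cube μ} (h : par2 y z = par2 y' z') :
    ∃ (η : Cube κ) (ζ : Cube μ), par η = par ζ ∧ xr y η = y' ∧ xr z ζ = z' := by
  refine ⟨xr y y', xr z z', ?_, ?_, ?_⟩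
  · rw [par_xr_st, par_xr_st]
    unfold par2 at h
    revert h
    cases par y <;> cases par z <;> cases par y' <;> cases par z' <;> simp
  · rw [xr_eq_iff]
  · rw [xr_eq_iff]

theorem E_Nm_const (gp : μ → Fin T) (hF : FldH ν cf Uf act ε u α) (r : Fin T → ℕ)
    (l : List (Fin T)) {y y' : Cube κ} {z z' : Cube μ} (h : par2 y z = par2 y' z') :
    (lawR κ ν p h0 h1).E (fun s => (Nm gp cf Uf r l s y z : ℝ)) =
      (lawR κ ν p h0 h1).E (fun s => (Nm gp cf Uf r l s y' z' : ℝ)) := by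
  obtain ⟨η, ζ, hp, rfl, rfl⟩ := exists_shift h
  rw [← E_shS (h0 := h0) (h1 := h1) hF hp fun s => (Nm gp cf Uf r l s (xr y η) (xr z ζ) : ℝ)]
  refine FP.E_congr _ fun s => ?_
  rw [Nm_shS gp hF]

theorem pr_LB_const (gp : μ → Fin T) (hF : FldH ν cf Uf act ε u α) (r : Fin T → ℕ)
    (l : List (Fin T)) {y y' : Cube κ} {z z' : Cube μ} (h : par2 y z = par2 y' z') :
    (lawR κ ν p h0 h1).pr (fun s => LB gp cf Uf r l s y z = ∅) =
      (lawR κ ν p h0 h1).pr (fun s => LB gp cf Uf r l s y' z' = ∅) := by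
  classical
  obtain ⟨η, ζ, hp, rfl, rfl⟩ := exists_shift h
  rw [FP.pr_eq, FP.pr_eq, ← E_shS (h0 := h0) (h1 := h1) hF hp
    fun s => if LB gp cf Uf r l s (xr y η) (xr z ζ) = ∅ then (1 : ℝ) else 0]
  refine FP.E_congr _ fun s => if_congr ?_ rfl rfl
  rw [LB_shS gp hF, Finset.image_eq_empty]

/-- R3 -/
theorem E_Nm (gp : μ → Fin T) (p : ℝ) (h0 : 0 ≤ p) (h1 : p ≤ 1)
    (hF : FldH ν cf Uf act ε u α) (r : Fin T → ℕ) {l : List (Fin T)} (hl : l.Nodup)
    (hne : Nonempty μ) {δ : ℝ} (hδ : ∀ (y : Cube κ) (z : Cube μ), par2 y z = !ε →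
      (lawR κ ν p h0 h1).pr (fun s => LB gp cf Uf r l s y z = ∅) ≤ δ) :
    ∃ a : ℝ, 0 ≤ a ∧ 1 - δ ≤ a ∧ a ≤ 1 ∧ ∀ (y : Cube κ) (z : Cube μ), par2 y z = !ε →
      (lawR κ ν p h0 h1).E (fun s => (Nm gp cf Uf r l s y z : ℝ)) = ((l.map r).prod : ℕ) * u * a := by
  classical
  obtain ⟨i⟩ := hne
  -- a point of the right parity
  obtain ⟨y0, z0, hyz0⟩ : ∃ (y : Cube κ) (z : Cube μ), par2 y z = !ε := by
    by_cases h : par2 (fun _ => false : Cube κ) (fun _ => false : Cube μ) = !ε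
    · exact ⟨_, _, h⟩
    · refine ⟨fun _ => false, flip i fun _ => false, ?_⟩
      rw [par2_flip]
      revert h
      cases par2 (fun _ => false : Cube κ) (fun _ => false : Cube μ) <;> cases ε <;> simp
  set b := (lawR κ ν p h0 h1).pr (fun s => LB gp cf Uf r l s y0 z0 = ∅) with hb
  have hb0 : 0 ≤ b := FP.pr_nonneg _ _
  have hb1 : b ≤ 1 := FP.pr_le_one _ _
  refine ⟨1 - b, by linarith, by linarith [hδ y0 z0 hyz0], by linarith, ?_⟩
  set D : Finset (Cube κ × Cube μ) := univ.filter fun q => par2 q.1 q.2 = !ε with hD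
  have hDmem : ∀ q : Cube κ × Cube μ, q ∈ D ↔ par2 q.1 q.2 = !ε := fun q => by simp [hD]
  have hDpos : (0 : ℝ) < D.card := by
    rw [Nat.cast_pos, Finset.card_pos]
    exact ⟨(y0, z0), (hDmem _).2 hyz0⟩
  set N := (lawR κ ν p h0 h1).E (fun s => (Nm gp cf Uf r l s y0 z0 : ℝ)) with hN
  -- sum over all the points
  have hsum1 : ∑ q ∈ D, (lawR κ ν p h0 h1).E (fun s => (Nm gp cf Uf r l s q.1 q.2 : ℝ)) =
      D.card * N := by
    rw [Finset.sum_congr rfl fun q hq => E_Nm_const (h0 := h0) (h1 := h1) gp hF r l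
      (((hDmem q).1 hq).trans hyz0.symm), Finset.sum_const, nsmul_eq_mul]
  have hsum2 : ∀ s : Smp X κ μ, ∑ q ∈ D, (Nm gp cf Uf r l s q.1 q.2 : ℝ) =
      ∑ e ∈ D, (if isEn cf (s.1 e.2) e.1 then 1 else 0) * ((LB gp cf Uf r l s e.1 e.2).card : ℝ) := by
    intro s
    have e1 : ∀ q : Cube κ × Cube μ, (Nm gp cf Uf r l s q.1 q.2 : ℝ) =
        ∑ e : Cube κ × Cube μ, if isEn cf (s.1 e.2) e.1 ∧ q ∈ LB gp cf Uf r l s e.1 e.2 then 1 else 0 := by
      intro q
      unfold Nm
      rw [Finset.sum_boole]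
    simp only [e1]
    rw [Finset.sum_comm]
    have e2 : ∀ e : Cube κ × Cube μ, (∑ q ∈ D, if isEn cf (s.1 e.2) e.1 ∧
        q ∈ LB gp cf Uf r l s e.1 e.2 then (1 : ℝ) else 0) =
        if e ∈ D then (if isEn cf (s.1 e.2) e.1 then 1 else 0) *
          ((LB gp cf Uf r l s e.1 e.2).card : ℝ) else 0 := by
      intro e
      have hst : ∀ z y y', stB cf Uf (s.1 z) y = some y' → par y' = !par y := by
        intro z y y' h
        rw [stB_eq_some hF.inj] at h
        rw [hF.flp _ _ _ h.2, Bool.not_not]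
      have hLpar : ∀ q ∈ LB gp cf Uf r l s e.1 e.2, par2 q.1 q.2 = par2 e.1 e.2 := by
        intro q hq
        exact LT_par gp _ _ r hst rfl hq
      split_ifs with he hen
      · rw [one_mul, Finset.sum_boole]
        congr 2
        ext q
        rw [Finset.mem_filter]
        constructor
        · exact fun h => h.2.2
        · intro h
          exact ⟨(hDmem q).2 ((hLpar q h).trans ((hDmem e).1 he)), hen, h⟩
      · rw [zero_mul]
        refine Finset.sum_eq_zero fun q _ => if_neg fun h => hen h.1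
      · refine Finset.sum_eq_zero fun q hq => if_neg fun h => he ?_
        rw [hDmem] at hq ⊢
        rw [← hLpar q h.2]
        exact hq
    rw [Finset.sum_congr rfl fun e _ => e2 e, Finset.sum_ite_mem, Finset.univ_inter]
  have hE : ∀ e ∈ D, (lawR κ ν p h0 h1).E (fun s => (if isEn cf (s.1 e.2) e.1 then 1 else 0) *
      ((LB gp cf Uf r l s e.1 e.2).card : ℝ)) = u * (((l.map r).prod : ℕ) * (1 - b)) := by
    intro e he
    have hepar := (hDmem e).1 he
    rw [law_indep (S := {e.2}) (S' := (cos gp l e.2).erase e.2) (R := ∅) (R' := rgs κ gp l e.2)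
      (Finset.disjoint_singleton_left.2 (by simp)) (Finset.disjoint_empty_left _)
      (f := fun s => if isEn cf (s.1 e.2) e.1 then (1 : ℝ) else 0)
      (g := fun s => ((LB gp cf Uf r l s e.1 e.2).card : ℝ))
      (DepOn.fib e.2 fun x => if isEn cf x e.1 then (1 : ℝ) else 0)
      ((LB_dep r hl e.1 e.2).comp fun A => (A.card : ℝ))]
    congr 1
    · rw [← hF.ends e.1 e.2 hepar, FP.pr_eq]
      exact E_fib e.2 fun x => if isEn cf x e.1 then (1 : ℝ) else 0
    · have e3 : ∀ s : Smp X κ μ, ((LB gp cf Uf r l s e.1 e.2).card : ℝ) =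
          ((l.map r).prod : ℕ) * (1 - if LB gp cf Uf r l s e.1 e.2 = ∅ then 1 else 0) := by
        intro s
        rcases LT_card gp (fun z' => stB cf Uf (s.1 z')) (rgo s.2) r hl e.1 e.2 with h | h
        · have h' : LB gp cf Uf r l s e.1 e.2 = ∅ := h
          rw [h']
          simp
        · have h' : (LB gp cf Uf r l s e.1 e.2).card = (l.map r).prod := h
          by_cases hem : LB gp cf Uf r l s e.1 e.2 = ∅
          · rw [if_pos hem, hem]
            simp
          · rw [if_neg hem, h']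
            ring
      rw [FP.E_congr _ e3, FP.E_mul_left, FP.E_sub, FP.E_const, ← FP.pr_eq,
        pr_LB_const (h0 := h0) (h1 := h1) gp hF r l (hepar.trans hyz0.symm)]
  have hkey : (D.card : ℝ) * N = D.card * (((l.map r).prod : ℕ) * u * (1 - b)) := by
    rw [← hsum1, ← FP.E_sum, FP.E_congr _ hsum2, FP.E_sum, Finset.sum_congr rfl hE,
      Finset.sum_const, nsmul_eq_mul]
    ring
  intro y z hyz
  rw [E_Nm_const (h0 := h0) (h1 := h1) gp hF r l (hyz.trans hyz0.symm)]
  exact mul_left_cancel₀ hDpos.ne' hkey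

end NmMean

end Pool.Agent.LongCyc.Dense
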