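import Pool.Agent.LongCyc.Dense.Supp

/-!
# Dense regime, section 4 (R4): second moment of the number of ends with a given leaf
-/

set_option autoImplicit false
set_option linter.unusedSectionVars false

namespace Pool.Agent.LongCyc.Dense

open Finset

section NmSq

variable {κ μ : Type} [DecidableEq κ] [Fintype κ] [DecidableEq μ] [Fintype μ] {T : ℕ} {X : Type}

/-- candidates for ends, reached upwards from `(y, z)` through the groups in the list -/
noncomputable def Up (gp : μ → Fin T) (cf : X → Cube κ → Option (Cube κ)) (s : Smp X κ μ) :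
    List (Fin T) → Cube κ → Cube μ → Finset (Cube κ × Cube μ)
  | [], y, z => {(y, z)}
  | a :: l, y, z => by
      classical
      exact (cf (s.1 z) y).elim ∅ fun y' =>
        (univ.filter fun i => gp i = a ∧ rgo s.2 y' z i).biUnion fun i => Up gp cf s l y' (flip i z)

open Classical in
/-- number of the upward open paths which end in an end -/
noncomputable def Mw (gp : μ → Fin T) (cf : X → Cube κ → Option (Cube κ)) :
    List (Fin T) → Cube κ → Cube μ → Smp X κ μ → ℝ
  | [], y, z, s => if isEn cf (s.1 z) y then 1 else 0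
  | a :: l, y, z, s => (cf (s.1 z) y).elim 0 fun y' =>
      ∑ i ∈ univ.filter (fun i => gp i = a), (if rgo s.2 y' z i then 1 else 0) *
        Mw gp cf l y' (flip i z) s

open Classical in
/-- the inner sum -/
noncomputable def Wd (gp : μ → Fin T) (cf : X → Cube κ → Option (Cube κ)) (a : Fin T)
    (l : List (Fin T)) (z : Cube μ) (y' : Cube κ) (s : Smp X κ μ) : ℝ :=
  ∑ i ∈ univ.filter (fun i => gp i = a), (if rgo s.2 y' z i then 1 else 0) *
    Mw gp cf l y' (flip i z) s

variable {gp : μ → Fin T} {cf : X → Cube κ → Option (Cube κ)}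

theorem Mw_cons (a : Fin T) (l : List (Fin T)) (y : Cube κ) (z : Cube μ) (s : Smp X κ μ) :
    Mw gp cf (a :: l) y z s = (cf (s.1 z) y).elim 0 fun y' => Wd gp cf a l z y' s := rfl

theorem Mw_nonneg (l : List (Fin T)) : ∀ (y : Cube κ) (z : Cube μ) (s : Smp X κ μ),
    0 ≤ Mw gp cf l y z s := by
  classical
  induction l with
  | nil =>
    intro y z s
    show 0 ≤ (if isEn cf (s.1 z) y then (1 : ℝ) else 0)
    split_ifs <;> norm_num
  | cons a l ih =>
    intro y z s
    rw [Mw_cons]
    cases cf (s.1 z) y with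
    | none => exact le_rfl
    | some y' =>
      show 0 ≤ Wd gp cf a l z y' s
      unfold Wd
      refine Finset.sum_nonneg fun i _ => mul_nonneg ?_ (ih _ _ _)
      split_ifs <;> norm_num

theorem Wd_nonneg (a : Fin T) (l : List (Fin T)) (z : Cube μ) (y' : Cube κ) (s : Smp X κ μ) :
    0 ≤ Wd gp cf a l z y' s := by
  classical
  unfold Wd
  refine Finset.sum_nonneg fun i _ => mul_nonneg ?_ (Mw_nonneg _ _ _ _)
  split_ifs <;> norm_num

/-- the upward candidates: one more step at the end -/
theorem Up_append {s : Smp X κ μ} (a : Fin T) (l : List (Fin T)) : ∀ {y y1 y' : Cube κ} {z z1 : Cube μ}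
    {i : μ}, (y1, z1) ∈ Up gp cf s l y z → cf (s.1 z1) y1 = some y' → gp i = a → rgo s.2 y' z1 i →
    (y', flip i z1) ∈ Up gp cf s (l ++ [a]) y z := by
  classical
  induction l with
  | nil =>
    intro y y1 y' z z1 i h h1 h2 h3
    have h4 : (y1, z1) = (y, z) := Finset.mem_singleton.1 h
    rw [Prod.mk.injEq] at h4
    obtain ⟨rfl, rfl⟩ := h4
    show (y', flip i z1) ∈ (cf (s.1 z1) y1).elim ∅ fun y' =>
      (univ.filter fun i => gp i = a ∧ rgo s.2 y' z1 i).biUnion fun i => {(y', flip i z1)}
    rw [h1]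
    show (y', flip i z1) ∈ (univ.filter fun i => gp i = a ∧ rgo s.2 y' z1 i).biUnion
      fun i => {(y', flip i z1)}
    rw [Finset.mem_biUnion]
    exact ⟨i, Finset.mem_filter.2 ⟨Finset.mem_univ _, h2, h3⟩, Finset.mem_singleton_self _⟩
  | cons b l ih =>
    intro y y1 y' z z1 i h h1 h2 h3
    have e1 : Up gp cf s (b :: l) y z = (cf (s.1 z) y).elim ∅ fun y' =>
      (univ.filter fun i => gp i = b ∧ rgo s.2 y' z i).biUnion fun i => Up gp cf s l y' (flip i z) := rfl
    have e2 : Up gp cf s (b :: l ++ [a]) y z = (cf (s.1 z) y).elim ∅ fun y' =>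
      (univ.filter fun i => gp i = b ∧ rgo s.2 y' z i).biUnion
        fun i => Up gp cf s (l ++ [a]) y' (flip i z) := rfl
    rw [e1] at h
    rw [e2]
    cases hc : cf (s.1 z) y with
    | none =>
      rw [hc] at h
      exact absurd h (Finset.notMem_empty _)
    | some w =>
      rw [hc] at h
      obtain ⟨i', hi', h'⟩ := Finset.mem_biUnion.1 h
      exact Finset.mem_biUnion.2 ⟨i', hi', ih h' h1 h2 h3⟩

/-- the number of the ends among the candidates -/
theorem card_Up_le {s : Smp X κ μ} (l : List (Fin T)) : ∀ (y : Cube κ) (z : Cube μ)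
    [DecidablePred fun e : Cube κ × Cube μ => isEn cf (s.1 e.2) e.1],
    (((Up gp cf s l y z).filter fun e => isEn cf (s.1 e.2) e.1).card : ℝ) ≤ Mw gp cf l y z s := by
  classical
  induction l with
  | nil =>
    intro y z _
    show ((({(y, z)} : Finset (Cube κ × Cube μ)).filter fun e => isEn cf (s.1 e.2) e.1).card : ℝ) ≤
      if isEn cf (s.1 z) y then 1 else 0
    rw [Finset.filter_singleton]
    split_ifs <;> simp
  | cons a l ih =>
    intro y z _
    rw [Mw_cons]
    have e1 : Up gp cf s (a :: l) y z = (cf (s.1 z) y).elim ∅ fun y' =>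
      (univ.filter fun i => gp i = a ∧ rgo s.2 y' z i).biUnion fun i => Up gp cf s l y' (flip i z) := rfl
    rw [e1]
    cases hc : cf (s.1 z) y with
    | none =>
      show (((∅ : Finset (Cube κ × Cube μ)).filter fun e => isEn cf (s.1 e.2) e.1).card : ℝ) ≤ 0
      simp
    | some y' =>
      show ((((univ.filter fun i => gp i = a ∧ rgo s.2 y' z i).biUnion fun i =>
        Up gp cf s l y' (flip i z)).filter fun e => isEn cf (s.1 e.2) e.1).card : ℝ) ≤ Wd gp cf a l z y' s
      rw [Finset.filter_biUnion]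
      refine le_trans (Nat.cast_le.2 Finset.card_biUnion_le) ?_
      rw [Nat.cast_sum]
      unfold Wd
      have h2 : ∀ i, (if rgo s.2 y' z i then (1 : ℝ) else 0) * Mw gp cf l y' (flip i z) s =
          if rgo s.2 y' z i then Mw gp cf l y' (flip i z) s else 0 := by
        intro i
        split_ifs <;> simp
      simp only [h2]
      rw [← Finset.sum_filter, Finset.filter_filter]
      exact Finset.sum_le_sum fun i _ => ih _ _

/-- leaves of backward trees are reached upwards -/
theorem mem_Up_of_LB {Uf : X → Finset (Cube κ)} {r : Fin T → ℕ} {s : Smp X κ μ} {y : Cube κ}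
    {z : Cube μ} (l : List (Fin T)) : ∀ {e1 : Cube κ} {e2 : Cube μ},
    (y, z) ∈ LB gp cf Uf r l s e1 e2 → (e1, e2) ∈ Up gp cf s l.reverse y z := by
  classical
  induction l with
  | nil =>
    intro e1 e2 h
    have h4 : (y, z) = (e1, e2) := Finset.mem_singleton.1 h
    rw [← h4]
    exact Finset.mem_singleton_self _
  | cons a l ih =>
    intro e1 e2 h
    rw [List.reverse_cons]
    have e0 : LB gp cf Uf r (a :: l) s e1 e2 = (pick (r a) (alive gp (fun z' => stB cf Uf (s.1 z'))
        (rgo s.2) (LT gp (fun z' => stB cf Uf (s.1 z')) (rgo s.2) r l) a e1 e2)).biUnion fun i =>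
        (stB cf Uf (s.1 (flip i e2)) e1).elim ∅ fun y' => LB gp cf Uf r l s y' (flip i e2) := by
      unfold LB
      rw [LT]
    rw [e0] at h
    obtain ⟨i, hi, h1⟩ := Finset.mem_biUnion.1 h
    have hi' := pick_subset _ _ hi
    unfold alive at hi'
    obtain ⟨-, ha, ho, -⟩ := Finset.mem_filter.1 hi'
    cases hc : stB cf Uf (s.1 (flip i e2)) e1 with
    | none =>
      rw [hc] at h1
      exact absurd h1 (Finset.notMem_empty _)
    | some y' =>
      rw [hc] at h1
      have h2 := ih h1
      have h3 : cf (s.1 (flip i e2)) y' = some e1 := by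
        unfold stB at hc
        split_ifs at hc with h
        have := h.choose_spec.2
        rw [Option.some.injEq] at hc
        rw [hc] at this
        exact this
      have h4 := Up_append a l.reverse h2 h3 ha (rgo_flip_iff.2 ho)
      rwa [flip_flip] at h4

theorem Nm_le_Mw {Uf : X → Finset (Cube κ)} {r : Fin T → ℕ} {s : Smp X κ μ} (y : Cube κ)
    (z : Cube μ) (l : List (Fin T)) :
    (Nm gp cf Uf r l s y z : ℝ) ≤ Mw gp cf l.reverse y z s := by
  classical
  refine le_trans ?_ (card_Up_le (gp := gp) (cf := cf) (s := s) l.reverse y z)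
  unfold Nm
  refine Nat.cast_le.2 (Finset.card_le_card fun e he => ?_)
  obtain ⟨-, h1, h2⟩ := Finset.mem_filter.1 he
  exact Finset.mem_filter.2 ⟨mem_Up_of_LB l h2, h1⟩

/-! ### Dependence -/

theorem cos_flip_subset {a : Fin T} {l : List (Fin T)} {z : Cube μ} {i : μ} (hi : gp i = a) :
    cos gp l (flip i z) ⊆ cos gp (a :: l) z := by
  intro w hw
  rw [mem_cos_iff] at hw ⊢
  intro q hq
  rw [List.mem_cons, not_or] at hq
  rw [hw q hq.2, flip_of_ne]
  rintro rfl
  exact hq.1 hi

theorem rgs_flip_subset {a : Fin T} {l : List (Fin T)} {z : Cube μ} {i : μ} (hi : gp i = a) :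
    rgs κ gp l (flip i z) ⊆ rgs κ gp (a :: l) z := by
  intro e he
  rw [mem_rgs] at he ⊢
  exact ⟨List.mem_cons_of_mem _ he.1, cos_flip_subset hi he.2⟩

theorem not_mem_cos_flip {l : List (Fin T)} {z : Cube μ} {i : μ} (hi : gp i ∉ l) :
    z ∉ cos gp l (flip i z) := by
  intro h
  rw [mem_cos_iff] at h
  have := h i hi
  simp at this

theorem Mw_dep (l : List (Fin T)) : ∀ (y : Cube κ) (z : Cube μ),
    DepOn (cos gp l z) (rgs κ gp l z) (Mw gp cf l y z) := by
  classical
  induction l with
  | nil =>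
    intro y z s s' h1 h2
    show (if isEn cf (s.1 z) y then (1 : ℝ) else 0) = if isEn cf (s'.1 z) y then 1 else 0
    rw [h1 z (mem_cos_self gp _ z)]
  | cons a l ih =>
    intro y z s s' h1 h2
    rw [Mw_cons, Mw_cons, h1 z (mem_cos_self gp _ z)]
    congr 1
    funext y'
    unfold Wd
    refine Finset.sum_congr rfl fun i hi => ?_
    have hi' : gp i = a := (Finset.mem_filter.1 hi).2
    rw [ih y' (flip i z) s s' (fun w hw => h1 w (cos_flip_subset hi' hw))
      fun e he => h2 e (rgs_flip_subset hi' he)]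
    have : rgo s.2 y' z i ↔ rgo s'.2 y' z i := by
      unfold rgo
      rw [h2 _ (can_mem_rgs (mem_cos_self gp _ z) (by rw [hi']; exact List.mem_cons_self) y')]
    rw [if_congr this rfl rfl]

theorem Wd_dep {a : Fin T} {l : List (Fin T)} (ha : a ∉ l) (z : Cube μ) (y' : Cube κ) :
    DepOn ((cos gp (a :: l) z).erase z) (rgs κ gp (a :: l) z) (Wd gp cf a l z y') := by
  classical
  intro s s' h1 h2
  unfold Wd
  refine Finset.sum_congr rfl fun i hi => ?_
  have hi' : gp i = a := (Finset.mem_filter.1 hi).2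
  rw [Mw_dep l y' (flip i z) s s' (fun w hw => h1 w (Finset.mem_erase.2 ⟨?_, cos_flip_subset hi' hw⟩))
    fun e he => h2 e (rgs_flip_subset hi' he)]
  · have : rgo s.2 y' z i ↔ rgo s'.2 y' z i := by
      unfold rgo
      rw [h2 _ (can_mem_rgs (mem_cos_self gp _ z) (by rw [hi']; exact List.mem_cons_self) y')]
    rw [if_congr this rfl rfl]
  · rintro rfl
    exact not_mem_cos_flip (by rw [hi']; exact ha) hw

open Classical in
/-- the term of the inner sum -/
theorem term_dep (l : List (Fin T)) (z : Cube μ) (y' : Cube κ) (i : μ) :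
    DepOn (cos gp l (flip i z)) (insert (y', (canE μ).e z i) (rgs κ gp l (flip i z)))
      fun s : Smp X κ μ => (if rgo s.2 y' z i then (1 : ℝ) else 0) * Mw gp cf l y' (flip i z) s := by
  intro s s' h1 h2
  show (if rgo s.2 y' z i then (1 : ℝ) else 0) * Mw gp cf l y' (flip i z) s =
    (if rgo s'.2 y' z i then (1 : ℝ) else 0) * Mw gp cf l y' (flip i z) s'
  rw [Mw_dep l y' (flip i z) s s' h1 fun e he => h2 e (Finset.mem_insert_of_mem he)]
  have : rgo s.2 y' z i ↔ rgo s'.2 y' z i := by
    unfold rgo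
    rw [h2 _ (Finset.mem_insert_self _ _)]
  rw [if_congr this rfl rfl]

/-! ### Moments -/

variable [Fintype X] {ν : Cube μ → FP X} {p : ℝ} {h0 : 0 ≤ p} {h1 : p ≤ 1}

/-- expectation of a function which is chosen by the value in the fibre `z` -/
theorem E_elim_le (z : Cube μ) (g : X → Option (Cube κ)) (W : Cube κ → Smp X κ μ → ℝ)
    {S : Finset (Cube μ)} (hS : z ∉ S) {R : Finset (Cube κ × CE μ)} (hW : ∀ y', DepOn S R (W y'))
    {B : ℝ} (hB0 : 0 ≤ B) (hB : ∀ y', (∃ x, g x = some y') → (lawR κ ν p h0 h1).E (W y') ≤ B) :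
    (lawR κ ν p h0 h1).E (fun s => (g (s.1 z)).elim 0 fun y' => W y' s) ≤ B := by
  classical
  have e1 : ∀ s : Smp X κ μ, ((g (s.1 z)).elim 0 fun y' => W y' s) =
      ∑ y' : Cube κ, (if g (s.1 z) = some y' then 1 else 0) * W y' s := by
    intro s
    cases h : g (s.1 z) with
    | none => simp
    | some w =>
      show W w s = _
      rw [Finset.sum_eq_single w]
      · simp
      · intro b _ hb
        rw [if_neg (by rw [Option.some.injEq]; exact hb.symm), zero_mul]
      · intro h
        exact absurd (Finset.mem_univ w) h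
  rw [FP.E_congr _ e1, FP.E_sum]
  have e2 : ∀ y' : Cube κ, (lawR κ ν p h0 h1).E (fun s => (if g (s.1 z) = some y' then 1 else 0) * W y' s) =
      (ν z).E (fun x => if g x = some y' then 1 else 0) * (lawR κ ν p h0 h1).E (W y') := by
    intro y'
    rw [law_indep (S := {z}) (S' := S) (R := ∅) (R' := R) (Finset.disjoint_singleton_left.2 hS)
      (Finset.disjoint_empty_left _) (f := fun s => if g (s.1 z) = some y' then 1 else 0)
      (DepOn.fib z fun x => if g x = some y' then (1 : ℝ) else 0) (hW y')]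
    congr 1
    exact E_fib z fun x => if g x = some y' then (1 : ℝ) else 0
  rw [Finset.sum_congr rfl fun y' _ => e2 y']
  have e3 : ∀ y' : Cube κ, (ν z).E (fun x => if g x = some y' then 1 else 0) *
      (lawR κ ν p h0 h1).E (W y') ≤ (ν z).E (fun x => if g x = some y' then 1 else 0) * B := by
    intro y'
    by_cases h : ∃ x, g x = some y'
    · exact mul_le_mul_of_nonneg_left (hB y' h) (FP.E_nonneg _ fun x => by split_ifs <;> norm_num)
    · push Not at h
      have : (ν z).E (fun x => if g x = some y' then (1 : ℝ) else 0) = 0 := by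
        rw [FP.E_congr _ fun x => if_neg (h x), FP.E_const]
      rw [this, zero_mul, zero_mul]
  refine (Finset.sum_le_sum fun y' _ => e3 y').trans ?_
  rw [← Finset.sum_mul, ← FP.E_sum]
  have e4 : (ν z).E (fun x => ∑ y' : Cube κ, if g x = some y' then (1 : ℝ) else 0) ≤ 1 := by
    refine FP.E_le_of_le _ fun x => ?_
    cases g x with
    | none => simp
    | some w => simp
  calc _ ≤ 1 * B := mul_le_mul_of_nonneg_right e4 hB0
    _ = B := one_mul B

open Classical in
theorem E_term {l : List (Fin T)} {z : Cube μ} {i : μ} (hi : gp i ∉ l) (y' : Cube κ)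
    (f : ℝ → ℝ) (hf : f 0 = 0) :
    (lawR κ ν p h0 h1).E (fun s => f ((if rgo s.2 y' z i then (1 : ℝ) else 0) *
      Mw gp cf l y' (flip i z) s)) =
      p * (lawR κ ν p h0 h1).E (fun s => f (Mw gp cf l y' (flip i z) s)) := by
  have e1 : ∀ s : Smp X κ μ, f ((if rgo s.2 y' z i then (1 : ℝ) else 0) *
      Mw gp cf l y' (flip i z) s) = (if rgo s.2 y' z i then (1 : ℝ) else 0) *
        f (Mw gp cf l y' (flip i z) s) := by
    intro s
    split_ifs
    · rw [one_mul, one_mul]
    · rw [zero_mul, zero_mul, hf]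
  rw [FP.E_congr _ e1, law_indep (S := ∅) (S' := cos gp l (flip i z)) (R := {(y', (canE μ).e z i)})
    (R' := rgs κ gp l (flip i z)) (Finset.disjoint_empty_left _)
    (Finset.disjoint_singleton_left.2 (can_not_mem_rgs _ _ hi _))
    (f := fun s => if rgo s.2 y' z i then (1 : ℝ) else 0)
    (DepOn.rung (y', (canE μ).e z i) fun b =>
      @ite ℝ (b = true) (Classical.propDecidable (b = true)) 1 0)
    ((Mw_dep l y' (flip i z)).comp f), E_rgo]

variable {Uf : X → Finset (Cube κ)} {act : Cube κ → X ≃ X} {ε : Bool} {u α : ℝ}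

theorem Mw_moments (hp0 : 0 ≤ p) (hF : FldH ν cf Uf act ε u α) (l : List (Fin T)) (hl : l.Nodup)
    (hg : ∀ a ∈ l, 2 ≤ p * gsz gp a) : ∀ (y : Cube κ) (z : Cube μ), par2 y z = !ε →
    (lawR κ ν p h0 h1).E (Mw gp cf l y z) ≤ (l.map fun a => p * gsz gp a).prod * u ∧
    (lawR κ ν p h0 h1).E (fun s => Mw gp cf l y z s ^ 2) ≤
      (l.map fun a => p * gsz gp a).prod * u + 2 * (l.map fun a => p * gsz gp a).prod ^ 2 * u ^ 2 := by
  classical
  induction l with
  | nil =>
    intro y z hyz
    have hu := hF.ends y z hyz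
    have e1 : (lawR κ ν p h0 h1).E (Mw gp cf [] y z) = u := by
      rw [← hu, FP.pr_eq, ← E_fib (κ := κ) (ν := ν) (p := p) (h0 := h0) (h1 := h1) z
        (fun x => if isEn cf x y then (1 : ℝ) else 0)]
      rfl
    have e2 : ∀ s : Smp X κ μ, Mw gp cf [] y z s ^ 2 = Mw gp cf [] y z s := by
      intro s
      show (if isEn cf (s.1 z) y then (1 : ℝ) else 0) ^ 2 = if isEn cf (s.1 z) y then (1 : ℝ) else 0
      split_ifs <;> norm_num
    rw [FP.E_congr _ e2, e1]
    simp only [List.map_nil, List.prod_nil, one_mul, one_pow, mul_one]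
    exact ⟨le_rfl, by nlinarith [sq_nonneg u]⟩
  | cons a l ih =>
    intro y z hyz
    rw [List.nodup_cons] at hl
    have ih' := ih hl.2 fun b hb => hg b (List.mem_cons_of_mem _ hb)
    have hga := hg a List.mem_cons_self
    set Λ := (l.map fun a => p * gsz gp a).prod with hΛ
    have hΛ0 : 0 ≤ Λ := by
      rw [hΛ]
      refine List.prod_nonneg fun x hx => ?_
      obtain ⟨b, -, rfl⟩ := List.mem_map.1 hx
      exact mul_nonneg hp0 (Nat.cast_nonneg _)
    have hu0 : 0 ≤ u := by
      rw [← hF.ends y z hyz]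
      exact FP.pr_nonneg _ _
    rw [List.map_cons, List.prod_cons, ← hΛ]
    set lam := p * (gsz gp a : ℝ) with hlam
    have hlam0 : 0 ≤ lam := by linarith
    -- parity of the inner points
    have hpar : ∀ y', (∃ x, cf x y = some y') → ∀ i, par2 y' (flip i z) = !ε := by
      rintro y' ⟨x, hx⟩ i
      rw [par2_flip, par2_of_par (hF.flp x y y' hx), hyz]
      cases ε <;> rfl
    -- the inner moments
    have hW1 : ∀ y', (∃ x, cf x y = some y') → (lawR κ ν p h0 h1).E (Wd gp cf a l z y') ≤
        lam * (Λ * u) := by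
      intro y' hy'
      unfold Wd
      rw [FP.E_sum]
      have : ∀ i ∈ univ.filter (fun i => gp i = a), (lawR κ ν p h0 h1).E
          (fun s => (if rgo s.2 y' z i then (1 : ℝ) else 0) * Mw gp cf l y' (flip i z) s) ≤
          p * (Λ * u) := by
        intro i hi
        have hi' : gp i = a := (Finset.mem_filter.1 hi).2
        rw [E_term (by rw [hi']; exact hl.1) y' (fun x => x) rfl]
        exact mul_le_mul_of_nonneg_left (ih' y' (flip i z) (hpar y' hy' i)).1 hp0
      refine (Finset.sum_le_sum this).trans ?_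
      rw [Finset.sum_const, nsmul_eq_mul, hlam]
      unfold gsz
      exact le_of_eq (by ring)
    have hW2 : ∀ y', (∃ x, cf x y = some y') → (lawR κ ν p h0 h1).E (fun s => Wd gp cf a l z y' s ^ 2) ≤
        lam * (Λ * u + 2 * Λ ^ 2 * u ^ 2) + lam ^ 2 * (Λ * u) ^ 2 := by
      intro y' hy'
      set G := univ.filter (fun i => gp i = a) with hG
      set t : μ → Smp X κ μ → ℝ := fun i s => (if rgo s.2 y' z i then (1 : ℝ) else 0) *
        Mw gp cf l y' (flip i z) s with ht
      have hga' : ∀ i ∈ G, gp i = a := fun i hi => (Finset.mem_filter.1 hi).2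
      have e1 : ∀ s, Wd gp cf a l z y' s ^ 2 = ∑ i ∈ G, ∑ j ∈ G, t i s * t j s := by
        intro s
        rw [sq]
        unfold Wd
        rw [Finset.sum_mul_sum]
      have ht1 : ∀ i ∈ G, (lawR κ ν p h0 h1).E (t i) ≤ p * (Λ * u) := by
        intro i hi
        rw [ht]
        rw [E_term (by rw [hga' i hi]; exact hl.1) y' (fun x => x) rfl]
        exact mul_le_mul_of_nonneg_left (ih' y' (flip i z) (hpar y' hy' i)).1 hp0
      have ht0 : ∀ i, 0 ≤ (lawR κ ν p h0 h1).E (t i) := by
        intro i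
        refine FP.E_nonneg _ fun s => mul_nonneg ?_ (Mw_nonneg _ _ _ _)
        split_ifs <;> norm_num
      have ht2 : ∀ i ∈ G, (lawR κ ν p h0 h1).E (fun s => t i s * t i s) ≤
          p * (Λ * u + 2 * Λ ^ 2 * u ^ 2) := by
        intro i hi
        have h3 := E_term (cf := cf) (gp := gp) (ν := ν) (p := p) (h0 := h0) (h1 := h1) (l := l) (z := z)
          (i := i) (by rw [hga' i hi]; exact hl.1) y' (fun x => x ^ 2) (by norm_num)
        have h4 : (lawR κ ν p h0 h1).E (fun s => t i s * t i s) =
            (lawR κ ν p h0 h1).E (fun s => (t i s) ^ 2) := FP.E_congr _ fun s => (sq _).symm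
        rw [h4]
        refine le_trans (le_of_eq h3) ?_
        exact mul_le_mul_of_nonneg_left (ih' y' (flip i z) (hpar y' hy' i)).2 hp0
      have ht3 : ∀ i ∈ G, ∀ j ∈ G, i ≠ j → (lawR κ ν p h0 h1).E (fun s => t i s * t j s) ≤
          (p * (Λ * u)) * (p * (Λ * u)) := by
        intro i hi j hj hij
        have hdis : Disjoint (cos gp l (flip i z)) (cos gp l (flip j z)) :=
          cos_disjoint (q := i) (by rw [hga' i hi]; exact hl.1) (by simp [hij])
        rw [law_indep (S := cos gp l (flip i z)) (S' := cos gp l (flip j z))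
          (R := insert (y', (canE μ).e z i) (rgs κ gp l (flip i z)))
          (R' := insert (y', (canE μ).e z j) (rgs κ gp l (flip j z))) hdis ?_
          (term_dep l z y' i) (term_dep l z y' j)]
        · exact mul_le_mul (ht1 i hi) (ht1 j hj) (ht0 j) (mul_nonneg hp0 (mul_nonneg hΛ0 hu0))
        · rw [Finset.disjoint_insert_left, Finset.disjoint_insert_right, Finset.mem_insert, not_or]
          refine ⟨⟨?_, can_not_mem_rgs _ _ (by rw [hga' i hi]; exact hl.1) _⟩,
            can_not_mem_rgs _ _ (by rw [hga' j hj]; exact hl.1) _, rgs_disjoint_of_cos hdis⟩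
          intro h
          rw [Prod.mk.injEq] at h
          exact hij (canE_eq h.2).1
      rw [FP.E_congr _ e1, FP.E_sum]
      have e2 : ∀ i ∈ G, (lawR κ ν p h0 h1).E (fun s => ∑ j ∈ G, t i s * t j s) ≤
          p * (Λ * u + 2 * Λ ^ 2 * u ^ 2) + G.card * ((p * (Λ * u)) * (p * (Λ * u))) := by
        intro i hi
        rw [FP.E_sum, ← Finset.add_sum_erase _ _ hi]
        refine add_le_add (ht2 i hi) ?_
        refine (Finset.sum_le_sum fun j hj => ht3 i hi j (Finset.mem_of_mem_erase hj)
          (Finset.ne_of_mem_erase hj).symm).trans ?_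
        rw [Finset.sum_const, nsmul_eq_mul]
        refine mul_le_mul_of_nonneg_right ?_ (mul_self_nonneg _)
        exact_mod_cast Finset.card_le_card (Finset.erase_subset _ _)
      refine (Finset.sum_le_sum e2).trans ?_
      rw [Finset.sum_const, nsmul_eq_mul]
      have hGc : (G.card : ℝ) = gsz gp a := rfl
      rw [hGc, hlam]
      exact le_of_eq (by ring)
    constructor
    · refine le_trans (E_elim_le (κ := κ) z (fun x => cf x y) (fun y' s => Wd gp cf a l z y' s)
        (S := (cos gp (a :: l) z).erase z) (R := rgs κ gp (a :: l) z) (by simp)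
        (fun y' => Wd_dep hl.1 z y') (B := lam * (Λ * u)) (by positivity) hW1) ?_
      exact le_of_eq (by ring)
    · have e5 : ∀ s : Smp X κ μ, Mw gp cf (a :: l) y z s ^ 2 =
          (cf (s.1 z) y).elim 0 fun y' => Wd gp cf a l z y' s ^ 2 := by
        intro s
        rw [Mw_cons]
        cases cf (s.1 z) y <;> simp
      rw [FP.E_congr _ e5]
      refine le_trans (E_elim_le (κ := κ) z (fun x => cf x y) (fun y' s => Wd gp cf a l z y' s ^ 2)
        (S := (cos gp (a :: l) z).erase z) (R := rgs κ gp (a :: l) z) (by simp)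
        (fun y' => (Wd_dep hl.1 z y').comp fun x => x ^ 2)
        (B := lam * (Λ * u + 2 * Λ ^ 2 * u ^ 2) + lam ^ 2 * (Λ * u) ^ 2) (by positivity) hW2) ?_
      have h5 : 2 * lam * (Λ ^ 2 * u ^ 2) ≤ lam ^ 2 * (Λ ^ 2 * u ^ 2) := by
        refine mul_le_mul_of_nonneg_right ?_ (by positivity)
        nlinarith
      nlinarith

/-- R4 -/
theorem E_Nm_sq (gp : μ → Fin T) (p : ℝ) (h0 : 0 ≤ p) (h1 : p ≤ 1) (hF : FldH ν cf Uf act ε u α)
    (r : Fin T → ℕ) {l : List (Fin T)} (hl : l.Nodup)
    (hg : ∀ a ∈ l, 2 ≤ p * gsz gp a) (y : Cube κ) (z : Cube μ) (hyz : par2 y z = !ε) :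
    (lawR κ ν p h0 h1).E (fun s => (Nm gp cf Uf r l s y z : ℝ) ^ 2) ≤
      (l.map fun a => p * gsz gp a).prod * u + 2 * (l.map fun a => p * gsz gp a).prod ^ 2 * u ^ 2 := by
  have h := (Mw_moments (h0 := h0) (h1 := h1) h0 hF l.reverse (List.nodup_reverse.2 hl)
    (fun a ha => hg a (List.mem_reverse.1 ha)) y z hyz).2
  rw [List.map_reverse, List.prod_reverse] at h
  refine le_trans (FP.E_mono _ fun s => ?_) h
  exact pow_le_pow_left₀ (Nat.cast_nonneg _) (Nm_le_Mw y z l) 2

end NmSq

end Pool.Agent.LongCyc.Dense
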