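import Pool.Agent.LongCyc.Dense.Supp

/-!
# Dense regime, section 4 (R5): moments of the number of selected trails of a start
-/

set_option autoImplicit false
set_option linter.unusedSectionVars false

namespace Pool.Agent.LongCyc.Dense

open Finset

section NselSq

variable {κ μ : Type} [DecidableEq κ] [Fintype κ] [DecidableEq μ] [Fintype μ] {T : ℕ} {X : Type}

open Classical in
/-- one term: rung times number of ends -/
noncomputable def tq (gp : μ → Fin T) (cf : X → Cube κ → Option (Cube κ)) (Uf : X → Finset (Cube κ))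
    (r : Fin T → ℕ) (lB : List (Fin T)) (k : (Cube κ × Cube μ) × μ) (s : Smp X κ μ) : ℝ :=
  (if rgo s.2 k.1.1 k.1.2 k.2 then 1 else 0) * (Nm gp cf Uf r lB s k.1.1 (flip k.2 k.1.2) : ℝ)

/-- sum over a set of leaves -/
noncomputable def Yf (gp : μ → Fin T) (cf : X → Cube κ → Option (Cube κ)) (Uf : X → Finset (Cube κ))
    (r : Fin T → ℕ) (m : Fin T) (lB : List (Fin T)) (F : Finset (Cube κ × Cube μ))
    (s : Smp X κ μ) : ℝ :=
  ∑ k ∈ F ×ˢ univ.filter (fun i => gp i = m), tq gp cf Uf r lB k s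

variable {gp : μ → Fin T} {cf : X → Cube κ → Option (Cube κ)} {Uf : X → Finset (Cube κ)}

open Classical in
theorem nsel_eq (r : Fin T → ℕ) (lF : List (Fin T)) (m : Fin T) (lB : List (Fin T)) (s : Smp X κ μ)
    (y : Cube κ) (z : Cube μ) : (nsel gp cf Uf r lF m lB s y z : ℝ) =
      (if isSt cf (s.1 z) y then 1 else 0) * Yf gp cf Uf r m lB (LF gp cf Uf r lF s y z) s := by
  unfold nsel Yf
  rw [Finset.sum_product]
  split_ifs with h
  · rw [one_mul]
    push_cast
    refine Finset.sum_congr rfl fun q _ => ?_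
    rw [Finset.sum_filter]
    refine Finset.sum_congr rfl fun i _ => ?_
    unfold tq
    by_cases h1 : gp i = m <;> by_cases h2 : rgo s.2 q.1 q.2 i <;> simp [h1, h2]
  · simp

theorem tq_dep (r : Fin T → ℕ) {lB : List (Fin T)} (hl : lB.Nodup) (k : (Cube κ × Cube μ) × μ) :
    DepOn (cos gp lB (flip k.2 k.1.2))
      (insert (k.1.1, (canE μ).e k.1.2 k.2) (rgs κ gp lB (flip k.2 k.1.2)))
      (tq gp cf Uf r lB k) := by
  classical
  intro s s' h1 h2
  unfold tq
  have e1 : Nm gp cf Uf r lB s k.1.1 (flip k.2 k.1.2) = Nm gp cf Uf r lB s' k.1.1 (flip k.2 k.1.2) :=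
    Nm_dep r hl k.1.1 (flip k.2 k.1.2) s s' h1 fun e he => h2 e (Finset.mem_insert_of_mem he)
  have e2 : rgo s.2 k.1.1 k.1.2 k.2 ↔ rgo s'.2 k.1.1 k.1.2 k.2 := by
    unfold rgo
    rw [h2 _ (Finset.mem_insert_self _ _)]
  rw [e1, if_congr e2 rfl rfl]

/-- structure of the possible sets of leaves -/
structure GoodF (gp : μ → Fin T) (r : Fin T → ℕ) (lF : List (Fin T)) (ε : Bool) (z : Cube μ)
    (F : Finset (Cube κ × Cube μ)) : Prop where
  cos : ∀ q ∈ F, q.2 ∈ cos gp lF z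
  par : ∀ q ∈ F, par2 q.1 q.2 = ε
  fib : ∀ q ∈ F, ∀ q' ∈ F, q.2 = q'.2 → q = q'
  card : F = ∅ ∨ F.card = (lF.map r).prod

variable [Fintype X] {ν : Cube μ → FP X} {p : ℝ} {h0 : 0 ≤ p} {h1 : p ≤ 1}
  {act : Cube κ → X ≃ X} {ε : Bool} {u α : ℝ}

theorem goodF_LF (hF : FldH ν cf Uf act ε u α) (r : Fin T → ℕ) {lF : List (Fin T)} (hl : lF.Nodup)
    {y : Cube κ} {z : Cube μ} (hyz : par2 y z = ε) (s : Smp X κ μ) :
    GoodF gp r lF ε z (LF gp cf Uf r lF s y z) where
  cos q hq := LT_mem_cos gp _ _ r hq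
  par q hq := by
    refine LT_par gp _ _ r (fun z y y' h => ?_) hyz hq
    unfold stF at h
    split_ifs at h
    exact hF.flp _ _ _ h
  fib q hq q' hq' h := by
    obtain ⟨a, b⟩ := q
    obtain ⟨a', b'⟩ := q'
    dsimp only at h
    subst h
    have : a = a' := LT_fib gp _ _ r hl hq hq'
    rw [this]
  card := LT_card gp _ _ r hl y z

/-- disjoint supports of two different terms -/
theorem tq_disj {lF lB : List (Fin T)} {m : Fin T} (hnd : (lF ++ m :: lB).Nodup) {r : Fin T → ℕ}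
    {z : Cube μ} {F : Finset (Cube κ × Cube μ)} (hG : GoodF gp r lF ε z F)
    {k k' : (Cube κ × Cube μ) × μ} (hk : k.1 ∈ F ∧ gp k.2 = m) (hk' : k'.1 ∈ F ∧ gp k'.2 = m)
    (hne : k ≠ k') :
    Disjoint (cos gp lB (flip k.2 k.1.2)) (cos gp lB (flip k'.2 k'.1.2)) ∧
    Disjoint (insert (k.1.1, (canE μ).e k.1.2 k.2) (rgs κ gp lB (flip k.2 k.1.2)))
      (insert (k'.1.1, (canE μ).e k'.1.2 k'.2) (rgs κ gp lB (flip k'.2 k'.1.2))) := by
  rw [List.nodup_append, List.nodup_cons] at hnd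
  obtain ⟨hlF, ⟨hmB, hlB⟩, hd⟩ := hnd
  have hmF : m ∉ lF := fun h => hd m h m List.mem_cons_self rfl
  have hc1 := mem_cos_iff.1 (hG.cos _ hk.1)
  have hc2 := mem_cos_iff.1 (hG.cos _ hk'.1)
  have hdis : Disjoint (cos gp lB (flip k.2 k.1.2)) (cos gp lB (flip k'.2 k'.1.2)) := by
    by_cases hi : k.2 = k'.2
    · -- then the fibres are different
      have hq : k.1.2 ≠ k'.1.2 := by
        intro h
        exact hne (Prod.ext (hG.fib _ hk.1 _ hk'.1 h) hi)
      obtain ⟨q, hq⟩ := Function.ne_iff.1 hq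
      have hqF : gp q ∈ lF := by
        by_contra h
        exact hq ((hc1 q h).trans (hc2 q h).symm)
      have hqB : gp q ∉ lB := fun h => hd _ hqF _ (List.mem_cons_of_mem _ h) rfl
      have hqi : q ≠ k.2 := by
        rintro rfl
        rw [hk.2] at hqF
        exact hmF hqF
      refine cos_disjoint (q := q) hqB ?_
      rw [flip_of_ne hqi, ← hi, flip_of_ne hqi]
      exact hq
    · refine cos_disjoint (q := k.2) (by rw [hk.2]; exact hmB) ?_
      rw [flip_same, flip_of_ne hi, hc1 k.2 (by rw [hk.2]; exact hmF),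
        hc2 k.2 (by rw [hk.2]; exact hmF)]
      cases z k.2 <;> simp
  refine ⟨hdis, ?_⟩
  rw [Finset.disjoint_insert_left, Finset.disjoint_insert_right, Finset.mem_insert, not_or]
  refine ⟨⟨?_, can_not_mem_rgs _ _ (by rw [hk.2]; exact hmB) _⟩,
    can_not_mem_rgs _ _ (by rw [hk'.2]; exact hmB) _, rgs_disjoint_of_cos hdis⟩
  intro h
  rw [Prod.mk.injEq] at h
  obtain ⟨h2, h3⟩ := h
  obtain ⟨hi, h4⟩ := canE_eq h3
  rcases h4 with h4 | h4
  · exact hne (Prod.ext (Prod.ext h2 h4) hi)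
  · have h5 := congrFun h4 k.2
    rw [flip_same, hc1 k.2 (by rw [hk.2]; exact hmF), hc2 k.2 (by rw [hk.2]; exact hmF)] at h5
    cases z k.2 <;> simp at h5

/-- supports of a term and of the forward tree -/
theorem tq_disj_F {lF lB : List (Fin T)} {m : Fin T} (hnd : (lF ++ m :: lB).Nodup) {r : Fin T → ℕ}
    {z : Cube μ} {F : Finset (Cube κ × Cube μ)} (hG : GoodF gp r lF ε z F)
    {k : (Cube κ × Cube μ) × μ} (hk : k.1 ∈ F ∧ gp k.2 = m) :
    Disjoint (cos gp lF z) (cos gp lB (flip k.2 k.1.2)) ∧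
    Disjoint (rgs κ gp lF z)
      (insert (k.1.1, (canE μ).e k.1.2 k.2) (rgs κ gp lB (flip k.2 k.1.2))) := by
  rw [List.nodup_append, List.nodup_cons] at hnd
  obtain ⟨hlF, ⟨hmB, hlB⟩, hd⟩ := hnd
  have hmF : m ∉ lF := fun h => hd m h m List.mem_cons_self rfl
  have hc1 := mem_cos_iff.1 (hG.cos _ hk.1)
  constructor
  · refine cos_disjoint' (q := k.2) (by rw [hk.2]; exact hmF) (by rw [hk.2]; exact hmB) ?_
    rw [flip_same, hc1 k.2 (by rw [hk.2]; exact hmF)]
    cases z k.2 <;> simp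
  · rw [Finset.disjoint_insert_right]
    refine ⟨can_not_mem_rgs _ _ (by rw [hk.2]; exact hmF) _, rgs_disjoint_of_list ?_ _ _⟩
    intro a ha hb
    exact hd a ha a (List.mem_cons_of_mem _ hb) rfl

theorem E_tq (r : Fin T → ℕ) {lB : List (Fin T)} (hl : lB.Nodup) {k : (Cube κ × Cube μ) × μ}
    (hk : gp k.2 ∉ lB) (f : ℝ → ℝ) (hf : f 0 = 0) :
    (lawR κ ν p h0 h1).E (fun s => f (tq gp cf Uf r lB k s)) =
      p * (lawR κ ν p h0 h1).E (fun s => f (Nm gp cf Uf r lB s k.1.1 (flip k.2 k.1.2) : ℝ)) := by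
  classical
  have e1 : ∀ s : Smp X κ μ, f (tq gp cf Uf r lB k s) =
      (if rgo s.2 k.1.1 k.1.2 k.2 then (1 : ℝ) else 0) *
        f (Nm gp cf Uf r lB s k.1.1 (flip k.2 k.1.2) : ℝ) := by
    intro s
    unfold tq
    split_ifs
    · rw [one_mul, one_mul]
    · rw [zero_mul, zero_mul, hf]
  rw [FP.E_congr _ e1, law_indep (S := ∅) (S' := cos gp lB (flip k.2 k.1.2))
    (R := {(k.1.1, (canE μ).e k.1.2 k.2)}) (R' := rgs κ gp lB (flip k.2 k.1.2))
    (Finset.disjoint_empty_left _) (Finset.disjoint_singleton_left.2 (can_not_mem_rgs _ _ hk _))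
    (f := fun s => if rgo s.2 k.1.1 k.1.2 k.2 then (1 : ℝ) else 0)
    (g := fun s => f (Nm gp cf Uf r lB s k.1.1 (flip k.2 k.1.2) : ℝ))
    (DepOn.rung (k.1.1, (canE μ).e k.1.2 k.2) fun b =>
      @ite ℝ (b = true) (Classical.propDecidable (b = true)) 1 0)
    ((Nm_dep r hl k.1.1 (flip k.2 k.1.2)).comp fun n => f (n : ℝ)), E_rgo]

section moments

variable {r : Fin T → ℕ} {lF lB : List (Fin T)} {m : Fin T} {z : Cube μ}
  {F : Finset (Cube κ × Cube μ)} {M1 M2 : ℝ}

theorem E_Yf (hnd : (lF ++ m :: lB).Nodup) (hG : GoodF gp r lF ε z F)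
    (hM1 : ∀ (y : Cube κ) (z : Cube μ), par2 y z = !ε →
      (lawR κ ν p h0 h1).E (fun s => (Nm gp cf Uf r lB s y z : ℝ)) = M1) :
    (∀ k ∈ F ×ˢ univ.filter (fun i => gp i = m),
      (lawR κ ν p h0 h1).E (tq gp cf Uf r lB k) = p * M1) ∧
    (lawR κ ν p h0 h1).E (Yf gp cf Uf r m lB F) = F.card * (p * gsz gp m) * M1 := by
  have hnd' := hnd
  rw [List.nodup_append, List.nodup_cons] at hnd'
  obtain ⟨-, ⟨hmB, hlB⟩, -⟩ := hnd'
  have h1' : ∀ k ∈ F ×ˢ univ.filter (fun i => gp i = m),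
      (lawR κ ν p h0 h1).E (tq gp cf Uf r lB k) = p * M1 := by
    intro k hk
    rw [Finset.mem_product, Finset.mem_filter] at hk
    rw [E_tq r hlB (by rw [hk.2.2]; exact hmB) (fun x => x) rfl, hM1]
    rw [par2_flip, hG.par _ hk.1]
  refine ⟨h1', ?_⟩
  unfold Yf
  rw [FP.E_sum, Finset.sum_congr rfl h1', Finset.sum_const, Finset.card_product, nsmul_eq_mul]
  push_cast
  unfold gsz
  ring

theorem E_Yf_sq (hnd : (lF ++ m :: lB).Nodup) (hG : GoodF gp r lF ε z F)
    (hM1 : ∀ (y : Cube κ) (z : Cube μ), par2 y z = !ε →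
      (lawR κ ν p h0 h1).E (fun s => (Nm gp cf Uf r lB s y z : ℝ)) = M1)
    (hM2 : ∀ (y : Cube κ) (z : Cube μ), par2 y z = !ε →
      (lawR κ ν p h0 h1).E (fun s => (Nm gp cf Uf r lB s y z : ℝ) ^ 2) ≤ M2) :
    (lawR κ ν p h0 h1).E (fun s => (Yf gp cf Uf r m lB F s - F.card * (p * gsz gp m) * M1) ^ 2) ≤
      F.card * (p * gsz gp m) * M2 := by
  have hnd' := hnd
  rw [List.nodup_append, List.nodup_cons] at hnd'
  obtain ⟨-, ⟨hmB, hlB⟩, -⟩ := hnd'
  obtain ⟨ha, hb⟩ := E_Yf (ν := ν) (h0 := h0) (h1 := h1) (cf := cf) (Uf := Uf) hnd hG hM1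
  have hsum : F.card * (p * gsz gp m) * M1 = ∑ k ∈ F ×ˢ univ.filter (fun i => gp i = m),
      (lawR κ ν p h0 h1).E (tq gp cf Uf r lB k) := by
    rw [← hb]
    unfold Yf
    rw [FP.E_sum]
  rw [hsum]
  refine le_trans (var_pairwise _ (F ×ˢ univ.filter (fun i => gp i = m)) (tq gp cf Uf r lB) ?_) ?_
  · intro k hk k' hk' hne
    rw [Finset.mem_product, Finset.mem_filter] at hk hk'
    obtain ⟨d1, d2⟩ := tq_disj hnd hG ⟨hk.1, hk.2.2⟩ ⟨hk'.1, hk'.2.2⟩ hne
    exact law_indep d1 d2 (tq_dep r hlB k) (tq_dep r hlB k')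
  · have h2 : ∀ k ∈ F ×ˢ univ.filter (fun i => gp i = m),
        (lawR κ ν p h0 h1).E (fun s => tq gp cf Uf r lB k s ^ 2) ≤ p * M2 := by
      intro k hk
      rw [Finset.mem_product, Finset.mem_filter] at hk
      rw [E_tq r hlB (by rw [hk.2.2]; exact hmB) (fun x => x ^ 2) (by norm_num)]
      refine mul_le_mul_of_nonneg_left (hM2 _ _ ?_) h0
      rw [par2_flip, hG.par _ hk.1]
    refine (Finset.sum_le_sum h2).trans ?_
    rw [Finset.sum_const, Finset.card_product, nsmul_eq_mul]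
    push_cast
    unfold gsz
    exact le_of_eq (by ring)

end moments

open Classical in
/-- indicator of a start with a given set of leaves -/
noncomputable def gF (gp : μ → Fin T) (cf : X → Cube κ → Option (Cube κ)) (Uf : X → Finset (Cube κ))
    (r : Fin T → ℕ) (lF : List (Fin T)) (y : Cube κ) (z : Cube μ) (F : Finset (Cube κ × Cube μ))
    (s : Smp X κ μ) : ℝ :=
  if isSt cf (s.1 z) y ∧ LF gp cf Uf r lF s y z = F then 1 else 0

theorem gF_dep (r : Fin T → ℕ) {lF : List (Fin T)} (hl : lF.Nodup) (y : Cube κ) (z : Cube μ)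
    (F : Finset (Cube κ × Cube μ)) :
    DepOn (cos gp lF z) (rgs κ gp lF z) (gF gp cf Uf r lF y z F) := by
  classical
  intro s s' h1 h2
  unfold gF
  rw [h1 z (mem_cos_self gp lF z)]
  have : LF gp cf Uf r lF s y z = LF gp cf Uf r lF s' y z :=
    LF_dep r hl y z s s' (fun w hw => h1 w (Finset.mem_of_mem_erase hw)) h2
  rw [this]

theorem gF_nonneg (r : Fin T → ℕ) (lF : List (Fin T)) (y : Cube κ) (z : Cube μ)
    (F : Finset (Cube κ × Cube μ)) (s : Smp X κ μ) : 0 ≤ gF gp cf Uf r lF y z F s := by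
  unfold gF
  split_ifs <;> norm_num

open Classical in
/-- decomposition by the value of the set of leaves -/
theorem sum_gF (r : Fin T → ℕ) (lF : List (Fin T)) (y : Cube κ) (z : Cube μ)
    (H : Finset (Cube κ × Cube μ) → Smp X κ μ → ℝ) (s : Smp X κ μ) :
    ∑ F : Finset (Cube κ × Cube μ), gF gp cf Uf r lF y z F s * H F s =
      (if isSt cf (s.1 z) y then 1 else 0) * H (LF gp cf Uf r lF s y z) s := by
  rw [Finset.sum_eq_single (LF gp cf Uf r lF s y z)]
  · congr 1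
    unfold gF
    by_cases h : isSt cf (s.1 z) y <;> simp [h]
  · intro F _ hne
    unfold gF
    rw [if_neg (fun h => hne h.2.symm), zero_mul]
  · intro h
    exact absurd (Finset.mem_univ _) h

/-- independence of the forward tree and of the rest -/
theorem E_gF_Yf {r : Fin T → ℕ} {lF lB : List (Fin T)} {m : Fin T} (hnd : (lF ++ m :: lB).Nodup)
    {y : Cube κ} {z : Cube μ} {F : Finset (Cube κ × Cube μ)} (hG : GoodF gp r lF ε z F) (f : ℝ → ℝ) :
    (lawR κ ν p h0 h1).E (fun s => gF gp cf Uf r lF y z F s * f (Yf gp cf Uf r m lB F s)) =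
      (lawR κ ν p h0 h1).E (gF gp cf Uf r lF y z F) *
        (lawR κ ν p h0 h1).E (fun s => f (Yf gp cf Uf r m lB F s)) := by
  classical
  have hnd' := hnd
  rw [List.nodup_append, List.nodup_cons] at hnd'
  obtain ⟨hlF, ⟨hmB, hlB⟩, -⟩ := hnd'
  set K := F ×ˢ univ.filter (fun i => gp i = m) with hK
  have hKm : ∀ k ∈ K, k.1 ∈ F ∧ gp k.2 = m := by
    intro k hk
    rw [hK, Finset.mem_product, Finset.mem_filter] at hk
    exact ⟨hk.1, hk.2.2⟩
  refine law_indep (S := cos gp lF z) (R := rgs κ gp lF z)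
    (S' := K.biUnion fun k => cos gp lB (flip k.2 k.1.2))
    (R' := K.biUnion fun k => insert (k.1.1, (canE μ).e k.1.2 k.2) (rgs κ gp lB (flip k.2 k.1.2)))
    ?_ ?_ (gF_dep r hlF y z F) ?_
  · rw [Finset.disjoint_biUnion_right]
    exact fun k hk => (tq_disj_F hnd hG (hKm k hk)).1
  · rw [Finset.disjoint_biUnion_right]
    exact fun k hk => (tq_disj_F hnd hG (hKm k hk)).2
  · refine DepOn.comp (DepOn.sum K fun k hk => (tq_dep r hlB k).mono ?_ ?_) f
    · exact Finset.subset_biUnion_of_mem (fun k : (Cube κ × Cube μ) × μ =>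
        cos gp lB (flip k.2 k.1.2)) hk
    · exact Finset.subset_biUnion_of_mem (fun k : (Cube κ × Cube μ) × μ =>
        insert (k.1.1, (canE μ).e k.1.2 k.2) (rgs κ gp lB (flip k.2 k.1.2))) hk

/-- R5a -/
theorem pr_AliveSt (gp : μ → Fin T) (p : ℝ) (h0 : 0 ≤ p) (h1 : p ≤ 1)
    (hF : FldH ν cf Uf act ε u α) (r : Fin T → ℕ) {lF : List (Fin T)} (hl : lF.Nodup)
    (y : Cube κ) (z : Cube μ) (hyz : par2 y z = ε) :
    (lawR κ ν p h0 h1).pr (fun s => AliveSt gp cf Uf r lF s y z) =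
      u * (1 - (lawR κ ν p h0 h1).pr (fun s => LF gp cf Uf r lF s y z = ∅)) := by
  classical
  have e1 : ∀ s : Smp X κ μ, (if AliveSt gp cf Uf r lF s y z then (1 : ℝ) else 0) =
      (if isSt cf (s.1 z) y then 1 else 0) *
        (if LF gp cf Uf r lF s y z = ∅ then 0 else 1) := by
    intro s
    unfold AliveSt
    by_cases h1 : isSt cf (s.1 z) y <;> by_cases h2 : LF gp cf Uf r lF s y z = ∅ <;>
      simp [h1, h2, Finset.nonempty_iff_ne_empty]
  rw [FP.pr_eq, FP.E_congr _ e1, law_indep (S := {z}) (S' := (cos gp lF z).erase z) (R := ∅)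
    (R' := rgs κ gp lF z) (Finset.disjoint_singleton_left.2 (by simp))
    (Finset.disjoint_empty_left _) (f := fun s => if isSt cf (s.1 z) y then (1 : ℝ) else 0)
    (g := fun s => if LF gp cf Uf r lF s y z = ∅ then (0 : ℝ) else 1)
    (DepOn.fib z fun x => if isSt cf x y then (1 : ℝ) else 0)
    ((LF_dep r hl y z).comp fun A => if A = ∅ then (0 : ℝ) else 1)]
  congr 1
  · rw [← hF.starts y z hyz, FP.pr_eq]
    exact E_fib z fun x => if isSt cf x y then (1 : ℝ) else 0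
  · rw [FP.pr_eq, ← FP.E_const (lawR κ ν p h0 h1) 1, ← FP.E_sub]
    refine FP.E_congr _ fun s => ?_
    split_ifs <;> norm_num

/-- sum of the probabilities of the nonempty sets of leaves -/
theorem E_sum_gF (hF : FldH ν cf Uf act ε u α) (r : Fin T → ℕ) {lF : List (Fin T)}
    (y : Cube κ) (z : Cube μ) (hyz : par2 y z = ε) :
    ∑ F : Finset (Cube κ × Cube μ), (lawR κ ν p h0 h1).E (gF gp cf Uf r lF y z F) = u := by
  classical
  rw [← FP.E_sum]
  have e1 : ∀ s : Smp X κ μ, ∑ F : Finset (Cube κ × Cube μ), gF gp cf Uf r lF y z F s =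
      if isSt cf (s.1 z) y then 1 else 0 := by
    intro s
    have := sum_gF (gp := gp) (cf := cf) (Uf := Uf) r lF y z (fun _ _ => 1) s
    simpa using this
  rw [FP.E_congr _ e1, ← hF.starts y z hyz, FP.pr_eq]
  exact E_fib z fun x => if isSt cf x y then (1 : ℝ) else 0

/-- impossible sets of leaves -/
theorem E_gF_zero (hF : FldH ν cf Uf act ε u α) (r : Fin T → ℕ) {lF : List (Fin T)} (hl : lF.Nodup)
    {y : Cube κ} {z : Cube μ} (hyz : par2 y z = ε) {F : Finset (Cube κ × Cube μ)}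
    (hG : ¬ GoodF gp r lF ε z F) (s : Smp X κ μ) : gF gp cf Uf r lF y z F s = 0 := by
  unfold gF
  rw [if_neg]
  rintro ⟨-, h⟩
  exact hG (h ▸ goodF_LF hF r hl hyz s)

/-- R5b -/
theorem E_nsel (gp : μ → Fin T) (p : ℝ) (h0 : 0 ≤ p) (h1 : p ≤ 1)
    (hF : FldH ν cf Uf act ε u α) (r : Fin T → ℕ) {lF lB : List (Fin T)} {m : Fin T}
    (hnd : (lF ++ m :: lB).Nodup) {M1 M2 : ℝ}
    (hM1 : ∀ (y : Cube κ) (z : Cube μ), par2 y z = !ε →
      (lawR κ ν p h0 h1).E (fun s => (Nm gp cf Uf r lB s y z : ℝ)) = M1)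
    (_hM2 : ∀ (y : Cube κ) (z : Cube μ), par2 y z = !ε →
      (lawR κ ν p h0 h1).E (fun s => (Nm gp cf Uf r lB s y z : ℝ) ^ 2) ≤ M2)
    (y : Cube κ) (z : Cube μ) (hyz : par2 y z = ε) :
    (lawR κ ν p h0 h1).E (fun s => (nsel gp cf Uf r lF m lB s y z : ℝ)) =
      ((lF.map r).prod : ℕ) * (p * gsz gp m) * M1 *
        (lawR κ ν p h0 h1).pr (fun s => AliveSt gp cf Uf r lF s y z) := by
  classical
  have hlF : lF.Nodup := (List.nodup_append.1 hnd).1
  have e1 : ∀ s : Smp X κ μ, (nsel gp cf Uf r lF m lB s y z : ℝ) =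
      ∑ F : Finset (Cube κ × Cube μ), gF gp cf Uf r lF y z F s * Yf gp cf Uf r m lB F s := by
    intro s
    rw [nsel_eq, sum_gF r lF y z (fun F s => Yf gp cf Uf r m lB F s) s]
  rw [FP.E_congr _ e1, FP.E_sum]
  have e2 : ∀ F : Finset (Cube κ × Cube μ), (lawR κ ν p h0 h1).E
      (fun s => gF gp cf Uf r lF y z F s * Yf gp cf Uf r m lB F s) =
      ((lF.map r).prod : ℕ) * (p * gsz gp m) * M1 *
        (lawR κ ν p h0 h1).E (fun s => gF gp cf Uf r lF y z F s * if F = ∅ then 0 else 1) := by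
    intro F
    by_cases hG : GoodF gp r lF ε z F
    · rw [E_gF_Yf hnd hG (fun x => x), (E_Yf (ν := ν) (h0 := h0) (h1 := h1) hnd hG hM1).2,
        FP.E_mul_right]
      rcases hG.card with h | h
      · rw [h]
        simp
      · by_cases hF0 : F = ∅
        · rw [hF0]
          simp
        · rw [if_neg hF0, h]
          ring
    · have h2 : ∀ s, gF gp cf Uf r lF y z F s = 0 := E_gF_zero hF r hlF hyz hG
      simp only [h2, zero_mul, FP.E_const, mul_zero]
  rw [Finset.sum_congr rfl fun F _ => e2 F, ← Finset.mul_sum, ← FP.E_sum]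
  congr 1
  rw [FP.pr_eq]
  refine FP.E_congr _ fun s => ?_
  rw [sum_gF r lF y z (fun F _ => if F = ∅ then (0 : ℝ) else 1) s]
  unfold AliveSt
  by_cases h1 : isSt cf (s.1 z) y <;> by_cases h2 : LF gp cf Uf r lF s y z = ∅ <;>
    simp [h1, h2, Finset.nonempty_iff_ne_empty]

open Classical in
/-- R5c -/
theorem E_nsel_sq (gp : μ → Fin T) (p : ℝ) (h0 : 0 ≤ p) (h1 : p ≤ 1)
    (hF : FldH ν cf Uf act ε u α) (r : Fin T → ℕ) {lF lB : List (Fin T)} {m : Fin T}
    (hnd : (lF ++ m :: lB).Nodup) {M1 M2 : ℝ}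
    (hM1 : ∀ (y : Cube κ) (z : Cube μ), par2 y z = !ε →
      (lawR κ ν p h0 h1).E (fun s => (Nm gp cf Uf r lB s y z : ℝ)) = M1)
    (hM2 : ∀ (y : Cube κ) (z : Cube μ), par2 y z = !ε →
      (lawR κ ν p h0 h1).E (fun s => (Nm gp cf Uf r lB s y z : ℝ) ^ 2) ≤ M2)
    (y : Cube κ) (z : Cube μ) (hyz : par2 y z = ε) :
    (lawR κ ν p h0 h1).E (fun s => ((nsel gp cf Uf r lF m lB s y z : ℝ) -
        ((lF.map r).prod : ℕ) * (p * gsz gp m) * M1 * (if AliveSt gp cf Uf r lF s y z then 1 else 0)) ^ 2) ≤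
      u * ((lF.map r).prod : ℕ) * (p * gsz gp m) * M2 := by
  have hlF : lF.Nodup := (List.nodup_append.1 hnd).1
  set c : ℝ := ((lF.map r).prod : ℕ) * (p * gsz gp m) * M1 with hc
  have e1 : ∀ s : Smp X κ μ, ((nsel gp cf Uf r lF m lB s y z : ℝ) -
      c * (if AliveSt gp cf Uf r lF s y z then 1 else 0)) ^ 2 =
      ∑ F : Finset (Cube κ × Cube μ), gF gp cf Uf r lF y z F s *
        (Yf gp cf Uf r m lB F s - c * (if F = ∅ then 0 else 1)) ^ 2 := by
    intro s
    rw [sum_gF r lF y z (fun F s => (Yf gp cf Uf r m lB F s - c * (if F = ∅ then 0 else 1)) ^ 2) s,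
      nsel_eq]
    unfold AliveSt
    by_cases h1 : isSt cf (s.1 z) y <;> by_cases h2 : LF gp cf Uf r lF s y z = ∅ <;>
      simp [h1, h2, Finset.nonempty_iff_ne_empty]
  rw [FP.E_congr _ e1, FP.E_sum]
  -- nonnegativity of the bound
  have hB0 : 0 ≤ ((lF.map r).prod : ℕ) * (p * gsz gp m) * M2 := by
    by_cases hm : gsz gp m = 0
    · rw [hm]
      simp
    · have : 0 < gsz gp m := Nat.pos_of_ne_zero hm
      unfold gsz at this
      rw [Finset.card_pos] at this
      obtain ⟨i, hi⟩ := this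
      have h3 : 0 ≤ M2 := by
        refine le_trans ?_ (hM2 y (flip i z) (by rw [par2_flip, hyz]))
        exact FP.E_nonneg _ fun s => by positivity
      positivity
  have e2 : ∀ F : Finset (Cube κ × Cube μ), (lawR κ ν p h0 h1).E
      (fun s => gF gp cf Uf r lF y z F s *
        (Yf gp cf Uf r m lB F s - c * (if F = ∅ then 0 else 1)) ^ 2) ≤
      (lawR κ ν p h0 h1).E (gF gp cf Uf r lF y z F) *
        (((lF.map r).prod : ℕ) * (p * gsz gp m) * M2) := by
    intro F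
    by_cases hG : GoodF gp r lF ε z F
    · rw [E_gF_Yf hnd hG (fun x => (x - c * (if F = ∅ then 0 else 1)) ^ 2)]
      refine mul_le_mul_of_nonneg_left ?_ (FP.E_nonneg _ (gF_nonneg r lF y z F))
      have hsq := E_Yf_sq (ν := ν) (h0 := h0) (h1 := h1) hnd hG hM1 hM2
      by_cases hF0 : F = ∅
      · subst hF0
        refine le_trans (le_of_eq ?_) hB0
        rw [if_pos rfl]
        have : ∀ s : Smp X κ μ, (Yf gp cf Uf r m lB ∅ s - c * 0) ^ 2 = 0 := by
          intro s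
          unfold Yf
          simp
        rw [FP.E_congr _ this, FP.E_const]
      · rcases hG.card with h | h
        · exact absurd h hF0
        · rw [if_neg hF0, mul_one, hc, ← h]
          exact hsq
    · have h2 : ∀ s, gF gp cf Uf r lF y z F s = 0 := E_gF_zero hF r hlF hyz hG
      have h3 : (lawR κ ν p h0 h1).E (gF gp cf Uf r lF y z F) = 0 := by
        rw [FP.E_congr _ h2, FP.E_const]
      rw [h3, zero_mul]
      simp only [h2, zero_mul, FP.E_const, le_refl]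
  refine (Finset.sum_le_sum fun F _ => e2 F).trans ?_
  rw [← Finset.sum_mul, E_sum_gF hF r y z hyz]
  exact le_of_eq (by ring)

end NselSq

end Pool.Agent.LongCyc.Dense
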