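import Pool.Agent.LongCyc.Dense.E2Def

/-!
# Dense regime: pieces, ends and giants in a valid configuration
-/

set_option autoImplicit false

namespace Pool.Agent.LongCyc.Dense

open Finset

section E4

variable {β δ : Type} [DecidableEq β] [Fintype β] [DecidableEq δ] [Fintype δ] {nR : ℕ}

/-- the vertices of a piece exist -/
theorem BD.Val.pit {D : BD β nR} {D0 : Finset β} {Adms : Finset (CE β) → Prop} {L Vr Bd0 : ℕ}
    (hD : D.Val D0 Adms L Vr Bd0) {x : Cube β} (hx : x ∈ D.PS) {k : ℕ} (hk : k < Vr) :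
    ∃ y, it D.b k x = some y := by
  cases k with
  | zero => exact ⟨x, rfl⟩
  | succ k =>
    obtain ⟨y, y', h1, h2, -⟩ := hD.pint x hx k hk
    exact ⟨y', by simp [it, h1, h2]⟩

omit [DecidableEq δ] [Fintype δ] in
/-- the vertices of a piece exist -/
private theorem pcsAux_pcv {D : Cube δ → BD β nR} {D0 : Finset β} {Adms : Finset (CE β) → Prop} {L Vr Bd0 : ℕ}
    (hD : ∀ z, (D z).Val D0 Adms L Vr Bd0) (q : PI D) (k : Fin Vr) :
    ∃ y, it (D q.1.2).b k q.1.1 = some y ∧ pcv D Vr q k = jn y q.1.2 := by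
  obtain ⟨y, hy⟩ := (hD q.1.2).pit q.2 k.2
  exact ⟨y, hy, by rw [pcv, hy, Option.getD_some]⟩

private theorem pcsAux_opn_ne {β : Type} [DecidableEq β] {E : Type} {ℓ : EdgeLab β E} {ω : E → Bool} {x y : Cube β} (h : opn ℓ ω x y) :
    x ≠ y := by
  obtain ⟨i, rfl, -⟩ := h
  exact (flip_ne i x).symm

theorem pcs_sys {D : Cube δ → BD β nR} {D0 : Finset β} {Adms : Finset (CE β) → Prop} {L Vr Bd0 Bd : ℕ}
    (hVr : 2 ≤ Vr) (hD : ∀ z, (D z).Val D0 Adms L Vr Bd0) {rg : Cube β × CE δ → Bool}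
    {c : Cube (β ⊕ δ) → Option (Cube (β ⊕ δ))} {U : Finset (Cube (β ⊕ δ))} (hv : SysV L D rg c U Bd) :
    Pcs (cG c) (PI D) Vr (pcv D Vr) := by
  have _ := hVr
  constructor
  · rintro ⟨q, k⟩ ⟨q', k'⟩ h
    obtain ⟨y, h1, h2⟩ := pcsAux_pcv hD q k
    obtain ⟨y', h1', h2'⟩ := pcsAux_pcv hD q' k'
    have h3 : jn y q.1.2 = jn y' q'.1.2 := by rw [← h2, ← h2']; exact h
    obtain ⟨rfl, h4⟩ := jn_inj h3
    obtain ⟨⟨x, z⟩, hx⟩ := q
    obtain ⟨⟨x', z'⟩, hx'⟩ := q'
    dsimp only at h1 h1' h4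
    subst h4
    obtain ⟨h5, h6⟩ := (hD z).pdis x hx x' hx' k k.2 k' k'.2 y h1 h1'
    subst h5
    have h7 : k = k' := Fin.ext h6
    subst h7
    rfl
  · rintro ⟨⟨x, z⟩, hx⟩ i hi
    obtain ⟨y, y', h1, h2, h3⟩ := (hD z).pint x hx i hi
    have e1 : pcv D Vr ⟨⟨x, z⟩, hx⟩ ⟨i, by omega⟩ = jn y z := by
      simp [pcv, h1]
    have e2 : pcv D Vr ⟨⟨x, z⟩, hx⟩ ⟨i + 1, hi⟩ = jn y' z := by
      simp [pcv, it, h1, h2]
    rw [e1, e2]
    have hU : y ∉ (D z).U := ((hD z).pU y ⟨x, hx, i, by omega, h1⟩).1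
    refine ⟨fun h => pcsAux_opn_ne ((hD z).cOpen y y' h3) (jn_inj h).1, Or.inl (hv.keep z y y' h3 hU)⟩

theorem pun_sys {D : Cube δ → BD β nR} {D0 : Finset β} {Adms : Finset (CE β) → Prop} {L Vr Bd0 : ℕ}
    (hD : ∀ z, (D z).Val D0 Adms L Vr Bd0) (x : Cube (β ⊕ δ)) :
    x ∈ pun (pcv D Vr) ↔ (D (x ∘ Sum.inr)).inP Vr (x ∘ Sum.inl) := by
  simp only [pun, mem_image, mem_univ, true_and, Prod.exists]
  constructor
  · rintro ⟨q, k, rfl⟩
    obtain ⟨y, h1, h2⟩ := pcsAux_pcv hD q k
    rw [h2]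
    exact ⟨q.1.1, q.2, k, k.2, h1⟩
  · rintro ⟨u, hu, k, hk, h1⟩
    refine ⟨⟨⟨u, x ∘ Sum.inr⟩, hu⟩, ⟨k, hk⟩, ?_⟩
    simp only [pcv, h1, Option.getD_some, jn_self]

theorem cG_deg {V : Type} [Fintype V] [DecidableEq V] (c : V → Option V) (hc : PInj c) (v : V)
    [DecidablePred fun u => (cG c).Adj v u] : (univ.filter fun u => (cG c).Adj v u).card ≤ 2 := by
  have h1 : (univ.filter fun u => c v = some u).card ≤ 1 := by
    rw [Finset.card_le_one]
    intro a ha b hb
    simp only [mem_filter, mem_univ, true_and] at ha hb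
    rw [ha] at hb
    exact Option.some.inj hb
  have h2 : (univ.filter fun u => c u = some v).card ≤ 1 := by
    rw [Finset.card_le_one]
    intro a ha b hb
    simp only [mem_filter, mem_univ, true_and] at ha hb
    exact hc a b v ha hb
  calc (univ.filter fun u => (cG c).Adj v u).card
      ≤ ((univ.filter fun u => c v = some u) ∪ (univ.filter fun u => c u = some v)).card := by
        refine Finset.card_le_card fun u hu => ?_
        simp only [mem_filter, mem_univ, true_and, mem_union] at hu ⊢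
        exact hu.2
    _ ≤ _ := Finset.card_union_le _ _
    _ ≤ 2 := by omega

open Classical in
/-- in a finite set, a map defined on a subset and injective: as many vertices are not in the range as not in the domain -/
private theorem pcsAux_card_ndom {V : Type} [Fintype V] [DecidableEq V] (c : V → Option V) (hc : PInj c) :
    (univ.filter fun x => c x = none).card = (univ.filter fun x => ∀ w, c w ≠ some x).card := by
  have h1 : (univ.filter fun x => c x ≠ none).card = (univ.filter fun x => ∃ w, c w = some x).card := by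
    refine Finset.card_bij (fun x _ => (c x).getD x) ?_ ?_ ?_
    · intro x hx
      simp only [mem_filter, mem_univ, true_and] at hx ⊢
      obtain ⟨y, hy⟩ := Option.ne_none_iff_exists'.1 hx
      exact ⟨x, by rw [hy]; rfl⟩
    · intro x hx y hy hxy
      simp only [mem_filter, mem_univ, true_and] at hx hy
      obtain ⟨x', hx'⟩ := Option.ne_none_iff_exists'.1 hx
      obtain ⟨y', hy'⟩ := Option.ne_none_iff_exists'.1 hy
      rw [hx', hy'] at hxy
      simp only [Option.getD_some] at hxy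
      subst hxy
      exact hc x y x' hx' hy'
    · intro y hy
      simp only [mem_filter, mem_univ, true_and] at hy
      obtain ⟨w, hw⟩ := hy
      exact ⟨w, by simp [hw], by rw [hw]; rfl⟩
  have h2 := Finset.card_filter_add_card_filter_not (s := (univ : Finset V)) (fun x => c x = none)
  have h3 := Finset.card_filter_add_card_filter_not (s := (univ : Finset V)) (fun x => ∃ w, c w = some x)
  have h4 : (univ.filter fun x : V => ¬ ∃ w, c w = some x) = univ.filter fun x => ∀ w, c w ≠ some x := by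
    ext x
    simp
  have h5 : (univ.filter fun x : V => ¬ c x = none) = univ.filter fun x => c x ≠ none := rfl
  rw [h4] at h3
  rw [h5] at h2
  omega

open Classical in
theorem cG_ends {V : Type} [Fintype V] [DecidableEq V] (c : V → Option V) (hc : PInj c)
    (h2 : ∀ x y, c x = some y → c y ≠ some x) (hx : ∀ x, c x ≠ some x) :
    endCard (cG c) ≤ 2 * (univ.filter fun x => ∀ w, c w ≠ some x).card := by
  have h3 := pcsAux_card_ndom c hc
  have h4 : endCard (cG c) ≤ ((univ.filter fun x => c x = none) ∪ (univ.filter fun x => ∀ w, c w ≠ some x)).card := by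
    unfold endCard
    refine Finset.card_le_card fun v hv => ?_
    simp only [mem_filter, mem_univ, true_and, mem_union] at hv ⊢
    by_contra hcon
    push Not at hcon
    obtain ⟨h5, w, hw⟩ := hcon
    obtain ⟨u, hu⟩ := Option.ne_none_iff_exists'.1 h5
    have hwu : w ≠ u := fun h => h2 w v hw (h ▸ hu)
    have hvw : v ≠ w := fun h => hx v (by rw [← h] at hw; exact hw)
    have hvu : v ≠ u := fun h => hx v (by rw [← h] at hu; exact hu)
    have h6 : 1 < (univ.filter fun u => (cG c).Adj v u).card := by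
      rw [Finset.one_lt_card]
      refine ⟨w, ?_, u, ?_, hwu⟩
      · simp only [mem_filter, mem_univ, true_and]
        exact ⟨hvw, Or.inr hw⟩
      · simp only [mem_filter, mem_univ, true_and]
        exact ⟨hvu, Or.inl hu⟩
    omega
  have h5 := Finset.card_union_le (univ.filter fun x => c x = none) (univ.filter fun x => ∀ w, c w ≠ some x)
  omega

/-- the predecessor in the giant -/
theorem BD.Val.gpred {D : BD β nR} {D0 : Finset β} {Adms : Finset (CE β) → Prop} {L Vr Bd0 : ℕ}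
    (hD : D.Val D0 Adms L Vr Bd0) {y : Cube β} (hy : y ∈ D.G) : ∃ y' ∈ D.G, D.c y' = some y := by
  choose f hf1 hf2 using hD.gcyc
  have hinj : Function.Injective fun q : {y // y ∈ D.G} => (⟨f q.1 q.2, hf1 q.1 q.2⟩ : {y // y ∈ D.G}) := by
    rintro ⟨a, ha⟩ ⟨b, hb⟩ h
    simp only [Subtype.mk.injEq] at h
    have h1 := hf2 a ha
    have h2 := hf2 b hb
    rw [← h] at h2
    exact Subtype.ext (hD.cInj a b _ h1 h2)
  obtain ⟨⟨a, ha⟩, h⟩ := (Finite.surjective_of_injective hinj) ⟨y, hy⟩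
  refine ⟨a, ha, ?_⟩
  simp only [Subtype.mk.injEq] at h
  rw [← h]
  exact hf2 a ha

theorem giant_adj {D : Cube δ → BD β nR} {D0 : Finset β} {Adms : Finset (CE β) → Prop} {L Vr Bd0 Bd : ℕ}
    (hD : ∀ z, (D z).Val D0 Adms L Vr Bd0) {rg : Cube β × CE δ → Bool}
    {c : Cube (β ⊕ δ) → Option (Cube (β ⊕ δ))} {U : Finset (Cube (β ⊕ δ))} (hv : SysV L D rg c U Bd)
    (z : Cube δ) (y : Cube β) (hy : y ∈ (D z).G) (u : Cube (β ⊕ δ)) :
    (cG c).Adj (jn y z) u ↔ ∃ y', u = jn y' z ∧ y' ∈ (D z).G ∧ ((D z).c y = some y' ∨ (D z).c y' = some y) := by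
  constructor
  · rintro ⟨-, h | h⟩
    · obtain ⟨y', h1, h2⟩ := (hD z).gcyc y hy
      have h3 := hv.keep z y y' h2 ((hD z).gU y hy)
      rw [h] at h3
      exact ⟨y', Option.some.inj h3, h1, Or.inl h2⟩
    · obtain ⟨y', h1, h2⟩ := (hD z).gpred hy
      have h3 := hv.keep z y' y h2 ((hD z).gU y' h1)
      exact ⟨y', hv.inj _ _ _ h h3, h1, Or.inr h2⟩
  · rintro ⟨y', rfl, h1, h2 | h2⟩
    · exact ⟨fun h => pcsAux_opn_ne ((hD z).cOpen y y' h2) (jn_inj h).1,
        Or.inl (hv.keep z y y' h2 ((hD z).gU y hy))⟩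
    · exact ⟨fun h => pcsAux_opn_ne ((hD z).cOpen y' y h2) (jn_inj h).1.symm,
        Or.inr (hv.keep z y' y h2 ((hD z).gU y' h1))⟩

end E4

end Pool.Agent.LongCyc.Dense
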