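import Pool.Agent.LongCyc.Dense.Field

/-!
# Reversal of a fibre field, double counting of the selected tuples
-/

set_option autoImplicit false
set_option linter.unusedSectionVars false

namespace Pool.Agent.LongCyc.Dense

open Finset

section Aux

variable {κ μ : Type} [DecidableEq κ] [Fintype κ] [DecidableEq μ] [Fintype μ] {T : ℕ} {X : Type} [Fintype X]

theorem pinv_eq_some_iff {c : Cube κ → Option (Cube κ)} (hc : PInj c) {y w : Cube κ} :
    pinv c y = some w ↔ c w = some y := by
  unfold pinv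
  constructor
  · intro h
    split_ifs at h with h1
    rw [Option.some.injEq] at h
    rw [← h]
    exact h1.choose_spec
  · intro h
    have h1 : ∃ w, c w = some y := ⟨w, h⟩
    rw [dif_pos h1, Option.some.injEq]
    exact hc _ _ _ h1.choose_spec h

theorem pinv_eq_none_iff {c : Cube κ → Option (Cube κ)} {y : Cube κ} :
    pinv c y = none ↔ ∀ w, c w ≠ some y := by
  unfold pinv
  constructor
  · intro h
    split_ifs at h with h1
    intro w hw
    exact h1 ⟨w, hw⟩
  · intro h
    rw [dif_neg]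
    rintro ⟨w, hw⟩
    exact h w hw

theorem PInj.pinv {c : Cube κ → Option (Cube κ)} (hc : PInj c) : PInj (pinv c) := by
  intro x y v hx hy
  rw [pinv_eq_some_iff hc] at hx hy
  rw [hx] at hy
  exact Option.some.inj hy

theorem mem_imU {c : Cube κ → Option (Cube κ)} {U : Finset (Cube κ)} {v : Cube κ} :
    v ∈ imU c U ↔ ∃ w ∈ U, c w = some v := by
  unfold imU
  simp

theorem stF_eq_some_iff {cf : X → Cube κ → Option (Cube κ)} {Uf : X → Finset (Cube κ)} {x : X}
    {y w : Cube κ} : stF cf Uf x y = some w ↔ y ∈ Uf x ∧ cf x y = some w := by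
  unfold stF
  split_ifs with h <;> simp [h]

theorem stB_eq_some_iff {cf : X → Cube κ → Option (Cube κ)} {Uf : X → Finset (Cube κ)} {x : X}
    (hc : PInj (cf x)) {y w : Cube κ} : stB cf Uf x y = some w ↔ w ∈ Uf x ∧ cf x w = some y := by
  unfold stB
  constructor
  · intro h
    split_ifs at h with h1
    rw [Option.some.injEq] at h
    rw [← h]
    exact h1.choose_spec
  · intro h
    have h1 : ∃ w, w ∈ Uf x ∧ cf x w = some y := ⟨w, h⟩
    rw [dif_pos h1, Option.some.injEq]
    exact hc _ _ _ h1.choose_spec.2 h.2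

theorem LT_par_aux (gp : μ → Fin T) (st : Cube μ → Cube κ → Option (Cube κ))
    (o : Cube κ → Cube μ → μ → Prop) (r : Fin T → ℕ)
    (hst : ∀ z y y', st z y = some y' → par y' = !par y) {l : List (Fin T)} {y y' : Cube κ}
    {z z' : Cube μ} (h : (y', z') ∈ LT gp st o r l y z) : par2 y' z' = par2 y z := by
  classical
  induction l generalizing y z with
  | nil =>
    simp only [LT, mem_singleton, Prod.mk.injEq] at h
    rw [h.1, h.2]
  | cons a l ih =>
    simp only [LT, mem_biUnion] at h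
    obtain ⟨i, _, hi⟩ := h
    cases h1 : st (flip i z) y with
    | none =>
      rw [h1] at hi
      simp at hi
    | some y1 =>
      rw [h1] at hi
      rw [ih hi]
      unfold par2
      rw [hst _ _ _ h1, par_flip]
      cases par y <;> cases par z <;> rfl

theorem rgo_flip (b : Cube κ × CE μ → Bool) (y : Cube κ) (z : Cube μ) (i : μ) :
    rgo b y (flip i z) i ↔ rgo b y z i := by
  unfold rgo
  rw [(canE μ).symm z i]

end Aux

/-! ### R6 : reversal -/

section R6

variable {κ μ : Type} [DecidableEq κ] [Fintype κ] [DecidableEq μ] [Fintype μ] {T : ℕ} {X : Type} [Fintype X]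
  {ν : Cube μ → FP X} {cf : X → Cube κ → Option (Cube κ)} {Uf : X → Finset (Cube κ)}
  {act : Cube κ → X ≃ X} {ε : Bool} {u α : ℝ}

theorem rev_stF (hinj : ∀ x, PInj (cf x)) :
    stF (fun x => pinv (cf x)) (fun x => imU (cf x) (Uf x)) = stB cf Uf := by
  funext x y
  ext w
  rw [stF_eq_some_iff, stB_eq_some_iff (hinj x), mem_imU, pinv_eq_some_iff (hinj x)]
  constructor
  · rintro ⟨⟨v, hv, hv'⟩, hw⟩
    have := hinj x _ _ _ hv' hw
    rw [← this]
    exact ⟨hv, hv'⟩
  · rintro ⟨hw, hw'⟩
    exact ⟨⟨w, hw, hw'⟩, hw'⟩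

theorem rev_stB (hinj : ∀ x, PInj (cf x)) (hdom : ∀ x y, y ∈ Uf x → ∃ y', cf x y = some y') :
    stB (fun x => pinv (cf x)) (fun x => imU (cf x) (Uf x)) = stF cf Uf := by
  funext x y
  ext w
  rw [stB_eq_some_iff (cf := fun x => Dense.pinv (cf x)) (hinj x).pinv, stF_eq_some_iff, mem_imU,
    pinv_eq_some_iff (hinj x)]
  constructor
  · rintro ⟨⟨v, hv, hv'⟩, hw⟩
    have := hinj x _ _ _ hv' hw
    rw [← this]
    exact ⟨hv, hv'⟩
  · rintro ⟨hy, hw⟩
    exact ⟨⟨y, hy, hw⟩, hw⟩

theorem rev_isSt (hinj : ∀ x, PInj (cf x)) (x : X) (y : Cube κ) :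
    isSt (fun x => pinv (cf x)) x y ↔ isEn cf x y := by
  unfold isSt isEn
  simp only [ne_eq, pinv_eq_some_iff (hinj x)]
  constructor
  · intro h
    cases h1 : cf x y with
    | none => rfl
    | some w => exact absurd h1 (h w)
  · intro h w
    rw [h]
    simp

theorem rev_isEn (x : X) (y : Cube κ) : isEn (fun x => pinv (cf x)) x y ↔ isSt cf x y :=
  pinv_eq_none_iff

theorem FldH.rev (hF : FldH ν cf Uf act ε u α) :
    FldH ν (fun x => pinv (cf x)) (fun x => imU (cf x) (Uf x)) act (!ε) u α where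
  inj x := (hF.inj x).pinv
  flp x y y' h := by
    rw [pinv_eq_some_iff (hF.inj x)] at h
    rw [hF.flp x y' y h, Bool.not_not]
  dom x y h := by
    obtain ⟨w, _, hw'⟩ := mem_imU.mp h
    exact ⟨w, (pinv_eq_some_iff (hF.inj x)).mpr hw'⟩
  starts y z h := by
    simp only [rev_isSt hF.inj]
    exact hF.ends y z h
  ends y z h := by
    simp only [rev_isEn]
    rw [Bool.not_not] at h
    exact hF.starts y z h
  useF y z h := by
    simp only [mem_imU]
    rw [Bool.not_not] at h
    exact hF.useB y z h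
  useB y z h := by
    refine (hF.useF y z h).trans (FP.pr_mono _ fun x hx => ?_)
    obtain ⟨w, hw⟩ := hF.dom x y hx
    exact ⟨w, mem_imU.mpr ⟨y, hx, hw⟩, (pinv_eq_some_iff (hF.inj x)).mpr hw⟩
  act_c η x y := by
    ext w
    rw [pinv_eq_some_iff (hF.inj _), Option.map_eq_some_iff]
    simp only [pinv_eq_some_iff (hF.inj x)]
    have h1 := hF.act_c η x (xr w η)
    rw [xr_xr] at h1
    rw [h1, Option.map_eq_some_iff]
    constructor
    · rintro ⟨v, hv, hv'⟩
      have := xr_injective η hv'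
      subst this
      exact ⟨xr w η, hv, xr_xr w η⟩
    · rintro ⟨v, hv, rfl⟩
      rw [xr_xr]
      exact ⟨y, hv, rfl⟩
  act_U η x y := by
    rw [mem_imU, mem_imU]
    constructor
    · rintro ⟨w, hw, hw'⟩
      refine ⟨xr w η, ?_, ?_⟩
      · rw [← hF.act_U η x, xr_xr]
        exact hw
      · have h1 := hF.act_c η x (xr w η)
        rw [xr_xr, hw'] at h1
        obtain ⟨v, hv, hv'⟩ := Option.map_eq_some_iff.mp h1.symm
        rw [hv, xr_injective η hv']
    · rintro ⟨w, hw, hw'⟩
      refine ⟨xr w η, (hF.act_U η x w).mpr hw, ?_⟩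
      rw [hF.act_c η x w, hw']
      rfl
  act_w := hF.act_w

open Classical in
/-- double counting -/
theorem card_sel_start {gp : μ → Fin T} (r : Fin T → ℕ) {lF lB : List (Fin T)} {m : Fin T} (s : Smp X κ μ)
    (x : Cube κ × Cube μ) (hx : par2 x.1 x.2 = ε) :
    (univ.filter fun q : Tup κ μ => Sel gp ε cf Uf r lF m lB s q ∧ q.1 = x).card =
      nsel gp cf Uf r lF m lB s x.1 x.2 := by
  rw [Finset.card_filter, Fintype.sum_prod_type, Finset.sum_eq_single x]
  · unfold nsel
    split_ifs with h1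
    · rw [Fintype.sum_prod_type, ← Finset.sum_subset (Finset.subset_univ (LF gp cf Uf r lF s x.1 x.2))]
      · refine Finset.sum_congr rfl fun l hl => ?_
        rw [Fintype.sum_prod_type]
        refine Finset.sum_congr rfl fun i _ => ?_
        unfold Nm
        rw [Finset.card_filter]
        split_ifs with h2
        · refine Finset.sum_congr rfl fun e _ => ?_
          refine if_congr ?_ rfl rfl
          unfold Sel
          simp only [and_true]
          constructor
          · rintro ⟨_, _, _, _, _, h3, h4⟩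
            exact ⟨h3, h4⟩
          · rintro ⟨h3, h4⟩
            exact ⟨hx, h1, hl, h2.1, h2.2, h3, h4⟩
        · refine Finset.sum_eq_zero fun e _ => ?_
          rw [if_neg]
          rintro ⟨⟨_, _, _, h3, h4, _, _⟩, _⟩
          exact h2 ⟨h3, h4⟩
      · intro l _ hl
        refine Finset.sum_eq_zero fun e _ => ?_
        rw [if_neg]
        rintro ⟨⟨_, _, h3, _⟩, _⟩
        exact hl h3
    · refine Finset.sum_eq_zero fun e _ => ?_
      rw [if_neg]
      rintro ⟨⟨_, h3, _⟩, _⟩
      exact h1 h3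
  · intro b _ hb
    refine Finset.sum_eq_zero fun e _ => ?_
    rw [if_neg]
    rintro ⟨_, h3⟩
    exact hb h3
  · intro h
    exact absurd (Finset.mem_univ _) h

open Classical in
theorem card_sel_end {gp : μ → Fin T} (hinj : ∀ x, PInj (cf x)) (hdom : ∀ x y, y ∈ Uf x → ∃ y', cf x y = some y')
    (hflp : ∀ x y y', cf x y = some y' → par y' = !par y)
    (r : Fin T → ℕ) {lF lB : List (Fin T)} {m : Fin T} (s : Smp X κ μ)
    (e : Cube κ × Cube μ) (he : par2 e.1 e.2 = !ε) :
    (univ.filter fun q : Tup κ μ => Sel gp ε cf Uf r lF m lB s q ∧ q.2.2.2 = e).card =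
      nsel gp (fun x => pinv (cf x)) (fun x => imU (cf x) (Uf x)) r lB m lF s e.1 e.2 := by
  rw [← card_sel_start (ε := !ε) r s e he]
  refine Finset.card_bij' (fun q _ => (q.2.2.2, (q.2.1.1, flip q.2.2.1 q.2.1.2), q.2.2.1, q.1))
    (fun q _ => (q.2.2.2, (q.2.1.1, flip q.2.2.1 q.2.1.2), q.2.2.1, q.1)) ?_ ?_ ?_ ?_
  · rintro ⟨a, l, i, e'⟩ hq
    simp only [mem_filter, mem_univ, true_and] at hq ⊢
    obtain ⟨⟨_, h2, h3, h4, h5, h6, h7⟩, rfl⟩ := hq
    refine ⟨⟨he, (rev_isSt hinj _ _).mpr h6, ?_, h4, ?_, (rev_isEn _ _).mpr h2, ?_⟩, rfl⟩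
    · unfold LF
      rw [rev_stF hinj]
      exact h7
    · exact (rgo_flip _ _ _ _).mpr h5
    · unfold LB
      rw [rev_stB hinj hdom]
      simp only [flip_flip]
      exact h3
  · rintro ⟨e', b, i, a⟩ hq
    simp only [mem_filter, mem_univ, true_and] at hq ⊢
    obtain ⟨⟨_, h2, h3, h4, h5, h6, h7⟩, rfl⟩ := hq
    unfold LF at h3
    rw [rev_stF hinj] at h3
    unfold LB at h7
    rw [rev_stB hinj hdom] at h7
    have p1 : par2 b.1 b.2 = !ε := by
      rw [← he]
      refine LT_par_aux gp _ _ r ?_ h3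
      intro z y y' h
      rw [stB_eq_some_iff (hinj _)] at h
      have := hflp _ _ _ h.2
      rw [this, Bool.not_not]
    have p2 : par2 b.1 (flip i b.2) = par2 a.1 a.2 := by
      refine LT_par_aux gp _ _ r ?_ h7
      intro z y y' h
      rw [stF_eq_some_iff] at h
      exact hflp _ _ _ h.2
    have p3 : par2 b.1 (flip i b.2) = !par2 b.1 b.2 := by
      unfold par2
      rw [par_flip]
      cases par b.1 <;> cases par b.2 <;> rfl
    refine ⟨⟨?_, (rev_isEn _ _).mp h6, h7, h4, (rgo_flip _ _ _ _).mpr h5, (rev_isSt hinj _ _).mp h2, ?_⟩, rfl⟩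
    · rw [← p2, p3, p1, Bool.not_not]
    · simp only [flip_flip]
      exact h3
  · rintro ⟨a, l, i, e'⟩ _
    simp
  · rintro ⟨a, l, i, e'⟩ _
    simp

end R6

end Pool.Agent.LongCyc.Dense
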