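import Pool.Agent.LongCyc.Dense.NmMean
import Pool.Agent.LongCyc.Dense.NmSq
import Pool.Agent.LongCyc.Dense.NselSq
import Pool.Agent.LongCyc.Dense.Dead
import Pool.Agent.LongCyc.Dense.Rev

/-!
# Dense regime, section 4 (R9, first part): the number of selected trails of a start is concentrated
-/

set_option autoImplicit false
set_option linter.unusedSectionVars false

namespace Pool.Agent.LongCyc.Dense

open Finset

section RoundA

variable {κ μ : Type} [DecidableEq κ] [Fintype κ] [DecidableEq μ] [Fintype μ] {T : ℕ} {X : Type} [Fintype X]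
  (gp : μ → Fin T) {ν : Cube μ → FP X} {cf : X → Cube κ → Option (Cube κ)} {Uf : X → Finset (Cube κ)}
  {act : Cube κ → X ≃ X} {ε : Bool} {α : ℝ} (p : ℝ) (h0 : 0 ≤ p) (h1 : p ≤ 1)

/-- numerical estimate of the relative second moment -/
theorem num_side {v R Λ K D q : ℝ} (hv : 0 < v) (hv1 : v ≤ 1 / 100) (hR : 1 ≤ v ^ 90 * R)
    (hΛ0 : 0 ≤ Λ) (hΛ : v * Λ ≤ R) (hK : 16 ≤ K) (hD : D = 1 / v ^ 20)
    (hq : q = D / (R ^ 2 * v ^ 100 * K)) :
    q ^ 2 * (v ^ 100 * R * K * (Λ * v ^ 100 + 2 * Λ ^ 2 * (v ^ 100) ^ 2)) ≤ v ^ 139 := by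
  have hR0 : 0 < R := by
    by_contra h
    push Not at h
    have : v ^ 90 * R ≤ 0 := mul_nonpos_of_nonneg_of_nonpos (by positivity) h
    linarith
  have hK0 : 0 < K := by linarith
  -- rewrite
  have e1 : q ^ 2 * (v ^ 100 * R * K * (Λ * v ^ 100 + 2 * Λ ^ 2 * (v ^ 100) ^ 2)) =
      D ^ 2 * (Λ + 2 * Λ ^ 2 * v ^ 100) / (R ^ 3 * K) := by
    rw [hq]
    field_simp
  rw [e1, div_le_iff₀ (by positivity)]
  -- bound by powers
  have hD2 : D ^ 2 * v ^ 40 = 1 := by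
    rw [hD]
    field_simp
  have hDnn : 0 ≤ D ^ 2 := sq_nonneg D
  -- multiply by v ^ 2
  have h2 : v ^ 2 * (Λ + 2 * Λ ^ 2 * v ^ 100) ≤ v * R + 2 * R ^ 2 * v ^ 100 := by
    have h3 : v * (v * Λ) ≤ v * R := mul_le_mul_of_nonneg_left hΛ hv.le
    have h4 : (v * Λ) ^ 2 ≤ R ^ 2 := pow_le_pow_left₀ (by positivity) hΛ 2
    have h5 : (v * Λ) ^ 2 * (2 * v ^ 100) ≤ R ^ 2 * (2 * v ^ 100) :=
      mul_le_mul_of_nonneg_right h4 (by positivity)
    nlinarith
  -- R ≥ 1 / v ^ 90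
  have hv90 : 0 < v ^ 90 := by positivity
  have hvle : v ≤ 1 := by linarith
  -- v * R ≤ v ^ 181 R ^ 3
  have h6 : v * R ≤ v ^ 181 * R ^ 3 := by
    have h7 : (1 : ℝ) ≤ (v ^ 90 * R) ^ 2 := one_le_pow₀ hR
    calc v * R = v * R * 1 := (mul_one _).symm
      _ ≤ v * R * (v ^ 90 * R) ^ 2 := mul_le_mul_of_nonneg_left h7 (by positivity)
      _ = v ^ 181 * R ^ 3 := by ring
  have h8 : 2 * R ^ 2 * v ^ 100 ≤ 2 * v ^ 190 * R ^ 3 := by
    calc 2 * R ^ 2 * v ^ 100 = 2 * R ^ 2 * v ^ 100 * 1 := (mul_one _).symm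
      _ ≤ 2 * R ^ 2 * v ^ 100 * (v ^ 90 * R) := mul_le_mul_of_nonneg_left hR (by positivity)
      _ = 2 * v ^ 190 * R ^ 3 := by ring
  have h9 : v ^ 2 * (Λ + 2 * Λ ^ 2 * v ^ 100) ≤ (3 * v ^ 181) * R ^ 3 := by
    have h10 : v ^ 190 * R ^ 3 ≤ v ^ 181 * R ^ 3 :=
      mul_le_mul_of_nonneg_right (pow_le_pow_of_le_one hv.le hvle (by norm_num)) (by positivity)
    nlinarith
  have h11 : v ^ 42 * (D ^ 2 * (Λ + 2 * Λ ^ 2 * v ^ 100)) ≤ v ^ 42 * (v ^ 139 * (R ^ 3 * K)) := by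
    calc v ^ 42 * (D ^ 2 * (Λ + 2 * Λ ^ 2 * v ^ 100))
        = (D ^ 2 * v ^ 40) * (v ^ 2 * (Λ + 2 * Λ ^ 2 * v ^ 100)) := by ring
      _ = v ^ 2 * (Λ + 2 * Λ ^ 2 * v ^ 100) := by rw [hD2, one_mul]
      _ ≤ (3 * v ^ 181) * R ^ 3 := h9
      _ ≤ v ^ 42 * (v ^ 139 * (R ^ 3 * K)) := by
        have : 3 * (v ^ 181 * R ^ 3) ≤ K * (v ^ 181 * R ^ 3) :=
          mul_le_mul_of_nonneg_right (by linarith) (by positivity)
        calc (3 * v ^ 181) * R ^ 3 = 3 * (v ^ 181 * R ^ 3) := by ring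
          _ ≤ K * (v ^ 181 * R ^ 3) := this
          _ = _ := by ring
  exact le_of_mul_le_mul_left h11 (by positivity)

open Classical in
/-- **one side**: concentration of the number of the selected trails of a start -/
theorem one_side {v : ℝ} (hv : 0 < v) (hv1 : v ≤ 1 / 100) (hF : FldH ν cf Uf act ε (v ^ 100) α)
    (r : Fin T → ℕ) {lF lB : List (Fin T)} {m : Fin T} (hnd : (lF ++ m :: lB).Nodup)
    {R D q : ℝ} (hRF : (((lF.map r).prod : ℕ) : ℝ) = R) (hRB : (((lB.map r).prod : ℕ) : ℝ) = R)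
    (hR : 1 ≤ v ^ 90 * R) (hχ : v * (lB.map fun a => p * gsz gp a).prod ≤ R)
    (hg2 : ∀ a ∈ lB, 2 ≤ p * gsz gp a) (hm : 16 ≤ p * gsz gp m) (hne : Nonempty μ)
    (hdF : ∀ (y : Cube κ) (z : Cube μ), par2 y z = ε →
      (lawR κ ν p h0 h1).pr (fun s => LF gp cf Uf r lF s y z = ∅) ≤ (v ^ 100) ^ 2)
    (hdB : ∀ (y : Cube κ) (z : Cube μ), par2 y z = !ε →
      (lawR κ ν p h0 h1).pr (fun s => LB gp cf Uf r lB s y z = ∅) ≤ (v ^ 100) ^ 2)
    (hD : D = 1 / v ^ 20) (hq : q = D / (R ^ 2 * v ^ 100 * (p * gsz gp m)))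
    (y : Cube κ) (z : Cube μ) (hyz : par2 y z = ε) :
    D * v ^ 100 * (1 - 2 * v ^ 200) ≤
      q * (lawR κ ν p h0 h1).E (fun s => (nsel gp cf Uf r lF m lB s y z : ℝ)) ∧
    q * (lawR κ ν p h0 h1).E (fun s => (nsel gp cf Uf r lF m lB s y z : ℝ)) ≤ D * v ^ 100 ∧
    (lawR κ ν p h0 h1).E (fun s => (q * (nsel gp cf Uf r lF m lB s y z : ℝ) -
      D * (if AliveSt gp cf Uf r lF s y z then 1 else 0)) ^ 2) ≤ 3 * v ^ 139 := by
  have hvle : v ≤ 1 := by linarith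
  have hnd' := hnd
  rw [List.nodup_append, List.nodup_cons] at hnd'
  obtain ⟨hlF, ⟨hmB, hlB⟩, -⟩ := hnd'
  set K : ℝ := p * gsz gp m with hK
  set Λ : ℝ := (lB.map fun a => p * gsz gp a).prod with hΛ
  have hR0 : 0 < R := by
    by_contra h
    push Not at h
    have : v ^ 90 * R ≤ 0 := mul_nonpos_of_nonneg_of_nonpos (by positivity) h
    linarith
  have hK0 : 0 < K := by linarith
  have hΛ0 : 0 ≤ Λ := by
    rw [hΛ]
    refine List.prod_nonneg fun x hx => ?_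
    obtain ⟨b, -, rfl⟩ := List.mem_map.1 hx
    exact mul_nonneg h0 (Nat.cast_nonneg _)
  have hD0 : 0 < D := by rw [hD]; positivity
  obtain ⟨a, ha0, ha1, ha2, hM1⟩ := E_Nm (κ := κ) gp p h0 h1 hF r hlB hne hdB
  rw [hRB] at hM1
  have hM2 : ∀ (y : Cube κ) (z : Cube μ), par2 y z = !ε →
      (lawR κ ν p h0 h1).E (fun s => (Nm gp cf Uf r lB s y z : ℝ) ^ 2) ≤
        Λ * v ^ 100 + 2 * Λ ^ 2 * (v ^ 100) ^ 2 :=
    fun y z h => E_Nm_sq gp p h0 h1 hF r hlB hg2 y z h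
  have hE := E_nsel gp p h0 h1 hF r hnd hM1 hM2 y z hyz
  have hE2 := E_nsel_sq gp p h0 h1 hF r hnd hM1 hM2 y z hyz
  have hal := pr_AliveSt gp p h0 h1 hF r hlF y z hyz
  rw [hRF, ← hK] at hE hE2
  rw [hal] at hE
  have hdF' := hdF y z hyz
  set b := (lawR κ ν p h0 h1).pr (fun s => LF gp cf Uf r lF s y z = ∅) with hb
  have hb0 : 0 ≤ b := FP.pr_nonneg _ _
  have hb1 : b ≤ 1 := FP.pr_le_one _ _
  have hv200 : (v ^ 100) ^ 2 = v ^ 200 := by ring
  rw [hv200] at hdF' ha1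
  -- the mean
  have hqE : q * (lawR κ ν p h0 h1).E (fun s => (nsel gp cf Uf r lF m lB s y z : ℝ)) =
      D * v ^ 100 * (a * (1 - b)) := by
    rw [hE, hq]
    field_simp
  have hab1 : a * (1 - b) ≤ 1 := by nlinarith
  have hab2 : 1 - 2 * v ^ 200 ≤ a * (1 - b) := by
    have h2 : 0 ≤ v ^ 200 := by positivity
    have h3 : v ^ 200 ≤ 1 := pow_le_one₀ hv.le hvle
    have h4 : (1 - v ^ 200) * (1 - v ^ 200) ≤ a * (1 - b) :=
      mul_le_mul ha1 (by linarith) (by linarith) ha0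
    nlinarith
  refine ⟨?_, ?_, ?_⟩
  · rw [hqE]
    exact mul_le_mul_of_nonneg_left hab2 (by positivity)
  · rw [hqE]
    exact mul_le_of_le_one_right (by positivity) hab1
  · -- second moment
    set c : ℝ := R * K * (R * v ^ 100 * a) with hc
    have hqc : q * c = D * a := by
      rw [hq, hc]
      field_simp
    have hpt : ∀ s : Smp X κ μ, (q * (nsel gp cf Uf r lF m lB s y z : ℝ) -
        D * (if AliveSt gp cf Uf r lF s y z then 1 else 0)) ^ 2 ≤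
        2 * q ^ 2 * ((nsel gp cf Uf r lF m lB s y z : ℝ) -
          c * (if AliveSt gp cf Uf r lF s y z then 1 else 0)) ^ 2 +
        2 * (D * (1 - a)) ^ 2 * (if AliveSt gp cf Uf r lF s y z then 1 else 0) := by
      intro s
      have h2 : D * (if AliveSt gp cf Uf r lF s y z then 1 else 0) =
          q * (c * (if AliveSt gp cf Uf r lF s y z then 1 else 0)) +
            D * (1 - a) * (if AliveSt gp cf Uf r lF s y z then 1 else 0) := by
        rw [← mul_assoc, hqc]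
        ring
      rw [h2]
      split_ifs with h
      · nlinarith [sq_nonneg (q * ((nsel gp cf Uf r lF m lB s y z : ℝ) - c * 1) + D * (1 - a) * 1)]
      · nlinarith [sq_nonneg (q * (nsel gp cf Uf r lF m lB s y z : ℝ))]
    refine (FP.E_mono _ hpt).trans ?_
    rw [FP.E_add, FP.E_mul_left, FP.E_mul_left, ← FP.pr_eq, hal]
    have hns := num_side hv hv1 hR hΛ0 hχ hm hD hq
    have h3 : 2 * q ^ 2 * (lawR κ ν p h0 h1).E (fun s => ((nsel gp cf Uf r lF m lB s y z : ℝ) -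
          c * (if AliveSt gp cf Uf r lF s y z then 1 else 0)) ^ 2) ≤ 2 * v ^ 139 := by
      calc 2 * q ^ 2 * (lawR κ ν p h0 h1).E (fun s => ((nsel gp cf Uf r lF m lB s y z : ℝ) -
          c * (if AliveSt gp cf Uf r lF s y z then 1 else 0)) ^ 2)
          ≤ 2 * q ^ 2 * (v ^ 100 * R * K * (Λ * v ^ 100 + 2 * Λ ^ 2 * (v ^ 100) ^ 2)) :=
            mul_le_mul_of_nonneg_left hE2 (by positivity)
        _ = 2 * (q ^ 2 * (v ^ 100 * R * K * (Λ * v ^ 100 + 2 * Λ ^ 2 * (v ^ 100) ^ 2))) := by ring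
        _ ≤ 2 * v ^ 139 := by linarith
    have h4 : 2 * (D * (1 - a)) ^ 2 * (v ^ 100 * (1 - b)) ≤ v ^ 139 := by
      have h5 : (1 - a) ^ 2 ≤ (v ^ 200) ^ 2 := pow_le_pow_left₀ (by linarith) (by linarith) 2
      have h6 : v ^ 100 * (1 - b) ≤ v ^ 100 := mul_le_of_le_one_right (by positivity) (by linarith)
      have hD2 : D ^ 2 * v ^ 40 = 1 := by
        rw [hD]
        field_simp
      calc 2 * (D * (1 - a)) ^ 2 * (v ^ 100 * (1 - b))
          = 2 * D ^ 2 * ((1 - a) ^ 2 * (v ^ 100 * (1 - b))) := by ring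
        _ ≤ 2 * D ^ 2 * ((v ^ 200) ^ 2 * v ^ 100) := by
            refine mul_le_mul_of_nonneg_left ?_ (by positivity)
            exact mul_le_mul h5 h6 (mul_nonneg (by positivity) (by linarith)) (by positivity)
        _ = (D ^ 2 * v ^ 40) * (2 * v ^ 321 * v ^ 139) := by ring
        _ = 2 * v ^ 321 * v ^ 139 := by rw [hD2, one_mul]
        _ ≤ 1 * v ^ 139 := by
            refine mul_le_mul_of_nonneg_right ?_ (by positivity)
            have : v ^ 321 ≤ v := by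
              calc v ^ 321 ≤ v ^ 1 := pow_le_pow_of_le_one hv.le hvle (by norm_num)
                _ = v := pow_one v
            linarith
        _ = v ^ 139 := one_mul _
    linarith

end RoundA

end Pool.Agent.LongCyc.Dense
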