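import Pool.Agent.LongCyc.Dense.Field

/-!
# Dense regime: selected tuples are trails
-/

set_option autoImplicit false
set_option linter.unusedSectionVars false

namespace Pool.Agent.LongCyc.Dense

open Finset

section R1b

variable {κ μ : Type} [DecidableEq κ] [Fintype κ] [DecidableEq μ] [Fintype μ] {T : ℕ} {X : Type} [Fintype X]

namespace SelT

theorem LT_cons {gp : μ → Fin T} {st : Cube μ → Cube κ → Option (Cube κ)} {o : Cube κ → Cube μ → μ → Prop}
    {r : Fin T → ℕ} {a : Fin T} {l : List (Fin T)} {y y' : Cube κ} {z z' : Cube μ}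
    (h : (y', z') ∈ LT gp st o r (a :: l) y z) : ∃ (i : μ) (y1 : Cube κ), gp i = a ∧ o y z i ∧
      st (flip i z) y = some y1 ∧ (y', z') ∈ LT gp st o r l y1 (flip i z) := by
  classical
  rw [LT] at h
  simp only [Finset.mem_biUnion] at h
  obtain ⟨i, hi, h⟩ := h
  have h1 := pick_subset _ _ hi
  rw [alive] at h1
  simp only [Finset.mem_filter, Finset.mem_univ, true_and] at h1
  obtain ⟨h2, h3, y1, h4, -⟩ := h1
  refine ⟨i, y1, h2, h3, h4, ?_⟩
  rw [h4] at h
  exact h

/-- forward paths -/
theorem fwd_path {gp : μ → Fin T} {st : Cube μ → Cube κ → Option (Cube κ)} {o : Cube κ → Cube μ → μ → Prop}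
    {r : Fin T → ℕ} {y' : Cube κ} {z' : Cube μ} (j0 : μ) (n : ℕ) : ∀ (k : ℕ) (y : Cube κ) (z : Cube μ),
    k + n ≤ T → (y', z') ∈ LT gp st o r (((List.finRange T).drop k).take n) y z →
    ∃ (yy : ℕ → Cube κ) (zz : ℕ → Cube μ) (d : ℕ → μ), yy k = y ∧ zz k = z ∧ yy (k + n) = y' ∧
      zz (k + n) = z' ∧ ∀ i, k ≤ i → i < k + n → (gp (d i)).val = i ∧ o (yy i) (zz i) (d i) ∧
        zz (i + 1) = flip (d i) (zz i) ∧ st (zz (i + 1)) (yy i) = some (yy (i + 1)) := by
  induction n with
  | zero =>
    intro k y z hk h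
    rw [List.take_zero, LT, Finset.mem_singleton, Prod.mk.injEq] at h
    refine ⟨fun _ => y, fun _ => z, fun _ => j0, rfl, rfl, h.1.symm, h.2.symm, fun i h1 h2 => ?_⟩
    omega
  | succ n ih =>
    intro k y z hk h
    have hkT : k < (List.finRange T).length := by rw [List.length_finRange]; omega
    rw [List.drop_eq_getElem_cons hkT, List.take_succ_cons, List.getElem_finRange] at h
    obtain ⟨i0, y1, h1, h2, h3, h4⟩ := LT_cons h
    obtain ⟨yy, zz, d, a1, a2, a3, a4, a5⟩ := ih (k + 1) y1 (flip i0 z) (by omega) h4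
    refine ⟨Function.update yy k y, Function.update zz k z, Function.update d k i0, by simp, by simp,
      ?_, ?_, fun i h5 h6 => ?_⟩
    · rw [Function.update_of_ne (by omega), ← a3]; congr 1; omega
    · rw [Function.update_of_ne (by omega), ← a4]; congr 1; omega
    · rcases Nat.eq_or_lt_of_le h5 with rfl | h5
      · rw [Function.update_self, Function.update_self, Function.update_self,
          Function.update_of_ne (by omega), Function.update_of_ne (by omega), a1, a2, h1]
        exact ⟨by simp, h2, rfl, h3⟩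
      · rw [Function.update_of_ne (by omega), Function.update_of_ne (by omega),
          Function.update_of_ne (by omega), Function.update_of_ne (by omega),
          Function.update_of_ne (by omega)]
        exact a5 i h5 (by omega)

/-- backward paths -/
theorem bwd_path {gp : μ → Fin T} {st : Cube μ → Cube κ → Option (Cube κ)} {o : Cube κ → Cube μ → μ → Prop}
    {r : Fin T → ℕ} {y' : Cube κ} {z' : Cube μ} (j0 : μ) (n : ℕ) : ∀ (k : ℕ) (y : Cube κ) (z : Cube μ),
    n ≤ k → k ≤ T → (y', z') ∈ LT gp st o r (((List.finRange T).reverse.drop (T - k)).take n) y z →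
    ∃ (yy : ℕ → Cube κ) (zz : ℕ → Cube μ) (d : ℕ → μ), yy k = y ∧ zz k = z ∧ yy (k - n) = y' ∧
      zz (k - n) = z' ∧ ∀ i, k - n ≤ i → i < k → (gp (d i)).val = i ∧ o (yy (i + 1)) (zz (i + 1)) (d i) ∧
        zz i = flip (d i) (zz (i + 1)) ∧ st (zz i) (yy (i + 1)) = some (yy i) := by
  induction n with
  | zero =>
    intro k y z hk hkT h
    rw [List.take_zero, LT, Finset.mem_singleton, Prod.mk.injEq] at h
    refine ⟨fun _ => y, fun _ => z, fun _ => j0, rfl, rfl, h.1.symm, h.2.symm, fun i h1 h2 => ?_⟩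
    omega
  | succ n ih =>
    intro k y z hk hkT h
    have hkT' : T - k < (List.finRange T).reverse.length := by
      rw [List.length_reverse, List.length_finRange]; omega
    rw [List.drop_eq_getElem_cons hkT', List.take_succ_cons, List.getElem_reverse,
      List.getElem_finRange] at h
    obtain ⟨i0, y1, h1, h2, h3, h4⟩ := LT_cons h
    rw [show T - k + 1 = T - (k - 1) by omega] at h4
    obtain ⟨yy, zz, d, a1, a2, a3, a4, a5⟩ := ih (k - 1) y1 (flip i0 z) (by omega) (by omega) h4
    have h1' : (gp i0).val = k - 1 := by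
      rw [h1]
      simp only [List.length_finRange]
      simp
      omega
    refine ⟨Function.update yy k y, Function.update zz k z, Function.update d (k - 1) i0, by simp,
      by simp, ?_, ?_, fun i h5 h6 => ?_⟩
    · rw [Function.update_of_ne (by omega), ← a3]; congr 1; omega
    · rw [Function.update_of_ne (by omega), ← a4]; congr 1; omega
    · by_cases hik : i = k - 1
      · subst hik
        rw [show k - 1 + 1 = k by omega, Function.update_self, Function.update_self,
          Function.update_self, Function.update_of_ne (by omega), Function.update_of_ne (by omega),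
          a1, a2]
        exact ⟨h1', h2, rfl, h3⟩
      · rw [Function.update_of_ne (by omega), Function.update_of_ne (by omega),
          Function.update_of_ne (by omega), Function.update_of_ne (by omega),
          Function.update_of_ne (by omega)]
        exact a5 i (by omega) (by omega)

theorem rgo_flip_st (b : Cube κ × CE μ → Bool) (y : Cube κ) (z : Cube μ) (i : μ) :
    rgo b y (flip i z) i ↔ rgo b y z i := by
  unfold rgo
  rw [(canE μ).symm]

/-- the points of a global path -/
theorem zp_eq {gp : μ → Fin T} {z : Cube μ} {j : Fin T → μ} (hj : ∀ a, gp (j a) = a) {zz : ℕ → Cube μ}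
    (h0 : zz 0 = z) (h : ∀ k : Fin T, zz (k + 1) = flip (j k) (zz k)) :
    ∀ k : ℕ, k ≤ T → zp gp z j k = zz k := by
  intro k
  induction k with
  | zero =>
    intro _
    rw [h0]
    funext q
    simp [zp]
  | succ k ih =>
    intro hk
    have h1 := ih (by omega)
    rw [h ⟨k, by omega⟩, ← h1]
    funext q
    by_cases hq : q = j ⟨k, by omega⟩
    · subst hq
      rw [flip_same]
      simp only [zp, hj]
      simp
    · rw [flip_of_ne hq]
      simp only [zp]
      congr 1
      rw [decide_eq_decide]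
      constructor
      · rintro ⟨h2, h3⟩
        refine ⟨?_, h3⟩
        rcases Nat.lt_succ_iff_lt_or_eq.1 h2 with h4 | h4
        · exact h4
        · exfalso
          apply hq
          have : gp q = ⟨k, by omega⟩ := Fin.ext h4
          rw [← this, h3]
      · rintro ⟨h2, h3⟩
        exact ⟨by omega, h3⟩

theorem pos_eq {gp : μ → Fin T} {c : Cube μ → Cube κ → Option (Cube κ)} {z : Cube μ} {j : Fin T → μ}
    {zz : ℕ → Cube μ} (hz : ∀ k : ℕ, k ≤ T → zp gp z j k = zz k) {yy : ℕ → Cube κ} {y : Cube κ}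
    (h0 : yy 0 = y) (h : ∀ k : ℕ, k + 1 < T → c (zz (k + 1)) (yy k) = some (yy (k + 1))) :
    ∀ k : ℕ, k < T → pos gp c z j y k = some (yy k) := by
  intro k
  induction k with
  | zero => intro _; rw [h0]; rfl
  | succ k ih =>
    intro hk
    rw [pos, ih (by omega), Option.bind_some, hz _ (by omega), h k hk]

theorem stF_some {cf : X → Cube κ → Option (Cube κ)} {Uf : X → Finset (Cube κ)} {x : X} {y y' : Cube κ}
    (h : stF cf Uf x y = some y') : y ∈ Uf x ∧ cf x y = some y' := by
  unfold stF at h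
  split_ifs at h with h1
  exact ⟨h1, h⟩

theorem stB_some {cf : X → Cube κ → Option (Cube κ)} {Uf : X → Finset (Cube κ)} {x : X} {y w : Cube κ}
    (h : stB cf Uf x y = some w) : w ∈ Uf x ∧ cf x w = some y := by
  classical
  unfold stB at h
  split_ifs at h with h1
  have h2 := h1.choose_spec
  have h3 : h1.choose = w := by simpa using h
  rw [h3] at h2
  exact h2

end SelT

open SelT in
theorem sel_trail {gp : μ → Fin T} {ε : Bool} {cf : X → Cube κ → Option (Cube κ)} {Uf : X → Finset (Cube κ)}
    (hinj : ∀ x, PInj (cf x)) {r : Fin T → ℕ} {t : ℕ} (hT : T = 2 * t + 1) {m : Fin T} (hm : m.val = t)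
    {s : Smp X κ μ} {q : Tup κ μ}
    (h : Sel gp ε cf Uf r ((List.finRange T).take t) m ((List.finRange T).reverse.take t) s q) :
    ∃ j : Fin T → μ, IsTrail gp ε (fun z => cf (s.1 z)) (fun z => Uf (s.1 z)) (rgo s.2) (q.1.1, q.1.2, j) ∧
      q.2.1.2 = zp gp q.1.2 j t ∧ pos gp (fun z => cf (s.1 z)) q.1.2 j q.1.1 t = some q.2.1.1 ∧ j m = q.2.2.1 ∧
      q.2.2.2.2 = zp gp q.1.2 j T ∧
      pos gp (fun z => cf (s.1 z)) q.1.2 j q.1.1 (T - 1) = some q.2.2.2.1 := by
  obtain ⟨⟨y0, z0⟩, ⟨yt, zt⟩, im, ⟨ye, ze⟩⟩ := q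
  obtain ⟨h1, h2, h3, h4, h5, h6, h7⟩ := h
  simp only at h1 h2 h3 h4 h5 h6 h7 ⊢
  unfold LF at h3
  unfold LB at h7
  have h3' : (yt, zt) ∈ LT gp (fun z' => stF cf Uf (s.1 z')) (rgo s.2) r
      (((List.finRange T).drop 0).take t) y0 z0 := by rw [List.drop_zero]; exact h3
  have h7' : (yt, flip im zt) ∈ LT gp (fun z' => stB cf Uf (s.1 z')) (rgo s.2) r
      (((List.finRange T).reverse.drop (T - T)).take t) ye ze := by
    rw [Nat.sub_self, List.drop_zero]; exact h7
  obtain ⟨yF, zF, dF, a1, a2, a3, a4, a5⟩ := fwd_path im t 0 y0 z0 (by omega) h3'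
  obtain ⟨yB, zB, dB, b1, b2, b3, b4, b5⟩ := bwd_path im t T ye ze (by omega) le_rfl h7'
  rw [Nat.zero_add] at a3 a4 a5
  rw [show T - t = t + 1 by omega] at b3 b4 b5
  -- the global path
  set yy : ℕ → Cube κ := fun i => if i < t then yF i else yB (i + 1) with hyy
  set zz : ℕ → Cube μ := fun i => if i ≤ t then zF i else zB i with hzz
  set d : ℕ → μ := fun i => if i < t then dF i else if i = t then im else dB i with hd
  have yy_lt : ∀ i, i ≤ t → yy i = yF i := by
    intro i hi
    simp only [hyy]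
    split_ifs with h8
    · rfl
    · have : i = t := by omega
      subst this
      rw [b3, a3]
  have yy_ge : ∀ i, t ≤ i → yy i = yB (i + 1) := by
    intro i hi
    simp only [hyy]
    rw [if_neg (by omega)]
  have zz_le : ∀ i, i ≤ t → zz i = zF i := by
    intro i hi
    simp only [hzz]
    rw [if_pos hi]
  have zz_gt : ∀ i, t < i → zz i = zB i := by
    intro i hi
    simp only [hzz]
    rw [if_neg (by omega)]
  have key : ∀ k, k < T → (gp (d k)).val = k ∧ rgo s.2 (yy k) (zz k) (d k) ∧
      zz (k + 1) = flip (d k) (zz k) := by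
    intro k hk
    rcases lt_trichotomy k t with hkt | hkt | hkt
    · have hdk : d k = dF k := by simp only [hd]; rw [if_pos hkt]
      obtain ⟨c1, c2, c3, -⟩ := a5 k (Nat.zero_le _) hkt
      rw [hdk, yy_lt k hkt.le, zz_le k hkt.le, zz_le (k + 1) (by omega)]
      exact ⟨c1, c2, c3⟩
    · subst hkt
      have hdk : d k = im := by simp [hd]
      rw [hdk, yy_lt k le_rfl, zz_le k le_rfl, zz_gt (k + 1) (by omega), a3, a4, b4, h4]
      exact ⟨hm, h5, rfl⟩
    · have hdk : d k = dB k := by simp only [hd]; rw [if_neg (by omega), if_neg (by omega)]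
      obtain ⟨c1, c2, c3, -⟩ := b5 k (by omega) hk
      rw [hdk, yy_ge k hkt.le, zz_gt k hkt, zz_gt (k + 1) (by omega)]
      refine ⟨c1, ?_, ?_⟩
      · rw [c3, rgo_flip_st]; exact c2
      · rw [c3, flip_flip]
  have use : ∀ k, k + 1 < T → yy k ∈ Uf (s.1 (zz (k + 1))) ∧
      cf (s.1 (zz (k + 1))) (yy k) = some (yy (k + 1)) := by
    intro k hk
    rcases lt_or_ge k t with hkt | hkt
    · obtain ⟨-, -, -, c4⟩ := a5 k (Nat.zero_le _) hkt
      rw [yy_lt k hkt.le, yy_lt (k + 1) (by omega), zz_le (k + 1) (by omega)]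
      exact stF_some c4
    · obtain ⟨-, -, -, c4⟩ := b5 (k + 1) (by omega) hk
      rw [yy_ge k hkt, yy_ge (k + 1) (by omega), zz_gt (k + 1) (by omega)]
      exact stB_some c4
  set j : Fin T → μ := fun a => d a.val with hj
  have hjd : ∀ a, gp (j a) = a := fun a => Fin.ext (key a.val a.isLt).1
  have hz0 : zz 0 = z0 := by rw [zz_le 0 (Nat.zero_le _), a2]
  have hy0 : yy 0 = y0 := by rw [yy_lt 0 (Nat.zero_le _), a1]
  have hzp : ∀ k : ℕ, k ≤ T → zp gp z0 j k = zz k :=
    zp_eq hjd hz0 fun k => (key k.val k.isLt).2.2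
  have hpos : ∀ k : ℕ, k < T → pos gp (fun z => cf (s.1 z)) z0 j y0 k = some (yy k) :=
    pos_eq hzp hy0 fun k hk => (use k hk).2
  have hzT : zz T = ze := by rw [zz_gt T (by omega), b2]
  have hyT : yy (T - 1) = ye := by
    rw [yy_ge (T - 1) (by omega), show T - 1 + 1 = T by omega, b1]
  refine ⟨j, ?_, ?_, ?_, ?_, ?_, ?_⟩
  · constructor
    · exact hjd
    · exact h1
    · exact h2
    · intro k
      refine ⟨yy k, hpos k k.isLt, ?_⟩
      simp only
      rw [hzp k k.isLt.le]
      exact (key k.val k.isLt).2.1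
    · intro k hk
      refine ⟨yy k, hpos k (by omega), ?_⟩
      simp only
      rw [hzp (k + 1) (by omega)]
      exact (use k hk).1
    · refine ⟨yy (T - 1), hpos (T - 1) (by omega), ?_⟩
      simp only
      rw [hzp T le_rfl, hzT, hyT]
      exact h6
  · rw [hzp t (by omega), zz_le t le_rfl, a4]
  · rw [hpos t (by omega), yy_lt t le_rfl, a3]
  · simp [hj, hd, hm]
  · rw [hzp T le_rfl, hzT]
  · rw [hpos (T - 1) (by omega), hyT]

end R1b

end Pool.Agent.LongCyc.Dense
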