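import Pool.Agent.LongCyc.Prob
import Pool.Agent.LongCyc.Frac

/-!
# Dense regime, round lemma: retention of trails and Koenig's theorem

`sparse_match`: in a finite bipartite multigraph (`T` = edges = trails, `st`, `en` = end points) in which most
degrees are close to `N`, and with few `bad` pairs of edges, there is a large matching without bad pairs.
-/

set_option autoImplicit false

namespace Pool.Agent.LongCyc.Dense

open Finset

section koenig

variable {X Y T : Type*} [Fintype X] [Fintype Y] [DecidableEq X] [DecidableEq Y] [DecidableEq T]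

/-- Koenig: a bipartite multigraph with all degrees at most `D` has a matching of size at least
(number of edges) / `D` -/
theorem koenig_real (st : T → X) (en : T → Y) (R : Finset T) {D : ℝ} (hD : 0 < D)
    (h1 : ∀ x, ((R.filter fun t => st t = x).card : ℝ) ≤ D)
    (h2 : ∀ y, ((R.filter fun t => en t = y).card : ℝ) ≤ D) :
    ∃ M : Finset T, M ⊆ R ∧ (∀ t ∈ M, ∀ t' ∈ M, st t = st t' → t = t') ∧
      (∀ t ∈ M, ∀ t' ∈ M, en t = en t' → t = t') ∧ (R.card : ℝ) ≤ D * M.card := by
  classical
  rcases R.eq_empty_or_nonempty with rfl | ⟨t0, ht0⟩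
  · exact ⟨∅, by simp, by simp, by simp, by simp⟩
  have : Nonempty T := ⟨t0⟩
  set w : X → Y → ℝ := fun x y => ((R.filter fun t => st t = x ∧ en t = y).card : ℝ) / D with hw
  have sumB : ∀ x, ∑ y, w x y = ((R.filter fun t => st t = x).card : ℝ) / D := by
    intro x
    simp only [hw]
    rw [← Finset.sum_div]
    congr 1
    have := Finset.card_eq_sum_card_fiberwise (f := en) (s := R.filter fun t => st t = x)
      (t := Finset.univ) (fun _ _ => by simp)
    rw [this]
    push_cast
    refine Finset.sum_congr rfl fun y _ => ?_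
    rw [Finset.filter_filter]
  have sumA : ∀ y, ∑ x, w x y = ((R.filter fun t => en t = y).card : ℝ) / D := by
    intro y
    simp only [hw]
    rw [← Finset.sum_div]
    congr 1
    have := Finset.card_eq_sum_card_fiberwise (f := st) (s := R.filter fun t => en t = y)
      (t := Finset.univ) (fun _ _ => by simp)
    rw [this]
    push_cast
    refine Finset.sum_congr rfl fun x _ => ?_
    rw [Finset.filter_filter]
    congr 2
    ext t
    simp [and_comm]
  have sumAB : ∑ x, ∑ y, w x y = (R.card : ℝ) / D := by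
    rw [Finset.sum_congr rfl fun x _ => sumB x, ← Finset.sum_div]
    congr 1
    have := Finset.card_eq_sum_card_fiberwise (f := st) (s := R)
      (t := Finset.univ) (fun _ _ => by simp)
    rw [this]
    push_cast
    rfl
  obtain ⟨M, hM0, hM1, hM2, hM3⟩ := exists_matching_of_frac w
    (fun a b => by simp only [hw]; positivity)
    (fun x => by rw [sumB, div_le_one hD]; exact h1 x)
    (fun y => by rw [sumA, div_le_one hD]; exact h2 y)
  have hex : ∀ q : X × Y, q ∈ M → ∃ t, t ∈ R ∧ st t = q.1 ∧ en t = q.2 := by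
    intro q hq
    have h := hM0 q hq
    simp only [hw] at h
    have h3 : 0 < (R.filter fun t => st t = q.1 ∧ en t = q.2).card := by
      by_contra h4
      have h5 : (R.filter fun t => st t = q.1 ∧ en t = q.2).card = 0 := by omega
      rw [h5] at h
      simp at h
    obtain ⟨t, ht⟩ := Finset.card_pos.1 h3
    rw [Finset.mem_filter] at ht
    exact ⟨t, ht.1, ht.2.1, ht.2.2⟩
  choose! f hf using hex
  refine ⟨M.image f, ?_, ?_, ?_, ?_⟩
  · intro t ht
    obtain ⟨q, hq, rfl⟩ := Finset.mem_image.1 ht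
    exact (hf q hq).1
  · intro t ht t' ht' h
    obtain ⟨q, hq, rfl⟩ := Finset.mem_image.1 ht
    obtain ⟨q', hq', rfl⟩ := Finset.mem_image.1 ht'
    rw [(hf q hq).2.1, (hf q' hq').2.1] at h
    rw [hM1 q hq q' hq' h]
  · intro t ht t' ht' h
    obtain ⟨q, hq, rfl⟩ := Finset.mem_image.1 ht
    obtain ⟨q', hq', rfl⟩ := Finset.mem_image.1 ht'
    rw [(hf q hq).2.2, (hf q' hq').2.2] at h
    rw [hM2 q hq q' hq' h]
  · rw [sumAB, div_le_iff₀ hD] at hM3
    rw [Finset.card_image_of_injOn]
    · linarith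
    · intro q hq q' hq' h
      refine hM1 q hq q' hq' ?_
      rw [← (hf q hq).2.1, ← (hf q' hq').2.1, h]

/-- the elements of `R` without a `bad` partner in `R` and without a heavy end point contain a large
matching -/
theorem koenig_clean (st : T → X) (en : T → Y) (bad : T → T → Prop) [DecidableRel bad]
    (R : Finset T) {D : ℝ} (hD : 0 < D) :
    ∃ M : Finset T, (∀ t ∈ M, ∀ t' ∈ M, st t = st t' → t = t') ∧
      (∀ t ∈ M, ∀ t' ∈ M, en t = en t' → t = t') ∧
      (∀ t ∈ M, ∀ t' ∈ M, t ≠ t' → ¬ bad t t') ∧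
      (R.card : ℝ) - ((R ×ˢ R).filter fun r => r.1 ≠ r.2 ∧ bad r.1 r.2).card
        - ∑ x, (if D < ((R.filter fun t => st t = x).card : ℝ) then
            ((R.filter fun t => st t = x).card : ℝ) else 0)
        - ∑ y, (if D < ((R.filter fun t => en t = y).card : ℝ) then
            ((R.filter fun t => en t = y).card : ℝ) else 0) ≤ D * M.card := by
  classical
  set B := R.filter fun t => ∃ t' ∈ R, t ≠ t' ∧ bad t t' with hB
  set H1 := R.filter fun t => D < ((R.filter fun t' => st t' = st t).card : ℝ) with hH1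
  set H2 := R.filter fun t => D < ((R.filter fun t' => en t' = en t).card : ℝ) with hH2
  set R' := ((R \ B) \ H1) \ H2 with hR'
  have hsub : R' ⊆ R := by
    intro t ht
    rw [hR', Finset.mem_sdiff, Finset.mem_sdiff, Finset.mem_sdiff] at ht
    exact ht.1.1.1
  obtain ⟨M, hMR, hM1, hM2, hM3⟩ := koenig_real st en R' hD (by
    intro x
    by_cases h : D < ((R.filter fun t => st t = x).card : ℝ)
    · have : (R'.filter fun t => st t = x) = ∅ := by
        rw [Finset.filter_eq_empty_iff]
        intro t ht hx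
        rw [hR', Finset.mem_sdiff, Finset.mem_sdiff, Finset.mem_sdiff] at ht
        refine ht.1.2 ?_
        rw [hH1, Finset.mem_filter]
        exact ⟨ht.1.1.1, by rw [hx]; exact h⟩
      rw [this]
      simpa using hD.le
    · refine le_trans ?_ (not_lt.1 h)
      exact_mod_cast Finset.card_le_card (Finset.filter_subset_filter _ hsub)) (by
    intro y
    by_cases h : D < ((R.filter fun t => en t = y).card : ℝ)
    · have : (R'.filter fun t => en t = y) = ∅ := by
        rw [Finset.filter_eq_empty_iff]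
        intro t ht hx
        rw [hR', Finset.mem_sdiff, Finset.mem_sdiff, Finset.mem_sdiff] at ht
        refine ht.2 ?_
        rw [hH2, Finset.mem_filter]
        exact ⟨ht.1.1.1, by rw [hx]; exact h⟩
      rw [this]
      simpa using hD.le
    · refine le_trans ?_ (not_lt.1 h)
      exact_mod_cast Finset.card_le_card (Finset.filter_subset_filter _ hsub))
  refine ⟨M, hM1, hM2, ?_, ?_⟩
  · intro t ht t' ht' hne hbad
    have h1 := hMR ht
    rw [hR', Finset.mem_sdiff, Finset.mem_sdiff, Finset.mem_sdiff] at h1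
    refine h1.1.1.2 ?_
    rw [hB, Finset.mem_filter]
    exact ⟨h1.1.1.1, t', hsub (hMR ht'), hne, hbad⟩
  · refine le_trans ?_ hM3
    have hBc : (B.card : ℝ) ≤ ((R ×ˢ R).filter fun r => r.1 ≠ r.2 ∧ bad r.1 r.2).card := by
      have : B ⊆ ((R ×ˢ R).filter fun r => r.1 ≠ r.2 ∧ bad r.1 r.2).image Prod.fst := by
        intro t ht
        rw [hB, Finset.mem_filter] at ht
        obtain ⟨h1, t', h2, h3, h4⟩ := ht
        refine Finset.mem_image.2 ⟨(t, t'), ?_, rfl⟩
        rw [Finset.mem_filter, Finset.mem_product]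
        exact ⟨⟨h1, h2⟩, h3, h4⟩
      exact_mod_cast (Finset.card_le_card this).trans Finset.card_image_le
    have hH1c : (H1.card : ℝ) = ∑ x, (if D < ((R.filter fun t => st t = x).card : ℝ) then
            ((R.filter fun t => st t = x).card : ℝ) else 0) := by
      rw [Finset.card_eq_sum_card_fiberwise (f := st) (s := H1) (t := Finset.univ)
        (fun _ _ => by simp)]
      push_cast
      refine Finset.sum_congr rfl fun x _ => ?_
      split_ifs with h
      · congr 2
        ext t
        rw [hH1, Finset.mem_filter, Finset.mem_filter, Finset.mem_filter]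
        constructor
        · rintro ⟨⟨h1, _⟩, h2⟩
          exact ⟨h1, h2⟩
        · rintro ⟨h1, h2⟩
          exact ⟨⟨h1, by rw [h2]; exact h⟩, h2⟩
      · rw [Nat.cast_eq_zero, Finset.card_eq_zero, Finset.filter_eq_empty_iff]
        intro t ht hx
        rw [hH1, Finset.mem_filter, hx] at ht
        exact h ht.2
    have hH2c : (H2.card : ℝ) = ∑ y, (if D < ((R.filter fun t => en t = y).card : ℝ) then
            ((R.filter fun t => en t = y).card : ℝ) else 0) := by
      rw [Finset.card_eq_sum_card_fiberwise (f := en) (s := H2) (t := Finset.univ)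
        (fun _ _ => by simp)]
      push_cast
      refine Finset.sum_congr rfl fun x _ => ?_
      split_ifs with h
      · congr 2
        ext t
        rw [hH2, Finset.mem_filter, Finset.mem_filter, Finset.mem_filter]
        constructor
        · rintro ⟨⟨h1, _⟩, h2⟩
          exact ⟨h1, h2⟩
        · rintro ⟨h1, h2⟩
          exact ⟨⟨h1, by rw [h2]; exact h⟩, h2⟩
      · rw [Nat.cast_eq_zero, Finset.card_eq_zero, Finset.filter_eq_empty_iff]
        intro t ht hx
        rw [hH2, Finset.mem_filter, hx] at ht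
        exact h ht.2
    have hR'c : (R.card : ℝ) - B.card - H1.card - H2.card ≤ R'.card := by
      have e1 := Finset.le_card_sdiff B R
      have e2 := Finset.le_card_sdiff H1 (R \ B)
      have e3 := Finset.le_card_sdiff H2 ((R \ B) \ H1)
      have e4 : R.card ≤ R'.card + B.card + H1.card + H2.card := by
        rw [← hR'] at e3
        omega
      have e5 : (R.card : ℝ) ≤ R'.card + B.card + H1.card + H2.card := by exact_mod_cast e4
      linarith
    rw [← hH1c, ← hH2c]
    linarith

end koenig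

section retain

variable {X Y T : Type*} [Fintype X] [Fintype Y] [Fintype T] [DecidableEq X] [DecidableEq Y]
  [DecidableEq T]

/-- second moment of the number of retained elements around `m` -/
theorem retain_moment {q : ℝ} (hq0 : 0 ≤ q) (hq1 : q ≤ 1) (F : Finset T) (m : ℝ) :
    (bern q hq0 hq1 T).E (fun κ => (((F.filter fun t => κ t = true).card : ℝ) - m) ^ 2) ≤
      (q * F.card - m) ^ 2 + q * F.card := by
  have h1 : ∀ κ : T → Bool, ((F.filter fun t => κ t = true).card : ℝ) =
      ∑ t ∈ F, (if κ t then (1 : ℝ) else 0) := by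
    intro κ
    rw [Finset.card_filter]
    push_cast
    rfl
  have h2 : ∀ κ : T → Bool, (((F.filter fun t => κ t = true).card : ℝ) - m) ^ 2 =
      (∑ t ∈ F, ∑ t' ∈ F, (if κ t then (1 : ℝ) else 0) * (if κ t' then (1 : ℝ) else 0)) -
        2 * m * (∑ t ∈ F, (if κ t then (1 : ℝ) else 0)) + m ^ 2 := by
    intro κ
    rw [h1, ← Finset.sum_mul_sum]
    ring
  rw [FP.E_congr _ h2, FP.E_add, FP.E_sub, FP.E_const, FP.E_mul_left, FP.E_sum, FP.E_sum]
  have h3 : ∀ t ∈ F, (bern q hq0 hq1 T).E (fun κ => ∑ t' ∈ F, (if κ t then (1 : ℝ) else 0) *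
      (if κ t' then (1 : ℝ) else 0)) = q + (F.card - 1) * q ^ 2 := by
    intro t ht
    rw [FP.E_sum]
    rw [Finset.sum_congr rfl fun t' _ => bern_two (p := q) (h0 := hq0) (h1 := hq1) t t']
    rw [← Finset.add_sum_erase F _ ht, if_pos rfl]
    rw [Finset.sum_congr rfl (g := fun _ => q ^ 2) fun t' ht' => by
      rw [if_neg (Finset.ne_of_mem_erase ht').symm]]
    rw [Finset.sum_const, Finset.card_erase_of_mem ht, nsmul_eq_mul, Nat.cast_sub
      (Finset.card_pos.2 ⟨t, ht⟩)]
    simp
  rw [Finset.sum_congr rfl h3, Finset.sum_const]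
  rw [Finset.sum_congr rfl fun t _ => bern_one (p := q) (h0 := hq0) (h1 := hq1) t, Finset.sum_const]
  rw [nsmul_eq_mul, nsmul_eq_mul]
  nlinarith [mul_nonneg (mul_nonneg hq0 hq0) (Nat.cast_nonneg (α := ℝ) F.card)]

/-- a number above `(1+θ) D` is bounded by the square of its distance from `D` -/
theorem heavy_le {D θ z : ℝ} (hD : 0 < D) (hθ : 0 < θ) (hθ1 : θ ≤ 1) (hz : (1 + θ) * D < z) :
    z ≤ 2 / (θ ^ 2 * D) * (z - D) ^ 2 := by
  have h1 : 0 < θ ^ 2 * D := by positivity
  rw [div_mul_eq_mul_div, le_div_iff₀ h1]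
  -- `z θ² D ≤ (1+θ) (z-D)²` for `z ≥ (1+θ) D`
  have h2 : 0 ≤ z - (1 + θ) * D := by linarith
  have h3 : 0 < θ * D := by positivity
  -- substitute `z = (1+θ) D + s`
  obtain ⟨s, hs⟩ : ∃ s, s = z - (1 + θ) * D := ⟨_, rfl⟩
  have hz' : z = (1 + θ) * D + s := by linarith
  have hs0 : 0 ≤ s := by linarith
  have h4 : z * (θ ^ 2 * D) ≤ (1 + θ) * (z - D) ^ 2 := by
    rw [hz']
    have : (1 + θ) * ((1 + θ) * D + s - D) ^ 2 - ((1 + θ) * D + s) * (θ ^ 2 * D) =
        (1 + θ) * s ^ 2 + s * D * θ * (2 + θ) := by ring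
    nlinarith [mul_nonneg hs0 hD.le, mul_nonneg (mul_nonneg hs0 hD.le) hθ.le,
      mul_nonneg (mul_nonneg (mul_nonneg hs0 hD.le) hθ.le) hθ.le, sq_nonneg s,
      mul_nonneg hθ.le (sq_nonneg s)]
  nlinarith [sq_nonneg (z - D)]

theorem heavy_le' {D θ z : ℝ} (hD : 0 < D) (hθ : 0 < θ) (hθ1 : θ ≤ 1) (hz : (1 + θ) * D < z) :
    z ≤ 2 / (θ ^ 2 * D) * (z - 0) ^ 2 := by
  have h1 : 0 < θ ^ 2 * D := by positivity
  rw [div_mul_eq_mul_div, le_div_iff₀ h1, sub_zero]
  have h2 : D ≤ z := by nlinarith
  have h3 : θ ^ 2 * D ≤ 2 * z := by nlinarith [pow_le_one₀ hθ.le hθ1 (n := 2)]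
  nlinarith

open Classical in
theorem heavy_sum {Z : Type*} [Fintype Z] [DecidableEq Z] (g : T → Z) (A : Z → Prop)
    {q D θ : ℝ} (hq0 : 0 ≤ q) (hq1 : q ≤ 1) (hD : 0 < D) (hθ : 0 < θ) (hθ1 : θ ≤ 1) :
    (bern q hq0 hq1 T).E (fun κ => ∑ x, (if (1 + θ) * D <
      (((Finset.univ.filter fun t => κ t = true).filter fun t => g t = x).card : ℝ) then
      (((Finset.univ.filter fun t => κ t = true).filter fun t => g t = x).card : ℝ) else 0)) ≤
      2 / (θ ^ 2 * D) * ∑ x, ((q * (Finset.univ.filter fun t => g t = x).card -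
          D * (if A x then 1 else 0)) ^ 2 + q * (Finset.univ.filter fun t => g t = x).card) := by
  rw [FP.E_sum, Finset.mul_sum]
  refine Finset.sum_le_sum fun x _ => ?_
  have h1 : ∀ κ : T → Bool, ((Finset.univ.filter fun t => κ t = true).filter fun t => g t = x) =
      ((Finset.univ.filter fun t => g t = x).filter fun t => κ t = true) := by
    intro κ
    ext t
    simp only [Finset.mem_filter, Finset.mem_univ, true_and]
    tauto
  refine le_trans (FP.E_mono _ (g := fun κ => 2 / (θ ^ 2 * D) *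
    ((((Finset.univ.filter fun t => g t = x).filter fun t => κ t = true).card : ℝ) -
      D * (if A x then 1 else 0)) ^ 2) fun κ => ?_) ?_
  · rw [h1]
    split_ifs with h hA hA
    · rw [mul_one]
      exact heavy_le hD hθ hθ1 h
    · rw [mul_zero]
      exact heavy_le' hD hθ hθ1 h
    · positivity
    · positivity
  · rw [FP.E_mul_left]
    refine mul_le_mul_of_nonneg_left ?_ (by positivity)
    exact retain_moment hq0 hq1 _ _

end retain

section spec

open Classical in
/-- Koenig: a bipartite multigraph with maximum degree `≤ D` has a matching with at least `|E| / D` edges -/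
theorem koenig {E S R : Type} [Fintype S] [Fintype R] (σ : E → S) (τ : E → R) (A : Finset E) (D : ℕ)
    (h1 : ∀ x, (A.filter fun e => σ e = x).card ≤ D) (h2 : ∀ y, (A.filter fun e => τ e = y).card ≤ D) :
    ∃ M ⊆ A, Set.InjOn σ (M : Set E) ∧ Set.InjOn τ (M : Set E) ∧ A.card ≤ D * M.card := by
  rcases Nat.eq_zero_or_pos D with rfl | hD
  · refine ⟨∅, by simp, by simp, by simp, ?_⟩
    rcases A.eq_empty_or_nonempty with rfl | ⟨a, ha⟩
    · simp
    · have := h1 (σ a)
      rw [Nat.le_zero, Finset.card_eq_zero, Finset.filter_eq_empty_iff] at this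
      exact absurd rfl (this ha)
  · obtain ⟨M, hM, hM1, hM2, hM3⟩ := koenig_real σ τ A (D := (D : ℝ)) (by exact_mod_cast hD)
      (fun x => by exact_mod_cast h1 x) (fun y => by exact_mod_cast h2 y)
    exact ⟨M, hM, fun a ha b hb h => hM1 a ha b hb h, fun a ha b hb h => hM2 a ha b hb h,
      by exact_mod_cast hM3⟩

open Classical in
/-- retention with probability `q`, deletion of bad pairs and of vertices of too large degree, Koenig -/
theorem sparse_match {E S R : Type} [Fintype E] [Fintype S] [Fintype R] (σ : E → S) (τ : E → R)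
    (Bad : E → E → Prop) (q D θ : ℝ) (hq : 0 ≤ q) (hq1 : q ≤ 1) (hD : 1 ≤ D) (hθ : 0 < θ) (hθ1 : θ ≤ 1)
    (A : S → Prop) (B : R → Prop) :
    ∃ M : Finset E, Set.InjOn σ (M : Set E) ∧ Set.InjOn τ (M : Set E) ∧
      (∀ e ∈ M, ∀ e' ∈ M, e ≠ e' → ¬ Bad e e') ∧
      q * Fintype.card E -
        2 / (θ ^ 2 * D) * (∑ x : S, ((q * (univ.filter fun e => σ e = x).card - D * (if A x then 1 else 0)) ^ 2 +
            q * (univ.filter fun e => σ e = x).card) +
          ∑ y : R, ((q * (univ.filter fun e => τ e = y).card - D * (if B y then 1 else 0)) ^ 2 +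
            q * (univ.filter fun e => τ e = y).card)) -
        q ^ 2 * (univ.filter fun w : E × E => σ w.1 ≠ σ w.2 ∧ τ w.1 ≠ τ w.2 ∧ Bad w.1 w.2).card ≤
      (1 + θ) * D * M.card := by
  have hD0 : 0 < D := by linarith
  have hDD : 0 < (1 + θ) * D := by positivity
  set P := bern q hq hq1 E with hP
  set RR : (E → Bool) → Finset E := fun κ => Finset.univ.filter fun t => κ t = true with hRR
  set bad : E → E → Prop := fun e e' => σ e ≠ σ e' ∧ τ e ≠ τ e' ∧ Bad e e' with hbad
  set f : (E → Bool) → ℝ := fun κ => ((RR κ).card : ℝ) -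
      (((RR κ) ×ˢ (RR κ)).filter fun r => r.1 ≠ r.2 ∧ bad r.1 r.2).card
        - ∑ x, (if (1 + θ) * D < (((RR κ).filter fun t => σ t = x).card : ℝ) then
            (((RR κ).filter fun t => σ t = x).card : ℝ) else 0)
        - ∑ y, (if (1 + θ) * D < (((RR κ).filter fun t => τ t = y).card : ℝ) then
            (((RR κ).filter fun t => τ t = y).card : ℝ) else 0) with hf
  obtain ⟨κ, hκ⟩ := P.exists_ge f
  obtain ⟨M, hM1, hM2, hM3, hM4⟩ := koenig_clean σ τ bad (RR κ) hDD
  refine ⟨M, fun a ha b hb h => hM1 a ha b hb h, fun a ha b hb h => hM2 a ha b hb h,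
    fun e he e' he' hne hb => hM3 e he e' he' hne
      ⟨fun h => hne (hM1 e he e' he' h), fun h => hne (hM2 e he e' he' h), hb⟩,
    le_trans (le_trans ?_ hκ) hM4⟩
  -- the expectation of `f`
  have e1 : P.E (fun κ => ((RR κ).card : ℝ)) = q * Fintype.card E := by
    have : ∀ κ, ((RR κ).card : ℝ) = ∑ t, (if κ t then (1 : ℝ) else 0) := by
      intro κ
      rw [hRR, Finset.card_filter]
      push_cast
      rfl
    rw [P.E_congr this, FP.E_sum, Finset.sum_congr rfl fun t _ => bern_one t, Finset.sum_const,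
      Finset.card_univ, nsmul_eq_mul, mul_comm]
  have e2 : P.E (fun κ => ((((RR κ) ×ˢ (RR κ)).filter fun r => r.1 ≠ r.2 ∧ bad r.1 r.2).card : ℝ)) =
      q ^ 2 * ((Finset.univ : Finset (E × E)).filter fun r => σ r.1 ≠ σ r.2 ∧ τ r.1 ≠ τ r.2 ∧
        Bad r.1 r.2).card := by
    have h1 : ∀ κ, ((((RR κ) ×ˢ (RR κ)).filter fun r => r.1 ≠ r.2 ∧ bad r.1 r.2).card : ℝ) =
        ∑ r ∈ (Finset.univ : Finset (E × E)).filter fun r => σ r.1 ≠ σ r.2 ∧ τ r.1 ≠ τ r.2 ∧
        Bad r.1 r.2,
          (if κ r.1 then (1 : ℝ) else 0) * (if κ r.2 then (1 : ℝ) else 0) := by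
      intro κ
      rw [Finset.sum_congr rfl (g := fun r : E × E => if κ r.1 = true ∧ κ r.2 = true then (1 : ℝ)
        else 0) fun r _ => by by_cases h1 : κ r.1 <;> by_cases h2 : κ r.2 <;> simp [h1, h2]]
      rw [← Finset.sum_filter, Finset.filter_filter, Finset.sum_const, nsmul_eq_mul, mul_one]
      congr 2
      ext r
      simp only [hRR, hbad, Finset.mem_filter, Finset.mem_product, Finset.mem_univ, true_and]
      constructor
      · rintro ⟨⟨h1, h2⟩, h3, h4, h5, h6⟩
        exact ⟨⟨h4, h5, h6⟩, h1, h2⟩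
      · rintro ⟨⟨h4, h5, h6⟩, h1, h2⟩
        exact ⟨⟨h1, h2⟩, fun h => h4 (by rw [h]), h4, h5, h6⟩
    rw [P.E_congr h1, FP.E_sum]
    rw [Finset.sum_congr rfl (g := fun _ => q ^ 2) fun r hr => by
      rw [Finset.mem_filter] at hr
      rw [hP, bern_two, if_neg (fun h => hr.2.1 (by rw [h]))]]
    rw [Finset.sum_const, nsmul_eq_mul, mul_comm]
  have e4 : P.E f = q * Fintype.card E -
      q ^ 2 * ((Finset.univ : Finset (E × E)).filter fun r => σ r.1 ≠ σ r.2 ∧ τ r.1 ≠ τ r.2 ∧
        Bad r.1 r.2).card -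
      P.E (fun κ => ∑ x, (if (1 + θ) * D <
        (((RR κ).filter fun t => σ t = x).card : ℝ) then
            (((RR κ).filter fun t => σ t = x).card : ℝ) else 0)) -
      P.E (fun κ => ∑ y, (if (1 + θ) * D <
        (((RR κ).filter fun t => τ t = y).card : ℝ) then
            (((RR κ).filter fun t => τ t = y).card : ℝ) else 0)) := by
    rw [hf, FP.E_sub, FP.E_sub, FP.E_sub, e1, e2]
  rw [e4, mul_add]
  have h1 := heavy_sum (T := E) σ A hq hq1 hD0 hθ hθ1
  have h2 := heavy_sum (T := E) τ B hq hq1 hD0 hθ hθ1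
  simp only [hRR, hP]
  linarith

end spec

end Pool.Agent.LongCyc.Dense
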