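import Pool.Agent.LongCyc.Dense.RoundA
import Pool.Agent.LongCyc.Dense.SelTrail
import Pool.Agent.LongCyc.Dense.SparseMatch

/-!
# Dense regime, section 4 (R9, second part): deterministic selection of trails in one sample
-/

set_option autoImplicit false
set_option linter.unusedSectionVars false

namespace Pool.Agent.LongCyc.Dense

open Finset

/-! ### Lists of groups -/

section lists

variable {T t : ℕ}

theorem mem_take_fin (a : Fin T) : a ∈ (List.finRange T).take t ↔ a.val < t := by
  rw [List.mem_take_iff_getElem]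
  constructor
  · rintro ⟨j, hj, rfl⟩
    rw [List.getElem_finRange]
    simp only [List.length_finRange] at hj
    show j < t
    omega
  · intro h
    refine ⟨a.val, ?_, ?_⟩
    · rw [List.length_finRange]
      exact lt_min h a.isLt
    · rw [List.getElem_finRange]
      rfl

theorem mem_revtake_fin (a : Fin T) : a ∈ (List.finRange T).reverse.take t ↔ T ≤ a.val + t := by
  rw [List.take_reverse, List.mem_reverse, List.length_finRange, List.mem_drop_iff_getElem]
  constructor
  · rintro ⟨j, hj, rfl⟩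
    rw [List.getElem_finRange]
    simp only [List.length_finRange] at hj
    show T ≤ T - t + j + t
    omega
  · intro h
    have h1 := a.isLt
    refine ⟨a.val - (T - t), ?_, ?_⟩
    · rw [List.length_finRange]
      omega
    · rw [List.getElem_finRange]
      apply Fin.ext
      show T - t + (a.val - (T - t)) = a.val
      omega

theorem nodup_lists (hT : T = 2 * t + 1) {m : Fin T} (hm : m.val = t) :
    ((List.finRange T).take t ++ m :: (List.finRange T).reverse.take t).Nodup := by
  rw [List.nodup_append, List.nodup_cons]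
  refine ⟨(List.nodup_finRange T).sublist (List.take_sublist _ _), ⟨?_,
    (List.nodup_reverse.2 (List.nodup_finRange T)).sublist (List.take_sublist _ _)⟩, ?_⟩
  · rw [mem_revtake_fin]
    omega
  · intro a ha b hb hab
    subst hab
    rw [mem_take_fin] at ha
    rcases List.mem_cons.1 hb with rfl | hb
    · omega
    · rw [mem_revtake_fin] at hb
      omega

theorem prod_take {M : Type*} [CommMonoid M] (f : Fin T → M) :
    (((List.finRange T).take t).map f).prod = ∏ a ∈ univ.filter (fun a : Fin T => a.val < t), f a := by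
  rw [← List.prod_toFinset f ((List.nodup_finRange T).sublist (List.take_sublist _ _))]
  refine Finset.prod_congr ?_ fun _ _ => rfl
  ext a
  rw [List.mem_toFinset, mem_take_fin, Finset.mem_filter]
  simp

theorem prod_revtake {M : Type*} [CommMonoid M] (hT : T = 2 * t + 1) (f : Fin T → M)
    (hf : ∀ a b : Fin T, a.val + b.val = 2 * t → f a = f b) :
    (((List.finRange T).reverse.take t).map f).prod =
      ∏ a ∈ univ.filter (fun a : Fin T => a.val < t), f a := by
  rw [← List.prod_toFinset f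
    ((List.nodup_reverse.2 (List.nodup_finRange T)).sublist (List.take_sublist _ _))]
  refine Finset.prod_bij' (fun a _ => (⟨2 * t - a.val, by omega⟩ : Fin T))
    (fun a _ => (⟨2 * t - a.val, by omega⟩ : Fin T)) ?_ ?_ ?_ ?_ ?_
  · intro a ha
    rw [List.mem_toFinset, mem_revtake_fin] at ha
    simp only [Finset.mem_filter, Finset.mem_univ, true_and]
    omega
  · intro a ha
    simp only [Finset.mem_filter, Finset.mem_univ, true_and] at ha
    rw [List.mem_toFinset, mem_revtake_fin]
    show T ≤ 2 * t - a.val + t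
    omega
  · intro a _
    apply Fin.ext
    show 2 * t - (2 * t - a.val) = a.val
    have := a.isLt
    omega
  · intro a _
    apply Fin.ext
    show 2 * t - (2 * t - a.val) = a.val
    have := a.isLt
    omega
  · intro a _
    refine hf _ _ ?_
    show a.val + (2 * t - a.val) = 2 * t
    have := a.isLt
    omega

end lists

section RoundB

variable {κ μ : Type} [DecidableEq κ] [Fintype κ] [DecidableEq μ] [Fintype μ] {T : ℕ} {X : Type} [Fintype X]
  (gp : μ → Fin T) {ν : Cube μ → FP X} {cf : X → Cube κ → Option (Cube κ)} {Uf : X → Finset (Cube κ)}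
  {act : Cube κ → X ≃ X} {ε : Bool} {α : ℝ} (p : ℝ) (h0 : 0 ≤ p) (h1 : p ≤ 1)

/-- points of one total parity -/
def PE (κ μ : Type) [DecidableEq κ] [Fintype κ] [DecidableEq μ] [Fintype μ] (ε : Bool) :
    Finset (Cube κ × Cube μ) := univ.filter fun x => par2 x.1 x.2 = ε

theorem mem_PE {ε : Bool} {x : Cube κ × Cube μ} : x ∈ PE κ μ ε ↔ par2 x.1 x.2 = ε := by
  simp [PE]

theorem card_PE (hne : Nonempty μ) (ε : Bool) :
    ((PE κ μ ε).card : ℝ) = 2 ^ (Fintype.card κ + Fintype.card μ) / 2 := by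
  obtain ⟨i⟩ := hne
  have h1 : (PE κ μ ε).card = (PE κ μ (!ε)).card := by
    refine Finset.card_bij' (fun x _ => (x.1, flip i x.2)) (fun x _ => (x.1, flip i x.2)) ?_ ?_ ?_ ?_
    · intro x hx
      rw [mem_PE] at hx ⊢
      rw [par2_flip, hx]
    · intro x hx
      rw [mem_PE] at hx ⊢
      rw [par2_flip, hx, Bool.not_not]
    · rintro ⟨a, b⟩ _
      simp
    · rintro ⟨a, b⟩ _
      simp
  have h2 : (PE κ μ ε).card + (PE κ μ (!ε)).card = 2 ^ (Fintype.card κ + Fintype.card μ) := by
    rw [← Finset.card_union_of_disjoint]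
    · have : PE κ μ ε ∪ PE κ μ (!ε) = univ := by
        ext x
        simp only [Finset.mem_union, mem_PE, Finset.mem_univ, iff_true]
        cases par2 x.1 x.2 <;> cases ε <;> simp
      rw [this, Finset.card_univ, Fintype.card_prod]
      simp [pow_add]
    · rw [Finset.disjoint_left]
      intro x hx hx'
      rw [mem_PE] at hx hx'
      rw [hx] at hx'
      cases ε <;> simp at hx'
  rw [← h1] at h2
  have h3 : ((PE κ μ ε).card : ℝ) + (PE κ μ ε).card = 2 ^ (Fintype.card κ + Fintype.card μ) := by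
    exact_mod_cast h2
  linarith

theorem card_sub {A : Type*} [Fintype A] (P Q : A → Prop) {i1 : Fintype {a // P a}}
    {i2 : DecidablePred fun e : {a // P a} => Q e.1} {i3 : DecidablePred fun a => P a ∧ Q a} :
    (@Finset.filter {a // P a} (fun e => Q e.1) i2 (@Finset.univ _ i1)).card =
      (@Finset.filter A (fun a => P a ∧ Q a) i3 univ).card := by
  refine Finset.card_bij (fun e _ => e.1) ?_ ?_ ?_
  · intro e he
    simp only [Finset.mem_filter, Finset.mem_univ, true_and] at he ⊢
    exact ⟨e.2, he⟩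
  · intro e _ e' _ h
    exact Subtype.ext h
  · intro a ha
    simp only [Finset.mem_filter, Finset.mem_univ, true_and] at ha
    exact ⟨⟨a, ha.1⟩, by simp [ha.2], rfl⟩

/-- parity of the end of a selected tuple -/
theorem sel_par_end (hinj : ∀ x, PInj (cf x)) (hflp : ∀ x y y', cf x y = some y' → par y' = !par y)
    {r : Fin T → ℕ} {lF lB : List (Fin T)} {m : Fin T} {s : Smp X κ μ} {q : Tup κ μ}
    (h : Sel gp ε cf Uf r lF m lB s q) : par2 q.2.2.2.1 q.2.2.2.2 = !ε := by
  obtain ⟨h2, h3, h4, h5, h6, h7, h8⟩ := h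
  have e1 : par2 q.2.1.1 q.2.1.2 = par2 q.1.1 q.1.2 := by
    refine LT_par_aux gp _ _ r ?_ h4
    intro z y y' h
    exact hflp _ _ _ (stF_eq_some_iff.1 h).2
  have e2 : par2 q.2.1.1 (flip q.2.2.1 q.2.1.2) = par2 q.2.2.2.1 q.2.2.2.2 := by
    refine LT_par_aux gp _ _ r ?_ h8
    intro z y y' h
    rw [hflp _ _ _ ((stB_eq_some_iff (hinj _)).1 h).2, Bool.not_not]
  rw [← e2, par2_flip, e1, h2]

open Classical in
/-- `sparse_match` with abstract counts -/
theorem sparse_match' {E S R : Type} [Fintype E] [Fintype S] [Fintype R] (σ : E → S) (τ : E → R)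
    (Bad : E → E → Prop) (q D θ : ℝ) (hq : 0 ≤ q) (hq1 : q ≤ 1) (hD : 1 ≤ D) (hθ : 0 < θ) (hθ1 : θ ≤ 1)
    (A : S → Prop) (B : R → Prop) (n a : S → ℝ) (n' b : R → ℝ) (K : ℝ)
    (hn : ∀ x (inst : DecidablePred fun e => σ e = x),
      ((@Finset.filter E (fun e => σ e = x) inst univ).card : ℝ) = n x)
    (hn' : ∀ y (inst : DecidablePred fun e => τ e = y),
      ((@Finset.filter E (fun e => τ e = y) inst univ).card : ℝ) = n' y)
    (ha : ∀ x (inst : Decidable (A x)), (@ite ℝ (A x) inst 1 0) = a x)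
    (hb : ∀ y (inst : Decidable (B y)), (@ite ℝ (B y) inst 1 0) = b y)
    (hK : ∀ inst : DecidablePred fun w : E × E => σ w.1 ≠ σ w.2 ∧ τ w.1 ≠ τ w.2 ∧ Bad w.1 w.2,
      ((@Finset.filter (E × E) (fun w => σ w.1 ≠ σ w.2 ∧ τ w.1 ≠ τ w.2 ∧ Bad w.1 w.2) inst
        univ).card : ℝ) ≤ K) :
    ∃ M : Finset E, Set.InjOn σ (M : Set E) ∧ Set.InjOn τ (M : Set E) ∧
      (∀ e ∈ M, ∀ e' ∈ M, e ≠ e' → ¬ Bad e e') ∧
      q * Fintype.card E - 2 / (θ ^ 2 * D) * (∑ x : S, ((q * n x - D * a x) ^ 2 + q * n x) +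
          ∑ y : R, ((q * n' y - D * b y) ^ 2 + q * n' y)) - q ^ 2 * K ≤ (1 + θ) * D * M.card := by
  obtain ⟨M, h1, h2, h3, h4⟩ := sparse_match σ τ Bad q D θ hq hq1 hD hθ hθ1 A B
  refine ⟨M, h1, h2, h3, le_trans (sub_le_sub ?_ (mul_le_mul_of_nonneg_left (hK _) (sq_nonneg q))) h4⟩
  refine le_of_eq ?_
  congr 3
  · exact Finset.sum_congr rfl fun x _ => by rw [hn x _, ha x _]
  · exact Finset.sum_congr rfl fun y _ => by rw [hn' y _, hb y _]

open Classical in
/-- **deterministic selection** in one sample -/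
theorem round_det {t : ℕ} (hT : T = 2 * t + 1) {m : Fin T} (hm : m.val = t)
    (hinj : ∀ x, PInj (cf x)) (hdom : ∀ x y, y ∈ Uf x → ∃ y', cf x y = some y')
    (hflp : ∀ x y y', cf x y = some y' → par y' = !par y) (r : Fin T → ℕ) (L : ℕ) {q D θ : ℝ}
    (hq : 0 ≤ q) (hq1 : q ≤ 1) (hD : 1 ≤ D) (hθ : 0 < θ) (hθ1 : θ ≤ 1) (s : Smp X κ μ) :
    ∃ TT : Finset (TI κ μ T),
      (∀ w ∈ TT, IsTrail gp ε (fun z => cf (s.1 z)) (fun z => Uf (s.1 z)) (rgo s.2) w) ∧
      (∀ w ∈ TT, ∀ w' ∈ TT, w ≠ w' → (w.1, w.2.1) ≠ (w'.1, w'.2.1) ∧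
        tend gp (fun z => cf (s.1 z)) w ≠ tend gp (fun z => cf (s.1 z)) w' ∧
        ¬ BadPair gp (fun z => cf (s.1 z)) L (t - 1) w w') ∧
      q * (∑ x ∈ PE κ μ ε, (nsel gp cf Uf r ((List.finRange T).take t) m
          ((List.finRange T).reverse.take t) s x.1 x.2 : ℝ)) -
        2 / (θ ^ 2 * D) * (∑ x ∈ PE κ μ ε, ((q * (nsel gp cf Uf r ((List.finRange T).take t) m
              ((List.finRange T).reverse.take t) s x.1 x.2 : ℝ) -
              D * (if AliveSt gp cf Uf r ((List.finRange T).take t) s x.1 x.2 then 1 else 0)) ^ 2 +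
            q * (nsel gp cf Uf r ((List.finRange T).take t) m
              ((List.finRange T).reverse.take t) s x.1 x.2 : ℝ)) +
          ∑ y ∈ PE κ μ (!ε), ((q * (nsel gp (fun x => pinv (cf x)) (fun x => imU (cf x) (Uf x)) r
              ((List.finRange T).reverse.take t) m ((List.finRange T).take t) s y.1 y.2 : ℝ) -
              D * (if AliveSt gp (fun x => pinv (cf x)) (fun x => imU (cf x) (Uf x)) r
                ((List.finRange T).reverse.take t) s y.1 y.2 then 1 else 0)) ^ 2 +
            q * (nsel gp (fun x => pinv (cf x)) (fun x => imU (cf x) (Uf x)) r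
              ((List.finRange T).reverse.take t) m ((List.finRange T).take t) s y.1 y.2 : ℝ))) -
        q ^ 2 * ((univ.filter fun w => BadT gp ε cf Uf L (t - 1) s w).card : ℝ) ≤
      (1 + θ) * D * TT.card := by
  set lF := (List.finRange T).take t with hlF
  set lB := (List.finRange T).reverse.take t with hlB
  set c : Cube μ → Cube κ → Option (Cube κ) := fun z => cf (s.1 z) with hc
  set P : Tup κ μ → Prop := fun q => Sel gp ε cf Uf r lF m lB s q with hP
  set E := {q : Tup κ μ // P q} with hE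
  -- the trail of a selected tuple
  have htr : ∀ e : E, ∃ j : Fin T → μ, IsTrail gp ε c (fun z => Uf (s.1 z)) (rgo s.2)
      (e.1.1.1, e.1.1.2, j) ∧ e.1.2.1.2 = zp gp e.1.1.2 j t ∧
      pos gp c e.1.1.2 j e.1.1.1 t = some e.1.2.1.1 ∧ j m = e.1.2.2.1 ∧
      e.1.2.2.2.2 = zp gp e.1.1.2 j T ∧ pos gp c e.1.1.2 j e.1.1.1 (T - 1) = some e.1.2.2.2.1 :=
    fun e => sel_trail hinj hT hm e.2
  choose j hj1 hj2 hj3 hj4 hj5 hj6 using htr
  set tr : E → TI κ μ T := fun e => (e.1.1.1, e.1.1.2, j e) with htrd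
  have htr_inj : Function.Injective tr := by
    intro e e' h
    simp only [htrd, Prod.mk.injEq] at h
    obtain ⟨g1, g2, g3⟩ := h
    have g4 : e.1.1 = e'.1.1 := Prod.ext g1 g2
    have g5 : e.1.2.1.2 = e'.1.2.1.2 := by rw [hj2 e, hj2 e', g2, g3]
    have g6 : e.1.2.1.1 = e'.1.2.1.1 := by
      have h1 := hj3 e
      rw [g1, g2, g3, hj3 e'] at h1
      exact (Option.some.inj h1).symm
    have g7 : e.1.2.2.1 = e'.1.2.2.1 := by rw [← hj4 e, ← hj4 e', g3]
    have g8 : e.1.2.2.2.2 = e'.1.2.2.2.2 := by rw [hj5 e, hj5 e', g2, g3]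
    have g9 : e.1.2.2.2.1 = e'.1.2.2.2.1 := by
      have h1 := hj6 e
      rw [g1, g2, g3, hj6 e'] at h1
      exact (Option.some.inj h1).symm
    exact Subtype.ext (Prod.ext g4 (Prod.ext (Prod.ext g6 g5) (Prod.ext g7 (Prod.ext g9 g8))))
  have htend : ∀ e : E, tend gp c (tr e) = (some e.1.2.2.2.1, e.1.2.2.2.2) := by
    intro e
    show (pos gp c e.1.1.2 (j e) e.1.1.1 (T - 1), zp gp e.1.1.2 (j e) T) = _
    rw [hj6 e, ← hj5 e]
  set σ : E → Cube κ × Cube μ := fun e => e.1.1 with hσ
  set τ : E → Cube κ × Cube μ := fun e => e.1.2.2.2 with hτ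
  set Bad : E → E → Prop := fun e e' => BadPair gp c L (t - 1) (tr e) (tr e') with hBad
  set cf' : X → Cube κ → Option (Cube κ) := fun x => pinv (cf x) with hcf'
  set Uf' : X → Finset (Cube κ) := fun x => imU (cf x) (Uf x) with hUf'
  have hs1 : ∀ (x : Cube κ × Cube μ) (inst : DecidablePred fun e : E => e.1.1 = x),
      (@Finset.filter E (fun e => e.1.1 = x) inst univ).card =
      if x ∈ PE κ μ ε then nsel gp cf Uf r lF m lB s x.1 x.2 else 0 := by
    intro x inst
    refine (card_sub P (fun q => q.1 = x) (i3 := fun _ => inferInstance)).trans ?_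
    split_ifs with hx
    · exact card_sel_start r s x (mem_PE.1 hx)
    · rw [Finset.card_eq_zero, Finset.filter_eq_empty_iff]
      rintro q _ ⟨h2, rfl⟩
      exact hx (mem_PE.2 h2.1)
  have hs2 : ∀ (y : Cube κ × Cube μ) (inst : DecidablePred fun e : E => e.1.2.2.2 = y),
      (@Finset.filter E (fun e => e.1.2.2.2 = y) inst univ).card =
      if y ∈ PE κ μ (!ε) then nsel gp cf' Uf' r lB m lF s y.1 y.2 else 0 := by
    intro y inst
    refine (card_sub P (fun q => q.2.2.2 = y) (i3 := fun _ => inferInstance)).trans ?_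
    split_ifs with hy
    · exact card_sel_end hinj hdom hflp r s y (mem_PE.1 hy)
    · rw [Finset.card_eq_zero, Finset.filter_eq_empty_iff]
      rintro q _ ⟨h2, rfl⟩
      exact hy (mem_PE.2 (sel_par_end gp hinj hflp h2))
  have hs3 : (Fintype.card E : ℝ) = ∑ x ∈ PE κ μ ε, (nsel gp cf Uf r lF m lB s x.1 x.2 : ℝ) := by
    have h2 : Fintype.card E = ∑ x : Cube κ × Cube μ, (univ.filter fun e : E => e.1.1 = x).card := by
      rw [← Finset.card_univ]
      exact Finset.card_eq_sum_card_fiberwise fun _ _ => Finset.mem_univ _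
    rw [h2, Finset.sum_congr rfl fun x _ => hs1 x _, Finset.sum_ite_mem, Finset.univ_inter]
    push_cast
    rfl
  obtain ⟨M, hM1, hM2, hM3, hM4⟩ := sparse_match' σ τ Bad q D θ hq hq1 hD hθ hθ1
    (fun x => par2 x.1 x.2 = ε ∧ AliveSt gp cf Uf r lF s x.1 x.2)
    (fun y => par2 y.1 y.2 = (!ε) ∧ AliveSt gp cf' Uf' r lB s y.1 y.2)
    (fun x => if x ∈ PE κ μ ε then (nsel gp cf Uf r lF m lB s x.1 x.2 : ℝ) else 0)
    (fun x => if x ∈ PE κ μ ε then (if AliveSt gp cf Uf r lF s x.1 x.2 then 1 else 0) else 0)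
    (fun y => if y ∈ PE κ μ (!ε) then (nsel gp cf' Uf' r lB m lF s y.1 y.2 : ℝ) else 0)
    (fun y => if y ∈ PE κ μ (!ε) then (if AliveSt gp cf' Uf' r lB s y.1 y.2 then 1 else 0) else 0)
    ((univ.filter fun w => BadT gp ε cf Uf L (t - 1) s w).card : ℝ)
    (by
      intro x inst
      have h2 : (@Finset.filter E (fun e => σ e = x) inst univ).card = _ := hs1 x inst
      rw [h2]
      push_cast
      rfl)
    (by
      intro y inst
      have h2 : (@Finset.filter E (fun e => τ e = y) inst univ).card = _ := hs2 y inst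
      rw [h2]
      push_cast
      rfl)
    (by
      intro x inst
      by_cases hx : par2 x.1 x.2 = ε
      · by_cases hA : AliveSt gp cf Uf r lF s x.1 x.2
        · rw [if_pos (⟨hx, hA⟩ : _ ∧ _), if_pos (mem_PE.2 hx), if_pos hA]
        · rw [if_neg (fun h => hA h.2), if_pos (mem_PE.2 hx), if_neg hA]
      · rw [if_neg (fun h => hx h.1), if_neg (fun h => hx (mem_PE.1 h))])
    (by
      intro y inst
      by_cases hy : par2 y.1 y.2 = (!ε)
      · by_cases hA : AliveSt gp cf' Uf' r lB s y.1 y.2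
        · rw [if_pos (⟨hy, hA⟩ : _ ∧ _), if_pos (mem_PE.2 hy), if_pos hA]
        · rw [if_neg (fun h => hA h.2), if_pos (mem_PE.2 hy), if_neg hA]
      · rw [if_neg (fun h => hy h.1), if_neg (fun h => hy (mem_PE.1 h))])
    (by
      intro inst
      refine Nat.cast_le.2 ?_
      refine Finset.card_le_card_of_injOn (fun w : E × E => (tr w.1, tr w.2)) ?_ ?_
      · intro w hw
        simp only [Finset.coe_filter, Finset.mem_univ, true_and, Set.mem_ofPred_eq] at hw ⊢
        obtain ⟨g1, g2, g3⟩ := hw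
        refine ⟨hj1 w.1, hj1 w.2, ?_, ?_, g3⟩
        · intro h
          exact g1 h
        · intro h
          have h' : tend gp c (tr w.1) = tend gp c (tr w.2) := h
          rw [htend, htend, Prod.mk.injEq, Option.some.injEq] at h'
          exact g2 (Prod.ext h'.1 h'.2)
      · rintro ⟨a, b⟩ _ ⟨a', b'⟩ _ h
        have h' : (tr a, tr b) = (tr a', tr b') := h
        rw [Prod.mk.injEq] at h'
        exact Prod.ext (htr_inj h'.1) (htr_inj h'.2))
  refine ⟨M.image tr, ?_, ?_, ?_⟩
  · intro w hw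
    obtain ⟨e, he, rfl⟩ := Finset.mem_image.1 hw
    exact hj1 e
  · intro w hw w' hw' hne
    obtain ⟨e, he, rfl⟩ := Finset.mem_image.1 hw
    obtain ⟨e', he', rfl⟩ := Finset.mem_image.1 hw'
    have hee : e ≠ e' := fun h => hne (by rw [h])
    refine ⟨?_, ?_, hM3 e he e' he' hee⟩
    · intro h
      exact hee (hM1 he he' (show e.1.1 = e'.1.1 from h))
    · intro h
      rw [htend, htend, Prod.mk.injEq, Option.some.injEq] at h
      exact hee (hM2 he he' (Prod.ext h.1 h.2))
  · rw [Finset.card_image_of_injective _ htr_inj]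
    have hsum : ∀ (F : Finset (Cube κ × Cube μ)) (n a : Cube κ × Cube μ → ℝ),
        ∑ x : Cube κ × Cube μ, ((q * (if x ∈ F then n x else 0) - D * (if x ∈ F then a x else 0)) ^ 2 +
          q * (if x ∈ F then n x else 0)) = ∑ x ∈ F, ((q * n x - D * a x) ^ 2 + q * n x) := by
      intro F n a
      rw [← Finset.sum_subset (Finset.subset_univ F)]
      · refine Finset.sum_congr rfl fun x hx => ?_
        rw [if_pos hx, if_pos hx]
      · intro x _ hx
        rw [if_neg hx, if_neg hx]
        simp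
    rw [hs3, hsum (PE κ μ ε) (fun x => (nsel gp cf Uf r lF m lB s x.1 x.2 : ℝ))
        (fun x => if AliveSt gp cf Uf r lF s x.1 x.2 then 1 else 0),
      hsum (PE κ μ (!ε)) (fun y => (nsel gp cf' Uf' r lB m lF s y.1 y.2 : ℝ))
        (fun y => if AliveSt gp cf' Uf' r lB s y.1 y.2 then 1 else 0)] at hM4
    exact hM4

end RoundB

end Pool.Agent.LongCyc.Dense
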