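import Pool.Agent.LongCyc.Dense.Field

/-!
# Dense regime: choice of the parameters of a round (package R10)
-/

set_option autoImplicit false

namespace Pool.Agent.LongCyc.Dense

open Finset

section R10

/-- a map with prescribed fibre sizes -/
lemma exists_gp (T : ℕ) (s : Fin T → ℕ) :
    ∃ gp : Fin (∑ a, s a) → Fin T, ∀ a, gsz gp a = s a := by
  classical
  refine ⟨fun i => (finSigmaFinEquiv.symm i).1, fun a => ?_⟩
  unfold gsz
  rw [Finset.card_filter]
  have h1 : ∑ i : Fin (∑ a, s a), (if (finSigmaFinEquiv.symm i).1 = a then 1 else 0)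
      = ∑ x : (a : Fin T) × Fin (s a), (if x.1 = a then 1 else 0) := by
    apply Equiv.sum_comp finSigmaFinEquiv.symm (fun x : (a : Fin T) × Fin (s a) => if x.1 = a then 1 else 0)
  rw [h1, Fintype.sum_sigma]
  have h2 : ∀ x : Fin T, ∑ j : Fin (s x), (if (⟨x, j⟩ : (a : Fin T) × Fin (s a)).1 = a then 1 else 0)
      = if x = a then s x else 0 := by
    intro x
    by_cases hx : x = a
    · simp [hx]
    · simp [hx]
  rw [Finset.sum_congr rfl fun x _ => h2 x]
  simp

lemma prod_first {M : Type} [CommMonoid M] {t T : ℕ} (h : t ≤ T) (f : ℕ → M) :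
    ∏ a ∈ univ.filter (fun a : Fin T => a.val < t), f a.val = ∏ i ∈ range t, f i := by
  rw [Finset.prod_filter, Fin.prod_univ_eq_prod_range (fun i => if i < t then f i else 1) T,
    ← Finset.prod_filter]
  congr 1
  ext i
  simp only [Finset.mem_filter, Finset.mem_range]
  omega

theorem exists_rpar {α : ℝ} (hα : 0 < α) (hα1 : α ≤ 1) :
    ∃ v0 > 0, ∃ C : ℝ, ∀ (p v : ℝ) (L : ℕ), 0 < p → p ≤ 1 / 10 → 0 < v → v ≤ v0 → (L + 1 : ℝ) * v ≤ 1 →
      ∃ (n T t : ℕ) (gp : Fin n → Fin T) (r : Fin T → ℕ), RPar gp t L r p v α ∧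
        (n : ℝ) ≤ C * Real.log (1 / v) / p := by
  obtain ⟨lam, hlam⟩ : ∃ lam, lam = Real.log (32 / α) := ⟨_, rfl⟩
  have h32 : (32 : ℝ) ≤ 32 / α := by
    rw [le_div_iff₀ hα]; linarith
  have h32p : (0 : ℝ) < 32 / α := by linarith
  have hlam2 : 2 ≤ lam := by
    have h1 : Real.log 32 ≤ lam := by
      rw [hlam]; exact Real.log_le_log (by norm_num) h32
    have h2 : Real.log 32 = 5 * Real.log 2 := by
      rw [show (32 : ℝ) = 2 ^ 5 by norm_num, Real.log_pow]; norm_num
    have h3 := Real.log_two_gt_d9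
    linarith
  obtain ⟨r0, hr0⟩ := exists_nat_ge (Real.exp (180 * lam))
  have hr0p : (0 : ℝ) < r0 := lt_of_lt_of_le (Real.exp_pos _) hr0
  have hr01 : (1 : ℝ) ≤ r0 := by exact_mod_cast Nat.pos_of_ne_zero (fun h => by simp [h] at hr0p)
  obtain ⟨Lam, hLam⟩ : ∃ Lam, Lam = Real.log r0 := ⟨_, rfl⟩
  have hLamge : 180 * lam ≤ Lam := by
    rw [hLam, Real.le_log_iff_exp_le hr0p]; exact hr0
  have hLamp : 0 < Lam := by linarith
  refine ⟨(α / 32) ^ 4, by positivity, 2 * (6400 / α + 1) + 4 * (16 * r0 / α + 1), ?_⟩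
  intro p v L hp hp1 hv hv0 hL
  obtain ⟨l, hl⟩ : ∃ l, l = Real.log (1 / v) := ⟨_, rfl⟩
  have hlogv : Real.log v = -l := by rw [hl, one_div, Real.log_inv, neg_neg]
  have hl4 : 4 * lam ≤ l := by
    have h1 : Real.log v ≤ Real.log ((α / 32) ^ 4) := Real.log_le_log hv hv0
    rw [Real.log_pow, hlogv] at h1
    have h2 : Real.log (α / 32) = -lam := by
      rw [hlam, ← Real.log_inv, inv_div]
    rw [h2] at h1
    push_cast at h1
    linarith
  have hl1 : 8 ≤ l := by linarith
  have hv100 : v ≤ 1 / 100 := by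
    refine hv0.trans ?_
    have h1 : α / 32 ≤ 1 / 32 := by linarith
    calc (α / 32) ^ 4 ≤ (1 / 32) ^ 4 := pow_le_pow_left₀ (by positivity) h1 4
      _ ≤ 1 / 100 := by norm_num
  -- number of levels
  obtain ⟨K, hK⟩ : ∃ K, K = ⌈90 * l / Lam⌉₊ := ⟨_, rfl⟩
  have hK1 : 90 * l / Lam ≤ K := by rw [hK]; exact Nat.le_ceil _
  have hK2 : (K : ℝ) < 90 * l / Lam + 1 := by rw [hK]; exact Nat.ceil_lt_add_one (by positivity)
  have hK1' : 90 * l ≤ K * Lam := by rwa [div_le_iff₀ hLamp] at hK1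
  have hdl : 90 * l / Lam * lam ≤ l / 2 := by
    have h1 : 90 * l / Lam * lam = 90 * l * lam / Lam := by ring
    rw [h1, div_le_iff₀ hLamp]
    have h2 := mul_le_mul_of_nonneg_left hLamge (show 0 ≤ l by linarith)
    linarith
  have hdl2 : 90 * l / Lam ≤ l / 4 := by
    rw [div_le_iff₀ hLamp]
    have h2 := mul_le_mul_of_nonneg_left (show 360 ≤ Lam by linarith) (show 0 ≤ l by linarith)
    linarith
  -- sizes
  obtain ⟨g, hg⟩ : ∃ g, g = ⌈16 * r0 / (α * p)⌉₊ := ⟨_, rfl⟩
  obtain ⟨g', hg'⟩ : ∃ g', g' = ⌈6400 * l / (α * p)⌉₊ := ⟨_, rfl⟩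
  have hap : 0 < α * p := by positivity
  have hg1 : 16 * r0 ≤ α * p * g := by
    have h1 : 16 * (r0 : ℝ) / (α * p) ≤ g := by rw [hg]; exact Nat.le_ceil _
    rw [div_le_iff₀ hap] at h1; linarith
  have hg2 : (g : ℝ) < 16 * r0 / (α * p) + 1 := by rw [hg]; exact Nat.ceil_lt_add_one (by positivity)
  have hg1' : 6400 * l ≤ α * p * g' := by
    have h1 : 6400 * l / (α * p) ≤ g' := by rw [hg']; exact Nat.le_ceil _
    rw [div_le_iff₀ hap] at h1; linarith
  have hg2' : (g' : ℝ) < 6400 * l / (α * p) + 1 := by rw [hg']; exact Nat.ceil_lt_add_one (by positivity)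
  obtain ⟨r', hr'⟩ : ∃ r', r' = ⌊α * p * g' / 16⌋₊ := ⟨_, rfl⟩
  have hr'1 : (r' : ℝ) ≤ α * p * g' / 16 := by rw [hr']; exact Nat.floor_le (by positivity)
  have hr'2 : α * p * g' / 16 < r' + 1 := by rw [hr']; exact Nat.lt_floor_add_one _
  have hr'3 : 1 ≤ (r' : ℝ) := by
    have h1 : 0 < r' := by
      rw [hr', Nat.floor_pos]; linarith
    exact_mod_cast h1
  have hpg : p * g ≤ 32 / α * r0 := by
    have h1 : p * g ≤ p * (16 * r0 / (α * p) + 1) := mul_le_mul_of_nonneg_left hg2.le hp.le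
    have h2 : p * (16 * r0 / (α * p) + 1) = 16 / α * r0 + p := by field_simp
    have h3 : 32 / α * r0 = 16 / α * r0 + 16 / α * r0 := by ring
    have h4 : 1 ≤ 16 / α * r0 := by
      have h5 : 1 ≤ 16 / α := by rw [le_div_iff₀ hα]; linarith
      exact one_le_mul_of_one_le_of_one_le h5 hr01
    linarith
  have hpg' : p * g' ≤ 32 / α * r' := by
    rw [div_mul_eq_mul_div, le_div_iff₀ hα]
    linarith
  have hpp : (32 / α) ^ (K + 1) * v ≤ 1 := by
    have h0 : 0 < (32 / α) ^ (K + 1) * v := by positivity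
    have h1 : Real.log ((32 / α) ^ (K + 1) * v) ≤ 0 := by
      rw [Real.log_mul (by positivity) hv.ne', Real.log_pow, hlogv, ← hlam]
      push_cast
      have h2 := mul_le_mul_of_nonneg_right hK2.le (show 0 ≤ lam by linarith)
      linarith
    exact (Real.log_nonpos_iff h0.le).1 h1
  have hrr : 1 ≤ v ^ 90 * (r0 : ℝ) ^ K := by
    have h0 : 0 < v ^ 90 * (r0 : ℝ) ^ K := by positivity
    have h1 : 0 ≤ Real.log (v ^ 90 * (r0 : ℝ) ^ K) := by
      rw [Real.log_mul (by positivity) (by positivity), Real.log_pow, Real.log_pow, hlogv, ← hLam]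
      push_cast
      linarith
    exact (Real.log_nonneg_iff h0).1 h1
  -- the data
  obtain ⟨T, hT⟩ : ∃ T, T = 2 * (K + 1) + 1 := ⟨_, rfl⟩
  obtain ⟨gp, hgp⟩ := exists_gp T (fun a => if a.val = 0 ∨ a.val = T - 1 then g' else g)
  have hpr1 : ∀ x y : ℝ, ∏ i ∈ range (K + 1), (if i = 0 ∨ i = T - 1 then x else y) = x * y ^ K := by
    intro x y
    rw [Finset.prod_range_succ']
    rw [if_pos (Or.inl rfl), mul_comm]
    congr 1
    rw [Finset.prod_congr rfl (g := fun _ => y), Finset.prod_const, Finset.card_range]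
    intro i hi
    rw [Finset.mem_range] at hi
    rw [if_neg]
    omega
  have hTK : K + 1 ≤ T := by omega
  refine ⟨_, T, K + 1, gp, fun a => if a.val = 0 ∨ a.val = T - 1 then r' else r0, ?_, ?_⟩
  · refine ⟨hT, by omega, hv, hv100, hL, ?_, ?_, ?_, ?_, ?_, ?_, ?_⟩
    · -- T v ≤ 1
      have h1 : (T : ℝ) = 2 * (K + 1) + 1 := by rw [hT]; push_cast; ring
      rw [h1]
      have h2 : l ≤ 1 / v - 1 := by rw [hl]; exact Real.log_le_sub_one_of_pos (by positivity)
      have h3 : l * v ≤ 1 - v := by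
        have h4 := mul_le_mul_of_nonneg_right h2 hv.le
        rw [sub_mul, one_div, inv_mul_cancel₀ hv.ne', one_mul] at h4
        exact h4
      have h4 : (2 * (K + 1) + 1 : ℝ) ≤ l / 2 + 5 := by linarith
      have h5 := mul_le_mul_of_nonneg_right h4 hv.le
      linarith
    · intro a
      split_ifs
      · exact_mod_cast hr'3
      · exact_mod_cast hr01
    · intro a
      rw [hgp]
      split_ifs
      · linarith
      · exact hg1
    · intro a ha
      rw [hgp, if_pos ha, one_div, Real.log_inv, Real.log_pow, hlogv]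
      push_cast
      linarith
    · intro a b hab
      rw [hgp, hgp]
      by_cases h1 : a.val = 0 ∨ a.val = T - 1
      · have h2 : b.val = 0 ∨ b.val = T - 1 := by omega
        rw [if_pos h1, if_pos h2, if_pos h1, if_pos h2]
        exact ⟨rfl, rfl⟩
      · have h2 : ¬ (b.val = 0 ∨ b.val = T - 1) := by omega
        rw [if_neg h1, if_neg h2, if_neg h1, if_neg h2]
        exact ⟨rfl, rfl⟩
    · have h1 : ∏ a ∈ univ.filter (fun a : Fin T => a.val < K + 1),
          (((if a.val = 0 ∨ a.val = T - 1 then r' else r0 : ℕ) : ℝ)) = r' * (r0 : ℝ) ^ K := by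
        rw [← hpr1, ← prod_first hTK]
        apply Finset.prod_congr rfl
        intro a _
        split_ifs <;> rfl
      rw [h1]
      have h2 : v ^ 90 * (r' * (r0 : ℝ) ^ K) = r' * (v ^ 90 * (r0 : ℝ) ^ K) := by ring
      rw [h2]
      exact one_le_mul_of_one_le_of_one_le hr'3 hrr
    · have h1 : ∏ a ∈ univ.filter (fun a : Fin T => a.val < K + 1),
          (((if a.val = 0 ∨ a.val = T - 1 then r' else r0 : ℕ) : ℝ)) = r' * (r0 : ℝ) ^ K := by
        rw [← hpr1, ← prod_first hTK]
        apply Finset.prod_congr rfl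
        intro a _
        split_ifs <;> rfl
      have h2 : ∏ a ∈ univ.filter (fun a : Fin T => a.val < K + 1), (p * gsz gp a) =
          (p * g') * (p * g) ^ K := by
        rw [← hpr1, ← prod_first hTK]
        apply Finset.prod_congr rfl
        intro a _
        rw [hgp]
        split_ifs <;> rfl
      rw [h1, h2]
      have h3 : (p * g') * (p * g) ^ K ≤ (32 / α * r') * (32 / α * r0) ^ K :=
        mul_le_mul hpg' (pow_le_pow_left₀ (by positivity) hpg K) (by positivity) (by positivity)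
      have h4 : v * ((32 / α * r') * (32 / α * r0) ^ K)
          = ((32 / α) ^ (K + 1) * v) * (r' * (r0 : ℝ) ^ K) := by
        rw [mul_pow, pow_succ]; ring
      calc v * ((p * g') * (p * g) ^ K) ≤ v * ((32 / α * r') * (32 / α * r0) ^ K) :=
            mul_le_mul_of_nonneg_left h3 hv.le
        _ = ((32 / α) ^ (K + 1) * v) * (r' * (r0 : ℝ) ^ K) := h4
        _ ≤ 1 * (r' * (r0 : ℝ) ^ K) := mul_le_mul_of_nonneg_right hpp (by positivity)
        _ = r' * (r0 : ℝ) ^ K := one_mul _
  · -- total number of directions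
    have h1 : ((∑ a : Fin T, (if a.val = 0 ∨ a.val = T - 1 then g' else g) : ℕ) : ℝ)
        ≤ 2 * g' + (2 * K + 1) * g := by
      have h2 : ∑ a : Fin T, (if a.val = 0 ∨ a.val = T - 1 then g' else g)
          = 2 * g' + (2 * K + 1) * g := by
        have h3 : ∑ k ∈ range (2 * K + 1), (if k + 1 = 0 ∨ k + 1 = T - 1 then g' else g)
            = (2 * K + 1) * g := by
          rw [Finset.sum_congr rfl (g := fun _ => g), Finset.sum_const, Finset.card_range,
            smul_eq_mul]
          intro i hi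
          rw [Finset.mem_range] at hi
          rw [if_neg]
          omega
        have h4 : T = (2 * K + 1 + 1) + 1 := by omega
        rw [Fin.sum_univ_eq_sum_range (fun i => if i = 0 ∨ i = T - 1 then g' else g) T]
        have h5 : ∑ i ∈ range T, (if i = 0 ∨ i = T - 1 then g' else g)
            = ∑ i ∈ range ((2 * K + 1 + 1) + 1), (if i = 0 ∨ i = T - 1 then g' else g) := by
          rw [← h4]
        rw [h5, Finset.sum_range_succ, if_pos (Or.inr (by omega)), Finset.sum_range_succ',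
          if_pos (Or.inl rfl), h3]
        ring
      rw [h2]
      push_cast
      exact le_rfl
    refine h1.trans ?_
    rw [← hl]
    have h5 : (1 : ℝ) ≤ l / p := by rw [le_div_iff₀ hp]; linarith
    have h6 : (g' : ℝ) ≤ (6400 / α + 1) * (l / p) := by
      have : 6400 * l / (α * p) = 6400 / α * (l / p) := by field_simp
      rw [this] at hg2'
      linarith
    have h7 : (g : ℝ) ≤ (16 * r0 / α + 1) * (1 / p) := by
      have h8 : 16 * r0 / (α * p) = 16 * r0 / α * (1 / p) := by field_simp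
      have h9 : (1 : ℝ) ≤ 1 / p := by rw [le_div_iff₀ hp]; linarith
      rw [h8] at hg2
      linarith
    have h8 : (2 * K + 1 : ℝ) ≤ 4 * l := by linarith
    have h9 : (2 * K + 1 : ℝ) * g ≤ (4 * l) * ((16 * r0 / α + 1) * (1 / p)) :=
      mul_le_mul h8 h7 (by positivity) (by linarith)
    calc 2 * (g' : ℝ) + (2 * K + 1) * g ≤ 2 * ((6400 / α + 1) * (l / p)) +
          (4 * l) * ((16 * r0 / α + 1) * (1 / p)) := by linarith
      _ = (2 * (6400 / α + 1) + 4 * (16 * r0 / α + 1)) * l / p := by ring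

end R10

end Pool.Agent.LongCyc.Dense
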