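import Pool.Agent.LongCyc.Dense.BaseAm
import Pool.Agent.LongCyc.Dense.FBaseLaw

/-!
# Dense regime: construction of the law of one subfibre
-/

set_option autoImplicit false
set_option synthInstance.maxSize 2000
set_option linter.unusedSectionVars false

namespace Pool.Agent.LongCyc.Dense

open Finset BlockDec

section mk

variable {r : ℕ} {D : Type} [DecidableEq D] [Fintype D]

/-- edge states of the (not translated) subfibre -/
noncomputable def hb0 (φ : Gst r D) (q : CE (Fin r × D)) : Bool :=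
  (φ ((grLab fun k => (φ k).2).phi q).1).1 ((grLab fun k => (φ k).2).phi q).2

/-- edge states of the translated subfibre -/
noncomputable def hbS (φ : Gst r D) (t : Cube (Fin r × D)) (q : CE (Fin r × D)) : Bool :=
  hb0 φ (trE t q)

theorem opn_hb0 {φ : Gst r D} {y y' : Cube (Fin r × D)} :
    opn (canE (Fin r × D)) (hb0 φ) y y' ↔ opnY φ y y' := by
  have h : opnY φ = opn (canE (Fin r × D)) (hb0 φ) := opn_can _ _
  rw [h]

theorem opn_hbS {φ : Gst r D} {t y y' : Cube (Fin r × D)} :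
    opn (canE (Fin r × D)) (hbS φ t) y y' ↔ opnY φ (xr y t) (xr y' t) := by
  rw [← opn_hb0]
  exact opn_mpE (a := tra t) (h := hb0 φ)

theorem E_hb0 {p : ℝ} {h0 : 0 ≤ p} {h1 : p ≤ 1} (G : (CE (Fin r × D) → Bool) → ℝ) :
    (gstP r D p h0 h1).E (fun φ => G (hb0 φ)) = (bern p h0 h1 (CE (Fin r × D))).E G := by
  unfold gstP staP
  rw [pi_prod, FP.E_swap]
  have h : ∀ A : Fin r × Cube (Fin r × D) → Au D,
      ((FP.pi fun _ : Fin r × Cube (Fin r × D) => bern p h0 h1 (CE D)).E fun ω =>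
        G (hb0 fun k => (ω k, A k))) = (bern p h0 h1 (CE (Fin r × D))).E G := by
    intro A
    rw [← bern_comap (grLab A).phi (grLab A).phi_injective G, bern_curry]
    rfl
  rw [FP.E_congr _ h, FP.E_const]

theorem E_hbS {p : ℝ} {h0 : 0 ≤ p} {h1 : p ≤ 1} (t : Cube (Fin r × D))
    (F : (CE (Fin r × D) → Bool) → ℝ) :
    (gstP r D p h0 h1).E (fun φ => F (hbS φ t)) = (bern p h0 h1 (CE (Fin r × D))).E F := by
  have h2 := E_hb0 (p := p) (h0 := h0) (h1 := h1) fun h : CE (Fin r × D) → Bool => F fun q => h (trE t q)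
  refine Eq.trans h2 ?_
  have h3 := bern_am (p := p) (h0 := h0) (h1 := h1) (Equiv.refl (Fin r × D)) t F
  exact h3

/-- composition of translations -/
theorem trc_trc (c : Cube (Fin r × D) → Option (Cube (Fin r × D))) (t τ : Cube (Fin r × D)) :
    trc (trc c t) τ = trc c (xr t τ) := by
  have hx : ∀ y : Cube (Fin r × D), xr (xr y τ) t = xr y (xr t τ) := by
    intro y
    funext i
    simp only [xr_apply]
    cases y i <;> cases τ i <;> cases t i <;> rfl
  have hx' : ∀ y : Cube (Fin r × D), xr (xr y t) τ = xr y (xr t τ) := by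
    intro y
    funext i
    simp only [xr_apply]
    cases y i <;> cases τ i <;> cases t i <;> rfl
  funext y
  unfold trc
  rw [Option.map_map, hx]
  congr 1
  funext v
  exact hx' v

theorem trc_some {c : Cube (Fin r × D) → Option (Cube (Fin r × D))} {t y y' : Cube (Fin r × D)} :
    trc c t y = some y' ↔ c (xr y t) = some (xr y' t) := mpc_some (a := tra t)

theorem it_trc_some {c : Cube (Fin r × D) → Option (Cube (Fin r × D))} {t y y' : Cube (Fin r × D)}
    {k : ℕ} : it (trc c t) k y = some y' ↔ it c k (xr y t) = some (xr y' t) :=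
  it_mpc_some (a := tra t)

theorem it_trc_none {c : Cube (Fin r × D) → Option (Cube (Fin r × D))} {t y : Cube (Fin r × D)}
    {k : ℕ} : it (trc c t) k y = none ↔ it c k (xr y t) = none :=
  it_mpc_none (a := tra t)

theorem zer_eq_iff {g : Fin r} {x x' : Cube (Fin r × D)} :
    zer g x = zer g x' ↔ ∀ q : Fin r × D, q.1 ≠ g → x q = x' q := by
  constructor
  · intro h q hq
    have := congrFun h q
    simpa [zer, put, hq] using this
  · intro h
    funext q
    by_cases hq : q.1 = g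
    · simp [zer, put, hq]
    · simp [zer, put, hq, h q hq]

/-- the edges of the group `0` form a matching: the direction is determined -/
theorem mcs_of_edge {hr : 2 ≤ r} {φ : Gst r D} {x : Cube (Fin r × D)} {i : D}
    (h : bmap (by omega) φ x = some (flip (⟨0, by omega⟩, i) x) ∨
      bmap (by omega) φ (flip (⟨0, by omega⟩, i) x) = some x) :
    mcs (φ (⟨0, by omega⟩, zer ⟨0, by omega⟩ x)) (cmp ⟨0, by omega⟩ x) =
      flip i (cmp ⟨0, by omega⟩ x) := by
  have hr0 : 0 < r := by omega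
  rcases h with h | h
  · obtain ⟨j, h1, h2, _⟩ := bmap_some h
    have h3 := flip_dir_injective x h1
    rw [Prod.mk.injEq] at h3
    obtain ⟨h4, h5⟩ := h3
    unfold key at h2
    rw [← h4, ← h5] at h2
    exact h2
  · obtain ⟨j, h1, h2, _⟩ := bmap_some h
    set x' := flip ((⟨0, hr0⟩ : Fin r), i) x with hx'
    have h1' : x = flip (gg hr0 x', j) x' := h1
    have h6 : x = flip ((⟨0, hr0⟩ : Fin r), i) x' := by rw [hx', flip_flip]
    have h3 := flip_dir_injective x' (h1'.symm.trans h6)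
    rw [Prod.mk.injEq] at h3
    obtain ⟨h4, h5⟩ := h3
    unfold key at h2
    rw [h4, h5] at h2
    have h7 : zer (⟨0, hr0⟩ : Fin r) x' = zer ⟨0, hr0⟩ x := by rw [hx', zer_flip]
    have h8 : cmp (⟨0, hr0⟩ : Fin r) x' = flip i (cmp ⟨0, hr0⟩ x) := by rw [hx', cmp_flip]
    rw [h7, h8, flip_flip] at h2
    rw [← h2, mcs_invol, h2]

/-- the directions of the group `0` -/
def d0S (hr : 0 < r) : Finset (Fin r × D) := Finset.univ.filter fun q => q.1 = ⟨0, hr⟩

theorem mem_d0S {hr : 0 < r} {q : Fin r × D} : q ∈ d0S hr ↔ q.1 = ⟨0, hr⟩ := by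
  unfold d0S
  rw [Finset.mem_filter]
  exact ⟨fun h => h.2, fun h => ⟨Finset.mem_univ _, h⟩⟩

/-- admissible sets -/
def AdmS (hr : 0 < r) (L : ℕ) (A : Finset (CE (Fin r × D))) : Prop :=
  (∀ e ∈ A, e.1.2 ∈ d0S hr) ∧
  (∀ e ∈ A, ∀ e' ∈ A, zer ⟨0, hr⟩ e.1.1 = zer ⟨0, hr⟩ e'.1.1 → e = e') ∧
  A.card ≤ L ∧ (L - 1) / 2 ≤ A.card

theorem zer_can {hr : 0 < r} {x : Cube (Fin r × D)} {q : Fin r × D} (hq : q ∈ d0S hr) :
    zer ⟨0, hr⟩ ((canE (Fin r × D)).e x q).1.1 = zer ⟨0, hr⟩ x := by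
  rw [mem_d0S] at hq
  obtain ⟨g, i⟩ := q
  simp only at hq
  subst hq
  rcases canE_pt x ((⟨0, hr⟩ : Fin r), i) with h | h
  · rw [h]
  · rw [h, zer_flip]

theorem AdmS.am {hr : 0 < r} {L : ℕ} {A : Finset (CE (Fin r × D))} (h : AdmS hr L A)
    (π : Equiv.Perm (Fin r × D)) (τ : Cube (Fin r × D)) (hπ : ∀ i, i ∉ d0S hr → π i = i) :
    AdmS hr L (A.image (amE π τ)) := by
  have hinj : Function.Injective (amE π τ) := Function.LeftInverse.injective (amiE_amE π τ)
  have hpres := pres_of_fix (a := cj τ π) (D0 := d0S hr) hπ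
  obtain ⟨h1, h2, h3, h4⟩ := h
  have hd : ∀ e ∈ A, (amE π τ e).1.2 ∈ d0S hr := fun e he => (hpres e.1.2).2 (h1 e he)
  refine ⟨?_, ?_, ?_, ?_⟩
  · intro e he
    obtain ⟨e', he', rfl⟩ := Finset.mem_image.1 he
    exact hd e' he'
  · intro e he e' he' hz
    obtain ⟨u, hu, rfl⟩ := Finset.mem_image.1 he
    obtain ⟨u', hu', rfl⟩ := Finset.mem_image.1 he'
    have h5 : ∀ v ∈ A, zer ⟨0, hr⟩ (amE π τ v).1.1 = zer ⟨0, hr⟩ (Dense.am π τ v.1.1) := by
      intro v hv
      exact zer_can (hd v hv)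
    rw [h5 u hu, h5 u' hu', zer_eq_iff] at hz
    congr 1
    refine h2 u hu u' hu' (zer_eq_iff.2 fun q hq => ?_)
    have h6 := hz q hq
    have h7 : q ∉ d0S hr := fun h => hq (mem_d0S.1 h)
    have h8 : π.symm q = q := by
      rw [Equiv.symm_apply_eq]
      exact (hπ q h7).symm
    unfold Dense.am at h6
    simp only [xr_apply, Function.comp, h8] at h6
    revert h6
    cases u.1.1 q <;> cases u'.1.1 q <;> cases τ q <;> simp
  · rw [Finset.card_image_of_injective _ hinj]
    exact h3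
  · rw [Finset.card_image_of_injective _ hinj]
    exact h4

theorem AdmS.disj {hr : 0 < r} {L : ℕ} {A : Finset (CE (Fin r × D))} (h : AdmS hr L A) :
    (∀ e ∈ A, e.1.2 ∈ d0S hr) ∧ ∀ e ∈ A, ∀ e' ∈ A, e ≠ e' →
    e.1.1 ≠ e'.1.1 ∧ e.1.1 ≠ flip e'.1.2 e'.1.1 ∧ flip e.1.2 e.1.1 ≠ e'.1.1 ∧
      flip e.1.2 e.1.1 ≠ flip e'.1.2 e'.1.1 := by
  refine ⟨h.1, fun e he e' he' hne => ?_⟩
  have hz : ∀ v ∈ A, zer ⟨0, hr⟩ (flip v.1.2 v.1.1) = zer ⟨0, hr⟩ v.1.1 := by
    intro v hv
    have h1 := mem_d0S.1 (h.1 v hv)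
    have h2 : v.1.2 = ((⟨0, hr⟩ : Fin r), v.1.2.2) := Prod.ext h1 rfl
    rw [h2, zer_flip]
  have key : zer ⟨0, hr⟩ e.1.1 ≠ zer ⟨0, hr⟩ e'.1.1 := fun h2 => hne (h.2.1 e he e' he' h2)
  refine ⟨fun h2 => key (by rw [h2]), fun h2 => key (by rw [h2, hz e' he']),
    fun h2 => key (by rw [← hz e he, h2]), fun h2 => key (by rw [← hz e he, h2, hz e' he'])⟩

/-- the `D0`-edges of a good run are admissible -/
theorem adm_run {hr : 2 ≤ r} {φ : Gst r D} {L : ℕ} {x : Cube (Fin r × D)}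
    (h : Good (by omega) L φ x) :
    AdmS (by omega) L (runD0 (d0S (by omega)) (bmap (by omega) φ) L x) := by
  classical
  have hr0 : 0 < r := by omega
  obtain ⟨w, h1, h2⟩ := h
  set E : ℕ → CE (Fin r × D) := fun k =>
    (canE (Fin r × D)).e (wpos hr0 x w k) (gg hr0 (wpos hr0 x w k), w k) with hE
  set K : Finset ℕ := (Finset.range (L - 1)).filter fun k => gg hr0 (wpos hr0 x w k) = ⟨0, hr0⟩ with hK
  have hmem : runD0 (d0S hr0) (bmap hr0 φ) L x = K.image E := by
    ext e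
    rw [mem_runD0, Finset.mem_image]
    constructor
    · rintro ⟨g1, k, y, g2, g3, g4, g5⟩
      rw [Fol.it h1 (by omega)] at g3
      have g6 := Option.some.inj g3
      subst g6
      rw [h1 k (by omega)] at g4
      have g7 : flip (gg hr0 (wpos hr0 x w k), w k) (wpos hr0 x w k) =
          flip e.1.2 (wpos hr0 x w k) := Option.some.inj g4
      have g8 := flip_dir_injective _ g7
      refine ⟨k, ?_, ?_⟩
      · rw [hK, Finset.mem_filter, Finset.mem_range]
        refine ⟨by omega, ?_⟩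
        rw [← g8, mem_d0S] at g1
        exact g1
      · rw [← g5, ← g8]
    · rintro ⟨k, hk, rfl⟩
      rw [hK, Finset.mem_filter, Finset.mem_range] at hk
      refine ⟨mem_d0S.2 hk.2, k, wpos hr0 x w k, by omega, Fol.it h1 (by omega), ?_, rfl⟩
      rw [h1 k (by omega)]
      rfl
  have hz : ∀ k ∈ K, zer ⟨0, hr0⟩ (E k).1.1 = zer ⟨0, hr0⟩ (wpos hr0 x w k) := by
    intro k hk
    rw [hK, Finset.mem_filter] at hk
    exact zer_can (mem_d0S.2 hk.2)
  have hinj : ∀ k ∈ K, ∀ k' ∈ K, zer ⟨0, hr0⟩ (E k).1.1 = zer ⟨0, hr0⟩ (E k').1.1 → k = k' := by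
    intro k hk k' hk' hzz
    rw [hz k hk, hz k' hk'] at hzz
    rw [hK, Finset.mem_filter, Finset.mem_range] at hk hk'
    have hkey : wkey hr0 x w k = wkey hr0 x w k' := by
      unfold wkey key
      rw [hk.2, hk'.2, hzz]
    rcases lt_trichotomy k k' with hlt | heq | hgt
    · exact absurd hkey (h2 k k' hlt (by omega))
    · exact heq
    · exact absurd hkey.symm (h2 k' k hgt (by omega))
  have hcard : (K.image E).card = K.card := by
    apply Finset.card_image_of_injOn
    intro k hk k' hk' hkk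
    exact hinj k hk k' hk' (by rw [hkk])
  refine ⟨?_, ?_, ?_, ?_⟩
  · intro e he
    rw [hmem, Finset.mem_image] at he
    obtain ⟨k, hk, rfl⟩ := he
    rw [hK, Finset.mem_filter] at hk
    exact mem_d0S.2 hk.2
  · intro e he e' he' hzz
    rw [hmem, Finset.mem_image] at he he'
    obtain ⟨k, hk, rfl⟩ := he
    obtain ⟨k', hk', rfl⟩ := he'
    rw [hinj k hk k' hk' hzz]
  · rw [hmem, hcard]
    refine (Finset.card_filter_le _ _).trans ?_
    rw [Finset.card_range]
    omega
  · rw [hmem, hcard]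
    have h3 : ((Finset.range ((L - 1) / 2)).image fun j => 2 * j + tm x % 2) ⊆ K := by
      intro k hk
      rw [Finset.mem_image] at hk
      obtain ⟨j, hj, rfl⟩ := hk
      rw [Finset.mem_range] at hj
      rw [hK, Finset.mem_filter, Finset.mem_range]
      refine ⟨by omega, ?_⟩
      rw [gg_wpos]
      apply gd_even
      rw [Nat.even_iff]
      omega
    have h4 := Finset.card_le_card h3
    rw [Finset.card_image_of_injective _ (fun a b (hab : 2 * a + tm x % 2 = 2 * b + tm x % 2) => by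
      omega), Finset.card_range] at h4
    exact h4

theorem pr_prod_le {Ω Ω' : Type*} [Fintype Ω] [Fintype Ω'] (P : FP Ω) (Q : FP Ω')
    (S : Ω → Ω' → Prop) {ε : ℝ} (h : ∀ b, P.pr (fun a => S a b) ≤ ε) :
    (P.prod Q).pr (fun q => S q.1 q.2) ≤ ε := by
  classical
  rw [FP.pr_eq, FP.E_prod, FP.E_swap]
  refine FP.E_le_of_le _ fun b => ?_
  have := h b
  rw [FP.pr_eq] at this
  exact this

/-- **the law of one subfibre** -/
theorem exists_subLaw [Nonempty D] (hr : 2 ≤ r) {p : ℝ} (h0 : 0 ≤ p) (h1 : p ≤ 1) (L K M1 : ℕ)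
    {ε : ℝ} (hG : ((L + 5 : ℕ) : ℝ) * eta D p h0 h1 + ((L + 5 : ℕ) : ℝ) ^ 2 /
      (Fintype.card D : ℝ) ^ (r - 1) ≤ ε)
    (hK : (K : ℝ) * eta D p h0 h1 + (K : ℝ) ^ 2 / (Fintype.card D : ℝ) ^ (r - 1) ≤ ε)
    (hM : Real.exp (M1 - (1 - Real.exp (-1)) * ((1 - eta D p h0 h1) / Fintype.card D) *
      (((L - 1) / 2 : ℕ) : ℝ)) ≤ ε) :
    ∃ S : SubLaw (Fin r × D) p h0 h1 L K M1 ε, S.D0.card = Fintype.card D := by
  classical
  have hr0 : 0 < r := by omega
  refine ⟨{
    Ω := Gst r D × Cube (Fin r × D)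
    fin := inferInstance
    P := (gstP r D p h0 h1).prod (FP.unif (Cube (Fin r × D)))
    hb := fun ω => hbS ω.1 ω.2
    b := fun ω => trc (bmap hr0 ω.1) ω.2
    gd := fun ω => Finset.univ.filter fun x => Good hr0 (L + 5) ω.1 (xr x ω.2)
    D0 := d0S hr0
    D0ne := ?_
    Adm := AdmS hr0 L
    admL := fun A hA => hA.2.2.1
    admD := fun A hA => hA.disj
    admA := fun A hA π τ hπ => hA.am π τ hπ
    bInj := ?_
    bOpen := ?_
    no2b := ?_
    mat := ?_
    gdef := ?_
    gopen := ?_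
    gadm := ?_
    hbLaw := ?_
    gpr := ?_
    spr := ?_
    apr := ?_ }, ?_⟩
  · obtain ⟨i⟩ := ‹Nonempty D›
    exact ⟨(⟨0, hr0⟩, i), mem_d0S.2 rfl⟩
  · intro ω x y v hx hy
    have h := bmap_pinj hr ω.1 _ _ _ (trc_some.1 hx) (trc_some.1 hy)
    exact xr_injective ω.2 h
  · intro ω y y' h
    rw [opn_hbS]
    obtain ⟨i, _, _, h2⟩ := bmap_some (trc_some.1 h)
    exact h2
  · intro ω y y' h h2
    exact bmap_no2 hr ω.1 (trc_some.1 h) (trc_some.1 h2)
  · intro ω y i hi i' hi' h h'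
    rw [mem_d0S] at hi hi'
    obtain ⟨g, i⟩ := i
    obtain ⟨g', i'⟩ := i'
    simp only at hi hi'
    subst hi
    subst hi'
    rw [trc_some, trc_some, xr_flip] at h h'
    have e1 := mcs_of_edge (hr := hr) h
    have e2 := mcs_of_edge (hr := hr) h'
    rw [e1] at e2
    rw [flip_dir_injective _ e2]
  · intro ω u hu hn
    rw [Finset.mem_filter] at hu
    exact hu.2.it_ne_none (k := L - 1) (by omega) (it_trc_none.1 hn)
  · intro ω u hu k hk1 hk2 hk
    rw [Finset.mem_filter] at hu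
    exact hu.2.no_return hk1 (by omega) (it_trc_some.1 hk)
  · intro ω u hu
    rw [Finset.mem_filter] at hu
    have h2 := adm_run (hr := hr) (hu.2.mono (m := L) (by omega))
    have h3 := runD0_mp_image (a := tra ω.2) (D0 := d0S hr0) (b := bmap hr0 ω.1) (L := L) (u := u)
      (fun i => Iff.rfl)
    show AdmS hr0 L (runD0 (d0S hr0) (mpc (tra ω.2) (bmap hr0 ω.1)) L u)
    rw [h3]
    exact h2.am (Equiv.refl _) ω.2 (fun _ _ => rfl)
  · intro F
    rw [FP.E_prod, FP.E_swap]
    have : ∀ t : Cube (Fin r × D), ((gstP r D p h0 h1).E fun φ => F (hbS φ t)) =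
        (bern p h0 h1 (CE (Fin r × D))).E F := fun t => E_hbS t F
    rw [FP.E_congr _ this, FP.E_const]
  · intro x
    refine pr_prod_le _ _ (fun φ t => x ∉ Finset.univ.filter fun x => Good hr0 (L + 5) φ (xr x t))
      fun t => ?_
    refine le_trans (FP.pr_mono _ fun φ h => ?_) (le_trans (pr_not_good hr (L + 5) (xr x t)) hG)
    rw [Finset.mem_filter] at h
    exact fun h2 => h ⟨Finset.mem_univ _, h2⟩
  · intro x
    refine pr_prod_le _ _ (fun φ t => x ∈ shortS (trc (bmap hr0 φ) t) K) fun t => ?_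
    refine le_trans (FP.pr_mono _ fun φ h => ?_) (le_trans (pr_not_good hr K (xr x t)) hK)
    rw [mem_shortS] at h
    obtain ⟨k, hk1, hk2, hk3⟩ := h
    exact fun h2 => h2.no_return hk1 hk2 (it_trc_some.1 hk3)
  · intro A hA
    refine pr_prod_le _ _ (fun φ t => (A.filter fun e => trc (bmap hr0 φ) t e.1.1 =
      some (flip e.1.2 e.1.1) ∨ trc (bmap hr0 φ) t (flip e.1.2 e.1.1) = some e.1.1).card < M1)
      fun t => ?_
    have hJ : Set.InjOn (fun e : CE (Fin r × D) => zer ⟨0, hr0⟩ (xr e.1.1 t)) A := by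
      intro e he e' he' h
      refine hA.2.1 e he e' he' (zer_eq_iff.2 fun q hq => ?_)
      have h2 := zer_eq_iff.1 h q hq
      simp only [xr_apply] at h2
      revert h2
      cases e.1.1 q <;> cases e'.1.1 q <;> cases t q <;> simp
    have h2 := pr_bE_lower (p := p) (h0 := h0) (h1 := h1) (hr := hr) A
      (fun e : CE (Fin r × D) => xr e.1.1 t) (fun e => e.1.2.2) hJ M1
    refine le_trans (le_trans (FP.pr_mono _ fun φ h => ?_) h2) (le_trans (Real.exp_le_exp.2 ?_) hM)
    · rw [Nat.cast_lt]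
      refine lt_of_le_of_lt (Finset.card_le_card fun e he => ?_) h
      rw [Finset.mem_filter] at he ⊢
      refine ⟨he.1, ?_⟩
      have h3 : e.1.2 = ((⟨0, hr0⟩ : Fin r), e.1.2.2) := Prod.ext (mem_d0S.1 (hA.1 e he.1)) rfl
      rw [trc_some, trc_some, xr_flip, h3]
      exact he.2
    · have h4 : (((L - 1) / 2 : ℕ) : ℝ) ≤ A.card := by exact_mod_cast hA.2.2.2
      have h5 : (0 : ℝ) ≤ (1 - Real.exp (-1)) * ((1 - eta D p h0 h1) / Fintype.card D) := by
        have h6 : Real.exp (-1) ≤ 1 := by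
          rw [Real.exp_le_one_iff]
          norm_num
        have h7 : eta D p h0 h1 ≤ 1 := eta_le_one
        exact mul_nonneg (by linarith) (div_nonneg (by linarith) (Nat.cast_nonneg _))
      have := mul_le_mul_of_nonneg_left h4 h5
      linarith
  · show (d0S hr0 : Finset (Fin r × D)).card = Fintype.card D
    have h2 : (d0S hr0 : Finset (Fin r × D)) = Finset.univ.image fun i : D => ((⟨0, hr0⟩ : Fin r), i) := by
      ext q
      rw [mem_d0S, Finset.mem_image]
      constructor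
      · intro h
        exact ⟨q.2, Finset.mem_univ _, Prod.ext h.symm rfl⟩
      · rintro ⟨i, _, rfl⟩
        rfl
    rw [h2, Finset.card_image_of_injective _ (fun i j hij => (Prod.mk.inj hij).2), Finset.card_univ]

end mk

end Pool.Agent.LongCyc.Dense
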