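import Pool.Agent.LongCyc.Dense.Field
import Pool.Agent.LongCyc.Dense.Indep2
import Pool.Agent.LongCyc.Dense.Tree

/-!
# Dense regime, section 4: supports (dependence) of the tree quantities, basic expectations
-/

set_option autoImplicit false
set_option linter.unusedSectionVars false

namespace Pool.Agent.LongCyc.Dense

open Finset

/-! ### Parity -/

section parity

variable {ι : Type} [DecidableEq ι] [Fintype ι]

theorem par_xr_st (x y : Cube ι) : par (xr x y) = (par x == par y) := by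
  have key : (univ.filter fun i => xr x y i = true).card +
      2 * (univ.filter fun i => x i = true ∧ y i = true).card =
      (univ.filter fun i => x i = true).card + (univ.filter fun i => y i = true).card := by
    simp only [Finset.card_filter, Finset.mul_sum, ← Finset.sum_add_distrib]
    refine Finset.sum_congr rfl fun i _ => ?_
    rw [xr_apply]
    cases x i <;> cases y i <;> simp
  have h : Even (univ.filter fun i => xr x y i = true).card ↔
      (Even (univ.filter fun i => x i = true).card ↔ Even (univ.filter fun i => y i = true).card) := by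
    simp only [Nat.even_iff]
    omega
  have e1 : par (xr x y) = decide (Even (univ.filter fun i => xr x y i = true).card) := rfl
  have e2 : par x = decide (Even (univ.filter fun i => x i = true).card) := rfl
  have e3 : par y = decide (Even (univ.filter fun i => y i = true).card) := rfl
  rw [e1, e2, e3]
  by_cases h1 : Even (univ.filter fun i => x i = true).card <;>
    by_cases h2 : Even (univ.filter fun i => y i = true).card
  · rw [decide_eq_true (h.2 (iff_of_true h1 h2)), decide_eq_true h1, decide_eq_true h2]; rfl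
  · rw [decide_eq_false (fun h3 => h2 ((h.1 h3).1 h1)), decide_eq_true h1, decide_eq_false h2]; rfl
  · rw [decide_eq_false (fun h3 => h1 ((h.1 h3).2 h2)), decide_eq_false h1, decide_eq_true h2]; rfl
  · rw [decide_eq_true (h.2 (iff_of_false h1 h2)), decide_eq_false h1, decide_eq_false h2]; rfl

variable {μ : Type} [DecidableEq μ] [Fintype μ]

theorem par2_flip (y : Cube ι) (z : Cube μ) (i : μ) : par2 y (flip i z) = !par2 y z := by
  unfold par2
  rw [par_flip]
  cases par y <;> cases par z <;> rfl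

theorem par2_of_par {y y' : Cube ι} (h : par y' = !par y) (z : Cube μ) : par2 y' z = !par2 y z := by
  unfold par2
  rw [h]
  cases par y <;> cases par z <;> rfl

theorem par2_xr {y : Cube ι} {z : Cube μ} {η : Cube ι} {ζ : Cube μ} (h : par η = par ζ) :
    par2 (xr y η) (xr z ζ) = par2 y z := by
  unfold par2
  rw [par_xr_st, par_xr_st, h]
  cases par y <;> cases par z <;> cases par ζ <;> rfl

end parity

section Supp

variable {κ μ : Type} [DecidableEq κ] [Fintype κ] [DecidableEq μ] [Fintype μ] {T : ℕ}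

/-! ### Cosets and rungs inside a coset -/

theorem mem_cos_iff {gp : μ → Fin T} {l : List (Fin T)} {z z' : Cube μ} :
    z' ∈ cos gp l z ↔ ∀ q, gp q ∉ l → z' q = z q := by
  simp [cos]

theorem mem_cos_self (gp : μ → Fin T) (l : List (Fin T)) (z : Cube μ) : z ∈ cos gp l z :=
  mem_cos_iff.2 fun _ _ => rfl

theorem cos_eq {gp : μ → Fin T} {l : List (Fin T)} {z z' : Cube μ} (h : z' ∈ cos gp l z) :
    cos gp l z' = cos gp l z := by
  ext w
  rw [mem_cos_iff] at h
  rw [mem_cos_iff, mem_cos_iff]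
  exact ⟨fun hw q hq => (hw q hq).trans (h q hq), fun hw q hq => (hw q hq).trans (h q hq).symm⟩

theorem cos_comm {gp : μ → Fin T} {l : List (Fin T)} {z z' : Cube μ} (h : z' ∈ cos gp l z) :
    z ∈ cos gp l z' := by
  rw [cos_eq h]
  exact mem_cos_self _ _ _

theorem cos_disjoint {gp : μ → Fin T} {l : List (Fin T)} {z z' : Cube μ} {q : μ} (hq : gp q ∉ l)
    (h : z q ≠ z' q) : Disjoint (cos gp l z) (cos gp l z') := by
  rw [Finset.disjoint_left]
  intro w h1 h2
  rw [mem_cos_iff] at h1 h2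
  exact h ((h1 q hq).symm.trans (h2 q hq))

/-- different cosets, first coset for a larger list -/
theorem cos_disjoint' {gp : μ → Fin T} {l l' : List (Fin T)} {z z' : Cube μ} {q : μ} (hq : gp q ∉ l)
    (hq' : gp q ∉ l') (h : z q ≠ z' q) : Disjoint (cos gp l z) (cos gp l' z') := by
  rw [Finset.disjoint_left]
  intro w h1 h2
  rw [mem_cos_iff] at h1 h2
  exact h ((h1 q hq).symm.trans (h2 q hq'))

variable (κ) in
/-- rungs inside the coset -/
def rgs (gp : μ → Fin T) (l : List (Fin T)) (z : Cube μ) : Finset (Cube κ × CE μ) :=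
  univ.filter fun e => gp e.2.1.2 ∈ l ∧ e.2.1.1 ∈ cos gp l z

theorem mem_rgs {gp : μ → Fin T} {l : List (Fin T)} {z : Cube μ} {e : Cube κ × CE μ} :
    e ∈ rgs κ gp l z ↔ gp e.2.1.2 ∈ l ∧ e.2.1.1 ∈ cos gp l z := by
  simp [rgs]

theorem rgs_eq {gp : μ → Fin T} {l : List (Fin T)} {z z' : Cube μ} (h : z' ∈ cos gp l z) :
    rgs κ gp l z' = rgs κ gp l z := by
  unfold rgs
  rw [cos_eq h]

theorem can_mem_rgs {gp : μ → Fin T} {l : List (Fin T)} {z z' : Cube μ} (hz' : z' ∈ cos gp l z)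
    {i : μ} (hi : gp i ∈ l) (y : Cube κ) : (y, (canE μ).e z' i) ∈ rgs κ gp l z := by
  rw [mem_rgs]
  refine ⟨hi, ?_⟩
  rw [mem_cos_iff] at hz' ⊢
  intro q hq
  show Function.update z' i false q = z q
  rw [Function.update_of_ne (by rintro rfl; exact hq hi)]
  exact hz' q hq

theorem rgs_disjoint_of_cos {gp : μ → Fin T} {l l' : List (Fin T)} {z z' : Cube μ}
    (h : Disjoint (cos gp l z) (cos gp l' z')) : Disjoint (rgs κ gp l z) (rgs κ gp l' z') := by
  rw [Finset.disjoint_left] at h ⊢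
  intro e h1 h2
  rw [mem_rgs] at h1 h2
  exact h h1.2 h2.2

theorem rgs_disjoint_of_list {gp : μ → Fin T} {l l' : List (Fin T)} (h : List.Disjoint l l')
    (z z' : Cube μ) : Disjoint (rgs κ gp l z) (rgs κ gp l' z') := by
  rw [Finset.disjoint_left]
  intro e h1 h2
  rw [mem_rgs] at h1 h2
  exact h h1.1 h2.1

theorem can_not_mem_rgs {gp : μ → Fin T} {l : List (Fin T)} (z z' : Cube μ) {i : μ} (hi : gp i ∉ l)
    (y : Cube κ) : (y, (canE μ).e z' i) ∉ rgs κ gp l z := by
  rw [mem_rgs]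
  exact fun h => hi h.1

omit [DecidableEq κ] [Fintype κ] in
theorem rgo_flip_iff {b : Cube κ × CE μ → Bool} {y : Cube κ} {z : Cube μ} {i : μ} :
    rgo b y (flip i z) i ↔ rgo b y z i := by
  unfold rgo
  rw [(canE μ).symm]

/-- equality of canonical labels -/
theorem canE_eq {z z' : Cube μ} {i i' : μ} (h : (canE μ).e z i = (canE μ).e z' i') :
    i = i' ∧ (z = z' ∨ z = flip i z') := (canE μ).inj _ _ _ _ h

/-! ### Dependence -/

variable {X : Type}

/-- `f` depends only on the fibres in `S` and on the rungs in `R` -/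
def DepOn {α : Sort*} (S : Finset (Cube μ)) (R : Finset (Cube κ × CE μ)) (f : Smp X κ μ → α) : Prop :=
  ∀ a b : Smp X κ μ, (∀ z ∈ S, a.1 z = b.1 z) → (∀ e ∈ R, a.2 e = b.2 e) → f a = f b

theorem DepOn.mono {α : Sort*} {S S' : Finset (Cube μ)} {R R' : Finset (Cube κ × CE μ)}
    {f : Smp X κ μ → α} (h : DepOn S R f) (hS : S ⊆ S') (hR : R ⊆ R') : DepOn S' R' f :=
  fun a b h1 h2 => h a b (fun z hz => h1 z (hS hz)) fun e he => h2 e (hR he)

theorem DepOn.comp {α β : Sort*} {S : Finset (Cube μ)} {R : Finset (Cube κ × CE μ)}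
    {f : Smp X κ μ → α} (h : DepOn S R f) (g : α → β) : DepOn S R fun s => g (f s) :=
  fun a b h1 h2 => congrArg g (h a b h1 h2)

theorem DepOn.comp2 {α β γ : Sort*} {S S' : Finset (Cube μ)} {R R' : Finset (Cube κ × CE μ)}
    {f : Smp X κ μ → α} {f' : Smp X κ μ → β} (h : DepOn S R f) (h' : DepOn S' R' f') (g : α → β → γ) :
    DepOn (S ∪ S') (R ∪ R') fun s => g (f s) (f' s) := fun a b h1 h2 => by
  show g (f a) (f' a) = g (f b) (f' b)
  rw [h a b (fun z hz => h1 z (Finset.mem_union_left _ hz)) fun e he =>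
    h2 e (Finset.mem_union_left _ he), h' a b (fun z hz => h1 z (Finset.mem_union_right _ hz))
    fun e he => h2 e (Finset.mem_union_right _ he)]

theorem DepOn.comp2' {α β γ : Sort*} {S : Finset (Cube μ)} {R : Finset (Cube κ × CE μ)}
    {f : Smp X κ μ → α} {f' : Smp X κ μ → β} (h : DepOn S R f) (h' : DepOn S R f') (g : α → β → γ) :
    DepOn S R fun s => g (f s) (f' s) := fun a b h1 h2 => by
  show g (f a) (f' a) = g (f b) (f' b)
  rw [h a b h1 h2, h' a b h1 h2]

theorem DepOn.sum {ι : Type*} (A : Finset ι) {S : Finset (Cube μ)} {R : Finset (Cube κ × CE μ)}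
    {f : ι → Smp X κ μ → ℝ} (h : ∀ i ∈ A, DepOn S R (f i)) : DepOn S R fun s => ∑ i ∈ A, f i s :=
  fun a b h1 h2 => Finset.sum_congr rfl fun i hi => h i hi a b h1 h2

theorem DepOn.fib {α : Sort*} (z : Cube μ) (f : X → α) :
    DepOn (κ := κ) {z} ∅ fun s : Smp X κ μ => f (s.1 z) :=
  fun a b h1 _ => by
    show f (a.1 z) = f (b.1 z)
    rw [h1 z (Finset.mem_singleton_self z)]

theorem DepOn.rung {α : Sort*} (e : Cube κ × CE μ) (f : Bool → α) :
    DepOn (X := X) ∅ {e} fun s : Smp X κ μ => f (s.2 e) :=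
  fun a b _ h2 => by
    show f (a.2 e) = f (b.2 e)
    rw [h2 e (Finset.mem_singleton_self e)]

variable {cf : X → Cube κ → Option (Cube κ)} {Uf : X → Finset (Cube κ)}

theorem LT_dep {gp : μ → Fin T} (r : Fin T → ℕ) {l : List (Fin T)} (hl : l.Nodup)
    (st : X → Cube κ → Option (Cube κ)) (y : Cube κ) (z : Cube μ) :
    DepOn ((cos gp l z).erase z) (rgs κ gp l z) fun s : Smp X κ μ =>
      LT gp (fun z' => st (s.1 z')) (rgo s.2) r l y z := by
  intro a b h1 h2
  refine LT_congr gp r hl ?_ ?_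
  · intro z' hz' hne
    rw [h1 z' (Finset.mem_erase.2 ⟨hne, hz'⟩)]
  · intro y' z' hz' i hi
    unfold rgo
    rw [h2 _ (can_mem_rgs hz' hi y')]

theorem LB_dep {gp : μ → Fin T} (r : Fin T → ℕ) {l : List (Fin T)} (hl : l.Nodup)
    (y : Cube κ) (z : Cube μ) :
    DepOn ((cos gp l z).erase z) (rgs κ gp l z) fun s : Smp X κ μ => LB gp cf Uf r l s y z :=
  LT_dep r hl (stB cf Uf) y z

theorem LF_dep {gp : μ → Fin T} (r : Fin T → ℕ) {l : List (Fin T)} (hl : l.Nodup)
    (y : Cube κ) (z : Cube μ) :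
    DepOn ((cos gp l z).erase z) (rgs κ gp l z) fun s : Smp X κ μ => LF gp cf Uf r l s y z :=
  LT_dep r hl (stF cf Uf) y z

theorem Nm_dep {gp : μ → Fin T} (r : Fin T → ℕ) {l : List (Fin T)} (hl : l.Nodup)
    (y : Cube κ) (z : Cube μ) :
    DepOn (cos gp l z) (rgs κ gp l z) fun s : Smp X κ μ => Nm gp cf Uf r l s y z := by
  classical
  intro a b h1 h2
  show Nm gp cf Uf r l a y z = Nm gp cf Uf r l b y z
  unfold Nm
  congr 1
  ext e
  simp only [Finset.mem_filter, Finset.mem_univ, true_and]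
  by_cases he : e.2 ∈ cos gp l z
  · rw [h1 e.2 he]
    have : LB gp cf Uf r l a e.1 e.2 = LB gp cf Uf r l b e.1 e.2 := by
      refine LB_dep r hl e.1 e.2 a b (fun z' hz' => h1 z' ?_) fun w hw => h2 w ?_
      · rw [← cos_eq he]
        exact (Finset.mem_erase.1 hz').2
      · rw [← rgs_eq he]
        exact hw
    rw [this]
  · constructor
    · rintro ⟨-, h⟩
      exact absurd (cos_comm (LT_mem_cos gp _ _ r h)) he
    · rintro ⟨-, h⟩
      exact absurd (cos_comm (LT_mem_cos gp _ _ r h)) he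

/-! ### Expectations -/

variable [Fintype X] {ν : Cube μ → FP X} {p : ℝ} {h0 : 0 ≤ p} {h1 : p ≤ 1}

theorem law_indep {S S' : Finset (Cube μ)} {R R' : Finset (Cube κ × CE μ)} (hS : Disjoint S S')
    (hR : Disjoint R R') {f g : Smp X κ μ → ℝ} (hf : DepOn S R f) (hg : DepOn S' R' g) :
    (lawR κ ν p h0 h1).E (fun s => f s * g s) =
      (lawR κ ν p h0 h1).E f * (lawR κ ν p h0 h1).E g :=
  E_mul_indep2 ν (fun _ => ber p h0 h1) hS hR hf hg

theorem E_fib (z : Cube μ) (f : X → ℝ) :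
    (lawR κ ν p h0 h1).E (fun s => f (s.1 z)) = (ν z).E f := by
  unfold lawR
  rw [FP.E_prod]
  simp only [FP.E_const]
  exact FP.E_pi_single ν z f

theorem pr_fib (z : Cube μ) (A : X → Prop) :
    (lawR κ ν p h0 h1).pr (fun s => A (s.1 z)) = (ν z).pr A := by
  classical
  rw [FP.pr_eq, FP.pr_eq]
  exact E_fib z fun x => if A x then 1 else 0

open Classical in
theorem E_rgo (y : Cube κ) (z : Cube μ) (i : μ) :
    (lawR κ ν p h0 h1).E (fun s => if rgo s.2 y z i then 1 else 0) = p := by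
  unfold lawR rgo
  rw [FP.E_prod]
  refine Eq.trans (FP.E_congr _ fun a => ?_) (FP.E_const _ p)
  refine Eq.trans (FP.E_congr _ fun b => ?_)
    (bern_one (p := p) (h0 := h0) (h1 := h1) (y, (canE μ).e z i))
  by_cases hb : b (y, (canE μ).e z i) = true
  · rw [if_pos hb, if_pos hb]
  · rw [if_neg hb, if_neg hb]

/-- variance of a sum of pairwise uncorrelated variables -/
theorem var_pairwise {Ω ι : Type*} [Fintype Ω] (P : FP Ω) (A : Finset ι) (f : ι → Ω → ℝ)
    (hp : ∀ i ∈ A, ∀ j ∈ A, i ≠ j → P.E (fun ω => f i ω * f j ω) = P.E (f i) * P.E (f j)) :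
    P.E (fun ω => (∑ i ∈ A, f i ω - ∑ i ∈ A, P.E (f i)) ^ 2) ≤ ∑ i ∈ A, P.E fun ω => f i ω ^ 2 := by
  classical
  have h1 : ∀ ω, (∑ i ∈ A, f i ω - ∑ i ∈ A, P.E (f i)) ^ 2 =
      ∑ i ∈ A, ∑ j ∈ A, (f i ω - P.E (f i)) * (f j ω - P.E (f j)) := by
    intro ω
    rw [← Finset.sum_sub_distrib, sq, Finset.sum_mul_sum]
  rw [P.E_congr h1, FP.E_sum]
  refine Finset.sum_le_sum fun i hi => ?_
  rw [FP.E_sum]
  have h2 : ∀ j ∈ A, P.E (fun ω => (f i ω - P.E (f i)) * (f j ω - P.E (f j))) =
      P.E (fun ω => f i ω * f j ω) - P.E (f i) * P.E (f j) := by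
    intro j _
    have h3 : ∀ ω, (f i ω - P.E (f i)) * (f j ω - P.E (f j)) =
        (f i ω * f j ω - P.E (f j) * f i ω) - (P.E (f i) * f j ω - P.E (f i) * P.E (f j)) :=
      fun ω => by ring
    rw [P.E_congr h3, FP.E_sub, FP.E_sub, FP.E_sub, FP.E_mul_left, FP.E_mul_left, FP.E_const]
    ring
  rw [Finset.sum_congr rfl h2, ← Finset.add_sum_erase _ _ hi]
  have h4 : ∑ j ∈ A.erase i, (P.E (fun ω => f i ω * f j ω) - P.E (f i) * P.E (f j)) = 0 :=
    Finset.sum_eq_zero fun j hj => by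
      rw [hp i hi j (Finset.mem_of_mem_erase hj) (Finset.ne_of_mem_erase hj).symm, sub_self]
  rw [h4, add_zero]
  have h5 : 0 ≤ P.E (f i) * P.E (f i) := mul_self_nonneg _
  have h6 : P.E (fun ω => f i ω * f i ω) = P.E fun ω => f i ω ^ 2 :=
    P.E_congr fun ω => (sq _).symm
  rw [h6]
  linarith

end Supp

end Pool.Agent.LongCyc.Dense
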