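import Pool.Agent.LongCyc.Dense.BaseDef

/-!
# Dense regime, section 5: systems (definitions)

A system over the fresh directions `δ` : a random configuration `(c, U)` on `Cube (β ⊕ δ)`, built from independent base
fibres and independent rungs.
-/

set_option autoImplicit false

namespace Pool.Agent.LongCyc.Dense

open Finset

attribute [instance] BaseLaw.fin

section parity

variable (κ : Type) [DecidableEq κ] [Fintype κ] [Nonempty κ]

/-- uniform law on a parity class -/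
noncomputable def parL (b : Bool) : FP (Cube κ) where
  w τ := if par τ = b then 2 / 2 ^ Fintype.card κ else 0
  nonneg τ := by split_ifs <;> positivity
  sum_one := by
    obtain ⟨i⟩ := ‹Nonempty κ›
    have e : Equiv.Perm (Cube κ) := Function.Involutive.toPerm (flip i) (fun x => by simp)
    have h1 : ∑ τ : Cube κ, (if par τ = b then (2 : ℝ) / 2 ^ Fintype.card κ else 0) =
        ∑ τ : Cube κ, if par (flip i τ) = b then (2 : ℝ) / 2 ^ Fintype.card κ else 0 :=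
      (Equiv.sum_comp (Function.Involutive.toPerm (flip i) (fun x => by simp))
        (fun τ : Cube κ => if par τ = b then (2 : ℝ) / 2 ^ Fintype.card κ else 0)).symm
    have h2 : ∑ τ : Cube κ, ((if par τ = b then (2 : ℝ) / 2 ^ Fintype.card κ else 0) +
        if par (flip i τ) = b then (2 : ℝ) / 2 ^ Fintype.card κ else 0) = 2 := by
      have h3 : ∀ τ : Cube κ, ((if par τ = b then (2 : ℝ) / 2 ^ Fintype.card κ else 0) +
          if par (flip i τ) = b then (2 : ℝ) / 2 ^ Fintype.card κ else 0) = 2 / 2 ^ Fintype.card κ := by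
        intro τ
        rw [par_flip]
        cases par τ <;> cases b <;> simp
      rw [Finset.sum_congr rfl fun τ _ => h3 τ, Finset.sum_const, Finset.card_univ]
      have h4 : Fintype.card (Cube κ) = 2 ^ Fintype.card κ := by simp
      rw [h4, nsmul_eq_mul]
      push_cast
      field_simp
    rw [Finset.sum_add_distrib, ← h1] at h2
    linarith

end parity

section Lift

variable {β δ : Type} [DecidableEq β] [Fintype β] [DecidableEq δ] [Fintype δ] {nR : ℕ}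

/-- partial map on the product cube acting in the base fibres -/
def liftP (f : Cube δ → Cube β → Option (Cube β)) (x : Cube (β ⊕ δ)) : Option (Cube (β ⊕ δ)) :=
  (f (x ∘ Sum.inr) (x ∘ Sum.inl)).map fun y => jn y (x ∘ Sum.inr)

/-- good starts in the product cube -/
def lGd (D : Cube δ → BD β nR) (x : Cube (β ⊕ δ)) : Prop := x ∘ Sum.inl ∈ (D (x ∘ Sum.inr)).Gd

/-- **valid configuration** `(c, U)` over the base data `D` and the rungs `rg` -/
structure SysV (L : ℕ) (D : Cube δ → BD β nR) (rg : Cube β × CE δ → Bool)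
    (c : Cube (β ⊕ δ) → Option (Cube (β ⊕ δ))) (U : Finset (Cube (β ⊕ δ))) (Bd : ℕ) : Prop where
  inj : PInj c
  no2 : ∀ x x', c x = some x' → c x' ≠ some x
  edge : ∀ x x', c x = some x' →
    (x' ∘ Sum.inr = x ∘ Sum.inr ∧ (D (x ∘ Sum.inr)).c (x ∘ Sum.inl) = some (x' ∘ Sum.inl)) ∨
    ∃ i : δ, x' = flip (Sum.inr i) x ∧ rg (x ∘ Sum.inl, (canE δ).e (x ∘ Sum.inr) i) = true
  keep : ∀ z y y', (D z).c y = some y' → y ∉ (D z).U → c (jn y z) = some (jn y' z)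
  useb : ∀ x ∈ U, x ∘ Sum.inl ∈ (D (x ∘ Sum.inr)).U
  usef : ∀ x ∈ U, ∃ u, liftP (fun z => (D z).b) x = some u ∧ c x = some u ∧ lGd D u ∧
    Intact (liftP fun z => (D z).b) c L u
  useB : ∀ x ∈ U, ∃ u, lGd D u ∧ it (liftP fun z => (D z).b) (L - 1) u = some x ∧
    Intact (liftP fun z => (D z).b) c L u
  str : Stretch (liftP fun z => (D z).b) (lGd D) L c Bd

end Lift

section Sys

variable {β : Type} [DecidableEq β] [Fintype β] {nR : ℕ} {pb : ℝ} {hb0 : 0 ≤ pb} {hb1 : pb ≤ 1}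
  {u0 α0 ρ : ℝ} {L Vr Bd0 M0 : ℕ}

/-- law of the environment: independent base fibres, independent rungs -/
noncomputable def envL (B : BaseLaw β nR pb hb0 hb1 u0 α0 ρ L Vr Bd0 M0) (δ : Type) [DecidableEq δ] [Fintype δ]
    (p1 : ℝ) (h0 : 0 ≤ p1) (h1 : p1 ≤ 1) : FP ((Cube δ → B.Ω) × (Cube β × CE δ → Bool)) :=
  (FP.pi fun _ : Cube δ => B.μ).prod (bern p1 h0 h1 (Cube β × CE δ))

/-- **system** over the fresh directions `δ` -/
structure Sys (B : BaseLaw β nR pb hb0 hb1 u0 α0 ρ L Vr Bd0 M0) (δ : Type) [DecidableEq δ] [Fintype δ]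
    (p1 : ℝ) (h0 : 0 ≤ p1) (h1 : p1 ≤ 1) (Bd : ℕ) where
  Ω : Type
  fin : Fintype Ω
  P : FP Ω
  env : Ω → (Cube δ → B.Ω) × (Cube β × CE δ → Bool)
  law : ∀ F : ((Cube δ → B.Ω) × (Cube β × CE δ → Bool)) → ℝ, P.E (fun ω => F (env ω)) = (envL B δ p1 h0 h1).E F
  c : Ω → Cube (β ⊕ δ) → Option (Cube (β ⊕ δ))
  U : Ω → Finset (Cube (β ⊕ δ))
  val : ∀ ω, SysV L (fun z => B.bd ((env ω).1 z)) (env ω).2 (c ω) (U ω) Bd

attribute [instance] Sys.fin

variable {B : BaseLaw β nR pb hb0 hb1 u0 α0 ρ L Vr Bd0 M0} {δ : Type} [DecidableEq δ] [Fintype δ]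
  {p1 : ℝ} {h0 : 0 ≤ p1} {h1 : p1 ≤ 1} {Bd : ℕ}

open Classical in
/-- expected number of starts (not in the range) of parity `ε` -/
noncomputable def Sys.st (S : Sys B δ p1 h0 h1 Bd) (ε : Bool) : ℝ :=
  S.P.E fun ω => ((univ.filter fun x : Cube (β ⊕ δ) => par x = ε ∧ ∀ w, S.c ω w ≠ some x).card : ℝ)

open Classical in
/-- expected number of usable vertices of parity `ε` -/
noncomputable def Sys.us (S : Sys B δ p1 h0 h1 Bd) (ε : Bool) : ℝ :=
  S.P.E fun ω => ((univ.filter fun x : Cube (β ⊕ δ) => par x = ε ∧ x ∈ S.U ω).card : ℝ)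

/-- there is a system over `δ` with stretch constant `Bd`, density `u ε` of the starts of parity `ε`, density at least `α` of
the usable vertices -/
def HasSys (B : BaseLaw β nR pb hb0 hb1 u0 α0 ρ L Vr Bd0 M0) (δ : Type) [DecidableEq δ] [Fintype δ]
    (p1 : ℝ) (h0 : 0 ≤ p1) (h1 : p1 ≤ 1) (Bd : ℕ) (u : Bool → ℝ) (α : ℝ) : Prop :=
  ∃ S : Sys B δ p1 h0 h1 Bd, (∀ ε, S.st ε = u ε * (2 ^ (Fintype.card β + Fintype.card δ) / 2)) ∧
    ∀ ε, α * (2 ^ (Fintype.card β + Fintype.card δ) / 2) ≤ S.us ε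

end Sys

section Step

variable {β : Type} [DecidableEq β] [Fintype β] {nR : ℕ} {pb : ℝ} {hb0 : 0 ≤ pb} {hb1 : pb ≤ 1}
  {u0 α0 ρ : ℝ} {L Vr Bd0 M0 : ℕ} {B : BaseLaw β nR pb hb0 hb1 u0 α0 ρ L Vr Bd0 M0}
  {δ μ : Type} [DecidableEq δ] [Fintype δ] [DecidableEq μ] [Fintype μ]

/-- the point of `Cube (β ⊕ (δ ⊕ μ))` over `x : Cube (β ⊕ δ)` and `z : Cube μ` -/
def jn3 (x : Cube (β ⊕ δ)) (z : Cube μ) : Cube (β ⊕ (δ ⊕ μ)) :=
  Sum.elim (x ∘ Sum.inl) (Sum.elim (x ∘ Sum.inr) z)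

/-- first component -/
def pr3 (x : Cube (β ⊕ (δ ⊕ μ))) : Cube (β ⊕ δ) := Sum.elim (x ∘ Sum.inl) (x ∘ Sum.inr ∘ Sum.inl)

/-- second component -/
def ps3 (x : Cube (β ⊕ (δ ⊕ μ))) : Cube μ := x ∘ Sum.inr ∘ Sum.inr

/-- fibre field of a system: configuration and translation -/
noncomputable def nuS {Ω κ : Type} [Fintype Ω] [DecidableEq κ] [Fintype κ] [Nonempty κ] (P : FP Ω) (z : Cube μ) :
    FP (Ω × Cube κ) := P.prod (parL κ (par z))

/-- action on the fibre data -/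
def actS {Ω κ : Type} (η : Cube κ) : (Ω × Cube κ) ≃ (Ω × Cube κ) where
  toFun q := (q.1, xr q.2 η)
  invFun q := (q.1, xr q.2 η)
  left_inv q := by simp
  right_inv q := by simp

/-- environment of the joined system -/
noncomputable def joinEnv {Ω : Type} (env : Ω → (Cube δ → B.Ω) × (Cube β × CE δ → Bool))
    (s : Smp (Ω × Cube (β ⊕ δ)) (β ⊕ δ) μ) : (Cube (δ ⊕ μ) → B.Ω) × (Cube β × CE (δ ⊕ μ) → Bool) :=
  (fun q => B.act ((s.1 (q ∘ Sum.inr)).2 ∘ Sum.inl)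
      ((env (s.1 (q ∘ Sum.inr)).1).1 (xr (q ∘ Sum.inl) ((s.1 (q ∘ Sum.inr)).2 ∘ Sum.inr))),
    fun e => match e.2.1.2 with
      | Sum.inl i => (env (s.1 (e.2.1.1 ∘ Sum.inr)).1).2 (xr e.1 ((s.1 (e.2.1.1 ∘ Sum.inr)).2 ∘ Sum.inl),
          (canE δ).e (xr (e.2.1.1 ∘ Sum.inl) ((s.1 (e.2.1.1 ∘ Sum.inr)).2 ∘ Sum.inr)) i)
      | Sum.inr m => s.2 (jn e.1 (e.2.1.1 ∘ Sum.inl), (canE μ).e (e.2.1.1 ∘ Sum.inr) m))

/-- base data of the joined system -/
def jD (D : Cube μ → Cube δ → BD β nR) (q : Cube (δ ⊕ μ)) : BD β nR := D (q ∘ Sum.inr) (q ∘ Sum.inl)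

/-- rungs of the joined system -/
def jrg (rg : Cube μ → Cube β × CE δ → Bool) (fr : Cube (β ⊕ δ) × CE μ → Bool) (e : Cube β × CE (δ ⊕ μ)) : Bool :=
  match e.2.1.2 with
  | Sum.inl i => rg (e.2.1.1 ∘ Sum.inr) (e.1, (canE δ).e (e.2.1.1 ∘ Sum.inl) i)
  | Sum.inr m => fr (jn e.1 (e.2.1.1 ∘ Sum.inl), (canE μ).e (e.2.1.1 ∘ Sum.inr) m)

end Step

end Pool.Agent.LongCyc.Dense
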