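import Pool.Agent.LongCyc.Dense.RoundPar

/-!
# Dense regime, section 5: the iteration of the rounds, numerics (abstract form)
-/

set_option autoImplicit false

namespace Pool.Agent.LongCyc.Dense

open Finset

theorem RPar.mono_alpha {μ : Type} [DecidableEq μ] [Fintype μ] {T : ℕ} {gp : μ → Fin T} {t L : ℕ}
    {r : Fin T → ℕ} {p v α α' : ℝ} (h : RPar gp t L r p v α) (hp : 0 ≤ p) (hα : α ≤ α') :
    RPar gp t L r p v α' where
  hT := h.hT
  ht := h.ht
  hv := h.hv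
  hv1 := h.hv1
  hL := h.hL
  hTv := h.hTv
  hr := h.hr
  h16 := fun a => (h.h16 a).trans (by gcongr)
  hroot := fun a ha => (h.hroot a ha).trans (by gcongr)
  symr := h.symr
  hR := h.hR
  hχ := h.hχ

/-- there are at most as many groups as directions -/
theorem RPar.T_le {n T : ℕ} {gp : Fin n → Fin T} {t L : ℕ}
    {r : Fin T → ℕ} {p v α : ℝ} (h : RPar gp t L r p v α) : T ≤ n := by
  have hs : Function.Surjective gp := by
    intro a
    have h1 := h.h16 a
    have h2 : (1 : ℝ) ≤ r a := by exact_mod_cast h.hr a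
    by_contra hne
    push Not at hne
    have h3 : gsz gp a = 0 := by
      unfold gsz
      rw [card_eq_zero, filter_eq_empty_iff]
      intro x _
      exact hne x
    rw [h3] at h1
    simp at h1
    linarith
  simpa using Fintype.card_le_of_surjective gp hs

/-- treatment of one parity -/
theorem sysIter_one {α C v0 p A : ℝ} {d : ℕ} (hα : 0 < α) (hd : 2 ≤ d)
    (hp : 0 < p) (hp1 : p ≤ 1 / 10) (hdv : 1 / (d : ℝ) ^ 6 ≤ v0) (hC : 0 < C)
    (hCA : C / (100 * p) * A ≤ d)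
    (hrp : ∀ (p v : ℝ) (L : ℕ), 0 < p → p ≤ 1 / 10 → 0 < v → v ≤ v0 → (L + 1 : ℝ) * v ≤ 1 →
      ∃ (n T t : ℕ) (gp : Fin n → Fin T) (r : Fin T → ℕ), RPar gp t L r p v (α / 2) ∧
        (n : ℝ) ≤ C * Real.log (1 / v) / p)
    (H : ℕ → ℕ → (Bool → ℝ) → ℝ → Prop)
    (mono : ∀ k Bd Bd' u a a', H k Bd u a → Bd ≤ Bd' → a' ≤ a → H k Bd' u a')
    (step : ∀ k Bd u a, d ^ 6 - 1 ≤ Bd → 0 < a → a ≤ 1 → H k Bd u a → ∀ ε v, u ε = v ^ 100 →
      ∀ m T t (gp : Fin m → Fin T) r, RPar gp t (d ^ 6 - 1) r p v a →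
      ∃ u' : ℝ, 0 ≤ u' ∧ u' ≤ v ^ 104 ∧ H (k + m) (3 * Bd + (T - 1) * (d ^ 6 - 1))
        (Function.update u ε u') (a - (2 * ((d ^ 6 - 1 : ℕ) : ℝ) + 1) * T * v ^ 100))
    (ε : Bool) :
    ∀ (N k Bd : ℕ) (u : Bool → ℝ) (a : ℝ), H k Bd u a → d ^ 7 ≤ Bd → a ≤ 1 →
      α / 2 + N * (2 / (d : ℝ) ^ 588) ≤ a → 0 ≤ u ε → u ε ≤ 1 / (d : ℝ) ^ 600 →
      (Real.exp (-A) < u ε → A ≤ Real.log (1 / u ε) * 1.04 ^ N) →
      ∃ (k' : ℕ) (u' : Bool → ℝ), H k' (4 ^ N * Bd) u' (a - N * (2 / (d : ℝ) ^ 588)) ∧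
        0 ≤ u' ε ∧ u' ε ≤ Real.exp (-A) ∧ u' (!ε) = u (!ε) ∧
        (k' : ℝ) ≤ k + (if Real.exp (-A) < u ε then
          C / (100 * p) * (26 * A - 25 * Real.log (1 / u ε)) else 0) := by
  have hd1 : (1 : ℝ) ≤ d := by exact_mod_cast (by omega : 1 ≤ d)
  have hd0 : (0 : ℝ) < d := by linarith
  have hdpow : ∀ j : ℕ, (1 : ℝ) ≤ (d : ℝ) ^ j := fun j => one_le_pow₀ hd1
  have hd6 : 1 ≤ d ^ 6 := Nat.one_le_pow _ _ (by omega)
  have hK : 0 < C / (100 * p) := by positivity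
  intro N
  induction N with
  | zero =>
    intro k Bd u a hH hBd ha1 haα hu0 hu1 hlog
    have hle : u ε ≤ Real.exp (-A) := by
      by_contra hlt
      push Not at hlt
      have h1 := hlog hlt
      have hupos : 0 < u ε := lt_trans (Real.exp_pos _) hlt
      rw [pow_zero, mul_one, one_div, Real.log_inv] at h1
      have h2 : -A < Real.log (u ε) := by
        rw [Real.lt_log_iff_exp_lt hupos]; exact hlt
      linarith
    refine ⟨k, u, by simpa using hH, hu0, hle, rfl, ?_⟩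
    rw [if_neg (not_lt.mpr hle)]; simp
  | succ N ih =>
    intro k Bd u a hH hBd ha1 haα hu0 hu1 hlog
    have hloss0 : (0 : ℝ) ≤ 2 / (d : ℝ) ^ 588 := by positivity
    by_cases hlt : Real.exp (-A) < u ε
    · have hupos : 0 < u ε := lt_trans (Real.exp_pos _) hlt
      -- the parameter v
      set v : ℝ := (u ε) ^ ((1 : ℝ) / 100) with hvdef
      have hvpos : 0 < v := Real.rpow_pos_of_pos hupos _
      have hv100 : u ε = v ^ 100 := by
        rw [hvdef, ← Real.rpow_natCast, ← Real.rpow_mul hupos.le]; norm_num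
      have hvle : v ≤ 1 / (d : ℝ) ^ 6 := by
        have h1 : v ^ 100 ≤ (1 / (d : ℝ) ^ 6) ^ 100 := by
          rw [← hv100]
          refine hu1.trans (le_of_eq ?_)
          rw [div_pow, one_pow, ← pow_mul]
        exact le_of_pow_le_pow_left₀ (by norm_num) (by positivity) h1
      have hLcast : (((d ^ 6 - 1 : ℕ) : ℝ) + 1) = (d : ℝ) ^ 6 := by
        rw [Nat.cast_sub hd6]; push_cast; ring
      have hLv : (((d ^ 6 - 1 : ℕ) : ℝ) + 1) * v ≤ 1 := by
        rw [hLcast]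
        calc (d : ℝ) ^ 6 * v ≤ (d : ℝ) ^ 6 * (1 / (d : ℝ) ^ 6) := by gcongr
          _ = 1 := by field_simp
      obtain ⟨m, T, t, gp, r, hR, hm⟩ := hrp p v (d ^ 6 - 1) hp hp1 hvpos (hvle.trans hdv) hLv
      have hlogv : Real.log (1 / u ε) = 100 * Real.log (1 / v) := by
        rw [hv100, one_div, one_div, ← inv_pow, Real.log_pow]; norm_num
      set ℓ : ℝ := Real.log (1 / u ε) with hℓ
      have hℓA : ℓ < A := by
        have h2 : -A < Real.log (u ε) := by
          rw [Real.lt_log_iff_exp_lt hupos]; exact hlt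
        rw [hℓ, one_div, Real.log_inv]; linarith
      have hm' : (m : ℝ) ≤ C / (100 * p) * ℓ := by
        rw [hlogv]
        refine hm.trans (le_of_eq ?_)
        field_simp
      have hmd : (m : ℝ) ≤ d := hm'.trans ((mul_le_mul_of_nonneg_left hℓA.le hK.le).trans hCA)
      have hmd' : m ≤ d := by exact_mod_cast hmd
      have hTd : T ≤ d := hR.T_le.trans hmd'
      have hapos : 0 < a := by
        have : (0 : ℝ) ≤ ((N + 1 : ℕ) : ℝ) * (2 / (d : ℝ) ^ 588) := by positivity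
        linarith
      have haα' : α / 2 ≤ a := by
        have : (0 : ℝ) ≤ ((N + 1 : ℕ) : ℝ) * (2 / (d : ℝ) ^ 588) := by positivity
        linarith
      have hBd6 : d ^ 6 - 1 ≤ Bd := by
        have : d ^ 6 ≤ d ^ 7 := Nat.pow_le_pow_right (by omega) (by norm_num)
        omega
      obtain ⟨w, hw0, hw1, hHw⟩ := step k Bd u a hBd6 hapos ha1 hH ε v hv100 m T t gp r
        (hR.mono_alpha hp.le haα')
      -- loss of the usable density
      have hloss : (2 * ((d ^ 6 - 1 : ℕ) : ℝ) + 1) * T * v ^ 100 ≤ 2 / (d : ℝ) ^ 588 := by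
        have h1 : (2 * ((d ^ 6 - 1 : ℕ) : ℝ) + 1) ≤ 2 * (d : ℝ) ^ 6 := by
          have := hLcast; linarith
        have h2 : (T : ℝ) * v ≤ 1 := hR.hTv
        have h3 : v ^ 99 ≤ (1 / (d : ℝ) ^ 6) ^ 99 := pow_le_pow_left₀ hvpos.le hvle 99
        have h4 : (2 * ((d ^ 6 - 1 : ℕ) : ℝ) + 1) * T * v ^ 100
            = (2 * ((d ^ 6 - 1 : ℕ) : ℝ) + 1) * ((T : ℝ) * v) * v ^ 99 := by ring
        rw [h4]
        calc (2 * ((d ^ 6 - 1 : ℕ) : ℝ) + 1) * ((T : ℝ) * v) * v ^ 99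
            ≤ (2 * (d : ℝ) ^ 6) * 1 * (1 / (d : ℝ) ^ 6) ^ 99 := by
              gcongr
          _ = 2 / (d : ℝ) ^ 588 := by
              rw [div_pow, one_pow, ← pow_mul]
              field_simp

      -- growth of the stretch constant
      have hBd4 : 3 * Bd + (T - 1) * (d ^ 6 - 1) ≤ 4 * Bd := by
        have h1 : (T - 1) * (d ^ 6 - 1) ≤ d * d ^ 6 :=
          Nat.mul_le_mul (by omega) (by omega)
        have h2 : d * d ^ 6 = d ^ 7 := by ring
        omega
      have hH2 : H (k + m) (4 * Bd) (Function.update u ε w) (a - 2 / (d : ℝ) ^ 588) :=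
        mono _ _ _ _ _ _ hHw hBd4 (by linarith)
      have hNcast : ((N + 1 : ℕ) : ℝ) = N + 1 := by push_cast; ring
      have hw600 : w ≤ 1 / (d : ℝ) ^ 600 := by
        refine hw1.trans ?_
        have h1 : v ^ 104 ≤ v ^ 100 :=
          pow_le_pow_of_le_one hvpos.le (hR.hv1.trans (by norm_num)) (by norm_num)
        rw [hv100] at hu1
        exact h1.trans hu1
      have hlog2 : Real.exp (-A) < (Function.update u ε w) ε →
          1.04 * ℓ ≤ Real.log (1 / (Function.update u ε w) ε) := by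
        intro h1
        rw [Function.update_self] at h1 ⊢
        have hwpos : 0 < w := lt_trans (Real.exp_pos _) h1
        have h2 : Real.log w ≤ Real.log (v ^ 104) := Real.log_le_log hwpos hw1
        rw [Real.log_pow] at h2
        rw [one_div, Real.log_inv] at hlogv ⊢
        push_cast at h2
        rw [hlogv]
        linarith
      obtain ⟨k', u', hH', hu'0, hu'1, hu'2, hk'⟩ := ih (k + m) (4 * Bd) (Function.update u ε w)
        (a - 2 / (d : ℝ) ^ 588) hH2 (by omega) (by linarith)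
        (by rw [hNcast] at haα; linarith) (by rw [Function.update_self]; exact hw0)
        (by rw [Function.update_self]; exact hw600)
        (by
          intro h1
          have h2 := hlog2 h1
          have h3 := hlog hlt
          refine h3.trans ?_
          rw [pow_succ]
          calc ℓ * ((1.04 : ℝ) ^ N * 1.04) = (1.04 * ℓ) * 1.04 ^ N := by ring
            _ ≤ Real.log (1 / (Function.update u ε w) ε) * 1.04 ^ N := by gcongr)
      refine ⟨k', u', ?_, hu'0, hu'1, ?_, ?_⟩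
      · have h1 : 4 ^ (N + 1) * Bd = 4 ^ N * (4 * Bd) := by ring
        have h2 : a - ((N + 1 : ℕ) : ℝ) * (2 / (d : ℝ) ^ 588)
            = a - 2 / (d : ℝ) ^ 588 - N * (2 / (d : ℝ) ^ 588) := by rw [hNcast]; ring
        rw [h1, h2]; exact hH'
      · rw [hu'2, Function.update_of_ne (by cases ε <;> simp)]
      · rw [if_pos hlt]
        push_cast at hk'
        by_cases h1 : Real.exp (-A) < (Function.update u ε w) ε
        · rw [if_pos h1] at hk'
          have h2 := hlog2 h1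
          have h3 : C / (100 * p) * (26 * A - 25 * Real.log (1 / (Function.update u ε w) ε))
              ≤ C / (100 * p) * (26 * A - 25 * (1.04 * ℓ)) := by gcongr
          have h4 : C / (100 * p) * (26 * A - 25 * (1.04 * ℓ)) + C / (100 * p) * ℓ
              = C / (100 * p) * (26 * A - 25 * ℓ) := by ring
          linarith
        · rw [if_neg h1] at hk'
          have h3 : C / (100 * p) * ℓ ≤ C / (100 * p) * (26 * A - 25 * ℓ) := by
            apply mul_le_mul_of_nonneg_left _ hK.le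
            linarith
          linarith
    · have hle : u ε ≤ Real.exp (-A) := not_lt.mp hlt
      refine ⟨k, u, mono _ _ _ _ _ _ hH ?_ ?_, hu0, hle, rfl, ?_⟩
      · exact Nat.le_mul_of_pos_left _ (by positivity)
      · have : (0 : ℝ) ≤ ((N + 1 : ℕ) : ℝ) * (2 / (d : ℝ) ^ 588) := by positivity
        linarith
      · rw [if_neg hlt]; simp

/-- **the iteration, abstract form** -/
theorem sysIter_abs {α : ℝ} (hα : 0 < α) (hα1 : α ≤ 1) :
    ∃ (c : ℝ) (d0 : ℕ), 0 < c ∧ ∀ (d n Bd0 : ℕ) (p : ℝ), d0 ≤ d → 0 < p → p ≤ 1 / 10 → 5 * n ≤ d →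
      ∀ H : ℕ → ℕ → (Bool → ℝ) → ℝ → Prop,
      (∃ u : Bool → ℝ, (∀ ε, 0 ≤ u ε ∧ u ε ≤ 1 / (d : ℝ) ^ 600) ∧ H 0 Bd0 u α) →
      (∀ k Bd Bd' u a a', H k Bd u a → Bd ≤ Bd' → a' ≤ a → H k Bd' u a') →
      (∀ k m Bd u a, H k Bd u a → H (k + m) Bd u a) →
      (∀ k Bd u a, d ^ 6 - 1 ≤ Bd → 0 < a → a ≤ 1 → H k Bd u a → ∀ ε v, u ε = v ^ 100 →
        ∀ m T t (gp : Fin m → Fin T) r, RPar gp t (d ^ 6 - 1) r (p / 5) v a →
        ∃ u' : ℝ, 0 ≤ u' ∧ u' ≤ v ^ 104 ∧ H (k + m) (3 * Bd + (T - 1) * (d ^ 6 - 1))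
          (Function.update u ε u') (a - (2 * ((d ^ 6 - 1 : ℕ) : ℝ) + 1) * T * v ^ 100)) →
      ∃ u : Bool → ℝ, (∀ ε, 0 ≤ u ε ∧ u ε ≤ Real.exp (-c * (p * d))) ∧
        H (d - n) (d ^ 100 * (Bd0 + 1)) u (α / 2) := by
  obtain ⟨v0, hv0, C0, hrp0⟩ := exists_rpar (half_pos hα) (by linarith : α / 2 ≤ 1)
  set C : ℝ := max C0 1 with hCdef
  have hC1 : 1 ≤ C := le_max_right _ _
  have hC : 0 < C := by linarith
  have hrp : ∀ (p v : ℝ) (L : ℕ), 0 < p → p ≤ 1 / 10 → 0 < v → v ≤ v0 → (L + 1 : ℝ) * v ≤ 1 →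
      ∃ (n T t : ℕ) (gp : Fin n → Fin T) (r : Fin T → ℕ), RPar gp t L r p v (α / 2) ∧
        (n : ℝ) ≤ C * Real.log (1 / v) / p := by
    intro p v L h1 h2 h3 h4 h5
    obtain ⟨n, T, t, gp, r, hR, hn⟩ := hrp0 p v L h1 h2 h3 h4 h5
    refine ⟨n, T, t, gp, r, hR, hn.trans ?_⟩
    have h6 : 0 ≤ Real.log (1 / v) := by
      apply Real.log_nonneg
      rw [le_div_iff₀ h3]
      linarith [hR.hv1]
    gcongr
    exact le_max_left _ _
  obtain ⟨d1, hd1⟩ := exists_nat_ge (144 / α)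
  obtain ⟨d2, hd2⟩ := exists_nat_ge (1 / v0)
  refine ⟨1 / (6 * C), max 16 (max d1 d2), by positivity, ?_⟩
  intro d n Bd0 p hd hp hp1 hn H hstart mono ext step
  have hd16 : 16 ≤ d := (le_max_left _ _).trans hd
  have hdd1 : d1 ≤ d := ((le_max_left _ _).trans (le_max_right _ _)).trans hd
  have hdd2 : d2 ≤ d := ((le_max_right _ _).trans (le_max_right _ _)).trans hd
  have hdR1 : (1 : ℝ) ≤ d := by exact_mod_cast (by omega : 1 ≤ d)
  have hdR0 : (0 : ℝ) < d := by linarith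
  have hdα : 144 / α ≤ d := hd1.trans (by exact_mod_cast hdd1)
  have hdv0 : 1 / v0 ≤ d := hd2.trans (by exact_mod_cast hdd2)
  set A : ℝ := 1 / (6 * C) * (p * d) with hAdef
  have hApos : 0 < A := by positivity
  have hp5 : 0 < p / 5 := by positivity
  have hKA : C / (100 * (p / 5)) * A = d / 120 := by
    rw [hAdef]; field_simp; norm_num
  have hdv : 1 / (d : ℝ) ^ 6 ≤ v0 := by
    have h1 : (d : ℝ) ≤ (d : ℝ) ^ 6 := le_self_pow₀ hdR1 (by norm_num)
    rw [div_le_iff₀ hv0] at hdv0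
    rw [div_le_iff₀ (by positivity)]
    calc (1 : ℝ) ≤ d * v0 := hdv0
      _ ≤ (d : ℝ) ^ 6 * v0 := by gcongr
      _ = v0 * (d : ℝ) ^ 6 := by ring
  -- the number of rounds
  set M : ℕ := Nat.clog 2 d with hM
  have hMge : d ≤ 2 ^ M := Nat.le_pow_clog one_lt_two d
  have hMlt : 2 ^ (M - 1) < d := by
    have := Nat.pow_pred_clog_lt_self one_lt_two (by omega : 1 < d)
    simpa [Nat.pred_eq_sub_one] using this
  have hM1 : 1 ≤ M := by
    by_contra h
    have : M = 0 := by omega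
    rw [this] at hMge
    omega
  have hM2 : 2 ^ M ≤ 2 * d := by
    have h1 : 2 ^ M = 2 * 2 ^ (M - 1) := by
      rw [← pow_succ']; congr 1; omega
    omega
  have hMd : M ≤ d := by
    have h1 : M - 1 < 2 ^ (M - 1) := Nat.lt_two_pow_self
    omega
  set N : ℕ := 18 * M with hN
  have h104 : (d : ℝ) ≤ 1.04 ^ N := by
    have h1 : (2 : ℝ) ≤ 1.04 ^ 18 := by norm_num
    have h2 : (d : ℝ) ≤ 2 ^ M := by exact_mod_cast hMge
    rw [hN, pow_mul]
    exact h2.trans (by gcongr)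
  have h16N : 4 ^ N * 4 ^ N ≤ 2 ^ 72 * d ^ 72 := by
    have h1 : 4 ^ N * 4 ^ N = (2 ^ M) ^ 72 := by
      rw [← mul_pow, hN, ← pow_mul, show (4 * 4 : ℕ) = 2 ^ 4 by norm_num, ← pow_mul]
      congr 1; ring
    rw [h1]
    calc (2 ^ M) ^ 72 ≤ (2 * d) ^ 72 := Nat.pow_le_pow_left hM2 72
      _ = 2 ^ 72 * d ^ 72 := by rw [mul_pow]
  have hNloss : 2 * ((N : ℝ) * (2 / (d : ℝ) ^ 588)) ≤ α / 2 := by
    have h1 : (N : ℝ) ≤ 18 * d := by
      rw [hN]; push_cast
      have : (M : ℝ) ≤ d := by exact_mod_cast hMd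
      linarith
    have h2 : (72 : ℝ) / d ≤ α / 2 := by
      rw [div_le_iff₀ hα] at hdα
      rw [div_le_iff₀ hdR0]
      linarith
    have h3 : 2 * ((N : ℝ) * (2 / (d : ℝ) ^ 588)) ≤ 2 * ((18 * d) * (2 / (d : ℝ) ^ 588)) := by
      gcongr
    have h4 : 2 * ((18 * (d : ℝ)) * (2 / (d : ℝ) ^ 588)) = 72 / (d : ℝ) ^ 587 := by
      field_simp; norm_num
    have h5 : (72 : ℝ) / (d : ℝ) ^ 587 ≤ 72 / d := by
      apply div_le_div_of_nonneg_left (by norm_num) hdR0
      exact le_self_pow₀ hdR1 (by norm_num)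
    linarith
  have hlog : ∀ x : ℝ, 0 ≤ x → x ≤ 1 / (d : ℝ) ^ 600 → Real.exp (-A) < x →
      A ≤ Real.log (1 / x) * 1.04 ^ N ∧ 0 ≤ Real.log (1 / x) := by
    intro x hx0 hx1 hx2
    have hxpos : 0 < x := lt_trans (Real.exp_pos _) hx2
    have h1 : (1 : ℝ) ≤ Real.log (1 / x) := by
      have h2 : (d : ℝ) ^ 600 ≤ 1 / x := by
        rw [le_div_iff₀ hxpos]
        calc (d : ℝ) ^ 600 * x ≤ (d : ℝ) ^ 600 * (1 / (d : ℝ) ^ 600) := by gcongr
          _ = 1 := by field_simp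
      have h3 : Real.log ((d : ℝ) ^ 600) ≤ Real.log (1 / x) :=
        Real.log_le_log (by positivity) h2
      rw [Real.log_pow] at h3
      have h4 : Real.log 2 ≤ Real.log d :=
        Real.log_le_log (by norm_num) (by exact_mod_cast (by omega : 2 ≤ d))
      have h5 := Real.log_two_gt_d9
      push_cast at h3
      linarith
    have h2 : A ≤ d := by
      rw [hAdef]
      have h3 : 1 / (6 * C) ≤ 1 := by
        rw [div_le_one (by positivity)]; linarith
      have h4 : p * d ≤ 1 * d := by gcongr; linarith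
      calc 1 / (6 * C) * (p * d) ≤ 1 * (1 * d) := by gcongr
        _ = d := by ring
    refine ⟨?_, by linarith⟩
    calc A ≤ 1 * (d : ℝ) := by linarith
      _ ≤ Real.log (1 / x) * 1.04 ^ N := by gcongr
  have hif : ∀ x : ℝ, 0 ≤ x → x ≤ 1 / (d : ℝ) ^ 600 →
      (if Real.exp (-A) < x then C / (100 * (p / 5)) * (26 * A - 25 * Real.log (1 / x)) else 0)
        ≤ 26 * (d / 120) := by
    intro x hx0 hx1
    split_ifs with h
    · have h1 := (hlog x hx0 hx1 h).2
      have h2 : C / (100 * (p / 5)) * (26 * A - 25 * Real.log (1 / x))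
          ≤ C / (100 * (p / 5)) * (26 * A) := by
        apply mul_le_mul_of_nonneg_left _ (by positivity)
        linarith
      rw [← hKA]
      linarith
    · positivity
  have key := fun ε => sysIter_one (v0 := v0) hα (by omega : 2 ≤ d) hp5 (by linarith) hdv hC
    (by rw [hKA]; linarith) hrp H mono step ε N
  obtain ⟨u, hu, hH0⟩ := hstart
  have hH1 : H 0 (Bd0 + d ^ 7) u α := mono _ _ _ _ _ _ hH0 (by omega) le_rfl
  obtain ⟨k1, u1, hK1, h10, h11, h12, hk1⟩ := key true 0 (Bd0 + d ^ 7) u α hH1 (by omega) hα1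
    (by
      have : (0 : ℝ) ≤ (N : ℝ) * (2 / (d : ℝ) ^ 588) := by positivity
      linarith) (hu true).1 (hu true).2
    (fun h => (hlog _ (hu true).1 (hu true).2 h).1)
  have h1f : u1 false = u false := by simpa using h12
  obtain ⟨k2, u2, hK2, h20, h21, h22, hk2⟩ := key false k1 (4 ^ N * (Bd0 + d ^ 7)) u1
    (α - N * (2 / (d : ℝ) ^ 588)) hK1
    (le_trans (by omega) (Nat.le_mul_of_pos_left _ (by positivity)))
    (by
      have : (0 : ℝ) ≤ (N : ℝ) * (2 / (d : ℝ) ^ 588) := by positivity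
      linarith) (by linarith) (by rw [h1f]; exact (hu false).1) (by rw [h1f]; exact (hu false).2)
    (fun h => (hlog _ (by rw [h1f]; exact (hu false).1) (by rw [h1f]; exact (hu false).2) h).1)
  have h2t : u2 true = u1 true := by simpa using h22
  have hkd : (k2 : ℝ) ≤ 52 * (d / 120) := by
    have h1 := hif _ (hu true).1 (hu true).2
    have h2 := hif (u1 false) (by rw [h1f]; exact (hu false).1) (by rw [h1f]; exact (hu false).2)
    push_cast at hk1
    linarith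
  have hkdn : k2 ≤ d - n := by
    have h1 : (k2 : ℝ) ≤ d / 2 := by linarith
    have h2 : 2 * (k2 : ℝ) ≤ d := by linarith
    have h3 : 2 * k2 ≤ d := by exact_mod_cast h2
    omega
  have hBdfin : 4 ^ N * (4 ^ N * (Bd0 + d ^ 7)) ≤ d ^ 100 * (Bd0 + 1) := by
    have h1 : Bd0 + d ^ 7 ≤ d ^ 7 * (Bd0 + 1) := by
      have : 1 ≤ d ^ 7 := Nat.one_le_pow _ _ (by omega)
      have h2 : Bd0 * 1 ≤ Bd0 * d ^ 7 := Nat.mul_le_mul_left _ this
      calc Bd0 + d ^ 7 = Bd0 * 1 + d ^ 7 := by ring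
        _ ≤ Bd0 * d ^ 7 + d ^ 7 := by omega
        _ = d ^ 7 * (Bd0 + 1) := by ring
    have h2 : 2 ^ 72 ≤ d ^ 21 := by
      calc 2 ^ 72 ≤ 16 ^ 21 := by norm_num
        _ ≤ d ^ 21 := Nat.pow_le_pow_left hd16 21
    calc 4 ^ N * (4 ^ N * (Bd0 + d ^ 7)) = (4 ^ N * 4 ^ N) * (Bd0 + d ^ 7) := by ring
      _ ≤ (2 ^ 72 * d ^ 72) * (d ^ 7 * (Bd0 + 1)) := Nat.mul_le_mul h16N h1
      _ ≤ (d ^ 21 * d ^ 72) * (d ^ 7 * (Bd0 + 1)) := by gcongr
      _ = d ^ 100 * (Bd0 + 1) := by ring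
  refine ⟨u2, ?_, ?_⟩
  · have hexp : Real.exp (-A) = Real.exp (-(1 / (6 * C)) * (p * d)) := by
      rw [hAdef]; congr 1; ring
    rw [← hexp]
    intro ε
    cases ε with
    | false => exact ⟨h20, h21⟩
    | true => rw [h2t]; exact ⟨h10, h11⟩
  · have h1 := ext k2 (d - n - k2) _ _ _ hK2
    rw [show k2 + (d - n - k2) = d - n by omega] at h1
    exact mono _ _ _ _ _ _ h1 hBdfin (by linarith)

end Pool.Agent.LongCyc.Dense
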