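import Pool.Agent.LongCyc.Dense.SysDef
import Pool.Agent.LongCyc.Dense.Jn3

/-!
# Dense regime: trivial operations on systems

Monotonicity, extension by fresh directions without surgery, renaming, the initial system.
-/

set_option autoImplicit false
set_option linter.unusedSectionVars false

namespace Pool.Agent.LongCyc.Dense

open Finset

/-! ### Iterates, stretches -/

section mono

variable {V : Type*}

theorem st5_it_ne_none {c : V → Option V} {y : V} {k l : ℕ} (hkl : k ≤ l) (h : it c l y ≠ none) :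
    it c k y ≠ none := by
  induction hkl with
  | refl => exact h
  | step hkm ih =>
    apply ih
    intro h'
    apply h
    simp [it, h']

theorem st5_stretch_mono {b : V → Option V} {Good : V → Prop} {L : ℕ} {c : V → Option V} {Bd Bd' : ℕ}
    (h : Stretch b Good L c Bd) (hB : Bd ≤ Bd') : Stretch b Good L c Bd' := by
  intro y hy
  obtain ⟨j, u, h1, h2⟩ := h y (st5_it_ne_none (by omega) hy)
  exact ⟨j, u, by omega, h2⟩

end mono

section S5mono

variable {β : Type} [DecidableEq β] [Fintype β] {nR : ℕ} {pb : ℝ} {hb0 : 0 ≤ pb} {hb1 : pb ≤ 1}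
  {u0 α0 ρ : ℝ} {L Vr Bd0 M0 : ℕ} {B : BaseLaw β nR pb hb0 hb1 u0 α0 ρ L Vr Bd0 M0}
  {δ μ : Type} [DecidableEq δ] [Fintype δ] [DecidableEq μ] [Fintype μ] {p1 : ℝ} {h0 : 0 ≤ p1} {h1 : p1 ≤ 1} {Bd : ℕ}

theorem HasSys.mono {u : Bool → ℝ} {α α' : ℝ} {Bd' : ℕ} (hS : HasSys B δ p1 h0 h1 Bd u α) (hBd : Bd ≤ Bd')
    (hα : α' ≤ α) : HasSys B δ p1 h0 h1 Bd' u α' := by
  obtain ⟨S, hst, hus⟩ := hS
  refine ⟨⟨S.Ω, S.fin, S.P, S.env, S.law, S.c, S.U,
    fun ω => { S.val ω with str := st5_stretch_mono (S.val ω).str hBd }⟩, hst, fun ε => ?_⟩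
  exact le_trans (mul_le_mul_of_nonneg_right hα (by positivity)) (hus ε)

end S5mono

/-! ### Conjugation by a bijection -/

section conj

variable {V W : Type*} (φ : V ≃ W)

/-- transport of a map -/
def st5_cnj (c : V → Option V) (w : W) : Option W := (c (φ.symm w)).map φ

theorem st5_cnj_some {c : V → Option V} {w w' : W} : st5_cnj φ c w = some w' ↔ c (φ.symm w) = some (φ.symm w') := by
  unfold st5_cnj
  rw [Option.map_eq_some_iff]
  constructor
  · rintro ⟨v, hv, rfl⟩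
    rw [hv, φ.symm_apply_apply]
  · intro h
    exact ⟨_, h, φ.apply_symm_apply _⟩

theorem st5_it_cnj (c : V → Option V) (k : ℕ) (w : W) : it (st5_cnj φ c) k w = (it c k (φ.symm w)).map φ := by
  induction k with
  | zero => simp [it]
  | succ k ih =>
    rw [it, it, ih]
    cases h : it c k (φ.symm w) with
    | none => rfl
    | some v => simp [st5_cnj]

theorem st5_it_cnj_some {c : V → Option V} {k : ℕ} {w w' : W} :
    it (st5_cnj φ c) k w = some w' ↔ it c k (φ.symm w) = some (φ.symm w') := by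
  rw [st5_it_cnj, Option.map_eq_some_iff]
  constructor
  · rintro ⟨v, hv, rfl⟩
    rw [hv, φ.symm_apply_apply]
  · intro h
    exact ⟨_, h, φ.apply_symm_apply _⟩

theorem st5_pinj_cnj {c : V → Option V} (h : PInj c) : PInj (st5_cnj φ c) := by
  intro x y v hx hy
  rw [st5_cnj_some] at hx hy
  exact φ.symm.injective (h _ _ _ hx hy)

theorem st5_intact_cnj {b c : V → Option V} {L : ℕ} {u : W} (h : Intact b c L (φ.symm u)) :
    Intact (st5_cnj φ b) (st5_cnj φ c) L u := by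
  intro k hk
  obtain ⟨y, y', h1, h2, h3⟩ := h k hk
  refine ⟨φ y, φ y', ?_, ?_, ?_⟩
  · rw [st5_it_cnj_some, φ.symm_apply_apply]; exact h1
  · rw [st5_cnj_some, φ.symm_apply_apply, φ.symm_apply_apply]; exact h2
  · rw [st5_cnj_some, φ.symm_apply_apply, φ.symm_apply_apply]; exact h3

theorem st5_stretch_cnj {b : V → Option V} {Good : V → Prop} {L : ℕ} {c : V → Option V} {Bd : ℕ}
    (h : Stretch b Good L c Bd) : Stretch (st5_cnj φ b) (fun w => Good (φ.symm w)) L (st5_cnj φ c) Bd := by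
  intro y hy
  have hy' : it c (Bd - 1) (φ.symm y) ≠ none := by
    intro h'
    apply hy
    rw [st5_it_cnj, h']
    rfl
  obtain ⟨j, u, h1, h2, h3, h4⟩ := h _ hy'
  refine ⟨j, φ u, h1, ?_, ?_, ?_⟩
  · rw [st5_it_cnj_some, φ.symm_apply_apply]; exact h2
  · show Good (φ.symm (φ u))
    rw [φ.symm_apply_apply]; exact h3
  · apply st5_intact_cnj
    rw [φ.symm_apply_apply]; exact h4

end conj

/-! ### Renaming the directions -/

section rename

variable {β δ μ : Type} [DecidableEq β] [Fintype β] [DecidableEq δ] [Fintype δ] [DecidableEq μ] [Fintype μ]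

/-- renaming of a product of probabilities -/
theorem st5_pi_rename {I J Ω : Type} [Fintype I] [DecidableEq I] [Fintype J] [DecidableEq J] [Fintype Ω] (e : J ≃ I)
    (P : FP Ω) (F : (J → Ω) → ℝ) :
    (FP.pi fun _ : I => P).E (fun ω => F (ω ∘ e)) = (FP.pi fun _ : J => P).E F := by
  rw [FP.E, ← Equiv.sum_comp (Equiv.arrowCongr e (Equiv.refl Ω)), FP.E]
  refine Finset.sum_congr rfl fun ω _ => ?_
  have h1 : (Equiv.arrowCongr e (Equiv.refl Ω)) ω ∘ e = ω := by
    funext j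
    simp
  rw [h1, FP.pi_w, FP.pi_w]
  congr 1
  rw [← Equiv.prod_comp e]
  refine Finset.prod_congr rfl fun j _ => ?_
  simp

theorem st5_par_comp_equiv {ι ι' : Type} [DecidableEq ι] [Fintype ι] [DecidableEq ι'] [Fintype ι'] (e : ι ≃ ι')
    (x : Cube ι') : par (x ∘ e) = par x := by
  unfold par
  congr 2
  have : (univ.filter fun i => (x ∘ e) i = true).card = (univ.filter fun i => x i = true).card := by
    refine Finset.card_bij (fun i _ => e i) ?_ ?_ ?_
    · intro i hi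
      simpa using hi
    · intro i _ j _ h
      exact e.injective h
    · intro j hj
      exact ⟨e.symm j, by simpa using hj, by simp⟩
  rw [this]

/-- renaming of the product cube -/
def st5_rlb (e : δ ≃ μ) : Cube (β ⊕ δ) ≃ Cube (β ⊕ μ) where
  toFun x := jn (x ∘ Sum.inl) ((x ∘ Sum.inr) ∘ e.symm)
  invFun x := jn (x ∘ Sum.inl) ((x ∘ Sum.inr) ∘ e)
  left_inv x := by
    funext j
    rcases j with j | j <;> simp [jn]
  right_inv x := by
    funext j
    rcases j with j | j <;> simp [jn]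

theorem st5_rlb_symm (e : δ ≃ μ) (x : Cube (β ⊕ μ)) :
    (st5_rlb e).symm x = jn (x ∘ Sum.inl) ((x ∘ Sum.inr) ∘ e) := rfl

theorem st5_rlb_symm_inl (e : δ ≃ μ) (x : Cube (β ⊕ μ)) : (st5_rlb e).symm x ∘ Sum.inl = x ∘ Sum.inl := rfl

theorem st5_rlb_symm_inr (e : δ ≃ μ) (x : Cube (β ⊕ μ)) : (st5_rlb e).symm x ∘ Sum.inr = (x ∘ Sum.inr) ∘ e := rfl

theorem st5_par_rlb (e : δ ≃ μ) (x : Cube (β ⊕ μ)) : par ((st5_rlb e).symm x) = par x := by
  rw [← st5_par_comp_equiv (Equiv.sumCongr (Equiv.refl β) e) x]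
  congr 1
  funext j
  rcases j with j | j <;> rfl

/-- renaming of an edge -/
def st5_rle (e : δ ≃ μ) (q : CE μ) : CE δ := (canE δ).e (q.1.1 ∘ e) (e.symm q.1.2)

theorem st5_rle_can (e : δ ≃ μ) (z : Cube μ) (i : δ) : st5_rle e ((canE μ).e z (e i)) = (canE δ).e (z ∘ e) i := by
  apply Subtype.ext
  show (Function.update ((Function.update z (e i) false) ∘ e) (e.symm (e i)) false, e.symm (e i)) =
    (Function.update (z ∘ e) i false, i)
  rw [e.symm_apply_apply]
  congr 1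
  funext j
  by_cases h : j = i
  · subst h; simp
  · simp [h]

/-- renaming of the edges, as a bijection -/
def st5_rleE (e : δ ≃ μ) : CE μ ≃ CE δ where
  toFun := st5_rle e
  invFun := st5_rle e.symm
  left_inv q := by
    obtain ⟨⟨z, m⟩, hq⟩ := q
    have h1 : (canE μ).e z m = ⟨(z, m), hq⟩ := by
      apply Subtype.ext
      show (Function.update z m false, m) = (z, m)
      congr 1
      funext j
      by_cases h : j = m
      · subst h; simpa using hq.symm
      · simp [h]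
    have h2 := st5_rle_can e z (e.symm m)
    rw [e.apply_symm_apply, h1] at h2
    rw [h2]
    have h3 := st5_rle_can e.symm (z ∘ e) m
    rw [h3]
    have h4 : (z ∘ e) ∘ e.symm = z := by funext j; simp
    rw [h4, h1]
  right_inv q := by
    obtain ⟨⟨z, m⟩, hq⟩ := q
    have h1 : (canE δ).e z m = ⟨(z, m), hq⟩ := by
      apply Subtype.ext
      show (Function.update z m false, m) = (z, m)
      congr 1
      funext j
      by_cases h : j = m
      · subst h; simpa using hq.symm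
      · simp [h]
    have h2 := st5_rle_can e.symm z (e m)
    rw [e.symm_apply_apply, h1] at h2
    rw [h2]
    have h3 := st5_rle_can e (z ∘ e.symm) m
    rw [h3]
    have h4 : (z ∘ e.symm) ∘ e = z := by funext j; simp
    rw [h4, h1]

variable {nR : ℕ}

theorem st5_liftP_rlb (e : δ ≃ μ) (f : Cube δ → Cube β → Option (Cube β)) :
    liftP (fun z : Cube μ => f (z ∘ e)) = st5_cnj (st5_rlb e) (liftP f) := by
  funext x
  unfold liftP st5_cnj
  dsimp only
  rw [st5_rlb_symm_inl, st5_rlb_symm_inr, Option.map_map]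
  congr 1
  funext y
  show jn y (x ∘ Sum.inr) = jn y (((x ∘ Sum.inr) ∘ e) ∘ e.symm)
  congr 1
  funext j
  simp

theorem st5_flip_rlb (e : δ ≃ μ) (i : δ) (x : Cube (β ⊕ μ)) :
    (st5_rlb e).symm (flip (Sum.inr (e i)) x) = flip (Sum.inr i) ((st5_rlb e).symm x) := by
  rw [flip_inr, flip_inr, st5_rlb_symm, st5_rlb_symm_inl, st5_rlb_symm_inr, jn_inl, jn_inr]
  congr 1
  funext j
  by_cases h : j = i
  · subst h; simp
  · simp [h]

theorem st5_sysV_rename (e : δ ≃ μ) {L : ℕ} {D : Cube δ → BD β nR} {rg : Cube β × CE δ → Bool}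
    {c : Cube (β ⊕ δ) → Option (Cube (β ⊕ δ))} {U : Finset (Cube (β ⊕ δ))} {Bd : ℕ} (h : SysV L D rg c U Bd) :
    SysV L (fun z : Cube μ => D (z ∘ e)) (fun q : Cube β × CE μ => rg (q.1, st5_rle e q.2)) (st5_cnj (st5_rlb e) c)
      (univ.filter fun x => (st5_rlb e).symm x ∈ U) Bd where
  inj := st5_pinj_cnj _ h.inj
  no2 x x' hx := by
    rw [st5_cnj_some] at hx
    intro h'
    rw [st5_cnj_some] at h'
    exact h.no2 _ _ hx h'
  edge x x' hx := by
    rw [st5_cnj_some] at hx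
    rcases h.edge _ _ hx with ⟨h1, h2⟩ | ⟨i, h1, h2⟩
    · left
      rw [st5_rlb_symm_inr, st5_rlb_symm_inr] at h1
      refine ⟨?_, ?_⟩
      · funext j
        have := congrFun h1 (e.symm j)
        simpa using this
      · exact h2
    · right
      refine ⟨e i, ?_, ?_⟩
      · rw [← st5_flip_rlb] at h1
        exact (st5_rlb e).symm.injective h1
      · show rg (x ∘ Sum.inl, st5_rle e ((canE μ).e (x ∘ Sum.inr) (e i))) = true
        rw [st5_rle_can]
        exact h2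
  keep z y y' hy hyU := by
    rw [st5_cnj_some, st5_rlb_symm, st5_rlb_symm]
    exact h.keep _ _ _ hy hyU
  useb x hx := by
    have hx' : (st5_rlb e).symm x ∈ U := by simpa using hx
    exact h.useb _ hx'
  usef x hx := by
    have hx' : (st5_rlb e).symm x ∈ U := by simpa using hx
    obtain ⟨u, h1, h2, h3, h4⟩ := h.usef _ hx'
    refine ⟨st5_rlb e u, ?_, ?_, ?_, ?_⟩
    · rw [st5_liftP_rlb e (fun z => (D z).b), st5_cnj_some, Equiv.symm_apply_apply]
      exact h1
    · rw [st5_cnj_some, Equiv.symm_apply_apply]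
      exact h2
    · have h3' : lGd D ((st5_rlb e).symm (st5_rlb e u)) := by rw [Equiv.symm_apply_apply]; exact h3
      exact h3'
    · rw [st5_liftP_rlb e (fun z => (D z).b)]
      apply st5_intact_cnj
      rw [Equiv.symm_apply_apply]
      exact h4
  useB x hx := by
    have hx' : (st5_rlb e).symm x ∈ U := by simpa using hx
    obtain ⟨u, h1, h2, h3⟩ := h.useB _ hx'
    refine ⟨st5_rlb e u, ?_, ?_, ?_⟩
    · have h3' : lGd D ((st5_rlb e).symm (st5_rlb e u)) := by rw [Equiv.symm_apply_apply]; exact h1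
      exact h3'
    · rw [st5_liftP_rlb e (fun z => (D z).b), st5_it_cnj_some, Equiv.symm_apply_apply]
      exact h2
    · rw [st5_liftP_rlb e (fun z => (D z).b)]
      apply st5_intact_cnj
      rw [Equiv.symm_apply_apply]
      exact h3
  str := by
    rw [st5_liftP_rlb e (fun z => (D z).b)]
    exact st5_stretch_cnj (st5_rlb e) h.str

end rename

section S5equiv

variable {β : Type} [DecidableEq β] [Fintype β] {nR : ℕ} {pb : ℝ} {hb0 : 0 ≤ pb} {hb1 : pb ≤ 1}
  {u0 α0 ρ : ℝ} {L Vr Bd0 M0 : ℕ} {B : BaseLaw β nR pb hb0 hb1 u0 α0 ρ L Vr Bd0 M0}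
  {δ μ : Type} [DecidableEq δ] [Fintype δ] [DecidableEq μ] [Fintype μ] {p1 : ℝ} {h0 : 0 ≤ p1} {h1 : p1 ≤ 1} {Bd : ℕ}

theorem st5_envL_rename (e : δ ≃ μ) (F : ((Cube μ → B.Ω) × (Cube β × CE μ → Bool)) → ℝ) :
    (envL B δ p1 h0 h1).E (fun q => F (fun z => q.1 (z ∘ e), fun s => q.2 (s.1, st5_rle e s.2))) =
      (envL B μ p1 h0 h1).E F := by
  rw [envL, envL, FP.E_prod, FP.E_prod]
  have h2 : ∀ a : Cube μ → B.Ω, (bern p1 h0 h1 (Cube β × CE μ)).E (fun b => F (a, b)) =
      (bern p1 h0 h1 (Cube β × CE δ)).E (fun b => F (a, fun s => b (s.1, st5_rle e s.2))) := fun a =>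
    bern_equiv (Equiv.prodCongr (Equiv.refl (Cube β)) (st5_rleE e)) _
  rw [FP.E_congr _ h2]
  exact st5_pi_rename (Equiv.arrowCongr e.symm (Equiv.refl Bool) : Cube μ ≃ Cube δ) B.μ
    (fun a => (bern p1 h0 h1 (Cube β × CE δ)).E (fun b => F (a, fun s => b (s.1, st5_rle e s.2))))

theorem HasSys.equiv (e : δ ≃ μ) {u : Bool → ℝ} {α : ℝ} (hS : HasSys B δ p1 h0 h1 Bd u α) :
    HasSys B μ p1 h0 h1 Bd u α := by
  obtain ⟨S, hst, hus⟩ := hS
  refine ⟨⟨S.Ω, S.fin, S.P, fun ω => (fun z => (S.env ω).1 (z ∘ e), fun s => (S.env ω).2 (s.1, st5_rle e s.2)),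
    fun F => ?_, fun ω => st5_cnj (st5_rlb e) (S.c ω), fun ω => univ.filter fun x => (st5_rlb e).symm x ∈ S.U ω,
    fun ω => st5_sysV_rename e (S.val ω)⟩, fun ε => ?_, fun ε => ?_⟩
  · rw [← st5_envL_rename e F]
    exact S.law (fun q => F (fun z => q.1 (z ∘ e), fun s => q.2 (s.1, st5_rle e s.2)))
  · rw [← Fintype.card_congr e, ← hst ε]
    unfold Sys.st
    refine FP.E_congr _ fun ω => ?_
    congr 1
    refine Finset.card_bij (fun x _ => (st5_rlb e).symm x) ?_ ?_ ?_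
    · intro x hx
      rw [Finset.mem_filter] at hx ⊢
      refine ⟨Finset.mem_univ _, ?_, ?_⟩
      · rw [st5_par_rlb]; exact hx.2.1
      · intro w hw
        apply hx.2.2 (st5_rlb e w)
        rw [st5_cnj_some, Equiv.symm_apply_apply]
        exact hw
    · intro x _ y _ hxy
      exact (st5_rlb e).symm.injective hxy
    · intro x hx
      rw [Finset.mem_filter] at hx
      refine ⟨st5_rlb e x, ?_, Equiv.symm_apply_apply _ _⟩
      rw [Finset.mem_filter]
      refine ⟨Finset.mem_univ _, ?_, ?_⟩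
      · rw [← st5_par_rlb e, Equiv.symm_apply_apply]; exact hx.2.1
      · intro w hw
        rw [st5_cnj_some, Equiv.symm_apply_apply] at hw
        exact hx.2.2 _ hw
  · rw [← Fintype.card_congr e]
    refine (hus ε).trans (le_of_eq ?_)
    unfold Sys.us
    refine FP.E_congr _ fun ω => ?_
    congr 1
    symm
    refine Finset.card_bij (fun x _ => (st5_rlb e).symm x) ?_ ?_ ?_
    · intro x hx
      rw [Finset.mem_filter] at hx ⊢
      refine ⟨Finset.mem_univ _, ?_, ?_⟩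
      · rw [st5_par_rlb]; exact hx.2.1
      · simpa using hx.2.2
    · intro x _ y _ hxy
      exact (st5_rlb e).symm.injective hxy
    · intro x hx
      rw [Finset.mem_filter] at hx
      refine ⟨st5_rlb e x, ?_, Equiv.symm_apply_apply _ _⟩
      rw [Finset.mem_filter]
      refine ⟨Finset.mem_univ _, ?_, ?_⟩
      · rw [← st5_par_rlb e, Equiv.symm_apply_apply]; exact hx.2.1
      · simpa using hx.2.2

end S5equiv

/-! ### The initial system -/

section lift

variable {β δ : Type} [DecidableEq β] [Fintype β] [DecidableEq δ] [Fintype δ] {nR : ℕ}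

theorem st5_liftP_some {f : Cube δ → Cube β → Option (Cube β)} {x v : Cube (β ⊕ δ)} :
    liftP f x = some v ↔ f (x ∘ Sum.inr) (x ∘ Sum.inl) = some (v ∘ Sum.inl) ∧ v ∘ Sum.inr = x ∘ Sum.inr := by
  unfold liftP
  rw [Option.map_eq_some_iff]
  constructor
  · rintro ⟨y, hy, rfl⟩
    exact ⟨hy, rfl⟩
  · rintro ⟨h1, h2⟩
    refine ⟨_, h1, ?_⟩
    rw [← h2]
    exact jn_self v

theorem st5_liftP_none {f : Cube δ → Cube β → Option (Cube β)} {x : Cube (β ⊕ δ)} :
    liftP f x = none ↔ f (x ∘ Sum.inr) (x ∘ Sum.inl) = none := by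
  unfold liftP
  rw [Option.map_eq_none_iff]

theorem st5_it_liftP (f : Cube δ → Cube β → Option (Cube β)) (k : ℕ) (x : Cube (β ⊕ δ)) :
    it (liftP f) k x = (it (f (x ∘ Sum.inr)) k (x ∘ Sum.inl)).map fun y => jn y (x ∘ Sum.inr) := by
  induction k with
  | zero =>
    show some x = some (jn (x ∘ Sum.inl) (x ∘ Sum.inr))
    rw [jn_self]
  | succ k ih =>
    rw [it, it, ih]
    cases h : it (f (x ∘ Sum.inr)) k (x ∘ Sum.inl) with
    | none => rfl
    | some v => rfl

theorem st5_intact_liftP {b c : Cube δ → Cube β → Option (Cube β)} {L : ℕ} {u : Cube β} {z : Cube δ}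
    (h : Intact (b z) (c z) L u) : Intact (liftP b) (liftP c) L (jn u z) := by
  intro k hk
  obtain ⟨y, y', h1, h2, h3⟩ := h k hk
  refine ⟨jn y z, jn y' z, ?_, ?_, ?_⟩
  · rw [st5_it_liftP, jn_inr, jn_inl, h1]; rfl
  · rw [st5_liftP_some]; exact ⟨h2, rfl⟩
  · rw [st5_liftP_some]; exact ⟨h3, rfl⟩

theorem st5_sysV_lift {D0 : Finset β} {Adms : Finset (CE β) → Prop} {L Vr Bd : ℕ} {D : Cube δ → BD β nR}
    (hD : ∀ z, (D z).Val D0 Adms L Vr Bd) (rg : Cube β × CE δ → Bool) :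
    SysV L D rg (liftP fun z => (D z).c) (univ.filter fun x => x ∘ Sum.inl ∈ (D (x ∘ Sum.inr)).U) Bd where
  inj x y v hx hy := by
    rw [st5_liftP_some] at hx hy
    have h1 : x ∘ Sum.inr = y ∘ Sum.inr := by rw [← hx.2, ← hy.2]
    have h2 := hx.1
    rw [h1] at h2
    have h3 := (hD _).cInj _ _ _ h2 hy.1
    rw [← jn_self x, ← jn_self y, h1, h3]
  no2 x x' hx h := by
    rw [st5_liftP_some] at hx h
    have h1 := h.1
    rw [hx.2] at h1
    exact (hD _).no2 _ _ hx.1 h1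
  edge x x' hx := by
    rw [st5_liftP_some] at hx
    exact Or.inl ⟨hx.2, hx.1⟩
  keep z y y' hy _ := by
    rw [st5_liftP_some]
    exact ⟨hy, rfl⟩
  useb x hx := by simpa using hx
  usef x hx := by
    have hx' : x ∘ Sum.inl ∈ (D (x ∘ Sum.inr)).U := by simpa using hx
    obtain ⟨u, h1, h2, h3, h4⟩ := (hD _).uf _ hx'
    refine ⟨jn u (x ∘ Sum.inr), ?_, ?_, h1, st5_intact_liftP (b := fun z => (D z).b) (c := fun z => (D z).c) h4⟩
    · rw [st5_liftP_some]; exact ⟨h2, rfl⟩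
    · rw [st5_liftP_some]; exact ⟨h3, rfl⟩
  useB x hx := by
    have hx' : x ∘ Sum.inl ∈ (D (x ∘ Sum.inr)).U := by simpa using hx
    obtain ⟨u, h1, h2, h3⟩ := (hD _).ub _ hx'
    refine ⟨jn u (x ∘ Sum.inr), h1, ?_, st5_intact_liftP (b := fun z => (D z).b) (c := fun z => (D z).c) h3⟩
    rw [st5_it_liftP, jn_inr, jn_inl, h2]
    show some (jn (x ∘ Sum.inl) (x ∘ Sum.inr)) = some x
    rw [jn_self]
  str x hx := by
    have hx' : it (D (x ∘ Sum.inr)).c (Bd - 1) (x ∘ Sum.inl) ≠ none := by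
      intro h
      apply hx
      rw [st5_it_liftP, h]
      rfl
    obtain ⟨j, u, h1, h2, h3, h4⟩ := (hD _).str _ hx'
    refine ⟨j, jn u (x ∘ Sum.inr), h1, ?_, h3, st5_intact_liftP (b := fun z => (D z).b) (c := fun z => (D z).c) h4⟩
    rw [st5_it_liftP, h2]
    rfl

theorem st5_par_of_lift {D0 : Finset β} {Adms : Finset (CE β) → Prop} {L Vr Bd : ℕ} {D : Cube δ → BD β nR}
    (hD : ∀ z, (D z).Val D0 Adms L Vr Bd) (y y' : Cube (β ⊕ δ)) (h : liftP (fun z => (D z).c) y = some y') :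
    par y' = !par y := by
  rw [st5_liftP_some] at h
  obtain ⟨i, hi, -⟩ := (hD _).cOpen _ _ h.1
  have : y' = flip (Sum.inl i) y := by
    rw [flip_inl, ← hi, ← h.2, jn_self]
  rw [this, par_flip]

/-- size of a parity class -/
theorem st5_card_par {κ : Type} [DecidableEq κ] [Fintype κ] [Nonempty κ] (b : Bool) :
    ((univ.filter fun x : Cube κ => par x = b).card : ℝ) = 2 ^ Fintype.card κ / 2 := by
  have h := (parL κ b).sum_one
  have h2 : ∑ τ : Cube κ, (parL κ b).w τ = (univ.filter fun x : Cube κ => par x = b).card * (2 / 2 ^ Fintype.card κ) := by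
    show ∑ τ : Cube κ, (if par τ = b then (2 : ℝ) / 2 ^ Fintype.card κ else 0) = _
    rw [Finset.sum_ite, Finset.sum_const, Finset.sum_const_zero, add_zero, nsmul_eq_mul]
  rw [h2] at h
  have h3 : (0 : ℝ) < 2 ^ Fintype.card κ := by positivity
  field_simp at h ⊢
  linarith

/-- expectation of the number of elements of parity `b` of a random set -/
theorem st5_E_card_par {Ω κ : Type} [Fintype Ω] [DecidableEq κ] [Fintype κ] (P : FP Ω) (b : Bool) (A : Ω → Cube κ → Prop)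
    [∀ ω, DecidablePred fun x => par x = b ∧ A ω x] :
    P.E (fun ω => ((univ.filter fun x : Cube κ => par x = b ∧ A ω x).card : ℝ)) =
      ∑ x ∈ univ.filter (fun x : Cube κ => par x = b), P.pr (fun ω => A ω x) := by
  classical
  have h1 : ∀ ω, ((univ.filter fun x : Cube κ => par x = b ∧ A ω x).card : ℝ) =
      ∑ x ∈ univ.filter (fun x : Cube κ => par x = b), if A ω x then (1 : ℝ) else 0 := by
    intro ω
    rw [Finset.sum_boole, Finset.filter_filter]
    congr 2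
    ext x
    simp
  rw [FP.E_congr _ h1, FP.E_sum]
  refine Finset.sum_congr rfl fun x _ => ?_
  rw [FP.pr_eq]

end lift

section S5zero

variable {β : Type} [DecidableEq β] [Fintype β] {nR : ℕ} {pb : ℝ} {hb0 : 0 ≤ pb} {hb1 : pb ≤ 1}
  {u0 α0 ρ : ℝ} {L Vr Bd0 M0 : ℕ}
  {δ : Type} [DecidableEq δ] [Fintype δ]

theorem st5_envL_pr (B : BaseLaw β nR pb hb0 hb1 u0 α0 ρ L Vr Bd0 M0) (p1 : ℝ) (h0 : 0 ≤ p1) (h1 : p1 ≤ 1) (z : Cube δ)
    (A : B.Ω → Prop) :
    (envL B δ p1 h0 h1).pr (fun q => A (q.1 z)) = B.μ.pr A := by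
  classical
  rw [FP.pr_eq, envL, FP.E_prod]
  have h2 : ∀ a : Cube δ → B.Ω, (bern p1 h0 h1 (Cube β × CE δ)).E (fun b => if A ((a, b).1 z) then (1 : ℝ) else 0) =
      if A (a z) then 1 else 0 := by
    intro a
    by_cases h : A (a z) <;> simp [h]
  rw [FP.E_congr _ h2, FP.pr_eq]
  exact FP.E_pi_single (fun _ : Cube δ => B.μ) z (fun ω => if A ω then 1 else 0)

/-- the system without surgery -/
noncomputable def st5_sysLift (B : BaseLaw β nR pb hb0 hb1 u0 α0 ρ L Vr Bd0 M0) (δ : Type) [DecidableEq δ] [Fintype δ]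
    (p1 : ℝ) (h0 : 0 ≤ p1) (h1 : p1 ≤ 1) : Sys B δ p1 h0 h1 Bd0 where
  Ω := (Cube δ → B.Ω) × (Cube β × CE δ → Bool)
  fin := inferInstance
  P := envL B δ p1 h0 h1
  env := id
  law _ := rfl
  c q := liftP fun z => (B.bd (q.1 z)).c
  U q := univ.filter fun x => x ∘ Sum.inl ∈ (B.bd (q.1 (x ∘ Sum.inr))).U
  val q := st5_sysV_lift (D := fun z => B.bd (q.1 z)) (fun z => B.val (q.1 z)) q.2

theorem st5_sysLift_st [Nonempty β] (B : BaseLaw β nR pb hb0 hb1 u0 α0 ρ L Vr Bd0 M0) (p1 : ℝ) (h0 : 0 ≤ p1) (h1 : p1 ≤ 1)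
    (ε : Bool) : (st5_sysLift B δ p1 h0 h1).st ε ≤ u0 * (2 ^ (Fintype.card β + Fintype.card δ) / 2) := by
  classical
  have h2 : ∀ q : (Cube δ → B.Ω) × (Cube β × CE δ → Bool),
      ((univ.filter fun x : Cube (β ⊕ δ) => par x = ε ∧ ∀ w, liftP (fun z => (B.bd (q.1 z)).c) w ≠ some x).card : ℝ) =
      ((univ.filter fun x : Cube (β ⊕ δ) => par x = !ε ∧ (B.bd (q.1 (x ∘ Sum.inr))).c (x ∘ Sum.inl) = none).card : ℝ) := by
    intro q
    have h3 := card_starts_ends (liftP fun z => (B.bd (q.1 z)).c)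
      (st5_sysV_lift (D := fun z => B.bd (q.1 z)) (fun z => B.val (q.1 z)) q.2).inj
      (fun y y' h => st5_par_of_lift (D := fun z => B.bd (q.1 z)) (fun z => B.val (q.1 z)) y y' h) ε
    rw [h3]
    congr 2
    ext x
    simp only [Finset.mem_filter, Finset.mem_univ, true_and]
    refine and_congr_right fun _ => ?_
    exact st5_liftP_none
  have h5 : (st5_sysLift B δ p1 h0 h1).st ε = (envL B δ p1 h0 h1).E fun q =>
      ((univ.filter fun x : Cube (β ⊕ δ) => par x = ε ∧ ∀ w, liftP (fun z => (B.bd (q.1 z)).c) w ≠ some x).card : ℝ) := by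
    unfold Sys.st
    refine FP.E_congr _ fun q => ?_
    congr
  rw [h5, FP.E_congr _ h2, st5_E_card_par (envL B δ p1 h0 h1) (!ε)
    (fun q (x : Cube (β ⊕ δ)) => (B.bd (q.1 (x ∘ Sum.inr))).c (x ∘ Sum.inl) = none)]
  have h4 : ∀ x ∈ univ.filter (fun x : Cube (β ⊕ δ) => par x = !ε),
      (envL B δ p1 h0 h1).pr (fun q => (B.bd (q.1 (x ∘ Sum.inr))).c (x ∘ Sum.inl) = none) ≤ u0 := by
    intro x _
    rw [st5_envL_pr B p1 h0 h1 (x ∘ Sum.inr) (fun ω => (B.bd ω).c (x ∘ Sum.inl) = none)]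
    exact B.ends _
  refine (Finset.sum_le_sum h4).trans (le_of_eq ?_)
  rw [Finset.sum_const, nsmul_eq_mul, st5_card_par, Fintype.card_sum]
  ring

theorem st5_sysLift_us [Nonempty β] (B : BaseLaw β nR pb hb0 hb1 u0 α0 ρ L Vr Bd0 M0) (p1 : ℝ) (h0 : 0 ≤ p1) (h1 : p1 ≤ 1)
    (ε : Bool) : α0 * (2 ^ (Fintype.card β + Fintype.card δ) / 2) ≤ (st5_sysLift B δ p1 h0 h1).us ε := by
  classical
  have h5 : (st5_sysLift B δ p1 h0 h1).us ε = (envL B δ p1 h0 h1).E fun q =>
      ((univ.filter fun x : Cube (β ⊕ δ) => par x = ε ∧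
        x ∈ (univ.filter fun x => x ∘ Sum.inl ∈ (B.bd (q.1 (x ∘ Sum.inr))).U)).card : ℝ) := by
    unfold Sys.us
    refine FP.E_congr _ fun q => ?_
    congr
  rw [h5, st5_E_card_par (envL B δ p1 h0 h1) ε
    (fun q (x : Cube (β ⊕ δ)) => x ∈ (univ.filter fun x => x ∘ Sum.inl ∈ (B.bd (q.1 (x ∘ Sum.inr))).U))]
  have h4 : ∀ x ∈ univ.filter (fun x : Cube (β ⊕ δ) => par x = ε), α0 ≤
      (envL B δ p1 h0 h1).pr (fun q => x ∈ (univ.filter fun x => x ∘ Sum.inl ∈ (B.bd (q.1 (x ∘ Sum.inr))).U)) := by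
    intro x _
    have h5 := st5_envL_pr B p1 h0 h1 (x ∘ Sum.inr) (fun ω => x ∘ Sum.inl ∈ (B.bd ω).U)
    refine (B.use (x ∘ Sum.inl)).trans ?_
    rw [← h5]
    refine FP.pr_mono _ fun q hq => ?_
    rw [Finset.mem_filter]
    exact ⟨Finset.mem_univ _, hq⟩
  refine (le_of_eq ?_).trans (Finset.sum_le_sum h4)
  rw [Finset.sum_const, nsmul_eq_mul, st5_card_par, Fintype.card_sum]
  ring

/-- the start of the iteration -/
theorem hasSys_zero [Nonempty β] (B : BaseLaw β nR pb hb0 hb1 u0 α0 ρ L Vr Bd0 M0) (p1 : ℝ) (h0 : 0 ≤ p1) (h1 : p1 ≤ 1) :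
    ∃ u : Bool → ℝ, (∀ ε, 0 ≤ u ε ∧ u ε ≤ u0) ∧ HasSys B (Fin 0) p1 h0 h1 Bd0 u α0 := by
  set N : ℝ := 2 ^ (Fintype.card β + Fintype.card (Fin 0)) / 2 with hN
  have hN0 : 0 < N := by rw [hN]; positivity
  refine ⟨fun ε => (st5_sysLift B (Fin 0) p1 h0 h1).st ε / N, fun ε => ⟨?_, ?_⟩, st5_sysLift B (Fin 0) p1 h0 h1, fun ε => ?_,
    fun ε => st5_sysLift_us B p1 h0 h1 ε⟩
  · refine div_nonneg ?_ hN0.le
    unfold Sys.st
    exact FP.E_nonneg _ fun _ => Nat.cast_nonneg _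
  · rw [div_le_iff₀ hN0]
    exact st5_sysLift_st B p1 h0 h1 ε
  · rw [← hN, div_mul_cancel₀ _ hN0.ne']

end S5zero

end Pool.Agent.LongCyc.Dense
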